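import Pool.Agent.CRS.StI

/-!
Campaign CRS, p = 2, module ADD: the two parts of a good additive function.
-/

set_option autoImplicit false

namespace Pool.Agent.CRS

open Pool.Agent.CRR Pool.Agent.CRN Pool.Agent.CRK Pool.Agent.CRL Pool.Agent.CRM Pool.Agent.CRP
open Pool.Agent.CRQ

private lemma ADD_len {g : ℕ} (i : Fin g) (w : List (Fin g)) (h2 : w.count i = 2) (h1 : ∀ j, j ≠ i → w.count j = 1) :
    w.length = g + 1 := by
  have e1 : ∑ a : Fin g, (w : Multiset (Fin g)).count a = Multiset.card (w : Multiset (Fin g)) :=
    Multiset.sum_count_eq_card (fun a _ => Finset.mem_univ a)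
  rw [Multiset.coe_card] at e1
  rw [← e1]
  have e2 : ∀ a : Fin g, (w : Multiset (Fin g)).count a = 1 + if a = i then 1 else 0 := by
    intro a
    rw [Multiset.coe_count]
    by_cases ha : a = i
    · rw [if_pos ha, ha, h2]
    · rw [if_neg ha, h1 a ha]
  simp_rw [e2]
  rw [Finset.sum_add_distrib]
  simp

private lemma ADD_mul {K A ι : Type} [CommRing K] [NonUnitalRing A] [Module K A] [SMulCommClass K A A]
    (y : A) (x : ι → A) : ∀ L : List (K × List ι), (∀ q ∈ L, y * wp (q.2.map x) = 0) → y * Ew L x = 0
  | [], _ => by
    show y * (0 : A) = 0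
    rw [mul_zero]
  | q :: L, h => by
    have ih := ADD_mul y x L (fun q' hq' => h q' (List.mem_cons_of_mem _ hq'))
    have e1 : Ew (q :: L) x = q.1 • wp (q.2.map x) + Ew L x := by
      unfold Ew
      rw [List.map_cons, List.sum_cons]
    rw [e1, mul_add, ih, mul_smul_comm, h q List.mem_cons_self, smul_zero, add_zero]

private lemma ADD_zero {K A ι : Type} [CommRing K] [NonUnitalRing A] [Module K A]
    (x : ι → A) : ∀ L : List (K × List ι), (∀ q ∈ L, wp (q.2.map x) = 0) → Ew L x = 0
  | [], _ => rfl
  | q :: L, h => by
    have ih := ADD_zero x L (fun q' hq' => h q' (List.mem_cons_of_mem _ hq'))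
    have e1 : Ew (q :: L) x = q.1 • wp (q.2.map x) + Ew L x := by
      unfold Ew
      rw [List.map_cons, List.sum_cons]
    rw [e1, ih, h q List.mem_cons_self, smul_zero, add_zero]

theorem thm_ADD (hT : St_TOP) (hP : St_PUW) (hL : St_LIN) : St_ADD := by
  intro K _ A _ _ _ _ M H g f L₀ E r l hB hG h1 hf
  have h6 := hB.six
  have hPu : ∀ i : Fin g, ∃ L : List (K × List (Fin g)), (∀ q ∈ L, q.2.count i = 2 ∧ ∀ j, j ≠ i → q.2.count j = 1) ∧
      ∀ x : Fin g → A, Pu g i (E i) (r i) (l i) x = Ew L x := fun i => hP K A g i (E i) (r i) (l i) h6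
  choose L hL1 hL2 using hPu
  have hlen : ∀ i, ∀ q ∈ L i, q.2.length = g + 1 := fun i q hq => ADD_len i q.2 (hL1 i q hq).1 (hL1 i q hq).2
  refine ⟨?_, ?_, ?_⟩
  · intro x y
    have e1 : y * f x = 0 := ((hB.kst.h0 (f x) (hG.val x)).2 y).2
    have e2 : ∀ i, y * Pu g i (E i) (r i) (l i) x = 0 := by
      intro i
      rw [hL2 i x]
      refine ADD_mul y x (L i) fun q hq => ?_
      have hl := hlen i q hq
      have hne : q.2.map x ≠ [] := by
        intro h
        have h3 := congrArg List.length h
        rw [List.length_map, List.length_nil] at h3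
        omega
      rw [← Gdc_wp_cons y hne]
      refine hB.top _ ?_
      rw [List.length_cons, List.length_map]
      omega
    rw [hf x, mul_add, Finset.mul_sum, Finset.sum_eq_zero (fun i _ => e2 i), add_zero] at e1
    exact e1
  · intro p x y
    set x' := Function.update x p (x p * y) with hx'
    have e1 : f x' = 0 := by
      have e3 : f x' = f (Function.update x p 0) := by
        refine hG.inv _ _ fun i => ?_
        by_cases hi : i = p
        · subst hi
          rw [hx', Function.update_self, Function.update_self, sub_zero]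
          exact hB.kst.mm _ _
        · rw [hx', Function.update_of_ne hi, Function.update_of_ne hi, sub_self]
          exact M.zero_mem
      rw [e3]
      refine hG.dep _ (Pi.single p (1 : K)) p ?_ ?_
      · rw [Pi.single_eq_same]
        refine ⟨1, fun z => ⟨0, ?_⟩⟩
        rw [one_smul, one_smul, sub_self, smul_zero]
      · rw [Finset.sum_eq_single p]
        · rw [Function.update_self, smul_zero]
          exact M.zero_mem
        · intro b _ hb
          rw [Pi.single_eq_of_ne hb, zero_smul]
        · intro h
          exact absurd (Finset.mem_univ _) h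
    have e2 : ∀ i, Pu g i (E i) (r i) (l i) x' = 0 := by
      intro i
      rw [hL2 i x']
      refine ADD_zero x' (L i) fun q hq => ?_
      refine (hT K A M H (g + 1) hB.kst hB.mt (by omega) (fun l' hl' => hB.top l' hl')).2.1 _ ?_ ?_
      · rw [List.length_map]
        exact hlen i q hq
      · refine ⟨x' p, ?_, ?_⟩
        · refine List.mem_map_of_mem ?_
          rw [← List.count_pos_iff]
          by_cases hpi : p = i
          · rw [hpi, (hL1 i q hq).1]
            norm_num
          · rw [(hL1 i q hq).2 p hpi]
            norm_num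
        · rw [hx', Function.update_self]
          exact hB.kst.mm _ _
    rw [hf x', Finset.sum_eq_zero (fun i _ => e2 i), add_zero] at e1
    exact e1
  · intro hadd i x y
    have h3 := hadd i x y
    have hs : Function.update x i (x i) = x := Function.update_eq_self i x
    have e0 : Ew L₀ (Function.update x i (x i + y)) = Ew L₀ x + Ew L₀ (Function.update x i y) := by
      have := (hL K A (Fin g) i L₀ (fun q hq => h1 q hq i)).1 x (x i) y
      rw [hs] at this
      exact this
    have ek : ∀ k, k ≠ i → Pu g k (E k) (r k) (l k) (Function.update x i (x i + y)) =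
        Pu g k (E k) (r k) (l k) x + Pu g k (E k) (r k) (l k) (Function.update x i y) := by
      intro k hk
      rw [hL2 k, hL2 k, hL2 k]
      have := (hL K A (Fin g) i (L k) (fun q hq => (hL1 k q hq).2 i (Ne.symm hk))).1 x (x i) y
      rw [hs] at this
      exact this
    rw [hf, hf x, hf (Function.update x i y), e0] at h3
    have e5 : ∑ k, (Pu g k (E k) (r k) (l k) (Function.update x i (x i + y)) - (Pu g k (E k) (r k) (l k) x +
        Pu g k (E k) (r k) (l k) (Function.update x i y))) = 0 := by
      rw [Finset.sum_sub_distrib, Finset.sum_add_distrib]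
      have h4 : ∑ k, Pu g k (E k) (r k) (l k) (Function.update x i (x i + y)) =
          ∑ k, Pu g k (E k) (r k) (l k) x + ∑ k, Pu g k (E k) (r k) (l k) (Function.update x i y) := by
        have h5 : Ew L₀ x + Ew L₀ (Function.update x i y) + ∑ k, Pu g k (E k) (r k) (l k) (Function.update x i (x i + y)) =
            Ew L₀ x + Ew L₀ (Function.update x i y) + (∑ k, Pu g k (E k) (r k) (l k) x +
              ∑ k, Pu g k (E k) (r k) (l k) (Function.update x i y)) := by
          rw [h3]
          abel
        exact add_left_cancel h5
      rw [h4, sub_self]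
    rw [Finset.sum_eq_single i] at e5
    · exact sub_eq_zero.mp e5
    · intro k _ hk
      rw [ek k hk, sub_self]
    · intro h
      exact absurd (Finset.mem_univ _) h

end Pool.Agent.CRS
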