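import Pool.Agent.CRS.StC
import Pool.Agent.CRQ.Cfr

/-!
Campaign CRS, module Cfx: the frames of a central local ring (as CRQ/Cfr).
-/

set_option autoImplicit false

namespace Pool.Agent.CRS

open Pool.Agent.CRR Pool.Agent.CRN Pool.Agent.CRK Pool.Agent.CRL Pool.Agent.CRM Pool.Agent.CRP
open Pool.Agent.CRQ

theorem thm_Cfx : St_Cfx := by
  intro n p N R _ _ e t₀ h t ht
  have hC := h.fr.cy
  obtain ⟨N', hN1, _, hNp, _, hall⟩ := thm_Tyn n p R hC e h.fr.prm h.fr.one
  have hL' : ∀ t, Frame R n 1 (fun _ => t) → Lfr n p N' e t := fun t ht =>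
    { cy := hC
      prm := h.fr.prm
      one := h.fr.one
      fr := ht
      n1 := hN1
      np := hNp
      pn := (hall t ht).2.1
      un := (hall t ht).2.2 }
  have hNN : N' = N := le_antisymm (Cen_le (hL' t₀ h.fr.fr) h.fr) (Cen_le h.fr (hL' t₀ h.fr.fr))
  subst hNN
  have hL := hL' t ht
  have hcen : ∀ r, t * r = r * t := by
    intro r
    obtain ⟨θ, π, hθ⟩ := cnj n p R hC 1 (fun _ => t₀) (fun _ => t) h.fr.fr ht
    obtain ⟨⟨k, hk⟩, _⟩ := hθ 0
    apply θ.injective
    rw [map_mul, map_mul, hk]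
    exact Cen_comm_pw (h.cen _) k
  obtain ⟨k, hk⟩ := Cfr_key h.fr hL h.cen hcen
  obtain ⟨l, hl⟩ := Cfr_key hL h.fr hcen h.cen
  refine ⟨hL, hcen, ⟨k, hk⟩, ⟨l, hl⟩, fun S => le_antisymm ?_ ?_⟩
  · rw [NonUnitalSubring.closure_le]
    rintro x (hx | hx)
    · rw [Set.mem_singleton_iff.1 hx, hk]
      exact Cfr_pw (NonUnitalSubring.subset_closure
        (Set.mem_union_left S (Set.mem_singleton t₀))) k
    · exact NonUnitalSubring.subset_closure (Or.inr hx)
  · rw [NonUnitalSubring.closure_le]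
    rintro x (hx | hx)
    · rw [Set.mem_singleton_iff.1 hx, hl]
      exact Cfr_pw (NonUnitalSubring.subset_closure
        (Set.mem_union_left S (Set.mem_singleton t))) l
    · exact NonUnitalSubring.subset_closure (Or.inr hx)

end Pool.Agent.CRS
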