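import Pool.Agent.CRS.StC

/-!
Campaign CRS (problem MP_1bb14d_al), module Exp: words in generators determine the nilpotency index.
-/

set_option autoImplicit false

namespace Pool.Agent.CRS

open Pool.Agent.CRR Pool.Agent.CRN Pool.Agent.CRK Pool.Agent.CRL Pool.Agent.CRM Pool.Agent.CRP
open Pool.Agent.CRQ

theorem Exp_wc {R : Type} [NonUnitalRing R] (x : R) : ∀ l : List R, l ≠ [] → wp (x :: l) = x * wp l
  | [], h => absurd rfl h
  | _ :: _, _ => rfl

theorem Exp_add {R : Type} [NonUnitalRing R] (l₁ l₂ : List R) (x y : R) :
    wp (l₁ ++ (x + y) :: l₂) = wp (l₁ ++ x :: l₂) + wp (l₁ ++ y :: l₂) := by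
  induction l₁ with
  | nil =>
    rw [List.nil_append, List.nil_append, List.nil_append]
    rcases eq_or_ne l₂ [] with h | h
    · subst h
      rfl
    · rw [Exp_wc _ _ h, Exp_wc _ _ h, Exp_wc _ _ h, add_mul]
  | cons a l ih =>
    rw [List.cons_append, List.cons_append, List.cons_append, Exp_wc _ _ (by simp),
      Exp_wc _ _ (by simp), Exp_wc _ _ (by simp), ih, mul_add]

theorem Exp_zero {R : Type} [NonUnitalRing R] (l₁ l₂ : List R) : wp (l₁ ++ 0 :: l₂) = 0 := by
  have h := Exp_add l₁ l₂ 0 0
  rw [add_zero] at h
  exact left_eq_add.1 h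

theorem Exp_neg {R : Type} [NonUnitalRing R] (l₁ l₂ : List R) (x : R)
    (h : wp (l₁ ++ x :: l₂) = 0) : wp (l₁ ++ (-x) :: l₂) = 0 := by
  have h1 := Exp_add l₁ l₂ x (-x)
  rw [add_neg_cancel, Exp_zero, h, zero_add] at h1
  exact h1.symm

theorem thm_Exp : St_Exp := by
  intro A _ D E hDE hN m hm hD hE
  -- one step
  have step : ∀ k : ℕ, m ≤ k → (∀ l : List A, k + 1 ≤ l.length → wp l = 0) →
      ∀ l : List A, k ≤ l.length → wp l = 0 := by
    intro k hk hk1
    have key : ∀ (j : ℕ) (l₁ l₂ : List A), l₂.length = j → l₁.length + j = k →
        (∀ x ∈ l₁, x ∈ D) → wp (l₁ ++ l₂) = 0 := by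
      intro j
      induction j with
      | zero =>
        intro l₁ l₂ h2 h1 hx
        rw [List.length_eq_zero_iff.1 h2, List.append_nil]
        exact hD l₁ hx (by omega)
      | succ j ih =>
        intro l₁ l₂ h2 h1 hx
        obtain ⟨y, l, rfl⟩ := List.exists_cons_of_length_eq_add_one h2
        rw [List.length_cons] at h2
        have hl : l.length = j := by omega
        have hy : y ∈ AddSubgroup.closure (D ∪ E) := by
          rw [hDE]
          exact AddSubgroup.mem_top y
        induction hy using AddSubgroup.closure_induction with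
        | mem z hz =>
          rcases hz with hz | hz
          · have h3 := ih (l₁ ++ [z]) l hl (by rw [List.length_append, List.length_singleton]; omega)
              (by
                intro x hx'
                rcases List.mem_append.1 hx' with h | h
                · exact hx x h
                · rw [List.mem_singleton.1 h]
                  exact hz)
            rwa [List.append_assoc, List.singleton_append] at h3
          · exact hE l₁ l z hz (by omega) fun l' hl' => hk1 l' (by omega)
        | zero => exact Exp_zero l₁ l
        | add a b _ _ ha hb => rw [Exp_add, ha, hb, add_zero]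
        | neg a _ ha => exact Exp_neg l₁ l a ha
    intro l hl
    rcases Nat.lt_or_ge k l.length with h | h
    · exact hk1 l h
    · have h3 := key l.length [] l rfl (by rw [List.length_nil]; omega) (by simp)
      rwa [List.nil_append] at h3
  have main : ∀ d : ℕ, (∀ l : List A, m + d ≤ l.length → wp l = 0) →
      ∀ l : List A, m ≤ l.length → wp l = 0 := by
    intro d
    induction d with
    | zero => exact fun h => h
    | succ d ih => exact fun h => ih (step (m + d) (Nat.le_add_right m d) h)
  obtain ⟨N, hN⟩ := hN
  exact main N fun l hl => hN l (by omega)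

end Pool.Agent.CRS
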