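import Pool.Agent.CRS.StQ
import Pool.Agent.CRQ.Fin

/-!
Campaign CRS, module Fiy: the final theorem from the statements (problem MP_1bb14d_al).
-/

set_option autoImplicit false

namespace Pool.Agent.CRS

open Pool.Agent.CRR Pool.Agent.CRN Pool.Agent.CRK Pool.Agent.CRL Pool.Agent.CRM Pool.Agent.CRP
open Pool.Agent.CRQ

theorem thm_Fiy (hMfp : St_Mfp) (hLfx : St_Lfx) (hLca : St_Lca) (hLcb : St_Lcb) (hNtf : St_Ntf)
    (hNtb : St_Ntb) (hNyf : St_Nyf) (hNyb : St_Nyb) (hLyf : St_Lyf) (hLyb : St_Lyb) : St_Fiy := by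
  intro Tb hTb h2 h3 n hn R _ _ hM
  constructor
  · intro hc
    rcases (hMfp n hn R hM).1 hc with h | h | h | h | ⟨hT, h | h | h | h | h⟩
    · exact Or.inl h
    · exact Or.inr (Or.inl h)
    · exact Or.inr (Or.inr (Or.inl h))
    · exact Or.inr (Or.inr (Or.inr (Or.inl h)))
    · exact Or.inr (Or.inr (Or.inr (Or.inr ⟨hT, Or.inl h⟩)))
    · exact Or.inr (Or.inr (Or.inr (Or.inr ⟨hT, Or.inr (Or.inl h)⟩)))
    · exact Or.inr (Or.inr (Or.inr (Or.inr ⟨hT, Or.inr (Or.inr (Or.inl h))⟩)))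
    · refine Or.inr (Or.inr (Or.inr (Or.inr ⟨hT, Or.inr (Or.inr (Or.inr ?_))⟩)))
      by_cases h6 : (Nat.card R).Coprime 6
      · exact Or.inl ⟨h6, Or.inl (Fin_cft hLfx hLca hn hM hT h6 hc h)⟩
      · exact Or.inr (Or.inl (hLyf Tb h2 h3 n R hn hM hT h6 h))
    · refine Or.inr (Or.inr (Or.inr (Or.inr ⟨hT, Or.inr (Or.inr (Or.inr ?_))⟩)))
      by_cases h6 : (Nat.card R).Coprime 6
      · exact Or.inl ⟨h6, Or.inr (hNtf R h.1 h6 hc)⟩
      · exact Or.inr (Or.inr (hNyf Tb h2 h3 R h6 h))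
  · rintro (h | h | h | h | ⟨hT, h | h | h | ⟨h6, h | h⟩ | h | h⟩)
    · exact (hMfp n hn R hM).2 (Or.inl h)
    · exact (hMfp n hn R hM).2 (Or.inr (Or.inl h))
    · exact (hMfp n hn R hM).2 (Or.inr (Or.inr (Or.inl h)))
    · exact (hMfp n hn R hM).2 (Or.inr (Or.inr (Or.inr (Or.inl h))))
    · exact (hMfp n hn R hM).2 (Or.inr (Or.inr (Or.inr (Or.inr ⟨hT, Or.inl h⟩))))
    · exact (hMfp n hn R hM).2 (Or.inr (Or.inr (Or.inr (Or.inr ⟨hT, Or.inr (Or.inl h)⟩))))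
    · exact (hMfp n hn R hM).2
        (Or.inr (Or.inr (Or.inr (Or.inr ⟨hT, Or.inr (Or.inr (Or.inl h))⟩))))
    · exact hLcb n R hn hM hT h6 h
    · exact hNtb R h6 h
    · exact hLyb Tb hTb n R hn hM hT h
    · exact hNyb Tb hTb R h

end Pool.Agent.CRS
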