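import Pool.Agent.CRS.StQ

/-!
Campaign CRS, module Lbq: central local rings, the way back from the ring of functions (problem MP_1bb14d_al).
-/

set_option autoImplicit false

namespace Pool.Agent.CRS

open Pool.Agent.CRR Pool.Agent.CRN Pool.Agent.CRK Pool.Agent.CRL Pool.Agent.CRM Pool.Agent.CRP
open Pool.Agent.CRQ

section lists

variable {R : Type} [NonUnitalRing R]

/-- The product of two coefficients. -/
def Lbq_mul (a b : List (ℤ × ℕ)) : List (ℤ × ℕ) :=
  a.flatMap fun q => b.map fun r => (q.1 * r.1, q.2 + r.2)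

theorem Lbq_te {e : R} (he : ∀ x : R, e * x = x) (t : R) (a b : ℕ) :
    te e t (a + b) = te e t a * te e t b := by
  induction a with
  | zero =>
    rw [Nat.zero_add]
    exact (he _).symm
  | succ a ih =>
    rw [Nat.add_right_comm]
    show t * te e t (a + b) = t * te e t a * te e t b
    rw [ih, mul_assoc]

theorem Lbq_Cv {e : R} (he : ∀ x : R, e * x = x) (t : R) (a b : List (ℤ × ℕ)) :
    Cv (Lbq_mul a b) e t = Cv a e t * Cv b e t := by
  have h1 : ∀ q : ℤ × ℕ, ((b.map fun r => (q.1 * r.1, q.2 + r.2)).map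
      fun r : ℤ × ℕ => r.1 • te e t r.2).sum = (q.1 • te e t q.2) * Cv b e t := by
    intro q
    unfold Cv
    induction b with
    | nil => rw [List.map_nil, List.map_nil, List.sum_nil, mul_zero]
    | cons r b ih =>
      rw [List.map_cons, List.map_cons, List.sum_cons, ih, List.map_cons, List.sum_cons, mul_add]
      congr 1
      show (q.1 * r.1) • te e t (q.2 + r.2) = (q.1 • te e t q.2) * (r.1 • te e t r.2)
      rw [Lbq_te he, smul_mul_assoc, mul_smul_comm, smul_smul]
  unfold Lbq_mul
  induction a with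
  | nil =>
    show (([] : List (ℤ × ℕ)).map fun r : ℤ × ℕ => r.1 • te e t r.2).sum =
      (([] : List (ℤ × ℕ)).map fun r : ℤ × ℕ => r.1 • te e t r.2).sum * _
    rw [List.map_nil, List.sum_nil, zero_mul]
  | cons q a ih =>
    have h2 : Cv (q :: a) e t = q.1 • te e t q.2 + Cv a e t := by
      show (List.map _ (q :: a)).sum = _
      rw [List.map_cons, List.sum_cons]
      rfl
    rw [h2, add_mul, ← h1, ← ih, List.flatMap_cons]
    show (List.map _ (_ ++ _)).sum = _
    rw [List.map_append, List.sum_append]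
    rfl

theorem Lbq_Lc {e : R} (he : ∀ x : R, e * x = x) (χ : List (ℤ × ℕ)) {g : ℕ} (t : R) (x : Fin g → R)
    (m : List (List (ℤ × ℕ))) (B : List (List (ℤ × List ℕ))) :
    Lc e (m.map fun a => Lbq_mul χ a) B t x = Cv χ e t * Lc e m B t x := by
  induction m generalizing B with
  | nil =>
    show (0 : R) = Cv χ e t * 0
    rw [mul_zero]
  | cons a m ih =>
    cases B with
    | nil =>
      show (0 : R) = Cv χ e t * 0
      rw [mul_zero]
    | cons b B =>
      have h1 : ∀ (a : List (ℤ × ℕ)) (m : List (List (ℤ × ℕ))),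
          Lc e (a :: m) (b :: B) t x = Cv a e t * Vg b x + Lc e m B t x := by
        intro a m
        show (List.map _ (_ :: _)).sum = _
        rw [List.map_cons, List.sum_cons]
        rfl
      rw [List.map_cons, h1, h1, ih, Lbq_Cv he, mul_add, mul_assoc]

theorem Lbq_pol (c : List (Polynomial ℤ)) : ∃ m : List (List (ℤ × ℕ)), m.map Lca_pol = c := by
  induction c with
  | nil => exact ⟨[], rfl⟩
  | cons a c ih =>
    obtain ⟨m, hm⟩ := ih
    obtain ⟨b, hb⟩ := Lca_pol_ex a
    exact ⟨b :: m, by rw [List.map_cons, hm, hb]⟩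

end lists

section eval

variable {R : Type} [NonUnitalRing R] (T : Type) (τ : T → R) (S : NonUnitalSubring R)

theorem Lbq_Vg (L : List (ℤ × List ℕ)) {g : ℕ} (y : Fin g → T → S) (s : T) :
    ((Vg L y : T → S) s : R) = Vg L (fun i => (y i s : R)) := by
  show Lca_ev T S s (L.map fun q => q.1 • wp (q.2.map (xs y))).sum =
    (L.map fun q => q.1 • wp (q.2.map (xs fun i => (y i s : R)))).sum
  rw [map_list_sum, List.map_map]
  congr 1
  apply List.map_congr_left
  intro q _
  show Lca_ev T S s (q.1 • wp (q.2.map (xs y))) = _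
  rw [map_zsmul]
  congr 1
  show ((wp (q.2.map (xs y)) : T → S) s : R) = _
  rw [Lca_evwp, List.map_map]
  congr 1
  apply List.map_congr_left
  intro i _
  show ((xs y i : T → S) s : R) = _
  unfold xs
  split_ifs with h
  · rfl
  · rfl

theorem Lbq_Kc (hS : ∀ s x, x ∈ S → τ s * x ∈ S) (e : R) (he : ∀ x, e * x = x)
    (m : List (List (ℤ × ℕ))) (B : List (List (ℤ × List ℕ))) {g : ℕ} (y : Fin g → T → S) (s : T) :
    letI := Lca_mod T τ S hS
    ((Kc (m.map Lca_pol) B y : T → S) s : R) = Lc e m B (τ s) (fun i => (y i s : R)) := by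
  let := Lca_mod T τ S hS
  induction m generalizing B with
  | nil => rfl
  | cons a m ih =>
    cases B with
    | nil => rfl
    | cons b B =>
      have h1 : (Kc ((a :: m).map Lca_pol) (b :: B) y : T → S) =
          Lca_pol a • (Vg b y : T → S) + Kc (m.map Lca_pol) B y := by
        show (List.map _ (_ :: _)).sum = _
        rw [List.map_cons, List.sum_cons]
        rfl
      have h2 : Lc e (a :: m) (b :: B) (τ s) (fun i => (y i s : R)) =
          Cv a e (τ s) * Vg b (fun i => (y i s : R)) + Lc e m B (τ s) (fun i => (y i s : R)) := by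
        show (List.map _ (_ :: _)).sum = _
        rw [List.map_cons, List.sum_cons]
        rfl
      rw [h1, h2, ← ih B]
      show ((Lca_pol a • (Vg b y : T → S) : T → S) s : R) + _ = _
      rw [Lca_sme T τ S hS e he, Lbq_Vg]

theorem Lbq_sum (hS : ∀ s x, x ∈ S → τ s * x ∈ S) (e : R) (he : ∀ x, e * x = x) {g : ℕ}
    (m : Fin g → List (ℤ × ℕ)) (x : Fin g → T → S) (s : T) :
    letI := Lca_mod T τ S hS
    ((∑ i, Lca_pol (m i) • x i : T → S) s : R) = ∑ i, Cv (m i) e (τ s) * (x i s : R) := by
  let := Lca_mod T τ S hS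
  show Lca_ev T S s (∑ i, Lca_pol (m i) • x i) = _
  rw [map_sum]
  refine Finset.sum_congr rfl fun i _ => ?_
  exact Lca_sme T τ S hS e he (m i) (x i) s

theorem Lbq_one : Lca_pol [(1, 0)] = 1 := by
  simp [Lca_pol]

end eval

/-- **LBQ.** -/
theorem thm_Lbq (hLkb : St_Lkb) (hLcx : St_Lcx) : St_Lbq := by
  classical
  intro n p N R _ _ e t₀ H S hS g B c _ hC hSN hz hlen hG
  obtain ⟨z, hz, hzg⟩ := hz
  let := Lca_mod (Ftp n e t₀) (fun s => s.1) S hS
  have he : ∀ x : R, e * x = x := fun x => (hC.fr.one x).1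
  obtain ⟨m, rfl⟩ := Lbq_pol c
  obtain ⟨χ, hχ⟩ := hLcx n p N R e t₀ hC
  rw [List.length_map] at hlen
  refine ⟨m.map fun a => Lbq_mul χ a, by rw [List.length_map, hlen], ?_, ?_⟩
  · intro t x ht hx
    by_cases hE : Eqf e t t₀
    · have h1 : ∀ y : Fin g → R, Lc e (m.map fun a => Lbq_mul χ a) B t y = Lc e m B t y := by
        intro y
        rw [Lbq_Lc he, (hχ t ht).1 hE, he]
      -- the functions with the values `y i` at `t`
      let s : Ftp n e t₀ := ⟨t, ht, hE⟩
      let Y : (y : Fin g → R) → (∀ i, Nl (y i)) → Fin g → Ftp n e t₀ → S :=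
        fun y hy i s' => if s' = s then ⟨y i, (hSN _).2 (hy i)⟩ else 0
      have hYs : ∀ y hy i, ((Y y hy i s : S) : R) = y i := by
        intro y hy i
        show (((if s = s then ⟨y i, (hSN _).2 (hy i)⟩ else 0) : S) : R) = y i
        rw [if_pos rfl]
      have hY0 : ∀ y hy i s', s' ≠ s → Y y hy i s' = 0 := by
        intro y hy i s' h
        exact if_neg h
      have h2 : ∀ y (hy : ∀ i, Nl (y i)),
          ((Kc (m.map Lca_pol) B (Y y hy) : Ftp n e t₀ → S) s : R) = Lc e m B t y := by
        intro y hy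
        rw [Lbq_Kc (Ftp n e t₀) (fun s => s.1) S hS e he]
        congr 1
        funext i
        exact hYs y hy i
      refine ⟨?_, ?_, ?_⟩
      · rw [h1, ← h2 x hx]
        exact hG.val (Y x hx) s
      · intro y hy
        rw [h1, h1, ← h2 x hx, ← h2 y (fun i => (hy i).1)]
        have h3 := hG.inv (Y x hx) (Y y fun i => (hy i).1) (by
          intro i s'
          show ((Y x hx i s' - Y y (fun i => (hy i).1) i s' : S) : R) ∈ KJ R p
          by_cases hs : s' = s
          · rw [hs]
            show (Y x hx i s : R) - (Y y (fun i => (hy i).1) i s : R) ∈ KJ R p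
            rw [hYs x hx, hYs y (fun i => (hy i).1)]
            exact (hy i).2
          · rw [hY0 x hx i s' hs, hY0 y (fun i => (hy i).1) i s' hs, sub_self]
            exact (KJ R p).zero_mem)
        exact congrArg (fun f : Ftp n e t₀ → S => ((f s : S) : R)) h3
      · intro hcl
        obtain ⟨m', j, hj, hsum⟩ := (hLkb n p N R e t₀ g hC z hz hzg t ht).1 x hx hcl
        have h3 := hG.dep (Y x hx) (fun i => Lca_pol (m' i)) j (by
          refine ⟨1, fun a => ⟨0, ?_⟩⟩
          rw [hj, Lbq_one, one_smul, one_smul, sub_self, smul_zero]) (by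
          intro s'
          rw [Lbq_sum (Ftp n e t₀) (fun s => s.1) S hS e he]
          by_cases hs : s' = s
          · rw [hs]
            simp only [hYs]
            exact hsum
          · simp only [hY0 _ _ _ _ hs, ZeroMemClass.coe_zero, mul_zero, Finset.sum_const_zero]
            exact (KJ R p).zero_mem)
        rw [h1, ← h2 x hx]
        exact congrArg (fun f : Ftp n e t₀ → S => ((f s : S) : R)) h3
    · have h1 : ∀ y : Fin g → R, Lc e (m.map fun a => Lbq_mul χ a) B t y = 0 := by
        intro y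
        rw [Lbq_Lc he, (hχ t ht).2 hE, zero_mul]
      refine ⟨?_, fun y _ => ?_, fun _ => h1 x⟩
      · rw [h1]
        exact H.zero_mem
      · rw [h1, h1]
  · obtain ⟨x, hx⟩ := hG.ne
    obtain ⟨s, hs⟩ : ∃ s, Kc (m.map Lca_pol) B x s ≠ 0 := by
      by_contra h
      push Not at h
      exact hx (funext h)
    refine ⟨s.1, fun i => (x i s : R), s.2.1, fun i => (hSN _).1 (x i s).2, ?_⟩
    rw [Lbq_Lc he, (hχ s.1 s.2.1).1 s.2.2, he]
    rw [← Lbq_Kc (Ftp n e t₀) (fun s => s.1) S hS e he m B x s]
    exact fun h => hs (Subtype.ext h)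

end Pool.Agent.CRS
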