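import Pool.Agent.CRS.Lwa

/-!
Campaign CRS, module Lch: the characteristic function of a class of conjugate frames (helper46).

For a frame `t` of a central local ring and a polynomial `C` the element `om n (C(t)) = C(t)^(3(n-3))` is `e` if `C(t)` is not
nil and `0` if it is nil.  So the polynomials `C^(3(n-3))` and `1 - C^(3(n-3))` have exact values.
-/

set_option autoImplicit false

namespace Pool.Agent.CRS

open Pool.Agent.CRR Pool.Agent.CRN Pool.Agent.CRK Pool.Agent.CRL Pool.Agent.CRM Pool.Agent.CRP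
open Pool.Agent.CRQ

section lch

variable {R : Type} [NonUnitalRing R]

/-- Products of polynomials. -/
theorem Lch_mul {e : R} (he : ∀ x : R, e * x = x ∧ x * e = x) (m m' : List (ℤ × ℕ)) :
    ∃ m'', ∀ t : R, Cv m'' e t = Cv m e t * Cv m' e t := by
  induction m with
  | nil => exact ⟨[], fun t => by rw [Lwa_nil, zero_mul]⟩
  | cons q m ih =>
    obtain ⟨m'', h⟩ := ih
    refine ⟨(m'.map fun q' => (q.1 * q'.1, q.2 + q'.2)) ++ m'', fun t => ?_⟩
    rw [Lwa_append, Lwa_item he, h, Lwa_cons, add_mul]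

/-- Powers of polynomials. -/
theorem Lch_pw {e : R} (he : ∀ x : R, e * x = x ∧ x * e = x) (m : List (ℤ × ℕ)) (k : ℕ) :
    ∃ m'', ∀ t : R, Cv m'' e t = pw (Cv m e t) k := by
  induction k with
  | zero => exact ⟨m, fun t => rfl⟩
  | succ k ih =>
    obtain ⟨m₁, h1⟩ := ih
    obtain ⟨m₂, h2⟩ := Lch_mul he m₁ m
    refine ⟨m₂, fun t => ?_⟩
    rw [h2, h1]
    rfl

/-- The identity. -/
theorem Lch_one (e t : R) : Cv [(1, 0)] e t = e := by
  rw [Lwa_cons, Lwa_nil, add_zero, one_smul]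
  rfl

/-- The value of `C^(3(n-3))` at a frame. -/
theorem Lch_om [Finite R] {n p N : ℕ} {e t : R} (h : Lfr n p N e t) (u : R) :
    (Nl u → om n u = 0) ∧ (¬ Nl u → om n u = e) := by
  obtain ⟨h1, _, h3, h4, _⟩ := CRN.thm_Pws n h.cy.n4 R h.cy.inM u
  rcases h.prm.2.2 _ h1 (h.one _).1 (h.one _).2 with h5 | h5
  · exact ⟨fun _ => h5, fun hu => absurd (h4 h5) hu⟩
  · refine ⟨fun hu => ?_, fun _ => h5⟩
    obtain ⟨k, hk⟩ : ∃ k, 3 * (n - 3) - 1 = k + 2 := ⟨3 * (n - 3) - 3, by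
      have := h.cy.n4
      omega⟩
    have h6 : ∀ j, pw u (j + 2) = 0 := by
      intro j
      induction j with
      | zero => exact hu
      | succ j ih =>
        show pw u (j + 2) * u = 0
        rw [ih, zero_mul]
    unfold om
    rw [hk]
    exact h6 k

end lch

/-- **LCH.** -/
theorem thm_Lch (hCfx : St_Cfx) : St_Lch := by
  intro n p N R _ _ e t₀ hc
  have hF : ∀ t : R, Frame R n 1 (fun _ => t) → Lfr n p N e t := fun t ht =>
    (hCfx n p N R e t₀ hc t ht).1
  have he : ∀ x : R, e * x = x ∧ x * e = x := hc.fr.one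
  -- exact values for one polynomial
  have hex : ∀ m : List (ℤ × ℕ), ∃ E, ∀ t : R, Frame R n 1 (fun _ => t) →
      (Nl (Cv m e t) → Cv E e t = 0) ∧ (¬ Nl (Cv m e t) → Cv E e t = e) := by
    intro m
    obtain ⟨E, hE⟩ := Lch_pw he m (3 * (n - 3) - 1)
    refine ⟨E, fun t ht => ?_⟩
    rw [hE t]
    exact Lch_om (hF t ht) (Cv m e t)
  have hexn : ∀ m : List (ℤ × ℕ), ∃ E, ∀ t : R, Frame R n 1 (fun _ => t) →
      (Nl (Cv m e t) → Cv E e t = e) ∧ (¬ Nl (Cv m e t) → Cv E e t = 0) := by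
    intro m
    obtain ⟨E, hE⟩ := hex m
    refine ⟨[(1, 0)] ++ E.map fun q => (-q.1, q.2), fun t ht => ?_⟩
    rw [Lwa_append, Lwa_neg, Lch_one]
    refine ⟨fun h => ?_, fun h => ?_⟩
    · rw [(hE t ht).1 h, neg_zero, add_zero]
    · rw [(hE t ht).2 h, add_neg_cancel]
  -- one frame which is not conjugate
  have hone : ∀ t' : R, Frame R n 1 (fun _ => t') → ¬ Eqf e t' t₀ → ∃ E,
      (∀ t : R, Frame R n 1 (fun _ => t) → Eqf e t t₀ → Cv E e t = e) ∧ Cv E e t' = 0 := by
    intro t' ht' hne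
    unfold Eqf at hne
    rw [not_forall] at hne
    obtain ⟨m, hm⟩ := hne
    by_cases h0 : Nl (Cv m e t₀)
    · have h1 : ¬ Nl (Cv m e t') := fun h => hm ⟨fun _ => h0, fun _ => h⟩
      obtain ⟨E, hE⟩ := hexn m
      exact ⟨E, fun t ht hq => (hE t ht).1 ((hq m).2 h0), (hE t' ht').2 h1⟩
    · have h1 : Nl (Cv m e t') := by
        by_contra h
        exact hm ⟨fun h' => absurd h' h, fun h' => absurd h' h0⟩
      obtain ⟨E, hE⟩ := hex m
      exact ⟨E, fun t ht hq => (hE t ht).2 (fun h => h0 ((hq m).1 h)), (hE t' ht').1 h1⟩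
  -- all frames
  have hall : ∀ F : Finset R, ∃ χ : List (ℤ × ℕ),
      (∀ t : R, Frame R n 1 (fun _ => t) → Eqf e t t₀ → Cv χ e t = e) ∧
      ∀ t' ∈ F, Frame R n 1 (fun _ => t') → ¬ Eqf e t' t₀ → Cv χ e t' = 0 := by
    classical
    intro F
    induction F using Finset.induction_on with
    | empty =>
      exact ⟨[(1, 0)], fun t _ _ => Lch_one e t, fun t' h => absurd h (Finset.notMem_empty t')⟩
    | insert a F ha ih =>
      obtain ⟨χ, h1, h2⟩ := ih
      by_cases hfa : Frame R n 1 (fun _ => a) ∧ ¬ Eqf e a t₀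
      · obtain ⟨E, h3, h4⟩ := hone a hfa.1 hfa.2
        obtain ⟨χ', h5⟩ := Lch_mul he χ E
        refine ⟨χ', fun t ht hq => ?_, fun t' ht' hf hq => ?_⟩
        · rw [h5, h1 t ht hq, h3 t ht hq]
          exact (he e).1
        · rw [h5]
          rcases Finset.mem_insert.1 ht' with rfl | h6
          · rw [h4, mul_zero]
          · rw [h2 t' h6 hf hq, zero_mul]
      · refine ⟨χ, h1, fun t' ht' hf hq => ?_⟩
        rcases Finset.mem_insert.1 ht' with rfl | h6
        · exact absurd ⟨hf, hq⟩ hfa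
        · exact h2 t' h6 hf hq
  have := Fintype.ofFinite R
  obtain ⟨χ, h1, h2⟩ := hall Finset.univ
  have h0 : Nl (0 : R) := by
    show (0 : R) * 0 * 0 = 0
    rw [mul_zero]
  refine ⟨χ, fun t ht => ⟨fun hq => ?_, fun hq => ?_⟩⟩
  · rw [h1 t ht hq, sub_self]
    exact h0
  · rw [h2 t (Finset.mem_univ t) ht hq]
    exact h0

end Pool.Agent.CRS
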