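import Pool.Agent.CRS.StQ

/-!
Campaign CRS, module Lcx: a polynomial which is the identity at the frames conjugate to `t₀` and zero at the other ones.
-/

set_option autoImplicit false

namespace Pool.Agent.CRS

open Pool.Agent.CRR Pool.Agent.CRN Pool.Agent.CRK Pool.Agent.CRL Pool.Agent.CRM Pool.Agent.CRP
open Pool.Agent.CRQ
open Polynomial (X aeval)

section ring

variable {A : Type} [Ring A]

theorem Lcx_one (p r : ℕ) (hr : ∀ x : A, (p ^ r) • x = 0) (P M : Polynomial ℤ) (t : A)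
    (h : aeval t P - 1 = p • aeval t M) : aeval t (P ^ (p ^ r)) = 1 := by
  have h1 : aeval t P = aeval t (1 + (p : Polynomial ℤ) * M) := by
    rw [map_add, map_one, map_mul, map_natCast, ← nsmul_eq_mul, ← h, add_sub_cancel]
  have h2 : ((p : Polynomial ℤ) ^ (r + 1)) ∣ (1 + (p : Polynomial ℤ) * M) ^ p ^ r - 1 ^ p ^ r := by
    refine dvd_sub_pow_of_dvd_sub (R := Polynomial ℤ) (p := p) ?_ r
    rw [add_sub_cancel_left]
    exact dvd_mul_right _ _
  obtain ⟨B, hB⟩ := h2
  rw [map_pow, h1, ← map_pow]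
  have h3 : (1 + (p : Polynomial ℤ) * M) ^ p ^ r = 1 + (p : Polynomial ℤ) ^ (r + 1) * B := by
    rw [← hB, one_pow, add_sub_cancel]
  rw [h3, map_add, map_one, map_mul, map_pow, map_natCast]
  have h4 : (p : A) ^ (r + 1) * aeval t B = 0 := by
    have h5 := hr ((p : A) * aeval t B)
    rw [nsmul_eq_mul, Nat.cast_pow, ← mul_assoc, ← pow_succ] at h5
    exact h5
  rw [h4, add_zero]

theorem Lcx_zero (p r : ℕ) (hp : 2 ≤ p) (hr : ∀ x : A, (p ^ r) • x = 0) (P M : Polynomial ℤ)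
    (t : A) (h : aeval t P = p • aeval t M) : aeval t (P ^ (p ^ r)) = 0 := by
  have h1 : aeval t P = aeval t ((p : Polynomial ℤ) * M) := by
    rw [map_mul, map_natCast, ← nsmul_eq_mul, ← h]
  rw [map_pow, h1, ← map_pow, mul_pow, map_mul, map_pow, map_natCast]
  have h2 : r ≤ p ^ r := (Nat.lt_pow_self (by omega)).le
  obtain ⟨k, hk⟩ := Nat.exists_eq_add_of_le h2
  rw [hk, pow_add]
  have h5 := hr ((p : A) ^ k * aeval t (M ^ (r + k)))
  rw [nsmul_eq_mul, Nat.cast_pow, ← mul_assoc] at h5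
  exact h5

theorem Lcx_pow (t : A) (te' : ℕ → A) (h0 : te' 0 = 1) (hs : ∀ k, te' (k + 1) = t * te' k)
    (k : ℕ) : te' k = t ^ k := by
  induction k with
  | zero => rw [h0, pow_zero]
  | succ k ih => rw [hs, ih, pow_succ']

theorem Lcx_aeval (t : A) (te' : ℕ → A) (h0 : te' 0 = 1) (hs : ∀ k, te' (k + 1) = t * te' k)
    (m : List (ℤ × ℕ)) : aeval t (Lca_pol m) = (m.map fun q => q.1 • te' q.2).sum := by
  unfold Lca_pol
  induction m with
  | nil => rw [List.map_nil, List.map_nil, List.sum_nil, List.sum_nil, map_zero]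
  | cons q m ih =>
    rw [List.map_cons, List.map_cons, List.sum_cons, List.sum_cons, map_add, ih, map_mul,
      Polynomial.aeval_C, map_pow, Polynomial.aeval_X, Lcx_pow t te' h0 hs, ← Algebra.smul_def]

end ring

section nring

variable {R : Type} [NonUnitalRing R]

/-- A ring with an identity element. -/
@[reducible] def Lcx_ring (e : R) (he : ∀ x : R, e * x = x ∧ x * e = x) : Ring R :=
  { (inferInstance : NonUnitalRing R) with
    one := e
    one_mul := fun x => (he x).1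
    mul_one := fun x => (he x).2 }

theorem Lcx_cv (e : R) (he : ∀ x : R, e * x = x ∧ x * e = x) (t : R) (m : List (ℤ × ℕ)) :
    letI := Lcx_ring e he
    aeval t (Lca_pol m) = Cv m e t := by
  letI := Lcx_ring e he
  exact Lcx_aeval (A := R) t (te e t) rfl (fun _ => rfl) m

end nring

theorem thm_Lcx (hLch : St_Lch) (hCfx : St_Cfx) (hLwa : St_Lwa) : St_Lcx := by
  intro n p N R _ _ e t₀ hC
  obtain ⟨χ, hχ⟩ := hLch n p N R e t₀ hC
  have he := hC.fr.one
  obtain ⟨r, hr⟩ := hC.fr.cy.pr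
  obtain ⟨χ', hχ'⟩ := Lca_pol_ex ((Lca_pol χ) ^ (p ^ r))
  refine ⟨χ', fun t ht => ⟨fun hE => ?_, fun hE => ?_⟩⟩
  · obtain ⟨-, hW2, -⟩ := hLwa n p N R e t (hCfx n p N R e t₀ hC t ht).1
    have h1 : Cv (χ ++ [(-1, 0)]) e t = Cv χ e t - e := by
      unfold Cv
      rw [List.map_append, List.sum_append, List.map_cons, List.map_nil, List.sum_cons,
        List.sum_nil, add_zero, sub_eq_add_neg]
      congr 1
      show (-1 : ℤ) • e = -e
      rw [neg_smul, one_smul]
    obtain ⟨m, hm⟩ := hW2 (χ ++ [(-1, 0)]) (by rw [h1]; exact (hχ t ht).1 hE)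
    rw [h1] at hm
    letI := Lcx_ring e he
    have h2 := Lcx_one (A := R) p r hr (Lca_pol χ) (Lca_pol m) t (by
      rw [Lcx_cv e he, Lcx_cv e he]
      exact hm)
    rw [← hχ', Lcx_cv e he] at h2
    exact h2
  · obtain ⟨-, hW2, -⟩ := hLwa n p N R e t (hCfx n p N R e t₀ hC t ht).1
    obtain ⟨m, hm⟩ := hW2 χ ((hχ t ht).2 hE)
    letI := Lcx_ring e he
    have h2 := Lcx_zero (A := R) p r hC.fr.cy.pp.two_le hr (Lca_pol χ) (Lca_pol m) t (by
      rw [Lcx_cv e he, Lcx_cv e he]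
      exact hm)
    rw [← hχ', Lcx_cv e he] at h2
    exact h2

end Pool.Agent.CRS
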