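import Pool.Agent.CRS.StC

/-!
Campaign CRS, module Ldm: central local rings, the conditions `Dm` and `Gn`.
-/

set_option autoImplicit false

namespace Pool.Agent.CRS

open Pool.Agent.CRR Pool.Agent.CRN Pool.Agent.CRK Pool.Agent.CRL Pool.Agent.CRM Pool.Agent.CRP
open Pool.Agent.CRQ

/-- The value at `s` depends only on the values of the arguments at `s`. -/
theorem Ldm_loc {R : Type} [NonUnitalRing R] (T : Type) (τ : T → R) (S : NonUnitalSubring R)
    (hS : ∀ s x, x ∈ S → τ s * x ∈ S) (e : R) (he : ∀ x, e * x = x) {g : ℕ}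
    (L : List (Polynomial ℤ × List ℕ)) (x y : Fin g → T → S) (s : T)
    (hxy : ∀ i, x i s = y i s) :
    let := Lca_mod T τ S hS
    ((L.map fun q => q.1 • wp (q.2.map (xs x))).sum : T → S) s =
      ((L.map fun q => q.1 • wp (q.2.map (xs y))).sum : T → S) s := by
  let := Lca_mod T τ S hS
  apply Subtype.ext
  show Lca_ev T S s (L.map fun q => q.1 • wp (q.2.map (xs x))).sum =
    Lca_ev T S s (L.map fun q => q.1 • wp (q.2.map (xs y))).sum
  rw [map_list_sum, map_list_sum, List.map_map, List.map_map]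
  congr 1
  apply List.map_congr_left
  intro q _
  obtain ⟨m, hm⟩ := Lca_pol_ex q.1
  show ((q.1 • wp (q.2.map (xs x)) : T → S) s : R) = ((q.1 • wp (q.2.map (xs y)) : T → S) s : R)
  rw [← hm, Lca_sme T τ S hS e he, Lca_sme T τ S hS e he, Lca_evwp, Lca_evwp, List.map_map,
    List.map_map]
  congr 2
  apply List.map_congr_left
  intro i _
  show ((xs x i : T → S) s : R) = ((xs y i : T → S) s : R)
  unfold xs
  split_ifs with h
  · rw [hxy]
  · rfl

theorem Ldm_one : Lca_pol [(1, 0)] = 1 := by
  simp [Lca_pol]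

theorem Ldm_sum {R : Type} [NonUnitalRing R] (T : Type) (τ : T → R) (S : NonUnitalSubring R)
    (hS : ∀ s x, x ∈ S → τ s * x ∈ S) (e : R) (he : ∀ x, e * x = x) {g : ℕ}
    (m : Fin g → List (ℤ × ℕ)) (x : Fin g → T → S) (s : T) :
    let := Lca_mod T τ S hS
    ((∑ i, Lca_pol (m i) • x i : T → S) s : R) = ∑ i, Cv (m i) e (τ s) * (x i s : R) := by
  let := Lca_mod T τ S hS
  show Lca_ev T S s (∑ i, Lca_pol (m i) • x i) = _
  rw [map_sum]
  refine Finset.sum_congr rfl fun i _ => ?_
  exact Lca_sme T τ S hS e he (m i) (x i) s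

/-- **LDM.** -/
theorem thm_Ldm (hLkb : St_Lkb) : St_Ldm := by
  classical
  intro n p N R _ _ e t₀ S hS g hC hSN z hz hgen
  let := Lca_mod (Ftp n e t₀) (fun s => s.1) S hS
  have he : ∀ x : R, e * x = x := fun x => (hC.fr.one x).1
  refine ⟨?_, ?_⟩
  · intro m hm F hF hdep x
    obtain ⟨L, -, hF⟩ := hF
    funext s
    obtain ⟨-, h2, -⟩ := hLkb n p N R e t₀ g hC z hz hgen s.1 s.2.1
    obtain ⟨c, j, hj, hsum⟩ := h2 m hm (fun i => (x i s : R)) (fun i => (hSN _).1 (x i s).2)
    obtain ⟨y, hy⟩ : ∃ y : Fin m → Ftp n e t₀ → S, y = fun i s' => if s' = s then x i s else 0 :=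
      ⟨_, rfl⟩
    have h3 : F y = 0 := by
      refine hdep y (fun i => Lca_pol (c i)) j ⟨1, fun a => ⟨0, ?_⟩⟩ ?_
      · rw [hj, Ldm_one, one_smul, one_smul, sub_self, smul_zero]
      · intro s'
        rw [Ldm_sum (Ftp n e t₀) (fun s => s.1) S hS e he]
        by_cases hs : s' = s
        · subst hs
          have : ∀ i, y i s' = x i s' := by
            intro i
            rw [hy]
            simp
          simp only [this]
          exact hsum
        · have : ∀ i, y i s' = 0 := by
            intro i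
            rw [hy]
            simp [hs]
          simp only [this, ZeroMemClass.coe_zero, mul_zero, Finset.sum_const_zero]
          exact (KJ R p).zero_mem
    have h4 := Ldm_loc (Ftp n e t₀) (fun s => s.1) S hS e he L x y s (by
      intro i
      rw [hy]
      simp)
    rw [hF x, h4, ← hF y, h3]
  · refine ⟨fun k _ => ⟨z k, (hSN _).2 (hz k)⟩, ?_⟩
    intro r F hF hinv hne
    obtain ⟨L, -, hF⟩ := hF
    obtain ⟨x, hx⟩ := hne
    obtain ⟨s, hs⟩ : ∃ s, F x s ≠ 0 := by
      by_contra h
      push Not at h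
      exact hx (funext h)
    obtain ⟨-, -, h3⟩ := hLkb n p N R e t₀ g hC z hz hgen s.1 s.2.1
    choose c hc using fun i => h3 (x i s : R) ((hSN _).1 (x i s).2)
    refine ⟨fun i k => Lca_pol (c i k), ?_⟩
    obtain ⟨y, hy⟩ : ∃ y : Fin r → Ftp n e t₀ → S,
        y = fun i => ∑ k, Lca_pol (c i k) • (fun _ => ⟨z k, (hSN _).2 (hz k)⟩ : Ftp n e t₀ → S) :=
      ⟨_, rfl⟩
    obtain ⟨y', hy'⟩ : ∃ y' : Fin r → Ftp n e t₀ → S,
        y' = fun i s' => if s' = s then x i s else y i s' := ⟨_, rfl⟩
    have h4 : F y = F y' := by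
      apply hinv
      intro i s'
      show ((y i s' - y' i s' : S) : R) ∈ KJ R p
      by_cases hs' : s' = s
      · subst hs'
        have e1 : y' i s' = x i s' := by
          rw [hy']
          simp
        rw [e1]
        have e2 : (y i s' : R) = ∑ k, Cv (c i k) e s'.1 * z k := by
          rw [hy]
          exact Ldm_sum (Ftp n e t₀) (fun s => s.1) S hS e he (c i)
            (fun k => (fun _ => ⟨z k, (hSN _).2 (hz k)⟩ : Ftp n e t₀ → S)) s'
        have e3 : ((y i s' - x i s' : S) : R) = -((x i s' : R) - ∑ k, Cv (c i k) e s'.1 * z k) := by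
          show (y i s' : R) - (x i s' : R) = _
          rw [e2]
          abel
        rw [e3]
        exact (KJ R p).neg_mem (hc i)
      · have e1 : y' i s' = y i s' := by
          rw [hy']
          simp [hs']
        rw [e1, sub_self]
        exact (KJ R p).zero_mem
    have h5 := Ldm_loc (Ftp n e t₀) (fun s => s.1) S hS e he L x y' s (by
      intro i
      rw [hy']
      simp)
    have h6 : F x s = F y' s := by rw [hF x, hF y', h5]
    rw [← hy, h4]
    intro h7
    apply hs
    rw [h6, h7]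
    rfl

end Pool.Agent.CRS
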