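import Pool.Agent.CRS.StC
import Pool.Agent.CRM.All

/-!
Campaign CRS, module Lgd: the good function of a central local ring.
-/

set_option autoImplicit false

namespace Pool.Agent.CRS

open Pool.Agent.CRR Pool.Agent.CRN Pool.Agent.CRK Pool.Agent.CRL Pool.Agent.CRM Pool.Agent.CRP
open Pool.Agent.CRQ

section

variable {R : Type} [NonUnitalRing R]

theorem Lgd_wp (e t : R) (he : ∀ x, e * x = x) (d : ℕ) (l : List R) (hl : l ≠ []) :
    wp (List.replicate d t ++ l) = te e t d * wp l := by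
  induction d with
  | zero =>
    show wp ([] ++ l) = e * wp l
    rw [List.nil_append, he]
  | succ d ih =>
    have h1 : List.replicate d t ++ l ≠ [] := by
      intro h
      exact hl (List.append_eq_nil_iff.1 h).2
    rw [List.replicate_succ, List.cons_append, Lib_cons _ h1, ih]
    show t * (te e t d * wp l) = t * te e t d * wp l
    rw [mul_assoc]

theorem Lgd_ev (T : Type) (τ : T → R) (S : NonUnitalSubring R) (hS : ∀ s x, x ∈ S → τ s * x ∈ S)
    (e : R) (he : ∀ x, e * x = x) {g : ℕ} (L : List (ℤ × ℕ × List ℕ)) (hL : ∀ q ∈ L, q.2.2 ≠ [])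
    (x : Fin g → T → S) (s : T) :
    letI := Lca_mod T τ S hS
    (((L.map fun q => (Lca_pol [(q.1, q.2.1)] • wp (q.2.2.map (xs x)) : T → S)).sum : T → S) s : R) =
      Vl L (τ s) (fun i => (x i s : R)) := by
  letI := Lca_mod T τ S hS
  show Lca_ev T S s _ = _
  rw [map_list_sum, List.map_map]
  unfold Vl
  congr 1
  refine List.map_congr_left fun q hq => ?_
  show ((Lca_pol [(q.1, q.2.1)] • wp (q.2.2.map (xs x)) : T → S) s : R) = _
  rw [Lca_sme T τ S hS e he, Lca_evwp, List.map_map]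
  have h1 : (fun a : T → S => (a s : R)) ∘ xs x = xs fun i => (x i s : R) := by
    funext i
    show ((xs x i : T → S) s : R) = xs (fun i => (x i s : R)) i
    unfold xs
    split_ifs
    · rfl
    · rfl
  rw [h1, Lgd_wp e (τ s) he _ _ (by
    intro h
    exact hL q hq (List.map_eq_nil_iff.1 h))]
  unfold Cv
  rw [List.map_cons, List.map_nil, List.sum_cons, List.sum_nil, add_zero, smul_mul_assoc]

/-- Replacing the arguments modulo `KJ`. -/
theorem Lgd_inv {n p g : ℕ} {H : AddSubgroup R} {L : List (ℤ × ℕ × List ℕ)}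
    {t : R} (ht : Frame R n 1 (fun _ => t))
    (hv : ∀ (t : R) (x : Fin g → R), Frame R n 1 (fun _ => t) → (∀ i, Nl (x i)) →
      Vl L t x ∈ H ∧ ∀ (j : Fin g) (y : R),
      y ∈ KJ R p ⊔ AddSubgroup.closure
        {w | ∃ i, i < j ∧ ∃ u ∈ NonUnitalSubring.closure ({t} : Set R), w = u * x i} →
      Vl L t (Function.update x j (x j + y)) = Vl L t x)
    (x y : Fin g → R) (hx : ∀ i, Nl (x i)) (hy : ∀ i, Nl (y i)) (hxy : ∀ i, x i - y i ∈ KJ R p) :
    Vl L t x = Vl L t y := by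
  have key : ∀ k : ℕ, k ≤ g → Vl L t x = Vl L t (fun i : Fin g => if (i : ℕ) < k then y i else x i) := by
    intro k
    induction k with
    | zero => intro _; simp
    | succ k ih =>
      intro hk
      rw [ih (by omega)]
      set z : Fin g → R := fun i : Fin g => if (i : ℕ) < k then y i else x i with hz
      have hzT : ∀ i, Nl (z i) := by
        intro i
        by_cases hi : (i : ℕ) < k
        · simp only [hz, hi, if_true]; exact hy i
        · simp only [hz, hi, if_false]; exact hx i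
      have hkz : z ⟨k, by omega⟩ = x ⟨k, by omega⟩ := by simp [hz]
      have h1 := (hv t z ht hzT).2 ⟨k, by omega⟩ (y ⟨k, by omega⟩ - x ⟨k, by omega⟩)
        (AddSubgroup.mem_sup_left (by
          have h2 := (KJ R p).neg_mem (hxy ⟨k, by omega⟩)
          rwa [neg_sub] at h2))
      rw [← h1]
      congr 1
      funext i
      by_cases hi : i = ⟨k, by omega⟩
      · subst hi
        simp [hkz]
      · rw [Function.update_of_ne hi]
        have h3 : (i : ℕ) ≠ k := fun h => hi (Fin.ext h)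
        by_cases h4 : (i : ℕ) < k
        · simp [hz, h4, Nat.lt_succ_of_lt h4]
        · have h5 : ¬ (i : ℕ) < k + 1 := by omega
          simp [hz, h4, h5]
  rw [key g le_rfl]
  congr 1
  funext i
  simp [i.2]

theorem Lgd_pdiv {S : NonUnitalSubring R} {p r : ℕ} (hr : ∀ x : R, (p ^ r) • x = 0)
    (h : ∀ a ∈ S, ∃ b ∈ S, a = p • b) : ∀ a ∈ S, a = 0 := by
  have key : ∀ k : ℕ, ∀ a ∈ S, ∃ b ∈ S, a = (p ^ k) • b := by
    intro k
    induction k with
    | zero => exact fun a ha => ⟨a, ha, by rw [pow_zero, one_smul]⟩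
    | succ k ih =>
      intro a ha
      obtain ⟨b, hb, h1⟩ := h a ha
      obtain ⟨c, hc, h2⟩ := ih b hb
      exact ⟨c, hc, by rw [h1, h2, pow_succ', mul_smul]⟩
  intro a ha
  obtain ⟨b, _, h1⟩ := key r a ha
  rw [h1, hr]

end

theorem thm_Lgd (hCfx : St_Cfx) (hLwa : St_Lwa) : St_Lgd := by
  classical
  intro n p N R _ _ e t₀ H S hS g L hC hH hSn hg hL hv hex
  letI := Lca_mod (Ftp n e t₀) (fun s => s.1) S hS
  have hF := hC.fr
  have he : ∀ x : R, e * x = x := fun x => (hF.one x).1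
  obtain ⟨J, hJ, hJn⟩ := CRL.jil n hF.cy.n4 R hF.cy.inM hF.cy.nt
  have hSJ : ∀ x, x ∈ S ↔ x ∈ J := fun x => (hSn x).trans (hJn x).symm
  have hmulS : ∀ r : R, ∀ x ∈ S, r * x ∈ S := fun r x hx => (hSJ _).2 (hJ r x ((hSJ x).1 hx)).1
  have hKJm : ∀ v : R, ∀ x ∈ KJ R p, v * x ∈ KJ R p := by
    intro v x hx
    unfold KJ at hx ⊢
    induction hx using AddSubgroup.closure_induction with
    | mem w hw =>
      refine AddSubgroup.subset_closure ?_
      rcases hw with ⟨a, b, ha, hb, rfl⟩ | ⟨a, rfl⟩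
      · exact Or.inl ⟨v * a, b, (hSn _).1 (hmulS v a ((hSn a).2 ha)), hb, by rw [mul_assoc]⟩
      · exact Or.inr ⟨v * a, by rw [mul_smul_comm]⟩
    | zero => rw [mul_zero]; exact zero_mem _
    | add a b _ _ ha hb => rw [mul_add]; exact add_mem ha hb
    | neg a _ ha => rw [mul_neg]; exact neg_mem ha
  have hKJp : ∀ a : R, p • a ∈ KJ R p := fun a => AddSubgroup.subset_closure (Or.inr ⟨a, rfl⟩)
  have hn : ∀ (a : Ftp n e t₀ → S) (s : Ftp n e t₀), Nl (a s : R) := fun a s => (hSn _).1 (a s).2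
  have hL0 : ∀ q ∈ L, q.2.2 ≠ [] := by
    intro q hq h
    have h1 := (hL q hq 0).2 (by omega)
    rw [h] at h1
    exact List.not_mem_nil h1
  -- the function
  let F : (Fin g → Ftp n e t₀ → S) → Ftp n e t₀ → S := fun x =>
    (L.map fun q => (Lca_pol [(q.1, q.2.1)] • wp (q.2.2.map (xs x)) : Ftp n e t₀ → S)).sum
  have hFe : ∀ (x : Fin g → Ftp n e t₀ → S) (s : Ftp n e t₀),
      (F x s : R) = Vl L s.1 (fun i => (x i s : R)) := fun x s =>
    Lgd_ev (Ftp n e t₀) (fun s => s.1) S hS e he L hL0 x s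
  refine ⟨F, ⟨L.map fun q => (Lca_pol [(q.1, q.2.1)], q.2.2), ?_, ?_⟩, ⟨?_, ?_, ?_, ?_⟩⟩
  · intro q hq
    obtain ⟨q', hq', rfl⟩ := List.mem_map.1 hq
    exact ⟨hL0 q' hq', hL q' hq'⟩
  · intro x
    show (L.map fun q => (Lca_pol [(q.1, q.2.1)] • wp (q.2.2.map (xs x)) : Ftp n e t₀ → S)).sum = _
    rw [List.map_map]
    rfl
  · intro x s
    rw [hFe]
    exact (hv s.1 _ s.2.1 fun i => hn _ s).1
  · intro x y hxy
    funext s
    refine Subtype.ext ?_
    rw [hFe, hFe]
    exact Lgd_inv (n := n) (p := p) s.2.1 hv _ _ (fun i => hn _ s) (fun i => hn _ s) fun i => hxy i s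
  · intro x c j hKu hsum
    funext s
    refine Subtype.ext ?_
    show (F x s : R) = 0
    rw [hFe]
    choose m hm using fun i => Lca_pol_ex (c i)
    have hfr := (hCfx n p N R e t₀ hC s.1 s.2.1).1
    obtain ⟨hW, hnil, hinv⟩ := hLwa n p N R e s.1 hfr
    have hx0 : ∀ i, Nl ((x i s : R)) := fun i => hn _ s
    by_cases hj : Nl (Cv (m j) e s.1)
    · -- everything is zero
      obtain ⟨r, hr⟩ := hF.cy.pr
      obtain ⟨d, hd⟩ := hKu
      obtain ⟨md, rfl⟩ := Lca_pol_ex d
      obtain ⟨m', hm'⟩ := hnil _ hj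
      have hz : ∀ a ∈ S, a = 0 := by
        refine Lgd_pdiv hr ?_
        intro a ha
        obtain ⟨y, hy⟩ := hd (fun _ => ⟨a, ha⟩)
        have h1 := congrArg (fun z : Ftp n e t₀ → S => (z s : R)) hy
        have h2 : ((Lca_pol md • c j • (fun _ => ⟨a, ha⟩ : Ftp n e t₀ → S) : Ftp n e t₀ → S) s : R) - a =
          p • (y s : R) := h1
        rw [← hm j, Lca_sme (Ftp n e t₀) (fun s => s.1) S hS e he,
          Lca_sme (Ftp n e t₀) (fun s => s.1) S hS e he] at h2
        have h3 : Cv md e s.1 * (Cv (m j) e s.1 * a) - a = p • (y s : R) := h2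
        rw [hm', smul_mul_assoc, mul_smul_comm] at h3
        refine ⟨Cv md e s.1 * (Cv m' e s.1 * a) - y s, S.sub_mem (hmulS _ _ (hmulS _ _ ha)) (y s).2, ?_⟩
        rw [smul_sub, ← h3, sub_sub_cancel]
      exact Lfb_Vl_zero L s.1 _ ⟨0, by omega⟩ hL (hz _ (x ⟨0, by omega⟩ s).2)
    · obtain ⟨k, hk, hmax⟩ := Finset.exists_max_image
        (Finset.univ.filter fun i => ¬ Nl (Cv (m i) e s.1)) (fun i : Fin g => i.val)
        ⟨j, Finset.mem_filter.2 ⟨Finset.mem_univ _, hj⟩⟩
      have hkn : ¬ Nl (Cv (m k) e s.1) := (Finset.mem_filter.1 hk).2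
      have hgt : ∀ i, k < i → Cv (m i) e s.1 * (x i s : R) ∈ KJ R p := by
        intro i hi
        by_cases h : Nl (Cv (m i) e s.1)
        · obtain ⟨m', hm'⟩ := hnil _ h
          rw [hm', smul_mul_assoc]
          exact hKJp _
        · have h1 := hmax i (Finset.mem_filter.2 ⟨Finset.mem_univ _, h⟩)
          have h2 : k.val < i.val := hi
          omega
      obtain ⟨v, hvv⟩ := hinv _ hkn
      have h1 : ∑ i, Cv (m i) e s.1 * (x i s : R) ∈ KJ R p := by
        have h2 : ((∑ i, c i • x i : Ftp n e t₀ → S) s : R) ∈ KJ R p := hsum s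
        have h3 : ((∑ i, c i • x i : Ftp n e t₀ → S) s : R) = ∑ i, Cv (m i) e s.1 * (x i s : R) := by
          show Lca_ev (Ftp n e t₀) S s (∑ i, c i • x i) = _
          rw [map_sum]
          refine Finset.sum_congr rfl fun i _ => ?_
          rw [← hm i]
          exact Lca_sme (Ftp n e t₀) (fun s => s.1) S hS e he (m i) (x i) s
        rwa [h3] at h2
      have h4 : ∑ i, Cv v e s.1 * (Cv (m i) e s.1 * (x i s : R)) ∈ KJ R p := by
        rw [← Finset.mul_sum]
        exact hKJm _ _ h1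
      have h5 : -(x k s : R) ∈ KJ R p ⊔ AddSubgroup.closure
          {w | ∃ i, i < k ∧ ∃ u ∈ NonUnitalSubring.closure ({s.1} : Set R), w = u * (x i s : R)} := by
        have h6 : (x k s : R) = (∑ i, Cv v e s.1 * (Cv (m i) e s.1 * (x i s : R))) -
            ∑ i ∈ Finset.univ.erase k, Cv v e s.1 * (Cv (m i) e s.1 * (x i s : R)) := by
          rw [← Finset.add_sum_erase _ _ (Finset.mem_univ k), add_sub_cancel_right, ← mul_assoc, hvv, he]
        rw [h6]
        refine neg_mem (sub_mem (AddSubgroup.mem_sup_left h4) (sum_mem fun i hi => ?_))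
        have hne : i ≠ k := Finset.ne_of_mem_erase hi
        rcases lt_or_gt_of_ne hne with h7 | h7
        · refine AddSubgroup.mem_sup_right (AddSubgroup.subset_closure ⟨i, h7,
            Cv v e s.1 * Cv (m i) e s.1, mul_mem ((hW _).2 ⟨v, rfl⟩) ((hW _).2 ⟨m i, rfl⟩), ?_⟩)
          rw [mul_assoc]
        · exact AddSubgroup.mem_sup_left (hKJm _ _ (hgt i h7))
      have h8 := (hv s.1 (fun i => (x i s : R)) s.2.1 hx0).2 k (-(x k s : R)) h5
      rw [← h8]
      refine Lfb_Vl_zero L s.1 _ k hL ?_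
      rw [Function.update_self, add_neg_cancel]
  · obtain ⟨x, hx, hne⟩ := hex
    refine ⟨fun i _ => ⟨x i, (hSn _).2 (hx i)⟩, fun h => hne ?_⟩
    have h1 := congrArg (fun z : Ftp n e t₀ → S =>
      ((z ⟨t₀, hF.fr, fun _ => Iff.rfl⟩ : S) : R)) h
    exact (hFe (fun i _ => ⟨x i, (hSn _).2 (hx i)⟩) ⟨t₀, hF.fr, fun _ => Iff.rfl⟩).symm.trans h1

end Pool.Agent.CRS
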