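import Pool.Agent.CRS.StC
import Pool.Agent.CRQ.Lcb
import Pool.Agent.CRM.All
import Pool.Agent.CRP.Dcp

/-!
Campaign CRS, module Lkb: dependence and generation modulo `KJ` in central local rings (problem MP_1bb14d_al).
-/

set_option autoImplicit false

namespace Pool.Agent.CRS

open Pool.Agent.CRR Pool.Agent.CRN Pool.Agent.CRK Pool.Agent.CRL Pool.Agent.CRM Pool.Agent.CRP
open Pool.Agent.CRQ

theorem Lkb_one {R : Type} [NonUnitalRing R] (e t : R) : Cv [(1, 0)] e t = e := by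
  show ([((1 : ℤ), (0 : ℕ))].map fun q => q.1 • te e t q.2).sum = e
  rw [List.map_cons, List.map_nil, List.sum_cons, List.sum_nil, add_zero]
  exact one_smul ℤ e

/-- An argument in `M_j` gives a relation. -/
theorem Lkb_rel {R : Type} [NonUnitalRing R] {p g : ℕ} {e t : R} (he : ∀ x : R, e * x = x)
    (hW : ∀ u ∈ NonUnitalSubring.closure ({t} : Set R), ∃ m, u = Cv m e t)
    (x : Fin g → R) (j : Fin g) (hj : x j ∈ Mj p t x j) :
    ∃ (m : Fin g → List (ℤ × ℕ)) (j : Fin g), m j = [(1, 0)] ∧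
      ∑ i, Cv (m i) e t * x i ∈ KJ R p := by
  classical
  obtain ⟨u, huW, hu0, hu⟩ := Lcb_Mj hj
  have h1 : ∀ i, ∃ m, -u i = Cv m e t := fun i => hW _ (neg_mem (huW i))
  choose m hm using h1
  refine ⟨fun i => if i = j then [(1, 0)] else m i, j, if_pos rfl, ?_⟩
  have h2 : ∀ i, Cv (if i = j then [(1, 0)] else m i) e t * x i =
      (if i = j then x j else 0) - u i * x i := by
    intro i
    by_cases hij : i = j
    · rw [if_pos hij, if_pos hij, Lkb_one, he, hij, hu0 j (lt_irrefl j), zero_mul, sub_zero]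
    · rw [if_neg hij, if_neg hij, ← hm i, neg_mul, zero_sub]
  have h3 : ∑ i, Cv (if i = j then [(1, 0)] else m i) e t * x i = x j - ∑ i, u i * x i := by
    rw [Finset.sum_congr rfl fun i _ => h2 i, Finset.sum_sub_distrib, Finset.sum_ite_eq',
      if_pos (Finset.mem_univ _)]
  rw [h3]
  exact hu

/-- **LKB.** -/
theorem thm_Lkb (hCfx : St_Cfx) (hLwa : St_Lwa) : St_Lkb := by
  intro n p N R _ _ e t₀ g hC z hz hgen t ht
  obtain ⟨hL, hcen, -, -, hcl⟩ := hCfx n p N R e t₀ hC t ht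
  have hW : ∀ u ∈ NonUnitalSubring.closure ({t} : Set R), ∃ m, u = Cv m e t :=
    fun u hu => ((hLwa n p N R e t hL).1 u).1 hu
  have hgt : NonUnitalSubring.closure ({t} ∪ Set.range z) = ⊤ := by rw [hcl, hgen]
  have hTy : ∀ {k : ℕ} (x : Fin k → R), (∀ i, Nl (x i)) → Ty n (fun _ => 0) t x :=
    fun x hx => ⟨ht, fun i => ⟨hx i, (hcen _).symm⟩⟩
  obtain ⟨q, hq2, hq, -⟩ := CRM.dmk n p R hL.cy e hL.prm hL.one
  have hcard : Nat.card {y : R // Nl y} ≤ q ^ g * Nat.card (KJ R p) :=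
    (hq g (fun _ => 0) t z (hTy z hz)).1 hgt
  refine ⟨?_, ?_, ?_⟩
  · intro x hx hne
    by_cases h : ∃ j, x j ∈ Mj p t x j
    · obtain ⟨j, hj⟩ := h
      exact Lkb_rel (fun x => (hL.one x).1) hW x j hj
    · exact absurd (((hq g (fun _ => 0) t x (hTy x hx)).2 fun j hj => h ⟨j, hj⟩).2 hcard) hne
  · intro k hk x hx
    by_cases h : ∃ j, x j ∈ Mj p t x j
    · obtain ⟨j, hj⟩ := h
      exact Lkb_rel (fun x => (hL.one x).1) hW x j hj
    · exfalso
      have h1 := ((hq k (fun _ => 0) t x (hTy x hx)).2 fun j hj => h ⟨j, hj⟩).1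
      have h2 : 0 < Nat.card (KJ R p) := Nat.card_pos
      have h3 : q ^ g < q ^ k := Nat.pow_lt_pow_right (by omega) hk
      have h4 : q ^ g * Nat.card (KJ R p) < q ^ k * Nat.card (KJ R p) :=
        Nat.mul_lt_mul_of_pos_right h3 h2
      omega
  · intro y hy
    obtain ⟨κ, hκ, u, hu, h1⟩ := Dcp_rep (Dcp_all hL.cy hL.prm hL.one (hTy z hz) hgt hy)
    choose m hm using fun i => hW (u i) (hu i)
    refine ⟨m, ?_⟩
    have h2 : ∑ i, Cv (m i) e t * z i = ∑ i, u i * z i :=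
      Finset.sum_congr rfl fun i _ => by rw [← hm i]
    rw [h2, h1, add_sub_cancel_right]
    exact hκ

end Pool.Agent.CRS
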