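import Pool.Agent.CRS.StC
import Pool.Agent.CRM.All

/-!
Campaign CRS (problem MP_1bb14d_al), module Lks: the functions on the conjugate frames of a central local ring are a
setting `Kst` (offer 16303, helper81).
-/

set_option autoImplicit false

namespace Pool.Agent.CRS

open Pool.Agent.CRR Pool.Agent.CRN Pool.Agent.CRK Pool.Agent.CRL Pool.Agent.CRM Pool.Agent.CRP
open Pool.Agent.CRQ

section

variable {R : Type} [NonUnitalRing R]

/-- the value of a product minus one -/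
theorem Lks_mul (e t : R) (he : ∀ x, e * x = x ∧ x * e = x) (m m' m'' : List (ℤ × ℕ))
    (h : Lca_pol m'' = Lca_pol m' * Lca_pol m - 1) :
    Cv m'' e t = Cv m' e t * Cv m e t - e := by
  have hJ : ∀ (s : Unit) (x : R), x ∈ (⊤ : NonUnitalSubring R) →
      (fun _ : Unit => t) s * x ∈ (⊤ : NonUnitalSubring R) := fun _ _ _ => trivial
  let x : Unit → (⊤ : NonUnitalSubring R) := fun _ => ⟨e, trivial⟩
  have hsm := Lca_sm Unit (fun _ => t) (⊤ : NonUnitalSubring R) hJ e (fun x => (he x).1)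
  have h1 := hsm m'' x ()
  rw [h, map_sub, map_mul, map_one] at h1
  have h2 : (((Polynomial.aeval (Lca_th Unit (fun _ => t) (⊤ : NonUnitalSubring R) hJ) (Lca_pol m') *
      Polynomial.aeval (Lca_th Unit (fun _ => t) (⊤ : NonUnitalSubring R) hJ) (Lca_pol m) - 1 :
      Module.End ℤ (Unit → (⊤ : NonUnitalSubring R))) x () : (⊤ : NonUnitalSubring R)) : R) =
      Cv m' e t * (Cv m e t * e) - e := by
    show (((Polynomial.aeval (Lca_th Unit (fun _ => t) (⊤ : NonUnitalSubring R) hJ) (Lca_pol m')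
      (Polynomial.aeval (Lca_th Unit (fun _ => t) (⊤ : NonUnitalSubring R) hJ) (Lca_pol m) x)) () :
        (⊤ : NonUnitalSubring R)) : R) - e = _
    rw [hsm m' _ (), hsm m x ()]
  rw [h2, (he _).2, (he _).2] at h1
  exact h1.symm

/-- `KJ` is an ideal if the nil elements are -/
theorem Lks_kj {J : AddSubgroup R} (hJ : Idl R J) (hJn : ∀ x, x ∈ J ↔ Nl x) (p : ℕ) :
    Idl R (KJ R p) := by
  intro r x hx
  unfold KJ at hx ⊢
  induction hx using AddSubgroup.closure_induction with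
  | mem x hx =>
    rcases hx with ⟨a, b, ha, hb, rfl⟩ | ⟨a, rfl⟩
    · constructor
      · refine AddSubgroup.subset_closure (Or.inl ⟨r * a, b, ?_, hb, ?_⟩)
        · exact (hJn _).1 (hJ r a ((hJn a).2 ha)).1
        · rw [mul_assoc]
      · refine AddSubgroup.subset_closure (Or.inl ⟨a, b * r, ha, ?_, ?_⟩)
        · exact (hJn _).1 (hJ r b ((hJn b).2 hb)).2
        · rw [mul_assoc]
    · constructor
      · exact AddSubgroup.subset_closure (Or.inr ⟨r * a, mul_smul_comm p r a⟩)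
      · exact AddSubgroup.subset_closure (Or.inr ⟨a * r, smul_mul_assoc p a r⟩)
  | zero =>
    rw [mul_zero, zero_mul]
    exact ⟨AddSubgroup.zero_mem _, AddSubgroup.zero_mem _⟩
  | add x y _ _ hx hy =>
    rw [mul_add, add_mul]
    exact ⟨AddSubgroup.add_mem _ hx.1 hy.1, AddSubgroup.add_mem _ hx.2 hy.2⟩
  | neg x _ hx =>
    rw [mul_neg, neg_mul]
    exact ⟨AddSubgroup.neg_mem _ hx.1, AddSubgroup.neg_mem _ hx.2⟩

end

/-- **LKS.** -/
theorem thm_Lks (hCfx : St_Cfx) (hLwa : St_Lwa) (hLso : St_Lso) : St_Lks := by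
  intro n p N R _ _ e t₀ H S hS hp h0 hH hSn
  letI := Lca_mod (Ftp n e t₀) (fun s => s.1) S hS
  have hF := h0.fr
  obtain ⟨J, hJ, hJn⟩ := CRL.jil n hF.cy.n4 R hF.cy.inM hF.cy.nt
  have hK : Idl R (KJ R p) := Lks_kj hJ hJn p
  obtain ⟨-, hso2, hso3⟩ := hLso n p N R e t₀ H h0 hH
  have hfr : ∀ s : Ftp n e t₀, Lfr n p N e s.1 := fun s => (hCfx n p N R e t₀ h0 s.1 s.2.1).1
  have hn : ∀ (a : Ftp n e t₀ → S) (s : Ftp n e t₀), Nl (a s : R) := fun a s => (hSn _).1 (a s).2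
  have hmulS : ∀ (r : R) (a : Ftp n e t₀ → S) (s : Ftp n e t₀), r * (a s : R) ∈ S := fun r a s =>
    (hSn _).2 ((hJn _).1 (hJ r _ ((hJn _).2 (hn a s))).1)
  have hsm : ∀ (m : List (ℤ × ℕ)) (x : Ftp n e t₀ → S) (s : Ftp n e t₀),
      ((Lca_pol m • x : Ftp n e t₀ → S) s : R) = Cv m e s.1 * x s :=
    fun m x s => Lca_sme (Ftp n e t₀) (fun s => s.1) S hS e (fun x => (hF.one x).1) m x s
  have hnat : ∀ (k : ℕ) (x : Ftp n e t₀ → S) (s : Ftp n e t₀),
      ((k • x : Ftp n e t₀ → S) s : R) = k • (x s : R) := fun k x s => rfl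
  refine ⟨hp, ?_, ?_, ?_, ?_, ?_, ?_, ?_, ?_, ?_⟩
  · intro x
    funext s
    exact Subtype.ext (hn x s)
  · obtain ⟨r, hr⟩ := hF.cy.pr
    refine ⟨r, fun x => ?_⟩
    funext s
    exact Subtype.ext (hr (x s : R))
  · intro c
    obtain ⟨m, rfl⟩ := Lca_pol_ex c
    by_cases hm : Nl (Cv m e t₀)
    · left
      intro x
      have h1 : ∀ s : Ftp n e t₀, ∃ m', Cv m e s.1 = p • Cv m' e s.1 := fun s =>
        (hLwa n p N R e s.1 (hfr s)).2.1 m ((s.2.2 m).2 hm)
      choose m' hm' using h1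
      refine ⟨fun s => ⟨Cv (m' s) e s.1 * x s, hmulS _ x s⟩, ?_⟩
      funext s
      refine Subtype.ext ?_
      rw [hsm, hnat, hm' s, smul_mul_assoc]
    · right
      obtain ⟨m', hm'⟩ := (hLwa n p N R e t₀ hF).2.2 m hm
      obtain ⟨m'', hm''⟩ := Lca_pol_ex (Lca_pol m' * Lca_pol m - 1)
      have h1 : Nl (Cv m'' e t₀) := by
        rw [Lks_mul e t₀ hF.one m m' m'' hm'', hm', sub_self]
        show (0 : R) * 0 * 0 = 0
        rw [mul_zero]
      refine ⟨Lca_pol m', fun x => ?_⟩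
      have h2 : ∀ s : Ftp n e t₀, ∃ m3, Cv m'' e s.1 = p • Cv m3 e s.1 := fun s =>
        (hLwa n p N R e s.1 (hfr s)).2.1 m'' ((s.2.2 m'').2 h1)
      choose m3 hm3 using h2
      refine ⟨fun s => ⟨Cv (m3 s) e s.1 * x s, hmulS _ x s⟩, ?_⟩
      funext s
      refine Subtype.ext ?_
      rw [hnat]
      show ((Lca_pol m' • Lca_pol m • x : Ftp n e t₀ → S) s : R) - (x s : R) =
        p • (Cv (m3 s) e s.1 * (x s : R))
      rw [hsm, hsm, ← smul_mul_assoc, ← hm3 s, Lks_mul e s.1 hF.one m m' m'' hm'', sub_mul,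
        (hF.one _).1, mul_assoc]
  · intro c x hx s
    obtain ⟨m, rfl⟩ := Lca_pol_ex c
    rw [hsm]
    exact (hK _ _ (hx s)).1
  · intro x s
    rw [hnat]
    exact AddSubgroup.subset_closure (Or.inr ⟨(x s : R), rfl⟩)
  · intro x y s
    exact AddSubgroup.subset_closure (Or.inl ⟨(x s : R), (y s : R), hn x s, hn y s, rfl⟩)
  · intro c x hx s
    obtain ⟨m, rfl⟩ := Lca_pol_ex c
    rw [hsm]
    exact (hH.1 _ _ (hx s)).1
  · intro x hx
    refine ⟨?_, fun y => ⟨?_, ?_⟩⟩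
    · funext s
      exact Subtype.ext (hso2 _ (hx s)).1
    · funext s
      exact Subtype.ext ((hso2 _ (hx s)).2 _ (hn y s)).1
    · funext s
      exact Subtype.ext ((hso2 _ (hx s)).2 _ (hn y s)).2
  · intro x hpx hxy s
    refine hso3 _ (hn x s) ?_ ?_
    · have h1 := congrArg (fun y : Ftp n e t₀ → S => ((y s : S) : R)) hpx
      exact h1
    · intro y hy
      have h1 := hxy (fun _ => ⟨y, (hSn y).2 hy⟩)
      exact ⟨congrArg (fun y : Ftp n e t₀ → S => ((y s : S) : R)) h1.1,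
        congrArg (fun y : Ftp n e t₀ → S => ((y s : S) : R)) h1.2⟩

end Pool.Agent.CRS
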