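import Pool.Agent.CRS.Nmt

/-!
Campaign CRS, module Lmt: products with a factor in `KJ`, central local rings.
-/

set_option autoImplicit false

namespace Pool.Agent.CRS

open Pool.Agent.CRR Pool.Agent.CRN Pool.Agent.CRK Pool.Agent.CRL Pool.Agent.CRM Pool.Agent.CRP
open Pool.Agent.CRQ

section

variable {R : Type} [NonUnitalRing R]

theorem Lmt_val (S : NonUnitalSubring R) (l : List S) :
    ((wp l : S) : R) = wp (l.map fun a : S => (a : R)) := by
  induction l with
  | nil => rfl
  | cons a l ih =>
    cases l with
    | nil => rfl
    | cons b l =>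
      show (a : R) * ((wp (b :: l) : S) : R) = (a : R) * wp ((b :: l).map fun a : S => (a : R))
      rw [ih]

end

theorem thm_Lmt (hK : Jk0) : St_Lmt := by
  intro n p N R _ _ e t₀ S hp hC hS m hm l₁ l₂ hl htop
  obtain ⟨J, hJ, hJn⟩ := CRL.jil n hC.fr.cy.n4 R hC.fr.cy.inM hC.fr.cy.nt
  have hSl : ∀ (r : R) (x : S), r * (x : R) ∈ S ∧ (x : R) * r ∈ S := by
    intro r x
    have h1 := hJ r x ((hJn _).2 ((hS _).1 x.2))
    exact ⟨(hS _).2 ((hJn _).1 h1.1), (hS _).2 ((hJn _).1 h1.2)⟩
  have h3 : ∀ x : S, x * x * x = 0 := fun x => Subtype.ext ((hS _).1 x.2)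
  have hr : ∃ r : ℕ, ∀ x : S, (p ^ r) • x = 0 := by
    obtain ⟨r, hr⟩ := hC.fr.cy.pr
    exact ⟨r, fun x => Subtype.ext (hr x)⟩
  funext s
  refine Subtype.ext ?_
  rw [Lca_evwp, List.map_append, List.map_cons]
  -- the lists of the values
  obtain ⟨k₁, hk₁⟩ : ∃ k₁ : List S, k₁ = l₁.map fun a => a s := ⟨_, rfl⟩
  obtain ⟨k₂, hk₂⟩ : ∃ k₂ : List S, k₂ = l₂.map fun a => a s := ⟨_, rfl⟩
  have e₁ : (l₁.map fun a : Ftp n e t₀ → S => ((a s : S) : R)) = k₁.map fun a : S => (a : R) := by
    rw [hk₁, List.map_map]
    rfl
  have e₂ : (l₂.map fun a : Ftp n e t₀ → S => ((a s : S) : R)) = k₂.map fun a : S => (a : R) := by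
    rw [hk₂, List.map_map]
    rfl
  have hlen : k₁.length + k₂.length = l₁.length + l₂.length := by
    rw [hk₁, hk₂, List.length_map, List.length_map]
  rw [e₁, e₂]
  have htop' : ∀ l : List S, l₁.length + l₂.length + 2 ≤ l.length → wp l = 0 := by
    intro l hl'
    have h1 := htop (l.map fun a => fun _ => a) (by rwa [List.length_map])
    have h2 := congrArg (fun y : Ftp n e t₀ → S => ((y s : S) : R)) h1
    have h3 : ((wp (l.map fun a => fun _ : Ftp n e t₀ => a) : Ftp n e t₀ → S) s : R) =
        ((wp l : S) : R) := by
      rw [Lca_evwp, Lmt_val, List.map_map]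
      rfl
    exact Subtype.ext (h3.symm.trans h2)
  have key : ∀ κ ∈ KJ R p, Nmt_hom (k₁.map fun a : S => (a : R)) (k₂.map fun a : S => (a : R)) κ = 0 := by
    intro κ hκ
    unfold KJ at hκ
    induction hκ using AddSubgroup.closure_induction with
    | mem x hx =>
      rcases hx with ⟨a, b, ha, hb, rfl⟩ | ⟨a, rfl⟩
      · show wp ((k₁.map fun a : S => (a : R)) ++ (a * b) :: (k₂.map fun a : S => (a : R))) = 0
        rw [Nmt_mul]
        have h1 := htop' (k₁ ++ ⟨a, (hS a).2 ha⟩ :: ⟨b, (hS b).2 hb⟩ :: k₂) (by
          simp only [List.length_append, List.length_cons]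
          omega)
        have h2 := congrArg (fun y : S => (y : R)) h1
        simp only [Lmt_val, List.map_append, List.map_cons] at h2
        exact h2
      · rw [map_nsmul]
        show p • wp ((k₁.map fun a : S => (a : R)) ++ a :: (k₂.map fun a : S => (a : R))) = 0
        rcases List.eq_nil_or_concat k₁ with h0 | ⟨k, b, h0⟩
        · cases hk : k₂ with
          | nil =>
            rw [h0, hk] at hlen
            simp only [List.length_nil] at hlen
            omega
          | cons b k =>
            have h1 := hK S p hp h3 hr (⟨a * b, (hSl a b).1⟩ :: k) (by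
              rw [h0, hk] at hlen
              simp only [List.length_nil, List.length_cons] at hlen ⊢
              omega)
            have h2 : p • (wp ((a * (b : R)) :: (k.map fun a : S => (a : R))) : R) = 0 := by
              have h3 := congrArg (fun y : S => (y : R)) h1
              have h4 := Lmt_val S (⟨a * b, (hSl a b).1⟩ :: k)
              rw [List.map_cons] at h4
              rw [← h4]
              exact h3
            rw [h0, List.map_nil, List.nil_append, List.map_cons]
            have h5 := Nmt_mul ([] : List R) (k.map fun a : S => (a : R)) a b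
            rw [List.nil_append, List.nil_append] at h5
            rw [← h5]
            exact h2
        · have h1 := hK S p hp h3 hr (k ++ ⟨(b : R) * a, (hSl a b).2⟩ :: k₂) (by
            rw [h0] at hlen
            simp only [List.length_append, List.length_cons, List.concat_eq_append,
              List.length_nil] at hlen ⊢
            omega)
          have h2 : p • (wp ((k.map fun a : S => (a : R)) ++ ((b : R) * a) ::
              (k₂.map fun a : S => (a : R))) : R) = 0 := by
            have h3 := congrArg (fun y : S => (y : R)) h1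
            have h4 := Lmt_val S (k ++ ⟨(b : R) * a, (hSl a b).2⟩ :: k₂)
            rw [List.map_append, List.map_cons] at h4
            rw [← h4]
            exact h3
          rw [h0, List.concat_eq_append, List.map_append, List.map_cons, List.map_nil,
            List.append_assoc, List.cons_append, List.nil_append, ← Nmt_mul]
          exact h2
    | zero => exact map_zero _
    | add x y _ _ hx hy => rw [map_add, hx, hy, add_zero]
    | neg x _ hx => rw [map_neg, hx, neg_zero]
  exact key _ (hm s)

end Pool.Agent.CRS
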