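import Pool.Agent.CRS.StQ
import Pool.Agent.CRQ.Lca

/-!
Campaign CRS, module Lmv: products with three factors in `KJ`, central local rings.
-/

set_option autoImplicit false

namespace Pool.Agent.CRS

open Pool.Agent.CRR Pool.Agent.CRN Pool.Agent.CRK Pool.Agent.CRL Pool.Agent.CRM Pool.Agent.CRP
open Pool.Agent.CRQ

section words

variable {R : Type} [NonUnitalRing R]

theorem Lmv_cons (x : R) {l : List R} (h : l ≠ []) : wp (x :: l) = x * wp l := by
  cases l with
  | nil => exact absurd rfl h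
  | cons y l => rfl

omit [NonUnitalRing R] in
theorem Lmv_app_cons (u : List R) (x : R) (v : List R) : u ++ x :: v ≠ [] := by simp

theorem Lmv_add (u v : List R) (x y : R) :
    wp (u ++ (x + y) :: v) = wp (u ++ x :: v) + wp (u ++ y :: v) := by
  induction u with
  | nil =>
    cases v with
    | nil => rfl
    | cons z v => exact add_mul x y _
  | cons a u ih =>
    rw [List.cons_append, List.cons_append, List.cons_append, Lmv_cons a (Lmv_app_cons _ _ _),
      Lmv_cons a (Lmv_app_cons _ _ _), Lmv_cons a (Lmv_app_cons _ _ _), ih, mul_add]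

theorem Lmv_smul (p : ℕ) (u v : List R) (x : R) :
    wp (u ++ (p • x) :: v) = p • wp (u ++ x :: v) := by
  induction u with
  | nil =>
    cases v with
    | nil => rfl
    | cons z v => exact smul_mul_assoc p x _
  | cons a u ih =>
    rw [List.cons_append, List.cons_append, Lmv_cons a (Lmv_app_cons _ _ _),
      Lmv_cons a (Lmv_app_cons _ _ _), ih, mul_smul_comm]

theorem Lmv_mul (u v : List R) (x y : R) :
    wp (u ++ (x * y) :: v) = wp (u ++ x :: y :: v) := by
  induction u with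
  | nil =>
    cases v with
    | nil => rfl
    | cons z v => exact mul_assoc x y _
  | cons a u ih =>
    rw [List.cons_append, List.cons_append, Lmv_cons a (Lmv_app_cons _ _ _),
      Lmv_cons a (Lmv_app_cons _ _ _), ih]

/-- one slot, elements of `KJ` -/
theorem Lmv_cl (p : ℕ) (u v : List R) (h1 : ∀ a b, Nl a → Nl b → wp (u ++ a :: b :: v) = 0)
    (h2 : ∀ a, wp (u ++ (p • a) :: v) = 0) : ∀ m ∈ KJ R p, wp (u ++ m :: v) = 0 := by
  let φ : R →+ R := AddMonoidHom.mk' (fun x => wp (u ++ x :: v)) fun x y => Lmv_add u v x y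
  have h3 : KJ R p ≤ φ.ker := by
    unfold KJ
    rw [AddSubgroup.closure_le]
    rintro w (⟨a, b, ha, hb, rfl⟩ | ⟨a, rfl⟩)
    · show wp (u ++ (a * b) :: v) = 0
      rw [Lmv_mul]
      exact h1 a b ha hb
    · exact h2 a
  exact fun m hm => h3 hm

/-- three slots -/
theorem Lmv_three (p K : ℕ) (hp3 : ∀ x : R, p • p • p • x = 0) (hpn : ∀ x : R, Nl (p • x))
    (hK : ∀ l : List R, (∀ x ∈ l, Nl x) → K ≤ l.length → wp l = 0)
    (hKN : ∀ m ∈ KJ R p, Nl m)
    (l₁ l₂ l₃ l₄ : List R) (n₁ : ∀ x ∈ l₁, Nl x) (n₂ : ∀ x ∈ l₂, Nl x) (n₃ : ∀ x ∈ l₃, Nl x)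
    (n₄ : ∀ x ∈ l₄, Nl x) (hl : K ≤ l₁.length + l₂.length + l₃.length + l₄.length + 4)
    (m₁ m₂ m₃ : R) (hm₁ : m₁ ∈ KJ R p) (hm₂ : m₂ ∈ KJ R p) (hm₃ : m₃ ∈ KJ R p) :
    wp (l₁ ++ m₁ :: (l₂ ++ m₂ :: (l₃ ++ m₃ :: l₄))) = 0 := by
  have k2 := hKN _ hm₂
  have k3 := hKN _ hm₃
  refine Lmv_cl p l₁ (l₂ ++ m₂ :: (l₃ ++ m₃ :: l₄)) ?_ ?_ m₁ hm₁
  · intro a b ha hb
    refine hK _ ?_ ?_
    · intro x hx
      simp only [List.mem_append, List.mem_cons] at hx
      rcases hx with h | rfl | rfl | h | rfl | h | rfl | h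
      · exact n₁ x h
      · exact ha
      · exact hb
      · exact n₂ x h
      · exact k2
      · exact n₃ x h
      · exact k3
      · exact n₄ x h
    · simp only [List.length_append, List.length_cons]
      omega
  intro a₁
  have k1 := hpn a₁
  have e1 : ∀ m : R, l₁ ++ (p • a₁) :: (l₂ ++ m :: (l₃ ++ m₃ :: l₄)) =
      (l₁ ++ (p • a₁) :: l₂) ++ m :: (l₃ ++ m₃ :: l₄) := fun m => by simp
  rw [e1]
  refine Lmv_cl p (l₁ ++ (p • a₁) :: l₂) (l₃ ++ m₃ :: l₄) ?_ ?_ m₂ hm₂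
  · intro a b ha hb
    refine hK _ ?_ ?_
    · intro x hx
      simp only [List.mem_append, List.mem_cons] at hx
      rcases hx with (h | rfl | h) | rfl | rfl | h | rfl | h
      · exact n₁ x h
      · exact k1
      · exact n₂ x h
      · exact ha
      · exact hb
      · exact n₃ x h
      · exact k3
      · exact n₄ x h
    · simp only [List.length_append, List.length_cons]
      omega
  intro a₂
  have k2' := hpn a₂
  have e2 : ∀ m : R, (l₁ ++ (p • a₁) :: l₂) ++ (p • a₂) :: (l₃ ++ m :: l₄) =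
      (l₁ ++ (p • a₁) :: (l₂ ++ (p • a₂) :: l₃)) ++ m :: l₄ := fun m => by simp
  rw [e2]
  refine Lmv_cl p (l₁ ++ (p • a₁) :: (l₂ ++ (p • a₂) :: l₃)) l₄ ?_ ?_ m₃ hm₃
  · intro a b ha hb
    refine hK _ ?_ ?_
    · intro x hx
      simp only [List.mem_append, List.mem_cons] at hx
      rcases hx with (h | rfl | h | rfl | h) | rfl | rfl | h
      · exact n₁ x h
      · exact k1
      · exact n₂ x h
      · exact k2'
      · exact n₃ x h
      · exact ha
      · exact hb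
      · exact n₄ x h
    · simp only [List.length_append, List.length_cons]
      omega
  intro a₃
  have e3 : (l₁ ++ (p • a₁) :: (l₂ ++ (p • a₂) :: l₃)) ++ (p • a₃) :: l₄ =
      l₁ ++ (p • a₁) :: (l₂ ++ (p • a₂) :: (l₃ ++ (p • a₃) :: l₄)) := by simp
  have e4 : l₁ ++ a₁ :: (l₂ ++ (p • a₂) :: (l₃ ++ (p • a₃) :: l₄)) =
      (l₁ ++ a₁ :: l₂) ++ (p • a₂) :: (l₃ ++ (p • a₃) :: l₄) := by simp
  have e5 : (l₁ ++ a₁ :: l₂) ++ a₂ :: (l₃ ++ (p • a₃) :: l₄) =
      (l₁ ++ a₁ :: (l₂ ++ a₂ :: l₃)) ++ (p • a₃) :: l₄ := by simp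
  rw [e3, Lmv_smul, e4, Lmv_smul, e5, Lmv_smul]
  exact hp3 _

end words

/-- values of products of functions -/
theorem Lmv_pt {R : Type} [NonUnitalRing R] {T : Type} (S : NonUnitalSubring R) (s : T)
    (l : List (T → S)) : ((wp l s : S) : R) = wp (l.map fun x => (x s : R)) := by
  induction l with
  | nil => rfl
  | cons a l ih =>
    cases l with
    | nil => rfl
    | cons b l =>
      show (a s : R) * ((wp (b :: l) s : S) : R) = _
      rw [ih]
      rfl

theorem thm_Lmv : St_Lmv := by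
  intro n p N R _ _ e t₀ S h0 hS
  have hF := h0.fr
  obtain ⟨J, hJ, hJn⟩ := CRL.jil n hF.cy.n4 R hF.cy.inM hF.cy.nt
  have hKJ : KJ R p ≤ J := by
    rw [← (CRM.kjf n p R hF.cy).2 e hF.prm hF.one t₀ hF.fr]
    unfold JW
    rw [AddSubgroup.closure_le]
    rintro w (⟨a, b, ha, hb, rfl⟩ | ⟨_, hw⟩)
    · exact (hJ a b ((hJn b).2 hb)).1
    · exact (hJn w).2 hw
  have hKN : ∀ m ∈ KJ R p, Nl m := fun m hm => (hJn m).1 (hKJ hm)
  have hpn : ∀ x : R, Nl (p • x) := fun x =>
    hKN _ (AddSubgroup.subset_closure (Or.inr ⟨x, rfl⟩))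
  have hp3 : ∀ x : R, p • p • p • x = 0 := by
    intro x
    have h1 : (p • e) * (p • e) * (p • e) = 0 := hpn e
    have h2 : p • p • p • x = (p • e) * (p • e) * (p • e) * x := by
      simp only [smul_mul_assoc, mul_smul_comm, (hF.one _).1]
    rw [h2, h1, zero_mul]
  intro m₁ hm₁ m₂ hm₂ m₃ hm₃ l₁ l₂ l₃ l₄ _ hlong
  funext s
  apply Subtype.ext
  rw [Lmv_pt]
  have hnl : ∀ l : List (Ftp n e t₀ → S), ∀ x ∈ l.map (fun x => (x s : R)), Nl x := by
    intro l x hx
    obtain ⟨y, -, rfl⟩ := List.mem_map.1 hx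
    exact (hS _).1 (y s).2
  have hK : ∀ l : List R, (∀ x ∈ l, Nl x) →
      l₁.length + l₂.length + l₃.length + l₄.length + 4 ≤ l.length → wp l = 0 := by
    intro l hl hlen
    have h1 : ∀ x ∈ l, x ∈ S := fun x hx => (hS x).2 (hl x hx)
    let L : List (Ftp n e t₀ → S) := l.pmap (fun x hx => fun _ => (⟨x, hx⟩ : S)) h1
    have h2 : wp L = 0 := hlong L (by rw [List.length_pmap]; exact hlen)
    have h3 := Lmv_pt S s L
    rw [h2] at h3
    have h4 : L.map (fun x => (x s : R)) = l := by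
      rw [List.map_pmap]
      simp
    rw [h4] at h3
    rw [← h3]
    rfl
  have h5 := Lmv_three p _ hp3 hpn hK hKN (l₁.map fun x => (x s : R)) (l₂.map fun x => (x s : R))
    (l₃.map fun x => (x s : R)) (l₄.map fun x => (x s : R)) (hnl _) (hnl _) (hnl _) (hnl _)
    (by simp only [List.length_map]; exact le_rfl) (m₁ s : R) (m₂ s : R) (m₃ s : R)
    (hm₁ s) (hm₂ s) (hm₃ s)
  simp only [List.map_append, List.map_cons]
  exact h5

end Pool.Agent.CRS
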