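import Pool.Agent.CRS.StC

/-!
Campaign CRS, module Lso: the least nonzero ideal of a central local ring (helper26).
-/

set_option autoImplicit false

namespace Pool.Agent.CRS

open Pool.Agent.CRR Pool.Agent.CRN Pool.Agent.CRK Pool.Agent.CRL Pool.Agent.CRM Pool.Agent.CRP
open Pool.Agent.CRQ

section lso

variable {R : Type} [NonUnitalRing R]

/-- The elements of `H` which are killed by `p`. -/
def Lso_K (p : ℕ) (H : AddSubgroup R) : AddSubgroup R where
  carrier := {x | x ∈ H ∧ p • x = 0}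
  zero_mem' := ⟨zero_mem _, smul_zero _⟩
  add_mem' := by
    rintro a b ⟨ha, ha'⟩ ⟨hb, hb'⟩
    exact ⟨add_mem ha hb, by rw [smul_add, ha', hb', add_zero]⟩
  neg_mem' := by
    rintro a ⟨ha, ha'⟩
    exact ⟨neg_mem ha, by rw [smul_neg, ha', neg_zero]⟩

theorem Lso_p {p : ℕ} {H : AddSubgroup R} (hpr : ∃ r : ℕ, ∀ x : R, (p ^ r) • x = 0)
    (hH : Lst R H) : ∀ x ∈ H, p • x = 0 := by
  obtain ⟨hI, hne, hmin⟩ := hH
  have h1 : Idl R (Lso_K p H) := by
    rintro r x ⟨hx, hx'⟩
    refine ⟨⟨(hI r x hx).1, ?_⟩, ⟨(hI r x hx).2, ?_⟩⟩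
    · rw [← mul_smul_comm, hx', mul_zero]
    · rw [← smul_mul_assoc, hx', zero_mul]
  have h2 : Lso_K p H ≠ ⊥ := by
    intro hb
    apply hne
    obtain ⟨r, hr⟩ := hpr
    rw [eq_bot_iff]
    intro x hx
    have h3 : ∀ k : ℕ, ∀ y ∈ H, (p ^ k) • y = 0 → y = 0 := by
      intro k
      induction k with
      | zero =>
        intro y _ hy
        rwa [pow_zero, one_smul] at hy
      | succ k ih =>
        intro y hy hy'
        have h4 : (p ^ k) • y ∈ Lso_K p H := by
          refine ⟨AddSubgroup.nsmul_mem _ hy _, ?_⟩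
          rw [← mul_smul, ← pow_succ']
          exact hy'
        rw [hb] at h4
        exact ih y hy ((AddSubgroup.mem_bot).1 h4)
    exact (AddSubgroup.mem_bot).2 (h3 r x hx (hr x))
  intro x hx
  exact (hmin _ h1 h2 hx).2

/-- The subgroup generated by the products of at least `k` nil elements. -/
def Lso_P (R : Type) [NonUnitalRing R] (k : ℕ) : AddSubgroup R :=
  AddSubgroup.closure {z | ∃ l : List R, (∀ x ∈ l, Nl x) ∧ k ≤ l.length ∧ wp l = z}

/-- The subgroup generated by the products of elements of `H` and nil elements. -/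
def Lso_I (H : AddSubgroup R) : AddSubgroup R :=
  AddSubgroup.closure {z | ∃ h ∈ H, ∃ a, Nl a ∧ (z = h * a ∨ z = a * h)}

theorem Lso_idl {J H : AddSubgroup R} (hJ : Idl R J) (hJn : ∀ x, x ∈ J ↔ Nl x) (hI : Idl R H) :
    Idl R (Lso_I H) := by
  have hL : ∀ r : R, Lso_I H ≤ (Lso_I H).comap (AddMonoidHom.mulLeft r) := by
    intro r
    conv_lhs => unfold Lso_I
    rw [AddSubgroup.closure_le]
    rintro w ⟨h, hh, a, ha, rfl | rfl⟩
    · show r * (h * a) ∈ Lso_I H
      rw [← mul_assoc]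
      exact AddSubgroup.subset_closure ⟨r * h, (hI r h hh).1, a, ha, Or.inl rfl⟩
    · show r * (a * h) ∈ Lso_I H
      rw [← mul_assoc]
      exact AddSubgroup.subset_closure
        ⟨h, hh, r * a, (hJn _).1 (hJ r a ((hJn a).2 ha)).1, Or.inr rfl⟩
  have hR : ∀ r : R, Lso_I H ≤ (Lso_I H).comap (AddMonoidHom.mulRight r) := by
    intro r
    conv_lhs => unfold Lso_I
    rw [AddSubgroup.closure_le]
    rintro w ⟨h, hh, a, ha, rfl | rfl⟩
    · show h * a * r ∈ Lso_I H
      rw [mul_assoc]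
      exact AddSubgroup.subset_closure
        ⟨h, hh, a * r, (hJn _).1 (hJ r a ((hJn a).2 ha)).2, Or.inl rfl⟩
    · show a * h * r ∈ Lso_I H
      rw [mul_assoc]
      exact AddSubgroup.subset_closure ⟨h * r, (hI r h hh).2, a, ha, Or.inr rfl⟩
  exact fun r x hx => ⟨hL r hx, hR r hx⟩

theorem Lso_wpr (l : List R) (h : l ≠ []) (a : R) : wp (l ++ [a]) = wp l * a := by
  rw [Wrd_wp_append _ _ h (by simp)]
  rfl

theorem Lso_wpl (l : List R) (h : l ≠ []) (a : R) : wp (a :: l) = a * wp l := by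
  cases l with
  | nil => exact absurd rfl h
  | cons b l => rfl

theorem Lso_step {H : AddSubgroup R} {k : ℕ} (hk : 1 ≤ k) (h : H ≤ Lso_P R k) :
    Lso_I H ≤ Lso_P R (k + 1) := by
  unfold Lso_I
  rw [AddSubgroup.closure_le]
  have hR : ∀ a : R, Nl a → Lso_P R k ≤ (Lso_P R (k + 1)).comap (AddMonoidHom.mulRight a) := by
    intro a ha
    conv_lhs => unfold Lso_P
    rw [AddSubgroup.closure_le]
    rintro w ⟨l, hl, hlk, rfl⟩
    show wp l * a ∈ Lso_P R (k + 1)
    have hne : l ≠ [] := by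
      rintro rfl
      rw [List.length_nil] at hlk
      omega
    refine AddSubgroup.subset_closure ⟨l ++ [a], ?_, ?_, Lso_wpr l hne a⟩
    · intro x hx
      rcases List.mem_append.1 hx with hx | hx
      · exact hl x hx
      · rw [List.mem_singleton.1 hx]
        exact ha
    · rw [List.length_append, List.length_singleton]
      omega
  have hL : ∀ a : R, Nl a → Lso_P R k ≤ (Lso_P R (k + 1)).comap (AddMonoidHom.mulLeft a) := by
    intro a ha
    conv_lhs => unfold Lso_P
    rw [AddSubgroup.closure_le]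
    rintro w ⟨l, hl, hlk, rfl⟩
    show a * wp l ∈ Lso_P R (k + 1)
    have hne : l ≠ [] := by
      rintro rfl
      rw [List.length_nil] at hlk
      omega
    refine AddSubgroup.subset_closure ⟨a :: l, ?_, ?_, Lso_wpl l hne a⟩
    · intro x hx
      rcases List.mem_cons.1 hx with hx | hx
      · rw [hx]
        exact ha
      · exact hl x hx
    · rw [List.length_cons]
      omega
  rintro w ⟨x, hx, a, ha, rfl | rfl⟩
  · exact hR a ha (h hx)
  · exact hL a ha (h hx)

theorem Lso_J {J H : AddSubgroup R} (hJ : Idl R J) (hJn : ∀ x, x ∈ J ↔ Nl x) :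
    Lso_I H ≤ Lso_P R 1 := by
  have h1 : Lso_I H ≤ J := by
    unfold Lso_I
    rw [AddSubgroup.closure_le]
    rintro w ⟨x, _, a, ha, rfl | rfl⟩
    · exact (hJ x a ((hJn a).2 ha)).1
    · exact (hJ x a ((hJn a).2 ha)).2
  intro x hx
  refine AddSubgroup.subset_closure ⟨[x], ?_, le_rfl, rfl⟩
  intro y hy
  rw [List.mem_singleton.1 hy]
  exact (hJn x).1 (h1 hx)

theorem Lso_ann {J H : AddSubgroup R} (hJ : Idl R J) (hJn : ∀ x, x ∈ J ↔ Nl x) (hH : Lst R H)
    {K : ℕ} (hK : ∀ l : List R, (∀ x ∈ l, Nl x) → K ≤ l.length → wp l = 0) :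
    ∀ x ∈ H, ∀ y : R, Nl y → x * y = 0 ∧ y * x = 0 := by
  obtain ⟨hI, hne, hmin⟩ := hH
  have h1 : Lso_I H = ⊥ := by
    by_contra h
    have h2 : H ≤ Lso_I H := hmin _ (Lso_idl hJ hJn hI) h
    have h3 : ∀ k : ℕ, H ≤ Lso_P R (k + 1) := by
      intro k
      induction k with
      | zero => exact h2.trans (Lso_J hJ hJn)
      | succ k ih => exact h2.trans (Lso_step (by omega) ih)
    apply hne
    rw [eq_bot_iff]
    refine (h3 K).trans ?_
    unfold Lso_P
    rw [AddSubgroup.closure_le]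
    rintro w ⟨l, hl, hlk, rfl⟩
    exact (AddSubgroup.mem_bot).2 (hK l hl (by omega))
  intro x hx y hy
  constructor
  · apply (AddSubgroup.mem_bot).1
    rw [← h1]
    exact AddSubgroup.subset_closure ⟨x, hx, y, hy, Or.inl rfl⟩
  · apply (AddSubgroup.mem_bot).1
    rw [← h1]
    exact AddSubgroup.subset_closure ⟨x, hx, y, hy, Or.inr rfl⟩

end lso

/-- **LSO.** -/
theorem thm_Lso (hLwa : St_Lwa) : St_Lso := by
  intro n p N R _ _ e t₀ H hC hH
  have hf := hC.fr
  obtain ⟨J, hJ, hJn⟩ := CRL.jil n hf.cy.n4 R hf.cy.inM hf.cy.nt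
  obtain ⟨M, _, hM⟩ := CRL.bnd n p R hf.cy
  have hK : ∀ l : List R, (∀ x ∈ l, Nl x) → M + 1 ≤ l.length → wp l = 0 :=
    fun l hl hk => hM l l (List.Sublist.refl l) hl hk
  refine ⟨⟨M + 1, hK⟩, ?_, ?_⟩
  · intro x hx
    exact ⟨Lso_p hf.cy.pr hH x hx, Lso_ann hJ hJn hH hK x hx⟩
  · intro x hxn hpx hxJ
    by_cases hx0 : x = 0
    · rw [hx0]
      exact zero_mem _
    obtain ⟨hL1, hL2, hL3⟩ := hLwa n p N R e t₀ hf
    have hcen : ∀ u ∈ NonUnitalSubring.closure ({t₀} : Set R), ∀ r, u * r = r * u := by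
      intro u hu
      induction hu using NonUnitalSubring.closure_induction with
      | mem y hy =>
        rw [Set.mem_singleton_iff] at hy
        rw [hy]
        exact hC.cen
      | zero =>
        intro r
        rw [zero_mul, mul_zero]
      | add a b _ _ ha hb =>
        intro r
        rw [add_mul, mul_add, ha, hb]
      | neg a _ ha =>
        intro r
        rw [neg_mul, mul_neg, ha]
      | mul a b _ _ ha hb =>
        intro r
        rw [mul_assoc, hb, ← mul_assoc, ha, mul_assoc]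
    have ht : t₀ ∈ NonUnitalSubring.closure ({t₀} : Set R) :=
      NonUnitalSubring.subset_closure rfl
    have heW : e ∈ NonUnitalSubring.closure ({t₀} : Set R) := by
      rw [← hf.pn]
      exact Dmk_pw _ ht _
    have hdec : ∀ r : R, ∃ w ∈ NonUnitalSubring.closure ({t₀} : Set R), Nl (r - w) := by
      intro r
      obtain ⟨d, hd, hn⟩ := CRL.gen n p R hf.cy 1 (fun _ => t₀) hf.fr r
      rw [Fin.sum_univ_one] at hn
      refine ⟨d 0, ?_, hn⟩
      rcases hd 0 with h | ⟨k, h⟩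
      · rw [h]
        exact zero_mem _
      · rw [h]
        exact Dmk_pw _ ht k
    let I : AddSubgroup R :=
      { carrier := {z | ∃ u ∈ NonUnitalSubring.closure ({t₀} : Set R), z = u * x}
        zero_mem' := ⟨0, zero_mem _, (zero_mul x).symm⟩
        add_mem' := by
          rintro _ _ ⟨u, hu, rfl⟩ ⟨v, hv, rfl⟩
          exact ⟨u + v, add_mem hu hv, (add_mul u v x).symm⟩
        neg_mem' := by
          rintro _ ⟨u, hu, rfl⟩
          exact ⟨-u, neg_mem hu, (neg_mul u x).symm⟩ }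
    have hI1 : Idl R I := by
      rintro r _ ⟨u, hu, rfl⟩
      constructor
      · obtain ⟨w, hw, hn⟩ := hdec (r * u)
        refine ⟨w, hw, ?_⟩
        have h1 := (hxJ _ hn).2
        rw [sub_mul] at h1
        rw [← mul_assoc]
        exact sub_eq_zero.1 h1
      · obtain ⟨w, hw, hn⟩ := hdec r
        refine ⟨u * w, mul_mem hu hw, ?_⟩
        have h1 := (hxJ _ hn).1
        rw [mul_sub] at h1
        rw [mul_assoc, sub_eq_zero.1 h1, ← hcen w hw x, mul_assoc]
    have hI2 : I ≠ ⊥ := by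
      intro hb
      have h1 : x ∈ I := ⟨e, heW, (hf.one x).1.symm⟩
      rw [hb] at h1
      exact hx0 ((AddSubgroup.mem_bot).1 h1)
    have hHI : H ≤ I := hH.2.2 I hI1 hI2
    obtain ⟨h, hh, hh0⟩ : ∃ h ∈ H, h ≠ 0 := by
      by_contra hcon
      apply hH.2.1
      rw [eq_bot_iff]
      intro y hy
      by_contra hy0
      exact hcon ⟨y, hy, fun h => hy0 ((AddSubgroup.mem_bot).2 h)⟩
    obtain ⟨u, hu, hux⟩ := hHI hh
    obtain ⟨m, hm⟩ := (hL1 u).1 hu
    have hnn : ¬ Nl (Cv m e t₀) := by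
      intro hn
      obtain ⟨m', hm'⟩ := hL2 m hn
      apply hh0
      rw [hux, hm, hm', smul_mul_assoc, ← mul_smul_comm, hpx, mul_zero]
    obtain ⟨m', hm'⟩ := hL3 m hnn
    have h1 : x = Cv m' e t₀ * h := by
      rw [hux, hm, ← mul_assoc, hm', (hf.one x).1]
    rw [h1]
    exact (hH.1 _ h hh).1

end Pool.Agent.CRS
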