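import Pool.Agent.CRS.StC

/-!
Campaign CRS, module Ltp: products of many elements of the radical of a central local ring.
-/

set_option autoImplicit false

namespace Pool.Agent.CRS

open Pool.Agent.CRR Pool.Agent.CRN Pool.Agent.CRK Pool.Agent.CRL Pool.Agent.CRM Pool.Agent.CRP
open Pool.Agent.CRQ

section lists

variable {A : Type} [NonUnitalRing A]

theorem Ltp_mm (l₁ l₂ : List A) (a b : A) :
    wp (l₁ ++ (a * b) :: l₂) = wp (l₁ ++ a :: b :: l₂) := by
  induction l₁ with
  | nil =>
    cases l₂ with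
    | nil => rfl
    | cons c l =>
      show a * b * wp (c :: l) = a * (b * wp (c :: l))
      rw [mul_assoc]
  | cons c l ih =>
    rw [List.cons_append, List.cons_append, Lib_cons c (by simp), Lib_cons c (by simp), ih]

theorem Ltp_ns (l₁ l₂ : List A) (p : ℕ) (a : A) :
    wp (l₁ ++ (p • a) :: l₂) = p • wp (l₁ ++ a :: l₂) := by
  induction l₁ with
  | nil =>
    cases l₂ with
    | nil => rfl
    | cons c l =>
      show p • a * wp (c :: l) = p • (a * wp (c :: l))
      rw [smul_mul_assoc]
  | cons c l ih =>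
    rw [List.cons_append, List.cons_append, Lib_cons c (by simp), Lib_cons c (by simp), ih,
      mul_smul_comm]

theorem Ltp_word {g : ℕ} (C : Set A) (hC : ∀ u ∈ C, ∀ r, u * r = r * u)
    (hmul : ∀ u ∈ C, ∀ v ∈ C, u * v ∈ C) (z : Fin g → A) (l : List A)
    (hl : ∀ x ∈ l, ∃ u ∈ C, ∃ i, x = u * z i) (hne : l ≠ []) :
    ∃ u ∈ C, ∃ w : List ℕ, (∀ i ∈ w, i < g) ∧ w.length = l.length ∧
      wp l = u * wp (w.map (xs z)) := by
  have hxs : ∀ i : Fin g, xs z i.val = z i := by
    intro i
    unfold xs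
    rw [dif_pos i.2]
  induction l with
  | nil => exact absurd rfl hne
  | cons x l ih =>
    obtain ⟨u, hu, i, hx⟩ := hl x List.mem_cons_self
    by_cases hl0 : l = []
    · subst hl0
      refine ⟨u, hu, [i.val], ?_, rfl, ?_⟩
      · intro j hj
        rw [List.mem_singleton.1 hj]
        exact i.2
      · show x = u * xs z i.val
        rw [hxs, hx]
    · obtain ⟨u', hu', w, hw, hwl, hw2⟩ := ih (fun y hy => hl y (List.mem_cons_of_mem _ hy)) hl0
      refine ⟨u * u', hmul u hu u' hu', i.val :: w, ?_, ?_, ?_⟩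
      · intro j hj
        rcases List.mem_cons.1 hj with h | h
        · rw [h]
          exact i.2
        · exact hw j h
      · rw [List.length_cons, List.length_cons, hwl]
      · have hw0 : w.map (xs z) ≠ [] := by
          intro h
          have h1 := congrArg List.length h
          rw [List.length_map, hwl, List.length_nil] at h1
          exact hl0 (List.length_eq_zero_iff.1 h1)
        rw [Lib_cons x hl0, hw2, hx, List.map_cons, Lib_cons _ hw0, hxs]
        rw [mul_assoc, ← mul_assoc (z i), ← hC u' hu' (z i), mul_assoc u' (z i), ← mul_assoc u u']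

theorem Ltp_count (g : ℕ) (w : List ℕ) (hw : ∀ i ∈ w, i < g) :
    w.length = ∑ k ∈ Finset.range g, w.count k := by
  induction w with
  | nil => simp
  | cons a w ih =>
    have h1 := ih fun i hi => hw i (List.mem_cons_of_mem _ hi)
    have h2 : a ∈ Finset.range g := Finset.mem_range.2 (hw a List.mem_cons_self)
    rw [List.length_cons, h1]
    have h3 : ∀ k ∈ Finset.range g, (a :: w).count k = w.count k + if k = a then 1 else 0 := by
      intro k _
      rw [List.count_cons]
      by_cases h : k = a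
      · subst h
        simp
      · rw [if_neg h, if_neg]
        intro h4
        exact h (beq_iff_eq.1 h4).symm
    rw [Finset.sum_congr rfl h3, Finset.sum_add_distrib, Finset.sum_ite_eq' , if_pos h2]

theorem Ltp_four (g : ℕ) (w : List ℕ) (hw : ∀ i ∈ w, i < g) (hl : 3 * g + 1 ≤ w.length) :
    ∃ k, 4 ≤ w.count k := by
  by_contra hcon
  push Not at hcon
  have h1 := Ltp_count g w hw
  have h2 : ∑ k ∈ Finset.range g, w.count k ≤ ∑ _k ∈ Finset.range g, 3 :=
    Finset.sum_le_sum fun k _ => by have := hcon k; omega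
  rw [Finset.sum_const, Finset.card_range, smul_eq_mul] at h2
  omega

end lists

theorem thm_Ltp (hJ0 : Jk0) (hJz : Jkz) (hExp : St_Exp) : St_Ltp := by
  classical
  intro n p N R _ _ e t₀ g hp hC hg hz l hl hlen
  obtain ⟨z, hzn, hzg⟩ := hz
  have hF := hC.fr
  obtain ⟨J, hJ, hJn⟩ := CRL.jil n hF.cy.n4 R hF.cy.inM hF.cy.nt
  have hW : ∀ u ∈ NonUnitalSubring.closure ({t₀} : Set R), ∀ r, u * r = r * u := by
    intro u hu r
    induction hu using NonUnitalSubring.closure_induction with
    | mem w hw => rw [Set.mem_singleton_iff.1 hw, hC.cen]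
    | zero => rw [zero_mul, mul_zero]
    | add a b _ _ ha hb => rw [add_mul, mul_add, ha, hb]
    | neg a _ ha => rw [neg_mul, mul_neg, ha]
    | mul a b _ _ ha hb => rw [mul_assoc, hb, ← mul_assoc, ha, mul_assoc]
  have hKJ : KJ R p ≤ J := by
    rw [← (CRM.kjf n p R hF.cy).2 e hF.prm hF.one t₀ hF.fr]
    unfold JW
    rw [AddSubgroup.closure_le]
    rintro w (⟨a, b, ha, hb, rfl⟩ | ⟨_, hw⟩)
    · exact (hJ a b ((hJn b).2 hb)).1
    · exact (hJn w).2 hw
  have hcube : ∀ x : BndS J hJ, x * x * x = 0 := by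
    intro x
    apply Subtype.ext
    exact (hJn x.1).1 x.2
  have hpr : ∃ r : ℕ, ∀ x : BndS J hJ, (p ^ r) • x = 0 := by
    obtain ⟨r, hr⟩ := hF.cy.pr
    refine ⟨r, fun x => ?_⟩
    apply Subtype.ext
    exact hr x.1
  have hnil : ∃ K : ℕ, ∀ l : List (BndS J hJ), K ≤ l.length → wp l = 0 := by
    obtain ⟨m, hm⟩ := thm_Jnl R J hJ fun x hx => (hJn x).1 hx
    refine ⟨m + 1, fun l hl => ?_⟩
    apply Subtype.ext
    have h1 : ∀ x ∈ l.map Subtype.val, x ∈ J := by
      intro x hx
      obtain ⟨y, _, rfl⟩ := List.mem_map.1 hx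
      exact y.2
    rw [← Bnd_wp_val]
    exact Bnd_list (l.map Subtype.val) m (by rw [List.length_map]; omega)
      (hm _ fun i => Bnd_getD h1 i)
  have hT9 : 9 ≤ Tn p g := by
    unfold Tn
    split_ifs <;> omega
  -- the two sets
  let D : Set (BndS J hJ) :=
    {w | ∃ u ∈ NonUnitalSubring.closure ({t₀} : Set R), ∃ i, (w : R) = u * z i}
  let E : Set (BndS J hJ) := {w | (∃ a b : BndS J hJ, w = a * b) ∨ ∃ a : R, (w : R) = p • a}
  have hcl : AddSubgroup.closure (D ∪ E) = ⊤ := by
    let f : BndS J hJ →+ R :=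
      { toFun := Subtype.val
        map_zero' := rfl
        map_add' := fun _ _ => rfl }
    have hf : ∀ x, f x = x.1 := fun _ => rfl
    have h1 : KJ R p ≤ (AddSubgroup.closure (D ∪ E)).map f := by
      unfold KJ
      rw [AddSubgroup.closure_le]
      rintro w (⟨a, b, ha, hb, rfl⟩ | ⟨a, rfl⟩)
      · exact ⟨⟨a, (hJn a).2 ha⟩ * ⟨b, (hJn b).2 hb⟩,
          AddSubgroup.subset_closure (Or.inr (Or.inl ⟨_, _, rfl⟩)), rfl⟩
      · have h2 : p • a ∈ J := hKJ (AddSubgroup.subset_closure (Or.inr ⟨a, rfl⟩))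
        exact ⟨⟨p • a, h2⟩, AddSubgroup.subset_closure (Or.inr (Or.inr ⟨a, rfl⟩)), rfl⟩
    rw [eq_top_iff]
    intro y _
    obtain ⟨κ, hκ, u, hu, hy⟩ := Dcp_rep (Dcp_all (a := fun _ => 0) hF.cy hF.prm hF.one
      ⟨hF.fr, fun i => ⟨hzn i, (hC.cen _).symm⟩⟩ hzg ((hJn y.1).1 y.2))
    have h2 : (y : R) ∈ (AddSubgroup.closure (D ∪ E)).map f := by
      rw [hy]
      refine add_mem (h1 hκ) (sum_mem fun i _ => ?_)
      have h3 : u i * z i ∈ J := (hJ (u i) (z i) ((hJn _).2 (hzn i))).1
      exact ⟨⟨u i * z i, h3⟩, AddSubgroup.subset_closure (Or.inl ⟨u i, hu i, i, rfl⟩), rfl⟩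
    obtain ⟨y', hy', h3⟩ := h2
    have h4 : y' = y := Subtype.ext h3
    rw [← h4]
    exact hy'
  have hD : ∀ l : List (BndS J hJ), (∀ x ∈ l, x ∈ D) → Tn p g ≤ l.length → wp l = 0 := by
    intro l hl hlen
    apply Subtype.ext
    rw [← Bnd_wp_val]
    have hne : l.map Subtype.val ≠ [] := by
      intro h
      have h1 := congrArg List.length h
      rw [List.length_map, List.length_nil] at h1
      omega
    obtain ⟨u, hu, w, hw, hwl, hw2⟩ := Ltp_word (A := R) (g := g)
      (NonUnitalSubring.closure ({t₀} : Set R) : Set R) hW (fun a ha b hb => mul_mem ha hb) z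
      (l.map Subtype.val) (by
        intro x hx
        obtain ⟨y, hy, rfl⟩ := List.mem_map.1 hx
        exact hl y hy) hne
    rw [List.length_map] at hwl
    rw [hw2]
    have hv : ∃ v : ℕ → BndS J hJ, ∀ i, (v i : R) = xs z i := by
      refine ⟨fun i => ⟨xs z i, ?_⟩, fun _ => rfl⟩
      show xs z i ∈ J
      unfold xs
      split_ifs with h
      · exact (hJn _).2 (hzn _)
      · exact zero_mem _
    obtain ⟨v, hv⟩ := hv
    have h3 : wp (w.map v) = 0 := by
      rcases hp with h | h
      · subst h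
        have hTn : Tn 2 g = g + 3 := by
          unfold Tn
          rw [if_pos rfl]
        rw [hTn] at hlen
        exact hJz (BndS J hJ) hcube hpr g v w hw (by omega) (by omega)
      · subst h
        have hTn : Tn 3 g = 3 * g + 1 := by
          unfold Tn
          rw [if_neg (by norm_num)]
        rw [hTn] at hlen
        obtain ⟨k, hk⟩ := Ltp_four g w hw (by omega)
        exact CRM.fle.1 (BndS J hJ) hcube v w k hk
    have h4 : w.map (xs z) = (w.map v).map Subtype.val := by
      rw [List.map_map]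
      refine List.map_congr_left fun i _ => ?_
      exact (hv i).symm
    rw [h4, Bnd_wp_val, h3]
    show u * 0 = 0
    rw [mul_zero]
  have hK : ∀ (l₁ l₂ : List (BndS J hJ)) (c : R), c ∈ J → 6 ≤ l₁.length + l₂.length + 1 →
      wp (l₁.map Subtype.val ++ (p • c) :: l₂.map Subtype.val) = 0 := by
    intro l₁ l₂ c hc hlen
    rw [Ltp_ns]
    have h1 : l₁.map Subtype.val ++ c :: l₂.map Subtype.val =
        (l₁ ++ (⟨c, hc⟩ : BndS J hJ) :: l₂).map Subtype.val := by
      rw [List.map_append, List.map_cons]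
    rw [h1, Bnd_wp_val]
    have h2 := hJ0 (BndS J hJ) p hp hcube hpr (l₁ ++ (⟨c, hc⟩ : BndS J hJ) :: l₂) (by
      rw [List.length_append, List.length_cons]
      omega)
    exact congrArg (Subtype.val : BndS J hJ → R) h2
  have hE : ∀ (l₁ l₂ : List (BndS J hJ)), ∀ x ∈ E, Tn p g ≤ l₁.length + l₂.length + 1 →
      (∀ l : List (BndS J hJ), l₁.length + l₂.length + 2 ≤ l.length → wp l = 0) →
      wp (l₁ ++ x :: l₂) = 0 := by
    rintro l₁ l₂ x (⟨a, b, rfl⟩ | ⟨a, ha⟩) hlen hind
    · rw [Ltp_mm]
      apply hind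
      rw [List.length_append, List.length_cons, List.length_cons]
      omega
    · apply Subtype.ext
      rw [← Bnd_wp_val, List.map_append, List.map_cons, ha]
      show _ = (0 : R)
      cases l₂ with
      | cons y l₂ =>
        rw [List.length_cons] at hlen
        rw [List.map_cons, ← Ltp_mm, smul_mul_assoc]
        exact hK l₁ l₂ (a * y) (hJ a y y.2).1 (by omega)
      | nil =>
        rcases List.eq_nil_or_concat l₁ with h | ⟨l', y, h⟩
        · subst h
          simp only [List.length_nil] at hlen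
          omega
        · rw [List.concat_eq_append] at h
          subst h
          simp only [List.length_append, List.length_cons, List.length_nil] at hlen
          rw [List.map_append, List.map_cons, List.map_nil, List.append_assoc,
            List.singleton_append, ← Ltp_mm, mul_smul_comm]
          exact hK l' [] (y * a) (hJ a y y.2).2 (by rw [List.length_nil]; omega)
  have hfin := hExp (BndS J hJ) D E hcl hnil (Tn p g) (by omega) hD hE
  obtain ⟨l2, rfl⟩ : ∃ l2 : List (BndS J hJ), l2.map Subtype.val = l := by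
    have hl2 : ∀ x ∈ l, x ∈ BndS J hJ := fun x hx => (hJn x).2 (hl x hx)
    refine ⟨l.pmap (fun x hx => (⟨x, hx⟩ : BndS J hJ)) hl2, ?_⟩
    rw [List.map_pmap]
    simp
  rw [Bnd_wp_val, hfin l2 (by rw [List.length_map] at hlen; exact hlen)]
  rfl

end Pool.Agent.CRS
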