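import Pool.Agent.CRS.StC
import Pool.Agent.CRP.Wpn

/-!
Campaign CRS, module Lwa: the subring generated by a frame (helper26).
-/

set_option autoImplicit false

namespace Pool.Agent.CRS

open Pool.Agent.CRR Pool.Agent.CRN Pool.Agent.CRK Pool.Agent.CRL Pool.Agent.CRM Pool.Agent.CRP
open Pool.Agent.CRQ

section lwa

variable {R : Type} [NonUnitalRing R]

theorem Lwa_cons (q : ℤ × ℕ) (m : List (ℤ × ℕ)) (e t : R) :
    Cv (q :: m) e t = q.1 • te e t q.2 + Cv m e t := by
  unfold Cv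
  rw [List.map_cons, List.sum_cons]

theorem Lwa_nil (e t : R) : Cv [] e t = 0 := rfl

theorem Lwa_append (m m' : List (ℤ × ℕ)) (e t : R) :
    Cv (m ++ m') e t = Cv m e t + Cv m' e t := by
  unfold Cv
  rw [List.map_append, List.sum_append]

theorem Lwa_neg (m : List (ℤ × ℕ)) (e t : R) :
    Cv (m.map fun q => (-q.1, q.2)) e t = - Cv m e t := by
  induction m with
  | nil => rw [List.map_nil, Lwa_nil, neg_zero]
  | cons q m ih =>
    rw [List.map_cons, Lwa_cons, Lwa_cons, ih, neg_smul, neg_add]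

theorem Lwa_te {e t : R} (he : ∀ x : R, e * x = x ∧ x * e = x) (i j : ℕ) :
    te e t (i + j) = te e t i * te e t j := by
  induction i with
  | zero =>
    rw [Nat.zero_add]
    exact ((he _).1).symm
  | succ i ih =>
    have h1 : i + 1 + j = (i + j) + 1 := by omega
    rw [h1]
    show t * te e t (i + j) = t * te e t i * te e t j
    rw [ih, mul_assoc]

theorem Lwa_item {e t : R} (he : ∀ x : R, e * x = x ∧ x * e = x) (q : ℤ × ℕ)
    (m : List (ℤ × ℕ)) :
    Cv (m.map fun q' => (q.1 * q'.1, q.2 + q'.2)) e t = (q.1 • te e t q.2) * Cv m e t := by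
  induction m with
  | nil => rw [List.map_nil, Lwa_nil, mul_zero]
  | cons q' m ih =>
    have h1 : (q.1 * q'.1) • (te e t q.2 * te e t q'.2) =
        (q.1 • te e t q.2) * (q'.1 • te e t q'.2) := by
      rw [mul_smul_comm, smul_mul_assoc, smul_smul, mul_comm q'.1 q.1]
    rw [List.map_cons, Lwa_cons, Lwa_cons, ih, mul_add, Lwa_te he]
    dsimp only
    rw [h1]

theorem Lwa_mul {e t : R} (he : ∀ x : R, e * x = x ∧ x * e = x) (m m' : List (ℤ × ℕ)) :
    ∃ m'', Cv m'' e t = Cv m e t * Cv m' e t := by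
  induction m with
  | nil => exact ⟨[], by rw [Lwa_nil, zero_mul]⟩
  | cons q m ih =>
    obtain ⟨m'', h⟩ := ih
    refine ⟨(m'.map fun q' => (q.1 * q'.1, q.2 + q'.2)) ++ m'', ?_⟩
    rw [Lwa_append, Lwa_item he, h, Lwa_cons, add_mul]

theorem Lwa_mem {n p N : ℕ} {e t : R} (h : Lfr n p N e t) (m : List (ℤ × ℕ)) :
    Cv m e t ∈ NonUnitalSubring.closure ({t} : Set R) := by
  have ht : t ∈ NonUnitalSubring.closure ({t} : Set R) :=
    NonUnitalSubring.subset_closure rfl
  have he : e ∈ NonUnitalSubring.closure ({t} : Set R) := by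
    rw [← h.pn]
    exact Dmk_pw _ ht _
  have hte : ∀ k, te e t k ∈ NonUnitalSubring.closure ({t} : Set R) := by
    intro k
    induction k with
    | zero => exact he
    | succ k ih => exact mul_mem ht ih
  induction m with
  | nil => exact zero_mem _
  | cons q m ih =>
    rw [Lwa_cons]
    exact add_mem (zsmul_mem (hte _) _) ih

theorem Lwa_iff {n p N : ℕ} {e t : R} (h : Lfr n p N e t) (u : R) :
    u ∈ NonUnitalSubring.closure ({t} : Set R) ↔ ∃ m, u = Cv m e t := by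
  constructor
  · intro hu
    induction hu using NonUnitalSubring.closure_induction with
    | mem x hx =>
      refine ⟨[(1, 1)], ?_⟩
      rw [Set.mem_singleton_iff] at hx
      rw [hx, Lwa_cons, Lwa_nil, one_smul, add_zero]
      exact ((h.one t).2).symm
    | zero => exact ⟨[], (Lwa_nil _ _).symm⟩
    | add x y _ _ hx hy =>
      obtain ⟨m, hm⟩ := hx
      obtain ⟨m', hm'⟩ := hy
      exact ⟨m ++ m', by rw [Lwa_append, hm, hm']⟩
    | neg x _ hx =>
      obtain ⟨m, hm⟩ := hx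
      exact ⟨_, by rw [Lwa_neg, hm]⟩
    | mul x y _ _ hx hy =>
      obtain ⟨m, hm⟩ := hx
      obtain ⟨m', hm'⟩ := hy
      obtain ⟨m'', h2⟩ := Lwa_mul (t := t) h.one m m'
      exact ⟨m'', by rw [h2, hm, hm']⟩
  · rintro ⟨m, rfl⟩
    exact Lwa_mem h m

end lwa

/-- **LWA.** -/
theorem thm_Lwa : St_Lwa := by
  intro n p N R _ _ e t h
  have h1 : ∀ u : R, u ∈ NonUnitalSubring.closure ({t} : Set R) ↔ ∃ m, u = Cv m e t :=
    Lwa_iff h
  refine ⟨h1, ?_, ?_⟩
  · intro m hm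
    obtain ⟨w, hw, h2⟩ := (CRP.thm_Wpn n p N R e t h).1 _ ((h1 _).2 ⟨m, rfl⟩) hm
    obtain ⟨m', h3⟩ := (h1 w).1 hw
    exact ⟨m', by rw [← h3]; exact h2⟩
  · intro m hm
    obtain ⟨h2, _, _, h4, _⟩ := CRN.thm_Pws n h.cy.n4 R h.cy.inM (Cv m e t)
    have h5 : om n (Cv m e t) = e := by
      rcases h.prm.2.2 _ h2 (h.one _).1 (h.one _).2 with h6 | h6
      · exact absurd (h4 h6) hm
      · exact h6
    obtain ⟨k, hk⟩ := Dmk_om h.cy.n4 (Cv m e t)
    obtain ⟨m', hm'⟩ := (h1 _).1 (Dmk_pw _ ((h1 _).2 ⟨m, rfl⟩) k)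
    exact ⟨m', by rw [← hm', hk, h5]⟩

end Pool.Agent.CRS
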