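import Pool.Agent.CRS.StC
import Pool.Agent.CRQ.Fin
import Pool.Agent.CRP.All

/-!
Campaign CRS, module Lxf: central local critical rings, the primes 2 and 3.
-/

set_option autoImplicit false

namespace Pool.Agent.CRS

open Pool.Agent.CRR Pool.Agent.CRN Pool.Agent.CRK Pool.Agent.CRL Pool.Agent.CRM Pool.Agent.CRP
open Pool.Agent.CRQ

section

variable {R : Type} [NonUnitalRing R]

/-- The invariance under the triangular substitutions gives the two properties of the values. -/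
theorem Lxf_prop [Finite R] {n p g : ℕ} {H : AddSubgroup R} (hC : Cy R n p) {e : R} (he : Prm R e)
    (hid : ∀ x, e * x = x ∧ x * e = x) (L : List (ℤ × ℕ × List ℕ))
    (hL : ∀ q ∈ L, ∀ i, i ∈ q.2.2 ↔ i < g)
    (hcen : ∀ t : R, Frame R n 1 (fun _ => t) → ∀ r, t * r = r * t)
    (hval : ∀ (t : R) (x : Fin g → R), Frame R n 1 (fun _ => t) → (∀ i, Nl (x i)) →
      Vl L t x ∈ H ∧ ∀ (j : Fin g) (y : R),
      y ∈ KJ R p ⊔ AddSubgroup.closure
        {w | ∃ i, i < j ∧ ∃ u ∈ NonUnitalSubring.closure ({t} : Set R), w = u * x i} →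
      Vl L t (Function.update x j (x j + y)) = Vl L t x)
    {t₁ : R} {z : Fin g → R} (ht₁ : Frame R n 1 (fun _ => t₁)) (hz : ∀ i, Nl (z i))
    (hzt : NonUnitalSubring.closure ({t₁} ∪ Set.range z) = ⊤)
    (t : R) (x : Fin g → R) (ht : Frame R n 1 (fun _ => t)) (hx : ∀ i, Nl (x i)) :
    (∀ y : Fin g → R, (∀ i, Nl (y i) ∧ x i - y i ∈ KJ R p) → Vl L t x = Vl L t y) ∧
      (NonUnitalSubring.closure ({t} ∪ Set.range x) ≠ ⊤ → Vl L t x = 0) := by
  obtain ⟨q, -, hq, -⟩ := CRM.dmk n p R hC e he hid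
  constructor
  · intro y hy
    have key : ∀ k : ℕ, k ≤ g →
        Vl L t x = Vl L t (fun i : Fin g => if (i : ℕ) < k then y i else x i) := by
      intro k
      induction k with
      | zero => intro _; simp
      | succ k ih =>
        intro hk
        rw [ih (by omega)]
        set v : Fin g → R := fun i : Fin g => if (i : ℕ) < k then y i else x i with hv
        have hvn : ∀ i, Nl (v i) := by
          intro i
          by_cases hi : (i : ℕ) < k
          · simp only [hv, hi, if_true]; exact (hy i).1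
          · simp only [hv, hi, if_false]; exact hx i
        have hkz : v ⟨k, by omega⟩ = x ⟨k, by omega⟩ := by simp [hv]
        have h1 := (hval t v ht hvn).2 ⟨k, by omega⟩ (y ⟨k, by omega⟩ - x ⟨k, by omega⟩)
          (AddSubgroup.mem_sup_left (by
            have h2 := (KJ R p).neg_mem (hy ⟨k, by omega⟩).2
            rwa [neg_sub] at h2))
        rw [← h1]
        congr 1
        funext i
        by_cases hi : i = ⟨k, by omega⟩
        · subst hi
          simp [hkz]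
        · rw [Function.update_of_ne hi]
          have h3 : (i : ℕ) ≠ k := fun h => hi (Fin.ext h)
          by_cases h4 : (i : ℕ) < k
          · simp [hv, h4, Nat.lt_succ_of_lt h4]
          · have h5 : ¬ (i : ℕ) < k + 1 := by omega
            simp [hv, h4, h5]
    rw [key g le_rfl]
    congr 1
    funext i
    simp [i.2]
  · intro hnt
    have hTy : ∀ (t : R) (x : Fin g → R), Frame R n 1 (fun _ => t) → (∀ i, Nl (x i)) →
        Ty n (fun _ => 0) t x := fun t x ht hx => ⟨ht, fun i => ⟨hx i, (hcen t ht _).symm⟩⟩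
    have hex : ∃ j, x j ∈ Mj p t x j := by
      by_contra hno
      push Not at hno
      exact hnt (((hq g _ t x (hTy t x ht hx)).2 hno).2
        ((hq g _ t₁ z (hTy t₁ z ht₁ hz)).1 hzt))
    obtain ⟨j, hj⟩ := hex
    have h1 := (hval t x ht hx).2 j (-x j) ((Mj p t x j).neg_mem hj)
    rw [← h1]
    refine Lfb_Vl_zero L t _ j hL ?_
    simp

end

theorem thm_Lxf (hLmt : St_Lmt) (hCfx : St_Cfx) (hLtp : St_Ltp) (hLks : St_Lks) (hLgd : St_Lgd) (hLdm : St_Ldm)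
    (hLbk : St_Lbk) : St_Lxf := by
  intro Tb hTb h2 h3 n R _ _ hn hM hT h6 hc
  obtain ⟨⟨e, he, h1⟩, p, H, hp, ⟨r, hr⟩, hH, g, L, hgk, ⟨t₁, z, ht₁, hc₁, hz, hzt⟩, hL, hval,
    t₀, x₀, ht₀, hx₀, hne⟩ := hc
  have hpp : p = 2 ∨ p = 3 := by
    by_contra h
    exact h6 ((Fin_six hp hr hH).2 h)
  have hC : Cy R n p := ⟨hn, hM, hT, hp, r, hr⟩
  obtain ⟨N, -, hN⟩ := CRP.lfx n p R hC e he h1
  have hC1 : Cnx n p N e t₁ := ⟨hN t₁ ht₁, hc₁⟩
  have hcen : ∀ t, Frame R n 1 (fun _ => t) → ∀ r, t * r = r * t :=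
    fun t ht => (hCfx n p N R e t₁ hC1 t ht).2.1
  have hC0 : Cnx n p N e t₀ := ⟨hN t₀ ht₀, hcen t₀ ht₀⟩
  have hz0 : NonUnitalSubring.closure ({t₀} ∪ Set.range z) = ⊤ := by
    rw [(hCfx n p N R e t₁ hC1 t₀ ht₀).2.2.2.2, hzt]
  have hLcx : Lcx R n p e t₀ H := ⟨hp, ⟨r, hr⟩, hH, he, h1, ht₀⟩
  by_cases h5 : g ≤ 5
  · refine ⟨p, e, t₀, H, hpp, hLcx, hcen t₀ ht₀, g, Vl L, Or.inl ⟨h5, L, fun q hq =>
      ⟨(hL q hq).1, (hL q hq).2.1, (hL q hq).2.2.1, (hL q hq).2.2.2.1⟩, fun _ _ => rfl⟩,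
      ⟨z, hz, hz0⟩, fun t x ht hx => ⟨(hval t x ht hx).1, ?_⟩, t₀, x₀, ht₀, hx₀, hne⟩
    exact Lxf_prop hC he h1 L (fun q hq => (hL q hq).2.2.1) hcen hval ht₁ hz hzt t x ht hx
  · have h6g : 6 ≤ g := by omega
    obtain ⟨J, hJ, hJn⟩ := CRL.jil n hn R hM hT
    let S : NonUnitalSubring R :=
      { J with
        mul_mem' := fun {a b} _ hb => (hJ a b hb).1 }
    have hSn : ∀ x, x ∈ S ↔ Nl x := hJn
    have hS : ∀ (s : Ftp n e t₀) (x : R), x ∈ S → s.1 * x ∈ S := fun s x hx => (hJ _ x hx).1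
    letI := Lca_mod (Ftp n e t₀) (fun s => s.1) S hS
    haveI := Lca_tower (Ftp n e t₀) (fun s => s.1) S hS e (fun x => (h1 x).1)
    haveI := Lca_comm (Ftp n e t₀) (fun s => s.1) S hS e h1 (fun s => hcen _ s.2.1)
    have hKs := hLks n p N R e t₀ H S hS hpp hC0 hH hSn
    obtain ⟨F, hWF, hGF⟩ := hLgd n p N R e t₀ H S hS g L hC0 hH hSn (by omega)
      (fun q hq => (hL q hq).2.2.1) hval ⟨x₀, hx₀, hne⟩
    obtain ⟨hDm, hGn⟩ := hLdm n p N R e t₀ S hS g hC0 hSn z hz hz0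
    have htop : ∀ l : List (Ftp n e t₀ → S), Tn p g ≤ l.length → wp l = 0 := by
      intro l hl
      funext s
      refine Subtype.ext ?_
      rw [Lca_evwp]
      refine hLtp n p N R e t₀ g hpp hC0 h6g ⟨z, hz, hz0⟩ _ ?_ (by rwa [List.length_map])
      intro x hx
      obtain ⟨a, _, rfl⟩ := List.mem_map.1 hx
      exact (hSn _).1 (a s).2
    have hMt := hLmt n p N R e t₀ S hpp hC0 hSn
    obtain ⟨B, c, hB, hl, hf⟩ : ∃ (B : List (List (ℤ × List ℕ))) (c : List (Polynomial ℤ)),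
        Tb p g B ∧ c.length = B.length ∧
        Good (Polynomial ℤ) p (Fsg (Ftp n e t₀) S (KJ R p)) (Fsg (Ftp n e t₀) S H) g
          (fun x : Fin g → Ftp n e t₀ → S => Kc c B x) := by
      rcases hpp with rfl | rfl
      · exact h2 (Polynomial ℤ) (Ftp n e t₀ → S) _ _ g F hKs h6g htop hDm hGn hMt hWF hGF
      · exact h3 (Polynomial ℤ) (Ftp n e t₀ → S) _ _ g F hKs h6g htop hDm hGn hMt hWF hGF
    obtain ⟨c', hl', hprop, hne'⟩ := hLbk n p N R e t₀ H S hS g B c hpp hC0 hH hSn h6g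
      ⟨z, hz, hz0⟩ (hTb p g B hB) hl hf
    exact ⟨p, e, t₀, H, hpp, hLcx, hcen t₀ ht₀, g,
      fun t x => ((c'.zip B).map fun q => Cv q.1 e t * Vg q.2 x).sum,
      Or.inr ⟨h6g, B, c', hB, hl', fun _ _ => rfl⟩, ⟨z, hz, hz0⟩, hprop, hne'⟩

end Pool.Agent.CRS
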