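import Pool.Agent.CRS.StQ
import Pool.Agent.CRS.Lxf

/-!
Campaign CRS, module Lyf: central local critical rings, the primes 2 and 3, general form.
-/

set_option autoImplicit false

namespace Pool.Agent.CRS

open Pool.Agent.CRR Pool.Agent.CRN Pool.Agent.CRK Pool.Agent.CRL Pool.Agent.CRM Pool.Agent.CRP
open Pool.Agent.CRQ

theorem thm_Lyf (hLmt : St_Lmt) (hLmv : St_Lmv) (hCfx : St_Cfx) (hLtq : St_Ltq) (hLks : St_Lks)
    (hLgd : St_Lgd) (hLdm : St_Ldm) (hLbq : St_Lbq) : St_Lyf := by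
  intro Tb h2 h3 n R _ _ hn hM hT h6 hc
  obtain ⟨⟨e, he, h1⟩, p, H, hp, ⟨r, hr⟩, hH, g, L, hgk, ⟨t₁, z, ht₁, hc₁, hz, hzt⟩, hL, hval,
    t₀, x₀, ht₀, hx₀, hne⟩ := hc
  have hpp : p = 2 ∨ p = 3 := by
    by_contra h
    exact h6 ((Fin_six hp hr hH).2 h)
  have hC : Cy R n p := ⟨hn, hM, hT, hp, r, hr⟩
  obtain ⟨N, -, hN⟩ := CRP.lfx n p R hC e he h1
  have hC1 : Cnx n p N e t₁ := ⟨hN t₁ ht₁, hc₁⟩
  have hcen : ∀ t, Frame R n 1 (fun _ => t) → ∀ r, t * r = r * t :=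
    fun t ht => (hCfx n p N R e t₁ hC1 t ht).2.1
  have hC0 : Cnx n p N e t₀ := ⟨hN t₀ ht₀, hcen t₀ ht₀⟩
  have hz0 : NonUnitalSubring.closure ({t₀} ∪ Set.range z) = ⊤ := by
    rw [(hCfx n p N R e t₁ hC1 t₀ ht₀).2.2.2.2, hzt]
  have hLcx : Lcx R n p e t₀ H := ⟨hp, ⟨r, hr⟩, hH, he, h1, ht₀⟩
  refine ⟨p, e, t₀, H, hpp, hLcx, hcen t₀ ht₀, ?_⟩
  rcases Nat.eq_zero_or_pos g with h0 | hg
  · left
    subst h0
    rw [Set.range_eq_empty, Set.union_empty] at hz0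
    exact hz0
  · right
    obtain ⟨J, hJ, hJn⟩ := CRL.jil n hn R hM hT
    let S : NonUnitalSubring R :=
      { J with
        mul_mem' := fun {a b} _ hb => (hJ a b hb).1 }
    have hSn : ∀ x, x ∈ S ↔ Nl x := hJn
    have hS : ∀ (s : Ftp n e t₀) (x : R), x ∈ S → s.1 * x ∈ S := fun s x hx => (hJ _ x hx).1
    letI := Lca_mod (Ftp n e t₀) (fun s => s.1) S hS
    haveI := Lca_tower (Ftp n e t₀) (fun s => s.1) S hS e (fun x => (h1 x).1)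
    haveI := Lca_comm (Ftp n e t₀) (fun s => s.1) S hS e h1 (fun s => hcen _ s.2.1)
    have hKs := hLks n p N R e t₀ H S hS hpp hC0 hH hSn
    obtain ⟨F, hWF, hGF⟩ := hLgd n p N R e t₀ H S hS g L hC0 hH hSn hg
      (fun q hq => (hL q hq).2.2.1) hval ⟨x₀, hx₀, hne⟩
    obtain ⟨hDm, hGn⟩ := hLdm n p N R e t₀ S hS g hC0 hSn z hz hz0
    have htop : 7 ≤ Tn p g → ∀ l : List (Ftp n e t₀ → S), Tn p g ≤ l.length → wp l = 0 := by
      intro h7 l hl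
      funext s
      refine Subtype.ext ?_
      rw [Lca_evwp]
      refine hLtq n p N R e t₀ g hpp hC0 h7 ⟨z, hz, hz0⟩ _ ?_ (by rwa [List.length_map])
      intro x hx
      obtain ⟨a, _, rfl⟩ := List.mem_map.1 hx
      exact (hSn _).1 (a s).2
    have hMt := hLmt n p N R e t₀ S hpp hC0 hSn
    have hMu := hLmv n p N R e t₀ S hC0 hSn
    obtain ⟨B, c, hB, hl, hf⟩ : ∃ (B : List (List (ℤ × List ℕ))) (c : List (Polynomial ℤ)),
        Tb p g B ∧ c.length = B.length ∧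
        Good (Polynomial ℤ) p (Fsg (Ftp n e t₀) S (KJ R p)) (Fsg (Ftp n e t₀) S H) g
          (fun x : Fin g → Ftp n e t₀ → S => Kc c B x) := by
      rcases hpp with rfl | rfl
      · exact h2 (Polynomial ℤ) (Ftp n e t₀ → S) _ _ g F hKs hg htop hDm hGn hMt hMu hWF hGF
      · exact h3 (Polynomial ℤ) (Ftp n e t₀ → S) _ _ g F hKs hg htop hDm hGn hMt hMu hWF hGF
    obtain ⟨c', hl', hprop, hne'⟩ := hLbq n p N R e t₀ H S hS g B c hpp hC0 hSn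
      ⟨z, hz, hz0⟩ hl hf
    exact ⟨g, B, c', hB, hl', ⟨z, hz, hz0⟩, hprop, hne'⟩

end Pool.Agent.CRS
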