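import Pool.Agent.CRS.StC
import Pool.Agent.CRM.Nfb

/-!
Campaign CRS, module Nka: nilpotent rings, the setting `Kst`.
-/

set_option autoImplicit false

namespace Pool.Agent.CRS

open Pool.Agent.CRR Pool.Agent.CRN Pool.Agent.CRK Pool.Agent.CRL Pool.Agent.CRM Pool.Agent.CRP
open Pool.Agent.CRQ

section

variable {R : Type} [NonUnitalRing R]

private theorem Nka_inv {g : ℕ} {f : (Fin g → R) → R} {M : AddSubgroup R}
    (h : ∀ (x : Fin g → R) (j : Fin g) (y : R), y ∈ M → f (Function.update x j (x j + y)) = f x)
    (x y : Fin g → R) (hxy : ∀ i, x i - y i ∈ M) : f x = f y := by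
  classical
  have key : ∀ s : Finset (Fin g), f (fun i => if i ∈ s then y i else x i) = f x := by
    intro s
    induction s using Finset.induction_on with
    | empty => simp
    | insert j s hj ih =>
      rw [← ih]
      have e : (fun i => if i ∈ insert j s then y i else x i) =
          Function.update (fun i => if i ∈ s then y i else x i) j
            ((fun i => if i ∈ s then y i else x i) j + -(x j - y j)) := by
        funext i
        by_cases hi : i = j
        · subst hi
          rw [Function.update_self]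
          simp [hj]
        · rw [Function.update_of_ne hi]
          simp [hi]
      rw [e]
      exact h _ j _ (M.neg_mem (hxy j))
  have h1 := key Finset.univ
  simp only [Finset.mem_univ, if_true] at h1
  exact h1.symm

private theorem Nka_inv' {p : ℕ} (hp : p.Prime) {c : ℤ} (hc : ¬ (p : ℤ) ∣ c) :
    ∃ d m : ℤ, d * c = 1 + p * m := by
  have hpz : Prime (p : ℤ) := Nat.prime_iff_prime_int.1 hp
  have h1 : IsCoprime (p : ℤ) c := (Prime.coprime_iff_not_dvd hpz).2 hc
  obtain ⟨a, b, hab⟩ := h1
  exact ⟨b, -a, by linear_combination hab⟩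

private theorem Nka_div {p : ℕ} {c : ℤ} (hc : (p : ℤ) ∣ c) (x : R) : ∃ y : R, c • x = p • y := by
  obtain ⟨d, rfl⟩ := hc
  exact ⟨d • x, by rw [mul_smul, natCast_zsmul]⟩

private theorem Nka_sm {p : ℕ} {c d m : ℤ} (h : d * c = 1 + p * m) (x : R) :
    d • c • x - x = p • (m • x) := by
  rw [← mul_smul, h, add_smul, one_smul, mul_smul, natCast_zsmul]
  abel

private theorem Nka_mem {p : ℕ} (hp : p.Prime) {g : ℕ} (x : Fin g → R) (c : Fin g → ℤ)
    (hs : ∑ i, c i • x i ∈ KJ R p) (j0 : Fin g) (hj0 : ¬ (p : ℤ) ∣ c j0) :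
    ∃ j, x j ∈ KJ R p ⊔ AddSubgroup.closure {w | ∃ i, i < j ∧ w = x i} := by
  classical
  obtain ⟨j, hj, hmax⟩ := Finset.exists_max_image (Finset.univ.filter fun i => ¬ (p : ℤ) ∣ c i)
    (fun i : Fin g => (i : ℕ)) ⟨j0, by simpa using hj0⟩
  have hcj : ¬ (p : ℤ) ∣ c j := by simpa using hj
  have hz : ∀ k, j < k → (p : ℤ) ∣ c k := by
    intro k hk
    by_contra h
    have := hmax k (by simpa using h)
    exact absurd this (not_le.2 hk)
  obtain ⟨d, m, hdm⟩ := Nka_inv' hp hcj
  refine ⟨j, ?_⟩
  have hpm : ∀ a : R, p • a ∈ KJ R p := fun a => AddSubgroup.subset_closure (Or.inr ⟨a, rfl⟩)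
  have e1 : x j = d • (c j • x j) - p • (m • x j) := by
    have := Nka_sm hdm (x j)
    rw [← this]
    abel
  have e2 : c j • x j = ∑ i, c i • x i - ∑ i ∈ Finset.univ.erase j, c i • x i := by
    rw [← Finset.add_sum_erase Finset.univ (fun i => c i • x i) (Finset.mem_univ j)]
    abel
  have h3 : c j • x j ∈ KJ R p ⊔ AddSubgroup.closure {w | ∃ i, i < j ∧ w = x i} := by
    rw [e2]
    refine AddSubgroup.sub_mem _ (AddSubgroup.mem_sup_left hs) (AddSubgroup.sum_mem _ fun i hi => ?_)
    have hij : i ≠ j := Finset.ne_of_mem_erase hi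
    rcases lt_or_gt_of_ne hij with h | h
    · have h5 : x i ∈ AddSubgroup.closure {w | ∃ i, i < j ∧ w = x i} :=
        AddSubgroup.subset_closure ⟨i, h, rfl⟩
      exact AddSubgroup.mem_sup_right (AddSubgroup.zsmul_mem _ h5 _)
    · obtain ⟨y, hy⟩ := Nka_div (hz i h) (x i)
      rw [hy]
      exact AddSubgroup.mem_sup_left (hpm y)
  rw [e1]
  exact AddSubgroup.sub_mem _ (AddSubgroup.zsmul_mem _ h3 _) (AddSubgroup.mem_sup_left (hpm _))

end

/-- **NKA.** -/
theorem thm_Nka (hNso : St_Nso) : St_Nka := by
  intro R _ _ p H g L hp h3 hpr hH hL hval hne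
  have hpp : p.Prime := by
    rcases hp with h | h
    · rw [h]; exact Nat.prime_two
    · rw [h]; exact Nat.prime_three
  obtain ⟨-, hs0, hs1⟩ := hNso R p H hpp h3 hpr hH
  refine ⟨?_, ⟨L, hL, fun x => rfl⟩, ?_⟩
  · exact
      { pp := hp
        cube := h3
        pr := hpr
        fld := fun c => by
          by_cases hc : (p : ℤ) ∣ c
          · exact Or.inl fun x => Nka_div hc x
          · right
            obtain ⟨d, m, hdm⟩ := Nka_inv' hpp hc
            exact ⟨d, fun x => ⟨m • x, Nka_sm hdm x⟩⟩
        mK := fun c x hx => AddSubgroup.zsmul_mem _ hx c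
        mp := fun x => AddSubgroup.subset_closure (Or.inr ⟨x, rfl⟩)
        mm := fun x y => AddSubgroup.subset_closure (Or.inl ⟨x, y, h3 x, h3 y, rfl⟩)
        hK := fun c x hx => AddSubgroup.zsmul_mem _ hx c
        h0 := hs0
        h1 := hs1 }
  · exact
      { val := fun x => (hval x).1
        inv := Nka_inv fun x j y hy =>
          (hval x).2 j y (AddSubgroup.mem_sup_left hy)
        dep := fun x c j hKu hs => by
          by_cases hc : (p : ℤ) ∣ c j
          · obtain ⟨d, hd⟩ := hKu
            have h1 : ∀ y : R, ∃ z : R, y = p • z := by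
              intro y
              obtain ⟨z, hz⟩ := hd y
              obtain ⟨w, hw⟩ := Nka_div hc y
              refine ⟨d • w - z, ?_⟩
              rw [hw] at hz
              rw [smul_sub, ← hz, smul_comm]
              abel
            have h2 : ∀ k : ℕ, ∀ y : R, ∃ z : R, y = (p ^ k) • z := by
              intro k
              induction k with
              | zero => exact fun y => ⟨y, by simp⟩
              | succ k ih =>
                intro y
                obtain ⟨z, hz⟩ := ih y
                obtain ⟨w, hw⟩ := h1 z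
                exact ⟨w, by rw [pow_succ, mul_smul, ← hw, ← hz]⟩
            obtain ⟨r, hr⟩ := hpr
            obtain ⟨z, hz⟩ := h2 r (Vg L x)
            show Vg L x = 0
            rw [hz, hr]
          · obtain ⟨k, hk⟩ := Nka_mem hpp x c hs j hc
            have h1 := (hval x).2 k (-x k) (AddSubgroup.neg_mem _ hk)
            rw [add_neg_cancel] at h1
            show Vg L x = 0
            rw [← h1]
            exact Nfb_zero L (fun q hq => (hL q hq).2) _ k (Function.update_self _ _ _)
        ne := hne }

end Pool.Agent.CRS
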