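import Pool.Agent.CRS.StC
import Pool.Agent.CRM.Nfb
import Pool.Agent.CRM.Kjf
import Pool.Agent.CRM.Tyn

/-!
Campaign CRS (problem MP_1bb14d_al), module Nkb: dependent families modulo `R^2 + p R` (offer 16293, helper81).
-/

set_option autoImplicit false

namespace Pool.Agent.CRS

open Pool.Agent.CRR Pool.Agent.CRN Pool.Agent.CRK Pool.Agent.CRL Pool.Agent.CRM Pool.Agent.CRP
open Pool.Agent.CRQ

section

variable {R : Type} [NonUnitalRing R]

/-- elements of the group generated by some members are combinations of these members -/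
theorem Nkb_comb {m : ℕ} (x : Fin m → R) (P : Fin m → Prop) (s : R)
    (hs : s ∈ AddSubgroup.closure {w | ∃ i, P i ∧ w = x i}) :
    ∃ c : Fin m → ℤ, (∀ i, ¬ P i → c i = 0) ∧ s = ∑ i, c i • x i := by
  induction hs using AddSubgroup.closure_induction with
  | mem s hs =>
    obtain ⟨i, hi, rfl⟩ := hs
    refine ⟨Pi.single i 1, ?_, ?_⟩
    · intro k hk
      have hki : k ≠ i := by
        rintro rfl
        exact hk hi
      exact Pi.single_eq_of_ne hki 1
    · rw [Finset.sum_eq_single i]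
      · rw [Pi.single_eq_same, one_smul]
      · intro k _ hk
        rw [Pi.single_eq_of_ne hk, zero_smul]
      · intro h
        exact absurd (Finset.mem_univ _) h
  | zero => exact ⟨0, fun _ _ => rfl, by simp⟩
  | add s t _ _ hs ht =>
    obtain ⟨c, hc, rfl⟩ := hs
    obtain ⟨d, hd, rfl⟩ := ht
    refine ⟨c + d, ?_, ?_⟩
    · intro i hi
      rw [Pi.add_apply, hc i hi, hd i hi, add_zero]
    · rw [← Finset.sum_add_distrib]
      exact Finset.sum_congr rfl fun i _ => by rw [Pi.add_apply, add_smul]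
  | neg s _ hs =>
    obtain ⟨c, hc, rfl⟩ := hs
    refine ⟨-c, ?_, ?_⟩
    · intro i hi
      rw [Pi.neg_apply, hc i hi, neg_zero]
    · rw [← Finset.sum_neg_distrib]
      exact Finset.sum_congr rfl fun i _ => by rw [Pi.neg_apply, neg_smul]

/-- a member in the group generated by `KJ` and the members before it: a combination in `KJ` -/
theorem Nkb_dep {p m : ℕ} (x : Fin m → R) (j : Fin m)
    (hj : x j ∈ KJ R p ⊔ AddSubgroup.closure {w | ∃ i, i < j ∧ w = x i}) :
    ∃ (c : Fin m → ℤ) (j : Fin m), c j = 1 ∧ ∑ i, c i • x i ∈ KJ R p := by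
  obtain ⟨k, hk, s, hs, hks⟩ := AddSubgroup.mem_sup.1 hj
  obtain ⟨c, hc, hcs⟩ := Nkb_comb x (fun i => i < j) s hs
  refine ⟨Pi.single j 1 - c, j, ?_, ?_⟩
  · rw [Pi.sub_apply, Pi.single_eq_same, hc j (lt_irrefl j), sub_zero]
  · have h1 : ∑ i, (Pi.single j 1 - c : Fin m → ℤ) i • x i = x j - s := by
      have h2 : ∀ i, (Pi.single j 1 - c : Fin m → ℤ) i • x i =
          (Pi.single j 1 : Fin m → ℤ) i • x i - c i • x i := by
        intro i
        rw [Pi.sub_apply, sub_smul]
      rw [Finset.sum_congr rfl fun i _ => h2 i, Finset.sum_sub_distrib, ← hcs,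
        Finset.sum_eq_single j]
      · rw [Pi.single_eq_same, one_smul]
      · intro i _ hi
        rw [Pi.single_eq_of_ne hi, zero_smul]
      · intro h
        exact absurd (Finset.mem_univ _) h
    rw [h1, ← hks, add_sub_cancel_right]
    exact hk

/-- independent members generate -/
theorem Nkb_gen [Finite R] {p g : ℕ} (hp : p.Prime) (h3 : ∀ x : R, x * x * x = 0)
    (hpr : ∃ r : ℕ, ∀ x : R, (p ^ r) • x = 0) (x : Fin g → R)
    (h1 : KJ R p ⊔ AddSubgroup.closure (Set.range x) = ⊤) :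
    NonUnitalSubring.closure (Set.range x) = ⊤ := by
  have hcy : Cy R 4 p := by
    refine ⟨le_rfl, ?_, ?_, hp, hpr⟩
    · intro x
      show x * x * x = x * x * x * x
      rw [h3, zero_mul]
    · rintro ⟨a, b, _, h2, h4⟩
      apply h4
      have h5 := h3 (a * b)
      calc a = a * b * (a * b * (a * b * a)) := by rw [h2, h2, h2]
        _ = (a * b) * (a * b) * (a * b) * a := by simp only [mul_assoc]
        _ = 0 := by rw [h5, zero_mul]
  refine (thm_Kjf thm_Tyn 4 p R hcy).1 0 (fun i => i.elim0) ?_ _ (fun i => i.elim0) ?_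
  · refine ⟨fun i => i.elim0, fun i => i.elim0, fun i => i.elim0, fun i => i.elim0, ?_⟩
    intro e he _
    have h2 := h3 e
    rwa [he, he] at h2
  · intro a _
    have ha : a ∈ KJ R p ⊔ AddSubgroup.closure (Set.range x) := by
      rw [h1]
      exact AddSubgroup.mem_top _
    obtain ⟨k, hk, s, hs, rfl⟩ := AddSubgroup.mem_sup.1 ha
    refine ⟨s, ?_, by rwa [add_sub_cancel_right]⟩
    have h4 : AddSubgroup.closure (Set.range x) ≤
        (NonUnitalSubring.closure (Set.range x)).toAddSubgroup := by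
      rw [AddSubgroup.closure_le]
      exact NonUnitalSubring.subset_closure
    exact h4 hs

end

/-- **NKB.** -/
theorem thm_Nkb : St_Nkb := by
  intro R _ _ p g hp h3 hpr z hz
  have hztop : KJ R p ⊔ AddSubgroup.closure (Set.range z) = ⊤ := by
    rw [eq_top_iff]
    rintro a -
    refine Nfb_cl h3 p z a ?_
    rw [hz]
    exact NonUnitalSubring.mem_top a
  refine ⟨?_, ?_, ?_⟩
  · intro x hx
    by_cases hall : ∀ j, x j ∉ KJ R p ⊔ AddSubgroup.closure {w | ∃ i, i < j ∧ w = x i}
    · exact absurd (Nkb_gen hp h3 hpr x (Nfb_dim hp x z hztop hall)) hx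
    · push Not at hall
      obtain ⟨j, hj⟩ := hall
      exact Nkb_dep x j hj
  · intro m hm x
    by_cases hall : ∀ j, x j ∉ KJ R p ⊔ AddSubgroup.closure {w | ∃ i, i < j ∧ w = x i}
    · exfalso
      let x' : Fin g → R := fun i => x ⟨i.1, lt_trans i.2 hm⟩
      have h1 : ∀ j, x' j ∉ KJ R p ⊔ AddSubgroup.closure {w | ∃ i, i < j ∧ w = x' i} := by
        intro j hj
        apply hall ⟨j.1, lt_trans j.2 hm⟩
        have h2 : {w | ∃ i, i < j ∧ w = x' i} ⊆
            {w | ∃ i, i < (⟨j.1, lt_trans j.2 hm⟩ : Fin m) ∧ w = x i} := by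
          rintro w ⟨i, hi, rfl⟩
          exact ⟨⟨i.1, lt_trans i.2 hm⟩, hi, rfl⟩
        exact (sup_le_sup_left (AddSubgroup.closure_mono h2) _) hj
      have h2 := Nfb_dim hp x' z hztop h1
      apply hall ⟨g, hm⟩
      have h3' : Set.range x' ⊆ {w | ∃ i, i < (⟨g, hm⟩ : Fin m) ∧ w = x i} := by
        rintro w ⟨i, rfl⟩
        exact ⟨⟨i.1, lt_trans i.2 hm⟩, i.2, rfl⟩
      have h4 := sup_le_sup_left (AddSubgroup.closure_mono h3') (KJ R p)
      rw [h2] at h4
      exact h4 (AddSubgroup.mem_top _)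
    · push Not at hall
      obtain ⟨j, hj⟩ := hall
      exact Nkb_dep x j hj
  · intro x
    have hx : x ∈ KJ R p ⊔ AddSubgroup.closure (Set.range z) := by
      rw [hztop]
      exact AddSubgroup.mem_top _
    obtain ⟨k, hk, s, hs, hks⟩ := AddSubgroup.mem_sup.1 hx
    have hr : Set.range z = {w | ∃ i : Fin g, True ∧ w = z i} := by
      ext w
      constructor
      · rintro ⟨i, rfl⟩
        exact ⟨i, trivial, rfl⟩
      · rintro ⟨i, -, rfl⟩
        exact ⟨i, rfl⟩
    rw [hr] at hs
    obtain ⟨c, -, hcs⟩ := Nkb_comb z (fun _ => True) s hs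
    refine ⟨c, ?_⟩
    rw [← hcs, ← hks, add_sub_cancel_right]
    exact hk

end Pool.Agent.CRS
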