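import Pool.Agent.CRS.StC

/-!
Campaign CRS, module Nmt: products with a factor in `KJ`, nilpotent rings.
-/

set_option autoImplicit false

namespace Pool.Agent.CRS

open Pool.Agent.CRR Pool.Agent.CRN Pool.Agent.CRK Pool.Agent.CRL Pool.Agent.CRM Pool.Agent.CRP
open Pool.Agent.CRQ

section

variable {A : Type} [NonUnitalRing A]

theorem Nmt_add (l₁ l₂ : List A) (x y : A) :
    wp (l₁ ++ (x + y) :: l₂) = wp (l₁ ++ x :: l₂) + wp (l₁ ++ y :: l₂) := by
  induction l₁ with
  | nil =>
    cases l₂ with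
    | nil => rfl
    | cons b l => exact add_mul x y _
  | cons a l ih =>
    have h : ∀ z : A, wp (a :: l ++ z :: l₂) = a * wp (l ++ z :: l₂) := fun z =>
      Lib_cons a (by simp)
    rw [h, h, h, ih, mul_add]

/-- The product as a function of one factor. -/
def Nmt_hom (l₁ l₂ : List A) : A →+ A :=
  AddMonoidHom.mk' (fun x => wp (l₁ ++ x :: l₂)) (Nmt_add l₁ l₂)

theorem Nmt_mul (l₁ l₂ : List A) (x y : A) :
    wp (l₁ ++ (x * y) :: l₂) = wp (l₁ ++ x :: y :: l₂) := by
  induction l₁ with
  | nil =>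
    cases l₂ with
    | nil => rfl
    | cons b l => exact mul_assoc x y _
  | cons a l ih =>
    have h : ∀ L : List A, L ≠ [] → wp (a :: l ++ L) = a * wp (l ++ L) := fun L hL =>
      Lib_cons a (by simp [hL])
    rw [h _ (by simp), h _ (by simp), ih]

end

theorem thm_Nmt (hK : Jk0) : St_Nmt := by
  intro R _ p hp h3 hr m hm l₁ l₂ hl htop
  show Nmt_hom l₁ l₂ m = 0
  unfold KJ at hm
  induction hm using AddSubgroup.closure_induction with
  | mem x hx =>
    rcases hx with ⟨a, b, -, -, rfl⟩ | ⟨a, rfl⟩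
    · show wp (l₁ ++ (a * b) :: l₂) = 0
      rw [Nmt_mul]
      exact htop _ (by simp; omega)
    · rw [map_nsmul]
      exact hK R p hp h3 hr _ (by simp; omega)
  | zero => exact map_zero _
  | add x y _ _ hx hy => rw [map_add, hx, hy, add_zero]
  | neg x _ hx => rw [map_neg, hx, neg_zero]

end Pool.Agent.CRS
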