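import Pool.Agent.CRS.StQ
import Pool.Agent.CRS.Nmt

/-!
Campaign CRS, module Nmu: products with three factors in `KJ`, nilpotent rings (Helper74).
-/

set_option autoImplicit false

namespace Pool.Agent.CRS

open Pool.Agent.CRR Pool.Agent.CRN Pool.Agent.CRK Pool.Agent.CRL Pool.Agent.CRM Pool.Agent.CRP
open Pool.Agent.CRQ

theorem thm_Nmu (hK : Jk0) : St_Nmu := by
  intro R _ p hp h3 hr m hm m₂ _ m₃ _ l₁ l₂ l₃ l₄ hl htop
  show Nmt_hom l₁ (l₂ ++ m₂ :: (l₃ ++ m₃ :: l₄)) m = 0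
  unfold KJ at hm
  induction hm using AddSubgroup.closure_induction with
  | mem x hx =>
    rcases hx with ⟨a, b, -, -, rfl⟩ | ⟨a, rfl⟩
    · show wp (l₁ ++ (a * b) :: (l₂ ++ m₂ :: (l₃ ++ m₃ :: l₄))) = 0
      rw [Nmt_mul]
      exact htop _ (by simp; omega)
    · rw [map_nsmul]
      exact hK R p hp h3 hr _ (by simp; omega)
  | zero => exact map_zero _
  | add x y _ _ hx hy => rw [map_add, hx, hy, add_zero]
  | neg x _ hx => rw [map_neg, hx, neg_zero]

end Pool.Agent.CRS
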