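import Pool.Agent.CRS.StC
import Pool.Agent.CRN.Jnl
import Pool.Agent.CRL.Bnd

/-!
Campaign CRS (problem MP_1bb14d_al, stage 7), module Nso: the least nonzero ideal of a nilpotent ring.
-/

set_option autoImplicit false

namespace Pool.Agent.CRS

open Pool.Agent.CRR Pool.Agent.CRN Pool.Agent.CRK Pool.Agent.CRL Pool.Agent.CRM Pool.Agent.CRP
open Pool.Agent.CRQ

section

variable {R : Type} [NonUnitalRing R]

theorem Nso_nil [Finite R] (h3 : ∀ x : R, x * x * x = 0) :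
    ∃ N : ℕ, ∀ l : List R, N ≤ l.length → wp l = 0 := by
  obtain ⟨m, hm⟩ := thm_Jnl R ⊤ (fun _ _ _ => ⟨AddSubgroup.mem_top _, AddSubgroup.mem_top _⟩)
    (fun x _ => h3 x)
  exact ⟨m + 1, fun l hl => Bnd_list l m (by omega) (hm _ fun _ => AddSubgroup.mem_top _)⟩

/-- The elements of `H` which are killed by `p`. -/
def NsoP (p : ℕ) (H : AddSubgroup R) : AddSubgroup R where
  carrier := {x | x ∈ H ∧ p • x = 0}
  add_mem' := fun {a b} ha hb => ⟨H.add_mem ha.1 hb.1, by rw [smul_add, ha.2, hb.2, add_zero]⟩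
  zero_mem' := ⟨H.zero_mem, smul_zero p⟩
  neg_mem' := fun {a} ha => ⟨H.neg_mem ha.1, by rw [smul_neg, ha.2, neg_zero]⟩

/-- The elements of `H` which are killed by `R`. -/
def NsoT (H : AddSubgroup R) : AddSubgroup R where
  carrier := {x | x ∈ H ∧ ∀ a : R, x * a = 0 ∧ a * x = 0}
  add_mem' := fun {x y} hx hy => ⟨H.add_mem hx.1 hy.1, fun a => by
    rw [add_mul, mul_add, (hx.2 a).1, (hx.2 a).2, (hy.2 a).1, (hy.2 a).2, add_zero]
    exact ⟨rfl, rfl⟩⟩
  zero_mem' := ⟨H.zero_mem, fun a => ⟨zero_mul a, mul_zero a⟩⟩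
  neg_mem' := fun {x} hx => ⟨H.neg_mem hx.1, fun a => by
    rw [neg_mul, mul_neg, (hx.2 a).1, (hx.2 a).2, neg_zero]
    exact ⟨rfl, rfl⟩⟩

theorem Nso_p (p r : ℕ) (hr : ∀ x : R, (p ^ r) • x = 0) (H : AddSubgroup R) (hH : Lst R H) :
    ∀ x ∈ H, p • x = 0 := by
  obtain ⟨h, hh, h0⟩ := (AddSubgroup.ne_bot_iff_exists_ne_zero.1 hH.2.1).elim
    (fun a ha => (⟨a.1, a.2, fun h => ha (Subtype.ext h)⟩ : ∃ h, h ∈ H ∧ h ≠ 0))
  have hne : NsoP p H ≠ ⊥ := by
    classical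
    have hex : ∃ i, (p ^ i) • h = 0 := ⟨r, hr h⟩
    have h1 := Nat.find_spec hex
    have h2 : Nat.find hex ≠ 0 := by
      intro h3
      rw [h3, pow_zero, one_smul] at h1
      exact h0 h1
    obtain ⟨k, hk⟩ := Nat.exists_eq_succ_of_ne_zero h2
    have h4 : (p ^ k) • h ≠ 0 := Nat.find_min hex (by omega)
    have h5 : p • (p ^ k) • h = 0 := by
      rw [smul_smul, ← pow_succ', ← Nat.succ_eq_add_one, ← hk]
      exact h1
    intro hbot
    have h6 : (p ^ k) • h ∈ NsoP p H := ⟨H.nsmul_mem hh _, h5⟩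
    rw [hbot, AddSubgroup.mem_bot] at h6
    exact h4 h6
  have hid : Idl R (NsoP p H) := by
    intro a x hx
    have h1 := hH.1 a x hx.1
    exact ⟨⟨h1.1, by rw [← mul_smul_comm, hx.2, mul_zero]⟩,
      ⟨h1.2, by rw [← smul_mul_assoc, hx.2, zero_mul]⟩⟩
  intro x hx
  exact (hH.2.2 _ hid hne hx).2

theorem Nso_step (H : AddSubgroup R) (hid : Idl R H) (hT : NsoT H = ⊥) (h : R) (hh : h ∈ H)
    (h0 : h ≠ 0) (k : ℕ) : ∃ l : List R, l.length = k + 1 ∧ wp l ∈ H ∧ wp l ≠ 0 := by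
  induction k with
  | zero => exact ⟨[h], rfl, hh, h0⟩
  | succ k ih =>
    obtain ⟨l, hl, hlH, hl0⟩ := ih
    have hne : l ≠ [] := by
      rintro rfl
      simp at hl
    have h1 : ¬ ∀ a : R, wp l * a = 0 ∧ a * wp l = 0 := by
      intro h2
      have h3 : wp l ∈ NsoT H := ⟨hlH, h2⟩
      rw [hT, AddSubgroup.mem_bot] at h3
      exact hl0 h3
    push Not at h1
    obtain ⟨a, ha⟩ := h1
    by_cases hc : wp l * a = 0
    · refine ⟨a :: l, by simp [hl], ?_⟩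
      have h2 : wp (a :: l) = a * wp l := by
        cases l with
        | nil => exact absurd rfl hne
        | cons b l => rfl
      rw [h2]
      exact ⟨(hid a _ hlH).1, ha hc⟩
    · refine ⟨l ++ [a], by simp [hl], ?_⟩
      rw [Wlk_snoc l hne]
      exact ⟨(hid a _ hlH).2, hc⟩

end

/-- **NSO.** -/
theorem thm_Nso : St_Nso := by
  intro R _ _ p H hp h3 hpr hH
  obtain ⟨r, hr⟩ := hpr
  obtain ⟨N, hN⟩ := Nso_nil h3
  obtain ⟨h, hh, h0⟩ := (AddSubgroup.ne_bot_iff_exists_ne_zero.1 hH.2.1).elim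
    (fun a ha => (⟨a.1, a.2, fun h => ha (Subtype.ext h)⟩ : ∃ h, h ∈ H ∧ h ≠ 0))
  have hne : NsoT H ≠ ⊥ := by
    intro hT
    obtain ⟨l, hl, _, hl0⟩ := Nso_step H hH.1 hT h hh h0 N
    exact hl0 (hN l (by omega))
  have hid : Idl R (NsoT H) := by
    intro a x hx
    have h1 := hx.2 a
    have h2 : a * x ∈ NsoT H := by rw [h1.2]; exact AddSubgroup.zero_mem _
    have h4 : x * a ∈ NsoT H := by rw [h1.1]; exact AddSubgroup.zero_mem _
    exact ⟨h2, h4⟩
  have hpH := Nso_p p r hr H hH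
  refine ⟨⟨N, hN⟩, fun x hx => ⟨hpH x hx, (hH.2.2 _ hid hne hx).2⟩, ?_⟩
  intro x hpx hx
  have hI : Idl R (AddSubgroup.zmultiples x) := by
    intro a y hy
    obtain ⟨k, rfl⟩ := AddSubgroup.mem_zmultiples_iff.1 hy
    have h1 := hx a
    constructor
    · rw [mul_smul_comm, h1.2, smul_zero]
      exact AddSubgroup.zero_mem _
    · rw [smul_mul_assoc, h1.1, smul_zero]
      exact AddSubgroup.zero_mem _
  by_cases hx0 : x = 0
  · rw [hx0]
    exact H.zero_mem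
  have hIne : AddSubgroup.zmultiples x ≠ ⊥ := by
    intro hb
    exact hx0 (AddSubgroup.zmultiples_eq_bot.1 hb)
  obtain ⟨k, hk⟩ := AddSubgroup.mem_zmultiples_iff.1 (hH.2.2 _ hI hIne hh)
  have hpk : ¬ (p : ℤ) ∣ k := by
    rintro ⟨c, rfl⟩
    apply h0
    rw [← hk, mul_comm, mul_smul, natCast_zsmul, hpx, smul_zero]
  have hcop : IsCoprime k (p : ℤ) := by
    have hpp : Prime (p : ℤ) := Nat.prime_iff_prime_int.1 hp
    exact ((Prime.coprime_iff_not_dvd hpp).2 hpk).symm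
  obtain ⟨a, b, hab⟩ := hcop
  have h5 : x = a • h := by
    calc x = (a * k + b * p) • x := by rw [hab, one_smul]
      _ = a • (k • x) + b • ((p : ℤ) • x) := by rw [add_smul, mul_smul, mul_smul]
      _ = a • h := by rw [hk, natCast_zsmul, hpx, smul_zero, add_zero]
  rw [h5]
  exact H.zsmul_mem hh a

end Pool.Agent.CRS
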