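import Pool.Agent.CRS.StC
import Pool.Agent.CRL.Bnd
import Pool.Agent.CRM.Fle
import Pool.Agent.CRM.Nid

/-!
Campaign CRS, module Ntp: long products in nilpotent rings are zero (problem MP_1bb14d_al, stage 7).
-/

set_option autoImplicit false

namespace Pool.Agent.CRS

open Pool.Agent.CRR Pool.Agent.CRN Pool.Agent.CRK Pool.Agent.CRL Pool.Agent.CRM Pool.Agent.CRP
open Pool.Agent.CRQ

section

variable {R : Type} [NonUnitalRing R]

theorem Ntp_mul (a b : R) (l : List R) : wp (a * b :: l) = wp (a :: b :: l) := by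
  cases l with
  | nil => rfl
  | cons c l =>
    show a * b * wp (c :: l) = a * (b * wp (c :: l))
    rw [mul_assoc]

theorem Ntp_ins (l₁ l₂ : List R) (a b : R) : wp (l₁ ++ (a * b) :: l₂) = wp (l₁ ++ a :: b :: l₂) := by
  by_cases h : l₁ = []
  · subst h
    exact Ntp_mul a b l₂
  · rw [Fle_app l₁ _ h (by simp), Fle_app l₁ _ h (by simp), Ntp_mul]

theorem Ntp_smul (p : ℕ) (a : R) (l : List R) : wp ((p • a) :: l) = p • wp (a :: l) := by
  cases l with
  | nil => rfl
  | cons c l =>
    show (p • a) * wp (c :: l) = p • (a * wp (c :: l))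
    rw [smul_mul_assoc]

theorem Ntp_smul2 (p : ℕ) (l₁ l₂ : List R) (a : R) :
    wp (l₁ ++ (p • a) :: l₂) = p • wp (l₁ ++ a :: l₂) := by
  by_cases h : l₁ = []
  · subst h
    exact Ntp_smul p a l₂
  · rw [Fle_app l₁ _ h (by simp), Fle_app l₁ _ h (by simp), Ntp_smul, mul_smul_comm]

/-- a finite ring with `x^3 = 0` is nilpotent -/
theorem Ntp_nil [Finite R] (h3 : ∀ x : R, x * x * x = 0) :
    ∃ N : ℕ, ∀ l : List R, N ≤ l.length → wp l = 0 := by
  obtain ⟨m, hm⟩ := thm_Jnl R ⊤ (fun r x _ => ⟨AddSubgroup.mem_top _, AddSubgroup.mem_top _⟩)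
    (fun x _ => h3 x)
  exact ⟨m + 1, fun l hl => Bnd_list l m (by omega) (hm _ fun _ => AddSubgroup.mem_top _)⟩

/-- a long word in few letters contains a letter four times -/
theorem Ntp_four (g : ℕ) (w : List ℕ) (hw : ∀ i ∈ w, i < g) (hl : 3 * g + 1 ≤ w.length) :
    ∃ k, 4 ≤ w.count k := by
  by_contra hn
  push Not at hn
  have h1 : ∑ a ∈ Finset.range g, (w : Multiset ℕ).count a = Multiset.card (w : Multiset ℕ) :=
    Multiset.sum_count_eq_card fun a ha => Finset.mem_range.2 (hw a (Multiset.mem_coe.1 ha))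
  have h2 : ∑ a ∈ Finset.range g, (w : Multiset ℕ).count a ≤ ∑ _a ∈ Finset.range g, 3 := by
    refine Finset.sum_le_sum fun a _ => ?_
    rw [Multiset.coe_count]
    have := hn a
    omega
  rw [h1, Multiset.coe_card, Finset.sum_const, Finset.card_range, smul_eq_mul] at h2
  omega

end

theorem thm_Ntp (hJ : Jk0) (hZ : Jkz) (hE : St_Exp) : St_Ntp := by
  classical
  intro R _ _ p g hp h3 hr hg hz
  obtain ⟨z, hz⟩ := hz
  have hm9 : 9 ≤ Tn p g := by
    unfold Tn
    split_ifs <;> omega
  refine hE R (Set.range z) ({x | ∃ a b : R, x = a * b} ∪ {x | ∃ a : R, x = p • a}) ?_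
    (Ntp_nil h3) (Tn p g) (by omega) ?_ ?_
  · -- the subgroup generated is a subring
    let G : AddSubgroup R := AddSubgroup.closure
      (Set.range z ∪ ({x | ∃ a b : R, x = a * b} ∪ {x | ∃ a : R, x = p • a}))
    have hG : ∀ a b : R, a * b ∈ G := fun a b =>
      AddSubgroup.subset_closure (Or.inr (Or.inl ⟨a, b, rfl⟩))
    let S : NonUnitalSubring R :=
      { carrier := G
        add_mem' := fun ha hb => G.add_mem ha hb
        zero_mem' := G.zero_mem
        neg_mem' := fun ha => G.neg_mem ha
        mul_mem' := fun {a b} _ _ => hG a b }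
    have hS : S = ⊤ := by
      rw [eq_top_iff, ← hz]
      refine NonUnitalSubring.closure_le.2 ?_
      intro x hx
      exact AddSubgroup.subset_closure (Or.inl hx)
    show G = ⊤
    rw [eq_top_iff]
    intro x _
    have hx : x ∈ S := by
      rw [hS]
      exact NonUnitalSubring.mem_top x
    exact hx
  · -- words in the generators
    intro l hl hlen
    have hl' : l ∈ Set.range (List.map z) := by
      rw [Set.range_list_map]
      exact hl
    obtain ⟨w, rfl⟩ := hl'
    let v : ℕ → R := fun i => if h : i < g then z ⟨i, h⟩ else 0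
    have hv : (w.map fun i => i.val).map v = w.map z := by
      rw [List.map_map]
      refine List.map_congr_left fun i _ => ?_
      show (if h : i.val < g then z ⟨i.val, h⟩ else 0) = z i
      rw [dif_pos i.isLt]
    rw [← hv]
    have hwg : ∀ i ∈ w.map (fun i => i.val), i < g := by
      intro i hi
      obtain ⟨j, -, rfl⟩ := List.mem_map.1 hi
      exact j.isLt
    rw [List.length_map] at hlen
    have hwl : (w.map fun i => i.val).length = w.length := List.length_map _
    rcases hp with rfl | rfl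
    · have hT : Tn 2 g = g + 3 := rfl
      exact hZ R h3 hr g v _ hwg (by omega) (by omega)
    · have hT : Tn 3 g = 3 * g + 1 := rfl
      obtain ⟨k, hk⟩ := Ntp_four g _ hwg (by omega)
      exact (thm_Fle thm_Nid).1 R h3 v _ k hk
  · rintro l₁ l₂ x (⟨a, b, rfl⟩ | ⟨a, rfl⟩) hlen hmore
    · rw [Ntp_ins]
      refine hmore _ ?_
      rw [List.length_append, List.length_cons, List.length_cons]
      omega
    · rw [Ntp_smul2]
      refine hJ R p hp h3 hr _ ?_
      rw [List.length_append, List.length_cons]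
      omega

end Pool.Agent.CRS
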