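import Pool.Agent.CRS.StQ
import Pool.Agent.CRS.Ntp

/-!
Campaign CRS, module Ntq: products of many elements of a nilpotent ring, general form.
-/

set_option autoImplicit false

namespace Pool.Agent.CRS

open Pool.Agent.CRR Pool.Agent.CRN Pool.Agent.CRK Pool.Agent.CRL Pool.Agent.CRM Pool.Agent.CRP
open Pool.Agent.CRQ

theorem thm_Ntq (hJ : Jk0) (hZ : Jkz) (hE : St_Exp) : St_Ntq := by
  classical
  intro R _ _ p g hp h3 hr hg hz
  obtain ⟨z, hz⟩ := hz
  have hm9 : 7 ≤ Tn p g := hg
  refine hE R (Set.range z) ({x | ∃ a b : R, x = a * b} ∪ {x | ∃ a : R, x = p • a}) ?_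
    (Ntp_nil h3) (Tn p g) (by omega) ?_ ?_
  · -- the subgroup generated is a subring
    let G : AddSubgroup R := AddSubgroup.closure
      (Set.range z ∪ ({x | ∃ a b : R, x = a * b} ∪ {x | ∃ a : R, x = p • a}))
    have hG : ∀ a b : R, a * b ∈ G := fun a b =>
      AddSubgroup.subset_closure (Or.inr (Or.inl ⟨a, b, rfl⟩))
    let S : NonUnitalSubring R :=
      { carrier := G
        add_mem' := fun ha hb => G.add_mem ha hb
        zero_mem' := G.zero_mem
        neg_mem' := fun ha => G.neg_mem ha
        mul_mem' := fun {a b} _ _ => hG a b }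
    have hS : S = ⊤ := by
      rw [eq_top_iff, ← hz]
      refine NonUnitalSubring.closure_le.2 ?_
      intro x hx
      exact AddSubgroup.subset_closure (Or.inl hx)
    show G = ⊤
    rw [eq_top_iff]
    intro x _
    have hx : x ∈ S := by
      rw [hS]
      exact NonUnitalSubring.mem_top x
    exact hx
  · -- words in the generators
    intro l hl hlen
    have hl' : l ∈ Set.range (List.map z) := by
      rw [Set.range_list_map]
      exact hl
    obtain ⟨w, rfl⟩ := hl'
    let v : ℕ → R := fun i => if h : i < g then z ⟨i, h⟩ else 0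
    have hv : (w.map fun i => i.val).map v = w.map z := by
      rw [List.map_map]
      refine List.map_congr_left fun i _ => ?_
      show (if h : i.val < g then z ⟨i.val, h⟩ else 0) = z i
      rw [dif_pos i.isLt]
    rw [← hv]
    have hwg : ∀ i ∈ w.map (fun i => i.val), i < g := by
      intro i hi
      obtain ⟨j, -, rfl⟩ := List.mem_map.1 hi
      exact j.isLt
    rw [List.length_map] at hlen
    have hwl : (w.map fun i => i.val).length = w.length := List.length_map _
    rcases hp with rfl | rfl
    · have hT : Tn 2 g = g + 3 := rfl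
      exact hZ R h3 hr g v _ hwg (by omega) (by omega)
    · have hT : Tn 3 g = 3 * g + 1 := rfl
      obtain ⟨k, hk⟩ := Ntp_four g _ hwg (by omega)
      exact (thm_Fle thm_Nid).1 R h3 v _ k hk
  · rintro l₁ l₂ x (⟨a, b, rfl⟩ | ⟨a, rfl⟩) hlen hmore
    · rw [Ntp_ins]
      refine hmore _ ?_
      rw [List.length_append, List.length_cons, List.length_cons]
      omega
    · rw [Ntp_smul2]
      refine hJ R p hp h3 hr _ ?_
      rw [List.length_append, List.length_cons]
      omega

end Pool.Agent.CRS
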