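import Pool.Agent.CRS.StC
import Pool.Agent.CRM.Ngb

/-!
Campaign CRS, module Nxb: rings of the nilpotent type for the primes 2 and 3 are critical.
-/

set_option autoImplicit false

namespace Pool.Agent.CRS

open Pool.Agent.CRR Pool.Agent.CRN Pool.Agent.CRK Pool.Agent.CRL Pool.Agent.CRM Pool.Agent.CRP
open Pool.Agent.CRQ

/-- one list for `∑ c_i B_i` -/
def Nxb_ls (Q : List (ℤ × List (ℤ × List ℕ))) : List (ℤ × List ℕ) :=
  Q.flatMap fun q => q.2.map fun r => (q.1 * r.1, r.2)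

theorem Nxb_one {R : Type} [NonUnitalRing R] {g : ℕ} (k : ℤ) (b : List (ℤ × List ℕ))
    (x : Fin g → R) : Vg (b.map fun r => (k * r.1, r.2)) x = k • Vg b x := by
  unfold Vg ev
  induction b with
  | nil => simp
  | cons r b ih =>
    simp only [List.map_cons, List.sum_cons, smul_add] at ih ⊢
    rw [ih, mul_smul]

theorem Nxb_app {R : Type} [NonUnitalRing R] {g : ℕ} (L L' : List (ℤ × List ℕ))
    (x : Fin g → R) : Vg (L ++ L') x = Vg L x + Vg L' x := by
  unfold Vg ev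
  rw [List.map_append, List.sum_append]

theorem Nxb_sum {R : Type} [NonUnitalRing R] {g : ℕ} (Q : List (ℤ × List (ℤ × List ℕ)))
    (x : Fin g → R) : (Q.map fun q => q.1 • Vg q.2 x).sum = Vg (Nxb_ls Q) x := by
  induction Q with
  | nil => simp [Nxb_ls, Vg, ev]
  | cons q Q ih =>
    have e : Nxb_ls (q :: Q) = (q.2.map fun r => (q.1 * r.1, r.2)) ++ Nxb_ls Q := by
      simp [Nxb_ls]
    rw [e, Nxb_app, Nxb_one, List.map_cons, List.sum_cons, ih]

theorem Nxb_list {R : Type} [NonUnitalRing R] {Tb : ℕ → ℕ → List (List (ℤ × List ℕ)) → Prop}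
    (hT : Tbw Tb) {p g : ℕ} {f : (Fin g → R) → R} (hf : Cln Tb p g f) :
    ∃ L : List (ℤ × List ℕ), (∀ q ∈ L, ∀ i, i ∈ q.2 ↔ i < g) ∧ ∀ x, f x = Vg L x := by
  rcases hf with ⟨-, L, hL, hx⟩ | ⟨-, B, c, hB, -, hx⟩
  · exact ⟨L, fun q hq => (hL q hq).2.1, hx⟩
  · refine ⟨Nxb_ls (c.zip B), ?_, fun x => ?_⟩
    · intro q hq
      unfold Nxb_ls at hq
      rw [List.mem_flatMap] at hq
      obtain ⟨a, ha, hq⟩ := hq
      obtain ⟨r, hr, rfl⟩ := List.mem_map.1 hq
      exact hT p g B hB a.2 (List.of_mem_zip ha).2 r hr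
    · rw [hx x]
      exact Nxb_sum (c.zip B) x

/-- **NXB.** -/
theorem thm_Nxb : St_Nxb := by
  intro Tb hT R _ _ hN
  obtain ⟨h3, p, H, -, -, hH, g, f, hf, -, hv, x0, hx0⟩ := hN
  obtain ⟨L, hL, hfL⟩ := Nxb_list hT hf
  have hev : ∀ v : ℕ → R, Vg L (fun i : Fin g => v i) = ev L v := Ngb_vg L hL
  refine thm_Crg R H hH (fun v => ev L v) (Ngb_ev L) (fun v => ?_) ⟨xs x0, ?_⟩ ?_
  · show ev L v ∈ H
    rw [← hev v, ← hfL]
    exact (hv _).1
  · intro h
    apply hx0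
    rw [hfL]
    exact h
  · intro S hS v hvS
    show ev L v = 0
    rw [← hev v, ← hfL]
    apply (hv _).2.2
    intro h
    apply hS
    rw [eq_top_iff, ← h, NonUnitalSubring.closure_le]
    rintro _ ⟨i, rfl⟩
    exact hvS _

end Pool.Agent.CRS
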