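import Pool.Agent.CRS.StQ
import Pool.Agent.CRS.Nxb

/-!
Campaign CRS, module Nyb: rings of the nilpotent type (form without the condition on `g`) are critical.
-/

set_option autoImplicit false

namespace Pool.Agent.CRS

open Pool.Agent.CRR Pool.Agent.CRN Pool.Agent.CRK Pool.Agent.CRL Pool.Agent.CRM Pool.Agent.CRP
open Pool.Agent.CRQ

theorem Nyb_list {R : Type} [NonUnitalRing R] {Tb : ℕ → ℕ → List (List (ℤ × List ℕ)) → Prop}
    (hT : Tbw Tb) {p g : ℕ} {B : List (List (ℤ × List ℕ))} (c : List ℤ) (hB : Tb p g B) :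
    (∀ q ∈ Nxb_ls (c.zip B), ∀ i, i ∈ q.2 ↔ i < g) ∧
      ∀ x : Fin g → R, Kc c B x = Vg (Nxb_ls (c.zip B)) x := by
  refine ⟨?_, fun x => ?_⟩
  · intro q hq
    unfold Nxb_ls at hq
    rw [List.mem_flatMap] at hq
    obtain ⟨a, ha, hq⟩ := hq
    obtain ⟨r, hr, rfl⟩ := List.mem_map.1 hq
    exact hT p g B hB a.2 (List.of_mem_zip ha).2 r hr
  · exact Nxb_sum (c.zip B) x

/-- **NYB.** -/
theorem thm_Nyb : St_Nyb := by
  intro Tb hT R _ _ hN
  obtain ⟨h3, p, H, -, -, hH, g, B, c, hB, -, -, hv, x0, hx0⟩ := hN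
  obtain ⟨hL, hfL⟩ := Nyb_list (R := R) hT c hB
  set L := Nxb_ls (c.zip B) with hLdef
  have hev : ∀ v : ℕ → R, Vg L (fun i : Fin g => v i) = ev L v := Ngb_vg L hL
  refine thm_Crg R H hH (fun v => ev L v) (Ngb_ev L) (fun v => ?_) ⟨xs x0, ?_⟩ ?_
  · show ev L v ∈ H
    rw [← hev v, ← hfL]
    exact (hv _).1
  · intro h
    apply hx0
    rw [hfL]
    exact h
  · intro S hS v hvS
    show ev L v = 0
    rw [← hev v, ← hfL]
    apply (hv _).2.2
    intro h
    apply hS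
    rw [eq_top_iff, ← h, NonUnitalSubring.closure_le]
    rintro _ ⟨i, rfl⟩
    exact hvS _

end Pool.Agent.CRS
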