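import Pool.Agent.CRS.StQ
import Pool.Agent.CRQ.Fin

/-!
Campaign CRS, module Nyf: nilpotent critical rings, the primes 2 and 3, general form.
-/

set_option autoImplicit false

namespace Pool.Agent.CRS

open Pool.Agent.CRR Pool.Agent.CRN Pool.Agent.CRK Pool.Agent.CRL Pool.Agent.CRM Pool.Agent.CRP
open Pool.Agent.CRQ

theorem thm_Nyf (hNmt : St_Nmt) (hNmu : St_Nmu) (hNkb : St_Nkb) (hNka : St_Nka) (hNtq : St_Ntq) :
    St_Nyf := by
  intro Tb h2 h3 R _ _ h6 hN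
  obtain ⟨hcube, p, H, hp, ⟨r, hr⟩, hH, g, L, ⟨z, hz⟩, hL, hval, hne⟩ := hN
  have hpp : p = 2 ∨ p = 3 := by
    by_contra h
    exact h6 ((Fin_six hp hr hH).2 h)
  obtain ⟨hK, hW, hG⟩ := hNka R p H g L hpp hcube ⟨r, hr⟩ hH
    (fun q hq => ⟨(hL q hq).1, (hL q hq).2.1⟩) hval hne
  obtain ⟨hd1, hd2, hd3⟩ := hNkb R p g hp hcube ⟨r, hr⟩ z hz
  have hku : Ku ℤ R p 1 := ⟨1, fun x => ⟨0, by simp⟩⟩
  have hg : 1 ≤ g := by
    by_contra h0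
    obtain ⟨x, hx⟩ := hne
    apply hx
    unfold Vg ev
    refine List.sum_eq_zero ?_
    intro w hw
    obtain ⟨q, hq, rfl⟩ := List.mem_map.1 hw
    obtain ⟨i, l, hi⟩ := List.exists_cons_of_ne_nil (hL q hq).1
    have := ((hL q hq).2.1 i).1 (by rw [hi]; exact List.mem_cons_self)
    omega
  have htop := fun h7 => hNtq R p g hpp hcube ⟨r, hr⟩ h7 ⟨z, hz⟩
  have hDm : Dm ℤ p (KJ R p) g := by
    intro m hm F _ hF x
    obtain ⟨c, j, hj, hs⟩ := hd2 m hm x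
    exact hF x c j (hj ▸ hku) hs
  have hGn : Gn ℤ (KJ R p) g := by
    refine ⟨z, fun m F _ hF ⟨x, hx⟩ => ?_⟩
    choose c hc using fun i => hd3 (x i)
    refine ⟨c, ?_⟩
    rw [← hF x _ hc]
    exact hx
  have hMt := hNmt R p hpp hcube ⟨r, hr⟩
  have hMu := hNmu R p hpp hcube ⟨r, hr⟩
  obtain ⟨B, c, hB, hl, hf⟩ : ∃ (B : List (List (ℤ × List ℕ))) (c : List ℤ), Tb p g B ∧
      c.length = B.length ∧ Good ℤ p (KJ R p) H g (fun x : Fin g → R => Kc c B x) := by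
    rcases hpp with rfl | rfl
    · exact h2 ℤ R (KJ R 2) H g _ hK hg htop hDm hGn hMt hMu hW hG
    · exact h3 ℤ R (KJ R 3) H g _ hK hg htop hDm hGn hMt hMu hW hG
  refine ⟨hcube, p, H, hpp, ⟨r, hr⟩, hH, g, B, c, hB, hl, ⟨z, hz⟩,
    fun x => ⟨hf.val x, fun y hy => hf.inv x y hy, fun hx => ?_⟩, hf.ne⟩
  obtain ⟨c', j, hj, hs⟩ := hd1 x hx
  exact hf.dep x c' j (hj ▸ hku) hs

end Pool.Agent.CRS
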