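import Pool.Agent.CRQ.All
import Pool.Agent.CRS.Cfx
import Pool.Agent.CRS.Exp
import Pool.Agent.CRS.Fiy
import Pool.Agent.CRS.Lbq
import Pool.Agent.CRS.Lch
import Pool.Agent.CRS.Lcx
import Pool.Agent.CRS.Ldm
import Pool.Agent.CRS.Lgd
import Pool.Agent.CRS.Lkb
import Pool.Agent.CRS.Lks
import Pool.Agent.CRS.Lmt
import Pool.Agent.CRS.Lmv
import Pool.Agent.CRS.Lso
import Pool.Agent.CRS.Ltq
import Pool.Agent.CRS.Lwa
import Pool.Agent.CRS.Lyb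
import Pool.Agent.CRS.Lyf
import Pool.Agent.CRS.Nka
import Pool.Agent.CRS.Nkb
import Pool.Agent.CRS.Nmt
import Pool.Agent.CRS.Nmu
import Pool.Agent.CRS.Nso
import Pool.Agent.CRS.Ntq
import Pool.Agent.CRS.Nyb
import Pool.Agent.CRS.Nyf

/-!
Campaign CRS: part C without hypotheses, except for the words of length at least 6 (problem MP_1bb14d_al).
-/

set_option autoImplicit false

namespace Pool.Agent.CRS

open Pool.Agent.CRR Pool.Agent.CRN Pool.Agent.CRK Pool.Agent.CRL Pool.Agent.CRM Pool.Agent.CRP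
open Pool.Agent.CRQ

theorem lwa : St_Lwa := thm_Lwa
theorem lch : St_Lch := thm_Lch thm_Cfx
theorem lcx : St_Lcx := thm_Lcx lch thm_Cfx lwa
theorem lso : St_Lso := thm_Lso lwa
theorem lkb : St_Lkb := thm_Lkb thm_Cfx lwa
theorem lks : St_Lks := thm_Lks thm_Cfx lwa lso
theorem lgd : St_Lgd := thm_Lgd thm_Cfx lwa
theorem ldm : St_Ldm := thm_Ldm lkb
theorem lbq : St_Lbq := thm_Lbq lkb lcx
theorem nka : St_Nka := thm_Nka thm_Nso
theorem nyf (hJ : Jk0) (hZ : Jkz) : St_Nyf :=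
  thm_Nyf (thm_Nmt hJ) (thm_Nmu hJ) thm_Nkb nka (thm_Ntq hJ hZ thm_Exp)
theorem lyf (hJ : Jk0) (hZ : Jkz) : St_Lyf :=
  thm_Lyf (thm_Lmt hJ) thm_Lmv thm_Cfx (thm_Ltq hJ hZ thm_Exp) lks lgd ldm lbq
theorem fiy (hJ : Jk0) (hZ : Jkz) : St_Fiy :=
  thm_Fiy CRP.mfp CRP.lfx lca lcb ntf ntb (nyf hJ hZ) thm_Nyb (lyf hJ hZ) thm_Lyb

end Pool.Agent.CRS
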