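import Pool.Agent.CRS.StH

/-!
Campaign CRS, module Exl (helper32): the expansion of a word in `x_j + c x_i`.
-/

set_option autoImplicit false

namespace Pool.Agent.CRS

open Pool.Agent.CRR Pool.Agent.CRN Pool.Agent.CRK Pool.Agent.CRL Pool.Agent.CRM Pool.Agent.CRP
open Pool.Agent.CRQ

section exl

variable {A : Type} [NonUnitalRing A] {ι : Type} [DecidableEq ι]

theorem Exl_wp_cons (a : A) (l : List A) (h : l ≠ []) : wp (a :: l) = a * wp l := by
  cases l with
  | nil => exact absurd rfl h
  | cons b l => rfl

omit [DecidableEq ι] in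
theorem Exl_wp_map (f : ι → A) (a : ι) (w : List ι) (h : w ≠ []) :
    wp ((a :: w).map f) = f a * wp (w.map f) := by
  rw [List.map_cons, Exl_wp_cons _ _ fun h1 => h (List.map_eq_nil_iff.1 h1)]

/-- The product in the ring with identity. -/
def Exl_P (y : ι → A) (w : List ι) : Unitization ℤ A :=
  (w.map fun l => (Unitization.inr (y l) : Unitization ℤ A)).prod

theorem Exl_P_nil (y : ι → A) : Exl_P y [] = 1 := rfl

theorem Exl_P_cons (y : ι → A) (a : ι) (w : List ι) :
    Exl_P y (a :: w) = (Unitization.inr (y a) : Unitization ℤ A) * Exl_P y w := by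
  unfold Exl_P
  rw [List.map_cons, List.prod_cons]

theorem Exl_P_wp (y : ι → A) : ∀ w : List ι, w ≠ [] →
    Exl_P y w = (Unitization.inr (wp (w.map y)) : Unitization ℤ A)
  | [], h => absurd rfl h
  | [a], _ => by
    rw [Exl_P_cons, Exl_P_nil, mul_one]
    rfl
  | a :: b :: w, _ => by
    rw [Exl_P_cons, Exl_P_wp y (b :: w) (List.cons_ne_nil _ _), ← Unitization.inr_mul]
    rfl

/-- The part of degree `k` in `x_i`. -/
def Exl_e (x : ι → A) (i j : ι) : ℕ → List ι → Unitization ℤ A
  | 0, w => Exl_P x w
  | _ + 1, [] => 0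
  | k + 1, a :: w => (if a = j then (Unitization.inr (x i) : Unitization ℤ A) *
      Exl_e x i j k w else 0) + (Unitization.inr (x a) : Unitization ℤ A) * Exl_e x i j (k + 1) w

theorem Exl_e_ne (x : ι → A) (i j : ι) {a : ι} (h : a ≠ j) (k : ℕ) (w : List ι) :
    Exl_e x i j k (a :: w) = (Unitization.inr (x a) : Unitization ℤ A) * Exl_e x i j k w := by
  cases k with
  | zero =>
    rw [Exl_e, Exl_e, Exl_P_cons]
  | succ k => rw [Exl_e, if_neg h, zero_add]

theorem Exl_e_eq (x : ι → A) (i j : ι) (k : ℕ) (w : List ι) :
    Exl_e x i j (k + 1) (j :: w) = (Unitization.inr (x i) : Unitization ℤ A) * Exl_e x i j k w +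
      (Unitization.inr (x j) : Unitization ℤ A) * Exl_e x i j (k + 1) w := by
  rw [Exl_e, if_pos rfl]

theorem Exl_e_zero (x : ι → A) (i j : ι) : ∀ (w : List ι) (k : ℕ), w.count j < k →
    Exl_e x i j k w = 0
  | _, 0, h => absurd h (Nat.not_lt_zero _)
  | [], k + 1, _ => by rw [Exl_e]
  | a :: w, k + 1, h => by
    by_cases ha : a = j
    · subst ha
      rw [List.count_cons_self] at h
      rw [Exl_e_eq, Exl_e_zero x i a w k (by omega), Exl_e_zero x i a w (k + 1) (by omega),
        mul_zero, mul_zero, add_zero]
    · rw [List.count_cons_of_ne ha] at h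
      rw [Exl_e_ne x i j ha, Exl_e_zero x i j w (k + 1) h, mul_zero]

theorem Exl_e_top (x : ι → A) (i j : ι) : ∀ w : List ι,
    Exl_e x i j (w.count j) w = Exl_P (Function.update x j (x i)) w
  | [] => by
    rw [List.count_nil, Exl_e, Exl_P_nil, Exl_P_nil]
  | a :: w => by
    by_cases ha : a = j
    · subst ha
      rw [List.count_cons_self, Exl_e_eq, Exl_e_top x i a w, Exl_e_zero x i a w _ (Nat.lt_succ_self _),
        mul_zero, add_zero, Exl_P_cons, Function.update_self]
    · rw [List.count_cons_of_ne ha, Exl_e_ne x i j ha, Exl_e_top x i j w, Exl_P_cons,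
        Function.update_of_ne ha]

theorem Exl_Dd_cons {B : Type} [AddCommMonoid B] (j i : ι) (φ : List ι → B) (a : ι) (w : List ι) :
    Dd j i φ (a :: w) = (if a = j then φ (i :: w) else 0) + Dd j i (fun v => φ (a :: v)) w := by
  unfold Dd
  rw [dw, List.map_append, List.sum_append, List.map_map]
  congr 1
  split_ifs
  · rw [List.map_cons, List.map_nil, List.sum_cons, List.sum_nil, add_zero]
  · rfl

theorem Exl_Dd_mul {B : Type} [NonUnitalNonAssocSemiring B] (j i : ι) (c : B) (φ : List ι → B)
    (w : List ι) : Dd j i (fun v => c * φ v) w = c * Dd j i φ w := by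
  unfold Dd
  rw [← List.sum_map_mul_left]

theorem Exl_e_one (x : ι → A) (i j : ι) : ∀ w : List ι,
    Exl_e x i j 1 w = Dd j i (Exl_P x) w
  | [] => by
    rw [Exl_e]
    rfl
  | a :: w => by
    rw [Exl_Dd_cons]
    have h1 : Dd j i (fun v => Exl_P x (a :: v)) w =
        (Unitization.inr (x a) : Unitization ℤ A) * Dd j i (Exl_P x) w := by
      rw [← Exl_Dd_mul]
      simp only [Exl_P_cons]
    rw [h1, ← Exl_e_one x i j w]
    by_cases ha : a = j
    · subst ha
      rw [Exl_e_eq, if_pos rfl, Exl_P_cons, Exl_e]
    · rw [Exl_e_ne x i j ha, if_neg ha, zero_add]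

theorem Exl_dw_ne (j i : ι) : ∀ w : List ι, ∀ v ∈ dw j i w, v ≠ []
  | [], v, hv => by
    rw [dw] at hv
    exact absurd hv List.not_mem_nil
  | a :: w, v, hv => by
    rw [dw, List.mem_append] at hv
    rcases hv with hv | hv
    · split_ifs at hv
      · rw [List.mem_singleton] at hv
        rw [hv]
        exact List.cons_ne_nil _ _
      · exact absurd hv List.not_mem_nil
    · obtain ⟨u, -, rfl⟩ := List.mem_map.1 hv
      exact List.cons_ne_nil _ _

theorem Exl_sum_inr : ∀ l : List A, (Unitization.inr l.sum : Unitization ℤ A) =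
    (l.map fun a => (Unitization.inr a : Unitization ℤ A)).sum
  | [] => by
    rw [List.sum_nil, List.map_nil, List.sum_nil, Unitization.inr_zero]
  | a :: l => by
    rw [List.sum_cons, Unitization.inr_add, Exl_sum_inr l, List.map_cons, List.sum_cons]

theorem Exl_Dd_inr (x : ι → A) (i j : ι) (w : List ι) :
    Dd j i (Exl_P x) w = (Unitization.inr (Dd j i (fun v => wp (v.map x)) w) :
      Unitization ℤ A) := by
  unfold Dd
  rw [Exl_sum_inr, List.map_map]
  congr 1
  exact List.map_congr_left fun v hv => Exl_P_wp x v (Exl_dw_ne j i w v hv)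

theorem Exl_add (x : ι → A) (i j : ι) : ∀ w : List ι, w.count j ≤ 3 →
    Exl_P (Function.update x j (x j + x i)) w =
      Exl_e x i j 0 w + Exl_e x i j 1 w + Exl_e x i j 2 w + Exl_e x i j 3 w
  | [], _ => by
    rw [Exl_P_nil]
    simp only [Exl_e, Exl_P_nil, add_zero]
  | a :: w, h => by
    by_cases ha : a = j
    · subst ha
      rw [List.count_cons_self] at h
      have h3 : Exl_e x i a 3 w = 0 := Exl_e_zero x i a w 3 (by omega)
      have e0 : Exl_e x i a 0 (a :: w) = (Unitization.inr (x a) : Unitization ℤ A) *
          Exl_e x i a 0 w := by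
        rw [Exl_e, Exl_e, Exl_P_cons]
      rw [Exl_P_cons, Function.update_self, Exl_add x i a w (by omega), e0, Exl_e_eq, Exl_e_eq,
        Exl_e_eq, h3, Unitization.inr_add]
      simp only [mul_add, add_mul, mul_zero, add_zero]
      abel
    · rw [List.count_cons_of_ne ha] at h
      rw [Exl_P_cons, Function.update_of_ne ha, Exl_add x i j w h, Exl_e_ne x i j ha,
        Exl_e_ne x i j ha, Exl_e_ne x i j ha, Exl_e_ne x i j ha]
      simp only [mul_add]

theorem Exl_sub (x : ι → A) (i j : ι) : ∀ w : List ι, w.count j ≤ 3 →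
    Exl_P (Function.update x j (x j - x i)) w =
      Exl_e x i j 0 w - Exl_e x i j 1 w + Exl_e x i j 2 w - Exl_e x i j 3 w
  | [], _ => by
    rw [Exl_P_nil]
    simp only [Exl_e, Exl_P_nil, add_zero, sub_zero]
  | a :: w, h => by
    by_cases ha : a = j
    · subst ha
      rw [List.count_cons_self] at h
      have h3 : Exl_e x i a 3 w = 0 := Exl_e_zero x i a w 3 (by omega)
      have e0 : Exl_e x i a 0 (a :: w) = (Unitization.inr (x a) : Unitization ℤ A) *
          Exl_e x i a 0 w := by
        rw [Exl_e, Exl_e, Exl_P_cons]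
      rw [Exl_P_cons, Function.update_self, Exl_sub x i a w (by omega), e0, Exl_e_eq, Exl_e_eq,
        Exl_e_eq, h3, Unitization.inr_sub]
      simp only [mul_add, add_mul, mul_sub, sub_mul, mul_zero, add_zero, sub_zero]
      abel
    · rw [List.count_cons_of_ne ha] at h
      rw [Exl_P_cons, Function.update_of_ne ha, Exl_sub x i j w h, Exl_e_ne x i j ha,
        Exl_e_ne x i j ha, Exl_e_ne x i j ha, Exl_e_ne x i j ha]
      simp only [mul_add, mul_sub]

theorem Exl_upd0 (x : ι → A) (j : ι) (y : A) {w : List ι} (h : w.count j = 0) :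
    w.map (Function.update x j y) = w.map x := by
  refine List.map_congr_left fun a ha => Function.update_of_ne ?_ _ _
  rintro rfl
  exact List.count_eq_zero.1 h ha

theorem Exl_lin (x : ι → A) (j : ι) (y z : A) : ∀ w : List ι, w.count j = 1 →
    wp (w.map (Function.update x j (y + z))) =
      wp (w.map (Function.update x j y)) + wp (w.map (Function.update x j z))
  | [], h => by
    rw [List.count_nil] at h
    exact absurd h (by decide)
  | a :: w, h => by
    by_cases ha : a = j
    · subst ha
      rw [List.count_cons_self] at h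
      have h0 : w.count a = 0 := by omega
      rw [List.map_cons, List.map_cons, List.map_cons, Exl_upd0 x a _ h0, Exl_upd0 x a _ h0,
        Exl_upd0 x a _ h0, Function.update_self, Function.update_self, Function.update_self]
      by_cases hw : w.map x = []
      · rw [hw]
        rfl
      · rw [Exl_wp_cons _ _ hw, Exl_wp_cons _ _ hw, Exl_wp_cons _ _ hw, add_mul]
    · rw [List.count_cons_of_ne ha] at h
      have hw : ∀ f : ι → A, w.map f ≠ [] := by
        intro f hf
        rw [List.map_eq_nil_iff] at hf
        rw [hf, List.count_nil] at h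
        exact absurd h (by decide)
      rw [List.map_cons, List.map_cons, List.map_cons, Exl_wp_cons _ _ (hw _),
        Exl_wp_cons _ _ (hw _), Exl_wp_cons _ _ (hw _), Exl_lin x j y z w h,
        Function.update_of_ne ha, Function.update_of_ne ha, Function.update_of_ne ha, mul_add]

theorem Exl_hom {K : Type} [CommRing K] [Module K A] [IsScalarTower K A A] [SMulCommClass K A A]
    (x : ι → A) (j : ι) (c : K) : ∀ w : List ι,
    wp (w.map (Function.update x j (c • x j))) = c ^ w.count j • wp (w.map x)
  | [] => by
    rw [List.map_nil, List.map_nil]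
    exact (smul_zero _).symm
  | [a] => by
    by_cases ha : a = j
    · subst ha
      rw [List.map_singleton, List.map_singleton, Function.update_self, List.count_singleton_self,
        pow_one]
      rfl
    · rw [List.map_singleton, List.map_singleton, Function.update_of_ne ha,
        List.count_cons_of_ne ha, List.count_nil, pow_zero, one_smul]
  | a :: b :: w => by
    have h := Exl_hom x j c (b :: w)
    rw [Exl_wp_map _ a _ (List.cons_ne_nil b w), Exl_wp_map _ a _ (List.cons_ne_nil b w), h]
    by_cases ha : a = j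
    · subst ha
      rw [Function.update_self, List.count_cons_self, pow_succ', mul_smul, smul_mul_assoc,
        mul_smul_comm]
    · rw [Function.update_of_ne ha, List.count_cons_of_ne ha, mul_smul_comm]

end exl

theorem thm_Exl : St_Exl := by
  intro K _ A _ _ _ _ ι _ x w j
  refine ⟨fun c => Exl_hom x j c w, fun y h => by rw [Exl_upd0 x j y h],
    fun y z h => Exl_lin x j y z w h, fun i _ => ⟨fun h => ?_, fun h => ?_, fun h => ?_⟩⟩
  · have hw : w ≠ [] := by
      rintro rfl
      rw [List.count_nil] at h
      exact absurd h (by decide)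
    have h1 := Exl_e_top x i j w
    rw [h, Exl_e_one, Exl_Dd_inr, Exl_P_wp _ w hw] at h1
    exact Unitization.inr_injective h1
  · by_cases hw : w = []
    · subst hw
      rw [List.count_nil, if_neg (by decide)]
      change (0 : A) - 0 = 2 • (0 : A) + 0
      simp
    · have h1 := Exl_add x i j w h
      have h2 := Exl_sub x i j w h
      have h3 : Exl_e x i j 3 w = (Unitization.inr (if w.count j = 3 then
          wp (w.map (Function.update x j (x i))) else 0) : Unitization ℤ A) := by
        split_ifs with h4
        · rw [← Exl_P_wp _ w hw, ← Exl_e_top, h4]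
        · rw [Exl_e_zero x i j w 3 (by omega), Unitization.inr_zero]
      rw [Exl_P_wp _ w hw] at h1 h2
      have h5 : (Unitization.inr (wp (w.map (Function.update x j (x j + x i))) -
          wp (w.map (Function.update x j (x j - x i)))) : Unitization ℤ A) =
          Unitization.inr (2 • Dd j i (fun v => wp (v.map x)) w +
            2 • (if w.count j = 3 then wp (w.map (Function.update x j (x i))) else 0)) := by
        rw [Unitization.inr_sub, h1, h2, Exl_e_one, Exl_Dd_inr, h3]
        simp only [Unitization.inr_add, two_smul]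
        abel
      rw [Unitization.inr_injective h5]
      congr 1
      split_ifs
      · rfl
      · exact smul_zero _
  · have hw : w ≠ [] := by
      rintro rfl
      rw [List.count_nil] at h
      exact absurd h (by decide)
    have h1 := Exl_add x i j w (by omega)
    have h2 := Exl_e_top x i j w
    rw [h] at h2
    rw [Exl_e_zero x i j w 3 (by omega), h2, Exl_e_one, Exl_Dd_inr, Exl_P_wp _ w hw,
      Exl_P_wp _ w hw, add_zero, Exl_e, Exl_P_wp _ w hw, ← Unitization.inr_add,
      ← Unitization.inr_add] at h1
    exact Unitization.inr_injective h1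

end Pool.Agent.CRS
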