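import Pool.Agent.CRS.StH

/-!
Module GDC of campaign CRS (problem MP_1bb14d_al): closure properties of `Gd`.
-/

set_option autoImplicit false

namespace Pool.Agent.CRS

open Pool.Agent.CRR Pool.Agent.CRN Pool.Agent.CRK Pool.Agent.CRL Pool.Agent.CRM Pool.Agent.CRP
open Pool.Agent.CRQ

theorem Gdc_sum_update {K : Type} [CommRing K] {A : Type} [NonUnitalRing A] [Module K A] {g : ℕ}
    (i j : Fin g) (hij : i ≠ j) (a : K) (c : Fin g → K) (x : Fin g → A) :
    ∑ l, Function.update c i (c i - a * c j) l • Function.update x j (x j + a • x i) l =
      ∑ l, c l • x l := by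
  have key : ∀ l, Function.update c i (c i - a * c j) l • Function.update x j (x j + a • x i) l =
      c l • x l + ((if l = j then (c j * a) • x i else 0) - (if l = i then (c j * a) • x i else 0)) := by
    intro l
    by_cases hli : l = i
    · subst hli
      rw [Function.update_self, Function.update_of_ne hij, if_neg hij, if_pos rfl, sub_smul,
        zero_sub, mul_comm a (c j), sub_eq_add_neg]
    · by_cases hlj : l = j
      · subst hlj
        rw [Function.update_of_ne hli, Function.update_self, if_pos rfl, if_neg hli, smul_add,
          smul_smul, sub_zero]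
      · rw [Function.update_of_ne hli, Function.update_of_ne hlj, if_neg hli, if_neg hlj, sub_zero,
          add_zero]
  rw [Finset.sum_congr rfl fun l _ => key l, Finset.sum_add_distrib, Finset.sum_sub_distrib,
    Finset.sum_ite_eq', Finset.sum_ite_eq']
  simp

theorem Gdc_sum_neg {K : Type} [CommRing K] {A : Type} [NonUnitalRing A] [Module K A] {g : ℕ}
    (j : Fin g) (c : Fin g → K) (x : Fin g → A) :
    ∑ l, Function.update c j (-(c j)) l • Function.update x j (-(x j)) l = ∑ l, c l • x l := by
  refine Finset.sum_congr rfl fun l _ => ?_
  by_cases hlj : l = j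
  · subst hlj
    rw [Function.update_self, Function.update_self, neg_smul_neg]
  · rw [Function.update_of_ne hlj, Function.update_of_ne hlj]

theorem thm_Gdc : St_Gdc := by
  intro K _ A _ _ _ _ M H hK g
  refine ⟨?_, ?_, ?_⟩
  · exact ⟨fun _ => H.zero_mem, fun _ _ _ => rfl, fun _ _ _ _ _ => rfl⟩
  · intro f f' hf hf'
    refine ⟨⟨fun x => H.add_mem (hf.val x) (hf'.val x), fun x y hxy => ?_, fun x c j hj hx => ?_⟩,
      ⟨fun x => H.sub_mem (hf.val x) (hf'.val x), fun x y hxy => ?_, fun x c j hj hx => ?_⟩⟩
    · show f x + f' x = f y + f' y
      rw [hf.inv x y hxy, hf'.inv x y hxy]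
    · show f x + f' x = 0
      rw [hf.dep x c j hj hx, hf'.dep x c j hj hx, add_zero]
    · show f x - f' x = f y - f' y
      rw [hf.inv x y hxy, hf'.inv x y hxy]
    · show f x - f' x = 0
      rw [hf.dep x c j hj hx, hf'.dep x c j hj hx, sub_zero]
  · intro f hf
    refine ⟨?_, ?_, ?_, ?_, ?_⟩
    · intro c
      refine ⟨fun x => hK.hK c _ (hf.val x), fun x y hxy => ?_, fun x d j hj hx => ?_⟩
      · show c • f x = c • f y
        rw [hf.inv x y hxy]
      · show c • f x = 0
        rw [hf.dep x d j hj hx, smul_zero]
    · intro i j a hij
      refine ⟨fun x => hf.val _, fun x y hxy => ?_, fun x c s hs hx => ?_⟩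
      · refine hf.inv _ _ fun l => ?_
        by_cases hlj : l = j
        · subst hlj
          rw [Function.update_self, Function.update_self]
          have : x l + a • x i - (y l + a • y i) = (x l - y l) + a • (x i - y i) := by
            rw [smul_sub]; abel
          rw [this]
          exact M.add_mem (hxy l) (hK.mK a _ (hxy i))
        · rw [Function.update_of_ne hlj, Function.update_of_ne hlj]
          exact hxy l
      · have hsum := Gdc_sum_update i j hij a c x
        have hM : ∑ l, Function.update c i (c i - a * c j) l •
            Function.update x j (x j + a • x i) l ∈ M := by rw [hsum]; exact hx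
        by_cases hsi : s = i
        · subst hsi
          rcases hK.fld (c j) with h0 | h1
          · refine hf.dep _ _ s ?_ hM
            rw [Function.update_self]
            obtain ⟨d, hd⟩ := hs
            refine ⟨d, fun x => ?_⟩
            obtain ⟨y, hy⟩ := hd x
            obtain ⟨y', hy'⟩ := h0 x
            refine ⟨y - (d * a) • y', ?_⟩
            have e1 : d • (c s - a * c j) • x - x = (d • c s • x - x) - (d * a) • (c j • x) := by
              rw [sub_smul, smul_sub, smul_smul d (a * c j), smul_smul (d * a), mul_assoc]
              abel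
            rw [e1, hy, hy', smul_sub, smul_comm (d * a) 3 y']
          · refine hf.dep _ _ j ?_ hM
            rw [Function.update_of_ne (Ne.symm hij)]
            exact h1
        · refine hf.dep _ _ s ?_ hM
          rw [Function.update_of_ne hsi]
          exact hs
    · intro j
      refine ⟨fun x => hf.val _, fun x y hxy => ?_, fun x c s hs hx => ?_⟩
      · refine hf.inv _ _ fun l => ?_
        by_cases hlj : l = j
        · subst hlj
          rw [Function.update_self, Function.update_self]
          have : -(x l) - -(y l) = -(x l - y l) := by abel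
          rw [this]
          exact M.neg_mem (hxy l)
        · rw [Function.update_of_ne hlj, Function.update_of_ne hlj]
          exact hxy l
      · refine hf.dep _ (Function.update c j (-(c j))) s ?_ (by rw [Gdc_sum_neg]; exact hx)
        by_cases hsj : s = j
        · subst hsj
          rw [Function.update_self]
          obtain ⟨d, hd⟩ := hs
          refine ⟨-d, fun x => ?_⟩
          obtain ⟨y, hy⟩ := hd x
          refine ⟨y, ?_⟩
          rw [← hy, neg_smul, neg_smul, smul_neg, neg_neg]
        · rw [Function.update_of_ne hsj]
          exact hs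
    · intro σ
      refine ⟨fun x => hf.val _, fun x y hxy => ?_, fun x c s hs hx => ?_⟩
      · exact hf.inv _ _ fun l => hxy (σ l)
      · refine hf.dep _ (fun l => c (σ l)) (σ.symm s) ?_ ?_
        · show Ku K A 3 (c (σ (σ.symm s)))
          rw [Equiv.apply_symm_apply]
          exact hs
        · show ∑ l, c (σ l) • x (σ l) ∈ M
          rw [Equiv.sum_comp σ (fun l => c l • x l)]
          exact hx
    · intro k h hh
      obtain ⟨r, hr⟩ := hK.pr
      have hcop : Nat.Coprime (2 ^ k) (3 ^ r) := Nat.Coprime.pow _ _ (by norm_num)
      obtain ⟨u, hu⟩ := Nat.exists_mul_mod_eq_of_coprime 1 hcop (pow_ne_zero _ (by norm_num))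
      have key : ∀ x, h x = u • f x := by
        intro x
        rw [hh x, smul_smul]
        have h2 := Nat.div_add_mod (u * 2 ^ k) (3 ^ r)
        have h3 := Nat.div_add_mod 1 (3 ^ r)
        have e1 : (1 : ℕ) • h x = (1 % 3 ^ r) • h x := by
          conv_lhs => rw [← h3]
          rw [add_smul, mul_smul, hr, zero_add]
        have e2 : (u * 2 ^ k) • h x = (1 % 3 ^ r) • h x := by
          conv_lhs => rw [← h2]
          rw [add_smul, mul_smul, hr, zero_add, mul_comm u, hu.2]
        rw [e2, ← e1, one_smul]
      have hfun : h = fun x => u • f x := funext key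
      rw [hfun]
      refine ⟨fun x => H.nsmul_mem (hf.val x) u, fun x y hxy => ?_, fun x c j hj hx => ?_⟩
      · show u • f x = u • f y
        rw [hf.inv x y hxy]
      · show u • f x = 0
        rw [hf.dep x c j hj hx, smul_zero]

end Pool.Agent.CRS
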