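import Pool.Agent.CRS.StH

/-!
Campaign CRS, module Hmn: a list of minimal length is homogeneous (`thm_Hmn : St_Hmn`, from `St_Qfo`, `St_Gdc`, `St_Par`,
`St_Sep`, `St_Top`).

A list `L` of words in which every letter occurs once, twice or three times and with `Good (Lv L)` is taken of minimal length.  A
property `P` of words such that the words of `L` with the property `P` form a list with `Gd` is constant on `L` (`Hmn_const`).  This
applies to the parity of the number of the occurrences of a letter (`St_Par`), to the properties of `St_Sep`, and to the property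
that all letters occur three times (`St_Top`; for one letter the word is `x x x = 0`).
-/

set_option autoImplicit false

namespace Pool.Agent.CRS

open Pool.Agent.CRR Pool.Agent.CRN Pool.Agent.CRK Pool.Agent.CRL Pool.Agent.CRM Pool.Agent.CRP
open Pool.Agent.CRQ

section Hmn_sec

variable {K : Type} [CommRing K] {A : Type} [NonUnitalRing A] [Module K A]

/-- A list of words in which every letter occurs once, twice or three times, and whose value is good. -/
def Hmn_Adm (K : Type) [CommRing K] {A : Type} [NonUnitalRing A] [Module K A]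
    (M H : AddSubgroup A) (g : ℕ) (L : List (K × List (Fin g))) : Prop :=
  (∀ q ∈ L, ∀ i, q.2.count i = 1 ∨ q.2.count i = 2 ∨ q.2.count i = 3) ∧
    Good K 3 M H g (Lv L : (Fin g → A) → A)

/-- A word whose letters are less than `g` comes from a word in `Fin g`. -/
theorem Hmn_lift {g : ℕ} : ∀ w : List ℕ, (∀ i ∈ w, i < g) → ∃ v : List (Fin g), v.map Fin.val = w
  | [], _ => ⟨[], rfl⟩
  | a :: w, h => by
    obtain ⟨v, hv⟩ := Hmn_lift w (fun i hi => h i (List.mem_cons_of_mem _ hi))
    exact ⟨⟨a, h a (List.mem_cons_self)⟩ :: v, by simp [hv]⟩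

/-- The words of a word function, without those in which a letter occurs four times. -/
theorem Hmn_conv (hQ : St_Qfo) (hc : ∀ x : A, x * x * x = 0) (g : ℕ) :
    ∀ L₀ : List (K × List ℕ), (∀ q ∈ L₀, ∀ i, i ∈ q.2 ↔ i < g) →
    ∃ L : List (K × List (Fin g)),
      (∀ q ∈ L, ∀ i, q.2.count i = 1 ∨ q.2.count i = 2 ∨ q.2.count i = 3) ∧
      ∀ x : Fin g → A, (L₀.map fun q => q.1 • wp (q.2.map (xs x))).sum = Lv L x
  | [], _ => ⟨[], by simp, fun x => by simp [Lv]⟩
  | q :: L₀, h => by
    obtain ⟨L, hL1, hL2⟩ := Hmn_conv hQ hc g L₀ (fun q' hq' => h q' (List.mem_cons_of_mem _ hq'))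
    have hq := h q (List.mem_cons_self)
    obtain ⟨v, hv⟩ := Hmn_lift (g := g) q.2 (fun i hi => (hq i).1 hi)
    have hmap : ∀ x : Fin g → A, q.2.map (xs x) = v.map x := by
      intro x
      rw [← hv, List.map_map]
      apply List.map_congr_left
      intro i _
      simp [xs]
    have hpos : ∀ i : Fin g, 0 < v.count i := by
      intro i
      rw [List.count_pos_iff]
      have h1 : i.val ∈ q.2 := (hq i.val).2 i.isLt
      rw [← hv, List.mem_map] at h1
      obtain ⟨j, hj, hji⟩ := h1
      rwa [← Fin.ext hji]
    by_cases h4 : ∃ i : Fin g, 4 ≤ v.count i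
    · obtain ⟨i, hi⟩ := h4
      refine ⟨L, hL1, fun x => ?_⟩
      rw [List.map_cons, List.sum_cons, hL2 x, hmap x, (hQ A hc g x v i).1 hi, smul_zero, zero_add]
    · refine ⟨(q.1, v) :: L, ?_, fun x => ?_⟩
      · intro q' hq' i
        rcases List.mem_cons.1 hq' with h1 | h1
        · subst h1
          have h2 := hpos i
          have h3 : ¬ 4 ≤ v.count i := fun h => h4 ⟨i, h⟩
          show v.count i = 1 ∨ v.count i = 2 ∨ v.count i = 3
          omega
        · exact hL1 q' h1 i
      · rw [List.map_cons, List.sum_cons, hL2 x, hmap x]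
        simp [Lv]

/-- There is an admissible list of minimal length. -/
theorem Hmn_min (hQ : St_Qfo) {M H : AddSubgroup A} {g : ℕ} {f : (Fin g → A) → A}
    (hK : Kst K 3 M H) (hW : Wf K g f) (hf : Good K 3 M H g f) :
    ∃ L : List (K × List (Fin g)), Hmn_Adm K (A := A) M H g L ∧
      ∀ L' : List (K × List (Fin g)), Hmn_Adm K (A := A) M H g L' → L.length ≤ L'.length := by
  classical
  obtain ⟨L₀, h1, h2⟩ := hW
  obtain ⟨L, hL1, hL2⟩ := Hmn_conv (K := K) hQ hK.cube g L₀ (fun q hq => (h1 q hq).2)
  have hfL : f = (Lv L : (Fin g → A) → A) := by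
    funext x
    rw [h2 x, hL2 x]
  have hex : ∃ n : ℕ, ∃ L : List (K × List (Fin g)), Hmn_Adm K (A := A) M H g L ∧ L.length = n :=
    ⟨_, L, ⟨hL1, hfL ▸ hf⟩, rfl⟩
  obtain ⟨L', hA, hl⟩ := Nat.find_spec hex
  refine ⟨L', hA, fun L'' hA'' => ?_⟩
  rw [hl]
  exact Nat.find_min' hex ⟨L'', hA'', rfl⟩

/-- A separating property is constant on an admissible list of minimal length. -/
theorem Hmn_const [IsScalarTower K A A] [SMulCommClass K A A] (hG : St_Gdc) (hP : St_Par)
    {M H : AddSubgroup A} {g : ℕ} (hK : Kst K 3 M H) {L : List (K × List (Fin g))}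
    (hA : Hmn_Adm K (A := A) M H g L)
    (hmin : ∀ L' : List (K × List (Fin g)), Hmn_Adm K (A := A) M H g L' → L.length ≤ L'.length)
    (P : K × List (Fin g) → Bool)
    (hS : Gd K 3 M H g (Lv (L.filter P) : (Fin g → A) → A)) :
    (∀ q ∈ L, P q = true) ∨ ∀ q ∈ L, P q = false := by
  have key : ∀ Q : K × List (Fin g) → Bool,
      Gd K 3 M H g (Lv (L.filter Q) : (Fin g → A) → A) →
      (∃ x : Fin g → A, Lv (L.filter Q) x ≠ 0) → ∀ q ∈ L, Q q = true := by
    intro Q hQ hne
    have h1 : Hmn_Adm K (A := A) M H g (L.filter Q) :=
      ⟨fun q hq => hA.1 q (List.mem_of_mem_filter hq), ⟨hQ.val, hQ.inv, hQ.dep, hne⟩⟩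
    have h2 := hmin _ h1
    have h3 : (L.filter Q).length = L.length := le_antisymm (List.length_filter_le _ _) h2
    exact List.length_filter_eq_length_iff.1 h3
  have hadd := (hP K A M H hK g L).1 P
  have hgL : Gd K 3 M H g (Lv L : (Fin g → A) → A) := ⟨hA.2.val, hA.2.inv, hA.2.dep⟩
  have hneg : Gd K 3 M H g (Lv (L.filter fun q => !P q) : (Fin g → A) → A) := by
    have h1 := ((hG K A M H hK g).2.1 _ _ hgL hS).2
    have h2 : (fun x : Fin g → A => Lv L x - Lv (L.filter P) x) =
        (Lv (L.filter fun q => !P q) : (Fin g → A) → A) := by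
      funext x
      rw [hadd x]
      abel
    rwa [h2] at h1
  obtain ⟨x, hx⟩ := hA.2.ne
  by_cases h0 : Lv (L.filter P) x = 0
  · right
    have h1 : Lv (L.filter fun q => !P q) x ≠ 0 := by
      intro h2
      apply hx
      rw [hadd x, h0, h2, add_zero]
    intro q hq
    have h3 := key (fun q => !P q) hneg ⟨x, h1⟩ q hq
    simpa using h3
  · left
    exact key P hS ⟨x, h0⟩

/-- A word in one letter which occurs three times. -/
theorem Hmn_one (hc : ∀ x : A, x * x * x = 0) (w : List (Fin 1)) (hw : w.count 0 = 3)
    (x : Fin 1 → A) : wp (w.map x) = 0 := by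
  have h1 : w = List.replicate (w.count 0) 0 := by
    have h2 : w = List.replicate w.length 0 :=
      List.eq_replicate_iff.2 ⟨rfl, fun b _ => Subsingleton.elim _ _⟩
    have h3 : w.count 0 = w.length := by
      rw [h2]
      simp
    rw [h3]
    exact h2
  rw [h1, hw]
  show x 0 * (x 0 * x 0) = 0
  rw [← mul_assoc]
  exact hc _

end Hmn_sec

theorem thm_Hmn (hQ : St_Qfo) (hG : St_Gdc) (hP : St_Par) (hS : St_Sep) (hT : St_Top) : St_Hmn := by
  intro K _ A _ _ _ _ M H g f hK hTp hW hGf
  obtain ⟨L, hA, hmin⟩ := Hmn_min (K := K) hQ hK hW hGf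
  have hcon := fun P hS => Hmn_const hG hP hK hA hmin P hS
  have hgL : Gd K 3 M H g (Lv L : (Fin g → A) → A) := ⟨hA.2.val, hA.2.inv, hA.2.dep⟩
  have hc := hA.1
  -- the parity
  have hpar : ∀ j : Fin g, (∀ q ∈ L, q.2.count j = 1 ∨ q.2.count j = 3) ∨
      ∀ q ∈ L, q.2.count j = 2 := by
    intro j
    rcases hcon _ ((hP K A M H hK g L).2 hgL j) with h | h
    · left
      intro q hq
      have h1 : Odd (q.2.count j) := by simpa using h q hq
      rcases hc q hq j with h2 | h2 | h2
      · exact Or.inl h2
      · rw [h2] at h1
        exact absurd h1 (by decide)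
      · exact Or.inr h2
    · right
      intro q hq
      have h1 : ¬ Odd (q.2.count j) := by simpa using h q hq
      rcases hc q hq j with h2 | h2 | h2
      · rw [h2] at h1
        exact absurd (by decide) h1
      · exact h2
      · rw [h2] at h1
        exact absurd (by decide) h1
  -- all numbers are constant
  have hall : ∀ q ∈ L, ∀ q' ∈ L, ∀ j, q.2.count j = q'.2.count j := by
    by_cases hev : ∃ i : Fin g, ∀ q ∈ L, q.2.count i = 2
    · obtain ⟨i, hi⟩ := hev
      intro q hq q' hq' j
      rcases hpar j with hj | hj
      · have hij : i ≠ j := by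
          intro h
          subst h
          have h1 := hi q hq
          have h2 := hj q hq
          omega
        rcases hcon _ ((hS K A M H hK g L i j hij hgL hj).1 hi) with h | h
        · have h1 : q.2.count j = 3 := by simpa using h q hq
          have h2 : q'.2.count j = 3 := by simpa using h q' hq'
          rw [h1, h2]
        · have h1 : q.2.count j ≠ 3 := by simpa using h q hq
          have h2 : q'.2.count j ≠ 3 := by simpa using h q' hq'
          have h3 := hj q hq
          have h4 := hj q' hq'
          omega
      · rw [hj q hq, hj q' hq']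
    · have hodd : ∀ j : Fin g, ∀ q ∈ L, q.2.count j = 1 ∨ q.2.count j = 3 := by
        intro j
        rcases hpar j with hj | hj
        · exact hj
        · exact absurd ⟨j, hj⟩ hev
      have hsep : ∀ i j : Fin g, i ≠ j → (∀ q ∈ L, q.2.count j = 3 ∧ q.2.count i = 1) ∨
          ∀ q ∈ L, ¬ (q.2.count j = 3 ∧ q.2.count i = 1) := by
        intro i j hij
        rcases hcon _ ((hS K A M H hK g L i j hij hgL (hodd j)).2 (hodd i)) with h | h
        · left
          intro q hq
          exact of_decide_eq_true (h q hq)
        · right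
          intro q hq
          exact of_decide_eq_false (h q hq)
      by_cases hmix : ∃ q ∈ L, ∃ i j : Fin g, q.2.count j = 3 ∧ q.2.count i = 1
      · obtain ⟨q₀, hq₀, i, j, h3, h1⟩ := hmix
        have hij : i ≠ j := by
          intro h
          subst h
          omega
        have hi : ∀ q ∈ L, q.2.count i = 1 := by
          rcases hsep i j hij with h | h
          · exact fun q hq => (h q hq).2
          · exact absurd ⟨h3, h1⟩ (h q₀ hq₀)
        intro q hq q' hq' k
        by_cases hki : k = i
        · subst hki
          rw [hi q hq, hi q' hq']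
        · rcases hsep i k (fun h => hki h.symm) with h | h
          · rw [(h q hq).1, (h q' hq').1]
          · have h5 : q.2.count k ≠ 3 := fun h6 => h q hq ⟨h6, hi q hq⟩
            have h7 : q'.2.count k ≠ 3 := fun h6 => h q' hq' ⟨h6, hi q' hq'⟩
            have h8 := hodd k q hq
            have h9 := hodd k q' hq'
            omega
      · have hpure : ∀ q ∈ L, ∀ i j : Fin g, q.2.count i = q.2.count j := by
          intro q hq i j
          have h1 := hodd i q hq
          have h2 := hodd j q hq
          have h3 : ¬ (q.2.count j = 3 ∧ q.2.count i = 1) := fun h => hmix ⟨q, hq, i, j, h⟩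
          have h4 : ¬ (q.2.count i = 3 ∧ q.2.count j = 1) := fun h => hmix ⟨q, hq, j, i, h⟩
          omega
        have hGd : Gd K 3 M H g
            (Lv (L.filter fun q => decide (∀ i, q.2.count i = 3)) : (Fin g → A) → A) := by
          rcases Nat.lt_or_ge g 2 with hg | hg
          · have hz : ((Lv (L.filter fun q => decide (∀ i, q.2.count i = 3)) :
                (Fin g → A) → A) = fun _ => (0 : A)) ∨ g = 0 := by
              by_cases hg0 : g = 0
              · exact Or.inr hg0
              · left
                have hg1 : g = 1 := by omega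
                subst hg1
                funext x
                unfold Lv
                apply List.sum_eq_zero
                intro y hy
                rw [List.mem_map] at hy
                obtain ⟨q, hq, rfl⟩ := hy
                have h0 := (List.mem_filter.1 hq).2
                have h1 : ∀ i, q.2.count i = 3 := of_decide_eq_true h0
                show q.1 • wp (q.2.map x) = 0
                rw [Hmn_one hK.cube q.2 (h1 0) x, smul_zero]
            rcases hz with hz | hz
            · rw [hz]
              exact (hG K A M H hK g).1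
            · subst hz
              have h1 : (L.filter fun q => decide (∀ i, q.2.count i = 3)) = L := by
                apply List.filter_eq_self.2
                intro q _
                apply decide_eq_true
                intro i
                exact i.elim0
              rw [h1]
              exact hgL
          · refine hT K A M H hK g hg hTp L hgL (fun q hq => ?_)
            rcases hodd ⟨0, by omega⟩ q hq with h | h
            · exact Or.inl fun i => by rw [hpure q hq i ⟨0, by omega⟩, h]
            · exact Or.inr fun i => by rw [hpure q hq i ⟨0, by omega⟩, h]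
        intro q hq q' hq' j
        rcases hcon _ hGd with h | h
        · have h1 : ∀ i, q.2.count i = 3 := of_decide_eq_true (h q hq)
          have h2 : ∀ i, q'.2.count i = 3 := of_decide_eq_true (h q' hq')
          rw [h1, h2]
        · have h1 : ¬ ∀ i, q.2.count i = 3 := of_decide_eq_false (h q hq)
          have h2 : ¬ ∀ i, q'.2.count i = 3 := of_decide_eq_false (h q' hq')
          have h3 : q.2.count j ≠ 3 := fun h4 => h1 fun i => by rw [hpure q hq i j, h4]
          have h5 : q'.2.count j ≠ 3 := fun h4 => h2 fun i => by rw [hpure q' hq' i j, h4]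
          have h8 := hodd j q hq
          have h9 := hodd j q' hq'
          omega
  -- the conclusion
  have hne : L ≠ [] := by
    intro h
    obtain ⟨x, hx⟩ := hA.2.ne
    apply hx
    rw [h]
    simp [Lv]
  obtain ⟨q₀, hq₀⟩ := List.exists_mem_of_ne_nil L hne
  exact ⟨L, fun i => q₀.2.count i, fun q hq i => hall q hq q₀ hq₀ i, fun i => hc q₀ hq₀ i, hA.2⟩

end Pool.Agent.CRS
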