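import Pool.Agent.CRS.StH

/-!
Campaign CRS, module Hmx: maximal number of letters with three occurrences (helper26).
-/

set_option autoImplicit false

namespace Pool.Agent.CRS

open Pool.Agent.CRR Pool.Agent.CRN Pool.Agent.CRK Pool.Agent.CRL Pool.Agent.CRM Pool.Agent.CRP
open Pool.Agent.CRQ

section hmx

variable {K : Type} [CommRing K] {A : Type} [NonUnitalRing A] [Module K A]

/-- The list of the words in which one `j` is replaced by `i`. -/
def Hmx_L {g : ℕ} (j i : Fin g) (L : List (K × List (Fin g))) : List (K × List (Fin g)) :=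
  L.flatMap fun q => (dw j i q.2).map fun v => (q.1, v)

theorem Hmx_nil {ι : Type} (x : ι → A) : Lv ([] : List (K × List ι)) x = 0 := rfl

theorem Hmx_cons {ι : Type} (q : K × List ι) (L : List (K × List ι)) (x : ι → A) :
    Lv (q :: L) x = q.1 • wp (q.2.map x) + Lv L x := by
  unfold Lv
  rw [List.map_cons, List.sum_cons]

theorem Hmx_app {ι : Type} (L L' : List (K × List ι)) (x : ι → A) :
    Lv (L ++ L') x = Lv L x + Lv L' x := by
  unfold Lv
  rw [List.map_append, List.sum_append]

theorem Hmx_one {ι : Type} (c : K) (l : List (List ι)) (x : ι → A) :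
    Lv (l.map fun v => (c, v)) x = c • (l.map fun v => wp (v.map x)).sum := by
  induction l with
  | nil => rw [List.map_nil, Hmx_nil, List.map_nil, List.sum_nil, smul_zero]
  | cons v l ih => rw [List.map_cons, Hmx_cons, ih, List.map_cons, List.sum_cons, smul_add]

theorem Hmx_lv {g : ℕ} (j i : Fin g) (L : List (K × List (Fin g))) (x y : Fin g → A)
    (h : ∀ q ∈ L, wp (q.2.map y) = wp (q.2.map x) + Dd j i (fun v => wp (v.map x)) q.2) :
    Lv L y - Lv L x = Lv (Hmx_L j i L) x := by
  induction L with
  | nil =>
    show (0 : A) - 0 = 0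
    rw [sub_zero]
  | cons q L ih =>
    have h1 : Hmx_L j i (q :: L) = ((dw j i q.2).map fun v => (q.1, v)) ++ Hmx_L j i L := by
      unfold Hmx_L
      rw [List.flatMap_cons]
    rw [h1, Hmx_app, ← ih (fun q' hq' => h q' (List.mem_cons_of_mem _ hq')), Hmx_one,
      Hmx_cons, Hmx_cons, h q List.mem_cons_self, smul_add]
    unfold Dd
    abel

end hmx

/-- **HMX.** -/
theorem thm_Hmx (hQ : St_Qfo) (hW : St_Dwx) (hE : St_Exl) (hG : St_Gdc) : St_Hmx := by
  intro K _ A _ _ _ _ M H g hK h0
  obtain ⟨L, D, hL⟩ := h0
  obtain ⟨n, hn⟩ : ∃ n, n = g - (Finset.univ.filter fun l => D l = 3).card := ⟨_, rfl⟩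
  induction n using Nat.strong_induction_on generalizing L D with
  | _ n ih =>
    by_cases hall : ∀ i j, i ≠ j → D i = 2 → D j = 2 → ∀ x : Fin g → A,
        Lv L (Function.update x j (x j + x i)) = Lv L x
    · exact ⟨L, D, hL, hall⟩
    push Not at hall
    obtain ⟨i, j, hij, hi, hj, x, hx⟩ := hall
    have hG3 := hG K A M H hK g
    have hgd : Gd K 3 M H g (Lv L : (Fin g → A) → A) := ⟨hL.good.val, hL.good.inv, hL.good.dep⟩
    have hgd1 := (hG3.2.2 _ hgd).2.1 i j 1 hij
    have hgd2 := (hG3.2.1 _ _ hgd1 hgd).2
    have hfun : (fun x : Fin g → A => Lv L (Function.update x j (x j + (1 : K) • x i)) - Lv L x) =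
        Lv (Hmx_L j i L) := by
      funext y
      rw [one_smul]
      apply Hmx_lv
      intro q hq
      have h1 := ((hE K A (Fin g) y q.2 j).2.2.2 i hij).2.2 (by rw [hL.cnt q hq j, hj])
      have h2 := ((hQ A hK.cube g y q.2 j).2 i hij).1 (by
        rw [hL.cnt q hq j, hL.cnt q hq i, hi, hj])
      rw [h1, h2, add_zero]
    have hgd3 : Gd K 3 M H g (Lv (Hmx_L j i L) : (Fin g → A) → A) := by
      rw [← hfun]
      exact hgd2
    obtain ⟨D', hD'⟩ : ∃ D' : Fin g → ℕ, D' = Function.update (Function.update D i 3) j 1 :=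
      ⟨_, rfl⟩
    have hDj : D' j = 1 := by rw [hD', Function.update_self]
    have hDi : D' i = 3 := by rw [hD', Function.update_of_ne hij, Function.update_self]
    have hDl : ∀ l, l ≠ i → l ≠ j → D' l = D l := fun l h1 h2 => by
      rw [hD', Function.update_of_ne h2, Function.update_of_ne h1]
    have hL' : HomG K (A := A) M H g (Hmx_L j i L) D' := by
      refine ⟨?_, ?_, ⟨hgd3.val, hgd3.inv, hgd3.dep, ⟨x, ?_⟩⟩⟩
      · intro q hq l
        unfold Hmx_L at hq
        obtain ⟨q0, hq0, hq1⟩ := List.mem_flatMap.1 hq
        obtain ⟨v, hv, rfl⟩ := List.mem_map.1 hq1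
        obtain ⟨_, c1, c2, c3⟩ := (hW (Fin g) i j hij q0.2).1 v hv
        show v.count l = D' l
        by_cases h1 : l = i
        · subst h1
          rw [hDi, c2, hL.cnt q0 hq0, hi]
        · by_cases h2 : l = j
          · subst h2
            rw [hL.cnt q0 hq0, hj] at c1
            rw [hDj]
            omega
          · rw [c3 l h1 h2, hDl l h1 h2, hL.cnt q0 hq0]
      · intro l
        by_cases h1 : l = i
        · subst h1
          exact Or.inr (Or.inr hDi)
        · by_cases h2 : l = j
          · subst h2
            exact Or.inl hDj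
          · rw [hDl l h1 h2]
            exact hL.D3 l
      · have h1 := congrFun hfun x
        rw [← h1]
        show Lv L (Function.update x j (x j + (1 : K) • x i)) - Lv L x ≠ 0
        rw [one_smul]
        exact sub_ne_zero.2 hx
    have hcard : (Finset.univ.filter fun l => D' l = 3).card =
        (Finset.univ.filter fun l => D l = 3).card + 1 := by
      have h1 : (Finset.univ.filter fun l => D' l = 3) =
          insert i (Finset.univ.filter fun l => D l = 3) := by
        ext l
        rw [Finset.mem_insert, Finset.mem_filter, Finset.mem_filter]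
        by_cases h1 : l = i
        · subst h1
          simp [hDi]
        · by_cases h2 : l = j
          · subst h2
            simp [hDj, hj, h1]
          · simp [hDl l h1 h2, h1]
      rw [h1, Finset.card_insert_of_notMem]
      rw [Finset.mem_filter, hi]
      rintro ⟨_, h⟩
      exact absurd h (by decide)
    have hle : (Finset.univ.filter fun l => D' l = 3).card ≤ g := by
      refine (Finset.card_le_univ _).trans ?_
      rw [Fintype.card_fin]
    exact ih (g - (Finset.univ.filter fun l => D' l = 3).card) (by omega) _ D' hL' rfl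

end Pool.Agent.CRS
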