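import Pool.Agent.CRS.StH

/-!
Campaign CRS, module Hom: sorting the letters (Helper74).
-/

set_option autoImplicit false

namespace Pool.Agent.CRS

open Pool.Agent.CRR Pool.Agent.CRN Pool.Agent.CRK Pool.Agent.CRL Pool.Agent.CRM Pool.Agent.CRP
open Pool.Agent.CRQ

theorem Hom_cut (g : ℕ) (m : Fin g → ℕ) (hm : Monotone m) (t : ℕ) :
    ∃ k, k ≤ g ∧ ∀ i : Fin g, m i < t ↔ i.val < k := by
  classical
  have hex : ∃ n, n = g ∨ ∃ h : n < g, t ≤ m ⟨n, h⟩ := ⟨g, Or.inl rfl⟩
  refine ⟨Nat.find hex, Nat.find_min' hex (Or.inl rfl), ?_⟩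
  intro i
  constructor
  · intro hi
    by_contra hc
    rw [not_lt] at hc
    rcases Nat.find_spec hex with h | ⟨h, h1⟩
    · omega
    · have h2 : (⟨Nat.find hex, h⟩ : Fin g) ≤ i := hc
      have h3 := hm h2
      omega
  · intro hi
    have h1 := Nat.find_min hex hi
    by_contra hc
    exact h1 (Or.inr ⟨i.2, by simpa using hc⟩)

theorem Hom_sort (g : ℕ) (D : Fin g → ℕ) (hD : ∀ i, D i = 1 ∨ D i = 2 ∨ D i = 3) :
    ∃ (σ : Equiv.Perm (Fin g)) (a b c : ℕ), a + b + c = g ∧ ∀ i : Fin g, D (σ i) = Dg a b c i := by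
  obtain ⟨m, hm⟩ : ∃ m : Fin g → ℕ, m = fun i => 3 - D i := ⟨_, rfl⟩
  have hmon := Tuple.monotone_sort m
  obtain ⟨a, ha, ha1⟩ := Hom_cut g (m ∘ Tuple.sort m) hmon 1
  obtain ⟨k, hk, hk1⟩ := Hom_cut g (m ∘ Tuple.sort m) hmon 2
  have hak : a ≤ k := by
    by_contra hc
    rw [not_le] at hc
    have h1 := (ha1 ⟨k, by omega⟩).2 hc
    have h2 := (hk1 ⟨k, by omega⟩).1 (by omega)
    exact absurd h2 (lt_irrefl _)
  refine ⟨Tuple.sort m, a, k - a, g - k, by omega, ?_⟩
  intro i
  have h1 := ha1 i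
  have h2 := hk1 i
  have h3 : (m ∘ Tuple.sort m) i = 3 - D (Tuple.sort m i) := by
    rw [hm]
    rfl
  rw [h3] at h1 h2
  have h4 := hD (Tuple.sort m i)
  have h5 := i.2
  unfold Dg
  split_ifs with c1 c2 c3
  · have := h1.2 c1
    omega
  · have := h2.2 (by omega)
    have : ¬ (3 - D (Tuple.sort m i) < 1) := fun h => c1 (h1.1 h)
    omega
  · have : ¬ (3 - D (Tuple.sort m i) < 2) := fun h => by
      have := h2.1 h
      omega
    omega
  · omega

theorem Hom_swap {g : ℕ} {B : Type} (x : Fin g → B) (σ : Equiv.Perm (Fin g)) (i j l : Fin g) :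
    x (σ.symm (Equiv.swap (σ i) (σ j) l)) = x (Equiv.swap i j (σ.symm l)) := by
  congr 1
  by_cases h1 : l = σ i
  · subst h1
    simp
  · by_cases h2 : l = σ j
    · subst h2
      simp
    · rw [Equiv.swap_apply_of_ne_of_ne h1 h2, Equiv.swap_apply_of_ne_of_ne]
      · intro h
        exact h1 (by rw [← h, Equiv.apply_symm_apply])
      · intro h
        exact h2 (by rw [← h, Equiv.apply_symm_apply])

theorem thm_Hom (h1 : St_Hmn) (h2 : St_Hmx) (h3 : St_Hsw) (h4 : St_Gdc) : St_Hom := by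
  intro K _ A _ _ _ _ M H g f hK hT hW hG
  obtain ⟨L, D, hL, hinv⟩ := h2 K A M H g hK (h1 K A M H g f hK hT hW hG)
  obtain ⟨σ, a, b, c, habc, hσ⟩ := Hom_sort g D hL.D3
  obtain ⟨φ, hφ⟩ : ∃ φ : Fin g → ℕ, φ = fun i => ((σ.symm i : Fin g) : ℕ) := ⟨_, rfl⟩
  have hφi : Function.Injective φ := by
    intro i j hij
    rw [hφ] at hij
    exact σ.symm.injective (Fin.ext hij)
  have hval : ∀ x : Fin g → A, Lv (L.map fun q => (q.1, q.2.map φ)) (xs x) =
      Lv L (fun i => x (σ.symm i)) := by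
    intro x
    unfold Lv
    rw [List.map_map]
    congr 1
    apply List.map_congr_left
    intro q _
    show q.1 • wp ((q.2.map φ).map (xs x)) = q.1 • wp (q.2.map fun i => x (σ.symm i))
    rw [List.map_map]
    congr 3
    funext i
    show xs x (φ i) = x (σ.symm i)
    rw [hφ]
    unfold xs
    rw [dif_pos (σ.symm i).2]
  have hGd : Gd K 3 M H g (Lv L : (Fin g → A) → A) :=
    ⟨hL.good.val, hL.good.inv, hL.good.dep⟩
  have hGd' := ((h4 K A M H hK g).2.2 (Lv L) hGd).2.2.2.1 σ.symm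
  refine ⟨a, b, c, L.map fun q => (q.1, q.2.map φ), habc, ?_, ?_, ?_, ?_⟩
  · intro q hq i
    rw [List.mem_map] at hq
    obtain ⟨q, hq, rfl⟩ := hq
    show (q.2.map φ).count i = _
    by_cases hi : i < g
    · have e : i = φ (σ ⟨i, hi⟩) := by
        rw [hφ]
        simp
      have h5 : (q.2.map φ).count (φ (σ ⟨i, hi⟩)) = q.2.count (σ ⟨i, hi⟩) :=
        List.count_map_of_injective q.2 φ hφi _
      rw [← e] at h5
      rw [h5, hL.cnt q hq, hσ]
    · have h5 : Dg a b c i = 0 := by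
        unfold Dg
        rw [if_neg (by omega), if_neg (by omega), if_neg (by omega)]
      rw [h5, List.count_eq_zero]
      intro hm
      rw [List.mem_map] at hm
      obtain ⟨j, _, hj⟩ := hm
      rw [hφ] at hj
      apply hi
      rw [← hj]
      exact (σ.symm j).2
  · have e : (fun x : Fin g → A => Lv (L.map fun q => (q.1, q.2.map φ)) (xs x)) =
        fun x => Lv L (fun i => x (σ.symm i)) := funext hval
    rw [e]
    refine ⟨hGd'.val, hGd'.inv, hGd'.dep, ?_⟩
    obtain ⟨x, hx⟩ := hL.good.ne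
    refine ⟨fun i => x (σ i), ?_⟩
    simpa using hx
  · intro i j hij hi1 hi2 hj1 hj2 x
    rw [hval, hval]
    have hDi : D (σ i) = 2 := by
      rw [hσ]
      unfold Dg
      rw [if_neg (by omega), if_pos hi2]
    have hDj : D (σ j) = 2 := by
      rw [hσ]
      unfold Dg
      rw [if_neg (by omega), if_pos hj2]
    have hne : σ i ≠ σ j := fun h => hij (σ.injective h)
    have key := (h3 K A M H g L D hL (σ i) (σ j) hne).1 hDi hDj
      (hinv (σ i) (σ j) hne hDi hDj) (hinv (σ j) (σ i) hne.symm hDj hDi) (fun l => x (σ.symm l))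
    rw [← key]
    congr 1
    funext l
    exact (Hom_swap x σ i j l).symm
  · intro i j hij hi hj x
    rw [hval, hval]
    have hg1 := i.2
    have hg2 := j.2
    have hDi : D (σ i) = 1 := by
      rw [hσ]
      unfold Dg
      rw [if_neg (by omega), if_neg (by omega), if_pos (by omega)]
    have hDj : D (σ j) = 1 := by
      rw [hσ]
      unfold Dg
      rw [if_neg (by omega), if_neg (by omega), if_pos (by omega)]
    have hne : σ i ≠ σ j := fun h => hij (σ.injective h)
    have key := (h3 K A M H g L D hL (σ i) (σ j) hne).2 hDi hDj (fun l => x (σ.symm l))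
    rw [← key]
    congr 1
    funext l
    exact (Hom_swap x σ i j l).symm

end Pool.Agent.CRS
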