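import Pool.Agent.CRS.StH

/-!
Campaign CRS, module Hsw: symmetric and antisymmetric letters (helper26).
-/

set_option autoImplicit false

namespace Pool.Agent.CRS

open Pool.Agent.CRR Pool.Agent.CRN Pool.Agent.CRK Pool.Agent.CRL Pool.Agent.CRM Pool.Agent.CRP
open Pool.Agent.CRQ

section hsw

variable {K : Type} [CommRing K] {A : Type} [NonUnitalRing A] [Module K A]

theorem Hsw_congr {ι : Type} (L : List (K × List ι)) (x y : ι → A)
    (h : ∀ q ∈ L, wp (q.2.map x) = wp (q.2.map y)) : Lv L x = Lv L y := by
  unfold Lv
  congr 1
  exact List.map_congr_left fun q hq => by rw [h q hq]

theorem Hsw_add {ι : Type} (L : List (K × List ι)) (x y z : ι → A)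
    (h : ∀ q ∈ L, wp (q.2.map x) = wp (q.2.map y) + wp (q.2.map z)) :
    Lv L x = Lv L y + Lv L z := by
  unfold Lv
  rw [← List.sum_map_add]
  congr 1
  exact List.map_congr_left fun q hq => by rw [h q hq, smul_add]

theorem Hsw_upd {g : ℕ} {i j : Fin g} (hij : i ≠ j) (x : Fin g → A) (u v w : A) :
    Function.update (Function.update (Function.update x i u) j v) i w =
      Function.update (Function.update x i w) j v := by
  funext l
  by_cases h1 : l = i
  · subst h1
    rw [Function.update_self, Function.update_of_ne hij, Function.update_self]
  · rw [Function.update_of_ne h1]
    by_cases h2 : l = j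
    · subst h2
      rw [Function.update_self, Function.update_self]
    · rw [Function.update_of_ne h2, Function.update_of_ne h2, Function.update_of_ne h1,
        Function.update_of_ne h1]

theorem Hsw_self {g : ℕ} {i j : Fin g} (x : Fin g → A) :
    Function.update (Function.update x i (x i)) j (x j) = x := by
  rw [Function.update_eq_self, Function.update_eq_self]

theorem Hsw_swap {g : ℕ} {i j : Fin g} (hij : i ≠ j) (x : Fin g → A) :
    (fun l => x (Equiv.swap i j l)) =
      Function.update (Function.update x i (x j)) j (x i) := by
  funext l
  by_cases h1 : l = j
  · subst h1
    rw [Equiv.swap_apply_right, Function.update_self]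
  · rw [Function.update_of_ne h1]
    by_cases h2 : l = i
    · subst h2
      rw [Equiv.swap_apply_left, Function.update_self]
    · rw [Function.update_of_ne h2, Equiv.swap_apply_of_ne_of_ne h2 h1]

end hsw

/-- **HSW.** -/
theorem thm_Hsw (hE : St_Exl) : St_Hsw := by
  intro K _ A _ _ _ _ M H g L D hL i j hij
  refine ⟨?_, ?_⟩
  · intro hi _ h1 h2 x
    have e1 : ∀ u v : A, Lv L (Function.update (Function.update x i u) j (v + u)) =
        Lv L (Function.update (Function.update x i u) j v) := by
      intro u v
      have h := h1 (Function.update (Function.update x i u) j v)
      rw [Function.update_self, Function.update_of_ne hij, Function.update_self,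
        Function.update_idem] at h
      exact h
    have e2 : ∀ u v : A, Lv L (Function.update (Function.update x i (u + v)) j v) =
        Lv L (Function.update (Function.update x i u) j v) := by
      intro u v
      have h := h2 (Function.update (Function.update x i u) j v)
      rw [Function.update_self, Function.update_of_ne hij, Function.update_self,
        Hsw_upd hij] at h
      exact h
    have e3 : ∀ u v : A, Lv L (Function.update (Function.update x i (-u)) j v) =
        Lv L (Function.update (Function.update x i u) j v) := by
      intro u v
      have h : ∀ q ∈ L, wp (q.2.map (Function.update (Function.update x i (-u)) j v)) =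
          wp (q.2.map (Function.update (Function.update x i u) j v)) := by
        intro q hq
        have h3 := (hE K A (Fin g) (Function.update (Function.update x i u) j v) q.2 i).1 (-1)
        rw [hL.cnt q hq i, hi, Function.update_of_ne hij, Function.update_self,
          Hsw_upd hij] at h3
        rw [neg_one_smul, neg_one_sq, one_smul] at h3
        exact h3
      exact Hsw_congr L _ _ h
    have e4 : ∀ u v : A, Lv L (Function.update (Function.update x i u) j v) =
        Lv L (Function.update (Function.update x i v) j u) := by
      intro u v
      have s1 : -v + (v + u) = u := by abel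
      have s2 := e2 (-v) (v + u)
      rw [s1] at s2
      have s3 : v + u + -v = u := by abel
      have s4 := e1 (-v) (v + u)
      rw [s3] at s4
      rw [← e1 u v, s2, ← s4, e3]
    rw [Hsw_swap hij x, e4, Hsw_self]
  · intro hi hj x
    have f0 : ∀ u : A, Lv L (Function.update (Function.update x i u) j u) = 0 := by
      intro u
      refine hL.good.dep _ (fun l => if l = j then 1 else if l = i then -1 else 0) j ?_ ?_
      · rw [if_pos rfl]
        exact ⟨1, fun y => ⟨0, by rw [one_smul, one_smul, sub_self, smul_zero]⟩⟩
      · have h : ∑ l, (if l = j then (1 : K) else if l = i then -1 else 0) •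
            (Function.update (Function.update x i u) j u) l = 0 := by
          rw [← Finset.add_sum_erase _ _ (Finset.mem_univ j),
            ← Finset.add_sum_erase _ _ (Finset.mem_erase.2 ⟨hij, Finset.mem_univ i⟩),
            if_pos rfl, if_neg hij, if_pos rfl, Function.update_self, Function.update_of_ne hij,
            Function.update_self, one_smul, neg_one_smul]
          rw [Finset.sum_eq_zero, add_zero, add_neg_cancel]
          intro l hl
          rw [Finset.mem_erase, Finset.mem_erase] at hl
          rw [if_neg hl.2.1, if_neg hl.1, zero_smul]
        rw [h]
        exact zero_mem _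
    have f1 : ∀ u u' v : A, Lv L (Function.update (Function.update x i (u + u')) j v) =
        Lv L (Function.update (Function.update x i u) j v) +
          Lv L (Function.update (Function.update x i u') j v) := by
      intro u u' v
      apply Hsw_add
      intro q hq
      have h := (hE K A (Fin g) (Function.update (Function.update x i u) j v) q.2 i).2.2.1 u u'
        (by rw [hL.cnt q hq i, hi])
      rw [Hsw_upd hij, Hsw_upd hij, Hsw_upd hij] at h
      exact h
    have f2 : ∀ u v v' : A, Lv L (Function.update (Function.update x i u) j (v + v')) =
        Lv L (Function.update (Function.update x i u) j v) +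
          Lv L (Function.update (Function.update x i u) j v') := by
      intro u v v'
      apply Hsw_add
      intro q hq
      exact (hE K A (Fin g) (Function.update x i u) q.2 j).2.2.1 v v'
        (by rw [hL.cnt q hq j, hj])
    have f3 := f0 (x i + x j)
    rw [f1, f2, f2, f0, f0, zero_add, add_zero, Hsw_self] at f3
    rw [Hsw_swap hij x]
    exact eq_neg_of_add_eq_zero_right f3

end Pool.Agent.CRS
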