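import Pool.Agent.CRS.Kzc

/-!
Campaign CRS (problem MP_1bb14d_al, stage 7), module Kzd: products of at least six elements are killed by `p`.
-/

set_option autoImplicit false

namespace Pool.Agent.CRS

open Pool.Agent.CRR Pool.Agent.CRN Pool.Agent.CRK

theorem Kzd_app {A : Type} [NonUnitalRing A] (a b c d e f : A) : ∀ l : List A, ∃ f' : A,
    wp (a :: b :: c :: d :: e :: f :: l) = a * b * c * d * e * f' := by
  intro l
  refine ⟨wp (f :: l), ?_⟩
  show a * (b * (c * (d * (e * wp (f :: l))))) = _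
  simp only [mul_assoc]

theorem thm_Kzd (hb : St_Kzb) (hc : St_Kzc) : St_Kzd := by
  intro A _ p hp h3 hr l hl
  rcases l with _ | ⟨a, _ | ⟨b, _ | ⟨c, _ | ⟨d, _ | ⟨e, _ | ⟨f, l⟩⟩⟩⟩⟩⟩
  any_goals simp at hl
  obtain ⟨f', hf⟩ := Kzd_app a b c d e f l
  rw [hf]
  rcases hp with rfl | rfl
  · exact hc A h3 hr a b c d e f'
  · exact hb A h3 hr a b c d e f'

/-- Products of at least six elements are killed by `p`. -/
theorem jk0 : Jk0 := thm_Kzd (thm_Kzb thm_Kza) (thm_Kzc thm_Kza)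

end Pool.Agent.CRS
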