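import Pool.Agent.CRS.StH

/-!
CRS: the parity of the letters.
-/

set_option autoImplicit false

namespace Pool.Agent.CRS

open Pool.Agent.CRR Pool.Agent.CRN Pool.Agent.CRK Pool.Agent.CRL Pool.Agent.CRM Pool.Agent.CRP
open Pool.Agent.CRQ

private theorem Par_split {K : Type} [CommRing K] {A : Type} [NonUnitalRing A] [Module K A]
    {ι : Type} (P : K × List ι → Bool) (x : ι → A) (L : List (K × List ι)) :
    Lv L x = Lv (L.filter P) x + Lv (L.filter fun q => !P q) x := by
  induction L with
  | nil => simp [Lv]
  | cons q L ih =>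
    unfold Lv at ih ⊢
    rw [List.map_cons, List.sum_cons, ih]
    by_cases h : P q = true
    · rw [List.filter_cons_of_pos h, List.filter_cons_of_neg (by simp [h]), List.map_cons,
        List.sum_cons]
      abel
    · rw [List.filter_cons_of_neg h, List.filter_cons_of_pos (by simpa using h), List.map_cons,
        List.sum_cons]
      abel

private theorem Par_diff {K : Type} [CommRing K] {A : Type} [NonUnitalRing A] [Module K A]
    [IsScalarTower K A A] [SMulCommClass K A A] (hE : St_Exl) {g : ℕ} (j : Fin g)
    (x : Fin g → A) (L : List (K × List (Fin g))) :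
    Lv L x - Lv L (Function.update x j (-(x j))) =
      (2 ^ 1 : ℕ) • Lv (L.filter fun q => decide (Odd (q.2.count j))) x := by
  have hw : ∀ w : List (Fin g), wp (w.map (Function.update x j (-(x j)))) =
      (-1 : K) ^ w.count j • wp (w.map x) := by
    intro w
    have := (hE K A (Fin g) x w j).1 (-1)
    rwa [neg_one_smul] at this
  induction L with
  | nil => simp [Lv]
  | cons q L ih =>
    unfold Lv at ih ⊢
    rw [List.map_cons, List.sum_cons, List.map_cons, List.sum_cons, add_sub_add_comm, ih, hw]
    by_cases h : Odd (q.2.count j)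
    · rw [List.filter_cons_of_pos (by simpa using h), List.map_cons, List.sum_cons, h.neg_one_pow,
        neg_one_smul, smul_neg, sub_neg_eq_add, smul_add, pow_one, two_nsmul, two_nsmul]
    · have h2 : Even (q.2.count j) := Nat.not_odd_iff_even.mp h
      rw [List.filter_cons_of_neg (by simpa using h), h2.neg_one_pow, one_smul, sub_self, zero_add]

theorem thm_Par (hG : St_Gdc) (hE : St_Exl) : St_Par := by
  intro K _ A _ _ _ _ M H hK g L
  refine ⟨fun P x => Par_split P x L, fun h j => ?_⟩
  obtain ⟨-, hadd, hrest⟩ := hG K A M H hK g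
  have h1 : Gd K 3 M H g (fun x => Lv L (Function.update x j (-(x j)))) :=
    (hrest _ h).2.2.1 j
  have h2 : Gd K 3 M H g (fun x => Lv L x - Lv L (Function.update x j (-(x j)))) :=
    (hadd _ _ h h1).2
  exact (hrest _ h2).2.2.2.2 1 _ (fun x => Par_diff hE j x L)

end Pool.Agent.CRS
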