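import Pool.Agent.CRS.StH
import Pool.Agent.CRM.Fle
import Pool.Agent.CRM.Nid

/-!
Campaign CRS, p = 3, module Qfo: words with a letter four times, and their derivatives.
-/

set_option autoImplicit false

namespace Pool.Agent.CRS

open Pool.Agent.CRR Pool.Agent.CRN Pool.Agent.CRK Pool.Agent.CRL Pool.Agent.CRM Pool.Agent.CRP
open Pool.Agent.CRQ

/-- The dual numbers over `A`: pairs with `(a, b) (c, d) = (a c, a d + b c)`. -/
def Qfo_D (A : Type) : Type := A × A

/-- The pair `(a, b)`. -/
def Qfo_mk {A : Type} (a b : A) : Qfo_D A := (a, b)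

namespace Qfo_D

variable {A : Type} [NonUnitalRing A]

instance Qfo_acg : AddCommGroup (Qfo_D A) := inferInstanceAs (AddCommGroup (A × A))

instance Qfo_mul : Mul (Qfo_D A) := ⟨fun p q => (p.1 * q.1, p.1 * q.2 + p.2 * q.1)⟩

theorem Qfo_mul_fst (p q : Qfo_D A) : (p * q).1 = p.1 * q.1 := rfl

theorem Qfo_mul_snd (p q : Qfo_D A) : (p * q).2 = p.1 * q.2 + p.2 * q.1 := rfl

theorem Qfo_add_fst (p q : Qfo_D A) : (p + q).1 = p.1 + q.1 := rfl

theorem Qfo_add_snd (p q : Qfo_D A) : (p + q).2 = p.2 + q.2 := rfl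

theorem Qfo_zero_fst : (0 : Qfo_D A).1 = 0 := rfl

theorem Qfo_zero_snd : (0 : Qfo_D A).2 = 0 := rfl

theorem Qfo_ext {p q : Qfo_D A} (h1 : p.1 = q.1) (h2 : p.2 = q.2) : p = q := Prod.ext h1 h2

instance Qfo_ring : NonUnitalRing (Qfo_D A) :=
  { Qfo_acg, Qfo_mul with
    left_distrib := fun a b c => Qfo_ext
      (by simp only [Qfo_mul_fst, Qfo_add_fst, mul_add])
      (by simp only [Qfo_mul_snd, Qfo_add_fst, Qfo_add_snd, mul_add]; abel)
    right_distrib := fun a b c => Qfo_ext
      (by simp only [Qfo_mul_fst, Qfo_add_fst, add_mul])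
      (by simp only [Qfo_mul_snd, Qfo_add_fst, Qfo_add_snd, add_mul]; abel)
    zero_mul := fun a => Qfo_ext
      (by simp only [Qfo_mul_fst, Qfo_zero_fst, zero_mul])
      (by simp only [Qfo_mul_snd, Qfo_zero_fst, Qfo_zero_snd, zero_mul, add_zero])
    mul_zero := fun a => Qfo_ext
      (by simp only [Qfo_mul_fst, Qfo_zero_fst, mul_zero])
      (by simp only [Qfo_mul_snd, Qfo_zero_fst, Qfo_zero_snd, mul_zero, add_zero])
    mul_assoc := fun a b c => Qfo_ext
      (by simp only [Qfo_mul_fst, mul_assoc])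
      (by simp only [Qfo_mul_snd, Qfo_mul_fst, mul_assoc, mul_add, add_mul]; abel) }

end Qfo_D

open Qfo_D

variable {A : Type} [NonUnitalRing A]

theorem Qfo_one (hA : ∀ x : A, x * x * x = 0) (g : ℕ) (x : Fin g → A) (w : List (Fin g)) (j : Fin g) (h : 4 ≤ w.count j) :
    wp (w.map x) = 0 := by
  have h1 : w.map x = (w.map Fin.val).map (xs x) := by
    rw [List.map_map]
    refine List.map_congr_left fun a _ => ?_
    show x a = if h : a.val < g then x ⟨a.val, h⟩ else 0
    rw [dif_pos a.isLt]
  rw [h1]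
  refine (thm_Fle thm_Nid).1 A hA (xs x) (w.map Fin.val) j.val ?_
  rw [List.count_map_of_injective w Fin.val Fin.val_injective j]
  exact h

theorem Qfo_cnt {g : ℕ} (i j : Fin g) (hij : i ≠ j) (w : List (Fin g)) :
    (w.map (fun l => if l = j then i else l)).count i = w.count i + w.count j := by
  induction w with
  | nil => simp
  | cons a w ih =>
    rw [List.map_cons, List.count_cons, List.count_cons, List.count_cons, ih]
    by_cases h1 : a = j
    · subst h1
      simp [Ne.symm hij]
      omega
    · by_cases h2 : a = i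
      · subst h2
        simp [h1]
        omega
      · simp [h1, h2]

theorem Qfo_T (hA : ∀ x : A, x * x * x = 0) (hr : ∃ r : ℕ, ∀ y : A, (3 ^ r) • y = 0) (u v : A) :
    u * u * v + u * v * u + v * u * u = 0 := by
  have h1 : 2 • (u * u * v + u * v * u + v * u * u) = 0 := by
    have e1 := hA (u + v)
    have e2 := hA (u - v)
    have e3 := hA u
    have e4 := hA v
    have e5 : (u + v) * (u + v) * (u + v) - (u - v) * (u - v) * (u - v) - 2 • (v * v * v) =
        2 • (u * u * v + u * v * u + v * u * u) := by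
      simp only [mul_add, add_mul, mul_sub, sub_mul]
      abel
    rw [← e5, e1, e2, e4]
    simp
  obtain ⟨r, hr⟩ := hr
  have h2 := hr (u * u * v + u * v * u + v * u * u)
  have h3 : Nat.Coprime 2 (3 ^ r) := Nat.Coprime.pow_right r (by norm_num)
  have h4 := addOrderOf_dvd_of_nsmul_eq_zero h1
  have h5 := addOrderOf_dvd_of_nsmul_eq_zero h2
  have h6 := Nat.dvd_gcd h4 h5
  rw [h3] at h6
  exact AddMonoid.addOrderOf_eq_one_iff.mp (Nat.dvd_one.mp h6)

theorem Qfo_cube (hA : ∀ x : A, x * x * x = 0) (hr : ∃ r : ℕ, ∀ y : A, (3 ^ r) • y = 0) (p : Qfo_D A) : p * p * p = 0 := by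
  refine Qfo_ext ?_ ?_
  · show p.1 * p.1 * p.1 = 0
    exact hA _
  · show p.1 * p.1 * p.2 + (p.1 * p.2 + p.2 * p.1) * p.1 = 0
    rw [add_mul, ← add_assoc]
    exact Qfo_T hA hr p.1 p.2

theorem Qfo_dwne {ι : Type} [DecidableEq ι] (j i : ι) : ∀ w : List ι, ∀ v ∈ dw j i w, v ≠ []
  | [], v, hv => by simp [dw] at hv
  | a :: w, v, hv => by
    unfold dw at hv
    rw [List.mem_append] at hv
    rcases hv with hv | hv
    · by_cases h : a = j
      · rw [if_pos h, List.mem_singleton] at hv
        rw [hv]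
        simp
      · rw [if_neg h] at hv
        simp at hv
    · rw [List.mem_map] at hv
      obtain ⟨u, _, hu⟩ := hv
      rw [← hu]
      simp

theorem Qfo_cons {ι : Type} [DecidableEq ι] (x : ι → A) (j i : ι) (a : ι) (w : List ι) (hw : w ≠ []) :
    Dd j i (fun v => wp (v.map x)) (a :: w) =
      (if a = j then x i * wp (w.map x) else 0) + x a * Dd j i (fun v => wp (v.map x)) w := by
  unfold Dd
  have e1 : dw j i (a :: w) = (if a = j then [i :: w] else []) ++ (dw j i w).map (fun v => a :: v) := rfl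
  rw [e1, List.map_append, List.sum_append, List.map_map]
  congr 1
  · by_cases h : a = j
    · rw [if_pos h, if_pos h]
      simp only [List.map_cons, List.map_nil, List.sum_cons, List.sum_nil, add_zero]
      exact Gdc_wp_cons _ (by simpa using hw)
    · rw [if_neg h, if_neg h]
      rfl
  · rw [← List.sum_map_mul_left]
    congr 1
    refine List.map_congr_left fun v hv => ?_
    show wp (x a :: v.map x) = x a * wp (v.map x)
    exact Gdc_wp_cons _ (by simpa using Qfo_dwne j i w v hv)

theorem Qfo_prod {ι : Type} [DecidableEq ι] (x : ι → A) (j i : ι) : ∀ w : List ι, w ≠ [] →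
    wp (w.map (fun l => Qfo_mk (x l) (if l = j then x i else 0))) =
      Qfo_mk (wp (w.map x)) (Dd j i (fun v => wp (v.map x)) w)
  | [], h => absurd rfl h
  | [a], _ => by
    refine Qfo_ext rfl ?_
    show (if a = j then x i else 0) = Dd j i (fun v => wp (v.map x)) [a]
    unfold Dd dw dw
    by_cases h : a = j
    · rw [if_pos h, if_pos h]
      simp [wp]
    · rw [if_neg h, if_neg h]
      simp
  | a :: b :: w, _ => by
    have ih := Qfo_prod x j i (b :: w) (by simp)
    rw [List.map_cons, Gdc_wp_cons _ (by simp), ih, Qfo_cons x j i a (b :: w) (by simp)]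
    refine Qfo_ext ?_ ?_
    · show x a * wp ((b :: w).map x) = wp ((a :: b :: w).map x)
      rw [List.map_cons (l := b :: w), Gdc_wp_cons _ (by simp)]
    · show x a * Dd j i (fun v => wp (v.map x)) (b :: w) + (if a = j then x i else 0) * wp ((b :: w).map x) =
        (if a = j then x i * wp ((b :: w).map x) else 0) + x a * Dd j i (fun v => wp (v.map x)) (b :: w)
      rw [ite_mul, zero_mul, add_comm]

theorem thm_Qfo : St_Qfo := by
  intro A _ hA g x w j
  refine ⟨Qfo_one hA g x w j, ?_⟩
  intro i hij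
  refine ⟨?_, ?_⟩
  · intro h
    have h1 : w.map (Function.update x j (x i)) = (w.map (fun l => if l = j then i else l)).map x := by
      rw [List.map_map]
      refine List.map_congr_left fun a _ => ?_
      show Function.update x j (x i) a = x (if a = j then i else a)
      by_cases h2 : a = j
      · rw [if_pos h2, h2, Function.update_self]
      · rw [if_neg h2, Function.update_of_ne h2]
    rw [h1]
    refine Qfo_one hA g x _ i ?_
    rw [Qfo_cnt i j hij]
    exact h
  · intro hr h
    have hw : w ≠ [] := by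
      rintro rfl
      simp at h
    have h1 := Qfo_one (A := Qfo_D A) (Qfo_cube hA hr) g (fun l => Qfo_mk (x l) (if l = j then x i else 0)) w j h
    rw [Qfo_prod x j i w hw] at h1
    exact congrArg Prod.snd h1

end Pool.Agent.CRS
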