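import Pool.Agent.CRS.StH

/-!
Campaign CRS (problem MP_1bb14d_al): module Sep, separation of the letters with one and with three occurrences.
-/

set_option autoImplicit false

namespace Pool.Agent.CRS

open Pool.Agent.CRR Pool.Agent.CRN Pool.Agent.CRK Pool.Agent.CRL Pool.Agent.CRM Pool.Agent.CRP
open Pool.Agent.CRQ

section

variable {K : Type} [CommRing K] {A : Type} [NonUnitalRing A] [Module K A]

theorem Sep_map_sub {α B : Type} [AddCommGroup B] (L : List α) (f g : α → B) :
    (L.map f).sum - (L.map g).sum = (L.map fun q => f q - g q).sum := by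
  induction L with
  | nil => simp
  | cons a L ih =>
    simp only [List.map_cons, List.sum_cons]
    rw [← ih]
    abel

theorem Sep_filter {α B : Type} [AddCommMonoid B] (L : List α) (P : α → Bool) (f : α → B) :
    ((L.filter P).map f).sum = (L.map fun q => if P q = true then f q else 0).sum := by
  induction L with
  | nil => simp
  | cons a L ih =>
    rw [List.filter_cons, List.map_cons, List.sum_cons]
    by_cases h : P a = true
    · rw [if_pos h, if_pos h, List.map_cons, List.sum_cons, ih]
    · rw [if_neg h, if_neg h, ih, zero_add]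

theorem Sep_smul {α B : Type} [AddCommMonoid B] (n : ℕ) (L : List α) (f : α → B) :
    n • (L.map f).sum = (L.map fun q => n • f q).sum := by
  induction L with
  | nil => simp
  | cons a L ih =>
    simp only [List.map_cons, List.sum_cons]
    rw [← ih, nsmul_add]

theorem Sep_zero {α B : Type} [AddCommMonoid B] (L : List α) (f : α → B) (h : ∀ a ∈ L, f a = 0) :
    (L.map f).sum = 0 := by
  apply List.sum_eq_zero
  intro b hb
  obtain ⟨a, ha, rfl⟩ := List.mem_map.1 hb
  exact h a ha

theorem Sep_one [IsScalarTower K A A] [SMulCommClass K A A] (hE : St_Exl) {g : ℕ} (x : Fin g → A) (w : List (Fin g))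
    (i j : Fin g) (hij : i ≠ j) (h : w.count j = 1 ∨ w.count j = 3) :
    wp (w.map (Function.update x j (x j + x i))) - wp (w.map (Function.update x j (x j - x i))) =
      2 • wp (w.map (Function.update x j (x i))) +
        if w.count j = 3 then 2 • Dd j i (fun v => wp (v.map x)) w else 0 := by
  obtain ⟨-, -, -, e⟩ := hE K A (Fin g) x w j
  obtain ⟨e1, e2, -⟩ := e i hij
  rw [e2 (by omega)]
  rcases h with h | h
  · rw [if_neg (by omega), if_neg (by omega), e1 h]
  · rw [if_pos h, if_pos h, add_comm]

theorem Sep_two [IsScalarTower K A A] [SMulCommClass K A A] (hE : St_Exl) (hQ : St_Qfo) (hW : St_Dwx)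
    (h3 : ∀ x : A, x * x * x = 0) (hr : ∃ r : ℕ, ∀ y : A, (3 ^ r) • y = 0) {g : ℕ} (x : Fin g → A) (w : List (Fin g))
    (i j : Fin g) (hij : i ≠ j) (hj : w.count j = 3) (hi : 1 ≤ w.count i) (hi3 : w.count i ≤ 3) :
    Dd j i (fun v => wp (v.map (Function.update x i (x i + x j)))) w -
      Dd j i (fun v => wp (v.map (Function.update x i (x i - x j)))) w =
      (2 * (3 - w.count i)) • wp (w.map x) := by
  obtain ⟨d1, d2⟩ := hW (Fin g) i j hij w
  obtain ⟨d3, -⟩ := hW (Fin g) j i hij.symm w
  rcases Nat.lt_or_ge 2 (w.count i) with hn | hn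
  · have h0 : ∀ y : Fin g → A, Dd j i (fun v => wp (v.map y)) w = 0 := by
      intro y
      unfold Dd
      refine Sep_zero _ _ fun v hv => ?_
      exact (hQ A h3 g y v i).1 (by have := (d1 v hv).2.2.1; omega)
    rw [h0, h0, show 3 - w.count i = 0 by omega]
    simp
  · have e1 : Dd j i (fun v => wp (v.map (Function.update x i (x i + x j)))) w -
        Dd j i (fun v => wp (v.map (Function.update x i (x i - x j)))) w =
        2 • Dd j i (Dd i j fun v => wp (v.map x)) w := by
      conv_lhs => unfold Dd
      rw [Sep_map_sub]
      conv_rhs => rw [Dd]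
      rw [Sep_smul]
      congr 1
      refine List.map_congr_left fun v hv => ?_
      have c1 := (d1 v hv).2.1
      have c2 := (d1 v hv).2.2.1
      obtain ⟨-, -, -, e⟩ := hE K A (Fin g) x v i
      obtain ⟨-, e2, -⟩ := e j hij.symm
      rw [e2 (by omega)]
      split_ifs with h
      · rw [((hQ A h3 g x v i).2 j hij.symm).1 (by omega)]
        simp
      · simp
    have e2 := d2 A (fun v => wp (v.map x))
    have e3 : Dd i j (Dd j i fun v => wp (v.map x)) w = 0 := by
      conv_lhs => rw [Dd]
      refine Sep_zero _ _ fun v hv => ?_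
      exact ((hQ A h3 g x v j).2 i hij).2 hr (by have := (d3 v hv).2.2.1; omega)
    rw [e3, zero_add, hj] at e2
    rw [e1]
    have e4 : Dd j i (Dd i j fun v => wp (v.map x)) w = (3 - w.count i) • wp (w.map x) := by
      have : 3 • wp (w.map x) = (3 - w.count i) • wp (w.map x) + w.count i • wp (w.map x) := by
        rw [← add_nsmul]
        congr 1
        omega
      rw [this] at e2
      exact add_right_cancel e2
    rw [e4, mul_nsmul']

end

theorem thm_Sep (hG : St_Gdc) (hE : St_Exl) (hQ : St_Qfo) (hW : St_Dwx) : St_Sep := by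
  intro K _ A _ _ _ _ M H hK g L i j hij hf hcj
  obtain ⟨-, -, gg⟩ := hG K A M H hK g
  have gsub : ∀ f f' : (Fin g → A) → A, Gd K 3 M H g f → Gd K 3 M H g f' → Gd K 3 M H g (fun x => f x - f' x) :=
    fun f f' h h' => ((hG K A M H hK g).2.1 f f' h h').2
  -- the first step
  have s1 : Gd K 3 M H g (fun x => (L.map fun q => q.1 •
      (if q.2.count j = 3 then 2 • Dd j i (fun v => wp (v.map x)) q.2 else 0)).sum) := by
    have h1 := gsub _ _ ((gg _ hf).2.1 i j 1 hij) ((gg _ hf).2.1 i j (-1) hij)
    have h2 : (fun x : Fin g → A => Lv L (Function.update x j (x j + (1 : K) • x i)) -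
        Lv L (Function.update x j (x j + (-1 : K) • x i))) =
        fun x => (L.map fun q => q.1 • (if q.2.count j = 3 then 2 • Dd j i (fun v => wp (v.map x)) q.2 else 0)).sum := by
      funext x
      rw [one_smul, neg_one_smul, ← sub_eq_add_neg]
      have h3 : Lv L (Function.update x j (x i)) = 0 := by
        refine hf.dep _ (Pi.single j (1 : K) - Pi.single i (1 : K)) j ?_ ?_
        · rw [Pi.sub_apply, Pi.single_eq_same, Pi.single_eq_of_ne hij.symm, sub_zero]
          exact ⟨1, fun y => ⟨0, by simp⟩⟩
        · have h4 : ∑ l, (Pi.single j (1 : K) - Pi.single i (1 : K) : Fin g → K) l • (Function.update x j (x i)) l = 0 := by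
            simp only [Pi.sub_apply, sub_smul, Finset.sum_sub_distrib]
            rw [Finset.sum_eq_single j, Finset.sum_eq_single i]
            · rw [Pi.single_eq_same, Pi.single_eq_same, Function.update_self, Function.update_of_ne hij]
              simp
            · intro b _ hb
              rw [Pi.single_eq_of_ne hb, zero_smul]
            · intro h
              exact absurd (Finset.mem_univ _) h
            · intro b _ hb
              rw [Pi.single_eq_of_ne hb, zero_smul]
            · intro h
              exact absurd (Finset.mem_univ _) h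
          rw [h4]
          exact M.zero_mem
      have h5 : Lv L (Function.update x j (x j + x i)) - Lv L (Function.update x j (x j - x i)) =
          2 • Lv L (Function.update x j (x i)) + (L.map fun q => q.1 •
            (if q.2.count j = 3 then 2 • Dd j i (fun v => wp (v.map x)) q.2 else 0)).sum := by
        unfold Lv
        rw [Sep_map_sub, Sep_smul, ← List.sum_map_add]
        congr 1
        refine List.map_congr_left fun q hq => ?_
        rw [← smul_sub, Sep_one (K := K) hE x q.2 i j hij (hcj q hq), smul_add, smul_comm]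
      rw [h5, h3, smul_zero, zero_add]
    rw [h2] at h1
    exact h1
  -- the second step
  have s2 : (∀ q ∈ L, 1 ≤ q.2.count i ∧ q.2.count i ≤ 3) → Gd K 3 M H g (fun x => (L.map fun q => q.1 •
      (if q.2.count j = 3 then 2 • (2 * (3 - q.2.count i)) • wp (q.2.map x) else 0)).sum) := by
    intro hci
    have h1 := gsub _ _ ((gg _ s1).2.1 j i 1 hij.symm) ((gg _ s1).2.1 j i (-1) hij.symm)
    have h2 : (fun x : Fin g → A => (L.map fun q => q.1 • (if q.2.count j = 3 then
          2 • Dd j i (fun v => wp (v.map (Function.update x i (x i + (1 : K) • x j)))) q.2 else 0)).sum -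
        (L.map fun q => q.1 • (if q.2.count j = 3 then
          2 • Dd j i (fun v => wp (v.map (Function.update x i (x i + (-1 : K) • x j)))) q.2 else 0)).sum) =
        fun x => (L.map fun q => q.1 •
          (if q.2.count j = 3 then 2 • (2 * (3 - q.2.count i)) • wp (q.2.map x) else 0)).sum := by
      funext x
      rw [Sep_map_sub]
      congr 1
      refine List.map_congr_left fun q hq => ?_
      rw [← smul_sub, one_smul, neg_one_smul, ← sub_eq_add_neg]
      by_cases h : q.2.count j = 3
      · rw [if_pos h, if_pos h, if_pos h, ← smul_sub,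
          Sep_two (K := K) hE hQ hW hK.cube hK.pr x q.2 i j hij h (hci q hq).1 (hci q hq).2]
      · rw [if_neg h, if_neg h, if_neg h, sub_zero]
    rw [h2] at h1
    exact h1
  refine ⟨fun hci => ?_, fun hci => ?_⟩
  · refine (gg _ (s2 fun q hq => by have := hci q hq; omega)).2.2.2.2 2 _ fun x => ?_
    unfold Lv
    rw [Sep_filter, Sep_smul]
    congr 1
    refine List.map_congr_left fun q hq => ?_
    by_cases h : q.2.count j = 3
    · rw [if_pos h, if_pos (by simpa using h), hci q hq, smul_comm, smul_comm q.1, ← mul_nsmul',
        show 2 * (2 * (3 - 2)) = 2 ^ 2 from rfl]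
    · rw [if_neg h, if_neg (by simpa using h)]
      simp
  · refine (gg _ (s2 fun q hq => by have := hci q hq; omega)).2.2.2.2 3 _ fun x => ?_
    unfold Lv
    rw [Sep_filter, Sep_smul]
    congr 1
    refine List.map_congr_left fun q hq => ?_
    by_cases h : q.2.count j = 3
    · rcases hci q hq with h' | h'
      · rw [if_pos h, if_pos (by simpa using ⟨h, h'⟩), h', smul_comm, smul_comm q.1, ← mul_nsmul',
          show 2 * (2 * (3 - 1)) = 2 ^ 3 from rfl]
      · rw [if_pos h, if_neg (by simp [h']), h']
        simp
    · rw [if_neg h, if_neg (by simp [h])]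
      simp

end Pool.Agent.CRS

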