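import Pool.Agent.CRS.StH

/-!
Campaign CRS, module TOP: the part of degree (3, ..., 3).
-/

set_option autoImplicit false

namespace Pool.Agent.CRS

open Pool.Agent.CRR Pool.Agent.CRN Pool.Agent.CRK Pool.Agent.CRL Pool.Agent.CRM Pool.Agent.CRP
open Pool.Agent.CRQ

private theorem Top_wp_cons {R : Type} [NonUnitalRing R] (x : R) {l : List R} (h : l ≠ []) :
    wp (x :: l) = x * wp l := by
  cases l with
  | nil => exact absurd rfl h
  | cons y l => rfl

private theorem Top_ne {R : Type} (l₁ l₂ : List R) (a : R) : l₁ ++ a :: l₂ ≠ [] := by simp

private theorem Top_wp_append {R : Type} [NonUnitalRing R] (w w' : List R) (h : w ≠ [])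
    (h' : w' ≠ []) : wp (w ++ w') = wp w * wp w' := by
  induction w with
  | nil => exact absurd rfl h
  | cons x l ih =>
    cases l with
    | nil =>
      cases w' with
      | nil => exact absurd rfl h'
      | cons y l' => rfl
    | cons y l =>
      have h1 := ih (by simp)
      show x * wp (y :: l ++ w') = (x * wp (y :: l)) * wp w'
      rw [h1, mul_assoc]

private theorem Top_add {R : Type} [NonUnitalRing R] (l₁ l₂ : List R) (a b : R) :
    wp (l₁ ++ (a + b) :: l₂) = wp (l₁ ++ a :: l₂) + wp (l₁ ++ b :: l₂) := by
  induction l₁ with
  | nil =>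
    cases l₂ with
    | nil => rfl
    | cons y l =>
      show (a + b) * wp (y :: l) = a * wp (y :: l) + b * wp (y :: l)
      rw [add_mul]
  | cons z l ih =>
    rw [List.cons_append, List.cons_append, List.cons_append, Top_wp_cons z (Top_ne l l₂ (a + b)),
      Top_wp_cons z (Top_ne l l₂ a), Top_wp_cons z (Top_ne l l₂ b), ih, mul_add]

private theorem Top_smul {K : Type} [CommRing K] {R : Type} [NonUnitalRing R] [Module K R]
    [IsScalarTower K R R] [SMulCommClass K R R] (l₁ l₂ : List R) (c : K) (a : R) :
    wp (l₁ ++ (c • a) :: l₂) = c • wp (l₁ ++ a :: l₂) := by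
  induction l₁ with
  | nil =>
    cases l₂ with
    | nil => rfl
    | cons y l =>
      show (c • a) * wp (y :: l) = c • (a * wp (y :: l))
      rw [smul_mul_assoc]
  | cons z l ih =>
    rw [List.cons_append, List.cons_append, Top_wp_cons z (Top_ne l l₂ (c • a)),
      Top_wp_cons z (Top_ne l l₂ a), ih, mul_smul_comm]

private theorem Top_zero {R : Type} [NonUnitalRing R] (l₁ l₂ : List R) :
    wp (l₁ ++ (0 : R) :: l₂) = 0 := by
  have h := Top_add l₁ l₂ (0 : R) 0
  rw [add_zero] at h
  exact left_eq_add.1 h

private theorem Top_sum {K : Type} [CommRing K] {R : Type} [NonUnitalRing R] [Module K R]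
    [IsScalarTower K R R] [SMulCommClass K R R] {ι : Type} [DecidableEq ι] (s : Finset ι) (e : ι → K)
    (x : ι → R) (l₁ l₂ : List R) :
    wp (l₁ ++ (∑ l ∈ s, e l • x l) :: l₂) = ∑ l ∈ s, e l • wp (l₁ ++ x l :: l₂) := by
  induction s using Finset.induction_on with
  | empty => rw [Finset.sum_empty, Finset.sum_empty, Top_zero]
  | insert a s ha ih => rw [Finset.sum_insert ha, Finset.sum_insert ha, Top_add, Top_smul, ih]

/-- a word with three factors in `M` -/
private theorem Top_three {R : Type} [NonUnitalRing R] (M : AddSubgroup R) (g : ℕ) (hg : 2 ≤ g)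
    (hT : Tp3 M g) {ι : Type} [DecidableEq ι] (x : ι → R) (j : ι) (hx : x j ∈ M) (w : List ι)
    (hw : w.length = 3 * g) (hc : w.count j = 3) : wp (w.map x) = 0 := by
  have h1 : j ∈ w := List.count_pos_iff.1 (by omega)
  obtain ⟨u₁, t₁, rfl, hu₁⟩ := List.eq_append_cons_of_mem h1
  rw [List.count_append, List.count_cons_self, List.count_eq_zero_of_not_mem hu₁] at hc
  have h2 : j ∈ t₁ := List.count_pos_iff.1 (by omega)
  obtain ⟨u₂, t₂, rfl, hu₂⟩ := List.eq_append_cons_of_mem h2
  rw [List.count_append, List.count_cons_self, List.count_eq_zero_of_not_mem hu₂] at hc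
  have h3 : j ∈ t₂ := List.count_pos_iff.1 (by omega)
  obtain ⟨u₃, t₃, rfl, hu₃⟩ := List.eq_append_cons_of_mem h3
  rw [List.map_append, List.map_cons, List.map_append, List.map_cons, List.map_append, List.map_cons]
  refine hT.mu hg _ hx _ hx _ hx _ _ _ _ ?_
  rw [List.length_map, List.length_map, List.length_map, List.length_map]
  simp only [List.length_append, List.length_cons] at hw
  omega

/-- elimination of the letter `j` -/
private theorem Top_elim (hQ : St_Qfo) {K : Type} [CommRing K] {R : Type} [NonUnitalRing R] [Module K R]
    [IsScalarTower K R R] [SMulCommClass K R R] (hc : ∀ x : R, x * x * x = 0) (g : ℕ) (x : Fin g → R)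
    (j : Fin g) (e : Fin g → K) (hx : x j = ∑ l ∈ Finset.univ.erase j, e l • x l)
    (s : List (Fin g)) : ∀ p : List (Fin g), j ∉ p → (∀ l, l ≠ j → 3 ≤ (p ++ s).count l) →
    (j ∈ s ∨ ∃ l, l ≠ j ∧ 4 ≤ (p ++ s).count l) → wp ((p ++ s).map x) = 0 := by
  induction s with
  | nil =>
    intro p hp h3 h4
    rcases h4 with h4 | ⟨l, _, h4⟩
    · exact absurd h4 List.not_mem_nil
    · exact (hQ R hc g x (p ++ []) l).1 h4
  | cons a s ih =>
    intro p hp h3 h4
    by_cases ha : a = j
    · subst ha
      rw [List.map_append, List.map_cons, hx, Top_sum]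
      refine Finset.sum_eq_zero fun l hl => ?_
      have hla : l ≠ a := (Finset.mem_erase.1 hl).1
      have hcnt : ∀ k, k ≠ a → (p ++ a :: s).count k ≤ ((p ++ [l]) ++ s).count k := by
        intro k hk
        rw [List.count_append, List.count_append, List.count_append, List.count_cons_of_ne (Ne.symm hk)]
        omega
      have h5 := ih (p ++ [l]) (by
          rw [List.mem_append, List.mem_singleton]
          rintro (h | h)
          · exact hp h
          · exact hla h.symm)
        (fun k hk => (h3 k hk).trans (hcnt k hk))
        (Or.inr ⟨l, hla, by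
          have h6 := h3 l hla
          rw [List.count_append, List.count_cons_of_ne (Ne.symm hla)] at h6
          rw [List.count_append, List.count_append, List.count_singleton_self]
          omega⟩)
      rw [List.append_assoc, List.map_append, List.singleton_append, List.map_cons] at h5
      rw [h5, smul_zero]
    · have h5 := ih (p ++ [a]) (by
          rw [List.mem_append, List.mem_singleton]
          rintro (h | h)
          · exact hp h
          · exact ha h.symm)
      rw [List.append_assoc, List.singleton_append] at h5
      refine h5 h3 ?_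
      rcases h4 with h4 | h4
      · rcases List.mem_cons.1 h4 with h6 | h6
        · exact absurd h6.symm ha
        · exact Or.inl h6
      · exact Or.inr h4

private theorem Top_len (g : ℕ) (w : List (Fin g)) (h : ∀ i, w.count i = 3) : w.length = 3 * g := by
  have h1 : ∑ i : Fin g, w.count i = w.length := by
    have h2 := Multiset.toFinset_sum_count_eq (w : Multiset (Fin g))
    rw [Multiset.coe_card] at h2
    rw [← h2]
    have h3 : ∑ i ∈ (w : Multiset (Fin g)).toFinset, Multiset.count i (w : Multiset (Fin g)) =
        ∑ i : Fin g, Multiset.count i (w : Multiset (Fin g)) := by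
      refine Finset.sum_subset (Finset.subset_univ _) ?_
      intro i _ hi
      rw [Multiset.mem_toFinset, Multiset.mem_coe] at hi
      rw [Multiset.coe_count]
      exact List.count_eq_zero_of_not_mem hi
    rw [h3]
    exact Finset.sum_congr rfl fun i _ => (Multiset.coe_count i w).symm
  rw [← h1, Finset.sum_congr rfl (fun i _ => h i), Finset.sum_const, Finset.card_univ, Fintype.card_fin,
    smul_eq_mul, mul_comm]

private theorem Top_Lv {K : Type} [CommRing K] {R : Type} [NonUnitalRing R] [Module K R] {ι : Type}
    (q : K × List ι) (L : List (K × List ι)) (x : ι → R) :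
    Lv (q :: L) x = q.1 • wp (q.2.map x) + Lv L x := by
  unfold Lv
  rw [List.map_cons, List.sum_cons]

private theorem Top_Lv_filter {K : Type} [CommRing K] {R : Type} [NonUnitalRing R] [Module K R] {ι : Type}
    (P : K × List ι → Bool) (L : List (K × List ι)) (x : ι → R) :
    Lv L x = Lv (L.filter P) x + Lv (L.filter fun q => !P q) x := by
  induction L with
  | nil => simp [Lv]
  | cons q L ih =>
    by_cases h : P q = true
    · rw [List.filter_cons_of_pos h, List.filter_cons_of_neg (by rw [h]; decide), Top_Lv, Top_Lv, ih,
        add_assoc]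
    · rw [List.filter_cons_of_neg h, List.filter_cons_of_pos (by simpa using h), Top_Lv, Top_Lv, ih]
      abel

/-- words in which `j` occurs once are additive -/
private theorem Top_one (hE : St_Exl) {K : Type} [CommRing K] {R : Type} [NonUnitalRing R] [Module K R]
    [IsScalarTower K R R] [SMulCommClass K R R] {g : ℕ} (j : Fin g) (x : Fin g → R) (y z : R)
    (L : List (K × List (Fin g))) (hL : ∀ q ∈ L, q.2.count j = 1) :
    Lv L (Function.update x j (y + z)) = Lv L (Function.update x j y) + Lv L (Function.update x j z) := by
  induction L with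
  | nil => simp [Lv]
  | cons q L ih =>
    rw [Top_Lv, Top_Lv, Top_Lv, ih fun q' hq' => hL q' (List.mem_cons_of_mem _ hq'),
      (hE K R (Fin g) x q.2 j).2.2.1 y z (hL q List.mem_cons_self), smul_add]
    abel

private theorem Top_all {K : Type} [CommRing K] {R : Type} [NonUnitalRing R] [Module K R]
    [IsScalarTower K R R] [SMulCommClass K R R] (M : AddSubgroup R) (g : ℕ) (hg : 2 ≤ g)
    (hT : Tp3 M g) (x : Fin g → R) (j : Fin g) (hx : x j ∈ M)
    (L : List (K × List (Fin g))) (hL : ∀ q ∈ L, ∀ i, q.2.count i = 3) : Lv L x = 0 := by
  induction L with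
  | nil => rfl
  | cons q L ih =>
    rw [Top_Lv, ih fun q' hq' => hL q' (List.mem_cons_of_mem _ hq'),
      Top_three M g hg hT x j hx q.2 (Top_len g q.2 (hL q List.mem_cons_self))
        (hL q List.mem_cons_self j), smul_zero, add_zero]

/-- change of the letters modulo `M` -/
private theorem Top_chg {R : Type} [NonUnitalRing R] (M : AddSubgroup R) {g : ℕ}
    (f : (Fin g → R) → R)
    (h : ∀ (x : Fin g → R) (j : Fin g), ∀ m ∈ M, f (Function.update x j (x j + m)) = f x)
    (x y : Fin g → R) (hxy : ∀ i, x i - y i ∈ M) (s : Finset (Fin g)) :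
    f (fun i => if i ∈ s then y i else x i) = f x := by
  induction s using Finset.induction_on with
  | empty => simp
  | insert a s ha ih =>
    rw [← ih, ← h (fun i => if i ∈ s then y i else x i) a (-(x a - y a)) (M.neg_mem (hxy a))]
    congr 1
    funext i
    by_cases hi : i = a
    · subst hi
      rw [Function.update_self, if_pos (Finset.mem_insert_self _ _), if_neg ha]
      abel
    · rw [Function.update_of_ne hi]
      by_cases his : i ∈ s
      · rw [if_pos his, if_pos (Finset.mem_insert_of_mem his)]
      · rw [if_neg his, if_neg (fun h => (Finset.mem_insert.1 h).elim hi his)]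

theorem thm_Top (hQ : St_Qfo) (hE : St_Exl) (hJ : Jk0) : St_Top := by
  intro K _ A _ _ _ _ M H hK g hg hT L₀ hG hL₀
  set P : K × List (Fin g) → Bool := fun q => decide (∀ i, q.2.count i = 3) with hP
  have hL1 : ∀ q ∈ L₀.filter (fun q => !P q), ∀ i, q.2.count i = 1 := by
    intro q hq
    obtain ⟨h1, h2⟩ := List.mem_filter.1 hq
    rcases hL₀ q h1 with h3 | h3
    · exact h3
    · simp only [hP, Bool.not_eq_true', decide_eq_false_iff_not] at h2
      exact absurd h3 h2
  have hdec := Top_Lv_filter (R := A) P L₀
  have hL : ∀ q ∈ L₀.filter P, ∀ i, q.2.count i = 3 := by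
    intro q hq
    have h2 := (List.mem_filter.1 hq).2
    simpa only [hP, decide_eq_true_eq] using h2
  generalize L₀.filter P = L at hL hdec ⊢
  generalize L₀.filter (fun q => !P q) = L' at hL1 hdec
  have hchg : ∀ (x : Fin g → A) (j : Fin g), ∀ m ∈ M, Lv L (Function.update x j (x j + m)) = Lv L x := by
    intro x j m hm
    have key : ∀ z : Fin g → A, Lv L' (Function.update z j m) +
        Lv L (Function.update z j (z j + m)) = Lv L z := by
      intro z
      have h1 : Lv L₀ (Function.update z j (z j + m)) = Lv L₀ z := by
        refine hG.inv _ _ fun i => ?_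
        by_cases hi : i = j
        · subst hi
          rw [Function.update_self, add_sub_cancel_left]
          exact hm
        · rw [Function.update_of_ne hi, sub_self]
          exact M.zero_mem
      rw [hdec, hdec, Top_one hE j z (z j) m L' (fun q hq => hL1 q hq j), Function.update_eq_self] at h1
      have h2 : Lv L' (Function.update z j m) + Lv L (Function.update z j (z j + m)) =
          (Lv L (Function.update z j (z j + m)) + (Lv L' z + Lv L' (Function.update z j m))) - Lv L' z := by
        abel
      rw [h2, h1]
      abel
    have k1 := key (Function.update x j 0)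
    rw [Function.update_idem, Function.update_self, Function.update_idem, zero_add,
      Top_all M g hg hT (Function.update x j m) j (by rw [Function.update_self]; exact hm) L hL,
      Top_all M g hg hT (Function.update x j 0) j (by rw [Function.update_self]; exact M.zero_mem) L hL,
      add_zero] at k1
    have k2 := key x
    rw [k1, zero_add] at k2
    exact k2
  have hinv : ∀ x y : Fin g → A, (∀ i, x i - y i ∈ M) → Lv L x = Lv L y := by
    intro x y hxy
    have h1 := Top_chg M (Lv L) hchg x y hxy Finset.univ
    simp only [Finset.mem_univ, if_true] at h1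
    exact h1.symm
  clear hchg hdec hG
  refine ⟨?_, hinv, ?_⟩
  · intro x
    clear hinv
    induction L with
    | nil => exact H.zero_mem
    | cons q L ih =>
      rw [Top_Lv]
      refine H.add_mem (hK.hK _ _ ?_) (ih (fun q' hq' => hL q' (List.mem_cons_of_mem _ hq')))
      have hlen := Top_len g q.2 (hL q List.mem_cons_self)
      have hne : q.2.map x ≠ [] := by
        intro h
        have h2 := congrArg List.length h
        rw [List.length_map, List.length_nil, hlen] at h2
        omega
      refine hK.h1 _ (hJ A 3 (Or.inr rfl) hK.cube hK.pr _ ?_) ?_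
      · rw [List.length_map, hlen]
        omega
      · intro y
        constructor
        · have h1 := hT.top hg (q.2.map x ++ [y]) (by
            rw [List.length_append, List.length_map, List.length_singleton, hlen])
          rw [Top_wp_append _ _ hne (List.cons_ne_nil _ _)] at h1
          exact h1
        · have h1 := hT.top hg (y :: q.2.map x) (by
            rw [List.length_cons, List.length_map, hlen])
          rw [Top_wp_cons y hne] at h1
          exact h1
  · intro x c j hc hx
    obtain ⟨d, hd⟩ := hc
    set y : Fin g → A := Function.update x j (∑ l ∈ Finset.univ.erase j, (-(d * c l)) • x l) with hy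
    have hyj : y j = ∑ l ∈ Finset.univ.erase j, (-(d * c l)) • x l := by
      rw [hy, Function.update_self]
    have hyl : ∀ l, l ≠ j → y l = x l := by
      intro l hl
      rw [hy, Function.update_of_ne hl]
    have hxy : ∀ i, x i - y i ∈ M := by
      intro i
      by_cases hi : i = j
      · subst hi
        rw [hyj]
        obtain ⟨z, hz⟩ := hd (x i)
        have h1 : x i - ∑ l ∈ Finset.univ.erase i, (-(d * c l)) • x l =
            d • (∑ l, c l • x l) - 3 • z := by
          rw [← hz, ← Finset.add_sum_erase _ _ (Finset.mem_univ i), smul_add, Finset.smul_sum]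
          have h2 : ∑ l ∈ Finset.univ.erase i, (-(d * c l)) • x l =
              -∑ l ∈ Finset.univ.erase i, d • c l • x l := by
            rw [← Finset.sum_neg_distrib]
            refine Finset.sum_congr rfl fun l _ => ?_
            rw [neg_smul, mul_smul]
          rw [h2]
          abel
        rw [h1]
        exact M.sub_mem (hK.mK _ _ hx) (hK.mp z)
      · rw [hyl i hi, sub_self]
        exact M.zero_mem
    rw [hinv x y hxy]
    have hyj' : y j = ∑ l ∈ Finset.univ.erase j, (-(d * c l)) • y l := by
      rw [hyj]
      refine Finset.sum_congr rfl fun l hl => ?_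
      rw [hyl l (Finset.mem_erase.1 hl).1]
    clear hinv
    induction L with
    | nil => rfl
    | cons q L ih =>
      rw [Top_Lv, ih (fun q' hq' => hL q' (List.mem_cons_of_mem _ hq')), add_zero]
      have hcq := hL q List.mem_cons_self
      have h1 := Top_elim hQ hK.cube g y j (fun l => -(d * c l)) hyj' q.2 [] List.not_mem_nil
        (fun l _ => by rw [List.nil_append, hcq l])
        (Or.inl (List.count_pos_iff.1 (by rw [hcq j]; omega)))
      rw [List.nil_append] at h1
      rw [h1, smul_zero]

end Pool.Agent.CRS
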