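import Pool.Agent.CRS.Dwx
import Pool.Agent.CRS.Exl
import Pool.Agent.CRS.Qfo
import Pool.Agent.CRS.Gdc
import Pool.Agent.CRS.Par
import Pool.Agent.CRS.Sep
import Pool.Agent.CRS.Top
import Pool.Agent.CRS.Hmn
import Pool.Agent.CRS.Hmx
import Pool.Agent.CRS.Hsw
import Pool.Agent.CRS.Hom
import Pool.Agent.CRS.Kzd

/-!
Campaign CRS (problem MP_1bb14d_al, stage 7), step H: all statements of the file StH.
-/

set_option autoImplicit false

namespace Pool.Agent.CRS

theorem dwx : St_Dwx := thm_Dwx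
theorem exl : St_Exl := thm_Exl
theorem qfo : St_Qfo := thm_Qfo
theorem gdc : St_Gdc := thm_Gdc
theorem par : St_Par := thm_Par gdc exl
theorem sep : St_Sep := thm_Sep gdc exl qfo dwx
theorem top3 : St_Top := thm_Top qfo exl jk0
theorem hmn : St_Hmn := thm_Hmn qfo gdc par sep top3
theorem hmx : St_Hmx := thm_Hmx qfo dwx exl gdc
theorem hsw : St_Hsw := thm_Hsw exl

/-- Step H. -/
theorem hom : St_Hom := thm_Hom hmn hmx hsw gdc

end Pool.Agent.CRS
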