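import Pool.Agent.CRS.StI

/-!
Campaign CRS, p = 2: case A for `g ≥ 5` (the proofs of the modules CAG by helper91, CAV by helper89, TwA by helper57 with 5 for 6).
-/

set_option autoImplicit false

namespace Pool.Agent.CRS

open Pool.Agent.CRR Pool.Agent.CRN Pool.Agent.CRK Pool.Agent.CRL Pool.Agent.CRM Pool.Agent.CRP
open Pool.Agent.CRQ

/-- [CAG] for `g ≥ 5`. -/
def St_CAG5 : Prop := ∀ (K : Type) [CommRing K] (A : Type) [NonUnitalRing A] [Module K A] [IsScalarTower K A A]
  [SMulCommClass K A A] (M H : AddSubgroup A) (g : ℕ), Kst K 2 M H → Mt M → 5 ≤ g →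
  (∀ l : List A, g + 3 ≤ l.length → wp l = 0) → ∀ w : List ℕ, w.length = g + 2 → (∀ i, i ∈ w ↔ i < g) →
  (∃ x : Fin g → A, Vg [((1 : ℤ), w)] x ≠ 0) → Good K 2 M H g (Kc [(1 : K)] [[((1 : ℤ), w)]])

/-- [CAV] for `g ≥ 5`. -/
def St_CAV5 : Prop := ∀ (A : Type) [NonUnitalRing A] (g : ℕ), N2 A → 5 ≤ g → (∀ x : Fin g → A, Vg (A1 g) x = 0) →
  (∀ x : Fin g → A, Vg (A2 g) x = 0) → ∀ (x : Fin g → A) (w : List (Fin g)), w.length = g + 2 → wp (w.map x) = 0

/-- [TwA] Case A for `g ≥ 5`. -/
def St_TwA5 : Prop := ∀ (K : Type) [CommRing K] (A : Type) [NonUnitalRing A] [Module K A] [IsScalarTower K A A]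
  [SMulCommClass K A A] (M H : AddSubgroup A) (g : ℕ), Kst K 2 M H → Mt M → 5 ≤ g →
  (∀ l : List A, g + 3 ≤ l.length → wp l = 0) → Dm K 2 M g → (∃ l : List A, g + 2 ≤ l.length ∧ wp l ≠ 0) →
  ∃ (B : List (List (ℤ × List ℕ))) (c : List K), Tb2 g B ∧ c.length = B.length ∧ Good K 2 M H g (Kc c B)


/-- A word with letters `< g` as a word over `Fin g`. -/
theorem CA5a_fin (g : ℕ) (w : List ℕ) (hw : ∀ i ∈ w, i < g) :
    ∃ w' : List (Fin g), w'.map Fin.val = w := by
  refine ⟨w.pmap (fun i hi => (⟨i, hi⟩ : Fin g)) hw, ?_⟩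
  rw [List.map_pmap]
  simp

theorem CA5a_val {K A : Type} [CommRing K] [NonUnitalRing A] [Module K A] {g : ℕ}
    (w' : List (Fin g)) (x : Fin g → A) :
    Kc [(1 : K)] [[((1 : ℤ), w'.map Fin.val)]] x = wp (w'.map x) := by
  have h1 : (w'.map Fin.val).map (xs x) = w'.map x := by
    rw [List.map_map]
    refine List.map_congr_left fun i _ => ?_
    show xs x i.val = x i
    unfold xs
    rw [dif_pos i.2]
  unfold Kc Vg ev
  simp only [List.zip_cons_cons, List.zip_nil_right, List.map_cons, List.map_nil, List.sum_cons,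
    List.sum_nil, add_zero, one_smul]
  rw [h1]

/-- Dependent elements. -/
theorem CA5a_dep {K : Type} [CommRing K] {A : Type} [NonUnitalRing A] [Module K A]
    {M H : AddSubgroup A} (hK : Kst K 2 M H) {g : ℕ} (x : Fin g → A) (c : Fin g → K) (j : Fin g)
    (hc : Ku K A 2 (c j)) (hM : ∑ i, c i • x i ∈ M) :
    ∃ d : {i : Fin g // i ≠ j} → K, x j - ∑ i, d i • x i.1 ∈ M := by
  obtain ⟨d, hd⟩ := hc
  obtain ⟨y, hy⟩ := hd (x j)
  refine ⟨fun i => -(d * c i.1), ?_⟩
  have h1 : d • (∑ i, c i • x i) ∈ M := hK.mK d _ hM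
  have h2 : d • c j • x j - x j ∈ M := by
    rw [hy]
    exact hK.mp y
  have h3 : ∑ i, c i • x i = c j • x j + ∑ i : {i : Fin g // i ≠ j}, c i.1 • x i.1 := by
    rw [Fintype.sum_eq_add_sum_subtype_ne (fun i => c i • x i) j]
  have h4 : x j - ∑ i : {i : Fin g // i ≠ j}, (-(d * c i.1)) • x i.1 =
      d • (∑ i, c i • x i) - (d • c j • x j - x j) := by
    rw [h3, smul_add, Finset.smul_sum]
    have h5 : ∀ i : {i : Fin g // i ≠ j}, (-(d * c i.1)) • x i.1 = -(d • c i.1 • x i.1) := by
      intro i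
      rw [neg_smul, mul_smul]
    rw [Finset.sum_congr rfl fun i _ => h5 i, Finset.sum_neg_distrib]
    abel
  rw [h4]
  exact M.sub_mem h1 h2

theorem thm_CAG5 (hTOP : St_TOP) (hSPN : St_SPN) (hKZ : St_KZ) : St_CAG5 := by
  classical
  intro K _ A _ _ _ _ M H g hK hM hg htop w hw hwl hne
  obtain ⟨w', rfl⟩ := CA5a_fin g w fun i hi => (hwl i).1 hi
  rw [List.length_map] at hw
  obtain ⟨T1, T2, T3⟩ := hTOP K A M H (g + 2) hK hM (by omega) (by
    intro l hl
    exact htop l (by omega))
  have hv := CA5a_val (K := K) (A := A) w'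
  refine ⟨fun x => ?_, fun x y hxy => ?_, fun x c j hc hcM => ?_, ?_⟩
  · rw [hv]
    exact T1 _ (by rw [List.length_map, hw])
  · rw [hv, hv]
    exact T3 (Fin g) x y w' hw hxy
  · rw [hv]
    obtain ⟨d, hd⟩ := CA5a_dep hK x c j hc hcM
    have hN2 : N2 A := ⟨hK.cube, hK.pr⟩
    refine hSPN K A M H (g + 2) hK hM (by omega) (fun l hl => htop l (by omega))
      {i : Fin g // i ≠ j} (fun i => x i.1) ?_ (w'.map x) (by rw [List.length_map, hw]) ?_
    · intro v hv
      refine hKZ A hN2 {i : Fin g // i ≠ j} _ v (by omega) ?_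
      have h1 : v.toFinset.card ≤ Fintype.card {i : Fin g // i ≠ j} := Finset.card_le_univ _
      have h2 : Fintype.card {i : Fin g // i ≠ j} = g - 1 := by
        rw [Fintype.card_subtype_compl, Fintype.card_fin, Fintype.card_subtype_eq]
      omega
    · intro z hz
      obtain ⟨i, _, rfl⟩ := List.mem_map.1 hz
      by_cases hij : i = j
      · subst hij
        exact ⟨d, hd⟩
      · refine ⟨Pi.single ⟨i, hij⟩ 1, ?_⟩
        have h1 : ∑ k : {i : Fin g // i ≠ j}, (Pi.single (M := fun _ => K) ⟨i, hij⟩ 1 : _ → K) k • x k.1 = x i := by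
          rw [Finset.sum_eq_single (⟨i, hij⟩ : {i : Fin g // i ≠ j})]
          · rw [Pi.single_eq_same, one_smul]
          · intro k _ hk
            rw [Pi.single_eq_of_ne hk, zero_smul]
          · intro h
            exact absurd (Finset.mem_univ _) h
        rw [h1, sub_self]
        exact M.zero_mem
  · obtain ⟨x, hx⟩ := hne
    refine ⟨x, fun h => hx ?_⟩
    rw [← h]
    unfold Kc
    simp



private theorem CA5b_adj0 {ι A : Type} [AddCommMonoid A] (κ : ι → ι → A) (l : List ι) :
    ∀ c : ι, (∀ c, ∀ d ∈ l, κ c d = 0) → adj κ (c :: l) = 0 := by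
  induction l with
  | nil => intro c _; rfl
  | cons d l ih =>
    intro c h
    rw [adj, h c d (by simp), zero_add]
    exact ih d (fun c e he => h c e (by simp [he]))

private theorem CA5b_adjz {ι A : Type} [AddCommMonoid A] (κ : ι → ι → A) (h : ∀ c d, κ c d = 0)
    (l : List ι) : adj κ l = 0 := by
  cases l with
  | nil => rfl
  | cons c l => exact CA5b_adj0 κ l c (fun c d _ => h c d)

/-- the other letters -/
private def CA5b_m (g : ℕ) (z o : Fin g) : List (Fin g) := ((List.finRange g).erase z).erase o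

private theorem CA5b_m_val {g : ℕ} (z o : Fin g) (hz : (z : ℕ) = 0) (ho : (o : ℕ) = 1) :
    (CA5b_m g z o).map Fin.val = ((List.range g).erase 0).erase 1 := by
  unfold CA5b_m
  rw [List.map_erase Fin.val_injective, List.map_erase Fin.val_injective, List.map_coe_finRange_eq_range,
    hz, ho]

private theorem CA5b_m_count {g : ℕ} {z o : Fin g} (hzo : z ≠ o) (k : Fin g) :
    (CA5b_m g z o).count k = if k = z ∨ k = o then 0 else 1 := by
  unfold CA5b_m
  have h1 : (List.finRange g).count k = 1 :=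
    List.count_eq_one_of_mem (List.nodup_finRange g) (List.mem_finRange k)
  by_cases hk : k = o
  · subst hk
    rw [List.count_erase_self, List.count_erase_of_ne hzo.symm, h1]
    simp
  · rw [List.count_erase_of_ne hk]
    by_cases hkz : k = z
    · subst hkz
      rw [List.count_erase_self, h1]
      simp
    · rw [List.count_erase_of_ne hkz, h1]
      simp [hk, hkz]

private theorem CA5b_count_map {g : ℕ} (σ : Equiv.Perm (Fin g)) (l : List (Fin g)) (k : Fin g) :
    (l.map σ).count (σ k) = l.count k := List.count_map_of_injective _ _ σ.injective _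

private theorem CA5b_perm {g : ℕ} {z o a b : Fin g} (hzo : z ≠ o) (hab : a ≠ b) :
    ∃ σ : Equiv.Perm (Fin g), σ z = a ∧ σ o = b := by
  refine ⟨Equiv.swap (Equiv.swap z a o) b * Equiv.swap z a, ?_, ?_⟩
  · rw [Equiv.Perm.mul_apply, Equiv.swap_apply_left]
    apply Equiv.swap_apply_of_ne_of_ne
    · intro h
      have h2 : Equiv.swap z a z = Equiv.swap z a o := by rw [Equiv.swap_apply_left]; exact h
      exact hzo ((Equiv.swap z a).injective h2)
    · exact hab
  · rw [Equiv.Perm.mul_apply, Equiv.swap_apply_left]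

private theorem CA5b_xs {A : Type} [NonUnitalRing A] {g : ℕ} (y : Fin g → A) (l : List (Fin g)) :
    (l.map Fin.val).map (xs y) = l.map y := by
  rw [List.map_map]
  apply List.map_congr_left
  intro i _
  simp [xs, i.2]

private theorem CA5b_A1 {A : Type} [NonUnitalRing A] {g : ℕ} (z o : Fin g) (hz : (z : ℕ) = 0)
    (ho : (o : ℕ) = 1) (x : Fin g → A) (σ : Equiv.Perm (Fin g)) :
    Vg (A1 g) (fun i => x (σ i)) =
      wp ((σ z :: σ z :: σ o :: σ z :: (CA5b_m g z o).map σ).map x) := by
  have e : A1 g = [(1, (z :: z :: o :: z :: CA5b_m g z o).map Fin.val)] := by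
    simp only [A1, List.map_cons, CA5b_m_val z o hz ho, hz, ho]
  rw [Vg, e, ev]
  simp only [List.map_cons, List.map_nil, List.sum_cons, List.sum_nil, add_zero, one_smul]
  have h := CA5b_xs (fun i => x (σ i)) (z :: z :: o :: z :: CA5b_m g z o)
  simp only [List.map_cons] at h
  rw [h]
  simp only [List.map_map]
  rfl

private theorem CA5b_A2 {A : Type} [NonUnitalRing A] {g : ℕ} (z o : Fin g) (hz : (z : ℕ) = 0)
    (ho : (o : ℕ) = 1) (x : Fin g → A) (σ : Equiv.Perm (Fin g)) :
    Vg (A2 g) (fun i => x (σ i)) =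
      wp ((σ z :: σ z :: σ o :: σ o :: (CA5b_m g z o).map σ).map x) := by
  have e : A2 g = [(1, (z :: z :: o :: o :: CA5b_m g z o).map Fin.val)] := by
    simp only [A2, List.map_cons, CA5b_m_val z o hz ho, hz, ho]
  rw [Vg, e, ev]
  simp only [List.map_cons, List.map_nil, List.sum_cons, List.sum_nil, add_zero, one_smul]
  have h := CA5b_xs (fun i => x (σ i)) (z :: z :: o :: o :: CA5b_m g z o)
  simp only [List.map_cons] at h
  rw [h]
  simp only [List.map_map]
  rfl

private theorem CA5b_one {A : Type} [NonUnitalRing A] {g : ℕ} (h3 : St_K3) (hN : N2 A)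
    (hg : 5 ≤ g) (hA : ∀ x : Fin g → A, Vg (A1 g) x = 0) (x : Fin g → A) (w : List (Fin g))
    (a : Fin g) (h1 : w.count a = 3) (h2 : ∀ i, i ≠ a → w.count i = 1) : wp (w.map x) = 0 := by
  obtain ⟨κ, -, hκ0, hκ⟩ := h3 A hN (Fin g) (by rw [Fintype.card_fin]; omega) a x
  rw [hκ w h1 h2]
  apply CA5b_adjz
  intro c d
  by_cases hcd : c = a ∧ d = a
  · obtain ⟨rfl, rfl⟩ := hcd
    let z : Fin g := ⟨0, by omega⟩
    let o : Fin g := ⟨1, by omega⟩
    have hzo : z ≠ o := by
      intro h
      have := congrArg Fin.val h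
      simp [z, o] at this
    let σ : Equiv.Perm (Fin g) := Equiv.swap z d
    have hσz : σ z = d := Equiv.swap_apply_left z d
    have hv := hA (fun i => x (σ i))
    rw [CA5b_A1 z o rfl rfl, hσz] at hv
    have hm : ∀ k : Fin g, ((CA5b_m g z o).map σ).count (σ k) = if k = z ∨ k = o then 0 else 1 :=
      fun k => by rw [CA5b_count_map, CA5b_m_count hzo]
    have hso : σ o ≠ d := by
      rw [← hσz]
      exact fun h => hzo (σ.injective h).symm
    have hmd : d ∉ (CA5b_m g z o).map σ := by
      rw [← List.count_eq_zero, ← hσz, hm]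
      simp
    rw [hκ] at hv
    · rw [adj, adj, adj, hκ0 d (σ o) (fun h => hso h.2), hκ0 (σ o) d (fun h => hso h.1),
        CA5b_adj0 κ _ d (fun c e he => hκ0 c e (fun h => hmd (h.2 ▸ he)))] at hv
      simpa using hv
    · have := hm z
      rw [hσz] at this
      rw [List.count_cons_self, List.count_cons_self, List.count_cons_of_ne hso,
        List.count_cons_self, this]
      simp
    · intro i hi
      obtain ⟨k, rfl⟩ := σ.surjective i
      have hkz : k ≠ z := by
        rintro rfl
        exact hi hσz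
      have hi' : d ≠ σ k := hi.symm
      rw [List.count_cons_of_ne hi', List.count_cons_of_ne hi']
      by_cases hko : k = o
      · subst hko
        rw [List.count_cons_self, List.count_cons_of_ne hi', hm]
        simp
      · have hne : σ o ≠ σ k := fun h => hko (σ.injective h).symm
        rw [List.count_cons_of_ne hne, List.count_cons_of_ne hi', hm]
        simp [hkz, hko]
  · exact hκ0 c d hcd

private theorem CA5b_two' {A : Type} [NonUnitalRing A] {g : ℕ}
    (hg : 5 ≤ g) (hA : ∀ x : Fin g → A, Vg (A2 g) x = 0) (x : Fin g → A)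
    (a b : Fin g) (hab : a ≠ b) (κ : Fin g → Fin g → A)
    (hκ0 : ∀ i j, ¬ (i = a ∧ j = b) → ¬ (i = b ∧ j = a) → κ i j = 0)
    (hκ : ∀ w : List (Fin g), w.count a = 2 → w.count b = 2 →
      (∀ i, i ≠ a → i ≠ b → w.count i = 1) → wp (w.map x) = adj κ w) : κ a b = 0 := by
  let z : Fin g := ⟨0, by omega⟩
  let o : Fin g := ⟨1, by omega⟩
  have hzo : z ≠ o := by
    intro h
    have := congrArg Fin.val h
    simp [z, o] at this
  obtain ⟨σ, hσz, hσo⟩ := CA5b_perm hzo hab
  have hv := hA (fun i => x (σ i))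
  rw [CA5b_A2 z o rfl rfl, hσz, hσo] at hv
  have hm : ∀ k : Fin g, ((CA5b_m g z o).map σ).count (σ k) = if k = z ∨ k = o then 0 else 1 :=
    fun k => by rw [CA5b_count_map, CA5b_m_count hzo]
  have hma : a ∉ (CA5b_m g z o).map σ := by
    rw [← List.count_eq_zero, ← hσz, hm]
    simp
  have hmb : b ∉ (CA5b_m g z o).map σ := by
    rw [← List.count_eq_zero, ← hσo, hm]
    simp
  rw [hκ] at hv
  · rw [adj, adj, adj, hκ0 a a (fun h => hab h.2) (fun h => hab h.1),
      hκ0 b b (fun h => hab h.1.symm) (fun h => hab h.2.symm),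
      CA5b_adj0 κ _ b (fun c e he => hκ0 c e (fun h => hmb (h.2 ▸ he)) (fun h => hma (h.2 ▸ he)))]
      at hv
    simpa using hv
  · have := hm z
    rw [hσz] at this
    rw [List.count_cons_self, List.count_cons_self, List.count_cons_of_ne hab.symm,
      List.count_cons_of_ne hab.symm, this]
    simp
  · have := hm o
    rw [hσo] at this
    rw [List.count_cons_of_ne hab, List.count_cons_of_ne hab, List.count_cons_self,
      List.count_cons_self, this]
    simp
  · intro i hia hib
    obtain ⟨k, rfl⟩ := σ.surjective i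
    have hkz : k ≠ z := by
      rintro rfl
      exact hia hσz
    have hko : k ≠ o := by
      rintro rfl
      exact hib hσo
    rw [List.count_cons_of_ne hia.symm, List.count_cons_of_ne hia.symm,
      List.count_cons_of_ne hib.symm, List.count_cons_of_ne hib.symm, hm]
    simp [hkz, hko]

private theorem CA5b_two {A : Type} [NonUnitalRing A] {g : ℕ} (h22 : St_K22) (hN : N2 A)
    (hg : 5 ≤ g) (hA : ∀ x : Fin g → A, Vg (A2 g) x = 0) (x : Fin g → A) (w : List (Fin g))
    (a b : Fin g) (hab : a ≠ b) (h1 : w.count a = 2) (h1' : w.count b = 2)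
    (h2 : ∀ i, i ≠ a → i ≠ b → w.count i = 1) : wp (w.map x) = 0 := by
  obtain ⟨κ, -, hκ0, hκ⟩ := h22 A hN (Fin g) (by rw [Fintype.card_fin]; omega) a b x hab
  rw [hκ w h1 h1' h2]
  have k1 : κ a b = 0 := CA5b_two' hg hA x a b hab κ hκ0 hκ
  have k2 : κ b a = 0 := CA5b_two' hg hA x b a hab.symm κ (fun i j h h' => hκ0 i j h' h)
    (fun w h h' h'' => hκ w h' h (fun i hi hi' => h'' i hi' hi))
  apply CA5b_adjz
  intro c d
  by_cases hcd : c = a ∧ d = b
  · obtain ⟨rfl, rfl⟩ := hcd
    exact k1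
  · by_cases hcd' : c = b ∧ d = a
    · obtain ⟨rfl, rfl⟩ := hcd'
      exact k2
    · exact hκ0 c d hcd hcd'

theorem thm_CAV5 (h3 : St_K3) (h22 : St_K22) (hZ : St_KZ) : St_CAV5 := by
  intro A _ g hN hg hA1 hA2 x w hw
  by_cases hc : w.toFinset.card + 3 ≤ w.length
  · exact hZ A hN (Fin g) x w (by omega) hc
  · have hcard : w.toFinset = Finset.univ := by
      apply Finset.eq_univ_of_card
      have h1 := Finset.card_le_univ w.toFinset
      rw [Fintype.card_fin] at h1 ⊢
      omega
    have hge : ∀ i, 1 ≤ w.count i := by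
      intro i
      have : i ∈ w.toFinset := by rw [hcard]; exact Finset.mem_univ i
      exact List.one_le_count_iff.mpr (List.mem_toFinset.mp this)
    have hsum : ∑ i, (w.count i - 1) = 2 := by
      have h1 : ∑ i, w.count i = w.length := by
        have := List.sum_toFinset_count_eq_length w
        rwa [hcard] at this
      have h2 : ∑ i, (w.count i - 1) + ∑ i : Fin g, 1 = ∑ i, w.count i := by
        rw [← Finset.sum_add_distrib]
        exact Finset.sum_congr rfl fun i _ => Nat.sub_add_cancel (hge i)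
      rw [h1, hw] at h2
      simp only [Finset.sum_const, Finset.card_univ, Fintype.card_fin, smul_eq_mul, mul_one] at h2
      omega
    obtain ⟨a, -, ha⟩ : ∃ a ∈ Finset.univ, w.count a - 1 ≠ 0 := by
      apply Finset.exists_ne_zero_of_sum_ne_zero
      rw [hsum]
      norm_num
    have hsp := Finset.add_sum_erase Finset.univ (fun i => w.count i - 1) (Finset.mem_univ a)
    rw [hsum] at hsp
    by_cases ha3 : w.count a = 3
    · have h0 : ∑ i ∈ Finset.univ.erase a, (w.count i - 1) = 0 := by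
        omega
      rw [Finset.sum_eq_zero_iff] at h0
      refine CA5b_one h3 hN hg hA1 x w a ha3 (fun i hi => ?_)
      have := h0 i (Finset.mem_erase.mpr ⟨hi, Finset.mem_univ i⟩)
      have := hge i
      omega
    · have h1 : ∑ i ∈ Finset.univ.erase a, (w.count i - 1) ≤ 1 := by
        omega
      have h1' : ∑ i ∈ Finset.univ.erase a, (w.count i - 1) ≠ 0 := by
        omega
      obtain ⟨b, hb, hb0⟩ := Finset.exists_ne_zero_of_sum_ne_zero h1'
      have hsp2 := Finset.add_sum_erase (Finset.univ.erase a) (fun i => w.count i - 1) hb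
      have hba : b ≠ a := (Finset.mem_erase.mp hb).1
      have h0 : ∑ i ∈ (Finset.univ.erase a).erase b, (w.count i - 1) = 0 := by omega
      rw [Finset.sum_eq_zero_iff] at h0
      refine CA5b_two h22 hN hg hA2 x w a b hba.symm (by omega) (by omega) (fun i hi hi' => ?_)
      have := h0 i (Finset.mem_erase.mpr ⟨hi', Finset.mem_erase.mpr ⟨hi, Finset.mem_univ i⟩⟩)
      have := hge i
      omega



private theorem CA5c_len {g : ℕ} (hg : 5 ≤ g) : (((List.range g).erase 0).erase 1).length = g - 2 := by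
  have h0 : 0 ∈ List.range g := List.mem_range.2 (by omega)
  have h1 : 1 ∈ (List.range g).erase 0 :=
    (List.mem_erase_of_ne (by omega)).2 (List.mem_range.2 (by omega))
  rw [List.length_erase_of_mem h1, List.length_erase_of_mem h0, List.length_range]
  omega

private theorem CA5c_mem {g : ℕ} (i : ℕ) :
    i ∈ ((List.range g).erase 0).erase 1 ↔ i ≠ 1 ∧ i ≠ 0 ∧ i < g := by
  rw [(List.nodup_range.erase 0).mem_erase_iff, List.nodup_range.mem_erase_iff, List.mem_range]

/-- **TWA.** -/
theorem thm_TwA5 (hCAG : St_CAG5) (hCAV : St_CAV5) (hLAD : St_LAD) : St_TwA5 := by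
  intro K _ A _ _ _ _ M H g hK hMt hg htop hDm hne
  have hN2 : N2 A := ⟨hK.cube, hK.pr⟩
  by_cases h1 : ∃ x : Fin g → A, Vg (A1 g) x ≠ 0
  · refine ⟨[A1 g], [1], Or.inr (Or.inr (Or.inr (Or.inr (Or.inl rfl)))), rfl, ?_⟩
    refine hCAG K A M H g hK hMt hg htop _ ?_ ?_ h1
    · simp only [List.length_cons, CA5c_len hg]
      omega
    · intro i
      simp only [List.mem_cons, CA5c_mem]
      omega
  · by_cases h2 : ∃ x : Fin g → A, Vg (A2 g) x ≠ 0
    · refine ⟨[A2 g], [1], Or.inr (Or.inr (Or.inr (Or.inr (Or.inr rfl)))), rfl, ?_⟩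
      refine hCAG K A M H g hK hMt hg htop _ ?_ ?_ h2
      · simp only [List.length_cons, CA5c_len hg]
        omega
      · intro i
        simp only [List.mem_cons, CA5c_mem]
        omega
    · exfalso
      push Not at h1 h2
      have h3 := hLAD K A M H g (g + 2) hK hMt (by omega) htop hDm
        (hCAV A g hN2 hg h1 h2)
      obtain ⟨l, hl, hl0⟩ := hne
      rcases hl.eq_or_lt with h | h
      · exact hl0 (h3 l h.symm)
      · exact hl0 (htop l h)

end Pool.Agent.CRS
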