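import Pool.Agent.CRS.StI

/-!
# CRS.BAS: basic facts on the products of at least 6 elements (MP_1bb14d_al)
-/

set_option autoImplicit false

namespace Pool.Agent.CRS

open Pool.Agent.CRR Pool.Agent.CRN Pool.Agent.CRK Pool.Agent.CRL Pool.Agent.CRM Pool.Agent.CRP
open Pool.Agent.CRQ

private theorem BAS_wp {A : Type} [NonUnitalRing A] (l : List A) (h : 6 ≤ l.length) :
    ∃ (a : A) (l' : List A), l = a :: l' ∧ wp l = a * wp l' ∧ ∀ b : A, wp (b :: l') = b * wp l' ∧ 6 ≤ (b :: l').length := by
  match l, h with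
  | a :: b :: l', h => exact ⟨a, b :: l', rfl, rfl, fun c => ⟨rfl, by simpa using h⟩⟩

private theorem BAS_two {A : Type} [NonUnitalRing A] (h0 : St_K0) (hA : N2 A) (a y : A) (l : List A)
    (h : ∀ b : A, wp (b :: l) = b * wp l ∧ 6 ≤ (b :: l).length) (ha : a = 2 • y) : a * wp l = 0 := by
  rw [ha, smul_mul_assoc, two_smul, ← (h y).1]
  exact h0 A hA _ (h y).2

/-- Basic facts. -/
theorem thm_BAS : St_K0 → St_BAS := by
  intro h0 K _ A _ _ _ _ M H hK
  have hA : N2 A := ⟨hK.cube, hK.pr⟩
  have hmem : ∀ l : List A, 6 ≤ l.length → wp l ∈ Sx A := fun l hl => AddSubgroup.subset_closure ⟨l, hl, rfl⟩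
  have key : ∀ c : K, (∀ x : A, ∃ y : A, c • x = 2 • y) → ∀ z ∈ Sx A, c • z = 0 := by
    intro c hc z hz
    unfold Sx at hz
    induction hz using AddSubgroup.closure_induction with
    | mem z hz =>
      obtain ⟨l, hl, rfl⟩ := hz
      obtain ⟨a, l', _, h2, h3⟩ := BAS_wp l hl
      obtain ⟨y, hy⟩ := hc a
      rw [h2, ← smul_mul_assoc]
      exact BAS_two h0 hA _ y l' h3 hy
    | zero => simp
    | add a b _ _ ha hb => rw [smul_add, ha, hb, add_zero]
    | neg a _ ha => rw [smul_neg, ha, neg_zero]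
  have key2 : ∀ c d : K, (∀ x : A, ∃ y : A, d • c • x - x = 2 • y) → ∀ z ∈ Sx A, d • c • z = z := by
    intro c d hc z hz
    unfold Sx at hz
    induction hz using AddSubgroup.closure_induction with
    | mem z hz =>
      obtain ⟨l, hl, rfl⟩ := hz
      obtain ⟨a, l', _, h2, h3⟩ := BAS_wp l hl
      obtain ⟨y, hy⟩ := hc a
      rw [h2, ← smul_mul_assoc, ← smul_mul_assoc, ← sub_eq_zero, ← sub_mul]
      exact BAS_two h0 hA _ y l' h3 hy
    | zero => simp
    | add a b _ _ ha hb => rw [smul_add, smul_add, ha, hb]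
    | neg a _ ha => rw [smul_neg, smul_neg, ha]
  refine ⟨hA, ?_, hmem, ?_, ?_, ?_⟩
  · intro z hz
    unfold Sx at hz
    induction hz using AddSubgroup.closure_induction with
    | mem z hz =>
      obtain ⟨l, hl, rfl⟩ := hz
      exact h0 A hA l hl
    | zero => simp
    | add a b _ _ ha hb =>
      have : a + b + (a + b) = (a + a) + (b + b) := by abel
      rw [this, ha, hb, add_zero]
    | neg a _ ha =>
      have : -a + -a = -(a + a) := by abel
      rw [this, ha, neg_zero]
  · intro ι x z hz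
    unfold Wg at hz
    unfold Sx
    refine AddSubgroup.closure_mono ?_ hz
    rintro _ ⟨w, hw, rfl⟩
    exact ⟨w.map x, by simpa using hw, rfl⟩
  · intro c z hz
    unfold Sx at hz
    induction hz using AddSubgroup.closure_induction with
    | mem z hz =>
      obtain ⟨l, hl, rfl⟩ := hz
      obtain ⟨a, l', _, h2, h3⟩ := BAS_wp l hl
      rw [h2, ← smul_mul_assoc, ← (h3 (c • a)).1]
      exact hmem _ (h3 (c • a)).2
    | zero =>
      rw [smul_zero]
      exact (Sx A).zero_mem
    | add a b _ _ ha hb =>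
      rw [smul_add]
      exact (Sx A).add_mem ha hb
    | neg a _ ha =>
      rw [smul_neg]
      exact (Sx A).neg_mem ha
  · intro c
    rcases hK.fld c with hc | hc
    · left
      refine ⟨key c hc, fun x => ?_⟩
      obtain ⟨y, hy⟩ := hc x
      rw [hy]
      exact hK.mp y
    · right
      refine ⟨?_, hc⟩
      obtain ⟨d, hd⟩ := hc
      intro z hz hcz
      rw [← key2 c d hd z hz, hcz, smul_zero]

end Pool.Agent.CRS
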