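import Pool.Agent.CRS.StG
import Mathlib.Tactic

/-!
Campaign CRS, module Brg: the field and the vector space.
-/

set_option autoImplicit false

namespace Pool.Agent.CRS

open Pool.Agent.CRR Pool.Agent.CRN Pool.Agent.CRK Pool.Agent.CRL Pool.Agent.CRM Pool.Agent.CRP
open Pool.Agent.CRQ

/-- The ideal of the elements which act by zero modulo 2. -/
private def brg_I (K A : Type) [CommRing K] [NonUnitalRing A] [Module K A] : Ideal K where
  carrier := {c | ∀ x : A, ∃ y : A, c • x = 2 • y}
  add_mem' := by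
    intro a b ha hb x
    obtain ⟨y, hy⟩ := ha x
    obtain ⟨z, hz⟩ := hb x
    exact ⟨y + z, by rw [add_smul, hy, hz, smul_add]⟩
  zero_mem' := fun x => ⟨0, by rw [zero_smul, smul_zero]⟩
  smul_mem' := by
    intro k c hc x
    obtain ⟨y, hy⟩ := hc x
    exact ⟨k • y, by rw [smul_eq_mul, mul_smul, hy, smul_comm]⟩

private theorem brg_mem {K A : Type} [CommRing K] [NonUnitalRing A] [Module K A] (c : K) :
    c ∈ brg_I K A ↔ ∀ x : A, ∃ y : A, c • x = 2 • y := Iff.rfl

theorem thm_Brg : St_Brg := by
  intro h0 K _ A _ _ _ _ M H hK hne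
  have hN : N2 A := ⟨hK.cube, hK.pr⟩
  have h1 : (1 : K) ∉ brg_I K A := by
    intro h
    obtain ⟨r, hr⟩ := hK.pr
    have hall : ∀ (k : ℕ) (x : A), ∃ y : A, x = (2 ^ k) • y := by
      intro k
      induction k with
      | zero => intro x; exact ⟨x, by rw [pow_zero, one_smul]⟩
      | succ k ih =>
        intro x
        obtain ⟨y, hy⟩ := ih x
        obtain ⟨z, hz⟩ := (brg_mem _).1 h y
        rw [one_smul] at hz
        exact ⟨z, by rw [hy, hz, smul_smul, pow_succ]⟩
    obtain ⟨x, hx⟩ := hne
    obtain ⟨y, hy⟩ := hall r x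
    exact hx (by rw [hy, hr])
  have hmax : (brg_I K A).IsMaximal := by
    rw [Ideal.isMaximal_iff]
    refine ⟨h1, fun J c hJ hc hcJ => ?_⟩
    rcases hK.fld c with h | ⟨d, hd⟩
    · exact absurd ((brg_mem c).2 h) hc
    · have h2 : d * c - 1 ∈ brg_I K A := by
        rw [brg_mem]
        intro x
        obtain ⟨y, hy⟩ := hd x
        exact ⟨y, by rw [sub_smul, mul_smul, one_smul, hy]⟩
      have h3 : d * c - (d * c - 1) ∈ J := J.sub_mem (J.mul_mem_left d hcJ) (hJ h2)
      rwa [sub_sub_cancel] at h3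
  let W : Submodule K A := Submodule.span K {y | ∃ l : List A, 6 ≤ l.length ∧ y = wp l}
  have htor : Module.IsTorsionBySet K W (brg_I K A : Set K) := by
    have key : ∀ c ∈ brg_I K A, ∀ v ∈ W, c • v = 0 := by
      intro c hc v hv
      refine Submodule.span_induction (p := fun v _ => c • v = 0) ?_ ?_ ?_ ?_ hv
      · rintro y ⟨l, hl, rfl⟩
        match l, hl with
        | x :: y :: l, hl =>
          show c • (x * wp (y :: l)) = 0
          obtain ⟨z, hz⟩ := (brg_mem c).1 hc x
          rw [← smul_mul_assoc, hz, two_smul, add_mul]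
          exact h0 A hN (z :: y :: l) hl
      · rw [smul_zero]
      · intro a b _ _ ha hb
        rw [smul_add, ha, hb, add_zero]
      · intro k a _ ha
        rw [smul_comm, ha, smul_zero]
    intro v c
    exact Subtype.ext (key c c.2 v v.2)
  let _ : Field (K ⧸ brg_I K A) := Ideal.Quotient.field _
  let _ : Module (K ⧸ brg_I K A) W := htor.module
  refine ⟨K ⧸ brg_I K A, inferInstance, W, inferInstance, inferInstance, Ideal.Quotient.mk _,
    W.subtype.toAddMonoidHom, Ideal.Quotient.mk_surjective, Subtype.val_injective, ?_, ?_, ?_⟩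
  · have h2 : (2 : K) ∈ brg_I K A := by
      rw [brg_mem]
      intro x
      exact ⟨x, by rw [two_smul, two_smul]⟩
    have h3 := Ideal.Quotient.eq_zero_iff_mem.2 h2
    rw [map_ofNat] at h3
    exact h3
  · intro c v
    have := Module.IsTorsionBySet.mk_smul htor c v
    rw [this]
    rfl
  · intro l hl
    exact ⟨⟨wp l, Submodule.subset_span ⟨l, hl, rfl⟩⟩, rfl⟩

end Pool.Agent.CRS
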