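import Pool.Agent.CRS.StI

/-!
Campaign CRS, module CAG: a word of length `g + 2` gives a good function if all longer products are zero.
-/

set_option autoImplicit false

namespace Pool.Agent.CRS

open Pool.Agent.CRR Pool.Agent.CRN Pool.Agent.CRK Pool.Agent.CRL Pool.Agent.CRM Pool.Agent.CRP
open Pool.Agent.CRQ

/-- A word with letters `< g` as a word over `Fin g`. -/
theorem CAG_fin (g : ℕ) (w : List ℕ) (hw : ∀ i ∈ w, i < g) :
    ∃ w' : List (Fin g), w'.map Fin.val = w := by
  refine ⟨w.pmap (fun i hi => (⟨i, hi⟩ : Fin g)) hw, ?_⟩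
  rw [List.map_pmap]
  simp

theorem CAG_val {K A : Type} [CommRing K] [NonUnitalRing A] [Module K A] {g : ℕ}
    (w' : List (Fin g)) (x : Fin g → A) :
    Kc [(1 : K)] [[((1 : ℤ), w'.map Fin.val)]] x = wp (w'.map x) := by
  have h1 : (w'.map Fin.val).map (xs x) = w'.map x := by
    rw [List.map_map]
    refine List.map_congr_left fun i _ => ?_
    show xs x i.val = x i
    unfold xs
    rw [dif_pos i.2]
  unfold Kc Vg ev
  simp only [List.zip_cons_cons, List.zip_nil_right, List.map_cons, List.map_nil, List.sum_cons,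
    List.sum_nil, add_zero, one_smul]
  rw [h1]

/-- Dependent elements. -/
theorem CAG_dep {K : Type} [CommRing K] {A : Type} [NonUnitalRing A] [Module K A]
    {M H : AddSubgroup A} (hK : Kst K 2 M H) {g : ℕ} (x : Fin g → A) (c : Fin g → K) (j : Fin g)
    (hc : Ku K A 2 (c j)) (hM : ∑ i, c i • x i ∈ M) :
    ∃ d : {i : Fin g // i ≠ j} → K, x j - ∑ i, d i • x i.1 ∈ M := by
  obtain ⟨d, hd⟩ := hc
  obtain ⟨y, hy⟩ := hd (x j)
  refine ⟨fun i => -(d * c i.1), ?_⟩
  have h1 : d • (∑ i, c i • x i) ∈ M := hK.mK d _ hM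
  have h2 : d • c j • x j - x j ∈ M := by
    rw [hy]
    exact hK.mp y
  have h3 : ∑ i, c i • x i = c j • x j + ∑ i : {i : Fin g // i ≠ j}, c i.1 • x i.1 := by
    rw [Fintype.sum_eq_add_sum_subtype_ne (fun i => c i • x i) j]
  have h4 : x j - ∑ i : {i : Fin g // i ≠ j}, (-(d * c i.1)) • x i.1 =
      d • (∑ i, c i • x i) - (d • c j • x j - x j) := by
    rw [h3, smul_add, Finset.smul_sum]
    have h5 : ∀ i : {i : Fin g // i ≠ j}, (-(d * c i.1)) • x i.1 = -(d • c i.1 • x i.1) := by
      intro i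
      rw [neg_smul, mul_smul]
    rw [Finset.sum_congr rfl fun i _ => h5 i, Finset.sum_neg_distrib]
    abel
  rw [h4]
  exact M.sub_mem h1 h2

theorem thm_CAG (hTOP : St_TOP) (hSPN : St_SPN) (hKZ : St_KZ) : St_CAG := by
  classical
  intro K _ A _ _ _ _ M H g hK hM hg htop w hw hwl hne
  obtain ⟨w', rfl⟩ := CAG_fin g w fun i hi => (hwl i).1 hi
  rw [List.length_map] at hw
  obtain ⟨T1, T2, T3⟩ := hTOP K A M H (g + 2) hK hM (by omega) (by
    intro l hl
    exact htop l (by omega))
  have hv := CAG_val (K := K) (A := A) w'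
  refine ⟨fun x => ?_, fun x y hxy => ?_, fun x c j hc hcM => ?_, ?_⟩
  · rw [hv]
    exact T1 _ (by rw [List.length_map, hw])
  · rw [hv, hv]
    exact T3 (Fin g) x y w' hw hxy
  · rw [hv]
    obtain ⟨d, hd⟩ := CAG_dep hK x c j hc hcM
    have hN2 : N2 A := ⟨hK.cube, hK.pr⟩
    refine hSPN K A M H (g + 2) hK hM (by omega) (fun l hl => htop l (by omega))
      {i : Fin g // i ≠ j} (fun i => x i.1) ?_ (w'.map x) (by rw [List.length_map, hw]) ?_
    · intro v hv
      refine hKZ A hN2 {i : Fin g // i ≠ j} _ v (by omega) ?_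
      have h1 : v.toFinset.card ≤ Fintype.card {i : Fin g // i ≠ j} := Finset.card_le_univ _
      have h2 : Fintype.card {i : Fin g // i ≠ j} = g - 1 := by
        rw [Fintype.card_subtype_compl, Fintype.card_fin, Fintype.card_subtype_eq]
      omega
    · intro z hz
      obtain ⟨i, _, rfl⟩ := List.mem_map.1 hz
      by_cases hij : i = j
      · subst hij
        exact ⟨d, hd⟩
      · refine ⟨Pi.single ⟨i, hij⟩ 1, ?_⟩
        have h1 : ∑ k : {i : Fin g // i ≠ j}, (Pi.single (M := fun _ => K) ⟨i, hij⟩ 1 : _ → K) k • x k.1 = x i := by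
          rw [Finset.sum_eq_single (⟨i, hij⟩ : {i : Fin g // i ≠ j})]
          · rw [Pi.single_eq_same, one_smul]
          · intro k _ hk
            rw [Pi.single_eq_of_ne hk, zero_smul]
          · intro h
            exact absurd (Finset.mem_univ _) h
        rw [h1, sub_self]
        exact M.zero_mem
  · obtain ⟨x, hx⟩ := hne
    refine ⟨x, fun h => hx ?_⟩
    rw [← h]
    unfold Kc
    simp

end Pool.Agent.CRS
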