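import Pool.Agent.CRS.StI

/-!
CRS: words of length `g + 2`.
-/

set_option autoImplicit false

namespace Pool.Agent.CRS

open Pool.Agent.CRR Pool.Agent.CRN Pool.Agent.CRK Pool.Agent.CRL Pool.Agent.CRM Pool.Agent.CRP
open Pool.Agent.CRQ

private theorem CAV_adj0 {ι A : Type} [AddCommMonoid A] (κ : ι → ι → A) (l : List ι) :
    ∀ c : ι, (∀ c, ∀ d ∈ l, κ c d = 0) → adj κ (c :: l) = 0 := by
  induction l with
  | nil => intro c _; rfl
  | cons d l ih =>
    intro c h
    rw [adj, h c d (by simp), zero_add]
    exact ih d (fun c e he => h c e (by simp [he]))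

private theorem CAV_adjz {ι A : Type} [AddCommMonoid A] (κ : ι → ι → A) (h : ∀ c d, κ c d = 0)
    (l : List ι) : adj κ l = 0 := by
  cases l with
  | nil => rfl
  | cons c l => exact CAV_adj0 κ l c (fun c d _ => h c d)

/-- the other letters -/
private def CAV_m (g : ℕ) (z o : Fin g) : List (Fin g) := ((List.finRange g).erase z).erase o

private theorem CAV_m_val {g : ℕ} (z o : Fin g) (hz : (z : ℕ) = 0) (ho : (o : ℕ) = 1) :
    (CAV_m g z o).map Fin.val = ((List.range g).erase 0).erase 1 := by
  unfold CAV_m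
  rw [List.map_erase Fin.val_injective, List.map_erase Fin.val_injective, List.map_coe_finRange_eq_range,
    hz, ho]

private theorem CAV_m_count {g : ℕ} {z o : Fin g} (hzo : z ≠ o) (k : Fin g) :
    (CAV_m g z o).count k = if k = z ∨ k = o then 0 else 1 := by
  unfold CAV_m
  have h1 : (List.finRange g).count k = 1 :=
    List.count_eq_one_of_mem (List.nodup_finRange g) (List.mem_finRange k)
  by_cases hk : k = o
  · subst hk
    rw [List.count_erase_self, List.count_erase_of_ne hzo.symm, h1]
    simp
  · rw [List.count_erase_of_ne hk]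
    by_cases hkz : k = z
    · subst hkz
      rw [List.count_erase_self, h1]
      simp
    · rw [List.count_erase_of_ne hkz, h1]
      simp [hk, hkz]

private theorem CAV_count_map {g : ℕ} (σ : Equiv.Perm (Fin g)) (l : List (Fin g)) (k : Fin g) :
    (l.map σ).count (σ k) = l.count k := List.count_map_of_injective _ _ σ.injective _

private theorem CAV_perm {g : ℕ} {z o a b : Fin g} (hzo : z ≠ o) (hab : a ≠ b) :
    ∃ σ : Equiv.Perm (Fin g), σ z = a ∧ σ o = b := by
  refine ⟨Equiv.swap (Equiv.swap z a o) b * Equiv.swap z a, ?_, ?_⟩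
  · rw [Equiv.Perm.mul_apply, Equiv.swap_apply_left]
    apply Equiv.swap_apply_of_ne_of_ne
    · intro h
      have h2 : Equiv.swap z a z = Equiv.swap z a o := by rw [Equiv.swap_apply_left]; exact h
      exact hzo ((Equiv.swap z a).injective h2)
    · exact hab
  · rw [Equiv.Perm.mul_apply, Equiv.swap_apply_left]

private theorem CAV_xs {A : Type} [NonUnitalRing A] {g : ℕ} (y : Fin g → A) (l : List (Fin g)) :
    (l.map Fin.val).map (xs y) = l.map y := by
  rw [List.map_map]
  apply List.map_congr_left
  intro i _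
  simp [xs, i.2]

private theorem CAV_A1 {A : Type} [NonUnitalRing A] {g : ℕ} (z o : Fin g) (hz : (z : ℕ) = 0)
    (ho : (o : ℕ) = 1) (x : Fin g → A) (σ : Equiv.Perm (Fin g)) :
    Vg (A1 g) (fun i => x (σ i)) =
      wp ((σ z :: σ z :: σ o :: σ z :: (CAV_m g z o).map σ).map x) := by
  have e : A1 g = [(1, (z :: z :: o :: z :: CAV_m g z o).map Fin.val)] := by
    simp only [A1, List.map_cons, CAV_m_val z o hz ho, hz, ho]
  rw [Vg, e, ev]
  simp only [List.map_cons, List.map_nil, List.sum_cons, List.sum_nil, add_zero, one_smul]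
  have h := CAV_xs (fun i => x (σ i)) (z :: z :: o :: z :: CAV_m g z o)
  simp only [List.map_cons] at h
  rw [h]
  simp only [List.map_map]
  rfl

private theorem CAV_A2 {A : Type} [NonUnitalRing A] {g : ℕ} (z o : Fin g) (hz : (z : ℕ) = 0)
    (ho : (o : ℕ) = 1) (x : Fin g → A) (σ : Equiv.Perm (Fin g)) :
    Vg (A2 g) (fun i => x (σ i)) =
      wp ((σ z :: σ z :: σ o :: σ o :: (CAV_m g z o).map σ).map x) := by
  have e : A2 g = [(1, (z :: z :: o :: o :: CAV_m g z o).map Fin.val)] := by
    simp only [A2, List.map_cons, CAV_m_val z o hz ho, hz, ho]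
  rw [Vg, e, ev]
  simp only [List.map_cons, List.map_nil, List.sum_cons, List.sum_nil, add_zero, one_smul]
  have h := CAV_xs (fun i => x (σ i)) (z :: z :: o :: o :: CAV_m g z o)
  simp only [List.map_cons] at h
  rw [h]
  simp only [List.map_map]
  rfl

private theorem CAV_one {A : Type} [NonUnitalRing A] {g : ℕ} (h3 : St_K3) (hN : N2 A)
    (hg : 6 ≤ g) (hA : ∀ x : Fin g → A, Vg (A1 g) x = 0) (x : Fin g → A) (w : List (Fin g))
    (a : Fin g) (h1 : w.count a = 3) (h2 : ∀ i, i ≠ a → w.count i = 1) : wp (w.map x) = 0 := by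
  obtain ⟨κ, -, hκ0, hκ⟩ := h3 A hN (Fin g) (by rw [Fintype.card_fin]; omega) a x
  rw [hκ w h1 h2]
  apply CAV_adjz
  intro c d
  by_cases hcd : c = a ∧ d = a
  · obtain ⟨rfl, rfl⟩ := hcd
    let z : Fin g := ⟨0, by omega⟩
    let o : Fin g := ⟨1, by omega⟩
    have hzo : z ≠ o := by
      intro h
      have := congrArg Fin.val h
      simp [z, o] at this
    let σ : Equiv.Perm (Fin g) := Equiv.swap z d
    have hσz : σ z = d := Equiv.swap_apply_left z d
    have hv := hA (fun i => x (σ i))
    rw [CAV_A1 z o rfl rfl, hσz] at hv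
    have hm : ∀ k : Fin g, ((CAV_m g z o).map σ).count (σ k) = if k = z ∨ k = o then 0 else 1 :=
      fun k => by rw [CAV_count_map, CAV_m_count hzo]
    have hso : σ o ≠ d := by
      rw [← hσz]
      exact fun h => hzo (σ.injective h).symm
    have hmd : d ∉ (CAV_m g z o).map σ := by
      rw [← List.count_eq_zero, ← hσz, hm]
      simp
    rw [hκ] at hv
    · rw [adj, adj, adj, hκ0 d (σ o) (fun h => hso h.2), hκ0 (σ o) d (fun h => hso h.1),
        CAV_adj0 κ _ d (fun c e he => hκ0 c e (fun h => hmd (h.2 ▸ he)))] at hv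
      simpa using hv
    · have := hm z
      rw [hσz] at this
      rw [List.count_cons_self, List.count_cons_self, List.count_cons_of_ne hso,
        List.count_cons_self, this]
      simp
    · intro i hi
      obtain ⟨k, rfl⟩ := σ.surjective i
      have hkz : k ≠ z := by
        rintro rfl
        exact hi hσz
      have hi' : d ≠ σ k := hi.symm
      rw [List.count_cons_of_ne hi', List.count_cons_of_ne hi']
      by_cases hko : k = o
      · subst hko
        rw [List.count_cons_self, List.count_cons_of_ne hi', hm]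
        simp
      · have hne : σ o ≠ σ k := fun h => hko (σ.injective h).symm
        rw [List.count_cons_of_ne hne, List.count_cons_of_ne hi', hm]
        simp [hkz, hko]
  · exact hκ0 c d hcd

private theorem CAV_two' {A : Type} [NonUnitalRing A] {g : ℕ}
    (hg : 6 ≤ g) (hA : ∀ x : Fin g → A, Vg (A2 g) x = 0) (x : Fin g → A)
    (a b : Fin g) (hab : a ≠ b) (κ : Fin g → Fin g → A)
    (hκ0 : ∀ i j, ¬ (i = a ∧ j = b) → ¬ (i = b ∧ j = a) → κ i j = 0)
    (hκ : ∀ w : List (Fin g), w.count a = 2 → w.count b = 2 →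
      (∀ i, i ≠ a → i ≠ b → w.count i = 1) → wp (w.map x) = adj κ w) : κ a b = 0 := by
  let z : Fin g := ⟨0, by omega⟩
  let o : Fin g := ⟨1, by omega⟩
  have hzo : z ≠ o := by
    intro h
    have := congrArg Fin.val h
    simp [z, o] at this
  obtain ⟨σ, hσz, hσo⟩ := CAV_perm hzo hab
  have hv := hA (fun i => x (σ i))
  rw [CAV_A2 z o rfl rfl, hσz, hσo] at hv
  have hm : ∀ k : Fin g, ((CAV_m g z o).map σ).count (σ k) = if k = z ∨ k = o then 0 else 1 :=
    fun k => by rw [CAV_count_map, CAV_m_count hzo]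
  have hma : a ∉ (CAV_m g z o).map σ := by
    rw [← List.count_eq_zero, ← hσz, hm]
    simp
  have hmb : b ∉ (CAV_m g z o).map σ := by
    rw [← List.count_eq_zero, ← hσo, hm]
    simp
  rw [hκ] at hv
  · rw [adj, adj, adj, hκ0 a a (fun h => hab h.2) (fun h => hab h.1),
      hκ0 b b (fun h => hab h.1.symm) (fun h => hab h.2.symm),
      CAV_adj0 κ _ b (fun c e he => hκ0 c e (fun h => hmb (h.2 ▸ he)) (fun h => hma (h.2 ▸ he)))]
      at hv
    simpa using hv
  · have := hm z
    rw [hσz] at this
    rw [List.count_cons_self, List.count_cons_self, List.count_cons_of_ne hab.symm,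
      List.count_cons_of_ne hab.symm, this]
    simp
  · have := hm o
    rw [hσo] at this
    rw [List.count_cons_of_ne hab, List.count_cons_of_ne hab, List.count_cons_self,
      List.count_cons_self, this]
    simp
  · intro i hia hib
    obtain ⟨k, rfl⟩ := σ.surjective i
    have hkz : k ≠ z := by
      rintro rfl
      exact hia hσz
    have hko : k ≠ o := by
      rintro rfl
      exact hib hσo
    rw [List.count_cons_of_ne hia.symm, List.count_cons_of_ne hia.symm,
      List.count_cons_of_ne hib.symm, List.count_cons_of_ne hib.symm, hm]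
    simp [hkz, hko]

private theorem CAV_two {A : Type} [NonUnitalRing A] {g : ℕ} (h22 : St_K22) (hN : N2 A)
    (hg : 6 ≤ g) (hA : ∀ x : Fin g → A, Vg (A2 g) x = 0) (x : Fin g → A) (w : List (Fin g))
    (a b : Fin g) (hab : a ≠ b) (h1 : w.count a = 2) (h1' : w.count b = 2)
    (h2 : ∀ i, i ≠ a → i ≠ b → w.count i = 1) : wp (w.map x) = 0 := by
  obtain ⟨κ, -, hκ0, hκ⟩ := h22 A hN (Fin g) (by rw [Fintype.card_fin]; omega) a b x hab
  rw [hκ w h1 h1' h2]
  have k1 : κ a b = 0 := CAV_two' hg hA x a b hab κ hκ0 hκ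
  have k2 : κ b a = 0 := CAV_two' hg hA x b a hab.symm κ (fun i j h h' => hκ0 i j h' h)
    (fun w h h' h'' => hκ w h' h (fun i hi hi' => h'' i hi' hi))
  apply CAV_adjz
  intro c d
  by_cases hcd : c = a ∧ d = b
  · obtain ⟨rfl, rfl⟩ := hcd
    exact k1
  · by_cases hcd' : c = b ∧ d = a
    · obtain ⟨rfl, rfl⟩ := hcd'
      exact k2
    · exact hκ0 c d hcd hcd'

theorem thm_CAV (h3 : St_K3) (h22 : St_K22) (hZ : St_KZ) : St_CAV := by
  intro A _ g hN hg hA1 hA2 x w hw
  by_cases hc : w.toFinset.card + 3 ≤ w.length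
  · exact hZ A hN (Fin g) x w (by omega) hc
  · have hcard : w.toFinset = Finset.univ := by
      apply Finset.eq_univ_of_card
      have h1 := Finset.card_le_univ w.toFinset
      rw [Fintype.card_fin] at h1 ⊢
      omega
    have hge : ∀ i, 1 ≤ w.count i := by
      intro i
      have : i ∈ w.toFinset := by rw [hcard]; exact Finset.mem_univ i
      exact List.one_le_count_iff.mpr (List.mem_toFinset.mp this)
    have hsum : ∑ i, (w.count i - 1) = 2 := by
      have h1 : ∑ i, w.count i = w.length := by
        have := List.sum_toFinset_count_eq_length w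
        rwa [hcard] at this
      have h2 : ∑ i, (w.count i - 1) + ∑ i : Fin g, 1 = ∑ i, w.count i := by
        rw [← Finset.sum_add_distrib]
        exact Finset.sum_congr rfl fun i _ => Nat.sub_add_cancel (hge i)
      rw [h1, hw] at h2
      simp only [Finset.sum_const, Finset.card_univ, Fintype.card_fin, smul_eq_mul, mul_one] at h2
      omega
    obtain ⟨a, -, ha⟩ : ∃ a ∈ Finset.univ, w.count a - 1 ≠ 0 := by
      apply Finset.exists_ne_zero_of_sum_ne_zero
      rw [hsum]
      norm_num
    have hsp := Finset.add_sum_erase Finset.univ (fun i => w.count i - 1) (Finset.mem_univ a)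
    rw [hsum] at hsp
    by_cases ha3 : w.count a = 3
    · have h0 : ∑ i ∈ Finset.univ.erase a, (w.count i - 1) = 0 := by
        omega
      rw [Finset.sum_eq_zero_iff] at h0
      refine CAV_one h3 hN hg hA1 x w a ha3 (fun i hi => ?_)
      have := h0 i (Finset.mem_erase.mpr ⟨hi, Finset.mem_univ i⟩)
      have := hge i
      omega
    · have h1 : ∑ i ∈ Finset.univ.erase a, (w.count i - 1) ≤ 1 := by
        omega
      have h1' : ∑ i ∈ Finset.univ.erase a, (w.count i - 1) ≠ 0 := by
        omega
      obtain ⟨b, hb, hb0⟩ := Finset.exists_ne_zero_of_sum_ne_zero h1'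
      have hsp2 := Finset.add_sum_erase (Finset.univ.erase a) (fun i => w.count i - 1) hb
      have hba : b ≠ a := (Finset.mem_erase.mp hb).1
      have h0 : ∑ i ∈ (Finset.univ.erase a).erase b, (w.count i - 1) = 0 := by omega
      rw [Finset.sum_eq_zero_iff] at h0
      refine CAV_two h22 hN hg hA2 x w a b hba.symm (by omega) (by omega) (fun i hi hi' => ?_)
      have := h0 i (Finset.mem_erase.mpr ⟨hi', Finset.mem_erase.mpr ⟨hi, Finset.mem_univ i⟩⟩)
      have := hge i
      omega

end Pool.Agent.CRS
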