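import Pool.Agent.CRS.StG
import Mathlib.Tactic

/-!
Campaign CRS, p = 2, case (C), module Cor: the second case.
-/

set_option autoImplicit false

namespace Pool.Agent.CRS

open Pool.Agent.CRR Pool.Agent.CRN Pool.Agent.CRK Pool.Agent.CRL Pool.Agent.CRM Pool.Agent.CRP
open Pool.Agent.CRQ

section cor

variable {F V : Type} [Field F] [AddCommGroup V] [Module F V] {g : ℕ}

private lemma cor_sum (κ : Fin g → Fin g → V) (α β : Fin g → V) (hκ : ∀ i j, i ≠ j → κ i j = α i + β j)
    (b : Fin g → Fin g → F) (hb : ∀ i, b i i = 0) :
    ∑ i, ∑ j, b i j • κ i j = ∑ i, (∑ j, b i j) • α i + ∑ j, (∑ i, b i j) • β j := by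
  have h1 : ∀ i j, b i j • κ i j = b i j • α i + b i j • β j := by
    intro i j
    by_cases hij : i = j
    · subst hij
      rw [hb]
      simp
    · rw [hκ i j hij, smul_add]
  simp_rw [h1, Finset.sum_add_distrib, Finset.sum_smul]
  congr 1
  exact Finset.sum_comm

private lemma cor_swap (hv : ∀ v : V, v + v = 0) (f : Fin g → F) (α : Fin g → V) (z t : Fin g) :
    ∑ i, f (Equiv.swap z t i) • α i + ∑ i, f i • α i = (f z + f t) • (α z + α t) := by
  by_cases hzt : z = t
  · subst hzt
    rw [Equiv.swap_self, hv]
    simp only [Equiv.refl_apply, smul_zero]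
    exact hv _
  · rw [← Finset.sum_add_distrib, Finset.sum_eq_add z t hzt]
    · rw [Equiv.swap_apply_left, Equiv.swap_apply_right]
      module
    · intro c _ hc
      rw [Equiv.swap_apply_of_ne_of_ne hc.1 hc.2]
      exact hv _
    · intro h
      exact absurd (Finset.mem_univ _) h
    · intro h
      exact absurd (Finset.mem_univ _) h

private lemma cor_tv {X : Type} (e : X → V) (κ : X → Fin g → Fin g → V) (x : X) (α β : Fin g → V)
    (hκ : ∀ i j, i ≠ j → κ x i j = α i + β j) (E : ℕ → ℕ → Prop) (c : ℕ) (b : Fin g → Fin g → F)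
    (hb : ∀ i, b i i = 0) (h1 : ∀ i j : Fin g, E i.val j.val → b i j = 1)
    (h0 : ∀ i j : Fin g, ¬ E i.val j.val → b i j = 0) (r s : Fin g → F) (hr : ∀ i, ∑ j, b i j = r i)
    (hs : ∀ j, ∑ i, b i j = s j) :
    tv e κ E c x = c • e x + (∑ i, r i • α i + ∑ j, s j • β j) := by
  unfold tv
  congr 1
  have h2 := cor_sum (κ x) α β hκ b hb
  simp_rw [hr, hs] at h2
  rw [← h2]
  refine Finset.sum_congr rfl fun i _ => Finset.sum_congr rfl fun j _ => ?_
  by_cases hE : E i.val j.val
  · rw [if_pos hE, h1 i j hE, one_smul]
  · rw [if_neg hE, h0 i j hE, zero_smul]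

/-- the sum of all values -/
private lemma cor_main {X : Type} (e : X → V) (κ : X → Fin g → Fin g → V) (act : Equiv.Perm (Fin g) → X → X) (C : F)
    (a : Fin g → Fin g → F) (hD : Dgs F e κ act) (hS : Sdg e κ act C a) (hv : ∀ v : V, v + v = 0) (x : X) (α β : Fin g → V)
    (hκ : ∀ i j, i ≠ j → κ x i j = α i + β j) (z : Fin g) :
    evd e κ C a x = C • e x + (((g - 1 : ℕ) : F) * C) • (α z + β z) + (∑ j, a z j) • (∑ i, α i + (g : F) • α z) +
      (∑ i, a i z) • (∑ i, β i + (g : F) • β z) := by
  set o : Fin g → F := fun i => ∑ j, a i j with ho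
  set n : Fin g → F := fun j => ∑ i, a i j with hn
  have hP : Pdg C a := hS.1
  have so : ∑ i, o i = ((g - 1 : ℕ) : F) * C := hP.2
  have sn : ∑ j, n j = ((g - 1 : ℕ) : F) * C := by
    rw [← hP.2]
    exact Finset.sum_comm
  have e1 : evd e κ C a x = C • e x + (∑ i, o i • α i + ∑ j, n j • β j) := by
    unfold evd
    rw [cor_sum (κ x) α β hκ a hP.1]
  have key : ∀ t : Fin g, (o z + o t) • (α z + α t) + (n z + n t) • (β z + β t) = 0 := by
    intro t
    have e2 : evd e κ C (fun i j => a (Equiv.swap z t i) (Equiv.swap z t j)) x = evd e κ C a x := by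
      rw [← hD.eqv C a hP (Equiv.swap z t) x, hS.2]
    have e3 : evd e κ C (fun i j => a (Equiv.swap z t i) (Equiv.swap z t j)) x =
        C • e x + (∑ i, o (Equiv.swap z t i) • α i + ∑ j, n (Equiv.swap z t j) • β j) := by
      unfold evd
      rw [cor_sum (κ x) α β hκ (fun i j => a (Equiv.swap z t i) (Equiv.swap z t j)) (fun i => hP.1 _)]
      congr 2
      · refine Finset.sum_congr rfl fun i _ => ?_
        congr 1
        exact Equiv.sum_comp (Equiv.swap z t) (fun j => a (Equiv.swap z t i) j)
      · refine Finset.sum_congr rfl fun j _ => ?_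
        congr 1
        exact Equiv.sum_comp (Equiv.swap z t) (fun i => a i (Equiv.swap z t j))
    rw [e3, e1] at e2
    have e4 := add_left_cancel e2
    rw [← cor_swap hv o α z t, ← cor_swap hv n β z t]
    calc ∑ i, o (Equiv.swap z t i) • α i + ∑ i, o i • α i + (∑ i, n (Equiv.swap z t i) • β i + ∑ i, n i • β i)
        = (∑ i, o (Equiv.swap z t i) • α i + ∑ i, n (Equiv.swap z t i) • β i) + (∑ i, o i • α i + ∑ i, n i • β i) := by
          abel
      _ = 0 := by
          rw [e4]
          exact hv _
  have hsum : ∑ t : Fin g, ((o z + o t) • (α z + α t) + (n z + n t) • (β z + β t)) = 0 :=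
    Finset.sum_eq_zero fun t _ => key t
  have e5 : ∑ t : Fin g, ((o z + o t) • (α z + α t) + (n z + n t) • (β z + β t)) =
      (∑ i, o i • α i + ∑ j, n j • β j) + ((((g - 1 : ℕ) : F) * C) • (α z + β z) + o z • (∑ i, α i + (g : F) • α z) +
      n z • (∑ i, β i + (g : F) • β z)) := by
    simp only [add_smul, smul_add, Finset.sum_add_distrib, ← Finset.smul_sum, ← Finset.sum_smul, so, sn, Finset.sum_const,
      Finset.card_univ, Fintype.card_fin]
    rw [← Nat.cast_smul_eq_nsmul F g (α z), ← Nat.cast_smul_eq_nsmul F g (β z)]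
    module
  rw [e5] at hsum
  rw [e1]
  show C • e x + (∑ i, o i • α i + ∑ j, n j • β j) = C • e x + (((g - 1 : ℕ) : F) * C) • (α z + β z) +
    o z • (∑ i, α i + (g : F) • α z) + n z • (∑ i, β i + (g : F) • β z)
  linear_combination (norm := abel) hsum -
    hv ((((g - 1 : ℕ) : F) * C) • (α z + β z) + o z • (∑ i, α i + (g : F) • α z) + n z • (∑ i, β i + (g : F) • β z))

end cor

theorem thm_Cor (hR : St_Rct) : St_Cor := by
  intro F V X _ _ _ g e κ act C a hD hS hx
  have h6 := hD.six
  have hv : ∀ v : V, v + v = 0 := by
    intro v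
    have := hD.ft
    rw [← two_smul F v, this, zero_smul]
  have hF : ∀ c : F, c + c = 0 := by
    intro c
    rw [← two_mul, hD.ft, zero_mul]
  have f2 : (2 : F) = 0 := hD.ft
  have f11 : (1 : F) + 1 = 0 := hF 1
  have hR' : ∀ x, ∃ α β : Fin g → V, ∀ i j, i ≠ j → κ x i j = α i + β j := fun x =>
    (hR g V (by omega) hv (κ x) (hx x)).1
  have z0 : 0 < g := by omega
  have z1 : 1 < g := by omega
  have z2 : 2 < g := by omega
  set z : Fin g := ⟨0, z0⟩ with hz
  set y : Fin g := ⟨1, z1⟩ with hy
  set w : Fin g := ⟨2, z2⟩ with hw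
  have ez : ∀ i : Fin g, i = z ↔ i.val = 0 := fun i => by rw [Fin.ext_iff]
  have ey : ∀ i : Fin g, i = y ↔ i.val = 1 := fun i => by rw [Fin.ext_iff]
  have ew : ∀ i : Fin g, i = w ↔ i.val = 2 := fun i => by rw [Fin.ext_iff]
  refine ⟨?_, ?_⟩
  · intro hg
    have g1 : ((g : ℕ) : F) = 0 := by
      obtain ⟨m, hm⟩ : ∃ m, g = m + m := ⟨g / 2, by omega⟩
      rw [hm, Nat.cast_add, hF]
    have g2 : ((g - 1 : ℕ) : F) = 1 := by
      obtain ⟨m, hm⟩ : ∃ m, g - 1 = m + m + 1 := ⟨(g - 1) / 2, by omega⟩
      rw [hm, Nat.cast_add, Nat.cast_add, hF]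
      simp
    refine ⟨![∑ j, a z j, 0, 0, 0, 0, ∑ j, a z j + ∑ i, a i z, C], ?_⟩
    intro x
    obtain ⟨α, β, hκ⟩ := hR' x
    have tJ : tv e κ eJ 0 x = ∑ i, α i + ∑ i, β i := by
      rw [cor_tv (F := F) e κ x α β hκ eJ 0 (fun i j => 1 + if i = j then 1 else 0) (fun i => by simp [hF])
        (fun i j h => by
          have h2 : ¬ i = j := fun h3 => h (by rw [h3])
          simp [h2])
        (fun i j h => by
          have h2 : i = j := by
            by_contra h3
            exact h (fun h4 => h3 (Fin.ext h4))
          simp [h2, hF])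
        (fun _ => 1) (fun _ => 1) (fun i => by
          simp [Finset.sum_add_distrib, g1]) (fun j => by
          simp [Finset.sum_add_distrib, g1])]
      simp
    have tZ : tv e κ eZ 0 x = ∑ i, β i := by
      rw [cor_tv (F := F) e κ x α β hκ eZ 0
        (fun i j => (if i = z then 1 else 0) * (1 + (if j = z then 1 else 0) + (if j = y then 1 else 0)) +
          (if i = w then 1 else 0) * ((if j = z then 1 else 0) + (if j = y then 1 else 0)))
        (fun i => by
          simp only [ez, ey, ew]
          split_ifs <;> first | omega | simp [hF, f2])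
        (fun i j h => by
          simp only [ez, ey, ew]
          unfold eZ at h
          split_ifs <;> first | omega | simp [hF, f2])
        (fun i j h => by
          simp only [ez, ey, ew]
          unfold eZ at h
          split_ifs <;> first | omega | simp [hF, f2])
        (fun _ => 0) (fun _ => 1) (fun i => by
          simp only [Finset.sum_add_distrib, ← Finset.mul_sum, Finset.sum_ite_eq', Finset.mem_univ, if_true, Finset.sum_const,
            Finset.card_univ, Fintype.card_fin, nsmul_eq_mul, g1, zero_mul, zero_add, f11, mul_zero, add_zero])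
        (fun j => by
          simp only [Finset.sum_add_distrib, ← Finset.sum_mul, Finset.sum_ite_eq', Finset.mem_univ, if_true, one_mul]
          linear_combination hF ((if j = z then 1 else 0) + (if j = y then 1 else 0)))]
      simp
    have tY : tv e κ eY 1 x = e x + α z + β z := by
      rw [cor_tv (F := F) e κ x α β hκ eY 1
        (fun i j => (if i = z then 1 else 0) * (if j = y then 1 else 0) +
          (if i = w then 1 else 0) * ((if j = z then 1 else 0) + (if j = y then 1 else 0)))
        (fun i => by
          simp only [ez, ey, ew]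
          split_ifs <;> first | omega | simp [hF, f2])
        (fun i j h => by
          simp only [ez, ey, ew]
          unfold eY at h
          split_ifs <;> first | omega | simp [hF, f2])
        (fun i j h => by
          simp only [ez, ey, ew]
          unfold eY at h
          split_ifs <;> first | omega | simp [hF, f2])
        (fun i => if i = z then 1 else 0) (fun i => if i = z then 1 else 0) (fun i => by
          simp only [Finset.sum_add_distrib, ← Finset.mul_sum, Finset.sum_ite_eq', Finset.mem_univ, if_true,
            f11, mul_zero, add_zero, mul_one])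
        (fun j => by
          simp only [Finset.sum_add_distrib, ← Finset.sum_mul, Finset.sum_ite_eq', Finset.mem_univ, if_true, one_mul]
          linear_combination hF (if j = y then 1 else 0))]
      simp only [ite_smul, one_smul, zero_smul, Finset.sum_ite_eq', Finset.mem_univ, if_true]
      abel
    rw [cor_main e κ act C a hD hS hv x α β hκ z, g1, g2]
    simp only [Matrix.cons_val]
    rw [tJ, tZ, tY]
    linear_combination (norm := module) (-1 : ℤ) • hv ((∑ j, a z j) • ∑ i, β i)
  · intro hg
    have g1 : ((g : ℕ) : F) = 1 := by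
      obtain ⟨m, hm⟩ : ∃ m, g = m + m + 1 := ⟨g / 2, by omega⟩
      rw [hm, Nat.cast_add, Nat.cast_add, hF]
      simp
    have g2 : ((g - 1 : ℕ) : F) = 0 := by
      obtain ⟨m, hm⟩ : ∃ m, g - 1 = m + m := ⟨(g - 1) / 2, by omega⟩
      rw [hm, Nat.cast_add, hF]
    refine ⟨![C, 0, ∑ i, a i z, ∑ j, a z j, 0, 0], fun _ => rfl, ?_⟩
    intro x
    obtain ⟨α, β, hκ⟩ := hR' x
    have tN : tv e κ eN 1 x = e x := by
      unfold tv eN
      simp
    have tC : tv e κ eC 0 x = ∑ i, α i + α z := by
      rw [cor_tv (F := F) e κ x α β hκ eC 0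
        (fun i j => (1 + (if i = z then 1 else 0)) * (if j = z then 1 else 0))
        (fun i => by
          simp only [ez]
          split_ifs <;> first | omega | simp [hF, f2])
        (fun i j h => by
          simp only [ez]
          unfold eC at h
          split_ifs <;> first | omega | simp [hF, f2])
        (fun i j h => by
          simp only [ez]
          unfold eC at h
          split_ifs <;> first | omega | simp [hF, f2])
        (fun i => 1 + (if i = z then 1 else 0)) (fun _ => 0) (fun i => by
          simp only [← Finset.mul_sum, Finset.sum_ite_eq', Finset.mem_univ, if_true, mul_one])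
        (fun j => by
          simp only [← Finset.sum_mul, Finset.sum_add_distrib, Finset.sum_ite_eq', Finset.mem_univ, if_true, Finset.sum_const,
            Finset.card_univ, Fintype.card_fin, nsmul_eq_mul, g1, one_mul, f11, zero_mul])]
      simp only [add_smul, ite_smul, one_smul, zero_smul, Finset.sum_add_distrib, Finset.sum_ite_eq', Finset.mem_univ, if_true,
        Finset.sum_const_zero]
      abel
    have tR : tv e κ eR 0 x = ∑ i, β i + β z := by
      rw [cor_tv (F := F) e κ x α β hκ eR 0
        (fun i j => (if i = z then 1 else 0) * (1 + (if j = z then 1 else 0)))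
        (fun i => by
          simp only [ez]
          split_ifs <;> first | omega | simp [hF, f2])
        (fun i j h => by
          simp only [ez]
          unfold eR at h
          split_ifs <;> first | omega | simp [hF, f2])
        (fun i j h => by
          simp only [ez]
          unfold eR at h
          split_ifs <;> first | omega | simp [hF, f2])
        (fun _ => 0) (fun i => 1 + (if i = z then 1 else 0)) (fun i => by
          simp only [← Finset.mul_sum, Finset.sum_add_distrib, Finset.sum_ite_eq', Finset.mem_univ, if_true, Finset.sum_const,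
            Finset.card_univ, Fintype.card_fin, nsmul_eq_mul, g1, one_mul, f11, mul_zero])
        (fun j => by
          simp only [← Finset.sum_mul, Finset.sum_ite_eq', Finset.mem_univ, if_true, one_mul])]
      simp only [add_smul, ite_smul, one_smul, zero_smul, Finset.sum_add_distrib, Finset.sum_ite_eq', Finset.mem_univ, if_true,
        Finset.sum_const_zero]
      abel
    rw [cor_main e κ act C a hD hS hv x α β hκ z, g1, g2]
    simp only [Matrix.cons_val]
    rw [tN, tC, tR]
    module

end Pool.Agent.CRS
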