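import Pool.Agent.CRS.StG
import Mathlib.Tactic

/-!
# CRS, Ctb: third case, sums (helper30)
-/

set_option autoImplicit false

namespace Pool.Agent.CRS

open Pool.Agent.CRR Pool.Agent.CRN Pool.Agent.CRK Pool.Agent.CRL Pool.Agent.CRM Pool.Agent.CRP
open Pool.Agent.CRQ

section

variable {F V : Type} [Field F] [AddCommGroup V] [Module F V] {g : ℕ}

private theorem ctb_L (m : Fin g → Fin g → F) (hd : ∀ i, m i i = 0) (hs : ∀ i j, m i j = m j i)
    (G : Fin g → Fin g → V) :
    ∑ i, ∑ j, m i j • G i j = ∑ i, ∑ j, if i < j then m i j • (G i j + G j i) else 0 := by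
  have h1 : ∑ i, ∑ j, m i j • G i j = (∑ i, ∑ j, if i < j then m i j • G i j else 0) +
      ∑ i, ∑ j, if j < i then m i j • G i j else 0 := by
    rw [← Finset.sum_add_distrib]
    refine Finset.sum_congr rfl fun i _ => ?_
    rw [← Finset.sum_add_distrib]
    refine Finset.sum_congr rfl fun j _ => ?_
    rcases lt_trichotomy i j with h | h | h
    · rw [if_pos h, if_neg h.not_gt, add_zero]
    · subst h
      rw [if_neg (lt_irrefl _), hd, zero_smul, add_zero]
    · rw [if_neg h.not_gt, if_pos h, zero_add]
  have h2 : (∑ i, ∑ j, if j < i then m i j • G i j else 0) =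
      ∑ i, ∑ j, if i < j then m i j • G j i else 0 := by
    rw [Finset.sum_comm]
    refine Finset.sum_congr rfl fun i _ => Finset.sum_congr rfl fun j _ => ?_
    rw [hs j i]
  rw [h1, h2, ← Finset.sum_add_distrib]
  refine Finset.sum_congr rfl fun i _ => ?_
  rw [← Finset.sum_add_distrib]
  refine Finset.sum_congr rfl fun j _ => ?_
  by_cases h : i < j
  · rw [if_pos h, if_pos h, if_pos h, smul_add]
  · rw [if_neg h, if_neg h, if_neg h, add_zero]

private theorem ctb_one (κ : Fin g → Fin g → V) (γ : Fin g → V) (τ : V)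
    (hκ : ∀ i j, i ≠ j → κ i j + κ j i = γ i + γ j + τ) (S : Fin g → Fin g → F)
    (hd : ∀ i, S i i = 0) (hs : ∀ i j, S i j = S j i) :
    ∑ i, ∑ j, S i j • κ i j =
      (∑ i, (∑ j, S i j) • γ i) + (∑ i, ∑ j, if i < j then S i j else 0) • τ := by
  have h1 : ∑ i, (∑ j, S i j) • γ i = ∑ i, ∑ j, S i j • γ i := by
    refine Finset.sum_congr rfl fun i _ => ?_
    rw [Finset.sum_smul]
  have h2 : (∑ i, ∑ j, if i < j then S i j else 0) • τ =
      ∑ i, ∑ j, if i < j then S i j • τ else 0 := by
    rw [Finset.sum_smul]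
    refine Finset.sum_congr rfl fun i _ => ?_
    rw [Finset.sum_smul]
    refine Finset.sum_congr rfl fun j _ => ?_
    by_cases h : i < j
    · rw [if_pos h, if_pos h]
    · rw [if_neg h, if_neg h, zero_smul]
  rw [h1, h2, ctb_L S hd hs κ, ctb_L S hd hs (fun i _ => γ i), ← Finset.sum_add_distrib]
  refine Finset.sum_congr rfl fun i _ => ?_
  rw [← Finset.sum_add_distrib]
  refine Finset.sum_congr rfl fun j _ => ?_
  by_cases h : i < j
  · rw [if_pos h, if_pos h, if_pos h, hκ i j h.ne, smul_add]
  · rw [if_neg h, if_neg h, if_neg h, add_zero]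

private theorem ctb_row (i : Fin g) :
    (∑ j, if i < j then (1 : F) else 0) + ((i.val : ℕ) : F) = ((g - 1 : ℕ) : F) := by
  rw [← Finset.sum_filter, Finset.sum_const, nsmul_eq_mul, mul_one]
  have h1 : (Finset.univ.filter fun j : Fin g => i < j).card = g - 1 - i.val := by
    have h : (Finset.univ.filter fun j : Fin g => i < j) = Finset.Ioi i := by
      ext j
      simp
    rw [h, Fin.card_Ioi]
  rw [h1, ← Nat.cast_add]
  congr 1
  have := i.isLt
  omega

private theorem ctb_inv (h2 : (2 : F) = 0) (z t : Fin g) (hz : z.val = 0) (htz : t ≠ z) :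
    (∑ i : Fin g, ∑ j : Fin g, if i < j then
      ((if Equiv.swap z t i < Equiv.swap z t j then (1 : F) else 0) +
        (if i < j then (1 : F) else 0)) else 0) = 1 := by
  have h11 : (1 : F) + 1 = 0 := by
    rw [← h2]
    norm_num
  have ht0 : 0 < t.val := by
    have : t.val ≠ z.val := fun h => htz (Fin.ext h)
    omega
  have hzt : z < t := by
    rw [Fin.lt_def]
    omega
  obtain ⟨N, hN⟩ : ∃ N : F, N = ∑ j : Fin g, if z < j ∧ j < t then (1 : F) else 0 := ⟨_, rfl⟩
  have key : ∀ i : Fin g, (∑ j : Fin g, if i < j then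
      ((if Equiv.swap z t i < Equiv.swap z t j then (1 : F) else 0) +
        (if i < j then (1 : F) else 0)) else 0) =
      (if z < i ∧ i < t then 1 else 0) + (if i = z then N + 1 else 0) := by
    intro i
    by_cases hiz : i = z
    · subst hiz
      rw [if_neg (fun h => lt_irrefl _ h.1), if_pos rfl, zero_add, hN]
      have h1 : (∑ j : Fin g, if i < j ∧ j < t then (1 : F) else 0) + 1 =
          ∑ j : Fin g, ((if i < j ∧ j < t then (1 : F) else 0) + if j = t then (1 : F) else 0) := by
        rw [Finset.sum_add_distrib, Finset.sum_ite_eq' Finset.univ t,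
          if_pos (Finset.mem_univ _)]
      rw [h1]
      refine Finset.sum_congr rfl fun j _ => ?_
      by_cases hjt : j = t
      · subst hjt
        rw [if_pos hzt, Equiv.swap_apply_left, Equiv.swap_apply_right,
          if_neg hzt.not_gt, if_pos hzt, if_neg (fun h => lt_irrefl _ h.2), if_pos rfl]
      · by_cases hij : i < j
        · rw [if_pos hij, if_pos hij, Equiv.swap_apply_left,
            Equiv.swap_apply_of_ne_of_ne hij.ne' hjt, if_neg hjt, add_zero]
          by_cases htj : t < j
          · rw [if_pos htj, if_neg (fun h => htj.not_gt h.2), h11]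
          · have hjt' : j < t := lt_of_le_of_ne (not_lt.1 htj) hjt
            rw [if_neg htj, if_pos ⟨hij, hjt'⟩, zero_add]
        · rw [if_neg hij, if_neg (fun h => hij h.1), if_neg hjt, add_zero]
    · have hzi : z < i := by
        have h3 : i.val ≠ z.val := fun h => hiz (Fin.ext h)
        rw [Fin.lt_def]
        omega
      rw [if_neg hiz, add_zero, Finset.sum_eq_single t]
      · by_cases hit : i < t
        · rw [if_pos hit, Equiv.swap_apply_right, Equiv.swap_apply_of_ne_of_ne hiz hit.ne,
            if_neg hzi.not_gt, if_pos hit, if_pos ⟨hzi, hit⟩, zero_add]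
        · rw [if_neg hit, if_neg (fun h => hit h.2)]
      · intro j _ hjt
        by_cases hij : i < j
        · have hjz : j ≠ z := (hzi.trans hij).ne'
          rw [if_pos hij, if_pos hij, Equiv.swap_apply_of_ne_of_ne hjz hjt]
          by_cases hit : i = t
          · rw [hit, Equiv.swap_apply_right, if_pos (hzi.trans hij), h11]
          · rw [Equiv.swap_apply_of_ne_of_ne hiz hit, if_pos hij, h11]
        · rw [if_neg hij]
      · intro h
        exact absurd (Finset.mem_univ _) h
  rw [Finset.sum_congr rfl fun i _ => key i, Finset.sum_add_distrib, ← hN,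
    Finset.sum_ite_eq' Finset.univ z, if_pos (Finset.mem_univ _), ← add_assoc]
  have h3 : N + N = 0 := by
    rw [← mul_one N, ← mul_add, h11, mul_zero]
  rw [h3, zero_add]

end

/-- [Ctb] -/
theorem thm_Ctb : St_Ctb := by
  intro F V _ _ _ g κ γ τ _ h2 hκ0 hκ
  refine ⟨fun S hd hs => ctb_one κ γ τ hκ S hd hs, ?_⟩
  intro z t hz htz
  have h11 : (1 : F) + 1 = 0 := by
    rw [← h2]
    norm_num
  have hxx : ∀ x : F, x + x = 0 := fun x => by
    rw [← mul_one x, ← mul_add, h11, mul_zero]
  obtain ⟨m, hm⟩ : ∃ m : Fin g → Fin g → F, ∀ i j, m i j =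
      (if Equiv.swap z t i < Equiv.swap z t j then (1 : F) else 0) +
        (if i < j then (1 : F) else 0) := ⟨_, fun _ _ => rfl⟩
  have hmd : ∀ i, m i i = 0 := by
    intro i
    rw [hm, if_neg (lt_irrefl _), if_neg (lt_irrefl _), add_zero]
  have hms : ∀ i j, m i j = m j i := by
    intro i j
    by_cases hij : i = j
    · rw [hij]
    have hσ : Equiv.swap z t i ≠ Equiv.swap z t j := fun h => hij ((Equiv.swap z t).injective h)
    have a1 : (if Equiv.swap z t i < Equiv.swap z t j then (1 : F) else 0) =
        1 + (if Equiv.swap z t j < Equiv.swap z t i then (1 : F) else 0) := by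
      rcases lt_or_gt_of_ne hσ with h | h
      · rw [if_pos h, if_neg h.not_gt, add_zero]
      · rw [if_neg h.not_gt, if_pos h, h11]
    have a2 : (if i < j then (1 : F) else 0) = 1 + (if j < i then (1 : F) else 0) := by
      rcases lt_or_gt_of_ne hij with h | h
      · rw [if_pos h, if_neg h.not_gt, add_zero]
      · rw [if_neg h.not_gt, if_pos h, h11]
    rw [hm, hm, a1, a2]
    linear_combination h11
  have h3 : (∑ i, ∑ j, if Equiv.swap z t i < Equiv.swap z t j then κ i j else 0) +
      (∑ i, ∑ j, if i < j then κ i j else 0) = ∑ i, ∑ j, m i j • κ i j := by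
    rw [← Finset.sum_add_distrib]
    refine Finset.sum_congr rfl fun i _ => ?_
    rw [← Finset.sum_add_distrib]
    refine Finset.sum_congr rfl fun j _ => ?_
    rw [hm, add_smul]
    congr 1
    · split_ifs
      · rw [one_smul]
      · rw [zero_smul]
    · split_ifs
      · rw [one_smul]
      · rw [zero_smul]
  rw [h3, ctb_one κ γ τ hκ m hmd hms]
  have h4 : (∑ i, ∑ j, if i < j then m i j else 0) = 1 := by
    rw [← ctb_inv h2 z t hz htz]
    refine Finset.sum_congr rfl fun i _ => Finset.sum_congr rfl fun j _ => ?_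
    rw [hm]
  rw [h4, one_smul]
  congr 1
  have h5 : ∀ i, (∑ j, m i j) = (((Equiv.swap z t i).val : ℕ) : F) + ((i.val : ℕ) : F) := by
    intro i
    have b1 : ∑ j, m i j = (∑ j, if Equiv.swap z t i < j then (1 : F) else 0) +
        ∑ j, if i < j then (1 : F) else 0 := by
      rw [← Equiv.sum_comp (Equiv.swap z t) (fun j => if Equiv.swap z t i < j then (1 : F) else 0),
        ← Finset.sum_add_distrib]
      exact Finset.sum_congr rfl fun j _ => hm i j
    have b2 := ctb_row (F := F) (Equiv.swap z t i)
    have b3 := ctb_row (F := F) i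
    rw [b1]
    have b4 := hxx (((Equiv.swap z t i).val : ℕ) : F)
    have b5 := hxx ((i.val : ℕ) : F)
    have b6 := hxx ((g - 1 : ℕ) : F)
    linear_combination b2 + b3 - b4 - b5 + b6
  rw [Finset.sum_congr rfl fun i _ => by rw [h5 i]]
  have h6 : ∀ i : Fin g, ((((Equiv.swap z t i).val : ℕ) : F) + ((i.val : ℕ) : F)) • γ i =
      (if i = z then ((t.val : ℕ) : F) • γ z else 0) +
        (if i = t then ((t.val : ℕ) : F) • γ t else 0) := by
    intro i
    by_cases hiz : i = z
    · rw [if_pos hiz, if_neg (by rw [hiz]; exact htz.symm), hiz, Equiv.swap_apply_left, hz,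
        Nat.cast_zero, add_zero, add_zero]
    · by_cases hit : i = t
      · rw [if_neg hiz, if_pos hit, hit, Equiv.swap_apply_right, hz, Nat.cast_zero, zero_add,
          zero_add]
      · rw [if_neg hiz, if_neg hit, Equiv.swap_apply_of_ne_of_ne hiz hit, hxx, zero_smul, add_zero]
  rw [Finset.sum_congr rfl fun i _ => h6 i, Finset.sum_add_distrib,
    Finset.sum_ite_eq' Finset.univ z, if_pos (Finset.mem_univ _),
    Finset.sum_ite_eq' Finset.univ t, if_pos (Finset.mem_univ _), ← smul_add,
    Nat.cast_smul_eq_nsmul]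

end Pool.Agent.CRS
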