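import Pool.Agent.CRS.StG
import Mathlib.Tactic

/-!
# CRS.Ctc: third case (MP_1bb14d_al)
-/

set_option autoImplicit false

namespace Pool.Agent.CRS

open Pool.Agent.CRR Pool.Agent.CRN Pool.Agent.CRK Pool.Agent.CRL Pool.Agent.CRM Pool.Agent.CRP
open Pool.Agent.CRQ

section ctc

variable {F V : Type} [Field F] [AddCommGroup V] [Module F V] {g : ℕ}

private theorem ctc_two (h2 : (2 : F) = 0) (v : V) : v + v = 0 := by
  rw [← two_smul F, h2, zero_smul]

private theorem ctc_swap (h2 : (2 : F) = 0) (f : Fin g → F) (y : Fin g → V) (z t : Fin g) (hzt : t ≠ z) :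
    ∑ i, f (Equiv.swap z t i) • y i = ∑ i, f i • y i + (f t + f z) • (y t + y z) := by
  have h : ∑ i, (f (Equiv.swap z t i) + f i) • y i = (f t + f z) • y z + (f z + f t) • y t := by
    rw [Finset.sum_eq_add z t hzt.symm]
    · rw [Equiv.swap_apply_left, Equiv.swap_apply_right]
    · rintro i _ ⟨hz, ht⟩
      rw [Equiv.swap_apply_of_ne_of_ne hz ht, ← two_mul, h2, zero_mul, zero_smul]
    · intro h
      exact absurd (Finset.mem_univ _) h
    · intro h
      exact absurd (Finset.mem_univ _) h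
  simp only [add_smul, Finset.sum_add_distrib] at h
  have h3 : ∀ v : V, v + v = 0 := ctc_two h2
  linear_combination (norm := module) h - h3 (∑ i, f i • y i)

/-- The sum `∑ i, ∑ j` over `i < j` of a symmetric function is invariant. -/
private theorem ctc_E (hb : St_Ctb) (hg : 6 ≤ g) (h2 : (2 : F) = 0) (S : Fin g → Fin g → F) (h0 : ∀ i, S i i = 0)
    (hs : ∀ i j, S i j = S j i) (σ : Equiv.Perm (Fin g)) :
    (∑ i, ∑ j, if i < j then S (σ i) (σ j) else 0) = ∑ i, ∑ j, if i < j then S i j else 0 := by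
  have h := (hb F F g (fun i j => if σ.symm i < σ.symm j then 1 else 0) (fun _ => 0) 1 hg h2
    (fun i => by simp) (fun i j hij => by
      have hne : σ.symm i ≠ σ.symm j := fun h => hij (σ.symm.injective h)
      rcases lt_or_gt_of_ne hne with h | h
      · simp [h, h.not_gt]
      · simp [h, h.not_gt])).1 S h0 hs
  have h4 : (∑ i, ∑ j, if i < j then S (σ i) (σ j) else 0) =
      ∑ i, ∑ j, S i j • (if σ.symm i < σ.symm j then (1 : F) else 0) := by
    rw [← Equiv.sum_comp σ (fun i => ∑ j, S i j • (if σ.symm i < σ.symm j then (1 : F) else 0))]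
    refine Finset.sum_congr rfl fun i _ => ?_
    rw [← Equiv.sum_comp σ (fun j => S (σ i) j • (if σ.symm (σ i) < σ.symm j then (1 : F) else 0))]
    refine Finset.sum_congr rfl fun j _ => ?_
    simp
  rw [h4, h]
  simp

private theorem ctc_S0 (hb : St_Ctb) (hg : 6 ≤ g) (h2 : (2 : F) = 0) (S : Fin g → Fin g → F) (h0 : ∀ i, S i i = 0)
    (hs : ∀ i j, S i j = S j i) : ∑ i, ∑ j, S i j = 0 := by
  have h := (hb F F g (fun i j => if i = j then 0 else 1) (fun _ => 0) 0 hg h2
    (fun i => by simp) (fun i j hij => by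
      have : (1 : F) + 1 = 0 := by rw [one_add_one_eq_two, h2]
      simp [hij, Ne.symm hij, this])).1 S h0 hs
  have h4 : ∑ i, ∑ j, S i j = ∑ i, ∑ j, S i j • (if i = j then (0 : F) else 1) := by
    refine Finset.sum_congr rfl fun i _ => Finset.sum_congr rfl fun j _ => ?_
    by_cases hij : i = j
    · subst hij
      simp [h0]
    · simp [hij]
  rw [h4, h]
  simp

/-- `P (a ∘ σ)`. -/
private theorem ctc_P (hb : St_Ctb) (hg : 6 ≤ g) (h2 : (2 : F) = 0) (K : Fin g → Fin g → V) (hK : ∀ i, K i i = 0)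
    (γ : Fin g → V) (τ : V) (hγ : ∀ i j, i ≠ j → K i j + K j i = γ i + γ j + τ) (a S : Fin g → Fin g → F)
    (u : Fin g → F) (k : F) (h0 : ∀ i, S i i = 0) (hs : ∀ i j, S i j = S j i)
    (ha : ∀ i j, i ≠ j → a i j = S i j + u j + (if i < j then k else 0)) (σ : Equiv.Perm (Fin g)) :
    ∑ i, ∑ j, a (σ i) (σ j) • K i j = ∑ i, (∑ j, S (σ i) j) • γ i + (∑ i, ∑ j, if i < j then S i j else 0) • τ +
      ∑ j, u (σ j) • ∑ i, K i j + k • ∑ i, ∑ j, if σ i < σ j then K i j else 0 := by
  have h1 : ∀ i j, a (σ i) (σ j) • K i j =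
      S (σ i) (σ j) • K i j + u (σ j) • K i j + k • (if σ i < σ j then K i j else 0) := by
    intro i j
    by_cases hij : i = j
    · subst hij
      simp [hK]
    · rw [ha _ _ (fun h => hij (σ.injective h))]
      by_cases hl : σ i < σ j
      · simp only [if_pos hl]
        module
      · simp only [if_neg hl]
        module
  have h3 := (hb F V g K γ τ hg h2 hK hγ).1 (fun i j => S (σ i) (σ j)) (fun i => h0 _) (fun i j => hs _ _)
  simp only [h1, Finset.sum_add_distrib]
  rw [h3, ctc_E hb hg h2 S h0 hs σ]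
  have h5 : ∀ i, ∑ j, S (σ i) (σ j) = ∑ j, S (σ i) j := fun i => Equiv.sum_comp σ (fun j => S (σ i) j)
  simp only [h5]
  have h6 : ∑ i, ∑ j, u (σ j) • K i j = ∑ j, u (σ j) • ∑ i, K i j := by
    rw [Finset.sum_comm]
    exact Finset.sum_congr rfl fun j _ => by rw [Finset.smul_sum]
  have h7 : ∑ i, ∑ j, k • (if σ i < σ j then K i j else 0) = k • ∑ i, ∑ j, if σ i < σ j then K i j else 0 := by
    rw [Finset.smul_sum]
    exact Finset.sum_congr rfl fun i _ => by rw [Finset.smul_sum]
  rw [h6, h7]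

/-- The relation for one transposition. -/
private theorem ctc_rel (hb : St_Ctb) (hg : 6 ≤ g) (h2 : (2 : F) = 0) (K : Fin g → Fin g → V) (hK : ∀ i, K i i = 0)
    (γ : Fin g → V) (τ : V) (hγ : ∀ i j, i ≠ j → K i j + K j i = γ i + γ j + τ) (a S : Fin g → Fin g → F)
    (u : Fin g → F) (k : F) (h0 : ∀ i, S i i = 0) (hs : ∀ i j, S i j = S j i)
    (ha : ∀ i j, i ≠ j → a i j = S i j + u j + (if i < j then k else 0))
    (hinv : ∀ σ : Equiv.Perm (Fin g), ∑ i, ∑ j, a (σ i) (σ j) • K i j = ∑ i, ∑ j, a i j • K i j)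
    (z t : Fin g) (hz : z.val = 0) (hzt : t ≠ z) :
    (∑ j, S t j + ∑ j, S z j) • (γ t + γ z) + (u t + u z) • ((∑ i, K i t) + ∑ i, K i z) +
      k • ((t.val : F) • (γ z + γ t) + τ) = 0 := by
  have e1 := ctc_P hb hg h2 K hK γ τ hγ a S u k h0 hs ha (Equiv.swap z t)
  have e2 : ∑ i, ∑ j, a i j • K i j = ∑ i, (∑ j, S i j) • γ i + (∑ i, ∑ j, if i < j then S i j else 0) • τ +
      ∑ j, u j • ∑ i, K i j + k • ∑ i, ∑ j, if i < j then K i j else 0 :=
    ctc_P hb hg h2 K hK γ τ hγ a S u k h0 hs ha 1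
  rw [hinv] at e1
  rw [ctc_swap h2 (fun i => ∑ j, S i j) γ z t hzt, ctc_swap h2 u (fun j => ∑ i, K i j) z t hzt] at e1
  have e3 := (hb F V g K γ τ hg h2 hK hγ).2 z t hz hzt
  rw [← Nat.cast_smul_eq_nsmul F] at e3
  have h3 : ∀ v : V, v + v = 0 := ctc_two h2
  rw [← e3]
  linear_combination (norm := module) e2 - e1 + h3 (k • ∑ i, ∑ j, if i < j then K i j else 0)

/-- Sums over `Fin g` and numbers in characteristic 2. -/
private theorem ctc_num (h2 : (2 : F) = 0) (n : ℕ) :
    ∑ i ∈ Finset.range n, (i : F) = ((n / 2 : ℕ) : F) := by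
  have hcast : ∀ m : ℕ, ((2 * m : ℕ) : F) = 0 := fun m => by push_cast; rw [h2, zero_mul]
  induction n with
  | zero => simp
  | succ n ih =>
    rw [Finset.sum_range_succ, ih]
    rcases Nat.even_or_odd' n with ⟨m, rfl | rfl⟩
    · have e1 : 2 * m / 2 = m := by omega
      have e2 : (2 * m + 1) / 2 = m := by omega
      rw [e1, e2, hcast, add_zero]
    · have e1 : (2 * m + 1) / 2 = m := by omega
      have e2 : (2 * m + 1 + 1) / 2 = m + 1 := by omega
      rw [e1, e2, Nat.cast_succ (2 * m), hcast, zero_add]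
      push_cast
      ring

private theorem ctc_numF (h2 : (2 : F) = 0) : ∑ i : Fin g, (i.val : F) = ((g / 2 : ℕ) : F) := by
  rw [← ctc_num h2 g, Finset.sum_range]

private theorem ctc_lt : ∑ i : Fin g, ∑ j : Fin g, (if i < j then (1 : F) else 0) = ∑ j : Fin g, (j.val : F) := by
  rw [Finset.sum_comm]
  refine Finset.sum_congr rfl fun j _ => ?_
  rw [Finset.sum_boole]
  congr 1
  have : (Finset.univ.filter fun i : Fin g => i < j) = Finset.Iio j := by
    ext i
    simp
  rw [this, Fin.card_Iio]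

/-- `O z + I z`. -/
private theorem ctc_OI (h2 : (2 : F) = 0) (hg : 6 ≤ g) (K : Fin g → Fin g → V) (hK : ∀ i, K i i = 0)
    (γ : Fin g → V) (τ : V) (hγ : ∀ i j, i ≠ j → K i j + K j i = γ i + γ j + τ) (z : Fin g) :
    ∑ j, K z j + ∑ i, K i z = ∑ i, γ i + (g : F) • γ z + ((g - 1 : ℕ) : F) • τ := by
  have h3 : ∀ v : V, v + v = 0 := ctc_two h2
  have h : ∀ j, K z j + K j z = (γ z + γ j + τ) + (if j = z then τ else 0) := by
    intro j
    by_cases hj : j = z
    · subst hj
      rw [if_pos rfl, hK]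
      linear_combination (norm := module) - h3 (γ j) - h3 τ
    · rw [if_neg hj, add_zero, hγ z j (Ne.symm hj)]
  rw [← Finset.sum_add_distrib]
  simp only [h, Finset.sum_add_distrib, Finset.sum_const, Finset.card_univ, Fintype.card_fin, Finset.sum_ite_eq',
    Finset.mem_univ, if_true]
  rw [← Nat.cast_smul_eq_nsmul F g, ← Nat.cast_smul_eq_nsmul F g, Nat.cast_sub (by omega)]
  push_cast
  linear_combination (norm := module) h3 τ

/-- The four sums over arc sets. -/
private theorem ctc_eD (h2 : (2 : F) = 0) (hg : 6 ≤ g) (K : Fin g → Fin g → V)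
    (γ : Fin g → V) (τ : V) (hγ : ∀ i j, i ≠ j → K i j + K j i = γ i + γ j + τ) :
    (open Classical in ∑ i : Fin g, ∑ j : Fin g, if eD i.val j.val then K i j else 0) = τ := by
  classical
  have h3 : ∀ v : V, v + v = 0 := ctc_two h2
  have hs : ∀ (p q : Fin g) (y : V), ∑ i : Fin g, ∑ j : Fin g, (if i = p ∧ j = q then y else 0) = y := by
    intro p q y
    rw [Finset.sum_eq_single p, Finset.sum_eq_single q]
    · simp
    · intro j _ hj
      simp [hj]
    · intro h
      exact absurd (Finset.mem_univ q) h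
    · intro i _ hi
      simp [hi]
    · intro h
      exact absurd (Finset.mem_univ p) h
  obtain ⟨z0, h0⟩ : ∃ z : Fin g, z.val = 0 := ⟨⟨0, by omega⟩, rfl⟩
  obtain ⟨z1, h1⟩ : ∃ z : Fin g, z.val = 1 := ⟨⟨1, by omega⟩, rfl⟩
  obtain ⟨z2, h4⟩ : ∃ z : Fin g, z.val = 2 := ⟨⟨2, by omega⟩, rfl⟩
  have key : ∀ i j : Fin g, (if eD i.val j.val then K i j else 0) =
      (if i = z0 ∧ j = z1 then K z0 z1 else 0) + (if i = z1 ∧ j = z0 then K z1 z0 else 0) +
      (if i = z0 ∧ j = z2 then K z0 z2 else 0) + (if i = z2 ∧ j = z0 then K z2 z0 else 0) +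
      (if i = z1 ∧ j = z2 then K z1 z2 else 0) + (if i = z2 ∧ j = z1 then K z2 z1 else 0) := by
    intro i j
    have hi : i = z0 ∨ i = z1 ∨ i = z2 ∨ 3 ≤ i.val := by
      rcases Nat.lt_or_ge i.val 3 with h | h
      · have : i.val = 0 ∨ i.val = 1 ∨ i.val = 2 := by omega
        rcases this with h | h | h
        · exact Or.inl (Fin.ext (by omega))
        · exact Or.inr (Or.inl (Fin.ext (by omega)))
        · exact Or.inr (Or.inr (Or.inl (Fin.ext (by omega))))
      · exact Or.inr (Or.inr (Or.inr h))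
    have hj : j = z0 ∨ j = z1 ∨ j = z2 ∨ 3 ≤ j.val := by
      rcases Nat.lt_or_ge j.val 3 with h | h
      · have : j.val = 0 ∨ j.val = 1 ∨ j.val = 2 := by omega
        rcases this with h | h | h
        · exact Or.inl (Fin.ext (by omega))
        · exact Or.inr (Or.inl (Fin.ext (by omega)))
        · exact Or.inr (Or.inr (Or.inl (Fin.ext (by omega))))
      · exact Or.inr (Or.inr (Or.inr h))
    have n01 : z0 ≠ z1 := fun h => by rw [h] at h0; omega
    have n02 : z0 ≠ z2 := fun h => by rw [h] at h0; omega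
    have n12 : z1 ≠ z2 := fun h => by rw [h] at h1; omega
    rcases hi with hi | hi | hi | hi
    · rcases hj with hj | hj | hj | hj
      · subst hi; subst hj
        simp [eD, n01, n02]
      · subst hi; subst hj
        simp [eD, n01, n02, n12, h0, h1]
      · subst hi; subst hj
        simp [eD, n01, n02, n12, n12.symm, h0, h4]
      · have m0 : j ≠ z0 := fun h => by rw [h] at hj; omega
        have m1 : j ≠ z1 := fun h => by rw [h] at hj; omega
        have m2 : j ≠ z2 := fun h => by rw [h] at hj; omega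
        have m3 : ¬ eD i.val j.val := fun h => by
          unfold eD at h
          omega
        simp [m3, m0, m1, m2]
    · rcases hj with hj | hj | hj | hj
      · subst hi; subst hj
        simp [eD, n01.symm, n02, n12, h0, h1]
      · subst hi; subst hj
        simp [eD, n01.symm, n12]
      · subst hi; subst hj
        simp [eD, n01.symm, n02.symm, n12, n12.symm, h1, h4]
      · have m0 : j ≠ z0 := fun h => by rw [h] at hj; omega
        have m1 : j ≠ z1 := fun h => by rw [h] at hj; omega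
        have m2 : j ≠ z2 := fun h => by rw [h] at hj; omega
        have m3 : ¬ eD i.val j.val := fun h => by
          unfold eD at h
          omega
        simp [m3, m0, m1, m2]
    · rcases hj with hj | hj | hj | hj
      · subst hi; subst hj
        simp [eD, n01, n02, n02.symm, n12.symm, h0, h4]
      · subst hi; subst hj
        simp [eD, n01.symm, n02.symm, n12, n12.symm, h1, h4]
      · subst hi; subst hj
        simp [eD, n02.symm, n12.symm]
      · have m0 : j ≠ z0 := fun h => by rw [h] at hj; omega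
        have m1 : j ≠ z1 := fun h => by rw [h] at hj; omega
        have m2 : j ≠ z2 := fun h => by rw [h] at hj; omega
        have m3 : ¬ eD i.val j.val := fun h => by
          unfold eD at h
          omega
        simp [m3, m0, m1, m2]
    · have m0 : i ≠ z0 := fun h => by rw [h] at hi; omega
      have m1 : i ≠ z1 := fun h => by rw [h] at hi; omega
      have m2 : i ≠ z2 := fun h => by rw [h] at hi; omega
      have m3 : ¬ eD i.val j.val := fun h => by
        unfold eD at h
        omega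
      simp [m3, m0, m1, m2]
  have n01 : z0 ≠ z1 := fun h => by rw [h] at h0; omega
  have n02 : z0 ≠ z2 := fun h => by rw [h] at h0; omega
  have n12 : z1 ≠ z2 := fun h => by rw [h] at h1; omega
  have e : ∑ i : Fin g, ∑ j : Fin g, (if eD i.val j.val then K i j else 0) =
      K z0 z1 + K z1 z0 + K z0 z2 + K z2 z0 + K z1 z2 + K z2 z1 := by
    simp only [key, Finset.sum_add_distrib, hs]
  have e' : K z0 z1 + K z1 z0 + K z0 z2 + K z2 z0 + K z1 z2 + K z2 z1 = τ := by
    linear_combination (norm := module) hγ z0 z1 n01 + hγ z0 z2 n02 + hγ z1 z2 n12 + h3 (γ z0) + h3 (γ z1) +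
      h3 (γ z2) + h3 τ
  rw [← e', ← e]

private theorem ctc_eT (h2 : (2 : F) = 0) (K : Fin g → Fin g → V) (hK : ∀ i, K i i = 0)
    (γ : Fin g → V) (τ : V) (hγ : ∀ i j, i ≠ j → K i j + K j i = γ i + γ j + τ) (z : Fin g) (hz : z.val = 0) :
    (open Classical in ∑ i : Fin g, ∑ j : Fin g, if eT i.val j.val then K i j else 0) =
      (∑ i : Fin g, ∑ j : Fin g, if i < j then K i j else 0) + ∑ i : Fin g, (i.val : F) • γ i +
        ((g / 2 : ℕ) : F) • (γ z + τ) := by
  classical
  have h3 : ∀ v : V, v + v = 0 := ctc_two h2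
  have hcast : ∀ m : ℕ, ((2 * m : ℕ) : F) = 0 := fun m => by push_cast; rw [h2, zero_mul]
  have hev : ∀ m : ℕ, m % 2 = 0 → (m : F) = 0 := by
    intro m hm
    obtain ⟨r, rfl⟩ : ∃ r, m = 2 * r := ⟨m / 2, by omega⟩
    exact hcast r
  have hod : ∀ m : ℕ, m % 2 = 1 → (m : F) = 1 := by
    intro m hm
    obtain ⟨r, rfl⟩ : ∃ r, m = 2 * r + 1 := ⟨m / 2, by omega⟩
    rw [Nat.cast_succ, hcast, zero_add]
  have key : ∀ i j : Fin g, (if eT i.val j.val then K i j else 0) = (if i < j then K i j else 0) +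
      (if i = z then (j.val : F) • K i j else 0) + (if j = z then (i.val : F) • K i j else 0) := by
    intro i j
    by_cases hi : i = z
    · by_cases hj : j = z
      · rw [hi, hj, hK]
        simp
      · have hj0 : 0 < j.val := Nat.pos_of_ne_zero fun h => hj (Fin.ext (by omega))
        have hlt : i < j := by
          rw [hi]
          exact Fin.lt_def.2 (by omega)
        rw [if_pos hlt, if_pos hi, if_neg hj, add_zero]
        rcases Nat.mod_two_eq_zero_or_one j.val with hm | hm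
        · rw [if_pos (by unfold eT; rw [hi, hz]; omega), hev _ hm, zero_smul, add_zero]
        · rw [if_neg (by unfold eT; rw [hi, hz]; omega), hod _ hm, one_smul, h3]
    · have hi0 : 0 < i.val := Nat.pos_of_ne_zero fun h => hi (Fin.ext (by omega))
      by_cases hj : j = z
      · have hlt : ¬ i < j := by
          rw [hj]
          intro h
          have := Fin.lt_def.1 h
          omega
        rw [if_neg hlt, if_neg hi, if_pos hj, zero_add, zero_add]
        rcases Nat.mod_two_eq_zero_or_one i.val with hm | hm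
        · rw [if_neg (by unfold eT; rw [hj, hz]; omega), hev _ hm, zero_smul]
        · rw [if_pos (by unfold eT; rw [hj, hz]; omega), hod _ hm, one_smul]
      · have hj0 : 0 < j.val := Nat.pos_of_ne_zero fun h => hj (Fin.ext (by omega))
        rw [if_neg hi, if_neg hj, add_zero, add_zero]
        by_cases hlt : i < j
        · have := Fin.lt_def.1 hlt
          rw [if_pos hlt, if_pos (by unfold eT; omega)]
        · have : ¬ i.val < j.val := fun h => hlt (Fin.lt_def.2 h)
          rw [if_neg hlt, if_neg (by unfold eT; omega)]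
  have e1 : ∑ i : Fin g, ∑ j : Fin g, (if i = z then (j.val : F) • K i j else 0) = ∑ j, (j.val : F) • K z j := by
    rw [Finset.sum_eq_single z]
    · simp
    · intro i _ hi
      simp [hi]
    · intro h
      exact absurd (Finset.mem_univ z) h
  have e2 : ∑ i : Fin g, ∑ j : Fin g, (if j = z then (i.val : F) • K i j else 0) = ∑ i, (i.val : F) • K i z := by
    refine Finset.sum_congr rfl fun i _ => ?_
    rw [Finset.sum_eq_single z]
    · simp
    · intro j _ hj
      simp [hj]
    · intro h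
      exact absurd (Finset.mem_univ z) h
  have e3 : ∑ j : Fin g, (j.val : F) • K z j + ∑ i : Fin g, (i.val : F) • K i z =
      ∑ i : Fin g, (i.val : F) • γ i + ((g / 2 : ℕ) : F) • (γ z + τ) := by
    rw [← ctc_numF (g := g) h2, Finset.sum_smul, ← Finset.sum_add_distrib, ← Finset.sum_add_distrib]
    refine Finset.sum_congr rfl fun i _ => ?_
    by_cases hi : i = z
    · subst hi
      rw [hz]
      simp
    · rw [← smul_add, ← smul_add, hγ z i (Ne.symm hi)]
      congr 1
      abel
  simp only [key, Finset.sum_add_distrib, e1, e2]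
  rw [add_assoc, e3, add_assoc]

/-- The sum over the arcs of `eR`. -/
private theorem ctc_eR (K : Fin g → Fin g → V) (hK : ∀ i, K i i = 0) (z : Fin g) (hz : z.val = 0) :
    (open Classical in ∑ i : Fin g, ∑ j : Fin g, if eR i.val j.val then K i j else 0) = ∑ j, K z j := by
  classical
  rw [Finset.sum_eq_single z]
  · refine Finset.sum_congr rfl fun j _ => ?_
    by_cases hj : j = z
    · rw [hj, hK]
      simp
    · have : j.val ≠ 0 := fun h => hj (Fin.ext (by omega))
      rw [if_pos ⟨hz, this⟩]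
  · intro i _ hi
    refine Finset.sum_eq_zero fun j _ => ?_
    have : i.val ≠ 0 := fun h => hi (Fin.ext (by omega))
    rw [if_neg fun h => this h.1]
  · intro h
    exact absurd (Finset.mem_univ z) h

private theorem ctc_eC (K : Fin g → Fin g → V) (hK : ∀ i, K i i = 0) (z : Fin g) (hz : z.val = 0) :
    (open Classical in ∑ i : Fin g, ∑ j : Fin g, if eC i.val j.val then K i j else 0) = ∑ i, K i z := by
  classical
  refine Finset.sum_congr rfl fun i _ => ?_
  rw [Finset.sum_eq_single z]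
  · by_cases hi : i = z
    · rw [hi, hK]
      simp
    · have : i.val ≠ 0 := fun h => hi (Fin.ext (by omega))
      rw [if_pos ⟨this, hz⟩]
  · intro j _ hj
    have : j.val ≠ 0 := fun h => hj (Fin.ext (by omega))
    rw [if_neg fun h => this h.2]
  · intro h
    exact absurd (Finset.mem_univ z) h

private theorem ctc_eJ (K : Fin g → Fin g → V) (hK : ∀ i, K i i = 0) :
    (open Classical in ∑ i : Fin g, ∑ j : Fin g, if eJ i.val j.val then K i j else 0) = ∑ i, ∑ j, K i j := by
  classical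
  refine Finset.sum_congr rfl fun i _ => Finset.sum_congr rfl fun j _ => ?_
  by_cases hij : i = j
  · rw [hij, hK]
    simp
  · exact if_pos (fun h => hij (Fin.ext h))

private theorem ctc_eN (K : Fin g → Fin g → V) :
    (open Classical in ∑ i : Fin g, ∑ j : Fin g, if eN i.val j.val then K i j else 0) = 0 := by
  classical
  refine Finset.sum_eq_zero fun i _ => Finset.sum_eq_zero fun j _ => ?_
  exact if_neg fun h => h

/-- The value for a fixed argument. -/
private theorem ctc_main (hb : St_Ctb) (hg : 6 ≤ g) (h2 : (2 : F) = 0) (K : Fin g → Fin g → V) (hK : ∀ i, K i i = 0)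
    (γ : Fin g → V) (τ : V) (hγ : ∀ i j, i ≠ j → K i j + K j i = γ i + γ j + τ) (a S : Fin g → Fin g → F)
    (u : Fin g → F) (k : F) (h0 : ∀ i, S i i = 0) (hs : ∀ i j, S i j = S j i)
    (ha : ∀ i j, i ≠ j → a i j = S i j + u j + (if i < j then k else 0))
    (hinv : ∀ σ : Equiv.Perm (Fin g), ∑ i, ∑ j, a (σ i) (σ j) • K i j = ∑ i, ∑ j, a i j • K i j)
    (z : Fin g) (hz : z.val = 0) :
    ∑ i, ∑ j, a i j • K i j = (∑ j, S z j) • ∑ j, K z j + (∑ i, u i + (g : F) * u z + ∑ j, S z j) • ∑ i, K i z +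
      u z • (∑ i, ∑ j, K i j) + k • ((∑ i : Fin g, ∑ j : Fin g, if i < j then K i j else 0) +
        ∑ i : Fin g, (i.val : F) • γ i + ((g / 2 : ℕ) : F) • (γ z + τ)) +
      ((∑ i, ∑ j, if i < j then S i j else 0) + ((g - 1 : ℕ) : F) * k + ((g - 1 : ℕ) : F) * ∑ j, S z j +
        ((g / 2 : ℕ) : F) * k) • τ := by
  have h3 : ∀ v : V, v + v = 0 := ctc_two h2
  have hP : ∑ i, ∑ j, a i j • K i j = ∑ i, (∑ j, S i j) • γ i + (∑ i, ∑ j, if i < j then S i j else 0) • τ +
      ∑ j, u j • ∑ i, K i j + k • ∑ i, ∑ j, if i < j then K i j else 0 :=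
    ctc_P hb hg h2 K hK γ τ hγ a S u k h0 hs ha 1
  have hrel : ∀ t, (∑ j, S t j) • γ t + u t • (∑ i, K i t) + (k * (t.val : F)) • γ t =
      (∑ j, S t j) • γ z + (∑ j, S z j) • γ t + (∑ j, S z j) • γ z + u t • (∑ i, K i z) + u z • (∑ i, K i t) +
        u z • (∑ i, K i z) + (k * (t.val : F)) • γ z + k • τ + (if t = z then k • τ else 0) := by
    intro t
    by_cases ht : t = z
    · rw [ht, if_pos rfl, hz]
      push_cast
      linear_combination (norm := module) - h3 ((∑ j, S z j) • γ z) - h3 (u z • (∑ i, K i z)) - h3 (k • τ)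
    · rw [if_neg ht]
      have := ctc_rel hb hg h2 K hK γ τ hγ a S u k h0 hs ha hinv z t hz ht
      linear_combination (norm := module) this - h3 ((∑ j, S t j) • γ z + (∑ j, S z j) • γ t +
        (∑ j, S z j) • γ z + u t • (∑ i, K i z) + u z • (∑ i, K i t) + u z • (∑ i, K i z) +
        (k * (t.val : F)) • γ z + k • τ)
  have hsum := Finset.sum_congr (rfl : (Finset.univ : Finset (Fin g)) = Finset.univ) fun t _ => hrel t
  simp only [Finset.sum_add_distrib, ← Finset.sum_smul, ← Finset.smul_sum, ← Finset.mul_sum, Finset.sum_const,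
    Finset.card_univ, Fintype.card_fin, Finset.sum_ite_eq', Finset.mem_univ, if_true] at hsum
  rw [ctc_S0 hb hg h2 S h0 hs, ctc_numF h2, ← Nat.cast_smul_eq_nsmul F g, ← Nat.cast_smul_eq_nsmul F g,
    ← Nat.cast_smul_eq_nsmul F g] at hsum
  have hk : ∑ t : Fin g, (k * (t.val : F)) • γ t = k • ∑ t : Fin g, (t.val : F) • γ t := by
    rw [Finset.smul_sum]
    exact Finset.sum_congr rfl fun t _ => by rw [mul_smul]
  rw [hk] at hsum
  have hJ : ∑ i, ∑ j, K i j = ∑ j, ∑ i, K i j := Finset.sum_comm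
  have hOI := ctc_OI h2 hg K hK γ τ hγ z
  have hcg : ((g - 1 : ℕ) : F) = (g : F) - 1 := by
    rw [Nat.cast_sub (by omega)]
    push_cast
    rfl
  rw [hcg] at hOI ⊢
  rw [hP, hJ]
  linear_combination (norm := module) hsum - (∑ j, S z j) • hOI +
    h3 ((k - k * ((g / 2 : ℕ) : F) - (g : F) * (∑ j, S z j) + ∑ j, S z j) • τ) -
    h3 (k • ∑ t : Fin g, (t.val : F) • γ t)

/-- The relation `Pdg` in numbers. -/
private theorem ctc_pdg (hb : St_Ctb) (hg : 6 ≤ g) (h2 : (2 : F) = 0) (C : F) (a S : Fin g → Fin g → F)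
    (u : Fin g → F) (k : F) (hP : Pdg C a) (h0 : ∀ i, S i i = 0) (hs : ∀ i j, S i j = S j i)
    (ha : ∀ i j, i ≠ j → a i j = S i j + u j + (if i < j then k else 0)) :
    ((g : F) + 1) * ∑ j, u j + ((g / 2 : ℕ) : F) * k = ((g : F) + 1) * C := by
  have hf : ∀ f : F, f + f = 0 := fun f => by rw [← two_mul, h2, zero_mul]
  have key : ∀ i j, a i j = S i j + u j + (if i = j then u j else 0) + k * (if i < j then 1 else 0) := by
    intro i j
    by_cases hij : i = j
    · subst hij
      rw [hP.1, h0, if_pos rfl, if_neg (lt_irrefl _)]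
      linear_combination - hf (u i)
    · rw [ha i j hij, if_neg hij]
      by_cases hl : i < j
      · rw [if_pos hl, if_pos hl]
        ring
      · rw [if_neg hl, if_neg hl]
        ring
  have h := hP.2
  simp only [key, Finset.sum_add_distrib, ctc_S0 hb hg h2 S h0 hs, Finset.sum_ite_eq, Finset.mem_univ, if_true,
    Finset.sum_const, Finset.card_univ, Fintype.card_fin, ← Finset.mul_sum, ctc_lt, ctc_numF h2] at h
  rw [nsmul_eq_mul] at h
  have hcg : ((g - 1 : ℕ) : F) = (g : F) - 1 := by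
    rw [Nat.cast_sub (by omega)]
    push_cast
    rfl
  rw [hcg] at h
  linear_combination h - hf C

private theorem ctc_tv {X : Type} (e : X → V) (κ : X → Fin g → Fin g → V) (E : ℕ → ℕ → Prop) (c : ℕ) (x : X) (y : V)
    (h : (open Classical in ∑ i : Fin g, ∑ j : Fin g, if E i.val j.val then κ x i j else 0) = y) :
    tv e κ E c x = (c : F) • e x + y := by
  unfold tv
  rw [h, Nat.cast_smul_eq_nsmul]

end ctc

/-- Third case. -/
theorem thm_Ctc (ha : St_Cta) (hb : St_Ctb) : St_Ctc := by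
  intro F V X _ _ _ g e κ act C a hD hS hy1 hy2
  have hg : 6 ≤ g := hD.six
  have h2 : (2 : F) = 0 := hD.ft
  have h3 : ∀ v : V, v + v = 0 := ctc_two h2
  obtain ⟨u, k, S, h0, hs, ha', hx⟩ := ha F V X g e κ act C a hD hS hy1 hy2
  obtain ⟨z, hz⟩ : ∃ z : Fin g, z.val = 0 := ⟨⟨0, by omega⟩, rfl⟩
  have hinv : ∀ (x : X) (σ : Equiv.Perm (Fin g)),
      ∑ i, ∑ j, a (σ i) (σ j) • κ x i j = ∑ i, ∑ j, a i j • κ x i j := by
    intro x σ
    have e1 := hD.eqv C a hS.1 σ x
    rw [hS.2 σ x] at e1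
    unfold evd at e1
    exact (add_left_cancel e1).symm
  have hcast : ∀ m : ℕ, ((2 * m : ℕ) : F) = 0 := fun m => by push_cast; rw [h2, zero_mul]
  have hcg : ((g - 1 : ℕ) : F) = (g : F) - 1 := by
    rw [Nat.cast_sub (by omega)]
    push_cast
    rfl
  have hpdg := ctc_pdg hb hg h2 C a S u k hS.1 h0 hs ha'
  have main : ∀ x, ∃ (O I J T τ : V), evd e κ C a x = C • e x + ((∑ j, S z j) • O +
      (∑ i, u i + (g : F) * u z + ∑ j, S z j) • I + u z • J + k • T +
      ((∑ i, ∑ j, if i < j then S i j else 0) + ((g - 1 : ℕ) : F) * k + ((g - 1 : ℕ) : F) * ∑ j, S z j +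
        ((g / 2 : ℕ) : F) * k) • τ) ∧
      (∀ c, tv e κ eR c x = (c : F) • e x + O) ∧ (∀ c, tv e κ eC c x = (c : F) • e x + I) ∧
      (∀ c, tv e κ eJ c x = (c : F) • e x + J) ∧ (∀ c, tv e κ eT c x = (c : F) • e x + T) ∧
      (∀ c, tv e κ eD c x = (c : F) • e x + τ) ∧ (∀ c, tv e κ eN c x = (c : F) • e x) := by
    intro x
    obtain ⟨γ, τ, hγ⟩ := hx x
    have hK := hD.kd x
    refine ⟨∑ j, κ x z j, ∑ i, κ x i z, ∑ i, ∑ j, κ x i j, (∑ i : Fin g, ∑ j : Fin g, if i < j then κ x i j else 0) +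
        ∑ i : Fin g, (i.val : F) • γ i + ((g / 2 : ℕ) : F) • (γ z + τ), τ, ?_, ?_, ?_, ?_, ?_, ?_, ?_⟩
    rotate_left
    · exact fun c => ctc_tv e κ eR c x _ (ctc_eR (κ x) hK z hz)
    · exact fun c => ctc_tv e κ eC c x _ (ctc_eC (κ x) hK z hz)
    · exact fun c => ctc_tv e κ eJ c x _ (ctc_eJ (κ x) hK)
    · exact fun c => ctc_tv e κ eT c x _ (ctc_eT h2 (κ x) hK γ τ hγ z hz)
    · exact fun c => ctc_tv e κ eD c x _ (ctc_eD h2 hg (κ x) γ τ hγ)
    · intro c
      rw [ctc_tv (F := F) e κ eN c x _ (ctc_eN (κ x)), add_zero]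
    · unfold evd
      rw [ctc_main hb hg h2 (κ x) hK γ τ hγ a S u k h0 hs ha' (hinv x) z hz]
  refine ⟨fun h => ?_, fun h => ?_⟩
  · obtain ⟨m, hm⟩ : ∃ m, g = 2 * m := ⟨g / 2, by omega⟩
    have hg0 : (g : F) = 0 := by rw [hm, hcast]
    refine ⟨![u z, ∑ j, S z j, ∑ j, S z j + ∑ i, u i, (∑ i, ∑ j, if i < j then S i j else 0) + k + ∑ j, S z j +
        ((g / 2 : ℕ) : F) * k, k, 0, 0], fun x => ?_⟩
    obtain ⟨O, I, J, T, τ, hev, hR, hC, hJ, hT, hDD, hN⟩ := main x
    change _ = u z • tv e κ eJ 0 x + (∑ j, S z j) • tv e κ eR 1 x + (∑ j, S z j + ∑ i, u i) • tv e κ eC 1 x +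
      ((∑ i, ∑ j, if i < j then S i j else 0) + k + ∑ j, S z j + ((g / 2 : ℕ) : F) * k) • tv e κ eD 0 x +
      k • tv e κ eT (g / 2) x + (0 : F) • tv e κ eZ 0 x + (0 : F) • tv e κ eY 1 x
    rw [hev, hR, hC, hJ, hT, hDD, hcg]
    rw [hg0] at hpdg ⊢
    have hC' : C = ∑ j, u j + ((g / 2 : ℕ) : F) * k := by linear_combination - hpdg
    rw [hC']
    push_cast
    linear_combination (norm := module) - h3 (k • τ) - h3 ((∑ j, S z j) • τ) - h3 ((∑ j, S z j) • e x)
  · obtain ⟨m, hm⟩ : ∃ m, g = 2 * m + 1 := ⟨g / 2, by omega⟩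
    have hg1 : (g : F) = 1 := by rw [hm, Nat.cast_succ, hcast, zero_add]
    rw [hg1, one_add_one_eq_two, h2, zero_mul, zero_mul, zero_add] at hpdg
    refine ⟨![C, u z, ∑ j, S z j, ∑ j, S z j + ∑ i, u i + u z, (∑ i, ∑ j, if i < j then S i j else 0) +
        ((g / 2 : ℕ) : F) * k, k], fun h4 => ?_, fun x => ?_⟩
    · change k = 0
      obtain ⟨r, hr⟩ : ∃ r, g / 2 = 2 * r + 1 := ⟨g / 4, by omega⟩
      rw [hr, Nat.cast_succ, hcast, zero_add, one_mul] at hpdg
      exact hpdg
    · obtain ⟨O, I, J, T, τ, hev, hR, hC, hJ, hT, hDD, hN⟩ := main x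
      change _ = C • tv e κ eN 1 x + u z • tv e κ eJ 0 x + (∑ j, S z j) • tv e κ eR 0 x +
        (∑ j, S z j + ∑ i, u i + u z) • tv e κ eC 0 x +
        ((∑ i, ∑ j, if i < j then S i j else 0) + ((g / 2 : ℕ) : F) * k) • tv e κ eD 0 x + k • tv e κ eT 0 x
      rw [hev, hR, hC, hJ, hT, hDD, hN, hcg, hg1]
      push_cast
      module

end Pool.Agent.CRS
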