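import Pool.Agent.CRS.StG
import Mathlib.Tactic

/-!
Campaign CRS, p = 2, module Czr: first case (problem MP_1bb14d_al).
-/

set_option autoImplicit false

namespace Pool.Agent.CRS

open Pool.Agent.CRR Pool.Agent.CRN Pool.Agent.CRK Pool.Agent.CRL Pool.Agent.CRM Pool.Agent.CRP
open Pool.Agent.CRQ

private theorem czr_swap {F V : Type} [Field F] [AddCommGroup V] [Module F V] {g : ℕ}
    (h2 : (2 : F) = 0) (p : Fin g → F) (O : Fin g → V) (z i : Fin g) :
    ∑ k, p (Equiv.swap z i k) • O k = ∑ k, p k • O k + (p i + p z) • (O i + O z) := by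
  have hV2 : ∀ v : V, v + v = 0 := fun v => by rw [← two_smul F v, h2, zero_smul]
  have hF2 : ∀ v : F, v + v = 0 := fun v => by rw [← two_mul, h2, zero_mul]
  rcases eq_or_ne z i with rfl | hne
  · rw [hF2, zero_smul, add_zero, Equiv.swap_self]
    rfl
  · have h1 : ∑ k, (p (Equiv.swap z i k) • O k + p k • O k) =
        (p (Equiv.swap z i z) • O z + p z • O z) + (p (Equiv.swap z i i) • O i + p i • O i) := by
      refine Finset.sum_eq_add z i hne ?_ ?_ ?_
      · intro k _ hk
        rw [Equiv.swap_apply_of_ne_of_ne hk.1 hk.2]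
        exact hV2 _
      · intro h
        exact absurd (Finset.mem_univ _) h
      · intro h
        exact absurd (Finset.mem_univ _) h
    rw [Finset.sum_add_distrib, Equiv.swap_apply_left, Equiv.swap_apply_right] at h1
    have h3 := hV2 (∑ k, p k • O k)
    have h4 : ∑ k, p (Equiv.swap z i k) • O k =
        (∑ k, p (Equiv.swap z i k) • O k + ∑ k, p k • O k) + ∑ k, p k • O k := by
      rw [add_assoc, h3, add_zero]
    rw [h4, h1]
    simp only [add_smul, smul_add]
    abel

private theorem czr_sum {F V : Type} [Field F] [AddCommGroup V] [Module F V] {g : ℕ}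
    (p : Fin g → F) (O : Fin g → V) (z : Fin g) :
    ∑ i, (p i + p z) • (O i + O z) =
      ∑ i, p i • O i + (∑ i, p i) • O z + p z • ∑ i, O i + ((g : F) * p z) • O z := by
  have h1 : ∑ _i : Fin g, p z • O z = ((g : F) * p z) • O z := by
    rw [Finset.sum_const, Finset.card_univ, Fintype.card_fin, ← Nat.cast_smul_eq_nsmul F, smul_smul]
  rw [← h1, Finset.sum_smul, Finset.smul_sum, ← Finset.sum_add_distrib, ← Finset.sum_add_distrib,
    ← Finset.sum_add_distrib]
  refine Finset.sum_congr rfl fun i _ => ?_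
  simp only [add_smul, smul_add]
  abel

theorem thm_Czr (hR : St_Rct) : St_Czr := by
  classical
  intro F V X _ _ _ g e κ act C a hD hS h4
  have hg := hD.six
  have h2 := hD.ft
  have hF2 : ∀ v : F, v + v = 0 := fun v => by rw [← two_mul, h2, zero_mul]
  have hV2 : ∀ v : V, v + v = 0 := fun v => by rw [← two_smul F v, h2, zero_smul]
  obtain ⟨s, t, hst⟩ := (hR g F (by omega) hF2 a h4).1
  obtain ⟨z, hz⟩ : ∃ z : Fin g, z.val = 0 := ⟨⟨0, by omega⟩, rfl⟩
  have hev : ∀ (σ : Equiv.Perm (Fin g)) (x : X), evd e κ C (fun i j => a (σ i) (σ j)) x =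
      C • e x + ((∑ i, s (σ i) • ∑ j, κ x i j) + ∑ j, t (σ j) • ∑ i, κ x i j) := by
    intro σ x
    unfold evd
    congr 1
    have h1 : ∀ i j, a (σ i) (σ j) • κ x i j = s (σ i) • κ x i j + t (σ j) • κ x i j := by
      intro i j
      by_cases hij : i = j
      · subst hij
        rw [hD.kd, smul_zero, smul_zero, smul_zero, add_zero]
      · rw [hst _ _ (fun h => hij (σ.injective h)), add_smul]
    simp only [h1, Finset.sum_add_distrib, Finset.smul_sum]
    congr 1
    rw [Finset.sum_comm]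
  have hσ : ∀ (σ : Equiv.Perm (Fin g)) (x : X),
      evd e κ C (fun i j => a (σ i) (σ j)) x = evd e κ C a x := by
    intro σ x
    rw [← hD.eqv C a hS.1 σ x, hS.2 σ x]
  have h1 : ∀ x, evd e κ C a x =
      C • e x + ((∑ i, s i • ∑ j, κ x i j) + ∑ j, t j • ∑ i, κ x i j) := fun x => hev 1 x
  have hrel : ∀ (x : X) (i : Fin g), (s i + s z) • ((∑ j, κ x i j) + ∑ j, κ x z j) +
      (t i + t z) • ((∑ j, κ x j i) + ∑ j, κ x j z) = 0 := by
    intro x i
    have h5 := hσ (Equiv.swap z i) x
    rw [hev, h1, czr_swap h2 s (fun i => ∑ j, κ x i j) z i,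
      czr_swap h2 t (fun j => ∑ i, κ x i j) z i] at h5
    have h6 := add_left_cancel h5
    have h7 : ∀ A B P Q : V, A + P + (B + Q) = A + B → P + Q = 0 := by
      intro A B P Q h
      have e1 : A + P + (B + Q) = A + B + (P + Q) := by abel
      rw [e1] at h
      exact left_eq_add.1 h.symm
    exact h7 _ _ _ _ h6
  have hval : ∀ x, evd e κ C a x = C • e x + ((∑ i, s i + (g : F) * s z) • (∑ j, κ x z j) +
      (∑ i, t i + (g : F) * t z) • (∑ j, κ x j z) +
      (s z + t z) • ∑ i, ∑ j, κ x i j) := by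
    intro x
    rw [h1 x]
    congr 1
    have h5 := Finset.sum_congr (rfl : (Finset.univ : Finset (Fin g)) = Finset.univ)
      (fun i _ => hrel x i)
    rw [Finset.sum_add_distrib, czr_sum s (fun i => ∑ j, κ x i j) z,
      czr_sum t (fun i => ∑ j, κ x j i) z, Finset.sum_const_zero] at h5
    have h6 : ∑ i, ∑ j, κ x j i = ∑ i, ∑ j, κ x i j := Finset.sum_comm
    rw [h6] at h5
    simp only [add_smul] at h5 ⊢
    have h7 : ∀ A B P₁ P₂ P₃ Q₁ Q₂ Q₃ : V, A + P₁ + P₂ + P₃ + (B + Q₁ + Q₂ + Q₃) = 0 →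
        A + B = P₁ + P₃ + (Q₁ + Q₃) + (P₂ + Q₂) := by
      intro A B P₁ P₂ P₃ Q₁ Q₂ Q₃ h
      have e1 : A + B = (A + P₁ + P₂ + P₃ + (B + Q₁ + Q₂ + Q₃)) -
          ((P₁ + P₃ + (Q₁ + Q₃) + (P₂ + Q₂)) + (P₁ + P₃ + (Q₁ + Q₃) + (P₂ + Q₂))) +
          (P₁ + P₃ + (Q₁ + Q₃) + (P₂ + Q₂)) := by abel
      rw [h, hV2, sub_zero, zero_add] at e1
      exact e1
    exact h7 _ _ _ _ _ _ _ _ h5
  have tJ : ∀ x, tv e κ eJ 0 x = ∑ i, ∑ j, κ x i j := by
    intro x
    unfold tv eJ
    rw [zero_smul, zero_add]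
    refine Finset.sum_congr rfl fun i _ => Finset.sum_congr rfl fun j _ => ?_
    split_ifs with h
    · rfl
    · have hij : i = j := Fin.ext (not_not.1 h)
      rw [hij, hD.kd]
  have tR : ∀ (c : ℕ) x, tv e κ eR c x = c • e x + ∑ j, κ x z j := by
    intro c x
    unfold tv eR
    congr 1
    rw [Finset.sum_eq_single z]
    · refine Finset.sum_congr rfl fun j _ => ?_
      split_ifs with h
      · rfl
      · have hj : j = z := by
          by_contra hj
          exact h ⟨hz, fun h0 => hj (Fin.ext (h0.trans hz.symm))⟩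
        rw [hj, hD.kd]
    · intro i _ hi
      refine Finset.sum_eq_zero fun j _ => ?_
      rw [if_neg]
      rintro ⟨h0, -⟩
      exact hi (Fin.ext (h0.trans hz.symm))
    · intro h
      exact absurd (Finset.mem_univ _) h
  have tC : ∀ (c : ℕ) x, tv e κ eC c x = c • e x + ∑ j, κ x j z := by
    intro c x
    unfold tv eC
    congr 1
    refine Finset.sum_congr rfl fun i _ => ?_
    rw [Finset.sum_eq_single z]
    · split_ifs with h
      · rfl
      · have hj : i = z := by
          by_contra hj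
          exact h ⟨fun h0 => hj (Fin.ext (h0.trans hz.symm)), hz⟩
        rw [hj, hD.kd]
    · intro j _ hj
      rw [if_neg]
      rintro ⟨-, h0⟩
      exact hj (Fin.ext (h0.trans hz.symm))
    · intro h
      exact absurd (Finset.mem_univ _) h
  have tN : ∀ x, tv e κ eN 1 x = e x := by
    intro x
    unfold tv eN
    simp
  have hP : ∑ i, ∑ j, a i j = ((g - 1 : ℕ) : F) * (∑ i, s i + ∑ i, t i) := by
    have h5 : ∀ i, ∑ j, a i j = ∑ j ∈ Finset.univ.erase i, (s i + t j) := by
      intro i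
      rw [← Finset.add_sum_erase _ _ (Finset.mem_univ i), hS.1.1 i, zero_add]
      exact Finset.sum_congr rfl fun j hj => hst i j (Finset.ne_of_mem_erase hj).symm
    have h6 : ∀ i, ∑ j ∈ Finset.univ.erase i, (s i + t j) =
        ((g - 1 : ℕ) : F) * s i + (∑ j, t j + t i) := by
      intro i
      rw [Finset.sum_add_distrib, Finset.sum_const, Finset.card_erase_of_mem (Finset.mem_univ i),
        Finset.card_univ, Fintype.card_fin, nsmul_eq_mul]
      congr 1
      rw [← Finset.add_sum_erase _ t (Finset.mem_univ i)]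
      linear_combination (-1 : F) * hF2 (t i)
    simp only [h5, h6]
    rw [Finset.sum_add_distrib, Finset.sum_add_distrib, ← Finset.mul_sum, Finset.sum_const,
      Finset.card_univ, Fintype.card_fin, nsmul_eq_mul]
    have h7 : (g : F) = ((g - 1 : ℕ) : F) + 1 := by
      have h8 : g = (g - 1) + 1 := by omega
      exact_mod_cast congrArg (Nat.cast : ℕ → F) h8
    rw [h7]
    linear_combination hF2 (∑ i, t i)
  have hc := hS.1.2
  rw [hP] at hc
  constructor
  · intro hev2
    have hgF : (g : F) = 0 := by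
      obtain ⟨m, hm⟩ : ∃ m, g = 2 * m := ⟨g / 2, by omega⟩
      rw [hm]
      push_cast
      rw [h2, zero_mul]
    have hg1 : ((g - 1 : ℕ) : F) = 1 := by
      obtain ⟨m, hm⟩ : ∃ m, g - 1 = 2 * m + 1 := ⟨(g - 1) / 2, by omega⟩
      rw [hm]
      push_cast
      rw [h2, zero_mul, zero_add]
    rw [hg1, one_mul, one_mul] at hc
    refine ⟨![s z + t z, ∑ i, s i, ∑ i, t i, 0, 0, 0, 0], fun x => ?_⟩
    rw [hval x, hgF, zero_mul, zero_mul, add_zero, add_zero, tJ, tR, tC, ← hc]
    show _ = (s z + t z) • _ + (∑ i, s i) • _ + (∑ i, t i) • _ + (0 : F) • _ + (0 : F) • _ +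
      (0 : F) • _ + (0 : F) • _
    simp only [zero_smul, add_zero, one_smul, add_smul, smul_add]
    abel
  · intro hodd
    have hgF : (g : F) = 1 := by
      obtain ⟨m, hm⟩ : ∃ m, g = 2 * m + 1 := ⟨g / 2, by omega⟩
      rw [hm]
      push_cast
      rw [h2, zero_mul, zero_add]
    refine ⟨![C, s z + t z, ∑ i, s i + s z, ∑ i, t i + t z, 0, 0], fun _ => rfl, fun x => ?_⟩
    rw [hval x, hgF, one_mul, one_mul, tJ, tR, tC, tN]
    show _ = C • _ + (s z + t z) • _ + (∑ i, s i + s z) • _ + (∑ i, t i + t z) • _ +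
      (0 : F) • _ + (0 : F) • _
    simp only [zero_smul, add_zero, zero_add, add_smul]
    abel

end Pool.Agent.CRS
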