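import Pool.Agent.CRS.StI

/-!
Campaign CRS, p = 2, module DEP (helper32): a function which is linear in one argument and vanishes if this argument is
equal to another one vanishes at dependent arguments.
-/

set_option autoImplicit false

namespace Pool.Agent.CRS

open Pool.Agent.CRR Pool.Agent.CRN Pool.Agent.CRK Pool.Agent.CRL Pool.Agent.CRM Pool.Agent.CRP
open Pool.Agent.CRQ

theorem DEP_sum {K : Type} [CommRing K] {A : Type} [NonUnitalRing A] [Module K A] {ι : Type}
    [DecidableEq ι] (F : (ι → A) → A) (k : ι)
    (hadd : ∀ (x : ι → A) (y z : A),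
      F (Function.update x k (y + z)) = F (Function.update x k y) + F (Function.update x k z))
    (hsm : ∀ (x : ι → A) (c : K) (y : A),
      F (Function.update x k (c • y)) = c • F (Function.update x k y))
    (x : ι → A) (a : ι → K) (s : Finset ι) (h0 : ∀ i ∈ s, F (Function.update x k (x i)) = 0) :
    F (Function.update x k (∑ i ∈ s, a i • x i)) = 0 := by
  induction s using Finset.induction_on with
  | empty =>
    have h1 := hsm x 0 0
    rw [zero_smul, zero_smul] at h1
    rw [Finset.sum_empty, h1]
  | insert i s hi ih =>
    rw [Finset.sum_insert hi, hadd, hsm, h0 i (Finset.mem_insert_self _ _), smul_zero, zero_add,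
      ih fun j hj => h0 j (Finset.mem_insert_of_mem hj)]

theorem thm_DEP : St_DEP := by
  intro K _ A _ _ _ _ M H hK ι _ _ F k hinv hadd hsm heq x c hc hx
  obtain ⟨d, hd⟩ := hc
  obtain ⟨y, hy⟩ := hd (x k)
  have h1 : x k - ∑ i ∈ Finset.univ.erase k, (-(d * c i)) • x i ∈ M := by
    have e1 : d • ∑ i, c i • x i =
        d • c k • x k + ∑ i ∈ Finset.univ.erase k, (d * c i) • x i := by
      rw [← Finset.add_sum_erase _ _ (Finset.mem_univ k), smul_add, Finset.smul_sum]
      simp only [mul_smul]
    have e2 : x k - ∑ i ∈ Finset.univ.erase k, (-(d * c i)) • x i =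
        d • ∑ i, c i • x i - 2 • y := by
      rw [e1, ← hy]
      simp only [neg_smul, Finset.sum_neg_distrib]
      abel
    rw [e2]
    exact M.sub_mem (hK.mK d _ hx) (hK.mp y)
  rw [hinv x (Function.update x k (∑ i ∈ Finset.univ.erase k, (-(d * c i)) • x i)) fun i => ?_]
  · refine DEP_sum F k hadd hsm x _ _ fun i hi => ?_
    have hik : i ≠ k := (Finset.mem_erase.1 hi).1
    refine heq _ i hik ?_
    rw [Function.update_self, Function.update_of_ne hik]
  · by_cases hi : i = k
    · subst hi
      rw [Function.update_self]
      exact h1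
    · rw [Function.update_of_ne hi, sub_self]
      exact M.zero_mem

end Pool.Agent.CRS
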