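import Pool.Agent.CRS.StI

/-!
Campaign CRS, module DMO: `Dm` for lists of orderings (helper26).
-/

set_option autoImplicit false

namespace Pool.Agent.CRS

open Pool.Agent.CRR Pool.Agent.CRN Pool.Agent.CRK Pool.Agent.CRL Pool.Agent.CRM Pool.Agent.CRP
open Pool.Agent.CRQ

section dmo

variable {K A ι ι' : Type} [CommRing K] [NonUnitalRing A] [Module K A]

private theorem DMO_map (L : List (K × List ι)) (σ : ι → ι') (z : ι' → A) :
    Ew (L.map fun q => (q.1, q.2.map σ)) z = Ew L (fun o => z (σ o)) := by
  unfold Ew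
  rw [List.map_map]
  congr 1
  apply List.map_congr_left
  intro q _
  show q.1 • wp ((q.2.map σ).map z) = q.1 • wp (q.2.map fun o => z (σ o))
  rw [List.map_map]
  rfl

private theorem DMO_len [Fintype ι] [BEq ι] [LawfulBEq ι] (w : List ι)
    (h : ∀ k, w.count k = 1) : w.length = Fintype.card ι := by
  classical
  have h1 : w.Nodup := List.nodup_iff_count_le_one.2 fun k => (h k).le
  rw [← List.toFinset_card_of_nodup h1]
  have h2 : w.toFinset = Finset.univ := by
    rw [Finset.eq_univ_iff_forall]
    intro k
    rw [List.mem_toFinset, ← List.count_pos_iff, h k]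
    exact one_pos
  rw [h2, Finset.card_univ]

end dmo

/-- **DMO.** -/
theorem thm_DMO (hT : St_TOP) (hD : St_DEP) (hL : St_LIN) : St_DMO := by
  intro K _ A _ _ _ _ M H g hB hDm L hc hz X
  obtain ⟨τ, hτ⟩ : ∃ τ : Option (Fin g) ≃ Fin (g + 1), τ = (finSuccEquiv g).symm := ⟨_, rfl⟩
  obtain ⟨F, hF⟩ : ∃ F : (Fin (g + 1) → A) → A, F = fun z => Ew L (fun o => z (τ o)) :=
    ⟨_, rfl⟩
  have hlen : ∀ q ∈ L, q.2.length = g + 1 := by
    intro q hq
    rw [DMO_len q.2 (hc q hq), Fintype.card_option, Fintype.card_fin]
  obtain ⟨_, _, hT3⟩ := hT K A M H (g + 1) hB.kst hB.mt (by have := hB.six; omega) hB.top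
  have hcong : ∀ x y : Fin (g + 1) → A, (∀ i, x i - y i ∈ M) → F x = F y := by
    intro x y h
    rw [hF]
    show (L.map fun q => q.1 • wp (q.2.map fun o => x (τ o))).sum =
      (L.map fun q => q.1 • wp (q.2.map fun o => y (τ o))).sum
    congr 1
    apply List.map_congr_left
    intro q hq
    rw [hT3 (Option (Fin g)) (fun o => x (τ o)) (fun o => y (τ o)) q.2 (hlen q hq)
      (fun o => h (τ o))]
  have hWf : Wf K (g + 1) F := by
    refine ⟨L.map fun q => (q.1, q.2.map fun o => (τ o).val), ?_, ?_⟩
    · intro q' hq'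
      obtain ⟨q, hq, rfl⟩ := List.mem_map.1 hq'
      refine ⟨?_, fun i => ?_⟩
      · intro h
        have h1 := hlen q hq
        have h2 : q.2 = [] := List.map_eq_nil_iff.1 h
        rw [h2] at h1
        exact absurd h1 (by simp)
      · show i ∈ q.2.map (fun o => (τ o).val) ↔ i < g + 1
        constructor
        · intro h
          obtain ⟨o, _, rfl⟩ := List.mem_map.1 h
          exact (τ o).isLt
        · intro h
          rw [List.mem_map]
          refine ⟨τ.symm ⟨i, h⟩, ?_, by rw [Equiv.apply_symm_apply]⟩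
          rw [← List.count_pos_iff, hc q hq]
          exact one_pos
    · intro x
      rw [hF]
      show (L.map fun q => q.1 • wp (q.2.map fun o => x (τ o))).sum = _
      rw [List.map_map]
      congr 1
      apply List.map_congr_left
      intro q _
      show q.1 • wp (q.2.map fun o => x (τ o)) =
        q.1 • wp ((q.2.map fun o => (τ o).val).map (xs x))
      rw [List.map_map]
      congr 2
      apply List.map_congr_left
      intro o _
      show x (τ o) = xs x (τ o).val
      unfold xs
      rw [dif_pos (τ o).isLt]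
  have hlin : ∀ k : Fin (g + 1), (∀ (x : Fin (g + 1) → A) (y z : A),
      F (Function.update x k (y + z)) = F (Function.update x k y) + F (Function.update x k z)) ∧
      ∀ (x : Fin (g + 1) → A) (c : K) (y : A),
        F (Function.update x k (c • y)) = c • F (Function.update x k y) := by
    intro k
    have h1 := hL K A (Fin (g + 1)) k (L.map fun q => (q.1, q.2.map τ)) (by
      intro q' hq'
      obtain ⟨q, hq, rfl⟩ := List.mem_map.1 hq'
      show (q.2.map τ).count k = 1
      have h2 : k = τ (τ.symm k) := (τ.apply_symm_apply k).symm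
      rw [h2, List.count_map_of_injective q.2 τ τ.injective]
      exact hc q hq _)
    have h2 : ∀ z : Fin (g + 1) → A, Ew (L.map fun q => (q.1, q.2.map τ)) z = F z := by
      intro z
      rw [DMO_map, hF]
    simp only [h2] at h1
    exact h1
  have hdep : ∀ (x : Fin (g + 1) → A) (c : Fin (g + 1) → K) (j : Fin (g + 1)),
      Ku K A 2 (c j) → ∑ i, c i • x i ∈ M → F x = 0 := by
    intro x c j
    refine hD K A M H hB.kst (Fin (g + 1)) F j hcong (hlin j).1 (hlin j).2 ?_ x c
    intro z i hij hzi
    rw [hF]
    apply hz _ (τ.symm j) (τ.symm i)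
    · intro h
      exact hij (τ.symm.injective h).symm
    · show z (τ (τ.symm j)) = z (τ (τ.symm i))
      rw [Equiv.apply_symm_apply, Equiv.apply_symm_apply, hzi]
  have h0 := hDm (g + 1) (Nat.lt_succ_self g) F hWf hdep (fun k => X (τ.symm k))
  rw [hF] at h0
  have h1 : (fun o => X (τ.symm (τ o))) = X := by
    funext o
    rw [Equiv.symm_apply_apply]
  rw [← h1]
  exact h0

end Pool.Agent.CRS
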