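import Pool.Agent.CRS.StI

/-!
Campaign CRS, module EQV: the values of the functions `Vg (Xl g i)`, `Vg (Pm g i j)`, `Vg (Qm g i j)` at elements two of which are
equal (`thm_EQV : St_EQV`, from `St_K22`, `St_K3`, `St_TBK`, `St_WG`).

If `x a = x b` then the letter `b` is replaced by `a` (`EQV_pi`), so that a word in the letters of `Fin g` becomes a word in the
letters different from `b`, in which `a` occurs more often; the values of such words are known from `St_K22` and `St_K3`.
-/

set_option autoImplicit false

namespace Pool.Agent.CRS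

open Pool.Agent.CRR Pool.Agent.CRN Pool.Agent.CRK Pool.Agent.CRL Pool.Agent.CRM Pool.Agent.CRP
open Pool.Agent.CRQ

section EQV_sec

/-- The letter `b` is replaced by `a`. -/
def EQV_pi {g : ℕ} (a b : Fin g) (hab : a ≠ b) (k : Fin g) : {k : Fin g // k ≠ b} :=
  if h : k = b then ⟨a, hab⟩ else ⟨k, h⟩

theorem EQV_pi_b {g : ℕ} {a b : Fin g} (hab : a ≠ b) : EQV_pi a b hab b = ⟨a, hab⟩ := by
  simp [EQV_pi]

theorem EQV_pi_ne {g : ℕ} {a b : Fin g} (hab : a ≠ b) {k : Fin g} (h : k ≠ b) :
    EQV_pi a b hab k = ⟨k, h⟩ := by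
  simp [EQV_pi, h]

theorem EQV_pi_eq {g : ℕ} {a b : Fin g} (hab : a ≠ b) {k : Fin g} {c : {k : Fin g // k ≠ b}}
    (h : EQV_pi a b hab k = c) : (k = b ∧ c.1 = a) ∨ (k ≠ b ∧ c.1 = k) := by
  by_cases hk : k = b
  · left
    refine ⟨hk, ?_⟩
    rw [← h, hk, EQV_pi_b]
  · right
    refine ⟨hk, ?_⟩
    rw [← h, EQV_pi_ne hab hk]

theorem EQV_count0 {g : ℕ} {ι' : Type} [DecidableEq ι'] (a b : Fin g) (hab : a ≠ b)
    (π : Fin g → ι') (v : ι' → Fin g) (hvb : ∀ c, v c ≠ b)
    (h : ∀ k c, π k = c ↔ (k = v c ∨ (k = b ∧ v c = a))) (c : ι') :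
    ∀ w : List (Fin g), (w.map π).count c =
      if v c = a then w.count a + w.count b else w.count (v c)
  | [] => by simp
  | k :: w => by
    rw [List.map_cons, List.count_cons, EQV_count0 a b hab π v hvb h c w]
    simp only [List.count_cons, beq_iff_eq, h]
    have h0 := hvb c
    by_cases hc : v c = a
    · simp only [hc, and_true, if_true]
      by_cases hka : k = a
      · subst hka
        have h1 : ¬ k = b := hab
        simp only [h1, or_false, if_true, if_false]
        omega
      · by_cases hkb : k = b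
        · subst hkb
          simp only [or_true, if_true, hka, if_false]
          omega
        · simp only [hka, hkb, or_false, if_false]
          omega
    · simp only [hc, and_false, or_false, if_false]

theorem EQV_count {g : ℕ} (a b : Fin g) (hab : a ≠ b) (c : {k : Fin g // k ≠ b})
    (w : List (Fin g)) :
    @List.count {k : Fin g // k ≠ b} instBEqOfDecidableEq c (w.map (EQV_pi a b hab)) =
      if c.1 = a then w.count a + w.count b else w.count c.1 := by
  apply EQV_count0 a b hab (EQV_pi a b hab) Subtype.val (fun c => c.2)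
  intro k c
  constructor
  · intro h
    rcases EQV_pi_eq hab h with ⟨h1, h2⟩ | ⟨_, h2⟩
    · exact Or.inr ⟨h1, h2⟩
    · exact Or.inl h2.symm
  · rintro (h | ⟨h1, h2⟩)
    · have h3 : k ≠ b := by
        rw [h]
        exact c.2
      rw [EQV_pi_ne hab h3]
      exact Subtype.ext h
    · rw [h1, EQV_pi_b]
      exact Subtype.ext h2.symm

/-- There is no pair `b b` in a word in which `b` occurs at most once. -/
theorem EQV_adj {g : ℕ} {A : Type} [AddCommMonoid A] (b : Fin g) (κ κ' : Fin g → Fin g → A)
    (h : ∀ j k, ¬ (j = b ∧ k = b) → κ j k = κ' j k) :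
    ∀ w : List (Fin g), w.count b ≤ 1 → adj κ w = adj κ' w
  | [], _ => rfl
  | [_], _ => rfl
  | j :: k :: w, hw => by
    have h1 : ¬ (j = b ∧ k = b) := by
      rintro ⟨rfl, rfl⟩
      simp at hw
    have h2 : (k :: w).count b ≤ 1 := le_trans (List.count_le_count_cons) hw
    show κ j k + adj κ (k :: w) = κ' j k + adj κ' (k :: w)
    rw [h j k h1, EQV_adj b κ κ' h (k :: w) h2]

theorem EQV_card {g : ℕ} (b : Fin g) (hg : 6 ≤ g) : 4 ≤ Fintype.card {k : Fin g // k ≠ b} := by
  have h1 : Fintype.card {k : Fin g // k ≠ b} = g - 1 := by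
    rw [Fintype.card_subtype_compl]
    simp
  omega

end EQV_sec

theorem thm_EQV (hK22 : St_K22) (hK3 : St_K3) (hT : St_TBK) (hW : St_WG) : St_EQV := by
  intro A _ g hN hg x a b hab hxab
  have hW2 := hW.2.1
  have hW6 := hW.2.2.2.2.2
  have hx' : ∀ w : List (Fin g),
      (w.map (EQV_pi a b hab)).map (fun k : {k : Fin g // k ≠ b} => x k.1) = w.map x := by
    intro w
    rw [List.map_map]
    apply List.map_congr_left
    intro k _
    show x (EQV_pi a b hab k).1 = x k
    by_cases hk : k = b
    · rw [hk, EQV_pi_b]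
      exact hxab
    · rw [EQV_pi_ne hab hk]
  have hcard := EQV_card b hg
  have hpa : EQV_pi a b hab a = ⟨a, hab⟩ := EQV_pi_ne hab hab
  have hpb : EQV_pi a b hab b = ⟨a, hab⟩ := EQV_pi_b hab
  constructor
  · intro i hia hib
    obtain ⟨κ, hκ1, hκ2, hκ3⟩ := hK22 A hN {k : Fin g // k ≠ b} hcard ⟨i, hib⟩ ⟨a, hab⟩
      (fun k => x k.1) (fun h => hia (congrArg Subtype.val h))
    have hpi : EQV_pi a b hab i = ⟨i, hib⟩ := EQV_pi_ne hab hib
    have hz : ∀ j k : Fin g, ¬ (EQV_pi a b hab j = ⟨i, hib⟩ ∧ EQV_pi a b hab k = ⟨a, hab⟩) →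
        ¬ (EQV_pi a b hab j = ⟨a, hab⟩ ∧ EQV_pi a b hab k = ⟨i, hib⟩) →
        κ (EQV_pi a b hab j) (EQV_pi a b hab k) = 0 := fun j k h1 h2 => hκ2 _ _ h1 h2
    have hpji : ∀ j : Fin g, j ≠ i → EQV_pi a b hab j ≠ ⟨i, hib⟩ := by
      intro j hj h
      rcases EQV_pi_eq hab h with ⟨_, h2⟩ | ⟨_, h2⟩
      · exact hia h2
      · exact hj h2.symm
    obtain ⟨h1, h2⟩ := hT A hN g x i (fun j k => κ (EQV_pi a b hab j) (EQV_pi a b hab k)) hg
      (fun j k => hW6 A _ _ x Subtype.val _ (hκ1 _ _))
      (fun j k hj hk => hz j k (fun h => hpji j hj h.1) (fun h => hpji k hk h.2))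
      (fun w hw1 hw2 => by
        rw [← hx' w, hκ3 (w.map (EQV_pi a b hab))]
        · exact hW2 _ _ A κ (EQV_pi a b hab) w
        · rw [EQV_count]
          simp only [hia, if_false]
          exact hw1
        · rw [EQV_count]
          simp only [if_true]
          rw [hw2 a (Ne.symm hia), hw2 b (Ne.symm hib)]
        · intro c hc1 hc2
          rw [EQV_count]
          have h3 : c.1 ≠ a := fun h => hc2 (Subtype.ext h)
          have h4 : c.1 ≠ i := fun h => hc1 (Subtype.ext h)
          simp only [h3, if_false]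
          exact hw2 _ h4)
    refine ⟨?_, ?_, ?_, ?_⟩
    · rw [h1]
      exact hz i i (fun h => hia (by
        have h5 := h.2
        rw [hpi] at h5
        exact congrArg Subtype.val h5)) (fun h => hia (by
        have h5 := h.1
        rw [hpi] at h5
        exact congrArg Subtype.val h5))
    · rw [(h2 a (Ne.symm hia)).1, (h2 b (Ne.symm hib)).1, hpa, hpb]
    · rw [(h2 a (Ne.symm hia)).2, (h2 b (Ne.symm hib)).2, hpa, hpb]
    · intro j hji hja hjb
      have hpj : EQV_pi a b hab j = ⟨j, hjb⟩ := EQV_pi_ne hab hjb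
      have hpja : EQV_pi a b hab j ≠ ⟨a, hab⟩ := by
        rw [hpj]
        exact fun h => hja (congrArg Subtype.val h)
      have hpia : EQV_pi a b hab i ≠ ⟨a, hab⟩ := by
        rw [hpi]
        exact fun h => hia (congrArg Subtype.val h)
      refine ⟨?_, ?_⟩
      · rw [(h2 j hji).1]
        exact hz i j (fun h => hpja h.2) (fun h => hpia h.1)
      · rw [(h2 j hji).2]
        exact hz j i (fun h => hpia h.2) (fun h => hpja h.1)
  · obtain ⟨κ, hκ1, hκ2, hκ3⟩ := hK3 A hN {k : Fin g // k ≠ b} hcard ⟨a, hab⟩ (fun k => x k.1)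
    have hpj : ∀ j : Fin g, j ≠ a → j ≠ b → EQV_pi a b hab j ≠ ⟨a, hab⟩ := by
      intro j hja hjb h
      rw [EQV_pi_ne hab hjb] at h
      exact hja (congrArg Subtype.val h)
    -- the letter `a` twice
    obtain ⟨h1, h2⟩ := hT A hN g x a (fun j k => if j = b ∧ k = b then 0 else
        κ (EQV_pi a b hab j) (EQV_pi a b hab k)) hg
      (fun j k => by
        by_cases h : j = b ∧ k = b
        · simp only [h, and_self, if_true]
          exact AddSubgroup.zero_mem _
        · simp only [h, if_false]
          exact hW6 A _ _ x Subtype.val _ (hκ1 _ _))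
      (fun j k hj hk => by
        by_cases h : j = b ∧ k = b
        · simp only [h, and_self, if_true]
        · simp only [h, if_false]
          apply hκ2
          rintro ⟨h3, h4⟩
          apply h
          constructor
          · by_contra h5
            exact hpj j hj h5 h3
          · by_contra h5
            exact hpj k hk h5 h4)
      (fun w hw1 hw2 => by
        have hb : w.count b = 1 := hw2 b (Ne.symm hab)
        rw [← hx' w, hκ3 (w.map (EQV_pi a b hab))]
        · rw [hW2 _ _ A κ (EQV_pi a b hab) w]
          apply EQV_adj b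
          · intro j k h
            simp only [h, if_false]
          · rw [hb]
        · rw [EQV_count]
          simp only [if_true]
          rw [hw1, hb]
        · intro c hc
          rw [EQV_count]
          have h3 : c.1 ≠ a := fun h => hc (Subtype.ext h)
          simp only [h3, if_false]
          exact hw2 _ h3)
    -- the letter `b` twice
    obtain ⟨h3, -⟩ := hT A hN g x b (fun j k => if j = a ∧ k = a then 0 else
        κ (EQV_pi a b hab j) (EQV_pi a b hab k)) hg
      (fun j k => by
        by_cases h : j = a ∧ k = a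
        · simp only [h, and_self, if_true]
          exact AddSubgroup.zero_mem _
        · simp only [h, if_false]
          exact hW6 A _ _ x Subtype.val _ (hκ1 _ _))
      (fun j k hj hk => by
        by_cases h : j = a ∧ k = a
        · simp only [h, and_self, if_true]
        · simp only [h, if_false]
          apply hκ2
          rintro ⟨h3, h4⟩
          apply h
          constructor
          · by_contra h5
            exact hpj j h5 hj h3
          · by_contra h5
            exact hpj k h5 hk h4)
      (fun w hw1 hw2 => by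
        have ha : w.count a = 1 := hw2 a hab
        rw [← hx' w, hκ3 (w.map (EQV_pi a b hab))]
        · rw [hW2 _ _ A κ (EQV_pi a b hab) w]
          apply EQV_adj a
          · intro j k h
            simp only [h, if_false]
          · rw [ha]
        · rw [EQV_count]
          simp only [if_true]
          rw [hw1, ha]
        · intro c hc
          rw [EQV_count]
          have h3 : c.1 ≠ a := fun h => hc (Subtype.ext h)
          simp only [h3, if_false]
          exact hw2 _ c.2)
    have hE1 : Vg (Xl g a.val) x = κ ⟨a, hab⟩ ⟨a, hab⟩ := by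
      rw [h1]
      simp only [hab, false_and, if_false, hpa]
    have hE2 : Vg (Xl g b.val) x = κ ⟨a, hab⟩ ⟨a, hab⟩ := by
      rw [h3]
      simp only [Ne.symm hab, false_and, if_false, hpb]
    refine ⟨?_, ?_, ?_, ?_⟩
    · rw [hE1, (h2 b (Ne.symm hab)).1]
      simp only [hab, false_and, if_false, hpa, hpb]
    · rw [hE1, (h2 b (Ne.symm hab)).2]
      simp only [hab, and_false, if_false, hpa, hpb]
    · rw [hE1, hE2]
    · intro j hja hjb
      have hjn := hpj j hja hjb
      refine ⟨?_, ?_⟩
      · rw [(h2 j hja).1]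
        simp only [hab, false_and, if_false]
        exact hκ2 _ _ (fun h => hjn h.2)
      · rw [(h2 j hja).2]
        simp only [hab, and_false, if_false]
        exact hκ2 _ _ (fun h => hjn h.1)

end Pool.Agent.CRS
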