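import Pool.Agent.CRS.StI

/-!
Campaign CRS (problem MP_1bb14d_al): module EVL, values and coefficients of a list of orderings.
-/

set_option autoImplicit false

namespace Pool.Agent.CRS

open Pool.Agent.CRR Pool.Agent.CRN Pool.Agent.CRK Pool.Agent.CRL Pool.Agent.CRM Pool.Agent.CRP
open Pool.Agent.CRQ

private theorem EVL_adj {K A ι : Type} [CommRing K] [NonUnitalRing A] [Module K A] [Fintype ι] [DecidableEq ι]
    (κ : ι → ι → A) : ∀ w : List ι,
    adj κ w = ∑ i, ∑ j, (adj (fun a b => if a = i ∧ b = j then (1 : K) else 0) w) • κ i j
  | [] => by simp [adj]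
  | [a] => by simp [adj]
  | a :: b :: l => by
    have ih := EVL_adj (K := K) κ (b :: l)
    rw [adj, ih]
    have e : ∀ i j : ι, adj (fun a b => if a = i ∧ b = j then (1 : K) else 0) (a :: b :: l) =
        (if a = i ∧ b = j then (1 : K) else 0) + adj (fun a b => if a = i ∧ b = j then (1 : K) else 0) (b :: l) :=
      fun i j => by rw [adj]
    simp only [e, add_smul, Finset.sum_add_distrib]
    congr 1
    rw [Finset.sum_eq_single a, Finset.sum_eq_single b]
    · simp
    · intro j _ hj
      rw [if_neg (fun h => hj h.2.symm), zero_smul]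
    · intro h
      exact absurd (Finset.mem_univ _) h
    · intro i _ hi
      refine Finset.sum_eq_zero fun j _ => ?_
      rw [if_neg (fun h => hi h.1.symm), zero_smul]
    · intro h
      exact absurd (Finset.mem_univ _) h

private theorem EVL_diag {K ι : Type} [CommRing K] [DecidableEq ι] (i : ι) : ∀ w : List ι, w.count i ≤ 1 →
    adj (fun a b => if a = i ∧ b = i then (1 : K) else 0) w = 0
  | [], _ => by simp [adj]
  | [a], _ => by simp [adj]
  | a :: b :: l, h => by
    rw [adj, EVL_diag i (b :: l) (le_trans (List.count_le_count_cons) h), add_zero, if_neg]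
    rintro ⟨rfl, rfl⟩
    simp at h

private theorem EVL_head {K ι : Type} [CommRing K] [Fintype ι] [DecidableEq ι] (j : ι) : ∀ w : List ι,
    (if w.head? = some j then (1 : K) else 0) + ∑ i, adj (fun a b => if a = i ∧ b = j then (1 : K) else 0) w =
      (w.count j : K)
  | [] => by simp [adj]
  | [a] => by
    simp only [adj, Finset.sum_const_zero, add_zero, List.head?_cons, Option.some.injEq, List.count_cons, List.count_nil,
      beq_iff_eq]
    split_ifs <;> simp
  | a :: b :: l => by
    have ih := EVL_head (K := K) j (b :: l)
    have e : ∀ i : ι, adj (fun a b => if a = i ∧ b = j then (1 : K) else 0) (a :: b :: l) =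
        (if a = i ∧ b = j then (1 : K) else 0) + adj (fun a b => if a = i ∧ b = j then (1 : K) else 0) (b :: l) :=
      fun i => by rw [adj]
    simp only [e, Finset.sum_add_distrib]
    have e2 : ∑ i, (if a = i ∧ b = j then (1 : K) else 0) = if (b :: l).head? = some j then (1 : K) else 0 := by
      rw [Finset.sum_eq_single a]
      · simp
      · intro i _ hi
        rw [if_neg (fun h => hi h.1.symm)]
      · intro h
        exact absurd (Finset.mem_univ _) h
    rw [e2, ih, List.count_cons (a := j) (b := a), List.head?_cons]
    simp only [Option.some.injEq, beq_iff_eq]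
    push_cast
    rw [add_comm]

theorem thm_EVL : St_EVL := by
  intro K _ A _ _ ι _ _ L hL
  refine ⟨?_, ?_, ?_⟩
  · intro x e κ hx
    induction L with
    | nil => simp [Ew, tf, cf]
    | cons q L ih =>
      have ih' := ih fun q' hq' => hL q' (List.mem_cons_of_mem _ hq')
      have h1 := hx q.2 (hL q (by simp))
      have e1 : Ew (q :: L) x = q.1 • wp (q.2.map x) + Ew L x := by simp [Ew]
      have e2 : tf (q :: L) = q.1 + tf L := by simp [tf]
      have e3 : ∀ i j, cf (q :: L) i j =
          q.1 * adj (fun a b => if a = i ∧ b = j then (1 : K) else 0) q.2 + cf L i j := by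
        intro i j
        simp [cf]
      rw [e1, ih', h1, e2, EVL_adj (K := K) κ q.2]
      simp only [e3, add_smul, mul_smul, Finset.sum_add_distrib, smul_add, Finset.smul_sum]
      abel
  · intro i
    unfold cf
    refine List.sum_eq_zero fun z hz => ?_
    obtain ⟨q, hq, rfl⟩ := List.mem_map.1 hz
    rw [EVL_diag i q.2 (hL q hq i).le, mul_zero]
  · intro j
    induction L with
    | nil => simp [hf, tf, cf]
    | cons q L ih =>
      have ih' := ih fun q' hq' => hL q' (List.mem_cons_of_mem _ hq')
      have e1 : hf (q :: L) j = (if q.2.head? = some j then q.1 else 0) + hf L j := by simp [hf]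
      have e2 : tf (q :: L) = q.1 + tf L := by simp [tf]
      have e3 : ∀ i, cf (q :: L) i j =
          q.1 * adj (fun a b => if a = i ∧ b = j then (1 : K) else 0) q.2 + cf L i j := by
        intro i
        simp [cf]
      have h1 := EVL_head (K := K) j q.2
      rw [hL q (by simp) j] at h1
      have h2 : (if q.2.head? = some j then q.1 else 0) = q.1 * (if q.2.head? = some j then (1 : K) else 0) := by
        split_ifs <;> simp
      rw [e1, e2, h2]
      simp only [e3, Finset.sum_add_distrib, ← Finset.mul_sum]
      linear_combination ih' + q.1 * h1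

end Pool.Agent.CRS

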