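import Pool.Agent.CRS.StG
import Mathlib.Tactic

/-!
CRS, module Eqv: equivariance.
-/

set_option autoImplicit false

namespace Pool.Agent.CRS

open Pool.Agent.CRR Pool.Agent.CRN Pool.Agent.CRK Pool.Agent.CRL Pool.Agent.CRM Pool.Agent.CRP
open Pool.Agent.CRQ

private theorem eqv_adj {ι V A : Type} [AddCommGroup V] [NonUnitalRing A] (j : V →+ A) (κ : ι → ι → V) :
    ∀ w : List ι, j (adj κ w) = adj (fun p q => j (κ p q)) w
  | [] => by simp [adj]
  | [a] => by simp [adj]
  | a :: b :: l => by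
      have ih := eqv_adj j κ (b :: l)
      simp only [adj, map_add]
      rw [ih]

theorem thm_Eqv (hU : St_Unq) (hW : St_WG) : St_Eqv := by
  intro F V A _ _ _ _ j g e κ hj hg h2 hκ hw
  refine ⟨hg, h2, hκ, ?_⟩
  intro C a hP σ x
  obtain ⟨ha, hsum⟩ := hP
  have hv : ∀ v : V, v + v = 0 := by
    intro v
    rw [← two_smul F v, h2, zero_smul]
  obtain ⟨-, hW2, -, hW4, -, -⟩ := hW
  -- the comparison of the two formulas
  have key : ∀ w : List (Fin g), (∀ i, w.count i = 1) →
      (e (x ∘ σ.symm) + e x) + adj (fun p q => κ (x ∘ σ.symm) p q + κ x (σ.symm p) (σ.symm q)) w = 0 := by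
    intro w hc
    have h1 := hw (x ∘ σ.symm) w hc
    have hc' : ∀ i, (w.map σ.symm).count i = 1 := by
      intro i
      have e1 : (w.map σ.symm).count i = (w.map σ.symm).count (σ.symm (σ i)) := by
        rw [Equiv.symm_apply_apply]
      rw [e1, List.count_map_of_injective _ _ σ.symm.injective]
      exact hc _
    have h2' := hw x (w.map σ.symm) hc'
    rw [List.map_map] at h2'
    rw [hW2] at h2'
    rw [← eqv_adj j (κ (x ∘ σ.symm))] at h1
    have e3 : adj (fun p q => j (κ x (σ.symm p) (σ.symm q))) w =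
        j (adj (fun p q => κ x (σ.symm p) (σ.symm q)) w) := (eqv_adj j _ w).symm
    rw [e3, ← map_add] at h2'
    rw [← map_add] at h1
    have h3 : e (x ∘ σ.symm) + adj (κ (x ∘ σ.symm)) w =
        e x + adj (fun p q => κ x (σ.symm p) (σ.symm q)) w := hj (h1.symm.trans h2')
    rw [hW4]
    have e4 : (fun i j => κ (x ∘ σ.symm) i j) = κ (x ∘ σ.symm) := rfl
    calc (e (x ∘ σ.symm) + e x) + (adj (fun i j => κ (x ∘ σ.symm) i j) w +
          adj (fun i j => κ x (σ.symm i) (σ.symm j)) w)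
        = (e (x ∘ σ.symm) + adj (κ (x ∘ σ.symm)) w) +
          (e x + adj (fun p q => κ x (σ.symm p) (σ.symm q)) w) := by abel
      _ = 0 := by rw [h3]; exact hv _
  obtain ⟨z, hz, hδ⟩ := hU g V hg hv (e (x ∘ σ.symm) + e x)
    (fun p q => κ (x ∘ σ.symm) p q + κ x (σ.symm p) (σ.symm q)) key
  have heq : e (x ∘ σ.symm) = e x + (g - 1) • z := by
    rw [← hδ]
    have := hv (e x)
    calc e (x ∘ σ.symm) = e (x ∘ σ.symm) + (e x + e x) := by rw [this, add_zero]
      _ = _ := by abel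
  have hterm : ∀ i k : Fin g, a i k • κ (x ∘ σ.symm) i k =
      a i k • κ x (σ.symm i) (σ.symm k) + a i k • z := by
    intro i k
    by_cases hik : i = k
    · subst hik
      rw [ha i]; simp
    · have h := hz i k hik
      rw [← smul_add, ← h]
      have := hv (κ x (σ.symm i) (σ.symm k))
      congr 1
      calc κ (x ∘ σ.symm) i k = κ (x ∘ σ.symm) i k +
            (κ x (σ.symm i) (σ.symm k) + κ x (σ.symm i) (σ.symm k)) := by rw [this, add_zero]
        _ = _ := by abel
  have hre : (∑ i, ∑ k, a i k • κ x (σ.symm i) (σ.symm k)) =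
      ∑ i, ∑ k, a (σ i) (σ k) • κ x i k := by
    rw [← Equiv.sum_comp σ (fun i => ∑ k, a i k • κ x (σ.symm i) (σ.symm k))]
    refine Finset.sum_congr rfl fun i _ => ?_
    rw [← Equiv.sum_comp σ (fun k => a (σ i) k • κ x (σ.symm (σ i)) (σ.symm k))]
    refine Finset.sum_congr rfl fun k _ => ?_
    rw [Equiv.symm_apply_apply, Equiv.symm_apply_apply]
  unfold evd
  rw [heq]
  have e5 : (∑ i, ∑ k, a i k • κ (x ∘ σ.symm) i k) =
      (∑ i, ∑ k, a i k • κ x (σ.symm i) (σ.symm k)) + (∑ i, ∑ k, a i k) • z := by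
    simp only [Finset.sum_smul]
    rw [← Finset.sum_add_distrib]
    refine Finset.sum_congr rfl fun i _ => ?_
    rw [← Finset.sum_add_distrib]
    exact Finset.sum_congr rfl fun k _ => hterm i k
  rw [e5, hre, hsum]
  have e6 : C • (g - 1) • z = (((g - 1 : ℕ) : F) * C) • z := by
    rw [← Nat.cast_smul_eq_nsmul F (g - 1) z, smul_smul, mul_comm]
  rw [smul_add, e6]
  have := hv ((((g - 1 : ℕ) : F) * C) • z)
  calc C • e x + (((g - 1 : ℕ) : F) * C) • z +
        ((∑ i, ∑ k, a (σ i) (σ k) • κ x i k) + (((g - 1 : ℕ) : F) * C) • z)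
      = C • e x + (∑ i, ∑ k, a (σ i) (σ k) • κ x i k) +
        ((((g - 1 : ℕ) : F) * C) • z + (((g - 1 : ℕ) : F) * C) • z) := by abel
    _ = _ := by rw [this, add_zero]

end Pool.Agent.CRS
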