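import Pool.Agent.CRS.StI

/-!
# CRS, module F0B: the coefficients of the ordering part (helper68)

Statement and proof: `St_F0B` in `CRS/StI.lean`.
-/

set_option autoImplicit false

namespace Pool.Agent.CRS

open Pool.Agent.CRR Pool.Agent.CRN Pool.Agent.CRK Pool.Agent.CRL Pool.Agent.CRM Pool.Agent.CRP
open Pool.Agent.CRQ

/-- the ideal of the `c` with `Nl` -/
private def F0B_I (K A : Type) [CommRing K] [NonUnitalRing A] [Module K A]
    (h5 : ∀ c : K, ∀ z ∈ Sx A, c • z ∈ Sx A) : Ideal K where
  carrier := {c | Nl K A c}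
  add_mem' := by
    intro a b ha hb z hz
    rw [add_smul, ha z hz, hb z hz, add_zero]
  zero_mem' := by
    intro z _
    exact zero_smul K z
  smul_mem' := by
    intro c a ha z hz
    have h := h5 c z hz
    rw [smul_eq_mul, mul_comm, mul_smul]
    exact ha _ h

private theorem F0B_ex (g : ℕ) (hg : 6 ≤ g) (a b c : Fin g) : ∃ x, x ≠ a ∧ x ≠ b ∧ x ≠ c := by
  by_contra hcon
  push Not at hcon
  have h1 : (Finset.univ : Finset (Fin g)) ⊆ {a, b, c} := by
    intro x _
    simp only [Finset.mem_insert, Finset.mem_singleton]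
    by_cases h1 : x = a
    · exact Or.inl h1
    · by_cases h2 : x = b
      · exact Or.inr (Or.inl h2)
      · exact Or.inr (Or.inr (hcon x h1 h2))
  have h2 := Finset.card_le_card h1
  have h3 : ({a, b, c} : Finset (Fin g)).card ≤ 3 := Finset.card_le_three
  rw [Finset.card_univ, Fintype.card_fin] at h2
  omega

/-- the module F0B -/
theorem thm_F0B : St_BAS → St_IDM → St_EVL → St_F0B := by
  intro hBAS hIDM hEVL K _ A _ _ _ _ M H g hK hg hSQ L hL hI
  obtain ⟨_, hz2, _, _, h5, _⟩ := hBAS K A M H hK
  obtain ⟨_, hdiag, hcol⟩ := hEVL K A (Fin g) L hL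
  let I : Ideal K := F0B_I K A h5
  have hmem : ∀ c : K, Ideal.Quotient.mk I c = 0 ↔ Nl K A c := fun c => by
    rw [Ideal.Quotient.eq_zero_iff_mem]
    exact Iff.rfl
  have h2 : ∀ x : K ⧸ I, x + x = 0 := by
    intro x
    obtain ⟨c, rfl⟩ := Ideal.Quotient.mk_surjective x
    rw [← map_add, hmem]
    intro z hz
    rw [add_smul, ← smul_add, hz2 z hz, smul_zero]
  have heq : ∀ x y : K ⧸ I, x + y = 0 → x = y := by
    intro x y h
    exact add_right_cancel (h.trans (h2 y).symm)
  -- (1)
  have e1 : ∀ p i j : Fin g, i ≠ p → j ≠ p →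
      Ideal.Quotient.mk I (cf L p i) = Ideal.Quotient.mk I (cf L p j) := by
    intro p i j hip hjp
    by_cases hij : i = j
    · rw [hij]
    · obtain ⟨q, hqp, hqi, hqj⟩ := F0B_ex g hg p i j
      have h := (hIDM K A M H g hK hg hSQ (mF L p) (hI p) (some p) (some q) (some i) (some j)
        (by simp [Ne.symm hqp, Ne.symm hip, Ne.symm hjp, hqi, hqj, hij])).1
      have h' : mF L p (some p) (some i) + mF L p (some p) (some j) + mF L p (some q) (some i)
          + mF L p (some q) (some j) + (mF L p (some i) (some p) + mF L p (some j) (some p)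
          + mF L p (some i) (some q) + mF L p (some j) (some q)) = cf L p i + cf L p j := by
        show (if p = p then cf L p i else 0) + (if p = p then cf L p j else 0)
          + (if q = p then cf L q i else 0) + (if q = p then cf L q j else 0)
          + ((if i = p then cf L i p else 0) + (if j = p then cf L j p else 0)
          + (if i = p then cf L i q else 0) + (if j = p then cf L j q else 0)) = _
        rw [if_pos rfl, if_pos rfl, if_neg hqp, if_neg hqp, if_neg hip, if_neg hjp, if_neg hip,
          if_neg hjp]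
        ring
      rw [h'] at h
      apply heq
      rw [← map_add, hmem]
      exact h
  have e0 : ∀ p : Fin g, Ideal.Quotient.mk I (cf L p p) = 0 := by
    intro p
    rw [hdiag p, map_zero]
  -- (2)
  have e2 : ∀ p q : Fin g, p ≠ q →
      Ideal.Quotient.mk I (tf L) = Ideal.Quotient.mk I (hf L p) + Ideal.Quotient.mk I (hf L q) := by
    intro p q hpq
    obtain ⟨i, hip, hiq, _⟩ := F0B_ex g hg p q q
    have h := (hIDM K A M H g hK hg hSQ (mF L p) (hI p) (some p) (some q) (some i) none
      (by simp [hpq, Ne.symm hip, Ne.symm hiq])).1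
    have h' : mF L p (some p) (some i) + mF L p (some p) none + mF L p (some q) (some i)
        + mF L p (some q) none + (mF L p (some i) (some p) + mF L p none (some p)
        + mF L p (some i) (some q) + mF L p none (some q))
        = cf L p i + tf L + (hf L p + cf L p p) + (hf L q + cf L p q) := by
      show (if p = p then cf L p i else 0) + (if p = p then tf L else 0)
        + (if q = p then cf L q i else 0) + (if q = p then tf L else 0)
        + ((if i = p then cf L i p else 0) + (hf L p + cf L p p)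
        + (if i = p then cf L i q else 0) + (hf L q + cf L p q)) = _
      rw [if_pos rfl, if_pos rfl, if_neg (Ne.symm hpq), if_neg (Ne.symm hpq), if_neg hip,
        if_neg hip]
      ring
    rw [h'] at h
    rw [← hmem] at h
    simp only [map_add] at h
    rw [e0 p, e1 p i q hip (Ne.symm hpq)] at h
    have h3 := h2 (Ideal.Quotient.mk I (cf L p q))
    have h4 := h2 (Ideal.Quotient.mk I (hf L p) + Ideal.Quotient.mk I (hf L q))
    apply heq
    linear_combination h - h3
  have e3 : ∀ p q : Fin g, Ideal.Quotient.mk I (hf L p) = Ideal.Quotient.mk I (hf L q) := by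
    intro p q
    by_cases hpq : p = q
    · rw [hpq]
    · obtain ⟨r, hrp, hrq, _⟩ := F0B_ex g hg p q q
      have h3 := e2 r p hrp
      have h4 := e2 r q hrq
      linear_combination h4 - h3
  have hpos : 0 < g := by omega
  let o : Fin g := ⟨0, hpos⟩
  obtain ⟨u, huo, _, _⟩ := F0B_ex g hg o o o
  have eC : Ideal.Quotient.mk I (tf L) = 0 := by
    rw [e2 o u (Ne.symm huo), e3 u o]
    exact h2 _
  -- (3)
  have hρ : ∀ i : Fin g, ∃ k, k ≠ i := fun i => by
    obtain ⟨k, hk, _, _⟩ := F0B_ex g hg i i i
    exact ⟨k, hk⟩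
  choose kk hkk using hρ
  let ρ : Fin g → K ⧸ I := fun i => Ideal.Quotient.mk I (cf L i (kk i))
  have e4 : ∀ i j : Fin g, i ≠ j → Ideal.Quotient.mk I (cf L i j) = ρ i := by
    intro i j hij
    exact e1 i j (kk i) (Ne.symm hij) (hkk i)
  have e5 : ∀ j : Fin g, ρ j = ∑ i, ρ i + Ideal.Quotient.mk I (hf L o) := by
    intro j
    have h3 := congrArg (Ideal.Quotient.mk I) (hcol j)
    rw [map_add, map_sum, eC, e3 j o] at h3
    have h4 : ∑ i, Ideal.Quotient.mk I (cf L i j) = ∑ i ∈ Finset.univ.erase j, ρ i := by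
      rw [← Finset.add_sum_erase Finset.univ (fun i => Ideal.Quotient.mk I (cf L i j))
        (Finset.mem_univ j), e0 j, zero_add]
      apply Finset.sum_congr rfl
      intro i hi
      exact e4 i j (Finset.ne_of_mem_erase hi)
    have h6 : ρ j + ∑ i ∈ Finset.univ.erase j, ρ i = ∑ i, ρ i :=
      Finset.add_sum_erase Finset.univ ρ (Finset.mem_univ j)
    rw [h4] at h3
    rw [← h6]
    linear_combination (-1 : K ⧸ I) * h3
  have e6 : ∀ i j : Fin g, ρ i = ρ j := fun i j => by rw [e5 i, e5 j]
  refine ⟨(hmem _).1 eC, cf L o u, ?_⟩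
  intro i j hij
  rw [← hmem, map_add, e4 i j hij, e4 o u (Ne.symm huo), e6 i o]
  exact h2 _

end Pool.Agent.CRS
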