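import Pool.Agent.CRS.StI

/-!
Campaign CRS, p = 2: module F0C (problem MP_1bb14d_al, stage 7).
-/

set_option autoImplicit false

namespace Pool.Agent.CRS

open Pool.Agent.CRR Pool.Agent.CRN Pool.Agent.CRK Pool.Agent.CRL Pool.Agent.CRM Pool.Agent.CRP
open Pool.Agent.CRQ

theorem thm_F0C (hB : St_BAS) (h1 : St_K1) (hE : St_EVL) (hT : St_TBE) : St_F0C := by
  classical
  intro K _ A _ _ _ _ M H g hK h6 L ρ J hL htf hcf hJ x
  obtain ⟨hN, h2, _, hWS, hcS, _⟩ := hB K A M H hK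
  obtain ⟨e, κ, he, hκ, hv⟩ := h1 A hN (Fin g) (by simpa using h6) x
  obtain ⟨hv1, hd, _⟩ := hE K A (Fin g) L hL
  have heS : e ∈ Sx A := hWS _ x e he
  have hkS : ∀ i j, κ i j ∈ Sx A := fun i j => hWS _ x _ (hκ i j)
  rw [hv1 x e κ hv, hT A hN g 0 eJ J x e κ h6 hJ he hκ hv, htf e heS, zero_add, zero_smul,
    zero_add, Finset.smul_sum]
  refine Finset.sum_congr rfl fun i _ => ?_
  rw [Finset.smul_sum]
  refine Finset.sum_congr rfl fun j _ => ?_
  by_cases hij : i = j
  · subst hij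
    rw [hd, zero_smul, if_neg (fun h : eJ i.val i.val => h rfl), smul_zero]
  · have hne : eJ i.val j.val := fun h => hij (Fin.ext h)
    rw [if_pos hne]
    have h := hcf i j hij (κ i j) (hkS i j)
    rw [add_smul] at h
    have h3 := h2 _ (hcS ρ _ (hkS i j))
    exact add_right_cancel (h.trans h3.symm)

end Pool.Agent.CRS
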