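import Pool.Agent.CRS.StI

/-!
Campaign CRS, p = 2, module FDA: the identity of the polarisation of `Pu`.
-/

set_option autoImplicit false

namespace Pool.Agent.CRS

open Pool.Agent.CRR Pool.Agent.CRN Pool.Agent.CRK Pool.Agent.CRL Pool.Agent.CRM Pool.Agent.CRP
open Pool.Agent.CRQ

private theorem FDA_adj {ι A : Type} [AddCommMonoid A] (κ : ι → ι → A) (a b : ι) (l : List ι) :
    adj κ (a :: b :: l) = κ a b + adj κ (b :: l) := rfl

private theorem FDA_mem {ι A : Type} [NonUnitalRing A] (H : AddSubgroup A) (κ : ι → ι → A)
    (h : ∀ j k, κ j k ∈ H) (l : List ι) : adj κ l ∈ H := by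
  induction l with
  | nil => exact H.zero_mem
  | cons a l ih =>
    cases l with
    | nil => exact H.zero_mem
    | cons b l =>
      rw [FDA_adj]
      exact H.add_mem (h a b) ih

private theorem FDA_val {A : Type} [NonUnitalRing A] {g : ℕ} (x : Fin g → A) (w : List (Fin g)) :
    (w.map Fin.val).map (xs x) = w.map x := by
  rw [List.map_map]
  apply List.map_congr_left
  intro i _
  show xs x i.val = x i
  unfold xs
  rw [dif_pos i.isLt]

private theorem FDA_two {A : Type} [NonUnitalRing A] {g : ℕ} (x : Fin g → A) (u v : List (Fin g)) :
    Vg [((1 : ℤ), u.map Fin.val), (1, v.map Fin.val)] x = wp (u.map x) + wp (v.map x) := by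
  show (1 : ℤ) • wp ((u.map Fin.val).map (xs x)) +
    ((1 : ℤ) • wp ((v.map Fin.val).map (xs x)) + 0) = _
  rw [FDA_val, FDA_val, one_smul, one_smul, add_zero]

private theorem FDA_wc {A : Type} [NonUnitalRing A] (a : A) (l : List A) (h : l ≠ []) :
    wp (a :: l) = a * wp l := by
  cases l with
  | nil => exact absurd rfl h
  | cons b l => rfl

private theorem FDA_add {A : Type} [NonUnitalRing A] (l₁ l₂ : List A) (a b : A) :
    wp (l₁ ++ (a + b) :: l₂) = wp (l₁ ++ a :: l₂) + wp (l₁ ++ b :: l₂) := by
  induction l₁ with
  | nil =>
    cases l₂ with
    | nil => rfl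
    | cons c l => exact add_mul a b (wp (c :: l))
  | cons c l ih =>
    rw [List.cons_append, List.cons_append, List.cons_append, FDA_wc _ _ (by simp),
      FDA_wc _ _ (by simp), FDA_wc _ _ (by simp), ih, mul_add]

private theorem FDA_up {A : Type} {g : ℕ} (x : Fin g → A) (i : Fin g) (z : A) (w : List (Fin g))
    (h : ∀ j ∈ w, j ≠ i) : w.map (Function.update x i z) = w.map x :=
  List.map_congr_left fun j hj => Function.update_of_ne (h j hj) z x

/-- one word with the letter `i` twice -/
private theorem FDA_word {A : Type} [NonUnitalRing A] {g : ℕ} (x : Fin g → A) (y : A) (i : Fin g)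
    (u v t : List (Fin g)) (hu : ∀ j ∈ u, j ≠ i) (hv : ∀ j ∈ v, j ≠ i) (ht : ∀ j ∈ t, j ≠ i) :
    wp ((u ++ i :: (v ++ i :: t)).map (Function.update x i (x i + y))) =
      wp ((u ++ i :: (v ++ i :: t)).map x) +
      wp ((u ++ i :: (v ++ i :: t)).map (Function.update x i y)) +
      (wp ((u.map some ++ some i :: (v.map some ++ none :: t.map some)).map
        (fun o : Option (Fin g) => o.elim y x)) +
      wp ((u.map some ++ none :: (v.map some ++ some i :: t.map some)).map
        (fun o : Option (Fin g) => o.elim y x))) := by
  have hs : ∀ w : List (Fin g), (w.map some).map (fun o : Option (Fin g) => o.elim y x) =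
      w.map x := by
    intro w
    rw [List.map_map]
    rfl
  simp only [List.map_append, List.map_cons, FDA_up x i _ u hu, FDA_up x i _ v hv,
    FDA_up x i _ t ht, Function.update_self, hs, Option.elim_some, Option.elim_none]
  have h1 : ∀ a b : A, wp (u.map x ++ a :: (v.map x ++ b :: t.map x)) =
      wp ((u.map x ++ a :: v.map x) ++ b :: t.map x) := by
    intro a b
    simp
  rw [FDA_add, h1 (x i), h1 y, FDA_add, FDA_add, ← h1, ← h1, ← h1, ← h1]
  abel

private theorem FDA_split {A : Type} [AddCommMonoid A] {g : ℕ} (F : Fin g → A) (i : Fin g) :
    ∑ b, F b = F i + ∑ b, (if b = i then 0 else F b) := by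
  have h1 : ∑ b, F b = ∑ b, ((if b = i then F b else 0) + (if b = i then 0 else F b)) :=
    Finset.sum_congr rfl fun b _ => by split_ifs <;> simp
  rw [h1, Finset.sum_add_distrib]
  congr 1
  rw [Finset.sum_ite_eq' Finset.univ i F, if_pos (Finset.mem_univ i)]

private theorem FDA_eq {A : Type} [AddCommGroup A] {a b : A} (z : A) (hz : z = 0)
    (h : a = b + z) : a = b := by
  rw [h, hz, add_zero]

theorem thm_FDA (hBAS : St_BAS) (hWG : St_WG) : St_FDA := by
  intro K _ A _ _ _ _ M H g hK hg i E r l hpol X e κ he hκ hw
  obtain ⟨hA, -⟩ := hBAS K A M H hK
  obtain ⟨hW1, -, hW3, -, -, -⟩ := hWG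
  have h2 : ∀ y ∈ Wg X, y + y = 0 := hW1 A hA (Option (Fin g)) X
  have hadj : ∀ l : List (Option (Fin g)), adj κ l + adj κ l = 0 := fun l =>
    h2 _ (FDA_mem (Wg X) κ hκ l)
  have hκ2 : ∀ j k, κ j k + κ j k = 0 := fun j k => h2 _ (hκ j k)
  have he2 : e + e = 0 := h2 e he
  obtain ⟨x, hx⟩ : ∃ x : Fin g → A, x = fun j => X (some j) := ⟨_, rfl⟩
  obtain ⟨y, hy⟩ : ∃ y : A, y = X none := ⟨_, rfl⟩
  have hX : (fun o : Option (Fin g) => o.elim y x) = X := by
    funext o
    cases o with
    | none => exact hy
    | some j => rw [hx]; rfl
  -- words which are rearrangements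
  have hP : ∀ w : List (Option (Fin g)), w.Perm (none :: (List.finRange g).map some) →
      wp (w.map X) = e + adj κ w := by
    intro w hp
    apply hw
    intro o
    rw [hp.count_eq]
    cases o with
    | none =>
      rw [List.count_cons_self, List.count_eq_zero_of_not_mem (by simp)]
    | some j =>
      rw [List.count_cons_of_ne (by simp), List.count_map_of_injective _ _
        (Option.some_injective _), List.count_eq_one_of_mem (List.nodup_finRange g)
        (List.mem_finRange j)]
  obtain ⟨L0, hL0⟩ : ∃ L0 : List (Fin g), L0 = (List.finRange g).erase i := ⟨_, rfl⟩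
  have hp0 : (List.finRange g).Perm (i :: L0) := by
    rw [hL0]
    exact List.perm_cons_erase (List.mem_finRange i)
  have hlen : L0.length + 1 = g := by
    have := hp0.length_eq
    rw [List.length_finRange, List.length_cons] at this
    omega
  have hm0 : L0.map Fin.val = (List.range g).erase i.val := by
    rw [hL0, List.map_erase Fin.val_injective]
    congr 1
    exact List.map_coe_finRange_eq_range
  have hni : ∀ j ∈ L0, j ≠ i := by
    intro j hj hji
    have hnd : (i :: L0).Nodup := hp0.nodup_iff.1 (List.nodup_finRange g)
    rw [hji] at hj
    exact (List.nodup_cons.1 hnd).1 hj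
  have hc0 : ∀ k, ((List.finRange g).map some).count k = ((i :: L0).map some).count k :=
    fun k => (hp0.map some).count_eq k
  -- the three polarisations
  have hVX : Vg (Xl g i.val) (Function.update x i (x i + y)) =
      Vg (Xl g i.val) x + Vg (Xl g i.val) (Function.update x i y) +
      (κ (some i) none + κ none (some i)) := by
    obtain ⟨a, m, rfl⟩ : ∃ a m, L0 = a :: m := by
      cases L0 with
      | nil => simp at hlen; omega
      | cons a m => exact ⟨a, m, rfl⟩
    obtain ⟨b, n, rfl⟩ : ∃ b n, m = b :: n := by
      cases m with
      | nil => simp at hlen; omega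
      | cons b n => exact ⟨b, n, rfl⟩
    have e1 : Xl g i.val = [((1 : ℤ), (a :: i :: i :: (b :: n)).map Fin.val),
        (1, (i :: ((b :: n) ++ [a, i])).map Fin.val)] := by
      unfold Xl
      rw [← hm0]
      simp
    have ha : a ≠ i := hni a (by simp)
    have hn : ∀ j ∈ (b :: n), j ≠ i := fun j hj => hni j (List.mem_cons_of_mem _ hj)
    have el : (b :: n) ++ [a, i] = ((b :: n) ++ [a]) ++ [i] := by simp
    have w1 : wp ((a :: i :: i :: (b :: n)).map (Function.update x i (x i + y))) =
        wp ((a :: i :: i :: (b :: n)).map x) +
        wp ((a :: i :: i :: (b :: n)).map (Function.update x i y)) +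
        (wp ((some a :: some i :: none :: (b :: n).map some).map
          (fun o : Option (Fin g) => o.elim y x)) +
        wp ((some a :: none :: some i :: (b :: n).map some).map
          (fun o : Option (Fin g) => o.elim y x))) :=
      FDA_word x y i [a] [] (b :: n) (by simpa using ha) (by simp) hn
    have w2 : wp ((i :: (((b :: n) ++ [a]) ++ [i])).map (Function.update x i (x i + y))) =
        wp ((i :: (((b :: n) ++ [a]) ++ [i])).map x) +
        wp ((i :: (((b :: n) ++ [a]) ++ [i])).map (Function.update x i y)) +
        (wp ((some i :: (((b :: n) ++ [a]).map some ++ [none])).map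
          (fun o : Option (Fin g) => o.elim y x)) +
        wp ((none :: (((b :: n) ++ [a]).map some ++ [some i])).map
          (fun o : Option (Fin g) => o.elim y x))) :=
      FDA_word x y i [] ((b :: n) ++ [a]) [] (by simp)
      (by
        intro j hj
        rcases List.mem_append.1 hj with h | h
        · exact hn j h
        · rw [List.mem_singleton.1 h]
          exact ha) (by simp)
    rw [hX] at w1 w2
    have p1 := hP (some a :: some i :: none :: (b :: n).map some) (by
      rw [List.perm_iff_count]
      intro k
      rw [List.count_cons (l := (List.finRange g).map some), hc0 k]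
      simp only [List.map_cons, List.count_cons]
      ring)
    have p2 := hP (some a :: none :: some i :: (b :: n).map some) (by
      rw [List.perm_iff_count]
      intro k
      rw [List.count_cons (l := (List.finRange g).map some), hc0 k]
      simp only [List.map_cons, List.count_cons]
      ring)
    have p3 := hP (some i :: (((b :: n) ++ [a]).map some ++ [none])) (by
      rw [List.perm_iff_count]
      intro k
      rw [List.count_cons (l := (List.finRange g).map some), hc0 k]
      simp only [List.map_cons, List.map_append, List.map_nil, List.count_cons,
        List.count_append, List.count_nil]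
      ring)
    have p4 := hP (none :: (((b :: n) ++ [a]).map some ++ [some i])) (by
      rw [List.perm_iff_count]
      intro k
      rw [List.count_cons (l := (List.finRange g).map some), hc0 k]
      simp only [List.map_cons, List.map_append, List.map_nil, List.count_cons,
        List.count_append, List.count_nil]
      ring)
    -- the sums over adjacent pairs
    have hS : ∀ o o' : Option (Fin g), adj κ (o :: (((b :: n) ++ [a]).map some ++ [o'])) =
        κ o (some b) + (adj κ ((b :: n).map some ++ [some a]) + κ (some a) o') := by
      intro o o'
      have q1 : ((b :: n) ++ [a]).map some ++ [o'] = (b :: n).map some ++ some a :: [o'] := by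
        simp
      have q2 := hW3 (Option (Fin g)) A κ (some a) ((b :: n).map some) [o']
      have q3 : adj κ (o :: ((b :: n).map some ++ some a :: [o'])) =
          κ o (some b) + adj κ ((b :: n).map some ++ some a :: [o']) := rfl
      rw [q1, q3, q2, FDA_adj]
      have q4 : adj κ [o'] = 0 := rfl
      rw [q4, add_zero]
    have hT : ∀ o o' : Option (Fin g), adj κ (some a :: o :: o' :: (b :: n).map some) =
        κ (some a) o + (κ o o' + (κ o' (some b) + adj κ ((b :: n).map some))) :=
      fun _ _ => rfl
    rw [hS] at p3 p4
    rw [hT] at p1 p2
    rw [e1, el, FDA_two, FDA_two, FDA_two, w1, w2, p1, p2, p3, p4]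
    have hB := hadj ((b :: n).map some)
    have hC := hadj ((b :: n).map some ++ [some a])
    generalize adj κ ((b :: n).map some) = B at hB ⊢
    generalize adj κ ((b :: n).map some ++ [some a]) = C at hC ⊢
    have k1 := hκ2 (some a) (some i)
    have k2 := hκ2 (some a) none
    have k3 := hκ2 (some i) (some b)
    have k4 := hκ2 none (some b)
    refine FDA_eq ((e + e) + (e + e) + (B + B) + (C + C) +
      (κ (some a) (some i) + κ (some a) (some i)) + (κ (some a) none + κ (some a) none) +
      (κ (some i) (some b) + κ (some i) (some b)) + (κ none (some b) + κ none (some b))) ?_ ?_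
    · rw [he2, hB, hC, k1, k2, k3, k4]
      simp
    · abel
  have hVPQ : ∀ j : Fin g, j ≠ i →
      (Vg (Pm g i.val j.val) (Function.update x i (x i + y)) =
        Vg (Pm g i.val j.val) x + Vg (Pm g i.val j.val) (Function.update x i y) +
        (κ (some i) (some j) + κ none (some j))) ∧
      (Vg (Qm g i.val j.val) (Function.update x i (x i + y)) =
        Vg (Qm g i.val j.val) x + Vg (Qm g i.val j.val) (Function.update x i y) +
        (κ (some j) none + κ (some j) (some i))) := by
    intro j hj
    have hjL : j ∈ L0 := by
      have := hp0.mem_iff.1 (List.mem_finRange j)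
      rcases List.mem_cons.1 this with h | h
      · exact absurd h hj
      · exact h
    obtain ⟨L1, hL1⟩ : ∃ L1 : List (Fin g), L1 = L0.erase j := ⟨_, rfl⟩
    have hp1 : L0.Perm (j :: L1) := by
      rw [hL1]
      exact List.perm_cons_erase hjL
    have hm1 : L1.map Fin.val = ((List.range g).erase i.val).erase j.val := by
      rw [hL1, List.map_erase Fin.val_injective, hm0]
    have hn1 : ∀ k ∈ L1, k ≠ i := fun k hk => hni k (hp1.mem_iff.2 (List.mem_cons_of_mem _ hk))
    have hlen1 : L1.length + 2 = g := by
      have := hp1.length_eq
      rw [List.length_cons] at this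
      omega
    have hc1 : ∀ k, ((List.finRange g).map some).count k =
        ((i :: j :: L1).map some).count k :=
      fun k => ((hp0.trans (hp1.cons i)).map some).count_eq k
    obtain ⟨b, n, rfl⟩ : ∃ b n, L1 = b :: n := by
      cases L1 with
      | nil => simp at hlen1; omega
      | cons b n => exact ⟨b, n, rfl⟩
    have hnj : ∀ k ∈ (b :: n) ++ [j], k ≠ i := by
      intro k hk
      rcases List.mem_append.1 hk with h | h
      · exact hn1 k h
      · rw [List.mem_singleton.1 h]
        exact hj
    constructor
    · have e1 : Pm g i.val j.val = [((1 : ℤ), (i :: j :: i :: (b :: n)).map Fin.val),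
          (1, (i :: ((b :: n) ++ [j, i])).map Fin.val)] := by
        unfold Pm
        rw [← hm1]
        simp
      have el : (b :: n) ++ [j, i] = ((b :: n) ++ [j]) ++ [i] := by simp
      have w1 : wp ((i :: j :: i :: (b :: n)).map (Function.update x i (x i + y))) =
          wp ((i :: j :: i :: (b :: n)).map x) +
          wp ((i :: j :: i :: (b :: n)).map (Function.update x i y)) +
          (wp ((some i :: some j :: none :: (b :: n).map some).map
            (fun o : Option (Fin g) => o.elim y x)) +
          wp ((none :: some j :: some i :: (b :: n).map some).map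
            (fun o : Option (Fin g) => o.elim y x))) :=
        FDA_word x y i [] [j] (b :: n) (by simp) (by simpa using hj) hn1
      have w2 : wp ((i :: (((b :: n) ++ [j]) ++ [i])).map (Function.update x i (x i + y))) =
          wp ((i :: (((b :: n) ++ [j]) ++ [i])).map x) +
          wp ((i :: (((b :: n) ++ [j]) ++ [i])).map (Function.update x i y)) +
          (wp ((some i :: (((b :: n) ++ [j]).map some ++ [none])).map
            (fun o : Option (Fin g) => o.elim y x)) +
          wp ((none :: (((b :: n) ++ [j]).map some ++ [some i])).map
            (fun o : Option (Fin g) => o.elim y x))) :=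
        FDA_word x y i [] ((b :: n) ++ [j]) [] (by simp) hnj (by simp)
      rw [hX] at w1 w2
      have p1 := hP (some i :: some j :: none :: (b :: n).map some) (by
        rw [List.perm_iff_count]
        intro k
        rw [List.count_cons (l := (List.finRange g).map some), hc1 k]
        simp only [List.map_cons, List.count_cons]
        ring)
      have p2 := hP (none :: some j :: some i :: (b :: n).map some) (by
        rw [List.perm_iff_count]
        intro k
        rw [List.count_cons (l := (List.finRange g).map some), hc1 k]
        simp only [List.map_cons, List.count_cons]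
        ring)
      have p3 := hP (some i :: (((b :: n) ++ [j]).map some ++ [none])) (by
        rw [List.perm_iff_count]
        intro k
        rw [List.count_cons (l := (List.finRange g).map some), hc1 k]
        simp only [List.map_cons, List.map_append, List.map_nil, List.count_cons,
          List.count_append, List.count_nil]
        ring)
      have p4 := hP (none :: (((b :: n) ++ [j]).map some ++ [some i])) (by
        rw [List.perm_iff_count]
        intro k
        rw [List.count_cons (l := (List.finRange g).map some), hc1 k]
        simp only [List.map_cons, List.map_append, List.map_nil, List.count_cons,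
          List.count_append, List.count_nil]
        ring)
      have hS : ∀ o o' : Option (Fin g), adj κ (o :: (((b :: n) ++ [j]).map some ++ [o'])) =
          κ o (some b) + (adj κ ((b :: n).map some ++ [some j]) + κ (some j) o') := by
        intro o o'
        have q1 : ((b :: n) ++ [j]).map some ++ [o'] = (b :: n).map some ++ some j :: [o'] := by
          simp
        have q2 := hW3 (Option (Fin g)) A κ (some j) ((b :: n).map some) [o']
        have q3 : adj κ (o :: ((b :: n).map some ++ some j :: [o'])) =
            κ o (some b) + adj κ ((b :: n).map some ++ some j :: [o']) := rfl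
        rw [q1, q3, q2, FDA_adj]
        have q4 : adj κ [o'] = 0 := rfl
        rw [q4, add_zero]
      have hT : ∀ o o' : Option (Fin g), adj κ (o :: some j :: o' :: (b :: n).map some) =
          κ o (some j) + (κ (some j) o' + (κ o' (some b) + adj κ ((b :: n).map some))) :=
        fun _ _ => rfl
      rw [hS] at p3 p4
      rw [hT] at p1 p2
      rw [e1, el, FDA_two, FDA_two, FDA_two, w1, w2, p1, p2, p3, p4]
      have hB := hadj ((b :: n).map some)
      have hC := hadj ((b :: n).map some ++ [some j])
      generalize adj κ ((b :: n).map some) = B at hB ⊢
      generalize adj κ ((b :: n).map some ++ [some j]) = C at hC ⊢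
      refine FDA_eq ((e + e) + (e + e) + (B + B) + (C + C) +
        (κ (some j) none + κ (some j) none) + (κ (some j) (some i) + κ (some j) (some i)) +
        (κ (some i) (some b) + κ (some i) (some b)) + (κ none (some b) + κ none (some b))) ?_ ?_
      · rw [he2, hB, hC, hκ2, hκ2, hκ2, hκ2]
        simp
      · abel
    · have e1 : Qm g i.val j.val = [((1 : ℤ), ((b :: n) ++ [i, j, i]).map Fin.val),
          (1, (i :: j :: ((b :: n) ++ [i])).map Fin.val)] := by
        unfold Qm
        rw [← hm1]
        simp
      have w1 : wp (((b :: n) ++ [i, j, i]).map (Function.update x i (x i + y))) =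
          wp (((b :: n) ++ [i, j, i]).map x) +
          wp (((b :: n) ++ [i, j, i]).map (Function.update x i y)) +
          (wp (((b :: n).map some ++ [some i, some j, none]).map
            (fun o : Option (Fin g) => o.elim y x)) +
          wp (((b :: n).map some ++ [none, some j, some i]).map
            (fun o : Option (Fin g) => o.elim y x))) :=
        FDA_word x y i (b :: n) [j] [] hn1 (by simpa using hj) (by simp)
      have w2 : wp ((i :: j :: ((b :: n) ++ [i])).map (Function.update x i (x i + y))) =
          wp ((i :: j :: ((b :: n) ++ [i])).map x) +
          wp ((i :: j :: ((b :: n) ++ [i])).map (Function.update x i y)) +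
          (wp ((some i :: some j :: ((b :: n).map some ++ [none])).map
            (fun o : Option (Fin g) => o.elim y x)) +
          wp ((none :: some j :: ((b :: n).map some ++ [some i])).map
            (fun o : Option (Fin g) => o.elim y x))) :=
        FDA_word x y i [] (j :: b :: n) [] (by simp)
          (by
            intro k hk
            rcases List.mem_cons.1 hk with h | h
            · rw [h]
              exact hj
            · exact hn1 k h) (by simp)
      rw [hX] at w1 w2
      have p1 := hP ((b :: n).map some ++ [some i, some j, none]) (by
        rw [List.perm_iff_count]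
        intro k
        rw [List.count_cons (l := (List.finRange g).map some), hc1 k]
        simp only [List.map_cons, List.count_cons, List.count_append, List.count_nil]
        ring)
      have p2 := hP ((b :: n).map some ++ [none, some j, some i]) (by
        rw [List.perm_iff_count]
        intro k
        rw [List.count_cons (l := (List.finRange g).map some), hc1 k]
        simp only [List.map_cons, List.count_cons, List.count_append, List.count_nil]
        ring)
      have p3 := hP (some i :: some j :: ((b :: n).map some ++ [none])) (by
        rw [List.perm_iff_count]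
        intro k
        rw [List.count_cons (l := (List.finRange g).map some), hc1 k]
        simp only [List.map_cons, List.count_cons, List.count_append, List.count_nil]
        ring)
      have p4 := hP (none :: some j :: ((b :: n).map some ++ [some i])) (by
        rw [List.perm_iff_count]
        intro k
        rw [List.count_cons (l := (List.finRange g).map some), hc1 k]
        simp only [List.map_cons, List.count_cons, List.count_append, List.count_nil]
        ring)
      have hS : ∀ o o' : Option (Fin g), adj κ ((b :: n).map some ++ [o, some j, o']) =
          adj κ ((b :: n).map some ++ [o]) + (κ o (some j) + κ (some j) o') := by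
        intro o o'
        have q2 := hW3 (Option (Fin g)) A κ o ((b :: n).map some) [some j, o']
        rw [q2, FDA_adj, FDA_adj]
        have q4 : adj κ [o'] = 0 := rfl
        rw [q4, add_zero]
      have hT : ∀ o o' : Option (Fin g), adj κ (o :: some j :: ((b :: n).map some ++ [o'])) =
          κ o (some j) + (κ (some j) (some b) + adj κ ((b :: n).map some ++ [o'])) :=
        fun _ _ => rfl
      rw [hS] at p1 p2
      rw [hT] at p3 p4
      rw [e1, FDA_two, FDA_two, FDA_two, w1, w2, p1, p2, p3, p4]
      have hB := hadj ((b :: n).map some ++ [none])
      have hC := hadj ((b :: n).map some ++ [some i])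
      generalize adj κ ((b :: n).map some ++ [none]) = B at hB ⊢
      generalize adj κ ((b :: n).map some ++ [some i]) = C at hC ⊢
      refine FDA_eq ((e + e) + (e + e) + (B + B) + (C + C) +
        (κ (some i) (some j) + κ (some i) (some j)) + (κ none (some j) + κ none (some j)) +
        (κ (some j) (some b) + κ (some j) (some b))) ?_ ?_
      · rw [he2, hB, hC, hκ2, hκ2, hκ2]
        simp
      · abel
  -- the identity
  have h0 : E • (κ (some i) none + κ none (some i)) + ∑ j : Fin g, (if j = i then 0 else
      r j • (κ (some i) (some j) + κ none (some j)) +
        l j • (κ (some j) none + κ (some j) (some i))) = 0 := by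
    have h := hpol x y
    unfold Pu at h
    rw [hVX] at h
    have h3 : ∑ j : Fin g, (if j = i then 0 else
        r j • Vg (Pm g i.val j.val) (Function.update x i (x i + y)) +
          l j • Vg (Qm g i.val j.val) (Function.update x i (x i + y))) =
        ∑ j : Fin g, (if j = i then 0 else
          r j • Vg (Pm g i.val j.val) x + l j • Vg (Qm g i.val j.val) x) +
        ∑ j : Fin g, (if j = i then 0 else
          r j • Vg (Pm g i.val j.val) (Function.update x i y) +
            l j • Vg (Qm g i.val j.val) (Function.update x i y)) +
        ∑ j : Fin g, (if j = i then 0 else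
          r j • (κ (some i) (some j) + κ none (some j)) +
            l j • (κ (some j) none + κ (some j) (some i))) := by
      rw [← Finset.sum_add_distrib, ← Finset.sum_add_distrib]
      refine Finset.sum_congr rfl fun j _ => ?_
      by_cases hj : j = i
      · simp [hj]
      · rw [if_neg hj, if_neg hj, if_neg hj, if_neg hj, (hVPQ j hj).1, (hVPQ j hj).2]
        simp only [smul_add]
        abel
    rw [h3] at h
    have h4 : E • Vg (Xl g i.val) x + E • Vg (Xl g i.val) (Function.update x i y) = E •
        (Vg (Xl g i.val) x + Vg (Xl g i.val) (Function.update x i y)) := (smul_add _ _ _).symm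
    rw [smul_add, ← h4] at h
    refine add_left_cancel (a := E • Vg (Xl g i.val) x +
      ∑ j : Fin g, (if j = i then 0 else
          r j • Vg (Pm g i.val j.val) x + l j • Vg (Qm g i.val j.val) x) +
      (E • Vg (Xl g i.val) (Function.update x i y) +
      ∑ j : Fin g, (if j = i then 0 else
          r j • Vg (Pm g i.val j.val) (Function.update x i y) +
            l j • Vg (Qm g i.val j.val) (Function.update x i y)))) ?_
    rw [add_zero]
    refine Eq.trans ?_ h
    abel
  refine Eq.trans ?_ h0
  -- the row of `none`
  have r0 : ∑ b : Option (Fin g), (if none = b then 0 else mD i E r l none b • κ none b) =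
      E • κ none (some i) + ∑ b : Fin g, (if b = i then 0 else r b • κ none (some b)) := by
    rw [Fintype.sum_option, if_pos rfl, zero_add]
    rw [FDA_split _ i]
    congr 1
    · rw [if_neg (by simp)]
      simp only [mD, if_true]
    · refine Finset.sum_congr rfl fun b _ => ?_
      by_cases hb : b = i
      · rw [if_pos hb, if_pos hb]
      · rw [if_neg hb, if_neg hb, if_neg (by simp)]
        simp only [mD, if_neg hb]
  -- the row of `i`
  have r1 : ∑ b : Option (Fin g), (if some i = b then 0 else mD i E r l (some i) b • κ (some i) b) =
      E • κ (some i) none + ∑ b : Fin g, (if b = i then 0 else r b • κ (some i) (some b)) := by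
    rw [Fintype.sum_option, if_neg (by simp)]
    congr 1
    · simp only [mD, if_true]
    · refine Finset.sum_congr rfl fun b _ => ?_
      by_cases hb : b = i
      · rw [if_pos hb, if_pos (by rw [hb])]
      · rw [if_neg hb, if_neg (fun h => hb (Option.some_injective _ h).symm)]
        simp only [mD, if_true]
  -- the other rows
  have r2 : ∀ a : Fin g, a ≠ i →
      ∑ b : Option (Fin g), (if some a = b then 0 else mD i E r l (some a) b • κ (some a) b) =
      l a • κ (some a) none + l a • κ (some a) (some i) := by
    intro a ha
    rw [Fintype.sum_option, if_neg (by simp)]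
    congr 1
    · simp only [mD, if_neg ha]
    · rw [Finset.sum_eq_single i]
      · rw [if_neg (fun h => ha (Option.some_injective _ h))]
        simp only [mD, if_neg ha, if_true]
      · intro b _ hb
        split_ifs with h
        · rfl
        · simp only [mD, if_neg ha, if_neg hb, zero_smul]
      · intro h
        exact absurd (Finset.mem_univ i) h
  have r5 : ∑ a : Fin g,
      ∑ b : Option (Fin g), (if some a = b then 0 else mD i E r l (some a) b • κ (some a) b) =
      ∑ b : Option (Fin g), (if some i = b then 0 else mD i E r l (some i) b • κ (some i) b) +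
      ∑ a : Fin g, (if a = i then 0 else
        ∑ b : Option (Fin g), (if some a = b then 0 else mD i E r l (some a) b • κ (some a) b)) :=
    FDA_split _ i
  rw [Fintype.sum_option, r0, r5, r1]
  have r3 : ∑ a : Fin g, (if a = i then 0 else
      ∑ b : Option (Fin g), (if some a = b then 0 else mD i E r l (some a) b • κ (some a) b)) =
      ∑ a : Fin g, (if a = i then 0 else l a • κ (some a) none + l a • κ (some a) (some i)) :=
    Finset.sum_congr rfl fun a _ => by
      by_cases ha : a = i
      · rw [if_pos ha, if_pos ha]
      · rw [if_neg ha, if_neg ha, r2 a ha]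
  rw [r3]
  have r4 : ∑ j : Fin g, (if j = i then 0 else
      r j • (κ (some i) (some j) + κ none (some j)) +
        l j • (κ (some j) none + κ (some j) (some i))) =
      ∑ b : Fin g, (if b = i then 0 else r b • κ none (some b)) +
      ∑ b : Fin g, (if b = i then 0 else r b • κ (some i) (some b)) +
      ∑ a : Fin g, (if a = i then 0 else l a • κ (some a) none + l a • κ (some a) (some i)) := by
    rw [← Finset.sum_add_distrib, ← Finset.sum_add_distrib]
    refine Finset.sum_congr rfl fun j _ => ?_
    by_cases hj : j = i
    · simp [hj]
    · rw [if_neg hj, if_neg hj, if_neg hj, if_neg hj]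
      simp only [smul_add]
      abel
  rw [r4, smul_add]
  abel

end Pool.Agent.CRS
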