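import Pool.Agent.CRS.StI

/-!
Campaign CRS, module FDB: `Pu` is a multiple of `Vg (Xl g i)`.
-/

set_option autoImplicit false

namespace Pool.Agent.CRS

open Pool.Agent.CRR Pool.Agent.CRN Pool.Agent.CRK Pool.Agent.CRL Pool.Agent.CRM Pool.Agent.CRP
open Pool.Agent.CRQ

private theorem FDB_ex {g : ℕ} (hg : 6 ≤ g) (a b c d : Fin g) :
    ∃ j : Fin g, j ≠ a ∧ j ≠ b ∧ j ≠ c ∧ j ≠ d := by
  by_contra h
  push Not at h
  have h1 : ({a, b, c, d} : Finset (Fin g)) = Finset.univ := by
    rw [Finset.eq_univ_iff_forall]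
    intro j
    simp only [Finset.mem_insert, Finset.mem_singleton]
    by_cases ha : j = a
    · exact Or.inl ha
    by_cases hb : j = b
    · exact Or.inr (Or.inl hb)
    by_cases hc : j = c
    · exact Or.inr (Or.inr (Or.inl hc))
    exact Or.inr (Or.inr (Or.inr (h j ha hb hc)))
  have h2 : ({a, b, c, d} : Finset (Fin g)).card ≤ 4 := Finset.card_le_four
  rw [h1, Finset.card_univ, Fintype.card_fin] at h2
  omega

private theorem FDB_mem {A : Type} [NonUnitalRing A] {g : ℕ} (x : Fin g → A) (u v : List ℕ)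
    (hu : 6 ≤ u.length) (hv : 6 ≤ v.length) :
    Vg [((1 : ℤ), u), ((1 : ℤ), v)] x ∈ Sx A := by
  have h1 : ∀ w : List ℕ, 6 ≤ w.length → wp (w.map (xs x)) ∈ Sx A := by
    intro w hw
    exact AddSubgroup.subset_closure ⟨w.map (xs x), by rwa [List.length_map], rfl⟩
  unfold Vg ev
  simp only [List.map_cons, List.map_nil, List.sum_cons, List.sum_nil, one_smul, add_zero]
  exact (Sx A).add_mem (h1 u hu) (h1 v hv)

private theorem FDB_len (l : List ℕ) (a : ℕ) : l.length ≤ (l.erase a).length + 1 := by
  rw [List.length_erase]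
  split <;> omega

private theorem FDB_X {A : Type} [NonUnitalRing A] {g : ℕ} (hg : 6 ≤ g) (x : Fin g → A) (i : ℕ) :
    Vg (Xl g i) x ∈ Sx A := by
  have h1 := FDB_len (List.range g) i
  rw [List.length_range] at h1
  apply FDB_mem
  · simp only [List.length_cons, List.length_tail]
    omega
  · simp only [List.length_cons, List.length_append, List.length_tail, List.length_nil]
    omega

private theorem FDB_P {A : Type} [NonUnitalRing A] {g : ℕ} (hg : 6 ≤ g) (x : Fin g → A) (i j : ℕ) :
    Vg (Pm g i j) x ∈ Sx A := by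
  have h1 := FDB_len (List.range g) i
  have h2 := FDB_len ((List.range g).erase i) j
  rw [List.length_range] at h1
  apply FDB_mem
  · simp only [List.length_cons]
    omega
  · simp only [List.length_cons, List.length_append, List.length_nil]
    omega

private theorem FDB_Q {A : Type} [NonUnitalRing A] {g : ℕ} (hg : 6 ≤ g) (x : Fin g → A) (i j : ℕ) :
    Vg (Qm g i j) x ∈ Sx A := by
  have h1 := FDB_len (List.range g) i
  have h2 := FDB_len ((List.range g).erase i) j
  rw [List.length_range] at h1
  apply FDB_mem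
  · simp only [List.length_cons, List.length_append, List.length_nil]
    omega
  · simp only [List.length_cons, List.length_append, List.length_nil]
    omega

/-- A sum over the letters different from `i`, if only two terms count or one. -/
private theorem FDB_sum {A : Type} [AddCommGroup A] {g : ℕ} (i a b : Fin g) (hab : a ≠ b) (X : A)
    (F : Fin g → A) (hX : X + X = 0)
    (hF : ∀ j, F j + F j = 0)
    (h1 : i ≠ a → i ≠ b → X = 0 ∧ F a = F b ∧ ∀ j, j ≠ i → j ≠ a → j ≠ b → F j = 0)
    (h2 : i = a → F b = X ∧ ∀ j, j ≠ a → j ≠ b → F j = 0)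
    (h3 : i = b → F a = X ∧ ∀ j, j ≠ a → j ≠ b → F j = 0) :
    X + ∑ j : Fin g, (if j = i then 0 else F j) = 0 := by
  by_cases ha : i = a
  · obtain ⟨e1, e2⟩ := h2 ha
    subst ha
    rw [Fintype.sum_eq_single b]
    · rw [if_neg hab.symm, e1]
      exact hX
    · intro j hj
      by_cases hji : j = i
      · rw [if_pos hji]
      · rw [if_neg hji]
        exact e2 j hji hj
  by_cases hb : i = b
  · obtain ⟨e1, e2⟩ := h3 hb
    subst hb
    rw [Fintype.sum_eq_single a]
    · rw [if_neg hab, e1]
      exact hX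
    · intro j hj
      by_cases hji : j = i
      · rw [if_pos hji]
      · rw [if_neg hji]
        exact e2 j hj hji
  · obtain ⟨e0, e1, e2⟩ := h1 ha hb
    rw [Fintype.sum_eq_add a b hab]
    · rw [if_neg (Ne.symm ha), if_neg (Ne.symm hb), e0, e1, hF b, add_zero]
    · intro j hj
      by_cases hji : j = i
      · rw [if_pos hji]
      · rw [if_neg hji]
        exact e2 j hji hj.1 hj.2

/-- FDB: `Pu` is a multiple of `Vg (Xl g i)`. -/
theorem thm_FDB (hBAS : St_BAS) (hIDM : St_IDM) (hSQA : St_SQA) (hEQV : St_EQV) : St_FDB := by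
  intro K _ A _ _ _ _ M H g hK hg hN hS i E r l hI
  obtain ⟨n2, two, -, -, smul, -⟩ := hBAS K A M H hK
  have eqv := hEQV A g n2 hg
  have tX : ∀ (x : Fin g → A) (i : Fin g), Vg (Xl g i.val) x + Vg (Xl g i.val) x = 0 :=
    fun x i => two _ (FDB_X hg x _)
  have tP : ∀ (x : Fin g → A) (i j : Fin g), Vg (Pm g i.val j.val) x + Vg (Pm g i.val j.val) x = 0 :=
    fun x i j => two _ (FDB_P hg x _ _)
  have tQ : ∀ (x : Fin g → A) (i j : Fin g), Vg (Qm g i.val j.val) x + Vg (Qm g i.val j.val) x = 0 :=
    fun x i j => two _ (FDB_Q hg x _ _)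
  -- (1)
  have sP : ∀ x : Fin g → A, ∑ j : Fin g, (if j = i then 0 else Vg (Pm g i.val j.val) x) =
      Vg (Xl g i.val) x := by
    intro x
    have h0 := hN i 1 (fun _ => 1) (fun _ => 0) (by
      intro x a b hab hx
      unfold Pu
      simp only [one_smul, zero_smul, add_zero]
      obtain ⟨e1, e2, e3, e4, e5⟩ := eqv x a b hab hx
      obtain ⟨d1, d2, d3, d4, d5⟩ := eqv x b a hab.symm hx.symm
      refine FDB_sum i a b hab _ (fun j => Vg (Pm g i.val j.val) x) (tX x i) (tP x i) ?_ ?_ ?_
      · intro ha hb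
        obtain ⟨f1, f2, f3, f4⟩ := e1 i ha hb
        exact ⟨f1, f2, fun j h1 h2 h3 => (f4 j h1 h2 h3).1⟩
      · rintro rfl
        exact ⟨e2, fun j h1 h2 => (e5 j h1 h2).1⟩
      · rintro rfl
        exact ⟨d2, fun j h1 h2 => (d5 j h2 h1).1⟩) x
    unfold Pu at h0
    simp only [one_smul, zero_smul, add_zero] at h0
    have h1 := tX x i
    exact add_left_cancel (h0.trans h1.symm)
  have sQ : ∀ x : Fin g → A, ∑ j : Fin g, (if j = i then 0 else Vg (Qm g i.val j.val) x) =
      Vg (Xl g i.val) x := by
    intro x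
    have h0 := hN i 1 (fun _ => 0) (fun _ => 1) (by
      intro x a b hab hx
      unfold Pu
      simp only [one_smul, zero_smul, zero_add]
      obtain ⟨e1, e2, e3, e4, e5⟩ := eqv x a b hab hx
      obtain ⟨d1, d2, d3, d4, d5⟩ := eqv x b a hab.symm hx.symm
      refine FDB_sum i a b hab _ (fun j => Vg (Qm g i.val j.val) x) (tX x i) (tQ x i) ?_ ?_ ?_
      · intro ha hb
        obtain ⟨f1, f2, f3, f4⟩ := e1 i ha hb
        exact ⟨f1, f3, fun j h1 h2 h3 => (f4 j h1 h2 h3).2⟩
      · rintro rfl
        exact ⟨e3, fun j h1 h2 => (e5 j h1 h2).2⟩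
      · rintro rfl
        exact ⟨d3, fun j h1 h2 => (d5 j h2 h1).2⟩) x
    unfold Pu at h0
    simp only [one_smul, zero_smul, zero_add] at h0
    have h1 := tX x i
    exact add_left_cancel (h0.trans h1.symm)
  -- (2)
  have idm : ∀ k m : Fin g, k ≠ i → m ≠ i → k ≠ m →
      Nl K A (r k + r m + (l k + l m)) ∧ (Nl K A (r k + r m) ∨ SQ2 A g) := by
    intro k m hk hm hkm
    obtain ⟨j, h1, h2, h3, -⟩ := FDB_ex hg i k m m
    have h := hIDM K A M H g hK hg hS (mD i E r l) hI (some i) (some j) (some k) (some m) (by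
      simp [h1.symm, hk.symm, hm.symm, h2, h3, hkm])
    simpa [mD, h1, hk, hm] using h
  -- from `Nl (a + b)` to `a • z = b • z`
  have nlm : ∀ a b : K, Nl K A (a + b) → ∀ z ∈ Sx A, b • z = a • z := by
    intro a b hab z hz
    have h1 := hab z hz
    rw [add_smul] at h1
    have h2 := two _ (smul a z hz)
    exact (add_left_cancel (h2.trans h1.symm)).symm
  obtain ⟨k, hki, -⟩ := FDB_ex hg i i i i
  refine ⟨E + r k + l k, ?_⟩
  by_cases hs : SQ2 A g
  · -- (4)
    have pq : ∀ (x : Fin g → A) (j : Fin g), j ≠ i →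
        Vg (Pm g i.val j.val) x + Vg (Qm g i.val j.val) x = 0 := by
      intro x j hj
      have h0 := hN i 0 (Pi.single j 1) (Pi.single j 1) (by
        intro x a b hab hx
        unfold Pu
        rw [zero_smul, zero_add, Fintype.sum_eq_single j]
        · rw [if_neg hj, Pi.single_eq_same, one_smul, one_smul]
          obtain ⟨m, h1, h2, h3, h4⟩ := FDB_ex hg i a b j
          rw [(hSQA A g n2 hg).2 hs x i j m hj.symm h1.symm h4.symm]
          by_cases ha : i = a
          · subst ha
            obtain ⟨-, -, -, -, e5⟩ := eqv x i b hab hx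
            rw [(e5 m h1 h3).1, (e5 m h1 h3).2, add_zero]
          by_cases hb : i = b
          · subst hb
            obtain ⟨-, -, -, -, e5⟩ := eqv x i a hab.symm hx.symm
            rw [(e5 m h1 h2).1, (e5 m h1 h2).2, add_zero]
          · obtain ⟨e1, -⟩ := eqv x a b hab hx
            obtain ⟨-, -, -, f4⟩ := e1 i ha hb
            rw [(f4 m h1 h2 h3).1, (f4 m h1 h2 h3).2, add_zero]
        · intro m hm
          by_cases hmi : m = i
          · rw [if_pos hmi]
          · rw [if_neg hmi, Pi.single_eq_of_ne hm, zero_smul, zero_smul, add_zero]) x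
      unfold Pu at h0
      rw [zero_smul, zero_add, Fintype.sum_eq_single j] at h0
      · rwa [if_neg hj, Pi.single_eq_same, one_smul, one_smul] at h0
      · intro m hm
        by_cases hmi : m = i
        · rw [if_pos hmi]
        · rw [if_neg hmi, Pi.single_eq_of_ne hm, zero_smul, zero_smul, add_zero]
    intro x
    have qp : ∀ j : Fin g, j ≠ i → Vg (Qm g i.val j.val) x = Vg (Pm g i.val j.val) x := by
      intro j hj
      exact add_left_cancel ((pq x j hj).trans (tP x i j).symm)
    unfold Pu
    have h1 : ∑ j : Fin g, (if j = i then 0 else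
        r j • Vg (Pm g i.val j.val) x + l j • Vg (Qm g i.val j.val) x) =
        (r k + l k) • ∑ j : Fin g, (if j = i then 0 else Vg (Pm g i.val j.val) x) := by
      rw [Finset.smul_sum]
      refine Finset.sum_congr rfl fun j _ => ?_
      by_cases hj : j = i
      · rw [if_pos hj, if_pos hj, smul_zero]
      · rw [if_neg hj, if_neg hj, qp j hj, ← add_smul]
        by_cases hkj : k = j
        · rw [hkj]
        · have h2 := (idm k j hki hj hkj).1
          have h3 : r k + r j + (l k + l j) = (r k + l k) + (r j + l j) := by ring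
          rw [h3] at h2
          exact nlm _ _ h2 _ (FDB_P hg x _ _)
    rw [h1, sP x, ← add_smul, add_assoc]
  · -- (3)
    intro x
    unfold Pu
    have h1 : ∑ j : Fin g, (if j = i then 0 else
        r j • Vg (Pm g i.val j.val) x + l j • Vg (Qm g i.val j.val) x) =
        r k • (∑ j : Fin g, (if j = i then 0 else Vg (Pm g i.val j.val) x)) +
        l k • ∑ j : Fin g, (if j = i then 0 else Vg (Qm g i.val j.val) x) := by
      rw [Finset.smul_sum, Finset.smul_sum, ← Finset.sum_add_distrib]
      refine Finset.sum_congr rfl fun j _ => ?_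
      by_cases hj : j = i
      · rw [if_pos hj, if_pos hj, if_pos hj, smul_zero, smul_zero, add_zero]
      · rw [if_neg hj, if_neg hj, if_neg hj]
        by_cases hkj : k = j
        · rw [hkj]
        · obtain ⟨h2, h3⟩ := idm k j hki hj hkj
          have h4 : Nl K A (r k + r j) := h3.resolve_right hs
          have h5 : Nl K A (l k + l j) := by
            intro z hz
            have h6 := h2 z hz
            rwa [add_smul, h4 z hz, zero_add] at h6
          rw [nlm _ _ h4 _ (FDB_P hg x _ _), nlm _ _ h5 _ (FDB_Q hg x _ _)]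
    rw [h1, sP x, sQ x, ← add_smul, ← add_smul, add_assoc]

end Pool.Agent.CRS
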