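import Pool.Agent.CRS.StI

/-!
Campaign CRS, p = 2, module FIN: the last step of case B.  The proof follows the docstring of `St_FIN`.
-/

set_option autoImplicit false

namespace Pool.Agent.CRS

open Pool.Agent.CRR Pool.Agent.CRN Pool.Agent.CRK Pool.Agent.CRL Pool.Agent.CRM Pool.Agent.CRP
open Pool.Agent.CRQ

section fin

variable {K A : Type} [CommRing K] [NonUnitalRing A] [Module K A]

/-- Values of long words. -/
private theorem FIN_ev (hSx : ∀ l : List A, 6 ≤ l.length → wp l ∈ Sx A) (v : ℕ → A) :
    ∀ L : List (ℤ × List ℕ), (∀ q ∈ L, 6 ≤ q.2.length) → ev L v ∈ Sx A := by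
  intro L
  induction L with
  | nil =>
    intro _
    exact (Sx A).zero_mem
  | cons q L ih =>
    intro h
    have h1 : ev (q :: L) v = q.1 • wp (q.2.map v) + ev L v := by
      simp [ev]
    rw [h1]
    refine (Sx A).add_mem ((Sx A).zsmul_mem (hSx _ ?_) _) (ih fun q' hq' => h q' (by simp [hq']))
    rw [List.length_map]
    exact h q (by simp)

private theorem FIN_Xl (g i : ℕ) (hg : 6 ≤ g) (hi : i < g) : ∀ q ∈ Xl g i, 6 ≤ q.2.length := by
  have h1 : ((List.range g).erase i).length = g - 1 := by
    rw [List.length_erase_of_mem (List.mem_range.2 hi), List.length_range]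
  have h2 : ((List.range g).erase i).tail.length = g - 1 - 1 := by
    rw [List.length_tail, h1]
  intro q hq
  unfold Xl at hq
  simp only [List.mem_cons, List.not_mem_nil, or_false] at hq
  rcases hq with rfl | rfl
  · simp only [List.length_cons, h2]
    omega
  · simp only [List.length_cons, List.length_append, h2, List.length_nil]
    omega

private theorem FIN_flat (v : ℕ → A) (F : ℕ → List (ℤ × List ℕ)) :
    ∀ l : List ℕ, ev (l.flatMap F) v = (l.map fun i => ev (F i) v).sum := by
  intro l
  induction l with
  | nil => simp [ev]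
  | cons a l ih =>
    have h1 : ev (F a ++ l.flatMap F) v = ev (F a) v + ev (l.flatMap F) v := by
      simp [ev]
    rw [List.flatMap_cons, h1, ih, List.map_cons, List.sum_cons]

private theorem FIN_SX (g : ℕ) (x : Fin g → A) :
    Vg (SX g) x = ∑ i : Fin g, Vg (Xl g i.val) x := by
  unfold Vg SX
  rw [FIN_flat, Fin.sum_univ_eq_sum_range (fun i => ev (Xl g i) (xs x)) g]
  rfl

private theorem FIN_Kc (c₁ c₂ : K) (g : ℕ) (J : List (ℤ × List ℕ)) (x : Fin g → A) :
    Kc [c₁, c₂] [SX g, J] x = c₁ • (∑ i : Fin g, Vg (Xl g i.val) x) + c₂ • Vg J x := by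
  rw [← FIN_SX]
  simp [Kc]

/-- `1` acts invertibly. -/
private theorem FIN_Ku1 : Ku K A 2 (1 : K) :=
  ⟨1, fun x => ⟨0, by simp⟩⟩

/-- Equal arguments. -/
private theorem FIN_eq {M H : AddSubgroup A} {g : ℕ} {f : (Fin g → A) → A}
    (hf : Good K 2 M H g f) (x : Fin g → A) (a b : Fin g) (hab : a ≠ b) (h : x a = x b) :
    f x = 0 := by
  refine hf.dep x (fun i => if i = a then 1 else if i = b then -1 else 0) a ?_ ?_
  · simp only [if_true]
    exact FIN_Ku1
  · have h1 : ∑ i, (if i = a then (1 : K) else if i = b then -1 else 0) • x i = x a - x b := by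
      have h2 : ∀ i, (if i = a then (1 : K) else if i = b then -1 else 0) • x i =
          (if i = a then x a else 0) + (if i = b then - x b else 0) := by
        intro i
        by_cases h3 : i = a
        · subst h3
          simp [hab]
        · by_cases h4 : i = b
          · subst h4
            simp [h3]
          · simp [h3, h4]
      rw [Finset.sum_congr rfl fun i _ => h2 i, Finset.sum_add_distrib, Finset.sum_ite_eq',
        Finset.sum_ite_eq']
      simp [sub_eq_add_neg]
    rw [h1, h, sub_self]
    exact M.zero_mem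

/-- Symmetry. -/
private theorem FIN_swap {M H : AddSubgroup A} {g : ℕ} {f : (Fin g → A) → A}
    (hK : Kst K 2 M H) (hf : Good K 2 M H g f)
    (hadd : ∀ (i : Fin g) (x : Fin g → A) (y : A),
      f (Function.update x i (x i + y)) = f x + f (Function.update x i y))
    (x : Fin g → A) (a b : Fin g) (hab : a ≠ b) : f (x ∘ Equiv.swap a b) = f x := by
  have hadd2 : ∀ (i : Fin g) (x : Fin g → A) (u v : A),
      f (Function.update x i (u + v)) = f (Function.update x i u) + f (Function.update x i v) := by
    intro i x u v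
    have h1 := hadd i (Function.update x i u) v
    rwa [Function.update_self, Function.update_idem, Function.update_idem] at h1
  have h0 : f (Function.update (Function.update x a (x a + x b)) b (x a + x b)) = 0 := by
    refine FIN_eq hf _ a b hab ?_
    rw [Function.update_self, Function.update_of_ne hab, Function.update_self]
  rw [hadd2 b] at h0
  have h1 : f (Function.update (Function.update x a (x a + x b)) b (x a)) =
      f (x ∘ Equiv.swap a b) := by
    rw [Function.update_comm hab, hadd2 a]
    have h2 : f (Function.update (Function.update x b (x a)) a (x a)) = 0 := by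
      refine FIN_eq hf _ a b hab ?_
      rw [Function.update_self, Function.update_of_ne hab.symm, Function.update_self]
    rw [h2, zero_add]
    congr 1
    funext k
    by_cases hka : k = a
    · subst hka
      simp
    · by_cases hkb : k = b
      · subst hkb
        simp [hka]
      · simp [hka, hkb, Equiv.swap_apply_of_ne_of_ne hka hkb]
  have h3 : f (Function.update (Function.update x a (x a + x b)) b (x b)) = f x := by
    rw [Function.update_comm hab, Function.update_eq_self, hadd2 a, Function.update_eq_self]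
    have h4 : f (Function.update x a (x b)) = 0 := by
      refine FIN_eq hf _ a b hab ?_
      rw [Function.update_self, Function.update_of_ne hab.symm]
    rw [h4, add_zero]
  rw [h1, h3] at h0
  have h5 : f x + f x = 0 := by
    have h6 := (hK.h0 (f x) (hf.val x)).1
    rwa [two_smul] at h6
  exact add_right_cancel (h0.trans h5.symm)

end fin

/-- The function of `J` is symmetric. -/
private theorem FIN_J (hK1 : St_K1) (hWG : St_WG) (hTBE : St_TBE) (A : Type) [NonUnitalRing A]
    (hN : N2 A) (g : ℕ) (hg : 6 ≤ g) (J : List (ℤ × List ℕ)) (hJ : Orr g eJ 0 J)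
    (x : Fin g → A) (σ : Equiv.Perm (Fin g)) : Vg J (x ∘ σ) = Vg J x := by
  classical
  obtain ⟨e, κ, he, hκ, hw⟩ := hK1 A hN (Fin g) (by simpa using hg) x
  obtain ⟨-, hW2, -, -, -, hW6⟩ := hWG
  have hx : (fun i => (x ∘ σ) (σ.symm i)) = x := by
    funext i
    simp
  have hmem : ∀ y ∈ Wg x, y ∈ Wg (x ∘ σ) := by
    intro y hy
    refine hW6 A (Fin g) (Fin g) (x ∘ σ) σ.symm y ?_
    rw [hx]
    exact hy
  have h1 := hTBE A hN g 0 eJ J x e κ hg hJ he hκ hw
  have h2 := hTBE A hN g 0 eJ J (x ∘ σ) e (fun i j => κ (σ i) (σ j)) hg hJ (hmem e he)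
    (fun i j => hmem _ (hκ _ _)) (by
      intro w hc
      have h3 := hw (w.map σ) (by
        intro i
        have h4 := List.count_map_of_injective w σ σ.injective (σ.symm i)
        rw [Equiv.apply_symm_apply] at h4
        rw [h4]
        exact hc _)
      rw [List.map_map] at h3
      rw [h3, hW2])
  rw [h1, h2]
  congr 1
  rw [← Equiv.sum_comp σ (fun i => ∑ j : Fin g, if eJ i.val j.val then κ i j else 0)]
  refine Finset.sum_congr rfl fun i _ => ?_
  rw [← Equiv.sum_comp σ (fun j => if eJ (σ i).val j.val then κ (σ i) j else 0)]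
  refine Finset.sum_congr rfl fun j _ => ?_
  have h5 : eJ i.val j.val ↔ eJ (σ i).val (σ j).val := by
    unfold eJ
    constructor
    · intro h6 h7
      exact h6 (congrArg Fin.val (σ.injective (Fin.ext h7)))
    · intro h6 h7
      exact h6 (by rw [Fin.ext h7])
  by_cases h6 : eJ i.val j.val
  · rw [if_pos h6, if_pos (h5.1 h6)]
  · rw [if_neg h6, if_neg (fun h7 => h6 (h5.2 h7))]

theorem thm_FIN (hBAS : St_BAS) (hK1 : St_K1) (hWG : St_WG) (hTBE : St_TBE) (hREL : St_REL)
    (hEQV : St_EQV) : St_FIN := by
  intro K _ A _ _ _ _ M H g f J ρ ε hK hg hNPu hf hadd hJ hform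
  obtain ⟨hN, h2, hSx, -, hsm, hdich⟩ := hBAS K A M H hK
  set X : Fin g → (Fin g → A) → A := fun i x => Vg (Xl g i.val) x with hX
  have hXS : ∀ i x, X i x ∈ Sx A := fun i x => FIN_ev hSx (xs x) _ (FIN_Xl g i.val hg i.isLt)
  have hXrel : ∀ (i : Fin g) (σ : Equiv.Perm (Fin g)) (x : Fin g → A), X i (x ∘ σ) = X (σ i) x :=
    fun i σ x => (hREL A g hN hg x σ i).1
  have hform' : ∀ x, f x = ρ • Vg J x + ∑ i : Fin g, ε i • X i x := hform
  have hg0 : 0 < g := by omega
  set z : Fin g := ⟨0, hg0⟩ with hz
  -- the exchange of two letters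
  have h3 : ∀ (i : Fin g) (x : Fin g → A), (ε z + ε i) • (X z x + X i x) = 0 := by
    intro i x
    have hz2 : ∀ (c : K) (j : Fin g), c • X j x + c • X j x = 0 := fun c j =>
      h2 _ (hsm c _ (hXS j x))
    by_cases hi : i = z
    · rw [hi, smul_add, ← h2 _ (hsm (ε z + ε z) _ (hXS z x))]
    have hi' : z ≠ i := fun h => hi h.symm
    have h4 := FIN_swap hK hf hadd x z i hi'
    rw [hform', hform' x, FIN_J hK1 hWG hTBE A hN g hg J hJ x (Equiv.swap z i)] at h4
    have h5 := add_left_cancel h4
    have h6 : ∑ k, ε k • X k (x ∘ Equiv.swap z i) = ∑ k, ε (Equiv.swap z i k) • X k x := by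
      rw [← Equiv.sum_comp (Equiv.swap z i) (fun k => ε k • X k (x ∘ Equiv.swap z i))]
      refine Finset.sum_congr rfl fun k _ => ?_
      rw [hXrel, Equiv.swap_apply_self]
    rw [h6] at h5
    have h7 : ∑ k, (ε (Equiv.swap z i k) • X k x - ε k • X k x) = 0 := by
      rw [Finset.sum_sub_distrib, h5, sub_self]
    have h8 : ∑ k, (ε (Equiv.swap z i k) • X k x - ε k • X k x) =
        (ε i • X z x - ε z • X z x) + (ε z • X i x - ε i • X i x) := by
      rw [← Finset.sum_subset (Finset.subset_univ {z, i}), Finset.sum_pair hi',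
        Equiv.swap_apply_left, Equiv.swap_apply_right]
      intro k _ hk
      simp only [Finset.mem_insert, Finset.mem_singleton, not_or] at hk
      rw [Equiv.swap_apply_of_ne_of_ne hk.1 hk.2, sub_self]
    rw [h8] at h7
    have h9 : (ε z + ε i) • (X z x + X i x) =
        ((ε i • X z x - ε z • X z x) + (ε z • X i x - ε i • X i x)) +
        ((ε z • X z x + ε z • X z x) + (ε i • X i x + ε i • X i x)) := by
      rw [smul_add, add_smul, add_smul]
      abel
    rw [h9, h7, hz2, hz2, add_zero, add_zero]
  by_cases hall : ∀ i, Nl K A (ε z + ε i)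
  · refine ⟨[ε z, ρ], rfl, ?_⟩
    have h4 : Kc [ε z, ρ] [SX g, J] = f := by
      funext x
      rw [FIN_Kc, hform', add_comm]
      congr 1
      rw [Finset.smul_sum]
      refine Finset.sum_congr rfl fun i _ => ?_
      have h5 := hall i _ (hXS i x)
      rw [add_smul] at h5
      have h6 := h2 _ (hsm (ε i) _ (hXS i x))
      exact add_right_cancel (h5.trans h6.symm)
    rw [h4]
    exact hf
  · push Not at hall
    obtain ⟨i, hi⟩ := hall
    have hinj : ∀ w ∈ Sx A, (ε z + ε i) • w = 0 → w = 0 := by
      rcases hdich (ε z + ε i) with h4 | h4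
      · exact absurd h4.1 hi
      · exact h4.1
    have hiz : i ≠ z := by
      rintro rfl
      refine hi fun w hw => ?_
      rw [add_smul]
      exact h2 _ (hsm _ _ hw)
    have hzi : ∀ x, X i x = X z x := by
      intro x
      have h4 := hinj _ ((Sx A).add_mem (hXS z x) (hXS i x)) (h3 i x)
      have h5 := h2 _ (hXS z x)
      exact add_left_cancel (h4.trans h5.symm)
    have hzj : ∀ j x, X j x = X z x := by
      intro j x
      by_cases hjz : j = z
      · rw [hjz]
      by_cases hji : j = i
      · rw [hji]
        exact hzi x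
      have h4 := hXrel i (Equiv.swap i j) x
      rw [Equiv.swap_apply_left] at h4
      have h5 := hXrel z (Equiv.swap i j) x
      rw [Equiv.swap_apply_of_ne_of_ne hiz.symm (fun h => hjz h.symm)] at h5
      rw [← h4, hzi, h5]
    have hPu : ∀ x, Pu g z (1 : K) (fun _ => 0) (fun _ => 0) x = X z x := by
      intro x
      unfold Pu
      rw [one_smul, Finset.sum_eq_zero, add_zero]
      intro j _
      split_ifs <;> simp
    have hX0 : ∀ x, X z x = 0 := by
      intro x
      rw [← hPu x]
      refine hNPu z 1 (fun _ => 0) (fun _ => 0) ?_ x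
      intro x a b hab hxab
      rw [hPu x]
      obtain ⟨j, hj⟩ : ∃ j : Fin g, j ∉ ({a, b} : Finset (Fin g)) := by
        by_contra hno
        push Not at hno
        have h4 : (Finset.univ : Finset (Fin g)) ⊆ {a, b} := fun j _ => hno j
        have h5 := Finset.card_le_card h4
        rw [Finset.card_univ, Fintype.card_fin, Finset.card_pair hab] at h5
        omega
      simp only [Finset.mem_insert, Finset.mem_singleton, not_or] at hj
      have h4 := ((hEQV A g hN hg x a b hab hxab).1 j hj.1 hj.2).1
      rw [← hzj j x]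
      exact h4
    refine ⟨[0, ρ], rfl, ?_⟩
    have h4 : Kc [(0 : K), ρ] [SX g, J] = f := by
      funext x
      rw [FIN_Kc, hform', zero_smul, zero_add]
      rw [Finset.sum_eq_zero, add_zero]
      intro j _
      rw [hzj, hX0, smul_zero]
    rw [h4]
    exact hf

end Pool.Agent.CRS
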