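import Pool.Agent.CRS.StI

/-!
Campaign CRS, module GDX: p = 2, a combination of the functions with one letter twice which vanishes at equal arguments
is good.
-/

set_option autoImplicit false

namespace Pool.Agent.CRS

open Pool.Agent.CRR Pool.Agent.CRN Pool.Agent.CRK Pool.Agent.CRL Pool.Agent.CRM Pool.Agent.CRP
open Pool.Agent.CRQ

private theorem GDX_len {g : ℕ} (i : Fin g) (w : List (Fin g)) (hi : w.count i = 2)
    (h : ∀ j, j ≠ i → w.count j = 1) : w.length = g + 1 := by
  have h1 := Multiset.sum_count_eq_card (s := Finset.univ) (m := (w : Multiset (Fin g)))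
    (fun a _ => Finset.mem_univ a)
  have h2 : ∑ j, w.count j = w.length := by simpa using h1
  rw [← h2, ← Finset.add_sum_erase Finset.univ (fun j => w.count j) (Finset.mem_univ i)]
  have h3 : ∑ j ∈ Finset.univ.erase i, w.count j = ∑ j ∈ Finset.univ.erase i, 1 :=
    Finset.sum_congr rfl fun j hj => h j (Finset.ne_of_mem_erase hj)
  rw [h3, hi, Finset.sum_const, Finset.card_erase_of_mem (Finset.mem_univ i), Finset.card_univ,
    Fintype.card_fin]
  have := i.2
  simp only [smul_eq_mul, mul_one]
  omega

private theorem GDX_zero {A : Type} [NonUnitalRing A] (l : List A) (h : (0 : A) ∈ l) : wp l = 0 := by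
  induction l with
  | nil => simp at h
  | cons a l ih =>
    cases l with
    | nil =>
      simp only [List.mem_singleton] at h
      show a = 0
      exact h.symm
    | cons b l =>
      show a * wp (b :: l) = 0
      rcases List.mem_cons.1 h with h | h
      · rw [← h, zero_mul]
      · rw [ih h, mul_zero]

/-- **GDX.** -/
theorem thm_GDX (hTOP : St_TOP) (hDEP : St_DEP) (hBAS : St_BAS) (hPUW : St_PUW) (hLIN : St_LIN) :
    St_GDX := by
  classical
  intro K _ A _ _ _ _ M H g hB i E r l hvan hne
  have hK := hB.kst
  have hg := hB.six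
  obtain ⟨L, hL, hF⟩ := hPUW K A g i E r l hB.six
  have hlen : ∀ q ∈ L, q.2.length = g + 1 := fun q hq => GDX_len i q.2 (hL q hq).1 (hL q hq).2
  obtain ⟨t1, -, t3⟩ := hTOP K A M H (g + 1) hK hB.mt (by omega) hB.top
  have hinv : ∀ x y : Fin g → A, (∀ i, x i - y i ∈ M) → Pu g i E r l x = Pu g i E r l y := by
    intro x y hxy
    rw [hF, hF]
    unfold Ew
    congr 1
    apply List.map_congr_left
    intro q hq
    rw [t3 (Fin g) x y q.2 (hlen q hq) hxy]
  have hdep : ∀ k : Fin g, k ≠ i → ∀ (x : Fin g → A) (c : Fin g → K), Ku K A 2 (c k) →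
      ∑ i, c i • x i ∈ M → Pu g i E r l x = 0 := by
    intro k hk
    have lin := hLIN K A (Fin g) k L fun q hq => (hL q hq).2 k hk
    refine hDEP K A M H hK (Fin g) (Pu g i E r l) k hinv ?_ ?_ ?_
    · intro x y z
      rw [hF, hF, hF]
      exact lin.1 x y z
    · intro x c y
      rw [hF, hF]
      exact lin.2 x c y
    · exact fun x j hj hxx => hvan x k j hj.symm hxx
  refine ⟨?_, hinv, ?_, hne⟩
  · intro x
    rw [hF]
    unfold Ew
    apply AddSubgroup.list_sum_mem
    intro w hw
    obtain ⟨q, hq, rfl⟩ := List.mem_map.1 hw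
    exact hK.hK _ _ (t1 _ (by rw [List.length_map, hlen q hq]))
  · intro x c j hc hs
    by_cases hj : j = i
    · by_cases hex : ∃ k, k ≠ i ∧ Ku K A 2 (c k)
      · obtain ⟨k, hk, hck⟩ := hex
        exact hdep k hk x c hck hs
      · have h1 : ∀ k, k ≠ i → c k • x k ∈ M := by
          intro k hk
          rcases (hBAS K A M H hK).2.2.2.2.2 (c k) with h | h
          · exact h.2 _
          · exact absurd ⟨k, hk, h.2⟩ hex
        have h2 : c i • x i ∈ M := by
          have h3 : c i • x i = ∑ k, c k • x k - ∑ k ∈ Finset.univ.erase i, c k • x k := by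
            rw [← Finset.add_sum_erase Finset.univ (fun k => c k • x k) (Finset.mem_univ i)]
            abel
          rw [h3]
          exact M.sub_mem hs (M.sum_mem fun k hk => h1 k (Finset.ne_of_mem_erase hk))
        rw [hj] at hc
        obtain ⟨d, hd⟩ := hc
        obtain ⟨y, hy⟩ := hd (x i)
        have h3 : x i = d • (c i • x i) - 2 • y := by
          rw [← hy]
          abel
        have h4 : x i ∈ M := by
          rw [h3]
          exact M.sub_mem (hK.mK d _ h2) (hK.mp y)
        have h5 : Pu g i E r l x = Pu g i E r l (Function.update x i 0) := by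
          apply hinv
          intro k
          by_cases hk : k = i
          · rw [hk, Function.update_self, sub_zero]
            exact h4
          · rw [Function.update_of_ne hk, sub_self]
            exact M.zero_mem
        rw [h5, hF]
        unfold Ew
        apply List.sum_eq_zero
        intro w hw
        obtain ⟨q, hq, rfl⟩ := List.mem_map.1 hw
        rw [GDX_zero, smul_zero]
        refine List.mem_map.2 ⟨i, ?_, Function.update_self _ _ _⟩
        apply List.count_pos_iff.1
        rw [(hL q hq).1]
        norm_num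
    · exact hdep j hj x c hc hs

end Pool.Agent.CRS
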