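import Pool.Agent.CRS.StI

/-!
Campaign CRS, module IDM: squares of an identity.
-/

set_option autoImplicit false

namespace Pool.Agent.CRS

open Pool.Agent.CRR Pool.Agent.CRN Pool.Agent.CRK Pool.Agent.CRL Pool.Agent.CRM Pool.Agent.CRP
open Pool.Agent.CRQ

/-- data of the letters `X` -/
private def IDM_D {ι A : Type} [NonUnitalRing A] [DecidableEq ι] (X : ι → A) (e : A) (κ : ι → ι → A) : Prop :=
  e ∈ Wg X ∧ (∀ i j, κ i j ∈ Wg X) ∧ ∀ w : List ι, (∀ i, w.count i = 1) → wp (w.map X) = e + adj κ w

private theorem IDM_pm (hWG : St_WG) {ι A : Type} [NonUnitalRing A] [DecidableEq ι] (X : ι → A) (e : A)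
    (κ : ι → ι → A) (τ : Equiv.Perm ι) (h : IDM_D X e κ) :
    IDM_D (fun i => X (τ i)) e (fun i j => κ (τ i) (τ j)) := by
  obtain ⟨-, w2, -, -, -, w6⟩ := hWG
  obtain ⟨h1, h2, h3⟩ := h
  have hW : ∀ y ∈ Wg X, y ∈ Wg (fun i => X (τ i)) := by
    intro y hy
    refine w6 A ι ι (fun i => X (τ i)) τ.symm y ?_
    simpa using hy
  refine ⟨hW e h1, fun i j => hW _ (h2 _ _), fun w hw => ?_⟩
  have e1 : w.map (fun i => X (τ i)) = (w.map τ).map X := by
    rw [List.map_map]
    rfl
  rw [e1, h3, w2]
  intro i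
  have e2 := List.count_map_of_injective w τ τ.injective (τ.symm i)
  rw [Equiv.apply_symm_apply] at e2
  rw [e2]
  exact hw _

private theorem IDM_pr {ι B : Type} [Fintype ι] [DecidableEq ι] [AddCommMonoid B] (p q : ι) (h : p ≠ q) (f : ι → B) :
    (∑ u, if u = p ∨ u = q then f u else 0) = f p + f q := by
  have e1 : ∀ u, (if u = p ∨ u = q then f u else 0) = (if u = p then f u else 0) + (if u = q then f u else 0) := by
    intro u
    by_cases h1 : u = p
    · subst h1
      simp [h]
    · simp [h1]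
  rw [Finset.sum_congr rfl fun u _ => e1 u, Finset.sum_add_distrib]
  simp

private theorem IDM_pr2 {ι B K : Type} [Fintype ι] [DecidableEq ι] [AddCommMonoid B] [Semiring K] [Module K B]
    (p q i j : ι) (hpq : p ≠ q) (hij : i ≠ j) (a : ι → ι → K) (S : B) :
    (∑ u, ∑ v, if (u = p ∨ u = q) ∧ (v = i ∨ v = j) then a u v • S else 0) =
      (a p i + a p j + a q i + a q j) • S := by
  have e1 : ∀ u, (∑ v, if (u = p ∨ u = q) ∧ (v = i ∨ v = j) then a u v • S else 0) =
      if u = p ∨ u = q then (a u i • S + a u j • S) else 0 := by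
    intro u
    by_cases h1 : u = p ∨ u = q
    · simp only [h1, true_and, if_true]
      exact IDM_pr i j hij fun v => a u v • S
    · simp [h1]
  rw [Finset.sum_congr rfl fun u _ => e1 u, IDM_pr p q hpq]
  simp only [add_smul]
  abel

/-- the sum of the four conjugates -/
private theorem IDM_four {ι A : Type} [NonUnitalRing A] [DecidableEq ι] (L : ι → ι → A) (h2 : ∀ u v, L u v + L u v = 0)
    (p q i j : ι) (hpq : p ≠ q) (hij : i ≠ j) (hpi : p ≠ i) (hpj : p ≠ j) (hqi : q ≠ i) (hqj : q ≠ j) (u v : ι) (huv : u ≠ v) :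
    L u v + L (Equiv.swap p q u) (Equiv.swap p q v) + L (Equiv.swap i j u) (Equiv.swap i j v) +
      L (Equiv.swap p q (Equiv.swap i j u)) (Equiv.swap p q (Equiv.swap i j v)) =
    (if (u = p ∨ u = q) ∧ (v = i ∨ v = j) then L p i + L p j + L q i + L q j else 0) +
    (if (u = i ∨ u = j) ∧ (v = p ∨ v = q) then L i p + L i q + L j p + L j q else 0) := by
  have h4 : ∀ x y : A, x + x = 0 → y + y = 0 → x + x + y + y = 0 := by
    intro x y hx hy
    rw [add_assoc, hx, hy, add_zero]
  have h5 : ∀ x y : A, x + x = 0 → y + y = 0 → x + y + x + y = 0 := by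
    intro x y hx hy
    have : x + y + x + y = (x + x) + (y + y) := by abel
    rw [this, hx, hy, add_zero]
  have cls : ∀ u : ι, (u = p) ∨ (u = q) ∨ (u = i) ∨ (u = j) ∨ (u ≠ p ∧ u ≠ q ∧ u ≠ i ∧ u ≠ j ∧ Equiv.swap p q u = u ∧ Equiv.swap i j u = u) := by
    intro u
    by_cases a1 : u = p
    · exact Or.inl a1
    by_cases a2 : u = q
    · exact Or.inr (Or.inl a2)
    by_cases a3 : u = i
    · exact Or.inr (Or.inr (Or.inl a3))
    by_cases a4 : u = j
    · exact Or.inr (Or.inr (Or.inr (Or.inl a4)))
    exact Or.inr (Or.inr (Or.inr (Or.inr ⟨a1, a2, a3, a4, Equiv.swap_apply_of_ne_of_ne a1 a2,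
      Equiv.swap_apply_of_ne_of_ne a3 a4⟩)))
  have s1 : Equiv.swap p q i = i := Equiv.swap_apply_of_ne_of_ne hpi.symm hqi.symm
  have s2 : Equiv.swap p q j = j := Equiv.swap_apply_of_ne_of_ne hpj.symm hqj.symm
  have s3 : Equiv.swap i j p = p := Equiv.swap_apply_of_ne_of_ne hpi hpj
  have s4 : Equiv.swap i j q = q := Equiv.swap_apply_of_ne_of_ne hqi hqj
  have s5 : Equiv.swap p q p = q := Equiv.swap_apply_left p q
  have s6 : Equiv.swap p q q = p := Equiv.swap_apply_right p q
  have s7 : Equiv.swap i j i = j := Equiv.swap_apply_left i j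
  have s8 : Equiv.swap i j j = i := Equiv.swap_apply_right i j
  have r1 : ∀ x : A, (x + x = 0) → x + x + x + x = 0 := fun x hx => h4 x x hx hx
  rcases cls u with hu | hu | hu | hu | ⟨u1, u2, u3, u4, u5, u6⟩ <;>
  rcases cls v with hv | hv | hv | hv | ⟨v1, v2, v3, v4, v5, v6⟩
  all_goals first
    | exact absurd (hu.trans hv.symm) huv
    | (simp only [hu, hv, s1, s2, s3, s4, s5, s6, s7, s8, hpq, hpi, hpj, hqi, hqj, hij,
        hpq.symm, hpi.symm, hpj.symm, hqi.symm, hqj.symm, hij.symm, or_false, false_or, or_true, true_or,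
        and_false, false_and, and_true, true_and, if_false, if_true, add_zero, zero_add, or_self, and_self] <;> first
        | exact h5 _ _ (h2 _ _) (h2 _ _)
        | exact h4 _ _ (h2 _ _) (h2 _ _)
        | abel)
    | (simp only [hu, v1, v2, v3, v4, v5, v6, s1, s2, s3, s4, s5, s6, s7, s8, hpq, hpi, hpj, hqi, hqj, hij,
        hpq.symm, hpi.symm, hpj.symm, hqi.symm, hqj.symm, hij.symm, or_false, false_or, or_true, true_or,
        and_false, false_and, and_true, true_and, if_false, if_true, add_zero, zero_add, or_self, and_self] <;> first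
        | exact h5 _ _ (h2 _ _) (h2 _ _)
        | exact h4 _ _ (h2 _ _) (h2 _ _))
    | (simp only [hv, u1, u2, u3, u4, u5, u6, s1, s2, s3, s4, s5, s6, s7, s8, hpq, hpi, hpj, hqi, hqj, hij,
        hpq.symm, hpi.symm, hpj.symm, hqi.symm, hqj.symm, hij.symm, or_false, false_or, or_true, true_or,
        and_false, false_and, and_true, true_and, if_false, if_true, add_zero, zero_add, or_self, and_self] <;> first
        | exact h5 _ _ (h2 _ _) (h2 _ _)
        | exact h4 _ _ (h2 _ _) (h2 _ _))
    | (simp only [u1, u2, u3, u4, u5, u6, v1, v2, v3, v4, v5, v6, or_self, and_self, if_false, add_zero]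
       exact r1 _ (h2 _ _))

private theorem IDM_cnt {g : ℕ} (w : List (Option (Fin g))) (i : Option (Fin g)) :
    @List.count (Option (Fin g)) Option.instBEq i w = @List.count (Option (Fin g)) instBEqOfDecidableEq i w := by
  induction w with
  | nil => rfl
  | cons x w ih =>
    rw [@List.count_cons _ Option.instBEq, @List.count_cons _ instBEqOfDecidableEq, ih]
    congr 1
    by_cases h : x = i
    · subst h
      simp
    · have h1 : (@BEq.beq _ Option.instBEq x i) = false := by
        rw [Bool.eq_false_iff]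
        intro h2
        exact h (eq_of_beq h2)
      have h3 : (@BEq.beq _ instBEqOfDecidableEq x i) = false := by
        rw [Bool.eq_false_iff]
        intro h2
        exact h (eq_of_beq h2)
      rw [h1, h3]

/-- the identity for the squares of one ordering of the roles -/
private theorem IDM_one (hWG : St_WG) {K A : Type} [CommRing K] [NonUnitalRing A] [Module K A] (g : ℕ)
    (hN : N2 A) (a : Option (Fin g) → Option (Fin g) → K) (ha : Idm K A g a)
    (p q i j : Option (Fin g)) (hpq : p ≠ q) (hij : i ≠ j) (hpi : p ≠ i) (hpj : p ≠ j) (hqi : q ≠ i) (hqj : q ≠ j)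
    (X : Option (Fin g) → A) (e : A) (κ : Option (Fin g) → Option (Fin g) → A) (hD : IDM_D X e κ) :
    (a p i + a p j + a q i + a q j) • (κ p i + κ p j + κ q i + κ q j) +
      (a i p + a i q + a j p + a j q) • (κ i p + κ i q + κ j p + κ j q) = 0 := by
  have k0 : ∀ τ : Equiv.Perm (Option (Fin g)),
      ∑ u, ∑ v, (if u = v then 0 else a u v • κ (τ u) (τ v)) = 0 := by
    intro τ
    obtain ⟨d1, d2, d3⟩ := IDM_pm hWG X e κ τ hD
    exact ha _ e _ d1 d2 fun w hw => d3 w fun i => (IDM_cnt w i).symm.trans (hw i)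
  have h2 : ∀ u v, κ u v + κ u v = 0 := fun u v => hWG.1 A hN _ X _ (hD.2.1 u v)
  have k1 := k0 1
  have k2 := k0 (Equiv.swap p q)
  have k3 := k0 (Equiv.swap i j)
  have k4 := k0 (Equiv.swap p q * Equiv.swap i j)
  simp only [Equiv.Perm.coe_one, id_eq, Equiv.Perm.coe_mul, Function.comp_apply] at k1 k2 k3 k4
  have e1 : ∀ u v, (if u = v then 0 else a u v • κ u v) +
      (if u = v then 0 else a u v • κ (Equiv.swap p q u) (Equiv.swap p q v)) +
      (if u = v then 0 else a u v • κ (Equiv.swap i j u) (Equiv.swap i j v)) +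
      (if u = v then 0 else a u v • κ (Equiv.swap p q (Equiv.swap i j u)) (Equiv.swap p q (Equiv.swap i j v))) =
      (if (u = p ∨ u = q) ∧ (v = i ∨ v = j) then a u v • (κ p i + κ p j + κ q i + κ q j) else 0) +
      (if (u = i ∨ u = j) ∧ (v = p ∨ v = q) then a u v • (κ i p + κ i q + κ j p + κ j q) else 0) := by
    intro u v
    by_cases huv : u = v
    · subst huv
      have n1 : ¬ ((u = p ∨ u = q) ∧ (u = i ∨ u = j)) := by
        rintro ⟨rfl | rfl, rfl | rfl⟩
        · exact hpi rfl
        · exact hpj rfl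
        · exact hqi rfl
        · exact hqj rfl
      have n2 : ¬ ((u = i ∨ u = j) ∧ (u = p ∨ u = q)) := fun h => n1 ⟨h.2, h.1⟩
      simp only [n1, n2, if_true, if_false, add_zero]
    · simp only [huv, if_false]
      rw [← smul_add, ← smul_add, ← smul_add,
        IDM_four κ h2 p q i j hpq hij hpi hpj hqi hqj u v huv, smul_add, smul_ite, smul_ite, smul_zero]
  have e2 := Finset.sum_congr (rfl : (Finset.univ : Finset (Option (Fin g))) = Finset.univ) fun u _ =>
    Finset.sum_congr (rfl : (Finset.univ : Finset (Option (Fin g))) = Finset.univ) fun v _ => e1 u v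
  simp only [Finset.sum_add_distrib] at e2
  rw [k1, k2, k3, k4, IDM_pr2 p q i j hpq hij, IDM_pr2 i j p q hij hpq] at e2
  rw [← e2]
  simp

/-- the value of a square -/
private theorem IDM_sq (hWG : St_WG) {ι A : Type} [NonUnitalRing A] [DecidableEq ι] (hN : N2 A) (X : ι → A) (e : A)
    (κ : ι → ι → A) (hD : IDM_D X e κ) (p q i j : ι) (m : List ι) (hm : m ≠ [])
    (hc : ∀ k, (p :: q :: i :: j :: m).count k = 1) :
    Sqw X p q i j m = κ p i + κ p j + κ q i + κ q j := by
  have h2 : ∀ y ∈ Wg X, y + y = 0 := fun y hy => hWG.1 A hN _ X y hy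
  obtain ⟨he, hκ, hv⟩ := hD
  obtain ⟨h, m, rfl⟩ := List.exists_cons_of_ne_nil hm
  have c2 : ∀ k, (p :: q :: j :: i :: h :: m).count k = 1 := by
    intro k
    rw [← hc k]
    exact List.Perm.count_eq (by
      refine List.Perm.cons _ (List.Perm.cons _ (List.Perm.swap _ _ _))) k
  have c3 : ∀ k, (q :: p :: i :: j :: h :: m).count k = 1 := by
    intro k
    rw [← hc k]
    exact List.Perm.count_eq (List.Perm.swap _ _ _) k
  have c4 : ∀ k, (q :: p :: j :: i :: h :: m).count k = 1 := by
    intro k
    rw [← c2 k]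
    exact List.Perm.count_eq (List.Perm.swap _ _ _) k
  have a1 := hv _ hc
  have a2 := hv _ c2
  have a3 := hv _ c3
  have a4 := hv _ c4
  have hR : ∀ l : List ι, adj κ l ∈ Wg X := by
    intro l
    induction l with
    | nil => exact zero_mem _
    | cons x l ih =>
      cases l with
      | nil => exact zero_mem _
      | cons y l => exact add_mem (hκ _ _) ih
  unfold Sqw
  rw [a1, a2, a3, a4]
  simp only [adj]
  have t1 := h2 _ he
  have t2 := h2 _ (hR (h :: m))
  have t3 := h2 _ (hκ p q)
  have t4 := h2 _ (hκ q p)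
  have t5 := h2 _ (hκ i j)
  have t6 := h2 _ (hκ j i)
  have t7 := h2 _ (hκ j h)
  have t8 := h2 _ (hκ i h)
  have : e + (κ p q + (κ q i + (κ i j + (κ j h + adj κ (h :: m))))) +
      (e + (κ p q + (κ q j + (κ j i + (κ i h + adj κ (h :: m)))))) +
      (e + (κ q p + (κ p i + (κ i j + (κ j h + adj κ (h :: m))))) +
      (e + (κ q p + (κ p j + (κ j i + (κ i h + adj κ (h :: m))))))) =
      (κ p i + κ p j + κ q i + κ q j) + (e + e) + (e + e) + (adj κ (h :: m) + adj κ (h :: m)) +
      (adj κ (h :: m) + adj κ (h :: m)) + (κ p q + κ p q) + (κ q p + κ q p) + (κ i j + κ i j) + (κ j i + κ j i) +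
      (κ j h + κ j h) + (κ i h + κ i h) := by abel
  rw [this, t1, t2, t3, t4, t5, t6, t7, t8]
  simp

private theorem IDM_ext {ι : Type} [DecidableEq ι] : ∀ l l' : List ι, l.Nodup → l'.Nodup → l.length = l'.length →
    ∃ σ : Equiv.Perm ι, l.map σ = l' := by
  intro l
  induction l with
  | nil =>
    intro l' _ _ h
    refine ⟨1, ?_⟩
    rw [List.length_nil] at h
    rw [List.eq_nil_of_length_eq_zero h.symm]
    rfl
  | cons x xs ih =>
    intro l' h1 h2 h3
    cases l' with
    | nil => simp at h3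
    | cons y ys =>
      rw [List.nodup_cons] at h1 h2
      obtain ⟨σ, hσ⟩ := ih ys h1.2 h2.2 (by simpa using h3)
      refine ⟨Equiv.swap (σ x) y * σ, ?_⟩
      rw [List.map_cons, Equiv.Perm.mul_apply, Equiv.swap_apply_left, List.cons.injEq]
      refine ⟨rfl, ?_⟩
      rw [← hσ]
      refine List.map_congr_left fun z hz => ?_
      rw [Equiv.Perm.mul_apply]
      refine Equiv.swap_apply_of_ne_of_ne ?_ ?_
      · intro h
        rw [σ.injective h] at hz
        exact h1.1 hz
      · intro h
        refine h2.1 ?_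
        rw [← h, ← hσ]
        exact List.mem_map_of_mem hz

private theorem IDM_gen (hWG : St_WG) {K A : Type} [CommRing K] [NonUnitalRing A] [Module K A] (g : ℕ)
    (hN : N2 A) (a : Option (Fin g) → Option (Fin g) → K) (ha : Idm K A g a)
    (p q i j : Option (Fin g)) (hnd : [p, q, i, j].Nodup) (p' q' i' j' : Option (Fin g))
    (hnd' : [p', q', i', j'].Nodup)
    (X : Option (Fin g) → A) (e : A) (κ : Option (Fin g) → Option (Fin g) → A) (hD : IDM_D X e κ) :
    (a p i + a p j + a q i + a q j) • (κ p' i' + κ p' j' + κ q' i' + κ q' j') +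
      (a i p + a i q + a j p + a j q) • (κ i' p' + κ i' q' + κ j' p' + κ j' q') = 0 := by
  have hnd1 : p ≠ q ∧ p ≠ i ∧ p ≠ j ∧ q ≠ i ∧ q ≠ j ∧ i ≠ j := by
    simpa [List.nodup_cons, not_or, and_assoc] using hnd
  obtain ⟨hpq, hpi, hpj, hqi, hqj, hij⟩ := hnd1
  obtain ⟨σ, hσ⟩ := IDM_ext [p, q, i, j] [p', q', i', j'] hnd hnd' rfl
  simp only [List.map_cons, List.map_nil, List.cons.injEq, and_true] at hσ
  obtain ⟨s1, s2, s3, s4⟩ := hσ
  have h := IDM_one hWG g hN a ha p q i j hpq hij hpi hpj hqi hqj _ e _ (IDM_pm hWG X e κ σ hD)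
  simpa only [s1, s2, s3, s4] using h

theorem thm_IDM (hBAS : St_BAS) (hK1 : St_K1) (hWG : St_WG) : St_IDM := by
  intro K _ A _ _ _ _ M H g hK hg hnS a ha p q i j hnd
  obtain ⟨hN, b2, -, b4, b5, b6⟩ := hBAS K A M H hK
  have hst : a p i + a p j + a q i + a q j + (a i p + a j p + a i q + a j q) =
      (a p i + a p j + a q i + a q j) + (a i p + a i q + a j p + a j q) := by ring
  rw [hst]
  set s : K := a p i + a p j + a q i + a q j with hs
  set t : K := a i p + a i q + a j p + a j q with ht
  have hmain : ∀ (X : Option (Fin g) → A) (e : A) (κ : Option (Fin g) → Option (Fin g) → A), IDM_D X e κ →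
      ∀ p' q' i' j' : Option (Fin g), [p', q', i', j'].Nodup →
      s • (κ p' i' + κ p' j' + κ q' i' + κ q' j') + t • (κ i' p' + κ i' q' + κ j' p' + κ j' q') = 0 := by
    intro X e κ hD p' q' i' j' hnd'
    exact IDM_gen hWG g hN a ha p q i j hnd p' q' i' j' hnd' X e κ hD
  -- data for all letters
  have hdata : ∀ X : Option (Fin g) → A, ∃ (e : A) (κ : Option (Fin g) → Option (Fin g) → A), IDM_D X e κ := by
    intro X
    obtain ⟨e, κ, h1, h2, h3⟩ := hK1 A hN (Option (Fin g)) (by simp; omega) X
    exact ⟨e, κ, h1, h2, h3⟩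
  -- a word with all counts one
  have hword : ∀ (p' q' i' j' : Option (Fin g)) (m : List (Option (Fin g))),
      (∀ k, (p' :: q' :: i' :: j' :: m).count k = 1) → [p', q', i', j'].Nodup ∧ m ≠ [] ∧
      (∀ k, @List.count (Option (Fin g)) instBEqOfDecidableEq k (p' :: q' :: i' :: j' :: m) = 1) ∧
      (∀ k, @List.count (Option (Fin g)) instBEqOfDecidableEq k (i' :: j' :: p' :: q' :: m) = 1) := by
    intro p' q' i' j' m hc
    have hc' : ∀ k, @List.count (Option (Fin g)) instBEqOfDecidableEq k (p' :: q' :: i' :: j' :: m) = 1 :=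
      fun k => (IDM_cnt _ k).symm.trans (hc k)
    have hn : (p' :: q' :: i' :: j' :: m).Nodup := List.nodup_iff_count_le_one.2 fun k => (hc k).le
    refine ⟨?_, ?_, hc', ?_⟩
    · have : [p', q', i', j'].Sublist (p' :: q' :: i' :: j' :: m) := by
        exact List.sublist_append_left [p', q', i', j'] m
      exact hn.sublist this
    · intro hm
      have hall : ∀ k : Option (Fin g), k ∈ [p', q', i', j'] := by
        intro k
        have := hc k
        rw [hm] at this
        exact List.count_pos_iff.1 (by omega)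
      have h1 : Fintype.card (Option (Fin g)) ≤ 4 := by
        have h2 : (Finset.univ : Finset (Option (Fin g))) ⊆ [p', q', i', j'].toFinset := fun k _ =>
          List.mem_toFinset.2 (hall k)
        have h3 := Finset.card_le_card h2
        have h4 := List.toFinset_card_le [p', q', i', j']
        rw [Finset.card_univ] at h3
        exact h3.trans h4
      simp only [Fintype.card_option, Fintype.card_fin] at h1
      omega
    · intro k
      refine (IDM_cnt _ k).symm.trans ?_
      rw [← hc k]
      have h1 : ([i', j'] ++ [p', q'] ++ m).Perm ([p', q'] ++ [i', j'] ++ m) :=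
        (List.perm_append_comm (l₁ := [i', j']) (l₂ := [p', q'])).append_right m
      exact List.Perm.count_eq h1 k
  have hsx : ∀ (X : Option (Fin g) → A) (e : A) (κ : Option (Fin g) → Option (Fin g) → A), IDM_D X e κ →
      ∀ i j, κ i j ∈ Sx A := fun X e κ hD i j => b4 _ X _ (hD.2.1 i j)
  have first : Nl K A (s + t) := by
    by_contra hcon
    rcases b6 (s + t) with h1 | h1
    · exact hcon h1.1
    · refine hnS ?_
      intro X p' q' i' j' m hc
      obtain ⟨n1, n2, n3, n4⟩ := hword p' q' i' j' m hc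
      obtain ⟨e, κ, hD⟩ := hdata X
      rw [IDM_sq hWG hN X e κ hD p' q' i' j' m n2 n3]
      set S := κ p' i' + κ p' j' + κ q' i' + κ q' j' with hS
      set S' := κ i' p' + κ i' q' + κ j' p' + κ j' q' with hS'
      have hx := hsx X e κ hD
      have m1 : S ∈ Sx A := add_mem (add_mem (add_mem (hx _ _) (hx _ _)) (hx _ _)) (hx _ _)
      have m2 : S' ∈ Sx A := add_mem (add_mem (add_mem (hx _ _) (hx _ _)) (hx _ _)) (hx _ _)
      have g1 : s • S + t • S' = 0 := hmain X e κ hD p' q' i' j' n1
      have g2 : s • S' + t • S = 0 := by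
        have h3 : [i', j', p', q'].Nodup := by
          have h1 : ([p', q'] ++ [i', j']).Perm ([i', j'] ++ [p', q']) := List.perm_append_comm
          exact h1.nodup_iff.1 n1
        have := hmain X e κ hD i' j' p' q' h3
        simpa only [hS, hS'] using this
      have g3 : (s + t) • (S + S') = 0 := by
        have : (s + t) • (S + S') = (s • S + t • S') + (s • S' + t • S) := by
          simp only [add_smul, smul_add]; abel
        rw [this, g1, g2, add_zero]
      have g4 := h1.1 _ (add_mem m1 m2) g3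
      have g5 : S' = S := by
        have := b2 _ m1
        have h6 : S + S' = S + S := by rw [g4, this]
        exact add_left_cancel h6
      rw [g5, ← add_smul] at g1
      exact h1.1 _ m1 g1
  refine ⟨first, ?_⟩
  rcases b6 s with h1 | h1
  · exact Or.inl h1.1
  · refine Or.inr ?_
    intro X p' q' i' j' m hc
    obtain ⟨n1, n2, n3, n4⟩ := hword p' q' i' j' m hc
    obtain ⟨e, κ, hD⟩ := hdata X
    rw [IDM_sq hWG hN X e κ hD p' q' i' j' m n2 n3, IDM_sq hWG hN X e κ hD i' j' p' q' m n2 n4]
    set S := κ p' i' + κ p' j' + κ q' i' + κ q' j' with hS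
    set S' := κ i' p' + κ i' q' + κ j' p' + κ j' q' with hS'
    have hx := hsx X e κ hD
    have m1 : S ∈ Sx A := add_mem (add_mem (add_mem (hx _ _) (hx _ _)) (hx _ _)) (hx _ _)
    have m2 : S' ∈ Sx A := add_mem (add_mem (add_mem (hx _ _) (hx _ _)) (hx _ _)) (hx _ _)
    have g1 : s • S + t • S' = 0 := hmain X e κ hD p' q' i' j' n1
    have g6 : (s + t) • S' = 0 := first _ m2
    have g7 : t • S' + t • S' = 0 := b2 _ (b5 _ _ m2)
    have g8 : s • (S + S') = 0 := by
      have : s • (S + S') + (t • S' + t • S') = (s • S + t • S') + (s + t) • S' := by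
        simp only [add_smul, smul_add]; abel
      rw [g7, g1, g6, add_zero, add_zero] at this
      exact this
    exact h1.1 _ (add_mem m1 m2) g8

end Pool.Agent.CRS
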