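import Pool.Agent.CRS.StA

/-!
Campaign CRS, p = 2: module K2 (words with one letter twice).
-/

set_option autoImplicit false

namespace Pool.Agent.CRS

open Pool.Agent.CRR Pool.Agent.CRN Pool.Agent.CRK Pool.Agent.CRL Pool.Agent.CRM Pool.Agent.CRP
open Pool.Agent.CRQ

section K2

variable {ι A : Type}

private theorem K2_cons [AddCommMonoid A] (κ : ι → ι → A) (a b : ι) (l : List ι) :
    adj κ (a :: b :: l) = κ a b + adj κ (b :: l) := rfl

private theorem K2_one [AddCommMonoid A] (κ : ι → ι → A) (a : ι) : adj κ [a] = 0 := rfl

private theorem K2_split [AddCommMonoid A] (κ : ι → ι → A) (i : ι) (u v : List ι) :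
    adj κ (u ++ i :: v) = adj κ (u ++ [i]) + adj κ (i :: v) := by
  induction u with
  | nil =>
    show adj κ (i :: v) = adj κ [i] + adj κ (i :: v)
    rw [K2_one, zero_add]
  | cons a u ih =>
    cases u with
    | nil =>
      show adj κ (a :: i :: v) = adj κ (a :: i :: []) + adj κ (i :: v)
      rw [K2_cons, K2_cons, K2_one, add_zero]
    | cons b u =>
      show adj κ (a :: b :: (u ++ i :: v)) = adj κ (a :: b :: (u ++ [i])) + adj κ (i :: v)
      rw [K2_cons, K2_cons, add_assoc]
      congr 1

private theorem K2_two [AddCommMonoid A] (κ : ι → ι → A) (p q r s : ι) (M : List ι) :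
    adj κ (p :: q :: (M ++ [r, s])) = κ p q + adj κ (q :: (M ++ [r])) + κ r s := by
  have h := K2_split κ r (q :: M) [s]
  rw [List.cons_append, List.cons_append] at h
  rw [K2_cons, h, K2_cons, K2_one, add_zero, add_assoc]

private theorem K2_three [AddCommMonoid A] (κ : ι → ι → A) (p q r s t : ι) (M : List ι) :
    adj κ (p :: q :: (M ++ [r, s, t])) = κ p q + adj κ (q :: (M ++ [r])) + κ r s + κ s t := by
  have h := K2_split κ r (q :: M) [s, t]
  rw [List.cons_append, List.cons_append] at h
  rw [K2_cons, h, K2_cons, K2_cons, K2_one, add_zero]
  simp only [add_assoc]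

private theorem K2_dbl [AddCommMonoid A] (κ : ι → ι → A) (h : ∀ i j, κ i j + κ i j = 0) :
    ∀ w : List ι, adj κ w + adj κ w = 0
  | [] => by
    show (0 : A) + 0 = 0
    rw [add_zero]
  | [a] => by
    show (0 : A) + 0 = 0
    rw [add_zero]
  | a :: b :: l => by
    rw [K2_cons, add_add_add_comm, h, K2_dbl κ h (b :: l), add_zero]

private theorem K2_const [AddCommMonoid A] (κ : ι → ι → A) (z : A) :
    ∀ w : List ι, w ≠ [] → w.Nodup → (∀ i ∈ w, ∀ j ∈ w, i ≠ j → κ i j = z) → adj κ w = (w.length - 1) • z
  | [], h, _, _ => absurd rfl h
  | [a], _, _, _ => by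
    show (0 : A) = (1 - 1) • z
    rw [Nat.sub_self, zero_smul]
  | a :: b :: l, _, hn, hz => by
    have h1 : a ≠ b := by
      rintro rfl
      exact (List.nodup_cons.1 hn).1 (by simp)
    rw [K2_cons, hz a (by simp) b (by simp) h1,
      K2_const κ z (b :: l) (by simp) (List.nodup_cons.1 hn).2
        (fun i hi j hj => hz i (List.mem_cons_of_mem _ hi) j (List.mem_cons_of_mem _ hj))]
    simp only [List.length_cons, Nat.add_sub_cancel]
    rw [add_smul, one_smul, add_comm]

private theorem K2_cnt {α : Type} [DecidableEq α] [BEq α] [LawfulBEq α] (a : α) (l : List α) :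
    @List.count α instBEqOfDecidableEq a l = l.count a := by
  unfold List.count
  refine List.countP_congr fun x _ => ?_
  simp

end K2

theorem thm_K2 (hK1 : St_K1) (hTZ : St_TZ) (hWG : St_WG) : St_K2 := by
  intro A _ hN ι _ _ hcard a x
  obtain ⟨w1, w2, -, w4, -, w6⟩ := hWG
  set π : Option ι → ι := fun o => o.getD a with hπ
  obtain ⟨e, κ, he, hκ, hval0⟩ := hK1 A hN (Option ι) (by rw [Fintype.card_option]; omega) (fun o => x (π o))
  have hval : ∀ W : List (Option ι), (∀ o, W.count o = 1) → wp (W.map fun o => x (π o)) = e + adj κ W := by
    intro W hW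
    refine hval0 W fun o => ?_
    rw [K2_cnt]
    exact hW o
  have h2 : ∀ y ∈ Wg x, y + y = 0 := w1 A hN ι x
  have he' : e ∈ Wg x := w6 A ι (Option ι) x π e he
  have hκ' : ∀ i j, κ i j ∈ Wg x := fun i j => w6 A ι (Option ι) x π _ (hκ i j)
  have hk2 : ∀ i j, κ i j + κ i j = 0 := fun i j => h2 _ (hκ' i j)
  have he2 : e + e = 0 := h2 _ he'
  have ha2 : ∀ w, adj κ w + adj κ w = 0 := K2_dbl κ hk2
  -- the swap
  set sw : Equiv.Perm (Option ι) := Equiv.swap none (some a) with hsw
  have hsn : sw none = some a := Equiv.swap_apply_left _ _
  have hsa : sw (some a) = none := Equiv.swap_apply_right _ _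
  have hso : ∀ i, i ≠ a → sw (some i) = some i := fun i hi =>
    Equiv.swap_apply_of_ne_of_ne (by simp) (by simpa using hi)
  have hswap : ∀ W : List (Option ι), (∀ o, W.count o = 1) → adj κ (W.map sw) = adj κ W := by
    intro W hW
    have h1 := hval W hW
    have h3 := hval (W.map sw) (fun o => by
      have := List.count_map_of_injective W sw sw.injective (sw.symm o)
      rw [Equiv.apply_symm_apply] at this
      rw [this]
      exact hW _)
    have h4 : (W.map sw).map (fun o => x (π o)) = W.map fun o => x (π o) := by
      rw [List.map_map]
      refine List.map_congr_left fun o _ => ?_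
      show x (π (sw o)) = x (π o)
      rcases o with _ | i
      · rw [hsn]
        rfl
      · by_cases hi : i = a
        · rw [hi, hsa]
          rfl
        · rw [hso i hi]
    rw [h4, h1] at h3
    exact (add_left_cancel h3).symm
  -- orders of the other letters
  have hext : ∀ P : List ι, P.Nodup → a ∉ P → ∃ R : List ι, a ∉ R ∧ (P ++ R).count a = 0 ∧
      ∀ i, i ≠ a → (P ++ R).count i = 1 := by
    intro P hP haP
    classical
    refine ⟨(Finset.univ.filter fun i => i ≠ a ∧ i ∉ P).toList, ?_, ?_, ?_⟩
    · simp
    · rw [List.count_append, List.count_eq_zero.2 haP, List.count_eq_zero.2 (by simp)]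
    · intro i hi
      rw [List.count_append]
      by_cases hiP : i ∈ P
      · rw [List.count_eq_one_of_mem hP hiP, List.count_eq_zero.2 (by simp [hiP])]
      · rw [List.count_eq_zero.2 hiP, List.count_eq_one_of_mem (Finset.nodup_toList _) (by simp [hi, hiP])]
  have hgood : ∀ (L : List ι) (W : List (Option ι)), L.count a = 0 → (∀ i, i ≠ a → L.count i = 1) →
      (∀ o, W.count o = (none :: some a :: L.map some).count o) → ∀ o, W.count o = 1 := by
    intro L W h0 h1 hW o
    rw [hW o]
    rcases o with _ | i
    · have : (L.map some).count (none : Option ι) = 0 := List.count_eq_zero.2 (by simp)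
      simp [List.count_cons, this]
    · have h3 := List.count_map_of_injective L some (Option.some_injective ι) i
      by_cases hi : i = a
      · subst hi
        simp [List.count_cons, h3, h0]
      · have h4 : ¬ a = i := fun h => hi h.symm
        simp [List.count_cons, h3, h1 i hi, h4]
  have hmsw : ∀ R : List ι, a ∉ R → (R.map some).map sw = R.map some := by
    intro R hR
    rw [List.map_map]
    refine List.map_congr_left fun i hi => ?_
    exact hso i (fun h => hR (h ▸ hi))
  have hex : ∀ P : List ι, P.length ≤ 3 → ∃ i, i ≠ a ∧ i ∉ P := by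
    intro P hP
    classical
    by_contra hcon
    push Not at hcon
    have h1 : (Finset.univ : Finset ι) ⊆ insert a P.toFinset := by
      intro i _
      rw [Finset.mem_insert, List.mem_toFinset]
      by_cases hi : i = a
      · exact Or.inl hi
      · exact Or.inr (hcon i hi)
    have h3 := Finset.card_le_card h1
    have h4 := Finset.card_insert_le a P.toFinset
    have h5 := List.toFinset_card_le P
    rw [Finset.card_univ] at h3
    omega
  -- step 1
  have hts : ∀ j k, j ≠ a → k ≠ a → j ≠ k →
      κ none (some j) + κ (some a) (some j) = κ (some k) none + κ (some k) (some a) := by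
    intro j k hj hk hjk
    obtain ⟨R, hR, r0, r1⟩ := hext [j, k] (by simp [hjk]) (by simp [hj.symm, hk.symm])
    have h := hswap (none :: some j :: (R.map some ++ [some k, some a])) (hgood _ _ r0 r1 (fun o => by
      simp only [List.count_cons, List.count_append, List.map_cons, List.map_append, List.map_nil, List.count_nil] <;> ring))
    simp only [List.map_cons, List.map_append, List.map_nil] at h
    rw [hmsw R hR, hsn, hsa, hso j hj, hso k hk, K2_two, K2_two] at h
    linear_combination (norm := abel1) h + hk2 none (some j) - hk2 (some k) none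
  have htl : ∀ l, l ≠ a → κ none (some l) + κ (some a) (some l) = 0 := by
    intro l hl
    obtain ⟨j, hj, hj'⟩ := hex [l] (by simp)
    obtain ⟨k, hk, hk'⟩ := hex [l, j] (by simp)
    have hjl : j ≠ l := by simpa using hj'
    have hkl : k ≠ l := fun h => hk' (by simp [h])
    have hkj : k ≠ j := fun h => hk' (by simp [h])
    obtain ⟨R, hR, r0, r1⟩ := hext [j, k, l] (by simp [hkj.symm, hjl, hkl]) (by simp [hj.symm, hk.symm, hl.symm])
    have h := hswap (none :: some j :: (R.map some ++ [some k, some a, some l])) (hgood _ _ r0 r1 (fun o => by
      simp only [List.count_cons, List.count_append, List.map_cons, List.map_append, List.map_nil, List.count_nil] <;> ring))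
    simp only [List.map_cons, List.map_append, List.map_nil] at h
    rw [hmsw R hR, hsn, hsa, hso j hj, hso k hk, hso l hl, K2_three, K2_three] at h
    have h' := hts j k hj hk hkj.symm
    linear_combination (norm := abel1) h - h' + hk2 (some a) (some l) + hk2 none (some j) - hk2 (some k) none
  have hsk : ∀ k, k ≠ a → κ (some k) none + κ (some k) (some a) = 0 := by
    intro k hk
    obtain ⟨j, hj, hj'⟩ := hex [k] (by simp)
    rw [← hts j k hj hk (by simpa using hj')]
    exact htl j hj
  have hns : κ none (some a) = κ (some a) none := by
    obtain ⟨r, hr, -⟩ := hex [] (by simp)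
    obtain ⟨R, hR, r0, r1⟩ := hext [r] (by simp) (by simp [hr.symm])
    have h := hswap (none :: some a :: some r :: R.map some) (hgood _ _ r0 r1 (fun o => by
      simp only [List.count_cons, List.count_append, List.map_cons, List.map_append, List.map_nil, List.count_nil] <;> ring))
    simp only [List.map_cons] at h
    rw [hmsw R hR, hsn, hsa, hso r hr, K2_cons, K2_cons, K2_cons, K2_cons] at h
    linear_combination (norm := abel1) htl r hr - hk2 (some a) (some r) - h
  have hlenO : ∀ L : List ι, L.count a = 0 → (∀ i, i ≠ a → L.count i = 1) → L.length = Fintype.card ι - 1 := by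
    intro L h0 h1
    classical
    have hnd : L.Nodup := List.nodup_iff_count_le_one.2 fun i => by
      by_cases hi : i = a
      · rw [hi, h0]
        exact Nat.zero_le _
      · exact (h1 i hi).le
    have h3 := List.toFinset_card_of_nodup hnd
    have h4 : L.toFinset = Finset.univ.erase a := by
      ext i
      rw [List.mem_toFinset, Finset.mem_erase]
      constructor
      · intro hi
        refine ⟨?_, Finset.mem_univ _⟩
        rintro rfl
        exact absurd hi (List.count_eq_zero.1 h0)
      · rintro ⟨hi, -⟩
        exact List.count_pos_iff.1 (by rw [h1 i hi]; exact one_pos)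
    rw [h4, Finset.card_erase_of_mem (Finset.mem_univ a), Finset.card_univ] at h3
    exact h3.symm
  -- step 2
  have hE : ∀ L : List ι, L.count a = 0 → (∀ i, i ≠ a → L.count i = 1) → adj κ (L.map some) = e := by
    intro L h0 h1
    have hlen : 4 ≤ L.length := by
      rw [hlenO L h0 h1]
      omega
    match L, hlen, h0, h1 with
    | c :: d :: v, hlen, h0, h1 =>
      have hc : c ≠ a := by
        rintro rfl
        simp at h0
      have ht := hTZ A hN (x a) [x c] ((d :: v).map x) (by simp) (by simp)
        (by simpa [add_comm, add_left_comm] using hlen)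
      have e1 := hval (none :: some a :: some c :: some d :: v.map some) (hgood _ _ h0 h1 (fun o => by
        simp only [List.count_cons, List.count_append, List.map_cons, List.map_append, List.map_nil, List.count_nil] <;> ring))
      have e2 := hval (none :: some c :: some a :: some d :: v.map some) (hgood _ _ h0 h1 (fun o => by
        simp only [List.count_cons, List.count_append, List.map_cons, List.map_append, List.map_nil, List.count_nil] <;> ring))
      have e3 := hval (some c :: none :: some a :: some d :: v.map some) (hgood _ _ h0 h1 (fun o => by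
        simp only [List.count_cons, List.count_append, List.map_cons, List.map_append, List.map_nil, List.count_nil] <;> ring))
      have hm : (v.map some).map (fun o => x (π o)) = v.map x := by
        rw [List.map_map]
        rfl
      simp only [List.map_cons, hm] at e1 e2 e3
      have g1 : wp (x (π none) :: x (π (some a)) :: x (π (some c)) :: x (π (some d)) :: v.map x) =
          x a * x a * wp [x c] * wp ((d :: v).map x) := by
        show x a * (x a * (x c * wp (x d :: v.map x))) = x a * x a * x c * wp (x d :: v.map x)
        simp only [mul_assoc]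
      have g2 : wp (x (π none) :: x (π (some c)) :: x (π (some a)) :: x (π (some d)) :: v.map x) =
          x a * wp [x c] * x a * wp ((d :: v).map x) := by
        show x a * (x c * (x a * wp (x d :: v.map x))) = x a * x c * x a * wp (x d :: v.map x)
        simp only [mul_assoc]
      have g3 : wp (x (π (some c)) :: x (π none) :: x (π (some a)) :: x (π (some d)) :: v.map x) =
          wp [x c] * x a * x a * wp ((d :: v).map x) := by
        show x c * (x a * (x a * wp (x d :: v.map x))) = x c * x a * x a * wp (x d :: v.map x)
        simp only [mul_assoc]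
      rw [g1] at e1
      rw [g2] at e2
      rw [g3] at e3
      rw [e1, e2, e3] at ht
      simp only [K2_cons] at ht
      simp only [List.map_cons, K2_cons]
      set m := adj κ (some d :: v.map some) with hm'
      have hm2 : m + m = 0 := ha2 _
      linear_combination (norm := abel1) ht - htl c hc - hsk c hc - he2 - he2 -
        hk2 none (some a) - hk2 (some a) (some d) - hm2
  -- step 3
  have hrow : ∀ p a' b', p ≠ a → a' ≠ a → b' ≠ a → p ≠ a' → p ≠ b' → κ (some p) (some a') = κ (some p) (some b') := by
    intro p a' b' hp ha' hb' hpa hpb
    by_cases hab : a' = b'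
    · rw [hab]
    obtain ⟨q, hq, hq'⟩ := hex [p, a', b'] (by simp)
    have hqp : q ≠ p := fun h => hq' (by simp [h])
    have hqa : q ≠ a' := fun h => hq' (by simp [h])
    have hqb : q ≠ b' := fun h => hq' (by simp [h])
    obtain ⟨R, hR, r0, r1⟩ := hext [p, a', b', q] (by simp [hpa, hpb, hqp.symm, hab, hqa.symm, hqb.symm])
      (by simp [hp.symm, ha'.symm, hb'.symm, hq.symm])
    obtain ⟨R', hR', r0', r1'⟩ := hext [a', b', q] (by simp [hab, hqa.symm, hqb.symm])
      (by simp [ha'.symm, hb'.symm, hq.symm])
    have k1 := hE ([p, a', b', q] ++ R) r0 r1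
    have k2 := hE ([p, b', a', q] ++ R) (by
        rw [← r0]
        simp only [List.count_cons, List.count_append, List.count_nil] <;> ring) (fun i hi => by
        rw [← r1 i hi]
        simp only [List.count_cons, List.count_append, List.count_nil] <;> ring)
    have k3 := hE ([a', b', q] ++ R') r0' r1'
    have k4 := hE ([b', a', q] ++ R') (by
        rw [← r0']
        simp only [List.count_cons, List.count_append, List.count_nil] <;> ring) (fun i hi => by
        rw [← r1' i hi]
        simp only [List.count_cons, List.count_append, List.count_nil] <;> ring)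
    simp only [List.cons_append, List.nil_append, List.map_cons, K2_cons] at k1 k2 k3 k4
    linear_combination (norm := abel1) k1 - k2 - k3 + k4
  have hsym : ∀ a' b', a' ≠ a → b' ≠ a → a' ≠ b' → κ (some a') (some b') = κ (some b') (some a') := by
    intro a' b' ha' hb' hab
    obtain ⟨q, hq, hq'⟩ := hex [a', b'] (by simp)
    have hqa : q ≠ a' := fun h => hq' (by simp [h])
    have hqb : q ≠ b' := fun h => hq' (by simp [h])
    obtain ⟨R, hR, r0, r1⟩ := hext [q, a', b'] (by simp [hab, hqa, hqb])
      (by simp [ha'.symm, hb'.symm, hq.symm])
    have k1 := hE (R ++ q :: [a', b']) (by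
        rw [← r0]
        simp only [List.count_cons, List.count_append, List.count_nil] <;> ring) (fun i hi => by
        rw [← r1 i hi]
        simp only [List.count_cons, List.count_append, List.count_nil] <;> ring)
    have k2 := hE (R ++ q :: [b', a']) (by
        rw [← r0]
        simp only [List.count_cons, List.count_append, List.count_nil] <;> ring) (fun i hi => by
        rw [← r1 i hi]
        simp only [List.count_cons, List.count_append, List.count_nil] <;> ring)
    rw [List.map_append, List.map_cons, K2_split] at k1 k2
    simp only [List.map_cons, List.map_nil, K2_cons, K2_one] at k1 k2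
    have k3 := hrow q a' b' hq ha' hb' hqa hqb
    linear_combination (norm := abel1) k1 - k2 - k3
  obtain ⟨j0, hj0, -⟩ := hex [] (by simp)
  obtain ⟨k0, hk0, hk0'⟩ := hex [j0] (by simp)
  have hjk0 : k0 ≠ j0 := by simpa using hk0'
  set z := κ (some j0) (some k0) with hz
  have hzO : ∀ i j, i ≠ a → j ≠ a → i ≠ j → κ (some i) (some j) = z := by
    intro i j hi hj hij
    obtain ⟨m, hm, hm'⟩ := hex [i, j0] (by simp)
    have hmi : m ≠ i := fun h => hm' (by simp [h])
    have hmj : m ≠ j0 := fun h => hm' (by simp [h])
    rw [hrow i j m hi hj hm hij hmi.symm, hsym i m hi hm hmi.symm, hrow m i j0 hm hi hj0 hmi hmj,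
      hsym m j0 hm hj0 hmj, hrow j0 m k0 hj0 hm hk0 hmj.symm hjk0.symm]
  have hzW : z ∈ Wg x := hκ' _ _
  have hz2 : z + z = 0 := h2 _ hzW
  -- the value of e
  have hez : e = (Fintype.card ι - 1 - 1) • z := by
    classical
    have h0 : ((Finset.univ.erase a).toList).count a = 0 := List.count_eq_zero.2 (by simp)
    have h1 : ∀ i, i ≠ a → ((Finset.univ.erase a).toList).count i = 1 := fun i hi =>
      List.count_eq_one_of_mem (Finset.nodup_toList _) (by simp [hi])
    have hl : ((Finset.univ.erase a).toList).length = Fintype.card ι - 1 := by
      rw [Finset.length_toList, Finset.card_erase_of_mem (Finset.mem_univ a), Finset.card_univ]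
    rw [← hE _ h0 h1, K2_const κ z _ ?_ ?_ ?_, List.length_map, hl]
    · intro h
      rw [List.map_eq_nil_iff] at h
      rw [h] at hl
      simp at hl
      omega
    · exact (Finset.nodup_toList _).map (Option.some_injective ι)
    · intro i hi j hj hij
      rw [List.mem_map] at hi hj
      obtain ⟨i', hi', rfl⟩ := hi
      obtain ⟨j', hj', rfl⟩ := hj
      exact hzO i' j' (by simpa using hi') (by simpa using hj') (fun h => hij (by rw [h]))
  -- step 4
  set κ2 : ι → ι → A := fun i j => if i = a ∧ j = a then κ none (some a) + z else
    if i = a then κ (some a) (some j) + z else if j = a then κ (some i) (some a) + z else 0 with hκ2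
  have c1 : κ2 a a = κ none (some a) + z := by simp [hκ2]
  have c2 : ∀ j, j ≠ a → κ2 a j = κ (some a) (some j) + z := fun j hj => by simp [hκ2, hj]
  have c3 : ∀ i, i ≠ a → κ2 i a = κ (some i) (some a) + z := fun i hi => by simp [hκ2, hi]
  have c4 : ∀ i j, i ≠ a → j ≠ a → κ2 i j = 0 := fun i j hi hj => by simp [hκ2, hi, hj]
  have hmem : ∀ i j, κ2 i j ∈ Wg x := by
    intro i j
    by_cases hi : i = a
    · by_cases hj : j = a
      · rw [hi, hj, c1]
        exact add_mem (hκ' _ _) hzW
      · rw [hi, c2 j hj]
        exact add_mem (hκ' _ _) hzW
    · by_cases hj : j = a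
      · rw [hj, c3 i hi]
        exact add_mem (hκ' _ _) hzW
      · rw [c4 i j hi hj]
        exact zero_mem _
  have hall : ∀ i j : Option ι, i ≠ j → κ i j + κ2 (π i) (π j) = z := by
    rintro (_ | i) (_ | j) hij
    · exact absurd rfl hij
    · show κ none (some j) + κ2 a j = z
      by_cases hj : j = a
      · rw [hj, c1]
        linear_combination (norm := abel1) hk2 none (some a)
      · rw [c2 j hj]
        linear_combination (norm := abel1) htl j hj
    · show κ (some i) none + κ2 i a = z
      by_cases hi : i = a
      · rw [hi, c1, hns]
        linear_combination (norm := abel1) hk2 (some a) none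
      · rw [c3 i hi]
        linear_combination (norm := abel1) hsk i hi
    · show κ (some i) (some j) + κ2 i j = z
      by_cases hi : i = a
      · have hj : j ≠ a := by
          rintro rfl
          exact hij (by rw [hi])
        rw [hi, c2 j hj]
        linear_combination (norm := abel1) hk2 (some a) (some j)
      · by_cases hj : j = a
        · rw [hj, c3 i hi]
          linear_combination (norm := abel1) hk2 (some i) (some a)
        · rw [c4 i j hi hj, add_zero]
          exact hzO i j hi hj (fun h => hij (by rw [h]))
  refine ⟨κ2, hmem, c4, ?_⟩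
  intro w hwa hwi
  have haw : a ∈ w := List.count_pos_iff.1 (by omega)
  obtain ⟨s, t, rfl⟩ := List.append_of_mem haw
  have hcnt : s.count a + t.count a = 1 := by
    simp [List.count_append, List.count_cons] at hwa
    omega
  have hW : ∀ o, (s.map some ++ none :: t.map some).count o = 1 := by
    intro o
    rcases o with _ | i
    · have k1 : (s.map some).count (none : Option ι) = 0 := List.count_eq_zero.2 (by simp)
      have k2 : (t.map some).count (none : Option ι) = 0 := List.count_eq_zero.2 (by simp)
      simp [List.count_append, List.count_cons, k1, k2]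
    · have k1 := List.count_map_of_injective s some (Option.some_injective ι) i
      have k2 := List.count_map_of_injective t some (Option.some_injective ι) i
      have k3 : (s.map some ++ none :: t.map some).count (some i) = s.count i + t.count i := by
        simp [List.count_append, List.count_cons, k1, k2]
      rw [k3]
      by_cases hi : i = a
      · rw [hi]
        exact hcnt
      · have := hwi i hi
        have hia : ¬ a = i := fun h => hi h.symm
        simp [List.count_append, List.count_cons, hia] at this
        exact this
  have hWπ : (s.map some ++ none :: t.map some).map π = s ++ a :: t := by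
    rw [List.map_append, List.map_cons, List.map_map, List.map_map]
    show s.map (fun i => i) ++ a :: t.map (fun i => i) = s ++ a :: t
    rw [List.map_id', List.map_id']
  have hWX : (s.map some ++ none :: t.map some).map (fun o => x (π o)) = (s ++ a :: t).map x := by
    rw [← hWπ, List.map_map]
    rfl
  have hv := hval _ hW
  rw [hWX] at hv
  rw [hv]
  have hnd : (s.map some ++ none :: t.map some).Nodup := List.nodup_iff_count_le_one.2 fun o => (hW o).le
  have hlen : (s.map some ++ none :: t.map some).length = Fintype.card ι + 1 := by
    classical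
    have h1 : (s.map some ++ none :: t.map some).toFinset = (Finset.univ : Finset (Option ι)) := by
      ext o
      rw [List.mem_toFinset]
      simp only [Finset.mem_univ, iff_true]
      exact List.count_pos_iff.1 (by rw [hW o]; exact one_pos)
    have h3 := List.toFinset_card_of_nodup hnd
    rw [h1, Finset.card_univ, Fintype.card_option] at h3
    exact h3.symm
  have hs := K2_const (fun i j => κ i j + κ2 (π i) (π j)) z _ (by simp) hnd (fun i _ j _ hij => hall i j hij)
  rw [hlen, w4 (Option ι) A κ (fun i j => κ2 (π i) (π j)), ← w2 ι (Option ι) A κ2 π, hWπ, Nat.add_sub_cancel] at hs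
  have hd : adj κ2 (s ++ a :: t) + adj κ2 (s ++ a :: t) = 0 := K2_dbl κ2 (fun i j => h2 _ (hmem i j)) _
  have hn : Fintype.card ι • z + (Fintype.card ι - 1 - 1) • z = 0 := by
    rw [← add_smul]
    have h5 : Fintype.card ι + (Fintype.card ι - 1 - 1) = (Fintype.card ι - 1) * 2 := by omega
    rw [h5, mul_smul, two_smul, hz2, smul_zero]
  rw [hez]
  linear_combination (norm := abel1) hs + hn - hd

end Pool.Agent.CRS
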