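import Pool.Agent.CRS.StA

/-!
Campaign CRS, module K22: words with two letters twice.
-/

set_option autoImplicit false

namespace Pool.Agent.CRS

open Pool.Agent.CRR Pool.Agent.CRN Pool.Agent.CRK Pool.Agent.CRL Pool.Agent.CRM Pool.Agent.CRP
open Pool.Agent.CRQ

private def K22_pi {ι : Type} (b : ι) : Option ι → ι := fun o => o.getD b

private theorem K22_pi_none {ι : Type} (b : ι) : K22_pi b none = b := rfl

private theorem K22_pi_some {ι : Type} (b i : ι) : K22_pi b (some i) = i := rfl

private theorem K22_map {ι : Type} (b : ι) (l : List ι) : (l.map some).map (K22_pi b) = l := by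
  rw [List.map_map]
  have : (K22_pi b ∘ some) = id := rfl
  rw [this, List.map_id]

private theorem K22_zero {ι A : Type} [AddCommMonoid A] (κ : ι → ι → A) :
    ∀ l : List ι, (∀ i ∈ l, ∀ j ∈ l, κ i j = 0) → adj κ l = 0 := by
  intro l
  induction l with
  | nil => intro _; rfl
  | cons i l ih =>
    intro h
    cases l with
    | nil => rfl
    | cons j l =>
      show κ i j + adj κ (j :: l) = 0
      rw [ih fun u hu v hv => h u (List.mem_cons_of_mem _ hu) v (List.mem_cons_of_mem _ hv),
        h i (by simp) j (by simp), add_zero]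

private theorem K22_lift {ι : Type} [DecidableEq ι] (b : ι) (w : List ι) (hb : 1 ≤ w.count b) :
    ∃ W : List (Option ι), W.map (K22_pi b) = w ∧ W.count none = 1 ∧
      W.count (some b) = w.count b - 1 ∧ ∀ i, i ≠ b → W.count (some i) = w.count i := by
  obtain ⟨s, t, rfl⟩ := List.append_of_mem (List.count_pos_iff.1 hb)
  have hn : ∀ l : List ι, (l.map some).count none = 0 := fun l => by
    rw [List.count_eq_zero]
    simp
  have hs : ∀ (l : List ι) (i : ι), (l.map some).count (some i) = l.count i := fun l i =>
    List.count_map_of_injective l some (Option.some_injective ι) i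
  refine ⟨s.map some ++ none :: t.map some, ?_, ?_, ?_, ?_⟩
  · rw [List.map_append, List.map_cons, K22_map, K22_map, K22_pi_none]
  · rw [List.count_append, List.count_cons_self, hn, hn]
  · rw [List.count_append, List.count_cons_of_ne (by simp), hs, hs, List.count_append,
      List.count_cons_self]
    omega
  · intro i hi
    rw [List.count_append, List.count_cons_of_ne (by simp), hs, hs, List.count_append,
      List.count_cons_of_ne (fun h => hi h.symm)]

/-- The matrix for the letter `a` if one of the two `b` is replaced by `none`. -/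
private structure K22_D {ι A : Type} [DecidableEq ι] [NonUnitalRing A] (a b : ι) (x : ι → A)
    (κ : Option ι → Option ι → A) : Prop where
  wg : ∀ i j, κ i j ∈ Wg fun o => x (K22_pi b o)
  z : ∀ i j, i ≠ some a → j ≠ some a → κ i j = 0
  v : ∀ W : List (Option ι), W.count (some a) = 2 → (∀ i, i ≠ some a → W.count i = 1) →
    wp ((W.map (K22_pi b)).map x) = adj κ W

private theorem K22_K (hK : St_K2) {A : Type} [NonUnitalRing A] (hN : N2 A) {ι : Type} [Fintype ι]
    [DecidableEq ι] (h4 : 4 ≤ Fintype.card ι) (a b : ι) (x : ι → A) : ∃ κ, K22_D a b x κ := by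
  obtain ⟨κ, h1, h2, h3⟩ := hK A hN (Option ι) (by rw [Fintype.card_option]; omega) (some a)
    fun o => x (K22_pi b o)
  refine ⟨κ, h1, h2, fun W hW hW' => ?_⟩
  have hc : ∀ i : Option ι, @List.count (Option ι) instBEqOfDecidableEq i W = W.count i := by
    intro i
    rw [lawful_beq_subsingleton (instBEqOfDecidableEq : BEq (Option ι)) Option.instBEq]
  rw [List.map_map]
  exact h3 W (by rw [hc]; exact hW) fun i hi => by rw [hc]; exact hW' i hi

/-- The list of the other letters. -/
private theorem K22_R {ι : Type} [Fintype ι] [DecidableEq ι] (a b c d : ι) : ∃ R : List ι,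
    (∀ i ∈ R, i ≠ a ∧ i ≠ b ∧ i ≠ c ∧ i ≠ d) ∧
    ∀ i, i ≠ a → i ≠ b → i ≠ c → i ≠ d → R.count i = 1 := by
  refine ⟨(Finset.univ \ {a, b, c, d} : Finset ι).toList, fun i hi => ?_, fun i h1 h2 h3 h4 => ?_⟩
  · rw [Finset.mem_toList] at hi
    simpa using hi
  · apply List.count_eq_one_of_mem (Finset.nodup_toList _)
    rw [Finset.mem_toList]
    simp [h1, h2, h3, h4]

/-- The counts of the letters for the words with a rest `R`. -/
private theorem K22_cnt {ι : Type} [DecidableEq ι] {a b c d : ι} (hab : a ≠ b) (hac : a ≠ c)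
    (had : a ≠ d) (hbc : b ≠ c) (hbd : b ≠ d) (hcd : c ≠ d) {R : List ι}
    (h1 : ∀ i ∈ R, i ≠ a ∧ i ≠ b ∧ i ≠ c ∧ i ≠ d)
    (h2 : ∀ i, i ≠ a → i ≠ b → i ≠ c → i ≠ d → R.count i = 1) (W : List (Option ι))
    (hW : ∀ i, W.count i = (R.map some ++ [some a, some a, some b, none, some c, some d]).count i) :
    W.count (some a) = 2 ∧ ∀ i, i ≠ some a → W.count i = 1 := by
  have hn : (R.map some).count none = 0 := by
    rw [List.count_eq_zero]
    simp
  have hs : ∀ i : ι, (R.map some).count (some i) = R.count i := fun i =>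
    List.count_map_of_injective R some (Option.some_injective ι) i
  have h0 : ∀ i, (i = a ∨ i = b ∨ i = c ∨ i = d) → R.count i = 0 := by
    intro i hi
    rw [List.count_eq_zero]
    intro hm
    have := h1 i hm
    tauto
  refine ⟨?_, fun i hi => ?_⟩
  · rw [hW, List.count_append, hs, h0 a (Or.inl rfl)]
    simp [hab.symm, hac.symm, had.symm]
  · rw [hW, List.count_append]
    cases i with
    | none =>
      rw [hn]
      simp
    | some i =>
      rw [hs]
      have hia : i ≠ a := fun h => hi (by rw [h])
      by_cases hib : i = b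
      · subst hib
        rw [h0 i (by tauto)]
        simp [hab, hbc.symm, hbd.symm]
      by_cases hic : i = c
      · subst hic
        rw [h0 i (by tauto)]
        simp [hac, hbc, hcd.symm]
      by_cases hid : i = d
      · subst hid
        rw [h0 i (by tauto)]
        simp [had, hbd, hcd]
      rw [h2 i hia hib hic hid]
      simp [Ne.symm hia, Ne.symm hib, Ne.symm hic, Ne.symm hid]

section main

variable {ι A : Type} [DecidableEq ι] [NonUnitalRing A] {a b c d : ι} {x : ι → A}
  {κ κ' : Option ι → Option ι → A} {R : List ι}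

/-- (1), first half: the words `b b R c` followed by `a a d`, `a d a`, `d a a`. -/
private theorem K22_one (hWG : St_WG) (hab : a ≠ b) (hac : a ≠ c)
    (had : a ≠ d) (hbc : b ≠ c) (hbd : b ≠ d) (hcd : c ≠ d)
    (h1 : ∀ i ∈ R, i ≠ a ∧ i ≠ b ∧ i ≠ c ∧ i ≠ d)
    (h2 : ∀ i, i ≠ a → i ≠ b → i ≠ c → i ≠ d → R.count i = 1)
    (hκ : K22_D a b x κ) (hκ' : K22_D b a x κ') :
    κ (some a) (some a) = κ (some d) (some a) ∧
    κ (some c) (some a) + κ (some a) (some d) = κ (some a) (some a) := by
  have h1' : ∀ i ∈ R, i ≠ b ∧ i ≠ a ∧ i ≠ c ∧ i ≠ d := fun i hi =>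
    ⟨(h1 i hi).2.1, (h1 i hi).1, (h1 i hi).2.2⟩
  have h2' : ∀ i, i ≠ b → i ≠ a → i ≠ c → i ≠ d → R.count i = 1 := fun i u v => h2 i v u
  -- the values with the letter `b`
  have kb : ∀ T : List (Option ι), (T = [some a, none, some d] ∨ T = [some a, some d, none] ∨
      T = [some d, some a, none]) →
      wp (((([some b, some b] ++ R.map some) ++ some c :: T).map (K22_pi a)).map x) =
        adj κ' (([some b, some b] ++ R.map some) ++ [some c]) := by
    intro T hT
    obtain ⟨c1, c2⟩ := K22_cnt hab.symm hbc hbd hac had hcd h1' h2'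
      (([some b, some b] ++ R.map some) ++ some c :: T) (by
        intro i
        rcases hT with rfl | rfl | rfl <;>
        · simp only [List.count_append, List.count_cons, List.count_nil]
          omega)
    rw [hκ'.v _ c1 c2, hWG.2.2.1 _ _ κ' (some c) ([some b, some b] ++ R.map some) T]
    have hz : adj κ' (some c :: T) = 0 := by
      apply K22_zero
      have hm : ∀ i ∈ some c :: T, i ≠ some b := by
        intro i hi hib
        subst hib
        rcases hT with rfl | rfl | rfl <;> simp [hbc, hbd, hab.symm] at hi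
      exact fun i hi j hj => hκ'.z i j (hm i hi) (hm j hj)
    rw [hz, add_zero]
  -- the values with the letter `a`
  have ka : ∀ T : List (Option ι), (T = [some a, some a, some d] ∨ T = [some a, some d, some a] ∨
      T = [some d, some a, some a]) →
      wp (((([some b, none] ++ R.map some) ++ some c :: T).map (K22_pi b)).map x) =
        adj κ (some c :: T) := by
    intro T hT
    obtain ⟨c1, c2⟩ := K22_cnt hab hac had hbc hbd hcd h1 h2
      (([some b, none] ++ R.map some) ++ some c :: T) (by
        intro i
        rcases hT with rfl | rfl | rfl <;>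
        · simp only [List.count_append, List.count_cons, List.count_nil]
          omega)
    rw [hκ.v _ c1 c2, hWG.2.2.1 _ _ κ (some c) ([some b, none] ++ R.map some) T]
    have hz : adj κ (([some b, none] ++ R.map some) ++ [some c]) = 0 := by
      apply K22_zero
      have hm : ∀ i ∈ ([some b, none] ++ R.map some) ++ [some c], i ≠ some a := by
        intro i hi hia
        subst hia
        simp only [List.mem_append, List.mem_cons, List.mem_map, List.not_mem_nil,
          Option.some.injEq, exists_eq_right, or_false, reduceCtorEq] at hi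
        rcases hi with (hi | hi) | hi
        · exact hab hi
        · exact (h1 a hi).1 rfl
        · exact hac hi
      exact fun i hi j hj => hκ.z i j (hm i hi) (hm j hj)
    rw [hz, zero_add]
  have e1 := (ka _ (Or.inl rfl)).symm.trans ((show _ = _ by
    simp only [List.map_append, List.map_cons, List.map_nil, K22_map, K22_pi_none,
      K22_pi_some]).trans
      (kb _ (Or.inl rfl)))
  have e2 := (ka _ (Or.inr (Or.inl rfl))).symm.trans ((show _ = _ by
    simp only [List.map_append, List.map_cons, List.map_nil, K22_map, K22_pi_none,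
      K22_pi_some]).trans
      (kb _ (Or.inr (Or.inl rfl))))
  have e3 := (ka _ (Or.inr (Or.inr rfl))).symm.trans ((show _ = _ by
    simp only [List.map_append, List.map_cons, List.map_nil, K22_map, K22_pi_none,
      K22_pi_some]).trans
      (kb _ (Or.inr (Or.inr rfl))))
  have e12 := e1.trans e2.symm
  have e23 := e2.trans e3.symm
  have hcd0 : κ (some c) (some d) = 0 := hκ.z _ _ (by simpa using hac.symm) (by simpa using had.symm)
  simp only [adj, add_zero, hcd0, zero_add] at e12 e23
  refine ⟨?_, ?_⟩
  · have e4 : (κ (some c) (some a) + κ (some a) (some d)) + κ (some a) (some a) =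
        (κ (some c) (some a) + κ (some a) (some d)) + κ (some d) (some a) := by
      calc _ = κ (some c) (some a) + (κ (some a) (some a) + κ (some a) (some d)) := by abel
        _ = κ (some c) (some a) + (κ (some a) (some d) + κ (some d) (some a)) := e12
        _ = _ := by abel
    exact add_left_cancel e4
  · have e4 : κ (some d) (some a) + (κ (some c) (some a) + κ (some a) (some d)) =
        κ (some d) (some a) + κ (some a) (some a) := by
      calc _ = κ (some c) (some a) + (κ (some a) (some d) + κ (some d) (some a)) := by abel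
        _ = _ := e23
    exact add_left_cancel e4

/-- (1), second half: the words `d a a`, `a d a` followed by `c R b b`. -/
private theorem K22_two (hWG : St_WG) (hab : a ≠ b) (hac : a ≠ c)
    (had : a ≠ d) (hbc : b ≠ c) (hbd : b ≠ d) (hcd : c ≠ d)
    (h1 : ∀ i ∈ R, i ≠ a ∧ i ≠ b ∧ i ≠ c ∧ i ≠ d)
    (h2 : ∀ i, i ≠ a → i ≠ b → i ≠ c → i ≠ d → R.count i = 1)
    (hκ : K22_D a b x κ) (hκ' : K22_D b a x κ') :
    κ (some a) (some a) = κ (some a) (some d) := by
  have h1' : ∀ i ∈ R, i ≠ b ∧ i ≠ a ∧ i ≠ c ∧ i ≠ d := fun i hi =>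
    ⟨(h1 i hi).2.1, (h1 i hi).1, (h1 i hi).2.2⟩
  have h2' : ∀ i, i ≠ b → i ≠ a → i ≠ c → i ≠ d → R.count i = 1 := fun i u v => h2 i v u
  have kb : ∀ T : List (Option ι), (T = [some d, some a, none] ∨ T = [some a, some d, none]) →
      wp (((T ++ some c :: (R.map some ++ [some b, some b])).map (K22_pi a)).map x) =
        adj κ' (some c :: (R.map some ++ [some b, some b])) := by
    intro T hT
    obtain ⟨c1, c2⟩ := K22_cnt hab.symm hbc hbd hac had hcd h1' h2'
      (T ++ some c :: (R.map some ++ [some b, some b])) (by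
        intro i
        rcases hT with rfl | rfl <;>
        · simp only [List.count_append, List.count_cons, List.count_nil]
          omega)
    rw [hκ'.v _ c1 c2, hWG.2.2.1 _ _ κ' (some c) T]
    have hz : adj κ' (T ++ [some c]) = 0 := by
      apply K22_zero
      have hm : ∀ i ∈ T ++ [some c], i ≠ some b := by
        intro i hi hib
        subst hib
        rcases hT with rfl | rfl <;> simp [hbc, hbd, hab.symm] at hi
      exact fun i hi j hj => hκ'.z i j (hm i hi) (hm j hj)
    rw [hz, zero_add]
  have ka : ∀ T : List (Option ι), (T = [some d, some a, some a] ∨ T = [some a, some d, some a]) →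
      wp (((T ++ some c :: (R.map some ++ [some b, none])).map (K22_pi b)).map x) =
        adj κ (T ++ [some c]) := by
    intro T hT
    obtain ⟨c1, c2⟩ := K22_cnt hab hac had hbc hbd hcd h1 h2
      (T ++ some c :: (R.map some ++ [some b, none])) (by
        intro i
        rcases hT with rfl | rfl <;>
        · simp only [List.count_append, List.count_cons, List.count_nil]
          omega)
    rw [hκ.v _ c1 c2, hWG.2.2.1 _ _ κ (some c) T]
    have hz : adj κ (some c :: (R.map some ++ [some b, none])) = 0 := by
      apply K22_zero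
      have hm : ∀ i ∈ some c :: (R.map some ++ [some b, none]), i ≠ some a := by
        intro i hi hia
        subst hia
        simp only [List.mem_append, List.mem_cons, List.mem_map, List.not_mem_nil,
          Option.some.injEq, exists_eq_right, or_false, reduceCtorEq] at hi
        rcases hi with hi | hi | hi
        · exact hac hi
        · exact (h1 a hi).1 rfl
        · exact hab hi
      exact fun i hi j hj => hκ.z i j (hm i hi) (hm j hj)
    rw [hz, add_zero]
  have e1 := (ka _ (Or.inl rfl)).symm.trans ((show _ = _ by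
    simp only [List.map_append, List.map_cons, List.map_nil, K22_map, K22_pi_none,
      K22_pi_some]).trans
      (kb _ (Or.inl rfl)))
  have e2 := (ka _ (Or.inr rfl)).symm.trans ((show _ = _ by
    simp only [List.map_append, List.map_cons, List.map_nil, K22_map, K22_pi_none,
      K22_pi_some]).trans
      (kb _ (Or.inr rfl)))
  have e12 := e1.trans e2.symm
  simp only [List.cons_append, List.nil_append, adj, add_zero] at e12
  have e4 : (κ (some d) (some a) + κ (some a) (some c)) + κ (some a) (some a) =
      (κ (some d) (some a) + κ (some a) (some c)) + κ (some a) (some d) := by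
    calc _ = κ (some d) (some a) + (κ (some a) (some a) + κ (some a) (some c)) := by abel
      _ = κ (some a) (some d) + (κ (some d) (some a) + κ (some a) (some c)) := e12
      _ = _ := by abel
  exact add_left_cancel e4

/-- (2): the two words for `a b c b d a R` and for `b a c b d a R`. -/
private theorem K22_three (hab : a ≠ b) (hac : a ≠ c)
    (had : a ≠ d) (hbc : b ≠ c) (hbd : b ≠ d) (hcd : c ≠ d)
    (h1 : ∀ i ∈ R, i ≠ a ∧ i ≠ b ∧ i ≠ c ∧ i ≠ d)
    (h2 : ∀ i, i ≠ a → i ≠ b → i ≠ c → i ≠ d → R.count i = 1)
    (hκ : K22_D a b x κ) (hE : κ (some a) (some a) = 0)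
    (hP : ∀ j, j ≠ a → j ≠ b → κ (some a) (some j) = 0)
    (hQ : ∀ j, j ≠ a → j ≠ b → κ (some j) (some a) = 0) :
    κ (some a) none = κ (some a) (some b) ∧ κ none (some a) = κ (some b) (some a) := by
  have hT : adj κ (some a :: R.map some) = 0 := by
    apply K22_zero
    have hm : ∀ i ∈ some a :: R.map some, i = some a ∨ ∃ j, i = some j ∧ j ≠ a ∧ j ≠ b := by
      intro i hi
      rw [List.mem_cons, List.mem_map] at hi
      rcases hi with hi | ⟨j, hj, rfl⟩
      · exact Or.inl hi
      · exact Or.inr ⟨j, rfl, (h1 j hj).1, (h1 j hj).2.1⟩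
    intro i hi j hj
    rcases hm i hi with rfl | ⟨i', rfl, hi1, hi2⟩
    · rcases hm j hj with rfl | ⟨j', rfl, hj1, hj2⟩
      · exact hE
      · exact hP j' hj1 hj2
    · rcases hm j hj with rfl | ⟨j', rfl, hj1, hj2⟩
      · exact hQ i' hi1 hi2
      · exact hκ.z _ _ (by simpa using hi1) (by simpa using hj1)
  have z1 : κ none (some c) = 0 := hκ.z _ _ (by simp) (by simpa using hac.symm)
  have z2 : κ (some c) (some b) = 0 := hκ.z _ _ (by simpa using hac.symm) (by simpa using hab.symm)
  have z3 : κ (some b) (some d) = 0 := hκ.z _ _ (by simpa using hab.symm) (by simpa using had.symm)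
  have z4 : κ (some b) (some c) = 0 := hκ.z _ _ (by simpa using hab.symm) (by simpa using hac.symm)
  have z5 : κ (some c) none = 0 := hκ.z _ _ (by simpa using hac.symm) (by simp)
  have z6 : κ none (some d) = 0 := hκ.z _ _ (by simp) (by simpa using had.symm)
  have z7 : κ (some d) (some a) = 0 := hQ d had.symm hbd.symm
  have z8 : κ (some a) (some c) = 0 := hP c hac.symm hbc.symm
  have val : ∀ T : List (Option ι), (T = [some a, none, some c, some b, some d, some a] ∨
      T = [some a, some b, some c, none, some d, some a] ∨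
      T = [none, some a, some c, some b, some d, some a] ∨
      T = [some b, some a, some c, none, some d, some a]) →
      wp (((T ++ R.map some).map (K22_pi b)).map x) = adj κ (T ++ R.map some) := by
    intro T hT
    obtain ⟨c1, c2⟩ := K22_cnt hab hac had hbc hbd hcd h1 h2 (T ++ R.map some) (by
        intro i
        rcases hT with rfl | rfl | rfl | rfl <;>
        · simp only [List.count_append, List.count_cons, List.count_nil]
          omega)
    exact hκ.v _ c1 c2
  have e1 := val _ (Or.inl rfl)
  have e2 := val _ (Or.inr (Or.inl rfl))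
  have e3 := val _ (Or.inr (Or.inr (Or.inl rfl)))
  have e4 := val _ (Or.inr (Or.inr (Or.inr rfl)))
  simp only [List.map_cons, K22_map, K22_pi_none, K22_pi_some,
    List.cons_append, List.nil_append, adj, hT, z1, z2, z3, z4, z5, z6, z7, z8, add_zero]
    at e1 e2 e3 e4
  exact ⟨e1.symm.trans e2, e3.symm.trans e4⟩

end main

theorem thm_K22 : St_K2 → St_WG → St_K22 := by
  intro hK hWG A _ hN ι _ _ h4 a b x hab
  obtain ⟨κ, hκ⟩ := K22_K hK hN h4 a b x
  obtain ⟨κ', hκ'⟩ := K22_K hK hN h4 b a x
  -- for two other letters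
  have key : ∀ c d, a ≠ c → a ≠ d → b ≠ c → b ≠ d → c ≠ d →
      κ (some a) (some a) = 0 ∧ κ (some a) (some c) = 0 ∧ κ (some c) (some a) = 0 := by
    intro c d hac had hbc hbd hcd
    obtain ⟨R, h1, h2⟩ := K22_R a b c d
    have h1' : ∀ i ∈ R, i ≠ a ∧ i ≠ b ∧ i ≠ d ∧ i ≠ c := fun i hi =>
      ⟨(h1 i hi).1, (h1 i hi).2.1, (h1 i hi).2.2.2, (h1 i hi).2.2.1⟩
    have h2' : ∀ i, i ≠ a → i ≠ b → i ≠ d → i ≠ c → R.count i = 1 := fun i u v w z =>
      h2 i u v z w
    obtain ⟨p1, p2⟩ := K22_one hWG hab hac had hbc hbd hcd h1 h2 hκ hκ'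
    obtain ⟨q1, q2⟩ := K22_one hWG hab had hac hbd hbc hcd.symm h1' h2' hκ hκ'
    have r1 := K22_two hWG hab hac had hbc hbd hcd h1 h2 hκ hκ'
    -- `E = Q c = Q d`, so `P d = 0`, `P c = 0`
    have pd : κ (some a) (some d) = 0 := by
      rw [← q1] at p2
      exact left_eq_add.1 p2.symm
    have pc : κ (some a) (some c) = 0 := by
      rw [← p1] at q2
      exact left_eq_add.1 q2.symm
    have e0 : κ (some a) (some a) = 0 := r1.trans pd
    exact ⟨e0, pc, q1.symm.trans e0⟩
  have hex : ∀ c, a ≠ c → b ≠ c → ∃ d, a ≠ d ∧ b ≠ d ∧ c ≠ d := by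
    intro c _ _
    have hcard : ({a, b, c} : Finset ι).card ≤ 3 := Finset.card_le_three
    obtain ⟨d, hd⟩ := Finset.exists_mem_notMem_of_card_lt_card
      (s := ({a, b, c} : Finset ι)) (t := Finset.univ) (by rw [Finset.card_univ]; omega)
    have hd2 := hd.2
    simp only [Finset.mem_insert, Finset.mem_singleton, not_or] at hd2
    exact ⟨d, Ne.symm hd2.1, Ne.symm hd2.2.1, Ne.symm hd2.2.2⟩
  obtain ⟨c, hac, hbc⟩ : ∃ c, a ≠ c ∧ b ≠ c := by
    obtain ⟨d, hd⟩ := Finset.exists_mem_notMem_of_card_lt_card
      (s := ({a, b} : Finset ι)) (t := Finset.univ) (by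
        have : ({a, b} : Finset ι).card ≤ 2 := Finset.card_le_two
        rw [Finset.card_univ]; omega)
    have hd2 := hd.2
    simp only [Finset.mem_insert, Finset.mem_singleton, not_or] at hd2
    exact ⟨d, Ne.symm hd2.1, Ne.symm hd2.2⟩
  obtain ⟨d, had, hbd, hcd⟩ := hex c hac hbc
  have hE : κ (some a) (some a) = 0 := (key c d hac had hbc hbd hcd).1
  have hP : ∀ j, j ≠ a → j ≠ b → κ (some a) (some j) = 0 := by
    intro j hja hjb
    obtain ⟨k, k1, k2, k3⟩ := hex j hja.symm hjb.symm
    exact (key j k hja.symm k1 hjb.symm k2 k3).2.1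
  have hQ : ∀ j, j ≠ a → j ≠ b → κ (some j) (some a) = 0 := by
    intro j hja hjb
    obtain ⟨k, k1, k2, k3⟩ := hex j hja.symm hjb.symm
    exact (key j k hja.symm k1 hjb.symm k2 k3).2.2
  obtain ⟨R, h1, h2⟩ := K22_R a b c d
  obtain ⟨n1, n2⟩ := K22_three hab hac had hbc hbd hcd h1 h2 hκ hE hP hQ
  obtain ⟨μ, hμ⟩ : ∃ μ : ι → ι → A, μ = fun i j => if i = a ∧ j = b then κ (some a) (some b)
    else if i = b ∧ j = a then κ (some b) (some a) else 0 := ⟨_, rfl⟩
  refine ⟨μ, ?_, ?_, ?_⟩
  · intro i j
    rw [hμ]
    dsimp only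
    split_ifs
    · exact hWG.2.2.2.2.2 A ι (Option ι) x (K22_pi b) _ (hκ.wg _ _)
    · exact hWG.2.2.2.2.2 A ι (Option ι) x (K22_pi b) _ (hκ.wg _ _)
    · exact AddSubgroup.zero_mem _
  · intro i j u v
    rw [hμ]
    dsimp only
    rw [if_neg u, if_neg v]
  · intro w wa wb wo
    obtain ⟨W, m0, m1, m2, m3⟩ := K22_lift b w (by omega)
    have e1 := hκ.v W (by rw [m3 a hab]; exact wa) (by
      intro i hi
      cases i with
      | none => exact m1
      | some i =>
        by_cases hib : i = b
        · subst hib
          rw [m2, wb]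
        · rw [m3 i hib]
          exact wo i (fun h => hi (by rw [h])) hib)
    rw [m0] at e1
    rw [e1]
    have e2 : κ = fun i j => μ (K22_pi b i) (K22_pi b j) := by
      funext i j
      rw [hμ]
      have hpi : ∀ i : Option ι, i ≠ some a → K22_pi b i ≠ a := by
        intro i hi
        cases i with
        | none => exact hab.symm
        | some i => exact fun h => hi (by rw [← h]; rfl)
      dsimp only
      by_cases hi : i = some a
      · subst hi
        rw [K22_pi_some]
        by_cases hj : j = some a
        · subst hj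
          rw [K22_pi_some, if_neg (fun h => hab h.2), if_neg (fun h => hab h.1), hE]
        · cases j with
          | none => rw [K22_pi_none, if_pos ⟨rfl, rfl⟩, n1]
          | some j =>
            rw [K22_pi_some]
            have hja : j ≠ a := fun h => hj (by rw [h])
            by_cases hjb : j = b
            · subst hjb
              rw [if_pos ⟨rfl, rfl⟩]
            · rw [if_neg (fun h => hjb h.2), if_neg (fun h => hab h.1), hP j hja hjb]
      · by_cases hj : j = some a
        · subst hj
          rw [K22_pi_some]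
          rw [if_neg (fun h => hpi i hi h.1)]
          cases i with
          | none => rw [K22_pi_none, if_pos ⟨rfl, rfl⟩, n2]
          | some i =>
            rw [K22_pi_some]
            have hia : i ≠ a := fun h => hi (by rw [h])
            by_cases hib : i = b
            · subst hib
              rw [if_pos ⟨rfl, rfl⟩]
            · rw [if_neg (fun h => hib h.1), hQ i hia hib]
        · rw [if_neg (fun h => hpi i hi h.1), if_neg (fun h => hpi j hj h.2), hκ.z i j hi hj]
    rw [e2, ← hWG.2.1 ι (Option ι) A μ (K22_pi b) W, m0]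

end Pool.Agent.CRS
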