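import Pool.Agent.CRS.StA

/-!
# CRS, module K3: words with one letter three times

Helper74, for MP_1bb14d_al.
-/

set_option autoImplicit false

namespace Pool.Agent.CRS

open Pool.Agent.CRR Pool.Agent.CRN Pool.Agent.CRK Pool.Agent.CRL Pool.Agent.CRM Pool.Agent.CRP
open Pool.Agent.CRQ

private theorem K3_zero {ι A : Type} [AddCommMonoid A] (κ : ι → ι → A) (s : ι)
    (h2 : ∀ i j, i ≠ s → j ≠ s → κ i j = 0) : ∀ L : List ι, s ∉ L → adj κ L = 0
  | [], _ => rfl
  | [_], _ => rfl
  | b :: c :: l, h => by
    have h3 : s ∉ c :: l := fun h4 => h (List.mem_cons_of_mem _ h4)
    have h4 := K3_zero κ s h2 (c :: l) h3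
    show κ b c + adj κ (c :: l) = 0
    rw [h4, h2 b c (fun e => h (e ▸ List.mem_cons_self))
      (fun e => h3 (e ▸ List.mem_cons_self)), add_zero]

private theorem K3_some {ι A : Type} [AddCommMonoid A] (κ : Option ι → Option ι → A)
    (κ' : ι → ι → A) (h : ∀ i j, κ (some i) (some j) = κ' i j) :
    ∀ v : List ι, adj κ (v.map some) = adj κ' v
  | [] => rfl
  | [_] => rfl
  | b :: c :: l => by
    have h4 := K3_some κ κ' h (c :: l)
    show κ (some b) (some c) + adj κ ((c :: l).map some) = κ' b c + adj κ' (c :: l)
    rw [h4, h]

private theorem K3_none {ι A : Type} [AddCommMonoid A] (κ : Option ι → Option ι → A)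
    (κ' : ι → ι → A) (a : ι) (h : ∀ i j, κ (some i) (some j) = κ' i j)
    (h1 : ∀ j, κ none (some j) = κ' a j) (h2 : ∀ i, κ (some i) none = κ' i a) (v : List ι) :
    ∀ u : List ι, adj κ (u.map some ++ none :: v.map some) = adj κ' (u ++ a :: v)
  | [] => by
    cases v with
    | nil => rfl
    | cons b l =>
      show κ none (some b) + adj κ ((b :: l).map some) = κ' a b + adj κ' (b :: l)
      rw [K3_some κ κ' h, h1]
  | [c] => by
    have h4 := K3_none κ κ' a h h1 h2 v []
    show κ (some c) none + adj κ (none :: v.map some) = κ' c a + adj κ' (a :: v)
    rw [h2]
    exact congrArg _ h4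
  | c :: d :: u => by
    have h4 := K3_none κ κ' a h h1 h2 v (d :: u)
    show κ (some c) (some d) + adj κ ((d :: u).map some ++ none :: v.map some) =
      κ' c d + adj κ' ((d :: u) ++ a :: v)
    rw [h4, h]

private theorem K3_count_map {ι : Type} [DecidableEq ι] (i : ι) (v : List ι) :
    (v.map some).count (some i) = v.count i :=
  List.count_map_of_injective v some (Option.some_injective ι) i

private theorem K3_count_none {ι : Type} [DecidableEq ι] (v : List ι) :
    (v.map some).count (none : Option ι) = 0 := by
  rw [List.count_eq_zero]
  simp

private theorem K3_inst {ι : Type} [DecidableEq ι] (i : Option ι) (L : List (Option ι)) :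
    @List.count (Option ι) instBEqOfDecidableEq i L = List.count i L := by
  have e : (Option.instBEq : BEq (Option ι)) = instBEqOfDecidableEq :=
    lawful_beq_subsingleton _ _
  rw [e]

theorem thm_K3 : St_K2 → St_WG → St_K3 := by
  intro hK2 hWG A _ hA ι _ _ hcard a x
  obtain ⟨κ, hκ1, hκ2, hκ3⟩ := hK2 A hA (Option ι) (by rw [Fintype.card_option]; omega)
    (some a) (fun o => x (o.getD a))
  have hW3 := hWG.2.2.1 (Option ι) A κ
  have hn1 : ∀ j, j ≠ a → κ none (some j) = 0 := fun j hj =>
    hκ2 _ _ (by simp) (by simpa using hj)
  have hn2 : ∀ j, j ≠ a → κ (some j) none = 0 := fun j hj =>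
    hκ2 _ _ (by simpa using hj) (by simp)
  have hz := K3_zero κ (some a) hκ2
  -- the words with three marked letters
  have base : ∀ c d f : ι, c ≠ a → d ≠ a → f ≠ a → c ≠ d → c ≠ f → d ≠ f →
      ∃ R : List (Option ι), some a ∉ R ∧ ∀ W : List (Option ι),
        W.Perm ([none, some a, some a, some c, some d, some f] ++ R) →
          wp (W.map fun o => x (o.getD a)) = adj κ W := by
    intro c d f hc hd hf hcd hcf hdf
    refine ⟨(Finset.univ \ {none, some a, some c, some d, some f} :
      Finset (Option ι)).toList, by simp, ?_⟩
    intro W hW
    apply hκ3
    · rw [K3_inst, hW.count_eq, List.count_append]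
      have h0 : List.count (some a) (Finset.univ \ {none, some a, some c, some d, some f} :
          Finset (Option ι)).toList = 0 := by
        rw [List.count_eq_zero]
        simp
      rw [h0]
      simp [hc, hd, hf]
    · intro i hi
      rw [K3_inst, hW.count_eq, List.count_append]
      by_cases hm : i ∈ ({none, some a, some c, some d, some f} : Finset (Option ι))
      · have h0 : List.count i (Finset.univ \ {none, some a, some c, some d, some f} :
            Finset (Option ι)).toList = 0 := by
          rw [List.count_eq_zero, Finset.mem_toList, Finset.mem_sdiff]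
          exact fun h => h.2 hm
        rw [h0]
        simp only [Finset.mem_insert, Finset.mem_singleton] at hm
        rcases hm with rfl | rfl | rfl | rfl | rfl
        · simp
        · exact absurd rfl hi
        · simp [hc.symm, hcd.symm, hcf.symm]
        · simp [hd.symm, hcd, hdf.symm]
        · simp [hf.symm, hcf, hdf]
      · have h0 : List.count i (Finset.univ \ {none, some a, some c, some d, some f} :
            Finset (Option ι)).toList = 1 := by
          apply List.count_eq_one_of_mem (Finset.nodup_toList _)
          rw [Finset.mem_toList, Finset.mem_sdiff]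
          exact ⟨Finset.mem_univ _, hm⟩
        rw [h0]
        simp only [Finset.mem_insert, Finset.mem_singleton, not_or] at hm
        have h1 : List.count i [none, some a, some a, some c, some d, some f] = 0 := by
          rw [List.count_eq_zero]
          simp [hm.1, hm.2.1, hm.2.2.1, hm.2.2.2.1, hm.2.2.2.2]
        rw [h1]
  have step : ∀ c d f : ι, c ≠ a → d ≠ a → f ≠ a → c ≠ d → c ≠ f → d ≠ f →
      κ (some a) (some c) = κ (some c) (some a) + κ (some a) (some d) ∧
      κ (some a) (some c) = κ (some f) (some a) := by
    intro c d f hc hd hf hcd hcf hdf
    obtain ⟨R, hR, hB⟩ := base c d f hc hd hf hcd hcf hdf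
    have hfR : adj κ (some f :: R) = 0 := hz _ (by
      simp only [List.mem_cons, not_or]
      exact ⟨by simpa using hf.symm, hR⟩)
    have hRc : adj κ (R ++ [some c]) = 0 := hz _ (by
      simp only [List.mem_append, List.mem_singleton, not_or]
      exact ⟨hR, by simpa using hc.symm⟩)
    have v1 := hB ([none, some c, some a, some d, some a, some f] ++ R) (by
      rw [List.perm_iff_count]
      intro i
      simp only [List.count_cons, List.count_append, List.count_nil]
      ring)
    have v2 := hB ([some a, some c, none, some d, some a, some f] ++ R) (by
      rw [List.perm_iff_count]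
      intro i
      simp only [List.count_cons, List.count_append, List.count_nil]
      ring)
    have v3 := hB ([some a, some c, some a, some d, none, some f] ++ R) (by
      rw [List.perm_iff_count]
      intro i
      simp only [List.count_cons, List.count_append, List.count_nil]
      ring)
    have v4 := hB (R ++ [some c, some a, some d, none, some f, some a]) (by
      rw [List.perm_iff_count]
      intro i
      simp only [List.count_cons, List.count_append, List.count_nil]
      ring)
    have v5 := hB (R ++ [some c, some a, some d, some a, some f, none]) (by
      rw [List.perm_iff_count]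
      intro i
      simp only [List.count_cons, List.count_append, List.count_nil]
      ring)
    have e1 : adj κ ([none, some c, some a, some d, some a, some f] ++ R) =
        κ (some c) (some a) + κ (some a) (some d) + κ (some d) (some a) +
          κ (some a) (some f) := by
      show κ none (some c) + (κ (some c) (some a) + (κ (some a) (some d) +
        (κ (some d) (some a) + (κ (some a) (some f) + adj κ (some f :: R))))) = _
      rw [hfR, hn1 c hc]
      abel
    have e2 : adj κ ([some a, some c, none, some d, some a, some f] ++ R) =
        κ (some a) (some c) + κ (some d) (some a) + κ (some a) (some f) := by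
      show κ (some a) (some c) + (κ (some c) none + (κ none (some d) +
        (κ (some d) (some a) + (κ (some a) (some f) + adj κ (some f :: R))))) = _
      rw [hfR, hn1 d hd, hn2 c hc]
      abel
    have e3 : adj κ ([some a, some c, some a, some d, none, some f] ++ R) =
        κ (some a) (some c) + κ (some c) (some a) + κ (some a) (some d) := by
      show κ (some a) (some c) + (κ (some c) (some a) + (κ (some a) (some d) +
        (κ (some d) none + (κ none (some f) + adj κ (some f :: R))))) = _
      rw [hfR, hn1 f hf, hn2 d hd]
      abel
    have e4 : adj κ (R ++ [some c, some a, some d, none, some f, some a]) =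
        κ (some c) (some a) + κ (some a) (some d) + κ (some f) (some a) := by
      rw [hW3 (some c) R, hRc]
      show 0 + (κ (some c) (some a) + (κ (some a) (some d) + (κ (some d) none +
        (κ none (some f) + (κ (some f) (some a) + 0))))) = _
      rw [hn1 f hf, hn2 d hd]
      abel
    have e5 : adj κ (R ++ [some c, some a, some d, some a, some f, none]) =
        κ (some c) (some a) + κ (some a) (some d) + κ (some d) (some a) +
          κ (some a) (some f) := by
      rw [hW3 (some c) R, hRc]
      show 0 + (κ (some c) (some a) + (κ (some a) (some d) + (κ (some d) (some a) +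
        (κ (some a) (some f) + (κ (some f) none + 0))))) = _
      rw [hn2 f hf]
      abel
    rw [e1] at v1
    rw [e2] at v2
    rw [e3] at v3
    rw [e4] at v4
    rw [e5] at v5
    have m12 : List.map (fun o => x (o.getD a))
        ([none, some c, some a, some d, some a, some f] ++ R) = List.map (fun o => x (o.getD a))
        ([some a, some c, none, some d, some a, some f] ++ R) := rfl
    have m13 : List.map (fun o => x (o.getD a))
        ([none, some c, some a, some d, some a, some f] ++ R) = List.map (fun o => x (o.getD a))
        ([some a, some c, some a, some d, none, some f] ++ R) := rfl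
    have m45 : List.map (fun o => x (o.getD a))
        (R ++ [some c, some a, some d, none, some f, some a]) = List.map (fun o => x (o.getD a))
        (R ++ [some c, some a, some d, some a, some f, none]) := by
      simp
    rw [m12, v2] at v1
    rw [← m13, m12, v2] at v3
    rw [m45, v5] at v4
    -- v1 : P c + Q d + P f = Q c + P d + Q d + P f
    have w1 : κ (some a) (some c) = κ (some c) (some a) + κ (some a) (some d) := by
      have : κ (some a) (some c) + (κ (some d) (some a) + κ (some a) (some f)) =
          κ (some c) (some a) + κ (some a) (some d) +
            (κ (some d) (some a) + κ (some a) (some f)) := by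
        rw [← add_assoc, v1]
        abel
      exact add_right_cancel this
    refine ⟨w1, ?_⟩
    -- v4 : Q c + P d + Q d + P f = Q c + P d + Q f
    have w4 : κ (some d) (some a) + κ (some a) (some f) = κ (some f) (some a) := by
      have : κ (some c) (some a) + κ (some a) (some d) +
          (κ (some d) (some a) + κ (some a) (some f)) =
          κ (some c) (some a) + κ (some a) (some d) + κ (some f) (some a) := by
        rw [← v4]
        abel
      exact add_left_cancel this
    -- v3 : P c + Q d + P f = P c + Q c + P d
    have w3 : κ (some d) (some a) + κ (some a) (some f) =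
        κ (some c) (some a) + κ (some a) (some d) := by
      have : κ (some a) (some c) + (κ (some d) (some a) + κ (some a) (some f)) =
          κ (some a) (some c) + (κ (some c) (some a) + κ (some a) (some d)) := by
        rw [← add_assoc, v3]
        abel
      exact add_left_cancel this
    rw [w1, ← w3, w4]
  have pq : ∀ c d f : ι, c ≠ a → d ≠ a → f ≠ a → c ≠ d → c ≠ f → d ≠ f →
      κ (some a) (some c) = 0 ∧ κ (some c) (some a) = 0 := by
    intro c d f hc hd hf hcd hcf hdf
    have s1 := step c d f hc hd hf hcd hcf hdf
    have s2 := step d c f hd hc hf hcd.symm hdf hcf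
    have s3 := step d f c hd hf hc hdf hcd.symm hcf.symm
    have t1 : κ (some a) (some d) = κ (some a) (some c) := by rw [s2.2, s1.2]
    have t2 : κ (some c) (some a) = κ (some a) (some c) := by rw [← s3.2, t1]
    have t3 := s1.1
    rw [t1, t2] at t3
    have t4 : κ (some a) (some c) = 0 := by
      have := add_left_cancel (a := κ (some a) (some c)) (b := 0)
        (c := κ (some a) (some c)) (by rw [add_zero]; exact t3)
      exact this.symm
    exact ⟨t4, by rw [t2, t4]⟩
  -- three other letters
  have hex : ∀ c : ι, c ≠ a → ∃ d f : ι, d ≠ a ∧ f ≠ a ∧ c ≠ d ∧ c ≠ f ∧ d ≠ f := by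
    intro c hc
    have h2 : 2 ≤ (Finset.univ \ {a, c} : Finset ι).card := by
      have h3 := Finset.le_card_sdiff ({a, c} : Finset ι) (Finset.univ : Finset ι)
      have h4 : ({a, c} : Finset ι).card ≤ 2 := Finset.card_le_two
      rw [Finset.card_univ] at h3
      omega
    have h5 : 1 < (Finset.univ \ {a, c} : Finset ι).card := by omega
    obtain ⟨d, hd, f, hf, hdf⟩ := Finset.one_lt_card.1 h5
    simp only [Finset.mem_sdiff, Finset.mem_univ, true_and, Finset.mem_insert,
      Finset.mem_singleton, not_or] at hd hf
    exact ⟨d, f, hd.1, hf.1, fun e => hd.2 e.symm, fun e => hf.2 e.symm, hdf⟩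
  have hP : ∀ c : ι, c ≠ a → κ (some a) (some c) = 0 ∧ κ (some c) (some a) = 0 := by
    intro c hc
    obtain ⟨d, f, hd, hf, hcd, hcf, hdf⟩ := hex c hc
    exact pq c d f hc hd hf hcd hcf hdf
  have hE : κ none (some a) = κ (some a) (some a) ∧ κ (some a) none = κ (some a) (some a) := by
    obtain ⟨c, hc⟩ : ∃ c : ι, c ≠ a := by
      have : 1 < Fintype.card ι := by omega
      have : Nontrivial ι := Fintype.one_lt_card_iff_nontrivial.1 this
      exact exists_ne a
    obtain ⟨d, f, hd, hf, hcd, hcf, hdf⟩ := hex c hc
    obtain ⟨R, hR, hB⟩ := base c d f hc hd hf hcd hcf hdf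
    have hdR : adj κ (some d :: some f :: R) = 0 := hz _ (by
      simp only [List.mem_cons, not_or]
      exact ⟨by simpa using hd.symm, by simpa using hf.symm, hR⟩)
    have v1 := hB ([none, some a, some c, some a, some d, some f] ++ R) (by
      rw [List.perm_iff_count]
      intro i
      simp only [List.count_cons, List.count_append, List.count_nil]
      ring)
    have v2 := hB ([some a, none, some c, some a, some d, some f] ++ R) (by
      rw [List.perm_iff_count]
      intro i
      simp only [List.count_cons, List.count_append, List.count_nil]
      ring)
    have v3 := hB ([some a, some a, some c, none, some d, some f] ++ R) (by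
      rw [List.perm_iff_count]
      intro i
      simp only [List.count_cons, List.count_append, List.count_nil]
      ring)
    have e1 : adj κ ([none, some a, some c, some a, some d, some f] ++ R) =
        κ none (some a) := by
      show κ none (some a) + (κ (some a) (some c) + (κ (some c) (some a) +
        (κ (some a) (some d) + adj κ (some d :: some f :: R)))) = _
      rw [hdR, (hP c hc).1, (hP c hc).2, (hP d hd).1]
      simp
    have e2 : adj κ ([some a, none, some c, some a, some d, some f] ++ R) =
        κ (some a) none := by
      show κ (some a) none + (κ none (some c) + (κ (some c) (some a) +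
        (κ (some a) (some d) + adj κ (some d :: some f :: R)))) = _
      rw [hdR, hn1 c hc, (hP c hc).2, (hP d hd).1]
      simp
    have e3 : adj κ ([some a, some a, some c, none, some d, some f] ++ R) =
        κ (some a) (some a) := by
      show κ (some a) (some a) + (κ (some a) (some c) + (κ (some c) none +
        (κ none (some d) + adj κ (some d :: some f :: R)))) = _
      rw [hdR, (hP c hc).1, hn2 c hc, hn1 d hd]
      simp
    rw [e1] at v1
    rw [e2] at v2
    rw [e3] at v3
    refine ⟨?_, ?_⟩
    · rw [← v1, ← v3]
      rfl
    · rw [← v2, ← v3]
      rfl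
  refine ⟨fun i j => if i = a ∧ j = a then κ (some a) (some a) else 0, ?_, ?_, ?_⟩
  · intro i j
    show (if i = a ∧ j = a then κ (some a) (some a) else 0) ∈ Wg x
    split_ifs
    · exact hWG.2.2.2.2.2 A ι (Option ι) x (fun o => o.getD a) _ (hκ1 _ _)
    · exact (Wg x).zero_mem
  · intro i j hij
    exact if_neg hij
  intro w hwa hwi
  have hmem : a ∈ w := by
    rw [← List.count_pos_iff]
    omega
  obtain ⟨u, v, rfl⟩ := List.append_of_mem hmem
  have hval := hκ3 (u.map some ++ none :: v.map some) (by
    rw [K3_inst, List.count_append, List.count_cons, K3_count_map, K3_count_map]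
    rw [List.count_append, List.count_cons_self] at hwa
    simp
    omega) (by
    intro i hi
    rw [K3_inst, List.count_append, List.count_cons]
    cases i with
    | none =>
      rw [K3_count_none, K3_count_none]
      simp
    | some i =>
      have hia : i ≠ a := fun e => hi (by rw [e])
      have h := hwi i hia
      rw [List.count_append, List.count_cons] at h
      rw [K3_count_map, K3_count_map]
      have h1 : ((a == i) : Bool) = false := by simpa using hia.symm
      rw [h1] at h
      simp at h ⊢
      omega)
  have hmap : List.map (fun o : Option ι => x (o.getD a)) (u.map some ++ none :: v.map some) =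
      (u ++ a :: v).map x := by
    rw [List.map_append, List.map_append, List.map_cons, List.map_cons, List.map_map,
      List.map_map]
    rfl
  rw [hmap] at hval
  rw [hval]
  apply K3_none
  · intro i j
    by_cases hi : i = a
    · by_cases hj : j = a
      · subst hi
        subst hj
        simp
      · subst hi
        simp [hj, (hP j hj).1]
    · by_cases hj : j = a
      · subst hj
        simp [hi, (hP i hi).2]
      · simp only [hi, hj, and_self, if_false]
        exact hκ2 _ _ (by simpa using hi) (by simpa using hj)
  · intro j
    by_cases hj : j = a
    · subst hj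
      simp [hE.1]
    · simp [hj, hn1 j hj]
  · intro i
    by_cases hi : i = a
    · subst hi
      simp [hE.2]
    · simp [hi, hn2 i hi]

end Pool.Agent.CRS
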