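import Pool.Agent.CRS.StI

/-!
Campaign CRS, module KPU: p = 2, the table entries as combinations of functions with the letter 0 twice.
-/

set_option autoImplicit false

namespace Pool.Agent.CRS

open Pool.Agent.CRR Pool.Agent.CRN Pool.Agent.CRK Pool.Agent.CRL Pool.Agent.CRM Pool.Agent.CRP
open Pool.Agent.CRQ

section

variable {A : Type} [NonUnitalRing A] {g : ℕ} (x : Fin g → A)

private theorem KPU_app (L L' : List (ℤ × List ℕ)) : Vg (L ++ L') x = Vg L x + Vg L' x := by
  unfold Vg ev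
  rw [List.map_append, List.sum_append]

private theorem KPU_flat (l : List ℕ) (F : ℕ → List (ℤ × List ℕ)) :
    Vg (l.flatMap F) x = (l.map fun j => Vg (F j) x).sum := by
  induction l with
  | nil => rfl
  | cons a l ih => rw [List.flatMap_cons, KPU_app, ih, List.map_cons, List.sum_cons]

private theorem KPU_sum (z : Fin g) (hz : z.val = 0) (F : ℕ → List (ℤ × List ℕ)) :
    Vg (((List.range g).erase 0).flatMap F) x = ∑ j : Fin g, if j = z then 0 else Vg (F j.val) x := by
  rw [KPU_flat, ← List.sum_toFinset _ (List.nodup_range.erase 0)]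
  have h1 : ((List.range g).erase 0).toFinset = (Finset.range g).filter fun j => j ≠ 0 := by
    ext i
    rw [List.mem_toFinset, List.nodup_range.mem_erase_iff, List.mem_range, Finset.mem_filter,
      Finset.mem_range]
    exact and_comm
  rw [h1, Finset.sum_filter, Finset.sum_range]
  refine Finset.sum_congr rfl fun j _ => ?_
  have h2 : j = z ↔ j.val = 0 := by rw [Fin.ext_iff, hz]
  by_cases h3 : j.val = 0
  · rw [if_neg (by simpa using h3), if_pos (h2.2 h3)]
  · rw [if_pos h3, if_neg (fun h => h3 (h2.1 h))]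

end

/-- **KPU.** -/
theorem thm_KPU : St_KPU := by
  classical
  intro K _ A _ _ g z c₁ c₂ c₃ c₄ c₅ hg hz x
  have h1 : Kc [c₁, c₂, c₃, c₄, c₅] [Xl g 0, SP g, SQ g, Pl g 1, Ql g 1] x =
      c₁ • Vg (Xl g 0) x + (c₂ • Vg (SP g) x + (c₃ • Vg (SQ g) x +
        (c₄ • Vg (Pl g 1) x + (c₅ • Vg (Ql g 1) x + 0)))) := rfl
  have hSP : Vg (SP g) x = ∑ j : Fin g, if j = z then 0 else Vg (Pm g 0 j.val) x :=
    KPU_sum x z hz (Pl g)
  have hSQ : Vg (SQ g) x = ∑ j : Fin g, if j = z then 0 else Vg (Qm g 0 j.val) x :=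
    KPU_sum x z hz (Ql g)
  obtain ⟨o, ho⟩ : ∃ o : Fin g, o.val = 1 := ⟨⟨1, by omega⟩, rfl⟩
  have hoz : o ≠ z := fun h => by
    rw [h, hz] at ho
    exact absurd ho (by norm_num)
  have hP1 : c₄ • Vg (Pl g 1) x = ∑ j : Fin g, if j = o then c₄ • Vg (Pm g 0 j.val) x else 0 := by
    rw [Finset.sum_ite_eq' Finset.univ o, if_pos (Finset.mem_univ o), ho]
    rfl
  have hQ1 : c₅ • Vg (Ql g 1) x = ∑ j : Fin g, if j = o then c₅ • Vg (Qm g 0 j.val) x else 0 := by
    rw [Finset.sum_ite_eq' Finset.univ o, if_pos (Finset.mem_univ o), ho]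
    rfl
  rw [h1, hSP, hSQ, hP1, hQ1, Finset.smul_sum, Finset.smul_sum]
  unfold Pu
  rw [hz, add_zero, ← Finset.sum_add_distrib, ← Finset.sum_add_distrib, ← Finset.sum_add_distrib]
  congr 1
  refine Finset.sum_congr rfl fun j _ => ?_
  by_cases h2 : j = z
  · have h3 : j ≠ o := fun h => hoz (h.symm.trans h2)
    simp only [if_pos h2, if_neg h3, smul_zero, add_zero]
  · by_cases h3 : j = o
    · have h4 : j.val = 1 := by rw [h3, ho]
      simp only [if_neg h2, if_pos h3, if_pos h4, add_smul]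
      abel
    · have h4 : ¬ j.val = 1 := fun h => h3 (Fin.ext (h.trans ho.symm))
      simp only [if_neg h2, if_neg h3, if_neg h4, add_zero]

end Pool.Agent.CRS
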