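import Pool.Agent.CRS.StA

/-!
Campaign CRS, module KZ: words with at least three repetitions are zero (helper62).
-/

set_option autoImplicit false

namespace Pool.Agent.CRS

open Pool.Agent.CRN

private theorem KZ_count {k : ℕ} {α : Type} [DecidableEq α] (π : Fin k → α) (j : α) :
    (List.ofFn π).count j = (Finset.univ.filter fun i => π i = j).card := by
  have e : (Finset.univ.filter fun i => π i = j).card
      = ((List.finRange k).filter fun i => decide (π i = j)).length := rfl
  rw [e, List.ofFn_eq_map, List.count_eq_countP, List.countP_map, List.countP_eq_length_filter]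
  congr 1

theorem thm_KZ : St_KZA → St_KZ := by

  intro hKZA A _ hA ι _ x w h6 hc
  -- first occurrence of the letter
  have hlt : ∀ i : Fin w.length, w.idxOf (w.get i) < w.length := fun i =>
    List.idxOf_lt_length_iff.2 (List.get_mem _ _)
  let φ : Fin w.length → Fin w.length := fun i => ⟨w.idxOf (w.get i), hlt i⟩
  have hφ : ∀ i, w.get (φ i) = w.get i := fun i => List.idxOf_get (hlt i)
  have hφφ : ∀ i, φ (φ i) = φ i := by
    intro i
    apply Fin.ext
    show w.idxOf (w.get (φ i)) = w.idxOf (w.get i)
    rw [hφ]
  -- the repeated places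
  let R : Finset (Fin w.length) := Finset.univ.filter fun i => ¬ φ i = i
  have hfix : (Finset.univ.filter fun i => φ i = i).card ≤ w.toFinset.card := by
    apply Finset.card_le_card_of_injOn (fun i => w.get i)
    · intro i _
      simp only [Finset.mem_coe, List.mem_toFinset]
      exact List.get_mem _ _
    · intro i hi j hj hij
      simp only [Finset.coe_filter, Finset.mem_univ, true_and, Set.mem_setOf_eq] at hi hj
      rw [← hi, ← hj]
      apply Fin.ext
      show w.idxOf (w.get i) = w.idxOf (w.get j)
      rw [show w.get i = w.get j from hij]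
  have hR : 3 ≤ R.card := by
    have h := Finset.card_filter_add_card_filter_not (s := (Finset.univ : Finset (Fin w.length)))
      (fun i => φ i = i)
    rw [Finset.card_univ, Fintype.card_fin] at h
    have : (Finset.univ.filter fun i => ¬ φ i = i).card = R.card := rfl
    omega
  obtain ⟨T, hTR, hT3⟩ := Finset.exists_subset_card_eq hR
  have hTφ : ∀ i, φ i ∉ T := by
    intro i h
    have h1 := hTR h
    simp only [R, Finset.mem_filter, Finset.mem_univ, true_and] at h1
    exact h1 (hφφ i)
  obtain ⟨r1, r2, r3, h12, h13, h23, rfl⟩ := Finset.card_eq_three.1 hT3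
  -- the letters
  let J : Type := {i : Fin w.length // i ∉ ({r1, r2, r3} : Finset (Fin w.length))}
  letI dJ : DecidableEq J := fun a b => decidable_of_iff (a.1 = b.1) Subtype.ext_iff.symm
  letI fJ : Fintype J := Subtype.fintype _
  let π : Fin w.length → J := fun i =>
    if h : i ∈ ({r1, r2, r3} : Finset (Fin w.length)) then ⟨φ i, hTφ i⟩ else ⟨i, h⟩
  have hπ : ∀ i, w.get (π i).1 = w.get i := by
    intro i
    by_cases h : i ∈ ({r1, r2, r3} : Finset (Fin w.length))
    · have e : π i = ⟨φ i, hTφ i⟩ := dif_pos h
      rw [e]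
      exact hφ i
    · have e : π i = ⟨i, h⟩ := dif_neg h
      rw [e]
  have hcard : 3 ≤ Fintype.card J := by
    have h : Fintype.card J = Fintype.card (Fin w.length)
        - Fintype.card {i : Fin w.length // i ∈ ({r1, r2, r3} : Finset (Fin w.length))} :=
      Fintype.card_subtype_compl _
    rw [Fintype.card_fin, Fintype.card_coe, hT3] at h
    omega
  have hmap : (List.ofFn π).map (fun j => x (w.get j.1)) = w.map x := by
    rw [List.map_ofFn]
    conv_rhs => rw [← List.ofFn_get w, List.map_ofFn]
    congr 1
    funext i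
    show x (w.get (π i).1) = x (w.get i)
    rw [hπ]
  -- the numbers of the letters
  have hcnt : ∀ j : J, @List.count J (@instBEqOfDecidableEq J dJ) j (List.ofFn π) = 1 + ((if φ r1 = j.1 then 1 else 0)
      + ((if φ r2 = j.1 then 1 else 0) + (if φ r3 = j.1 then 1 else 0))) := by
    intro j
    rw [KZ_count]
    have e : (Finset.univ.filter fun i => π i = j)
        = insert j.1 (({r1, r2, r3} : Finset (Fin w.length)).filter fun i => φ i = j.1) := by
      ext i
      simp only [Finset.mem_filter, Finset.mem_univ, true_and, Finset.mem_insert (a := i)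
        (b := j.1)]
      by_cases h : i ∈ ({r1, r2, r3} : Finset (Fin w.length))
      · have e : π i = ⟨φ i, hTφ i⟩ := dif_pos h
        rw [e]
        constructor
        · intro h'
          exact Or.inr ⟨h, congrArg Subtype.val h'⟩
        · rintro (h' | h')
          · exact absurd (h' ▸ h) j.2
          · exact Subtype.ext h'.2
      · have e : π i = ⟨i, h⟩ := dif_neg h
        rw [e]
        constructor
        · intro h'
          exact Or.inl (congrArg Subtype.val h')
        · rintro (h' | h')
          · exact Subtype.ext h'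
          · exact absurd h'.1 h
    rw [e, Finset.card_insert_of_notMem, add_comm, Finset.card_filter, Finset.sum_insert,
      Finset.sum_insert, Finset.sum_singleton]
    · simpa using h23
    · simp only [Finset.mem_insert, Finset.mem_singleton, not_or]
      exact ⟨h12, h13⟩
    · intro h
      exact j.2 (Finset.mem_filter.1 h).1
  obtain ⟨K1, K2, K3⟩ := hKZA A hA J (fun j => x (w.get j.1)) (List.ofFn π) hcard
  rw [hmap] at K1 K2 K3
  let a1 : J := ⟨φ r1, hTφ r1⟩
  let a2 : J := ⟨φ r2, hTφ r2⟩
  let a3 : J := ⟨φ r3, hTφ r3⟩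
  have hne : ∀ (r : Fin w.length) (j : J), j ≠ ⟨φ r, hTφ r⟩ → φ r ≠ j.1 := by
    intro r j hj h
    exact hj (Subtype.ext h.symm)
  by_cases e12 : φ r1 = φ r2
  · by_cases e13 : φ r1 = φ r3
    · refine K1 a1 ?_ ?_
      · rw [hcnt, if_pos rfl, if_pos e12.symm, if_pos e13.symm]
      · intro j hj
        have n1 := hne r1 j hj
        rw [hcnt, if_neg n1, if_neg (e12 ▸ n1), if_neg (e13 ▸ n1)]
    · have e23 : φ r2 ≠ φ r3 := e12 ▸ e13
      refine K2 a1 a3 (fun h => e13 (congrArg Subtype.val h)) ?_ ?_ ?_
      · rw [hcnt, if_pos rfl, if_pos e12.symm, if_neg (Ne.symm e13)]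
      · rw [hcnt, if_neg e13, if_neg e23, if_pos rfl]
      · intro j hj hj'
        have n1 := hne r1 j hj
        have n3 := hne r3 j hj'
        rw [hcnt, if_neg n1, if_neg (e12 ▸ n1), if_neg n3]
  · by_cases e13 : φ r1 = φ r3
    · have e23 : φ r2 ≠ φ r3 := fun h => e12 (e13.trans h.symm)
      refine K2 a1 a2 (fun h => e12 (congrArg Subtype.val h)) ?_ ?_ ?_
      · rw [hcnt, if_pos rfl, if_neg (Ne.symm e12), if_pos e13.symm]
      · rw [hcnt, if_neg e12, if_pos rfl, if_neg (Ne.symm e23)]
      · intro j hj hj'
        have n1 := hne r1 j hj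
        have n2 := hne r2 j hj'
        rw [hcnt, if_neg n1, if_neg n2, if_neg (e13 ▸ n1)]
    · by_cases e23 : φ r2 = φ r3
      · refine K2 a2 a1 (fun h => e12 (congrArg Subtype.val h).symm) ?_ ?_ ?_
        · rw [hcnt, if_neg e12, if_pos rfl, if_pos e23.symm]
        · rw [hcnt, if_pos rfl, if_neg (Ne.symm e12), if_neg (Ne.symm e13)]
        · intro j hj hj'
          have n2 := hne r2 j hj
          have n1 := hne r1 j hj'
          rw [hcnt, if_neg n1, if_neg n2, if_neg (e23 ▸ n2)]
      · refine K3 a1 a2 a3 (fun h => e12 (congrArg Subtype.val h))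
          (fun h => e13 (congrArg Subtype.val h)) (fun h => e23 (congrArg Subtype.val h))
          ?_ ?_ ?_ ?_
        · rw [hcnt, if_pos rfl, if_neg (Ne.symm e12), if_neg (Ne.symm e13)]
        · rw [hcnt, if_neg e12, if_pos rfl, if_neg (Ne.symm e23)]
        · rw [hcnt, if_neg e13, if_neg e23, if_pos rfl]
        · intro j hj hj' hj''
          rw [hcnt, if_neg (hne r1 j hj), if_neg (hne r2 j hj'), if_neg (hne r3 j hj'')]

end Pool.Agent.CRS
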