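import Pool.Agent.CRS.StA

/-!
Campaign CRS, p = 2, module KZA: words with at least three repetitions, the letters being distinct otherwise.
-/

set_option autoImplicit false

namespace Pool.Agent.CRS

open Pool.Agent.CRR Pool.Agent.CRN Pool.Agent.CRK Pool.Agent.CRL Pool.Agent.CRM Pool.Agent.CRP
open Pool.Agent.CRQ

private theorem KZA_adjz {ι A : Type} [AddCommMonoid A] (κ : ι → ι → A) (h : ∀ c d, κ c d = 0) :
    ∀ l : List ι, adj κ l = 0
  | [] => rfl
  | [_] => rfl
  | a :: b :: l => by
    rw [adj, h a b, zero_add]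
    exact KZA_adjz κ h (b :: l)

private theorem KZA_adj0 {ι A : Type} [AddCommMonoid A] (κ : ι → ι → A) (c : ι) (l : List ι)
    (h : ∀ c, ∀ d ∈ l, κ c d = 0) : adj κ (c :: l) = 0 := by
  induction l generalizing c with
  | nil => rfl
  | cons d l ih =>
    rw [adj, h c d (by simp), zero_add]
    exact ih d (fun c e he => h c e (by simp [he]))

/-- the letters which are not in `S` -/
private noncomputable def KZA_R (ι : Type) [Fintype ι] [DecidableEq ι] (S : List ι) : List ι :=
  (Finset.univ : Finset ι).toList.filter (fun i => decide (i ∉ S))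

private theorem KZA_cR {ι : Type} [Fintype ι] [DecidableEq ι] (S : List ι) (i : ι) :
    (KZA_R ι S).count i = if i ∈ S then 0 else 1 := by
  have hnd : (KZA_R ι S).Nodup := (Finset.nodup_toList _).filter _
  by_cases h : i ∈ S
  · rw [if_pos h, List.count_eq_zero]
    intro h1
    have h2 := (List.mem_filter.1 h1).2
    simp only [decide_eq_true_eq] at h2
    exact h2 h
  · rw [if_neg h]
    refine List.count_eq_one_of_mem hnd (List.mem_filter.2 ⟨Finset.mem_toList.2 (Finset.mem_univ i), ?_⟩)
    simpa using h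

private theorem KZA_mR {ι : Type} [Fintype ι] [DecidableEq ι] (S : List ι) (i : ι) (h : i ∈ KZA_R ι S) : i ∉ S := by
  have h2 := (List.mem_filter.1 h).2
  simpa using h2

private theorem KZA_beq {ι : Type} [DecidableEq ι] (i : Option ι) (L : List (Option ι)) :
    @List.count (Option ι) instBEqOfDecidableEq i L = List.count i L := by
  have e : (Option.instBEq : BEq (Option ι)) = instBEqOfDecidableEq :=
    lawful_beq_subsingleton _ _
  rw [e]

private theorem KZA_split {ι : Type} [DecidableEq ι] (w : List ι) (a : ι) (h : 0 < w.count a) :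
    ∃ W : List (Option ι), W.map (fun o => o.getD a) = w ∧ W.count none = 1 ∧ W.count (some a) + 1 = w.count a ∧
      ∀ i, i ≠ a → W.count (some i) = w.count i := by
  obtain ⟨u, v, rfl⟩ := List.append_of_mem (List.count_pos_iff.1 h)
  have hs : Function.Injective (some : ι → Option ι) := Option.some_injective ι
  have h0 : ∀ l : List ι, (l.map some).count none = 0 := by
    intro l
    rw [List.count_eq_zero]
    intro hm
    obtain ⟨i, _, hi⟩ := List.mem_map.1 hm
    exact absurd hi (by simp)
  refine ⟨u.map some ++ none :: v.map some, ?_, ?_, ?_, ?_⟩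
  · have e1 : ∀ l : List ι, (l.map some).map (fun o : Option ι => o.getD a) = l := by
      intro l
      rw [List.map_map]
      exact (List.map_congr_left fun i _ => rfl).trans (List.map_id l)
    rw [List.map_append, List.map_cons, e1, e1]
    rfl
  · rw [List.count_append, List.count_cons_self, h0, h0]
  · rw [List.count_append, List.count_append, List.count_cons_self,
      List.count_cons_of_ne (by simp), List.count_map_of_injective _ _ hs, List.count_map_of_injective _ _ hs]
    omega
  · intro i hi
    rw [List.count_append, List.count_append, List.count_cons_of_ne (Ne.symm hi),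
      List.count_cons_of_ne (by simp), List.count_map_of_injective _ _ hs, List.count_map_of_injective _ _ hs]

private theorem KZA_cnt {ι : Type} [DecidableEq ι] [Fintype ι] (l : List (Option ι)) (S : List ι) (i : Option ι) :
    (l ++ (KZA_R ι S).map some).count i = l.count i + (match i with
      | none => 0
      | some j => if j ∈ S then 0 else 1) := by
  rw [List.count_append]
  congr 1
  cases i with
  | none =>
    rw [List.count_eq_zero]
    intro hm
    obtain ⟨i, _, hi⟩ := List.mem_map.1 hm
    exact absurd hi (by simp)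
  | some j =>
    rw [List.count_map_of_injective _ _ (Option.some_injective ι), KZA_cR]

private theorem KZA_wp {ι A : Type} [NonUnitalRing A] (x : ι → A) (a : ι) (W : List (Option ι)) (w : List ι)
    (h : W.map (fun o => o.getD a) = w) : wp (W.map (fun o => x (o.getD a))) = wp (w.map x) := by
  rw [← h, List.map_map]
  rfl

private theorem KZA_R0 {ι A : Type} [Fintype ι] [DecidableEq ι] [AddCommMonoid A] (κ : Option ι → Option ι → A)
    (S : List ι) (c : Option ι) (h : ∀ c : Option ι, ∀ d : ι, d ∉ S → κ c (some d) = 0) :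
    adj κ (c :: (KZA_R ι S).map some) = 0 := by
  apply KZA_adj0
  intro c d hd
  obtain ⟨j, hj, rfl⟩ := List.mem_map.1 hd
  exact h c j (KZA_mR S j hj)

/-- K3 for `Option ι` with the usual count -/
private theorem KZA_K3 (hK3 : St_K3) (A : Type) [NonUnitalRing A] (hN : N2 A) (ι : Type) [Fintype ι] [DecidableEq ι]
    (h3 : 3 ≤ Fintype.card ι) (X : Option ι → A) (a : ι) : ∃ κ : Option ι → Option ι → A,
    (∀ i j, ¬ (i = some a ∧ j = some a) → κ i j = 0) ∧
    ∀ w : List (Option ι), w.count (some a) = 3 → w.count none = 1 → (∀ i, i ≠ a → w.count (some i) = 1) →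
      wp (w.map X) = adj κ w := by
  obtain ⟨κ, _, hκ0, hκ⟩ := hK3 A hN (Option ι) (by rw [Fintype.card_option]; omega) (some a) X
  refine ⟨κ, hκ0, fun w h1 h2 h4 => hκ w (by rw [KZA_beq]; exact h1) fun i hi => ?_⟩
  rw [KZA_beq]
  cases i with
  | none => exact h2
  | some i => exact h4 i fun h => hi (by rw [h])

/-- K22 for `Option ι` with the usual count -/
private theorem KZA_K22 (hK22 : St_K22) (A : Type) [NonUnitalRing A] (hN : N2 A) (ι : Type) [Fintype ι] [DecidableEq ι]
    (h3 : 3 ≤ Fintype.card ι) (X : Option ι → A) (a b : ι) (hab : a ≠ b) : ∃ κ : Option ι → Option ι → A,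
    (∀ i j, ¬ (i = some a ∧ j = some b) → ¬ (i = some b ∧ j = some a) → κ i j = 0) ∧
    ∀ w : List (Option ι), w.count (some a) = 2 → w.count (some b) = 2 → w.count none = 1 →
      (∀ i, i ≠ a → i ≠ b → w.count (some i) = 1) → wp (w.map X) = adj κ w := by
  obtain ⟨κ, _, hκ0, hκ⟩ := hK22 A hN (Option ι) (by rw [Fintype.card_option]; omega) (some a) (some b) X
    (fun h => hab (Option.some_injective ι h))
  refine ⟨κ, hκ0, fun w h1 h1' h2 h4 => hκ w (by rw [KZA_beq]; exact h1) (by rw [KZA_beq]; exact h1') fun i hi hi' => ?_⟩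
  rw [KZA_beq]
  cases i with
  | none => exact h2
  | some i => exact h4 i (fun h => hi (by rw [h])) (fun h => hi' (by rw [h]))

private theorem KZA_one (hK3 : St_K3) (A : Type) [NonUnitalRing A] (hN : N2 A) (ι : Type) [Fintype ι] [DecidableEq ι]
    (x : ι → A) (h3 : 3 ≤ Fintype.card ι) (a : ι) (w : List ι) (ha : w.count a = 4)
    (hw : ∀ i, i ≠ a → w.count i = 1) : wp (w.map x) = 0 := by
  obtain ⟨κ, hκ0, hκ⟩ := KZA_K3 hK3 A hN ι h3 (fun o => x (o.getD a)) a
  obtain ⟨c, hc⟩ : ∃ c, c ≠ a := by
    have : Nontrivial ι := Fintype.one_lt_card_iff_nontrivial.1 (by omega)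
    exact exists_ne a
  obtain ⟨d, hd⟩ : ∃ d, d ∉ ({a, c} : Finset ι) := by
    by_contra hcon
    push Not at hcon
    have h1 : (Finset.univ : Finset ι) ⊆ {a, c} := fun i _ => hcon i
    have h2 := Finset.card_le_card h1
    rw [Finset.card_univ] at h2
    have h4 := Finset.card_le_two (a := a) (b := c)
    omega
  have hda : d ≠ a := fun h => hd (by simp [h])
  have hdc : d ≠ c := fun h => hd (by simp [h])
  have hz : ∀ i j : Option ι, j ≠ some a → κ i j = 0 := fun i j hj => hκ0 i j fun h => hj h.2
  have hz' : ∀ i j : Option ι, i ≠ some a → κ i j = 0 := fun i j hj => hκ0 i j fun h => hj h.1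
  have sa : ∀ b : ι, b ≠ a → (some b : Option ι) ≠ some a := fun b hb h => hb (Option.some_injective ι h)
  have hR : ∀ c' : Option ι, adj κ (c' :: (KZA_R ι [a, c, d]).map some) = 0 := fun c' =>
    KZA_R0 κ _ c' fun c'' j hj => hz _ _ (sa j fun h => hj (by simp [h]))
  have e1 := hκ ([none, some a, some c, some a, some d, some a] ++ (KZA_R ι [a, c, d]).map some) (by
    rw [KZA_cnt]
    simp [hc, hda]) (by
    rw [KZA_cnt]
    simp) (by
    intro i hia
    rw [KZA_cnt]
    by_cases h1 : i = c
    · subst h1; simp [hia, hia.symm, hdc]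
    · by_cases h2 : i = d
      · subst h2; simp [hia, hia.symm, hdc, hdc.symm]
      · simp [hia, h1, h2, Ne.symm hia, Ne.symm h1, Ne.symm h2])
  have e2 := hκ ([some a, some a, some c, none, some d, some a] ++ (KZA_R ι [a, c, d]).map some) (by
    rw [KZA_cnt]
    simp [hc, hda]) (by
    rw [KZA_cnt]
    simp) (by
    intro i hia
    rw [KZA_cnt]
    by_cases h1 : i = c
    · subst h1; simp [hia, hia.symm, hdc]
    · by_cases h2 : i = d
      · subst h2; simp [hia, hia.symm, hdc, hdc.symm]
      · simp [hia, h1, h2, Ne.symm hia, Ne.symm h1, Ne.symm h2])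
  have e3 : ([none, some a, some c, some a, some d, some a] ++ (KZA_R ι [a, c, d]).map some).map (fun o => x (o.getD a)) =
      ([some a, some a, some c, none, some d, some a] ++ (KZA_R ι [a, c, d]).map some).map (fun o => x (o.getD a)) := by
    simp
  rw [e3, e2] at e1
  simp only [List.cons_append, List.nil_append, adj] at e1
  rw [hR, hz (some a) (some c) (sa c hc), hz' (some c) none (sa c hc), hz none (some d) (sa d hda),
    hz' (some d) (some a) (sa d hda), hz' none (some a) (by simp), hz' (some c) (some a) (sa c hc),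
    hz (some a) (some d) (sa d hda)] at e1
  have hE : κ (some a) (some a) = 0 := by simpa using e1
  have hall : ∀ i j, κ i j = 0 := by
    intro i j
    by_cases h1 : i = some a ∧ j = some a
    · rw [h1.1, h1.2, hE]
    · exact hκ0 i j h1
  obtain ⟨W, hW, hW0, hWa, hWi⟩ := KZA_split w a (by omega)
  rw [← KZA_wp x a W w hW, hκ W (by omega) hW0 (fun i hi => by rw [hWi i hi, hw i hi]), KZA_adjz κ hall]

private theorem KZA_two (hK22 : St_K22) (hK3 : St_K3) (A : Type) [NonUnitalRing A] (hN : N2 A) (ι : Type) [Fintype ι]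
    [DecidableEq ι] (x : ι → A) (h3 : 3 ≤ Fintype.card ι) (a b : ι) (hab : a ≠ b) (w : List ι) (ha : w.count a = 3)
    (hb : w.count b = 2) (hw : ∀ i, i ≠ a → i ≠ b → w.count i = 1) : wp (w.map x) = 0 := by
  obtain ⟨κ, hκ0, hκ⟩ := KZA_K3 hK3 A hN ι h3 (fun o => x (o.getD b)) a
  obtain ⟨κ', hκ0', hκ'⟩ := KZA_K22 hK22 A hN ι h3 (fun o => x (o.getD a)) a b hab
  obtain ⟨c, hc⟩ : ∃ c, c ∉ ({a, b} : Finset ι) := by
    by_contra hcon
    push Not at hcon
    have h1 : (Finset.univ : Finset ι) ⊆ {a, b} := fun i _ => hcon i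
    have h2 := Finset.card_le_card h1
    rw [Finset.card_univ] at h2
    have h4 := Finset.card_le_two (a := a) (b := b)
    omega
  have hca : c ≠ a := fun h => hc (by simp [h])
  have hcb : c ≠ b := fun h => hc (by simp [h])
  have hz : ∀ i j : Option ι, j ≠ some a → κ i j = 0 := fun i j hj => hκ0 i j fun h => hj h.2
  have hz' : ∀ i j : Option ι, i ≠ some a → κ i j = 0 := fun i j hj => hκ0 i j fun h => hj h.1
  have sa : ∀ e f : ι, e ≠ f → (some e : Option ι) ≠ some f := fun e f hb h => hb (Option.some_injective ι h)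
  have hR : ∀ c' : Option ι, adj κ (c' :: (KZA_R ι [a, b, c]).map some) = 0 := fun c' =>
    KZA_R0 κ _ c' fun c'' j hj => hz _ _ (sa j a fun h => hj (by simp [h]))
  have hR' : ∀ c' : Option ι, adj κ' (c' :: (KZA_R ι [a, b, c]).map some) = 0 := fun c' =>
    KZA_R0 κ' _ c' fun c'' j hj => hκ0' _ _ (fun h => sa j b (fun h => hj (by simp [h])) h.2)
      (fun h => sa j a (fun h => hj (by simp [h])) h.2)
  -- a a c b b a R
  have e1 := hκ ([some a, some a, some c, none, some b, some a] ++ (KZA_R ι [a, b, c]).map some) (by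
    rw [KZA_cnt]
    simp [hca, hab.symm]) (by
    rw [KZA_cnt]
    simp) (by
    intro i hia
    rw [KZA_cnt]
    by_cases h1 : i = c
    · subst h1; simp [hia, hia.symm, hcb.symm]
    · by_cases h2 : i = b
      · subst h2; simp [hia, hia.symm, hcb]
      · simp [hia, h1, h2, Ne.symm hia, Ne.symm h1, Ne.symm h2])
  have e2 := hκ' ([some a, some a, some c, some b, some b, none] ++ (KZA_R ι [a, b, c]).map some) (by
    rw [KZA_cnt]
    simp [hca, hab.symm]) (by
    rw [KZA_cnt]
    simp [hcb, hab]) (by
    rw [KZA_cnt]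
    simp) (by
    intro i hia hib
    rw [KZA_cnt]
    by_cases h1 : i = c
    · subst h1; simp [hia, hia.symm, hcb.symm]
    · simp [hia, h1, hib, Ne.symm hia, Ne.symm h1, Ne.symm hib])
  have e3 : ([some a, some a, some c, none, some b, some a] ++ (KZA_R ι [a, b, c]).map some).map (fun o => x (o.getD b)) =
      ([some a, some a, some c, some b, some b, none] ++ (KZA_R ι [a, b, c]).map some).map (fun o => x (o.getD a)) := by
    simp
  rw [e3, e2] at e1
  simp only [List.cons_append, List.nil_append, adj] at e1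
  rw [hR, hR', hz (some a) (some c) (sa c a hca), hz' (some c) none (sa c a hca), hz none (some b) (sa b a hab.symm),
    hz' (some b) (some a) (sa b a hab.symm),
    hκ0' (some a) (some a) (fun h => sa a b hab h.2) (fun h => sa a b hab h.1),
    hκ0' (some a) (some c) (fun h => sa c b hcb h.2) (fun h => sa c a hca h.2),
    hκ0' (some c) (some b) (fun h => sa c a hca h.1) (fun h => sa c b hcb h.1),
    hκ0' (some b) (some b) (fun h => sa a b hab h.1.symm) (fun h => sa a b hab h.2.symm),
    hκ0' (some b) none (fun h => by simp at h) (fun h => by simp at h)] at e1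
  have hE : κ (some a) (some a) = 0 := by simpa using e1.symm
  have hall : ∀ i j, κ i j = 0 := by
    intro i j
    by_cases h1 : i = some a ∧ j = some a
    · rw [h1.1, h1.2, hE]
    · exact hκ0 i j h1
  obtain ⟨W, hW, hW0, hWa, hWi⟩ := KZA_split w b (by omega)
  rw [← KZA_wp x b W w hW, hκ W (by rw [hWi a hab, ha]) hW0 (fun i hi => by
    by_cases h : i = b
    · subst h; omega
    · rw [hWi i h, hw i hi h]), KZA_adjz κ hall]

/-- the coefficient of the pair `a z` is zero -/
private theorem KZA_co (hK22 : St_K22) (A : Type) [NonUnitalRing A] (hN : N2 A) (ι : Type) [Fintype ι]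
    [DecidableEq ι] (x : ι → A) (h3 : 3 ≤ Fintype.card ι) (a y z : ι) (hay : a ≠ y) (haz : a ≠ z) (hyz : y ≠ z)
    (κ : Option ι → Option ι → A)
    (hκ0 : ∀ i j, ¬ (i = some a ∧ j = some z) → ¬ (i = some z ∧ j = some a) → κ i j = 0)
    (hκ : ∀ w : List (Option ι), w.count (some a) = 2 → w.count (some z) = 2 → w.count none = 1 →
      (∀ i, i ≠ a → i ≠ z → w.count (some i) = 1) → wp (w.map (fun o => x (o.getD y))) = adj κ w) :
    κ (some a) (some z) = 0 := by
  obtain ⟨κ', hκ0', hκ'⟩ := KZA_K22 hK22 A hN ι h3 (fun o => x (o.getD a)) y z hyz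
  have sa : ∀ e f : ι, e ≠ f → (some e : Option ι) ≠ some f := fun e f hb h => hb (Option.some_injective ι h)
  have hR : ∀ c' : Option ι, adj κ (c' :: (KZA_R ι [a, y, z]).map some) = 0 := fun c' =>
    KZA_R0 κ _ c' fun c'' j hj => hκ0 _ _ (fun h => sa j z (fun h => hj (by simp [h])) h.2)
      (fun h => sa j a (fun h => hj (by simp [h])) h.2)
  have hR' : ∀ c' : Option ι, adj κ' (c' :: (KZA_R ι [a, y, z]).map some) = 0 := fun c' =>
    KZA_R0 κ' _ c' fun c'' j hj => hκ0' _ _ (fun h => sa j z (fun h => hj (by simp [h])) h.2)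
      (fun h => sa j y (fun h => hj (by simp [h])) h.2)
  -- a y y a z z R
  have e1 := hκ ([some a, none, some y, some a, some z, some z] ++ (KZA_R ι [a, y, z]).map some) (by
    rw [KZA_cnt]
    simp [hay.symm, haz.symm]) (by
    rw [KZA_cnt]
    simp [haz, hyz]) (by
    rw [KZA_cnt]
    simp) (by
    intro i hia hiz
    rw [KZA_cnt]
    by_cases h1 : i = y
    · subst h1; simp [hay, hyz.symm]
    · simp [hia, h1, hiz, Ne.symm hia, Ne.symm h1, Ne.symm hiz])
  have e2 := hκ' ([none, some y, some y, some a, some z, some z] ++ (KZA_R ι [a, y, z]).map some) (by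
    rw [KZA_cnt]
    simp [hay, hyz.symm]) (by
    rw [KZA_cnt]
    simp [haz, hyz]) (by
    rw [KZA_cnt]
    simp) (by
    intro i hiy hiz
    rw [KZA_cnt]
    by_cases h1 : i = a
    · subst h1; simp [hay.symm, haz.symm]
    · simp [hiy, h1, hiz, Ne.symm hiy, Ne.symm h1, Ne.symm hiz])
  have e3 : ([some a, none, some y, some a, some z, some z] ++ (KZA_R ι [a, y, z]).map some).map (fun o => x (o.getD y)) =
      ([none, some y, some y, some a, some z, some z] ++ (KZA_R ι [a, y, z]).map some).map (fun o => x (o.getD a)) := by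
    simp
  rw [e3, e2] at e1
  simp only [List.cons_append, List.nil_append, adj] at e1
  rw [hR, hR',
    hκ0 (some a) none (fun h => by simp at h) (fun h => by simp at h),
    hκ0 none (some y) (fun h => by simp at h) (fun h => by simp at h),
    hκ0 (some y) (some a) (fun h => sa a z haz h.2) (fun h => sa y z hyz h.1),
    hκ0 (some z) (some z) (fun h => sa a z haz h.1.symm) (fun h => sa a z haz h.2.symm),
    hκ0' none (some y) (fun h => by simp at h) (fun h => by simp at h),
    hκ0' (some y) (some y) (fun h => sa y z hyz h.2) (fun h => sa y z hyz h.1),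
    hκ0' (some y) (some a) (fun h => sa a z haz h.2) (fun h => sa a y hay h.2),
    hκ0' (some a) (some z) (fun h => sa a y hay h.1) (fun h => sa a z haz h.1),
    hκ0' (some z) (some z) (fun h => sa y z hyz h.1.symm) (fun h => sa y z hyz h.2.symm)] at e1
  simpa using e1.symm

theorem thm_KZA (hK22 : St_K22) (hK3 : St_K3) : St_KZA := by
  intro A _ hN ι _ _ x w h3
  refine ⟨fun a ha hw => KZA_one hK3 A hN ι x h3 a w ha hw, fun a b hab ha hb hw =>
    KZA_two hK22 hK3 A hN ι x h3 a b hab w ha hb hw, fun a b c hab hac hbc ha hb hc hw => ?_⟩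
  obtain ⟨κ, hκ0, hκ⟩ := KZA_K22 hK22 A hN ι h3 (fun o => x (o.getD b)) a c hac
  have h1 := KZA_co hK22 A hN ι x h3 a b c hab hac hbc κ hκ0 hκ
  have h2 := KZA_co hK22 A hN ι x h3 c b a hbc.symm hac.symm hab.symm κ (fun i j u v => hκ0 i j v u)
    (fun w u v s t => hκ w v u s fun i hi hi' => t i hi' hi)
  have hall : ∀ i j, κ i j = 0 := by
    intro i j
    by_cases u1 : i = some a ∧ j = some c
    · rw [u1.1, u1.2, h1]
    · by_cases u2 : i = some c ∧ j = some a
      · rw [u2.1, u2.2, h2]
      · exact hκ0 i j u1 u2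
  obtain ⟨W, hW, hW0, hWa, hWi⟩ := KZA_split w b (by omega)
  rw [← KZA_wp x b W w hW, hκ W (by rw [hWi a hab, ha]) (by rw [hWi c hbc.symm, hc]) hW0 (fun i hi hi' => by
    by_cases h : i = b
    · subst h; omega
    · rw [hWi i h, hw i hi h hi']), KZA_adjz κ hall]

end Pool.Agent.CRS
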