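import Pool.Agent.CRS.StI

/-!
Campaign CRS, module LAD: from the words in `g` letters to all products.
-/

set_option autoImplicit false

namespace Pool.Agent.CRS

open Pool.Agent.CRR Pool.Agent.CRN Pool.Agent.CRK Pool.Agent.CRL Pool.Agent.CRM Pool.Agent.CRP
open Pool.Agent.CRQ

private theorem LAD_xs {A : Type} [NonUnitalRing A] {n : ℕ} (x : Fin n → A) (w : List (Fin n)) :
    (w.map Fin.val).map (xs x) = w.map x := by
  rw [List.map_map]
  apply List.map_congr_left
  intro a _
  show xs x a.val = x a
  unfold xs
  rw [dif_pos a.isLt]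

private theorem LAD_lift {k : ℕ} (j : Fin (k + 1)) : ∀ w : List (Fin (k + 1)), j ∉ w →
    ∃ w' : List (Fin k), w = w'.map j.succAbove := by
  intro w
  induction w with
  | nil => intro _; exact ⟨[], rfl⟩
  | cons a w ih =>
    intro h
    rw [List.mem_cons, not_or] at h
    obtain ⟨w', hw'⟩ := ih h.2
    obtain ⟨b, hb⟩ := Fin.exists_succAbove_eq (Ne.symm h.1)
    exact ⟨b :: w', by rw [List.map_cons, hb, ← hw']⟩

private theorem LAD_step (hSPN : St_SPN) (K : Type) [CommRing K] (A : Type) [NonUnitalRing A] [Module K A]
    [IsScalarTower K A A] [SMulCommClass K A A] (M H : AddSubgroup A) (g n k : ℕ) (hK : Kst K 2 M H)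
    (hM : Mt M) (hn : 7 ≤ n) (htop : ∀ l : List A, n + 1 ≤ l.length → wp l = 0) (hD : Dm K 2 M g)
    (hk : g ≤ k) (hV : ∀ (x : Fin k → A) (w : List (Fin k)), w.length = n → wp (w.map x) = 0) :
    ∀ (x : Fin (k + 1) → A) (w : List (Fin (k + 1))), w.length = n → wp (w.map x) = 0 := by
  intro x w hw
  by_cases hall : ∀ j, j ∈ w
  · have hF : Wf K (k + 1) (fun x : Fin (k + 1) → A => wp (w.map x)) := by
      refine ⟨[(1, w.map Fin.val)], ?_, ?_⟩
      · intro q hq
        rw [List.mem_singleton] at hq
        subst hq
        refine ⟨?_, ?_⟩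
        · intro h
          have h' : (w.map Fin.val).length = 0 := congrArg List.length h
          rw [List.length_map] at h'
          omega
        · intro i
          constructor
          · intro hi
            obtain ⟨a, _, rfl⟩ := List.mem_map.1 hi
            exact a.isLt
          · intro hi
            exact List.mem_map.2 ⟨⟨i, hi⟩, hall _, rfl⟩
      · intro x
        rw [List.map_singleton, List.sum_singleton, one_smul, LAD_xs]
    refine hD (k + 1) (by omega) _ hF ?_ x
    intro x c j hcj hsum
    obtain ⟨d, hd⟩ := hcj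
    have hj : x j - ∑ i : Fin k, (-(d * c (j.succAbove i))) • x (j.succAbove i) ∈ M := by
      obtain ⟨y, hy⟩ := hd (x j)
      have h1 : d • ∑ i, c i • x i ∈ M := hK.mK d _ hsum
      have h2 : 2 • y ∈ M := hK.mp y
      rw [Fin.sum_univ_succAbove _ j] at h1
      have h3 : x j - ∑ i : Fin k, (-(d * c (j.succAbove i))) • x (j.succAbove i) =
          d • (c j • x j + ∑ i : Fin k, c (j.succAbove i) • x (j.succAbove i)) - 2 • y := by
        rw [← hy, smul_add, Finset.smul_sum]
        simp only [neg_smul, Finset.sum_neg_distrib, mul_smul]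
        abel
      rw [h3]
      exact M.sub_mem h1 h2
    refine hSPN K A M H n hK hM hn htop (Fin k) (fun i => x (j.succAbove i)) (hV _) _
      (by rw [List.length_map]; exact hw) ?_
    intro z hz
    obtain ⟨i, _, rfl⟩ := List.mem_map.1 hz
    by_cases hij : i = j
    · subst hij
      exact ⟨_, hj⟩
    · obtain ⟨i', hi'⟩ := Fin.exists_succAbove_eq hij
      refine ⟨fun t => if t = i' then 1 else 0, ?_⟩
      have h4 : ∑ t : Fin k, (if t = i' then (1 : K) else 0) • x (j.succAbove t) = x i := by
        rw [Finset.sum_eq_single i' (fun t _ ht => by rw [if_neg ht, zero_smul])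
          (fun h => absurd (Finset.mem_univ _) h), if_pos rfl, one_smul, hi']
      rw [h4, sub_self]
      exact M.zero_mem
  · push Not at hall
    obtain ⟨j, hj⟩ := hall
    obtain ⟨w', rfl⟩ := LAD_lift j w hj
    rw [List.map_map]
    exact hV _ w' (by rw [List.length_map] at hw; exact hw)

theorem thm_LAD (hSPN : St_SPN) : St_LAD := by
  intro K _ A _ _ _ _ M H g n hK hM hn htop hD hg l hl
  have hV : ∀ k, g ≤ k → ∀ (x : Fin k → A) (w : List (Fin k)), w.length = n → wp (w.map x) = 0 := by
    intro k hk
    induction k, hk using Nat.le_induction with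
    | base => exact hg
    | succ k hk ih => exact LAD_step hSPN K A M H g n k hK hM hn htop hD hk ih
  have h1 := hV (max g n) (le_max_left _ _) (fun i => l.getD i.val 0)
    ((List.finRange n).map (Fin.castLE (le_max_right _ _))) (by rw [List.length_map, List.length_finRange])
  have h2 : ((List.finRange n).map (Fin.castLE (le_max_right g n))).map
      (fun i : Fin (max g n) => l.getD i.val 0) = l := by
    rw [List.map_map]
    apply List.ext_getElem
    · rw [List.length_map, List.length_finRange, hl]
    · intro i h3 h4
      rw [List.getElem_map, List.getElem_finRange]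
      show l.getD i 0 = l[i]
      rw [List.getD_eq_getElem?_getD, List.getElem?_eq_getElem h4]
      rfl
  rw [h2] at h1
  exact h1

end Pool.Agent.CRS
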