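import Pool.Agent.CRS.StI

/-!
# CRS.LFT: words with a repeated letter (MP_1bb14d_al)
-/

set_option autoImplicit false

namespace Pool.Agent.CRS

open Pool.Agent.CRR Pool.Agent.CRN Pool.Agent.CRK Pool.Agent.CRL Pool.Agent.CRM Pool.Agent.CRP
open Pool.Agent.CRQ

private theorem LFT_dup {α : Type} (w : List α) (h : ¬ w.Nodup) :
    ∃ (l₁ l₂ : List α) (s : α), w = l₁ ++ s :: l₂ ∧ s ∈ l₁ ++ l₂ := by
  induction w with
  | nil => exact absurd List.nodup_nil h
  | cons a l ih =>
    by_cases ha : a ∈ l
    · exact ⟨[], l, a, rfl, ha⟩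
    · have hl : ¬ l.Nodup := fun hl => h (List.nodup_cons.2 ⟨ha, hl⟩)
      obtain ⟨l₁, l₂, s, h1, h2⟩ := ih hl
      exact ⟨a :: l₁, l₂, s, by rw [h1]; rfl, List.mem_cons_of_mem _ h2⟩

private theorem LFT_fin {α : Type} (g : ℕ) (L : List α) (h : L.length = g) :
    (List.finRange g).map (fun k => L.get (Fin.cast h.symm k)) = L := by
  apply List.ext_getElem
  · simp [h]
  · intro n h1 h2
    simp

/-- Words with a repeated letter. -/
theorem thm_LFT : St_LFT := by
  intro A g x w hw
  have hnd : ¬ w.Nodup := by
    intro hn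
    have := hn.length_le_card
    rw [Fintype.card_fin] at this
    omega
  obtain ⟨l₁, l₂, s, h1, h2⟩ := LFT_dup w hnd
  have hL : (l₁ ++ l₂).length = g := by
    rw [h1] at hw
    simp only [List.length_append, List.length_cons] at hw ⊢
    omega
  obtain ⟨n, hn, hs⟩ := List.mem_iff_getElem.1 h2
  have hf := LFT_fin g (l₁ ++ l₂) hL
  set f : Fin g → Fin g := fun k => (l₁ ++ l₂).get (Fin.cast hL.symm k) with hfdef
  set i : Fin g := ⟨n, by omega⟩ with hi
  have hfi : f i = s := by
    rw [hfdef, hi]
    simpa using hs
  have h3 : ((List.finRange g).take l₁.length).map f = l₁ := by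
    rw [List.map_take, hf]
    simp
  have h4 : ((List.finRange g).drop l₁.length).map f = l₂ := by
    rw [List.map_drop, hf]
    simp
  have hc : ∀ j : Fin g, ((List.finRange g).take l₁.length ++ i :: (List.finRange g).drop l₁.length).count j =
      1 + if i = j then 1 else 0 := by
    intro j
    have h5 : ((List.finRange g).take l₁.length ++ (List.finRange g).drop l₁.length).count j = 1 := by
      rw [List.take_append_drop]
      exact List.count_eq_one_of_mem (List.nodup_finRange g) (List.mem_finRange j)
    rw [List.count_append] at h5 ⊢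
    rw [List.count_cons]
    by_cases hij : i = j
    · rw [if_pos hij, if_pos (by simpa using hij)]
      omega
    · rw [if_neg hij, if_neg (by simpa using hij)]
      omega
  refine ⟨fun k => x (f k), (List.finRange g).take l₁.length ++ i :: (List.finRange g).drop l₁.length, i, ?_, ?_, ?_⟩
  · rw [hc, if_pos rfl]
  · intro j hj
    rw [hc, if_neg (Ne.symm hj)]
  · have h6 : ∀ l : List (Fin g), l.map (fun k => x (f k)) = (l.map f).map x := fun l => by
      rw [List.map_map]
      rfl
    rw [h6, List.map_append, List.map_cons, h3, h4, hfi, ← h1]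

end Pool.Agent.CRS
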