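import Pool.Agent.CRS.StI

/-!
Campaign CRS, module LIN: words are linear in a letter which occurs once.
-/

set_option autoImplicit false

namespace Pool.Agent.CRS

open Pool.Agent.CRR Pool.Agent.CRN Pool.Agent.CRK Pool.Agent.CRL Pool.Agent.CRM Pool.Agent.CRP
open Pool.Agent.CRQ

theorem LIN_cons {A : Type} [NonUnitalRing A] (a : A) : ∀ l : List A, l ≠ [] → wp (a :: l) = a * wp l
  | [], h => absurd rfl h
  | _ :: _, _ => rfl

theorem LIN_add {A : Type} [NonUnitalRing A] (y z : A) (v : List A) :
    ∀ u : List A, wp (u ++ (y + z) :: v) = wp (u ++ y :: v) + wp (u ++ z :: v)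
  | [] => by
    cases v with
    | nil => rfl
    | cons b v => exact add_mul y z (wp (b :: v))
  | a :: u => by
    have h := LIN_add y z v u
    simp only [List.cons_append]
    rw [LIN_cons a _ (by simp), LIN_cons a _ (by simp), LIN_cons a _ (by simp), h, mul_add]

theorem LIN_smul {K A : Type} [CommRing K] [NonUnitalRing A] [Module K A] [IsScalarTower K A A]
    [SMulCommClass K A A] (c : K) (y : A) (v : List A) :
    ∀ u : List A, wp (u ++ (c • y) :: v) = c • wp (u ++ y :: v)
  | [] => by
    cases v with
    | nil => rfl
    | cons b v => exact smul_mul_assoc c y (wp (b :: v))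
  | a :: u => by
    have h := LIN_smul c y v u
    simp only [List.cons_append]
    rw [LIN_cons a _ (by simp), LIN_cons a _ (by simp), h, mul_smul_comm]

theorem LIN_map {A ι : Type} [DecidableEq ι] (x : ι → A) (k : ι) (y : A) (u : List ι) (h : k ∉ u) :
    u.map (Function.update x k y) = u.map x :=
  List.map_congr_left fun i hi => Function.update_of_ne (fun e : i = k => h (e ▸ hi)) _ _

theorem LIN_split {A ι : Type} [DecidableEq ι] (k : ι) (w : List ι) (h : w.count k = 1) :
    ∃ u v : List ι, ∀ (x : ι → A) (y : A),
      w.map (Function.update x k y) = u.map x ++ y :: v.map x := by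
  obtain ⟨u, v, rfl⟩ := List.append_of_mem (List.count_pos_iff.1 (by omega : 0 < w.count k))
  have h1 : u.count k + (v.count k + 1) = 1 := by
    rw [List.count_append, List.count_cons_self] at h
    exact h
  have hu : k ∉ u := List.count_eq_zero.1 (by omega)
  have hv : k ∉ v := List.count_eq_zero.1 (by omega)
  refine ⟨u, v, fun x y => ?_⟩
  rw [List.map_append, List.map_cons, LIN_map x k y u hu, LIN_map x k y v hv,
    Function.update_self]

theorem thm_LIN : St_LIN := by
  intro K _ A _ _ _ _ ι _ k L hL
  refine ⟨fun x y z => ?_, fun x c y => ?_⟩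
  · induction L with
    | nil => simp [Ew]
    | cons q L ih =>
      have ih' := ih fun q' hq' => hL q' (List.mem_cons_of_mem _ hq')
      obtain ⟨u, v, huv⟩ := LIN_split (A := A) k q.2 (hL q List.mem_cons_self)
      simp only [Ew, List.map_cons, List.sum_cons] at ih' ⊢
      rw [ih', huv, huv, huv, LIN_add, smul_add]
      abel
  · induction L with
    | nil => simp [Ew]
    | cons q L ih =>
      have ih' := ih fun q' hq' => hL q' (List.mem_cons_of_mem _ hq')
      obtain ⟨u, v, huv⟩ := LIN_split (A := A) k q.2 (hL q List.mem_cons_self)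
      simp only [Ew, List.map_cons, List.sum_cons] at ih' ⊢
      rw [ih', huv, huv, LIN_smul, smul_add, smul_smul, smul_smul, mul_comm q.1 c]

end Pool.Agent.CRS
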