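import Pool.Agent.CRS.StG
import Mathlib.Tactic

/-!
Campaign CRS, module Mlf (helper61): the function of a list of words.
-/

set_option autoImplicit false

namespace Pool.Agent.CRS

open Pool.Agent.CRR Pool.Agent.CRN Pool.Agent.CRK Pool.Agent.CRL Pool.Agent.CRM Pool.Agent.CRP
open Pool.Agent.CRQ

/-- number of the adjacent pairs `p q` in `w` -/
private def mlf_n (F : Type) [Field F] {ι : Type} [DecidableEq ι] (p q : ι) (w : List ι) : F :=
  adj (fun a b => if a = p ∧ b = q then (1 : F) else 0) w

private theorem mlf_adj {F V ι : Type} [Field F] [AddCommGroup V] [Module F V] [Fintype ι]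
    [DecidableEq ι] (κ : ι → ι → V) :
    ∀ w : List ι, adj κ w = ∑ p, ∑ q, mlf_n F p q w • κ p q
  | [] => by simp [adj, mlf_n]
  | [a] => by simp [adj, mlf_n]
  | a :: b :: l => by
    have ih := mlf_adj (F := F) κ (b :: l)
    have e : ∀ p q, mlf_n F p q (a :: b :: l) • κ p q
        = (if a = p ∧ b = q then (1 : F) else 0) • κ p q + mlf_n F p q (b :: l) • κ p q := by
      intro p q
      rw [← add_smul]
      rfl
    simp only [e, Finset.sum_add_distrib]
    rw [← ih]
    show κ a b + adj κ (b :: l) = _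
    congr 1
    rw [Finset.sum_eq_single a, Finset.sum_eq_single b]
    · simp
    · intro q _ hq
      rw [if_neg (fun h => hq h.2.symm), zero_smul]
    · intro h
      exact absurd (Finset.mem_univ _) h
    · intro p _ hp
      apply Finset.sum_eq_zero
      intro q _
      rw [if_neg (fun h => hp h.1.symm), zero_smul]
    · intro h
      exact absurd (Finset.mem_univ _) h

private theorem mlf_map {V A ι : Type} [AddCommMonoid V] [AddCommMonoid A] (j : V →+ A)
    (κ : ι → ι → V) : ∀ w : List ι, j (adj κ w) = adj (fun p q => j (κ p q)) w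
  | [] => by simp [adj]
  | [a] => by simp [adj]
  | a :: b :: l => by
    have ih := mlf_map j κ (b :: l)
    show j (κ a b + adj κ (b :: l)) = j (κ a b) + adj (fun p q => j (κ p q)) (b :: l)
    rw [map_add, ih]

private theorem mlf_one {F ι : Type} [Field F] :
    ∀ w : List ι, adj (fun _ _ => (1 : F)) w = ((w.length - 1 : ℕ) : F)
  | [] => by simp [adj]
  | [a] => by simp [adj]
  | a :: b :: l => by
    have ih := mlf_one (F := F) (b :: l)
    show 1 + adj (fun _ _ => (1 : F)) (b :: l) = _
    rw [ih]
    simp only [List.length_cons, Nat.add_sub_cancel]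
    push_cast
    ring

private theorem mlf_diag {F ι : Type} [Field F] [DecidableEq ι] (i : ι) :
    ∀ w : List ι, w.Nodup → mlf_n F i i w = 0
  | [], _ => by simp [adj, mlf_n]
  | [a], _ => by simp [adj, mlf_n]
  | a :: b :: l, h => by
    have ih := mlf_diag (F := F) i (b :: l) (List.nodup_cons.1 h).2
    have hab : a ≠ b := by
      intro e
      apply (List.nodup_cons.1 h).1
      rw [e]
      exact List.mem_cons_self
    show (if a = i ∧ b = i then (1 : F) else 0) + mlf_n F i i (b :: l) = 0
    rw [ih, if_neg (fun h => hab (h.1.trans h.2.symm)), add_zero]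

private theorem mlf_sum {F : Type} [Field F] {g : ℕ} (w : List (Fin g)) :
    ∑ p, ∑ q, mlf_n F p q w = ((w.length - 1 : ℕ) : F) := by
  rw [← mlf_one (F := F) w, mlf_adj (F := F) (fun _ _ => (1 : F)) w]
  simp

/-- the word over `Fin g` -/
private theorem mlf_word (g : ℕ) (u : List ℕ) (hu : ∀ i, i ∈ u ↔ i < g) (hl : u.length ≤ g) :
    ∃ w : List (Fin g), w.Nodup ∧ w.length = g ∧ (∀ i, w.count i = 1) ∧
      ∀ (A : Type) [NonUnitalRing A] (x : Fin g → A), u.map (xs x) = w.map x := by
  have hsub : (List.range g).Subperm u := by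
    apply (List.nodup_range).subperm
    intro i hi
    exact (hu i).2 (List.mem_range.1 hi)
  have hperm : (List.range g).Perm u := by
    apply hsub.perm_of_length_le
    rw [List.length_range]
    exact hl
  have hnd : u.Nodup := hperm.nodup_iff.1 List.nodup_range
  have hlen : u.length = g := by
    rw [← hperm.length_eq, List.length_range]
  refine ⟨u.pmap (fun i h => (⟨i, h⟩ : Fin g)) (fun i hi => (hu i).1 hi), ?_, ?_, ?_, ?_⟩
  · apply List.Nodup.pmap _ hnd
    intro a ha b hb h
    exact congrArg Fin.val h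
  · rw [List.length_pmap, hlen]
  · intro i
    apply List.count_eq_one_of_mem
    · apply List.Nodup.pmap _ hnd
      intro a ha b hb h
      exact congrArg Fin.val h
    · rw [List.mem_pmap]
      exact ⟨i.val, (hu _).2 i.2, rfl⟩
  · intro A _ x
    rw [List.map_pmap]
    have : ∀ (v : List ℕ) (hv : ∀ i ∈ v, i < g),
        v.map (xs x) = v.pmap (fun i h => x (⟨i, h⟩ : Fin g)) hv := by
      intro v
      induction v with
      | nil => intro _; rfl
      | cons a v ih =>
        intro hv
        rw [List.map_cons, List.pmap_cons, ih (fun i hi => hv i (List.mem_cons_of_mem a hi))]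
        congr 1
        show (if h : a < g then x ⟨a, h⟩ else 0) = _
        rw [dif_pos (hv a List.mem_cons_self)]
    exact this u _

private theorem mlf_single (K : Type) [CommRing K] (A : Type) [NonUnitalRing A] [Module K A]
    (F V : Type) [Field F] [AddCommGroup V]
    [Module F V] (π : K →+* F) (j : V →+ A) (g : ℕ) (e : (Fin g → A) → V)
    (κ : (Fin g → A) → Fin g → Fin g → V)
    (hj : ∀ (c : K) (v : V), j (π c • v) = c • j v)
    (hw : ∀ (x : Fin g → A) (w : List (Fin g)), (∀ i, w.count i = 1) →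
      wp (w.map x) = j (e x) + adj (fun p q => j (κ x p q)) w)
    (h0 : ∀ l : List A, g + 1 ≤ l.length → wp l = 0) (c : K) (u : List ℕ)
    (hu : ∀ i, i ∈ u ↔ i < g) :
    ∃ (C : F) (a : Fin g → Fin g → F), Pdg C a ∧ ∀ x : Fin g → A,
      c • wp (u.map (xs x)) = j (evd e κ C a x) := by
  by_cases hl : u.length ≤ g
  · obtain ⟨w, hnd, hlen, hc, hx⟩ := mlf_word g u hu hl
    refine ⟨π c, fun p q => π c * mlf_n F p q w, ⟨?_, ?_⟩, ?_⟩
    · intro i
      show π c * mlf_n F i i w = 0
      rw [mlf_diag i w hnd, mul_zero]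
    · simp only [← Finset.mul_sum]
      rw [mlf_sum, hlen, mul_comm]
    · intro x
      rw [hx A x, hw x w hc, ← mlf_map, ← map_add, ← hj]
      congr 1
      rw [smul_add, evd, mlf_adj (F := F) (κ x) w, Finset.smul_sum]
      congr 1
      apply Finset.sum_congr rfl
      intro p _
      rw [Finset.smul_sum]
      apply Finset.sum_congr rfl
      intro q _
      rw [mul_smul]
  · refine ⟨0, fun _ _ => 0, ⟨fun _ => rfl, by simp⟩, ?_⟩
    intro x
    rw [h0 _ (by rw [List.length_map]; omega)]
    simp [evd]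

theorem thm_Mlf : St_Mlf := by
  intro K _ A _ _ F V _ _ _ π j g e κ f _ hj hw h0 hf
  obtain ⟨L, hL, hfL⟩ := hf
  suffices h : ∀ L : List (K × List ℕ), (∀ q ∈ L, q.2 ≠ [] ∧ ∀ i, i ∈ q.2 ↔ i < g) →
      ∃ (C : F) (a : Fin g → Fin g → F), Pdg C a ∧ ∀ x : Fin g → A,
        (L.map fun q => q.1 • wp (q.2.map (xs x))).sum = j (evd e κ C a x) by
    obtain ⟨C, a, h1, h2⟩ := h L hL
    exact ⟨C, a, h1, fun x => (hfL x).trans (h2 x)⟩
  intro L
  induction L with
  | nil =>
    intro _
    refine ⟨0, fun _ _ => 0, ⟨fun _ => rfl, by simp⟩, ?_⟩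
    intro x
    simp [evd]
  | cons q L ih =>
    intro hL
    obtain ⟨C, a, ⟨p1, p2⟩, h1⟩ := ih (fun r hr => hL r (List.mem_cons_of_mem q hr))
    obtain ⟨C', a', ⟨p1', p2'⟩, h2⟩ := mlf_single K A F V π j g e κ hj hw h0 q.1 q.2
      (hL q List.mem_cons_self).2
    refine ⟨C' + C, fun i k => a' i k + a i k, ⟨?_, ?_⟩, ?_⟩
    · intro i
      show a' i i + a i i = 0
      rw [p1, p1', add_zero]
    · simp only [Finset.sum_add_distrib]
      rw [p2, p2', mul_add]
    · intro x
      rw [List.map_cons, List.sum_cons, h1 x, h2 x, ← map_add]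
      congr 1
      simp only [evd, add_smul, Finset.sum_add_distrib]
      abel

end Pool.Agent.CRS
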