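import Pool.Agent.CRS.StI
import Mathlib.Algebra.Algebra.Unitization

/-!
Campaign CRS, module PO1: the polarisation as a list of orderings (helper26).
-/

set_option autoImplicit false

namespace Pool.Agent.CRS

open Pool.Agent.CRR Pool.Agent.CRN Pool.Agent.CRK Pool.Agent.CRL Pool.Agent.CRM Pool.Agent.CRP
open Pool.Agent.CRQ

section po1

variable {K A ι : Type} [CommRing K] [NonUnitalRing A] [Module K A]

private theorem PO1_nil (x : ι → A) : Ew ([] : List (K × List ι)) x = 0 := rfl

private theorem PO1_cons (q : K × List ι) (L : List (K × List ι)) (x : ι → A) :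
    Ew (q :: L) x = q.1 • wp (q.2.map x) + Ew L x := by
  unfold Ew
  rw [List.map_cons, List.sum_cons]

private theorem PO1_app (L L' : List (K × List ι)) (x : ι → A) :
    Ew (L ++ L') x = Ew L x + Ew L' x := by
  unfold Ew
  rw [List.map_append, List.sum_append]

private theorem PO1_emb (A : Type) [NonUnitalRing A] :
    ∃ (B : Type) (_ : Ring B) (f : A →ₙ+* B), Function.Injective f :=
  ⟨Unitization ℤ A, inferInstance,
    { toFun := fun a => (Unitization.inr a : Unitization ℤ A)
      map_mul' := fun a b => Unitization.inr_mul ℤ a b
      map_zero' := Unitization.inr_zero ℤ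
      map_add' := fun a b => Unitization.inr_add ℤ a b },
    fun _ _ h => Unitization.inr_injective h⟩

private theorem PO1_pr {B : Type} [Ring B] (f : A →ₙ+* B) : ∀ l : List A, l ≠ [] →
    f (wp l) = (l.map f).prod
  | [], h => absurd rfl h
  | [a], _ => by
    rw [List.map_cons, List.map_nil, List.prod_cons, List.prod_nil, mul_one]
    rfl
  | a :: b :: l, _ => by
    rw [List.map_cons, List.prod_cons, ← PO1_pr f (b :: l) (by simp)]
    exact map_mul f a (wp (b :: l))

private theorem PO1_upd {g : ℕ} (i : Fin g) (x : Fin g → A) (z : A) (u : List (Fin g))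
    (hu : i ∉ u) : u.map (Function.update x i z) = u.map x := by
  apply List.map_congr_left
  intro k hk
  rw [Function.update_of_ne]
  rintro rfl
  exact hu hk

private theorem PO1_one {g : ℕ} (i : Fin g) (w : List (Fin g)) (hw : w.count i = 1)
    (x : Fin g → A) (y : A) :
    wp (w.map (Function.update x i (x i + y))) - wp (w.map x) -
      wp (w.map (Function.update x i y)) = 0 := by
  have hi : i ∈ w := by
    rw [← List.count_pos_iff, hw]
    exact one_pos
  obtain ⟨u, v, rfl⟩ := List.append_of_mem hi
  rw [List.count_append, List.count_cons_self] at hw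
  have hu : i ∉ u := by
    rw [← List.count_eq_zero]
    omega
  have hv : i ∉ v := by
    rw [← List.count_eq_zero]
    omega
  have key : ∀ z : A, wp ((u ++ i :: v).map (Function.update x i z)) =
      wp (u.map x ++ z :: v.map x) := by
    intro z
    rw [List.map_append, List.map_cons, Function.update_self, PO1_upd i x z u hu,
      PO1_upd i x z v hv]
  have key2 : wp ((u ++ i :: v).map x) = wp (u.map x ++ x i :: v.map x) := by
    rw [List.map_append, List.map_cons]
  rw [key, key, key2]
  obtain ⟨B, _, f, hf⟩ := PO1_emb A
  apply hf
  rw [map_sub, map_sub, PO1_pr f _ (by simp), PO1_pr f _ (by simp), PO1_pr f _ (by simp)]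
  simp only [List.map_append, List.map_cons, List.prod_append, List.prod_cons,
    map_add, map_zero, mul_add, add_mul]
  abel

private theorem PO1_two {g : ℕ} (i : Fin g) (u v t : List (Fin g)) (hu : i ∉ u) (hv : i ∉ v)
    (ht : i ∉ t) (x : Fin g → A) (y : A) :
    wp ((u ++ i :: (v ++ i :: t)).map (Function.update x i (x i + y))) -
      wp ((u ++ i :: (v ++ i :: t)).map x) -
      wp ((u ++ i :: (v ++ i :: t)).map (Function.update x i y)) =
    wp ((u.map some ++ some i :: (v.map some ++ none :: t.map some)).map
      fun o => o.elim y x) +
    wp ((u.map some ++ none :: (v.map some ++ some i :: t.map some)).map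
      fun o => o.elim y x) := by
  have key : ∀ z : A, wp ((u ++ i :: (v ++ i :: t)).map (Function.update x i z)) =
      wp (u.map x ++ z :: (v.map x ++ z :: t.map x)) := by
    intro z
    rw [List.map_append, List.map_cons, List.map_append, List.map_cons, Function.update_self,
      PO1_upd i x z u hu, PO1_upd i x z v hv, PO1_upd i x z t ht]
  have key2 : wp ((u ++ i :: (v ++ i :: t)).map x) =
      wp (u.map x ++ x i :: (v.map x ++ x i :: t.map x)) := by
    rw [List.map_append, List.map_cons, List.map_append, List.map_cons]
  have hs : ∀ l : List (Fin g), (l.map some).map (fun o : Option (Fin g) => o.elim y x) =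
      l.map x := by
    intro l
    rw [List.map_map]
    rfl
  have key3 : wp ((u.map some ++ some i :: (v.map some ++ none :: t.map some)).map
      fun o => o.elim y x) = wp (u.map x ++ x i :: (v.map x ++ y :: t.map x)) := by
    rw [List.map_append, List.map_cons, List.map_append, List.map_cons, hs, hs, hs]
    rfl
  have key4 : wp ((u.map some ++ none :: (v.map some ++ some i :: t.map some)).map
      fun o => o.elim y x) = wp (u.map x ++ y :: (v.map x ++ x i :: t.map x)) := by
    rw [List.map_append, List.map_cons, List.map_append, List.map_cons, hs, hs, hs]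
    rfl
  rw [key, key, key2, key3, key4]
  obtain ⟨B, _, f, hf⟩ := PO1_emb A
  apply hf
  rw [map_sub, map_sub, map_add, PO1_pr f _ (by simp), PO1_pr f _ (by simp),
    PO1_pr f _ (by simp), PO1_pr f _ (by simp), PO1_pr f _ (by simp)]
  simp only [List.map_append, List.map_cons, List.prod_append, List.prod_cons,
    map_add, mul_add, add_mul]
  abel

private theorem PO1_word {g : ℕ} (i : Fin g) (c : K) (w : List (Fin g))
    (hw : (∀ k, w.count k = 1) ∨ ∃ k, w.count k = 2 ∧ ∀ j, j ≠ k → w.count j = 1) :
    ∃ L : List (K × List (Option (Fin g))), (∀ q ∈ L, ∀ k, q.2.count k = 1) ∧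
      ∀ (x : Fin g → A) (y : A), c • wp (w.map (Function.update x i (x i + y))) -
        c • wp (w.map x) - c • wp (w.map (Function.update x i y)) =
        Ew L (fun o => o.elim y x) := by
  by_cases h1 : w.count i = 1
  · refine ⟨[], by simp, fun x y => ?_⟩
    rw [← smul_sub, ← smul_sub, PO1_one i w h1, smul_zero, PO1_nil]
  · have h2 : w.count i = 2 ∧ ∀ j, j ≠ i → w.count j = 1 := by
      rcases hw with h | ⟨k, hk, hj⟩
      · exact absurd (h i) h1
      · by_cases hik : i = k
        · rw [hik]
          exact ⟨hk, hj⟩
        · exact absurd (hj i hik) h1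
    obtain ⟨h2, h3⟩ := h2
    have hi : i ∈ w := by
      rw [← List.count_pos_iff, h2]
      exact two_pos
    obtain ⟨u, r, rfl, hu⟩ := List.eq_append_cons_of_mem hi
    have hu0 := List.count_eq_zero.2 hu
    rw [List.count_append, List.count_cons_self, hu0] at h2
    have hr : r.count i = 1 := by omega
    have hi2 : i ∈ r := by
      rw [← List.count_pos_iff, hr]
      exact one_pos
    obtain ⟨v, t, rfl⟩ := List.append_of_mem hi2
    rw [List.count_append, List.count_cons_self] at hr
    have hv0 : v.count i = 0 := by omega
    have ht0 : t.count i = 0 := by omega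
    have hinj : Function.Injective (some : Fin g → Option (Fin g)) := Option.some_injective _
    have hn : ∀ l : List (Fin g), (l.map some).count none = 0 := by
      intro l
      rw [List.count_eq_zero]
      simp
    have hs : ∀ (l : List (Fin g)) (j : Fin g), (l.map some).count (some j) = l.count j :=
      fun l j => List.count_map_of_injective l some hinj j
    refine ⟨[(c, u.map some ++ some i :: (v.map some ++ none :: t.map some)),
      (c, u.map some ++ none :: (v.map some ++ some i :: t.map some))], ?_, fun x y => ?_⟩
    · intro q hq k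
      have h4 : ∀ j, j ≠ i → u.count j + (v.count j + t.count j) = 1 := by
        intro j hj
        have h5 := h3 j hj
        rw [List.count_append, List.count_cons_of_ne (Ne.symm hj), List.count_append,
          List.count_cons_of_ne (Ne.symm hj)] at h5
        exact h5
      rw [List.mem_cons, List.mem_singleton] at hq
      rcases hq with rfl | rfl
      · show (u.map some ++ some i :: (v.map some ++ none :: t.map some)).count k = 1
        rw [List.count_append, List.count_cons, List.count_append, List.count_cons]
        cases k with
        | none => simp [hn]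
        | some j =>
          rw [hs, hs, hs]
          by_cases hj : j = i
          · subst hj
            simp [hu0, hv0, ht0]
          · have h5 := h4 j hj
            have h6 : ¬ (i = j) := Ne.symm hj
            simp [h6]
            omega
      · show (u.map some ++ none :: (v.map some ++ some i :: t.map some)).count k = 1
        rw [List.count_append, List.count_cons, List.count_append, List.count_cons]
        cases k with
        | none => simp [hn]
        | some j =>
          rw [hs, hs, hs]
          by_cases hj : j = i
          · subst hj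
            simp [hu0, hv0, ht0]
          · have h5 := h4 j hj
            have h6 : ¬ (i = j) := Ne.symm hj
            simp [h6]
            omega
    · rw [← smul_sub, ← smul_sub, PO1_two i u v t hu (List.count_eq_zero.1 hv0)
        (List.count_eq_zero.1 ht0), PO1_cons, PO1_cons, PO1_nil, add_zero, smul_add]

private theorem PO1_list {g : ℕ} (i : Fin g) (L : List (K × List (Fin g)))
    (hL : ∀ q ∈ L, (∀ k, q.2.count k = 1) ∨ ∃ k, q.2.count k = 2 ∧
      ∀ j, j ≠ k → q.2.count j = 1) :
    ∃ L' : List (K × List (Option (Fin g))), (∀ q ∈ L', ∀ k, q.2.count k = 1) ∧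
      ∀ (x : Fin g → A) (y : A), Ew L (Function.update x i (x i + y)) - Ew L x -
        Ew L (Function.update x i y) = Ew L' (fun o => o.elim y x) := by
  induction L with
  | nil =>
    refine ⟨[], by simp, fun x y => ?_⟩
    show (0 : A) - 0 - 0 = 0
    simp
  | cons q L ih =>
    obtain ⟨L', h1, h2⟩ := ih fun q' hq' => hL q' (List.mem_cons_of_mem _ hq')
    obtain ⟨L'', h3, h4⟩ := PO1_word (A := A) i q.1 q.2 (hL q List.mem_cons_self)
    refine ⟨L'' ++ L', ?_, fun x y => ?_⟩
    · intro q' hq'
      rcases List.mem_append.1 hq' with h | h
      · exact h3 q' h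
      · exact h1 q' h
    · rw [PO1_app, ← h2, ← h4, PO1_cons, PO1_cons, PO1_cons]
      abel

end po1

/-- **PO1.** -/
theorem thm_PO1 (hR : St_RPL) : St_PO1 := by
  intro K _ A _ _ g f htop hf i
  obtain ⟨L₀, L₁, h0, h1, h2⟩ := hR K A g f htop hf
  obtain ⟨L, h3, h4⟩ := PO1_list (A := A) i (L₀ ++ L₁) (by
    intro q hq
    rcases List.mem_append.1 hq with h | h
    · exact Or.inl (h0 q h)
    · exact Or.inr (h1 q h))
  refine ⟨L, h3, fun x y => ?_⟩
  rw [← h4, h2, h2, h2, PO1_app, PO1_app, PO1_app]

end Pool.Agent.CRS
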