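import Pool.Agent.CRS.StI

/-!
Campaign CRS: module `PO2`, orderings with two equal letters as `Pu`.
-/

set_option autoImplicit false

namespace Pool.Agent.CRS

open Pool.Agent.CRR Pool.Agent.CRN Pool.Agent.CRK Pool.Agent.CRL Pool.Agent.CRM Pool.Agent.CRP
open Pool.Agent.CRQ

private theorem PO2_count {g : ℕ} (j : Fin g) (w : List (Option (Fin g))) :
    (w.map (fun o => o.elim j id)).count j = w.count none + w.count (some j) ∧
    ∀ k, k ≠ j → (w.map (fun o => o.elim j id)).count k = w.count (some k) := by
  induction w with
  | nil => simp
  | cons o w ih =>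
    obtain ⟨h1, h2⟩ := ih
    constructor
    · rw [List.map_cons, List.count_cons, List.count_cons, List.count_cons, h1]
      cases o with
      | none =>
        simp
        omega
      | some i =>
        by_cases hi : i = j
        · subst hi
          simp
          omega
        · simp [hi]
    · intro k hk
      rw [List.map_cons, List.count_cons, List.count_cons, h2 k hk]
      cases o with
      | none => simp [Ne.symm hk]
      | some i => simp

theorem thm_PO2 (hW : St_WPU) : St_PO2 := by
  intro K _ A _ _ g hN hg L j hL
  obtain ⟨E, r, l, h⟩ := hW K A g j (L.map fun q => (q.1, q.2.map (fun o => o.elim j id))) hN hg (by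
    intro q hq
    rw [List.mem_map] at hq
    obtain ⟨p, hp, rfl⟩ := hq
    refine ⟨?_, fun k hk => ?_⟩
    · show (p.2.map (fun o => o.elim j id)).count j = 2
      rw [(PO2_count j p.2).1, hL p hp none, hL p hp (some j)]
    · show (p.2.map (fun o => o.elim j id)).count k = 1
      rw [(PO2_count j p.2).2 k hk, hL p hp (some k)])
  refine ⟨E, r, l, fun x => ?_⟩
  rw [← h x]
  unfold Ew
  rw [List.map_map]
  apply congrArg List.sum
  apply List.map_congr_left
  intro q _
  show q.1 • wp (q.2.map (fun o => o.elim (x j) x)) =
    q.1 • wp ((q.2.map (fun o => o.elim j id)).map x)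
  rw [List.map_map]
  apply congrArg (fun t => q.1 • wp t)
  apply List.map_congr_left
  intro o _
  cases o <;> rfl

end Pool.Agent.CRS
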