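import Pool.Agent.CRS.StI

/-!
Campaign CRS, module POL: p = 2, a good function is additive.
-/

set_option autoImplicit false

namespace Pool.Agent.CRS

open Pool.Agent.CRR Pool.Agent.CRN Pool.Agent.CRK Pool.Agent.CRL Pool.Agent.CRM Pool.Agent.CRP
open Pool.Agent.CRQ

private theorem POL_ku (K A : Type) [CommRing K] [NonUnitalRing A] [Module K A] :
    Ku K A 2 (1 : K) := ⟨1, fun x => ⟨0, by simp⟩⟩

/-- **POL.** -/
theorem thm_POL (hPO1 : St_PO1) (hPO2 : St_PO2) (hDMO : St_DMO) : St_POL := by
  classical
  intro K _ A _ _ _ _ M H g f hB hD hN hW hG i
  have hK := hB.kst
  have hg := hB.six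
  have hN2 : N2 A := ⟨hK.cube, hK.pr⟩
  obtain ⟨L, hL, hGL⟩ := hPO1 K A g f hB.top hW i
  -- one argument in `M`
  have hM : ∀ (x : Fin g → A) (a : Fin g), x a ∈ M → f x = 0 := by
    intro x a ha
    refine hG.dep x (fun k => if k = a then 1 else 0) a (by simpa using POL_ku K A) ?_
    have h1 : ∑ k, (if k = a then (1 : K) else 0) • x k = x a := by
      have h2 : ∀ k, (if k = a then (1 : K) else 0) • x k = if k = a then x k else 0 := by
        intro k
        by_cases h3 : k = a
        · simp [h3]
        · simp [h3]
      simp only [h2]
      rw [Finset.sum_ite_eq' Finset.univ a, if_pos (Finset.mem_univ a)]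
    show ∑ k, (if k = a then (1 : K) else 0) • x k ∈ M
    rw [h1]
    exact ha
  -- two equal arguments
  have heq : ∀ (x : Fin g → A) (a b : Fin g), a ≠ b → x a = x b → f x = 0 := by
    intro x a b hab hx
    refine hG.dep x (fun k => if k = a then 1 else if k = b then -1 else 0) a
      (by simpa using POL_ku K A) ?_
    have h1 : ∑ k, (if k = a then (1 : K) else if k = b then -1 else 0) • x k = 0 := by
      have h2 : ∀ k, (if k = a then (1 : K) else if k = b then -1 else 0) • x k =
          (if k = a then x k else 0) - (if k = b then x k else 0) := by
        intro k
        by_cases h3 : k = a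
        · subst h3
          simp [hab]
        · by_cases h4 : k = b
          · subst h4
            simp [h3]
          · simp [h3, h4]
      simp only [h2]
      rw [Finset.sum_sub_distrib, Finset.sum_ite_eq' Finset.univ a,
        Finset.sum_ite_eq' Finset.univ b]
      simp [hx]
    show ∑ k, (if k = a then (1 : K) else if k = b then -1 else 0) • x k ∈ M
    rw [h1]
    exact M.zero_mem
  -- one argument is the sum of two others
  have hsum : ∀ (x : Fin g → A) (a b c : Fin g), a ≠ b → a ≠ c → b ≠ c → x a = x b + x c →
      f x = 0 := by
    intro x a b c hab hac hbc hx
    refine hG.dep x (fun k => if k = a then 1 else if k = b then -1 else if k = c then -1 else 0) a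
      (by simpa using POL_ku K A) ?_
    have h1 : ∑ k, (if k = a then (1 : K) else if k = b then -1 else if k = c then -1 else 0) • x k
        = 0 := by
      have h2 : ∀ k, (if k = a then (1 : K) else if k = b then -1 else if k = c then -1 else 0) • x k =
          (if k = a then x k else 0) - (if k = b then x k else 0) - (if k = c then x k else 0) := by
        intro k
        by_cases h3 : k = a
        · subst h3
          simp [hab, hac]
        · by_cases h4 : k = b
          · subst h4
            simp [h3, hbc]
          · by_cases h5 : k = c
            · subst h5
              simp [h3, h4]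
            · simp [h3, h4, h5]
      simp only [h2]
      rw [Finset.sum_sub_distrib, Finset.sum_sub_distrib, Finset.sum_ite_eq' Finset.univ a,
        Finset.sum_ite_eq' Finset.univ b, Finset.sum_ite_eq' Finset.univ c]
      simp [hx]
    show ∑ k, (if k = a then (1 : K) else if k = b then -1 else if k = c then -1 else 0) • x k ∈ M
    rw [h1]
    exact M.zero_mem
  have hkill : ∀ x, f x + f x = 0 := by
    intro x
    rw [← two_nsmul]
    exact (hK.h0 _ (hG.val x)).1
  have hM2 : ∀ y : A, y + y ∈ M := by
    intro y
    rw [← two_nsmul]
    exact hK.mp y
  -- the polarisation at `y = x j`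
  have h2 : ∀ j, j ≠ i → ∀ x : Fin g → A,
      f (Function.update x i (x i + x j)) - f x - f (Function.update x i (x j)) = 0 := by
    intro j hj
    obtain ⟨E, r, l, hE⟩ := hPO2 K A g hN2 hg L j hL
    have h3 : ∀ x : Fin g → A, Pu g j E r l x =
        f (Function.update x i (x i + x j)) - f x - f (Function.update x i (x j)) := by
      intro x
      rw [← hE, ← hGL]
    have h4 := hN j E r l (by
      intro x a b hab hx
      rw [h3]
      have e1 : f x = 0 := heq x a b hab hx
      have e2 : f (Function.update x i (x j)) = 0 := by
        refine heq _ i j hj.symm ?_
        rw [Function.update_self, Function.update_of_ne hj]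
      have e3 : f (Function.update x i (x i + x j)) = 0 := by
        have key : ∀ c : Fin g, c ≠ i → x i = x c → f (Function.update x i (x i + x j)) = 0 := by
          intro c hc hxc
          by_cases hcj : c = j
          · refine hM _ i ?_
            rw [Function.update_self, hxc, hcj]
            exact hM2 _
          · refine hsum _ i c j hc.symm hj.symm hcj ?_
            rw [Function.update_self, Function.update_of_ne hc, Function.update_of_ne hj, hxc]
        by_cases ha : a = i
        · subst ha
          exact key b hab.symm hx
        · by_cases hb : b = i
          · subst hb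
            exact key a hab hx.symm
          · refine heq _ a b hab ?_
            rw [Function.update_of_ne ha, Function.update_of_ne hb, hx]
      rw [e1, e2, e3]
      simp)
    intro x
    rw [← h3, h4]
  -- the values of the polarisation
  have hX : ∀ X : Option (Fin g) → A, Ew L X =
      f (Function.update (fun k => X (some k)) i (X (some i) + X none)) - f (fun k => X (some k)) -
        f (Function.update (fun k => X (some k)) i (X none)) := by
    intro X
    have h3 : X = fun o => o.elim (X none) fun k => X (some k) := by
      funext o
      cases o <;> rfl
    rw [hGL (fun k => X (some k)) (X none), ← h3]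
  have h3 : ∀ X : Option (Fin g) → A, ∀ j, X none = X (some j) → Ew L X = 0 := by
    intro X j hj
    rw [hX, hj]
    by_cases hji : j = i
    · subst hji
      have e1 : f (Function.update (fun k => X (some k)) j (X (some j) + X (some j))) = 0 := by
        refine hM _ j ?_
        rw [Function.update_self]
        exact hM2 _
      have e2 : Function.update (fun k => X (some k)) j (X (some j)) = fun k => X (some k) :=
        Function.update_eq_self j (fun k => X (some k))
      rw [e1, e2, zero_sub, ← neg_add', hkill, neg_zero]
    · exact h2 j hji fun k => X (some k)
  have h4 : ∀ X : Option (Fin g) → A, ∀ k, k ≠ i → X (some i) = X (some k) → Ew L X = 0 := by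
    intro X k hk hXk
    rw [hX]
    have e1 : f (fun k => X (some k)) = 0 := heq _ i k hk.symm hXk
    have e2 := h2 k hk (Function.update (fun k => X (some k)) i (X none))
    rw [Function.update_self, Function.update_of_ne hk, Function.update_idem,
      Function.update_idem] at e2
    have e3 : f (Function.update (fun k => X (some k)) i (X (some k))) = 0 := by
      rw [← hXk]
      have e4 : Function.update (fun k => X (some k)) i (X (some i)) = fun k => X (some k) :=
        Function.update_eq_self i (fun k => X (some k))
      rw [e4, e1]
    rw [e3, sub_zero] at e2
    rw [e1, sub_zero, hXk, add_comm (X (some k)) (X none)]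
    exact e2
  have h5 := hDMO K A M H g hB hD L hL (by
    intro X u v huv hXuv
    rcases u with _ | j
    · rcases v with _ | k
      · exact absurd rfl huv
      · exact h3 X k hXuv
    · rcases v with _ | k
      · exact h3 X j hXuv.symm
      · have hjk : j ≠ k := fun h => huv (congrArg some h)
        by_cases hj : j = i
        · subst hj
          exact h4 X k hjk.symm hXuv
        · by_cases hk : k = i
          · subst hk
            exact h4 X j hjk hXuv.symm
          · rw [hX]
            have e1 : f (fun k => X (some k)) = 0 := heq _ j k hjk hXuv
            have e2 : ∀ y, f (Function.update (fun k => X (some k)) i y) = 0 := by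
              intro y
              refine heq _ j k hjk ?_
              rw [Function.update_of_ne hj, Function.update_of_ne hk]
              exact hXuv
            rw [e1, e2, e2]
            simp)
  intro x y
  have h6 := h5 fun o => o.elim y x
  rw [← hGL] at h6
  rw [sub_sub, sub_eq_zero] at h6
  exact h6

end Pool.Agent.CRS
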