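import Pool.Agent.CRS.StI

/-!
Campaign CRS, p = 2, module PUR: a good combination of the functions with one letter twice gives a table entry.
-/

set_option autoImplicit false

namespace Pool.Agent.CRS

open Pool.Agent.CRR Pool.Agent.CRN Pool.Agent.CRK Pool.Agent.CRL Pool.Agent.CRM Pool.Agent.CRP
open Pool.Agent.CRQ

private theorem PUR_sum {K A : Type} [CommRing K] [NonUnitalRing A] [Module K A] (g : ℕ) (i : Fin g) (E : K)
    (r l : Fin g → K) (x : Fin g → A) : Pu g i E r l x = E • Vg (Xl g i.val) x +
      ∑ j ∈ Finset.univ.erase i, (r j • Vg (Pm g i.val j.val) x + l j • Vg (Qm g i.val j.val) x) := by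
  unfold Pu
  congr 1
  rw [← Finset.sum_erase Finset.univ (a := i)
    (f := fun j => if j = i then (0 : A) else r j • Vg (Pm g i.val j.val) x + l j • Vg (Qm g i.val j.val) x)
    (if_pos rfl)]
  refine Finset.sum_congr rfl fun j hj => ?_
  rw [if_neg (Finset.ne_of_mem_erase hj)]

private theorem PUR_rel (hREL : St_REL) {K A : Type} [CommRing K] [NonUnitalRing A] [Module K A] {g : ℕ} (hN : N2 A)
    (hg : 6 ≤ g) (σ : Equiv.Perm (Fin g)) (i : Fin g) (E : K) (r l : Fin g → K) (x : Fin g → A) :
    Pu g i E r l (x ∘ σ) = Pu g (σ i) E (fun j => r (σ.symm j)) (fun j => l (σ.symm j)) x := by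
  rw [PUR_sum, PUR_sum]
  obtain ⟨h1, h2⟩ := hREL A g hN hg x σ i
  rw [h1]
  congr 1
  refine Finset.sum_bij' (fun j _ => σ j) (fun j _ => σ.symm j) ?_ ?_ ?_ ?_ ?_
  · intro j hj
    exact Finset.mem_erase.2 ⟨fun h => Finset.ne_of_mem_erase hj (σ.injective h), Finset.mem_univ _⟩
  · intro j hj
    refine Finset.mem_erase.2 ⟨fun h => Finset.ne_of_mem_erase hj ?_, Finset.mem_univ _⟩
    rw [← h, Equiv.apply_symm_apply]
  · intro j _
    exact Equiv.symm_apply_apply σ j
  · intro j _
    exact Equiv.apply_symm_apply σ j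
  · intro j hj
    obtain ⟨h3, h4⟩ := h2 j (Finset.ne_of_mem_erase hj)
    rw [h3, h4, Equiv.symm_apply_apply]

private theorem PUR_good {K A : Type} [CommRing K] [NonUnitalRing A] [Module K A] {M H : AddSubgroup A} {g : ℕ}
    {f : (Fin g → A) → A} (hf : Good K 2 M H g f) (σ : Equiv.Perm (Fin g)) :
    Good K 2 M H g (fun x => f (x ∘ σ)) := by
  refine ⟨fun x => hf.val _, fun x y h => hf.inv _ _ fun i => h (σ i), fun x c j hc hs => ?_, ?_⟩
  · refine hf.dep (x ∘ σ) (c ∘ σ) (σ.symm j) ?_ ?_
    · show Ku K A 2 (c (σ (σ.symm j)))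
      rw [Equiv.apply_symm_apply]
      exact hc
    · have h := Equiv.sum_comp σ (fun i => c i • x i)
      rw [← h] at hs
      exact hs
  · obtain ⟨x, hx⟩ := hf.ne
    refine ⟨x ∘ σ.symm, ?_⟩
    have h : (x ∘ σ.symm) ∘ σ = x := by
      funext i
      show x (σ.symm (σ i)) = x i
      rw [Equiv.symm_apply_apply]
    show f ((x ∘ σ.symm) ∘ σ) ≠ 0
    rw [h]
    exact hx

private theorem PUR_one {K A : Type} [CommRing K] [NonUnitalRing A] [Module K A] : Ku K A 2 (1 : K) :=
  ⟨1, fun x => ⟨0, by rw [one_smul, one_smul, sub_self, smul_zero]⟩⟩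

/-- two equal arguments -/
private theorem PUR_eq {K A : Type} [CommRing K] [NonUnitalRing A] [Module K A] {M H : AddSubgroup A} {g : ℕ}
    {f : (Fin g → A) → A} (hf : Good K 2 M H g f) (x : Fin g → A) (a b : Fin g) (hab : a ≠ b) (h : x a = x b) :
    f x = 0 := by
  refine hf.dep x (fun k => if k = a then 1 else if k = b then -1 else 0) a ?_ ?_
  · rw [if_pos rfl]
    exact PUR_one
  · have e : ∑ k, (if k = a then (1 : K) else if k = b then -1 else 0) • x k = 0 := by
      have e1 : ∀ k : Fin g, (if k = a then (1 : K) else if k = b then -1 else 0) • x k =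
          (if k = a then x k else 0) - (if k = b then x k else 0) := by
        intro k
        by_cases h1 : k = a
        · have h2 : ¬ k = b := fun h3 => hab (h1.symm.trans h3)
          rw [if_pos h1, if_pos h1, if_neg h2, one_smul, sub_zero]
        · by_cases h2 : k = b
          · rw [if_neg h1, if_pos h2, if_neg h1, if_pos h2, neg_smul, one_smul, zero_sub]
          · rw [if_neg h1, if_neg h2, if_neg h1, if_neg h2, zero_smul, sub_zero]
      rw [Finset.sum_congr rfl fun k _ => e1 k, Finset.sum_sub_distrib, Finset.sum_ite_eq' Finset.univ a,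
        Finset.sum_ite_eq' Finset.univ b, if_pos (Finset.mem_univ _), if_pos (Finset.mem_univ _), h, sub_self]
    rw [e]
    exact M.zero_mem

theorem thm_PUR (hBAS : St_BAS) (hPUW : St_PUW) (hLIN : St_LIN) (hREL : St_REL) (hKPU : St_KPU) : St_PUR := by
  intro K _ A _ _ _ _ M H g hB i E r l hG
  have h6 := hB.six
  obtain ⟨hN, -⟩ := hBAS K A M H hB.kst
  obtain ⟨z, hz⟩ : ∃ z : Fin g, z.val = 0 := ⟨⟨0, by omega⟩, rfl⟩
  obtain ⟨u, hu⟩ : ∃ u : Fin g, u.val = 1 := ⟨⟨1, by omega⟩, rfl⟩
  have huz : u ≠ z := fun h => by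
    rw [h] at hu
    omega
  -- the letter z
  suffices key : ∀ r l : Fin g → K, Good K 2 M H g (Pu g z E r l) →
      ∃ c : List K, c.length = 5 ∧ Good K 2 M H g (Kc c [Xl g 0, SP g, SQ g, Pl g 1, Ql g 1]) by
    have h1 := PUR_good hG (Equiv.swap z i)
    have h2 : (fun x : Fin g → A => Pu g i E r l (x ∘ (Equiv.swap z i))) =
        Pu g z E (fun j => r ((Equiv.swap z i).symm j)) (fun j => l ((Equiv.swap z i).symm j)) := by
      funext x
      rw [PUR_rel hREL hN h6, Equiv.swap_apply_right]
    rw [h2] at h1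
    exact key _ _ h1
  intro r l hG
  obtain ⟨L, hL, hLe⟩ := hPUW K A g z E r l h6
  have hlin : ∀ a, a ≠ z → ∀ (x : Fin g → A) (y y' : A), Pu g z E r l (Function.update x a (y + y')) =
      Pu g z E r l (Function.update x a y) + Pu g z E r l (Function.update x a y') := by
    intro a ha x y y'
    rw [hLe, hLe, hLe]
    exact (hLIN K A (Fin g) a L fun q hq => (hL q hq).2 a ha).1 x y y'
  -- symmetric in the other letters
  have hsym : ∀ a b, a ≠ z → b ≠ z → a ≠ b → ∀ x : Fin g → A,
      Pu g z E r l (x ∘ (Equiv.swap a b)) = Pu g z E r l x := by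
    intro a b ha hb hab x
    have e0 : Pu g z E r l (Function.update (Function.update x a (x a + x b)) b (x a + x b)) = 0 := by
      apply PUR_eq hG _ a b hab
      rw [Function.update_of_ne hab, Function.update_self, Function.update_self]
    rw [hlin b hb, Function.update_comm hab, Function.update_comm hab, hlin a ha, hlin a ha] at e0
    have e1 : Pu g z E r l (Function.update (Function.update x b (x a)) a (x a)) = 0 := by
      apply PUR_eq hG _ a b hab
      rw [Function.update_self, Function.update_of_ne hab.symm, Function.update_self]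
    have e2 : Pu g z E r l (Function.update (Function.update x b (x b)) a (x b)) = 0 := by
      apply PUR_eq hG _ a b hab
      rw [Function.update_self, Function.update_of_ne hab.symm, Function.update_self]
    have e3 : Function.update (Function.update x b (x b)) a (x a) = x := by
      rw [Function.update_eq_self, Function.update_eq_self]
    have e4 : Function.update (Function.update x b (x a)) a (x b) = x ∘ (Equiv.swap a b) := by
      funext k
      show _ = x (Equiv.swap a b k)
      by_cases h1 : k = a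
      · rw [h1, Function.update_self, Equiv.swap_apply_left]
      · by_cases h2 : k = b
        · rw [h2, Function.update_of_ne hab.symm, Function.update_self, Equiv.swap_apply_right]
        · rw [Function.update_of_ne h1, Function.update_of_ne h2, Equiv.swap_apply_of_ne_of_ne h1 h2]
    rw [e1, e2, e3, e4, zero_add, add_zero] at e0
    have e5 : Pu g z E r l x + Pu g z E r l x = 0 := by
      have := (hB.kst.h0 _ (hG.val x)).1
      rwa [two_smul] at this
    calc Pu g z E r l (x ∘ (Equiv.swap a b))
        = Pu g z E r l (x ∘ (Equiv.swap a b)) + Pu g z E r l x - Pu g z E r l x := by rw [add_sub_cancel_right]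
      _ = 0 - Pu g z E r l x := by rw [e0]
      _ = Pu g z E r l x := by
        rw [zero_sub]
        exact neg_eq_of_add_eq_zero_left e5
  -- the coefficients
  have hco : ∀ a, a ≠ z → ∀ x : Fin g → A,
      (r a - r u) • Vg (Pm g z.val a.val) x + (l a - l u) • Vg (Qm g z.val a.val) x =
      (r a - r u) • Vg (Pm g z.val u.val) x + (l a - l u) • Vg (Qm g z.val u.val) x := by
    intro a ha x
    by_cases hau : a = u
    · rw [hau]
    · have h1 := hsym a u ha huz hau x
      rw [PUR_rel hREL hN h6, Equiv.swap_apply_of_ne_of_ne ha.symm huz.symm, PUR_sum, PUR_sum] at h1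
      have h2 := add_left_cancel h1
      rw [← sub_eq_zero, ← Finset.sum_sub_distrib] at h2
      rw [← Finset.add_sum_erase _ _ (Finset.mem_erase.2 ⟨ha, Finset.mem_univ a⟩),
        ← Finset.add_sum_erase _ _ (Finset.mem_erase.2 ⟨fun h => hau h.symm, Finset.mem_erase.2 ⟨huz, Finset.mem_univ u⟩⟩),
        Finset.sum_eq_zero (s := ((Finset.univ.erase z).erase a).erase u)] at h2
      · rw [Equiv.symm_swap, Equiv.swap_apply_left, Equiv.swap_apply_right, add_zero] at h2
        rw [← sub_eq_zero]
        rw [← neg_eq_zero] at h2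
        rw [← h2]
        simp only [sub_smul]
        abel
      · intro k hk
        have hk1 := Finset.mem_erase.1 hk
        have hk2 := Finset.mem_erase.1 hk1.2
        rw [Equiv.symm_swap, Equiv.swap_apply_of_ne_of_ne hk2.1 hk1.1, sub_self]
  refine ⟨[E, r u, l u, ∑ a ∈ Finset.univ.erase z, (r a - r u), ∑ a ∈ Finset.univ.erase z, (l a - l u)], rfl, ?_⟩
  have hfun : Kc [E, r u, l u, ∑ a ∈ Finset.univ.erase z, (r a - r u), ∑ a ∈ Finset.univ.erase z, (l a - l u)]
      [Xl g 0, SP g, SQ g, Pl g 1, Ql g 1] = Pu (A := A) g z E r l := by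
    funext x
    rw [hKPU K A g z E (r u) (l u) _ _ (by omega) hz x, PUR_sum, PUR_sum]
    congr 1
    have hmem : u ∈ Finset.univ.erase z := Finset.mem_erase.2 ⟨huz, Finset.mem_univ u⟩
    have s1 : ∀ j ∈ Finset.univ.erase z,
        (if j.val = 1 then r u + ∑ a ∈ Finset.univ.erase z, (r a - r u) else r u) • Vg (Pm g z.val j.val) x +
          (if j.val = 1 then l u + ∑ a ∈ Finset.univ.erase z, (l a - l u) else l u) • Vg (Qm g z.val j.val) x =
        (r u • Vg (Pm g z.val j.val) x + l u • Vg (Qm g z.val j.val) x) +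
        (if j = u then (∑ a ∈ Finset.univ.erase z, (r a - r u)) • Vg (Pm g z.val j.val) x +
          (∑ a ∈ Finset.univ.erase z, (l a - l u)) • Vg (Qm g z.val j.val) x else 0) := by
      intro j _
      by_cases hj : j = u
      · have hj1 : j.val = 1 := by rw [hj, hu]
        rw [if_pos hj1, if_pos hj1, if_pos hj, add_smul, add_smul]
        abel
      · have hj1 : ¬ j.val = 1 := fun h => hj (Fin.ext (by rw [h, hu]))
        rw [if_neg hj1, if_neg hj1, if_neg hj, add_zero]
    have s2 : ∀ j ∈ Finset.univ.erase z, r j • Vg (Pm g z.val j.val) x + l j • Vg (Qm g z.val j.val) x =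
        (r u • Vg (Pm g z.val j.val) x + l u • Vg (Qm g z.val j.val) x) +
        ((r j - r u) • Vg (Pm g z.val u.val) x + (l j - l u) • Vg (Qm g z.val u.val) x) := by
      intro j hj
      rw [← hco j (Finset.ne_of_mem_erase hj) x]
      simp only [sub_smul]
      abel
    have s3 := (Finset.sum_congr rfl s1).trans Finset.sum_add_distrib
    have s4 := (Finset.sum_congr rfl s2).trans Finset.sum_add_distrib
    rw [s3, s4]
    congr 1
    rw [Finset.sum_ite_eq' (Finset.univ.erase z) u, if_pos hmem, Finset.sum_add_distrib, Finset.sum_smul,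
      Finset.sum_smul]
  rw [hfun]
  exact hG

end Pool.Agent.CRS
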