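import Pool.Agent.CRS.StI

/-!
Campaign CRS, p = 2, module PUW: `Pu` as a list of words.
-/

set_option autoImplicit false

namespace Pool.Agent.CRS

open Pool.Agent.CRR Pool.Agent.CRN Pool.Agent.CRK Pool.Agent.CRL Pool.Agent.CRM Pool.Agent.CRP
open Pool.Agent.CRQ

private theorem PUW_val {A : Type} {g : ℕ} [NonUnitalRing A] (x : Fin g → A) (w : List (Fin g)) :
    (w.map Fin.val).map (xs x) = w.map x := by
  rw [List.map_map]
  apply List.map_congr_left
  intro i _
  show xs x i.val = x i
  unfold xs
  rw [dif_pos i.isLt]

private theorem PUW_two {A : Type} [NonUnitalRing A] {g : ℕ} (x : Fin g → A) (u v : List (Fin g)) :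
    Vg [((1 : ℤ), u.map Fin.val), (1, v.map Fin.val)] x = wp (u.map x) + wp (v.map x) := by
  show (1 : ℤ) • wp ((u.map Fin.val).map (xs x)) +
    ((1 : ℤ) • wp ((v.map Fin.val).map (xs x)) + 0) = _
  rw [PUW_val, PUW_val, one_smul, one_smul, add_zero]

/-- the letter `i` twice and the others once -/
private def PUW_C {g : ℕ} (i : Fin g) (w : List (Fin g)) : Prop :=
  w.count i = 2 ∧ ∀ j, j ≠ i → w.count j = 1

private theorem PUW_lists {A : Type} [NonUnitalRing A] (g : ℕ) (i : Fin g) (hg : 6 ≤ g) :
    (∃ u v : List (Fin g), PUW_C i u ∧ PUW_C i v ∧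
      ∀ x : Fin g → A, Vg (Xl g i.val) x = wp (u.map x) + wp (v.map x)) ∧
    ∀ j : Fin g, j ≠ i →
    (∃ u v : List (Fin g), PUW_C i u ∧ PUW_C i v ∧
      ∀ x : Fin g → A, Vg (Pm g i.val j.val) x = wp (u.map x) + wp (v.map x)) ∧
    (∃ u v : List (Fin g), PUW_C i u ∧ PUW_C i v ∧
      ∀ x : Fin g → A, Vg (Qm g i.val j.val) x = wp (u.map x) + wp (v.map x)) := by
  have hP : ∀ w : List (Fin g), w.Perm (i :: List.finRange g) → PUW_C i w := by
    intro w hp
    constructor
    · rw [hp.count_eq, List.count_cons_self,
        List.count_eq_one_of_mem (List.nodup_finRange g) (List.mem_finRange i)]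
    · intro j hj
      rw [hp.count_eq, List.count_cons_of_ne (Ne.symm hj),
        List.count_eq_one_of_mem (List.nodup_finRange g) (List.mem_finRange j)]
  obtain ⟨L0, hL0⟩ : ∃ L0 : List (Fin g), L0 = (List.finRange g).erase i := ⟨_, rfl⟩
  have hp0 : (List.finRange g).Perm (i :: L0) := by
    rw [hL0]
    exact List.perm_cons_erase (List.mem_finRange i)
  have hlen : L0.length + 1 = g := by
    have := hp0.length_eq
    rw [List.length_finRange, List.length_cons] at this
    omega
  have hm0 : L0.map Fin.val = (List.range g).erase i.val := by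
    rw [hL0, List.map_erase Fin.val_injective]
    congr 1
    exact List.map_coe_finRange_eq_range
  have hc0 : ∀ k, (List.finRange g).count k = (i :: L0).count k := fun k => hp0.count_eq k
  refine ⟨?_, fun j hj => ?_⟩
  · obtain ⟨a, m, rfl⟩ : ∃ a m, L0 = a :: m := by
      cases L0 with
      | nil => simp at hlen; omega
      | cons a m => exact ⟨a, m, rfl⟩
    have e1 : Xl g i.val = [((1 : ℤ), (a :: i :: i :: m).map Fin.val),
        (1, (i :: (m ++ [a, i])).map Fin.val)] := by
      unfold Xl
      rw [← hm0]
      simp
    refine ⟨a :: i :: i :: m, i :: (m ++ [a, i]), hP _ ?_, hP _ ?_, fun x => by rw [e1, PUW_two]⟩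
    · rw [List.perm_iff_count]
      intro k
      rw [List.count_cons (l := List.finRange g), hc0 k]
      simp only [List.count_cons]
      ring
    · rw [List.perm_iff_count]
      intro k
      rw [List.count_cons (l := List.finRange g), hc0 k]
      simp only [List.count_cons, List.count_append, List.count_nil]
      ring
  · have hjL : j ∈ L0 := by
      have := hp0.mem_iff.1 (List.mem_finRange j)
      rcases List.mem_cons.1 this with h | h
      · exact absurd h hj
      · exact h
    obtain ⟨L1, hL1⟩ : ∃ L1 : List (Fin g), L1 = L0.erase j := ⟨_, rfl⟩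
    have hp1 : L0.Perm (j :: L1) := by
      rw [hL1]
      exact List.perm_cons_erase hjL
    have hm1 : L1.map Fin.val = ((List.range g).erase i.val).erase j.val := by
      rw [hL1, List.map_erase Fin.val_injective, hm0]
    have hc1 : ∀ k, L0.count k = (j :: L1).count k := fun k => hp1.count_eq k
    constructor
    · have e1 : Pm g i.val j.val = [((1 : ℤ), (i :: j :: i :: L1).map Fin.val),
          (1, (i :: (L1 ++ [j, i])).map Fin.val)] := by
        unfold Pm
        rw [← hm1]
        simp
      refine ⟨i :: j :: i :: L1, i :: (L1 ++ [j, i]), hP _ ?_, hP _ ?_, fun x => by rw [e1, PUW_two]⟩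
      · rw [List.perm_iff_count]
        intro k
        rw [List.count_cons (l := List.finRange g), hc0 k, List.count_cons (l := L0), hc1 k]
        simp only [List.count_cons]
        ring
      · rw [List.perm_iff_count]
        intro k
        rw [List.count_cons (l := List.finRange g), hc0 k, List.count_cons (l := L0), hc1 k]
        simp only [List.count_cons, List.count_append, List.count_nil]
        ring
    · have e1 : Qm g i.val j.val = [((1 : ℤ), (L1 ++ [i, j, i]).map Fin.val),
          (1, (i :: j :: (L1 ++ [i])).map Fin.val)] := by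
        unfold Qm
        rw [← hm1]
        simp
      refine ⟨L1 ++ [i, j, i], i :: j :: (L1 ++ [i]), hP _ ?_, hP _ ?_, fun x => by rw [e1, PUW_two]⟩
      · rw [List.perm_iff_count]
        intro k
        rw [List.count_cons (l := List.finRange g), hc0 k, List.count_cons (l := L0), hc1 k]
        simp only [List.count_cons, List.count_append, List.count_nil]
        ring
      · rw [List.perm_iff_count]
        intro k
        rw [List.count_cons (l := List.finRange g), hc0 k, List.count_cons (l := L0), hc1 k]
        simp only [List.count_cons, List.count_append, List.count_nil]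
        ring

private theorem PUW_cons {K A ι : Type} [CommRing K] [NonUnitalRing A] [Module K A]
    (q : K × List ι) (L : List (K × List ι)) (x : ι → A) :
    Ew (q :: L) x = q.1 • wp (q.2.map x) + Ew L x := by
  unfold Ew
  rw [List.map_cons, List.sum_cons]

theorem thm_PUW : St_PUW := by
  intro K _ A _ _ g i E r l hg
  obtain ⟨⟨u, v, hu, hv, huv⟩, hj⟩ := PUW_lists (A := A) g i hg
  have main : ∀ s : Finset (Fin g), ∃ L : List (K × List (Fin g)), (∀ q ∈ L, PUW_C i q.2) ∧
      ∀ x : Fin g → A, (∑ j ∈ s, if j = i then 0 else
        r j • Vg (Pm g i.val j.val) x + l j • Vg (Qm g i.val j.val) x) = Ew L x := by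
    intro s
    induction s using Finset.induction_on with
    | empty => exact ⟨[], fun q hq => absurd hq List.not_mem_nil, fun x => rfl⟩
    | insert a s ha ih =>
      obtain ⟨L, hL1, hL2⟩ := ih
      by_cases hai : a = i
      · refine ⟨L, hL1, fun x => ?_⟩
        rw [Finset.sum_insert ha, if_pos hai, zero_add, hL2]
      · obtain ⟨⟨u₁, v₁, hu₁, hv₁, huv₁⟩, ⟨u₂, v₂, hu₂, hv₂, huv₂⟩⟩ := hj a hai
        refine ⟨(r a, u₁) :: (r a, v₁) :: (l a, u₂) :: (l a, v₂) :: L, ?_, fun x => ?_⟩
        · intro q hq
          simp only [List.mem_cons] at hq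
          rcases hq with rfl | rfl | rfl | rfl | hq
          · exact hu₁
          · exact hv₁
          · exact hu₂
          · exact hv₂
          · exact hL1 q hq
        · rw [Finset.sum_insert ha, if_neg hai, hL2, huv₁, huv₂, PUW_cons, PUW_cons, PUW_cons, PUW_cons,
            smul_add, smul_add]
          simp only [add_assoc]
  obtain ⟨L, hL1, hL2⟩ := main Finset.univ
  refine ⟨(E, u) :: (E, v) :: L, ?_, fun x => ?_⟩
  · intro q hq
    simp only [List.mem_cons] at hq
    rcases hq with rfl | rfl | hq
    · exact hu
    · exact hv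
    · exact hL1 q hq
  · unfold Pu
    rw [hL2, huv, PUW_cons, PUW_cons, smul_add]
    simp only [add_assoc]

end Pool.Agent.CRS
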