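import Pool.Agent.CRS.StI
import Mathlib.Tactic

/-!
Campaign CRS, module REL: relabelling (Lean: helper3).
-/

set_option autoImplicit false

namespace Pool.Agent.CRS

open Pool.Agent.CRR Pool.Agent.CRN Pool.Agent.CRK Pool.Agent.CRL Pool.Agent.CRM Pool.Agent.CRP
open Pool.Agent.CRQ

theorem thm_REL : St_K2 → St_TBK → St_WG → St_REL := by
  intro hK2 hTBK hWG A _ g hN hg x σ i
  obtain ⟨-, hW2, -, -, -, hW6⟩ := hWG
  obtain ⟨κ, hκ1, hκ2, hκ3⟩ := hK2 A hN (Fin g) (by rw [Fintype.card_fin]; omega) (σ i) x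
  have h1 := hTBK A hN g x (σ i) κ hg hκ1 hκ2 hκ3
  have hmem : ∀ y ∈ Wg x, y ∈ Wg (x ∘ σ) := by
    intro y hy
    refine hW6 A (Fin g) (Fin g) (x ∘ σ) σ.symm y ?_
    have e1 : (fun k => (x ∘ σ) (σ.symm k)) = x := by
      funext k
      show x (σ (σ.symm k)) = x k
      rw [Equiv.apply_symm_apply]
    rw [e1]
    exact hy
  have hcnt : ∀ (w : List (Fin g)) (j : Fin g), (w.map σ).count (σ j) = w.count j := fun w j =>
    List.count_map_of_injective w σ σ.injective j
  have h2 := hTBK A hN g (x ∘ σ) i (fun j k => κ (σ j) (σ k)) hg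
    (fun j k => hmem _ (hκ1 _ _))
    (fun j k hj hk => hκ2 _ _ (fun h => hj (σ.injective h)) (fun h => hk (σ.injective h)))
    (by
      intro w hw1 hw2
      have e1 : w.map (x ∘ σ) = (w.map σ).map x := by rw [List.map_map]
      rw [e1, hκ3 (w.map σ) (by rw [hcnt]; exact hw1) ?_, hW2]
      intro j hj
      obtain ⟨k, rfl⟩ := σ.surjective j
      rw [hcnt]
      exact hw2 k (fun h => hj (by rw [h])))
  refine ⟨h2.1.trans h1.1.symm, fun j hj => ?_⟩
  have h3 := h2.2 j hj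
  have h4 := h1.2 (σ j) (fun h => hj (σ.injective h))
  exact ⟨h3.1.trans h4.1.symm, h3.2.trans h4.2.symm⟩

end Pool.Agent.CRS
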