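import Pool.Agent.CRS.StF

/-!
CRS RLA: two arcs by lists of orderings (helper76).
-/

set_option autoImplicit false

namespace Pool.Agent.CRS

private def RLA_D (g a b c d : ℕ) : Prop := ∃ L : List (ℤ × List ℕ),
  (∀ q ∈ L, q.1 = 1 ∧ q.2.Perm (List.range g)) ∧ L.length % 2 = 0 ∧
  ∀ i j, i < g → j < g → cnt L i j % 2 =
    ((if i = a ∧ j = b then 1 else 0) + (if i = c ∧ j = d then 1 else 0)) % 2

private theorem RLA_adj {A : Type} [AddCommMonoid A] (κ : ℕ → ℕ → A) (a b : ℕ) :
    ∀ u : List ℕ, adj κ (u ++ [a, b]) = adj κ (u ++ [a]) + κ a b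
  | [] => by simp [adj]
  | [c] => by simp [adj]
  | c :: d :: u => by
      have h := RLA_adj κ a b (d :: u)
      simp only [List.cons_append, adj] at h ⊢
      rw [h, add_assoc]

private theorem RLA_cnt (L L' : List (ℤ × List ℕ)) (i j : ℕ) :
    cnt (L ++ L') i j = cnt L i j + cnt L' i j := by
  unfold cnt
  rw [List.map_append, List.sum_append]

private theorem RLA_base {g x y z : ℕ} (hx : x < g) (hy : y < g) (hz : z < g) (hxy : x ≠ y)
    (hzx : z ≠ x) (hzy : z ≠ y) : RLA_D g z x x y := by
  obtain ⟨m, hm⟩ : ∃ m : List ℕ, m = (((List.range g).erase x).erase y).erase z := ⟨_, rfl⟩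
  have p1 : (x :: y :: z :: m).Perm (List.range g) := by
    have h1 : (x :: (List.range g).erase x).Perm (List.range g) :=
      (List.perm_cons_erase (List.mem_range.2 hx)).symm
    have h2 : (y :: ((List.range g).erase x).erase y).Perm ((List.range g).erase x) :=
      (List.perm_cons_erase ((List.mem_erase_of_ne hxy.symm).2 (List.mem_range.2 hy))).symm
    have h3 : (z :: (((List.range g).erase x).erase y).erase z).Perm
        (((List.range g).erase x).erase y) :=
      (List.perm_cons_erase ((List.mem_erase_of_ne hzy).2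
        ((List.mem_erase_of_ne hzx).2 (List.mem_range.2 hz)))).symm
    rw [hm]
    exact (((h3.cons y).trans h2).cons x).trans h1
  have p2 : (x :: (y :: m ++ [z])).Perm (List.range g) := by
    refine List.Perm.trans (List.Perm.cons x ?_) p1
    rw [List.cons_append]
    exact List.Perm.cons y (List.perm_append_singleton z m)
  have p3 : ((y :: m) ++ [z, x]).Perm (List.range g) := by
    refine List.Perm.trans ?_ p2
    have e : (y :: m) ++ [z, x] = (y :: m ++ [z]) ++ [x] := by simp
    rw [e]
    exact List.perm_append_singleton x _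
  refine ⟨[(1, x :: (y :: m ++ [z])), (1, (y :: m) ++ [z, x])], ?_, by simp, ?_⟩
  · intro q hq
    rcases List.mem_cons.1 hq with h | h
    · rw [h]
      exact ⟨rfl, p2⟩
    · rw [List.mem_singleton] at h
      rw [h]
      exact ⟨rfl, p3⟩
  · intro i j _ _
    unfold cnt
    simp only [List.map_cons, List.map_nil, List.sum_cons, List.sum_nil, add_zero]
    rw [RLA_adj]
    have e1 : adj (fun a b => if a = i ∧ b = j then 1 else 0) (x :: (y :: m ++ [z]))
        = (if x = i ∧ y = j then 1 else 0)
          + adj (fun a b => if a = i ∧ b = j then 1 else 0) (y :: m ++ [z]) := by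
      simp only [List.cons_append, adj]
    rw [e1]
    have f1 : (if x = i ∧ y = j then 1 else 0) = (if i = x ∧ j = y then 1 else 0) := by
      simp only [eq_comm]
    have f2 : (if z = i ∧ x = j then 1 else 0) = (if i = z ∧ j = x then 1 else 0) := by
      simp only [eq_comm]
    rw [f1, f2]
    omega

private theorem RLA_trans {g a b c d e f : ℕ} (h : RLA_D g a b c d) (h' : RLA_D g c d e f) :
    RLA_D g a b e f := by
  obtain ⟨L, h1, h2, h3⟩ := h
  obtain ⟨L', k1, k2, k3⟩ := h'
  refine ⟨L ++ L', ?_, ?_, ?_⟩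
  · intro q hq
    rcases List.mem_append.1 hq with h | h
    · exact h1 q h
    · exact k1 q h
  · rw [List.length_append]
    omega
  · intro i j hi hj
    have a1 := h3 i j hi hj
    have a2 := k3 i j hi hj
    rw [RLA_cnt]
    omega

private theorem RLA_ex (a b : ℕ) : ∃ c, c < 6 ∧ c ≠ a ∧ c ≠ b ∧ c ≠ 0 ∧ c ≠ 1 := by
  by_cases h2 : 2 ≠ a ∧ 2 ≠ b
  · exact ⟨2, by omega, h2.1, h2.2, by omega, by omega⟩
  · by_cases h3 : 3 ≠ a ∧ 3 ≠ b
    · exact ⟨3, by omega, h3.1, h3.2, by omega, by omega⟩
    · exact ⟨4, by omega, by omega, by omega, by omega, by omega⟩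

theorem thm_RLA : St_RLA := by
  intro g a b hg ha hb hab
  have h0 : 0 < g := by omega
  have h1 : 1 < g := by omega
  have h2 : 2 < g := by omega
  have h3 : 3 < g := by omega
  have key : RLA_D g a b 0 1 := by
    by_cases hb0 : b = 0
    · subst hb0
      by_cases ha1 : a = 1
      · subst ha1
        have k1 : RLA_D g 1 0 0 2 := RLA_base h0 h2 h1 (by omega) (by omega) (by omega)
        have k2 : RLA_D g 0 2 2 3 := RLA_base h2 h3 h0 (by omega) (by omega) (by omega)
        have k3 : RLA_D g 2 3 3 0 := RLA_base h3 h0 h2 (by omega) (by omega) (by omega)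
        have k4 : RLA_D g 3 0 0 1 := RLA_base h0 h1 h3 (by omega) (by omega) (by omega)
        exact RLA_trans (RLA_trans k1 k2) (RLA_trans k3 k4)
      · exact RLA_base h0 h1 ha (by omega) (by omega) ha1
    · obtain ⟨c, hc, hca, hcb, hc0, hc1⟩ := RLA_ex a b
      have hcg : c < g := by omega
      have k1 : RLA_D g a b b c := RLA_base hb hcg ha (by omega) hab (by omega)
      have k2 : RLA_D g b c c 0 := RLA_base hcg h0 hb hc0 (by omega) hb0
      have k3 : RLA_D g c 0 0 1 := RLA_base h0 h1 hcg (by omega) hc0 hc1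
      exact RLA_trans k1 (RLA_trans k2 k3)
  exact key

end Pool.Agent.CRS
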