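import Pool.Agent.CRS.StF

/-!
CRS RLB: realisation of arc sets (helper65).
-/

set_option autoImplicit false

namespace Pool.Agent.CRS

private theorem RLB_adj {A : Type} [AddCommMonoid A] (κ : ℕ → ℕ → A) (a b : ℕ) :
    ∀ u : List ℕ, adj κ (u ++ [a, b]) = adj κ (u ++ [a]) + κ a b
  | [] => by simp [adj]
  | [c] => by simp [adj]
  | c :: d :: u => by
      have h := RLB_adj κ a b (d :: u)
      simp only [List.cons_append, adj] at h ⊢
      rw [h, add_assoc]

private theorem RLB_path (i j : ℕ) (n : ℕ) :
    adj (fun a b => if a = i ∧ b = j then 1 else 0) (List.range (n + 1))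
      = ((List.range n).map fun k => (k, k + 1)).count (i, j) := by
  induction n with
  | zero => simp [adj]
  | succ n ih =>
    have e1 : List.range (n + 1 + 1) = List.range n ++ [n, n + 1] := by
      rw [List.range_succ, List.range_succ]
      simp
    rw [e1, RLB_adj, ← List.range_succ, ih]
    conv_rhs => rw [List.range_succ, List.map_append, List.count_append]
    congr 1
    simp only [List.map_cons, List.map_nil, List.count_cons, List.count_nil, zero_add]
    by_cases h : n = i ∧ n + 1 = j
    · rw [if_pos h, if_pos]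
      obtain ⟨h1, h2⟩ := h
      rw [h1] at h2 ⊢
      rw [h2]
      simp
    · rw [if_neg h, if_neg]
      intro hc
      apply h
      have hc' : (n, n + 1) = (i, j) := by simpa using hc
      exact ⟨(Prod.mk.inj hc').1, (Prod.mk.inj hc').2⟩

private theorem RLB_cnt (L L' : List (ℤ × List ℕ)) (i j : ℕ) :
    cnt (L ++ L') i j = cnt L i j + cnt L' i j := by
  unfold cnt
  rw [List.map_append, List.sum_append]

private theorem RLB_list (hA : St_RLA) (g : ℕ) (hg : 6 ≤ g) (l : List (ℕ × ℕ))
    (hl : ∀ q ∈ l, q.1 < g ∧ q.2 < g ∧ q.1 ≠ q.2) :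
    ∃ L : List (ℤ × List ℕ), (∀ q ∈ L, q.1 = 1 ∧ q.2.Perm (List.range g)) ∧ L.length % 2 = 0 ∧
      ∀ i j, i < g → j < g →
        cnt L i j % 2 = (l.count (i, j) + (if i = 0 ∧ j = 1 then l.length else 0)) % 2 := by
  induction l with
  | nil =>
    refine ⟨[], by simp, by simp, ?_⟩
    intro i j _ _
    simp [cnt]
  | cons p l ih =>
    obtain ⟨L, h1, h2, h3⟩ := ih (fun q hq => hl q (List.mem_cons_of_mem _ hq))
    obtain ⟨hp1, hp2, hp3⟩ := hl p List.mem_cons_self
    obtain ⟨L', k1, k2, k3⟩ := hA g p.1 p.2 hg hp1 hp2 hp3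
    refine ⟨L' ++ L, ?_, ?_, ?_⟩
    · intro q hq
      rcases List.mem_append.1 hq with h | h
      · exact k1 q h
      · exact h1 q h
    · rw [List.length_append]
      omega
    · intro i j hi hj
      have a1 := h3 i j hi hj
      have a2 := k3 i j hi hj
      rw [RLB_cnt, List.count_cons, List.length_cons]
      have e : (if (p == (i, j)) = true then 1 else 0) = (if i = p.1 ∧ j = p.2 then 1 else 0) := by
        by_cases h : i = p.1 ∧ j = p.2
        · rw [if_pos h, if_pos]
          rw [h.1, h.2]
          simp
        · rw [if_neg h, if_neg]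
          intro hc
          apply h
          have hc' : p = (i, j) := by simpa using hc
          rw [hc']
          exact ⟨rfl, rfl⟩
      rw [e]
      by_cases hz : i = 0 ∧ j = 1
      · simp only [if_pos hz] at a1 a2 ⊢
        omega
      · simp only [if_neg hz] at a1 a2 ⊢
        omega

theorem thm_RLB : St_RLA → St_RLB := by
  classical
  intro hA g c E hg hE hcard
  obtain ⟨F, hF⟩ : ∃ F : Finset (ℕ × ℕ), F = ((Finset.range g) ×ˢ (Finset.range g)).filter
    fun q : ℕ × ℕ => E q.1 q.2 := ⟨_, rfl⟩
  have hmem : ∀ i j, i < g → j < g → ((i, j) ∈ F.toList ↔ E i j) := by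
    intro i j hi hj
    rw [Finset.mem_toList, hF, Finset.mem_filter, Finset.mem_product, Finset.mem_range,
      Finset.mem_range]
    exact ⟨fun h => h.2, fun h => ⟨⟨hi, hj⟩, h⟩⟩
  have hFl : ∀ q ∈ F.toList, q.1 < g ∧ q.2 < g ∧ q.1 ≠ q.2 := by
    intro q hq
    rw [Finset.mem_toList, hF, Finset.mem_filter, Finset.mem_product, Finset.mem_range,
      Finset.mem_range] at hq
    refine ⟨hq.1.1, hq.1.2, fun h => ?_⟩
    have := hq.2
    rw [h] at this
    exact hE _ this
  have hcount : ∀ i j, i < g → j < g → (F.toList.count (i, j) = 1 ↔ E i j) ∧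
      F.toList.count (i, j) ≤ 1 := by
    intro i j hi hj
    have e := List.Nodup.count (a := (i, j)) F.nodup_toList
    rw [e]
    by_cases h : (i, j) ∈ F.toList
    · rw [if_pos h]
      exact ⟨⟨fun _ => (hmem i j hi hj).1 h, fun _ => rfl⟩, le_refl _⟩
    · rw [if_neg h]
      refine ⟨⟨fun h0 => absurd h0 (by norm_num), fun h0 => absurd ((hmem i j hi hj).2 h0) h⟩, ?_⟩
      norm_num
  have hcard' : F.toList.length % 2 = ((g - 1) * c) % 2 := by
    rw [Finset.length_toList, hF]
    exact hcard
  rcases Nat.even_or_odd c with hc | hc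
  · -- `c` even
    obtain ⟨L, h1, h2, h3⟩ := RLB_list hA g hg F.toList hFl
    have hc0 : c % 2 = 0 := Nat.even_iff.1 hc
    have hl0 : F.toList.length % 2 = 0 := by
      rw [hcard', Nat.mul_mod, hc0]
      simp
    refine ⟨L, ⟨fun q hq => (h1 q hq).1, fun q hq => (h1 q hq).2, by omega, ?_⟩⟩
    intro i j hi hj
    have a1 := h3 i j hi hj
    obtain ⟨b1, b2⟩ := hcount i j hi hj
    rw [← b1]
    by_cases hz : i = 0 ∧ j = 1
    · rw [if_pos hz] at a1
      omega
    · rw [if_neg hz] at a1
      omega
  · -- `c` odd
    obtain ⟨L, h1, h2, h3⟩ := RLB_list hA g hg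
      (F.toList ++ (List.range (g - 1)).map fun k => (k, k + 1)) (by
        intro q hq
        rcases List.mem_append.1 hq with h | h
        · exact hFl q h
        · rw [List.mem_map] at h
          obtain ⟨k, hk, rfl⟩ := h
          rw [List.mem_range] at hk
          refine ⟨?_, ?_, ?_⟩
          · show k < g
            omega
          · show k + 1 < g
            omega
          · show k ≠ k + 1
            omega)
    have hc1 : c % 2 = 1 := Nat.odd_iff.1 hc
    have hl0 : (F.toList ++ (List.range (g - 1)).map fun k => (k, k + 1)).length % 2 = 0 := by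
      rw [List.length_append, List.length_map, List.length_range, Nat.add_mod, hcard',
        Nat.mul_mod, hc1]
      omega
    refine ⟨L ++ [(1, List.range g)], ⟨?_, ?_, ?_, ?_⟩⟩
    · intro q hq
      rcases List.mem_append.1 hq with h | h
      · exact (h1 q h).1
      · rw [List.mem_singleton] at h
        rw [h]
    · intro q hq
      rcases List.mem_append.1 hq with h | h
      · exact (h1 q h).2
      · rw [List.mem_singleton] at h
        rw [h]
    · rw [List.length_append, List.length_singleton]
      omega
    · intro i j hi hj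
      have a1 := h3 i j hi hj
      obtain ⟨b1, b2⟩ := hcount i j hi hj
      have e1 : cnt [((1 : ℤ), List.range g)] i j
          = ((List.range (g - 1)).map fun k => (k, k + 1)).count (i, j) := by
        have h := RLB_path i j (g - 1)
        have hg1 : g - 1 + 1 = g := by omega
        rw [hg1] at h
        rw [← h]
        simp [cnt]
      rw [RLB_cnt, e1, ← b1]
      rw [List.count_append] at a1
      by_cases hz : i = 0 ∧ j = 1
      · rw [if_pos hz] at a1
        omega
      · rw [if_neg hz] at a1
        omega

end Pool.Agent.CRS
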