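import Pool.Agent.CRS.StI

/-!
Campaign CRS, module RPL: p = 2, the words of length `g` and `g + 1` of a word function.
-/

set_option autoImplicit false

namespace Pool.Agent.CRS

open Pool.Agent.CRR Pool.Agent.CRN Pool.Agent.CRK Pool.Agent.CRL Pool.Agent.CRM Pool.Agent.CRP
open Pool.Agent.CRQ

private theorem RPL_fin {g : ℕ} (w : List ℕ) (hw : ∀ i ∈ w, i < g) :
    ∃ w' : List (Fin g), w'.map Fin.val = w := by
  induction w with
  | nil => exact ⟨[], rfl⟩
  | cons a w ih =>
    obtain ⟨w', hw'⟩ := ih fun i hi => hw i (List.mem_cons_of_mem _ hi)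
    exact ⟨⟨a, hw a List.mem_cons_self⟩ :: w', by rw [List.map_cons, hw']⟩

private theorem RPL_sum {g : ℕ} (w : List (Fin g)) : ∑ i, w.count i = w.length := by
  have h := Multiset.sum_count_eq_card (s := Finset.univ) (m := (w : Multiset (Fin g)))
    (fun a _ => Finset.mem_univ a)
  simpa using h

private theorem RPL_dsum {g : ℕ} (w : List (Fin g)) (h : ∀ i, i ∈ w) :
    ∑ i, (w.count i - 1) + g = w.length := by
  rw [← RPL_sum w]
  have h1 : ∀ i, w.count i = (w.count i - 1) + 1 := by
    intro i
    have := List.count_pos_iff.2 (h i)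
    omega
  have h2 : ∑ i, w.count i = ∑ i, ((w.count i - 1) + 1) := Finset.sum_congr rfl fun i _ => h1 i
  rw [h2, Finset.sum_add_distrib]
  simp

/-- **RPL.** -/
theorem thm_RPL : St_RPL := by
  classical
  intro K _ A _ _ g f htop hf
  obtain ⟨L, hL, hf⟩ := hf
  suffices h : ∃ L₀ L₁ : List (K × List (Fin g)), (∀ q ∈ L₀, ∀ i, q.2.count i = 1) ∧
      (∀ q ∈ L₁, ∃ i, q.2.count i = 2 ∧ ∀ j, j ≠ i → q.2.count j = 1) ∧
      ∀ x : Fin g → A, (L.map fun q => q.1 • wp (q.2.map (xs x))).sum = Ew L₀ x + Ew L₁ x by
    obtain ⟨L₀, L₁, h0, h1, h2⟩ := h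
    exact ⟨L₀, L₁, h0, h1, fun x => by rw [hf, h2]⟩
  clear hf
  induction L with
  | nil =>
    refine ⟨[], [], by simp, by simp, fun x => ?_⟩
    simp [Ew]
  | cons q L ih =>
    obtain ⟨L₀, L₁, h0, h1, h2⟩ := ih fun q hq => hL q (List.mem_cons_of_mem _ hq)
    obtain ⟨-, hq⟩ := hL q List.mem_cons_self
    obtain ⟨w, hw⟩ := RPL_fin q.2 fun i hi => (hq i).1 hi
    have hall : ∀ i, i ∈ w := by
      intro i
      have h3 : (i : ℕ) ∈ w.map Fin.val := by
        rw [hw]
        exact (hq i).2 i.2
      obtain ⟨j, hj, hji⟩ := List.mem_map.1 h3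
      rwa [Fin.ext hji] at hj
    have hval : ∀ x : Fin g → A, q.2.map (xs x) = w.map x := by
      intro x
      rw [← hw, List.map_map]
      apply List.map_congr_left
      intro i _
      show xs x (i : ℕ) = x i
      unfold xs
      rw [dif_pos i.2]
    have hds := RPL_dsum w hall
    by_cases hl : g + 2 ≤ w.length
    · refine ⟨L₀, L₁, h0, h1, fun x => ?_⟩
      rw [List.map_cons, List.sum_cons, h2, hval, htop (w.map x) (by simpa using hl), smul_zero,
        zero_add]
    · by_cases hl' : w.length = g
      · refine ⟨(q.1, w) :: L₀, L₁, ?_, h1, fun x => ?_⟩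
        · intro r hr i
          rcases List.mem_cons.1 hr with rfl | hr
          · have h3 : ∑ i, (w.count i - 1) = 0 := by omega
            have h4 := (Finset.sum_eq_zero_iff.1 h3) i (Finset.mem_univ i)
            have h5 := List.count_pos_iff.2 (hall i)
            show w.count i = 1
            omega
          · exact h0 r hr i
        · rw [List.map_cons, List.sum_cons, h2, hval, ← add_assoc]
          congr 1
      · refine ⟨L₀, (q.1, w) :: L₁, h0, ?_, fun x => ?_⟩
        · intro r hr
          rcases List.mem_cons.1 hr with rfl | hr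
          · have h3 : ∑ i, (w.count i - 1) = 1 := by omega
            obtain ⟨i, -, hi⟩ : ∃ i ∈ Finset.univ, w.count i - 1 ≠ 0 := by
              apply Finset.exists_ne_zero_of_sum_ne_zero
              rw [h3]
              exact one_ne_zero
            have h4 : w.count i - 1 + ∑ j ∈ Finset.univ.erase i, (w.count j - 1) = 1 := by
              rw [Finset.add_sum_erase Finset.univ (fun j => w.count j - 1) (Finset.mem_univ i), h3]
            refine ⟨i, ?_, fun j hj => ?_⟩
            · show w.count i = 2
              omega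
            · have h5 : ∑ j ∈ Finset.univ.erase i, (w.count j - 1) = 0 := by omega
              have h6 := (Finset.sum_eq_zero_iff.1 h5) j (Finset.mem_erase.2 ⟨hj, Finset.mem_univ j⟩)
              have h7 := List.count_pos_iff.2 (hall j)
              show w.count j = 1
              omega
          · exact h1 r hr
        · rw [List.map_cons, List.sum_cons, h2, hval]
          have h3 : Ew ((q.1, w) :: L₁) x = q.1 • wp (w.map x) + Ew L₁ x := by
            unfold Ew
            rw [List.map_cons, List.sum_cons]
          rw [h3]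
          abel

end Pool.Agent.CRS
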