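import Pool.Agent.CRS.StG
import Mathlib.Tactic

/-!
Campaign CRS, module Rct: the four term relation (Lean: helper3).
-/

set_option autoImplicit false

namespace Pool.Agent.CRS

open Pool.Agent.CRR Pool.Agent.CRN Pool.Agent.CRK Pool.Agent.CRL Pool.Agent.CRM Pool.Agent.CRP
open Pool.Agent.CRQ

private lemma rct_eq {V : Type} [AddCommGroup V] (h : ∀ v : V, v + v = 0) {a b : V}
    (hab : a + b = 0) : a = b := by
  have h1 := h b
  calc a = a + (b + b) := by rw [h1, add_zero]
    _ = (a + b) + b := by rw [add_assoc]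
    _ = b := by rw [hab, zero_add]

private lemma rct_ex {g : ℕ} (hg : 5 ≤ g) (a b c : Fin g) : ∃ j : Fin g, j ≠ a ∧ j ≠ b ∧ j ≠ c := by
  by_contra hcon
  push Not at hcon
  have h1 : (Finset.univ : Finset (Fin g)) ⊆ {a, b, c} := by
    intro j _
    rw [Finset.mem_insert, Finset.mem_insert, Finset.mem_singleton]
    by_cases h1 : j = a
    · exact Or.inl h1
    · by_cases h2 : j = b
      · exact Or.inr (Or.inl h2)
      · exact Or.inr (Or.inr (hcon j h1 h2))
  have h2 := Finset.card_le_card h1
  rw [Finset.card_univ, Fintype.card_fin] at h2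
  have h3 : ({a, b, c} : Finset (Fin g)).card ≤ 3 := Finset.card_le_three
  omega

theorem thm_Rct : St_Rct := by
  intro g V _ hg h2 κ h
  have hnd : ∀ p q i j : Fin g, p ≠ q → p ≠ i → p ≠ j → q ≠ i → q ≠ j → i ≠ j →
      κ p i + κ q i + κ p j + κ q j = 0 := by
    intro p q i j h1 h2 h3 h4 h5 h6
    refine h p q i j ?_
    simp [h1, h2, h3, h4, h5, h6]
  set o : Fin g := ⟨0, by omega⟩ with ho
  set w : Fin g := ⟨1, by omega⟩ with hw
  have hwo : w ≠ o := by
    rw [hw, ho]
    intro h
    exact absurd (congrArg Fin.val h) (by norm_num)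
  choose r hr1 hr2 _ using fun i : Fin g => rct_ex hg o i i
  set α : Fin g → V := fun i => if i = o then 0 else κ i (r i) + κ o (r i) with hα
  have hα0 : α o = 0 := by simp only [hα, if_true]
  have hA : ∀ i j, i ≠ o → j ≠ o → i ≠ j → κ i j = α i + κ o j := by
    intro i j hi hj hij
    have e1 : α i = κ i (r i) + κ o (r i) := by simp only [hα, if_neg hi]
    rw [e1]
    by_cases hjr : j = r i
    · rw [← hjr, add_assoc, h2, add_zero]
    · have h3 := hnd i o j (r i) hi hij (Ne.symm (hr2 i)) (Ne.symm hj) (Ne.symm (hr1 i)) hjr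
      apply rct_eq h2
      calc κ i j + (κ i (r i) + κ o (r i) + κ o j)
          = κ i j + κ o j + κ i (r i) + κ o (r i) := by abel
        _ = 0 := h3
  set β : Fin g → V := fun j => if j = o then κ w o + α w else κ o j with hβ
  have hβ0 : β o = κ w o + α w := by simp only [hβ, if_true]
  have hβ1 : ∀ j, j ≠ o → β j = κ o j := fun j hj => by simp only [hβ, if_neg hj]
  have main : ∀ i j, i ≠ j → κ i j = α i + β j := by
    intro i j hij
    by_cases hi : i = o
    · have hj : j ≠ o := fun h => hij (hi.trans h.symm)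
      rw [hi, hα0, hβ1 j hj, zero_add]
    · by_cases hj : j = o
      · rw [hj, hβ0]
        by_cases hiw : i = w
        · rw [hiw]
          apply rct_eq h2
          calc κ w o + (α w + (κ w o + α w)) = (κ w o + κ w o) + (α w + α w) := by abel
            _ = 0 := by rw [h2, h2, add_zero]
        · obtain ⟨l, hl1, hl2, hl3⟩ := rct_ex hg o i w
          have h3 := hnd i w o l hiw hi (Ne.symm hl2) hwo (Ne.symm hl3) (Ne.symm hl1)
          rw [hA i l hi hl1 (Ne.symm hl2), hA w l hwo hl1 (Ne.symm hl3)] at h3
          apply rct_eq h2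
          calc κ i o + (α i + (κ w o + α w))
              = κ i o + κ w o + (α i + κ o l) + (α w + κ o l) - (κ o l + κ o l) := by abel
            _ = 0 := by rw [h3, h2, sub_zero]
      · rw [hβ1 j hj]
        exact hA i j hi hj hij
  refine ⟨⟨α, β, main⟩, fun hs => ⟨α, α o + β o, ?_⟩⟩
  have hτ : ∀ j, β j = α j + (α o + β o) := by
    intro j
    by_cases hj : j = o
    · rw [hj]
      apply rct_eq h2
      calc β o + (α o + (α o + β o)) = (β o + β o) + (α o + α o) := by abel
        _ = 0 := by rw [h2, h2, add_zero]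
    · have h3 := hs j o hj
      rw [main j o hj, main o j (Ne.symm hj)] at h3
      apply rct_eq h2
      calc β j + (α j + (α o + β o)) = (α j + β o) + (α o + β j) := by abel
        _ = 0 := by rw [h3, h2]
  intro i j hij
  rw [main i j hij, hτ j]
  abel

end Pool.Agent.CRS
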