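import Pool.Agent.CRS.StI

/-!
Campaign CRS (problem MP_1bb14d_al): module SPN, products of elements of a span modulo `M`.
-/

set_option autoImplicit false

namespace Pool.Agent.CRS

open Pool.Agent.CRR Pool.Agent.CRN Pool.Agent.CRK Pool.Agent.CRL Pool.Agent.CRM Pool.Agent.CRP
open Pool.Agent.CRQ

private theorem SPN_cons {A : Type} [NonUnitalRing A] (y : A) : ∀ l : List A, l ≠ [] → wp (y :: l) = y * wp l
  | [], h => absurd rfl h
  | _ :: _, _ => by rw [wp]

private theorem SPN_cons' {A : Type} [NonUnitalRing A] (y a : A) (l₁ l₂ : List A) :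
    wp ((y :: l₁) ++ a :: l₂) = y * wp (l₁ ++ a :: l₂) := by
  rw [List.cons_append]
  exact SPN_cons y _ (by simp)

private theorem SPN_add {A : Type} [NonUnitalRing A] (a b : A) (l₂ : List A) :
    ∀ l₁ : List A, wp (l₁ ++ (a + b) :: l₂) = wp (l₁ ++ a :: l₂) + wp (l₁ ++ b :: l₂)
  | [] => by
    rcases l₂ with _ | ⟨c, l₂⟩
    · simp only [List.nil_append, wp]
    · simp only [List.nil_append, wp, add_mul]
  | y :: l₁ => by rw [SPN_cons', SPN_cons', SPN_cons', SPN_add a b l₂ l₁, mul_add]

private theorem SPN_smul {K A : Type} [CommRing K] [NonUnitalRing A] [Module K A] [IsScalarTower K A A]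
    [SMulCommClass K A A] (c : K) (a : A) (l₂ : List A) :
    ∀ l₁ : List A, wp (l₁ ++ (c • a) :: l₂) = c • wp (l₁ ++ a :: l₂)
  | [] => by
    rcases l₂ with _ | ⟨d, l₂⟩
    · simp only [List.nil_append, wp]
    · simp only [List.nil_append, wp, smul_mul_assoc]
  | y :: l₁ => by rw [SPN_cons', SPN_cons', SPN_smul c a l₂ l₁, mul_smul_comm]

private theorem SPN_main {K A : Type} [CommRing K] [NonUnitalRing A] [Module K A] [IsScalarTower K A A]
    [SMulCommClass K A A] (M : AddSubgroup A) (n : ℕ) (h2 : ∀ l : List A, l.length = n → (∃ m ∈ l, m ∈ M) → wp l = 0)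
    (ι : Type) [Fintype ι] (x : ι → A) (h3 : ∀ w : List ι, w.length = n → wp (w.map x) = 0) :
    ∀ (l₂ : List A) (w₁ : List ι), w₁.length + l₂.length = n → (∀ z ∈ l₂, ∃ c : ι → K, z - ∑ i, c i • x i ∈ M) →
      wp (w₁.map x ++ l₂) = 0
  | [], w₁, hl, _ => by
    rw [List.append_nil]
    exact h3 w₁ (by simpa using hl)
  | z :: l, w₁, hl, hz => by
    obtain ⟨c, hc⟩ := hz z (by simp)
    have e1 : z = ∑ i, c i • x i + (z - ∑ i, c i • x i) := by abel
    rw [e1, SPN_add]
    have hl' : w₁.length + (l.length + 1) = n := by simpa using hl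
    have e2 : wp (w₁.map x ++ (z - ∑ i, c i • x i) :: l) = 0 :=
      h2 _ (by simpa using hl') ⟨_, by simp, hc⟩
    rw [e2, add_zero]
    have e3 : ∀ s : Finset ι, wp (w₁.map x ++ (∑ i ∈ s, c i • x i) :: l) = 0 := by
      classical
      intro s
      induction s using Finset.induction_on with
      | empty =>
        rw [Finset.sum_empty]
        have := SPN_smul (0 : K) (0 : A) l (w₁.map x)
        rwa [zero_smul, zero_smul] at this
      | insert i s hi ih =>
        rw [Finset.sum_insert hi, SPN_add, ih, add_zero, SPN_smul]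
        have e4 := SPN_main M n h2 ι x h3 l (w₁ ++ [i]) (by rw [List.length_append]; simp; omega)
          (fun z' hz' => hz z' (by simp [hz']))
        rw [List.map_append, List.append_assoc] at e4
        have e5 : wp (w₁.map x ++ x i :: l) = 0 := e4
        rw [e5, smul_zero]
    exact e3 Finset.univ

theorem thm_SPN (hTOP : St_TOP) : St_SPN := by
  intro K _ A _ _ _ _ M H n hK hM hn htop ι _ x h3 l hl hz
  obtain ⟨-, h2, -⟩ := hTOP K A M H n hK hM hn htop
  have := SPN_main (K := K) M n h2 ι x h3 l [] (by simpa using hl) hz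
  simpa using this

end Pool.Agent.CRS

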