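import Pool.Agent.CRS.StI

/-!
Campaign CRS, module SQA: the square relation with a doubled letter.
-/

set_option autoImplicit false

namespace Pool.Agent.CRS

open Pool.Agent.CRR Pool.Agent.CRN Pool.Agent.CRK Pool.Agent.CRL Pool.Agent.CRM Pool.Agent.CRP
open Pool.Agent.CRQ

private theorem SQA_zero {ι A : Type} [AddCommMonoid A] (κ : ι → ι → A) (i : ι)
    (h0 : ∀ a b, a ≠ i → b ≠ i → κ a b = 0) : ∀ w : List ι, i ∉ w → adj κ w = 0
  | [], _ => rfl
  | [_], _ => rfl
  | a :: b :: l, h => by
    have h1 : a ≠ i := fun h2 => h (by rw [h2]; exact List.mem_cons_self)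
    have h2 : b ≠ i := fun h2 => h (by rw [h2]; exact List.mem_cons_of_mem _ List.mem_cons_self)
    have h3 : adj κ (b :: l) = 0 :=
      SQA_zero κ i h0 (b :: l) fun h4 => h (List.mem_cons_of_mem _ h4)
    change κ a b + adj κ (b :: l) = 0
    rw [h0 a b h1 h2, h3, add_zero]

private theorem SQA_mem {ι A : Type} [AddCommGroup A] (κ : ι → ι → A) (W : AddSubgroup A)
    (h0 : ∀ a b, κ a b ∈ W) : ∀ w : List ι, adj κ w ∈ W
  | [] => W.zero_mem
  | [_] => W.zero_mem
  | a :: b :: l => W.add_mem (h0 a b) (SQA_mem κ W h0 (b :: l))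

private theorem SQA_list (g : ℕ) (i p j : Fin g) (hip : i ≠ p) (hij : i ≠ j) (hpj : p ≠ j) :
    ∃ m : List (Fin g), i ∉ m ∧ p ∉ m ∧ j ∉ m ∧ ∀ k, (p :: i :: j :: m).count k = 1 := by
  refine ⟨(List.finRange g).filter fun k => decide (k ≠ i ∧ k ≠ p ∧ k ≠ j), ?_, ?_, ?_, ?_⟩
  · simp
  · simp
  · simp
  · intro k
    have hmem : k ∈ p :: i :: j :: ((List.finRange g).filter fun k =>
        decide (k ≠ i ∧ k ≠ p ∧ k ≠ j)) := by
      by_cases h1 : k = i
      · simp [h1]
      by_cases h2 : k = p
      · simp [h2]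
      by_cases h3 : k = j
      · simp [h3]
      simp [h1, h2, h3]
    refine List.count_eq_one_of_mem ?_ hmem
    refine List.nodup_cons.2 ⟨by simp [hip.symm, hpj], List.nodup_cons.2 ⟨by simp [hij],
      List.nodup_cons.2 ⟨by simp, (List.nodup_finRange g).filter _⟩⟩⟩

theorem thm_SQA (hK2 : St_K2) (hTB : St_TBK) (hWG : St_WG) : St_SQA := by
  intro A _ g hN hg
  -- the common part
  have key : ∀ (x : Fin g → A) (i p j : Fin g), i ≠ p → i ≠ j → p ≠ j →
      ∃ (m' : List (Option (Fin g))) (a1 a2 a3 a4 a5 : A),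
        a1 + a1 = 0 ∧ a2 + a2 = 0 ∧ a3 + a3 = 0 ∧ a4 + a4 = 0 ∧ a5 + a5 = 0 ∧
        (∀ k, (some p :: none :: some i :: some j :: m').count k = 1) ∧
        (∀ k, (some i :: some j :: some p :: none :: m').count k = 1) ∧
        Vg (Qm g i.val p.val) x = a1 ∧ Vg (Xl g i.val) x = a2 ∧ Vg (Pm g i.val j.val) x = a3 ∧
        Vg (Qm g i.val j.val) x = a4 ∧ Vg (Pm g i.val p.val) x = a5 ∧
        Sqw (fun o : Option (Fin g) => o.elim (x i) x) (some p) none (some i) (some j) m' =
          a1 + a2 + a3 ∧
        Sqw (fun o : Option (Fin g) => o.elim (x i) x) (some i) (some j) (some p) none m' =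
          a4 + a5 + a2 := by
    intro x i p j hip hij hpj
    obtain ⟨κ, hκW, hκ0, hκ⟩ := hK2 A hN (Fin g) (by simpa using (by omega : 5 ≤ g)) i x
    obtain ⟨hX, hPQ⟩ := hTB A hN g x i κ hg hκW hκ0 hκ
    have two : ∀ a b, κ a b + κ a b = 0 := fun a b => hWG.1 A hN (Fin g) x _ (hκW a b)
    obtain ⟨m, him, hpm, hjm, hm⟩ := SQA_list g i p j hip hij hpj
    obtain ⟨S, hS⟩ : ∃ S, S = adj κ (i :: m) := ⟨_, rfl⟩
    have hS2 : S + S = 0 := by
      rw [hS]
      exact hWG.1 A hN (Fin g) x _ (SQA_mem κ (Wg x) hκW _)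
    have hj0 : adj κ (j :: m) = 0 := SQA_zero κ i hκ0 _ fun h => by
      rcases List.mem_cons.1 h with h1 | h1
      · exact hij h1
      · exact him h1
    have hp0 : adj κ (p :: m) = 0 := SQA_zero κ i hκ0 _ fun h => by
      rcases List.mem_cons.1 h with h1 | h1
      · exact hip h1
      · exact him h1
    have hpj0 : κ p j = 0 := hκ0 p j hip.symm hij.symm
    have hjp0 : κ j p = 0 := hκ0 j p hij.symm hip.symm
    have hval : ∀ w : List (Fin g), (∀ k, w.count k = (i :: p :: i :: j :: m).count k) →
        wp (w.map x) = adj κ w := by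
      intro w hw
      refine hκ w ?_ fun k hk => ?_
      · rw [hw, List.count_cons_self, hm]
      · rw [hw, List.count_cons_of_ne (Ne.symm hk), hm]
    have hmX : (m.map some).map (fun o : Option (Fin g) => o.elim (x i) x) = m.map x := by
      rw [List.map_map]
      exact List.map_congr_left fun o _ => rfl
    have hcnt : ∀ k : Option (Fin g), (some p :: none :: some i :: some j :: m.map some).count k = 1 := by
      intro k
      cases k with
      | none => simp [List.count_eq_zero]
      | some k =>
        have h1 := hm k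
        have h2 : (m.map some).count (some k) = m.count k :=
          List.count_map_of_injective m some (Option.some_injective _) k
        simp only [List.count_cons] at h1
        simp only [List.count_cons, h2]
        simpa using h1
    have hcnt2 : ∀ k : Option (Fin g), (some i :: some j :: some p :: none :: m.map some).count k = 1 := by
      intro k
      have h1 := hcnt k
      simp only [List.count_cons] at h1 ⊢
      omega
    refine ⟨m.map some, κ p i, κ i i, κ i j, κ j i, κ i p, two _ _, two _ _, two _ _, two _ _,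
      two _ _, hcnt, hcnt2, (hPQ p hip.symm).2, hX, (hPQ j hij.symm).1, (hPQ j hij.symm).2,
      (hPQ p hip.symm).1, ?_, ?_⟩
    · unfold Sqw
      simp only [List.map_cons, hmX, Option.elim_some, Option.elim_none]
      have w1 := hval (p :: i :: i :: j :: m) fun k => by simp only [List.count_cons]; ring
      have w2 := hval (p :: i :: j :: i :: m) fun k => by simp only [List.count_cons]; ring
      have w3 := hval (i :: p :: i :: j :: m) fun k => by simp only [List.count_cons]
      have w4 := hval (i :: p :: j :: i :: m) fun k => by simp only [List.count_cons]; ring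
      simp only [List.map_cons] at w1 w2 w3 w4
      rw [w1, w2, w3, w4]
      simp only [adj]
      rw [← hS, hj0, hpj0]
      have e : κ p i + (κ i i + (κ i j + 0)) + (κ p i + (κ i j + (κ j i + S))) +
          (κ i p + (κ p i + (κ i j + 0)) + (κ i p + (0 + (κ j i + S)))) =
          κ p i + κ i i + κ i j + (κ p i + κ p i) + (κ i j + κ i j) + (κ j i + κ j i) + (S + S) +
            (κ i p + κ i p) := by abel
      rw [e, two, two, two, two, hS2]
      simp only [add_zero]
    · unfold Sqw
      simp only [List.map_cons, hmX, Option.elim_some, Option.elim_none]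
      have w1 := hval (i :: j :: p :: i :: m) fun k => by simp only [List.count_cons]; ring
      have w2 := hval (i :: j :: i :: p :: m) fun k => by simp only [List.count_cons]; ring
      have w3 := hval (j :: i :: p :: i :: m) fun k => by simp only [List.count_cons]; ring
      have w4 := hval (j :: i :: i :: p :: m) fun k => by simp only [List.count_cons]; ring
      simp only [List.map_cons] at w1 w2 w3 w4
      rw [w1, w2, w3, w4]
      simp only [adj]
      rw [← hS, hp0, hjp0]
      have e : κ i j + (0 + (κ p i + S)) + (κ i j + (κ j i + (κ i p + 0))) +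
          (κ j i + (κ i p + (κ p i + S)) + (κ j i + (κ i i + (κ i p + 0)))) =
          κ j i + κ i p + κ i i + (κ i j + κ i j) + (κ p i + κ p i) + (S + S) + (κ j i + κ j i) +
            (κ i p + κ i p) := by abel
      rw [e, two, two, two, two, hS2]
      simp only [add_zero]
  refine ⟨fun hq x i p j hip hij hpj => ?_, fun hq x i p j hip hij hpj => ?_⟩
  · obtain ⟨m', a1, a2, a3, a4, a5, h1, h2, h3, h4, h5, hc1, hc2, e1, e2, e3, e4, e5, s1, s2⟩ :=
      key x i p j hip hij hpj
    have h6 := hq (fun o : Option (Fin g) => o.elim (x i) x) (some p) none (some i) (some j) m' hc1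
    rw [s1] at h6
    rw [e1, e2, e3]
    exact h6
  · obtain ⟨m', a1, a2, a3, a4, a5, h1, h2, h3, h4, h5, hc1, hc2, e1, e2, e3, e4, e5, s1, s2⟩ :=
      key x i p j hip hij hpj
    have h6 := hq (fun o : Option (Fin g) => o.elim (x i) x) (some p) none (some i) (some j) m' hc1
    rw [s1, s2] at h6
    rw [e1, e3, e4, e5]
    have e : a5 + a1 = a1 + a2 + a3 + (a4 + a5 + a2) - (a2 + a2) - (a3 + a4) := by abel
    rw [e, h6, h2]
    have e' : (0 : A) - 0 - (a3 + a4) = a3 + a4 - (a3 + a3) - (a4 + a4) := by abel
    rw [e', h3, h4]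
    simp only [sub_zero]

end Pool.Agent.CRS
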