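import Pool.Agent.CRS.StI

/-!
Campaign CRS, module SQB (helper6): the square relation fails.
-/

set_option autoImplicit false

namespace Pool.Agent.CRS

open Pool.Agent.CRR Pool.Agent.CRN Pool.Agent.CRK Pool.Agent.CRL Pool.Agent.CRM Pool.Agent.CRP
open Pool.Agent.CRQ

private theorem SQB_pick {g : ℕ} (hg : 6 ≤ g) (a b c : Fin g) : ∃ p : Fin g, p ≠ a ∧ p ≠ b ∧ p ≠ c := by
  have h1 : (({a, b, c} : Finset (Fin g))ᶜ).Nonempty := by
    rw [← Finset.card_pos, Finset.card_compl, Fintype.card_fin]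
    have h2 : ({a, b, c} : Finset (Fin g)).card ≤ 3 := Finset.card_le_three
    omega
  obtain ⟨p, hp⟩ := h1
  rw [Finset.mem_compl] at hp
  simp only [Finset.mem_insert, Finset.mem_singleton, not_or] at hp
  exact ⟨p, hp.1, hp.2.1, hp.2.2⟩

private theorem SQB_P {K A : Type} [CommRing K] [NonUnitalRing A] [Module K A] (g : ℕ) (i j : Fin g)
    (hj : j ≠ i) (x : Fin g → A) :
    Pu g i (0 : K) (Pi.single j 1) 0 x = Vg (Pm g i.val j.val) x := by
  unfold Pu
  rw [zero_smul, zero_add, Finset.sum_eq_single j]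
  · rw [if_neg hj, Pi.single_eq_same, one_smul, Pi.zero_apply, zero_smul, add_zero]
  · intro k _ hk
    split_ifs
    · rfl
    · rw [Pi.single_eq_of_ne hk, zero_smul, Pi.zero_apply, zero_smul, add_zero]
  · intro h
    exact absurd (Finset.mem_univ _) h

private theorem SQB_Q {K A : Type} [CommRing K] [NonUnitalRing A] [Module K A] (g : ℕ) (i j : Fin g)
    (hj : j ≠ i) (x : Fin g → A) :
    Pu g i (0 : K) 0 (Pi.single j 1) x = Vg (Qm g i.val j.val) x := by
  unfold Pu
  rw [zero_smul, zero_add, Finset.sum_eq_single j]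
  · rw [if_neg hj, Pi.single_eq_same, one_smul, Pi.zero_apply, zero_smul, zero_add]
  · intro k _ hk
    split_ifs
    · rfl
    · rw [Pi.single_eq_of_ne hk, zero_smul, Pi.zero_apply, zero_smul, add_zero]
  · intro h
    exact absurd (Finset.mem_univ _) h

theorem thm_SQB : St_BAS → St_SQA → St_EQV → St_WPU → St_LFT → St_LAD → St_SQB := by
  intro hBAS hSQA hEQV hWPU hLFT hLAD K _ A _ _ _ _ M H g hBs hDm hNPu hex hSQ
  obtain ⟨l, hl, hl0⟩ := hex
  have h6 := hBs.six
  have hN2 : N2 A := (hBAS K A M H hBs.kst).1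
  have hrel := (hSQA A g hN2 h6).1 hSQ
  have hE := hEQV A g hN2 h6
  have hPP : ∀ (x : Fin g → A) (i j j' : Fin g), j ≠ i → j' ≠ i →
      Vg (Pm g i.val j.val) x = Vg (Pm g i.val j'.val) x := by
    intro x i j j' hj hj'
    obtain ⟨p, hp1, hp2, hp3⟩ := SQB_pick h6 i j j'
    have e1 := hrel x i p j hp1.symm hj.symm hp2
    have e2 := hrel x i p j' hp1.symm hj'.symm hp3
    exact add_left_cancel (e1.trans e2.symm)
  have hQQ : ∀ (x : Fin g → A) (i j j' : Fin g), j ≠ i → j' ≠ i →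
      Vg (Qm g i.val j.val) x = Vg (Qm g i.val j'.val) x := by
    intro x i j j' hj hj'
    obtain ⟨p, hp1, hp2, hp3⟩ := SQB_pick h6 i j j'
    have e1 := hrel x i j p hj.symm hp1.symm hp2.symm
    have e2 := hrel x i j' p hj'.symm hp1.symm hp3.symm
    rw [add_assoc] at e1 e2
    exact add_right_cancel (e1.trans e2.symm)
  have hvan : ∀ (x : Fin g → A) (a b : Fin g), a ≠ b → x a = x b → ∀ i j' : Fin g, j' ≠ i → j' ≠ a →
      j' ≠ b → Vg (Pm g i.val j'.val) x = 0 ∧ Vg (Qm g i.val j'.val) x = 0 := by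
    intro x a b hab hx i j' h1 h2 h3
    by_cases hia : i = a
    · subst hia
      exact (hE x i b hab hx).2.2.2.2 j' h2 h3
    by_cases hib : i = b
    · subst hib
      exact (hE x i a (Ne.symm hab) hx.symm).2.2.2.2 j' h3 h2
    exact ((hE x a b hab hx).1 i hia hib).2.2.2 j' h1 h2 h3
  have hP0 : ∀ (x : Fin g → A) (i j : Fin g), j ≠ i → Vg (Pm g i.val j.val) x = 0 := by
    intro x i j hj
    have h := hNPu i 0 (Pi.single j 1) 0 (by
      intro x a b hab hx
      rw [SQB_P g i j hj]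
      obtain ⟨j', h1, h2, h3⟩ := SQB_pick h6 i a b
      rw [hPP x i j j' hj h1]
      exact (hvan x a b hab hx i j' h1 h2 h3).1) x
    rwa [SQB_P g i j hj] at h
  have hQ0 : ∀ (x : Fin g → A) (i j : Fin g), j ≠ i → Vg (Qm g i.val j.val) x = 0 := by
    intro x i j hj
    have h := hNPu i 0 0 (Pi.single j 1) (by
      intro x a b hab hx
      rw [SQB_Q g i j hj]
      obtain ⟨j', h1, h2, h3⟩ := SQB_pick h6 i a b
      rw [hQQ x i j j' hj h1]
      exact (hvan x a b hab hx i j' h1 h2 h3).2) x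
    rwa [SQB_Q g i j hj] at h
  have hX0 : ∀ (x : Fin g → A) (i : Fin g), Vg (Xl g i.val) x = 0 := by
    intro x i
    obtain ⟨p, hp, -, -⟩ := SQB_pick h6 i i i
    obtain ⟨j, hj, hjp, -⟩ := SQB_pick h6 i p p
    have h := hrel x i p j hp.symm hj.symm hjp.symm
    rwa [hQ0 x i p hp, hP0 x i j hj, zero_add, add_zero] at h
  have hw1 : ∀ (x : Fin g → A) (w : List (Fin g)) (i : Fin g), w.count i = 2 →
      (∀ j, j ≠ i → w.count j = 1) → wp (w.map x) = 0 := by
    intro x w i hi hj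
    obtain ⟨E, r, l', h⟩ := hWPU K A g i [((1 : K), w)] hN2 h6 (by
      intro q hq
      rw [List.mem_singleton] at hq
      subst hq
      exact ⟨hi, hj⟩)
    have h1 := h x
    unfold Ew Pu at h1
    rw [hX0, smul_zero, zero_add, Finset.sum_eq_zero] at h1
    · simpa using h1
    · intro k _
      split_ifs with hk
      · rfl
      · rw [hP0 x i k hk, hQ0 x i k hk, smul_zero, smul_zero, add_zero]
  have hw2 : ∀ (x : Fin g → A) (w : List (Fin g)), w.length = g + 1 → wp (w.map x) = 0 := by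
    intro x w hw
    obtain ⟨x', w', i, h1, h2, h3⟩ := hLFT A g x w hw
    rw [← h3]
    exact hw1 x' w' i h1 h2
  have hall := hLAD K A M H g (g + 1) hBs.kst hBs.mt (by omega) hBs.top hDm hw2
  rcases Nat.lt_or_ge l.length (g + 2) with h | h
  · exact hl0 (hall l (by omega))
  · exact hl0 (hBs.top l h)

end Pool.Agent.CRS
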