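import Pool.Agent.CRS.Defs
import Pool.Agent.CRQ.Lca

/-!
Campaign CRS (problem MP_1bb14d_al, stage 7).  Frozen statements, part C: from critical rings to the setting `Kst` and
back.

Every module `Pool/Agent/CRS/<X>.lean` for a statement of this file imports this file (and what it needs from the
older campaigns, `import Pool.Agent.CRQ.All` gives everything) and proves `theorem thm_<X> : St_<X>`, or
`theorem thm_<X> (hY : St_Y) ... : St_<X>` if the docstring says (from `St_Y`); the names of all other declarations of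
the module start with `<X>_`.

Notation of the docstrings: `J` the nil elements; `W` the subring generated by `t`; `C(t) = Cv C e t`.
-/

set_option autoImplicit false

namespace Pool.Agent.CRS

open Pool.Agent.CRR Pool.Agent.CRN Pool.Agent.CRK Pool.Agent.CRL Pool.Agent.CRM Pool.Agent.CRP
open Pool.Agent.CRQ

/-! ### The types, for given tables `Tb p g B` -/

/-- The words of the tables contain exactly the letters `0, ..., g - 1`. -/
def Tbw (Tb : ℕ → ℕ → List (List (ℤ × List ℕ)) → Prop) : Prop :=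
  ∀ p g B, Tb p g B → ∀ b ∈ B, ∀ q ∈ b, ∀ i, i ∈ q.2 ↔ i < g

section types

variable (Tb : ℕ → ℕ → List (List (ℤ × List ℕ)) → Prop) {R : Type} [NonUnitalRing R]

/-- The functions of `g` elements: for `g ≤ 5` the combinations of words, which contain exactly the letters
`0, ..., g - 1`, each at most three times, for `g ≥ 6` the combinations `∑ c_i B_i`, `(B_i)` in the table. -/
def Cln (p g : ℕ) (f : (Fin g → R) → R) : Prop :=
  (g ≤ 5 ∧ ∃ L : List (ℤ × List ℕ), (∀ q ∈ L, q.2 ≠ [] ∧ (∀ i, i ∈ q.2 ↔ i < g) ∧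
    ∀ i, q.2.count i ≤ 3) ∧ ∀ x, f x = Vg L x) ∨
  (6 ≤ g ∧ ∃ (B : List (List (ℤ × List ℕ))) (c : List ℤ), Tb p g B ∧ c.length = B.length ∧
    ∀ x, f x = Kc c B x)

/-- The same with coefficients which are combinations of powers of `t`. -/
def Cll (n p : ℕ) (e : R) (g : ℕ) (f : R → (Fin g → R) → R) : Prop :=
  (g ≤ 5 ∧ ∃ L : List (ℤ × ℕ × List ℕ), (∀ q ∈ L, q.2.1 ≤ n - 3 ∧ 1 ≤ q.2.1 + q.2.2.length ∧
    (∀ i, i ∈ q.2.2 ↔ i < g) ∧ ∀ i, q.2.2.count i ≤ 3) ∧ ∀ t x, f t x = Vl L t x) ∨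
  (6 ≤ g ∧ ∃ (B : List (List (ℤ × List ℕ))) (c : List (List (ℤ × ℕ))), Tb p g B ∧
    c.length = B.length ∧ ∀ t x, f t x = ((c.zip B).map fun q => Cv q.1 e t * Vg q.2 x).sum)

variable (R)

/-- The nilpotent type for powers of 2 and 3. -/
def NilX : Prop := (∀ x : R, x * x * x = 0) ∧ ∃ (p : ℕ) (H : AddSubgroup R), (p = 2 ∨ p = 3) ∧
  (∃ r : ℕ, ∀ x : R, (p ^ r) • x = 0) ∧ Lst R H ∧ ∃ (g : ℕ) (f : (Fin g → R) → R), Cln Tb p g f ∧
    (∃ z : Fin g → R, NonUnitalSubring.closure (Set.range z) = ⊤) ∧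
    (∀ x, f x ∈ H ∧ (∀ y, (∀ i, x i - y i ∈ KJ R p) → f x = f y) ∧
      (NonUnitalSubring.closure (Set.range x) ≠ ⊤ → f x = 0)) ∧ ∃ x, f x ≠ 0

/-- The central local type for powers of 2 and 3. -/
def CenX (n : ℕ) : Prop := ∃ (p : ℕ) (e t₀ : R) (H : AddSubgroup R), (p = 2 ∨ p = 3) ∧
  Lcx R n p e t₀ H ∧ (∀ r, t₀ * r = r * t₀) ∧ ∃ (g : ℕ) (f : R → (Fin g → R) → R),
    Cll Tb n p e g f ∧
    (∃ z : Fin g → R, (∀ i, Nl (z i)) ∧ NonUnitalSubring.closure ({t₀} ∪ Set.range z) = ⊤) ∧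
    (∀ (t : R) (x : Fin g → R), Frame R n 1 (fun _ => t) → (∀ i, Nl (x i)) → f t x ∈ H ∧
      (∀ y : Fin g → R, (∀ i, Nl (y i) ∧ x i - y i ∈ KJ R p) → f t x = f t y) ∧
      (NonUnitalSubring.closure ({t} ∪ Set.range x) ≠ ⊤ → f t x = 0)) ∧
    ∃ (t : R) (x : Fin g → R), Frame R n 1 (fun _ => t) ∧ (∀ i, Nl (x i)) ∧ f t x ≠ 0

end types

/-! ### Part 0: input from the files StA, StB -/

/-- Products of six elements are killed by `p`. -/
def Jk0 : Prop := ∀ (A : Type) [NonUnitalRing A] (p : ℕ), (p = 2 ∨ p = 3) →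
  (∀ x : A, x * x * x = 0) → (∃ r : ℕ, ∀ x : A, (p ^ r) • x = 0) → ∀ l : List A, 6 ≤ l.length →
  p • wp l = 0

/-- For `p = 2` words in `k` letters of length at least 6 and at least `k + 3` are zero. -/
def Jkz : Prop := ∀ (A : Type) [NonUnitalRing A], (∀ x : A, x * x * x = 0) →
  (∃ r : ℕ, ∀ x : A, (2 ^ r) • x = 0) → ∀ (k : ℕ) (v : ℕ → A) (w : List ℕ), (∀ i ∈ w, i < k) →
  6 ≤ w.length → k + 3 ≤ w.length → wp (w.map v) = 0

/-! ### Part N: nilpotent rings -/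

/-- **EXP.**  PROOF.  Descending induction on `k`: all products of at least `k` elements are zero, `m ≤ k` (`k = N` is a
hypothesis).  Step from `k + 1` to `k`: let `l` have length `k` (longer ones: induction hypothesis).  Show by
induction on `j` that `wp (l₁ ++ l₂) = 0` if `l₁` has length `k - j`, all elements in `D`, `l₂` arbitrary of length `j`: for
`j = 0` it is the hypothesis on `D`; step: the last element `y` of `l₁` replaced by an arbitrary one: the `y` with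
`wp (l₁ ++ y :: l₂) = 0` for all `l₂` are a subgroup; it contains `D` (induction) and `E` (second hypothesis). -/
def St_Exp : Prop := ∀ (A : Type) [NonUnitalRing A] (D E : Set A),
  AddSubgroup.closure (D ∪ E) = ⊤ → (∃ N : ℕ, ∀ l : List A, N ≤ l.length → wp l = 0) → ∀ m : ℕ,
  1 ≤ m → (∀ l : List A, (∀ x ∈ l, x ∈ D) → m ≤ l.length → wp l = 0) →
  (∀ (l₁ l₂ : List A), ∀ x ∈ E, m ≤ l₁.length + l₂.length + 1 →
    (∀ l : List A, l₁.length + l₂.length + 2 ≤ l.length → wp l = 0) →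
    wp (l₁ ++ x :: l₂) = 0) →
  ∀ l : List A, m ≤ l.length → wp l = 0

/-- **NSO.**  PROOF.  `R` is nilpotent (as in `CRM/Nfb.lean`, `CRM/Kjf.lean`; `CRN.thm_Jnl`).  `{h ∈ H | p h = 0}` is an ideal, not zero
(`H ≠ 0` is killed by `p^r`), so it is `H`.  The subgroup generated by the `h a`, `a h`, `h ∈ H`, `a ∈ R` is an ideal contained in
`H`; if it is not zero it is `H`, and then by induction `H` is contained in the subgroup generated by the products
of `N` elements, which is zero.  Let `p x = 0`, `x R = R x = 0`, `x ≠ 0`: the multiples of `x` are an ideal, so `H` is contained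
in it, there is `k` with `0 ≠ k x ∈ H`, `p` does not divide `k`, so `x ∈ H`. -/
def St_Nso : Prop := ∀ (R : Type) [NonUnitalRing R] [Finite R] (p : ℕ) (H : AddSubgroup R),
  p.Prime → (∀ x : R, x * x * x = 0) → (∃ r : ℕ, ∀ x : R, (p ^ r) • x = 0) → Lst R H →
  (∃ N : ℕ, ∀ l : List R, N ≤ l.length → wp l = 0) ∧
  (∀ x ∈ H, p • x = 0 ∧ ∀ y : R, x * y = 0 ∧ y * x = 0) ∧
  ∀ x : R, p • x = 0 → (∀ y : R, x * y = 0 ∧ y * x = 0) → x ∈ H

/-- **NKB.**  PROOF.  See `CRM/Nfb.lean`: `KJ ⊔ closure (range z) = ⊤` (`Nfb_cl`), and if `x j ∉ M_j` for all `j`,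
`M_j = KJ ⊔ closure {x i | i < j}`, then (`Nfb_dim`, `CRM.kjf`) the `x i` generate `R`.  So some `x j ∈ M_j`:
`x j - ∑_(i<j) c_i x i ∈ KJ` for integers `c_i`; take `-c_i`, `1` at `j`, `0` for `i > j`.  Second statement: if `x j ∉ M_j` for
all `j < m` then by `Nfb_dim` for the first `g` of them `KJ ⊔ closure {x i | i < g} = ⊤`, so the next one is in `M_g`, a contradiction; so `x j ∈ M_j` for some `j`.
Third: all elements are in `KJ ⊔ closure (range z)`. -/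
def St_Nkb : Prop := ∀ (R : Type) [NonUnitalRing R] [Finite R] (p g : ℕ), p.Prime →
  (∀ x : R, x * x * x = 0) → (∃ r : ℕ, ∀ x : R, (p ^ r) • x = 0) →
  ∀ z : Fin g → R, NonUnitalSubring.closure (Set.range z) = ⊤ →
  (∀ x : Fin g → R, NonUnitalSubring.closure (Set.range x) ≠ ⊤ → ∃ (c : Fin g → ℤ) (j : Fin g),
    c j = 1 ∧ ∑ i, c i • x i ∈ KJ R p) ∧
  (∀ m, g < m → ∀ x : Fin m → R, ∃ (c : Fin m → ℤ) (j : Fin m),
    c j = 1 ∧ ∑ i, c i • x i ∈ KJ R p) ∧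
  ∀ x : R, ∃ c : Fin g → ℤ, x - ∑ i, c i • z i ∈ KJ R p

/-- **NKA** (from `St_Nso`).  PROOF.  `Kst ℤ p (KJ R p) H`: `fld`: `p ∣ c`, or `d c ≡ 1` modulo `p`; `mp`, `mm` by definition of `KJ` (all elements
are nil); `h0`, `h1`: `St_Nso`.  `Wf`: `L` itself (`Vg`, `ev`).  `Good`: `val` is a hypothesis; `inv`: replace the arguments one by one
(`y ∈ KJ`; see `CRM/Nfb.lean`); `dep`: `∑ c_i x_i ∈ KJ`, `c_j` prime to `p` (from `Ku`: if `p ∣ c_j` then `x ∈ p R` for all `x`, so `R = 0` as `p^r R = 0`, and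
`H ≠ 0`; in this case nothing is to show as `f x ∈ H = 0`); let `j` be the largest index with `c_j` prime to `p`; multiply with an inverse modulo `p`:
`x_j + ∑_(i<j) c'_i x_i ∈ KJ` (`p R ⊆ KJ`), so `- x_j` is an allowed `y`, and `f x = f (update x j 0) = 0` (`Nfb_zero`). -/
def St_Nka : Prop := ∀ (R : Type) [NonUnitalRing R] [Finite R] (p : ℕ) (H : AddSubgroup R)
  (g : ℕ) (L : List (ℤ × List ℕ)), (p = 2 ∨ p = 3) → (∀ x : R, x * x * x = 0) →
  (∃ r : ℕ, ∀ x : R, (p ^ r) • x = 0) → Lst R H →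
  (∀ q ∈ L, q.2 ≠ [] ∧ ∀ i, i ∈ q.2 ↔ i < g) →
  (∀ x : Fin g → R, Vg L x ∈ H ∧ ∀ (j : Fin g) (y : R),
      y ∈ KJ R p ⊔ AddSubgroup.closure {w | ∃ i, i < j ∧ w = x i} →
      Vg L (Function.update x j (x j + y)) = Vg L x) →
  (∃ x : Fin g → R, Vg L x ≠ 0) →
  Kst ℤ p (KJ R p) H ∧ Wf ℤ g (fun x : Fin g → R => Vg L x) ∧
    Good ℤ p (KJ R p) H g (fun x : Fin g → R => Vg L x)

/-- **NTP** (from `Jk0`, `Jkz`, `St_Exp`, `St_Nso`).  PROOF.  `St_Exp` with `m = Tn p g ≥ 9`, `D = range z`, `E = {a b} ∪ {p a}`.  `D ∪ E` generates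
additively: the subgroup generated is a subring (products are in `E`).  Words in `D`: for `p = 2` `Jkz` with `k = g`; for `p = 3` a word of
length `≥ 3 g + 1` in `g` letters has a letter with `≥ 4` occurrences: `CRM.fle` (1).  `x = a b`: `wp (l₁ ++ a b :: l₂)` is the product
with one more factor.  `x = p a`: it is `p` times a product of at least 9 elements, `0` by `Jk0`. -/
def St_Ntp : Prop := ∀ (R : Type) [NonUnitalRing R] [Finite R] (p g : ℕ), (p = 2 ∨ p = 3) →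
  (∀ x : R, x * x * x = 0) → (∃ r : ℕ, ∀ x : R, (p ^ r) • x = 0) → 6 ≤ g →
  (∃ z : Fin g → R, NonUnitalSubring.closure (Set.range z) = ⊤) →
  ∀ l : List R, Tn p g ≤ l.length → wp l = 0

/-- **NXB.**  PROOF.  As `CRM.thm_Ngb`: `f` is the restriction of a term function (`Kc c B x` is a combination of words: `Vg L x` for a
list `L`, `Ngb_vg`, `Ngb_ev`). -/
def St_Nxb : Prop := ∀ Tb : ℕ → ℕ → List (List (ℤ × List ℕ)) → Prop, Tbw Tb →
  ∀ (R : Type) [NonUnitalRing R] [Finite R], NilX Tb R → Critical R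

/-! ### Part L: central local rings -/

section local_rings

variable {R : Type} [NonUnitalRing R]

/-- A central local ring. -/
structure Cnx (n p N : ℕ) (e t₀ : R) : Prop where
  fr : Lfr n p N e t₀
  cen : ∀ r : R, t₀ * r = r * t₀

/-- `t` and `t'` are conjugate: the same polynomials have a nil value. -/
def Eqf (e t t' : R) : Prop := ∀ m : List (ℤ × ℕ), Nl (Cv m e t) ↔ Nl (Cv m e t')

/-- The frames which are conjugate to `t₀`. -/
def Ftp (n : ℕ) (e t₀ : R) : Type := {t : R // Frame R n 1 (fun _ => t) ∧ Eqf e t t₀}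

/-- The functions with values in `G`. -/
def Fsg (T : Type) (S : NonUnitalSubring R) (G : AddSubgroup R) : AddSubgroup (T → S) where
  carrier := {x | ∀ s, (x s : R) ∈ G}
  add_mem' := fun {x y} hx hy s => G.add_mem (hx s) (hy s)
  zero_mem' := fun _ => G.zero_mem
  neg_mem' := fun {x} hx s => G.neg_mem (hx s)

end local_rings

/-- **CFX.**  As `CRQ.thm_Cfr` (the proof is literally the same, the order prime to 6 is not used). -/
def St_Cfx : Prop := ∀ (n p N : ℕ) (R : Type) [NonUnitalRing R] [Finite R] (e t₀ : R),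
  Cnx n p N e t₀ → ∀ t : R, Frame R n 1 (fun _ => t) → Lfr n p N e t ∧ (∀ r, t * r = r * t) ∧
    (∃ k, t = pw t₀ k) ∧ (∃ k, t₀ = pw t k) ∧
    ∀ S : Set R, NonUnitalSubring.closure ({t} ∪ S) = NonUnitalSubring.closure ({t₀} ∪ S)

/-- **LWA.**  PROOF.  (1) `e = t^N`; the `C(t)` are a subring which contains `t`; conversely `te e t k ∈ W`.  (2) `CRP.thm_Wpn` (1), (1).
(3) As in `CRM/Dmk.lean`, (2): an element `u ∈ W` which is not nil has `v ∈ W` with `v u = e`. -/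
def St_Lwa : Prop := ∀ (n p N : ℕ) (R : Type) [NonUnitalRing R] [Finite R] (e t : R),
  Lfr n p N e t →
  (∀ u : R, u ∈ NonUnitalSubring.closure ({t} : Set R) ↔ ∃ m, u = Cv m e t) ∧
  (∀ m, Nl (Cv m e t) → ∃ m', Cv m e t = p • Cv m' e t) ∧
  ∀ m, ¬ Nl (Cv m e t) → ∃ m', Cv m' e t * Cv m e t = e

/-- **LSO** (from `St_Lwa`).  PROOF.  `J` is an ideal (`CRL.jil`), nilpotent (`CRN.thm_Jnl`; see `CRM/Kjf.lean`), `R = W + J` (`CRL.gen`; `CRM/Dmk.lean`).
`{h ∈ H | p h = 0}` is an ideal, not zero, so it is `H`; the subgroup generated by the `h a`, `a h`, `h ∈ H`, `a ∈ J`, is an ideal; if it is `H`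
then `H` is in the subgroup generated by the products of `N` elements of `J`, which is zero.  Let `x` be nil, `p x = 0`, `x J = J x = 0`, `x ≠ 0`: `{u x | u ∈ W}` is
an ideal (`t₀` is central), so `0 ≠ u x ∈ H` for some `u ∈ W`; `u` is not nil (`St_Lwa` (2): otherwise `u ∈ p W`, `u x = 0`), so `v u = e`,
`x = v u x ∈ H`. -/
def St_Lso : Prop := ∀ (n p N : ℕ) (R : Type) [NonUnitalRing R] [Finite R] (e t₀ : R)
  (H : AddSubgroup R), Cnx n p N e t₀ → Lst R H →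
  (∃ K : ℕ, ∀ l : List R, (∀ x ∈ l, Nl x) → K ≤ l.length → wp l = 0) ∧
  (∀ x ∈ H, p • x = 0 ∧ ∀ y : R, Nl y → x * y = 0 ∧ y * x = 0) ∧
  ∀ x : R, Nl x → p • x = 0 → (∀ y : R, Nl y → x * y = 0 ∧ y * x = 0) → x ∈ H

/-- **LKB** (from `St_Cfx`, `St_Lwa`).  PROOF.  `CRM.dmk` with `a = 0` (all nil elements commute with all frames): (1) for `t₀` gives
`|J| ≤ q^g |KJ|`.  If `x j ∉ Mj p t x j` for all `j` then `t` and the `x i` generate `R` by (2).  So `x j ∈ Mj p t x j` for some `j`: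
`x j = κ + ∑_(i<j) u_i x i` (`CRQ.Lcb_Mj` or directly), `u_i ∈ W` (the subring generated by `t`), `- u_i = Cv (m i) e t` (`St_Lwa` (1)), `m j = [(1, 0)]`
(`Cv [(1, 0)] e t = e`), `m i = []` for `i > j`.  More than `g` elements: if `x j ∉ Mj p t x j` for all `j < k` then `q^k |KJ| ≤ |J| ≤ q^g |KJ|`.  Third: `CRP.Dcp_all`,
`CRP.Dcp_rep` (for `t` and `z`, which generate `R`, `St_Cfx`). -/
def St_Lkb : Prop := ∀ (n p N : ℕ) (R : Type) [NonUnitalRing R] [Finite R] (e t₀ : R) (g : ℕ),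
  Cnx n p N e t₀ → ∀ z : Fin g → R, (∀ i, Nl (z i)) →
  NonUnitalSubring.closure ({t₀} ∪ Set.range z) = ⊤ → ∀ t : R, Frame R n 1 (fun _ => t) →
  (∀ x : Fin g → R, (∀ i, Nl (x i)) → NonUnitalSubring.closure ({t} ∪ Set.range x) ≠ ⊤ →
    ∃ (m : Fin g → List (ℤ × ℕ)) (j : Fin g), m j = [(1, 0)] ∧
      ∑ i, Cv (m i) e t * x i ∈ KJ R p) ∧
  (∀ k, g < k → ∀ x : Fin k → R, (∀ i, Nl (x i)) →
    ∃ (m : Fin k → List (ℤ × ℕ)) (j : Fin k), m j = [(1, 0)] ∧
      ∑ i, Cv (m i) e t * x i ∈ KJ R p) ∧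
  ∀ y : R, Nl y → ∃ m : Fin g → List (ℤ × ℕ), y - ∑ i, Cv (m i) e t * z i ∈ KJ R p

/-- **LTP** (from `Jk0`, `Jkz`, `St_Exp`, `St_Lso`).  PROOF.  Let `S` be the subring `J` (`CRL.jil`); `KJ R p ⊆ J` (see `CRQ/Lca.lean`).  `St_Exp` for the ring `S`, `m = Tn p g ≥ 9`,
`D = {u z_i | u ∈ W}`, `E = {a b | a, b ∈ S} ∪ {x | ∃ a : R, x = p a}`.  They generate `S` additively: every nil `y` is `κ + ∑ u_i z_i`, `κ ∈ KJ`
(`CRP.Dcp_all`, `CRP.Dcp_rep`, as in `CRQ/Lca.lean`).  Words in `D`: the `u` are central (`t₀` is), so the product is `u` times a word in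
the `z_i`, which is zero: `p = 2`: `Jkz` for the ring `S`, `k = g`; `p = 3`: a letter occurs `≥ 4` times, `CRM.fle` (1) for `S`.  `x = a b`: the product with one more
factor.  `x = p a`: put `a` into the factor before or after it (`J` is an ideal): `p` times a product of at least 8 elements of `S`, `0` by `Jk0`. -/
def St_Ltp : Prop := ∀ (n p N : ℕ) (R : Type) [NonUnitalRing R] [Finite R] (e t₀ : R) (g : ℕ),
  (p = 2 ∨ p = 3) → Cnx n p N e t₀ → 6 ≤ g →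
  (∃ z : Fin g → R, (∀ i, Nl (z i)) ∧ NonUnitalSubring.closure ({t₀} ∪ Set.range z) = ⊤) →
  ∀ l : List R, (∀ x ∈ l, Nl x) → Tn p g ≤ l.length → wp l = 0

/-- **LCH** (from `St_Cfx`, `St_Lwa`).  PROOF.  Let `q = |R / J|` (`J` the ideal of the nil elements, `CRL.jil`); for every frame `t`, `W` modulo nil elements is a
field with `q` elements (`R = W + J`; `St_Lwa` (3)), so `C(t)^(q-1)` is nil or congruent to `e` modulo `J` for every polynomial `C` and every frame `t`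
(other exponent: any `k ≥ 1` with `u^k ≡ e` for all invertible `u`).  For a frame `t'` which is not conjugate to `t₀` there is a `C` with exactly one of
`C(t')`, `C(t₀)` nil; let `E = C^(q-1)` if `C(t')` is nil, `E = 1 - C^(q-1)` if `C(t₀)` is nil: `E(t₀) ≡ e`, `E(t') ≡ 0`.  So `E(t) - e` is nil for all `t` conjugate to `t₀`
(the polynomial `E - 1`).  `χ` = the product of these `E` over the finitely many `t'`.  (Products and differences of polynomials `C`: the lists are closed under them,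
`(C C')(t) = C(t) C'(t)`; one can use `CRQ.Lca_pol`, `Lca_pol_ex` and the homomorphism `Polynomial.aeval` with values in the endomorphisms of `R`,
`Cv m e t * x = aeval (t * ·) (Lca_pol m) x`, as `CRQ.Lca_sm`.) -/
def St_Lch : Prop := ∀ (n p N : ℕ) (R : Type) [NonUnitalRing R] [Finite R] (e t₀ : R),
  Cnx n p N e t₀ → ∃ χ : List (ℤ × ℕ), ∀ t : R, Frame R n 1 (fun _ => t) →
    (Eqf e t t₀ → Nl (Cv χ e t - e)) ∧ (¬ Eqf e t t₀ → Nl (Cv χ e t))

/-- **LKS** (from `St_Cfx`, `St_Lwa`, `St_Lso`).  PROOF.  `(C • x)(s) = C(s) x(s)` (`CRQ.Lca_sme`; every polynomial is `Lca_pol m`, `CRQ.Lca_pol_ex`).  `fld`: `C = Lca_pol m`.  If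
`Cv m e t₀` is nil then `Cv m e s` is nil for all `s` (`Eqf`), so `C(s) ∈ p W`, `C • x = p • y`, `y s = w_s x s`.  Otherwise `Cv m' e t₀ * Cv m e t₀ = e` (`St_Lwa` (3)); the
polynomial `m' m - 1` is nil at `t₀`, so at all `s`, so `(m' m - 1)(s) ∈ p W`: `Ku`.  `mK`: `KJ R p` is an ideal (generators).  `mp`, `mm`: by
definition of `KJ`.  `hK`: `H` is an ideal.  `h0`, `h1`: `St_Lso`, pointwise (for `h1` and `a ∈ S` take the function which is `a` at `s` and `0` elsewhere, or the constant). -/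
def St_Lks : Prop := ∀ (n p N : ℕ) (R : Type) [NonUnitalRing R] [Finite R] (e t₀ : R)
  (H : AddSubgroup R) (S : NonUnitalSubring R)
  (hS : ∀ (s : Ftp n e t₀) (x : R), x ∈ S → s.1 * x ∈ S), (p = 2 ∨ p = 3) →
  Cnx n p N e t₀ → Lst R H → (∀ x, x ∈ S ↔ Nl x) →
  letI := Lca_mod (Ftp n e t₀) (fun s => s.1) S hS
  Kst (Polynomial ℤ) p (Fsg (Ftp n e t₀) S (KJ R p)) (Fsg (Ftp n e t₀) S H)

/-- **LGD** (from `St_Cfx`, `St_Lwa`).  PROOF.  `F x s = Vl L s (x s)` (in `S`, as it is nil: `H` is an ideal of nil elements, or the value of a word which contains nil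
letters; `J` is an ideal).  `Wf`: the list `(q.1 X^(q.2.1), q.2.2)` (`CRQ.Lca_evwp`, `Lca_sme`; `CRM.Vl`: the word `t^d w` is `te e t d * w(x)`, as `w` is not empty).  `val`
clear.  `inv`: one argument after the other (`y ∈ KJ`).  `dep`: `∑ c_i • x_i ∈ Fsg KJ`, `Ku (c_k)`; let `c_i = Lca_pol (m i)`, fix `s`, and let `j` be the largest index with
`Cv (m j) e s` not nil (`k` is one, or `S = p S`, so `S = 0` by `p^r S = 0`: `Ku` gives `d c_k ≡ 1` modulo `p`, and if `c_k(s) ∈ p W` then `x = p y` for all `x`); for `i > j` `Cv (m i) e s ∈ p W` (`St_Lwa` (2)), so the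
item is in `KJ`; multiply with `v`, `v Cv (m j) e s = e`: `x_j s + ∑_(i<j) u_i x_i s ∈ KJ`, so `- x_j s` is an allowed `y`, and the value is
`Vl L s (update x j 0) = 0` (`CRM.Lfb_Vl_zero`).  `ne`: the functions with the value `x i` at `t₀`. -/
def St_Lgd : Prop := ∀ (n p N : ℕ) (R : Type) [NonUnitalRing R] [Finite R] (e t₀ : R)
  (H : AddSubgroup R) (S : NonUnitalSubring R)
  (hS : ∀ (s : Ftp n e t₀) (x : R), x ∈ S → s.1 * x ∈ S) (g : ℕ) (L : List (ℤ × ℕ × List ℕ)),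
  Cnx n p N e t₀ → Lst R H → (∀ x, x ∈ S ↔ Nl x) → 1 ≤ g →
  (∀ q ∈ L, ∀ i, i ∈ q.2.2 ↔ i < g) →
  (∀ (t : R) (x : Fin g → R), Frame R n 1 (fun _ => t) → (∀ i, Nl (x i)) →
      Vl L t x ∈ H ∧ ∀ (j : Fin g) (y : R),
      y ∈ KJ R p ⊔ AddSubgroup.closure
        {w | ∃ i, i < j ∧ ∃ u ∈ NonUnitalSubring.closure ({t} : Set R), w = u * x i} →
      Vl L t (Function.update x j (x j + y)) = Vl L t x) →
  (∃ x : Fin g → R, (∀ i, Nl (x i)) ∧ Vl L t₀ x ≠ 0) →
  letI := Lca_mod (Ftp n e t₀) (fun s => s.1) S hS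
  ∃ F : (Fin g → Ftp n e t₀ → S) → Ftp n e t₀ → S, Wf (Polynomial ℤ) g F ∧
    Good (Polynomial ℤ) p (Fsg (Ftp n e t₀) S (KJ R p)) (Fsg (Ftp n e t₀) S H) g F

/-- **LDM** (from `St_Lkb`).  PROOF.  `Dm`: let `x : Fin m → T → S`, `s : T`.  Let `y i` be the function which is `x i s` at `s` and `0` elsewhere.  `(F x) s = (F y) s` (`Wf`,
`CRQ.Lca_sme`, `Lca_evwp`: the value at `s` depends only on the values at `s`).  `St_Lkb` (2) for the `x i s`: lists `m i`, `j`; with `c i = Lca_pol (m i)` we have `∑ c i • y i ∈ Fsg KJ`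
and `c j` acts as the identity (`Ku`).  So `F y = 0`.  `Gn`: the constant functions `z k`.  Let `(F x) s ≠ 0`; `St_Lkb` (3): lists `m i k` with `x i s - ∑ Cv (m i k) e s * z k ∈ KJ`; `c i k = Lca_pol (m i k)`,
`y i = ∑ c i k • z k`, `y' i` the function which is `x i s` at `s` and `y i` elsewhere: `F y = F y'`, and `(F y') s = (F x) s ≠ 0`. -/
def St_Ldm : Prop := ∀ (n p N : ℕ) (R : Type) [NonUnitalRing R] [Finite R] (e t₀ : R)
  (S : NonUnitalSubring R) (hS : ∀ (s : Ftp n e t₀) (x : R), x ∈ S → s.1 * x ∈ S) (g : ℕ),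
  Cnx n p N e t₀ → (∀ x, x ∈ S ↔ Nl x) → ∀ z : Fin g → R, (∀ i, Nl (z i)) →
  NonUnitalSubring.closure ({t₀} ∪ Set.range z) = ⊤ →
  letI := Lca_mod (Ftp n e t₀) (fun s => s.1) S hS
  Dm (Polynomial ℤ) p (Fsg (Ftp n e t₀) S (KJ R p)) g ∧
    Gn (Polynomial ℤ) (Fsg (Ftp n e t₀) S (KJ R p)) g

/-- **LBK** (from `Jk0`, `St_Cfx`, `St_Lwa`, `St_Lso`, `St_Lkb`, `St_Lch`).  PROOF.  `c_i = Lca_pol (m_i)`, `χ` from `St_Lch`, `c'_i` a list with `Cv c'_i e t = Cv χ e t * Cv m_i e t` for all frames `t` (in fact for all `t`).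
Put `f₀ t x = ∑ Cv m_i e t * Vg B_i x`, `f t x = ∑ Cv c'_i e t * Vg B_i x = Cv χ e t * f₀ t x`.  For a frame `t` conjugate to `t₀` (`s = t`) and nil `x`: `f₀ t x = (Kc c B y) s`, `y i` the function which is
`x i` at `s` and `0` elsewhere; it is in `H`; `Cv χ e t - e ∈ p W` (`St_Lwa` (1), (2)), `p H = 0`, so `f t x = f₀ t x ∈ H`; the invariance follows from `Good.inv`, and if `t, x` do
not generate `R` then `St_Lkb` (1) and `Good.dep` (`c i = Lca_pol (m i)` with the `m` of `St_Lkb`) give `0`.  For a frame `t` not conjugate to `t₀`: `Cv χ e t ∈ p W`, and `p • Vg B_i x = 0` (`Jk0` for the subring `S` of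
nil elements; every word contains the `g ≥ 6` letters), so `f t x = 0`.  `ne`: `Good.ne`, at some `s`. -/
def St_Lbk : Prop := ∀ (n p N : ℕ) (R : Type) [NonUnitalRing R] [Finite R] (e t₀ : R)
  (H : AddSubgroup R) (S : NonUnitalSubring R)
  (hS : ∀ (s : Ftp n e t₀) (x : R), x ∈ S → s.1 * x ∈ S) (g : ℕ)
  (B : List (List (ℤ × List ℕ))) (c : List (Polynomial ℤ)), (p = 2 ∨ p = 3) →
  Cnx n p N e t₀ → Lst R H → (∀ x, x ∈ S ↔ Nl x) → 6 ≤ g →
  (∃ z : Fin g → R, (∀ i, Nl (z i)) ∧ NonUnitalSubring.closure ({t₀} ∪ Set.range z) = ⊤) →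
  (∀ b ∈ B, ∀ q ∈ b, ∀ i, i ∈ q.2 ↔ i < g) → c.length = B.length →
  (letI := Lca_mod (Ftp n e t₀) (fun s => s.1) S hS
   Good (Polynomial ℤ) p (Fsg (Ftp n e t₀) S (KJ R p)) (Fsg (Ftp n e t₀) S H) g
      (fun x : Fin g → Ftp n e t₀ → S => Kc c B x)) →
  ∃ c' : List (List (ℤ × ℕ)), c'.length = B.length ∧
    (∀ (t : R) (x : Fin g → R), Frame R n 1 (fun _ => t) → (∀ i, Nl (x i)) →
      ((c'.zip B).map fun q => Cv q.1 e t * Vg q.2 x).sum ∈ H ∧
      (∀ y : Fin g → R, (∀ i, Nl (y i) ∧ x i - y i ∈ KJ R p) →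
        ((c'.zip B).map fun q => Cv q.1 e t * Vg q.2 x).sum =
          ((c'.zip B).map fun q => Cv q.1 e t * Vg q.2 y).sum) ∧
      (NonUnitalSubring.closure ({t} ∪ Set.range x) ≠ ⊤ →
        ((c'.zip B).map fun q => Cv q.1 e t * Vg q.2 x).sum = 0)) ∧
    ∃ (t : R) (x : Fin g → R), Frame R n 1 (fun _ => t) ∧ (∀ i, Nl (x i)) ∧
      ((c'.zip B).map fun q => Cv q.1 e t * Vg q.2 x).sum ≠ 0

/-- **LXB.**  PROOF.  `Cy R n p`.  `φ v = f (v 0) (fun i => v (1 + i))` (`Cll`: `Vl L`, or with `Cv`; `e = om n (v 0)`-like: a term function with the same values on `Vec n 1 g`: `e = pw (v 0) (N - 1)`, see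
`CRQ/Lcb.lean`, `Lcb_tm_Cv`, `thm_Lcb`, and `CRM/Lgb.lean`).  `Gz n 1 g H φ`: `val`, `van`, `ne` from the conditions on `f`.  `CRM.bkl`. -/
def St_Lxb : Prop := ∀ Tb : ℕ → ℕ → List (List (ℤ × List ℕ)) → Prop, Tbw Tb →
  ∀ (n : ℕ) (R : Type) [NonUnitalRing R] [Finite R], 4 ≤ n → InM n R → ¬ Twn R → CenX Tb R n →
  Critical R

/-! ### Part E: assembly (helper39) -/

/-- **NMT** (from `Jk0`). -/
def St_Nmt : Prop := ∀ (R : Type) [NonUnitalRing R] (p : ℕ), (p = 2 ∨ p = 3) →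
  (∀ x : R, x * x * x = 0) → (∃ r : ℕ, ∀ x : R, (p ^ r) • x = 0) → Mt (KJ R p)

/-- **LMT** (from `Jk0`). -/
def St_Lmt : Prop := ∀ (n p N : ℕ) (R : Type) [NonUnitalRing R] [Finite R] (e t₀ : R)
  (S : NonUnitalSubring R), (p = 2 ∨ p = 3) → Cnx n p N e t₀ → (∀ x, x ∈ S ↔ Nl x) →
  Mt (Fsg (Ftp n e t₀) S (KJ R p))

/-- **NXF.** -/
def St_Nxf : Prop := ∀ Tb : ℕ → ℕ → List (List (ℤ × List ℕ)) → Prop, KTh 2 (Tb 2) → KTh 3 (Tb 3) →
  ∀ (R : Type) [NonUnitalRing R] [Finite R], ¬ (Nat.card R).Coprime 6 → NFl R → NilX Tb R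

/-- **LXF.** -/
def St_Lxf : Prop := ∀ Tb : ℕ → ℕ → List (List (ℤ × List ℕ)) → Prop, Tbw Tb → KTh 2 (Tb 2) →
  KTh 3 (Tb 3) → ∀ (n : ℕ) (R : Type) [NonUnitalRing R] [Finite R], 4 ≤ n → InM n R → ¬ Twn R →
  ¬ (Nat.card R).Coprime 6 → CFl R n → CenX Tb R n

/-- **FIX.**  The theorem. -/
def St_Fix : Prop := ∀ Tb : ℕ → ℕ → List (List (ℤ × List ℕ)) → Prop, Tbw Tb → KTh 2 (Tb 2) →
  KTh 3 (Tb 3) → ∀ n : ℕ, 4 ≤ n → ∀ (R : Type) [NonUnitalRing R] [Finite R], InM n R →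
  (Critical R ↔ MatType R 2 ∨ MatType R 3 ∨ TriType R ∨ TriType Rᵐᵒᵖ ∨
    (¬ Twn R ∧ (PthType R n ∨ PthType Rᵐᵒᵖ n ∨ Twl R n ∨
      ((Nat.card R).Coprime 6 ∧ (CenT R n ∨ NilT R)) ∨ CenX Tb R n ∨ NilX Tb R)))

end Pool.Agent.CRS
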