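import Pool.Agent.CRS.StG

/-!
Campaign CRS, module Sym: good multilinear functions are symmetric.
-/

set_option autoImplicit false

namespace Pool.Agent.CRS

open Pool.Agent.CRR Pool.Agent.CRN Pool.Agent.CRK Pool.Agent.CRL Pool.Agent.CRM Pool.Agent.CRP
open Pool.Agent.CRQ

section

variable {A : Type} [NonUnitalRing A]

private theorem sym_add (l₁ l₂ : List A) (x y : A) :
    wp (l₁ ++ (x + y) :: l₂) = wp (l₁ ++ x :: l₂) + wp (l₁ ++ y :: l₂) := by
  induction l₁ with
  | nil =>
    cases l₂ with
    | nil => rfl
    | cons b l => exact add_mul x y _
  | cons a l ih =>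
    have h : ∀ z : A, wp (a :: l ++ z :: l₂) = a * wp (l ++ z :: l₂) := fun z =>
      Lib_cons a (by simp)
    rw [h, h, h, ih, mul_add]

private theorem sym_word {g : ℕ} (htop : ∀ l : List A, g + 1 ≤ l.length → wp l = 0) (w : List ℕ)
    (hw : ∀ i, i ∈ w ↔ i < g) (x : Fin g → A) (k : Fin g) (u v : A) :
    wp (w.map (xs (Function.update x k (u + v)))) =
      wp (w.map (xs (Function.update x k u))) + wp (w.map (xs (Function.update x k v))) := by
  classical
  by_cases hl : g + 1 ≤ w.length
  · rw [htop _ (by simpa using hl), htop _ (by simpa using hl), htop _ (by simpa using hl), add_zero]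
  · have h1 : w.toFinset = Finset.range g := by
      ext i
      simp [hw]
    have h2 : w.Nodup := by
      have h3 : w.toFinset.card = g := by rw [h1, Finset.card_range]
      have h4 := List.toFinset_card_le w
      have h5 : (w : Multiset ℕ).toFinset.card = (w : Multiset ℕ).card := by
        show w.toFinset.card = w.length
        omega
      exact Multiset.toFinset_card_eq_card_iff_nodup.1 h5
    obtain ⟨w₁, w₂, rfl⟩ := List.append_of_mem ((hw k).2 k.2)
    have h5 := h2
    rw [List.nodup_append] at h5
    obtain ⟨-, h6, h7⟩ := h5
    have h8 : (k : ℕ) ∉ w₂ := (List.nodup_cons.1 h6).1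
    have h9 : (k : ℕ) ∉ w₁ := fun h => h7 _ h _ List.mem_cons_self rfl
    have h10 : ∀ (y : A) (l : List ℕ), (k : ℕ) ∉ l →
        l.map (xs (Function.update x k y)) = l.map (xs x) := by
      intro y l hkl
      apply List.map_congr_left
      intro i hi
      unfold xs
      split_ifs with h
      · rw [Function.update_of_ne]
        intro h'
        apply hkl
        rw [← h']
        exact hi
      · rfl
    have h11 : ∀ y : A, (w₁ ++ (k : ℕ) :: w₂).map (xs (Function.update x k y)) =
        w₁.map (xs x) ++ y :: w₂.map (xs x) := by
      intro y
      rw [List.map_append, List.map_cons, h10 y _ h9, h10 y _ h8]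
      congr 2
      unfold xs
      rw [dif_pos k.2]
      exact Function.update_self _ _ _
    rw [h11, h11, h11, sym_add]

end

private theorem sym_ad (K : Type) [CommRing K] {A : Type} [NonUnitalRing A] [Module K A] {g : ℕ}
    {f : (Fin g → A) → A} (htop : ∀ l : List A, g + 1 ≤ l.length → wp l = 0) (hf : Wf K g f)
    (x : Fin g → A) (k : Fin g) (u v : A) :
    f (Function.update x k (u + v)) = f (Function.update x k u) + f (Function.update x k v) := by
  obtain ⟨L, hL, hf⟩ := hf
  rw [hf, hf, hf, ← List.sum_map_add]
  congr 1
  apply List.map_congr_left
  intro q hq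
  rw [sym_word htop q.2 (hL q hq).2, smul_add]

/-- **SYM.** -/
theorem thm_Sym : St_Sym := by
  classical
  intro K _ A _ _ _ _ M H g f _ hK htop hf hG
  have had := sym_ad K htop hf
  have hdep : ∀ (x : Fin g → A) (p q : Fin g), p ≠ q → x p = x q → f x = 0 := by
    intro x p q hpq hx
    refine hG.dep x (fun i => if i = p then 1 else if i = q then -1 else 0) p ?_ ?_
    · refine ⟨1, fun a => ⟨0, ?_⟩⟩
      simp
    · have h1 : ∑ i, (if i = p then (1 : K) else if i = q then -1 else 0) • x i = 0 := by
        have h2 : ∀ i, (if i = p then (1 : K) else if i = q then -1 else 0) • x i =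
            (if i = p then x p else 0) - (if i = q then x q else 0) := by
          intro i
          by_cases h3 : i = p
          · subst h3
            simp [hpq]
          · by_cases h4 : i = q
            · subst h4
              simp [h3]
            · simp [h3, h4]
        simp only [h2]
        rw [Finset.sum_sub_distrib, Finset.sum_ite_eq' Finset.univ p, Finset.sum_ite_eq' Finset.univ q]
        simp [hx]
      show ∑ i, (if i = p then (1 : K) else if i = q then -1 else 0) • x i ∈ M
      rw [h1]
      exact M.zero_mem
  have hswap : ∀ (p q : Fin g), p ≠ q → ∀ x : Fin g → A, f (x ∘ Equiv.swap p q) = f x := by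
    intro p q hpq x
    have hqp : q ≠ p := fun h => hpq h.symm
    have h1 : ∀ a b : A, Function.update (Function.update x p a) q b p = a := by
      intro a b
      rw [Function.update_of_ne hpq, Function.update_self]
    have h0 : ∀ a : A, f (Function.update (Function.update x p a) q a) = 0 := by
      intro a
      refine hdep _ p q hpq ?_
      rw [h1, Function.update_self]
    have hadp : ∀ a a' b : A, f (Function.update (Function.update x p (a + a')) q b) =
        f (Function.update (Function.update x p a) q b) +
          f (Function.update (Function.update x p a') q b) := by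
      intro a a' b
      rw [Function.update_comm hpq, Function.update_comm hpq, Function.update_comm hpq]
      exact had _ p a a'
    have h2 := h0 (x p + x q)
    rw [hadp, had, had, h0, h0, zero_add, add_zero] at h2
    have h3 : Function.update (Function.update x p (x p)) q (x q) = x := by
      rw [Function.update_eq_self, Function.update_eq_self]
    have h4 : Function.update (Function.update x p (x q)) q (x p) = x ∘ Equiv.swap p q := by
      funext i
      by_cases hi : i = q
      · subst hi
        rw [Function.update_self, Function.comp_apply, Equiv.swap_apply_right]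
      · rw [Function.update_of_ne hi]
        by_cases hi' : i = p
        · subst hi'
          rw [Function.update_self, Function.comp_apply, Equiv.swap_apply_left]
        · rw [Function.update_of_ne hi', Function.comp_apply, Equiv.swap_apply_of_ne_of_ne hi' hi]
    rw [h3, h4] at h2
    have h5 : f x + f x = 0 := by
      rw [← two_nsmul]
      exact (hK.h0 _ (hG.val x)).1
    rw [eq_neg_of_add_eq_zero_right h2, neg_eq_of_add_eq_zero_left h5]
  intro σ
  induction σ using Equiv.Perm.swap_induction_on with
  | one => exact fun x => rfl
  | swap_mul τ a b hab ih =>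
    intro x
    have h1 : x ∘ ((Equiv.swap a b * τ : Equiv.Perm (Fin g)) : Fin g → Fin g) =
        (x ∘ Equiv.swap a b) ∘ τ := rfl
    rw [h1, ih, hswap a b hab]

end Pool.Agent.CRS
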