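import Pool.Agent.CRS.StF

/-!
# CRS.TBE: the value of a list of orderings (MP_1bb14d_al)
-/

set_option autoImplicit false

namespace Pool.Agent.CRS

open Pool.Agent.CRR Pool.Agent.CRN Pool.Agent.CRK Pool.Agent.CRL Pool.Agent.CRM Pool.Agent.CRP
open Pool.Agent.CRQ

private theorem TBE_cons {ι A : Type} [AddCommMonoid A] (κ : ι → ι → A) (a b : ι) (l : List ι) :
    adj κ (a :: b :: l) = κ a b + adj κ (b :: l) := rfl

private theorem TBE_single {g : ℕ} {A : Type} [AddCommMonoid A] (κ : Fin g → Fin g → A) (a b : Fin g) :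
    ∑ i : Fin g, ∑ j : Fin g, (if a.val = i.val ∧ b.val = j.val then 1 else 0 : ℕ) • κ i j = κ a b := by
  rw [Finset.sum_eq_single a, Finset.sum_eq_single b]
  · simp
  · intro j _ hj
    have : ¬ (a.val = a.val ∧ b.val = j.val) := fun h => hj (Fin.ext h.2.symm)
    rw [if_neg this, zero_smul]
  · intro h
    exact absurd (Finset.mem_univ b) h
  · intro i _ hi
    refine Finset.sum_eq_zero fun j _ => ?_
    have : ¬ (a.val = i.val ∧ b.val = j.val) := fun h => hi (Fin.ext h.1.symm)
    rw [if_neg this, zero_smul]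
  · intro h
    exact absurd (Finset.mem_univ a) h

private theorem TBE_adj {g : ℕ} {A : Type} [AddCommMonoid A] (κ : Fin g → Fin g → A) (w : List (Fin g)) :
    adj κ w = ∑ i : Fin g, ∑ j : Fin g,
      (adj (fun a b => if a = i.val ∧ b = j.val then 1 else 0) (w.map Fin.val) : ℕ) • κ i j := by
  induction w with
  | nil => simp [adj]
  | cons a l ih =>
    cases l with
    | nil => simp [adj]
    | cons b l =>
      rw [TBE_cons, ih]
      simp only [List.map_cons]
      rw [← TBE_single κ a b, ← Finset.sum_add_distrib]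
      refine Finset.sum_congr rfl fun i _ => ?_
      rw [← Finset.sum_add_distrib]
      refine Finset.sum_congr rfl fun j _ => ?_
      rw [TBE_cons, ← add_smul]

private theorem TBE_word {g : ℕ} (l : List ℕ) (h : l.Perm (List.range g)) :
    ∃ w : List (Fin g), w.map Fin.val = l ∧ ∀ i, w.count i = 1 := by
  have hl : ∀ i ∈ l, i < g := fun i hi => List.mem_range.1 (h.mem_iff.1 hi)
  refine ⟨l.pmap (fun i hi => (⟨i, hi⟩ : Fin g)) hl, ?_, ?_⟩
  · rw [List.map_pmap]
    simp
  · intro i
    have e : (l.pmap (fun i hi => (⟨i, hi⟩ : Fin g)) hl).map Fin.val = l := by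
      rw [List.map_pmap]
      simp
    rw [← List.count_map_of_injective _ Fin.val Fin.val_injective, e, h.count_eq]
    exact List.count_eq_one_of_mem List.nodup_range (List.mem_range.2 i.2)

private theorem TBE_sum {A : Type} [NonUnitalRing A] {g : ℕ} (x : Fin g → A) (e : A) (κ : Fin g → Fin g → A)
    (hw : ∀ w : List (Fin g), (∀ i, w.count i = 1) → wp (w.map x) = e + adj κ w) (L : List (ℤ × List ℕ))
    (h1 : ∀ q ∈ L, q.1 = 1) (h2 : ∀ q ∈ L, q.2.Perm (List.range g)) :
    Vg L x = L.length • e + ∑ i : Fin g, ∑ j : Fin g, cnt L i.val j.val • κ i j := by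
  induction L with
  | nil => simp [Vg, ev, cnt]
  | cons q L ih =>
    have ih' := ih (fun r hr => h1 r (List.mem_cons_of_mem _ hr)) (fun r hr => h2 r (List.mem_cons_of_mem _ hr))
    obtain ⟨w, hw1, hw2⟩ := TBE_word q.2 (h2 q (List.mem_cons_self))
    have hx : q.2.map (xs x) = w.map x := by
      rw [← hw1, List.map_map]
      refine List.map_congr_left fun i _ => ?_
      simp [xs]
    have hv : Vg (q :: L) x = (e + adj κ w) + Vg L x := by
      unfold Vg ev
      rw [List.map_cons, List.sum_cons, h1 q (List.mem_cons_self), one_smul, hx, hw w hw2]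
    rw [hv, ih', TBE_adj κ w, hw1]
    have hc : ∀ i j : Fin g, cnt (q :: L) i.val j.val • κ i j =
        (adj (fun a b => if a = i.val ∧ b = j.val then 1 else 0) q.2 : ℕ) • κ i j + cnt L i.val j.val • κ i j := by
      intro i j
      rw [← add_smul]
      rfl
    simp only [hc, Finset.sum_add_distrib, List.length_cons]
    rw [add_smul, one_smul]
    abel

private theorem TBE_mod {A : Type} [AddCommGroup A] {y : A} (hy : y + y = 0) {m n : ℕ} (h : m % 2 = n % 2) :
    m • y = n • y := by
  have key : ∀ k : ℕ, k • y = (k % 2) • y := by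
    intro k
    conv_lhs => rw [← Nat.div_add_mod k 2]
    rw [add_smul, mul_comm, mul_smul, two_smul, hy, smul_zero, zero_add]
  rw [key m, key n, h]

/-- The value of a list of orderings. -/
theorem thm_TBE : St_WG → St_TBE := by
  intro hG A _ hA g c E L x e κ _ hL he hκ hw
  have h2 : ∀ y ∈ Wg x, y + y = 0 := hG.1 A hA (Fin g) x
  rw [TBE_sum x e κ hw L hL.one hL.ord, TBE_mod (h2 e he) hL.num]
  congr 1
  refine Finset.sum_congr rfl fun i _ => Finset.sum_congr rfl fun j _ => ?_
  by_cases hE : E i.val j.val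
  · rw [if_pos hE]
    have : cnt L i.val j.val % 2 = 1 % 2 := (hL.arc i.val j.val i.2 j.2).2 hE
    rw [TBE_mod (h2 _ (hκ i j)) this, one_smul]
  · rw [if_neg hE]
    have h : ¬ cnt L i.val j.val % 2 = 1 := fun h => hE ((hL.arc i.val j.val i.2 j.2).1 h)
    have : cnt L i.val j.val % 2 = 0 % 2 := by omega
    rw [TBE_mod (h2 _ (hκ i j)) this, zero_smul]

end Pool.Agent.CRS
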