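import Pool.Agent.CRS.StF

/-!
Campaign CRS, p = 2, module TBK: the values of the lists with one letter twice.
-/

set_option autoImplicit false

namespace Pool.Agent.CRS

open Pool.Agent.CRR Pool.Agent.CRN Pool.Agent.CRK Pool.Agent.CRL Pool.Agent.CRM Pool.Agent.CRP
open Pool.Agent.CRQ

private theorem TBK_adj {ι A : Type} [AddCommMonoid A] (κ : ι → ι → A) (a b : ι) (l : List ι) :
    adj κ (a :: b :: l) = κ a b + adj κ (b :: l) := rfl

private theorem TBK_zero {ι A : Type} [AddCommMonoid A] (κ : ι → ι → A) (i : ι)
    (h : ∀ j k, j ≠ i → k ≠ i → κ j k = 0) (l : List ι) (hl : ∀ j ∈ l, j ≠ i) : adj κ l = 0 := by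
  induction l with
  | nil => rfl
  | cons a l ih =>
    cases l with
    | nil => rfl
    | cons b l =>
      rw [TBK_adj, h a b (hl a (by simp)) (hl b (by simp)),
        ih (fun j hj => hl j (List.mem_cons_of_mem _ hj)), add_zero]

private theorem TBK_mem {ι A : Type} [NonUnitalRing A] (H : AddSubgroup A) (κ : ι → ι → A)
    (h : ∀ j k, κ j k ∈ H) (l : List ι) : adj κ l ∈ H := by
  induction l with
  | nil => exact H.zero_mem
  | cons a l ih =>
    cases l with
    | nil => exact H.zero_mem
    | cons b l =>
      rw [TBK_adj]
      exact H.add_mem (h a b) ih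

private theorem TBK_val {A : Type} [NonUnitalRing A] {g : ℕ} (x : Fin g → A) (w : List (Fin g)) :
    (w.map Fin.val).map (xs x) = w.map x := by
  rw [List.map_map]
  apply List.map_congr_left
  intro i _
  show xs x i.val = x i
  unfold xs
  rw [dif_pos i.isLt]

private theorem TBK_two {A : Type} [NonUnitalRing A] {g : ℕ} (x : Fin g → A) (u v : List (Fin g)) :
    Vg [((1 : ℤ), u.map Fin.val), (1, v.map Fin.val)] x = wp (u.map x) + wp (v.map x) := by
  show (1 : ℤ) • wp ((u.map Fin.val).map (xs x)) +
    ((1 : ℤ) • wp ((v.map Fin.val).map (xs x)) + 0) = _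
  rw [TBK_val, TBK_val, one_smul, one_smul, add_zero]

theorem thm_TBK (hWG : St_WG) : St_TBK := by
  intro A _ hA g x i κ hg hκ h0 hw
  obtain ⟨hW1, -, hW3, -, -, -⟩ := hWG
  have h2 : ∀ y ∈ Wg x, y + y = 0 := hW1 A hA (Fin g) x
  have hadj : ∀ l : List (Fin g), adj κ l + adj κ l = 0 := fun l =>
    h2 _ (TBK_mem (Wg x) κ hκ l)
  have hκ2 : ∀ j k, κ j k + κ j k = 0 := fun j k => h2 _ (hκ j k)
  -- words which are rearrangements
  have hP : ∀ w : List (Fin g), w.Perm (i :: List.finRange g) → wp (w.map x) = adj κ w := by
    intro w hp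
    apply hw
    · rw [hp.count_eq, List.count_cons_self,
        List.count_eq_one_of_mem (List.nodup_finRange g) (List.mem_finRange i)]
    · intro j hj
      rw [hp.count_eq, List.count_cons_of_ne (Ne.symm hj),
        List.count_eq_one_of_mem (List.nodup_finRange g) (List.mem_finRange j)]
  obtain ⟨L0, hL0⟩ : ∃ L0 : List (Fin g), L0 = (List.finRange g).erase i := ⟨_, rfl⟩
  have hp0 : (List.finRange g).Perm (i :: L0) := by
    rw [hL0]
    exact List.perm_cons_erase (List.mem_finRange i)
  have hlen : L0.length + 1 = g := by
    have := hp0.length_eq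
    rw [List.length_finRange, List.length_cons] at this
    omega
  have hm0 : L0.map Fin.val = (List.range g).erase i.val := by
    rw [hL0, List.map_erase Fin.val_injective]
    congr 1
    exact List.map_coe_finRange_eq_range
  have hni : ∀ j ∈ L0, j ≠ i := by
    intro j hj hji
    have hnd : (i :: L0).Nodup := hp0.nodup_iff.1 (List.nodup_finRange g)
    rw [hji] at hj
    exact (List.nodup_cons.1 hnd).1 hj
  have hc0 : ∀ k, (List.finRange g).count k = (i :: L0).count k := fun k => hp0.count_eq k
  refine ⟨?_, fun j hj => ?_⟩
  · obtain ⟨a, m, rfl⟩ : ∃ a m, L0 = a :: m := by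
      cases L0 with
      | nil => simp at hlen; omega
      | cons a m => exact ⟨a, m, rfl⟩
    obtain ⟨b, n, rfl⟩ : ∃ b n, m = b :: n := by
      cases m with
      | nil => simp at hlen; omega
      | cons b n => exact ⟨b, n, rfl⟩
    have e1 : Xl g i.val = [((1 : ℤ), (a :: i :: i :: (b :: n)).map Fin.val),
        (1, (i :: ((b :: n) ++ [a, i])).map Fin.val)] := by
      unfold Xl
      rw [← hm0]
      simp
    rw [e1, TBK_two, hP, hP]
    · have z1 : adj κ (b :: n) = 0 := TBK_zero κ i h0 _ fun j hj =>
        hni j (List.mem_cons_of_mem _ hj)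
      have z2 : adj κ ((b :: n) ++ [a]) = 0 := by
        apply TBK_zero κ i h0
        intro j hj
        apply hni
        simp only [List.mem_append, List.mem_cons, List.not_mem_nil, or_false] at hj ⊢
        tauto
      have z3 : adj κ ((b :: n) ++ [a, i]) = κ a i := by
        rw [hW3 (Fin g) A κ a (b :: n) [i], z2, zero_add, TBK_adj]
        show κ a i + 0 = κ a i
        rw [add_zero]
      have z4 : adj κ (i :: ((b :: n) ++ [a, i])) = κ i b + κ a i := by
        rw [← z3]
        rfl
      rw [z4, TBK_adj, TBK_adj, TBK_adj, z1]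
      have e2 : κ a i + (κ i i + (κ i b + 0)) + (κ i b + κ a i) =
          κ i i + (κ i b + κ i b) + (κ a i + κ a i) := by abel
      rw [e2, hκ2, hκ2, add_zero, add_zero]
    · rw [List.perm_iff_count]
      intro k
      rw [List.count_cons (l := List.finRange g), hc0 k]
      simp only [List.count_cons, List.count_append, List.count_nil]
      ring
    · rw [List.perm_iff_count]
      intro k
      rw [List.count_cons (l := List.finRange g), hc0 k]
      simp only [List.count_cons]
      ring
  · have hjL : j ∈ L0 := by
      have := hp0.mem_iff.1 (List.mem_finRange j)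
      rcases List.mem_cons.1 this with h | h
      · exact absurd h hj
      · exact h
    obtain ⟨L1, hL1⟩ : ∃ L1 : List (Fin g), L1 = L0.erase j := ⟨_, rfl⟩
    have hp1 : L0.Perm (j :: L1) := by
      rw [hL1]
      exact List.perm_cons_erase hjL
    have hm1 : L1.map Fin.val = ((List.range g).erase i.val).erase j.val := by
      rw [hL1, List.map_erase Fin.val_injective, hm0]
    have hn1 : ∀ k ∈ L1, k ≠ i := fun k hk => hni k (hp1.mem_iff.2 (List.mem_cons_of_mem _ hk))
    have hlen1 : L1.length + 2 = g := by
      have := hp1.length_eq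
      rw [List.length_cons] at this
      omega
    have hc1 : ∀ k, L0.count k = (j :: L1).count k := fun k => hp1.count_eq k
    obtain ⟨a, m, hL1'⟩ : ∃ a m, L1 = a :: m := by
      cases L1 with
      | nil => simp at hlen1; omega
      | cons a m => exact ⟨a, m, rfl⟩
    have z1 : adj κ L1 = 0 := TBK_zero κ i h0 _ hn1
    have z2 : adj κ (L1 ++ [j]) = 0 := by
      apply TBK_zero κ i h0
      intro k hk
      rcases List.mem_append.1 hk with h | h
      · exact hn1 k h
      · rw [List.mem_singleton.1 h]
        exact hj
    constructor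
    · have e1 : Pm g i.val j.val = [((1 : ℤ), (i :: j :: i :: L1).map Fin.val),
          (1, (i :: (L1 ++ [j, i])).map Fin.val)] := by
        unfold Pm
        rw [← hm1]
        simp
      rw [e1, TBK_two, hP, hP]
      · have z3 : adj κ (L1 ++ [j, i]) = κ j i := by
          rw [hW3 (Fin g) A κ j L1 [i], z2, zero_add, TBK_adj]
          show κ j i + 0 = κ j i
          rw [add_zero]
        have z4 : adj κ (i :: (L1 ++ [j, i])) = κ i a + κ j i := by
          rw [← z3, hL1']
          rfl
        have z5 : adj κ (i :: j :: i :: L1) = κ i j + (κ j i + κ i a) := by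
          rw [TBK_adj, TBK_adj, hL1', TBK_adj, ← hL1', z1, add_zero]
        rw [z4, z5]
        have e2 : κ i j + (κ j i + κ i a) + (κ i a + κ j i) =
            κ i j + (κ j i + κ j i) + (κ i a + κ i a) := by abel
        rw [e2, hκ2, hκ2, add_zero, add_zero]
      · rw [List.perm_iff_count]
        intro k
        rw [List.count_cons (l := List.finRange g), hc0 k, List.count_cons (l := L0), hc1 k]
        simp only [List.count_cons, List.count_append, List.count_nil]
        ring
      · rw [List.perm_iff_count]
        intro k
        rw [List.count_cons (l := List.finRange g), hc0 k, List.count_cons (l := L0), hc1 k]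
        simp only [List.count_cons]
        ring
    · have e1 : Qm g i.val j.val = [((1 : ℤ), (L1 ++ [i, j, i]).map Fin.val),
          (1, (i :: j :: (L1 ++ [i])).map Fin.val)] := by
        unfold Qm
        rw [← hm1]
        simp
      rw [e1, TBK_two, hP, hP]
      · have z3 : adj κ (L1 ++ [i, j, i]) = adj κ (L1 ++ [i]) + (κ i j + κ j i) := by
          rw [hW3 (Fin g) A κ i L1 [j, i], TBK_adj, TBK_adj]
          show _ + (κ i j + (κ j i + 0)) = _
          rw [add_zero]
        have z4 : adj κ (i :: j :: (L1 ++ [i])) = κ i j + adj κ (L1 ++ [i]) := by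
          have hja : κ j a = 0 := h0 j a hj (hn1 a (by rw [hL1']; simp))
          have e3 : adj κ (j :: (L1 ++ [i])) = κ j a + adj κ (L1 ++ [i]) := by
            rw [hL1']
            rfl
          rw [TBK_adj, e3, hja, zero_add]
        rw [z3, z4]
        have e2 : adj κ (L1 ++ [i]) + (κ i j + κ j i) + (κ i j + adj κ (L1 ++ [i])) =
            κ j i + (κ i j + κ i j) + (adj κ (L1 ++ [i]) + adj κ (L1 ++ [i])) := by abel
        rw [e2, hκ2, hadj, add_zero, add_zero]
      · rw [List.perm_iff_count]
        intro k
        rw [List.count_cons (l := List.finRange g), hc0 k, List.count_cons (l := L0), hc1 k]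
        simp only [List.count_cons, List.count_append, List.count_nil]
        ring
      · rw [List.perm_iff_count]
        intro k
        rw [List.count_cons (l := List.finRange g), hc0 k, List.count_cons (l := L0), hc1 k]
        simp only [List.count_cons, List.count_append, List.count_nil]
        ring

end Pool.Agent.CRS
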