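import Pool.Agent.CRS.StF

/-!
Campaign CRS, p = 2, module TBL: the letters of the table (problem MP_1bb14d_al).
-/

set_option autoImplicit false

namespace Pool.Agent.CRS

open Pool.Agent.CRR Pool.Agent.CRN Pool.Agent.CRK Pool.Agent.CRL Pool.Agent.CRM Pool.Agent.CRP
open Pool.Agent.CRQ

private theorem TBL_e1 (g i k : ℕ) : k ∈ (List.range g).erase i ↔ k ≠ i ∧ k < g := by
  rw [List.nodup_range.mem_erase_iff, List.mem_range]

private theorem TBL_e2 (g i j k : ℕ) :
    k ∈ ((List.range g).erase i).erase j ↔ k ≠ j ∧ k ≠ i ∧ k < g := by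
  rw [(List.nodup_range.erase i).mem_erase_iff, TBL_e1]

private theorem TBL_ht (g i : ℕ) (hg : 6 ≤ g) (k : ℕ) :
    (k = ((List.range g).erase i).headI ∨ k ∈ ((List.range g).erase i).tail) ↔ k ≠ i ∧ k < g := by
  rw [← TBL_e1]
  have h1 : (List.range g).erase i ≠ [] := by
    intro h
    rcases eq_or_ne i 0 with rfl | hi
    · have := (TBL_e1 g 0 1).2 ⟨by omega, by omega⟩
      rw [h] at this
      exact absurd this (List.not_mem_nil)
    · have := (TBL_e1 g i 0).2 ⟨fun h => hi h.symm, by omega⟩
      rw [h] at this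
      exact absurd this (List.not_mem_nil)
  obtain ⟨a, l, e⟩ := List.exists_cons_of_ne_nil h1
  rw [e]
  exact List.mem_cons.symm

private theorem TBL_Xl (g i : ℕ) (hg : 6 ≤ g) (hi : i < g) (q : ℤ × List ℕ) (hq : q ∈ Xl g i)
    (k : ℕ) : k ∈ q.2 ↔ k < g := by
  have h1 := TBL_ht g i hg k
  unfold Xl at hq
  rw [List.mem_cons, List.mem_singleton] at hq
  rcases hq with rfl | rfl
  · simp only [List.mem_cons]
    by_cases hk : k = i
    · subst hk
      tauto
    · tauto
  · simp only [List.mem_cons, List.mem_append, List.not_mem_nil, or_false]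
    by_cases hk : k = i
    · subst hk
      tauto
    · tauto

private theorem TBL_Pm (g i j : ℕ) (hi : i < g) (hj : j < g) (q : ℤ × List ℕ)
    (hq : q ∈ Pm g i j) (k : ℕ) : k ∈ q.2 ↔ k < g := by
  have h1 := TBL_e2 g i j k
  unfold Pm at hq
  rw [List.mem_cons, List.mem_singleton] at hq
  rcases hq with rfl | rfl
  · simp only [List.mem_cons, h1]
    by_cases hk : k = i
    · subst hk
      tauto
    · by_cases hk' : k = j
      · subst hk'
        tauto
      · tauto
  · simp only [List.mem_cons, List.mem_append, List.not_mem_nil, or_false, h1]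
    by_cases hk : k = i
    · subst hk
      tauto
    · by_cases hk' : k = j
      · subst hk'
        tauto
      · tauto

private theorem TBL_Qm (g i j : ℕ) (hi : i < g) (hj : j < g) (q : ℤ × List ℕ)
    (hq : q ∈ Qm g i j) (k : ℕ) : k ∈ q.2 ↔ k < g := by
  have h1 := TBL_e2 g i j k
  unfold Qm at hq
  rw [List.mem_cons, List.mem_singleton] at hq
  rcases hq with rfl | rfl
  · simp only [List.mem_cons, List.mem_append, List.not_mem_nil, or_false, h1]
    by_cases hk : k = i
    · subst hk
      tauto
    · by_cases hk' : k = j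
      · subst hk'
        tauto
      · tauto
  · simp only [List.mem_cons, List.mem_append, List.not_mem_nil, or_false, h1]
    by_cases hk : k = i
    · subst hk
      tauto
    · by_cases hk' : k = j
      · subst hk'
        tauto
      · tauto

private theorem TBL_O {g : ℕ} {E : ℕ → ℕ → Prop} {c : ℕ} {L : List (ℤ × List ℕ)}
    (h : Orr g E c L) (q : ℤ × List ℕ) (hq : q ∈ L) (k : ℕ) : k ∈ q.2 ↔ k < g := by
  rw [(h.ord q hq).mem_iff, List.mem_range]

theorem thm_TBL : St_TBL := by
  intro g B hg hB
  have key : ∀ b ∈ B, ∀ q ∈ b, ∀ i, i ∈ q.2 ↔ i < g := by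
    rcases hB with ⟨-, J, R, C, D, T, Z, Y, hJ, hR, hC, hD, hT, hZ, hY, rfl⟩ |
      ⟨-, N, J, R, C, D, T, hN, hJ, hR, hC, hD, hT, rfl⟩ | rfl | ⟨J, hJ, rfl⟩ | rfl | rfl
    · intro b hb
      simp only [List.mem_cons, List.not_mem_nil, or_false] at hb
      rcases hb with rfl | rfl | rfl | rfl | rfl | rfl | rfl
      · exact TBL_O hJ
      · exact TBL_O hR
      · exact TBL_O hC
      · exact TBL_O hD
      · exact TBL_O hT
      · exact TBL_O hZ
      · exact TBL_O hY
    · intro b hb
      simp only [List.mem_cons, List.not_mem_nil, or_false] at hb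
      rcases hb with rfl | rfl | rfl | rfl | rfl | rfl
      · exact TBL_O hN
      · exact TBL_O hJ
      · exact TBL_O hR
      · exact TBL_O hC
      · exact TBL_O hD
      · rcases hT with ⟨-, hT⟩ | ⟨-, rfl⟩
        · exact TBL_O hT
        · intro q hq
          exact absurd hq (List.not_mem_nil)
    · intro b hb
      simp only [List.mem_cons, List.not_mem_nil, or_false] at hb
      rcases hb with rfl | rfl | rfl | rfl | rfl
      · exact TBL_Xl g 0 hg (by omega)
      · intro q hq
        obtain ⟨j, hj, hq⟩ := List.mem_flatMap.1 hq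
        exact TBL_Pm g 0 j (by omega) ((TBL_e1 g 0 j).1 hj).2 q hq
      · intro q hq
        obtain ⟨j, hj, hq⟩ := List.mem_flatMap.1 hq
        exact TBL_Qm g 0 j (by omega) ((TBL_e1 g 0 j).1 hj).2 q hq
      · exact TBL_Pm g 0 1 (by omega) (by omega)
      · exact TBL_Qm g 0 1 (by omega) (by omega)
    · intro b hb
      simp only [List.mem_cons, List.not_mem_nil, or_false] at hb
      rcases hb with rfl | rfl
      · intro q hq
        obtain ⟨j, hj, hq⟩ := List.mem_flatMap.1 hq
        exact TBL_Xl g j hg (List.mem_range.1 hj) q hq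
      · exact TBL_O hJ
    · intro b hb q hq k
      rw [List.mem_singleton] at hb
      subst hb
      unfold A1 at hq
      rw [List.mem_singleton] at hq
      subst hq
      have h1 := TBL_e2 g 0 1 k
      simp only [List.mem_cons, h1]
      omega
    · intro b hb q hq k
      rw [List.mem_singleton] at hb
      subst hb
      unfold A2 at hq
      rw [List.mem_singleton] at hq
      subst hq
      have h1 := TBL_e2 g 0 1 k
      simp only [List.mem_cons, h1]
      omega
  intro b hb q hq
  refine ⟨fun h => ?_, key b hb q hq⟩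
  have h1 := (key b hb q hq 0).2 (by omega)
  rw [h] at h1
  exact absurd h1 (List.not_mem_nil)

end Pool.Agent.CRS
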