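import Pool.Agent.CRS.StF

/-!
Campaign CRS (problem MP_1bb14d_al): parities of the arc sets of the table (helper2, statement `St_TBX` of helper73).
-/

set_option autoImplicit false

namespace Pool.Agent.CRS

open Pool.Agent.CRR Pool.Agent.CRN Pool.Agent.CRK Pool.Agent.CRL Pool.Agent.CRM Pool.Agent.CRP
open Pool.Agent.CRQ

private theorem TBX_J (g : ℕ) [DecidablePred fun q : ℕ × ℕ => eJ q.1 q.2] :
    (((Finset.range g) ×ˢ (Finset.range g)).filter fun q : ℕ × ℕ => eJ q.1 q.2).card =
      g * (g - 1) := by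
  have h : (((Finset.range g) ×ˢ (Finset.range g)).filter fun q : ℕ × ℕ => eJ q.1 q.2) =
      (Finset.range g).offDiag := by
    ext ⟨i, j⟩
    rw [Finset.mem_filter]
    simp only [Finset.mem_product, Finset.mem_range, Finset.mem_offDiag, eJ]
    tauto
  rw [h, Finset.offDiag_card, Finset.card_range, Nat.mul_sub_one]

private theorem TBX_R (g : ℕ) (hg : 6 ≤ g) [DecidablePred fun q : ℕ × ℕ => eR q.1 q.2] :
    (((Finset.range g) ×ˢ (Finset.range g)).filter fun q : ℕ × ℕ => eR q.1 q.2).card =
      g - 1 := by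
  have h : (((Finset.range g) ×ˢ (Finset.range g)).filter fun q : ℕ × ℕ => eR q.1 q.2) =
      ({0} : Finset ℕ) ×ˢ ((Finset.range g).erase 0) := by
    ext ⟨i, j⟩
    rw [Finset.mem_filter]
    simp only [Finset.mem_product, Finset.mem_range, Finset.mem_singleton,
      Finset.mem_erase, eR]
    omega
  rw [h, Finset.card_product, Finset.card_singleton, one_mul,
    Finset.card_erase_of_mem (Finset.mem_range.2 (by omega)), Finset.card_range]

private theorem TBX_C (g : ℕ) (hg : 6 ≤ g) [DecidablePred fun q : ℕ × ℕ => eC q.1 q.2] :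
    (((Finset.range g) ×ˢ (Finset.range g)).filter fun q : ℕ × ℕ => eC q.1 q.2).card =
      g - 1 := by
  have h : (((Finset.range g) ×ˢ (Finset.range g)).filter fun q : ℕ × ℕ => eC q.1 q.2) =
      ((Finset.range g).erase 0) ×ˢ ({0} : Finset ℕ) := by
    ext ⟨i, j⟩
    rw [Finset.mem_filter]
    simp only [Finset.mem_product, Finset.mem_range, Finset.mem_singleton,
      Finset.mem_erase, eC]
    omega
  rw [h, Finset.card_product, Finset.card_singleton, mul_one,
    Finset.card_erase_of_mem (Finset.mem_range.2 (by omega)), Finset.card_range]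

private theorem TBX_D (g : ℕ) (hg : 6 ≤ g) [DecidablePred fun q : ℕ × ℕ => eD q.1 q.2] :
    (((Finset.range g) ×ˢ (Finset.range g)).filter fun q : ℕ × ℕ => eD q.1 q.2).card = 6 := by
  have h : (((Finset.range g) ×ˢ (Finset.range g)).filter fun q : ℕ × ℕ => eD q.1 q.2) =
      (Finset.range 3).offDiag := by
    ext ⟨i, j⟩
    rw [Finset.mem_filter]
    simp only [Finset.mem_product, Finset.mem_range, Finset.mem_offDiag, eD]
    omega
  rw [h, Finset.offDiag_card, Finset.card_range]

private theorem TBX_T (g : ℕ) [DecidablePred fun q : ℕ × ℕ => eT q.1 q.2] :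
    2 * (((Finset.range g) ×ˢ (Finset.range g)).filter fun q : ℕ × ℕ => eT q.1 q.2).card =
      g * (g - 1) := by
  classical
  set s := (((Finset.range g) ×ˢ (Finset.range g)).filter fun q : ℕ × ℕ => eT q.1 q.2) with hs
  have h1 : (s.image Prod.swap).card = s.card :=
    Finset.card_image_of_injective _ Prod.swap_injective
  have h2 : Disjoint s (s.image Prod.swap) := by
    rw [Finset.disjoint_left]
    rintro ⟨i, j⟩ h3 h4
    rw [Finset.mem_image] at h4
    obtain ⟨⟨a, b⟩, h5, h6⟩ := h4
    simp only [Prod.swap_prod_mk, Prod.mk.injEq] at h6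
    obtain ⟨rfl, rfl⟩ := h6
    rw [hs, Finset.mem_filter] at h3 h5
    have h7 : eT b a := h3.2
    have h8 : eT a b := h5.2
    unfold eT at h7 h8
    omega
  have h3 : s ∪ s.image Prod.swap = (Finset.range g).offDiag := by
    ext ⟨i, j⟩
    rw [Finset.mem_union, Finset.mem_image]
    simp only [hs, Finset.mem_filter, Finset.mem_product, Finset.mem_range, Finset.mem_offDiag]
    constructor
    · rintro (⟨⟨h4, h5⟩, h6⟩ | ⟨⟨a, b⟩, ⟨⟨h4, h5⟩, h6⟩, h7⟩)
      · unfold eT at h6
        refine ⟨h4, h5, ?_⟩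
        omega
      · simp only [Prod.swap_prod_mk, Prod.mk.injEq] at h7
        obtain ⟨rfl, rfl⟩ := h7
        simp only at h4 h5 h6
        unfold eT at h6
        refine ⟨h5, h4, ?_⟩
        omega
    · rintro ⟨h4, h5, h6⟩
      by_cases h7 : eT i j
      · exact Or.inl ⟨⟨h4, h5⟩, h7⟩
      · refine Or.inr ⟨(j, i), ⟨⟨h5, h4⟩, ?_⟩, rfl⟩
        show eT j i
        unfold eT at h7 ⊢
        omega
  have h4 := Finset.card_union_of_disjoint h2
  rw [h3, h1, Finset.offDiag_card, Finset.card_range, ← Nat.mul_sub_one] at h4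
  omega

private theorem TBX_Z (g : ℕ) (hg : 6 ≤ g) [DecidablePred fun q : ℕ × ℕ => eZ q.1 q.2] :
    (((Finset.range g) ×ˢ (Finset.range g)).filter fun q : ℕ × ℕ => eZ q.1 q.2).card = g := by
  have h : (((Finset.range g) ×ˢ (Finset.range g)).filter fun q : ℕ × ℕ => eZ q.1 q.2) =
      (({0} : Finset ℕ) ×ˢ (Finset.Ico 2 g)) ∪ (({2} : Finset ℕ) ×ˢ (Finset.range 2)) := by
    ext ⟨i, j⟩
    rw [Finset.mem_filter]
    simp only [Finset.mem_product, Finset.mem_range, Finset.mem_singleton,
      Finset.mem_union, Finset.mem_Ico, eZ]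
    omega
  have h2 : Disjoint (({0} : Finset ℕ) ×ˢ (Finset.Ico 2 g)) (({2} : Finset ℕ) ×ˢ (Finset.range 2)) := by
    rw [Finset.disjoint_left]
    rintro ⟨i, j⟩ h3 h4
    simp only [Finset.mem_product, Finset.mem_range, Finset.mem_singleton, Finset.mem_Ico] at h3 h4
    omega
  rw [h, Finset.card_union_of_disjoint h2, Finset.card_product, Finset.card_product,
    Finset.card_singleton, Finset.card_singleton, Finset.card_range, Nat.card_Ico]
  omega

private theorem TBX_Y (g : ℕ) (hg : 6 ≤ g) [DecidablePred fun q : ℕ × ℕ => eY q.1 q.2] :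
    (((Finset.range g) ×ˢ (Finset.range g)).filter fun q : ℕ × ℕ => eY q.1 q.2).card = 3 := by
  have h : (((Finset.range g) ×ˢ (Finset.range g)).filter fun q : ℕ × ℕ => eY q.1 q.2) =
      ({(0, 1), (2, 0), (2, 1)} : Finset (ℕ × ℕ)) := by
    ext ⟨i, j⟩
    rw [Finset.mem_filter]
    simp only [Finset.mem_product, Finset.mem_range, Finset.mem_singleton,
      Finset.mem_insert, Prod.mk.injEq, eY]
    omega
  rw [h]
  rfl

private theorem TBX_N (g : ℕ) [DecidablePred fun q : ℕ × ℕ => eN q.1 q.2] :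
    (((Finset.range g) ×ˢ (Finset.range g)).filter fun q : ℕ × ℕ => eN q.1 q.2).card = 0 := by
  rw [Finset.card_eq_zero, Finset.filter_eq_empty_iff]
  intro q _ h
  exact h

/-- [TBX] -/
theorem thm_TBX (hR : St_RLB) : St_TBX := by
  classical
  intro g hg
  have hJ2 : g * (g - 1) % 2 = 0 := Nat.even_iff.1 (Nat.even_mul_pred_self g)
  refine ⟨?_, ?_, ?_, ?_, ?_⟩
  · refine hR g 0 eJ hg (fun i h => h rfl) ?_
    rw [TBX_J, hJ2, mul_zero, Nat.zero_mod]
  · refine hR g 0 eD hg (fun i h => h.1 rfl) ?_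
    rw [TBX_D g hg, mul_zero]
    rfl
  · intro h2
    refine ⟨?_, ?_, ?_, ?_, ?_⟩
    · refine hR g 1 eR hg (fun i h => h.2 h.1) ?_
      rw [TBX_R g hg, mul_one]
    · refine hR g 1 eC hg (fun i h => h.1 h.2) ?_
      rw [TBX_C g hg, mul_one]
    · refine hR g (g / 2) eT hg (fun i h => ?_) ?_
      · unfold eT at h
        omega
      · generalize hn : Finset.card _ = n
        have h3 : 2 * n = g * (g - 1) := by
          rw [← hn]
          exact TBX_T g
        obtain ⟨k, rfl⟩ : ∃ k, g = 2 * k := ⟨g / 2, by omega⟩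
        have h4 : 2 * k / 2 = k := by omega
        have h5 : n = k * (2 * k - 1) := by
          rw [mul_assoc] at h3
          exact Nat.eq_of_mul_eq_mul_left (by norm_num) h3
        rw [h4, h5, mul_comm]
    · refine hR g 0 eZ hg (fun i h => ?_) ?_
      · unfold eZ at h
        omega
      · rw [TBX_Z g hg, mul_zero, h2, Nat.zero_mod]
    · refine hR g 1 eY hg (fun i h => ?_) ?_
      · unfold eY at h
        omega
      · rw [TBX_Y g hg, mul_one]
        omega
  · intro h2
    refine ⟨?_, ?_, ?_⟩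
    · refine hR g 1 eN hg (fun i h => h) ?_
      rw [TBX_N, mul_one]
      omega
    · refine hR g 0 eR hg (fun i h => h.2 h.1) ?_
      rw [TBX_R g hg, mul_zero]
      omega
    · refine hR g 0 eC hg (fun i h => h.1 h.2) ?_
      rw [TBX_C g hg, mul_zero]
      omega
  · intro h4
    refine hR g 0 eT hg (fun i h => ?_) ?_
    · unfold eT at h
      omega
    · generalize hn : Finset.card _ = n
      have h3 : 2 * n = g * (g - 1) := by
        rw [← hn]
        exact TBX_T g
      obtain ⟨k, rfl⟩ : ∃ k, g = 4 * k + 1 := ⟨g / 4, by omega⟩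
      have h5 : 2 * n = 2 * (2 * (k * (4 * k + 1))) := by
        rw [h3, Nat.add_sub_cancel]
        ring
      have h6 : n = 2 * (k * (4 * k + 1)) := Nat.eq_of_mul_eq_mul_left (by norm_num) h5
      rw [h6]
      omega

end Pool.Agent.CRS
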