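import Pool.Agent.CRS.StI

/-!
Campaign CRS, module TOP: products of `n` elements if all longer ones are zero.
-/

set_option autoImplicit false

namespace Pool.Agent.CRS

open Pool.Agent.CRR Pool.Agent.CRN Pool.Agent.CRK Pool.Agent.CRL Pool.Agent.CRM Pool.Agent.CRP
open Pool.Agent.CRQ

section

variable {A : Type} [NonUnitalRing A]

private theorem TOP_cons (a : A) : ∀ L : List A, L ≠ [] → wp (a :: L) = a * wp L
  | [], h => absurd rfl h
  | _ :: _, _ => rfl

private theorem TOP_add (l₁ l₂ : List A) (x y : A) :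
    wp (l₁ ++ (x + y) :: l₂) = wp (l₁ ++ x :: l₂) + wp (l₁ ++ y :: l₂) := by
  induction l₁ with
  | nil =>
    cases l₂ with
    | nil => rfl
    | cons b l => exact add_mul x y _
  | cons a l ih =>
    have h : ∀ z : A, wp (a :: l ++ z :: l₂) = a * wp (l ++ z :: l₂) := fun z =>
      TOP_cons a _ (by simp)
    rw [h, h, h, ih, mul_add]

private theorem TOP_snoc (y : A) : ∀ L : List A, L ≠ [] → wp (L ++ [y]) = wp L * y
  | [], h => absurd rfl h
  | [a], _ => rfl
  | a :: b :: L, _ => by
    have h := TOP_snoc y (b :: L) (by simp)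
    show a * wp ((b :: L) ++ [y]) = a * wp (b :: L) * y
    rw [h, mul_assoc]

end

theorem thm_TOP (h0 : St_K0) : St_TOP := by
  intro K _ A _ _ _ _ M H n hK hM hn htop
  have hM2 : ∀ l₁ l₂ : List A, l₁.length + l₂.length + 1 = n → ∀ m ∈ M, wp (l₁ ++ m :: l₂) = 0 := by
    intro l₁ l₂ hl m hm
    refine hM m hm l₁ l₂ (by omega) fun l h => htop l (by omega)
  have hrep : ∀ l₁ l₂ : List A, l₁.length + l₂.length + 1 = n → ∀ a b : A, a - b ∈ M →
      wp (l₁ ++ a :: l₂) = wp (l₁ ++ b :: l₂) := by
    intro l₁ l₂ hl a b hab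
    have h := TOP_add l₁ l₂ (a - b) b
    rw [sub_add_cancel, hM2 l₁ l₂ hl _ hab, zero_add] at h
    exact h
  refine ⟨fun l hl => ?_, fun l hl => ?_, fun ι x y w hw hxy => ?_⟩
  · refine hK.h1 _ ?_ fun y => ⟨?_, ?_⟩
    · rw [two_nsmul]
      exact h0 A ⟨hK.cube, hK.pr⟩ l (by omega)
    · have hne : l ≠ [] := by rintro rfl; simp at hl; omega
      rw [← TOP_snoc y l hne]
      exact htop _ (by simp; omega)
    · have hne : l ≠ [] := by rintro rfl; simp at hl; omega
      rw [← TOP_cons y l hne]
      exact htop _ (by simp; omega)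
  · rintro ⟨m, hml, hm⟩
    obtain ⟨l₁, l₂, rfl⟩ := List.append_of_mem hml
    exact hM2 l₁ l₂ (by simp at hl; omega) m hm
  · have key : ∀ (w v : List ι), v.length + w.length = n →
        wp (v.map y ++ w.map x) = wp (v.map y ++ w.map y) := by
      intro w
      induction w with
      | nil => intro v _; rfl
      | cons i w ih =>
        intro v hv
        have h1 := hrep (v.map y) (w.map x) (by simp at hv ⊢; omega) (x i) (y i) (hxy i)
        have h2 := ih (v ++ [i]) (by simp at hv ⊢; omega)
        simp only [List.map_append, List.map_cons, List.map_nil, List.append_assoc,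
          List.cons_append, List.nil_append] at h2 ⊢
        rw [h1, h2]
    exact key w [] (by simpa using hw)

end Pool.Agent.CRS
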