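import Pool.Agent.CRS.StA

/-!
Campaign CRS (problem MP_1bb14d_al): `x x N + x N x + N x x = 0` for long words (helper2, statement `St_TZ` of helper73).
-/

set_option autoImplicit false

namespace Pool.Agent.CRS

open Pool.Agent.CRR Pool.Agent.CRN Pool.Agent.CRK Pool.Agent.CRL Pool.Agent.CRM Pool.Agent.CRP
open Pool.Agent.CRQ

section

variable {A : Type} [NonUnitalRing A]

private theorem TZ_app : ∀ (l l' : List A), l ≠ [] → l' ≠ [] → wp (l ++ l') = wp l * wp l'
  | [], _, h, _ => absurd rfl h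
  | [x], [], _, h => absurd rfl h
  | [x], y :: l', _, _ => rfl
  | x :: y :: l, l', _, h => by
    have ih := TZ_app (y :: l) l' (by simp) h
    show x * wp (y :: l ++ l') = x * wp (y :: l) * wp l'
    rw [ih, mul_assoc]

private theorem TZ_flat : ∀ L : List (List A), (∀ l ∈ L, l ≠ []) → wp L.flatten = wp (L.map wp)
  | [], _ => rfl
  | [l], _ => by simp [wp]
  | l :: l' :: L, h => by
    have ih := TZ_flat (l' :: L) (fun m hm => h m (List.mem_cons_of_mem _ hm))
    have h1 : l ≠ [] := h l (by simp)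
    have h2 : l' ≠ [] := h l' (by simp)
    have h3 : (l' :: L).flatten ≠ [] := by
      rw [List.flatten_cons]
      intro h4
      exact h2 (List.append_eq_nil_iff.1 h4).1
    rw [List.flatten_cons, TZ_app l _ h1 h3, ih]
    rfl

private theorem TZ_kill (hK : St_K0) (hA : N2 A) (L : List (List A)) (h0 : ∀ l ∈ L, l ≠ [])
    (h : 6 ≤ L.flatten.length) : wp (L.map wp) + wp (L.map wp) = 0 := by
  rw [← TZ_flat L h0]
  exact hK A hA _ h

/-- the combination of the relations -/
private theorem TZ_comb (a b c : A)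
    (hS : ∀ u v w : A, u * v * w + u * w * v + v * u * w + v * w * u + w * u * v + w * v * u = 0)
    (hB : ∀ u v : A, u * u * v + u * v * u + v * u * u + (v * v * u + v * u * v + u * v * v) = 0)
    (hC : ∀ u : A, u * u * u = 0)
    (w0 : a * (a * (b * c)) + a * (a * (b * c)) = 0)
    (w1 : a * (b * (a * c)) + a * (b * (a * c)) = 0)
    (w2 : a * (b * (c * a)) + a * (b * (c * a)) = 0)
    (w3 : a * (c * (b * a)) + a * (c * (b * a)) = 0)
    (w4 : b * (a * (a * c)) + b * (a * (a * c)) = 0)
    (w5 : b * (a * (c * a)) + b * (a * (c * a)) = 0)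
    (w6 : b * (c * (a * a)) + b * (c * (a * a)) = 0)
    (w7 : c * (a * (b * a)) + c * (a * (b * a)) = 0)
    (w8 : c * (b * (a * a)) + c * (b * (a * a)) = 0)
    (w9 : a * (b * (b * (b * c))) + a * (b * (b * (b * c))) = 0)
    (w10 : a * (b * (b * (c * b))) + a * (b * (b * (c * b))) = 0)
    (w11 : a * (b * (b * (c * c))) + a * (b * (b * (c * c))) = 0)
    (w12 : a * (b * (c * (b * b))) + a * (b * (c * (b * b))) = 0)
    (w13 : a * (b * (c * (b * c))) + a * (b * (c * (b * c))) = 0)
    (w14 : a * (b * (c * (c * b))) + a * (b * (c * (c * b))) = 0)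
    (w15 : a * (c * (b * (b * b))) + a * (c * (b * (b * b))) = 0)
    (w16 : a * (c * (b * (b * c))) + a * (c * (b * (b * c))) = 0)
    (w17 : a * (c * (b * (c * b))) + a * (c * (b * (c * b))) = 0)
    (w18 : a * (c * (c * (b * b))) + a * (c * (c * (b * b))) = 0)
    (w19 : b * (a * (a * (c * b))) + b * (a * (a * (c * b))) = 0)
    (w20 : b * (a * (b * (a * c))) + b * (a * (b * (a * c))) = 0)
    (w21 : b * (a * (b * (b * c))) + b * (a * (b * (b * c))) = 0)
    (w22 : b * (a * (b * (c * b))) + b * (a * (b * (c * b))) = 0)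
    (w23 : b * (a * (b * (c * c))) + b * (a * (b * (c * c))) = 0)
    (w24 : b * (a * (c * (a * b))) + b * (a * (c * (a * b))) = 0)
    (w25 : b * (a * (c * (b * a))) + b * (a * (c * (b * a))) = 0)
    (w26 : b * (a * (c * (b * c))) + b * (a * (c * (b * c))) = 0)
    (w27 : b * (a * (c * (c * b))) + b * (a * (c * (c * b))) = 0)
    (w28 : b * (b * (a * (a * c))) + b * (b * (a * (a * c))) = 0)
    (w29 : b * (b * (a * (b * c))) + b * (b * (a * (b * c))) = 0)
    (w30 : b * (b * (a * (c * a))) + b * (b * (a * (c * a))) = 0)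
    (w31 : b * (b * (b * (c * a))) + b * (b * (b * (c * a))) = 0)
    (w32 : b * (b * (c * (a * b))) + b * (b * (c * (a * b))) = 0)
    (w33 : b * (b * (c * (a * c))) + b * (b * (c * (a * c))) = 0)
    (w34 : b * (b * (c * (b * a))) + b * (b * (c * (b * a))) = 0)
    (w35 : b * (b * (c * (c * a))) + b * (b * (c * (c * a))) = 0)
    (w36 : b * (c * (a * (a * b))) + b * (c * (a * (a * b))) = 0)
    (w37 : b * (c * (a * (b * a))) + b * (c * (a * (b * a))) = 0)
    (w38 : b * (c * (a * (b * b))) + b * (c * (a * (b * b))) = 0)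
    (w39 : b * (c * (a * (b * c))) + b * (c * (a * (b * c))) = 0)
    (w40 : b * (c * (a * (c * b))) + b * (c * (a * (c * b))) = 0)
    (w41 : b * (c * (b * (a * a))) + b * (c * (b * (a * a))) = 0)
    (w42 : b * (c * (b * (a * b))) + b * (c * (b * (a * b))) = 0)
    (w43 : b * (c * (b * (a * c))) + b * (c * (b * (a * c))) = 0)
    (w44 : b * (c * (b * (b * a))) + b * (c * (b * (b * a))) = 0)
    (w45 : b * (c * (b * (c * a))) + b * (c * (b * (c * a))) = 0)
    (w46 : b * (c * (c * (a * b))) + b * (c * (c * (a * b))) = 0)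
    (w47 : b * (c * (c * (b * a))) + b * (c * (c * (b * a))) = 0)
    (w48 : c * (a * (c * (b * b))) + c * (a * (c * (b * b))) = 0)
    (w49 : c * (b * (a * (c * b))) + c * (b * (a * (c * b))) = 0) :
    a * a * b * c + a * b * a * c + b * a * a * c = 0 := by
  have r0 : b * (a*a*c + a*c*a + c*a*a + (c*c*a + c*a*c + a*c*c)) * b = 0 := by
    rw [hB]
    simp
  have r1 : a * (b*b*c + b*c*b + c*b*b + (c*c*b + c*b*c + b*c*c)) * b = 0 := by
    rw [hB]
    simp
  have r2 : (a*(b*a)*c + a*c*(b*a) + (b*a)*a*c + (b*a)*c*a + c*a*(b*a) + c*(b*a)*a) = 0 := by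
    rw [hS]

  have r3 : (a*b*(b*c) + a*(b*c)*b + b*a*(b*c) + b*(b*c)*a + (b*c)*a*b + (b*c)*b*a) * c = 0 := by
    rw [hS]
    simp
  have r4 : b * (a*(b*a)*c + a*c*(b*a) + (b*a)*a*c + (b*a)*c*a + c*a*(b*a) + c*(b*a)*a) = 0 := by
    rw [hS]
    simp
  have r5 : a * (b*(b*b)*c + b*c*(b*b) + (b*b)*b*c + (b*b)*c*b + c*b*(b*b) + c*(b*b)*b) = 0 := by
    rw [hS]
    simp
  have r6 : ((a*c)*b*c + (a*c)*c*b + b*(a*c)*c + b*c*(a*c) + c*(a*c)*b + c*b*(a*c)) * b = 0 := by
    rw [hS]
    simp
  have r7 : ((a*c*b)*b*c + (a*c*b)*c*b + b*(a*c*b)*c + b*c*(a*c*b) + c*(a*c*b)*b + c*b*(a*c*b)) = 0 := by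
    rw [hS]

  have r8 : b*c * (a*a*b + a*b*a + b*a*a + (b*b*a + b*a*b + a*b*b)) = 0 := by
    rw [hB]
    simp
  have r9 : ((a*c)*b*(b*c) + (a*c)*(b*c)*b + b*(a*c)*(b*c) + b*(b*c)*(a*c) + (b*c)*(a*c)*b + (b*c)*b*(a*c)) = 0 := by
    rw [hS]

  have r10 : b * ((a*b)*b*c + (a*b)*c*b + b*(a*b)*c + b*c*(a*b) + c*(a*b)*b + c*b*(a*b)) = 0 := by
    rw [hS]
    simp
  have r11 : (a*a*(b*c) + a*(b*c)*a + (b*c)*a*a + ((b*c)*(b*c)*a + (b*c)*a*(b*c) + a*(b*c)*(b*c))) = 0 := by
    rw [hB]

  have r12 : (a*b*(b*c*c) + a*(b*c*c)*b + b*a*(b*c*c) + b*(b*c*c)*a + (b*c*c)*a*b + (b*c*c)*b*a) = 0 := by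
    rw [hS]

  have r13 : b * (b*b*c + b*c*b + c*b*b + (c*c*b + c*b*c + b*c*c)) * a = 0 := by
    rw [hB]
    simp
  have r14 : b * (a*(a*c)*b + a*b*(a*c) + (a*c)*a*b + (a*c)*b*a + b*a*(a*c) + b*(a*c)*a) = 0 := by
    rw [hS]
    simp
  have r15 : a*c*(b*b*b) = 0 := by
    rw [hC]
    simp
  have r16 : (a*b*c + a*c*b + b*a*c + b*c*a + c*a*b + c*b*a) * a = 0 := by
    rw [hS]
    simp
  have r17 : b * (a*b*(b*c) + a*(b*c)*b + b*a*(b*c) + b*(b*c)*a + (b*c)*a*b + (b*c)*b*a) = 0 := by
    rw [hS]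
    simp
  linear_combination (norm := noncomm_ring) (w0 + w1 + w2 + w3 + w4 + w5 + w6 + w7 + w8 + w9 + w10 + w11 + w12 + w13 + w14 + w15 + w15 + w16 + w17 + w17 + w18 + w19 + w20 + w21 + w22 + w23 + w24 + w25 + w26 + w27 + w28 + w29 + w30 + w31 + w32 + w33 + w34 + w35 + w36 + w37 + w38 + w39 + w40 + w40 + w41 + w42 + w43 + w44 + w45 + w46 + w47 + w48 + w49) - (r0 + r1 + r2 + r3 + r4 + r5 + r6 + r7 + r8 + r9 + r10 + r11 + r12 + r13 + r14 + r15 + r16 + r17)

end

/-- [TZ] -/
theorem thm_TZ (hK : St_K0) : St_TZ := by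
  intro A _ hA x p q hp hq hpq
  have hC : ∀ u : A, u * u * u = 0 := hA.cube
  have hB : ∀ u v : A, u * u * v + u * v * u + v * u * u + (v * v * u + v * u * v + u * v * v) = 0 := by
    intro u v
    have h := hC (u + v)
    have h1 := hC u
    have h2 := hC v
    linear_combination (norm := noncomm_ring) h - h1 - h2
  have hS : ∀ u v w : A, u * v * w + u * w * v + v * u * w + v * w * u + w * u * v + w * v * u = 0 := by
    intro u v w
    have h := hC (u + v + w)
    have h1 := hC u
    have h2 := hC v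
    have h3 := hC w
    have h4 := hB u v
    have h5 := hB u w
    have h6 := hB v w
    linear_combination (norm := noncomm_ring) h - h1 - h2 - h3 - h4 - h5 - h6
  have hpl : 1 ≤ p.length := List.length_pos_iff.2 hp
  have hql : 1 ≤ q.length := List.length_pos_iff.2 hq

  have w0 := TZ_kill hK hA [[x], [x], p, q] (by simp [hp, hq]) (by simp; omega)
  simp only [List.map, wp] at w0
  have w1 := TZ_kill hK hA [[x], p, [x], q] (by simp [hp, hq]) (by simp; omega)
  simp only [List.map, wp] at w1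
  have w2 := TZ_kill hK hA [[x], p, q, [x]] (by simp [hp, hq]) (by simp; omega)
  simp only [List.map, wp] at w2
  have w3 := TZ_kill hK hA [[x], q, p, [x]] (by simp [hp, hq]) (by simp; omega)
  simp only [List.map, wp] at w3
  have w4 := TZ_kill hK hA [p, [x], [x], q] (by simp [hp, hq]) (by simp; omega)
  simp only [List.map, wp] at w4
  have w5 := TZ_kill hK hA [p, [x], q, [x]] (by simp [hp, hq]) (by simp; omega)
  simp only [List.map, wp] at w5
  have w6 := TZ_kill hK hA [p, q, [x], [x]] (by simp [hp, hq]) (by simp; omega)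
  simp only [List.map, wp] at w6
  have w7 := TZ_kill hK hA [q, [x], p, [x]] (by simp [hp, hq]) (by simp; omega)
  simp only [List.map, wp] at w7
  have w8 := TZ_kill hK hA [q, p, [x], [x]] (by simp [hp, hq]) (by simp; omega)
  simp only [List.map, wp] at w8
  have w9 := TZ_kill hK hA [[x], p, p, p, q] (by simp [hp, hq]) (by simp; omega)
  simp only [List.map, wp] at w9
  have w10 := TZ_kill hK hA [[x], p, p, q, p] (by simp [hp, hq]) (by simp; omega)
  simp only [List.map, wp] at w10
  have w11 := TZ_kill hK hA [[x], p, p, q, q] (by simp [hp, hq]) (by simp; omega)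
  simp only [List.map, wp] at w11
  have w12 := TZ_kill hK hA [[x], p, q, p, p] (by simp [hp, hq]) (by simp; omega)
  simp only [List.map, wp] at w12
  have w13 := TZ_kill hK hA [[x], p, q, p, q] (by simp [hp, hq]) (by simp; omega)
  simp only [List.map, wp] at w13
  have w14 := TZ_kill hK hA [[x], p, q, q, p] (by simp [hp, hq]) (by simp; omega)
  simp only [List.map, wp] at w14
  have w15 := TZ_kill hK hA [[x], q, p, p, p] (by simp [hp, hq]) (by simp; omega)
  simp only [List.map, wp] at w15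
  have w16 := TZ_kill hK hA [[x], q, p, p, q] (by simp [hp, hq]) (by simp; omega)
  simp only [List.map, wp] at w16
  have w17 := TZ_kill hK hA [[x], q, p, q, p] (by simp [hp, hq]) (by simp; omega)
  simp only [List.map, wp] at w17
  have w18 := TZ_kill hK hA [[x], q, q, p, p] (by simp [hp, hq]) (by simp; omega)
  simp only [List.map, wp] at w18
  have w19 := TZ_kill hK hA [p, [x], [x], q, p] (by simp [hp, hq]) (by simp; omega)
  simp only [List.map, wp] at w19
  have w20 := TZ_kill hK hA [p, [x], p, [x], q] (by simp [hp, hq]) (by simp; omega)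
  simp only [List.map, wp] at w20
  have w21 := TZ_kill hK hA [p, [x], p, p, q] (by simp [hp, hq]) (by simp; omega)
  simp only [List.map, wp] at w21
  have w22 := TZ_kill hK hA [p, [x], p, q, p] (by simp [hp, hq]) (by simp; omega)
  simp only [List.map, wp] at w22
  have w23 := TZ_kill hK hA [p, [x], p, q, q] (by simp [hp, hq]) (by simp; omega)
  simp only [List.map, wp] at w23
  have w24 := TZ_kill hK hA [p, [x], q, [x], p] (by simp [hp, hq]) (by simp; omega)
  simp only [List.map, wp] at w24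
  have w25 := TZ_kill hK hA [p, [x], q, p, [x]] (by simp [hp, hq]) (by simp; omega)
  simp only [List.map, wp] at w25
  have w26 := TZ_kill hK hA [p, [x], q, p, q] (by simp [hp, hq]) (by simp; omega)
  simp only [List.map, wp] at w26
  have w27 := TZ_kill hK hA [p, [x], q, q, p] (by simp [hp, hq]) (by simp; omega)
  simp only [List.map, wp] at w27
  have w28 := TZ_kill hK hA [p, p, [x], [x], q] (by simp [hp, hq]) (by simp; omega)
  simp only [List.map, wp] at w28
  have w29 := TZ_kill hK hA [p, p, [x], p, q] (by simp [hp, hq]) (by simp; omega)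
  simp only [List.map, wp] at w29
  have w30 := TZ_kill hK hA [p, p, [x], q, [x]] (by simp [hp, hq]) (by simp; omega)
  simp only [List.map, wp] at w30
  have w31 := TZ_kill hK hA [p, p, p, q, [x]] (by simp [hp, hq]) (by simp; omega)
  simp only [List.map, wp] at w31
  have w32 := TZ_kill hK hA [p, p, q, [x], p] (by simp [hp, hq]) (by simp; omega)
  simp only [List.map, wp] at w32
  have w33 := TZ_kill hK hA [p, p, q, [x], q] (by simp [hp, hq]) (by simp; omega)
  simp only [List.map, wp] at w33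
  have w34 := TZ_kill hK hA [p, p, q, p, [x]] (by simp [hp, hq]) (by simp; omega)
  simp only [List.map, wp] at w34
  have w35 := TZ_kill hK hA [p, p, q, q, [x]] (by simp [hp, hq]) (by simp; omega)
  simp only [List.map, wp] at w35
  have w36 := TZ_kill hK hA [p, q, [x], [x], p] (by simp [hp, hq]) (by simp; omega)
  simp only [List.map, wp] at w36
  have w37 := TZ_kill hK hA [p, q, [x], p, [x]] (by simp [hp, hq]) (by simp; omega)
  simp only [List.map, wp] at w37
  have w38 := TZ_kill hK hA [p, q, [x], p, p] (by simp [hp, hq]) (by simp; omega)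
  simp only [List.map, wp] at w38
  have w39 := TZ_kill hK hA [p, q, [x], p, q] (by simp [hp, hq]) (by simp; omega)
  simp only [List.map, wp] at w39
  have w40 := TZ_kill hK hA [p, q, [x], q, p] (by simp [hp, hq]) (by simp; omega)
  simp only [List.map, wp] at w40
  have w41 := TZ_kill hK hA [p, q, p, [x], [x]] (by simp [hp, hq]) (by simp; omega)
  simp only [List.map, wp] at w41
  have w42 := TZ_kill hK hA [p, q, p, [x], p] (by simp [hp, hq]) (by simp; omega)
  simp only [List.map, wp] at w42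
  have w43 := TZ_kill hK hA [p, q, p, [x], q] (by simp [hp, hq]) (by simp; omega)
  simp only [List.map, wp] at w43
  have w44 := TZ_kill hK hA [p, q, p, p, [x]] (by simp [hp, hq]) (by simp; omega)
  simp only [List.map, wp] at w44
  have w45 := TZ_kill hK hA [p, q, p, q, [x]] (by simp [hp, hq]) (by simp; omega)
  simp only [List.map, wp] at w45
  have w46 := TZ_kill hK hA [p, q, q, [x], p] (by simp [hp, hq]) (by simp; omega)
  simp only [List.map, wp] at w46
  have w47 := TZ_kill hK hA [p, q, q, p, [x]] (by simp [hp, hq]) (by simp; omega)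
  simp only [List.map, wp] at w47
  have w48 := TZ_kill hK hA [q, [x], q, p, p] (by simp [hp, hq]) (by simp; omega)
  simp only [List.map, wp] at w48
  have w49 := TZ_kill hK hA [q, p, [x], q, p] (by simp [hp, hq]) (by simp; omega)
  simp only [List.map, wp] at w49
  exact TZ_comb x (wp p) (wp q) hS hB hC w0 w1 w2 w3 w4 w5 w6 w7 w8 w9 w10 w11 w12 w13 w14 w15 w16 w17 w18 w19 w20 w21 w22 w23 w24 w25 w26 w27 w28 w29 w30 w31 w32 w33 w34 w35 w36 w37 w38 w39 w40 w41 w42 w43 w44 w45 w46 w47 w48 w49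

end Pool.Agent.CRS
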