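import Pool.Agent.CRS.StG

/-!
Campaign CRS (problem MP_1bb14d_al): three cases (helper2, statement `St_Tri` of helper92).
-/

set_option autoImplicit false

namespace Pool.Agent.CRS

open Pool.Agent.CRR Pool.Agent.CRN Pool.Agent.CRK Pool.Agent.CRL Pool.Agent.CRM Pool.Agent.CRP
open Pool.Agent.CRQ

section

variable {F : Type} [Field F] {g : ℕ}

/-- the indicator of `{p, q} × {i, j}` -/
private def tri_m (F : Type) [Field F] {g : ℕ} (p q i j u v : Fin g) : F :=
  if (u = p ∨ u = q) ∧ (v = i ∨ v = j) then 1 else 0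

private theorem tri_sum {V : Type} [AddCommGroup V] [Module F V] (p q i j : Fin g) (hpq : p ≠ q)
    (hij : i ≠ j) (f : Fin g → Fin g → V) :
    ∑ u, ∑ v, tri_m F p q i j u v • f u v = f p i + f q i + f p j + f q j := by
  have h1 : ∀ u, ∑ v, tri_m F p q i j u v • f u v =
      if u ∈ ({p, q} : Finset (Fin g)) then f u i + f u j else 0 := by
    intro u
    by_cases hu : u ∈ ({p, q} : Finset (Fin g))
    · rw [if_pos hu]
      have hu' : u = p ∨ u = q := by simpa using hu
      have h2 : ∀ v, tri_m F p q i j u v • f u v =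
          if v ∈ ({i, j} : Finset (Fin g)) then f u v else 0 := by
        intro v
        unfold tri_m
        by_cases hv : v = i ∨ v = j
        · rw [if_pos ⟨hu', hv⟩, if_pos (by simpa using hv), one_smul]
        · rw [if_neg (fun h => hv h.2), if_neg (by simpa using hv), zero_smul]
      rw [Finset.sum_congr rfl fun v _ => h2 v, Finset.sum_ite_mem, Finset.univ_inter,
        Finset.sum_pair hij]
    · rw [if_neg hu]
      have hu' : ¬ (u = p ∨ u = q) := by simpa using hu
      apply Finset.sum_eq_zero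
      intro v _
      unfold tri_m
      rw [if_neg (fun h => hu' h.1), zero_smul]
  rw [Finset.sum_congr rfl fun u _ => h1 u, Finset.sum_ite_mem, Finset.univ_inter,
    Finset.sum_pair hpq]
  abel

private theorem tri_two (h2 : (2 : F) = 0) (x : F) : x + x = 0 := by
  have : x + x = 2 * x := by ring
  rw [this, h2, zero_mul]

private theorem tri_S (h2 : (2 : F) = 0) (p q i j : Fin g) (hpq : p ≠ q) (hij : i ≠ j)
    (hpi : p ≠ i) (hpj : p ≠ j) (hqi : q ≠ i) (hqj : q ≠ j) (a : Fin g → Fin g → F)
    (u v : Fin g) :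
    a u v + a (Equiv.swap p q u) (Equiv.swap p q v) + a (Equiv.swap i j u) (Equiv.swap i j v) +
      a (Equiv.swap p q (Equiv.swap i j u)) (Equiv.swap p q (Equiv.swap i j v)) =
    (a p i + a q i + a p j + a q j) * tri_m F p q i j u v +
      (a i p + a j p + a i q + a j q) * tri_m F i j p q u v := by
  have key1 : ∀ w : Fin g, ¬ (w = p ∨ w = q) → Equiv.swap p q w = w := fun w h =>
    Equiv.swap_apply_of_ne_of_ne (fun h1 => h (Or.inl h1)) (fun h1 => h (Or.inr h1))
  have key2 : ∀ w : Fin g, ¬ (w = i ∨ w = j) → Equiv.swap i j w = w := fun w h =>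
    Equiv.swap_apply_of_ne_of_ne (fun h1 => h (Or.inl h1)) (fun h1 => h (Or.inr h1))
  have k1i : Equiv.swap p q i = i := Equiv.swap_apply_of_ne_of_ne hpi.symm hqi.symm
  have k1j : Equiv.swap p q j = j := Equiv.swap_apply_of_ne_of_ne hpj.symm hqj.symm
  have k2p : Equiv.swap i j p = p := Equiv.swap_apply_of_ne_of_ne hpi hpj
  have k2q : Equiv.swap i j q = q := Equiv.swap_apply_of_ne_of_ne hqi hqj
  have hdis : ∀ w : Fin g, (w = p ∨ w = q) → ¬ (w = i ∨ w = j) := by
    rintro w (rfl | rfl) (h | h)
    · exact hpi h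
    · exact hpj h
    · exact hqi h
    · exact hqj h
  have m1 : ∀ p' q' i' j' u v : Fin g, (u = p' ∨ u = q') → (v = i' ∨ v = j') →
      tri_m F p' q' i' j' u v = 1 := fun _ _ _ _ _ _ h h' => if_pos ⟨h, h'⟩
  have m0 : ∀ p' q' i' j' u v : Fin g, ¬ (u = p' ∨ u = q') →
      tri_m F p' q' i' j' u v = 0 := fun _ _ _ _ _ _ h => if_neg (fun h' => h h'.1)
  have m0' : ∀ p' q' i' j' u v : Fin g, ¬ (v = i' ∨ v = j') →
      tri_m F p' q' i' j' u v = 0 := fun _ _ _ _ _ _ h => if_neg (fun h' => h h'.2)
  have hd := tri_two h2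
  by_cases hu1 : u = p ∨ u = q
  · by_cases hv2 : v = i ∨ v = j
    · rw [m1 p q i j u v hu1 hv2, m0 i j p q u v (hdis u hu1), mul_one, mul_zero, add_zero]
      rcases hu1 with rfl | rfl <;> rcases hv2 with rfl | rfl <;>
        simp only [Equiv.swap_apply_left, Equiv.swap_apply_right, k1i, k1j, k2p, k2q] <;> ring
    · rw [m0' p q i j u v hv2, m0 i j p q u v (hdis u hu1), mul_zero, mul_zero, add_zero,
        key2 u (hdis u hu1), key2 v hv2]
      linear_combination hd (a u v) + hd (a (Equiv.swap p q u) (Equiv.swap p q v))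
  · by_cases hv1 : v = p ∨ v = q
    · by_cases hu2 : u = i ∨ u = j
      · rw [m0 p q i j u v hu1, m1 i j p q u v hu2 hv1, mul_one, mul_zero, zero_add]
        rcases hu2 with rfl | rfl <;> rcases hv1 with rfl | rfl <;>
          simp only [Equiv.swap_apply_left, Equiv.swap_apply_right, k1i, k1j, k2p, k2q] <;> ring
      · rw [m0 p q i j u v hu1, m0 i j p q u v hu2, mul_zero, mul_zero, add_zero,
          key2 u hu2, key2 v (hdis v hv1)]
        linear_combination hd (a u v) + hd (a (Equiv.swap p q u) (Equiv.swap p q v))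
    · have h3 : ∀ w : Fin g, ¬ (w = p ∨ w = q) → ¬ (Equiv.swap i j w = p ∨ Equiv.swap i j w = q) := by
        intro w hw
        by_cases hw2 : w = i ∨ w = j
        · rcases hw2 with rfl | rfl
          · rw [Equiv.swap_apply_left]
            rintro (h | h)
            · exact hpj h.symm
            · exact hqj h.symm
          · rw [Equiv.swap_apply_right]
            rintro (h | h)
            · exact hpi h.symm
            · exact hqi h.symm
        · rw [key2 w hw2]
          exact hw
      rw [m0 p q i j u v hu1, m0' i j p q u v hv1, mul_zero, mul_zero, add_zero,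
        key1 u hu1, key1 v hv1, key1 _ (h3 u hu1), key1 _ (h3 v hv1)]
      linear_combination hd (a u v) + hd (a (Equiv.swap i j u) (Equiv.swap i j v))

/-- a permutation which maps four different letters to four given ones -/
private theorem tri_perm (p q i j p' q' i' j' : Fin g) (h : [p, q, i, j].Nodup)
    (h' : [p', q', i', j'].Nodup) :
    ∃ σ : Equiv.Perm (Fin g), σ p' = p ∧ σ q' = q ∧ σ i' = i ∧ σ j' = j := by
  have hinj : ∀ a b c d : Fin g, [a, b, c, d].Nodup → Function.Injective ![a, b, c, d] := by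
    intro a b c d hn
    simp only [List.nodup_cons, List.mem_cons, List.not_mem_nil, or_false, not_or,
      not_false_eq_true, List.nodup_nil, and_true] at hn
    obtain ⟨⟨h1, h2, h3⟩, ⟨h4, h5⟩, h6⟩ := hn
    intro x y hxy
    fin_cases x <;> fin_cases y <;> simp_all
  obtain ⟨σ, h1⟩ := Equiv.Perm.exists_extending_pair ![p', q', i', j'] ![p, q, i, j]
    (hinj _ _ _ _ h') (hinj _ _ _ _ h)
  exact ⟨σ, h1 0, h1 1, h1 2, h1 3⟩

private theorem tri_nd (p q i j : Fin g) (h : [p, q, i, j].Nodup) :
    p ≠ q ∧ p ≠ i ∧ p ≠ j ∧ q ≠ i ∧ q ≠ j ∧ i ≠ j := by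
  simp only [List.nodup_cons, List.mem_cons, List.not_mem_nil, or_false, not_or,
    not_false_eq_true, List.nodup_nil, and_true] at h
  obtain ⟨⟨h1, h2, h3⟩, ⟨h4, h5⟩, h6⟩ := h
  exact ⟨h1, h2, h3, h4, h5, h6⟩

private theorem tri_nd' (p q i j : Fin g) (h : [p, q, i, j].Nodup) : [i, j, p, q].Nodup := by
  obtain ⟨h1, h2, h3, h4, h5, h6⟩ := tri_nd p q i j h
  simp only [List.nodup_cons, List.mem_cons, List.not_mem_nil, or_false, not_or,
    not_false_eq_true, List.nodup_nil, and_true]
  exact ⟨⟨h6, h2.symm, h4.symm⟩, ⟨h3.symm, h5.symm⟩, h1⟩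

end

/-- [Tri] -/
theorem thm_Tri : St_Tri := by
  intro F V X _ _ _ g e κ act C a hD hS
  obtain ⟨hP, hsym⟩ := hS
  have h2 := hD.ft
  have hVd : ∀ v : V, v + v = 0 := by
    intro v
    rw [← two_smul F v, h2, zero_smul]
  let Q : Fin g → Fin g → Fin g → Fin g → X → V :=
    fun p q i j x => κ x p i + κ x q i + κ x p j + κ x q j
  have hQ : ∀ p q i j : Fin g, [p, q, i, j].Nodup → ∀ x,
      evd e κ 0 (tri_m F p q i j) x = Q p q i j x := by
    intro p q i j hn x
    obtain ⟨h1, -, -, -, -, h6⟩ := tri_nd p q i j hn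
    unfold evd
    rw [zero_smul, zero_add]
    exact tri_sum p q i j h1 h6 (κ x)
  have hPm : ∀ p q i j : Fin g, [p, q, i, j].Nodup → Pdg 0 (tri_m F p q i j) := by
    intro p q i j hn
    obtain ⟨h1, h2', h3, h4, h5, h6⟩ := tri_nd p q i j hn
    refine ⟨fun w => ?_, ?_⟩
    · refine if_neg ?_
      rintro ⟨rfl | rfl, h | h⟩
      · exact h2' h
      · exact h3 h
      · exact h4 h
      · exact h5 h
    · have h7 := tri_sum (F := F) (V := F) p q i j h1 h6 (fun _ _ => 1)
      simp only [smul_eq_mul, mul_one] at h7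
      rw [mul_zero, h7]
      linear_combination 2 * h2
  have htr : ∀ p q i j p' q' i' j' : Fin g, [p, q, i, j].Nodup → [p', q', i', j'].Nodup →
      ∀ σ : Equiv.Perm (Fin g), σ p' = p → σ q' = q → σ i' = i → σ j' = j → ∀ x,
      Q p q i j (act σ x) = Q p' q' i' j' x := by
    intro p q i j p' q' i' j' hn hn' σ hp hq hi hj x
    rw [← hQ p q i j hn (act σ x), hD.eqv 0 _ (hPm p q i j hn) σ x, ← hQ p' q' i' j' hn' x]
    have e1 : (fun u v => tri_m F p q i j (σ u) (σ v)) = tri_m F p' q' i' j' := by
      funext u v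
      unfold tri_m
      rw [← hp, ← hq, ← hi, ← hj]
      simp only [σ.injective.eq_iff]
    rw [e1]
  have hrl : ∀ p q i j : Fin g, [p, q, i, j].Nodup → ∀ x,
      (a p i + a q i + a p j + a q j) • Q p q i j x +
        (a i p + a j p + a i q + a j q) • Q i j p q x = 0 := by
    intro p q i j hn x
    obtain ⟨h1, h2', h3, h4, h5, h6⟩ := tri_nd p q i j hn
    have hs : ∀ σ : Equiv.Perm (Fin g), ∑ u, ∑ v, a (σ u) (σ v) • κ x u v =
        ∑ u, ∑ v, a u v • κ x u v := by
      intro σ
      have h7 : evd e κ C (fun u v => a (σ u) (σ v)) x = evd e κ C a x := by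
        rw [← hD.eqv C a hP σ x, hsym σ x]
      exact add_left_cancel h7
    calc (a p i + a q i + a p j + a q j) • Q p q i j x +
        (a i p + a j p + a i q + a j q) • Q i j p q x
        = (a p i + a q i + a p j + a q j) • (∑ u, ∑ v, tri_m F p q i j u v • κ x u v) +
        (a i p + a j p + a i q + a j q) • (∑ u, ∑ v, tri_m F i j p q u v • κ x u v) := by
          rw [tri_sum p q i j h1 h6, tri_sum i j p q h6 h1]
      _ = ∑ u, ∑ v, ((a p i + a q i + a p j + a q j) * tri_m F p q i j u v +
        (a i p + a j p + a i q + a j q) * tri_m F i j p q u v) • κ x u v := by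
          rw [Finset.smul_sum, Finset.smul_sum, ← Finset.sum_add_distrib]
          refine Finset.sum_congr rfl fun u _ => ?_
          rw [Finset.smul_sum, Finset.smul_sum, ← Finset.sum_add_distrib]
          refine Finset.sum_congr rfl fun v _ => ?_
          module
      _ = ∑ u, ∑ v, (a u v + a (Equiv.swap p q u) (Equiv.swap p q v) +
        a (Equiv.swap i j u) (Equiv.swap i j v) +
        a ((Equiv.swap p q * Equiv.swap i j : Equiv.Perm (Fin g)) u)
          ((Equiv.swap p q * Equiv.swap i j : Equiv.Perm (Fin g)) v)) • κ x u v := by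
          refine Finset.sum_congr rfl fun u _ => Finset.sum_congr rfl fun v _ => ?_
          rw [← tri_S h2 p q i j h1 h6 h2' h3 h4 h5 a u v]
          rfl
      _ = ∑ u, ∑ v, a u v • κ x u v + ∑ u, ∑ v, a (Equiv.swap p q u) (Equiv.swap p q v) • κ x u v +
        ∑ u, ∑ v, a (Equiv.swap i j u) (Equiv.swap i j v) • κ x u v +
        ∑ u, ∑ v, a ((Equiv.swap p q * Equiv.swap i j : Equiv.Perm (Fin g)) u)
          ((Equiv.swap p q * Equiv.swap i j : Equiv.Perm (Fin g)) v) • κ x u v := by
          simp only [add_smul, Finset.sum_add_distrib]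
      _ = 0 := by
          rw [hs (Equiv.swap p q), hs (Equiv.swap i j), hs (Equiv.swap p q * Equiv.swap i j),
            hVd, zero_add, hVd]
  by_cases hA : ∃ p q i j : Fin g, [p, q, i, j].Nodup ∧
      a p i + a q i + a p j + a q j ≠ a i p + a j p + a i q + a j q
  · right
    left
    obtain ⟨p, q, i, j, hn, hne⟩ := hA
    have hQ0 : ∀ x, Q p q i j x = 0 := by
      intro x
      obtain ⟨σ, s1, s2, s3, s4⟩ := tri_perm i j p q p q i j (tri_nd' p q i j hn) hn
      have h3 := hrl p q i j hn x
      have h4 := hrl p q i j hn (act σ x)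
      rw [htr p q i j i j p q hn (tri_nd' p q i j hn) σ s3 s4 s1 s2,
        htr i j p q p q i j (tri_nd' p q i j hn) hn σ s1 s2 s3 s4] at h4
      generalize a p i + a q i + a p j + a q j = r at h3 h4 hne
      generalize a i p + a j p + a i q + a j q = l at h3 h4 hne
      generalize Q p q i j x = A at h3 h4 ⊢
      generalize Q i j p q x = B at h3 h4
      have h5 : ((r + l) * (r + l)) • A = 0 := by
        have hA2 := hVd A
        have hB2 := hVd B
        linear_combination (norm := module) r • h3 + l • h4 + (r * l) • hA2 - (r * l) • hB2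
      rcases smul_eq_zero.1 h5 with h6 | h6
      · exfalso
        apply hne
        have h7 : r + l = 0 := by
          rcases mul_eq_zero.1 h6 with h | h
          · exact h
          · exact h
        linear_combination h7 - l * h2
      · exact h6
    intro x p' q' i' j' hn'
    obtain ⟨σ, s1, s2, s3, s4⟩ := tri_perm p q i j p' q' i' j' hn hn'
    have h3 := htr p q i j p' q' i' j' hn hn' σ s1 s2 s3 s4 x
    rw [hQ0] at h3
    exact h3.symm
  · push Not at hA
    by_cases hB : ∃ p q i j : Fin g, [p, q, i, j].Nodup ∧ a p i + a q i + a p j + a q j ≠ 0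
    · right
      right
      refine ⟨hA, ?_⟩
      obtain ⟨p, q, i, j, hn, hne⟩ := hB
      have hQe : ∀ x, Q p q i j x + Q i j p q x = 0 := by
        intro x
        have h3 := hrl p q i j hn x
        rw [← hA p q i j hn, ← smul_add] at h3
        exact (smul_eq_zero.1 h3).resolve_left hne
      intro x p' q' i' j' hn'
      obtain ⟨σ, s1, s2, s3, s4⟩ := tri_perm p q i j p' q' i' j' hn hn'
      have h3 := htr p q i j p' q' i' j' hn hn' σ s1 s2 s3 s4 x
      have h4 := htr i j p q i' j' p' q' (tri_nd' p q i j hn) (tri_nd' p' q' i' j' hn') σ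
        s3 s4 s1 s2 x
      have h5 := hQe (act σ x)
      rw [h3, h4] at h5
      have h6 := hVd (Q i' j' p' q' x)
      have h7 : Q p' q' i' j' x = Q i' j' p' q' x := by
        linear_combination (norm := module) h5 - h6
      have h8 : Q i' j' p' q' x = κ x i' p' + κ x i' q' + κ x j' p' + κ x j' q' := by
        show κ x i' p' + κ x j' p' + κ x i' q' + κ x j' q' =
          κ x i' p' + κ x i' q' + κ x j' p' + κ x j' q'
        abel
      rw [← h8, ← h7]
    · left
      push Not at hB
      exact hB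

end Pool.Agent.CRS
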