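import Pool.Agent.CRS.StI

/-!
Campaign CRS, module TwA: p = 2, case A, assembly.
-/

set_option autoImplicit false

namespace Pool.Agent.CRS

open Pool.Agent.CRR Pool.Agent.CRN Pool.Agent.CRK Pool.Agent.CRL Pool.Agent.CRM Pool.Agent.CRP
open Pool.Agent.CRQ

private theorem TwA_len {g : ℕ} (hg : 6 ≤ g) : (((List.range g).erase 0).erase 1).length = g - 2 := by
  have h0 : 0 ∈ List.range g := List.mem_range.2 (by omega)
  have h1 : 1 ∈ (List.range g).erase 0 :=
    (List.mem_erase_of_ne (by omega)).2 (List.mem_range.2 (by omega))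
  rw [List.length_erase_of_mem h1, List.length_erase_of_mem h0, List.length_range]
  omega

private theorem TwA_mem {g : ℕ} (i : ℕ) :
    i ∈ ((List.range g).erase 0).erase 1 ↔ i ≠ 1 ∧ i ≠ 0 ∧ i < g := by
  rw [(List.nodup_range.erase 0).mem_erase_iff, List.nodup_range.mem_erase_iff, List.mem_range]

/-- **TWA.** -/
theorem thm_TwA (hCAG : St_CAG) (hCAV : St_CAV) (hLAD : St_LAD) : St_TwA := by
  intro K _ A _ _ _ _ M H g hK hMt hg htop hDm hne
  have hN2 : N2 A := ⟨hK.cube, hK.pr⟩
  by_cases h1 : ∃ x : Fin g → A, Vg (A1 g) x ≠ 0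
  · refine ⟨[A1 g], [1], Or.inr (Or.inr (Or.inr (Or.inr (Or.inl rfl)))), rfl, ?_⟩
    refine hCAG K A M H g hK hMt hg htop _ ?_ ?_ h1
    · simp only [List.length_cons, TwA_len hg]
      omega
    · intro i
      simp only [List.mem_cons, TwA_mem]
      omega
  · by_cases h2 : ∃ x : Fin g → A, Vg (A2 g) x ≠ 0
    · refine ⟨[A2 g], [1], Or.inr (Or.inr (Or.inr (Or.inr (Or.inr rfl)))), rfl, ?_⟩
      refine hCAG K A M H g hK hMt hg htop _ ?_ ?_ h2
      · simp only [List.length_cons, TwA_len hg]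
        omega
      · intro i
        simp only [List.mem_cons, TwA_mem]
        omega
    · exfalso
      push Not at h1 h2
      have h3 := hLAD K A M H g (g + 2) hK hMt (by omega) htop hDm
        (hCAV A g hN2 hg h1 h2)
      obtain ⟨l, hl, hl0⟩ := hne
      rcases hl.eq_or_lt with h | h
      · exact hl0 (h3 l h.symm)
      · exact hl0 (htop l h)

end Pool.Agent.CRS
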