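import Pool.Agent.CRS.StI

/-!
Campaign CRS, module TwB (helper61): case B, assembly.
-/

set_option autoImplicit false

namespace Pool.Agent.CRS

open Pool.Agent.CRR Pool.Agent.CRN Pool.Agent.CRK Pool.Agent.CRL Pool.Agent.CRM Pool.Agent.CRP
open Pool.Agent.CRQ

/-- the words with one letter twice, sorted by this letter -/
private theorem TwB_split {K A : Type} [CommRing K] [NonUnitalRing A] [Module K A] {g : ℕ} (x : Fin g → A) :
    ∀ L : List (K × List (Fin g)), (∀ q ∈ L, ∃ i, q.2.count i = 2 ∧ ∀ j, j ≠ i → q.2.count j = 1) →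
      Ew L x = ∑ i, Ew (L.filter fun q => q.2.count i = 2) x
  | [], _ => by simp [Ew]
  | q :: L, h => by
    have ih := TwB_split x L fun r hr => h r (List.mem_cons_of_mem q hr)
    obtain ⟨i, hi, hj⟩ := h q List.mem_cons_self
    have e1 : ∀ M : List (K × List (Fin g)), Ew (q :: M) x = q.1 • wp (q.2.map x) + Ew M x := by
      intro M
      simp [Ew]
    have e2 : ∀ k : Fin g, Ew ((q :: L).filter fun q => q.2.count k = 2) x =
        (if k = i then q.1 • wp (q.2.map x) else 0) + Ew (L.filter fun q => q.2.count k = 2) x := by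
      intro k
      by_cases hk : k = i
      · rw [if_pos hk, List.filter_cons_of_pos (by rw [hk]; simpa using hi), e1]
      · rw [if_neg hk, List.filter_cons_of_neg (by rw [hj k hk]; simp), zero_add]
    rw [e1, ih, Finset.sum_congr rfl fun k _ => e2 k, Finset.sum_add_distrib, Finset.sum_ite_eq',
      if_pos (Finset.mem_univ i)]

theorem thm_TwB (hBAS : St_BAS) (hTBX : St_TBX) (hWPU : St_WPU) (hRPL : St_RPL) (hGDX : St_GDX)
    (hPUR : St_PUR) (hPOL : St_POL) (hSQB : St_SQB) (hF0A : St_F0A) (hF0B : St_F0B) (hF0C : St_F0C)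
    (hFDA : St_FDA) (hFDB : St_FDB) (hADD : St_ADD) (hFIN : St_FIN) : St_TwB := by
  intro K _ A _ _ _ _ M H g f hkst hmt h6 htop hDm hWf hGood hne
  have hBs : Bs K M H g := ⟨hkst, hmt, h6, htop⟩
  by_cases hN : ∃ c : List K, c.length = 5 ∧ Good K 2 M H g (Kc c [Xl g 0, SP g, SQ g, Pl g 1, Ql g 1])
  · obtain ⟨c, hc, hg⟩ := hN
    exact ⟨_, c, Or.inr (Or.inr (Or.inl rfl)), hc, hg⟩
  have hNPu : NPu K A g := by
    intro i E r l hv
    by_contra hx
    push Not at hx
    exact hN (hPUR K A M H g hBs i E r l (hGDX K A M H g hBs i E r l hv hx))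
  have hSQ : ¬ SQ1 A g := hSQB K A M H g hBs hDm hNPu hne
  have hadd := hPOL K A M H g f hBs hDm hNPu hWf hGood
  obtain ⟨L₀, L₁, h0, h1, hf⟩ := hRPL K A g f htop hWf
  have hN2 : N2 A := (hBAS K A M H hkst).1
  have hP : ∀ i : Fin g, ∃ (E : K) (r l : Fin g → K), ∀ x : Fin g → A,
      Ew (L₁.filter fun q => q.2.count i = 2) x = Pu g i E r l x := by
    intro i
    apply hWPU K A g i _ hN2 h6
    intro q hq
    rw [List.mem_filter] at hq
    have hqi : q.2.count i = 2 := by simpa using hq.2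
    obtain ⟨i', hi', hj'⟩ := h1 q hq.1
    have : i = i' := by
      by_contra hii
      rw [hj' i hii] at hqi
      omega
    rw [this]
    exact ⟨hi', hj'⟩
  choose E r l hE using hP
  have hf' : ∀ x, f x = Ew L₀ x + ∑ i, Pu g i (E i) (r i) (l i) x := by
    intro x
    rw [hf x, TwB_split x L₁ h1]
    congr 1
    exact Finset.sum_congr rfl fun i _ => hE i x
  obtain ⟨ha1, ha2, ha3⟩ := hADD K A M H g f L₀ E r l hBs hGood h0 hf'
  have ha3' := ha3 hadd
  have hid := hF0A K A M H g hkst h6 L₀ h0 ha1 ha2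
  obtain ⟨htf, ρ, hρ⟩ := hF0B K A M H g hkst h6 hSQ L₀ h0 hid
  obtain ⟨J, hJ⟩ := (hTBX g h6).1
  have hL0 := hF0C K A M H g hkst h6 L₀ ρ J h0 htf hρ hJ
  have hX : ∀ i : Fin g, ∃ ε : K, ∀ x : Fin g → A,
      Pu g i (E i) (r i) (l i) x = ε • Vg (Xl g i.val) x := fun i =>
    hFDB K A M H g hkst h6 hNPu hSQ i _ _ _ (hFDA K A M H g hkst h6 i _ _ _ (ha3' i))
  choose ε hε using hX
  obtain ⟨c, hc, hg⟩ := hFIN K A M H g f J ρ ε hkst h6 hNPu hGood hadd hJ (by
    intro x
    rw [hf' x, hL0 x]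
    congr 1
    exact Finset.sum_congr rfl fun i _ => hε i x)
  exact ⟨[SX g, J], c, Or.inr (Or.inr (Or.inr (Or.inl ⟨J, hJ, rfl⟩))), hc, hg⟩

end Pool.Agent.CRS
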