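import Pool.Agent.CRS.StG
import Mathlib.Tactic

/-!
Campaign CRS, module TwC: the case in which all products of `g + 1` elements are zero.
-/

set_option autoImplicit false

namespace Pool.Agent.CRS

open Pool.Agent.CRR Pool.Agent.CRN Pool.Agent.CRK Pool.Agent.CRL Pool.Agent.CRM Pool.Agent.CRP
open Pool.Agent.CRQ

private theorem twc_adj {ι A : Type} [AddCommMonoid A] (κ κ' : ι → ι → A)
    (h : ∀ i j, i ≠ j → κ i j = κ' i j) : ∀ w : List ι, w.Nodup → adj κ w = adj κ' w := by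
  intro w
  induction w with
  | nil => intro _; rfl
  | cons i l ih =>
    intro hw
    cases l with
    | nil => rfl
    | cons k l =>
      show κ i k + adj κ (k :: l) = κ' i k + adj κ' (k :: l)
      have hik : i ≠ k := by
        rintro rfl
        exact (List.nodup_cons.1 hw).1 (by simp)
      rw [ih (List.nodup_cons.1 hw).2, h i k hik]

/-- The data over the vector space. -/
private theorem twc_dat (h1 : St_K1) {A V : Type} [NonUnitalRing A] [AddCommGroup V] (hN : N2 A)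
    {g : ℕ} (h6 : 6 ≤ g) (j : V →+ A) (hw : ∀ l : List A, 6 ≤ l.length → ∃ v, j v = wp l)
    (x : Fin g → A) : ∃ (e : V) (κ : Fin g → Fin g → V), j e ∈ Wg x ∧ (∀ i k, j (κ i k) ∈ Wg x) ∧
      (∀ i, κ i i = 0) ∧
      ∀ w : List (Fin g), (∀ i, w.count i = 1) →
        wp (w.map x) = j e + adj (fun p q => j (κ p q)) w := by
  have hr : ∀ y ∈ Wg x, ∃ v : V, j v = y := by
    intro y hy
    have hle : Wg x ≤ j.range := by
      unfold Wg
      rw [AddSubgroup.closure_le]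
      rintro y ⟨w, hl, rfl⟩
      exact hw _ (by rw [List.length_map]; exact hl)
    exact hle hy
  obtain ⟨e, κ, he, hκ, hv⟩ := h1 A hN (Fin g) (by rw [Fintype.card_fin]; exact h6) x
  obtain ⟨e', he'⟩ := hr e he
  choose κ' hκ' using fun i k => hr (κ i k) (hκ i k)
  refine ⟨e', fun i k => if i = k then 0 else κ' i k, by rw [he']; exact he, fun i k => ?_,
    fun i => if_pos rfl, fun w hc => ?_⟩
  · dsimp only
    split_ifs
    · rw [map_zero]
      exact AddSubgroup.zero_mem _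
    · rw [hκ']
      exact hκ i k
  · have hnd : w.Nodup := List.nodup_iff_count_le_one.2 fun i => (hc i).le
    rw [hv w hc, he']
    congr 1
    refine twc_adj _ _ (fun i k hik => ?_) w hnd
    dsimp only
    rw [if_neg hik, hκ']

/-- The value of an entry of the table. -/
private theorem twc_val (hE : St_TBE) {A V : Type} [NonUnitalRing A] [AddCommGroup V] (hN : N2 A)
    {g : ℕ} (h6 : 6 ≤ g) (j : V →+ A) (e : (Fin g → A) → V) (κ : (Fin g → A) → Fin g → Fin g → V)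
    (he : ∀ x, j (e x) ∈ Wg x) (hκ : ∀ x i k, j (κ x i k) ∈ Wg x)
    (hv : ∀ (x : Fin g → A) (w : List (Fin g)), (∀ i, w.count i = 1) →
        wp (w.map x) = j (e x) + adj (fun p q => j (κ x p q)) w)
    {E : ℕ → ℕ → Prop} {c : ℕ} {L : List (ℤ × List ℕ)} (hL : Orr g E c L) (x : Fin g → A) :
    Vg L x = j (tv e κ E c x) := by
  classical
  rw [hE A hN g c E L x (j (e x)) (fun p q => j (κ x p q)) h6 hL (he x) (hκ x) (hv x)]
  unfold tv
  rw [map_add, map_nsmul, map_sum]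
  congr 1
  refine Finset.sum_congr rfl fun i _ => ?_
  rw [map_sum]
  refine Finset.sum_congr rfl fun k _ => ?_
  split_ifs
  · rfl
  · rw [map_zero]

theorem thm_TwC (h0 : St_K0) (h1 : St_K1) (hX : St_TBX) (hE : St_TBE) (hT : St_Tri)
    (hz : St_Czr) (ho : St_Cor) (hc : St_Ctc) (hq : St_Eqv) (hB : St_Brg) (hM : St_Mlf)
    (hS : St_Sym) : St_TwC := by
  intro K _ A _ _ _ _ M H g f hK h6 hlen hWf hG
  have hN : N2 A := ⟨hK.cube, hK.pr⟩
  obtain ⟨x0, hx0⟩ := hG.ne
  obtain ⟨F, iF, V, iV, iM, π, j, hπs, hji, h2, hπ, hw⟩ := hB h0 K A M H hK ⟨f x0, hx0⟩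
  choose e κ he hκ hκ0 hv using fun x => twc_dat h1 hN h6 j hw x
  have hD := hq F V A j g e κ hji h6 h2 hκ0 hv
  obtain ⟨C, a, hP, hf⟩ := hM K A F V π j g e κ f h6 hπ hv hlen hWf
  have hSd : Sdg e κ (fun σ x => x ∘ σ.symm) C a := by
    refine ⟨hP, fun σ x => hji ?_⟩
    rw [← hf, ← hf]
    exact hS K A M H g f h6 hK hlen hWf hG σ.symm x
  have hC : Ccl e κ C a := by
    rcases hT F V (Fin g → A) g e κ _ C a hD hSd with h | h | ⟨h, h'⟩
    · exact hz F V (Fin g → A) g e κ _ C a hD hSd h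
    · exact ho F V (Fin g → A) g e κ _ C a hD hSd h
    · exact hc F V (Fin g → A) g e κ _ C a hD hSd h h'
  have hval := fun {E : ℕ → ℕ → Prop} {c : ℕ} {L : List (ℤ × List ℕ)} (hL : Orr g E c L)
    (x : Fin g → A) => twc_val hE hN h6 j e κ he hκ hv hL x
  obtain ⟨⟨J, hJ⟩, ⟨D, hD'⟩, hX2, hX3, hX4⟩ := hX g h6
  rcases Nat.mod_two_eq_zero_or_one g with hg | hg
  · obtain ⟨c, hcv⟩ := hC.1 hg
    choose c' hc' using fun i => hπs (c i)
    obtain ⟨⟨R, hR⟩, ⟨Cc, hCc⟩, ⟨T, hTT⟩, ⟨Z, hZ⟩, ⟨Y, hY⟩⟩ := hX2 hg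
    refine ⟨[J, R, Cc, D, T, Z, Y], [c' 0, c' 1, c' 2, c' 3, c' 4, c' 5, c' 6],
      Or.inl ⟨hg, J, R, Cc, D, T, Z, Y, hJ, hR, hCc, hD', hTT, hZ, hY, rfl⟩, rfl, ?_⟩
    have hfe : f = Kc [c' 0, c' 1, c' 2, c' 3, c' 4, c' 5, c' 6] [J, R, Cc, D, T, Z, Y] := by
      funext x
      rw [hf, hcv]
      unfold Kc
      simp only [List.zip_cons_cons, List.map_cons, List.sum_cons, List.zip_nil_left,
        List.map_nil, List.sum_nil, hval hJ, hval hR, hval hCc, hval hD', hval hTT, hval hZ,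
        hval hY, map_add, ← hπ, hc', add_zero]
      abel
    rw [← hfe]
    exact hG
  · obtain ⟨c, hc5, hcv⟩ := hC.2 hg
    choose c' hc' using fun i => hπs (c i)
    obtain ⟨⟨N, hNN⟩, ⟨R, hR⟩, ⟨Cc, hCc⟩⟩ := hX3 hg
    rcases (by omega : g % 4 = 1 ∨ g % 4 = 3) with h4 | h4
    · obtain ⟨T, hTT⟩ := hX4 h4
      refine ⟨[N, J, R, Cc, D, T], [c' 0, c' 1, c' 2, c' 3, c' 4, c' 5],
        Or.inr (Or.inl ⟨hg, N, J, R, Cc, D, T, hNN, hJ, hR, hCc, hD', Or.inl ⟨h4, hTT⟩, rfl⟩),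
        rfl, ?_⟩
      have hfe : f = Kc [c' 0, c' 1, c' 2, c' 3, c' 4, c' 5] [N, J, R, Cc, D, T] := by
        funext x
        rw [hf, hcv]
        unfold Kc
        simp only [List.zip_cons_cons, List.map_cons, List.sum_cons, List.zip_nil_left,
          List.map_nil, List.sum_nil, hval hNN, hval hJ, hval hR, hval hCc, hval hD', hval hTT,
          map_add, ← hπ, hc', add_zero]
        abel
      rw [← hfe]
      exact hG
    · refine ⟨[N, J, R, Cc, D, []], [c' 0, c' 1, c' 2, c' 3, c' 4, c' 5],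
        Or.inr (Or.inl ⟨hg, N, J, R, Cc, D, [], hNN, hJ, hR, hCc, hD', Or.inr ⟨h4, rfl⟩, rfl⟩),
        rfl, ?_⟩
      have hfe : f = Kc [c' 0, c' 1, c' 2, c' 3, c' 4, c' 5] [N, J, R, Cc, D, []] := by
        funext x
        have hv0 : Vg ([] : List (ℤ × List ℕ)) x = 0 := rfl
        rw [hf, hcv, hc5 h4]
        unfold Kc
        simp only [List.zip_cons_cons, List.map_cons, List.sum_cons, List.zip_nil_left,
          List.map_nil, List.sum_nil, hval hNN, hval hJ, hval hR, hval hCc, hval hD', hv0,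
          map_add, ← hπ, hc', add_zero, smul_zero, zero_smul]
        abel
      rw [← hfe]
      exact hG

end Pool.Agent.CRS
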