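import Pool.Agent.CRS.StG

/-!
Campaign CRS: module `Unq`, uniqueness of the adjacency formula.
-/

set_option autoImplicit false

namespace Pool.Agent.CRS

open Pool.Agent.CRR Pool.Agent.CRN Pool.Agent.CRK Pool.Agent.CRL Pool.Agent.CRM Pool.Agent.CRP
open Pool.Agent.CRQ

private theorem unq_adj_append {ι A : Type} [AddCommMonoid A] (κ : ι → ι → A) (i : ι)
    (u v : List ι) : adj κ (u ++ i :: v) = adj κ (u ++ [i]) + adj κ (i :: v) := by
  induction u with
  | nil =>
    show adj κ (i :: v) = 0 + adj κ (i :: v)
    rw [zero_add]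
  | cons a u ih =>
    cases u with
    | nil =>
      show κ a i + adj κ (i :: v) = κ a i + 0 + adj κ (i :: v)
      rw [add_zero]
    | cons b u =>
      show κ a b + adj κ (b :: u ++ i :: v) = κ a b + adj κ (b :: u ++ [i]) + adj κ (i :: v)
      rw [ih, add_assoc]

private theorem unq_adj_const {ι A : Type} [AddCommMonoid A] (κ : ι → ι → A) (z : A)
    (h : ∀ i j, i ≠ j → κ i j = z) (w : List ι) (hw : w ≠ []) (hn : w.Nodup) :
    adj κ w = (w.length - 1) • z := by
  induction w with
  | nil => exact absurd rfl hw
  | cons a u ih =>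
    cases u with
    | nil =>
      show (0 : A) = (1 - 1) • z
      simp
    | cons b u =>
      have hab : a ≠ b := by
        intro e
        rw [e] at hn
        exact (List.nodup_cons.mp hn).1 (List.mem_cons_self)
      show κ a b + adj κ (b :: u) = (u.length + 1 + 1 - 1) • z
      rw [ih (by simp) (List.nodup_cons.mp hn).2, h a b hab]
      show z + (u.length + 1 - 1) • z = (u.length + 1 + 1 - 1) • z
      simp only [Nat.add_sub_cancel]
      rw [add_smul, one_smul, add_comm]

private def unq_rest {g : ℕ} (p : List (Fin g)) : List (Fin g) :=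
  (List.finRange g).filter (fun i => decide (i ∉ p))

private theorem unq_count {g : ℕ} (p p' : List (Fin g)) (hn : p.Nodup) (hp : p'.Perm p)
    (i : Fin g) : (p' ++ unq_rest p).count i = 1 ∧ (unq_rest p ++ p').count i = 1 := by
  have h1 : p'.count i + (unq_rest p).count i = 1 := by
    rw [hp.count_eq i]
    unfold unq_rest
    by_cases hi : i ∈ p
    · have h2 : ((List.finRange g).filter (fun i => decide (i ∉ p))).count i = 0 := by
        rw [List.count_eq_zero]
        intro h
        have := (List.mem_filter.mp h).2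
        simp [hi] at this
      rw [h2, List.count_eq_one_of_mem hn hi]
    · have h2 : ((List.finRange g).filter (fun i => decide (i ∉ p))).count i = 1 := by
        apply List.count_eq_one_of_mem
        · exact (List.nodup_finRange g).filter _
        · simp [hi]
      rw [h2, List.count_eq_zero.mpr hi]
  rw [List.count_append, List.count_append]
  omega

private theorem unq_fresh {g : ℕ} (hg : 6 ≤ g) (a b c : Fin g) :
    ∃ q : Fin g, q ≠ a ∧ q ≠ b ∧ q ≠ c := by
  have h1 : (({a, b, c} : Finset (Fin g)))ᶜ.Nonempty := by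
    rw [← Finset.card_pos, Finset.card_compl, Fintype.card_fin]
    have := Finset.card_le_three (a := a) (b := b) (c := c)
    omega
  obtain ⟨q, hq⟩ := h1
  rw [Finset.mem_compl, Finset.mem_insert, Finset.mem_insert, Finset.mem_singleton] at hq
  push Not at hq
  exact ⟨q, hq.1, hq.2.1, hq.2.2⟩

theorem thm_Unq : St_Unq := by
  intro g V _ hg h2 δ κ hw
  -- (1)
  have e1 : ∀ a b q : Fin g, a ≠ b → a ≠ q → b ≠ q → κ a b + κ b q = κ b a + κ a q := by
    intro a b q hab haq hbq
    have hn : [a, b, q].Nodup := by simp [hab, haq, hbq]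
    have w1 := hw ([a, b, q] ++ unq_rest [a, b, q])
      (fun i => (unq_count [a, b, q] [a, b, q] hn (List.Perm.refl _) i).1)
    have w2 := hw ([b, a, q] ++ unq_rest [a, b, q])
      (fun i => (unq_count [a, b, q] [b, a, q] hn (List.Perm.swap _ _ _) i).1)
    have w1' : δ + (κ a b + (κ b q + adj κ (q :: unq_rest [a, b, q]))) = 0 := w1
    have w2' : δ + (κ b a + (κ a q + adj κ (q :: unq_rest [a, b, q]))) = 0 := w2
    have w3 := w1'.trans w2'.symm
    have w4 := add_left_cancel w3
    rw [← add_assoc, ← add_assoc] at w4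
    exact add_right_cancel w4
  have e2 : ∀ p a b : Fin g, p ≠ a → p ≠ b → κ p a = κ p b := by
    intro p a b hpa hpb
    by_cases hab : a = b
    · rw [hab]
    obtain ⟨q, hqp, hqa, hqb⟩ := unq_fresh hg p a b
    have hn : [p, a, b, q].Nodup := by simp [hab, hpa, hpb, hqp.symm, hqa.symm, hqb.symm]
    have w1 := hw ([p, a, b, q] ++ unq_rest [p, a, b, q])
      (fun i => (unq_count [p, a, b, q] [p, a, b, q] hn (List.Perm.refl _) i).1)
    have w2 := hw ([p, b, a, q] ++ unq_rest [p, a, b, q])
      (fun i => (unq_count [p, a, b, q] [p, b, a, q] hn ((List.Perm.swap _ _ _).cons p) i).1)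
    have w1' : δ + (κ p a + (κ a b + (κ b q + adj κ (q :: unq_rest [p, a, b, q])))) = 0 := w1
    have w2' : δ + (κ p b + (κ b a + (κ a q + adj κ (q :: unq_rest [p, a, b, q])))) = 0 := w2
    have w3 := w1'.trans w2'.symm
    have w4 := add_left_cancel w3
    have w5 : κ a b + (κ b q + adj κ (q :: unq_rest [p, a, b, q])) =
        κ b a + (κ a q + adj κ (q :: unq_rest [p, a, b, q])) := by
      rw [← add_assoc, ← add_assoc, e1 a b q hab hqa.symm hqb.symm]
    rw [w5] at w4
    exact add_right_cancel w4
  have e3 : ∀ a b : Fin g, a ≠ b → κ a b = κ b a := by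
    intro a b hab
    obtain ⟨p, hpa, hpb, -⟩ := unq_fresh hg a b a
    have hn : [p, a, b].Nodup := by simp [hab, hpa, hpb]
    have w1 := hw (unq_rest [p, a, b] ++ [p, a, b])
      (fun i => (unq_count [p, a, b] [p, a, b] hn (List.Perm.refl _) i).2)
    have w2 := hw (unq_rest [p, a, b] ++ [p, b, a])
      (fun i => (unq_count [p, a, b] [p, b, a] hn ((List.Perm.swap _ _ _).cons p) i).2)
    rw [unq_adj_append] at w1 w2
    have w3 := w1.trans w2.symm
    have w4 := add_left_cancel (add_left_cancel w3)
    have w5 : κ p a + (κ a b + 0) = κ p b + (κ b a + 0) := w4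
    rw [add_zero, add_zero, e2 p a b hpa hpb] at w5
    exact add_left_cancel w5
  have g0 : 0 < g := by omega
  have g1 : 1 < g := by omega
  let o : Fin g := ⟨0, g0⟩
  let u : Fin g := ⟨1, g1⟩
  have hou : o ≠ u := by
    intro h
    have := congrArg Fin.val h
    simp [o, u] at this
  have hz : ∀ i j : Fin g, i ≠ j → κ i j = κ o u := by
    intro i j hij
    by_cases hi : i = o
    · subst hi
      exact e2 o j u hij hou
    · rw [e2 i j o hij hi, e3 i o hi]
      exact e2 o i u (Ne.symm hi) hou
  refine ⟨κ o u, hz, ?_⟩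
  have w := hw (List.finRange g) (fun i => List.count_eq_one_of_mem (List.nodup_finRange g)
    (List.mem_finRange i))
  have hne : List.finRange g ≠ [] := by
    intro h
    have := congrArg List.length h
    rw [List.length_finRange] at this
    simp at this
    omega
  rw [unq_adj_const κ (κ o u) hz _ hne (List.nodup_finRange g), List.length_finRange] at w
  have w' := h2 ((g - 1) • κ o u)
  exact add_right_cancel (w.trans w'.symm)

end Pool.Agent.CRS
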