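import Pool.Agent.CRS.StI

/-!
Campaign CRS, module WPU: words with one letter twice as combinations (problem MP_1bb14d_al, stage 7).
-/

set_option autoImplicit false

namespace Pool.Agent.CRS

open Pool.Agent.CRR Pool.Agent.CRN Pool.Agent.CRK Pool.Agent.CRL Pool.Agent.CRM Pool.Agent.CRP
open Pool.Agent.CRQ

/-- the number of adjacent pairs `a b` of `w` -/
def WPU_n {ι : Type} [DecidableEq ι] (w : List ι) (a b : ι) : ℕ :=
  adj (fun s t => if s = a ∧ t = b then (1 : ℕ) else 0) w

theorem WPU_pair {A : Type} [AddCommMonoid A] {g : ℕ} (i : Fin g) (κ : Fin g → Fin g → A)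
    (h0 : ∀ j k, j ≠ i → k ≠ i → κ j k = 0) (a b : Fin g) :
    κ a b = (if a = i ∧ b = i then 1 else 0) • κ i i +
      ∑ j : Fin g, if j = i then 0 else
        (if a = i ∧ b = j then 1 else 0) • κ i j + (if a = j ∧ b = i then 1 else 0) • κ j i := by
  by_cases ha : a = i
  · subst ha
    by_cases hb : b = a
    · subst hb
      rw [Finset.sum_eq_zero]
      · simp
      · intro j _
        by_cases hj : j = b
        · rw [if_pos hj]
        · have hj' : ¬ b = j := fun h => hj h.symm
          simp [hj, hj']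
    · rw [Finset.sum_eq_single b]
      · simp [hb]
      · intro j _ hj
        have hj' : ¬ b = j := fun h => hj h.symm
        by_cases h : j = a
        · rw [if_pos h]
        · simp [h, hj', hb]
      · intro h
        exact absurd (Finset.mem_univ b) h
  · by_cases hb : b = i
    · subst hb
      rw [Finset.sum_eq_single a]
      · simp [ha]
      · intro j _ hj
        have hj' : ¬ a = j := fun h => hj h.symm
        by_cases h : j = b
        · rw [if_pos h]
        · simp [h, hj', ha]
      · intro h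
        exact absurd (Finset.mem_univ a) h
    · rw [h0 a b ha hb, Finset.sum_eq_zero]
      · simp [ha]
      · intro j _
        by_cases hj : j = i
        · rw [if_pos hj]
        · simp [hj, ha, hb]

theorem WPU_adj {A : Type} [AddCommMonoid A] {g : ℕ} (i : Fin g) (κ : Fin g → Fin g → A)
    (h0 : ∀ j k, j ≠ i → k ≠ i → κ j k = 0) : ∀ w : List (Fin g),
    adj κ w = WPU_n w i i • κ i i +
      ∑ j : Fin g, if j = i then 0 else WPU_n w i j • κ i j + WPU_n w j i • κ j i
  | [] => by simp [adj, WPU_n]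
  | [a] => by simp [adj, WPU_n]
  | a :: b :: l => by
    have ih := WPU_adj i κ h0 (b :: l)
    have h1 : ∀ s t : Fin g, WPU_n (a :: b :: l) s t = (if a = s ∧ b = t then 1 else 0) + WPU_n (b :: l) s t :=
      fun s t => rfl
    have h2 : adj κ (a :: b :: l) = κ a b + adj κ (b :: l) := rfl
    have h3 : ∑ j : Fin g, (if j = i then 0 else
        WPU_n (a :: b :: l) i j • κ i j + WPU_n (a :: b :: l) j i • κ j i) =
        (∑ j : Fin g, if j = i then 0 else
          (if a = i ∧ b = j then 1 else 0) • κ i j + (if a = j ∧ b = i then 1 else 0) • κ j i) +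
        ∑ j : Fin g, (if j = i then 0 else WPU_n (b :: l) i j • κ i j + WPU_n (b :: l) j i • κ j i) := by
      rw [← Finset.sum_add_distrib]
      refine Finset.sum_congr rfl fun j _ => ?_
      by_cases hj : j = i
      · rw [if_pos hj, if_pos hj, if_pos hj, add_zero]
      · rw [if_neg hj, if_neg hj, if_neg hj, h1, h1, add_smul, add_smul]
        abel
    rw [h2, ih, h3, h1, add_smul]
    conv_lhs => rw [WPU_pair i κ h0 a b]
    abel

theorem WPU_zero {K A : Type} [CommRing K] [NonUnitalRing A] [Module K A] (g : ℕ) (i : Fin g) (x : Fin g → A) :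
    Pu g i (0 : K) (fun _ => 0) (fun _ => 0) x = 0 := by
  unfold Pu
  simp

theorem WPU_addP {K A : Type} [CommRing K] [NonUnitalRing A] [Module K A] (g : ℕ) (i : Fin g) (E E' : K)
    (r l r' l' : Fin g → K) (x : Fin g → A) :
    Pu g i (E + E') (fun j => r j + r' j) (fun j => l j + l' j) x = Pu g i E r l x + Pu g i E' r' l' x := by
  unfold Pu
  have h3 : ∑ j : Fin g, (if j = i then 0 else
      (r j + r' j) • Vg (Pm g i.val j.val) x + (l j + l' j) • Vg (Qm g i.val j.val) x) =
      (∑ j : Fin g, if j = i then 0 else r j • Vg (Pm g i.val j.val) x + l j • Vg (Qm g i.val j.val) x) +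
      ∑ j : Fin g, (if j = i then 0 else r' j • Vg (Pm g i.val j.val) x + l' j • Vg (Qm g i.val j.val) x) := by
    rw [← Finset.sum_add_distrib]
    refine Finset.sum_congr rfl fun j _ => ?_
    by_cases hj : j = i
    · rw [if_pos hj, if_pos hj, if_pos hj, add_zero]
    · rw [if_neg hj, if_neg hj, if_neg hj, add_smul, add_smul]
      abel
  rw [h3, add_smul]
  abel

theorem thm_WPU (hK2 : St_K2) (hT : St_TBK) : St_WPU := by
  intro K _ A _ _ g i L hN hg
  induction L with
  | nil =>
    intro _
    refine ⟨0, fun _ => 0, fun _ => 0, fun x => ?_⟩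
    rw [WPU_zero]
    rfl
  | cons q L ih =>
    intro hq
    obtain ⟨E, r, l, h⟩ := ih fun q' hq' => hq q' (List.mem_cons_of_mem _ hq')
    obtain ⟨hc2, hc1⟩ := hq q List.mem_cons_self
    refine ⟨q.1 * (WPU_n q.2 i i : K) + E, fun j => q.1 * (WPU_n q.2 i j : K) + r j,
      fun j => q.1 * (WPU_n q.2 j i : K) + l j, fun x => ?_⟩
    have h1 : Ew (q :: L) x = q.1 • wp (q.2.map x) + Ew L x := by
      unfold Ew
      rw [List.map_cons, List.sum_cons]
    rw [h1, h x, WPU_addP g i (q.1 * (WPU_n q.2 i i : K)) E (fun j => q.1 * (WPU_n q.2 i j : K))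
      (fun j => q.1 * (WPU_n q.2 j i : K)) r l x]
    congr 1
    obtain ⟨κ, hκ, hκ0, hκw⟩ := hK2 A hN (Fin g) (by rw [Fintype.card_fin]; omega) i x
    obtain ⟨hX, hPQ⟩ := hT A hN g x i κ hg hκ hκ0 hκw
    rw [hκw q.2 hc2 hc1, WPU_adj i κ hκ0 q.2]
    unfold Pu
    rw [smul_add, Finset.smul_sum, hX]
    congr 1
    · rw [mul_smul, Nat.cast_smul_eq_nsmul]
    · refine Finset.sum_congr rfl fun j _ => ?_
      by_cases hj : j = i
      · rw [if_pos hj, if_pos hj, smul_zero]
      · rw [if_neg hj, if_neg hj, (hPQ j hj).1, (hPQ j hj).2, smul_add, mul_smul, mul_smul,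
          Nat.cast_smul_eq_nsmul, Nat.cast_smul_eq_nsmul]

end Pool.Agent.CRS
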