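import Pool.Agent.CRS.K1
import Pool.Agent.CRS.TZ
import Pool.Agent.CRS.K2
import Pool.Agent.CRS.K22
import Pool.Agent.CRS.K3
import Pool.Agent.CRS.KZA
import Pool.Agent.CRS.KZ
import Pool.Agent.CRS.RLA
import Pool.Agent.CRS.RLB
import Pool.Agent.CRS.TBX
import Pool.Agent.CRS.TBE
import Pool.Agent.CRS.TBK
import Pool.Agent.CRS.TBL
import Pool.Agent.CRS.Rct
import Pool.Agent.CRS.Tri
import Pool.Agent.CRS.Czr
import Pool.Agent.CRS.Cor
import Pool.Agent.CRS.Cta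
import Pool.Agent.CRS.Ctb
import Pool.Agent.CRS.Ctc
import Pool.Agent.CRS.Unq
import Pool.Agent.CRS.Eqv
import Pool.Agent.CRS.Brg
import Pool.Agent.CRS.Mlf
import Pool.Agent.CRS.Sym
import Pool.Agent.CRS.TwC
import Pool.Agent.CRS.BAS
import Pool.Agent.CRS.TOP
import Pool.Agent.CRS.SPN
import Pool.Agent.CRS.LAD
import Pool.Agent.CRS.LIN
import Pool.Agent.CRS.DEP
import Pool.Agent.CRS.CAG
import Pool.Agent.CRS.CAV
import Pool.Agent.CRS.TwA
import Pool.Agent.CRS.CA5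
import Pool.Agent.CRS.WPU
import Pool.Agent.CRS.PUW
import Pool.Agent.CRS.RPL
import Pool.Agent.CRS.EQV
import Pool.Agent.CRS.REL
import Pool.Agent.CRS.KPU
import Pool.Agent.CRS.GDX
import Pool.Agent.CRS.PUR
import Pool.Agent.CRS.PO1
import Pool.Agent.CRS.PO2
import Pool.Agent.CRS.DMO
import Pool.Agent.CRS.POL
import Pool.Agent.CRS.SQA
import Pool.Agent.CRS.LFT
import Pool.Agent.CRS.SQB
import Pool.Agent.CRS.IDM
import Pool.Agent.CRS.EVL
import Pool.Agent.CRS.F0A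
import Pool.Agent.CRS.F0B
import Pool.Agent.CRS.F0C
import Pool.Agent.CRS.FDA
import Pool.Agent.CRS.FDB
import Pool.Agent.CRS.ADD
import Pool.Agent.CRS.FIN
import Pool.Agent.CRS.TwB
import Pool.Agent.CRS.Kzd
import Pool.Agent.CRS.StC

/-!
Campaign CRS, p = 2, module Two: the theorem for p = 2 from the three cases (problem MP_1bb14d_al, stage 7), and the
assembly of all modules (everything from `St_K0`).
-/

set_option autoImplicit false

namespace Pool.Agent.CRS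

open Pool.Agent.CRR Pool.Agent.CRN Pool.Agent.CRK Pool.Agent.CRL Pool.Agent.CRM Pool.Agent.CRP
open Pool.Agent.CRQ

theorem thm_Two (hA : St_TwA) (hB : St_TwB) (hC : St_TwC) : St_Two := by
  intro K _ A _ _ _ _ M H g f hK h6 htop hDm _ hMt hWf hG
  have htop' : ∀ l : List A, g + 3 ≤ l.length → wp l = 0 := fun l hl =>
    htop l (by rw [Tn, if_pos rfl]; exact hl)
  by_cases h2 : ∃ l : List A, g + 2 ≤ l.length ∧ wp l ≠ 0
  · exact hA K A M H g hK hMt h6 htop' hDm h2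
  · have t2 : ∀ l : List A, g + 2 ≤ l.length → wp l = 0 := fun l hl => by
      by_contra hne
      exact h2 ⟨l, hl, hne⟩
    by_cases h1 : ∃ l : List A, g + 1 ≤ l.length ∧ wp l ≠ 0
    · exact hB K A M H g f hK hMt h6 t2 hDm hWf hG h1
    · have t1 : ∀ l : List A, g + 1 ≤ l.length → wp l = 0 := fun l hl => by
        by_contra hne
        exact h1 ⟨l, hl, hne⟩
      exact hC K A M H g f hK h6 t1 hWf hG

section fin

variable (h0 : St_K0)

include h0

theorem fin_WG : St_WG := thm_WG h0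
theorem fin_K2 : St_K2 := thm_K2 (fin_K1 h0) (thm_TZ h0) (fin_WG h0)
theorem fin_K22 : St_K22 := thm_K22 (fin_K2 h0) (fin_WG h0)
theorem fin_K3 : St_K3 := thm_K3 (fin_K2 h0) (fin_WG h0)
theorem fin_KZ : St_KZ := thm_KZ (thm_KZA (fin_K22 h0) (fin_K3 h0))
theorem fin_TBE : St_TBE := thm_TBE (fin_WG h0)
theorem fin_TBK : St_TBK := thm_TBK (fin_WG h0)
theorem fin_BAS : St_BAS := thm_BAS h0
theorem fin_TOP : St_TOP := thm_TOP h0
theorem fin_SPN : St_SPN := thm_SPN (fin_TOP h0)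
theorem fin_LAD : St_LAD := thm_LAD (fin_SPN h0)
theorem fin_WPU : St_WPU := thm_WPU (fin_K2 h0) (fin_TBK h0)
theorem fin_REL : St_REL := thm_REL (fin_K2 h0) (fin_TBK h0) (fin_WG h0)
theorem fin_EQV : St_EQV := thm_EQV (fin_K22 h0) (fin_K3 h0) (fin_TBK h0) (fin_WG h0)
theorem fin_SQA : St_SQA := thm_SQA (fin_K2 h0) (fin_TBK h0) (fin_WG h0)
theorem fin_IDM : St_IDM := thm_IDM (fin_BAS h0) (fin_K1 h0) (fin_WG h0)

end fin

theorem fin_TBX : St_TBX := thm_TBX (thm_RLB thm_RLA)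
theorem fin_Ctc : St_Ctc := thm_Ctc (thm_Cta thm_Rct) thm_Ctb

section fin2

variable (h0 : St_K0)

include h0

theorem fin_TwA : St_TwA :=
  thm_TwA (thm_CAG (fin_TOP h0) (fin_SPN h0) (fin_KZ h0)) (thm_CAV (fin_K3 h0) (fin_K22 h0) (fin_KZ h0)) (fin_LAD h0)

/-- Case A for `g ≥ 5`. -/
theorem fin_TwA5 : St_TwA5 :=
  thm_TwA5 (thm_CAG5 (fin_TOP h0) (fin_SPN h0) (fin_KZ h0)) (thm_CAV5 (fin_K3 h0) (fin_K22 h0) (fin_KZ h0)) (fin_LAD h0)

theorem fin_TwB : St_TwB :=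
  thm_TwB (fin_BAS h0) fin_TBX (fin_WPU h0) thm_RPL
    (thm_GDX (fin_TOP h0) thm_DEP (fin_BAS h0) thm_PUW thm_LIN)
    (thm_PUR (fin_BAS h0) thm_PUW thm_LIN (fin_REL h0) thm_KPU)
    (thm_POL (thm_PO1 thm_RPL) (thm_PO2 (fin_WPU h0)) (thm_DMO (fin_TOP h0) thm_DEP thm_LIN))
    (thm_SQB (fin_BAS h0) (fin_SQA h0) (fin_EQV h0) (fin_WPU h0) thm_LFT (fin_LAD h0))
    (thm_F0A thm_EVL (fin_WG h0)) (thm_F0B (fin_BAS h0) (fin_IDM h0) thm_EVL)
    (thm_F0C (fin_BAS h0) (fin_K1 h0) thm_EVL (fin_TBE h0))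
    (thm_FDA (fin_BAS h0) (fin_WG h0)) (thm_FDB (fin_BAS h0) (fin_IDM h0) (fin_SQA h0) (fin_EQV h0))
    (thm_ADD (fin_TOP h0) thm_PUW thm_LIN)
    (thm_FIN (fin_BAS h0) (fin_K1 h0) (fin_WG h0) (fin_TBE h0) (fin_REL h0) (fin_EQV h0))

theorem fin_TwC : St_TwC :=
  thm_TwC h0 (fin_K1 h0) fin_TBX (fin_TBE h0) thm_Tri (thm_Czr thm_Rct) (thm_Cor thm_Rct) fin_Ctc
    (thm_Eqv thm_Unq (fin_WG h0)) thm_Brg thm_Mlf thm_Sym

/-- The theorem for `p = 2`. -/
theorem fin_Two : KTh 2 Tb2 := thm_Two (fin_TwA h0) (fin_TwB h0) (fin_TwC h0)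

end fin2

/-- Products of at least 6 elements are killed by 2 (the case `p = 2` of `jk0`). -/
theorem fin_K0 : St_K0 := by
  intro A _ hA l hl
  have h := jk0 A 2 (Or.inl rfl) hA.cube hA.pr l hl
  rwa [two_smul] at h

/-- The theorem for `p = 2`, without hypotheses. -/
theorem two : KTh 2 Tb2 := fin_Two fin_K0

/-- Case A for `g ≥ 5`, without hypotheses. -/
theorem twA5 : St_TwA5 := fin_TwA5 fin_K0

/-- Products with at least three repetitions are zero, without hypotheses. -/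
theorem kz : St_KZ := fin_KZ fin_K0

/-- For `p = 2` words in `k` letters of length at least 6 and at least `k + 3` are zero. -/
theorem jkz : Jkz := by
  intro A _ hc hr k v w hw h6 hk
  refine kz A ⟨hc, hr⟩ ℕ v w h6 ?_
  have h1 : w.toFinset ⊆ Finset.range k := fun i hi => Finset.mem_range.2 (hw i (List.mem_toFinset.1 hi))
  have h2 := Finset.card_le_card h1
  rw [Finset.card_range] at h2
  omega

end Pool.Agent.CRS
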