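import Pool.Agent.CRS.Tbl
import Pool.Agent.CRS.Two
import Pool.Agent.CRS.AllC
import Pool.Agent.CRS.AllH
import Pool.Agent.CRS.CA5

/-!
Campaign CRS: the final theorem from the theorem for `p = 3` (problem MP_1bb14d_al).
-/

set_option autoImplicit false

namespace Pool.Agent.CRS

open Pool.Agent.CRR Pool.Agent.CRN Pool.Agent.CRK Pool.Agent.CRL Pool.Agent.CRM Pool.Agent.CRP
open Pool.Agent.CRQ

theorem twF5 : St_TwF Ta5 :=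
  thm_TwF (thm_CAG5 (fin_TOP fin_K0) (fin_SPN fin_K0) (fin_KZ fin_K0))
    (thm_CAV5 (fin_K3 fin_K0) (fin_K22 fin_K0) (fin_KZ fin_K0)) (fin_LAD fin_K0)

theorem Ala_fin (h3 : KTg 3 (fun g B => Wsh 5 g B ∨ Td3 g B))
    (hL3 : ∀ g B, Td3 g B → ∀ b ∈ B, ∀ q ∈ b, ∀ i, i ∈ q.2 ↔ i < g) :
    ∀ n : ℕ, 4 ≤ n → ∀ (R : Type) [NonUnitalRing R] [Finite R], InM n R →
    (Critical R ↔ MatType R 2 ∨ MatType R 3 ∨ TriType R ∨ TriType Rᵐᵒᵖ ∨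
      (¬ Twn R ∧ (PthType R n ∨ PthType Rᵐᵒᵖ n ∨ Twl R n ∨
        ((Nat.card R).Coprime 6 ∧ (CenT R n ∨ NilT R)) ∨ CenE R n ∨ NilE R))) :=
  Tbl_fin jk0 kz two thm_TBL twF5 h3 hL3

end Pool.Agent.CRS
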