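import Pool.Agent.CRS.StB

/-!
Campaign CRS, p = 3, module Alc: alternating families, complements, modulo a subgroup.
-/

set_option autoImplicit false

namespace Pool.Agent.CRS

open Pool.Agent.CRR Pool.Agent.CRN Pool.Agent.CRK Pool.Agent.CRL Pool.Agent.CRM Pool.Agent.CRP
open Pool.Agent.CRQ

section alc

variable {M Q : Type} [AddCommGroup M] [AddCommGroup Q]

private lemma Alc_sum (π : M →+ Q) (s : ℕ → ℕ → AddMonoid.End M) (s' : ℕ → ℕ → AddMonoid.End Q) (i : ℕ) (m : M) :
    ∀ l : List ℕ, (∀ j ∈ l, s' i j (π m) = π (s i j m)) → (l.map (s' i)).sum (π m) = π ((l.map (s i)).sum m)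
  | [], _ => by
    rw [List.map_nil, List.map_nil, List.sum_nil, List.sum_nil]
    exact (map_zero π).symm
  | j :: l, h => by
    have ih := Alc_sum π s s' i m l (fun k hk => h k (List.mem_cons_of_mem _ hk))
    rw [List.map_cons, List.map_cons, List.sum_cons, List.sum_cons]
    show s' i j (π m) + (l.map (s' i)).sum (π m) = π (s i j m + (l.map (s i)).sum m)
    rw [ih, h j List.mem_cons_self, map_add]

private lemma Alc_Xo (π : M →+ Q) (s : ℕ → ℕ → AddMonoid.End M) (s' : ℕ → ℕ → AddMonoid.End Q) (i : ℕ) (l : List ℕ)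
    (h : ∀ j ∈ l, ∀ m, s' i j (π m) = π (s i j m)) (m : M) : Xo s' i l (π m) = π (Xo s i l m) := by
  unfold Xo
  split_ifs with h1 h2
  · rfl
  · show -(π m + (l.map (s' i)).sum (π m)) = π (-(m + (l.map (s i)).sum m))
    rw [Alc_sum π s s' i m l (fun j hj => h j hj m), map_neg, map_add]
  · have hl : l ≠ [] := fun h3 => h1 (Or.inr h3)
    have hj : l.headD 0 ∈ l := by
      cases l with
      | nil => exact absurd rfl hl
      | cons a l => exact List.mem_cons_self
    have e1 : ∀ m, s' i (l.headD 0) (π m) = π (s i (l.headD 0) m) := h _ hj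
    set j0 := l.headD 0 with hj0
    have e2 : (-(1 + s' i j0)) (π m) = π ((-(1 + s i j0)) m) := by
      show -(π m + s' i j0 (π m)) = π (-(m + s i j0 m))
      rw [e1, map_neg, map_add]
    have e3 : ∀ m, (1 + (1 + s' i j0) * (l.map (s' i)).sum) (π m) = π ((1 + (1 + s i j0) * (l.map (s i)).sum) m) := by
      intro m
      show π m + ((l.map (s' i)).sum (π m) + s' i j0 ((l.map (s' i)).sum (π m))) =
        π (m + ((l.map (s i)).sum m + s i j0 ((l.map (s i)).sum m)))
      rw [Alc_sum π s s' i m l (fun j hj => h j hj m), e1, map_add, map_add]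
    show (1 + (1 + s' i j0) * (l.map (s' i)).sum) ((-(1 + s' i j0)) (π m)) =
      π ((1 + (1 + s i j0) * (l.map (s i)).sum) ((-(1 + s i j0)) m))
    rw [e2, e3]

private lemma Alc_To (π : M →+ Q) (s : ℕ → ℕ → AddMonoid.End M) (s' : ℕ → ℕ → AddMonoid.End Q) (C : List ℕ)
    (h : ∀ i ∈ C, ∀ j ∈ C, ∀ m, s' i j (π m) = π (s i j m)) : ∀ B : List ℕ, (∀ i ∈ B, i ∈ C) → ∀ m,
    To s' B (π m) = π (To s B m)
  | [], _, m => rfl
  | i :: l, hB, m => by
    have ih := Alc_To π s s' C h l (fun k hk => hB k (List.mem_cons_of_mem _ hk)) m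
    show Xo s' i l (To s' l (π m)) = π (Xo s i l (To s l m))
    rw [ih]
    exact Alc_Xo π s s' i l (fun j hj m => h i (hB i List.mem_cons_self) j (hB j (List.mem_cons_of_mem _ hj)) m) _

private lemma Alc_Spn (π : M →+ Q) (ψ : List ℕ → M) (B : List ℕ) :
    Spn (fun X => π (ψ X)) B ≤ (Spn ψ B).map π := by
  unfold Spn
  rw [AddSubgroup.closure_le]
  rintro m ⟨t, ht, rfl⟩
  refine ⟨(t.2.map ψ).sum, AddSubgroup.subset_closure ⟨t, ht, rfl⟩, ?_⟩
  rw [map_list_sum, List.map_map]
  rfl

/-- rearrangements change the sign only -/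
private lemma Alc_perm (C : List ℕ) (φ : List ℕ → M)
    (h : ∀ l1 l2 : List ℕ, ∀ i ∈ C, ∀ j ∈ C, (∀ k ∈ l1 ++ l2, k ∈ C) → φ (l1 ++ i :: j :: l2) = -φ (l1 ++ j :: i :: l2))
    {l l' : List ℕ} (hp : l.Perm l') : ∀ l0 : List ℕ, (∀ k ∈ l0 ++ l, k ∈ C) →
    φ (l0 ++ l) = φ (l0 ++ l') ∨ φ (l0 ++ l) = -φ (l0 ++ l') := by
  induction hp with
  | nil => exact fun _ _ => Or.inl rfl
  | @cons a l1 l2 _ ih =>
    intro l0 hl
    have h1 := ih (l0 ++ [a]) (by
      intro k hk
      apply hl
      simpa using hk)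
    simpa using h1
  | swap a b l1 =>
    intro l0 hl
    right
    refine h l0 l1 b ?_ a ?_ ?_
    · exact hl b (by simp)
    · exact hl a (by simp)
    · intro k hk
      rw [List.mem_append] at hk
      rcases hk with hk | hk
      · exact hl k (by simp [hk])
      · exact hl k (by simp [hk])
  | @trans l1 l2 l3 h12 _ ih1 ih2 =>
    intro l0 hl
    have h1 := ih1 l0 hl
    have h2 := ih2 l0 (by
      intro k hk
      apply hl
      rw [List.mem_append] at hk ⊢
      rcases hk with hk | hk
      · exact Or.inl hk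
      · exact Or.inr (h12.mem_iff.2 hk))
    rcases h1 with h1 | h1 <;> rcases h2 with h2 | h2
    · exact Or.inl (h1.trans h2)
    · exact Or.inr (h1.trans h2)
    · exact Or.inr (by rw [h1, h2])
    · exact Or.inl (by rw [h1, h2, neg_neg])

end alc

theorem thm_Alc (hX : St_Alx) (hF : St_Cpf) (hG : St_Sgn) : St_Alc := by
  intro M _ J s C φ hC hJ halt htor hact Z hZ
  set π : M →+ M ⧸ J := QuotientAddGroup.mk' J with hπ
  have hk : ∀ m : M, π m = 0 ↔ m ∈ J := by
    intro m
    rw [hπ]
    exact QuotientAddGroup.eq_zero_iff m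
  classical
  let s' : ℕ → ℕ → AddMonoid.End (M ⧸ J) := fun i j =>
    if h : i ∈ C ∧ j ∈ C then QuotientAddGroup.map J J (s i j) (fun m hm => hJ i h.1 j h.2 m hm) else 0
  have hs : ∀ i ∈ C, ∀ j ∈ C, ∀ m, s' i j (π m) = π (s i j m) := by
    intro i hi j hj m
    have e1 : s' i j = QuotientAddGroup.map J J (s i j) (fun m hm => hJ i hi j hj m hm) := dif_pos ⟨hi, hj⟩
    rw [e1]
    rfl
  set φ' : List ℕ → M ⧸ J := fun X => π (φ X) with hφ'
  have alt' : ∀ l1 l2 : List ℕ, ∀ i ∈ C, ∀ j ∈ C, (∀ k ∈ l1 ++ l2, k ∈ C) →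
      φ' (l1 ++ i :: j :: l2) = -φ' (l1 ++ j :: i :: l2) := by
    intro l1 l2 i hi j hj hl
    have h1 := (hk _).2 (halt l1 l2 i hi j hj hl)
    rw [map_add] at h1
    exact eq_neg_of_add_eq_zero_left h1
  have tor' : ∀ l : List ℕ, (∀ k ∈ l, k ∈ C) → (3 : ℤ) • φ' l = 0 := by
    intro l hl
    have h1 := (hk _).2 (htor l hl)
    rw [map_zsmul] at h1
    exact h1
  have act' : ∀ i ∈ C, ∀ j ∈ C, i ≠ j → ∀ l : List ℕ, (∀ k ∈ l, k ∈ C) → s' i j (φ' l) = -φ' (l.map (Equiv.swap i j)) := by
    intro i hi j hj hij l hl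
    have h1 := (hk _).2 (hact i hi j hj hij l hl)
    rw [map_add] at h1
    show s' i j (π (φ l)) = -π (φ (l.map (Equiv.swap i j)))
    rw [hs i hi j hj]
    exact eq_neg_of_add_eq_zero_left h1
  have hfam := hF (M ⧸ J) s' C φ' hC alt' tor' act'
  have hcpl : cpl C φ' = fun Y => π (cpl C φ Y) := by
    funext Y
    unfold cpl
    split_ifs with h1
    · rw [map_zsmul]
    · rw [map_zero]
  have key : To s' C (φ' Z) ∈ Spn (cpl C φ') C := by
    by_cases hZn : Z.Nodup
    · have hYn : (C.diff Z).Nodup := hC.diff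
      have hp : (C.diff (C.diff Z)).Perm Z := by
        rw [List.perm_ext_iff_of_nodup hC.diff hZn]
        intro a
        rw [hC.mem_diff_iff, hC.mem_diff_iff]
        constructor
        · rintro ⟨h1, h2⟩
          by_contra h3
          exact h2 ⟨h1, h3⟩
        · intro h1
          exact ⟨hZ a h1, fun h2 => h2.2 h1⟩
      have e1 : cpl C φ' (C.diff Z) = sg (C.diff Z ++ C.diff (C.diff Z)) • φ' (C.diff (C.diff Z)) := by
        unfold cpl
        rw [if_pos hYn]
      have e2 := hX (M ⧸ J) s' C (cpl C φ') hC hfam (C.diff Z) (fun k hk => (hC.mem_diff_iff.1 hk).1)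
      have e3 : φ' Z = cpl C φ' (C.diff Z) ∨ φ' Z = -cpl C φ' (C.diff Z) := by
        have e4 := Alc_perm C φ' alt' hp.symm [] (by simpa using hZ)
        rw [List.nil_append, List.nil_append] at e4
        rw [e1]
        rcases hG.2.2.2 (C.diff Z ++ C.diff (C.diff Z)) with h5 | h5
        · rw [h5, one_zsmul]
          exact e4
        · rw [h5, neg_one_zsmul, neg_neg]
          exact e4.symm
      rcases e3 with e3 | e3
      · rw [e3]
        exact e2
      · rw [e3, map_neg]
        exact neg_mem e2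
    · have e1 : φ' Z = 0 := by
        rw [List.nodup_iff_count_le_one] at hZn
        push Not at hZn
        obtain ⟨a, ha⟩ := hZn
        have ha1 : a ∈ Z := List.count_pos_iff.1 (by omega)
        have hp1 : Z.Perm (a :: Z.erase a) := List.perm_cons_erase ha1
        have ha2 : a ∈ Z.erase a := by
          apply List.count_pos_iff.1
          rw [List.count_erase_self]
          omega
        have hp2 : (Z.erase a).Perm (a :: (Z.erase a).erase a) := List.perm_cons_erase ha2
        have hp : Z.Perm (a :: a :: (Z.erase a).erase a) := hp1.trans (hp2.cons a)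
        have e4 := Alc_perm C φ' alt' hp [] (by simpa using hZ)
        rw [List.nil_append, List.nil_append] at e4
        have hW : ∀ k ∈ (Z.erase a).erase a, k ∈ C := fun k hk =>
          hZ k (List.mem_of_mem_erase (List.mem_of_mem_erase hk))
        have e5 : φ' (a :: a :: (Z.erase a).erase a) = -φ' (a :: a :: (Z.erase a).erase a) :=
          alt' [] _ a (hZ a ha1) a (hZ a ha1) (by simpa using hW)
        have e6 := tor' (a :: a :: (Z.erase a).erase a) (by
          intro k hk
          rw [List.mem_cons, List.mem_cons] at hk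
          rcases hk with rfl | rfl | hk
          · exact hZ _ ha1
          · exact hZ _ ha1
          · exact hW k hk)
        have e7 : φ' (a :: a :: (Z.erase a).erase a) = 0 := by
          set y := φ' (a :: a :: (Z.erase a).erase a) with hy
          have e8 : y + y = 0 := by
            nth_rewrite 1 [e5]
            exact neg_add_cancel y
          have e9 : (3 : ℤ) • y = (y + y) + y := by
            rw [show (3 : ℤ) = 1 + 1 + 1 by norm_num, add_zsmul, add_zsmul, one_zsmul]
          rw [e9, e8, zero_add] at e6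
          exact e6
        rcases e4 with e4 | e4
        · rw [e4, e7]
        · rw [e4, e7, neg_zero]
      rw [e1, map_zero]
      exact zero_mem _
  rw [hcpl] at key
  obtain ⟨m, hm, hm2⟩ := Alc_Spn π (cpl C φ) C key
  have e1 : To s' C (φ' Z) = π (To s C (φ Z)) := Alc_To π s s' C hs C (fun _ h => h) (φ Z)
  rw [e1] at hm2
  have e2 : To s C (φ Z) - m ∈ J := by
    rw [← hk, map_sub, hm2, sub_self]
  rw [AddSubgroup.mem_sup]
  exact ⟨m, hm, To s C (φ Z) - m, e2, by abel⟩

end Pool.Agent.CRS
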