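import Pool.Agent.CRS.StB

/-!
Campaign CRS, p = 3, module Alq: symmetrisation of an alternating family modulo a subgroup.
-/

set_option autoImplicit false

namespace Pool.Agent.CRS

open Pool.Agent.CRR Pool.Agent.CRN Pool.Agent.CRK Pool.Agent.CRL Pool.Agent.CRM Pool.Agent.CRP
open Pool.Agent.CRQ

/-- `A'` is induced by `A` on the quotient. -/
private def Alq_C {M : Type} [AddCommGroup M] (J : AddSubgroup M) (A : AddMonoid.End M)
    (A' : AddMonoid.End (M ⧸ J)) : Prop :=
  ∀ m : M, A' (QuotientAddGroup.mk m : M ⧸ J) = QuotientAddGroup.mk (A m)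

section
variable {M : Type} [AddCommGroup M] {J : AddSubgroup M}

private theorem Alq_one : Alq_C J 1 1 := fun _ => rfl

private theorem Alq_zero : Alq_C J 0 0 := fun _ => rfl

private theorem Alq_add {A B : AddMonoid.End M} {A' B' : AddMonoid.End (M ⧸ J)}
    (h1 : Alq_C J A A') (h2 : Alq_C J B B') : Alq_C J (A + B) (A' + B') := by
  intro m
  show A' (QuotientAddGroup.mk m : M ⧸ J) + B' (QuotientAddGroup.mk m : M ⧸ J) =
    QuotientAddGroup.mk (A m + B m)
  rw [h1 m, h2 m]
  rfl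

private theorem Alq_neg {A : AddMonoid.End M} {A' : AddMonoid.End (M ⧸ J)}
    (h1 : Alq_C J A A') : Alq_C J (-A) (-A') := by
  intro m
  show -(A' (QuotientAddGroup.mk m : M ⧸ J)) = QuotientAddGroup.mk (-(A m))
  rw [h1 m]
  rfl

private theorem Alq_mul {A B : AddMonoid.End M} {A' B' : AddMonoid.End (M ⧸ J)}
    (h1 : Alq_C J A A') (h2 : Alq_C J B B') : Alq_C J (A * B) (A' * B') := by
  intro m
  show A' (B' (QuotientAddGroup.mk m : M ⧸ J)) = QuotientAddGroup.mk (A (B m))
  rw [h2 m, h1]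

private theorem Alq_sum {s : ℕ → AddMonoid.End M} {s' : ℕ → AddMonoid.End (M ⧸ J)}
    (l : List ℕ) (h : ∀ j ∈ l, Alq_C J (s j) (s' j)) :
    Alq_C J (l.map s).sum (l.map s').sum := by
  induction l with
  | nil => exact Alq_zero
  | cons a l ih =>
    rw [List.map_cons, List.map_cons, List.sum_cons, List.sum_cons]
    exact Alq_add (h a List.mem_cons_self) (ih fun j hj => h j (List.mem_cons_of_mem _ hj))

private theorem Alq_Xo {s : ℕ → ℕ → AddMonoid.End M} {s' : ℕ → ℕ → AddMonoid.End (M ⧸ J)}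
    (i : ℕ) (l : List ℕ) (h : ∀ j ∈ l, Alq_C J (s i j) (s' i j)) :
    Alq_C J (Xo s i l) (Xo s' i l) := by
  unfold Xo
  split_ifs with h1 h2
  · exact Alq_one
  · exact Alq_neg (Alq_add Alq_one (Alq_sum l h))
  · have h3 : l.headD 0 ∈ l := by
      cases l with
      | nil => exact absurd (Or.inr rfl) h1
      | cons a l => exact List.mem_cons_self
    exact Alq_mul (Alq_add Alq_one (Alq_mul (Alq_add Alq_one (h _ h3)) (Alq_sum l h)))
      (Alq_neg (Alq_add Alq_one (h _ h3)))

private theorem Alq_To {s : ℕ → ℕ → AddMonoid.End M} {s' : ℕ → ℕ → AddMonoid.End (M ⧸ J)}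
    (B : List ℕ) (h : ∀ i ∈ B, ∀ j ∈ B, Alq_C J (s i j) (s' i j)) :
    Alq_C J (To s B) (To s' B) := by
  induction B with
  | nil => exact Alq_one
  | cons i l ih =>
    show Alq_C J (Xo s i l * To s l) (Xo s' i l * To s' l)
    refine Alq_mul (Alq_Xo i l fun j hj => h i List.mem_cons_self j (List.mem_cons_of_mem _ hj))
      (ih fun a ha b hb => h a (List.mem_cons_of_mem _ ha) b (List.mem_cons_of_mem _ hb))

end

open scoped Classical in
/-- The same modulo a subgroup. -/
theorem thm_Alq (hAlx : St_Alx) : St_Alq := by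
  intro M _ J s B φ hB hJ halt htor hact X hX
  let s' : ℕ → ℕ → AddMonoid.End (M ⧸ J) := fun i j =>
    if h : ∀ m ∈ J, s i j m ∈ J then QuotientAddGroup.map J J (s i j) h else 0
  have hs' : ∀ i ∈ B, ∀ j ∈ B, Alq_C J (s i j) (s' i j) := by
    intro i hi j hj m
    have h1 : s' i j = QuotientAddGroup.map J J (s i j) (hJ i hi j hj) := dif_pos (hJ i hi j hj)
    rw [h1]
    rfl
  have hF : Fam3 s' B (fun l => (QuotientAddGroup.mk (φ l) : M ⧸ J)) := by
    refine ⟨?_, ?_, ?_⟩
    · intro l1 l2 i hi j hj hl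
      have h1 := (QuotientAddGroup.eq_zero_iff _).2 (halt l1 l2 i hi j hj hl)
      rw [QuotientAddGroup.mk_add] at h1
      exact eq_neg_of_add_eq_zero_left h1
    · intro l hl
      have h1 := (QuotientAddGroup.eq_zero_iff _).2 (htor l hl)
      rw [QuotientAddGroup.mk_zsmul] at h1
      exact h1
    · intro i hi j hj hij l hl
      have h1 := (QuotientAddGroup.eq_zero_iff _).2 (hact i hi j hj hij l hl)
      rw [QuotientAddGroup.mk_sub] at h1
      show s' i j (QuotientAddGroup.mk (φ l)) = _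
      rw [hs' i hi j hj]
      exact sub_eq_zero.1 h1
  have h1 := hAlx (M ⧸ J) s' B _ hB hF X hX
  have h2 : To s' B (QuotientAddGroup.mk (φ X) : M ⧸ J) = QuotientAddGroup.mk (To s B (φ X)) :=
    Alq_To B hs' (φ X)
  rw [h2] at h1
  have h3 : Spn (fun l => (QuotientAddGroup.mk (φ l) : M ⧸ J)) B ≤
      (Spn φ B).map (QuotientAddGroup.mk' J) := by
    unfold Spn
    rw [AddSubgroup.closure_le]
    rintro m ⟨t, ht, rfl⟩
    refine ⟨(t.2.map φ).sum, AddSubgroup.subset_closure ⟨t, ht, rfl⟩, ?_⟩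
    rw [map_list_sum, List.map_map]
    rfl
  obtain ⟨y, hy, hy2⟩ := h3 h1
  have h4 : To s B (φ X) - y ∈ J := by
    rw [← QuotientAddGroup.eq_zero_iff, QuotientAddGroup.mk_sub, sub_eq_zero]
    exact hy2.symm
  have h5 : To s B (φ X) = y + (To s B (φ X) - y) := by abel
  rw [h5]
  exact AddSubgroup.add_mem_sup hy h4

end Pool.Agent.CRS
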