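import Pool.Agent.CRS.StB

/-!
Campaign CRS: the proof of `St_Alx` (symmetrisation of alternating families).
-/

set_option autoImplicit false

namespace Pool.Agent.CRS

section

variable {M : Type} [AddCommGroup M]

private theorem Alx_move {s : ℕ → ℕ → AddMonoid.End M} {B : List ℕ} {φ : List ℕ → M}
    (h : Fam3 s B φ) (i : ℕ) (hi : i ∈ B) :
    ∀ (l1 p l2 : List ℕ), (∀ k ∈ p ++ (l1 ++ l2), k ∈ B) →
      φ (p ++ (l1 ++ i :: l2)) = φ (p ++ i :: (l1 ++ l2)) ∨
        φ (p ++ (l1 ++ i :: l2)) = -φ (p ++ i :: (l1 ++ l2)) := by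
  intro l1
  induction l1 with
  | nil => intro p l2 _; left; rfl
  | cons a l ih =>
    intro p l2 hk
    have ha : a ∈ B := hk a (by simp)
    have h1 := ih (p ++ [a]) l2 (by
      intro k hk'
      apply hk
      simp only [List.mem_append, List.mem_cons, List.not_mem_nil, or_false] at hk' ⊢
      tauto)
    have h2 := h.alt p (l ++ l2) a ha i hi (by
      intro k hk'
      apply hk
      simp only [List.mem_append, List.mem_cons] at hk' ⊢
      tauto)
    have e1 : p ++ (a :: l ++ i :: l2) = p ++ [a] ++ (l ++ i :: l2) := by simp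
    have e2 : p ++ [a] ++ i :: (l ++ l2) = p ++ a :: i :: (l ++ l2) := by simp
    have e3 : p ++ i :: (a :: l ++ l2) = p ++ i :: a :: (l ++ l2) := by simp
    rw [e1, e3]
    rw [e2] at h1
    rcases h1 with h1 | h1
    · right; rw [h1, h2]
    · left; rw [h1, h2, neg_neg]

private theorem Alx_zero {s : ℕ → ℕ → AddMonoid.End M} {B : List ℕ} {φ : List ℕ → M}
    (h : Fam3 s B φ) (i : ℕ) (hi : i ∈ B) (Y : List ℕ) (hY : ∀ k ∈ Y, k ∈ B) (hm : i ∈ Y) :
    φ (i :: Y) = 0 := by
  obtain ⟨l1, l2, rfl⟩ := List.append_of_mem hm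
  have hall : ∀ k ∈ l1 ++ l2, k ∈ B := by
    intro k hk
    apply hY
    simp only [List.mem_append, List.mem_cons] at hk ⊢
    tauto
  have h0 : φ (i :: i :: (l1 ++ l2)) = 0 := by
    have h1 := h.alt [] (l1 ++ l2) i hi i hi (by simpa using hall)
    have h3 := h.tor (i :: i :: (l1 ++ l2)) (by
      intro k hk
      rcases List.mem_cons.mp hk with rfl | hk
      · exact hi
      rcases List.mem_cons.mp hk with rfl | hk
      · exact hi
      · exact hall k hk)
    simp only [List.nil_append] at h1
    generalize φ (i :: i :: (l1 ++ l2)) = v at h1 h3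
    have h4 : v + v = 0 := by
      nth_rewrite 1 [h1]
      simp
    have h5 : (3 : ℤ) • v = (v + v) + v := by
      rw [show (3 : ℤ) = 1 + 1 + 1 by norm_num, add_smul, add_smul, one_smul]
    rw [h5, h4, zero_add] at h3
    exact h3
  have h1 := Alx_move h i hi l1 [i] l2 (by
    intro k hk
    rcases List.mem_append.mp hk with hk | hk
    · have : k = i := by simpa using hk
      rw [this]; exact hi
    · exact hall k hk)
  simp only [List.singleton_append] at h1
  rcases h1 with h1 | h1
  · rw [h1, h0]
  · rw [h1, h0, neg_zero]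

private theorem Alx_fam {s : ℕ → ℕ → AddMonoid.End M} {i : ℕ} {l : List ℕ} {φ : List ℕ → M}
    (h : Fam3 s (i :: l) φ) : Fam3 s l φ where
  alt := fun l1 l2 a ha b hb hk => h.alt l1 l2 a (List.mem_cons_of_mem _ ha) b (List.mem_cons_of_mem _ hb)
    (fun k hk' => List.mem_cons_of_mem _ (hk k hk'))
  tor := fun X hX => h.tor X (fun k hk => List.mem_cons_of_mem _ (hX k hk))
  act := fun a ha b hb hab X hX => h.act a (List.mem_cons_of_mem _ ha) b (List.mem_cons_of_mem _ hb) hab X
    (fun k hk => List.mem_cons_of_mem _ (hX k hk))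

private theorem Alx_fam' {s : ℕ → ℕ → AddMonoid.End M} {i : ℕ} {l : List ℕ} {φ : List ℕ → M}
    (hn : (i :: l).Nodup) (h : Fam3 s (i :: l) φ) : Fam3 s l (fun X => φ (i :: X)) where
  alt := fun l1 l2 a ha b hb hk => h.alt (i :: l1) l2 a (List.mem_cons_of_mem _ ha) b
    (List.mem_cons_of_mem _ hb)
    (fun k hk' => by
      rw [List.cons_append] at hk'
      rcases List.mem_cons.mp hk' with rfl | hk'
      · exact List.mem_cons_self
      · exact List.mem_cons_of_mem _ (hk k hk'))
  tor := fun X hX => h.tor (i :: X) (fun k hk' => by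
      rcases List.mem_cons.mp hk' with rfl | hk'
      · exact List.mem_cons_self
      · exact List.mem_cons_of_mem _ (hX k hk'))
  act := fun a ha b hb hab X hX => by
    have h1 := h.act a (List.mem_cons_of_mem _ ha) b (List.mem_cons_of_mem _ hb) hab (i :: X) (fun k hk' => by
      rcases List.mem_cons.mp hk' with rfl | hk'
      · exact List.mem_cons_self
      · exact List.mem_cons_of_mem _ (hX k hk'))
    have hi : i ∉ l := (List.nodup_cons.mp hn).1
    have hia : i ≠ a := fun e => hi (e ▸ ha)
    have hib : i ≠ b := fun e => hi (e ▸ hb)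
    rw [h1, List.map_cons, Equiv.swap_apply_of_ne_of_ne hia hib]

end

theorem thm_Alx (hAly : St_Aly) (hAlz : St_Alz) : St_Alx := by
  intro M _ s B
  induction B with
  | nil =>
    intro φ _ _ X hX
    have hX0 : X = [] := List.eq_nil_iff_forall_not_mem.mpr (fun k hk => by simpa using hX k hk)
    subst hX0
    refine AddSubgroup.subset_closure ⟨(0, [[]]), by simp [yt], ?_⟩
    simp [To]
  | cons i l ih =>
    intro φ hB hF X hX
    have hiB : i ∈ i :: l := List.mem_cons_self
    have hl : l.Nodup := (List.nodup_cons.mp hB).2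
    have hTo : ∀ m : M, To s (i :: l) m = Xo s i l (To s l m) := fun m => rfl
    by_cases hiX : i ∈ X
    · obtain ⟨l1, l2, rfl⟩ := List.append_of_mem hiX
      have hall : ∀ k ∈ l1 ++ l2, k ∈ i :: l := by
        intro k hk
        apply hX
        simp only [List.mem_append, List.mem_cons] at hk ⊢
        tauto
      have key : To s (i :: l) (φ (i :: (l1 ++ l2))) ∈ Spn φ (i :: l) := by
        by_cases hi2 : i ∈ l1 ++ l2
        · rw [Alx_zero hF i hiB _ hall hi2, map_zero]
          exact AddSubgroup.zero_mem _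
        · have hall' : ∀ k ∈ l1 ++ l2, k ∈ l := by
            intro k hk
            rcases List.mem_cons.mp (hall k hk) with rfl | h
            · exact absurd hk hi2
            · exact h
          rw [hTo]
          exact hAlz M s i l φ hB hF _ (ih (fun X => φ (i :: X)) hl (Alx_fam' hB hF) (l1 ++ l2) hall')
      have hm := Alx_move hF i hiB l1 [] l2 (by simpa using hall)
      simp only [List.nil_append] at hm
      rcases hm with hm | hm
      · rw [hm]; exact key
      · rw [hm, map_neg]; exact AddSubgroup.neg_mem _ key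
    · have hX' : ∀ k ∈ X, k ∈ l := by
        intro k hk
        rcases List.mem_cons.mp (hX k hk) with rfl | h
        · exact absurd hk hiX
        · exact h
      rw [hTo]
      exact hAly M s i l φ hB hF _ (ih φ hl (Alx_fam hF) X hX')

end Pool.Agent.CRS
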