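import Pool.Agent.CRS.StB

/-!
Campaign CRS, module Aly: one step of the symmetrisation, family without `i` (problem MP_1bb14d_al, stage 7).
-/

set_option autoImplicit false

open scoped BigOperators

namespace Pool.Agent.CRS

open Pool.Agent.CRR Pool.Agent.CRN Pool.Agent.CRK Pool.Agent.CRL Pool.Agent.CRM Pool.Agent.CRP
open Pool.Agent.CRQ

section

variable {M : Type} [AddCommGroup M]

private theorem aly_app (s : ℕ → AddMonoid.End M) (l : List ℕ) (m : M) :
    (l.map s).sum m = (l.map fun j => s j m).sum := by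
  induction l with
  | nil => rfl
  | cons j l ih =>
    rw [List.map_cons, List.sum_cons, List.map_cons, List.sum_cons, ← ih]
    rfl

private theorem aly_app' (s : ℕ → AddMonoid.End M) (l : List ℕ) (hl : l.Nodup) (m : M) :
    (l.map s).sum m = ∑ j ∈ l.toFinset, s j m := by
  rw [aly_app, List.sum_toFinset _ hl]

private theorem aly_swap (L : Finset ℕ) (F : ℕ → M) (i j : ℕ) (hi : i ∉ L) (hj : j ∈ L) :
    ∑ k ∈ L, F (Equiv.swap i j k) = ∑ k ∈ L, F k - F j + F i := by
  rw [← Finset.add_sum_erase L _ hj, ← Finset.add_sum_erase L F hj, Equiv.swap_apply_right]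
  have h : ∑ k ∈ L.erase j, F (Equiv.swap i j k) = ∑ k ∈ L.erase j, F k := by
    refine Finset.sum_congr rfl fun k hk => ?_
    rw [Equiv.swap_apply_of_ne_of_ne]
    · rintro rfl
      exact hi (Finset.mem_of_mem_erase hk)
    · exact Finset.ne_of_mem_erase hk
  rw [h]
  abel

private theorem aly_swap' (L : Finset ℕ) (F : ℕ → M) (i j : ℕ) (hi : i ∉ L) (hj : j ∉ L) :
    ∑ k ∈ L, F (Equiv.swap i j k) = ∑ k ∈ L, F k := by
  refine Finset.sum_congr rfl fun k hk => ?_
  rw [Equiv.swap_apply_of_ne_of_ne]
  · rintro rfl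
    exact hi hk
  · rintro rfl
    exact hj hk

private theorem aly_mod (c : M) (h : (3 : ℤ) • c = 0) (n r : ℕ) (hr : n % 3 = r) : n • c = r • c := by
  have h1 : n = 3 * (n / 3) + r := by omega
  have h2 : (3 : ℕ) • c = 0 := by
    rw [← h, ← natCast_zsmul]
    rfl
  conv_lhs => rw [h1]
  rw [add_smul, mul_comm, mul_smul, h2, smul_zero, zero_add]

private theorem aly_two (x : M) (h : x = -x) (h3 : (3 : ℤ) • x = 0) : x = 0 := by
  have h1 : x = (3 : ℤ) • x - (x + x) := by abel
  have h2 : x + x = 0 := by
    nth_rewrite 1 [h]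
    exact neg_add_cancel x
  rw [h1, h3, h2, sub_zero]

private theorem aly_X1 (s : ℕ → ℕ → AddMonoid.End M) (i : ℕ) (l : List ℕ) (h : l.length % 3 = 1) (m : M) :
    Xo s i l m = -(m + (l.map (s i)).sum m) := by
  have h1 : ¬ (l.length % 3 = 2 ∨ l = []) := by
    rintro (h2 | h2)
    · omega
    · rw [h2] at h
      simp at h
  unfold Xo
  rw [if_neg h1, if_pos h]
  rfl

private theorem aly_X3 (s : ℕ → ℕ → AddMonoid.End M) (i j0 : ℕ) (l : List ℕ) (h : (j0 :: l).length % 3 = 0) (m y : M)
    (hy : y = -(m + s i j0 m)) :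
    Xo s i (j0 :: l) m = y + (((j0 :: l).map (s i)).sum y + s i j0 (((j0 :: l).map (s i)).sum y)) := by
  have h1 : ¬ ((j0 :: l).length % 3 = 2 ∨ (j0 :: l) = []) := by
    rintro (h2 | h2)
    · omega
    · exact absurd h2 (List.cons_ne_nil _ _)
  have h2 : ¬ ((j0 :: l).length % 3 = 1) := by omega
  unfold Xo
  rw [if_neg h1, if_neg h2, hy]
  rfl

end

theorem thm_Aly : St_Aly := by
  intro M _ s i l φ hnd hF m hm
  have hil : i ∉ l := (List.nodup_cons.1 hnd).1
  have hl : l.Nodup := (List.nodup_cons.1 hnd).2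
  have hact0 : ∀ j ∈ l, s i j (φ []) = φ [] := fun j hj =>
    hF.act i List.mem_cons_self j (List.mem_cons_of_mem _ hj) (fun h => hil (h ▸ hj)) [] (by simp)
  have hact1 : ∀ j ∈ l, ∀ k ∈ i :: l, s i j (φ [k]) = φ [Equiv.swap i j k] := fun j hj k hk =>
    hF.act i List.mem_cons_self j (List.mem_cons_of_mem _ hj) (fun h => hil (h ▸ hj)) [k] (by
      intro k' hk'
      rw [List.mem_singleton] at hk'
      rw [hk']
      exact hk)
  have hact2 : ∀ j ∈ l, ∀ k ∈ i :: l, ∀ k' ∈ i :: l,
      s i j (φ [k, k']) = φ [Equiv.swap i j k, Equiv.swap i j k'] := fun j hj k hk k' hk' =>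
    hF.act i List.mem_cons_self j (List.mem_cons_of_mem _ hj) (fun h => hil (h ▸ hj)) [k, k'] (by
      intro k'' hk''
      simp only [List.mem_cons, List.not_mem_nil, or_false] at hk''
      rcases hk'' with rfl | rfl
      · exact hk
      · exact hk')
  have htor0 : (3 : ℤ) • φ [] = 0 := hF.tor [] (by simp)
  have htor1 : ∀ k ∈ i :: l, (3 : ℤ) • φ [k] = 0 := fun k hk => hF.tor [k] (by
    intro k' hk'
    rw [List.mem_singleton] at hk'
    rw [hk']
    exact hk)
  have htor2 : ∀ k ∈ i :: l, ∀ k' ∈ i :: l, (3 : ℤ) • φ [k, k'] = 0 := fun k hk k' hk' => hF.tor [k, k'] (by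
    intro k'' hk''
    simp only [List.mem_cons, List.not_mem_nil, or_false] at hk''
    rcases hk'' with rfl | rfl
    · exact hk
    · exact hk')
  have halt : ∀ k ∈ i :: l, ∀ k' ∈ i :: l, φ [k, k'] = -φ [k', k] := fun k hk k' hk' =>
    hF.alt [] [] k hk k' hk' (by simp)
  -- members of the span
  have hg0 : φ [] ∈ Spn φ (i :: l) := by
    refine AddSubgroup.subset_closure ⟨(0, [[]]), ?_, ?_⟩
    · simp [yt]
    · simp
  have hg1 : φ [i] + ∑ k ∈ l.toFinset, φ [k] ∈ Spn φ (i :: l) := by
    refine AddSubgroup.subset_closure ⟨(1, (i :: l).map fun j => [j]), ?_, ?_⟩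
    · simp [yt]
    · rw [List.sum_toFinset _ hl]
      simp [Function.comp_def]
  have hili : i ∉ l.toFinset := fun h => hil (List.mem_toFinset.1 h)
  -- the action on the sum of the members
  have hcard : l.toFinset.card = l.length := List.toFinset_card_of_nodup hl
  have hσt : (3 : ℤ) • ∑ k ∈ l.toFinset, φ [k] = 0 := by
    rw [Finset.smul_sum]
    exact Finset.sum_eq_zero fun k hk => htor1 k (List.mem_cons_of_mem _ (List.mem_toFinset.1 hk))
  have hsσ : ∀ j ∈ l, s i j (∑ k ∈ l.toFinset, φ [k]) = ∑ k ∈ l.toFinset, φ [k] - φ [j] + φ [i] := by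
    intro j hj
    rw [map_sum, ← aly_swap l.toFinset (fun k => φ [k]) i j hili (List.mem_toFinset.2 hj)]
    exact Finset.sum_congr rfl fun k hk => hact1 j hj k (List.mem_cons_of_mem _ (List.mem_toFinset.1 hk))
  have hA0 : (l.map (s i)).sum (φ []) = l.length • φ [] := by
    rw [aly_app' _ _ hl, Finset.sum_congr rfl fun j hj => hact0 j (List.mem_toFinset.1 hj),
      Finset.sum_const, hcard]
  have hAσ : (l.map (s i)).sum (∑ k ∈ l.toFinset, φ [k]) =
      l.length • ∑ k ∈ l.toFinset, φ [k] - ∑ k ∈ l.toFinset, φ [k] + l.length • φ [i] := by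
    rw [aly_app' _ _ hl, Finset.sum_congr rfl fun j hj => hsσ j (List.mem_toFinset.1 hj),
      Finset.sum_add_distrib, Finset.sum_sub_distrib, Finset.sum_const, Finset.sum_const, hcard]
  -- generators
  refine AddSubgroup.closure_induction (p := fun m _ => Xo s i l m ∈ Spn φ (i :: l)) ?_ ?_ ?_ ?_ hm
  · rintro x ⟨t, ht, rfl⟩
    cases l with
    | nil =>
      simp only [yt, List.mem_singleton] at ht
      subst ht
      have h1 : Xo s i ([] : List ℕ) = 1 := by simp [Xo]
      rw [h1]
      simpa using hg0
    | cons j0 l' =>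
      have hj0l' : j0 ∉ l' := (List.nodup_cons.1 hl).1
      have hl' : l'.Nodup := (List.nodup_cons.1 hl).2
      have hj0 : j0 ∈ j0 :: l' := List.mem_cons_self
      have hsum : ((((j0 :: l').map fun j => [j])).map φ).sum = ∑ k ∈ (j0 :: l').toFinset, φ [k] := by
        rw [List.map_map, List.sum_toFinset _ hl]
        rfl
      have hlen : (j0 :: l').length = l'.length + 1 := rfl
      have ht' : (t = (0, [[]]) ∨ t = (1, (j0 :: l').map fun j => [j])) ∨
          (l'.length % 3 = 2 ∧ (t = (1, [[j0]]) ∨ t = (2, l'.map fun j => [j, j0]))) := by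
        simp only [yt, List.mem_append, List.mem_cons, List.not_mem_nil, or_false] at ht
        rcases ht with h | h
        · exact Or.inl h
        · right
          split_ifs at h with h2
          · simp only [List.mem_cons, List.not_mem_nil, or_false] at h
            exact ⟨h2, h⟩
          · exact absurd h (List.not_mem_nil)
      have hmod : l'.length % 3 = 0 ∨ l'.length % 3 = 1 ∨ l'.length % 3 = 2 := by omega
      rcases hmod with hmod | hmod | hmod
      · -- `m = 1` modulo 3
        have hm1 : (j0 :: l').length % 3 = 1 := by omega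
        rw [aly_X1 s i _ hm1]
        rcases ht' with (rfl | rfl) | ⟨h, -⟩
        · have h1 : (([[]] : List (List ℕ)).map φ).sum = φ [] := by simp
          show -((([[]] : List (List ℕ)).map φ).sum + _) ∈ _
          rw [h1, hA0, aly_mod _ htor0 _ 1 hm1]
          have h2 : -(φ [] + 1 • φ []) = φ [] - (3 : ℤ) • φ [] := by
            rw [one_smul]
            abel
          rw [h2, htor0, sub_zero]
          exact hg0
        · show -(((((j0 :: l').map fun j => [j])).map φ).sum + _) ∈ _
          rw [hsum, hAσ, aly_mod _ hσt _ 1 hm1, aly_mod _ (htor1 i List.mem_cons_self) _ 1 hm1]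
          have h2 : -(∑ k ∈ (j0 :: l').toFinset, φ [k] + (1 • ∑ k ∈ (j0 :: l').toFinset, φ [k] -
              ∑ k ∈ (j0 :: l').toFinset, φ [k] + 1 • φ [i])) =
              -(φ [i] + ∑ k ∈ (j0 :: l').toFinset, φ [k]) := by
            rw [one_smul, one_smul]
            abel
          rw [h2]
          exact AddSubgroup.neg_mem _ hg1
        · omega
      · -- `m = 2` modulo 3
        have hm2 : (j0 :: l').length % 3 = 2 := by omega
        have h1 : Xo s i (j0 :: l') = 1 := by
          unfold Xo
          rw [if_pos (Or.inl hm2)]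
        rw [h1]
        have hgi : φ [i] ∈ Spn φ (i :: j0 :: l') := by
          refine AddSubgroup.subset_closure ⟨(1, [[i]]), ?_, ?_⟩
          · rw [yt, if_pos hm2]
            simp
          · simp
        rcases ht' with (rfl | rfl) | ⟨h, -⟩
        · simpa using hg0
        · show ((((j0 :: l').map fun j => [j])).map φ).sum ∈ _
          rw [hsum]
          have h2 : ∑ k ∈ (j0 :: l').toFinset, φ [k] =
              (φ [i] + ∑ k ∈ (j0 :: l').toFinset, φ [k]) - φ [i] := by abel
          rw [h2]
          exact AddSubgroup.sub_mem _ hg1 hgi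
        · omega
      · -- `m = 0` modulo 3
        have hm0 : (j0 :: l').length % 3 = 0 := by omega
        have hij0 : i ≠ j0 := fun h => hil (h ▸ hj0)
        have hiL' : i ∉ l'.toFinset := fun h => hil (List.mem_cons_of_mem _ (List.mem_toFinset.1 h))
        have hj0L' : j0 ∉ l'.toFinset := fun h => hj0l' (List.mem_toFinset.1 h)
        have hcard' : l'.toFinset.card = l'.length := List.toFinset_card_of_nodup hl'
        have hLL : (j0 :: l').toFinset = insert j0 l'.toFinset := List.toFinset_cons
        have hmi : i ∈ i :: j0 :: l' := List.mem_cons_self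
        have hmj : j0 ∈ i :: j0 :: l' := List.mem_cons_of_mem _ hj0
        have hml : ∀ k ∈ l'.toFinset, k ∈ j0 :: l' := fun k hk => List.mem_cons_of_mem _ (List.mem_toFinset.1 hk)
        have hml2 : ∀ k ∈ l'.toFinset, k ∈ i :: j0 :: l' := fun k hk => List.mem_cons_of_mem _ (hml k hk)
        -- the action of `a` on a sum of images
        have hsplit : ∀ y : M, ((j0 :: l').map (s i)).sum y = s i j0 y + ∑ j ∈ l'.toFinset, s i j y := by
          intro y
          rw [aly_app' _ _ hl, hLL, Finset.sum_insert hj0L']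
        have hti := htor1 i hmi
        have htj := htor1 j0 hmj
        -- `s = s i j0`
        have hsi : s i j0 (φ [i]) = φ [j0] := by
          rw [hact1 j0 hj0 i hmi, Equiv.swap_apply_left]
        have hsj : s i j0 (φ [j0]) = φ [i] := by
          rw [hact1 j0 hj0 j0 hmj, Equiv.swap_apply_right]
        have hsσ0 := hsσ j0 hj0
        -- `a`
        have hAi : ((j0 :: l').map (s i)).sum (φ [i]) = ∑ k ∈ (j0 :: l').toFinset, φ [k] := by
          rw [aly_app' _ _ hl]
          refine Finset.sum_congr rfl fun j hj => ?_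
          rw [hact1 j (List.mem_toFinset.1 hj) i hmi, Equiv.swap_apply_left]
        have hAj : ((j0 :: l').map (s i)).sum (φ [j0]) = φ [i] + 2 • φ [j0] := by
          rw [hsplit, hsj]
          congr 1
          rw [← aly_mod _ htj l'.length 2 hmod, ← hcard', ← Finset.sum_const]
          refine Finset.sum_congr rfl fun j hj => ?_
          rw [hact1 j (hml j hj) j0 hmj, Equiv.swap_apply_of_ne_of_ne hij0.symm]
          rintro rfl
          exact hj0L' hj
        have hAσ0 : ((j0 :: l').map (s i)).sum (∑ k ∈ (j0 :: l').toFinset, φ [k]) =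
            -∑ k ∈ (j0 :: l').toFinset, φ [k] := by
          rw [hAσ, aly_mod _ hσt _ 0 hm0, aly_mod _ hti _ 0 hm0, zero_smul, zero_smul]
          abel
        rcases ht' with (rfl | rfl) | ⟨-, rfl | rfl⟩
        · -- `e`
          have h1 : (([[]] : List (List ℕ)).map φ).sum = φ [] := by simp
          have hy : -(φ [] + s i j0 (φ [])) = φ [] := by
            rw [hact0 j0 hj0]
            have h2 : -(φ [] + φ []) = φ [] - (3 : ℤ) • φ [] := by abel
            rw [h2, htor0, sub_zero]
          show Xo s i (j0 :: l') ((([[]] : List (List ℕ)).map φ).sum) ∈ _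
          rw [h1, aly_X3 s i j0 l' hm0 (φ []) (φ []) hy.symm, hA0, aly_mod _ htor0 _ 0 hm0, zero_smul,
            map_zero, add_zero, add_zero]
          exact hg0
        · -- `σ`
          show Xo s i (j0 :: l') (((((j0 :: l').map fun j => [j])).map φ).sum) ∈ _
          rw [hsum]
          obtain ⟨σ, hσ⟩ : ∃ σ : M, σ = ∑ k ∈ (j0 :: l').toFinset, φ [k] := ⟨_, rfl⟩
          rw [← hσ] at hσt hsσ0 hAi hAσ0 ⊢
          have hy : σ + φ [j0] - φ [i] = -(σ + s i j0 σ) := by
            rw [hsσ0]
            have h2 : -(σ + (σ - φ [j0] + φ [i])) = (σ + φ [j0] - φ [i]) - (3 : ℤ) • σ := by abel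
            rw [h2, hσt, sub_zero]
          rw [aly_X3 s i j0 l' hm0 σ _ hy]
          have hAu : ((j0 :: l').map (s i)).sum (σ + φ [j0] - φ [i]) = σ + φ [i] - φ [j0] := by
            rw [map_sub, map_add, hAσ0, hAj, hAi]
            have h2 : -σ + (φ [i] + 2 • φ [j0]) - σ =
                (σ + φ [i] - φ [j0]) - (3 : ℤ) • σ + (3 : ℤ) • φ [j0] := by abel
            rw [h2, hσt, htj, sub_zero, add_zero]
          rw [hAu, map_sub, map_add, hsσ0, hsi, hsj]
          have h2 : σ + φ [j0] - φ [i] + (σ + φ [i] - φ [j0] + (σ - φ [j0] + φ [i] + φ [j0] - φ [i])) =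
              (3 : ℤ) • σ := by abel
          rw [h2, hσt]
          exact AddSubgroup.zero_mem _
        · -- `φ [j0]`
          have h1 : (([[j0]] : List (List ℕ)).map φ).sum = φ [j0] := by simp
          show Xo s i (j0 :: l') ((([[j0]] : List (List ℕ)).map φ).sum) ∈ _
          rw [h1]
          obtain ⟨σ, hσ⟩ : ∃ σ : M, σ = ∑ k ∈ (j0 :: l').toFinset, φ [k] := ⟨_, rfl⟩
          rw [← hσ] at hσt hsσ0 hAi hg1
          have hy : -(φ [j0] + φ [i]) = -(φ [j0] + s i j0 (φ [j0])) := by rw [hsj]
          rw [aly_X3 s i j0 l' hm0 (φ [j0]) _ hy]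
          have hAu : ((j0 :: l').map (s i)).sum (-(φ [j0] + φ [i])) = -(σ + φ [i] + 2 • φ [j0]) := by
            rw [map_neg, map_add, hAj, hAi]
            congr 1
            abel
          rw [hAu, map_neg, map_add, map_add, map_nsmul, hsσ0, hsi, hsj]
          have h2 : -(φ [j0] + φ [i]) + (-(σ + φ [i] + 2 • φ [j0]) +
              -(σ - φ [j0] + φ [i] + φ [j0] + 2 • φ [i])) =
              (φ [i] + σ) - (3 : ℤ) • σ - (3 : ℤ) • φ [i] - (3 : ℤ) • φ [i] - (3 : ℤ) • φ [j0] := by abel
          rw [h2, hσt, hti, htj, sub_zero, sub_zero, sub_zero, sub_zero]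
          exact hg1
        · -- `κ`
          have hsumκ : (((l'.map fun j => [j, j0])).map φ).sum = ∑ k ∈ l'.toFinset, φ [k, j0] := by
            rw [List.map_map, List.sum_toFinset _ hl']
            rfl
          show Xo s i (j0 :: l') ((((l'.map fun j => [j, j0])).map φ).sum) ∈ _
          rw [hsumκ]
          have hs0 : s i j0 (∑ k ∈ l'.toFinset, φ [k, j0]) = ∑ k ∈ l'.toFinset, φ [k, i] := by
            rw [map_sum]
            refine Finset.sum_congr rfl fun k hk => ?_
            rw [hact2 j0 hj0 k (hml2 k hk) j0 hmj, Equiv.swap_apply_right, Equiv.swap_apply_of_ne_of_ne]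
            · rintro rfl
              exact hiL' hk
            · rintro rfl
              exact hj0L' hk
          have hsi' : s i j0 (∑ k ∈ l'.toFinset, φ [k, i]) = ∑ k ∈ l'.toFinset, φ [k, j0] := by
            rw [map_sum]
            refine Finset.sum_congr rfl fun k hk => ?_
            rw [hact2 j0 hj0 k (hml2 k hk) i hmi, Equiv.swap_apply_left, Equiv.swap_apply_of_ne_of_ne]
            · rintro rfl
              exact hiL' hk
            · rintro rfl
              exact hj0L' hk
          have ht0 : (3 : ℤ) • ∑ k ∈ l'.toFinset, φ [k, j0] = 0 := by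
            rw [Finset.smul_sum]
            exact Finset.sum_eq_zero fun k hk => htor2 k (hml2 k hk) j0 hmj
          have hti' : (3 : ℤ) • ∑ k ∈ l'.toFinset, φ [k, i] = 0 := by
            rw [Finset.smul_sum]
            exact Finset.sum_eq_zero fun k hk => htor2 k (hml2 k hk) i hmi
          have hdiag : ∀ j ∈ l'.toFinset, φ [j, j] = 0 := fun j hj =>
            aly_two _ (halt j (hml2 j hj) j (hml2 j hj)) (htor2 j (hml2 j hj) j (hml2 j hj))
          have hT : ∑ j ∈ l'.toFinset, ∑ k ∈ l'.toFinset, φ [k, j] = 0 := by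
            refine aly_two _ ?_ ?_
            · conv_rhs => rw [Finset.sum_comm]
              rw [← Finset.sum_neg_distrib]
              refine Finset.sum_congr rfl fun j hj => ?_
              rw [← Finset.sum_neg_distrib]
              exact Finset.sum_congr rfl fun k hk => halt k (hml2 k hk) j (hml2 j hj)
            · rw [Finset.smul_sum]
              refine Finset.sum_eq_zero fun j hj => ?_
              rw [Finset.smul_sum]
              exact Finset.sum_eq_zero fun k hk => htor2 k (hml2 k hk) j (hml2 j hj)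
          have hij : ∑ j ∈ l'.toFinset, φ [i, j] = -∑ k ∈ l'.toFinset, φ [k, i] := by
            rw [← Finset.sum_neg_distrib]
            exact Finset.sum_congr rfl fun k hk => halt i hmi k (hml2 k hk)
          have hAKi : ((j0 :: l').map (s i)).sum (∑ k ∈ l'.toFinset, φ [k, i]) =
              ∑ k ∈ l'.toFinset, φ [k, j0] - ∑ k ∈ l'.toFinset, φ [k, i] := by
            rw [hsplit, hsi']
            have h1 : ∀ j ∈ l'.toFinset, s i j (∑ k ∈ l'.toFinset, φ [k, i]) =
                ∑ k ∈ l'.toFinset, φ [k, j] + φ [i, j] := by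
              intro j hj
              have h2 := aly_swap l'.toFinset (fun k => φ [k, j]) i j hiL' hj
              rw [hdiag j hj, sub_zero] at h2
              rw [← h2, map_sum]
              refine Finset.sum_congr rfl fun k hk => ?_
              rw [hact2 j (hml j hj) k (hml2 k hk) i hmi, Equiv.swap_apply_left]
            rw [Finset.sum_congr rfl h1, Finset.sum_add_distrib, hT, hij]
            abel
          have htij : (3 : ℤ) • φ [i, j0] = 0 := htor2 i hmi j0 hmj
          have hAK0 : ((j0 :: l').map (s i)).sum (∑ k ∈ l'.toFinset, φ [k, j0]) =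
              ∑ k ∈ l'.toFinset, φ [k, i] + ∑ k ∈ l'.toFinset, φ [k, j0] + 2 • φ [i, j0] := by
            rw [hsplit, hs0]
            have h1 : ∀ j ∈ l'.toFinset, s i j (∑ k ∈ l'.toFinset, φ [k, j0]) =
                ∑ k ∈ l'.toFinset, φ [k, j0] - φ [j, j0] + φ [i, j0] := by
              intro j hj
              have h2 := aly_swap l'.toFinset (fun k => φ [k, j0]) i j hiL' hj
              rw [← h2, map_sum]
              refine Finset.sum_congr rfl fun k hk => ?_
              rw [hact2 j (hml j hj) k (hml2 k hk) j0 hmj, Equiv.swap_apply_of_ne_of_ne (a := i) (b := j) (x := j0)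
                hij0.symm]
              rintro rfl
              exact hj0L' hj
            rw [Finset.sum_congr rfl h1, Finset.sum_add_distrib, Finset.sum_sub_distrib, Finset.sum_const,
              Finset.sum_const, hcard', aly_mod _ ht0 _ 2 hmod, aly_mod _ htij _ 2 hmod]
            abel
          have hsij : s i j0 (φ [i, j0]) = -φ [i, j0] := by
            rw [hact2 j0 hj0 i hmi j0 hmj, Equiv.swap_apply_left, Equiv.swap_apply_right]
            exact halt j0 hmj i hmi
          obtain ⟨K0, hK0⟩ : ∃ K : M, K = ∑ k ∈ l'.toFinset, φ [k, j0] := ⟨_, rfl⟩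
          obtain ⟨Ki, hKi⟩ : ∃ K : M, K = ∑ k ∈ l'.toFinset, φ [k, i] := ⟨_, rfl⟩
          rw [← hK0, ← hKi] at hs0 hsi' hAKi hAK0
          rw [← hK0] at ht0 ⊢
          rw [← hKi] at hti'
          have hy : -(K0 + Ki) = -(K0 + s i j0 K0) := by rw [hs0]
          rw [aly_X3 s i j0 l' hm0 K0 _ hy]
          have hAu : ((j0 :: l').map (s i)).sum (-(K0 + Ki)) = -(2 • K0 + 2 • φ [i, j0]) := by
            rw [map_neg, map_add, hAK0, hAKi]
            congr 1
            abel
          rw [hAu, map_neg, map_add, map_nsmul, map_nsmul, hs0, hsij]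
          have h2 : -(K0 + Ki) + (-(2 • K0 + 2 • φ [i, j0]) + -(2 • Ki + 2 • -φ [i, j0])) =
              -((3 : ℤ) • K0) - (3 : ℤ) • Ki := by abel
          rw [h2, ht0, hti', neg_zero, sub_zero]
          exact AddSubgroup.zero_mem _
  · rw [map_zero]
    exact AddSubgroup.zero_mem _
  · intro x y _ _ hx hy
    rw [map_add]
    exact AddSubgroup.add_mem _ hx hy
  · intro x _ hx
    rw [map_neg]
    exact AddSubgroup.neg_mem _ hx

end Pool.Agent.CRS
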