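import Pool.Agent.CRS.StB

/-!
# CRS, Alz: one step of the symmetrisation, on the family with `i`
-/

set_option autoImplicit false

namespace Pool.Agent.CRS

variable {M : Type} [AddCommGroup M]

private theorem Alz_app (s : ℕ → ℕ → AddMonoid.End M) (i : ℕ) (l : List ℕ) (m : M) :
    (l.map (s i)).sum m = (l.map fun j => s i j m).sum := by
  induction l with
  | nil => rfl
  | cons a l ih =>
    rw [List.map_cons, List.sum_cons, List.map_cons, List.sum_cons, ← ih]
    rfl

private theorem Alz_map (g : AddMonoid.End M) (l : List ℕ) (F : ℕ → M) :
    g (l.map F).sum = (l.map fun j => g (F j)).sum := by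
  induction l with
  | nil => exact map_zero g
  | cons a l ih =>
    rw [List.map_cons, List.sum_cons, List.map_cons, List.sum_cons, ← ih, map_add]

private theorem Alz_congr {l : List ℕ} {F G : ℕ → M} (h : ∀ k ∈ l, F k = G k) :
    (l.map F).sum = (l.map G).sum := by
  rw [List.map_congr_left h]

private theorem Alz_add (l : List ℕ) (F G : ℕ → M) :
    (l.map fun k => F k + G k).sum = (l.map F).sum + (l.map G).sum := by
  induction l with
  | nil => simp
  | cons a l ih =>
    simp only [List.map_cons, List.sum_cons, ih]
    abel

private theorem Alz_neg (l : List ℕ) (F : ℕ → M) :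
    (l.map fun k => -F k).sum = -(l.map F).sum := by
  induction l with
  | nil => simp
  | cons a l ih =>
    simp only [List.map_cons, List.sum_cons, ih]
    abel

private theorem Alz_const (l : List ℕ) (c : M) :
    (l.map fun _ => c).sum = (l.length : ℤ) • c := by
  induction l with
  | nil => simp
  | cons a l ih =>
    simp only [List.map_cons, List.sum_cons, ih, List.length_cons]
    push_cast
    rw [add_smul, one_smul]
    abel

private theorem Alz_tor {l : List ℕ} {F : ℕ → M} (h : ∀ k ∈ l, (3 : ℤ) • F k = 0) :
    (3 : ℤ) • (l.map F).sum = 0 := by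
  induction l with
  | nil => simp
  | cons a l ih =>
    rw [List.map_cons, List.sum_cons, smul_add, h a (List.mem_cons_self ..),
      ih fun k hk => h k (List.mem_cons_of_mem _ hk), add_zero]

private theorem Alz_zero {x : M} (h : x = -x) (h3 : (3 : ℤ) • x = 0) : x = 0 := by
  have h2 : x + x = 0 := by
    nth_rewrite 1 [h]
    exact neg_add_cancel x
  have h4 : (3 : ℤ) • x = x + (x + x) := by abel
  rw [h2, add_zero] at h4
  rw [← h4, h3]

private theorem Alz_sw0 {l : List ℕ} {i j : ℕ} (F : ℕ → M) (hi : i ∉ l) (hj : j ∉ l) :
    (l.map fun k => F (Equiv.swap i j k)).sum = (l.map F).sum := by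
  apply Alz_congr
  intro k hk
  rw [Equiv.swap_apply_of_ne_of_ne]
  · rintro rfl; exact hi hk
  · rintro rfl; exact hj hk

private theorem Alz_sw {l : List ℕ} {i j : ℕ} (F : ℕ → M) (hl : l.Nodup) (hi : i ∉ l) (hj : j ∈ l) :
    (l.map fun k => F (Equiv.swap i j k)).sum = (l.map F).sum + (-F j + F i) := by
  induction l with
  | nil => exact absurd hj (List.not_mem_nil)
  | cons a l ih =>
    rw [List.nodup_cons] at hl
    rw [List.map_cons, List.sum_cons, List.map_cons, List.sum_cons]
    by_cases haj : a = j
    · subst haj
      rw [Equiv.swap_apply_right, Alz_sw0 F (fun h => hi (List.mem_cons_of_mem _ h)) hl.1]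
      abel
    · have hj' : j ∈ l := by
        rcases List.mem_cons.1 hj with h | h
        · exact absurd h.symm haj
        · exact h
      have hai : a ≠ i := by
        rintro rfl
        exact hi (List.mem_cons_self ..)
      rw [Equiv.swap_apply_of_ne_of_ne hai haj,
        ih hl.2 (fun h => hi (List.mem_cons_of_mem _ h)) hj']
      abel

/-- double sums of alternating functions -/
private theorem Alz_dbl {l : List ℕ} {G : ℕ → ℕ → M} (h : ∀ j ∈ l, ∀ k ∈ l, G j k = -G k j)
    (h0 : ∀ j ∈ l, G j j = 0) :
    (l.map fun j => (l.map fun k => G j k).sum).sum = 0 := by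
  induction l with
  | nil => simp
  | cons a l ih =>
    have hm : ∀ j ∈ l, j ∈ a :: l := fun j hj => List.mem_cons_of_mem _ hj
    have h1 : (l.map fun j => ((a :: l).map fun k => G j k).sum).sum
        = (l.map fun j => G j a).sum + (l.map fun j => (l.map fun k => G j k).sum).sum := by
      rw [← Alz_add]
      apply Alz_congr
      intro k _
      rw [List.map_cons, List.sum_cons]
    have h2 : (l.map fun j => G j a).sum = -(l.map fun j => G a j).sum := by
      rw [← Alz_neg]
      exact Alz_congr fun k hk => h k (hm k hk) a (List.mem_cons_self ..)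
    rw [List.map_cons, List.sum_cons, List.map_cons, List.sum_cons, h1, h2,
      ih (fun j hj k hk => h j (hm j hj) k (hm k hk)) (fun j hj => h0 j (hm j hj)),
      h0 a (List.mem_cons_self ..)]
    abel

private theorem Alz_one (φ : List ℕ → M) (i : ℕ) (l : List ℕ) :
    ((i :: l).map fun j => φ [j]).sum ∈ Spn φ (i :: l) := by
  apply AddSubgroup.subset_closure
  refine ⟨(1, (i :: l).map fun j => [j]), ?_, ?_⟩
  · unfold yt
    simp
  · rw [List.map_map]
    rfl

private theorem Alz_yt (i : ℕ) (l : List ℕ) : yt (i :: l)
    = [(0, [[]]), (1, (i :: l).map fun j => [j])] ++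
      if l.length % 3 = 2 then [(1, [[i]]), (2, l.map fun j => [j, i])] else [] := rfl

private theorem Alz_two (φ : List ℕ → M) (i : ℕ) (l : List ℕ) (h : l.length % 3 = 2) :
    φ [i] ∈ Spn φ (i :: l) ∧ (l.map fun j => φ [j, i]).sum ∈ Spn φ (i :: l) := by
  constructor
  · apply AddSubgroup.subset_closure
    refine ⟨(1, [[i]]), ?_, ?_⟩
    · rw [Alz_yt, if_pos h]
      simp
    · simp
  · apply AddSubgroup.subset_closure
    refine ⟨(2, l.map fun j => [j, i]), ?_, ?_⟩
    · rw [Alz_yt, if_pos h]
      simp
    · rw [List.map_map]
      rfl

private theorem Alz_gen {φ : List ℕ → M} {j : ℕ} {l : List ℕ} {x : M}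
    (h : ∃ t ∈ yt (j :: l), x = (t.2.map φ).sum) :
    x = φ [] ∨ x = ((j :: l).map fun k => φ [k]).sum ∨
      (l.length % 3 = 2 ∧ (x = φ [j] ∨ x = (l.map fun k => φ [k, j]).sum)) := by
  obtain ⟨t, ht, rfl⟩ := h
  unfold yt at ht
  rw [List.mem_append] at ht
  rcases ht with ht | ht
  · rw [List.mem_cons, List.mem_singleton] at ht
    rcases ht with rfl | rfl
    · left
      simp
    · right; left
      rw [List.map_map]
      rfl
  · right; right
    split_ifs at ht with hl
    · refine ⟨hl, ?_⟩
      rw [List.mem_cons, List.mem_singleton] at ht
      rcases ht with rfl | rfl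
      · left
        simp
      · right
        rw [List.map_map]
        rfl
    · exact absurd ht (List.not_mem_nil)

theorem thm_Alz : St_Alz := by
  intro M _ s i l φ hN F m hm
  refine AddSubgroup.closure_induction (p := fun x _ => Xo s i l x ∈ Spn φ (i :: l)) ?_ ?_ ?_ ?_ hm
  · intro x hx
    have hil : i ∉ l := (List.nodup_cons.1 hN).1
    have hlN : l.Nodup := (List.nodup_cons.1 hN).2
    have hiB : i ∈ i :: l := List.mem_cons_self ..
    have hlB : ∀ k ∈ l, k ∈ i :: l := fun k hk => List.mem_cons_of_mem _ hk
    have hne : ∀ k ∈ l, i ≠ k := by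
      rintro k hk rfl
      exact hil hk
    have halt : ∀ x ∈ i :: l, ∀ y ∈ i :: l, φ [x, y] = -φ [y, x] := by
      intro x hx y hy
      exact F.alt [] [] x hx y hy (by simp)
    have htor1 : ∀ x ∈ i :: l, (3 : ℤ) • φ [x] = 0 := by
      intro x hx
      apply F.tor
      intro k hk
      rw [List.mem_singleton] at hk
      rw [hk]; exact hx
    have htor2 : ∀ x ∈ i :: l, ∀ y ∈ i :: l, (3 : ℤ) • φ [x, y] = 0 := by
      intro x hx y hy
      apply F.tor
      intro k hk
      rw [List.mem_cons, List.mem_singleton] at hk
      rcases hk with rfl | rfl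
      · exact hx
      · exact hy
    have hdiag : ∀ x ∈ i :: l, φ [x, x] = 0 := fun x hx =>
      Alz_zero (halt x hx x hx) (htor2 x hx x hx)
    have hact1 : ∀ j ∈ l, ∀ x ∈ i :: l, s i j (φ [x]) = φ [Equiv.swap i j x] := by
      intro j hj x hx
      rw [F.act i hiB j (hlB j hj) (hne j hj) [x] (by
        intro k hk
        rw [List.mem_singleton] at hk
        rw [hk]; exact hx)]
      rfl
    have hact2 : ∀ j ∈ l, ∀ x ∈ i :: l, ∀ y ∈ i :: l,
        s i j (φ [x, y]) = φ [Equiv.swap i j x, Equiv.swap i j y] := by
      intro j hj x hx y hy
      rw [F.act i hiB j (hlB j hj) (hne j hj) [x, y] (by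
        intro k hk
        rw [List.mem_cons, List.mem_singleton] at hk
        rcases hk with rfl | rfl
        · exact hx
        · exact hy)]
      rfl
    cases l with
    | nil =>
      obtain ⟨t, ht, rfl⟩ := hx
      have ht' : t = (0, [[]]) := by
        unfold yt at ht
        exact List.mem_singleton.1 ht
      subst ht'
      have h1 : Xo s i [] = 1 := by
        unfold Xo
        rw [if_pos (Or.inr rfl)]
      rw [h1]
      have h2 := Alz_one φ i []
      simpa using h2
    | cons j0 l' =>
      rw [List.nodup_cons] at hlN
      have hj0 : j0 ∈ j0 :: l' := List.mem_cons_self ..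
      have hij0 : i ≠ j0 := hne j0 hj0
      have hl' : ∀ k ∈ l', k ∈ j0 :: l' := fun k hk => List.mem_cons_of_mem _ hk
      have hil' : i ∉ l' := fun h => hil (hl' i h)
      have hN' : (j0 :: l').Nodup := List.nodup_cons.2 hlN
      have hgen := Alz_gen (φ := fun X => φ (i :: X)) hx
      -- sums over `l` of `s i j` applied to the basic elements
      by_cases hc2 : (j0 :: l').length % 3 = 2
      · have h1 : Xo s i (j0 :: l') = 1 := by
          unfold Xo
          rw [if_pos (Or.inl hc2)]
        rw [h1]
        change x ∈ _
        rcases hgen with rfl | rfl | ⟨h, -⟩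
        · exact (Alz_two φ i _ hc2).1
        · have h2 : ((j0 :: l').map fun k => φ (i :: [k])).sum
              = -((j0 :: l').map fun k => φ [k, i]).sum := by
            rw [← Alz_neg]
            exact Alz_congr fun k hk => halt i hiB k (hlB k hk)
          rw [h2]
          exact neg_mem (Alz_two φ i _ hc2).2
        · exfalso
          rw [List.length_cons] at hc2
          omega
      by_cases hc1 : (j0 :: l').length % 3 = 1
      · have h1 : Xo s i (j0 :: l') = -(1 + ((j0 :: l').map (s i)).sum) := by
          unfold Xo
          rw [if_neg (by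
            rintro (h | h)
            · exact hc2 h
            · exact List.cons_ne_nil _ _ h), if_pos hc1]
        rw [h1]
        change -(x + ((j0 :: l').map (s i)).sum x) ∈ _
        rw [Alz_app]
        rcases hgen with rfl | rfl | ⟨h, -⟩
        · have h2 : ((j0 :: l').map fun j => s i j (φ (i :: []))).sum
              = ((j0 :: l').map fun j => φ [j]).sum := by
            apply Alz_congr
            intro j hj
            rw [hact1 j hj i hiB, Equiv.swap_apply_left]
          rw [h2]
          have h3 := Alz_one φ i (j0 :: l')
          rw [List.map_cons, List.sum_cons] at h3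
          exact neg_mem h3
        · have h2 : ∀ j ∈ j0 :: l', s i j (((j0 :: l').map fun k => φ (i :: [k])).sum)
              = ((j0 :: l').map fun k => φ [j, k]).sum + φ [j, i] := by
            intro j hj
            rw [Alz_map]
            have h3 : ((j0 :: l').map fun k => s i j (φ (i :: [k]))).sum
                = ((j0 :: l').map fun k => φ [j, Equiv.swap i j k]).sum := by
              apply Alz_congr
              intro k hk
              rw [hact2 j hj i hiB k (hlB k hk), Equiv.swap_apply_left]
            rw [h3, Alz_sw (fun k => φ [j, k]) hN' hil hj, hdiag j (hlB j hj)]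
            abel
          rw [Alz_congr h2, Alz_add, Alz_dbl (G := fun j k => φ [j, k])
            (fun j hj k hk => halt j (hlB j hj) k (hlB k hk)) (fun j hj => hdiag j (hlB j hj))]
          have h4 : ((j0 :: l').map fun k => φ (i :: [k])).sum
              = -((j0 :: l').map fun k => φ [k, i]).sum := by
            rw [← Alz_neg]
            exact Alz_congr fun k hk => halt i hiB k (hlB k hk)
          rw [h4]
          have h5 : -(-((j0 :: l').map fun k => φ [k, i]).sum
              + (0 + ((j0 :: l').map fun j => φ [j, i]).sum)) = 0 := by abel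
          rw [h5]
          exact zero_mem _
        · exfalso
          rw [List.length_cons] at hc1
          omega
      · have hc0 : l'.length % 3 = 2 := by
          rw [List.length_cons] at hc1 hc2
          omega
        obtain ⟨q, hq⟩ : ∃ q : ℤ, (l'.length : ℤ) = 3 * q + 2 :=
          ⟨(l'.length / 3 : ℕ), by omega⟩
        have hlen : ∀ c : M, (3 : ℤ) • c = 0 → (l'.length : ℤ) • c = (2 : ℤ) • c := by
          intro c hc
          rw [hq, add_smul, mul_comm, mul_smul, hc, smul_zero, zero_add]
        have h1 : ∀ y : M, Xo s i (j0 :: l') y = -(y + s i j0 y)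
            + (((j0 :: l').map (s i)).sum (-(y + s i j0 y))
              + s i j0 (((j0 :: l').map (s i)).sum (-(y + s i j0 y)))) := by
          intro y
          unfold Xo
          rw [if_neg (by
            rintro (h | h)
            · exact hc2 h
            · exact List.cons_ne_nil _ _ h), if_neg hc1]
          rfl
        have hsp : ∀ y : M, ((j0 :: l').map (s i)).sum y
            = s i j0 y + (l'.map fun j => s i j y).sum := by
          intro y
          rw [Alz_app, List.map_cons, List.sum_cons]
        -- the case where the first factor kills the element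
        have hkill : ∀ y : M, y + s i j0 y = 0 → Xo s i (j0 :: l') y ∈ Spn φ (i :: j0 :: l') := by
          intro y hy
          rw [h1, hy]
          simp
        have hj0B : j0 ∈ i :: j0 :: l' := hlB j0 hj0
        have hl'B : ∀ k ∈ l', k ∈ i :: j0 :: l' := fun k hk => hlB k (hl' k hk)
        have hki : ∀ k ∈ l', k ≠ i := by
          rintro k hk rfl
          exact hil' hk
        have hkj : ∀ k ∈ l', k ≠ j0 := by
          rintro k hk rfl
          exact hlN.1 hk
        have hsw1 : ∀ k ∈ l', Equiv.swap i j0 k = k := fun k hk =>
          Equiv.swap_apply_of_ne_of_ne (hki k hk) (hkj k hk)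
        have hsw2 : ∀ j ∈ l', Equiv.swap i j j0 = j0 := fun j hj =>
          Equiv.swap_apply_of_ne_of_ne hij0.symm (hkj j hj).symm
        rcases hgen with rfl | rfl | ⟨-, rfl | rfl⟩
        · -- `φ [i]`
          change Xo s i (j0 :: l') (φ [i]) ∈ _
          have e1 : s i j0 (φ [i]) = φ [j0] := by
            rw [hact1 j0 hj0 i hiB, Equiv.swap_apply_left]
          have e2 : s i j0 (φ [j0]) = φ [i] := by
            rw [hact1 j0 hj0 j0 hj0B, Equiv.swap_apply_right]
          have e3 : (l'.map fun j => s i j (φ [i])).sum = (l'.map fun j => φ [j]).sum := by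
            apply Alz_congr
            intro j hj
            rw [hact1 j (hl' j hj) i hiB, Equiv.swap_apply_left]
          have e4 : (l'.map fun j => s i j (φ [j0])).sum = (2 : ℤ) • φ [j0] := by
            rw [← hlen _ (htor1 j0 hj0B), ← Alz_const]
            apply Alz_congr
            intro j hj
            rw [hact1 j (hl' j hj) j0 hj0B, hsw2 j hj]
          have e5 : s i j0 (l'.map fun j => φ [j]).sum = (l'.map fun j => φ [j]).sum := by
            rw [Alz_map]
            apply Alz_congr
            intro k hk
            rw [hact1 j0 hj0 k (hl'B k hk), hsw1 k hk]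
          have t1 := htor1 i hiB
          have t2 := htor1 j0 hj0B
          have t3 : (3 : ℤ) • (l'.map fun j => φ [j]).sum = 0 :=
            Alz_tor fun k hk => htor1 k (hl'B k hk)
          have e6 : ((j0 :: l').map (s i)).sum (-(φ [i] + s i j0 (φ [i])))
              = -((l'.map fun j => φ [j]).sum + φ [i]) := by
            rw [map_neg, e1, map_add, hsp, hsp, e1, e2, e3, e4]
            have : -(φ [j0] + (l'.map fun j => φ [j]).sum + (φ [i] + (2 : ℤ) • φ [j0]))
                = -((l'.map fun j => φ [j]).sum + φ [i]) - (3 : ℤ) • φ [j0] := by module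
            rw [this, t2, sub_zero]
          rw [h1, e6, map_neg, map_add, e1, e5]
          have h3 := Alz_one φ i (j0 :: l')
          rw [List.map_cons, List.sum_cons, List.map_cons, List.sum_cons] at h3
          have e7 : -(φ [i] + φ [j0]) + (-((l'.map fun j => φ [j]).sum + φ [i])
              + -((l'.map fun j => φ [j]).sum + φ [j0]))
              = φ [i] + (φ [j0] + (l'.map fun j => φ [j]).sum) - (3 : ℤ) • φ [i]
                - (3 : ℤ) • φ [j0] - (3 : ℤ) • (l'.map fun j => φ [j]).sum := by module
          rw [e7, t1, t2, t3, sub_zero, sub_zero, sub_zero]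
          exact h3
        · -- the sum of the `φ [i, j]`
          change Xo s i (j0 :: l') (((j0 :: l').map fun k => φ [i, k]).sum) ∈ _
          obtain ⟨T, hT⟩ : ∃ T, T = (l'.map fun k => φ [i, k]).sum := ⟨_, rfl⟩
          obtain ⟨V, hV⟩ : ∃ V, V = (l'.map fun k => φ [j0, k]).sum := ⟨_, rfl⟩
          have tT : (3 : ℤ) • T = 0 := by
            rw [hT]
            exact Alz_tor fun k hk => htor2 i hiB k (hl'B k hk)
          have tV : (3 : ℤ) • V = 0 := by
            rw [hV]
            exact Alz_tor fun k hk => htor2 j0 hj0B k (hl'B k hk)
          have tp := htor2 i hiB j0 hj0B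
          have e0 : ((j0 :: l').map fun k => φ [i, k]).sum = φ [i, j0] + T := by
            rw [List.map_cons, List.sum_cons, hT]
          have e1 : s i j0 (φ [i, j0]) = -φ [i, j0] := by
            rw [hact2 j0 hj0 i hiB j0 hj0B, Equiv.swap_apply_left, Equiv.swap_apply_right]
            exact halt j0 hj0B i hiB
          have e2 : s i j0 T = V := by
            rw [hT, hV, Alz_map]
            apply Alz_congr
            intro k hk
            rw [hact2 j0 hj0 i hiB k (hl'B k hk), Equiv.swap_apply_left, hsw1 k hk]
          have e3 : s i j0 V = T := by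
            rw [hT, hV, Alz_map]
            apply Alz_congr
            intro k hk
            rw [hact2 j0 hj0 j0 hj0B k (hl'B k hk), Equiv.swap_apply_right, hsw1 k hk]
          have e4 : (l'.map fun j => s i j T).sum = -T := by
            have h2 : ∀ j ∈ l', s i j T = (l'.map fun k => φ [j, k]).sum + φ [j, i] := by
              intro j hj
              rw [hT, Alz_map]
              have h3 : (l'.map fun k => s i j (φ [i, k])).sum
                  = (l'.map fun k => φ [j, Equiv.swap i j k]).sum := by
                apply Alz_congr
                intro k hk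
                rw [hact2 j (hl' j hj) i hiB k (hl'B k hk), Equiv.swap_apply_left]
              rw [h3, Alz_sw (fun k => φ [j, k]) hlN.2 hil' hj, hdiag j (hl'B j hj)]
              abel
            rw [Alz_congr h2, Alz_add, Alz_dbl (G := fun j k => φ [j, k])
              (fun j hj k hk => halt j (hl'B j hj) k (hl'B k hk)) (fun j hj => hdiag j (hl'B j hj)),
              zero_add, hT, ← Alz_neg]
            exact Alz_congr fun k hk => halt k (hl'B k hk) i hiB
          have e5 : (l'.map fun j => s i j V).sum = V + φ [i, j0] := by
            have h2 : ∀ j ∈ l', s i j V = (V + φ [j0, i]) + -φ [j0, j] := by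
              intro j hj
              have h3 : s i j V = (l'.map fun k => φ [j0, Equiv.swap i j k]).sum := by
                rw [hV, Alz_map]
                apply Alz_congr
                intro k hk
                rw [hact2 j (hl' j hj) j0 hj0B k (hl'B k hk), hsw2 j hj]
              rw [h3, Alz_sw (fun k => φ [j0, k]) hlN.2 hil' hj, ← hV]
              abel
            have t0 : (3 : ℤ) • (V + φ [j0, i]) = 0 := by
              rw [smul_add, tV, htor2 j0 hj0B i hiB, add_zero]
            rw [Alz_congr h2, Alz_add, Alz_const, hlen _ t0, Alz_neg, ← hV, halt j0 hj0B i hiB]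
            have : (2 : ℤ) • (V + -φ [i, j0]) + -V = V + φ [i, j0] - (3 : ℤ) • φ [i, j0] := by
              module
            rw [this, tp, sub_zero]
          have e6 : -((φ [i, j0] + T) + s i j0 (φ [i, j0] + T)) = -(T + V) := by
            rw [map_add, e1, e2]
            abel
          have e7 : ((j0 :: l').map (s i)).sum (-(T + V)) = V - φ [i, j0] := by
            rw [map_neg, map_add, hsp, hsp, e2, e3, e4, e5]
            have : -(V + -T + (T + (V + φ [i, j0]))) = V - φ [i, j0] - (3 : ℤ) • V := by module
            rw [this, tV, sub_zero]
          have e8 : Xo s i (j0 :: l') (((j0 :: l').map fun k => φ [i, k]).sum) = 0 := by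
            rw [e0, h1, e6, e7, map_sub, e3, e1]
            have : -(T + V) + (V - φ [i, j0] + (T - -φ [i, j0])) = 0 := by abel
            exact this
          rw [e8]
          exact zero_mem _
        · -- `φ [i, j0]`
          apply hkill
          rw [hact2 j0 hj0 i hiB j0 hj0B, Equiv.swap_apply_left, Equiv.swap_apply_right,
            halt j0 hj0B i hiB]
          abel
        · -- the sum of the `φ [i, j, j0]`
          apply hkill
          have h2 : s i j0 (l'.map fun k => φ [i, k, j0]).sum
              = -(l'.map fun k => φ [i, k, j0]).sum := by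
            rw [Alz_map, ← Alz_neg]
            apply Alz_congr
            intro k hk
            have h3 : s i j0 (φ [i, k, j0]) = φ [j0, k, i] := by
              rw [F.act i hiB j0 hj0B hij0 [i, k, j0] (by
                intro y hy
                rw [List.mem_cons, List.mem_cons, List.mem_singleton] at hy
                rcases hy with rfl | rfl | rfl
                · exact hiB
                · exact hl'B _ hk
                · exact hj0B)]
              simp only [List.map_cons, List.map_nil, Equiv.swap_apply_left,
                Equiv.swap_apply_right, hsw1 k hk]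
            have h4 : φ [j0, k, i] = -φ [k, j0, i] :=
              F.alt [] [i] j0 hj0B k (hl'B k hk) (by simp)
            have h5 : φ [k, j0, i] = -φ [k, i, j0] :=
              F.alt [k] [] j0 hj0B i hiB (by
                intro y hy
                simp only [List.append_nil, List.mem_singleton] at hy
                rw [hy]; exact hl'B k hk)
            have h6 : φ [k, i, j0] = -φ [i, k, j0] :=
              F.alt [] [j0] k (hl'B k hk) i hiB (by
                intro y hy
                simp only [List.nil_append, List.mem_singleton] at hy
                rw [hy]; exact hj0B)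
            rw [h3, h4, h5, h6]
            abel
          rw [h2]
          abel
  · rw [map_zero]; exact zero_mem _
  · intro x y _ _ hx hy
    rw [map_add]; exact add_mem hx hy
  · intro x _ hx
    rw [map_neg]; exact neg_mem hx

end Pool.Agent.CRS
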