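import Pool.Agent.CRS.StB

/-!
# CRS.Bra: brackets of lists are alternating (MP_1bb14d_al)
-/

set_option autoImplicit false

namespace Pool.Agent.CRS

open Pool.Agent.CRR Pool.Agent.CRN Pool.Agent.CRK Pool.Agent.CRL Pool.Agent.CRM Pool.Agent.CRP
open Pool.Agent.CRQ

section bra

variable {U : Type} [Ring U]

private theorem Bra_eq (x y : U) (l : List U) (h : l.length ≠ 1) : brv (x :: y :: l) = cm x y * brv l := by
  match l, h with
  | [], _ => rfl
  | [_], h => exact absurd rfl h
  | _ :: _ :: _, _ => rfl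

private theorem Bra_eq3 (x y z : U) : brv [x, y, z] = cm (cm x y) z := rfl

private theorem Bra_eq0 : brv ([] : List U) = 1 := rfl

private theorem Bra_eq1 (x : U) : brv [x] = 0 := rfl

private theorem Bra_anti (x y : U) : cm x y = -cm y x := by
  unfold cm
  abel

private theorem Bra_self (x : U) : cm x x = 0 := by
  unfold cm
  abel

private theorem Bra_cmN {N : NonUnitalSubring U} {x y : U} (hx : x ∈ N) (hy : y ∈ N) : cm x y ∈ N :=
  N.sub_mem (N.mul_mem hx hy) (N.mul_mem hy hx)

private theorem Bra_1 {N : NonUnitalSubring U}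
    (F2 : ∀ x ∈ N, ∀ y ∈ N, ∀ z ∈ N, cm (cm x y) z = -cm (cm x z) y ∧ cm (cm x y) z = -cm (cm y x) z)
    (F4 : ∀ x ∈ N, ∀ y ∈ N, ∀ z ∈ N, ∀ w ∈ N, cm x y * cm z w = -(cm x z * cm y w)) :
    ∀ (l1 l2 : List U) (a b : U), (∀ x ∈ l1 ++ a :: b :: l2, x ∈ N) →
    brv (l1 ++ a :: b :: l2) = -brv (l1 ++ b :: a :: l2)
  | [], l2, a, b, h => by
    have ha : a ∈ N := h a (by simp)
    have hb : b ∈ N := h b (by simp)
    rw [List.nil_append, List.nil_append]
    by_cases hl : l2.length = 1
    · obtain ⟨c, rfl⟩ := List.length_eq_one_iff.1 hl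
      have hc : c ∈ N := h c (by simp)
      rw [Bra_eq3, Bra_eq3]
      exact (F2 a ha b hb c hc).2
    · rw [Bra_eq a b l2 hl, Bra_eq b a l2 hl, Bra_anti a b, neg_mul]
  | [x], l2, a, b, h => by
    have hx : x ∈ N := h x (by simp)
    have ha : a ∈ N := h a (by simp)
    have hb : b ∈ N := h b (by simp)
    rw [List.singleton_append, List.singleton_append]
    match l2, h with
    | [], _ =>
      rw [Bra_eq3, Bra_eq3]
      exact (F2 x hx a ha b hb).1
    | [c, e], h =>
      have hc : c ∈ N := h c (by simp)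
      have he : e ∈ N := h e (by simp)
      rw [Bra_eq x a [b, c, e] (by simp), Bra_eq x b [a, c, e] (by simp), Bra_eq3, Bra_eq3]
      have key : ∀ u ∈ N, cm (cm u c) e = -cm u (cm c e) := by
        intro u hu
        rw [(F2 u hu c hc e he).2, (F2 c hc u hu e he).1, neg_neg, Bra_anti (cm c e) u]
      rw [key b hb, key a ha, mul_neg, mul_neg, neg_neg, F4 x hx a ha b hb _ (Bra_cmN hc he), neg_neg]
    | [c], h =>
      have hc : c ∈ N := h c (by simp)
      rw [Bra_eq x a [b, c] (by simp), Bra_eq x b [a, c] (by simp), Bra_eq b c [] (by simp),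
        Bra_eq a c [] (by simp), ← mul_assoc, ← mul_assoc, F4 x hx a ha b hb c hc, neg_mul]
    | c :: d :: e :: r, h =>
      have hc : c ∈ N := h c (by simp)
      rw [Bra_eq x a (b :: c :: d :: e :: r) (by simp), Bra_eq x b (a :: c :: d :: e :: r) (by simp),
        Bra_eq b c (d :: e :: r) (by simp), Bra_eq a c (d :: e :: r) (by simp), ← mul_assoc, ← mul_assoc,
        F4 x hx a ha b hb c hc, neg_mul]
  | x :: y :: l1, l2, a, b, h => by
    rw [List.cons_append, List.cons_append, List.cons_append, List.cons_append,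
      Bra_eq x y (l1 ++ a :: b :: l2) (by simp; omega), Bra_eq x y (l1 ++ b :: a :: l2) (by simp; omega),
      Bra_1 F2 F4 l1 l2 a b (fun z hz => h z (by
        rw [List.cons_append, List.cons_append]
        exact List.mem_cons_of_mem _ (List.mem_cons_of_mem _ hz))), mul_neg]

private theorem Bra_2 {N : NonUnitalSubring U}
    (F2 : ∀ x ∈ N, ∀ y ∈ N, ∀ z ∈ N, cm (cm x y) z = -cm (cm x z) y ∧ cm (cm x y) z = -cm (cm y x) z)
    (F4 : ∀ x ∈ N, ∀ y ∈ N, ∀ z ∈ N, ∀ w ∈ N, cm x y * cm z w = -(cm x z * cm y w)) :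
    ∀ (l1 l3 : List U) (a : U), (∀ x ∈ l1 ++ a :: a :: l3, x ∈ N) → brv (l1 ++ a :: a :: l3) = 0
  | [], l3, a, h => by
    rw [List.nil_append]
    by_cases hl : l3.length = 1
    · obtain ⟨c, rfl⟩ := List.length_eq_one_iff.1 hl
      rw [Bra_eq3, Bra_self]
      unfold cm
      rw [zero_mul, mul_zero, sub_zero]
    · rw [Bra_eq a a l3 hl, Bra_self, zero_mul]
  | [x], l3, a, h => by
    have hx : x ∈ N := h x (by simp)
    have ha : a ∈ N := h a (by simp)
    have hl : ∀ c ∈ l3, c ∈ N := fun c hc => h c (by simp [hc])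
    have e1 := Bra_1 F2 F4 [] (a :: l3) x a (by
      intro c hc
      simp only [List.nil_append, List.mem_cons] at hc
      rcases hc with rfl | rfl | rfl | hc
      · exact hx
      · exact ha
      · exact ha
      · exact hl c hc)
    have e2 := Bra_1 F2 F4 [a] l3 x a (by
      intro c hc
      simp only [List.singleton_append, List.mem_cons] at hc
      rcases hc with rfl | rfl | rfl | hc
      · exact ha
      · exact hx
      · exact ha
      · exact hl c hc)
    have e3 := Bra_2 F2 F4 [] (x :: l3) a (by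
      intro c hc
      simp only [List.nil_append, List.mem_cons] at hc
      rcases hc with rfl | rfl | rfl | hc
      · exact ha
      · exact ha
      · exact hx
      · exact hl c hc)
    rw [List.nil_append, List.nil_append] at e1
    rw [List.singleton_append, List.singleton_append] at e2
    rw [List.nil_append] at e3
    rw [List.singleton_append, e1, e2, e3, neg_neg]
  | x :: y :: l1, l3, a, h => by
    rw [List.cons_append, List.cons_append, Bra_eq x y (l1 ++ a :: a :: l3) (by simp; omega),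
      Bra_2 F2 F4 l1 l3 a (fun z hz => h z (by
        rw [List.cons_append, List.cons_append]
        exact List.mem_cons_of_mem _ (List.mem_cons_of_mem _ hz))), mul_zero]

private theorem Bra_comm {N : NonUnitalSubring U}
    (F3 : ∀ x ∈ N, ∀ y ∈ N, ∀ z ∈ N, ∀ w ∈ N, cm (cm (cm x y) z) w = 0)
    {x y z w : U} (hx : x ∈ N) (hy : y ∈ N) (hz : z ∈ N) (hw : w ∈ N) :
    cm (cm x y) z * w = w * cm (cm x y) z :=
  sub_eq_zero.1 (F3 x hx y hy z hz w hw)

private theorem Bra_4 {N : NonUnitalSubring U}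
    (F3 : ∀ x ∈ N, ∀ y ∈ N, ∀ z ∈ N, ∀ w ∈ N, cm (cm (cm x y) z) w = 0)
    (F6 : ∀ x ∈ N, ∀ y ∈ N, ∀ z ∈ N, ∀ u ∈ N, ∀ v ∈ N, ∀ w ∈ N, cm (cm x y) z * cm (cm u v) w = 0)
    {x y z : U} (hx : x ∈ N) (hy : y ∈ N) (hz : z ∈ N) :
    ∀ (S : List U), (∀ x ∈ S, x ∈ N) →
    (S.length % 2 = 0 → cm (cm x y) z * brv S = brv (S ++ [x, y, z])) ∧
    (S.length % 2 = 1 → cm (cm x y) z * brv S = 0)
  | [], _ => ⟨fun _ => by rw [Bra_eq0, mul_one, List.nil_append, Bra_eq3], fun h => by simp at h⟩
  | [s], _ => ⟨fun h => by simp at h, fun _ => by rw [Bra_eq1, mul_zero]⟩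
  | s :: t :: l, hS => by
    have hs : s ∈ N := hS s (by simp)
    have ht : t ∈ N := hS t (by simp)
    have hl : ∀ x ∈ l, x ∈ N := fun c hc => hS c (by simp [hc])
    have ih := Bra_4 F3 F6 hx hy hz l hl
    by_cases hlen : l.length = 1
    · obtain ⟨u, rfl⟩ := List.length_eq_one_iff.1 hlen
      have hu : u ∈ N := hl u (by simp)
      refine ⟨fun h => ?_, fun _ => ?_⟩
      · simp only [List.length_cons, List.length_nil] at h
        omega
      · rw [Bra_eq3]
        exact F6 x hx y hy z hz s hs t ht u hu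
    · have hc : cm (cm x y) z * cm s t = cm s t * cm (cm x y) z := by
        have h1 := Bra_comm F3 hx hy hz hs
        have h2 := Bra_comm F3 hx hy hz ht
        have e : ∀ p q : U, (∀ T : U, T * p = p * T → T * q = q * T → T * cm p q = cm p q * T) := by
          intro p q T hp hq
          unfold cm
          rw [mul_sub, sub_mul, ← mul_assoc, hp, mul_assoc, hq, ← mul_assoc, ← mul_assoc, hq, mul_assoc q T p,
            hp, ← mul_assoc]
        exact e s t _ h1 h2
      rw [Bra_eq s t l hlen]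
      refine ⟨fun h => ?_, fun h => ?_⟩
      · rw [← mul_assoc, hc, mul_assoc, ih.1 (by simp only [List.length_cons] at h; omega), List.cons_append,
          List.cons_append, Bra_eq s t (l ++ [x, y, z]) (by simp)]
      · rw [← mul_assoc, hc, mul_assoc, ih.2 (by simp only [List.length_cons] at h; omega), mul_zero]

private theorem Bra_5 {N : NonUnitalSubring U} :
    ∀ S : List U, (∀ x ∈ S, x ∈ N) → S ≠ [] → brv S ∈ N
  | [], _, h => absurd rfl h
  | [x], _, _ => by
    rw [Bra_eq1]
    exact N.zero_mem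
  | [x, y], hS, _ => by
    rw [Bra_eq x y [] (by simp), Bra_eq0, mul_one]
    exact Bra_cmN (hS x (by simp)) (hS y (by simp))
  | [x, y, z], hS, _ => by
    rw [Bra_eq3]
    exact Bra_cmN (Bra_cmN (hS x (by simp)) (hS y (by simp))) (hS z (by simp))
  | x :: y :: z :: w :: l, hS, _ => by
    rw [Bra_eq x y (z :: w :: l) (by simp)]
    exact N.mul_mem (Bra_cmN (hS x (by simp)) (hS y (by simp)))
      (Bra_5 (z :: w :: l) (fun c hc => hS c (List.mem_cons_of_mem _ (List.mem_cons_of_mem _ hc))) (by simp))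

end bra

/-- Brackets of lists are alternating. -/
theorem thm_Bra : St_Fid → St_Bra := by
  intro hF U _ N hN
  obtain ⟨_, F2, F3, F4, F6⟩ := hF U N hN
  refine ⟨Bra_1 F2 F4, ?_, ?_, ?_, Bra_5⟩
  · intro l1 l2
    induction l2 generalizing l1 with
    | nil =>
      intro l3 a h
      have e : l1 ++ [a] ++ a :: l3 = l1 ++ a :: a :: l3 := by simp
      rw [e] at h ⊢
      exact Bra_2 F2 F4 l1 l3 a h
    | cons c l2 ih =>
      intro l3 a h
      have e1 : l1 ++ a :: (c :: l2) ++ a :: l3 = l1 ++ a :: c :: (l2 ++ a :: l3) := by simp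
      have e2 : l1 ++ c :: a :: (l2 ++ a :: l3) = (l1 ++ [c]) ++ a :: l2 ++ a :: l3 := by simp
      rw [e1] at h ⊢
      rw [Bra_1 F2 F4 l1 (l2 ++ a :: l3) a c h, e2, ih (l1 ++ [c]) l3 a, neg_zero]
      intro x hx
      refine h x ?_
      rw [← e2] at hx
      simp only [List.mem_append, List.mem_cons] at hx ⊢
      tauto
  · intro l hl x hx y hy z hz
    induction l with
    | nil => simp
    | cons w l ih =>
      have hw : w ∈ N := hl w (by simp)
      rw [List.prod_cons, mul_assoc, ih (fun c hc => hl c (List.mem_cons_of_mem _ hc)), ← mul_assoc,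
        ← Bra_comm F3 hx hy hz hw, mul_assoc]
  · intro S hS x hx y hy z hz
    exact Bra_4 F3 F6 hx hy hz S hS

end Pool.Agent.CRS
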