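import Pool.Agent.CRS.StY

/-!
Campaign CRS, module Cfw: invariance of the functions for `b ≤ 1`.
-/

set_option autoImplicit false

namespace Pool.Agent.CRS

open Pool.Agent.CRR Pool.Agent.CRN Pool.Agent.CRK Pool.Agent.CRL Pool.Agent.CRM Pool.Agent.CRP
open Pool.Agent.CRQ

section

variable {U : Type} [Ring U] {N : NonUnitalSubring U}

private lemma Cfw_sf (C : List ℕ) (i j : ℕ)
    (hi : i ∈ C) (hj : j ∈ C) (F : (ℕ → N) → U) :
    sf (-1) C i j F = -(fun x : ℕ → N => F (fun k => x (Equiv.swap i j k))) := by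
  show (if i ∈ C ∧ j ∈ C then fun x : ℕ → N => (-1 : ℤ) • F (fun k => x (Equiv.swap i j k)) else 0) = _
  rw [if_pos ⟨hi, hj⟩]
  funext x
  simp

private lemma Cfw_br (S : List ℕ) (i j : ℕ) (x : ℕ → N) :
    br S (fun k => x (Equiv.swap i j k)) = (br (S.map (Equiv.swap i j)) x : U) := by
  unfold br
  rw [List.map_map]
  rfl

private lemma Cfw_mo (l : List ℕ) (i j : ℕ) (x : ℕ → N) :
    mo l (fun k => x (Equiv.swap i j k)) = (mo (l.map (Equiv.swap i j)) x : U) := by
  unfold mo
  rw [List.map_map]
  rfl

/-- The brackets `br (P ++ Z)`, without the empty one. -/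
private def Cfw_ph (N : NonUnitalSubring U) (P Z : List ℕ) : (ℕ → N) → U :=
  if P ++ Z = [] then 0 else br (P ++ Z)

private lemma Cfw_fam (hCpf : St_Cpf) (hBra : St_Bra) (hN : Nr N) (P C : List ℕ) (hC : C.Nodup)
    (hPC : ∀ k ∈ P, k ∉ C) :
    Fam3 (sf (-1) C) C (cpl C (Cfw_ph N P)) := by
  obtain ⟨b1, -, -, -, b5⟩ := hBra U N hN
  have hfix : ∀ i ∈ C, ∀ j ∈ C, P.map (Equiv.swap i j) = P := by
    intro i hi j hj
    conv_rhs => rw [← List.map_id P]
    refine List.map_congr_left fun k hk => ?_
    have h1 := hPC k hk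
    exact Equiv.swap_apply_of_ne_of_ne (fun h => h1 (h ▸ hi)) (fun h => h1 (h ▸ hj))
  refine hCpf _ (sf (-1) C) C (Cfw_ph N P) hC ?_ ?_ ?_
  · intro l1 l2 i hi j hj hl
    unfold Cfw_ph
    rw [if_neg (by simp), if_neg (by simp)]
    funext x
    show br (P ++ (l1 ++ i :: j :: l2)) x = - br (P ++ (l1 ++ j :: i :: l2)) x
    have h1 := b1 ((P ++ l1).map fun k => (x k : U)) (l2.map fun k => (x k : U)) (x i) (x j) (by
      intro y hy
      simp only [List.mem_append, List.mem_map, List.mem_cons] at hy
      rcases hy with ⟨k, -, rfl⟩ | rfl | rfl | ⟨k, -, rfl⟩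
      · exact (x k).2
      · exact (x i).2
      · exact (x j).2
      · exact (x k).2)
    unfold br
    simpa using h1
  · intro l hl
    unfold Cfw_ph
    split_ifs with h
    · rw [smul_zero]
    · funext x
      show (3 : ℤ) • br (P ++ l) x = 0
      refine hN.tor _ (b5 _ ?_ ?_)
      · intro y hy
        obtain ⟨k, -, rfl⟩ := List.mem_map.1 hy
        exact (x k).2
      · intro h2
        exact h (List.map_eq_nil_iff.1 h2)
  · intro i hi j hj hij l hl
    rw [Cfw_sf C i j hi hj]
    unfold Cfw_ph
    by_cases h : P ++ l = []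
    · have h2 : P ++ l.map (Equiv.swap i j) = [] := by
        rw [List.append_eq_nil_iff] at h ⊢
        rw [h.2]
        exact ⟨h.1, rfl⟩
      rw [if_pos h, if_pos h2]
      rfl
    · have h2 : P ++ l.map (Equiv.swap i j) ≠ [] := by
        rw [Ne, List.append_eq_nil_iff, List.map_eq_nil_iff, ← List.append_eq_nil_iff]
        exact h
      rw [if_neg h, if_neg h2]
      congr 1
      funext x
      rw [Cfw_br, List.map_append, hfix i hi j hj]

private lemma Cfw_len : ∀ (Z C : List ℕ), C.length ≤ (C.diff Z).length + Z.length := by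
  intro Z
  induction Z with
  | nil => intro C; simp
  | cons z Z ih =>
    intro C
    rw [List.diff_cons, List.length_cons]
    have h1 := ih (C.erase z)
    have h2 : C.length ≤ (C.erase z).length + 1 := by
      by_cases hz : z ∈ C
      · rw [List.length_erase_of_mem hz]; omega
      · rw [List.erase_of_not_mem hz]; omega
    omega

private lemma Cfw_filt (a b c : ℕ) (hDwp : St_Dwp) (hDwl : St_Dwl) (X Y : List ℕ) (hX : X.Nodup)
    (hXB : ∀ i ∈ X, i ∈ lB a b) :
    (dW a b c).diff (lA a ++ X ++ (lC a b c).diff Y) =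
      lA a ++ (lA a ++ ((lB a b).filter (· ∉ X) ++ ((lC a b c).filter (· ∈ Y) ++
        (lB a b).reverse))) := by
  obtain ⟨⟨hAn, hBn, hCn, hAm, hBm, hCm, hdm, -, -⟩, -⟩ := hDwp a b c
  have hmd : ∀ k, k ∈ (lC a b c).diff Y ↔ k ∈ lC a b c ∧ k ∉ Y := by
    intro k
    exact List.Nodup.mem_sdiff_iff hCn
  have hn : (lA a ++ X ++ (lC a b c).diff Y).Nodup := by
    refine List.nodup_append.2 ⟨List.nodup_append.2 ⟨hAn, hX, ?_⟩, hCn.diff, ?_⟩
    · rintro i hi j hj rfl
      have h1 := (hAm i).1 hi
      have h2 := (hBm i).1 (hXB i hj)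
      omega
    · rintro i hi j hj rfl
      have h3 := (hCm i).1 ((hmd i).1 hj).1
      rcases List.mem_append.1 hi with hi | hi
      · have h1 := (hAm i).1 hi
        omega
      · have h2 := (hBm i).1 (hXB i hi)
        omega
  have hlt : ∀ i ∈ lA a ++ X ++ (lC a b c).diff Y, i < a + b + c := by
    intro i hi
    rcases List.mem_append.1 hi with hi | hi
    · rcases List.mem_append.1 hi with hi | hi
      · have h1 := (hAm i).1 hi
        omega
      · have h2 := (hBm i).1 (hXB i hi)
        omega
    · have h3 := (hCm i).1 ((hmd i).1 hi).1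
      omega
  have hA : ∀ i, i < a → i ∈ lA a ++ X ++ (lC a b c).diff Y := by
    intro i hi
    exact List.mem_append_left _ (List.mem_append_left _ ((hAm i).2 hi))
  rw [hDwl a b c _ hn hlt hA]
  congr 3
  · refine List.filter_congr fun k hk => ?_
    have h2 := (hBm k).1 hk
    have h4 : (k ∈ lA a ++ X ++ (lC a b c).diff Y) ↔ k ∈ X := by
      simp only [List.mem_append]
      constructor
      · rintro ((h | h) | h)
        · have := (hAm k).1 h; omega
        · exact h
        · have := (hCm k).1 ((hmd k).1 h).1; omega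
      · exact fun h => Or.inl (Or.inr h)
    simp only [h4]
  · congr 1
    refine List.filter_congr fun k hk => ?_
    have h2 := (hCm k).1 hk
    have h4 : ¬ (k ∈ lA a ++ X ++ (lC a b c).diff Y) ↔ k ∈ Y := by
      simp only [List.mem_append, hmd]
      constructor
      · intro h
        by_contra h5
        exact h (Or.inr ⟨hk, h5⟩)
      · rintro h ((h6 | h6) | h6)
        · have := (hAm k).1 h6; omega
        · have := (hBm k).1 (hXB k h6); omega
        · exact h6.2 h
    simp only [h4]

end

theorem thm_Cfw (hCpf : St_Cpf) (hBra : St_Bra) (hDwp : St_Dwp) (hDwl : St_Dwl) : St_Cfw := by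
  intro U _ N hN a b c X hb hc hX hXB u hu
  obtain ⟨⟨hAn, hBn, hCn, hAm, hBm, hCm, hdm, -, -⟩, -⟩ := hDwp a b c
  set C := lC a b c with hCdef
  have hClen : C.length = c := by simp [hCdef, lC]
  have hPC : ∀ k ∈ lA a ++ X, k ∉ C := by
    intro k hk h
    have h3 := (hCm k).1 h
    rcases List.mem_append.1 hk with hk | hk
    · have := (hAm k).1 hk; omega
    · have := (hBm k).1 (hXB k hk); omega
  have hfam := Cfw_fam hCpf hBra hN (lA a ++ X) C hCn hPC
  set FF : List ℕ → ((ℕ → N) → U) := fun Y =>
    sg (Y ++ C.diff Y) • vf N (dW a b c) (lA a ++ X ++ C.diff Y) with hFF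
  -- one function
  have key : ∀ (Y : List ℕ) (i j : ℕ), Y.Nodup → (∀ k ∈ Y, k ∈ C) → Y.length < c → i ∈ C → j ∈ C →
      i ≠ j → (C.filter (· ∈ Y)).map (Equiv.swap i j) = C.filter (· ∈ Y.map (Equiv.swap i j)) →
      sf (-1) C i j (FF Y) = FF (Y.map (Equiv.swap i j)) := by
    intro Y i j hY hYC hlen hi hj hij hfil
    set Y' := Y.map (Equiv.swap i j) with hY'
    have hYn' : Y'.Nodup := (List.nodup_map_iff (Equiv.swap i j).injective).2 hY
    have hsw : ∀ k ∈ C, Equiv.swap i j k ∈ C := by
      intro k hk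
      by_cases h1 : k = i
      · rw [h1, Equiv.swap_apply_left]; exact hj
      · by_cases h2 : k = j
        · rw [h2, Equiv.swap_apply_right]; exact hi
        · rw [Equiv.swap_apply_of_ne_of_ne h1 h2]; exact hk
    have hYC' : ∀ k ∈ Y', k ∈ C := by
      intro k hk
      obtain ⟨k', hk', rfl⟩ := List.mem_map.1 hk
      exact hsw k' (hYC k' hk')
    have hact := hfam.act i hi j hj hij Y hYC
    have hdne : ∀ Z : List ℕ, Z.length < c → C.diff Z ≠ [] := by
      intro Z hZ h
      have h1 := Cfw_len Z C
      rw [h, hClen, List.length_nil] at h1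
      omega
    have e1 : cpl C (Cfw_ph N (lA a ++ X)) Y = sg (Y ++ C.diff Y) • br (lA a ++ X ++ C.diff Y) := by
      unfold cpl Cfw_ph
      rw [if_pos hY, if_neg]
      intro h
      exact hdne Y hlen (List.append_eq_nil_iff.1 h).2
    have e2 : cpl C (Cfw_ph N (lA a ++ X)) Y' = sg (Y' ++ C.diff Y') • br (lA a ++ X ++ C.diff Y') := by
      unfold cpl Cfw_ph
      rw [if_pos hYn', if_neg]
      intro h
      exact hdne Y' (by rw [hY', List.length_map]; exact hlen) (List.append_eq_nil_iff.1 h).2
    rw [e1, e2, Cfw_sf C i j hi hj] at hact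
    rw [Cfw_sf C i j hi hj]
    have hfix : ∀ (L : List ℕ), (∀ k ∈ L, k ∉ C) → L.map (Equiv.swap i j) = L := by
      intro L hL
      conv_rhs => rw [← List.map_id L]
      refine List.map_congr_left fun k hk => ?_
      have h1 := hL k hk
      exact Equiv.swap_apply_of_ne_of_ne (fun h => h1 (h ▸ hi)) (fun h => h1 (h ▸ hj))
    have hAC : ∀ k ∈ lA a, k ∉ C := fun k hk => hPC k (List.mem_append_left _ hk)
    have hBC : ∀ k ∈ lB a b, k ∉ C := by
      intro k hk h
      have h1 := (hBm k).1 hk
      have h2 := (hCm k).1 h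
      omega
    have hd : ((dW a b c).diff (lA a ++ X ++ C.diff Y)).map (Equiv.swap i j) =
        (dW a b c).diff (lA a ++ X ++ C.diff Y') := by
      rw [Cfw_filt a b c hDwp hDwl X Y hX hXB, Cfw_filt a b c hDwp hDwl X Y' hX hXB]
      simp only [List.map_append]
      rw [hfix (lA a) hAC, hfix ((lB a b).filter (· ∉ X)) (fun k hk => hBC k (List.mem_of_mem_filter hk)),
        hfix (lB a b).reverse (fun k hk => hBC k (List.mem_reverse.1 hk)), hfil]
    simp only [hFF]
    funext x
    have h5 := congrFun hact x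
    simp only [Pi.neg_apply, Pi.smul_apply] at h5 ⊢
    show -(sg (Y ++ C.diff Y) • (mo ((dW a b c).diff (lA a ++ X ++ C.diff Y))
      (fun k => x (Equiv.swap i j k)) * br (lA a ++ X ++ C.diff Y) (fun k => x (Equiv.swap i j k)))) =
      sg (Y' ++ C.diff Y') • (mo ((dW a b c).diff (lA a ++ X ++ C.diff Y')) x *
        br (lA a ++ X ++ C.diff Y') x)
    rw [Cfw_mo, hd, ← mul_smul_comm, ← mul_smul_comm, ← h5, mul_neg]
  -- the sum
  have hsum : ∀ (Ys : List (List ℕ)) (i j : ℕ),
      (∀ Y ∈ Ys, sf (-1) C i j (FF Y) = FF (Y.map (Equiv.swap i j))) →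
      (Ys.map fun Y => Y.map (Equiv.swap i j)).Perm Ys →
      sf (-1) C i j (Ys.map FF).sum = (Ys.map FF).sum := by
    intro Ys i j h1 h2
    rw [map_list_sum, List.map_map]
    have h3 : Ys.map (⇑(sf (-1) C i j) ∘ FF) = (Ys.map fun Y => Y.map (Equiv.swap i j)).map FF := by
      rw [List.map_map]
      exact List.map_congr_left fun Y hY => h1 Y hY
    rw [h3]
    exact (h2.map FF).sum_eq
  obtain ⟨i0, l, hl⟩ : ∃ i0 l, C = i0 :: l := by
    cases hC : C with
    | nil => rw [hC] at hClen; simp at hClen; omega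
    | cons i0 l => exact ⟨i0, l, rfl⟩
  have hperm : ∀ (L : List ℕ) (i j : ℕ), L.Nodup → i ∈ L → j ∈ L → (L.map (Equiv.swap i j)).Perm L := by
    intro L i j hL hi hj
    refine (List.perm_ext_iff_of_nodup ((List.nodup_map_iff (Equiv.swap i j).injective).2 hL) hL).2 ?_
    have h1 : ∀ k ∈ L, Equiv.swap i j k ∈ L := by
      intro k hk
      by_cases h1 : k = i
      · rw [h1, Equiv.swap_apply_left]; exact hj
      · by_cases h2 : k = j
        · rw [h2, Equiv.swap_apply_right]; exact hi
        · rw [Equiv.swap_apply_of_ne_of_ne h1 h2]; exact hk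
    intro k
    constructor
    · intro hk
      obtain ⟨k', hk', rfl⟩ := List.mem_map.1 hk
      exact h1 k' hk'
    · intro hk
      exact List.mem_map.2 ⟨Equiv.swap i j k, h1 k hk, by simp⟩
  have hmemsw : ∀ (L : List ℕ) (i j k : ℕ), i ∈ L → j ∈ L → k ∈ L → Equiv.swap i j k ∈ L := by
    intro L i j k hi hj hk
    by_cases h1 : k = i
    · rw [h1, Equiv.swap_apply_left]; exact hj
    · by_cases h2 : k = j
      · rw [h2, Equiv.swap_apply_right]; exact hi
      · rw [Equiv.swap_apply_of_ne_of_ne h1 h2]; exact hk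
  have hflt : ∀ (L : List ℕ) (k : ℕ), L.Nodup → k ∈ L → L.filter (fun m => m = k) = [k] := by
    intro L k hL hk
    have h1 : (L.filter (fun m => m = k)).Perm [k] := by
      refine (List.perm_ext_iff_of_nodup (hL.filter _) (List.nodup_singleton k)).2 ?_
      intro m
      simp only [List.mem_filter, decide_eq_true_eq, List.mem_singleton]
      exact ⟨fun h => h.2, fun h => ⟨h ▸ hk, h⟩⟩
    exact List.perm_singleton.1 h1
  have hu' : u = (0, [[]]) ∨ u = (1, C.map fun j => [j]) ∨
      (c % 3 = 0 ∧ (u = (1, [[i0]]) ∨ u = (2, l.map fun j => [j, i0]))) := by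
    rw [hl] at hu
    unfold yt at hu
    rw [List.mem_append] at hu
    rcases hu with hu | hu
    · rw [List.mem_cons, List.mem_singleton] at hu
      rcases hu with hu | hu
      · exact Or.inl hu
      · right; left; rw [hl]; exact hu
    · have hlc : l.length + 1 = c := by rw [← hClen, hl, List.length_cons]
      split_ifs at hu with h3
      · rw [List.mem_cons, List.mem_singleton] at hu
        exact Or.inr (Or.inr ⟨by omega, hu⟩)
      · simp at hu
  rcases hu' with rfl | rfl | ⟨h3, hu'⟩
  · left
    refine ⟨Or.inl rfl, fun i hi j hj hij => ?_⟩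
    refine hsum [[]] i j ?_ (List.Perm.refl _)
    intro Y hY
    rw [List.mem_singleton] at hY
    subst hY
    exact key [] i j List.nodup_nil (by simp) (by simp; omega) hi hj hij (by simp)
  · left
    refine ⟨Or.inr rfl, fun i hi j hj hij => ?_⟩
    refine hsum _ i j ?_ ?_
    · intro Y hY
      obtain ⟨k, hk, rfl⟩ := List.mem_map.1 hY
      refine key [k] i j (List.nodup_singleton k) (by simpa using hk) (by simp; omega) hi hj hij ?_
      have h1 : C.filter (· ∈ [k]) = [k] := by
        refine Eq.trans ?_ (hflt C k hCn hk)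
        exact List.filter_congr fun m _ => by simp
      have h2 : C.filter (· ∈ [k].map (Equiv.swap i j)) = [Equiv.swap i j k] := by
        refine Eq.trans ?_ (hflt C _ hCn (hmemsw C i j k hi hj hk))
        exact List.filter_congr fun m _ => by simp
      rw [h1, h2]
      rfl
    · rw [List.map_map]
      have h1 : (C.map ((fun Y : List ℕ => Y.map (Equiv.swap i j)) ∘ fun k => [k])) =
          (C.map (Equiv.swap i j)).map fun k => [k] := by
        rw [List.map_map]
        rfl
      rw [h1]
      exact (hperm C i j hCn hi hj).map _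
  · right
    have hln : l.Nodup := (List.nodup_cons.1 (hl ▸ hCn)).2
    have hi0l : i0 ∉ l := (List.nodup_cons.1 (hl ▸ hCn)).1
    have hi0C : i0 ∈ C := by rw [hl]; exact List.mem_cons_self
    have hlC : ∀ k ∈ l, k ∈ C := fun k hk => by rw [hl]; exact List.mem_cons_of_mem _ hk
    have htl : C.tail = l := by rw [hl]; rfl
    refine ⟨h3, ?_⟩
    rw [htl]
    intro i hi j hj hij
    have hi0 : Equiv.swap i j i0 = i0 :=
      Equiv.swap_apply_of_ne_of_ne (fun h => hi0l (h ▸ hi)) (fun h => hi0l (h ▸ hj))
    rcases hu' with rfl | rfl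
    · refine hsum [[i0]] i j ?_ ?_
      · intro Y hY
        rw [List.mem_singleton] at hY
        subst hY
        refine key [i0] i j (List.nodup_singleton i0) (by simpa using hi0C) (by simp; omega) (hlC i hi)
          (hlC j hj) hij ?_
        have h1 : C.filter (· ∈ [i0]) = [i0] := by
          refine Eq.trans ?_ (hflt C i0 hCn hi0C)
          exact List.filter_congr fun m _ => by simp
        have h2 : C.filter (· ∈ [i0].map (Equiv.swap i j)) = [i0] := by
          refine Eq.trans ?_ (hflt C i0 hCn hi0C)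
          exact List.filter_congr fun m _ => by simp [hi0]
        rw [h1, h2, List.map_singleton, hi0]
      · simp [hi0]
    · have hfl2 : ∀ k ∈ l, C.filter (· ∈ [k, i0]) = [i0, k] := by
        intro k hk
        rw [hl, List.filter_cons_of_pos (by simp)]
        congr 1
        refine Eq.trans ?_ (hflt l k hln hk)
        refine List.filter_congr fun m hm => ?_
        have : m ≠ i0 := fun h => hi0l (h ▸ hm)
        simp [this]
      refine hsum _ i j ?_ ?_
      · intro Y hY
        obtain ⟨k, hk, rfl⟩ := List.mem_map.1 hY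
        have hki0 : k ≠ i0 := fun h => hi0l (h ▸ hk)
        refine key [k, i0] i j (by simp [hki0]) (by
          intro m hm
          rcases List.mem_cons.1 hm with h | h
          · rw [h]; exact hlC k hk
          · rw [List.mem_singleton.1 h]; exact hi0C) (by simp; omega) (hlC i hi) (hlC j hj) hij ?_
        have e1 : [k, i0].map (Equiv.swap i j) = [Equiv.swap i j k, i0] := by
          simp [hi0]
        rw [e1, hfl2 k hk, hfl2 _ (hmemsw l i j k hi hj hk)]
        simp [hi0]
      · rw [List.map_map]
        have h1 : (l.map ((fun Y : List ℕ => Y.map (Equiv.swap i j)) ∘ fun k => [k, i0])) =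
            (l.map (Equiv.swap i j)).map fun k => [k, i0] := by
          rw [List.map_map]
          refine List.map_congr_left fun k _ => ?_
          simp [hi0]
        rw [h1]
        exact (hperm l i j hln hi hj).map _

end Pool.Agent.CRS
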