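import Pool.Agent.CRS.StY

/-!
Campaign CRS (MP_1bb14d_al), module Cfy: `Pf` fixes the functions `wf` for `b ≤ 1`.
-/

set_option autoImplicit false

namespace Pool.Agent.CRS

open Pool.Agent.CRR Pool.Agent.CRN Pool.Agent.CRK Pool.Agent.CRL Pool.Agent.CRM Pool.Agent.CRP
open Pool.Agent.CRQ

private theorem Cfy_one {M : Type} [AddCommGroup M] (s : ℕ → ℕ → AddMonoid.End M) (B : List ℕ)
    (h : B.length ≤ 1) : To s B = 1 := by
  match B, h with
  | [], _ => rfl
  | [i], _ => simp [To, Xo]
  | _ :: _ :: _, h => simp at h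

theorem thm_Cfy (hCfw : St_Cfw) (hTfx : St_Tfx) (hVfp : St_Vfp) (hDwp : St_Dwp) : St_Cfy := by
  intro U _ N hN a b c hb habc t ht u hu
  have hD1 := (hDwp a b c).1
  have hD6 := (hDwp a b c).2.2.2.2.2
  have hAm : ∀ i, i ∈ lA a ↔ i < a := hD1.2.2.2.1
  have hBm : ∀ i, i ∈ lB a b ↔ a ≤ i ∧ i < a + b := hD1.2.2.2.2.1
  have hCm : ∀ i, i ∈ lC a b c ↔ a + b ≤ i ∧ i < a + b + c := hD1.2.2.2.2.2.1
  have hBl : (lB a b).length = b := by simp [lB]
  have hCl : (lC a b c).length = c := by simp [lC]
  have hT1 : To (sf 1 (lB a b)) (lB a b) = (1 : AddMonoid.End ((ℕ → N) → U)) :=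
    Cfy_one _ _ (by omega)
  have hP : Pf N U a b c = To (sf (-1) (lC a b c)) (lC a b c) := by
    unfold Pf
    rw [hT1, one_mul]
  rw [hP]
  by_cases hc : c ≤ 1
  · rw [Cfy_one _ _ (by omega)]
    rfl
  · have key : ∀ X ∈ t.2, To (sf (-1) (lC a b c)) (lC a b c)
        ((u.2.map fun Y => sg (Y ++ (lC a b c).diff Y) •
          vf N (dW a b c) (lA a ++ X ++ (lC a b c).diff Y)).sum) =
        (u.2.map fun Y => sg (Y ++ (lC a b c).diff Y) •
          vf N (dW a b c) (lA a ++ X ++ (lC a b c).diff Y)).sum := by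
      intro X hX
      obtain ⟨-, hXn, hXB⟩ := (hD6 _ hD1.2.1 t ht).2 X hX
      have hlt : ∀ Y : List ℕ, ∀ k ∈ lA a ++ X ++ (lC a b c).diff Y, k < a + b + c := by
        intro Y k hk
        rcases List.mem_append.1 hk with h | h
        · rcases List.mem_append.1 h with h | h
          · have := (hAm k).1 h
            omega
          · have := (hBm k).1 (hXB k h)
            omega
        · have := (hCm k).1 ((List.diff_sublist _ _).subset h)
          omega
      have h3 : (3 : ℤ) • ((u.2.map fun Y => sg (Y ++ (lC a b c).diff Y) •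
          vf N (dW a b c) (lA a ++ X ++ (lC a b c).diff Y)).sum) = 0 := by
        rw [List.smul_sum, List.map_map]
        apply List.sum_eq_zero
        intro F hF
        obtain ⟨Y, hY, rfl⟩ := List.mem_map.1 hF
        have h4 := (hVfp U N hN a b c).2.2.2.2.2 (lA a ++ X ++ (lC a b c).diff Y) habc (hlt Y)
        show (3 : ℤ) • (sg (Y ++ (lC a b c).diff Y) •
          vf N (dW a b c) (lA a ++ X ++ (lC a b c).diff Y)) = 0
        rw [smul_comm, h4, smul_zero]
      rcases hCfw U N hN a b c X hb (by omega) hXn hXB u hu with ⟨-, h⟩ | ⟨hc3, h⟩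
      · exact hTfx _ _ _ _ hD1.2.2.1 h3 h
      · obtain ⟨i0, C', hC'⟩ : ∃ i0 C', lC a b c = i0 :: C' := by
          cases hC : lC a b c with
          | nil => rw [hC] at hCl; simp at hCl; omega
          | cons i l => exact ⟨i, l, rfl⟩
        have hC'l : C'.length % 3 = 2 := by
          rw [hC'] at hCl
          simp at hCl
          omega
        have hTo : ∀ s : ℕ → ℕ → AddMonoid.End ((ℕ → N) → U), To s (lC a b c) = To s C' := by
          intro s
          rw [hC']
          simp [To, Xo, hC'l]
        rw [hTo]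
        have htail : (lC a b c).tail = C' := by rw [hC']; rfl
        rw [htail] at h
        have hn : C'.Nodup := by
          have := hD1.2.2.1
          rw [hC'] at this
          exact (List.nodup_cons.1 this).2
        exact hTfx _ _ _ _ hn h3 h
    unfold wf
    rw [map_list_sum, List.map_map]
    congr 1
    apply List.map_congr_left
    intro X hX
    exact key X hX

end Pool.Agent.CRS
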