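import Pool.Agent.CRS.StB

/-!
Campaign CRS (problem MP_1bb14d_al): module Cpf, the family of the complements.
-/

set_option autoImplicit false

namespace Pool.Agent.CRS

open Pool.Agent.CRR Pool.Agent.CRN Pool.Agent.CRK Pool.Agent.CRL Pool.Agent.CRM Pool.Agent.CRP
open Pool.Agent.CRQ

private theorem Cpf_pin {α β : Type} (F : List α → β) {l l' : List α} (hl : l.Perm l') : ∀ U : List α,
    (∀ (U' V : List α) (a b : α), (U' ++ a :: b :: V).Perm (U ++ l) → F (U' ++ a :: b :: V) = F (U' ++ b :: a :: V)) →
    F (U ++ l) = F (U ++ l') := by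
  induction hl with
  | nil => intro U _; rfl
  | cons x _ ih =>
    intro U h
    have := ih (U ++ [x]) (fun U' V a b hp => h U' V a b (by simpa using hp))
    simpa using this
  | swap x y l =>
    intro U h
    exact h U l y x (List.Perm.refl _)
  | trans h1 _ ih1 ih2 =>
    intro U h
    rw [ih1 U h]
    exact ih2 U (fun U' V a b hp => h U' V a b (hp.trans (List.Perm.append_left U h1.symm)))

theorem thm_Cpf (hS : St_Sgn) : St_Cpf := by
  intro M _ s C φ hC halt htor hact
  obtain ⟨s1, s2, s3, s4⟩ := hS
  have sq : ∀ L : List ℕ, sg L * sg L = 1 := by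
    intro L
    rcases s4 L with h | h <;> rw [h] <;> norm_num
  refine ⟨?_, ?_, ?_⟩
  · intro l1 l2 i hi j hj hk
    have hp : (l1 ++ i :: j :: l2).Perm (l1 ++ j :: i :: l2) := List.Perm.append_left l1 (List.Perm.swap j i l2)
    unfold cpl
    by_cases hn : (l1 ++ i :: j :: l2).Nodup
    · rw [if_pos hn, if_pos (hp.nodup_iff.1 hn), hp.diff_left]
      have hij : i ≠ j := by
        rintro rfl
        have : (i :: i :: l2).Nodup := (List.nodup_append.1 hn).2.1
        simp at this
      have e1 : l1 ++ i :: j :: l2 ++ C.diff (l1 ++ j :: i :: l2) = l1 ++ i :: j :: (l2 ++ C.diff (l1 ++ j :: i :: l2)) := by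
        simp
      have e2 : l1 ++ j :: i :: l2 ++ C.diff (l1 ++ j :: i :: l2) = l1 ++ j :: i :: (l2 ++ C.diff (l1 ++ j :: i :: l2)) := by
        simp
      rw [e1, e2, s1 l1 _ i j hij, neg_smul]
    · rw [if_neg hn, if_neg (fun h => hn (hp.nodup_iff.2 h)), neg_zero]
  · intro l hl
    unfold cpl
    split_ifs
    · rw [smul_comm, htor _ (fun k hk => List.diff_subset _ _ hk), smul_zero]
    · rw [smul_zero]
  · intro i hi j hj hij Y hY
    have hmap : (Y.map (Equiv.swap i j)).Nodup ↔ Y.Nodup := List.nodup_map_iff (Equiv.swap i j).injective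
    unfold cpl
    by_cases hn : Y.Nodup
    · rw [if_pos hn, if_pos (hmap.2 hn), map_zsmul, hact i hi j hj hij _ (fun k hk => List.diff_subset _ _ hk)]
      have hinv : ∀ x, Equiv.swap i j (Equiv.swap i j x) = x := fun x => Equiv.swap_apply_self i j x
      have hCs : ∀ x, Equiv.swap i j x ∈ C ↔ x ∈ C := by
        intro x
        by_cases h : x = i
        · rw [h, Equiv.swap_apply_left]; exact ⟨fun _ => hi, fun _ => hj⟩
        · by_cases h' : x = j
          · rw [h', Equiv.swap_apply_right]; exact ⟨fun _ => hj, fun _ => hi⟩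
          · rw [Equiv.swap_apply_of_ne_of_ne h h']
      have hperm : ((C.diff Y).map (Equiv.swap i j)).Perm (C.diff (Y.map (Equiv.swap i j))) := by
        rw [List.perm_ext_iff_of_nodup ((List.nodup_map_iff (Equiv.swap i j).injective).2 hC.diff) hC.diff]
        intro x
        rw [hC.mem_sdiff_iff, List.mem_map]
        constructor
        · rintro ⟨z, hz, rfl⟩
          rw [hC.mem_sdiff_iff] at hz
          refine ⟨(hCs z).2 hz.1, ?_⟩
          rw [List.mem_map]
          rintro ⟨y, hy, hyz⟩
          exact hz.2 ((Equiv.swap i j).injective hyz ▸ hy)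
        · rintro ⟨h1, h2⟩
          refine ⟨Equiv.swap i j x, ?_, hinv x⟩
          rw [hC.mem_sdiff_iff]
          exact ⟨(hCs x).2 h1, fun h => h2 (List.mem_map.2 ⟨_, h, hinv x⟩)⟩
      -- the two values of the function
      have hψ : sg ((C.diff Y).map (Equiv.swap i j)) • φ ((C.diff Y).map (Equiv.swap i j)) =
          sg (C.diff (Y.map (Equiv.swap i j))) • φ (C.diff (Y.map (Equiv.swap i j))) := by
        have hsub : ∀ k ∈ (C.diff Y).map (Equiv.swap i j), k ∈ C := fun k hk =>
          List.diff_subset _ _ (hperm.mem_iff.1 hk)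
        have hnd : ((C.diff Y).map (Equiv.swap i j)).Nodup := hperm.nodup_iff.2 hC.diff
        refine Cpf_pin (fun L => sg L • φ L) hperm [] ?_
        intro U V a b hp
        rw [List.nil_append] at hp
        have hnd' : (U ++ a :: b :: V).Nodup := hp.nodup_iff.2 hnd
        have hab : a ≠ b := by
          rintro rfl
          have : (a :: a :: V).Nodup := (List.nodup_append.1 hnd').2.1
          simp at this
        have hm : ∀ k ∈ U ++ a :: b :: V, k ∈ C := fun k hk => hsub k (hp.mem_iff.1 hk)
        show sg (U ++ a :: b :: V) • φ (U ++ a :: b :: V) = sg (U ++ b :: a :: V) • φ (U ++ b :: a :: V)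
        rw [s1 U V a b hab, halt U V a (hm a (by simp)) b (hm b (by simp)) (fun k hk => hm k (by
          rw [List.mem_append] at hk ⊢
          rcases hk with hk | hk
          · exact Or.inl hk
          · exact Or.inr (by simp [hk])))]
        rw [neg_smul, smul_neg, neg_neg]
      have e1 : sg (Y.map (Equiv.swap i j) ++ (C.diff Y).map (Equiv.swap i j)) = -sg (Y ++ C.diff Y) := by
        rw [← List.map_append]
        have hmem : ∀ x ∈ C, x ∈ Y ++ C.diff Y := by
          intro x hx
          rw [List.mem_append, hC.mem_sdiff_iff]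
          by_cases h : x ∈ Y
          · exact Or.inl h
          · exact Or.inr ⟨hx, h⟩
        refine s2 _ i j ?_ hij (hmem i hi) (hmem j hj)
        refine hn.append hC.diff ?_
        intro x hx hx'
        exact (hC.mem_sdiff_iff.1 hx').2 hx
      have e2 := s3 (Y.map (Equiv.swap i j)) _ _ hperm
      generalize (C.diff Y).map (Equiv.swap i j) = W at *
      generalize C.diff (Y.map (Equiv.swap i j)) = Z at *
      -- `φ W = (sg W * sg Z) • φ Z`
      have e3 : φ W = (sg W * sg Z) • φ Z := by
        have := congrArg (fun m => sg W • m) hψ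
        simp only [smul_smul] at this
        rw [sq, one_smul] at this
        exact this
      have e4 : sg (Y ++ C.diff Y) = -sg (Y.map (Equiv.swap i j) ++ W) := by rw [e1, neg_neg]
      rw [e4, e3, smul_neg, neg_smul, neg_neg, smul_smul]
      congr 1
      calc sg (Y.map (Equiv.swap i j) ++ W) * (sg W * sg Z) = (sg (Y.map (Equiv.swap i j) ++ W) * sg Z) * sg W := by ring
        _ = sg (Y.map (Equiv.swap i j) ++ Z) * (sg W * sg W) := by rw [e2]; ring
        _ = sg (Y.map (Equiv.swap i j) ++ Z) := by rw [sq, mul_one]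
    · rw [if_neg hn, if_neg (fun h => hn (hmap.1 h)), map_zero]

end Pool.Agent.CRS

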