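import Pool.Agent.CRS.StX

/-!
Campaign CRS (problem MP_1bb14d_al): module Dde, the operator Ddo on a word with three places.
-/

set_option autoImplicit false

namespace Pool.Agent.CRS

open Pool.Agent.CRR Pool.Agent.CRN Pool.Agent.CRK Pool.Agent.CRL Pool.Agent.CRM Pool.Agent.CRP
open Pool.Agent.CRQ

private def Dde_v {U : Type} [Ring U] (n : ℕ) (L : List U) : U := (L.take n).prod * brv (L.drop n)

private theorem Dde_Vnl {U : Type} [Ring U] (N : NonUnitalSubring U) (n : ℕ) (L : List ℕ) (x : ℕ → N) :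
    Vnl N n L x = Dde_v n (L.map fun k => (x k : U)) := by
  unfold Dde_v
  rw [← List.map_take, ← List.map_drop]
  rfl

private theorem Dde_add (hV : St_Vma) {U : Type} [Ring U] (n : ℕ) (A B : List U) (a b : U) :
    Dde_v n (A ++ (a + b) :: B) = Dde_v n (A ++ a :: B) + Dde_v n (A ++ b :: B) := by
  unfold Dde_v
  rcases Nat.lt_or_ge A.length n with h | h
  · obtain ⟨m, rfl⟩ : ∃ m, n = A.length + (m + 1) := ⟨n - A.length - 1, by omega⟩
    simp only [List.take_length_add_append, List.drop_length_add_append, List.take_succ_cons, List.drop_succ_cons]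
    rw [(hV U A (B.take m) a b).1, add_mul]
  · have e1 : ∀ c : U, (A ++ c :: B).take n = A.take n := fun c => List.take_append_of_le_length h
    have e2 : ∀ c : U, (A ++ c :: B).drop n = A.drop n ++ c :: B := fun c => List.drop_append_of_le_length h
    rw [e1, e1, e1, e2, e2, e2, (hV U (A.drop n) B a b).2, mul_add]

private theorem Dde_sub (hV : St_Vma) {U : Type} [Ring U] (n : ℕ) (A B : List U) (a b : U) :
    Dde_v n (A ++ (a - b) :: B) = Dde_v n (A ++ a :: B) - Dde_v n (A ++ b :: B) := by
  have h := Dde_add hV n A B (a - b) b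
  rw [sub_add_cancel] at h
  rw [h, add_sub_cancel_right]

private theorem Dde_prod {U : Type} [Ring U] (N : NonUnitalSubring U) : ∀ L : List U, (∀ x ∈ L, x ∈ N) → L ≠ [] →
    L.prod ∈ N
  | [], _, h => absurd rfl h
  | [a], h, _ => by simpa using h a (by simp)
  | a :: b :: l, h, _ => by
    rw [List.prod_cons]
    exact N.mul_mem (h a (by simp)) (Dde_prod N (b :: l) (fun x hx => h x (by simp [hx])) (by simp))

private theorem Dde_three (hB : St_Bra) {U : Type} [Ring U] (N : NonUnitalSubring U) (hN : Nr N) (n : ℕ) (L : List U)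
    (hL : ∀ x ∈ L, x ∈ N) (hne : L ≠ []) : (3 : ℤ) • Dde_v n L = 0 := by
  unfold Dde_v
  by_cases h : L.drop n = []
  · have e1 : L.take n = L := by
      have := List.take_append_drop n L
      rwa [h, List.append_nil] at this
    rw [h, e1]
    have e2 : (brv ([] : List U)) = 1 := by rw [brv]
    rw [e2, mul_one]
    exact hN.tor _ (Dde_prod N L hL hne)
  · rw [← mul_smul_comm, hN.tor _ ((hB U N hN).2.2.2.2 (L.drop n) (fun x hx => hL x (List.mem_of_mem_drop hx)) h), mul_zero]

theorem thm_Dde (hV : St_Vma) (hB : St_Bra) : St_Dde := by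
  intro U _ N hN n i j l0 l1 l2 l3 hij hl p q r hpqr
  funext x
  obtain ⟨G, hG⟩ : ∃ G : U → U → U → U, G = fun a b c => Dde_v n ((l0.map fun k => (x k : U)) ++ a ::
      ((l1.map fun k => (x k : U)) ++ b :: ((l2.map fun k => (x k : U)) ++ c :: (l3.map fun k => (x k : U))))) := ⟨_, rfl⟩
  have g1 : ∀ a a' b c, G (a + a') b c = G a b c + G a' b c := fun a a' b c => by
    rw [hG]; exact Dde_add hV n _ _ a a'
  have g1' : ∀ a a' b c, G (a - a') b c = G a b c - G a' b c := fun a a' b c => by
    rw [hG]; exact Dde_sub hV n _ _ a a'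
  have g2 : ∀ a b b' c, G a (b + b') c = G a b c + G a b' c := fun a b b' c => by
    rw [hG]
    have := Dde_add hV n ((l0.map fun k => (x k : U)) ++ a :: (l1.map fun k => (x k : U)))
      ((l2.map fun k => (x k : U)) ++ c :: (l3.map fun k => (x k : U))) b b'
    simpa only [List.append_assoc, List.cons_append] using this
  have g2' : ∀ a b b' c, G a (b - b') c = G a b c - G a b' c := fun a b b' c => by
    rw [hG]
    have := Dde_sub hV n ((l0.map fun k => (x k : U)) ++ a :: (l1.map fun k => (x k : U)))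
      ((l2.map fun k => (x k : U)) ++ c :: (l3.map fun k => (x k : U))) b b'
    simpa only [List.append_assoc, List.cons_append] using this
  have g3 : ∀ a b c c', G a b (c + c') = G a b c + G a b c' := fun a b c c' => by
    rw [hG]
    have := Dde_add hV n ((l0.map fun k => (x k : U)) ++ a :: ((l1.map fun k => (x k : U)) ++ b ::
      (l2.map fun k => (x k : U)))) (l3.map fun k => (x k : U)) c c'
    simpa only [List.append_assoc, List.cons_append] using this
  have g3' : ∀ a b c c', G a b (c - c') = G a b c - G a b c' := fun a b c c' => by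
    rw [hG]
    have := Dde_sub hV n ((l0.map fun k => (x k : U)) ++ a :: ((l1.map fun k => (x k : U)) ++ b ::
      (l2.map fun k => (x k : U)))) (l3.map fun k => (x k : U)) c c'
    simpa only [List.append_assoc, List.cons_append] using this
  have ht : ∀ a b c : N, (3 : ℤ) • G a b c = 0 := by
    intro a b c
    rw [hG]
    refine Dde_three hB N hN n _ ?_ (by simp)
    intro z hz
    simp only [List.mem_append, List.mem_cons, List.mem_map] at hz
    rcases hz with ⟨k, _, rfl⟩ | rfl | ⟨k, _, rfl⟩ | rfl | ⟨k, _, rfl⟩ | rfl | ⟨k, _, rfl⟩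
    all_goals exact SetLike.coe_mem _
  -- the values of the function
  have hval : ∀ (y : ℕ → N) (p q r : ℕ), (∀ k ∈ l0 ++ l1 ++ l2 ++ l3, y k = x k) →
      Vnl N n (l0 ++ p :: (l1 ++ q :: (l2 ++ r :: l3))) y = G (y p) (y q) (y r) := by
    intro y p q r hy
    have m0 : (l0.map fun k => (y k : U)) = l0.map fun k => (x k : U) :=
      List.map_congr_left fun k hk => by rw [hy k (by simp [hk])]
    have m1 : (l1.map fun k => (y k : U)) = l1.map fun k => (x k : U) :=
      List.map_congr_left fun k hk => by rw [hy k (by simp [hk])]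
    have m2 : (l2.map fun k => (y k : U)) = l2.map fun k => (x k : U) :=
      List.map_congr_left fun k hk => by rw [hy k (by simp [hk])]
    have m3 : (l3.map fun k => (y k : U)) = l3.map fun k => (x k : U) :=
      List.map_congr_left fun k hk => by rw [hy k (by simp [hk])]
    rw [Dde_Vnl, hG]
    simp only [List.map_append, List.map_cons, m0, m1, m2, m3]
  have hs : ∀ m m' : ℤ, ∀ k ∈ l0 ++ l1 ++ l2 ++ l3, sbx i j m m' x k = x k := by
    intro m m' k hk
    unfold sbx
    rw [if_neg]
    have := hl k hk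
    tauto
  have hsi : ∀ m m' : ℤ, sbx i j m m' x i = m • x i + m' • x j := by
    intro m m'
    unfold sbx
    rw [if_pos (Or.inl rfl)]
  have hsj : ∀ m m' : ℤ, sbx i j m m' x j = m • x i + m' • x j := by
    intro m m'
    unfold sbx
    rw [if_pos (Or.inr rfl)]
  have hD : Ddo N U i j (Vnl N n (l0 ++ p :: (l1 ++ q :: (l2 ++ r :: l3)))) x =
      -(Vnl N n (l0 ++ p :: (l1 ++ q :: (l2 ++ r :: l3))) (sbx i j 1 1 x) -
        Vnl N n (l0 ++ p :: (l1 ++ q :: (l2 ++ r :: l3))) (sbx i j 1 (-1) x)) -
        Vnl N n (l0 ++ p :: (l1 ++ q :: (l2 ++ r :: l3))) (sbx i j 0 1 x) := rfl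
  have hp : ∀ m m' : ℤ, ∀ t ∈ [p, q, r], sbx i j m m' x t = m • x i + m' • x j := by
    intro m m' t ht'
    have : t = i ∨ t = j := by
      simp only [List.mem_cons, List.not_mem_nil, or_false] at ht'
      rcases hpqr with ⟨rfl, rfl, rfl⟩ | ⟨rfl, rfl, rfl⟩ | ⟨rfl, rfl, rfl⟩ <;> tauto
    rcases this with rfl | rfl
    · exact hsi m m'
    · exact hsj m m'
  rw [hD, hval _ p q r (hs 1 1), hval _ p q r (hs 1 (-1)), hval _ p q r (hs 0 1)]
  simp only [Pi.add_apply]
  rw [hval x i i j (fun k _ => rfl), hval x i j i (fun k _ => rfl), hval x j i i (fun k _ => rfl)]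
  have c1 : ∀ t ∈ [p, q, r], ((sbx i j 1 1 x t : N) : U) = (x i : U) + (x j : U) := by
    intro t ht'
    rw [hp 1 1 t ht', one_smul, one_smul]
    rfl
  have c2 : ∀ t ∈ [p, q, r], ((sbx i j 1 (-1) x t : N) : U) = (x i : U) - (x j : U) := by
    intro t ht'
    rw [hp 1 (-1) t ht', one_smul, neg_one_smul, ← sub_eq_add_neg]
    rfl
  have c3 : ∀ t ∈ [p, q, r], ((sbx i j 0 1 x t : N) : U) = (x j : U) := by
    intro t ht'
    rw [hp 0 1 t ht', zero_smul, one_smul, zero_add]
  rw [c1 p (by simp), c1 q (by simp), c1 r (by simp), c2 p (by simp), c2 q (by simp), c2 r (by simp), c3 p (by simp),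
    c3 q (by simp), c3 r (by simp)]
  have t1 := ht (x i) (x i) (x j)
  have t2 := ht (x i) (x j) (x i)
  have t3 := ht (x j) (x i) (x i)
  have t4 := ht (x j) (x j) (x j)
  simp only [g1, g1', g2, g2', g3, g3']
  linear_combination (norm := abel) -t1 - t2 - t3 - t4

end Pool.Agent.CRS

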