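import Pool.Agent.CRS.StX

/-!
Campaign CRS, p = 3, module Ddj: the operators `Ddo` preserve the filtration.
-/

set_option autoImplicit false

namespace Pool.Agent.CRS

open Pool.Agent.CRR Pool.Agent.CRN Pool.Agent.CRK Pool.Agent.CRL Pool.Agent.CRM Pool.Agent.CRP
open Pool.Agent.CRQ

private lemma Ddj_first (i j : ℕ) : ∀ L : List ℕ, 1 ≤ L.count i + L.count j →
    ∃ (l0 : List ℕ) (p : ℕ) (L' : List ℕ), L = l0 ++ p :: L' ∧ (p = i ∨ p = j) ∧ ∀ k ∈ l0, k ≠ i ∧ k ≠ j
  | [], h => by simp at h
  | a :: L, h => by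
    by_cases ha : a = i ∨ a = j
    · exact ⟨[], a, L, rfl, ha, by simp⟩
    · push Not at ha
      have h1 : 1 ≤ L.count i + L.count j := by
        rw [List.count_cons_of_ne ha.1, List.count_cons_of_ne ha.2] at h
        exact h
      obtain ⟨l0, p, L', h2, h3, h4⟩ := Ddj_first i j L h1
      refine ⟨a :: l0, p, L', by rw [h2]; rfl, h3, ?_⟩
      intro k hk
      rw [List.mem_cons] at hk
      rcases hk with rfl | hk
      · exact ha
      · exact h4 k hk

private lemma Ddj_cnt (i : ℕ) (l0 : List ℕ) (p : ℕ) (L' : List ℕ) (h : ∀ k ∈ l0, k ≠ i) :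
    (l0 ++ p :: L').count i = L'.count i + if p = i then 1 else 0 := by
  rw [List.count_append, List.count_eq_zero_of_not_mem (fun hk => h i hk rfl), zero_add, List.count_cons]
  simp

/-- the form of a list which contains `i` twice and `j` once -/
private lemma Ddj_form (i j : ℕ) (hij : i ≠ j) (L : List ℕ) (hi : L.count i = 2) (hj : L.count j = 1) :
    ∃ (l0 l1 l2 l3 : List ℕ) (p q r : ℕ), L = l0 ++ p :: (l1 ++ q :: (l2 ++ r :: l3)) ∧
      (∀ k ∈ l0 ++ l1 ++ l2 ++ l3, k ≠ i ∧ k ≠ j) ∧
      ((p = i ∧ q = i ∧ r = j) ∨ (p = i ∧ q = j ∧ r = i) ∨ (p = j ∧ q = i ∧ r = i)) := by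
  obtain ⟨l0, p, L1, h1, hp, h0⟩ := Ddj_first i j L (by omega)
  rw [h1, Ddj_cnt i l0 p L1 (fun k hk => (h0 k hk).1)] at hi
  rw [h1, Ddj_cnt j l0 p L1 (fun k hk => (h0 k hk).2)] at hj
  have c1 : L1.count i + L1.count j = 2 := by
    rcases hp with hp | hp
    · rw [if_pos hp] at hi
      rw [if_neg (fun h => hij (hp.symm.trans h))] at hj
      omega
    · rw [if_neg (fun h => hij (h.symm.trans hp))] at hi
      rw [if_pos hp] at hj
      omega
  obtain ⟨l1, q, L2, h2, hq, h01⟩ := Ddj_first i j L1 (by omega)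
  rw [h2, Ddj_cnt i l1 q L2 (fun k hk => (h01 k hk).1)] at hi
  rw [h2, Ddj_cnt j l1 q L2 (fun k hk => (h01 k hk).2)] at hj
  have c2 : L2.count i + L2.count j = 1 := by
    rw [h2, Ddj_cnt i l1 q L2 (fun k hk => (h01 k hk).1), Ddj_cnt j l1 q L2 (fun k hk => (h01 k hk).2)] at c1
    rcases hq with hq | hq
    · rw [if_pos hq, if_neg (fun h => hij (hq.symm.trans h))] at c1
      omega
    · rw [if_neg (fun h => hij (h.symm.trans hq)), if_pos hq] at c1
      omega
  obtain ⟨l2, r, L3, h3, hr, h02⟩ := Ddj_first i j L2 (by omega)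
  rw [h3, Ddj_cnt i l2 r L3 (fun k hk => (h02 k hk).1)] at hi
  rw [h3, Ddj_cnt j l2 r L3 (fun k hk => (h02 k hk).2)] at hj
  have c3 : L3.count i + L3.count j = 0 := by
    rw [h3, Ddj_cnt i l2 r L3 (fun k hk => (h02 k hk).1), Ddj_cnt j l2 r L3 (fun k hk => (h02 k hk).2)] at c2
    rcases hr with hr | hr
    · rw [if_pos hr, if_neg (fun h => hij (hr.symm.trans h))] at c2
      omega
    · rw [if_neg (fun h => hij (h.symm.trans hr)), if_pos hr] at c2
      omega
  refine ⟨l0, l1, l2, L3, p, q, r, by rw [h1, h2, h3], ?_, ?_⟩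
  · intro k hk
    rw [List.mem_append, List.mem_append, List.mem_append] at hk
    rcases hk with ((hk | hk) | hk) | hk
    · exact h0 k hk
    · exact h01 k hk
    · exact h02 k hk
    · constructor
      · rintro rfl
        have := List.count_pos_iff.2 hk
        omega
      · rintro rfl
        have := List.count_pos_iff.2 hk
        omega
  · have e1 : L3.count i = 0 := by omega
    have e2 : L3.count j = 0 := by omega
    rw [e1] at hi
    rw [e2] at hj
    rcases hp with hp | hp <;> rcases hq with hq | hq <;> rcases hr with hr | hr <;>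
      subst hp <;> subst hq <;> subst hr <;> simp_all

private lemma Ddj_dW (a b c i j : ℕ) (hi : i ∈ lB a b) (hj : j ∈ lC a b c) :
    i ≠ j ∧ (dW a b c).count i = 2 ∧ (dW a b c).count j = 1 := by
  have hi' := List.mem_range'_1.1 hi
  have hj' := List.mem_range'_1.1 hj
  have nB : (lB a b).Nodup := List.nodup_range'
  have nC : (lC a b c).Nodup := List.nodup_range'
  have iA : (lA a).count i = 0 := List.count_eq_zero_of_not_mem (fun h => by
    have := List.mem_range.1 h
    omega)
  have jA : (lA a).count j = 0 := List.count_eq_zero_of_not_mem (fun h => by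
    have := List.mem_range.1 h
    omega)
  have iC : (lC a b c).count i = 0 := List.count_eq_zero_of_not_mem (fun h => by
    have := List.mem_range'_1.1 h
    omega)
  have jB : (lB a b).count j = 0 := List.count_eq_zero_of_not_mem (fun h => by
    have := List.mem_range'_1.1 h
    omega)
  have iB : (lB a b).count i = 1 := List.count_eq_one_of_mem nB hi
  have jC : (lC a b c).count j = 1 := List.count_eq_one_of_mem nC hj
  refine ⟨by omega, ?_, ?_⟩
  · unfold dW
    rw [List.count_append, List.count_append, List.count_append, List.count_append, List.count_append, List.count_reverse,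
      iA, iB, iC]
  · unfold dW
    rw [List.count_append, List.count_append, List.count_append, List.count_append, List.count_append, List.count_reverse,
      jA, jB, jC]

private lemma Ddj_gen {U : Type} [Ring U] (N : NonUnitalSubring U) (d : List ℕ) (k n : ℕ) (L : List ℕ) (h : L.Perm d)
    (hk : k + n ≤ L.length) : Vnl N n L ∈ Jf N d k := by
  refine AddSubgroup.subset_closure ⟨L.take n, L.drop n, ?_, ?_, rfl⟩
  · rw [List.take_append_drop]
    exact h
  · rw [List.length_drop]
    omega

theorem thm_Ddj (hD : St_Dde) : St_Ddj := by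
  intro U _ N hN a b c k i j hi hj
  obtain ⟨hij, ci, cj⟩ := Ddj_dW a b c i j hi hj
  have key : Jf N (dW a b c) k ≤ (Jf N (dW a b c) k).comap (Ddo N U i j) := by
    conv_lhs => unfold Jf
    rw [AddSubgroup.closure_le]
    rintro F ⟨l, S, hp, hk, rfl⟩
    show Ddo N U i j (mo l * br S) ∈ Jf N (dW a b c) k
    have e1 : (mo l * br S : (ℕ → N) → U) = Vnl N l.length (l ++ S) := by
      unfold Vnl
      rw [List.take_left, List.drop_left]
    have hlen : k + l.length ≤ (l ++ S).length := by
      rw [List.length_append]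
      omega
    rw [e1]
    obtain ⟨l0, l1, l2, l3, p, q, r, h1, h2, h3⟩ := Ddj_form i j hij (l ++ S) (by rw [hp.count_eq, ci]) (by rw [hp.count_eq, cj])
    rw [h1]
    rw [h1] at hp hlen
    rw [hD U N hN l.length i j l0 l1 l2 l3 hij h2 p q r h3]
    have hlen' : ∀ x y z : ℕ, (l0 ++ x :: (l1 ++ y :: (l2 ++ z :: l3))).length =
        (l0 ++ p :: (l1 ++ q :: (l2 ++ r :: l3))).length := by
      intro x y z
      simp
    have hg : ∀ x y z : ℕ, (x = i ∧ y = i ∧ z = j) ∨ (x = i ∧ y = j ∧ z = i) ∨ (x = j ∧ y = i ∧ z = i) →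
        Vnl N l.length (l0 ++ x :: (l1 ++ y :: (l2 ++ z :: l3))) ∈ Jf N (dW a b c) k := by
      intro x y z hxyz
      refine Ddj_gen N _ k _ _ (List.Perm.trans ?_ hp) (by rw [hlen']; exact hlen)
      rw [List.perm_iff_count]
      intro m
      have e2 : ∀ x y z : ℕ, (l0 ++ x :: (l1 ++ y :: (l2 ++ z :: l3))).count m =
          (l0.count m + l1.count m + l2.count m + l3.count m) +
            ((if x = m then 1 else 0) + (if y = m then 1 else 0) + (if z = m then 1 else 0)) := by
        intro x y z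
        simp only [List.count_append, List.count_cons, beq_iff_eq]
        ring
      rw [e2, e2]
      rcases hxyz with ⟨rfl, rfl, rfl⟩ | ⟨rfl, rfl, rfl⟩ | ⟨rfl, rfl, rfl⟩ <;>
        rcases h3 with ⟨rfl, rfl, rfl⟩ | ⟨rfl, rfl, rfl⟩ | ⟨rfl, rfl, rfl⟩ <;> ring
    exact add_mem (add_mem (hg i i j (Or.inl ⟨rfl, rfl, rfl⟩)) (hg i j i (Or.inr (Or.inl ⟨rfl, rfl, rfl⟩))))
      (hg j i i (Or.inr (Or.inr ⟨rfl, rfl, rfl⟩)))
  intro F hF
  exact key hF

end Pool.Agent.CRS
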