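import Pool.Agent.CRS.StX

/-!
Campaign CRS, p = 3, module Ddv: the operators `Ddo` on the standard functions.
-/

set_option autoImplicit false

namespace Pool.Agent.CRS

open Pool.Agent.CRR Pool.Agent.CRN Pool.Agent.CRK Pool.Agent.CRL Pool.Agent.CRM Pool.Agent.CRP
open Pool.Agent.CRQ

/-- exchange of two entries -/
private lemma Ddv_mv {U : Type} [Ring U] {N : NonUnitalSubring U} (hN : Nr N) (hB : St_Bra) (a b : U) (l3 : List U) :
    ∀ (l2 l1 : List U), (∀ x ∈ l1 ++ a :: (l2 ++ b :: l3), x ∈ N) →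
      brv (l1 ++ a :: (l2 ++ b :: l3)) = -brv (l1 ++ b :: (l2 ++ a :: l3))
  | [], l1, h => (hB U N hN).1 l1 l3 a b h
  | c :: l2, l1, h => by
    have h1 := (hB U N hN).1 l1 (l2 ++ b :: l3) a c h
    have h2 := Ddv_mv hN hB a b l3 l2 (l1 ++ [c]) (fun x hx => h x (by
      simp only [List.mem_append, List.mem_cons, List.cons_append, List.not_mem_nil, or_false] at hx ⊢
      tauto))
    have h3 := (hB U N hN).1 l1 (l2 ++ a :: l3) b c (fun x hx => h x (by
      simp only [List.mem_append, List.mem_cons, List.cons_append] at hx ⊢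
      tauto))
    rw [List.append_assoc, List.append_assoc] at h2
    simp only [List.cons_append, List.nil_append] at h1 h2 h3 ⊢
    rw [h1, h2, h3]

private lemma Ddv_br {U : Type} [Ring U] {N : NonUnitalSubring U} (hN : Nr N) (hB : St_Bra) (S1 S2 S3 : List ℕ) (i j : ℕ) :
    (br (S1 ++ i :: (S2 ++ j :: S3)) : (ℕ → N) → U) = -br (S1 ++ j :: (S2 ++ i :: S3)) := by
  funext x
  show brv ((S1 ++ i :: (S2 ++ j :: S3)).map fun k => (x k : U)) =
    -brv ((S1 ++ j :: (S2 ++ i :: S3)).map fun k => (x k : U))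
  rw [List.map_append, List.map_cons, List.map_append, List.map_cons, List.map_append, List.map_cons, List.map_append,
    List.map_cons]
  refine Ddv_mv hN hB _ _ _ _ _ fun y hy => ?_
  simp only [List.mem_append, List.mem_cons, List.mem_map] at hy
  rcases hy with ⟨t, _, rfl⟩ | rfl | ⟨t, _, rfl⟩ | rfl | ⟨t, _, rfl⟩
  all_goals exact SetLike.coe_mem _

private lemma Ddv_vnl {U : Type} [Ring U] {N : NonUnitalSubring U} (l S L : List ℕ) (n : ℕ) (h : L = l ++ S)
    (hn : n = l.length) : (Vnl N n L : (ℕ → N) → U) = mo l * br S := by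
  subst h
  subst hn
  unfold Vnl
  rw [List.take_left, List.drop_left]

private lemma Ddv_dW (a b c i j : ℕ) (hi : i ∈ lB a b) (hj : j ∈ lC a b c) :
    i ≠ j ∧ (dW a b c).count i = 2 ∧ (dW a b c).count j = 1 := by
  have hi' := List.mem_range'_1.1 hi
  have hj' := List.mem_range'_1.1 hj
  have nB : (lB a b).Nodup := List.nodup_range'
  have nC : (lC a b c).Nodup := List.nodup_range'
  have iA : (lA a).count i = 0 := List.count_eq_zero_of_not_mem (fun h => by
    have := List.mem_range.1 h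
    omega)
  have jA : (lA a).count j = 0 := List.count_eq_zero_of_not_mem (fun h => by
    have := List.mem_range.1 h
    omega)
  have iC : (lC a b c).count i = 0 := List.count_eq_zero_of_not_mem (fun h => by
    have := List.mem_range'_1.1 h
    omega)
  have jB : (lB a b).count j = 0 := List.count_eq_zero_of_not_mem (fun h => by
    have := List.mem_range'_1.1 h
    omega)
  have iB : (lB a b).count i = 1 := List.count_eq_one_of_mem nB hi
  have jC : (lC a b c).count j = 1 := List.count_eq_one_of_mem nC hj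
  refine ⟨by omega, ?_, ?_⟩
  · unfold dW
    rw [List.count_append, List.count_append, List.count_append, List.count_append, List.count_append, List.count_reverse,
      iA, iB, iC]
  · unfold dW
    rw [List.count_append, List.count_append, List.count_append, List.count_append, List.count_append, List.count_reverse,
      jA, jB, jC]

/-- take one letter out of a list -/
private lemma Ddv_out (L : List ℕ) (i : ℕ) (h : 1 ≤ L.count i) : ∃ L', L.Perm (i :: L') :=
  ⟨L.erase i, List.perm_cons_erase (List.count_pos_iff.1 h)⟩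

private lemma Ddv_map (i j : ℕ) (S : List ℕ) (hi : i ∉ S) (hj : j ∉ S) : S.map (Equiv.swap i j) = S := by
  conv_rhs => rw [← List.map_id S]
  refine List.map_congr_left fun k hk => ?_
  rw [Equiv.swap_apply_of_ne_of_ne]
  · rfl
  · rintro rfl
    exact hi hk
  · rintro rfl
    exact hj hk

/-- the operator on a word with the three letters at given places -/
private lemma Ddv_core (hD : St_Dde) {U : Type} [Ring U] {N : NonUnitalSubring U} (hN : Nr N) (d : List ℕ) (i j : ℕ)
    (hij : i ≠ j) (ci : d.count i = 2) (cj : d.count j = 1) (n : ℕ) (l0 l1 l2 l3 : List ℕ) (p q r : ℕ)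
    (hp : (l0 ++ p :: (l1 ++ q :: (l2 ++ r :: l3))).Perm d)
    (h3 : (p = i ∧ q = i ∧ r = j) ∨ (p = i ∧ q = j ∧ r = i) ∨ (p = j ∧ q = i ∧ r = i)) :
    Ddo N U i j (Vnl N n (l0 ++ p :: (l1 ++ q :: (l2 ++ r :: l3)))) =
    Vnl N n (l0 ++ i :: (l1 ++ i :: (l2 ++ j :: l3))) + Vnl N n (l0 ++ i :: (l1 ++ j :: (l2 ++ i :: l3))) +
    Vnl N n (l0 ++ j :: (l1 ++ i :: (l2 ++ i :: l3))) := by
  refine hD U N hN n i j l0 l1 l2 l3 hij ?_ p q r h3
  have e2 : ∀ m : ℕ, (l0 ++ p :: (l1 ++ q :: (l2 ++ r :: l3))).count m = (l0 ++ l1 ++ l2 ++ l3).count m +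
        ((if p = m then 1 else 0) + (if q = m then 1 else 0) + (if r = m then 1 else 0)) := by
    intro m
    simp only [List.count_append, List.count_cons, beq_iff_eq]
    ring
  have f1 := e2 i
  have f2 := e2 j
  rw [hp.count_eq, ci] at f1
  rw [hp.count_eq, cj] at f2
  have g : (l0 ++ l1 ++ l2 ++ l3).count i = 0 ∧ (l0 ++ l1 ++ l2 ++ l3).count j = 0 := by
    rcases h3 with ⟨rfl, rfl, rfl⟩ | ⟨rfl, rfl, rfl⟩ | ⟨rfl, rfl, rfl⟩
    all_goals
      simp only [if_true, if_neg hij, if_neg hij.symm] at f1 f2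
      omega
  intro k hk
  constructor
  · rintro rfl
    have := List.count_pos_iff.2 hk
    omega
  · rintro rfl
    have := List.count_pos_iff.2 hk
    omega

theorem thm_Ddv (hJ : St_Ddj) (hD : St_Dde) (hV : St_Vfp) (hP : St_Jpr) (hB : St_Bra) (hW : St_Dwp) : St_Ddv := by
  intro U _ N hN a b c i j hi hj S hS hSk
  obtain ⟨hij, ci, cj⟩ := Ddv_dW a b c i j hi hj
  have hi' := List.mem_range'_1.1 hi
  obtain ⟨V1, -, -, -, -, V6⟩ := hV U N hN a b c
  have W3 := (hW a b c).2.2.1 S hS hSk
  have cSi : ((dW a b c).diff S).count i + S.count i = 2 := by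
    rw [← ci, ← W3.count_eq, List.count_append]
  have cSj : ((dW a b c).diff S).count j + S.count j = 1 := by
    rw [← cj, ← W3.count_eq, List.count_append]
  obtain ⟨J, hJd⟩ : ∃ J, J = Jf (U := U) N (dW a b c) (S.length + 1) := ⟨_, rfl⟩
  obtain ⟨d, hd⟩ : ∃ d, d = dW a b c := ⟨_, rfl⟩
  rw [← hd] at hJd ci cj W3 cSi cSj V1 V6 ⊢
  rw [← hJd]
  -- replacing by standard functions
  have R1 : ∀ l S' : List ℕ, (l ++ S').Perm d → S'.Nodup → S'.length = S.length →
      (mo l * br S' - vf N d S' : (ℕ → N) → U) ∈ J := by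
    intro l S' h1 h2 h3
    have := V1 l S' h1 h2
    rwa [h3, ← hJd] at this
  have R2 : ∀ l : List ℕ, (l ++ S).Perm d → ∀ F : (ℕ → N) → U, Ddo N U i j (mo l * br S) - F ∈ J →
      Ddo N U i j (vf N d S) - F ∈ J := by
    intro l h1 F hF
    have h2 := hJ U N hN a b c (S.length + 1) i j hi hj _ (by rw [← hd, ← hJd]; exact R1 l S h1 hS rfl)
    rw [← hd, ← hJd, map_sub] at h2
    have h3 := sub_mem hF h2
    have e : Ddo N U i j (mo l * br S) - F - (Ddo N U i j (mo l * br S) - Ddo N U i j (vf N d S)) =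
        Ddo N U i j (vf N d S) - F := by abel
    rwa [e] at h3
  have T3 : ∀ S' : List ℕ, (∀ k ∈ S', k < a + b + c) → (vf N d S' : (ℕ → N) → U) + vf N d S' + vf N d S' = 0 := by
    intro S' h1
    have h2 := V6 S' (by omega) h1
    rw [← h2]
    abel
  refine ⟨fun h1 h2 => ?_, fun h1 h2 => ?_, fun h1 h2 => ?_, fun h1 h2 => ?_⟩
  · -- both not in S
    have z1 := List.count_eq_zero_of_not_mem h1
    have z2 := List.count_eq_zero_of_not_mem h2
    obtain ⟨l1, p1⟩ := Ddv_out (d.diff S) i (by omega)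
    have c1 := p1.count_eq i
    have c1' := p1.count_eq j
    rw [List.count_cons_self] at c1
    rw [List.count_cons_of_ne hij] at c1'
    obtain ⟨l2, p2⟩ := Ddv_out l1 i (by omega)
    have c2' := p2.count_eq j
    rw [List.count_cons_of_ne hij] at c2'
    obtain ⟨l3, p3⟩ := Ddv_out l2 j (by omega)
    have hp : (i :: i :: j :: l3).Perm (d.diff S) :=
      (p1.trans ((p2.trans (p3.cons i)).cons i)).symm
    have hq : ((i :: i :: j :: l3) ++ S).Perm d := (hp.append_right S).trans W3
    have e := Ddv_core hD hN d i j hij ci cj (l3.length + 3) [] [] [] (l3 ++ S) i i j hq (Or.inl ⟨rfl, rfl, rfl⟩)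
    rw [Ddv_vnl (i :: i :: j :: l3) S ([] ++ i :: ([] ++ i :: ([] ++ j :: (l3 ++ S)))) (l3.length + 3) rfl rfl,
      Ddv_vnl (i :: j :: i :: l3) S ([] ++ i :: ([] ++ j :: ([] ++ i :: (l3 ++ S)))) (l3.length + 3) rfl rfl,
      Ddv_vnl (j :: i :: i :: l3) S ([] ++ j :: ([] ++ i :: ([] ++ i :: (l3 ++ S)))) (l3.length + 3) rfl rfl] at e
    have hq2 : ((i :: j :: i :: l3) ++ S).Perm d := (List.Perm.append_right S ((List.Perm.swap i j l3).cons i)).trans hq
    have hq3 : ((j :: i :: i :: l3) ++ S).Perm d := (List.Perm.append_right S (List.Perm.swap i j (i :: l3))).trans hq2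
    have h5 := add_mem (add_mem (R1 _ S hq hS rfl) (R1 _ S hq2 hS rfl)) (R1 _ S hq3 hS rfl)
    have h6 := R2 _ hq 0 (by
      rw [sub_zero, e]
      have e3 : (mo (i :: i :: j :: l3) * br S - vf N d S) + (mo (i :: j :: i :: l3) * br S - vf N d S) +
          (mo (j :: i :: i :: l3) * br S - vf N d S) = (mo (i :: i :: j :: l3) * br S + mo (i :: j :: i :: l3) * br S +
          mo (j :: i :: i :: l3) * br S : (ℕ → N) → U) - (vf N d S + vf N d S + vf N d S) := by abel
      rw [e3, T3 S hSk, sub_zero] at h5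
      exact h5)
    rwa [sub_zero] at h6
  · -- both in S
    have z1 := List.count_eq_one_of_mem hS h1
    have z2 := List.count_eq_one_of_mem hS h2
    obtain ⟨l1, p1⟩ := Ddv_out (d.diff S) i (by omega)
    have hq : ((i :: l1) ++ S).Perm d := (p1.symm.append_right S).trans W3
    have key : ∀ x y : ℕ, ((x = i ∧ y = j) ∨ (x = j ∧ y = i)) → ∀ S1 S2 S3 : List ℕ, S = S1 ++ x :: (S2 ++ y :: S3) →
        Ddo N U i j (mo (i :: l1) * br S) = 0 := by
      intro x y hxy S1 S2 S3 hS1
      have e := Ddv_core hD hN d i j hij ci cj (l1.length + 1) [] (l1 ++ S1) S2 S3 i x y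
        (by rw [hS1] at hq; simpa using hq) (by tauto)
      rw [Ddv_vnl (i :: l1) S ([] ++ i :: (l1 ++ S1 ++ x :: (S2 ++ y :: S3))) (l1.length + 1) (by rw [hS1]; simp) rfl,
        Ddv_vnl (i :: l1) (S1 ++ i :: (S2 ++ j :: S3)) ([] ++ i :: (l1 ++ S1 ++ i :: (S2 ++ j :: S3))) (l1.length + 1)
          (by simp) rfl,
        Ddv_vnl (i :: l1) (S1 ++ j :: (S2 ++ i :: S3)) ([] ++ i :: (l1 ++ S1 ++ j :: (S2 ++ i :: S3))) (l1.length + 1)
          (by simp) rfl,
        Ddv_vnl (j :: l1) (S1 ++ i :: (S2 ++ i :: S3)) ([] ++ j :: (l1 ++ S1 ++ i :: (S2 ++ i :: S3))) (l1.length + 1)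
          (by simp) rfl] at e
      rw [e, Ddv_br hN hB S1 S2 S3 i j, (hP U N hN d 0).2.2.2.2.2.2 (S1 ++ i :: (S2 ++ i :: S3)) (by
        intro hn
        have := List.nodup_append.1 hn
        have h7 := this.2.1
        rw [List.nodup_cons] at h7
        exact h7.1 (by simp))]
      rw [mul_neg, mul_zero, add_zero, neg_add_cancel]
    obtain ⟨S1, S2, hS1⟩ := List.append_of_mem h1
    have h0 : Ddo N U i j (mo (i :: l1) * br S) = 0 := by
      have h2' := h2
      rw [hS1, List.mem_append, List.mem_cons] at h2'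
      rcases h2' with h3 | h3 | h3
      · obtain ⟨S3, S4, hS3⟩ := List.append_of_mem h3
        exact key j i (Or.inr ⟨rfl, rfl⟩) S3 S4 S2 (by rw [hS1, hS3]; simp)
      · exact absurd h3.symm hij
      · obtain ⟨S3, S4, hS3⟩ := List.append_of_mem h3
        exact key i j (Or.inl ⟨rfl, rfl⟩) S1 S3 S4 (by rw [hS1, hS3])
    have h6 := R2 _ hq 0 (by rw [h0, sub_zero]; exact J.zero_mem)
    rwa [sub_zero] at h6
  · -- i in S, j not
    have z1 := List.count_eq_one_of_mem hS h1
    have z2 := List.count_eq_zero_of_not_mem h2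
    obtain ⟨l1, p1⟩ := Ddv_out (d.diff S) i (by omega)
    have c1' := p1.count_eq j
    rw [List.count_cons_of_ne hij] at c1'
    obtain ⟨l2, p2⟩ := Ddv_out l1 j (by omega)
    have hp : (i :: j :: l2).Perm (d.diff S) := (p1.trans (p2.cons i)).symm
    have hq : ((i :: j :: l2) ++ S).Perm d := (hp.append_right S).trans W3
    obtain ⟨S1, S2, hS1⟩ := List.append_of_mem h1
    have hnS := hS
    rw [hS1, List.nodup_append, List.nodup_cons] at hnS
    have hjS := h2
    rw [hS1, List.mem_append, List.mem_cons] at hjS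
    push Not at hjS
    have hiS1 : i ∉ S1 := fun h => hnS.2.2 i h i (by simp) rfl
    have hmap : S.map (Equiv.swap i j) = S1 ++ j :: S2 := by
      rw [hS1, List.map_append, List.map_cons, Ddv_map i j S1 hiS1 hjS.1, Ddv_map i j S2 hnS.2.1.1 hjS.2.2,
        Equiv.swap_apply_left]
    have hnod : (S1 ++ j :: S2).Nodup := by
      rw [← hmap]
      exact hS.map (Equiv.swap i j).injective
    have hlen : (S1 ++ j :: S2).length = S.length := by rw [← hmap, List.length_map]
    have hq2 : ((j :: i :: l2) ++ S).Perm d := (List.Perm.append_right S (List.Perm.swap i j l2)).trans hq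
    have hq3 : ((i :: i :: l2) ++ (S1 ++ j :: S2)).Perm d := by
      refine List.Perm.trans ?_ hq
      rw [hS1, List.perm_iff_count]
      intro m
      simp only [List.count_append, List.count_cons, List.cons_append, beq_iff_eq]
      ring
    have e := Ddv_core hD hN d i j hij ci cj (l2.length + 2) [] [] (l2 ++ S1) S2 i j i
      (by rw [hS1] at hq; simpa using hq) (Or.inr (Or.inl ⟨rfl, rfl, rfl⟩))
    rw [Ddv_vnl (i :: j :: l2) S ([] ++ i :: ([] ++ j :: (l2 ++ S1 ++ i :: S2))) (l2.length + 2) (by rw [hS1]; simp) rfl,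
      Ddv_vnl (i :: i :: l2) (S1 ++ j :: S2) ([] ++ i :: ([] ++ i :: (l2 ++ S1 ++ j :: S2))) (l2.length + 2)
        (by simp) rfl,
      Ddv_vnl (j :: i :: l2) S ([] ++ j :: ([] ++ i :: (l2 ++ S1 ++ i :: S2))) (l2.length + 2)
        (by rw [hS1]; simp) rfl] at e
    refine R2 _ hq _ ?_
    rw [e, hmap]
    have h5 := add_mem (add_mem (R1 _ _ hq3 hnod hlen) (R1 _ S hq hS rfl)) (R1 _ S hq2 hS rfl)
    have e3 : (mo (i :: i :: l2) * br (S1 ++ j :: S2) - vf N d (S1 ++ j :: S2)) + (mo (i :: j :: l2) * br S - vf N d S) +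
          (mo (j :: i :: l2) * br S - vf N d S) = (mo (i :: i :: l2) * br (S1 ++ j :: S2) + mo (i :: j :: l2) * br S +
          mo (j :: i :: l2) * br S : (ℕ → N) → U) - (vf N d (S1 ++ j :: S2) - vf N d S) -
          (vf N d S + vf N d S + vf N d S) := by abel
    rw [e3, T3 S hSk, sub_zero] at h5
    exact h5
  · -- j in S, i not
    have z1 := List.count_eq_zero_of_not_mem h1
    have z2 := List.count_eq_one_of_mem hS h2
    obtain ⟨l1, p1⟩ := Ddv_out (d.diff S) i (by omega)
    have c1 := p1.count_eq i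
    rw [List.count_cons_self] at c1
    obtain ⟨l2, p2⟩ := Ddv_out l1 i (by omega)
    have hp : (i :: i :: l2).Perm (d.diff S) := (p1.trans (p2.cons i)).symm
    have hq : ((i :: i :: l2) ++ S).Perm d := (hp.append_right S).trans W3
    obtain ⟨S1, S2, hS1⟩ := List.append_of_mem h2
    have hnS := hS
    rw [hS1, List.nodup_append, List.nodup_cons] at hnS
    have hiS := h1
    rw [hS1, List.mem_append, List.mem_cons] at hiS
    push Not at hiS
    have hjS1 : j ∉ S1 := fun h => hnS.2.2 j h j (by simp) rfl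
    have hmap : S.map (Equiv.swap i j) = S1 ++ i :: S2 := by
      rw [hS1, List.map_append, List.map_cons, Ddv_map i j S1 hiS.1 hjS1, Ddv_map i j S2 hiS.2.2 hnS.2.1.1,
        Equiv.swap_apply_right]
    have hnod : (S1 ++ i :: S2).Nodup := by
      rw [← hmap]
      exact hS.map (Equiv.swap i j).injective
    have hlen : (S1 ++ i :: S2).length = S.length := by rw [← hmap, List.length_map]
    have hq2 : ((i :: j :: l2) ++ (S1 ++ i :: S2)).Perm d := by
      refine List.Perm.trans ?_ hq
      rw [hS1, List.perm_iff_count]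
      intro m
      simp only [List.count_append, List.count_cons, List.cons_append, beq_iff_eq]
      ring
    have hq3 : ((j :: i :: l2) ++ (S1 ++ i :: S2)).Perm d :=
      (List.Perm.append_right _ (List.Perm.swap i j l2)).trans hq2
    have e := Ddv_core hD hN d i j hij ci cj (l2.length + 2) [] [] (l2 ++ S1) S2 i i j
      (by rw [hS1] at hq; simpa using hq) (Or.inl ⟨rfl, rfl, rfl⟩)
    rw [Ddv_vnl (i :: i :: l2) S ([] ++ i :: ([] ++ i :: (l2 ++ S1 ++ j :: S2))) (l2.length + 2) (by rw [hS1]; simp) rfl,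
      Ddv_vnl (i :: j :: l2) (S1 ++ i :: S2) ([] ++ i :: ([] ++ j :: (l2 ++ S1 ++ i :: S2))) (l2.length + 2)
        (by simp) rfl,
      Ddv_vnl (j :: i :: l2) (S1 ++ i :: S2) ([] ++ j :: ([] ++ i :: (l2 ++ S1 ++ i :: S2))) (l2.length + 2)
        (by simp) rfl] at e
    have hkm : ∀ k ∈ S1 ++ i :: S2, k < a + b + c := by
      intro k hk
      rw [List.mem_append, List.mem_cons] at hk
      rcases hk with hk | rfl | hk
      · exact hSk k (by rw [hS1]; simp [hk])
      · omega
      · exact hSk k (by rw [hS1]; simp [hk])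
    refine R2 _ hq _ ?_
    rw [e, hmap]
    have h5 := add_mem (add_mem (R1 _ S hq hS rfl) (R1 _ _ hq2 hnod hlen)) (R1 _ _ hq3 hnod hlen)
    have e3 : (mo (i :: i :: l2) * br S - vf N d S) + (mo (i :: j :: l2) * br (S1 ++ i :: S2) - vf N d (S1 ++ i :: S2)) +
          (mo (j :: i :: l2) * br (S1 ++ i :: S2) - vf N d (S1 ++ i :: S2)) =
          (mo (i :: i :: l2) * br S + mo (i :: j :: l2) * br (S1 ++ i :: S2) +
          mo (j :: i :: l2) * br (S1 ++ i :: S2) : (ℕ → N) → U) - (vf N d S - vf N d (S1 ++ i :: S2)) -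
          (vf N d (S1 ++ i :: S2) + vf N d (S1 ++ i :: S2) + vf N d (S1 ++ i :: S2)) := by abel
    rw [e3, T3 _ hkm, sub_zero] at h5
    exact h5

end Pool.Agent.CRS
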