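import Pool.Agent.CRS.StY

/-!
# CRS, Dwl: the list without the letters of `S`
-/

set_option autoImplicit false

namespace Pool.Agent.CRS

private theorem Dwl_gen (S : List ℕ) : S.Nodup → ∀ L1 L2 : List ℕ, L1.Nodup →
    (L1 ++ L2).diff S = L1.filter (· ∉ S) ++ L2.diff (S.filter (· ∉ L1)) := by
  induction S with
  | nil =>
    intro _ L1 L2 _
    have h1 : L1.filter (· ∉ ([] : List ℕ)) = L1 := by
      rw [List.filter_eq_self]
      intro t _
      simp
    rw [h1]
    simp
  | cons s S ih =>
    intro hS L1 L2 h1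
    rw [List.nodup_cons] at hS
    rw [List.diff_cons]
    by_cases hs : s ∈ L1
    · rw [List.erase_append_left _ hs, ih hS.2 _ _ (h1.erase s)]
      have e1 : (L1.erase s).filter (· ∉ S) = L1.filter (· ∉ s :: S) := by
        rw [h1.erase_eq_filter, List.filter_filter]
        refine List.filter_congr fun t _ => ?_
        rw [Bool.eq_iff_iff]
        simp only [Bool.and_eq_true, decide_eq_true_eq, bne_iff_ne, List.mem_cons, not_or]
        tauto
      have e2 : S.filter (· ∉ L1.erase s) = (s :: S).filter (· ∉ L1) := by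
        rw [List.filter_cons_of_neg (by simpa using hs)]
        refine List.filter_congr fun t ht => ?_
        rw [Bool.eq_iff_iff]
        have h2 : t ≠ s := by
          rintro rfl
          exact hS.1 ht
        simp only [decide_eq_true_eq, List.mem_erase_of_ne h2]
      rw [e1, e2]
    · rw [List.erase_append_right _ hs, ih hS.2 _ _ h1]
      have e1 : L1.filter (· ∉ S) = L1.filter (· ∉ s :: S) := by
        refine List.filter_congr fun t ht => ?_
        rw [Bool.eq_iff_iff]
        have h2 : t ≠ s := by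
          rintro rfl
          exact hs ht
        simp only [decide_eq_true_eq, List.mem_cons, not_or]
        tauto
      rw [List.filter_cons_of_pos (by simpa using hs), List.diff_cons, e1]

theorem thm_Dwl : St_Dwl := by
  intro a b c S hS hlt ha
  have nA : (lA a).Nodup := List.nodup_range
  have nB : (lB a b).Nodup := List.nodup_range'
  have nC : (lC a b c).Nodup := List.nodup_range'
  have mA : ∀ i, i ∈ lA a ↔ i < a := fun i => List.mem_range
  have mB : ∀ i, i ∈ lB a b ↔ a ≤ i ∧ i < a + b := by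
    intro i
    unfold lB
    rw [List.mem_range'_1]
  have mC : ∀ i, i ∈ lC a b c ↔ a + b ≤ i ∧ i < a + b + c := by
    intro i
    unfold lC
    rw [List.mem_range'_1]
  unfold dW
  simp only [List.append_assoc]
  rw [Dwl_gen S hS _ _ nA]
  have hS1 : (S.filter (· ∉ lA a)).Nodup := hS.filter _
  have m1 : ∀ i, i ∈ S.filter (· ∉ lA a) ↔ i ∈ S ∧ ¬ i < a := by
    intro i
    rw [List.mem_filter]
    simp [mA]
  have e0 : (lA a).filter (· ∉ S) = [] := by
    rw [List.filter_eq_nil_iff]
    intro t ht
    simpa using ha t ((mA t).1 ht)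
  rw [e0, List.nil_append, Dwl_gen _ hS1 _ _ nA]
  have e1 : (lA a).filter (· ∉ S.filter (· ∉ lA a)) = lA a := by
    rw [List.filter_eq_self]
    intro t ht
    rw [decide_eq_true_iff, m1]
    exact fun h => h.2 ((mA t).1 ht)
  have e2 : (S.filter (· ∉ lA a)).filter (· ∉ lA a) = S.filter (· ∉ lA a) := by
    rw [List.filter_eq_self]
    intro t ht
    rw [decide_eq_true_iff, mA]
    exact ((m1 t).1 ht).2
  rw [e1, e2, Dwl_gen _ hS1 _ _ nA, e1, e2, Dwl_gen _ hS1 _ _ nB]
  have hS2 : ((S.filter (· ∉ lA a)).filter (· ∉ lB a b)).Nodup := hS1.filter _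
  have m2 : ∀ i, i ∈ (S.filter (· ∉ lA a)).filter (· ∉ lB a b) ↔ i ∈ S ∧ ¬ i < a + b := by
    intro i
    rw [List.mem_filter, m1, decide_eq_true_iff, mB]
    constructor
    · rintro ⟨⟨h1, h2⟩, h3⟩
      exact ⟨h1, fun h4 => h3 ⟨not_lt.1 h2, h4⟩⟩
    · rintro ⟨h1, h2⟩
      exact ⟨⟨h1, fun h3 => h2 (by omega)⟩, fun h3 => h2 h3.2⟩
  rw [Dwl_gen _ hS2 _ _ nC]
  have e3 : (lB a b).filter (· ∉ S.filter (· ∉ lA a)) = (lB a b).filter (· ∉ S) := by
    refine List.filter_congr fun t ht => ?_
    rw [Bool.eq_iff_iff, decide_eq_true_iff, decide_eq_true_iff, m1]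
    have := (mB t).1 ht
    constructor
    · intro h1 h2
      exact h1 ⟨h2, by omega⟩
    · intro h1 h2
      exact h1 h2.1
  have e4 : (lC a b c).filter (· ∉ (S.filter (· ∉ lA a)).filter (· ∉ lB a b)) =
      (lC a b c).filter (· ∉ S) := by
    refine List.filter_congr fun t ht => ?_
    rw [Bool.eq_iff_iff, decide_eq_true_iff, decide_eq_true_iff, m2]
    have := (mC t).1 ht
    constructor
    · intro h1 h2
      exact h1 ⟨h2, by omega⟩
    · intro h1 h2
      exact h1 h2.1
  have e5 : ((S.filter (· ∉ lA a)).filter (· ∉ lB a b)).filter (· ∉ lC a b c) = [] := by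
    rw [List.filter_eq_nil_iff]
    intro t ht
    rw [decide_eq_true_iff, not_not, mC]
    have h1 := (m2 t).1 ht
    have h2 := hlt t h1.1
    omega
  rw [e3, e4, e5, List.diff_nil]

end Pool.Agent.CRS
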