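import Pool.Agent.CRS.StB

/-!
Campaign CRS, p = 3: module Dwp (problem MP_1bb14d_al, stage 7).
-/

set_option autoImplicit false

namespace Pool.Agent.CRS

open Pool.Agent.CRR Pool.Agent.CRN Pool.Agent.CRK Pool.Agent.CRL Pool.Agent.CRM Pool.Agent.CRP
open Pool.Agent.CRQ

private theorem dwp_sw (L : List ℕ) (hL : L.Nodup) (i j : ℕ) (h : i ∈ L ↔ j ∈ L) :
    (L.map (Equiv.swap i j)).Perm L := by
  have key : ∀ x, x ∈ L → Equiv.swap i j x ∈ L := by
    intro x hx
    by_cases h1 : x = i
    · subst h1
      rw [Equiv.swap_apply_left]
      exact h.1 hx
    · by_cases h2 : x = j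
      · subst h2
        rw [Equiv.swap_apply_right]
        exact h.2 hx
      · rw [Equiv.swap_apply_of_ne_of_ne h1 h2]
        exact hx
  rw [List.perm_ext_iff_of_nodup (hL.map (Equiv.injective _)) hL]
  intro x
  rw [List.mem_map]
  constructor
  · rintro ⟨y, hy, rfl⟩
    exact key y hy
  · intro hx
    exact ⟨Equiv.swap i j x, key x hx, Equiv.swap_apply_self i j x⟩

private theorem dwp_A (a i : ℕ) : i ∈ lA a ↔ i < a := List.mem_range

private theorem dwp_B (a b i : ℕ) : i ∈ lB a b ↔ a ≤ i ∧ i < a + b := List.mem_range'_1

private theorem dwp_C (a b c i : ℕ) : i ∈ lC a b c ↔ a + b ≤ i ∧ i < a + b + c := List.mem_range'_1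

private theorem dwp_nA (a : ℕ) : (lA a).Nodup := List.nodup_range

private theorem dwp_nB (a b : ℕ) : (lB a b).Nodup := List.nodup_range'

private theorem dwp_nC (a b c : ℕ) : (lC a b c).Nodup := List.nodup_range'

private theorem dwp_W (a b c i : ℕ) : i ∈ dW a b c ↔ i < a + b + c := by
  unfold dW
  simp only [List.mem_append, List.mem_reverse, dwp_A, dwp_B, dwp_C]
  omega

theorem thm_Dwp : St_Dwp := by
  intro a b c
  refine ⟨⟨dwp_nA a, dwp_nB a b, dwp_nC a b c, dwp_A a, dwp_B a b, dwp_C a b c, dwp_W a b c, ?_, ?_⟩,
    ?_, ?_, ?_, ?_, ?_⟩
  · simp only [dW, lA, lB, lC, List.length_append, List.length_reverse, List.length_range,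
      List.length_range']
    omega
  · have h : (dW a b c).toFinset = Finset.range (a + b + c) := by
      ext i
      rw [List.mem_toFinset, dwp_W, Finset.mem_range]
    rw [h, Finset.card_range]
  · intro i j hij
    unfold dW
    simp only [List.map_append, List.map_reverse]
    have hA : ((lA a).map (Equiv.swap i j)).Perm (lA a) := by
      refine dwp_sw _ (dwp_nA a) i j ?_
      simp only [dwp_A, dwp_B, dwp_C] at hij ⊢
      omega
    have hB : ((lB a b).map (Equiv.swap i j)).Perm (lB a b) := by
      refine dwp_sw _ (dwp_nB a b) i j ?_
      simp only [dwp_B, dwp_C] at hij ⊢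
      omega
    have hC : ((lC a b c).map (Equiv.swap i j)).Perm (lC a b c) := by
      refine dwp_sw _ (dwp_nC a b c) i j ?_
      simp only [dwp_B, dwp_C] at hij ⊢
      omega
    refine ((((hA.append hA).append hA).append hB).append hC).append ?_
    exact (List.reverse_perm _).trans (hB.trans (List.reverse_perm _).symm)
  · intro S hS hlt
    refine List.perm_append_comm.trans (List.subperm_append_diff_self_of_count_le fun x hx => ?_)
    rw [List.count_eq_one_of_mem hS hx]
    exact List.one_le_count_iff.2 ((dwp_W a b c x).2 (hlt x hx))
  · intro l S hp i hi hS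
    have h1 := hp.count_eq i
    rw [List.count_append, List.count_eq_zero_of_not_mem hS, add_zero] at h1
    rw [h1]
    have h2 : (lA a).count i = 1 := List.count_eq_one_of_mem (dwp_nA a) ((dwp_A a i).2 hi)
    simp only [dW, List.count_append, h2]
    omega
  · intro S hS hlt hA
    refine ⟨S.filter (· ∈ lB a b), S.filter (· ∈ lC a b c), hS.filter _, hS.filter _, ?_, ?_, ?_⟩
    · intro i hi
      simpa using (List.mem_filter.1 hi).2
    · intro i hi
      simpa using (List.mem_filter.1 hi).2
    · rw [List.perm_ext_iff_of_nodup hS]
      · intro i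
        have h1 := hlt i
        have h2 := hA i
        simp only [List.mem_append, List.mem_filter, decide_eq_true_eq, dwp_A, dwp_B, dwp_C]
        constructor
        · intro h
          have h3 := h1 h
          by_cases h4 : i < a
          · exact Or.inl (Or.inl h4)
          · by_cases h5 : i < a + b
            · exact Or.inl (Or.inr ⟨h, by omega⟩)
            · exact Or.inr ⟨h, by omega⟩
        · rintro ((h | h) | h)
          · exact h2 h
          · exact h.1
          · exact h.1
      · rw [List.nodup_append, List.nodup_append]
        refine ⟨⟨dwp_nA a, hS.filter _, ?_⟩, hS.filter _, ?_⟩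
        · intro x hx y hy hxy
          subst hxy
          simp only [List.mem_filter, decide_eq_true_eq, dwp_A, dwp_B] at hx hy
          omega
        · intro x hx y hy hxy
          subst hxy
          simp only [List.mem_append, List.mem_filter, decide_eq_true_eq, dwp_A, dwp_B, dwp_C] at hx hy
          omega
  · intro B hB t ht
    cases B with
    | nil =>
      simp only [yt, List.mem_singleton] at ht
      subst ht
      refine ⟨Nat.zero_le _, fun X hX => ?_⟩
      simp only [List.mem_singleton] at hX
      subst hX
      simp
    | cons i l =>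
      rw [List.nodup_cons] at hB
      simp only [yt, List.mem_append, List.mem_cons, List.not_mem_nil, or_false] at ht
      rcases ht with (rfl | rfl) | ht
      · refine ⟨Nat.zero_le _, fun X hX => ?_⟩
        simp only [List.mem_singleton] at hX
        subst hX
        simp
      · refine ⟨by simp, fun X hX => ?_⟩
        obtain ⟨j, hj, rfl⟩ := List.mem_map.1 hX
        refine ⟨rfl, List.nodup_singleton j, fun x hx => ?_⟩
        rw [List.mem_singleton] at hx
        rw [hx]
        exact hj
      · split_ifs at ht with h2
        · simp only [List.mem_cons, List.not_mem_nil, or_false] at ht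
          rcases ht with rfl | rfl
          · refine ⟨by simp, fun X hX => ?_⟩
            simp only [List.mem_singleton] at hX
            subst hX
            simp
          · refine ⟨by simp only [List.length_cons]; omega, fun X hX => ?_⟩
            obtain ⟨j, hj, rfl⟩ := List.mem_map.1 hX
            have hji : j ≠ i := fun h => hB.1 (h ▸ hj)
            refine ⟨rfl, by simp [hji], fun x hx => ?_⟩
            simp only [List.mem_cons, List.not_mem_nil, or_false] at hx ⊢
            rcases hx with rfl | rfl
            · exact Or.inr hj
            · exact Or.inl rfl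
        · simp at ht

end Pool.Agent.CRS
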