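import Pool.Agent.CRS.StB
import Mathlib.Tactic

/-!
CRS, module Evt: evaluation of symmetrised words.
-/

set_option autoImplicit false

namespace Pool.Agent.CRS

open Pool.Agent.CRR Pool.Agent.CRN Pool.Agent.CRK Pool.Agent.CRL Pool.Agent.CRM Pool.Agent.CRP
open Pool.Agent.CRQ

section Evt

variable {M : Type} [AddCommGroup M]

private theorem Evt_append (e : List ℕ → M) (L L' : List (ℤ × List ℕ)) :
    Ewd e (L ++ L') = Ewd e L + Ewd e L' := by
  unfold Ewd
  rw [List.map_append, List.sum_append]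

private theorem Evt_sc (e : List ℕ → M) (m : ℤ) (L : List (ℤ × List ℕ)) :
    Ewd e (scW m L) = m • Ewd e L := by
  induction L with
  | nil => simp [Ewd, scW]
  | cons q L ih =>
    have h1 : Ewd e (scW m (q :: L)) = (m * q.1) • e q.2 + Ewd e (scW m L) := by
      simp [Ewd, scW]
    have h2 : Ewd e (q :: L) = q.1 • e q.2 + Ewd e L := by
      simp [Ewd]
    rw [h1, h2, ih, smul_add, mul_smul]

private theorem Evt_sum_apply (s : ℕ → ℕ → AddMonoid.End M) (i : ℕ) (m : M) :
    ∀ l : List ℕ, ((l.map (s i)).sum) m = (l.map fun j => s i j m).sum := by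
  intro l
  induction l with
  | nil => simp
  | cons j l ih =>
    rw [List.map_cons, List.sum_cons, List.map_cons, List.sum_cons, ← ih]
    rfl

variable {s : ℕ → ℕ → AddMonoid.End M} {ε : ℤ} {B : List ℕ} {e : List ℕ → M}

private theorem Evt_sw
    (he : ∀ i ∈ B, ∀ j ∈ B, ∀ w : List ℕ, s i j (e w) = ε • e (w.map (Equiv.swap i j)))
    (i j : ℕ) (hi : i ∈ B) (hj : j ∈ B) (L : List (ℤ × List ℕ)) :
    Ewd e (swW ε i j L) = s i j (Ewd e L) := by
  induction L with
  | nil => simp [Ewd, swW]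
  | cons q L ih =>
    have h1 : Ewd e (swW ε i j (q :: L)) =
        (ε * q.1) • e (q.2.map (Equiv.swap i j)) + Ewd e (swW ε i j L) := by
      simp [Ewd, swW]
    have h2 : Ewd e (q :: L) = q.1 • e q.2 + Ewd e L := by
      simp [Ewd]
    rw [h1, h2, ih, map_add, map_zsmul, he i hi j hj, smul_smul, mul_comm]

private theorem Evt_st
    (he : ∀ i ∈ B, ∀ j ∈ B, ∀ w : List ℕ, s i j (e w) = ε • e (w.map (Equiv.swap i j)))
    (i : ℕ) (hi : i ∈ B) (L : List (ℤ × List ℕ)) :
    ∀ l : List ℕ, (∀ j ∈ l, j ∈ B) → Ewd e (stW ε i l L) = ((l.map (s i)).sum) (Ewd e L) := by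
  intro l
  induction l with
  | nil =>
    intro _
    simp [Ewd, stW]
  | cons j l ih =>
    intro hl
    have h1 : stW ε i (j :: l) L = swW ε i j L ++ stW ε i l L := by
      simp [stW]
    rw [h1, Evt_append, ih fun k hk => hl k (List.mem_cons_of_mem _ hk),
      Evt_sw he i j hi (hl j List.mem_cons_self), List.map_cons, List.sum_cons]
    rfl

private theorem Evt_X
    (he : ∀ i ∈ B, ∀ j ∈ B, ∀ w : List ℕ, s i j (e w) = ε • e (w.map (Equiv.swap i j)))
    (i : ℕ) (hi : i ∈ B) (l : List ℕ) (hl : ∀ j ∈ l, j ∈ B) (L : List (ℤ × List ℕ)) :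
    Ewd e (Xw ε i l L) = Xo s i l (Ewd e L) := by
  unfold Xw Xo
  split_ifs with h1 h2
  · rfl
  · rw [Evt_sc, Evt_append, Evt_st he i hi L l hl]
    show (-1 : ℤ) • (Ewd e L + ((l.map (s i)).sum) (Ewd e L)) =
      -(Ewd e L + ((l.map (s i)).sum) (Ewd e L))
    rw [neg_one_zsmul]
  · have h3 : l.headD 0 ∈ B := by
      cases l with
      | nil => exact absurd (Or.inr rfl) h1
      | cons k l => exact hl k List.mem_cons_self
    show Ewd e (scW (-1) (L ++ swW ε i (l.headD 0) L) ++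
        stW ε i l (scW (-1) (L ++ swW ε i (l.headD 0) L)) ++
        swW ε i (l.headD 0) (stW ε i l (scW (-1) (L ++ swW ε i (l.headD 0) L)))) = _
    rw [Evt_append, Evt_append, Evt_sw he i _ hi h3, Evt_st he i hi _ l hl, Evt_sc, Evt_append,
      Evt_sw he i _ hi h3, neg_one_zsmul]
    generalize s i (l.headD 0) = S
    generalize (l.map (s i)).sum = A
    generalize Ewd e L = m
    show -(m + S m) + A (-(m + S m)) + S (A (-(m + S m))) =
      (-(m + S m)) + (A (-(m + S m)) + S (A (-(m + S m))))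
    abel

private theorem Evt_T
    (he : ∀ i ∈ B, ∀ j ∈ B, ∀ w : List ℕ, s i j (e w) = ε • e (w.map (Equiv.swap i j)))
    (L : List (ℤ × List ℕ)) :
    ∀ l : List ℕ, (∀ j ∈ l, j ∈ B) → Ewd e (Tw ε l L) = To s l (Ewd e L) := by
  intro l
  induction l with
  | nil =>
    intro _
    rfl
  | cons i l ih =>
    intro hl
    have hl' : ∀ j ∈ l, j ∈ B := fun k hk => hl k (List.mem_cons_of_mem _ hk)
    show Ewd e (Xw ε i l (Tw ε l L)) = Xo s i l (To s l (Ewd e L))
    rw [Evt_X he i (hl i List.mem_cons_self) l hl', ih hl']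

end Evt

theorem thm_Evt : St_Evt := by
  intro M _ s ε B e he
  exact ⟨fun L => Evt_T he L B fun _ h => h, fun m L => Evt_sc e m L,
    fun L L' => Evt_append e L L'⟩

end Pool.Agent.CRS
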