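import Pool.Agent.CRS.StB

/-! Campaign CRS: module Evw. -/

set_option autoImplicit false

namespace Pool.Agent.CRS

open Pool.Agent.CRR Pool.Agent.CRN Pool.Agent.CRK Pool.Agent.CRL Pool.Agent.CRM Pool.Agent.CRP
open Pool.Agent.CRQ

private theorem Evw_cons {M : Type} [AddCommGroup M] (e : List ℕ → M) (q : ℤ × List ℕ)
    (L : List (ℤ × List ℕ)) : Ewd e (q :: L) = q.1 • e q.2 + Ewd e L := by
  simp [Ewd]

private theorem Evw_nil {M : Type} [AddCommGroup M] (e : List ℕ → M) : Ewd e [] = 0 := by
  simp [Ewd]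

private theorem Evw_app {M : Type} [AddCommGroup M] (e : List ℕ → M)
    (L L' : List (ℤ × List ℕ)) : Ewd e (L ++ L') = Ewd e L + Ewd e L' := by
  simp [Ewd]

private theorem Evw_flat {M α : Type} [AddCommGroup M] (e : List ℕ → M) (f : α → List (ℤ × List ℕ))
    (l : List α) : Ewd e (l.flatMap f) = (l.map fun a => Ewd e (f a)).sum := by
  induction l with
  | nil => simp [Ewd]
  | cons a l ih => rw [List.flatMap_cons, Evw_app, ih, List.map_cons, List.sum_cons]

private theorem Evw_sc {M : Type} [AddCommGroup M] (e : List ℕ → M) (m : ℤ)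
    (L : List (ℤ × List ℕ)) : Ewd e (scW m L) = m • Ewd e L := by
  induction L with
  | nil => simp [scW, Ewd]
  | cons q L ih =>
    have h : scW m (q :: L) = (m * q.1, q.2) :: scW m L := rfl
    rw [h, Evw_cons, ih, Evw_cons, smul_add, mul_smul]

section
variable {U : Type} [Ring U] {N : NonUnitalSubring U}

private theorem Evw_mocons (i : ℕ) (w : List ℕ) :
    (mo (i :: w) : (ℕ → N) → U) = (fun x => (x i : U)) * mo w := by
  funext x
  simp [mo]

private theorem Evw_mononil : (mo [] : (ℕ → N) → U) = 1 := by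
  funext x
  simp [mo]

private theorem Evw_moapp (u w : List ℕ) :
    (mo (u ++ w) : (ℕ → N) → U) = mo u * mo w := by
  funext x
  simp [mo]

private theorem Evw_two (i j : ℕ) (L : List (ℤ × List ℕ)) :
    Ewd (mo : List ℕ → (ℕ → N) → U)
      (L.flatMap fun q => [(q.1, i :: j :: q.2), (-q.1, j :: i :: q.2)]) =
    (fun x => cm (x i : U) (x j : U)) * Ewd (mo : List ℕ → (ℕ → N) → U) L := by
  induction L with
  | nil => simp [Ewd]
  | cons q L ih =>
    rw [List.flatMap_cons, Evw_app, ih, Evw_cons, Evw_cons, Evw_cons, Evw_nil, mul_add]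
    congr 1
    funext x
    simp only [Evw_mocons, Pi.add_apply, Pi.mul_apply, Pi.smul_apply, cm, add_zero]
    rw [sub_mul, mul_smul_comm, mul_smul_comm, mul_assoc, mul_assoc, neg_smul]
    exact (sub_eq_add_neg _ _).symm

private theorem Evw_br : ∀ S : List ℕ, Ewd (mo : List ℕ → (ℕ → N) → U) (brW S) = br S
  | [] => by
    simp only [brW, Evw_cons, Evw_nil, Evw_mononil]
    funext x
    simp [br, brv]
  | [_] => by
    simp only [brW, Evw_nil]
    funext x
    simp [br, brv]
  | [i, j, k] => by
    simp only [brW, Evw_cons, Evw_nil]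
    funext x
    simp [br, brv, cm, mo]
    noncomm_ring
  | [i, j] => by
    have h : brW [i, j] = (brW []).flatMap fun q => [(q.1, i :: j :: q.2), (-q.1, j :: i :: q.2)] := by
      rfl
    rw [h, Evw_two, Evw_br []]
    funext x
    simp [br, brv]
  | i :: j :: k :: k' :: l => by
    have h : brW (i :: j :: k :: k' :: l) = (brW (k :: k' :: l)).flatMap
        fun q => [(q.1, i :: j :: q.2), (-q.1, j :: i :: q.2)] := by
      rfl
    rw [h, Evw_two, Evw_br (k :: k' :: l)]
    funext x
    simp only [br, Pi.mul_apply, List.map_cons]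
    rfl

private theorem Evw_pre (u : List ℕ) (L : List (ℤ × List ℕ)) :
    Ewd (mo : List ℕ → (ℕ → N) → U) (L.map fun q => (q.1, u ++ q.2)) =
    mo u * Ewd (mo : List ℕ → (ℕ → N) → U) L := by
  induction L with
  | nil => simp [Ewd]
  | cons q L ih =>
    rw [List.map_cons, Evw_cons, Evw_cons, ih, mul_add, Evw_moapp, mul_smul_comm]

end

theorem thm_Evw : St_Evw := by
  intro U _ N
  have h1 : ∀ d S : List ℕ, Ewd (mo : List ℕ → (ℕ → N) → U) (vW d S) = vf N d S := by
    intro d S
    unfold vW vf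
    rw [Evw_pre, Evw_br]
  refine ⟨h1, ?_⟩
  intro a b c t u
  unfold wW wf
  rw [Evw_flat]
  congr 1
  apply List.map_congr_left
  intro X _
  rw [Evw_flat]
  congr 1
  apply List.map_congr_left
  intro Y _
  rw [Evw_sc, h1]

end Pool.Agent.CRS
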