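import Pool.Agent.CRS.StX

/-!
# CRS, Exa: the computation with four letters
-/

set_option autoImplicit false
set_option linter.unusedSimpArgs false

namespace Pool.Agent.CRS

private theorem Exa_z {M : Type} [AddCommGroup M] (E : AddMonoid.End M) (w : M)
    (h3 : (3 : ℤ) • w = 0) (h : E w = -w) : w - (E w - E (E w)) = 0 := by
  rw [h, map_neg, h]
  have e : w - (-w - - -w) = (3 : ℤ) • w := by abel
  rw [e, h3]

private theorem Exa_core {M : Type} [AddCommGroup M] (ψ : List (Fin 4) → M) (s s' : AddMonoid.End M)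
    (D : Fin 4 → Fin 4 → AddMonoid.End M)
    (hA : ∀ (l1 l2 : List (Fin 4)) (x y : Fin 4), ψ (l1 ++ x :: y :: l2) = -ψ (l1 ++ y :: x :: l2))
    (h3 : ∀ l, (3 : ℤ) • ψ l = 0)
    (hs : ∀ l : List (Fin 4), l.Nodup → s (ψ l) = ψ (l.map (Equiv.swap 0 1)) ∧
      s' (ψ l) = ψ (l.map (Equiv.swap 2 3)))
    (hD : ∀ l : List (Fin 4), l.Nodup → ∀ x ∈ ([0, 1] : List (Fin 4)), ∀ y ∈ ([2, 3] : List (Fin 4)),
      (x ∉ l → y ∉ l → D x y (ψ l) = 0) ∧ (x ∈ l → y ∈ l → D x y (ψ l) = 0) ∧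
      (x ∈ l → y ∉ l → D x y (ψ l) = ψ (l.map (Equiv.swap x y)) - ψ l) ∧
      (x ∉ l → y ∈ l → D x y (ψ l) = ψ l - ψ (l.map (Equiv.swap x y)))) :
    ∀ l ∈ ([[], [0], [1], [2], [3], [0, 1], [0, 2], [0, 3], [1, 2], [1, 3], [2, 3], [0, 1, 2],
      [0, 1, 3], [0, 2, 3], [1, 2, 3], [0, 1, 2, 3]] : List (List (Fin 4))),
      Qo ((1 + s) * (1 - s')) (D 0 2 + D 0 3 + D 1 2 + D 1 3) (ψ l) = 0 := by
  have d0 : ∀ (l : List (Fin 4)) (x y : Fin 4), l.Nodup → x ∈ ([0, 1] : List (Fin 4)) →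
      y ∈ ([2, 3] : List (Fin 4)) → x ∉ l → y ∉ l → D x y (ψ l) = 0 :=
    fun l x y h hx hy => (hD l h x hx y hy).1
  have d1 : ∀ (l : List (Fin 4)) (x y : Fin 4), l.Nodup → x ∈ ([0, 1] : List (Fin 4)) →
      y ∈ ([2, 3] : List (Fin 4)) → x ∈ l → y ∈ l → D x y (ψ l) = 0 :=
    fun l x y h hx hy => (hD l h x hx y hy).2.1
  have d2 : ∀ (l : List (Fin 4)) (x y : Fin 4), l.Nodup → x ∈ ([0, 1] : List (Fin 4)) →
      y ∈ ([2, 3] : List (Fin 4)) → x ∈ l → y ∉ l →
      D x y (ψ l) = ψ (l.map (Equiv.swap x y)) - ψ l :=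
    fun l x y h hx hy => (hD l h x hx y hy).2.2.1
  have d3 : ∀ (l : List (Fin 4)) (x y : Fin 4), l.Nodup → x ∈ ([0, 1] : List (Fin 4)) →
      y ∈ ([2, 3] : List (Fin 4)) → x ∉ l → y ∈ l →
      D x y (ψ l) = ψ l - ψ (l.map (Equiv.swap x y)) :=
    fun l x y h hx hy => (hD l h x hx y hy).2.2.2
  have t10 : ψ [1, 0] = -ψ [0, 1] := hA [] [] 1 0
  have t20 : ψ [2, 0] = -ψ [0, 2] := hA [] [] 2 0
  have t21 : ψ [2, 1] = -ψ [1, 2] := hA [] [] 2 1
  have t32 : ψ [3, 2] = -ψ [2, 3] := hA [] [] 3 2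
  have t021 : ψ [0, 2, 1] = -ψ [0, 1, 2] := hA [0] [] 2 1
  have t032 : ψ [0, 3, 2] = -ψ [0, 2, 3] := hA [0] [] 3 2
  have t102 : ψ [1, 0, 2] = -ψ [0, 1, 2] := hA [] [2] 1 0
  have t103 : ψ [1, 0, 3] = -ψ [0, 1, 3] := hA [] [3] 1 0
  have t120 : ψ [1, 2, 0] = ψ [0, 1, 2] := by
    have u0 : ψ [1, 2, 0] = -ψ [1, 0, 2] := hA [1] [] 2 0
    have u1 : ψ [1, 0, 2] = -ψ [0, 1, 2] := hA [] [2] 1 0
    rw [u0, u1, neg_neg]
  have t132 : ψ [1, 3, 2] = -ψ [1, 2, 3] := hA [1] [] 3 2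
  have t0132 : ψ [0, 1, 3, 2] = -ψ [0, 1, 2, 3] := hA [0, 1] [] 3 2
  have t1023 : ψ [1, 0, 2, 3] = -ψ [0, 1, 2, 3] := hA [] [2, 3] 1 0
  have s_ : s (ψ []) = ψ [] := (hs [] (by decide)).1
  have r_ : s' (ψ []) = ψ [] := (hs [] (by decide)).2
  have s0_ : s (ψ [0]) = ψ [1] := (hs [0] (by decide)).1
  have r0_ : s' (ψ [0]) = ψ [0] := (hs [0] (by decide)).2
  have s1_ : s (ψ [1]) = ψ [0] := (hs [1] (by decide)).1
  have r1_ : s' (ψ [1]) = ψ [1] := (hs [1] (by decide)).2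
  have s2_ : s (ψ [2]) = ψ [2] := (hs [2] (by decide)).1
  have r2_ : s' (ψ [2]) = ψ [3] := (hs [2] (by decide)).2
  have s3_ : s (ψ [3]) = ψ [3] := (hs [3] (by decide)).1
  have r3_ : s' (ψ [3]) = ψ [2] := (hs [3] (by decide)).2
  have s01_ : s (ψ [0, 1]) = ψ [1, 0] := (hs [0, 1] (by decide)).1
  have r01_ : s' (ψ [0, 1]) = ψ [0, 1] := (hs [0, 1] (by decide)).2
  have s02_ : s (ψ [0, 2]) = ψ [1, 2] := (hs [0, 2] (by decide)).1
  have r02_ : s' (ψ [0, 2]) = ψ [0, 3] := (hs [0, 2] (by decide)).2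
  have s03_ : s (ψ [0, 3]) = ψ [1, 3] := (hs [0, 3] (by decide)).1
  have r03_ : s' (ψ [0, 3]) = ψ [0, 2] := (hs [0, 3] (by decide)).2
  have s12_ : s (ψ [1, 2]) = ψ [0, 2] := (hs [1, 2] (by decide)).1
  have r12_ : s' (ψ [1, 2]) = ψ [1, 3] := (hs [1, 2] (by decide)).2
  have s13_ : s (ψ [1, 3]) = ψ [0, 3] := (hs [1, 3] (by decide)).1
  have r13_ : s' (ψ [1, 3]) = ψ [1, 2] := (hs [1, 3] (by decide)).2
  have s23_ : s (ψ [2, 3]) = ψ [2, 3] := (hs [2, 3] (by decide)).1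
  have r23_ : s' (ψ [2, 3]) = ψ [3, 2] := (hs [2, 3] (by decide)).2
  have s012_ : s (ψ [0, 1, 2]) = ψ [1, 0, 2] := (hs [0, 1, 2] (by decide)).1
  have r012_ : s' (ψ [0, 1, 2]) = ψ [0, 1, 3] := (hs [0, 1, 2] (by decide)).2
  have s013_ : s (ψ [0, 1, 3]) = ψ [1, 0, 3] := (hs [0, 1, 3] (by decide)).1
  have r013_ : s' (ψ [0, 1, 3]) = ψ [0, 1, 2] := (hs [0, 1, 3] (by decide)).2
  have s023_ : s (ψ [0, 2, 3]) = ψ [1, 2, 3] := (hs [0, 2, 3] (by decide)).1
  have r023_ : s' (ψ [0, 2, 3]) = ψ [0, 3, 2] := (hs [0, 2, 3] (by decide)).2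
  have s123_ : s (ψ [1, 2, 3]) = ψ [0, 2, 3] := (hs [1, 2, 3] (by decide)).1
  have r123_ : s' (ψ [1, 2, 3]) = ψ [1, 3, 2] := (hs [1, 2, 3] (by decide)).2
  have s0123_ : s (ψ [0, 1, 2, 3]) = ψ [1, 0, 2, 3] := (hs [0, 1, 2, 3] (by decide)).1
  have r0123_ : s' (ψ [0, 1, 2, 3]) = ψ [0, 1, 3, 2] := (hs [0, 1, 2, 3] (by decide)).2
  have d02_2 : D 0 2 (ψ [2]) = ψ [2] - ψ [0] :=
    d3 [2] 0 2 (by decide) (by decide) (by decide) (by decide) (by decide)
  have d03_2 : D 0 3 (ψ [2]) = 0 :=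
    d0 [2] 0 3 (by decide) (by decide) (by decide) (by decide) (by decide)
  have d12_2 : D 1 2 (ψ [2]) = ψ [2] - ψ [1] :=
    d3 [2] 1 2 (by decide) (by decide) (by decide) (by decide) (by decide)
  have d13_2 : D 1 3 (ψ [2]) = 0 :=
    d0 [2] 1 3 (by decide) (by decide) (by decide) (by decide) (by decide)
  have d02_3 : D 0 2 (ψ [3]) = 0 :=
    d0 [3] 0 2 (by decide) (by decide) (by decide) (by decide) (by decide)
  have d03_3 : D 0 3 (ψ [3]) = ψ [3] - ψ [0] :=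
    d3 [3] 0 3 (by decide) (by decide) (by decide) (by decide) (by decide)
  have d12_3 : D 1 2 (ψ [3]) = 0 :=
    d0 [3] 1 2 (by decide) (by decide) (by decide) (by decide) (by decide)
  have d13_3 : D 1 3 (ψ [3]) = ψ [3] - ψ [1] :=
    d3 [3] 1 3 (by decide) (by decide) (by decide) (by decide) (by decide)
  have d02_23 : D 0 2 (ψ [2, 3]) = ψ [2, 3] - ψ [0, 3] :=
    d3 [2, 3] 0 2 (by decide) (by decide) (by decide) (by decide) (by decide)
  have d03_23 : D 0 3 (ψ [2, 3]) = ψ [2, 3] - ψ [2, 0] :=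
    d3 [2, 3] 0 3 (by decide) (by decide) (by decide) (by decide) (by decide)
  have d12_23 : D 1 2 (ψ [2, 3]) = ψ [2, 3] - ψ [1, 3] :=
    d3 [2, 3] 1 2 (by decide) (by decide) (by decide) (by decide) (by decide)
  have d13_23 : D 1 3 (ψ [2, 3]) = ψ [2, 3] - ψ [2, 1] :=
    d3 [2, 3] 1 3 (by decide) (by decide) (by decide) (by decide) (by decide)
  have d02_02 : D 0 2 (ψ [0, 2]) = 0 :=
    d1 [0, 2] 0 2 (by decide) (by decide) (by decide) (by decide) (by decide)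
  have d03_02 : D 0 3 (ψ [0, 2]) = ψ [3, 2] - ψ [0, 2] :=
    d2 [0, 2] 0 3 (by decide) (by decide) (by decide) (by decide) (by decide)
  have d12_02 : D 1 2 (ψ [0, 2]) = ψ [0, 2] - ψ [0, 1] :=
    d3 [0, 2] 1 2 (by decide) (by decide) (by decide) (by decide) (by decide)
  have d13_02 : D 1 3 (ψ [0, 2]) = 0 :=
    d0 [0, 2] 1 3 (by decide) (by decide) (by decide) (by decide) (by decide)
  have d02_03 : D 0 2 (ψ [0, 3]) = ψ [2, 3] - ψ [0, 3] :=
    d2 [0, 3] 0 2 (by decide) (by decide) (by decide) (by decide) (by decide)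
  have d03_03 : D 0 3 (ψ [0, 3]) = 0 :=
    d1 [0, 3] 0 3 (by decide) (by decide) (by decide) (by decide) (by decide)
  have d12_03 : D 1 2 (ψ [0, 3]) = 0 :=
    d0 [0, 3] 1 2 (by decide) (by decide) (by decide) (by decide) (by decide)
  have d13_03 : D 1 3 (ψ [0, 3]) = ψ [0, 3] - ψ [0, 1] :=
    d3 [0, 3] 1 3 (by decide) (by decide) (by decide) (by decide) (by decide)
  have d02_12 : D 0 2 (ψ [1, 2]) = ψ [1, 2] - ψ [1, 0] :=
    d3 [1, 2] 0 2 (by decide) (by decide) (by decide) (by decide) (by decide)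
  have d03_12 : D 0 3 (ψ [1, 2]) = 0 :=
    d0 [1, 2] 0 3 (by decide) (by decide) (by decide) (by decide) (by decide)
  have d12_12 : D 1 2 (ψ [1, 2]) = 0 :=
    d1 [1, 2] 1 2 (by decide) (by decide) (by decide) (by decide) (by decide)
  have d13_12 : D 1 3 (ψ [1, 2]) = ψ [3, 2] - ψ [1, 2] :=
    d2 [1, 2] 1 3 (by decide) (by decide) (by decide) (by decide) (by decide)
  have d02_13 : D 0 2 (ψ [1, 3]) = 0 :=
    d0 [1, 3] 0 2 (by decide) (by decide) (by decide) (by decide) (by decide)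
  have d03_13 : D 0 3 (ψ [1, 3]) = ψ [1, 3] - ψ [1, 0] :=
    d3 [1, 3] 0 3 (by decide) (by decide) (by decide) (by decide) (by decide)
  have d12_13 : D 1 2 (ψ [1, 3]) = ψ [2, 3] - ψ [1, 3] :=
    d2 [1, 3] 1 2 (by decide) (by decide) (by decide) (by decide) (by decide)
  have d13_13 : D 1 3 (ψ [1, 3]) = 0 :=
    d1 [1, 3] 1 3 (by decide) (by decide) (by decide) (by decide) (by decide)
  have d02_023 : D 0 2 (ψ [0, 2, 3]) = 0 :=
    d1 [0, 2, 3] 0 2 (by decide) (by decide) (by decide) (by decide) (by decide)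
  have d03_023 : D 0 3 (ψ [0, 2, 3]) = 0 :=
    d1 [0, 2, 3] 0 3 (by decide) (by decide) (by decide) (by decide) (by decide)
  have d12_023 : D 1 2 (ψ [0, 2, 3]) = ψ [0, 2, 3] - ψ [0, 1, 3] :=
    d3 [0, 2, 3] 1 2 (by decide) (by decide) (by decide) (by decide) (by decide)
  have d13_023 : D 1 3 (ψ [0, 2, 3]) = ψ [0, 2, 3] - ψ [0, 2, 1] :=
    d3 [0, 2, 3] 1 3 (by decide) (by decide) (by decide) (by decide) (by decide)
  have d02_123 : D 0 2 (ψ [1, 2, 3]) = ψ [1, 2, 3] - ψ [1, 0, 3] :=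
    d3 [1, 2, 3] 0 2 (by decide) (by decide) (by decide) (by decide) (by decide)
  have d03_123 : D 0 3 (ψ [1, 2, 3]) = ψ [1, 2, 3] - ψ [1, 2, 0] :=
    d3 [1, 2, 3] 0 3 (by decide) (by decide) (by decide) (by decide) (by decide)
  have d12_123 : D 1 2 (ψ [1, 2, 3]) = 0 :=
    d1 [1, 2, 3] 1 2 (by decide) (by decide) (by decide) (by decide) (by decide)
  have d13_123 : D 1 3 (ψ [1, 2, 3]) = 0 :=
    d1 [1, 2, 3] 1 3 (by decide) (by decide) (by decide) (by decide) (by decide)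
  have hP : ∀ m, ((1 + s) * (1 - s')) m = (m - s' m) + s (m - s' m) := fun _ => rfl
  obtain ⟨E, hEE⟩ : ∃ E : AddMonoid.End M, E = D 0 2 + D 0 3 + D 1 2 + D 1 3 := ⟨_, rfl⟩
  have hE : ∀ m, E m = D 0 2 m + D 0 3 m + D 1 2 m + D 1 3 m := by
    intro m
    rw [hEE]
    rfl
  have key : ∀ m w : M, ((1 + s) * (1 - s')) m = w → w - (E w - E (E w)) = 0 →
      Qo ((1 + s) * (1 - s')) (D 0 2 + D 0 3 + D 1 2 + D 1 3) m = 0 := by
    intro m w h1 h2
    have h4 : Qo ((1 + s) * (1 - s')) (D 0 2 + D 0 3 + D 1 2 + D 1 3) m =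
        ((1 + s) * (1 - s')) m - (E (((1 + s) * (1 - s')) m) - E (E (((1 + s) * (1 - s')) m))) := by
      rw [hEE]
      rfl
    rw [h4, h1, h2]
  have zadd : ∀ w w' : M, w - (E w - E (E w)) = 0 → w' - (E w' - E (E w')) = 0 →
      (w + w') - (E (w + w') - E (E (w + w'))) = 0 := by
    intro w w' h1 h2
    rw [map_add, map_add]
    have e : w + w' - (E w + E w' - (E (E w) + E (E w'))) =
      (w - (E w - E (E w))) + (w' - (E w' - E (E w'))) := by abel
    rw [e, h1, h2, add_zero]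
  have zneg : ∀ w : M, w - (E w - E (E w)) = 0 → (-w) - (E (-w) - E (E (-w))) = 0 := by
    intro w h1
    rw [map_neg, map_neg]
    have e : -w - (-E w - -E (E w)) = -(w - (E w - E (E w))) := by abel
    rw [e, h1, neg_zero]
  have zz : (0 : M) - (E 0 - E (E 0)) = 0 := by
    rw [map_zero, map_zero, sub_zero, sub_zero]
  have g1 : E (ψ [2] - ψ [3]) = -(ψ [2] - ψ [3]) := by
    rw [← sub_eq_zero]
    simp only [hE, map_sub, d02_2, d03_2, d12_2, d13_2, d02_3, d03_3, d12_3, d13_3, d02_23, d03_23, d12_23, d13_23, d02_02, d03_02, d12_02, d13_02, d02_03, d03_03, d12_03, d13_03, d02_12, d03_12, d12_12, d13_12, d02_13, d03_13, d12_13, d13_13, d02_023, d03_023, d12_023, d13_023, d02_123, d03_123, d12_123, d13_123, t10, t20, t21, t32, t021, t032, t102, t103, t120, t132, t0132, t1023]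
    have e : ψ [2] - ψ [0] - 0 + (0 - (ψ [3] - ψ [0])) + (ψ [2] - ψ [1] - 0) +
      (0 - (ψ [3] - ψ [1])) - -(ψ [2] - ψ [3]) = (3 : ℤ) • ψ [2] - (3 : ℤ) • ψ [3] := by abel
    rw [e, h3, h3, sub_zero]
  have g2 : E (ψ [2, 3]) = ψ [2, 3] + (ψ [0, 2] + ψ [1, 2] - ψ [0, 3] - ψ [1, 3]) := by
    rw [← sub_eq_zero]
    simp only [hE, d02_2, d03_2, d12_2, d13_2, d02_3, d03_3, d12_3, d13_3, d02_23, d03_23, d12_23, d13_23, d02_02, d03_02, d12_02, d13_02, d02_03, d03_03, d12_03, d13_03, d02_12, d03_12, d12_12, d13_12, d02_13, d03_13, d12_13, d13_13, d02_023, d03_023, d12_023, d13_023, d02_123, d03_123, d12_123, d13_123, t10, t20, t21, t32, t021, t032, t102, t103, t120, t132, t0132, t1023]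
    have e : ψ [2, 3] - ψ [0, 3] + (ψ [2, 3] - -ψ [0, 2]) + (ψ [2, 3] - ψ [1, 3]) +
      (ψ [2, 3] - -ψ [1, 2]) - (ψ [2, 3] + (ψ [0, 2] + ψ [1, 2] - ψ [0, 3] - ψ [1, 3])) =
      (3 : ℤ) • ψ [2, 3] := by abel
    rw [e, h3]
  have g3 : E (ψ [0, 2] + ψ [1, 2] - ψ [0, 3] - ψ [1, 3]) = -ψ [2, 3] := by
    rw [← sub_eq_zero]
    have e : E (ψ [0, 2] + ψ [1, 2] - ψ [0, 3] - ψ [1, 3]) - -ψ [2, 3] =
        -((3 : ℤ) • ψ [2, 3]) := by
      simp only [hE, map_sub, map_add, d02_2, d03_2, d12_2, d13_2, d02_3, d03_3, d12_3, d13_3, d02_23, d03_23, d12_23, d13_23, d02_02, d03_02, d12_02, d13_02, d02_03, d03_03, d12_03, d13_03, d02_12, d03_12, d12_12, d13_12, d02_13, d03_13, d12_13, d13_13, d02_023, d03_023, d12_023, d13_023, d02_123, d03_123, d12_123, d13_123, t10, t20, t21, t32, t021, t032, t102, t103, t120, t132, t0132, t1023]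
      abel
    rw [e, h3, neg_zero]
  have g4 : E (ψ [0, 2, 3] + ψ [1, 2, 3]) = -(ψ [0, 2, 3] + ψ [1, 2, 3]) := by
    rw [← sub_eq_zero]
    have e : E (ψ [0, 2, 3] + ψ [1, 2, 3]) - -(ψ [0, 2, 3] + ψ [1, 2, 3]) =
        (3 : ℤ) • ψ [0, 2, 3] + (3 : ℤ) • ψ [1, 2, 3] := by
      simp only [hE, map_sub, map_add, d02_2, d03_2, d12_2, d13_2, d02_3, d03_3, d12_3, d13_3, d02_23, d03_23, d12_23, d13_23, d02_02, d03_02, d12_02, d13_02, d02_03, d03_03, d12_03, d13_03, d02_12, d03_12, d12_12, d13_12, d02_13, d03_13, d12_13, d13_13, d02_023, d03_023, d12_023, d13_023, d02_123, d03_123, d12_123, d13_123, t10, t20, t21, t32, t021, t032, t102, t103, t120, t132, t0132, t1023]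
      abel
    rw [e, h3, h3, add_zero]
  have z1 := Exa_z E (ψ [2] - ψ [3]) (by rw [smul_sub, h3, h3, sub_zero]) g1
  have z4 := Exa_z E (ψ [0, 2, 3] + ψ [1, 2, 3]) (by rw [smul_add, h3, h3, add_zero]) g4
  have z2 : ψ [2, 3] - (E (ψ [2, 3]) - E (E (ψ [2, 3]))) = 0 := by
    rw [g2, map_add, g2, g3]
    abel
  have z3 : (ψ [0, 2] + ψ [1, 2] - ψ [0, 3] - ψ [1, 3]) -
      (E (ψ [0, 2] + ψ [1, 2] - ψ [0, 3] - ψ [1, 3]) -
        E (E (ψ [0, 2] + ψ [1, 2] - ψ [0, 3] - ψ [1, 3]))) = 0 := by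
    rw [g3, map_neg, g2]
    abel
  intro l hl
  simp only [List.mem_cons, List.not_mem_nil, or_false] at hl
  rcases hl with rfl | rfl | rfl | rfl | rfl | rfl | rfl | rfl | rfl | rfl | rfl | rfl | rfl | rfl |
    rfl | rfl
  · refine key _ (0) ?_ zz
    rw [hP]
    simp only [map_sub, map_neg, s_, r_, s0_, r0_, s1_, r1_, s2_, r2_, s3_, r3_, s01_, r01_, s02_, r02_, s03_, r03_, s12_, r12_, s13_, r13_, s23_, r23_, s012_, r012_, s013_, r013_, s023_, r023_, s123_, r123_, s0123_, r0123_, t10, t20, t21, t32, t021, t032, t102, t103, t120, t132, t0132, t1023]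
    all_goals abel
  · refine key _ (0) ?_ zz
    rw [hP]
    simp only [map_sub, map_neg, s_, r_, s0_, r0_, s1_, r1_, s2_, r2_, s3_, r3_, s01_, r01_, s02_, r02_, s03_, r03_, s12_, r12_, s13_, r13_, s23_, r23_, s012_, r012_, s013_, r013_, s023_, r023_, s123_, r123_, s0123_, r0123_, t10, t20, t21, t32, t021, t032, t102, t103, t120, t132, t0132, t1023]
    all_goals abel
  · refine key _ (0) ?_ zz
    rw [hP]
    simp only [map_sub, map_neg, s_, r_, s0_, r0_, s1_, r1_, s2_, r2_, s3_, r3_, s01_, r01_, s02_, r02_, s03_, r03_, s12_, r12_, s13_, r13_, s23_, r23_, s012_, r012_, s013_, r013_, s023_, r023_, s123_, r123_, s0123_, r0123_, t10, t20, t21, t32, t021, t032, t102, t103, t120, t132, t0132, t1023]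
    all_goals abel
  · refine key _ ((ψ [2] - ψ [3]) + (ψ [2] - ψ [3])) ?_ (zadd _ _ z1 z1)
    rw [hP]
    simp only [map_sub, map_neg, s_, r_, s0_, r0_, s1_, r1_, s2_, r2_, s3_, r3_, s01_, r01_, s02_, r02_, s03_, r03_, s12_, r12_, s13_, r13_, s23_, r23_, s012_, r012_, s013_, r013_, s023_, r023_, s123_, r123_, s0123_, r0123_, t10, t20, t21, t32, t021, t032, t102, t103, t120, t132, t0132, t1023]
    all_goals abel
  · refine key _ (-((ψ [2] - ψ [3]) + (ψ [2] - ψ [3]))) ?_ (zneg _ (zadd _ _ z1 z1))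
    rw [hP]
    simp only [map_sub, map_neg, s_, r_, s0_, r0_, s1_, r1_, s2_, r2_, s3_, r3_, s01_, r01_, s02_, r02_, s03_, r03_, s12_, r12_, s13_, r13_, s23_, r23_, s012_, r012_, s013_, r013_, s023_, r023_, s123_, r123_, s0123_, r0123_, t10, t20, t21, t32, t021, t032, t102, t103, t120, t132, t0132, t1023]
    all_goals abel
  · refine key _ (0) ?_ zz
    rw [hP]
    simp only [map_sub, map_neg, s_, r_, s0_, r0_, s1_, r1_, s2_, r2_, s3_, r3_, s01_, r01_, s02_, r02_, s03_, r03_, s12_, r12_, s13_, r13_, s23_, r23_, s012_, r012_, s013_, r013_, s023_, r023_, s123_, r123_, s0123_, r0123_, t10, t20, t21, t32, t021, t032, t102, t103, t120, t132, t0132, t1023]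
    all_goals abel
  · refine key _ (ψ [0, 2] + ψ [1, 2] - ψ [0, 3] - ψ [1, 3]) ?_ z3
    rw [hP]
    simp only [map_sub, map_neg, s_, r_, s0_, r0_, s1_, r1_, s2_, r2_, s3_, r3_, s01_, r01_, s02_, r02_, s03_, r03_, s12_, r12_, s13_, r13_, s23_, r23_, s012_, r012_, s013_, r013_, s023_, r023_, s123_, r123_, s0123_, r0123_, t10, t20, t21, t32, t021, t032, t102, t103, t120, t132, t0132, t1023]
    all_goals abel
  · refine key _ (-(ψ [0, 2] + ψ [1, 2] - ψ [0, 3] - ψ [1, 3])) ?_ (zneg _ z3)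
    rw [hP]
    simp only [map_sub, map_neg, s_, r_, s0_, r0_, s1_, r1_, s2_, r2_, s3_, r3_, s01_, r01_, s02_, r02_, s03_, r03_, s12_, r12_, s13_, r13_, s23_, r23_, s012_, r012_, s013_, r013_, s023_, r023_, s123_, r123_, s0123_, r0123_, t10, t20, t21, t32, t021, t032, t102, t103, t120, t132, t0132, t1023]
    all_goals abel
  · refine key _ (ψ [0, 2] + ψ [1, 2] - ψ [0, 3] - ψ [1, 3]) ?_ z3
    rw [hP]
    simp only [map_sub, map_neg, s_, r_, s0_, r0_, s1_, r1_, s2_, r2_, s3_, r3_, s01_, r01_, s02_, r02_, s03_, r03_, s12_, r12_, s13_, r13_, s23_, r23_, s012_, r012_, s013_, r013_, s023_, r023_, s123_, r123_, s0123_, r0123_, t10, t20, t21, t32, t021, t032, t102, t103, t120, t132, t0132, t1023]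
    all_goals abel
  · refine key _ (-(ψ [0, 2] + ψ [1, 2] - ψ [0, 3] - ψ [1, 3])) ?_ (zneg _ z3)
    rw [hP]
    simp only [map_sub, map_neg, s_, r_, s0_, r0_, s1_, r1_, s2_, r2_, s3_, r3_, s01_, r01_, s02_, r02_, s03_, r03_, s12_, r12_, s13_, r13_, s23_, r23_, s012_, r012_, s013_, r013_, s023_, r023_, s123_, r123_, s0123_, r0123_, t10, t20, t21, t32, t021, t032, t102, t103, t120, t132, t0132, t1023]
    all_goals abel
  · refine key _ ((ψ [2, 3] + ψ [2, 3]) + (ψ [2, 3] + ψ [2, 3])) ?_ (zadd _ _ (zadd _ _ z2 z2) (zadd _ _ z2 z2))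
    rw [hP]
    simp only [map_sub, map_neg, s_, r_, s0_, r0_, s1_, r1_, s2_, r2_, s3_, r3_, s01_, r01_, s02_, r02_, s03_, r03_, s12_, r12_, s13_, r13_, s23_, r23_, s012_, r012_, s013_, r013_, s023_, r023_, s123_, r123_, s0123_, r0123_, t10, t20, t21, t32, t021, t032, t102, t103, t120, t132, t0132, t1023]
    all_goals abel
  · refine key _ (0) ?_ zz
    rw [hP]
    simp only [map_sub, map_neg, s_, r_, s0_, r0_, s1_, r1_, s2_, r2_, s3_, r3_, s01_, r01_, s02_, r02_, s03_, r03_, s12_, r12_, s13_, r13_, s23_, r23_, s012_, r012_, s013_, r013_, s023_, r023_, s123_, r123_, s0123_, r0123_, t10, t20, t21, t32, t021, t032, t102, t103, t120, t132, t0132, t1023]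
    all_goals abel
  · refine key _ (0) ?_ zz
    rw [hP]
    simp only [map_sub, map_neg, s_, r_, s0_, r0_, s1_, r1_, s2_, r2_, s3_, r3_, s01_, r01_, s02_, r02_, s03_, r03_, s12_, r12_, s13_, r13_, s23_, r23_, s012_, r012_, s013_, r013_, s023_, r023_, s123_, r123_, s0123_, r0123_, t10, t20, t21, t32, t021, t032, t102, t103, t120, t132, t0132, t1023]
    all_goals abel
  · refine key _ ((ψ [0, 2, 3] + ψ [1, 2, 3]) + (ψ [0, 2, 3] + ψ [1, 2, 3])) ?_ (zadd _ _ z4 z4)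
    rw [hP]
    simp only [map_sub, map_neg, s_, r_, s0_, r0_, s1_, r1_, s2_, r2_, s3_, r3_, s01_, r01_, s02_, r02_, s03_, r03_, s12_, r12_, s13_, r13_, s23_, r23_, s012_, r012_, s013_, r013_, s023_, r023_, s123_, r123_, s0123_, r0123_, t10, t20, t21, t32, t021, t032, t102, t103, t120, t132, t0132, t1023]
    all_goals abel
  · refine key _ ((ψ [0, 2, 3] + ψ [1, 2, 3]) + (ψ [0, 2, 3] + ψ [1, 2, 3])) ?_ (zadd _ _ z4 z4)
    rw [hP]
    simp only [map_sub, map_neg, s_, r_, s0_, r0_, s1_, r1_, s2_, r2_, s3_, r3_, s01_, r01_, s02_, r02_, s03_, r03_, s12_, r12_, s13_, r13_, s23_, r23_, s012_, r012_, s013_, r013_, s023_, r023_, s123_, r123_, s0123_, r0123_, t10, t20, t21, t32, t021, t032, t102, t103, t120, t132, t0132, t1023]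
    all_goals abel
  · refine key _ (0) ?_ zz
    rw [hP]
    simp only [map_sub, map_neg, s_, r_, s0_, r0_, s1_, r1_, s2_, r2_, s3_, r3_, s01_, r01_, s02_, r02_, s03_, r03_, s12_, r12_, s13_, r13_, s23_, r23_, s012_, r012_, s013_, r013_, s023_, r023_, s123_, r123_, s0123_, r0123_, t10, t20, t21, t32, t021, t032, t102, t103, t120, t132, t0132, t1023]
    all_goals abel

theorem thm_Exa : St_Exa := by
  intro M _ φ s s' D i i' j j' hn hA h3 hs hD S hS
  -- the letters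
  let p : Fin 4 → ℕ := ![i, i', j, j']
  have hp : Function.Injective p := by
    have h1 : p = ([i, i', j, j'] : List ℕ).get := by
      funext k
      fin_cases k <;> rfl
    rw [h1]
    exact List.nodup_iff_injective_get.1 hn
  -- the other letters
  let R : List ℕ := S.filter fun t => t ∉ [i, i', j, j']
  have hR : ∀ t ∈ R, ∀ k, t ≠ p k := by
    intro t ht k he
    have h1 : t ∉ [i, i', j, j'] := by simpa using (List.mem_filter.1 ht).2
    apply h1
    rw [he]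
    fin_cases k <;> simp [p]
  have hRn : R.Nodup := hS.filter _
  have hnod : ∀ l : List (Fin 4), l.Nodup → (l.map p ++ R).Nodup := by
    intro l hl
    rw [List.nodup_append]
    refine ⟨hl.map hp, hRn, ?_⟩
    intro a ha b hb hab
    obtain ⟨k, -, rfl⟩ := List.mem_map.1 ha
    exact hR b hb k hab.symm
  have hmem : ∀ (l : List (Fin 4)) (k : Fin 4), p k ∈ l.map p ++ R ↔ k ∈ l := by
    intro l k
    rw [List.mem_append, List.mem_map_of_injective hp]
    refine ⟨fun h => h.resolve_right fun h => hR _ h k rfl, Or.inl⟩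
  have hsw : ∀ (l : List (Fin 4)) (x y : Fin 4),
      (l.map p ++ R).map (Equiv.swap (p x) (p y)) = (l.map (Equiv.swap x y)).map p ++ R := by
    intro l x y
    rw [List.map_append, List.map_map, List.map_map]
    congr 1
    · refine List.map_congr_left fun k _ => ?_
      exact hp.swap_apply x y k
    · conv_rhs => rw [← List.map_id R]
      refine List.map_congr_left fun t ht => ?_
      exact Equiv.swap_apply_of_ne_of_ne (hR t ht x) (hR t ht y)
  have core := Exa_core (fun l => φ (l.map p ++ R)) s s' (fun x y => D (p x) (p y))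
    (by
      intro l1 l2 x y
      have h1 := hA (l1.map p) (l2.map p ++ R) (p x) (p y)
      simpa using h1)
    (fun l => h3 _)
    (by
      intro l hl
      obtain ⟨h1, h2⟩ := hs _ (hnod l hl)
      have e1 := hsw l 0 1
      have e2 := hsw l 2 3
      constructor
      · show s (φ (l.map p ++ R)) = φ ((l.map (Equiv.swap 0 1)).map p ++ R)
        rw [h1, ← e1]
        rfl
      · show s' (φ (l.map p ++ R)) = φ ((l.map (Equiv.swap 2 3)).map p ++ R)
        rw [h2, ← e2]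
        rfl)
    (by
      intro l hl x hx y hy
      have hx' : p x ∈ [i, i'] := by
        fin_cases x
        · simp [p]
        · simp [p]
        · simp at hx
        · simp at hx
      have hy' : p y ∈ [j, j'] := by
        fin_cases y
        · simp at hy
        · simp at hy
        · simp [p]
        · simp [p]
      have h1 := hD _ (hnod l hl) (p x) hx' (p y) hy'
      rw [hmem, hmem, hsw] at h1
      exact h1)
  -- the alternation
  have halt : ∀ S S' : List ℕ, S.Perm S' → ∀ l : List ℕ, φ (l ++ S) = φ (l ++ S') ∨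
      φ (l ++ S) = -φ (l ++ S') := by
    intro S S' h
    induction h with
    | nil => exact fun l => Or.inl rfl
    | cons x _ ih =>
      intro l
      have h1 := ih (l ++ [x])
      simpa using h1
    | swap x y l' => exact fun l => Or.inr (hA l l' y x)
    | trans _ _ ih1 ih2 =>
      intro l
      rcases ih1 l with h1 | h1 <;> rcases ih2 l with h2 | h2
      · exact Or.inl (h1.trans h2)
      · exact Or.inr (h1.trans h2)
      · exact Or.inr (by rw [h1, h2])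
      · exact Or.inl (by rw [h1, h2, neg_neg])
  -- the list
  have hperm : ∀ l : List (Fin 4), l.Nodup → (∀ k, k ∈ l ↔ p k ∈ S) → S.Perm (l.map p ++ R) := by
    intro l hl hk
    rw [List.perm_ext_iff_of_nodup hS (hnod l hl)]
    intro t
    rw [List.mem_append]
    constructor
    · intro ht
      by_cases h1 : t ∈ [i, i', j, j']
      · left
        have h2 : ∃ k, p k = t := by
          simp only [List.mem_cons, List.not_mem_nil, or_false] at h1
          rcases h1 with h1 | h1 | h1 | h1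
          · exact ⟨0, h1.symm⟩
          · exact ⟨1, h1.symm⟩
          · exact ⟨2, h1.symm⟩
          · exact ⟨3, h1.symm⟩
        obtain ⟨k, rfl⟩ := h2
        exact List.mem_map_of_mem ((hk k).2 ht)
      · right
        exact List.mem_filter.2 ⟨ht, by simpa using h1⟩
    · rintro (h1 | h1)
      · obtain ⟨k, h2, rfl⟩ := List.mem_map.1 h1
        exact (hk k).1 h2
      · exact (List.mem_filter.1 h1).1
  have fin : ∀ l ∈ ([[], [0], [1], [2], [3], [0, 1], [0, 2], [0, 3], [1, 2], [1, 3], [2, 3], [0, 1, 2],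
      [0, 1, 3], [0, 2, 3], [1, 2, 3], [0, 1, 2, 3]] : List (List (Fin 4))), l.Nodup →
      (∀ k, k ∈ l ↔ p k ∈ S) →
      Qo ((1 + s) * (1 - s')) (D i j + D i j' + D i' j + D i' j') (φ S) = 0 := by
    intro l hl hln hk
    have h1 := core l hl
    have h2 : Qo ((1 + s) * (1 - s')) (D i j + D i j' + D i' j + D i' j') (φ (l.map p ++ R)) = 0 := h1
    rcases halt _ _ (hperm l hln hk) [] with h4 | h4
    · rw [List.nil_append, List.nil_append] at h4
      rw [h4, h2]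
    · rw [List.nil_append, List.nil_append] at h4
      rw [h4, map_neg, h2, neg_zero]
  have all : ∀ f : Fin 4 → Bool, ∃ l ∈ ([[], [0], [1], [2], [3], [0, 1], [0, 2], [0, 3], [1, 2], [1, 3],
      [2, 3], [0, 1, 2], [0, 1, 3], [0, 2, 3], [1, 2, 3], [0, 1, 2, 3]] : List (List (Fin 4))),
      l.Nodup ∧ ∀ k, k ∈ l ↔ f k = true := by decide
  obtain ⟨l, h1, h2, h4⟩ := all fun k => decide (p k ∈ S)
  exact fin l h1 h2 fun k => by rw [h4, decide_eq_true_iff]

end Pool.Agent.CRS
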