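import Pool.Agent.CRS.StX

/-!
# CRS.Exf: the function is zero (MP_1bb14d_al)
-/

set_option autoImplicit false

namespace Pool.Agent.CRS

open Pool.Agent.CRR Pool.Agent.CRN Pool.Agent.CRK Pool.Agent.CRL Pool.Agent.CRM Pool.Agent.CRP
open Pool.Agent.CRQ

/-- Every word is killed by the iterated operator. -/
private theorem Exf_word (hg : St_Exg) (hr : St_Rlc) (hres : St_Res) (hj : St_Jpr) (hd : St_Dwp) {A : Type}
    [NonUnitalRing A] (h1 : ∀ x : A, x * x * x = 0) (h2 : ∃ r : ℕ, ∀ x : A, (3 ^ r) • x = 0)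
    (h3 : ∀ l : List A, 6 ≤ l.length → (3 : ℤ) • wp l = 0) (a b c : ℕ) (h6 : 6 ≤ (dW a b c).length)
    (i i' j j' : ℕ) (hi : i ∈ lB a b) (hi' : i' ∈ lB a b) (hii : i ≠ i') (hj1 : j ∈ lC a b c)
    (hj2 : j' ∈ lC a b c) (hjj : j ≠ j') (w : List ℕ) (hw : w.Perm (dW a b c)) :
    ((Qd A A i i' j j') ^ (a + b + c + 1)) (eA w) = 0 := by
  obtain ⟨U, _, N, θ, hN, hU⟩ := hres A h1 h2 h3
  obtain ⟨hd1, _⟩ := hd a b c
  have hcard : (dW a b c).toFinset.card = a + b + c := hd1.2.2.2.2.2.2.2.2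
  have e1 : ∀ t : ℕ, ((Qd N U i i' j j') ^ t) (mo w) ∈ Jf N (dW a b c) t := by
    intro t
    induction t with
    | zero =>
      rw [pow_zero]
      exact (hj U N hN (dW a b c) 0).2.1 w hw
    | succ t ih =>
      rw [pow_succ']
      exact hg U N hN a b c t i i' j j' hi hi' hii hj1 hj2 hjj _ ih
  have hlen : w.length = (dW a b c).length := hw.length_eq
  have hw0 : w ≠ [] := by
    intro h
    rw [h, List.length_nil] at hlen
    omega
  have e2 : ∀ t : ℕ, Rlx θ (dW a b c).length (((Qd A A i i' j j') ^ t) (eA w))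
      (((Qd N U i i' j j') ^ t) (mo w)) := by
    intro t
    induction t with
    | zero =>
      rw [pow_zero, pow_zero]
      exact (hr A U N θ (dW a b c).length).1 w hw0 hlen
    | succ t ih =>
      rw [pow_succ', pow_succ']
      exact (hr A U N θ (dW a b c).length).2 _ _ ih i i' j j'
  have e3 : ((Qd N U i i' j j') ^ (a + b + c + 1)) (mo w) = 0 := by
    have h := e1 (a + b + c + 1)
    rw [(hj U N hN (dW a b c) (a + b + c + 1)).2.2.2.2.1 (by omega)] at h
    exact AddSubgroup.mem_bot.1 h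
  funext x
  obtain ⟨L, hL1, hL2, hL3⟩ := e2 (a + b + c + 1) x
  rw [hL2]
  apply hU _ h6 L hL1
  rw [← hL3, e3]
  rfl

section lin

variable {K A : Type} [CommRing K] [NonUnitalRing A] [Module K A]

variable (K) in
/-- The operator commutes with the elements of `K`. -/
private def ExfC (T : AddMonoid.End ((ℕ → A) → A)) : Prop :=
  ∀ (c : K) (G : (ℕ → A) → A), T (c • G) = c • T G

private theorem Exf_one : ExfC K (1 : AddMonoid.End ((ℕ → A) → A)) := fun _ _ => rfl

private theorem Exf_pc (τ : (ℕ → A) → (ℕ → A)) : ExfC K (pc τ : AddMonoid.End ((ℕ → A) → A)) := fun _ _ => rfl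

private theorem Exf_add {S T : AddMonoid.End ((ℕ → A) → A)} (hS : ExfC K S) (hT : ExfC K T) : ExfC K (S + T) := by
  intro c G
  show S (c • G) + T (c • G) = c • (S G + T G)
  rw [hS, hT, smul_add]

private theorem Exf_sub {S T : AddMonoid.End ((ℕ → A) → A)} (hS : ExfC K S) (hT : ExfC K T) : ExfC K (S - T) := by
  intro c G
  show S (c • G) - T (c • G) = c • (S G - T G)
  rw [hS, hT, smul_sub]

private theorem Exf_neg {S : AddMonoid.End ((ℕ → A) → A)} (hS : ExfC K S) : ExfC K (-S) := by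
  intro c G
  show -(S (c • G)) = c • (-(S G))
  rw [hS, smul_neg]

private theorem Exf_mul {S T : AddMonoid.End ((ℕ → A) → A)} (hS : ExfC K S) (hT : ExfC K T) : ExfC K (S * T) := by
  intro c G
  show S (T (c • G)) = c • (S (T G))
  rw [hT, hS]

private theorem Exf_pow {S : AddMonoid.End ((ℕ → A) → A)} (hS : ExfC K S) (n : ℕ) : ExfC K (S ^ n) := by
  induction n with
  | zero =>
    rw [pow_zero]
    exact Exf_one
  | succ n ih =>
    rw [pow_succ']
    exact Exf_mul hS ih

private theorem Exf_Ddo (i j : ℕ) : ExfC K (Ddo A A i j) :=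
  Exf_sub (Exf_neg (Exf_sub (Exf_pc _) (Exf_pc _))) (Exf_pc _)

private theorem Exf_Qd (i i' j j' : ℕ) : ExfC K (Qd A A i i' j j') := by
  have hP : ExfC K ((1 + pc (swx i i')) * (1 - pc (swx j j')) : AddMonoid.End ((ℕ → A) → A)) :=
    Exf_mul (Exf_add Exf_one (Exf_pc _)) (Exf_sub Exf_one (Exf_pc _))
  have hD : ExfC K (Ddo A A i j + Ddo A A i j' + Ddo A A i' j + Ddo A A i' j') :=
    Exf_add (Exf_add (Exf_add (Exf_Ddo i j) (Exf_Ddo i j')) (Exf_Ddo i' j)) (Exf_Ddo i' j')
  exact Exf_sub hP (Exf_mul (Exf_sub hD (Exf_mul hD hD)) hP)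

/-- The combination of words. -/
private def ExfF (L : List (K × List ℕ)) : (ℕ → A) → A := (L.map fun q => q.1 • (eA q.2 : (ℕ → A) → A)).sum

private theorem Exf_val (L : List (K × List ℕ)) (x : ℕ → A) :
    (ExfF L : (ℕ → A) → A) x = (L.map fun q => q.1 • wp (q.2.map x)).sum := by
  induction L with
  | nil => rfl
  | cons q L ih =>
    have e : (ExfF (q :: L) : (ℕ → A) → A) = q.1 • (eA q.2 : (ℕ → A) → A) + ExfF L := by
      unfold ExfF
      rw [List.map_cons, List.sum_cons]
    rw [e, List.map_cons, List.sum_cons, ← ih]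
    rfl

private theorem Exf_kill (T : AddMonoid.End ((ℕ → A) → A)) (hT : ExfC K T) (L : List (K × List ℕ))
    (h : ∀ q ∈ L, T (eA q.2) = 0) : T (ExfF L) = 0 := by
  induction L with
  | nil => exact map_zero T
  | cons q L ih =>
    have e : (ExfF (q :: L) : (ℕ → A) → A) = q.1 • (eA q.2 : (ℕ → A) → A) + ExfF L := by
      unfold ExfF
      rw [List.map_cons, List.sum_cons]
    rw [e, map_add, hT, h q List.mem_cons_self, smul_zero, zero_add]
    exact ih fun r hr => h r (List.mem_cons_of_mem _ hr)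

end lin

private theorem Exf_Ddo0 {A : Type} [NonUnitalRing A] (F : (ℕ → A) → A) (i j : ℕ)
    (h : ∀ x : ℕ → A, x j = x i → F x = 0) : Ddo A A i j F = 0 := by
  have e : ∀ (m n : ℤ) (x : ℕ → A), F (sbx i j m n x) = 0 := by
    intro m n x
    apply h
    unfold sbx
    rw [if_pos (Or.inr rfl), if_pos (Or.inl rfl)]
  funext x
  show -(F (sbx i j 1 1 x) - F (sbx i j 1 (-1) x)) - F (sbx i j 0 1 x) = 0
  rw [e, e, e]
  simp

/-- The function is zero. -/
theorem thm_Exf : St_Exg → St_Rlc → St_Res → St_Jpr → St_Dwp → St_Exf := by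
  intro hg hr hres hj hd K _ A _ _ h1 h2 h3 a b c h6 hb hc L hL hs1 hs2 hs3 x
  obtain ⟨hd1, _⟩ := hd a b c
  obtain ⟨_, _, _, _, hB, hC, _⟩ := hd1
  have hi : a ∈ lB a b := (hB a).2 ⟨le_rfl, by omega⟩
  have hi' : a + 1 ∈ lB a b := (hB (a + 1)).2 ⟨by omega, by omega⟩
  have hj1 : a + b ∈ lC a b c := (hC (a + b)).2 ⟨le_rfl, by omega⟩
  have hj2 : a + b + 1 ∈ lC a b c := (hC (a + b + 1)).2 ⟨by omega, by omega⟩
  have hval : ∀ y : ℕ → A, (ExfF L : (ℕ → A) → A) y = (L.map fun q => q.1 • wp (q.2.map y)).sum := Exf_val L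
  set F : (ℕ → A) → A := ExfF L with hF
  -- 3 F = 0
  have hF3 : F + F + F = 0 := by
    funext y
    have e : ∀ L' : List (K × List ℕ), (∀ q ∈ L', q.2.Perm (dW a b c)) →
        (3 : ℤ) • (L'.map fun q => q.1 • wp (q.2.map y)).sum = 0 := by
      intro L' hL'
      induction L' with
      | nil => simp
      | cons q L' ih =>
        rw [List.map_cons, List.sum_cons, smul_add, ih fun r hr => hL' r (List.mem_cons_of_mem _ hr), add_zero,
          smul_comm, h3 _ (by rw [List.length_map, (hL' q List.mem_cons_self).length_eq]; exact h6), smul_zero]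
    have e' := e L hL
    rw [← hval] at e'
    show F y + F y + F y = 0
    rw [← e', show (3 : ℤ) = 1 + 1 + 1 by norm_num, add_smul, add_smul, one_smul]
  have hpi : (pc (swx a (a + 1)) : AddMonoid.End ((ℕ → A) → A)) F = F := by
    funext y
    show F (swx a (a + 1) y) = F y
    rw [hval, hval]
    exact hs1 a hi (a + 1) hi' y
  have hpj : (pc (swx (a + b) (a + b + 1)) : AddMonoid.End ((ℕ → A) → A)) F = -F := by
    funext y
    show F (swx (a + b) (a + b + 1) y) = -(F y)
    rw [hval, hval]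
    exact hs2 (a + b) hj1 (a + b + 1) hj2 (by omega) y
  have hP : ((1 + pc (swx a (a + 1))) * (1 - pc (swx (a + b) (a + b + 1))) : AddMonoid.End ((ℕ → A) → A)) F = F := by
    have e1 : (1 - pc (swx (a + b) (a + b + 1)) : AddMonoid.End ((ℕ → A) → A)) F = F + F := by
      show F - (pc (swx (a + b) (a + b + 1)) : AddMonoid.End ((ℕ → A) → A)) F = F + F
      rw [hpj, sub_neg_eq_add]
    show (1 + pc (swx a (a + 1)) : AddMonoid.End ((ℕ → A) → A))
      ((1 - pc (swx (a + b) (a + b + 1)) : AddMonoid.End ((ℕ → A) → A)) F) = F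
    rw [e1]
    show F + F + (pc (swx a (a + 1)) : AddMonoid.End ((ℕ → A) → A)) (F + F) = F
    rw [map_add, hpi]
    have : F + F + (F + F) = (F + F + F) + F := by abel
    rw [this, hF3, zero_add]
  have hz : ∀ i ∈ lB a b, ∀ j ∈ lC a b c, Ddo A A i j F = 0 := by
    intro i hi j hj
    apply Exf_Ddo0
    intro y hy
    rw [hval]
    exact hs3 i hi j hj y hy
  have hD : (Ddo A A a (a + b) + Ddo A A a (a + b + 1) + Ddo A A (a + 1) (a + b) +
      Ddo A A (a + 1) (a + b + 1)) F = 0 := by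
    show Ddo A A a (a + b) F + Ddo A A a (a + b + 1) F + Ddo A A (a + 1) (a + b) F +
      Ddo A A (a + 1) (a + b + 1) F = 0
    rw [hz a hi _ hj1, hz a hi _ hj2, hz _ hi' _ hj1, hz _ hi' _ hj2]
    simp
  have hQ : Qd A A a (a + 1) (a + b) (a + b + 1) F = F := by
    set P : AddMonoid.End ((ℕ → A) → A) := (1 + pc (swx a (a + 1))) * (1 - pc (swx (a + b) (a + b + 1))) with hPd
    set D : AddMonoid.End ((ℕ → A) → A) := Ddo A A a (a + b) + Ddo A A a (a + b + 1) + Ddo A A (a + 1) (a + b) +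
      Ddo A A (a + 1) (a + b + 1) with hDd
    show P F - (D (P F) - D (D (P F))) = F
    rw [hP, hD, map_zero, sub_zero, sub_zero]
  have hQm : ((Qd A A a (a + 1) (a + b) (a + b + 1)) ^ (a + b + c + 1)) F = F := by
    have : ∀ t : ℕ, ((Qd A A a (a + 1) (a + b) (a + b + 1)) ^ t) F = F := by
      intro t
      induction t with
      | zero =>
        rw [pow_zero]
        rfl
      | succ t ih =>
        rw [pow_succ']
        show (Qd A A a (a + 1) (a + b) (a + b + 1)) (((Qd A A a (a + 1) (a + b) (a + b + 1)) ^ t) F) = F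
        rw [ih, hQ]
    exact this _
  have hk := Exf_kill _ (Exf_pow (Exf_Qd (K := K) (A := A) a (a + 1) (a + b) (a + b + 1)) (a + b + c + 1)) L
    fun q hq => Exf_word hg hr hres hj hd h1 h2 h3 a b c h6 a (a + 1) (a + b) (a + b + 1) hi hi' (by omega)
      hj1 hj2 (by omega) q.2 (hL q hq)
  rw [← hval x]
  have hFF : F = 0 := by
    rw [← hQm]
    exact hk
  rw [hFF]
  rfl

end Pool.Agent.CRS
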