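import Pool.Agent.CRS.StX

/-!
Campaign CRS (MP_1bb14d_al), module Exg: graded step (offer 16672, architect helper34).
-/

set_option autoImplicit false

namespace Pool.Agent.CRS

open Pool.Agent.CRR Pool.Agent.CRN Pool.Agent.CRK Pool.Agent.CRL Pool.Agent.CRM Pool.Agent.CRP
open Pool.Agent.CRQ

section Exg_ind

variable {V : Type} [AddCommGroup V]

/-- induced operator -/
private noncomputable def Exg_q (J : AddSubgroup V) (T : AddMonoid.End V) (h : ∀ F ∈ J, T F ∈ J) : AddMonoid.End (V ⧸ J) :=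
  QuotientAddGroup.map J J T (fun F hF => h F hF)

/-- `T'` is induced by `T` -/
private def Exg_Ind (J : AddSubgroup V) (T : AddMonoid.End V) (T' : AddMonoid.End (V ⧸ J)) : Prop :=
  ∀ F : V, T' (QuotientAddGroup.mk F) = QuotientAddGroup.mk (T F)

private theorem Exg_q_ind (J : AddSubgroup V) (T : AddMonoid.End V) (h : ∀ F ∈ J, T F ∈ J) : Exg_Ind J T (Exg_q J T h) :=
  fun _ => rfl

private theorem Exg_one (J : AddSubgroup V) : Exg_Ind J 1 1 := fun _ => rfl

private theorem Exg_add (J : AddSubgroup V) {T S : AddMonoid.End V} {T' S' : AddMonoid.End (V ⧸ J)} (h : Exg_Ind J T T')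
    (k : Exg_Ind J S S') : Exg_Ind J (T + S) (T' + S') := by
  intro F
  have h1 : (T' + S') (QuotientAddGroup.mk F) = T' (QuotientAddGroup.mk F) + S' (QuotientAddGroup.mk F) := rfl
  rw [h1, h F, k F]
  rfl

private theorem Exg_sub (J : AddSubgroup V) {T S : AddMonoid.End V} {T' S' : AddMonoid.End (V ⧸ J)} (h : Exg_Ind J T T')
    (k : Exg_Ind J S S') : Exg_Ind J (T - S) (T' - S') := by
  intro F
  have h1 : (T' - S') (QuotientAddGroup.mk F) = T' (QuotientAddGroup.mk F) - S' (QuotientAddGroup.mk F) := rfl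
  rw [h1, h F, k F]
  rfl

private theorem Exg_mul (J : AddSubgroup V) {T S : AddMonoid.End V} {T' S' : AddMonoid.End (V ⧸ J)} (h : Exg_Ind J T T')
    (k : Exg_Ind J S S') : Exg_Ind J (T * S) (T' * S') := by
  intro F
  have h1 : (T' * S') (QuotientAddGroup.mk F) = T' (S' (QuotientAddGroup.mk F)) := rfl
  rw [h1, k F, h (S F)]
  rfl

private theorem Exg_Qo (J : AddSubgroup V) {P D : AddMonoid.End V} {P' D' : AddMonoid.End (V ⧸ J)} (h : Exg_Ind J P P')
    (k : Exg_Ind J D D') : Exg_Ind J (Qo P D) (Qo P' D') :=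
  Exg_sub J h (Exg_mul J (Exg_sub J k (Exg_mul J k k)) h)

end Exg_ind

/-- **Exg** -/
theorem thm_Exg : St_Exa → St_Ddv → St_Ddj → St_Vfp → St_Jpr → St_Dwp → St_Exg := by
  classical
  intro hExa hDdv hDdj hVfp hJpr hDwp U _ N hN a b c k i i' j j' hi hi' hii hj hj' hjj
  obtain ⟨⟨-, -, -, -, hB, hC, hW, -, -⟩, hswap, -, -, -, -⟩ := hDwp a b c
  obtain ⟨v1, v2, v3, v4, -, v6⟩ := hVfp U N hN a b c
  set d := dW a b c with hd
  set J : AddSubgroup ((ℕ → N) → U) := Jf N d (k + 1) with hJ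
  -- small facts on the letters
  have hlB : ∀ x, x ∈ lB a b → x < a + b + c := fun x hx => by
    have := (hB x).1 hx
    omega
  have hlC : ∀ x, x ∈ lC a b c → x < a + b + c := fun x hx => by
    have := (hC x).1 hx
    omega
  have hpos : 1 ≤ a + b + c := by
    have := hlB i hi
    omega
  have hsw : ∀ x y t : ℕ, x < a + b + c → y < a + b + c → t < a + b + c → Equiv.swap x y t < a + b + c := by
    intro x y t hx hy ht
    rcases eq_or_ne t x with h | h
    · rw [h, Equiv.swap_apply_left]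
      exact hy
    · rcases eq_or_ne t y with h' | h'
      · rw [h', Equiv.swap_apply_right]
        exact hx
      · rw [Equiv.swap_apply_of_ne_of_ne h h']
        exact ht
  -- the function
  let gd : List ℕ → Prop := fun S => S.length = k ∧ ∀ t ∈ S, t < a + b + c
  let φ : List ℕ → ((ℕ → N) → U) ⧸ J := fun S => if gd S then QuotientAddGroup.mk (vf N d S) else 0
  have φ1 : ∀ S, gd S → φ S = QuotientAddGroup.mk (vf N d S) := fun S h => if_pos h
  have φ0 : ∀ S, ¬ gd S → φ S = 0 := fun S h => if_neg h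
  have gmap1 : ∀ (x y : ℕ) (S : List ℕ), x < a + b + c → y < a + b + c → gd S → gd (S.map (Equiv.swap x y)) := by
    intro x y S hx hy h
    refine ⟨by rw [List.length_map]; exact h.1, ?_⟩
    intro t ht
    obtain ⟨r, hr, rfl⟩ := List.mem_map.1 ht
    exact hsw x y r hx hy (h.2 r hr)
  have gmap : ∀ (x y : ℕ) (S : List ℕ), x < a + b + c → y < a + b + c → (gd (S.map (Equiv.swap x y)) ↔ gd S) := by
    intro x y S hx hy
    refine ⟨fun h => ?_, gmap1 x y S hx hy⟩
    have h2 := gmap1 x y _ hx hy h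
    have h3 : (S.map (Equiv.swap x y)).map (Equiv.swap x y) = S := by
      rw [List.map_map]
      have h4 : (⇑(Equiv.swap x y) ∘ ⇑(Equiv.swap x y)) = id := by
        funext t
        simp
      rw [h4, List.map_id]
    rwa [h3] at h2
  have mk0 : ∀ F : (ℕ → N) → U, F ∈ J → (QuotientAddGroup.mk F : ((ℕ → N) → U) ⧸ J) = 0 := fun F h =>
    (QuotientAddGroup.eq_zero_iff F).2 h
  have mkeq : ∀ F G : (ℕ → N) → U, F - G ∈ J → (QuotientAddGroup.mk F : ((ℕ → N) → U) ⧸ J) = QuotientAddGroup.mk G := by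
    intro F G h
    have h1 := mk0 _ h
    rw [QuotientAddGroup.mk_sub] at h1
    exact sub_eq_zero.1 h1
  -- the operators
  have st1 : ∀ x y : ℕ, ((x ∈ lB a b ∧ y ∈ lB a b) ∨ (x ∈ lC a b c ∧ y ∈ lC a b c)) →
      ∀ F ∈ J, (pc (swx x y) : AddMonoid.End ((ℕ → N) → U)) F ∈ J := by
    intro x y hxy F hF
    exact (hJpr U N hN d (k + 1)).2.2.2.1 x y (hswap x y hxy) F hF
  have st2 : ∀ x y : ℕ, x ∈ lB a b → y ∈ lC a b c → ∀ F ∈ J, Ddo N U x y F ∈ J := fun x y hx hy F hF =>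
    hDdj U N hN a b c (k + 1) x y hx hy F hF
  let s : AddMonoid.End (((ℕ → N) → U) ⧸ J) := Exg_q J (pc (swx i i')) (st1 i i' (Or.inl ⟨hi, hi'⟩))
  let s' : AddMonoid.End (((ℕ → N) → U) ⧸ J) := Exg_q J (pc (swx j j')) (st1 j j' (Or.inr ⟨hj, hj'⟩))
  let D : ℕ → ℕ → AddMonoid.End (((ℕ → N) → U) ⧸ J) := fun x y =>
    if h : x ∈ lB a b ∧ y ∈ lC a b c then Exg_q J (Ddo N U x y) (st2 x y h.1 h.2) else 0
  have hD : ∀ x y : ℕ, x ∈ lB a b → y ∈ lC a b c → Exg_Ind J (Ddo N U x y) (D x y) := by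
    intro x y hx hy
    have h1 : D x y = Exg_q J (Ddo N U x y) (st2 x y hx hy) := dif_pos ⟨hx, hy⟩
    rw [h1]
    exact Exg_q_ind _ _ _
  have hQ : Exg_Ind J (Qd N U i i' j j') (Qo ((1 + s) * (1 - s')) (D i j + D i j' + D i' j + D i' j')) := by
    refine Exg_Qo J (Exg_mul J (Exg_add J (Exg_one J) (Exg_q_ind _ _ _)) (Exg_sub J (Exg_one J) (Exg_q_ind _ _ _))) ?_
    exact Exg_add J (Exg_add J (Exg_add J (hD i j hi hj) (hD i j' hi hj')) (hD i' j hi' hj)) (hD i' j' hi' hj')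
  -- the hypotheses of `Exa`
  have hnd : [i, i', j, j'].Nodup := by
    have e1 := (hB i).1 hi
    have e2 := (hB i').1 hi'
    have e3 := (hC j).1 hj
    have e4 := (hC j').1 hj'
    have n1 : i ≠ j := by omega
    have n2 : i ≠ j' := by omega
    have n3 : i' ≠ j := by omega
    have n4 : i' ≠ j' := by omega
    simp [hii, hjj, n1, n2, n3, n4]
  have halt : ∀ (l1 l2 : List ℕ) (x y : ℕ), φ (l1 ++ x :: y :: l2) = -φ (l1 ++ y :: x :: l2) := by
    intro l1 l2 x y
    have hp : (l1 ++ x :: y :: l2).Perm (l1 ++ y :: x :: l2) := List.Perm.append_left l1 (List.Perm.swap y x l2)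
    have hg : gd (l1 ++ x :: y :: l2) ↔ gd (l1 ++ y :: x :: l2) := by
      refine ⟨fun h => ⟨by rw [← hp.length_eq]; exact h.1, fun t ht => h.2 t (hp.mem_iff.2 ht)⟩,
        fun h => ⟨by rw [hp.length_eq]; exact h.1, fun t ht => h.2 t (hp.mem_iff.1 ht)⟩⟩
    by_cases h : gd (l1 ++ x :: y :: l2)
    · rw [φ1 _ h, φ1 _ (hg.1 h), v3 l1 l2 x y]
      rfl
    · rw [φ0 _ h, φ0 _ (fun h' => h (hg.2 h')), neg_zero]
  have h3φ : ∀ S : List ℕ, (3 : ℤ) • φ S = 0 := by
    intro S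
    by_cases h : gd S
    · rw [φ1 _ h]
      have h1 : (3 : ℤ) • (QuotientAddGroup.mk (vf N d S) : ((ℕ → N) → U) ⧸ J) = QuotientAddGroup.mk ((3 : ℤ) • vf N d S) := rfl
      rw [h1, v6 S hpos h.2]
      rfl
    · rw [φ0 _ h, smul_zero]
  have hss : ∀ x y : ℕ, (hxy : (x ∈ lB a b ∧ y ∈ lB a b) ∨ (x ∈ lC a b c ∧ y ∈ lC a b c)) → ∀ S : List ℕ,
      Exg_q J (pc (swx x y)) (st1 x y hxy) (φ S) = φ (S.map (Equiv.swap x y)) := by
    intro x y hxy S
    have hx : x < a + b + c := by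
      rcases hxy with h | h
      · exact hlB x h.1
      · exact hlC x h.1
    have hy : y < a + b + c := by
      rcases hxy with h | h
      · exact hlB y h.2
      · exact hlC y h.2
    by_cases h : gd S
    · rw [φ1 _ h, φ1 _ ((gmap x y S hx hy).2 h), Exg_q_ind J _ _]
      apply mkeq
      have h1 := v4 S x y h.2 hxy
      rw [h.1] at h1
      exact h1
    · rw [φ0 _ h, φ0 _ (fun h' => h ((gmap x y S hx hy).1 h')), map_zero]
  have hDD : ∀ S : List ℕ, S.Nodup → ∀ x ∈ [i, i'], ∀ y ∈ [j, j'],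
      (x ∉ S → y ∉ S → D x y (φ S) = 0) ∧ (x ∈ S → y ∈ S → D x y (φ S) = 0) ∧
      (x ∈ S → y ∉ S → D x y (φ S) = φ (S.map (Equiv.swap x y)) - φ S) ∧
      (x ∉ S → y ∈ S → D x y (φ S) = φ S - φ (S.map (Equiv.swap x y))) := by
    intro S hS x hx y hy
    have hx' : x ∈ lB a b := by
      simp only [List.mem_cons, List.not_mem_nil, or_false] at hx
      rcases hx with rfl | rfl
      · exact hi
      · exact hi'
    have hy' : y ∈ lC a b c := by
      simp only [List.mem_cons, List.not_mem_nil, or_false] at hy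
      rcases hy with rfl | rfl
      · exact hj
      · exact hj'
    have hxx := hlB x hx'
    have hyy := hlC y hy'
    by_cases h : gd S
    · obtain ⟨d1, d2, d3, d4⟩ := hDdv U N hN a b c x y hx' hy' S hS h.2
      rw [h.1] at d1 d2 d3 d4
      have hg2 := (gmap x y S hxx hyy).2 h
      rw [φ1 _ h, φ1 _ hg2, hD x y hx' hy']
      refine ⟨fun q1 q2 => mk0 _ (d1 q1 q2), fun q1 q2 => mk0 _ (d2 q1 q2), fun q1 q2 => ?_, fun q1 q2 => ?_⟩
      · rw [← QuotientAddGroup.mk_sub]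
        exact mkeq _ _ (d3 q1 q2)
      · rw [← QuotientAddGroup.mk_sub]
        exact mkeq _ _ (d4 q1 q2)
    · have hg2 : ¬ gd (S.map (Equiv.swap x y)) := fun h' => h ((gmap x y S hxx hyy).1 h')
      rw [φ0 _ h, φ0 _ hg2, map_zero]
      simp
  have key := hExa (((ℕ → N) → U) ⧸ J) φ s s' D i i' j j' hnd halt h3φ
    (fun S _ => ⟨hss i i' (Or.inl ⟨hi, hi'⟩) S, hss j j' (Or.inr ⟨hj, hj'⟩) S⟩) hDD
  -- the end
  have hmem : ∀ F : (ℕ → N) → U, Qo ((1 + s) * (1 - s')) (D i j + D i j' + D i' j + D i' j') (QuotientAddGroup.mk F) = 0 →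
      Qd N U i i' j j' F ∈ J := by
    intro F h
    rw [hQ F] at h
    exact (QuotientAddGroup.eq_zero_iff _).1 h
  intro F hF
  refine AddSubgroup.closure_induction (p := fun F _ => Qd N U i i' j j' F ∈ J) ?_ ?_ ?_ ?_ hF
  · rintro F ⟨l, S, hlS, hkS, rfl⟩
    apply hmem
    rcases Nat.lt_or_ge k S.length with h | h
    · have h1 : (mo l * br S : (ℕ → N) → U) ∈ J := AddSubgroup.subset_closure ⟨l, S, hlS, h, rfl⟩
      rw [mk0 _ h1, map_zero]
    · have hSk : S.length = k := le_antisymm h hkS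
      by_cases hnS : S.Nodup
      · have hg : gd S := by
          refine ⟨hSk, fun t ht => ?_⟩
          have h2 : t ∈ l ++ S := List.mem_append_right l ht
          exact (hW t).1 (hlS.mem_iff.1 h2)
        have h1 := v1 l S hlS hnS
        rw [hSk] at h1
        rw [mkeq _ _ h1, ← φ1 S hg]
        exact key S hnS
      · have h1 : (br S : (ℕ → N) → U) = 0 := (hJpr U N hN d k).2.2.2.2.2.2 S hnS
        rw [h1, mul_zero]
        exact map_zero _
  · rw [map_zero]
    exact J.zero_mem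
  · intro F G _ _ h1 h2
    rw [map_add]
    exact J.add_mem h1 h2
  · intro F _ h1
    rw [map_neg]
    exact J.neg_mem h1

end Pool.Agent.CRS
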