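import Pool.Agent.CRS.StB

/-!
# Campaign CRS, part Fid: identities in rings with `x^3 = 0`, `3 x = 0`
-/

set_option autoImplicit false

namespace Pool.Agent.CRS

variable {U : Type} [Ring U] {N : NonUnitalSubring U}

private theorem fid_cm {x y : U} (hx : x ∈ N) (hy : y ∈ N) : cm x y ∈ N :=
  N.sub_mem (N.mul_mem hx hy) (N.mul_mem hy hx)

/-- Division by 2. -/
private theorem fid_two (h : Nr N) {a : U} (ha : a ∈ N) (h2 : a + a = 0) : a = 0 := by
  have h3 := h.tor a ha
  have h4 : (3 : ℤ) • a = a + a + a := by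
    rw [show (3 : ℤ) = 1 + 1 + 1 by norm_num, add_smul, add_smul, one_smul]
  rw [h4, h2, zero_add] at h3
  exact h3

private theorem fid_anti (x y : U) : cm x y = -cm y x := by
  simp only [cm]
  noncomm_ring

private theorem fid_one (h : Nr N) {x y : U} (hx : x ∈ N) (hy : y ∈ N) : cm (cm x y) y = 0 := by
  have h1 := h.cube (x + y) (N.add_mem hx hy)
  have h2 := h.cube (x - y) (N.sub_mem hx hy)
  have h3 := h.cube x hx
  have h5 : x * y * y + y * x * y + y * y * x = 0 := by
    refine fid_two h (N.add_mem (N.add_mem (N.mul_mem (N.mul_mem hx hy) hy)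
      (N.mul_mem (N.mul_mem hy hx) hy)) (N.mul_mem (N.mul_mem hy hy) hx)) ?_
    have h6 : (x * y * y + y * x * y + y * y * x) + (x * y * y + y * x * y + y * y * x) =
        (x + y) * (x + y) * (x + y) + (x - y) * (x - y) * (x - y) - x * x * x - x * x * x := by
      noncomm_ring
    rw [h6, h1, h2, h3]
    simp
  have h7 := h.tor (y * x * y) (N.mul_mem (N.mul_mem hy hx) hy)
  have h8 : cm (cm x y) y = (x * y * y + y * x * y + y * y * x) - (3 : ℤ) • (y * x * y) := by
    simp only [cm]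
    noncomm_ring
  rw [h8, h5, h7, sub_zero]

private theorem fid_lin (h : Nr N) {x y z : U} (hx : x ∈ N) (hy : y ∈ N) (hz : z ∈ N) :
    cm (cm x y) z = -cm (cm x z) y := by
  have h1 := fid_one h hx (N.add_mem hy hz)
  have h2 := fid_one h hx hy
  have h3 := fid_one h hx hz
  have h4 : cm (cm x y) z = -cm (cm x z) y +
      (cm (cm x (y + z)) (y + z) - cm (cm x y) y - cm (cm x z) z) := by
    simp only [cm]
    noncomm_ring
  rw [h4, h1, h2, h3]
  simp

private theorem fid_jac (a z w : U) :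
    cm a (cm z w) = cm (cm a z) w - cm (cm a w) z := by
  simp only [cm]
  noncomm_ring

private theorem fid_neg (x y : U) : cm (-x) y = -cm x y := by
  simp only [cm]
  noncomm_ring

private theorem fid_quad (h : Nr N) {x y z w : U} (hx : x ∈ N) (hy : y ∈ N) (hz : z ∈ N)
    (hw : w ∈ N) : cm (cm (cm x y) z) w = 0 := by
  -- exchange of the places 3, 4
  have s34 : ∀ {a b c d : U}, a ∈ N → b ∈ N → c ∈ N → d ∈ N →
      cm (cm (cm a b) c) d = -cm (cm (cm a b) d) c := fun ha hb hc hd =>
    fid_lin h (fid_cm ha hb) hc hd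
  -- exchange of the places 2, 3
  have s23 : ∀ {a b c d : U}, a ∈ N → b ∈ N → c ∈ N →
      cm (cm (cm a b) c) d = -cm (cm (cm a c) b) d := by
    intro a b c d ha hb hc
    rw [fid_lin h ha hb hc, fid_neg]
  -- exchange of the places 1, 2
  have s12 : ∀ {a b c d : U}, cm (cm (cm a b) c) d = -cm (cm (cm b a) c) d := by
    intro a b c d
    rw [fid_anti a b, fid_neg, fid_neg]
  have h1 : cm (cm x y) (cm z w) = cm (cm (cm x y) z) w + cm (cm (cm x y) z) w := by
    rw [fid_jac, s34 hx hy hw hz, sub_neg_eq_add]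
  have h2 : cm (cm z w) (cm x y) = cm (cm (cm z w) x) y + cm (cm (cm z w) x) y := by
    rw [fid_jac, s34 hz hw hy hx, sub_neg_eq_add]
  have h3 : cm (cm (cm z w) x) y = cm (cm (cm x y) z) w := by
    rw [s23 hz hw hx, s12, neg_neg, s34 hx hz hw hy, s23 hx hz hy, neg_neg]
  have h4 : cm (cm x y) (cm z w) = -cm (cm z w) (cm x y) := fid_anti _ _
  rw [h1, h2, h3] at h4
  have hD : cm (cm (cm x y) z) w ∈ N := fid_cm (fid_cm (fid_cm hx hy) hz) hw
  refine fid_two h hD (fid_two h (N.add_mem hD hD) ?_)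
  nth_rw 1 [h4]
  simp

private theorem fid_com (h : Nr N) {x y z w : U} (hx : x ∈ N) (hy : y ∈ N) (hz : z ∈ N)
    (hw : w ∈ N) : cm (cm x y) (cm z w) = 0 := by
  rw [fid_jac, fid_quad h hx hy hz hw, fid_quad h hx hy hw hz, sub_zero]

private theorem fid_prod (h : Nr N) {x y w : U} (hx : x ∈ N) (hy : y ∈ N) (hw : w ∈ N) :
    cm x y * cm w y = 0 := by
  refine fid_two h (N.mul_mem (fid_cm hx hy) (fid_cm hw hy)) ?_
  have h1 := fid_one h (N.mul_mem hx hw) hy
  have h2 := fid_one h hx hy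
  have h3 := fid_one h hw hy
  have h4 : cm x y * cm w y + cm x y * cm w y =
      cm (cm (x * w) y) y - x * cm (cm w y) y - cm (cm x y) y * w := by
    simp only [cm]
    noncomm_ring
  rw [h4, h1, h2, h3]
  simp

private theorem fid_four (h : Nr N) {x y z w : U} (hx : x ∈ N) (hy : y ∈ N) (hz : z ∈ N)
    (hw : w ∈ N) : cm x y * cm z w = -(cm x z * cm y w) := by
  have h1 := fid_prod h hx (N.add_mem hy hz) hw
  have h2 := fid_prod h hx hy hw
  have h3 := fid_prod h hx hz hw
  have h4 : cm x y * cm z w = -(cm x z * cm y w) -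
      (cm x (y + z) * cm w (y + z) - cm x y * cm w y - cm x z * cm w z) := by
    simp only [cm]
    noncomm_ring
  rw [h4, h1, h2, h3]
  simp

theorem thm_Fid : St_Fid := by
  intro U _ N h
  refine ⟨fun x hx y hy => fid_one h hx hy, fun x hx y hy z hz => ⟨fid_lin h hx hy hz, ?_⟩,
    fun x hx y hy z hz w hw => fid_quad h hx hy hz hw,
    fun x hx y hy z hz w hw => fid_four h hx hy hz hw, ?_⟩
  · rw [fid_anti x y, fid_neg]
  · intro x hx y hy z hz u hu v hv w hw
    rw [fid_four h (fid_cm hx hy) hz (fid_cm hu hv) hw, fid_com h hx hy hu hv, zero_mul, neg_zero]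

end Pool.Agent.CRS
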