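import Pool.Agent.CRS.StB

/-!
Campaign CRS, module Grb: the graded step for the letters of degree 2.
-/

set_option autoImplicit false

namespace Pool.Agent.CRS

open Pool.Agent.CRR Pool.Agent.CRN Pool.Agent.CRK Pool.Agent.CRL Pool.Agent.CRM Pool.Agent.CRP
open Pool.Agent.CRQ

theorem Grb_sub {M α : Type} [AddCommGroup M] (J : AddSubgroup M) (f g : α → M) :
    ∀ L : List α, (∀ y ∈ L, f y - g y ∈ J) → (L.map f).sum - (L.map g).sum ∈ J
  | [], _ => by simp
  | y :: L, h => by
    have h1 := Grb_sub J f g L fun z hz => h z (List.mem_cons_of_mem _ hz)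
    have h2 := J.add_mem (h y List.mem_cons_self) h1
    rw [List.map_cons, List.map_cons, List.sum_cons, List.sum_cons]
    have e : f y + (L.map f).sum - (g y + (L.map g).sum) =
        f y - g y + ((L.map f).sum - (L.map g).sum) := by abel
    rw [e]
    exact h2

theorem Grb_add {M α : Type} [AddCommGroup M] (f g : α → M) :
    ∀ L : List α, (∀ y ∈ L, f y + g y = 0) → (L.map f).sum + (L.map g).sum = 0
  | [], _ => by simp
  | y :: L, h => by
    have h1 := Grb_add f g L fun z hz => h z (List.mem_cons_of_mem _ hz)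
    have h2 := h y List.mem_cons_self
    rw [List.map_cons, List.map_cons, List.sum_cons, List.sum_cons]
    have e : f y + (L.map f).sum + (g y + (L.map g).sum) =
        f y + g y + ((L.map f).sum + (L.map g).sum) := by abel
    rw [e, h1, h2, add_zero]

theorem Grb_smul {M α : Type} [AddCommGroup M] (n : ℤ) (f : α → M) :
    ∀ L : List α, (∀ y ∈ L, n • f y = 0) → n • (L.map f).sum = 0
  | [], _ => by simp
  | y :: L, h => by
    have h1 := Grb_smul n f L fun z hz => h z (List.mem_cons_of_mem _ hz)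
    rw [List.map_cons, List.sum_cons, smul_add, h1, h y List.mem_cons_self, add_zero]

theorem Grb_len (C Y : List ℕ) (hY : Y.Nodup) (h : ∀ i ∈ Y, i ∈ C) :
    (C.diff Y).length = C.length - Y.length := by
  have h1 : (Y ++ C.diff Y).Perm C := by
    refine List.subperm_append_diff_self_of_count_le fun x hx => ?_
    have h2 := List.nodup_iff_count_le_one.1 hY x
    have h3 := List.count_pos_iff.2 (h x hx)
    omega
  have h4 := h1.length_eq
  rw [List.length_append] at h4
  omega

theorem Grb_map (l : List ℕ) (i j : ℕ) (h : ∀ k ∈ l, k ≠ i ∧ k ≠ j) :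
    l.map (Equiv.swap i j) = l := by
  have h1 : l.map (Equiv.swap i j) = l.map id :=
    List.map_congr_left fun k hk => Equiv.swap_apply_of_ne_of_ne (h k hk).1 (h k hk).2
  rw [h1, List.map_id]

theorem thm_Grb (hV : St_Vfp) (hJ : St_Jpr) (hD : St_Dwp) (hA : St_Alq) : St_Grb := by
  intro U _ N hN a b c k X habc hX u hu hk
  obtain ⟨⟨-, hBn, hCn, hAm, hBm, hCm, -, -, -⟩, hD2, -, -, -, hD6⟩ := hD a b c
  obtain ⟨-, -, hV3, hV4, -, hV6⟩ := hV U N hN a b c
  obtain ⟨-, hu2⟩ := hD6 (lC a b c) hCn u hu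
  have hClen : (lC a b c).length = c := by simp [lC]
  have hAlen : (lA a).length = a := by simp [lA]
  have hsf : ∀ i ∈ lB a b, ∀ j ∈ lB a b, ∀ F : (ℕ → N) → U,
      (sf 1 (lB a b) i j : AddMonoid.End ((ℕ → N) → U)) F =
        fun x => F (fun t => x (Equiv.swap i j t)) := by
    intro i hi j hj F
    have e : (sf 1 (lB a b) i j : AddMonoid.End ((ℕ → N) → U)) F =
        if i ∈ lB a b ∧ j ∈ lB a b then
          (fun x : ℕ → N => (1 : ℤ) • F (fun k => x (Equiv.swap i j k))) else 0 := rfl
    rw [e, if_pos ⟨hi, hj⟩]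
    funext x
    rw [one_smul]
  -- the family
  obtain ⟨ψ, hψ⟩ : ∃ ψ : List ℕ → List ℕ → (ℕ → N) → U, ∀ X Y, ψ X Y =
      sg (Y ++ (lC a b c).diff Y) • vf N (dW a b c) (lA a ++ X ++ (lC a b c).diff Y) :=
    ⟨_, fun _ _ => rfl⟩
  obtain ⟨φ, hφ⟩ : ∃ φ : List ℕ → (ℕ → N) → U, ∀ X, φ X =
      if a + X.length + (c - u.1) = k then (u.2.map (ψ X)).sum else 0 := ⟨_, fun _ => rfl⟩
  have hlt : ∀ l : List ℕ, (∀ i ∈ l, i ∈ lB a b) → ∀ Y : List ℕ,
      ∀ i ∈ lA a ++ l ++ (lC a b c).diff Y, i < a + b + c := by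
    intro l hl Y i hi
    rw [List.mem_append, List.mem_append] at hi
    rcases hi with (hi | hi) | hi
    · have := (hAm i).1 hi
      omega
    · have := (hBm i).1 (hl i hi)
      omega
    · have := (hCm i).1 ((List.diff_sublist _ _).subset hi)
      omega
  have hJst : ∀ i ∈ lB a b, ∀ j ∈ lB a b, ∀ m ∈ Jf N (dW a b c) (k + 1),
      (sf 1 (lB a b) i j : AddMonoid.End ((ℕ → N) → U)) m ∈ Jf N (dW a b c) (k + 1) := by
    intro i hi j hj m hm
    rw [hsf i hi j hj]
    exact (hJ U N hN (dW a b c) (k + 1)).2.2.2.1 i j (hD2 i j (Or.inl ⟨hi, hj⟩)) m hm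
  have h := hA ((ℕ → N) → U) (Jf N (dW a b c) (k + 1)) (sf 1 (lB a b)) (lB a b) φ hBn hJst
    ?_ ?_ ?_ X hX
  · have e : φ X = (u.2.map fun Y => sg (Y ++ (lC a b c).diff Y) •
        vf N (dW a b c) (lA a ++ X ++ (lC a b c).diff Y)).sum := by
      rw [hφ, if_pos hk]
      exact congrArg List.sum (List.map_congr_left fun Y _ => hψ X Y)
    rw [← e]
    have hle : Spn φ (lB a b) ≤ AddSubgroup.closure {F | ∃ t ∈ yt (lB a b),
        a + t.1 + (c - u.1) = k ∧ F = wf N a b c t u} := ?_
    · exact sup_le_sup_right hle (Jf N (dW a b c) (k + 1)) h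
    unfold Spn
    rw [AddSubgroup.closure_le]
    rintro m ⟨t, ht, rfl⟩
    have ht2 := (hD6 (lB a b) hBn t ht).2
    by_cases hc : a + t.1 + (c - u.1) = k
    · refine AddSubgroup.subset_closure ⟨t, ht, hc, ?_⟩
      unfold wf
      refine congrArg List.sum (List.map_congr_left fun Z hZ => ?_)
      rw [hφ, (ht2 Z hZ).1, if_pos hc]
      exact congrArg List.sum (List.map_congr_left fun Y _ => hψ Z Y)
    · have e0 : t.2.map φ = t.2.map fun _ => 0 := by
        refine List.map_congr_left fun Z hZ => ?_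
        rw [hφ, (ht2 Z hZ).1, if_neg hc]
      rw [e0]
      simp
  · -- alternating
    intro l1 l2 i _ j _ _
    have e1 : (l1 ++ j :: i :: l2).length = (l1 ++ i :: j :: l2).length := by simp
    rw [hφ, hφ, e1]
    split_ifs
    · have e2 : (u.2.map (ψ (l1 ++ i :: j :: l2))).sum +
          (u.2.map (ψ (l1 ++ j :: i :: l2))).sum = 0 := by
        refine Grb_add _ _ _ fun Y _ => ?_
        rw [hψ, hψ]
        have e3 : lA a ++ (l1 ++ i :: j :: l2) ++ (lC a b c).diff Y =
            (lA a ++ l1) ++ i :: j :: (l2 ++ (lC a b c).diff Y) := by simp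
        have e4 : lA a ++ (l1 ++ j :: i :: l2) ++ (lC a b c).diff Y =
            (lA a ++ l1) ++ j :: i :: (l2 ++ (lC a b c).diff Y) := by simp
        rw [e3, e4, hV3, smul_neg, neg_add_cancel]
      rw [e2]
      exact zero_mem _
    · rw [add_zero]
      exact zero_mem _
  · -- killed by 3
    intro l hl
    rw [hφ]
    split_ifs
    · have e2 : (3 : ℤ) • (u.2.map (ψ l)).sum = 0 := by
        refine Grb_smul _ _ _ fun Y _ => ?_
        rw [hψ, smul_comm, hV6 _ habc (hlt l hl Y), smul_zero]
      rw [e2]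
      exact zero_mem _
    · rw [smul_zero]
      exact zero_mem _
  · -- action
    intro i hi j hj _ l hl
    rw [hφ, hφ, List.length_map]
    split_ifs with hc
    · rw [map_list_sum, List.map_map]
      refine Grb_sub _ _ _ _ fun Y hY => ?_
      obtain ⟨hY1, hY2, hY3⟩ := hu2 Y hY
      rw [Function.comp_apply, hψ, hψ, map_zsmul, ← smul_sub, hsf i hi j hj]
      refine AddSubgroup.zsmul_mem _ ?_ _
      have e5 : (lA a ++ l ++ (lC a b c).diff Y).map (Equiv.swap i j) =
          lA a ++ l.map (Equiv.swap i j) ++ (lC a b c).diff Y := by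
        have hi' := (hBm i).1 hi
        have hj' := (hBm j).1 hj
        rw [List.map_append, List.map_append, Grb_map (lA a) i j, Grb_map ((lC a b c).diff Y) i j]
        · intro x hx
          have := (hCm x).1 ((List.diff_sublist _ _).subset hx)
          omega
        · intro x hx
          have := (hAm x).1 hx
          omega
      have h4 := hV4 (lA a ++ l ++ (lC a b c).diff Y) i j (hlt l hl Y) (Or.inl ⟨hi, hj⟩)
      rw [e5] at h4
      have e6 : (lA a ++ l ++ (lC a b c).diff Y).length = k := by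
        rw [List.length_append, List.length_append, Grb_len _ _ hY2 hY3, hClen, hAlen, hY1]
        exact hc
      rw [e6] at h4
      exact h4
    · rw [map_zero, sub_zero]
      exact zero_mem _

end Pool.Agent.CRS
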