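import Pool.Agent.CRS.StB

/-!
# Campaign CRS (MP_1bb14d_al): module Grd, the graded step
-/

set_option autoImplicit false

namespace Pool.Agent.CRS

open Pool.Agent.CRR Pool.Agent.CRN Pool.Agent.CRK Pool.Agent.CRL Pool.Agent.CRM Pool.Agent.CRP
open Pool.Agent.CRQ

private lemma Grd_sum {M : Type} [AddCommGroup M] (J : AddSubgroup M) (s : ℕ → ℕ → AddMonoid.End M)
    (hs : ∀ i j : ℕ, ∀ m ∈ J, s i j m ∈ J) (i : ℕ) (l : List ℕ) (m : M) (hm : m ∈ J) :
    ((l.map (s i)).sum : AddMonoid.End M) m ∈ J := by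
  induction l with
  | nil =>
    rw [List.map_nil, List.sum_nil]
    exact J.zero_mem
  | cons j l ih =>
    rw [List.map_cons, List.sum_cons]
    exact J.add_mem (hs i j m hm) ih

private lemma Grd_Xo {M : Type} [AddCommGroup M] (J : AddSubgroup M) (s : ℕ → ℕ → AddMonoid.End M)
    (hs : ∀ i j : ℕ, ∀ m ∈ J, s i j m ∈ J) (i : ℕ) (l : List ℕ) (m : M) (hm : m ∈ J) :
    Xo s i l m ∈ J := by
  unfold Xo
  split_ifs with h1 h2
  · exact hm
  · exact J.neg_mem (J.add_mem hm (Grd_sum J s hs i l m hm))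
  · have h3 : (-(1 + s i (l.headD 0)) : AddMonoid.End M) m ∈ J :=
      J.neg_mem (J.add_mem hm (hs i _ m hm))
    have h4 := Grd_sum J s hs i l _ h3
    have h5 : ((1 + s i (l.headD 0)) : AddMonoid.End M)
        (((l.map (s i)).sum : AddMonoid.End M) ((-(1 + s i (l.headD 0)) : AddMonoid.End M) m)) ∈ J :=
      J.add_mem h4 (hs i _ _ h4)
    exact J.add_mem h3 h5

/-- the symmetrisation preserves the subgroups which are preserved by the operators -/
private lemma Grd_To {M : Type} [AddCommGroup M] (J : AddSubgroup M) (s : ℕ → ℕ → AddMonoid.End M)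
    (hs : ∀ i j : ℕ, ∀ m ∈ J, s i j m ∈ J) (B : List ℕ) (m : M) (hm : m ∈ J) : To s B m ∈ J := by
  induction B with
  | nil => exact hm
  | cons i l ih => exact Grd_Xo J s hs i l _ ih

/-- the operators preserve the groups `Jf` -/
private lemma Grd_sf (hJpr : St_Jpr) (hDwp : St_Dwp) {U : Type} [Ring U] {N : NonUnitalSubring U}
    (hN : Nr N) (a b c k : ℕ) (ε : ℤ) (B : List ℕ)
    (hB : ∀ i j, i ∈ B → j ∈ B → (i ∈ lB a b ∧ j ∈ lB a b) ∨ (i ∈ lC a b c ∧ j ∈ lC a b c)) :
    ∀ i j : ℕ, ∀ m ∈ Jf N (dW a b c) k, sf ε B i j m ∈ Jf N (dW a b c) k := by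
  intro i j m hm
  by_cases h : i ∈ B ∧ j ∈ B
  · have h1 := (hJpr U N hN (dW a b c) k).2.2.2.1 i j ((hDwp a b c).2.1 i j (hB i j h.1 h.2)) m hm
    have e : sf ε B i j m = ε • (fun x : ℕ → N => m (fun t => x (Equiv.swap i j t))) := by
      show (if i ∈ B ∧ j ∈ B then (fun x : ℕ → N => ε • m (fun k => x (Equiv.swap i j k))) else 0 :
        (ℕ → N) → U) = _
      rw [if_pos h]
      rfl
    rw [e]
    exact (Jf N (dW a b c) k).zsmul_mem h1 ε
  · have e : sf ε B i j m = 0 := by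
      show (if i ∈ B ∧ j ∈ B then (fun x : ℕ → N => ε • m (fun k => x (Equiv.swap i j k))) else 0 :
        (ℕ → N) → U) = _
      rw [if_neg h]
    rw [e]
    exact (Jf N (dW a b c) k).zero_mem

theorem thm_Grd (hGrb : St_Grb) (hGrc : St_Grc) (hVfp : St_Vfp) (hJpr : St_Jpr) (hDwp : St_Dwp) :
    St_Grd := by
  intro U _ N hN a b c k hg F hF
  obtain ⟨⟨dA, dB, dC, mA, mB, mC, mW, lW, cW⟩, -, -, -, D5, -⟩ := hDwp a b c
  obtain ⟨V1, V2, -, -, V5, -⟩ := hVfp U N hN a b c
  obtain ⟨-, -, -, -, -, J6, J7⟩ := hJpr U N hN (dW a b c) k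
  -- the two operators preserve `J`
  have hJB : ∀ m ∈ Jf N (dW a b c) (k + 1), To (sf 1 (lB a b)) (lB a b) m ∈ Jf N (dW a b c) (k + 1) :=
    Grd_To _ _ (Grd_sf hJpr hDwp hN a b c (k + 1) 1 (lB a b) fun i j h1 h2 => Or.inl ⟨h1, h2⟩) _
  have hJC : ∀ m ∈ Jf N (dW a b c) (k + 1),
      To (sf (-1) (lC a b c)) (lC a b c) m ∈ Jf N (dW a b c) (k + 1) :=
    Grd_To _ _ (Grd_sf hJpr hDwp hN a b c (k + 1) (-1) (lC a b c) fun i j h1 h2 =>
      Or.inr ⟨h1, h2⟩) _
  obtain ⟨𝒮, h𝒮⟩ : ∃ 𝒮 : AddSubgroup ((ℕ → N) → U), 𝒮 = AddSubgroup.closure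
    {F | ∃ t ∈ yt (lB a b), ∃ u ∈ yt (lC a b c), a + t.1 + (c - u.1) = k ∧ F = wf N a b c t u} ⊔
      Jf N (dW a b c) (k + 1) := ⟨_, rfl⟩
  rw [← h𝒮]
  have hJS : Jf N (dW a b c) (k + 1) ≤ 𝒮 := by
    rw [h𝒮]
    exact le_sup_right
  have hPJ : ∀ m ∈ Jf N (dW a b c) (k + 1), Pf N U a b c m ∈ 𝒮 := fun m hm => hJS (hJB _ (hJC _ hm))
  -- the case of the functions `vf`
  have hvf : ∀ X Z : List ℕ, (∀ i ∈ X, i ∈ lB a b) → (∀ i ∈ Z, i ∈ lC a b c) →
      a + X.length + Z.length = k → Pf N U a b c (vf N (dW a b c) (lA a ++ X ++ Z)) ∈ 𝒮 := by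
    intro X Z hX hZ hk
    have h1 := hGrc U N hN a b c k X Z hg hX hZ hk
    show To (sf 1 (lB a b)) (lB a b) (To (sf (-1) (lC a b c)) (lC a b c)
      (vf N (dW a b c) (lA a ++ X ++ Z))) ∈ 𝒮
    obtain ⟨G1, hG1, G2, hG2, hG⟩ := AddSubgroup.mem_sup.1 h1
    rw [← hG, map_add]
    refine 𝒮.add_mem ?_ (hJS (hJB _ hG2))
    refine AddSubgroup.closure_induction (p := fun G _ => To (sf 1 (lB a b)) (lB a b) G ∈ 𝒮)
      ?_ ?_ ?_ ?_ hG1
    · rintro G ⟨u, hu, hk2, rfl⟩
      have h2 := hGrb U N hN a b c k X hg hX u hu hk2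
      rw [h𝒮]
      refine sup_le_sup_right (AddSubgroup.closure_mono ?_) _ h2
      rintro G ⟨t, ht, hk3, rfl⟩
      exact ⟨t, ht, u, hu, hk3, rfl⟩
    · rw [map_zero]
      exact 𝒮.zero_mem
    · intro x y _ _ hx hy
      rw [map_add]
      exact 𝒮.add_mem hx hy
    · intro x _ hx
      rw [map_neg]
      exact 𝒮.neg_mem hx
  -- the generators
  refine AddSubgroup.closure_induction (p := fun G _ => Pf N U a b c G ∈ 𝒮) ?_ ?_ ?_ ?_ hF
  · rintro G ⟨l, S, hp, hk, rfl⟩
    rcases Nat.lt_or_ge k S.length with hlt | hge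
    · exact hPJ _ (AddSubgroup.subset_closure ⟨l, S, hp, hlt, rfl⟩)
    · have hkS : S.length = k := le_antisymm hge hk
      by_cases hS : S.Nodup
      · have h1 := V1 l S hp hS
        rw [hkS] at h1
        have e : (mo l * br S : (ℕ → N) → U) =
            (mo l * br S - vf N (dW a b c) S) + vf N (dW a b c) S := (sub_add_cancel _ _).symm
        rw [e, map_add]
        refine 𝒮.add_mem (hPJ _ h1) ?_
        have hlt : ∀ i ∈ S, i < a + b + c := fun i hi =>
          (mW i).1 (hp.subset (List.mem_append.2 (Or.inr hi)))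
        by_cases hA : ∀ i, i < a → i ∈ S
        · obtain ⟨X, Z, hX1, hZ1, hX, hZ, hSp⟩ := D5 S hS hlt hA
          have hlen : a + X.length + Z.length = k := by
            have h2 := hSp.length_eq
            rw [List.length_append, List.length_append, hkS] at h2
            have h3 : (lA a).length = a := by
              unfold lA
              simp
            omega
          have hd : (dW a b c).diff S = (dW a b c).diff (lA a ++ X ++ Z) :=
            List.Perm.diff_left _ hSp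
          rcases J6 S (lA a ++ X ++ Z) hSp with h3 | h3
          · have e2 : vf N (dW a b c) S = vf N (dW a b c) (lA a ++ X ++ Z) := by
              unfold vf
              rw [hd, h3]
            rw [e2]
            exact hvf X Z hX hZ hlen
          · have e2 : vf N (dW a b c) S = -vf N (dW a b c) (lA a ++ X ++ Z) := by
              unfold vf
              rw [hd, h3, mul_neg]
            rw [e2, map_neg]
            exact 𝒮.neg_mem (hvf X Z hX hZ hlen)
        · push Not at hA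
          have h2 := V5 S hS hlt hA
          rw [hkS] at h2
          exact hPJ _ h2
      · have h1 : (mo l * br S : (ℕ → N) → U) = 0 := by
          rw [J7 S hS, mul_zero]
        rw [h1, map_zero]
        exact 𝒮.zero_mem
  · rw [map_zero]
    exact 𝒮.zero_mem
  · intro x y _ _ hx hy
    rw [map_add]
    exact 𝒮.add_mem hx hy
  · intro x _ hx
    rw [map_neg]
    exact 𝒮.neg_mem hx

end Pool.Agent.CRS
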