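import Pool.Agent.CRS.StB

/-!
# CRS.Jpr : small facts on the filtration (helper42)
-/

set_option autoImplicit false

namespace Pool.Agent.CRS

open Pool.Agent.CRR Pool.Agent.CRN Pool.Agent.CRK Pool.Agent.CRL Pool.Agent.CRM Pool.Agent.CRP
open Pool.Agent.CRQ

section jpr

variable {U : Type} [Ring U] {N : NonUnitalSubring U}

private theorem jpr_br_nil : (br [] : (ℕ → N) → U) = 1 := by
  funext x
  simp [br, brv]

private theorem jpr_mo_nil : (mo [] : (ℕ → N) → U) = 1 := by
  funext x
  simp [mo]

private theorem jpr_mem_map (S : List ℕ) (x : ℕ → N) : ∀ y ∈ S.map (fun i => (x i : U)), y ∈ N := by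
  intro y hy
  rw [List.mem_map] at hy
  obtain ⟨i, -, rfl⟩ := hy
  exact (x i).2

private theorem jpr_prod_mem : ∀ l : List U, (∀ y ∈ l, y ∈ N) → l ≠ [] → l.prod ∈ N := by
  intro l
  induction l with
  | nil => intro _ h; exact absurd rfl h
  | cons a l ih =>
    intro h _
    rw [List.prod_cons]
    have ha : a ∈ N := h a (by simp)
    by_cases hl : l = []
    · subst hl
      simpa using ha
    · exact N.mul_mem ha (ih (fun y hy => h y (List.mem_cons_of_mem _ hy)) hl)

private theorem jpr_mo_mem (l : List ℕ) (hl : l ≠ []) (x : ℕ → N) : mo l x ∈ N := by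
  unfold mo
  apply jpr_prod_mem _ (jpr_mem_map l x)
  intro h
  exact hl (List.map_eq_nil_iff.mp h)

private theorem jpr_nodup (hB : St_Bra) (hN : Nr N) (S : List ℕ) (h : ¬ S.Nodup) :
    (br S : (ℕ → N) → U) = 0 := by
  obtain ⟨-, h2, -, -, -⟩ := hB U N hN
  rw [← List.exists_duplicate_iff_not_nodup] at h
  obtain ⟨i, hi⟩ := h
  rw [List.duplicate_iff_sublist, List.cons_sublist_iff] at hi
  obtain ⟨r1, r2, hS, hi1, hi2⟩ := hi
  rw [List.singleton_sublist] at hi2
  obtain ⟨s, t, rfl⟩ := List.append_of_mem hi1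
  obtain ⟨u, v, rfl⟩ := List.append_of_mem hi2
  subst hS
  funext x
  have := h2 (s.map fun i => (x i : U)) ((t ++ u).map fun i => (x i : U)) (v.map fun i => (x i : U)) (x i)
    (by
      have h3 := jpr_mem_map (s ++ i :: (t ++ u) ++ i :: v) x
      simpa using h3)
  unfold br
  simpa using this

private theorem jpr_swap (hB : St_Bra) (hN : Nr N) (S0 l : List ℕ) (a b : ℕ) :
    (br (S0 ++ a :: b :: l) : (ℕ → N) → U) = -br (S0 ++ b :: a :: l) := by
  obtain ⟨h1, -, -, -, -⟩ := hB U N hN
  funext x
  have := h1 (S0.map fun i => (x i : U)) (l.map fun i => (x i : U)) (x a) (x b)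
    (by
      have h3 := jpr_mem_map (S0 ++ a :: b :: l) x
      simpa using h3)
  rw [Pi.neg_apply]
  unfold br
  simpa using this

private theorem jpr_perm (hB : St_Bra) (hN : Nr N) (S S' : List ℕ) (h : S.Perm S') :
    ∀ S0 : List ℕ, (br (S0 ++ S) : (ℕ → N) → U) = br (S0 ++ S') ∨
      (br (S0 ++ S) : (ℕ → N) → U) = -br (S0 ++ S') := by
  induction h with
  | nil => intro S0; left; rfl
  | cons a _ ih =>
    intro S0
    have := ih (S0 ++ [a])
    simpa using this
  | swap a b l =>
    intro S0
    right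
    exact jpr_swap hB hN S0 l b a
  | trans _ _ ih1 ih2 =>
    intro S0
    rcases ih1 S0 with h1 | h1 <;> rcases ih2 S0 with h2 | h2
    · left; rw [h1, h2]
    · right; rw [h1, h2]
    · right; rw [h1, h2]
    · left; rw [h1, h2, neg_neg]

private theorem jpr_gen_mem (hB : St_Bra) (hN : Nr N) (l S : List ℕ) (h : l ++ S ≠ []) (x : ℕ → N) :
    (mo l * br S : (ℕ → N) → U) x ∈ N := by
  obtain ⟨-, -, -, -, h5⟩ := hB U N hN
  rw [Pi.mul_apply]
  by_cases hS : S = []
  · subst hS
    have hl : l ≠ [] := by simpa using h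
    rw [jpr_br_nil, Pi.one_apply, mul_one]
    exact jpr_mo_mem l hl x
  · have hb : br S x ∈ N := by
      unfold br
      apply h5 _ (jpr_mem_map S x)
      intro h
      exact hS (List.map_eq_nil_iff.mp h)
    by_cases hl : l = []
    · subst hl
      rw [jpr_mo_nil, Pi.one_apply, one_mul]
      exact hb
    · exact N.mul_mem (jpr_mo_mem l hl x) hb

private theorem jpr_mo_swap (l : List ℕ) (i j : ℕ) (x : ℕ → N) :
    mo l (fun t => x (Equiv.swap i j t)) = mo (l.map (Equiv.swap i j)) x := by
  unfold mo
  rw [List.map_map]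
  rfl

private theorem jpr_br_swap (l : List ℕ) (i j : ℕ) (x : ℕ → N) :
    br l (fun t => x (Equiv.swap i j t)) = br (l.map (Equiv.swap i j)) x := by
  unfold br
  rw [List.map_map]
  rfl

end jpr

theorem thm_Jpr : St_Bra → St_Jpr := by
  intro hB U _ N hN d k
  refine ⟨?_, ?_, ?_, ?_, ?_, ?_, ?_⟩
  · unfold Jf
    apply AddSubgroup.closure_mono
    rintro F ⟨l, S, h1, h2, h3⟩
    exact ⟨l, S, h1, by omega, h3⟩
  · intro w hw
    unfold Jf
    apply AddSubgroup.subset_closure
    refine ⟨w, [], ?_, Nat.zero_le _, ?_⟩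
    · simpa using hw
    · rw [jpr_br_nil, mul_one]
  · intro hd F hF
    unfold Jf at hF
    induction hF using AddSubgroup.closure_induction with
    | mem F hF =>
      obtain ⟨l, S, h1, -, rfl⟩ := hF
      funext x
      have hne : l ++ S ≠ [] := by
        intro h
        rw [h] at h1
        exact hd (List.nil_perm.mp h1)
      rw [Pi.smul_apply, Pi.zero_apply]
      exact hN.tor _ (jpr_gen_mem hB hN l S hne x)
    | zero => rw [smul_zero]
    | add F G _ _ h1 h2 => rw [smul_add, h1, h2, add_zero]
    | neg F _ h1 => rw [smul_neg, h1, neg_zero]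
  · intro i j hij F hF
    unfold Jf at hF ⊢
    induction hF using AddSubgroup.closure_induction with
    | mem F hF =>
      obtain ⟨l, S, h1, h2, rfl⟩ := hF
      apply AddSubgroup.subset_closure
      refine ⟨l.map (Equiv.swap i j), S.map (Equiv.swap i j), ?_, ?_, ?_⟩
      · rw [← List.map_append]
        exact (h1.map _).trans hij
      · rw [List.length_map]
        exact h2
      · funext x
        rw [Pi.mul_apply, Pi.mul_apply, jpr_mo_swap, jpr_br_swap]
    | zero => exact AddSubgroup.zero_mem _
    | add F G _ _ h1 h2 => exact AddSubgroup.add_mem _ h1 h2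
    | neg F _ h1 => exact AddSubgroup.neg_mem _ h1
  · intro hk
    rw [eq_bot_iff]
    unfold Jf
    rw [AddSubgroup.closure_le]
    rintro F ⟨l, S, h1, h2, rfl⟩
    have hS : ¬ S.Nodup := by
      intro hnd
      have h3 : S.toFinset.card = S.length := List.toFinset_card_of_nodup hnd
      have h4 : S.toFinset ⊆ d.toFinset := by
        intro a ha
        rw [List.mem_toFinset] at ha ⊢
        exact h1.subset (List.mem_append_right l ha)
      have h5 := Finset.card_le_card h4
      omega
    rw [jpr_nodup hB hN S hS, mul_zero]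
    exact AddSubgroup.zero_mem _
  · intro S S' h
    have := jpr_perm hB hN S S' h []
    simpa using this
  · intro S h
    exact jpr_nodup hB hN S h

end Pool.Agent.CRS
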