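import Pool.Agent.CRS.StY

/-!
Campaign CRS, p = 3: the module Nd3 (words, the simpler list) (helper65).
-/

set_option autoImplicit false

namespace Pool.Agent.CRS

open Pool.Agent.CRR Pool.Agent.CRN Pool.Agent.CRK Pool.Agent.CRL Pool.Agent.CRM Pool.Agent.CRP
open Pool.Agent.CRQ

private theorem Nd3_sf {U : Type} [Ring U] {N : NonUnitalSubring U} (ε : ℤ) (B : List ℕ) (i : ℕ) (hi : i ∈ B)
    (j : ℕ) (hj : j ∈ B) (w : List ℕ) :
    sf ε B i j (mo w : (ℕ → N) → U) = ε • (mo (w.map (Equiv.swap i j)) : (ℕ → N) → U) := by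
  funext x
  have h : (sf ε B i j (mo w : (ℕ → N) → U)) =
      fun x : ℕ → N => ε • (mo w : (ℕ → N) → U) (fun k => x (Equiv.swap i j k)) := by
    show (if i ∈ B ∧ j ∈ B then _ else _) = _
    rw [if_pos ⟨hi, hj⟩]
  rw [h]
  simp only [Pi.smul_apply, mo, List.map_map, Function.comp_def]

private theorem Nd3_TB (hE : St_Evt) {U : Type} [Ring U] (N : NonUnitalSubring U) (a b : ℕ)
    (L : List (ℤ × List ℕ)) :
    Ewd (mo : List ℕ → (ℕ → N) → U) (Tw 1 (lB a b) L) =
      To (sf 1 (lB a b)) (lB a b) (Ewd (mo : List ℕ → (ℕ → N) → U) L) :=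
  (hE ((ℕ → N) → U) (sf 1 (lB a b)) 1 (lB a b) mo
    (fun i hi j hj w => Nd3_sf 1 (lB a b) i hi j hj w)).1 L

private theorem Nd3_Pw (hE : St_Evt) {U : Type} [Ring U] (N : NonUnitalSubring U) (a b c : ℕ)
    (L : List (ℤ × List ℕ)) :
    Ewd (mo : List ℕ → (ℕ → N) → U) (Pw a b c L) = Pf N U a b c (Ewd (mo : List ℕ → (ℕ → N) → U) L) := by
  have h2 := (hE ((ℕ → N) → U) (sf (-1) (lC a b c)) (-1) (lC a b c) mo
    (fun i hi j hj w => Nd3_sf (-1) (lC a b c) i hi j hj w)).1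
  show Ewd (mo : List ℕ → (ℕ → N) → U) (Tw 1 (lB a b) (Tw (-1) (lC a b c) L)) = _
  rw [Nd3_TB hE, h2]
  rfl

private theorem Nd3_it (hE : St_Evt) {U : Type} [Ring U] (N : NonUnitalSubring U) (a b c : ℕ) (n : ℕ)
    (L : List (ℤ × List ℕ)) :
    Ewd (mo : List ℕ → (ℕ → N) → U) ((Pw a b c)^[n] L) =
      ((Pf N U a b c) ^ n) (Ewd (mo : List ℕ → (ℕ → N) → U) L) := by
  induction n with
  | zero => simp
  | succ n ih =>
    rw [Function.iterate_succ_apply', Nd3_Pw hE, ih, pow_succ']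
    rfl

private theorem Nd3_C {U : Type} [Ring U] (N : NonUnitalSubring U) (a b c : ℕ) (hc : c ≤ 1)
    (F : (ℕ → N) → U) : Pf N U a b c F = To (sf 1 (lB a b)) (lB a b) F := by
  have h : To (sf (-1) (lC a b c)) (lC a b c) = (1 : AddMonoid.End ((ℕ → N) → U)) := by
    interval_cases c
    · rfl
    · simp [lC, To, Xo]
  unfold Pf
  rw [h, mul_one]

/-- Nd3. -/
theorem thm_Nd3 (hN : St_Npt) (hC : St_Cfy) (hP : St_Pgo) (hE : St_Evt) (hW : St_Evw) : St_Nd3 := by
  intro a b c hbc habc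
  by_cases hb : b ≤ 1
  · refine ⟨a + b + c + 1, ?_⟩
    intro U _ N hNr w hw
    have h1 : Ewd (mo : List ℕ → (ℕ → N) → U) [(1, w)] = mo w := by
      simp [Ewd]
    rw [Nd3_it hE, h1]
    refine AddSubgroup.closure_mono ?_ (hN U N hNr a b c habc w hw)
    rintro F ⟨t, ht, u, hu, rfl⟩
    refine ⟨wW a b c t u, ?_, ?_⟩
    · unfold TD3
      rw [List.mem_flatMap]
      exact ⟨t, ht, List.mem_map.2 ⟨u, hu, if_pos (Or.inl hb)⟩⟩
    · rw [(hW U N).2]
      have h2 : ∀ n : ℕ, ((Pf N U a b c) ^ n) (wf N a b c t u) = wf N a b c t u := by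
        intro n
        induction n with
        | zero => simp
        | succ n ih =>
          rw [pow_succ]
          show ((Pf N U a b c) ^ n) (Pf N U a b c (wf N a b c t u)) = _
          rw [hC U N hNr a b c hb habc t ht u hu, ih]
      exact h2 _
  · have hc : c ≤ 1 := hbc.resolve_left hb
    refine ⟨2, ?_⟩
    intro U _ N hNr w hw
    have h1 : Ewd (mo : List ℕ → (ℕ → N) → U) [(1, w)] = mo w := by
      simp [Ewd]
    rw [Nd3_it hE, h1, pow_two]
    show Pf N U a b c (Pf N U a b c (mo w)) ∈ _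
    obtain ⟨p1, p2⟩ := hP U N hNr a b c hc habc
    obtain ⟨F0, hF0, F1, hF1, he⟩ := AddSubgroup.mem_sup.1 (p2 w hw)
    rw [← he, map_add]
    refine AddSubgroup.add_mem _ ?_ ?_
    · refine AddSubgroup.closure_induction (p := fun F _ => Pf N U a b c F ∈
        AddSubgroup.closure {F | ∃ B ∈ TD3 a b c, F = Ewd (mo : List ℕ → (ℕ → N) → U) B})
        ?_ ?_ ?_ ?_ hF0
      · rintro F ⟨t, ht, u, hu, hl, rfl⟩
        refine AddSubgroup.subset_closure ⟨Tw 1 (lB a b) (wW a b c t u), ?_, ?_⟩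
        · unfold TD3
          rw [List.mem_flatMap]
          refine ⟨t, ht, List.mem_map.2 ⟨u, hu, if_neg ?_⟩⟩
          rintro (h | h)
          · exact hb h
          · omega
        · rw [Nd3_TB hE, (hW U N).2, Nd3_C N a b c hc]
      · rw [map_zero]
        exact AddSubgroup.zero_mem _
      · intro x y _ _ hx hy
        rw [map_add]
        exact AddSubgroup.add_mem _ hx hy
      · intro x _ hx
        rw [map_neg]
        exact AddSubgroup.neg_mem _ hx
    · refine AddSubgroup.closure_mono ?_ (p1 F1 hF1)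
      rintro F ⟨t, ht, u, hu, hl, rfl⟩
      refine ⟨wW a b c t u, ?_, ((hW U N).2 a b c t u).symm⟩
      unfold TD3
      rw [List.mem_flatMap]
      exact ⟨t, ht, List.mem_map.2 ⟨u, hu, if_pos (Or.inr hl)⟩⟩

end Pool.Agent.CRS
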