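import Pool.Agent.CRS.StB

/-!
Campaign CRS (MP_1bb14d_al), module Npt: downward induction on the filtration.
-/

set_option autoImplicit false

namespace Pool.Agent.CRS

open Pool.Agent.CRR Pool.Agent.CRN Pool.Agent.CRK Pool.Agent.CRL Pool.Agent.CRM Pool.Agent.CRP
open Pool.Agent.CRQ

theorem thm_Npt (hGrd : St_Grd) (hJpr : St_Jpr) (hDwp : St_Dwp) : St_Npt := by
  intro U _ N hN a b c habc w hw
  have hD1 := (hDwp a b c).1
  have hD6 := (hDwp a b c).2.2.2.2.2
  have hBn : (lB a b).Nodup := hD1.2.1
  have hCn : (lC a b c).Nodup := hD1.2.2.1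
  have hcard : (dW a b c).toFinset.card = a + b + c := hD1.2.2.2.2.2.2.2.2
  have hBl : (lB a b).length = b := by simp [lB]
  have hCl : (lC a b c).length = c := by simp [lC]
  have key : ∀ m k : ℕ, m + k = a + b + c + 1 → ∀ F ∈ Jf N (dW a b c) k,
      ((Pf N U a b c) ^ m) F ∈
        AddSubgroup.closure {F | ∃ t ∈ yt (lB a b), ∃ u ∈ yt (lC a b c),
          F = ((Pf N U a b c) ^ (b - t.1 + u.1)) (wf N a b c t u)} := by
    intro m
    induction m with
    | zero =>
      intro k hk F hF
      have h1 : Jf N (dW a b c) k = ⊥ := (hJpr U N hN (dW a b c) k).2.2.2.2.1 (by omega)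
      rw [h1, AddSubgroup.mem_bot] at hF
      rw [hF, map_zero]
      exact AddSubgroup.zero_mem _
    | succ m ih =>
      intro k hk F hF
      have h1 := hGrd U N hN a b c k habc F hF
      obtain ⟨F1, hF1, F2, hF2, h12⟩ := AddSubgroup.mem_sup.1 h1
      have h3 : ((Pf N U a b c) ^ (m + 1)) F = ((Pf N U a b c) ^ m) F1 + ((Pf N U a b c) ^ m) F2 := by
        rw [pow_succ, ← map_add, h12]
        rfl
      rw [h3]
      refine AddSubgroup.add_mem _ ?_ (ih (k + 1) (by omega) F2 hF2)
      clear h12 h3
      induction hF1 using AddSubgroup.closure_induction with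
      | mem x hx =>
        obtain ⟨t, ht, u, hu, hk2, rfl⟩ := hx
        refine AddSubgroup.subset_closure ⟨t, ht, u, hu, ?_⟩
        have e1 := (hD6 _ hBn t ht).1
        have e2 := (hD6 _ hCn u hu).1
        rw [hBl] at e1
        rw [hCl] at e2
        have e3 : m = b - t.1 + u.1 := by omega
        rw [e3]
      | zero =>
        rw [map_zero]
        exact AddSubgroup.zero_mem _
      | add x y _ _ hx hy =>
        rw [map_add]
        exact AddSubgroup.add_mem _ hx hy
      | neg x _ hx =>
        rw [map_neg]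
        exact AddSubgroup.neg_mem _ hx
  exact key (a + b + c + 1) 0 (by omega) (mo w) ((hJpr U N hN (dW a b c) 0).2.1 w hw)

end Pool.Agent.CRS
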