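import Pool.Agent.CRS.StY

/-!
# Campaign CRS, part Pal: the standard functions are exchanged exactly
-/

set_option autoImplicit false

namespace Pool.Agent.CRS

section

variable {U : Type} [Ring U] {N : NonUnitalSubring U}

private theorem pal_sw (d S : List ℕ) (i j : ℕ) :
    (fun x : ℕ → N => vf N d S (fun t => x (Equiv.swap i j t))) =
      mo ((d.diff S).map (Equiv.swap i j)) * br (S.map (Equiv.swap i j)) := by
  funext x
  show ((d.diff S).map fun k => (x (Equiv.swap i j k) : U)).prod *
    brv (S.map fun k => (x (Equiv.swap i j k) : U)) =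
    (((d.diff S).map (Equiv.swap i j)).map fun k => (x k : U)).prod *
      brv ((S.map (Equiv.swap i j)).map fun k => (x k : U))
  rw [List.map_map, List.map_map]
  rfl

/-- The list of letters in front of the bracket. -/
private def Pal_la (a b c : ℕ) (S W : List ℕ) : List ℕ :=
  lA a ++ (lA a ++ (W.filter (· ∉ S) ++ ((lC a b c).filter (· ∉ S) ++ W.reverse)))

private theorem pal_la_perm {a b c : ℕ} {S W W' : List ℕ} (h : W.Perm W') :
    (Pal_la a b c S W).Perm (Pal_la a b c S W') := by
  unfold Pal_la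
  refine List.Perm.append_left _ (List.Perm.append_left _ (List.Perm.append (h.filter _)
    (List.Perm.append_left _ ?_)))
  exact ((List.reverse_perm W).trans h).trans (List.reverse_perm W').symm

variable (N) in
/-- Equality if `|S|` is odd, congruence otherwise. -/
private def Pal_R (d S : List ℕ) (F G : (ℕ → N) → U) : Prop :=
  (S.length % 2 = 1 → F = G) ∧ (S.length % 2 = 0 → F - G ∈ Jo N d)

private theorem pal_R_refl (d S : List ℕ) (F : (ℕ → N) → U) : Pal_R N d S F F := by
  refine ⟨fun _ => rfl, fun _ => ?_⟩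
  rw [sub_self]
  exact (Jo N d).zero_mem

private theorem pal_R_symm {d S : List ℕ} {F G : (ℕ → N) → U} (h : Pal_R N d S F G) :
    Pal_R N d S G F := by
  refine ⟨fun h1 => (h.1 h1).symm, fun h1 => ?_⟩
  rw [← neg_sub]
  exact (Jo N d).neg_mem (h.2 h1)

private theorem pal_R_trans {d S : List ℕ} {F G H : (ℕ → N) → U} (h : Pal_R N d S F G)
    (h' : Pal_R N d S G H) : Pal_R N d S F H := by
  refine ⟨fun h1 => (h.1 h1).trans (h'.1 h1), fun h1 => ?_⟩
  rw [← sub_add_sub_cancel F G H]
  exact (Jo N d).add_mem (h.2 h1) (h'.2 h1)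

private theorem pal_swap (hPle : St_Ple) (hN : Nr N) (a b c : ℕ) (S w0 w1 : List ℕ) (x y : ℕ)
    (hp : (Pal_la a b c S (w0 ++ x :: y :: w1) ++ S).Perm (dW a b c)) :
    Pal_R N (dW a b c) S (mo (Pal_la a b c S (w0 ++ x :: y :: w1)) * br S)
      (mo (Pal_la a b c S (w0 ++ y :: x :: w1)) * br S) := by
  have r1 : (w0 ++ x :: y :: w1).reverse = w1.reverse ++ y :: x :: w0.reverse := by simp
  have r2 : (w0 ++ y :: x :: w1).reverse = w1.reverse ++ x :: y :: w0.reverse := by simp
  by_cases h : x ∈ S ∨ y ∈ S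
  · -- the filter part does not change
    have f1 : (w0 ++ x :: y :: w1).filter (· ∉ S) = (w0 ++ y :: x :: w1).filter (· ∉ S) := by
      rw [List.filter_append, List.filter_append]
      congr 1
      rcases h with h | h <;> by_cases h2 : x ∈ S <;> by_cases h3 : y ∈ S <;>
        simp_all
    have e1 : Pal_la a b c S (w0 ++ x :: y :: w1) =
        (lA a ++ (lA a ++ ((w0 ++ y :: x :: w1).filter (· ∉ S) ++
          ((lC a b c).filter (· ∉ S) ++ w1.reverse)))) ++ y :: x :: w0.reverse := by
      unfold Pal_la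
      rw [f1, r1]
      simp only [List.append_assoc]
    have e2 : Pal_la a b c S (w0 ++ y :: x :: w1) =
        (lA a ++ (lA a ++ ((w0 ++ y :: x :: w1).filter (· ∉ S) ++
          ((lC a b c).filter (· ∉ S) ++ w1.reverse)))) ++ x :: y :: w0.reverse := by
      unfold Pal_la
      rw [r2]
      simp only [List.append_assoc]
    have h3 := (hPle U N hN [] (lA a ++ (lA a ++ ((w0 ++ y :: x :: w1).filter (· ∉ S) ++
          ((lC a b c).filter (· ∉ S) ++ w1.reverse)))) [] w0.reverse S y x).1 h.symm
    rw [e1, e2, h3]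
    exact pal_R_refl _ _ _
  · push Not at h
    obtain ⟨hx, hy⟩ := h
    have f1 : (w0 ++ x :: y :: w1).filter (· ∉ S) =
        w0.filter (· ∉ S) ++ x :: y :: w1.filter (· ∉ S) := by
      simp [hx, hy]
    have f2 : (w0 ++ y :: x :: w1).filter (· ∉ S) =
        w0.filter (· ∉ S) ++ y :: x :: w1.filter (· ∉ S) := by
      simp [hx, hy]
    have e1 : Pal_la a b c S (w0 ++ x :: y :: w1) =
        (lA a ++ (lA a ++ w0.filter (· ∉ S))) ++ x :: y ::
          ((w1.filter (· ∉ S) ++ ((lC a b c).filter (· ∉ S) ++ w1.reverse)) ++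
            y :: x :: w0.reverse) := by
      unfold Pal_la
      rw [f1, r1]
      simp only [List.append_assoc, List.cons_append]
    have e2 : Pal_la a b c S (w0 ++ y :: x :: w1) =
        (lA a ++ (lA a ++ w0.filter (· ∉ S))) ++ y :: x ::
          ((w1.filter (· ∉ S) ++ ((lC a b c).filter (· ∉ S) ++ w1.reverse)) ++
            x :: y :: w0.reverse) := by
      unfold Pal_la
      rw [f2, r2]
      simp only [List.append_assoc, List.cons_append]
    have h3 := (hPle U N hN (dW a b c) (lA a ++ (lA a ++ w0.filter (· ∉ S)))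
      (w1.filter (· ∉ S) ++ ((lC a b c).filter (· ∉ S) ++ w1.reverse)) w0.reverse S x y).2.1
      (by rw [← e1]; exact hp)
    rw [e1, e2]
    exact h3

private theorem pal_perm (hPle : St_Ple) (hN : Nr N) (a b c : ℕ) (S : List ℕ) {W W' : List ℕ}
    (hW : W.Perm W') : ∀ w0 : List ℕ,
    (Pal_la a b c S (w0 ++ W) ++ S).Perm (dW a b c) →
    Pal_R N (dW a b c) S (mo (Pal_la a b c S (w0 ++ W)) * br S)
      (mo (Pal_la a b c S (w0 ++ W')) * br S) := by
  induction hW with
  | nil => exact fun w0 _ => pal_R_refl _ _ _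
  | cons x _ ih =>
    intro w0 hp
    have h := ih (w0 ++ [x])
    rw [List.append_assoc, List.append_assoc] at h
    exact h hp
  | swap x y l => exact fun w0 hp => pal_swap hPle hN a b c S w0 l y x hp
  | trans h1 _ ih1 ih2 =>
    intro w0 hp
    refine pal_R_trans (ih1 w0 hp) (ih2 w0 ?_)
    exact (List.Perm.append_right S
      (pal_la_perm (List.Perm.append_left w0 h1.symm))).trans hp

end

private theorem pal_filter (π : Equiv.Perm ℕ) (l S : List ℕ) :
    (l.filter (· ∉ S)).map π = (l.map π).filter (· ∉ S.map π) := by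
  rw [List.filter_map]
  congr 1
  refine List.filter_congr fun x _ => ?_
  show decide (x ∉ S) = decide (π x ∉ S.map π)
  rw [decide_eq_decide, List.mem_map]
  refine not_congr ⟨fun h => ⟨x, h, rfl⟩, ?_⟩
  rintro ⟨y, hy, h⟩
  rwa [← π.injective h]

private theorem pal_map_id (π : Equiv.Perm ℕ) (l : List ℕ) (h : ∀ x ∈ l, π x = x) :
    l.map π = l := by
  rw [List.map_congr_left h, List.map_id']

theorem thm_Pal : St_Ple → St_Dwl → St_Dwp → St_Vfp → St_Pal := by
  intro hPle hDwl hDwp hVfp U _ N hN a b c S i j hS hSa hi hj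
  obtain ⟨⟨-, nB, -, mA, mB, mC, -, -, -⟩, -, D3, -, -, -⟩ := hDwp a b c
  by_cases hnd : S.Nodup
  swap
  · have h1 : vf N (dW a b c) S = 0 := (hVfp U N hN a b c).2.1 S hnd
    have h2 : vf N (dW a b c) (S.map (Equiv.swap i j)) = 0 :=
      (hVfp U N hN a b c).2.1 _ fun h => hnd ((List.nodup_map_iff (Equiv.injective _)).1 h)
    rw [h1, h2]
    exact pal_R_refl _ S 0
  have hi' := (mB i).1 hi
  have hj' := (mB j).1 hj
  -- the permutation
  have pB : ∀ x, Equiv.swap i j x ∈ lB a b ↔ x ∈ lB a b := by
    intro x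
    by_cases h1 : x = i
    · subst h1
      rw [Equiv.swap_apply_left]
      exact ⟨fun _ => hi, fun _ => hj⟩
    by_cases h2 : x = j
    · subst h2
      rw [Equiv.swap_apply_right]
      exact ⟨fun _ => hj, fun _ => hi⟩
    rw [Equiv.swap_apply_of_ne_of_ne h1 h2]
  have pF : ∀ x, x ∉ lB a b → Equiv.swap i j x = x := by
    intro x hx
    refine Equiv.swap_apply_of_ne_of_ne ?_ ?_
    · rintro rfl
      exact hx hi
    · rintro rfl
      exact hx hj
  have hS'nd : (S.map (Equiv.swap i j)).Nodup := (List.nodup_map_iff (Equiv.injective _)).2 hnd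
  have hS'lt : ∀ k ∈ S.map (Equiv.swap i j), k < a + b + c := by
    intro k hk
    obtain ⟨x, hx, rfl⟩ := List.mem_map.1 hk
    by_cases h1 : x ∈ lB a b
    · have h2 := (mB _).1 ((pB x).2 h1)
      omega
    · rw [pF x h1]
      exact hS x hx
  have hS'a : ∀ k, k < a → k ∈ S.map (Equiv.swap i j) := by
    intro k hk
    refine List.mem_map.2 ⟨k, hSa k hk, pF k fun h => ?_⟩
    have h2 := (mB k).1 h
    omega
  have hBp : (lB a b).Perm ((lB a b).map (Equiv.swap i j)) := by
    refine (List.perm_ext_iff_of_nodup nB ((List.nodup_map_iff (Equiv.injective _)).2 nB)).2 ?_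
    intro x
    constructor
    · intro hx
      exact List.mem_map.2 ⟨Equiv.swap i j x, (pB x).2 hx, Equiv.swap_apply_self i j x⟩
    · intro hx
      obtain ⟨y, hy, rfl⟩ := List.mem_map.1 hx
      exact (pB y).2 hy
  have e1 : vf N (dW a b c) (S.map (Equiv.swap i j)) =
      mo (Pal_la a b c (S.map (Equiv.swap i j)) (lB a b)) * br (S.map (Equiv.swap i j)) := by
    unfold vf Pal_la
    rw [hDwl a b c _ hS'nd hS'lt hS'a]
  have e2 : (fun x : ℕ → N => vf N (dW a b c) S (fun t => x (Equiv.swap i j t))) =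
      mo (Pal_la a b c (S.map (Equiv.swap i j)) ((lB a b).map (Equiv.swap i j))) *
        br (S.map (Equiv.swap i j)) := by
    rw [pal_sw, hDwl a b c S hnd hS hSa]
    unfold Pal_la
    rw [List.map_append, List.map_append, List.map_append, List.map_append, pal_filter,
      pal_filter, List.map_reverse,
      pal_map_id (Equiv.swap i j) (lA a) fun x hx => pF x fun h => by
        have h2 := (mB x).1 h
        have h3 := (mA x).1 hx
        omega,
      pal_map_id (Equiv.swap i j) (lC a b c) fun x hx => pF x fun h => by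
        have h2 := (mB x).1 h
        have h3 := (mC x).1 hx
        omega]
  have hp : (Pal_la a b c (S.map (Equiv.swap i j)) ([] ++ lB a b) ++
      S.map (Equiv.swap i j)).Perm (dW a b c) := by
    have h1 := D3 _ hS'nd hS'lt
    rw [hDwl a b c _ hS'nd hS'lt hS'a] at h1
    exact h1
  have h := pal_R_symm (pal_perm hPle hN a b c (S.map (Equiv.swap i j)) hBp [] hp)
  rw [List.nil_append, List.nil_append, ← e1, ← e2] at h
  have hl : (S.map (Equiv.swap i j)).length = S.length := by rw [List.length_map]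
  have h1 := h.1
  have h2 := h.2
  rw [hl] at h1 h2
  exact ⟨h1, h2⟩

end Pool.Agent.CRS
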