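import Pool.Agent.CRS.StY

/-!
Campaign CRS (MP_1bb14d_al), module Pgo: symmetrisation of the odd and the even part (offer 16713, architect helper34).
-/

set_option autoImplicit false

namespace Pool.Agent.CRS

open Pool.Agent.CRR Pool.Agent.CRN Pool.Agent.CRK Pool.Agent.CRL Pool.Agent.CRM Pool.Agent.CRP
open Pool.Agent.CRQ

private theorem Pgo_perm {M : Type} [AddCommGroup M] (ψ : List ℕ → M)
    (h : ∀ (S1 S2 : List ℕ) (i j : ℕ), ψ (S1 ++ i :: j :: S2) = -ψ (S1 ++ j :: i :: S2)) {S S' : List ℕ} (hp : S.Perm S') :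
    ∀ S0 : List ℕ, ψ (S0 ++ S) = ψ (S0 ++ S') ∨ ψ (S0 ++ S) = -ψ (S0 ++ S') := by
  induction hp with
  | nil => exact fun _ => Or.inl rfl
  | cons x _ ih =>
    intro S0
    have := ih (S0 ++ [x])
    simpa using this
  | swap x y l =>
    intro S0
    exact Or.inr (h S0 l y x)
  | trans _ _ ih1 ih2 =>
    intro S0
    rcases ih1 S0 with h1 | h1
    · rcases ih2 S0 with h2 | h2
      · exact Or.inl (h1.trans h2)
      · exact Or.inr (h1.trans h2)
    · rcases ih2 S0 with h2 | h2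
      · exact Or.inr (h1.trans (by rw [h2]))
      · exact Or.inl (h1.trans (by rw [h2, neg_neg]))

private theorem Pgo_To {M : Type} [AddCommGroup M] (s : ℕ → ℕ → AddMonoid.End M) (a b c : ℕ) (hc : c ≤ 1) :
    To s (lC a b c) = 1 := by
  have h : c = 0 ∨ c = 1 := by omega
  rcases h with rfl | rfl
  · have h1 : lC a b 0 = [] := by simp [lC]
    rw [h1]
    rfl
  · have h1 : lC a b 1 = [a + b] := by simp [lC]
    rw [h1]
    have h2 : To s [a + b] = Xo s (a + b) [] * To s [] := rfl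
    have h3 : Xo s (a + b) [] = 1 := if_pos (Or.inr rfl)
    have h4 : To s [] = 1 := rfl
    rw [h2, h3, h4, one_mul]

section main

variable {U : Type} [Ring U] (N : NonUnitalSubring U)

private theorem Pgo_wf (a b c : ℕ) (hc : c ≤ 1) (Z : List ℕ) (hZ : Z.Nodup) (hZC : ∀ i ∈ Z, i ∈ lC a b c) :
    ∃ u ∈ yt (lC a b c), Z.length = c - u.1 ∧ ∀ t : ℕ × List (List ℕ),
      wf N a b c t u = (t.2.map fun X => vf N (dW a b c) (lA a ++ X ++ Z)).sum := by
  have h : c = 0 ∨ c = 1 := by omega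
  rcases h with rfl | rfl
  · have h1 : lC a b 0 = [] := by simp [lC]
    rw [h1] at hZC ⊢
    have hZ0 : Z = [] := by
      rcases Z with _ | ⟨z, Z⟩
      · rfl
      · exact absurd (hZC z (by simp)) (by simp)
    subst hZ0
    refine ⟨(0, [[]]), by simp [yt], rfl, fun t => ?_⟩
    unfold wf
    rw [h1]
    simp [sg]
  · have h1 : lC a b 1 = [a + b] := by simp [lC]
    rw [h1] at hZC ⊢
    rcases Z with _ | ⟨z, Z⟩
    · refine ⟨(1, [[a + b]]), by simp [yt], rfl, fun t => ?_⟩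
      unfold wf
      rw [h1]
      simp [sg]
    · have hz : z = a + b := by simpa using hZC z (by simp)
      have hZ0 : Z = [] := by
        rcases Z with _ | ⟨z', Z⟩
        · rfl
        · have hz' : z' = a + b := by simpa using hZC z' (by simp)
          rw [hz, hz'] at hZ
          simp at hZ
      subst hZ0
      subst hz
      refine ⟨(0, [[]]), by simp [yt], rfl, fun t => ?_⟩
      unfold wf
      rw [h1]
      simp [sg]

/-- the family of the functions with the parity `p` -/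
private def Pgo_fam (a b c p : ℕ) (Z X : List ℕ) : (ℕ → N) → U :=
  if (a + X.length + Z.length) % 2 = p then vf N (dW a b c) (lA a ++ X ++ Z) else 0

private theorem Pgo_spn (hDwp : St_Dwp) (a b c p : ℕ) (hc : c ≤ 1) (Z : List ℕ) (hZ : Z.Nodup) (hZC : ∀ i ∈ Z, i ∈ lC a b c) :
    Spn (Pgo_fam N a b c p Z) (lB a b) ≤ AddSubgroup.closure {F | ∃ t ∈ yt (lB a b), ∃ u ∈ yt (lC a b c),
      (a + t.1 + (c - u.1)) % 2 = p ∧ F = wf N a b c t u} := by
  obtain ⟨u, hu, hul, huw⟩ := Pgo_wf N a b c hc Z hZ hZC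
  unfold Spn
  rw [AddSubgroup.closure_le]
  rintro m ⟨t, ht, rfl⟩
  have hlen := ((hDwp a b c).2.2.2.2.2 (lB a b) (hDwp a b c).1.2.1 t ht).2
  by_cases hp : (a + t.1 + Z.length) % 2 = p
  · apply AddSubgroup.subset_closure
    refine ⟨t, ht, u, hu, by rw [← hul]; exact hp, ?_⟩
    rw [huw t]
    congr 1
    apply List.map_congr_left
    intro X hX
    unfold Pgo_fam
    rw [(hlen X hX).1, if_pos hp]
  · have h0 : (t.2.map (Pgo_fam N a b c p Z)).sum = 0 := by
      have h1 : t.2.map (Pgo_fam N a b c p Z) = t.2.map fun _ => (0 : (ℕ → N) → U) := by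
        apply List.map_congr_left
        intro X hX
        unfold Pgo_fam
        rw [(hlen X hX).1, if_neg hp]
      rw [h1]
      simp
    rw [h0]
    exact AddSubgroup.zero_mem _

private theorem Pgo_fixA (a b c i j : ℕ) (hDwp : St_Dwp) (hi : i ∈ lB a b) (hj : j ∈ lB a b) (Z l : List ℕ)
    (hZC : ∀ k ∈ Z, k ∈ lC a b c) :
    (lA a ++ l ++ Z).map (Equiv.swap i j) = lA a ++ l.map (Equiv.swap i j) ++ Z := by
  obtain ⟨⟨-, -, -, hA, hB, hC, -, -, -⟩, -, -, -, -, -⟩ := hDwp a b c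
  have hi' := (hB i).1 hi
  have hj' := (hB j).1 hj
  rw [List.map_append, List.map_append]
  have e1 : (lA a).map (Equiv.swap i j) = lA a := by
    have : (lA a).map (Equiv.swap i j) = (lA a).map id := by
      apply List.map_congr_left
      intro k hk
      have hk' := (hA k).1 hk
      exact Equiv.swap_apply_of_ne_of_ne (by omega) (by omega)
    rw [this, List.map_id]
  have e2 : Z.map (Equiv.swap i j) = Z := by
    have : Z.map (Equiv.swap i j) = Z.map id := by
      apply List.map_congr_left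
      intro k hk
      have hk' := (hC k).1 (hZC k hk)
      exact Equiv.swap_apply_of_ne_of_ne (by omega) (by omega)
    rw [this, List.map_id]
  rw [e1, e2]

private theorem Pgo_sf (B : List ℕ) (i j : ℕ) (hi : i ∈ B) (hj : j ∈ B) (F : (ℕ → N) → U) :
    (sf 1 B i j : AddMonoid.End ((ℕ → N) → U)) F = fun x : ℕ → N => F (fun k => x (Equiv.swap i j k)) := by
  have h : (sf 1 B i j : AddMonoid.End ((ℕ → N) → U)) F =
      (if i ∈ B ∧ j ∈ B then (fun x : ℕ → N => (1 : ℤ) • F (fun k => x (Equiv.swap i j k))) else 0 : (ℕ → N) → U) := rfl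
  rw [h, if_pos ⟨hi, hj⟩]
  funext x
  rw [one_smul]

private theorem Pgo_stab (hDwp : St_Dwp) (a b c i j : ℕ) (hi : i ∈ lB a b) (hj : j ∈ lB a b) :
    ∀ m ∈ Jo N (dW a b c), (sf 1 (lB a b) i j : AddMonoid.End ((ℕ → N) → U)) m ∈ Jo N (dW a b c) := by
  intro m hm
  refine AddSubgroup.closure_induction
    (p := fun m _ => (sf 1 (lB a b) i j : AddMonoid.End ((ℕ → N) → U)) m ∈ Jo N (dW a b c)) ?_ ?_ ?_ ?_ hm
  · rintro F ⟨l, S, hlS, hS, rfl⟩
    rw [Pgo_sf N (lB a b) i j hi hj]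
    apply AddSubgroup.subset_closure
    refine ⟨l.map (Equiv.swap i j), S.map (Equiv.swap i j), ?_, by rw [List.length_map]; exact hS, ?_⟩
    · rw [← List.map_append]
      exact (hlS.map _).trans ((hDwp a b c).2.1 i j (Or.inl ⟨hi, hj⟩))
    · funext x
      simp only [Pi.mul_apply, mo, br, List.map_map]
      rfl
  · rw [map_zero]
    exact AddSubgroup.zero_mem _
  · intro F G _ _ h1 h2
    rw [map_add]
    exact AddSubgroup.add_mem _ h1 h2
  · intro F _ h1
    rw [map_neg]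
    exact AddSubgroup.neg_mem _ h1

end main

/-- **Pgo** -/
theorem thm_Pgo : St_Pal → St_Spo → St_Vfp → St_Dwp → St_Alx → St_Alq → St_Pgo := by
  classical
  intro hPal hSpo hVfp hDwp hAlx hAlq U _ N hN a b c hc hpos
  obtain ⟨⟨-, hBnd, -, hA, hB, hC, -, -, -⟩, -, -, -, hdec, -⟩ := hDwp a b c
  obtain ⟨-, -, v3, -, -, v6⟩ := hVfp U N hN a b c
  obtain ⟨s1, s2⟩ := hSpo U N hN a b c
  -- `Pf`
  have hPf : ∀ F : (ℕ → N) → U, Pf N U a b c F = To (sf 1 (lB a b)) (lB a b) F := by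
    intro F
    have h1 : Pf N U a b c = To (sf 1 (lB a b)) (lB a b) := by
      unfold Pf
      rw [Pgo_To _ a b c hc, mul_one]
    rw [h1]
  -- letters
  have hlt : ∀ (Z X : List ℕ), (∀ k ∈ Z, k ∈ lC a b c) → (∀ k ∈ X, k ∈ lB a b) → ∀ k ∈ lA a ++ X ++ Z, k < a + b + c := by
    intro Z X hZ hX k hk
    rw [List.mem_append, List.mem_append] at hk
    rcases hk with (hk | hk) | hk
    · have := (hA k).1 hk
      omega
    · have := (hB k).1 (hX k hk)
      omega
    · have := (hC k).1 (hZ k hk)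
      omega
  have halt : ∀ (p : ℕ) (Z l1 l2 : List ℕ) (i j : ℕ),
      Pgo_fam N a b c p Z (l1 ++ i :: j :: l2) = -Pgo_fam N a b c p Z (l1 ++ j :: i :: l2) := by
    intro p Z l1 l2 i j
    unfold Pgo_fam
    have h1 : (l1 ++ i :: j :: l2).length = (l1 ++ j :: i :: l2).length := by simp
    rw [h1]
    split_ifs
    · have h2 := v3 (lA a ++ l1) (l2 ++ Z) i j
      simpa using h2
    · rw [neg_zero]
  have htor : ∀ (p : ℕ) (Z : List ℕ), (∀ k ∈ Z, k ∈ lC a b c) → ∀ l : List ℕ, (∀ k ∈ l, k ∈ lB a b) →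
      (3 : ℤ) • Pgo_fam N a b c p Z l = 0 := by
    intro p Z hZ l hl
    unfold Pgo_fam
    split_ifs
    · exact v6 _ hpos (hlt Z l hZ hl)
    · rw [smul_zero]
  have hpal : ∀ (Z : List ℕ), (∀ k ∈ Z, k ∈ lC a b c) → ∀ i ∈ lB a b, ∀ j ∈ lB a b, ∀ l : List ℕ, (∀ k ∈ l, k ∈ lB a b) →
      ((lA a ++ l ++ Z).length % 2 = 1 → (fun x : ℕ → N => vf N (dW a b c) (lA a ++ l ++ Z) (fun t => x (Equiv.swap i j t))) =
        vf N (dW a b c) (lA a ++ l.map (Equiv.swap i j) ++ Z)) ∧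
      ((lA a ++ l ++ Z).length % 2 = 0 → (fun x : ℕ → N => vf N (dW a b c) (lA a ++ l ++ Z) (fun t => x (Equiv.swap i j t))) -
        vf N (dW a b c) (lA a ++ l.map (Equiv.swap i j) ++ Z) ∈ Jo N (dW a b c)) := by
    intro Z hZ i hi j hj l hl
    have h1 := hPal U N hN a b c (lA a ++ l ++ Z) i j (hlt Z l hZ hl)
      (fun k hk => List.mem_append_left _ (List.mem_append_left _ ((hA k).2 hk))) hi hj
    rw [Pgo_fixA a b c i j hDwp hi hj Z l hZ] at h1
    exact h1
  have hlen : ∀ (Z l : List ℕ), (lA a ++ l ++ Z).length = a + l.length + Z.length := by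
    intro Z l
    simp [lA]
    ring
  -- odd
  have hodd : ∀ (Z : List ℕ), Z.Nodup → (∀ k ∈ Z, k ∈ lC a b c) → ∀ X : List ℕ, (∀ k ∈ X, k ∈ lB a b) →
      To (sf 1 (lB a b)) (lB a b) (Pgo_fam N a b c 1 Z X) ∈ AddSubgroup.closure {F | ∃ t ∈ yt (lB a b), ∃ u ∈ yt (lC a b c),
        (a + t.1 + (c - u.1)) % 2 = 1 ∧ F = wf N a b c t u} := by
    intro Z hZ hZC X hX
    apply Pgo_spn N hDwp a b c 1 hc Z hZ hZC
    refine hAlx _ (sf 1 (lB a b)) (lB a b) (Pgo_fam N a b c 1 Z) hBnd ?_ X hX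
    refine ⟨fun l1 l2 i _ j _ _ => halt 1 Z l1 l2 i j, fun l hl => htor 1 Z hZC l hl, ?_⟩
    intro i hi j hj _ l hl
    rw [Pgo_sf N (lB a b) i j hi hj]
    unfold Pgo_fam
    rw [List.length_map]
    split_ifs with hp
    · exact (hpal Z hZC i hi j hj l hl).1 (by rw [hlen]; exact hp)
    · rfl
  -- even
  have heven : ∀ (Z : List ℕ), Z.Nodup → (∀ k ∈ Z, k ∈ lC a b c) → ∀ X : List ℕ, (∀ k ∈ X, k ∈ lB a b) →
      To (sf 1 (lB a b)) (lB a b) (Pgo_fam N a b c 0 Z X) ∈ AddSubgroup.closure {F | ∃ t ∈ yt (lB a b), ∃ u ∈ yt (lC a b c),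
        (a + t.1 + (c - u.1)) % 2 = 0 ∧ F = wf N a b c t u} ⊔ Jo N (dW a b c) := by
    intro Z hZ hZC X hX
    have h1 := hAlq _ (Jo N (dW a b c)) (sf 1 (lB a b)) (lB a b) (Pgo_fam N a b c 0 Z) hBnd
      (fun i hi j hj => Pgo_stab N hDwp a b c i j hi hj)
      (fun l1 l2 i _ j _ _ => by
        rw [halt 0 Z l1 l2 i j, neg_add_cancel]
        exact AddSubgroup.zero_mem _)
      (fun l hl => by
        rw [htor 0 Z hZC l hl]
        exact AddSubgroup.zero_mem _)
      (by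
        intro i hi j hj _ l hl
        rw [Pgo_sf N (lB a b) i j hi hj]
        unfold Pgo_fam
        rw [List.length_map]
        split_ifs with hp
        · exact (hpal Z hZC i hi j hj l hl).2 (by rw [hlen]; exact hp)
        · have : (fun x : ℕ → N => (0 : (ℕ → N) → U) (fun k => x (Equiv.swap i j k))) - 0 = 0 := by
            funext x
            simp
          rw [this]
          exact AddSubgroup.zero_mem _) X hX
    exact (sup_le_sup_right (Pgo_spn N hDwp a b c 0 hc Z hZ hZC) _) h1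
  -- `Jo` is mapped into itself
  have hJo : ∀ m ∈ Jo N (dW a b c), To (sf 1 (lB a b)) (lB a b) m ∈ Jo N (dW a b c) := by
    intro m hm
    have h1 := hAlq _ (Jo N (dW a b c)) (sf 1 (lB a b)) (lB a b) (fun _ => m) hBnd
      (fun i hi j hj => Pgo_stab N hDwp a b c i j hi hj)
      (fun _ _ _ _ _ _ _ => AddSubgroup.add_mem _ hm hm)
      (fun _ _ => AddSubgroup.zsmul_mem _ hm _)
      (fun i hi j hj _ _ _ => AddSubgroup.sub_mem _ (Pgo_stab N hDwp a b c i j hi hj m hm) hm) [] (by simp)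
    have h2 : Spn (fun _ : List ℕ => m) (lB a b) ≤ Jo N (dW a b c) := by
      unfold Spn
      rw [AddSubgroup.closure_le]
      rintro m' ⟨t, -, rfl⟩
      apply AddSubgroup.list_sum_mem
      intro y hy
      rw [List.mem_map] at hy
      obtain ⟨-, -, rfl⟩ := hy
      exact hm
    rw [sup_eq_right.2 h2] at h1
    exact h1
  -- a generator
  have hgen : ∀ (p : ℕ) (S : List ℕ), S.Nodup → (∀ k ∈ S, k < a + b + c) → (∀ k, k < a → k ∈ S) → S.length % 2 = p →
      ∃ X Z : List ℕ, (∀ k ∈ X, k ∈ lB a b) ∧ Z.Nodup ∧ (∀ k ∈ Z, k ∈ lC a b c) ∧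
        (vf N (dW a b c) S = Pgo_fam N a b c p Z X ∨ vf N (dW a b c) S = -Pgo_fam N a b c p Z X) := by
    intro p S hS1 hS2 hS3 hSp
    obtain ⟨X, Z, -, hZ, hX, hZC, hperm⟩ := hdec S hS1 hS2 hS3
    refine ⟨X, Z, hX, hZ, hZC, ?_⟩
    have h1 := Pgo_perm (fun S => vf N (dW a b c) S) v3 hperm []
    have h2 : Pgo_fam N a b c p Z X = vf N (dW a b c) (lA a ++ X ++ Z) := by
      unfold Pgo_fam
      rw [if_pos]
      rw [← hlen, ← hperm.length_eq]
      exact hSp
    rw [h2]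
    exact h1
  refine ⟨?_, ?_⟩
  · intro F hF
    rw [hPf]
    refine AddSubgroup.closure_induction (p := fun F _ => To (sf 1 (lB a b)) (lB a b) F ∈ AddSubgroup.closure
      {F | ∃ t ∈ yt (lB a b), ∃ u ∈ yt (lC a b c), (a + t.1 + (c - u.1)) % 2 = 1 ∧ F = wf N a b c t u}) ?_ ?_ ?_ ?_ (s1 hF)
    · rintro G ⟨S, hS1, hS2, hS3, hSp, rfl⟩
      obtain ⟨X, Z, hX, hZ, hZC, h | h⟩ := hgen 1 S hS1 hS2 hS3 hSp
      · rw [h]
        exact hodd Z hZ hZC X hX
      · rw [h, map_neg]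
        exact AddSubgroup.neg_mem _ (hodd Z hZ hZC X hX)
    · rw [map_zero]
      exact AddSubgroup.zero_mem _
    · intro F G _ _ h1 h2
      rw [map_add]
      exact AddSubgroup.add_mem _ h1 h2
    · intro F _ h1
      rw [map_neg]
      exact AddSubgroup.neg_mem _ h1
  · intro w hw
    rw [hPf]
    have h1 := s2 w [] (by rw [List.append_nil]; exact hw)
    have h2 : (mo w * br [] : (ℕ → N) → U) = mo w := by
      have : (br [] : (ℕ → N) → U) = 1 := by
        funext x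
        simp [br, brv]
      rw [this, mul_one]
    rw [h2] at h1
    obtain ⟨F0, hF0, F1, hF1, h3⟩ := AddSubgroup.mem_sup.1 h1
    rw [← h3, map_add]
    refine AddSubgroup.add_mem _ ?_ (AddSubgroup.mem_sup_right (hJo F1 hF1))
    refine AddSubgroup.closure_induction (p := fun F _ => To (sf 1 (lB a b)) (lB a b) F ∈ AddSubgroup.closure
      {F | ∃ t ∈ yt (lB a b), ∃ u ∈ yt (lC a b c), (a + t.1 + (c - u.1)) % 2 = 0 ∧ F = wf N a b c t u} ⊔
        Jo N (dW a b c)) ?_ ?_ ?_ ?_ hF0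
    · rintro G ⟨S, hS1, hS2, hS3, hSp, rfl⟩
      obtain ⟨X, Z, hX, hZ, hZC, h | h⟩ := hgen 0 S hS1 hS2 hS3 hSp
      · rw [h]
        exact heven Z hZ hZC X hX
      · rw [h, map_neg]
        exact AddSubgroup.neg_mem _ (heven Z hZ hZC X hX)
    · rw [map_zero]
      exact AddSubgroup.zero_mem _
    · intro F G _ _ h1 h2
      rw [map_add]
      exact AddSubgroup.add_mem _ h1 h2
    · intro F _ h1
      rw [map_neg]
      exact AddSubgroup.neg_mem _ h1

end Pool.Agent.CRS
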