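import Pool.Agent.CRS.StY

/-!
# CRS, Ple: exchange of letters in palindromes
-/

set_option autoImplicit false

namespace Pool.Agent.CRS

open Pool.Agent.CRR Pool.Agent.CRN Pool.Agent.CRK Pool.Agent.CRL Pool.Agent.CRM Pool.Agent.CRP
open Pool.Agent.CRQ

variable {U : Type} [Ring U] {N : NonUnitalSubring U}

private theorem ple_app (l l' : List ℕ) (x : ℕ → N) : mo (l ++ l') x = mo l x * mo l' x := by
  simp [mo]

private theorem ple_cons (k : ℕ) (l : List ℕ) (x : ℕ → N) : mo (k :: l) x = (x k : U) * mo l x := by
  simp [mo]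

private theorem ple_nil (x : ℕ → N) : mo ([] : List ℕ) x = (1 : U) := by
  simp [mo]

private theorem ple_mem (l : List ℕ) (x : ℕ → N) : mo l x = (1 : U) ∨ (mo l x : U) ∈ N := by
  induction l with
  | nil => left; exact ple_nil x
  | cons k l ih =>
    right
    rw [ple_cons]
    rcases ih with h | h
    · rw [h, mul_one]; exact (x k).2
    · exact N.mul_mem (x k).2 h

private theorem ple_map (S : List ℕ) (x : ℕ → N) : ∀ z ∈ S.map fun i => (x i : U), z ∈ N := by
  intro z hz
  rw [List.mem_map] at hz
  obtain ⟨i, -, rfl⟩ := hz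
  exact (x i).2

/-- the auxiliary function -/
private def ple_F (i j : ℕ) (l1 m l2 S : List ℕ) (x : ℕ → N) : U :=
  mo l1 x * cm (cm (x i : U) (x j)) (mo m x) * mo l2 x * br S x

private theorem ple_aux (hB : St_Bra) (h : Nr N) (d : List ℕ) (i j : ℕ) (l2 S : List ℕ) :
    ∀ m l1 : List ℕ, (l1 ++ m ++ l2 ++ [i, j] ++ S).Perm d →
      (S.length % 2 = 1 → (ple_F i j l1 m l2 S : (ℕ → N) → U) = 0) ∧
      (S.length % 2 = 0 → (ple_F i j l1 m l2 S : (ℕ → N) → U) ∈ Jo N d) := by
  obtain ⟨-, -, B3, B4, -⟩ := hB U N h
  intro m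
  induction m with
  | nil =>
    intro l1 _
    have e : (ple_F i j l1 [] l2 S : (ℕ → N) → U) = 0 := by
      funext x
      unfold ple_F
      rw [ple_nil]
      simp [cm]
    rw [e]
    exact ⟨fun _ => rfl, fun _ => (Jo N d).zero_mem⟩
  | cons k m ih =>
    intro l1 hp
    have hp1 : (l1 ++ [k] ++ m ++ l2 ++ [i, j] ++ S).Perm d := by
      rw [List.append_assoc l1 [k] m]
      exact hp
    obtain ⟨ih1, ih2⟩ := ih (l1 ++ [k]) hp1
    have e : (ple_F i j l1 (k :: m) l2 S : (ℕ → N) → U) =
        (fun x => mo (l1 ++ m ++ l2) x * (cm (cm (x i : U) (x j)) (x k) * br S x)) +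
          ple_F i j (l1 ++ [k]) m l2 S := by
      funext x
      rw [Pi.add_apply]
      unfold ple_F
      rw [ple_cons, ple_app, ple_app, ple_app, ple_cons, ple_nil]
      have c1 := B3 (m.map fun i => (x i : U)) (ple_map m x) (x i) (x i).2 (x j) (x j).2 (x k) (x k).2
      have c2 := B3 (l2.map fun i => (x i : U)) (ple_map l2 x) (x i) (x i).2 (x j) (x j).2 (x k)
        (x k).2
      change mo m x * _ = _ * mo m x at c1
      change mo l2 x * _ = _ * mo l2 x at c2
      have e1 : cm (cm (x i : U) (x j)) ((x k : U) * mo m x) =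
          mo m x * cm (cm (x i : U) (x j)) (x k) + (x k : U) * cm (cm (x i : U) (x j)) (mo m x) := by
        rw [c1]
        generalize cm (x i : U) (x j) = e
        unfold cm
        noncomm_ring
      rw [e1]
      have e2 : mo l1 x * mo m x * mo l2 x * (cm (cm (x i : U) (x j)) (x k) * br S x) =
          mo l1 x * (mo m x * cm (cm (x i : U) (x j)) (x k)) * mo l2 x * br S x := by
        rw [← mul_assoc, mul_assoc (mo l1 x * mo m x) (mo l2 x), c2]
        simp only [mul_assoc]
      rw [e2, mul_one]
      generalize cm (cm (x i : U) (x j)) (x k) = c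
      generalize cm (cm (x i : U) (x j)) (mo m x) = c'
      noncomm_ring
    rw [e]
    constructor
    · intro hS
      rw [ih1 hS, add_zero]
      funext x
      rw [(B4 (S.map fun i => (x i : U)) (ple_map S x) (x i) (x i).2 (x j) (x j).2 (x k) (x k).2).2
        (by rw [List.length_map]; exact hS) |> fun h => (show _ * br S x = 0 from h), mul_zero]
      rfl
    · intro hS
      refine (Jo N d).add_mem ?_ (ih2 hS)
      apply AddSubgroup.subset_closure
      refine ⟨l1 ++ m ++ l2, S ++ [i, j, k], ?_, ?_, ?_⟩
      · refine List.Perm.trans ?_ hp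
        rw [List.perm_iff_count]
        intro a
        simp only [List.count_append, List.count_cons, List.count_nil]
        omega
      · simp only [List.length_append, List.length_cons, List.length_nil]
        omega
      · funext x
        rw [Pi.mul_apply]
        have := (B4 (S.map fun i => (x i : U)) (ple_map S x) (x i) (x i).2 (x j) (x j).2 (x k)
          (x k).2).1 (by rw [List.length_map]; exact hS)
        have e3 : br (S ++ [i, j, k]) x =
            brv ((S.map fun i => (x i : U)) ++ [(x i : U), (x j : U), (x k : U)]) := by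
          unfold br
          rw [List.map_append]
          rfl
        rw [e3, ← this]
        rfl

private theorem ple_br (i j : ℕ) (S : List ℕ) (hS : S.length ≠ 1) (x : ℕ → N) :
    br (i :: j :: S) x = cm (x i : U) (x j) * br S x := by
  unfold br
  match S, hS with
  | [], _ => rfl
  | [_], h => exact absurd rfl h
  | a :: b :: l, _ => rfl

theorem thm_Ple : St_Bzx → St_Bra → St_Ple := by
  intro hZ hB U _ N h d l1 m l2 S i j
  obtain ⟨Z1, Z2⟩ := hZ U N h
  refine ⟨?_, ?_, ?_⟩
  · intro hij
    funext x
    rw [Pi.mul_apply, Pi.mul_apply, ple_app, ple_app, ple_cons, ple_cons, ple_cons, ple_cons,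
      ← sub_eq_zero]
    have key : cm (x i : U) (x j) * mo l2 x * br S x = 0 := by
      rcases hij with hi | hj
      · exact (Z1 _ (ple_map S x) (x i) (List.mem_map.mpr ⟨i, hi, rfl⟩) (x j) (x j).2 _
          (ple_mem l2 x)).1
      · exact (Z1 _ (ple_map S x) (x j) (List.mem_map.mpr ⟨j, hj, rfl⟩) (x i) (x i).2 _
          (ple_mem l2 x)).2
    have e : mo l1 x * ((x i : U) * ((x j : U) * mo l2 x)) * br S x -
        mo l1 x * ((x j : U) * ((x i : U) * mo l2 x)) * br S x =
        mo l1 x * (cm (x i : U) (x j) * mo l2 x * br S x) := by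
      unfold cm
      noncomm_ring
    rw [e, key, mul_zero]
  · intro hp
    have hp' : (l1 ++ m ++ (j :: i :: l2) ++ [i, j] ++ S).Perm d := by
      refine List.Perm.trans ?_ hp
      rw [List.perm_iff_count]
      intro a
      simp only [List.count_append, List.count_cons, List.count_nil]
      omega
    obtain ⟨A1, A2⟩ := ple_aux hB h d i j (j :: i :: l2) S m l1 hp'
    have e : (mo (l1 ++ i :: j :: (m ++ j :: i :: l2)) * br S -
        mo (l1 ++ j :: i :: (m ++ i :: j :: l2)) * br S : (ℕ → N) → U) =
        ple_F i j l1 m (j :: i :: l2) S := by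
      funext x
      rw [Pi.sub_apply, Pi.mul_apply, Pi.mul_apply]
      unfold ple_F
      simp only [ple_app, ple_cons]
      have := Z2 (x i) (x i).2 (x j) (x j).2 _ (ple_mem m x)
      have e1 : mo l1 x * cm (cm (x i : U) (x j)) (mo m x) * ((x j : U) * ((x i : U) * mo l2 x)) *
          br S x = mo l1 x * (cm (cm (x i : U) (x j)) (mo m x) * ((x j : U) * (x i : U))) *
            mo l2 x * br S x := by
        simp only [mul_assoc]
      rw [e1, ← this]
      noncomm_ring
    constructor
    · intro hS
      rw [← sub_eq_zero, e]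
      exact A1 hS
    · intro hS
      rw [e]
      exact A2 hS
  · intro hp hS1
    have hp' : (l1 ++ l2 ++ [] ++ [i, j] ++ S).Perm d := by
      refine List.Perm.trans ?_ hp
      rw [List.perm_iff_count]
      intro a
      simp only [List.count_append, List.count_cons, List.count_nil]
      omega
    obtain ⟨A1, A2⟩ := ple_aux hB h d i j [] S l2 l1 hp'
    have e : (mo (l1 ++ i :: j :: l2) * br S - mo (l1 ++ j :: i :: l2) * br S -
        mo (l1 ++ l2) * br (i :: j :: S) : (ℕ → N) → U) = ple_F i j l1 l2 [] S := by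
      funext x
      rw [Pi.sub_apply, Pi.sub_apply, Pi.mul_apply, Pi.mul_apply, Pi.mul_apply]
      unfold ple_F
      simp only [ple_app, ple_cons, ple_nil]
      rw [ple_br i j S hS1 x]
      unfold cm
      noncomm_ring
    constructor
    · intro hS
      have := A1 hS
      rw [← e, sub_sub, sub_eq_zero] at this
      exact this
    · intro hS
      rw [e]
      exact A2 hS

end Pool.Agent.CRS
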