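import Pool.Agent.CRS.StB

/-!
Campaign CRS, module Res: reduction to rings with `3 x = 0` (`thm_Res : St_Res`).

`Res_B ι` is the subring of the polynomials over a ring with unit which contains `A` (by `ι`), generated, as a group, by the `C (wp l) X ^ |l|`, `l ≠ []`.
In this ring `y ^ 3 = 0` (`Res_cube_closure`), and the coefficients of degree at least 6 of `3 y` are zero; the ring of the statement is the quotient by the
multiples of 3 (`Res_con`), with a unit added.
-/

set_option autoImplicit false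

namespace Pool.Agent.CRS

open Pool.Agent.CRR Pool.Agent.CRN Pool.Agent.CRK Pool.Agent.CRL Pool.Agent.CRM Pool.Agent.CRP
open Pool.Agent.CRQ

/-! ### Cubes in a group generated by a set -/

section Res_alg

variable {R : Type} [NonUnitalRing R]

/-- The sum of the six products. -/
def Res_s (x y z : R) : R :=
  x * y * z + x * z * y + y * x * z + y * z * x + z * x * y + z * y * x

/-- The part of `(x + y) ^ 3` of degree two in `x`. -/
def Res_t (x y : R) : R := x * x * y + x * y * x + y * x * x

theorem Res_s_add1 (x x' y z : R) : Res_s (x + x') y z = Res_s x y z + Res_s x' y z := by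
  simp only [Res_s, add_mul, mul_add]
  abel

theorem Res_s_neg1 (x y z : R) : Res_s (-x) y z = -Res_s x y z := by
  simp only [Res_s, neg_mul, mul_neg]
  abel

theorem Res_s_zero1 (y z : R) : Res_s 0 y z = 0 := by
  simp [Res_s]

theorem Res_s_swap (x y z : R) : Res_s x y z = Res_s y x z := by
  simp only [Res_s]
  abel

theorem Res_s_swap' (x y z : R) : Res_s x y z = Res_s z y x := by
  simp only [Res_s]
  abel

theorem Res_t_add2 (x y y' : R) : Res_t x (y + y') = Res_t x y + Res_t x y' := by
  simp only [Res_t, add_mul, mul_add]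
  abel

theorem Res_t_neg2 (x y : R) : Res_t x (-y) = -Res_t x y := by
  simp only [Res_t, neg_mul, mul_neg]
  abel

theorem Res_t_add1 (x x' y : R) : Res_t (x + x') y = Res_t x y + Res_t x' y + Res_s x x' y := by
  simp only [Res_t, Res_s, add_mul, mul_add]
  abel

theorem Res_t_neg1 (x y : R) : Res_t (-x) y = Res_t x y := by
  simp only [Res_t, neg_mul, mul_neg, neg_neg]

theorem Res_cube_add (x y : R) : (x + y) * (x + y) * (x + y) =
    x * x * x + y * y * y + Res_t x y + Res_t y x := by
  simp only [Res_t, add_mul, mul_add]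
  abel

/-- If the polarised identities hold for the generators then all cubes are zero. -/
theorem Res_cube_closure (S : Set R) (hs : ∀ x ∈ S, ∀ y ∈ S, ∀ z ∈ S, Res_s x y z = 0)
    (ht : ∀ x ∈ S, ∀ y ∈ S, Res_t x y = 0) (hc : ∀ x ∈ S, x * x * x = 0) :
    ∀ x ∈ AddSubgroup.closure S, x * x * x = 0 := by
  have h1 : ∀ x ∈ AddSubgroup.closure S, ∀ y ∈ S, ∀ z ∈ S, Res_s x y z = 0 := by
    intro x hx y hy z hz
    refine AddSubgroup.closure_induction (p := fun x _ => Res_s x y z = 0) ?_ ?_ ?_ ?_ hx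
    · intro x hx
      exact hs x hx y hy z hz
    · exact Res_s_zero1 y z
    · intro a b _ _ ha hb
      rw [Res_s_add1, ha, hb, add_zero]
    · intro a _ ha
      rw [Res_s_neg1, ha, neg_zero]
  have h2 : ∀ x ∈ AddSubgroup.closure S, ∀ y ∈ AddSubgroup.closure S, ∀ z ∈ S,
      Res_s x y z = 0 := by
    intro x hx y hy z hz
    refine AddSubgroup.closure_induction (p := fun y _ => Res_s x y z = 0) ?_ ?_ ?_ ?_ hy
    · intro y hy
      exact h1 x hx y hy z hz
    · rw [Res_s_swap, Res_s_zero1]
    · intro a b _ _ ha hb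
      rw [Res_s_swap, Res_s_add1, Res_s_swap a, Res_s_swap b, ha, hb, add_zero]
    · intro a _ ha
      rw [Res_s_swap, Res_s_neg1, Res_s_swap a, ha, neg_zero]
  have h3 : ∀ x ∈ AddSubgroup.closure S, ∀ y ∈ AddSubgroup.closure S,
      ∀ z ∈ AddSubgroup.closure S, Res_s x y z = 0 := by
    intro x hx y hy z hz
    refine AddSubgroup.closure_induction (p := fun z _ => Res_s x y z = 0) ?_ ?_ ?_ ?_ hz
    · intro z hz
      exact h2 x hx y hy z hz
    · rw [Res_s_swap', Res_s_zero1]
    · intro a b _ _ ha hb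
      rw [Res_s_swap', Res_s_add1, Res_s_swap' a, Res_s_swap' b, ha, hb, add_zero]
    · intro a _ ha
      rw [Res_s_swap', Res_s_neg1, Res_s_swap' a, ha, neg_zero]
  have h4 : ∀ x ∈ S, ∀ y ∈ AddSubgroup.closure S, Res_t x y = 0 := by
    intro x hx y hy
    refine AddSubgroup.closure_induction (p := fun y _ => Res_t x y = 0) ?_ ?_ ?_ ?_ hy
    · intro y hy
      exact ht x hx y hy
    · simp [Res_t]
    · intro a b _ _ ha hb
      rw [Res_t_add2, ha, hb, add_zero]
    · intro a _ ha
      rw [Res_t_neg2, ha, neg_zero]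
  have h5 : ∀ x ∈ AddSubgroup.closure S, ∀ y ∈ AddSubgroup.closure S, Res_t x y = 0 := by
    intro x hx y hy
    refine AddSubgroup.closure_induction (p := fun x _ => Res_t x y = 0) ?_ ?_ ?_ ?_ hx
    · intro x hx
      exact h4 x hx y hy
    · simp [Res_t]
    · intro a b ha' hb' ha hb
      rw [Res_t_add1, ha, hb, h3 a ha' b hb' y hy, add_zero, add_zero]
    · intro a _ ha
      rw [Res_t_neg1, ha]
  intro x hx
  refine AddSubgroup.closure_induction (p := fun x _ => x * x * x = 0) ?_ ?_ ?_ ?_ hx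
  · exact hc
  · simp
  · intro a b ha' hb' ha hb
    rw [Res_cube_add, ha, hb, h5 a ha' b hb', h5 b hb' a ha', add_zero, add_zero, add_zero]
  · intro a _ ha
    simp only [neg_mul, mul_neg, neg_neg, ha, neg_zero]

theorem Res_s_zero (hc : ∀ x : R, x * x * x = 0) (x y z : R) : Res_s x y z = 0 := by
  have h : (x + y + z) * (x + y + z) * (x + y + z) - (x + y) * (x + y) * (x + y) -
      (x + z) * (x + z) * (x + z) - (y + z) * (y + z) * (y + z) + x * x * x + y * y * y +
      z * z * z = Res_s x y z := by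
    simp only [Res_s, add_mul, mul_add]
    abel
  rw [← h]
  simp only [hc]
  simp

theorem Res_t_zero (hc : ∀ x : R, x * x * x = 0) (h3 : ∃ r : ℕ, ∀ x : R, (3 ^ r) • x = 0)
    (x y : R) : Res_t x y = 0 := by
  obtain ⟨r, hr⟩ := h3
  have h1 : Res_t x y + Res_t y x = 0 := by
    have h := Res_cube_add x y
    rw [hc, hc, hc] at h
    rw [zero_add, zero_add] at h
    exact h.symm
  have h2 : -Res_t x y + Res_t y x = 0 := by
    have h := Res_cube_add x (-y)
    rw [hc, hc, hc, Res_t_neg2, Res_t_neg1] at h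
    rw [zero_add, zero_add] at h
    exact h.symm
  have h4 : (2 : ℕ) • Res_t x y = 0 := by
    have h : (2 : ℕ) • Res_t x y = (Res_t x y + Res_t y x) - (-Res_t x y + Res_t y x) := by abel
    rw [h, h1, h2, sub_zero]
  obtain ⟨k, hk⟩ : Odd (3 ^ r) := Odd.pow (by decide)
  have h5 := hr (Res_t x y)
  rw [hk, add_smul, mul_comm, mul_smul, h4, smul_zero, zero_add, one_smul] at h5
  exact h5

end Res_alg

/-! ### The Rees ring -/

section Res_rees

variable {A : Type} [NonUnitalRing A]

theorem Res_wp_cons (a : A) {l : List A} (h : l ≠ []) : wp (a :: l) = a * wp l := by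
  cases l with
  | nil => exact absurd rfl h
  | cons b l => rfl

theorem Res_wp_append : ∀ {l m : List A}, l ≠ [] → m ≠ [] → wp (l ++ m) = wp l * wp m
  | [], _, h, _ => absurd rfl h
  | [a], m, _, hm => by
    rw [List.singleton_append, Res_wp_cons a hm]
    rfl
  | a :: b :: l, m, _, hm => by
    rw [List.cons_append, Res_wp_cons a (by simp), Res_wp_append (List.cons_ne_nil b l) hm,
      Res_wp_cons a (List.cons_ne_nil b l), mul_assoc]

/-- A ring without unit is contained in a ring with unit. -/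
theorem Res_unit (B : Type) [NonUnitalRing B] :
    ∃ (V : Type) (_ : Ring V) (ι : B →ₙ+* V), Function.Injective ι :=
  ⟨Unitization ℤ B, inferInstance,
    { toFun := fun x => Unitization.inr x
      map_mul' := fun x y => Unitization.inr_mul ℤ x y
      map_zero' := Unitization.inr_zero ℤ
      map_add' := fun x y => Unitization.inr_add ℤ x y }, Unitization.inr_injective⟩

variable {V : Type} [Ring V] (ι : A →ₙ+* V)

/-- The polynomial of a word. -/
noncomputable def Res_m (l : List A) : Polynomial V :=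
  Polynomial.monomial l.length (ι (wp l))

theorem Res_m_mul {l m : List A} (hl : l ≠ []) (hm : m ≠ []) :
    Res_m ι l * Res_m ι m = Res_m ι (l ++ m) := by
  unfold Res_m
  rw [Polynomial.monomial_mul_monomial, List.length_append, ← map_mul, Res_wp_append hl hm]

/-- The generators of the Rees ring. -/
def Res_S : Set (Polynomial V) := {p | ∃ l : List A, l ≠ [] ∧ p = Res_m ι l}

theorem Res_s_mono (m n k : ℕ) (a b c : A) :
    Res_s (Polynomial.monomial m (ι a)) (Polynomial.monomial n (ι b))
      (Polynomial.monomial k (ι c)) = Polynomial.monomial (m + n + k) (ι (Res_s a b c)) := by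
  have e1 : m + k + n = m + n + k := by omega
  have e2 : n + m + k = m + n + k := by omega
  have e3 : n + k + m = m + n + k := by omega
  have e4 : k + m + n = m + n + k := by omega
  have e5 : k + n + m = m + n + k := by omega
  simp only [Res_s, Polynomial.monomial_mul_monomial, e1, e2, e3, e4, e5, map_add, map_mul]

theorem Res_t_mono (m n : ℕ) (a b : A) :
    Res_t (Polynomial.monomial m (ι a)) (Polynomial.monomial n (ι b)) =
    Polynomial.monomial (m + m + n) (ι (Res_t a b)) := by
  have e1 : m + n + m = m + m + n := by omega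
  have e2 : n + m + m = m + m + n := by omega
  simp only [Res_t, Polynomial.monomial_mul_monomial, e1, e2, map_add, map_mul]

/-- The Rees ring. -/
noncomputable def Res_B : NonUnitalSubring (Polynomial V) where
  carrier := AddSubgroup.closure (Res_S ι)
  add_mem' := fun hx hy => AddSubgroup.add_mem _ hx hy
  zero_mem' := AddSubgroup.zero_mem _
  neg_mem' := fun hx => AddSubgroup.neg_mem _ hx
  mul_mem' := by
    intro x y hx hy
    have h1 : ∀ x ∈ Res_S ι, ∀ y ∈ AddSubgroup.closure (Res_S ι),
        x * y ∈ AddSubgroup.closure (Res_S ι) := by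
      intro x hx y hy
      refine AddSubgroup.closure_induction
        (p := fun y _ => x * y ∈ AddSubgroup.closure (Res_S ι)) ?_ ?_ ?_ ?_ hy
      · rintro _ ⟨m, hm, rfl⟩
        obtain ⟨l, hl, rfl⟩ := hx
        exact AddSubgroup.subset_closure ⟨l ++ m, by simp [hl], Res_m_mul ι hl hm⟩
      · rw [mul_zero]
        exact AddSubgroup.zero_mem _
      · intro a b _ _ ha hb
        rw [mul_add]
        exact AddSubgroup.add_mem _ ha hb
      · intro a _ ha
        rw [mul_neg]
        exact AddSubgroup.neg_mem _ ha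
    refine AddSubgroup.closure_induction
      (p := fun x _ => x * y ∈ AddSubgroup.closure (Res_S ι)) ?_ ?_ ?_ ?_ hx
    · intro x hx
      exact h1 x hx y hy
    · rw [zero_mul]
      exact AddSubgroup.zero_mem _
    · intro a b _ _ ha hb
      rw [add_mul]
      exact AddSubgroup.add_mem _ ha hb
    · intro a _ ha
      rw [neg_mul]
      exact AddSubgroup.neg_mem _ ha

theorem Res_B_mem (x : Polynomial V) : x ∈ Res_B ι ↔ x ∈ AddSubgroup.closure (Res_S ι) := Iff.rfl

theorem Res_B_cube (hc : ∀ x : A, x * x * x = 0) (h3 : ∃ r : ℕ, ∀ x : A, (3 ^ r) • x = 0) :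
    ∀ x : Res_B ι, x * x * x = 0 := by
  intro x
  have h := Res_cube_closure (Res_S ι) ?_ ?_ ?_ x.1 ((Res_B_mem ι x.1).1 x.2)
  · exact Subtype.ext h
  · rintro _ ⟨l, -, rfl⟩ _ ⟨m, -, rfl⟩ _ ⟨n, -, rfl⟩
    unfold Res_m
    rw [Res_s_mono, Res_s_zero hc, map_zero, map_zero]
  · rintro _ ⟨l, -, rfl⟩ _ ⟨m, -, rfl⟩
    unfold Res_m
    rw [Res_t_mono, Res_t_zero hc h3, map_zero, map_zero]
  · rintro _ ⟨l, -, rfl⟩
    unfold Res_m
    rw [Polynomial.monomial_mul_monomial, Polynomial.monomial_mul_monomial,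
      ← map_mul, ← map_mul, hc, map_zero, map_zero]

/-- Coefficients of degree at least 6 are killed by 3. -/
theorem Res_B_coeff (h6 : ∀ l : List A, 6 ≤ l.length → (3 : ℤ) • wp l = 0) (n : ℕ) (hn : 6 ≤ n) :
    ∀ x ∈ Res_B ι, (3 : ℤ) • x.coeff n = 0 := by
  intro x hx
  rw [Res_B_mem] at hx
  refine AddSubgroup.closure_induction (p := fun x _ => (3 : ℤ) • x.coeff n = 0) ?_ ?_ ?_ ?_ hx
  · rintro _ ⟨l, -, rfl⟩
    unfold Res_m
    rw [Polynomial.coeff_monomial]
    by_cases h : l.length = n
    · rw [if_pos h, ← map_zsmul, h6 l (by omega), map_zero]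
    · rw [if_neg h, smul_zero]
  · rw [Polynomial.coeff_zero, smul_zero]
  · intro a b _ _ ha hb
    rw [Polynomial.coeff_add, smul_add, ha, hb, add_zero]
  · intro a _ ha
    rw [Polynomial.coeff_neg, smul_neg, ha, neg_zero]

/-- The word as an element of the Rees ring. -/
noncomputable def Res_w (l : List A) (h : l ≠ []) : Res_B ι :=
  ⟨Res_m ι l, (Res_B_mem ι _).2 (AddSubgroup.subset_closure ⟨l, h, rfl⟩)⟩

theorem Res_w_mul {l m : List A} (hl : l ≠ []) (hm : m ≠ []) (h : l ++ m ≠ []) :
    Res_w ι l hl * Res_w ι m hm = Res_w ι (l ++ m) h :=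
  Subtype.ext (Res_m_mul ι hl hm)

theorem Res_w_add (x y : A) : Res_w ι [x + y] (List.cons_ne_nil _ _) =
    Res_w ι [x] (List.cons_ne_nil _ _) + Res_w ι [y] (List.cons_ne_nil _ _) := by
  apply Subtype.ext
  show Res_m ι [x + y] = Res_m ι [x] + Res_m ι [y]
  show Polynomial.monomial 1 (ι (x + y)) = Polynomial.monomial 1 (ι x) + Polynomial.monomial 1 (ι y)
  rw [map_add, map_add]

end Res_rees

/-- Congruence modulo 3. -/
def Res_con (B : Type) [NonUnitalRing B] : RingCon B where
  r x y := ∃ z : B, x - y = (3 : ℤ) • z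
  iseqv := ⟨fun x => ⟨0, by simp⟩, fun {x y} ⟨z, hz⟩ => ⟨-z, by rw [smul_neg, ← hz]; abel⟩,
    fun {x y z} ⟨a, ha⟩ ⟨b, hb⟩ => ⟨a + b, by rw [smul_add, ← ha, ← hb]; abel⟩⟩
  add' := fun {x y u v} ⟨a, ha⟩ ⟨b, hb⟩ => ⟨a + b, by rw [smul_add, ← ha, ← hb]; abel⟩
  mul' := fun {x y u v} ⟨a, ha⟩ ⟨b, hb⟩ => ⟨x * b + a * v, by
    rw [smul_add, ← mul_smul_comm, ← smul_mul_assoc, ← ha, ← hb, mul_sub, sub_mul]
    abel⟩

theorem Res_con_zero {B : Type} [NonUnitalRing B] (x : B) (h : ((x : B) : (Res_con B).Quotient) = 0) :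
    ∃ z : B, x = (3 : ℤ) • z := by
  have h1 : ((x : B) : (Res_con B).Quotient) = ((0 : B) : (Res_con B).Quotient) := h
  obtain ⟨z, hz⟩ := (Res_con B).eq.1 h1
  exact ⟨z, by rw [← hz, sub_zero]⟩

theorem Res_con_three {B : Type} [NonUnitalRing B] (x : B) :
    (((3 : ℤ) • x : B) : (Res_con B).Quotient) = 0 := by
  have h1 : (((3 : ℤ) • x : B) : (Res_con B).Quotient) = ((0 : B) : (Res_con B).Quotient) :=
    (Res_con B).eq.2 ⟨x, by rw [sub_zero]⟩
  exact h1

/-- The quotient modulo 3, in a ring with unit. -/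
theorem Res_quot (B : Type) [NonUnitalRing B] (hc : ∀ x : B, x * x * x = 0) :
    ∃ (U : Type) (_ : Ring U) (N : NonUnitalSubring U) (f : B →ₙ+* U),
      Nr N ∧ (∀ y, f y ∈ N) ∧ ∀ y, f y = 0 → ∃ z : B, y = (3 : ℤ) • z := by
  obtain ⟨U, hU, j, hj⟩ := Res_unit (Res_con B).Quotient
  let q : B →ₙ+* (Res_con B).Quotient :=
    { toFun := fun x => (x : (Res_con B).Quotient)
      map_mul' := fun _ _ => rfl
      map_zero' := rfl
      map_add' := fun _ _ => rfl }
  have hq3 : ∀ x : B, q ((3 : ℤ) • x) = 0 := fun x => Res_con_three x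
  refine ⟨U, hU, NonUnitalRingHom.range (j.comp q), j.comp q, ?_, ?_, ?_⟩
  · refine ⟨?_, ?_⟩
    · rintro _ ⟨x, rfl⟩
      rw [← map_mul, ← map_mul, hc, map_zero]
    · rintro _ ⟨x, rfl⟩
      rw [← map_zsmul]
      show j (q ((3 : ℤ) • x)) = 0
      rw [hq3, map_zero]
  · intro y
    exact ⟨y, rfl⟩
  · intro y hy
    have h1 : j (q y) = j 0 := by
      rw [map_zero]
      exact hy
    exact Res_con_zero y (hj h1)

theorem thm_Res : St_Res := by
  intro A _ hc h3 h6
  obtain ⟨V, _, ι, hι⟩ := Res_unit A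
  obtain ⟨U, hU, N, f, hN, hf, hf0⟩ := Res_quot (Res_B ι) (Res_B_cube ι hc h3)
  have hne : ∀ x : A, ([x] : List A) ≠ [] := fun x => List.cons_ne_nil x []
  let θ : A →+ N := AddMonoidHom.mk'
    (fun x => ⟨f (Res_w ι [x] (hne x)), hf _⟩) (by
      intro x y
      apply Subtype.ext
      show f (Res_w ι [x + y] (hne _)) = f (Res_w ι [x] (hne _)) + f (Res_w ι [y] (hne _))
      rw [Res_w_add, map_add])
  have hθ : ∀ x, (θ x : U) = f (Res_w ι [x] (hne x)) := fun x => rfl
  refine ⟨U, hU, N, θ, hN, ?_⟩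
  -- products
  have hprod : ∀ (l : List A) (hl : l ≠ []),
      (l.map fun y => (θ y : U)).prod = f (Res_w ι l hl) := by
    intro l
    induction l with
    | nil => intro h; exact absurd rfl h
    | cons a l ih =>
      intro hal
      by_cases hl : l = []
      · subst hl
        rw [List.map_cons, List.map_nil, List.prod_cons, List.prod_nil, mul_one]
        exact hθ a
      · rw [List.map_cons, List.prod_cons, ih hl, hθ, ← map_mul,
          Res_w_mul ι (hne a) hl hal]
        rfl
  intro n hn L hL hsum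
  -- the sum in the Rees ring
  have key : ∀ L : List (ℤ × List A), (∀ q ∈ L, q.2.length = n) →
      ∃ y : Res_B ι, f y = (L.map fun q => q.1 • (q.2.map fun y => (θ y : U)).prod).sum ∧
        y.1.coeff n = ι (L.map fun q => q.1 • wp q.2).sum := by
    intro L
    induction L with
    | nil =>
      intro _
      refine ⟨0, ?_, ?_⟩
      · rw [map_zero]
        rfl
      · show (0 : Polynomial V).coeff n = ι 0
        rw [map_zero, Polynomial.coeff_zero]
    | cons q L ih =>
      intro h
      obtain ⟨y, hy1, hy2⟩ := ih (fun q' hq' => h q' (List.mem_cons_of_mem _ hq'))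
      have hq : q.2.length = n := h q List.mem_cons_self
      have hq0 : q.2 ≠ [] := by
        intro h0
        rw [h0, List.length_nil] at hq
        omega
      refine ⟨q.1 • Res_w ι q.2 hq0 + y, ?_, ?_⟩
      · rw [map_add, map_zsmul, hy1, List.map_cons, List.sum_cons, hprod q.2 hq0]
      · rw [List.map_cons, List.sum_cons, map_add, map_zsmul, ← hy2]
        show (q.1 • Res_m ι q.2 + y.1).coeff n = _
        rw [Polynomial.coeff_add, Polynomial.coeff_smul]
        unfold Res_m
        rw [hq, Polynomial.coeff_monomial, if_pos rfl]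
  obtain ⟨y, hy1, hy2⟩ := key L hL
  rw [hsum] at hy1
  obtain ⟨z, hz⟩ := hf0 y hy1
  have h4 : y.1.coeff n = 0 := by
    rw [hz]
    show ((3 : ℤ) • z.1).coeff n = 0
    rw [Polynomial.coeff_smul]
    exact Res_B_coeff ι h6 n hn z.1 z.2
  rw [h4] at hy2
  apply hι
  rw [← hy2, map_zero]

end Pool.Agent.CRS
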