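import Pool.Agent.CRS.StX

/-!
# Campaign CRS, part Rlc: functions on `A` and on `N` which are given by the same words
-/

set_option autoImplicit false

namespace Pool.Agent.CRS

open Pool.Agent.CRR Pool.Agent.CRN Pool.Agent.CRK Pool.Agent.CRL Pool.Agent.CRM Pool.Agent.CRP
open Pool.Agent.CRQ

section

variable {A : Type} [NonUnitalRing A] {U : Type} [Ring U] {N : NonUnitalSubring U} {θ : A →+ N}
  {n : ℕ}

private theorem rlc_add {F F' : (ℕ → A) → A} {G G' : (ℕ → N) → U} (h : Rlx θ n F G)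
    (h' : Rlx θ n F' G') : Rlx θ n (F + F') (G + G') := by
  intro x
  obtain ⟨L, h1, h2, h3⟩ := h x
  obtain ⟨L', h1', h2', h3'⟩ := h' x
  refine ⟨L ++ L', ?_, ?_, ?_⟩
  · intro q hq
    rcases List.mem_append.1 hq with h4 | h4
    · exact h1 q h4
    · exact h1' q h4
  · rw [Pi.add_apply, List.map_append, List.sum_append, h2, h2']
  · rw [Pi.add_apply, List.map_append, List.sum_append, h3, h3']

private theorem rlc_neg {F : (ℕ → A) → A} {G : (ℕ → N) → U} (h : Rlx θ n F G) :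
    Rlx θ n (-F) (-G) := by
  intro x
  obtain ⟨L, h1, h2, h3⟩ := h x
  refine ⟨L.map fun q => (-q.1, q.2), ?_, ?_, ?_⟩
  · intro q hq
    obtain ⟨q', hq', rfl⟩ := List.mem_map.1 hq
    exact h1 q' hq'
  · rw [Pi.neg_apply, h2, List.map_map, List.sum_neg]
    simp only [List.map_map, Function.comp_def, neg_smul]
  · rw [Pi.neg_apply, h3, List.map_map, List.sum_neg]
    simp only [List.map_map, Function.comp_def, neg_smul]

variable (θ n) in
/-- The two operators preserve the relation. -/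
private def Rlc_op (E : AddMonoid.End ((ℕ → A) → A)) (E' : AddMonoid.End ((ℕ → N) → U)) : Prop :=
  ∀ (F : (ℕ → A) → A) (G : (ℕ → N) → U), Rlx θ n F G → Rlx θ n (E F) (E' G)

private theorem rlc_op_one : Rlc_op θ n 1 1 := fun _ _ h => h

private theorem rlc_op_add {E D : AddMonoid.End ((ℕ → A) → A)}
    {E' D' : AddMonoid.End ((ℕ → N) → U)} (h : Rlc_op θ n E E') (h' : Rlc_op θ n D D') :
    Rlc_op θ n (E + D) (E' + D') := fun F G hF => rlc_add (h F G hF) (h' F G hF)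

private theorem rlc_op_neg {E : AddMonoid.End ((ℕ → A) → A)}
    {E' : AddMonoid.End ((ℕ → N) → U)} (h : Rlc_op θ n E E') :
    Rlc_op θ n (-E) (-E') := fun F G hF => rlc_neg (h F G hF)

private theorem rlc_op_sub {E D : AddMonoid.End ((ℕ → A) → A)}
    {E' D' : AddMonoid.End ((ℕ → N) → U)} (h : Rlc_op θ n E E') (h' : Rlc_op θ n D D') :
    Rlc_op θ n (E - D) (E' - D') := by
  rw [sub_eq_add_neg, sub_eq_add_neg]
  exact rlc_op_add h (rlc_op_neg h')

private theorem rlc_op_mul {E D : AddMonoid.End ((ℕ → A) → A)}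
    {E' D' : AddMonoid.End ((ℕ → N) → U)} (h : Rlc_op θ n E E') (h' : Rlc_op θ n D D') :
    Rlc_op θ n (E * D) (E' * D') := fun F G hF => h _ _ (h' F G hF)

private theorem rlc_op_pc {τ : (ℕ → A) → (ℕ → A)} {τ' : (ℕ → N) → (ℕ → N)}
    (hτ : ∀ x k, θ (τ x k) = τ' (fun k => θ (x k)) k) :
    Rlc_op θ n (pc τ) (pc τ') := by
  intro F G h x
  obtain ⟨L, h1, h2, h3⟩ := h (τ x)
  refine ⟨L, h1, h2, ?_⟩
  rw [← h3]
  have h4 : (fun k => θ (τ x k)) = τ' (fun k => θ (x k)) := funext fun k => hτ x k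
  rw [h4]
  rfl

private theorem rlc_op_sbx (i j : ℕ) (a b : ℤ) :
    Rlc_op θ n (pc (sbx i j a b) : AddMonoid.End ((ℕ → A) → A))
      (pc (sbx i j a b) : AddMonoid.End ((ℕ → N) → U)) := by
  refine rlc_op_pc fun x k => ?_
  simp only [sbx]
  split_ifs
  · rw [map_add, map_zsmul, map_zsmul]
  · rfl

private theorem rlc_op_swx (i j : ℕ) :
    Rlc_op θ n (pc (swx i j) : AddMonoid.End ((ℕ → A) → A))
      (pc (swx i j) : AddMonoid.End ((ℕ → N) → U)) :=
  rlc_op_pc fun _ _ => rfl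

private theorem rlc_op_ddo (i j : ℕ) : Rlc_op θ n (Ddo A A i j) (Ddo N U i j) :=
  rlc_op_sub (rlc_op_neg (rlc_op_sub (rlc_op_sbx i j 1 1) (rlc_op_sbx i j 1 (-1))))
    (rlc_op_sbx i j 0 1)

private theorem rlc_op_qd (i i' j j' : ℕ) : Rlc_op θ n (Qd A A i i' j j') (Qd N U i i' j j') := by
  have hP : Rlc_op θ n ((1 + pc (swx i i')) * (1 - pc (swx j j')) : AddMonoid.End ((ℕ → A) → A))
      ((1 + pc (swx i i')) * (1 - pc (swx j j')) : AddMonoid.End ((ℕ → N) → U)) :=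
    rlc_op_mul (rlc_op_add rlc_op_one (rlc_op_swx i i')) (rlc_op_sub rlc_op_one (rlc_op_swx j j'))
  have hD : Rlc_op θ n (Ddo A A i j + Ddo A A i j' + Ddo A A i' j + Ddo A A i' j')
      (Ddo N U i j + Ddo N U i j' + Ddo N U i' j + Ddo N U i' j') :=
    rlc_op_add (rlc_op_add (rlc_op_add (rlc_op_ddo i j) (rlc_op_ddo i j')) (rlc_op_ddo i' j))
      (rlc_op_ddo i' j')
  exact rlc_op_sub hP (rlc_op_mul (rlc_op_sub hD (rlc_op_mul hD hD)) hP)

end

theorem thm_Rlc : St_Rlc := by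
  intro A _ U _ N θ n
  refine ⟨?_, fun F G h i i' j j' => rlc_op_qd i i' j j' F G h⟩
  intro w hw hn x
  refine ⟨[(1, w.map x)], ?_, ?_, ?_⟩
  · intro q hq
    rw [List.mem_singleton.1 hq]
    simpa using hn
  · simp [eA]
  · simp [mo, Function.comp_def]

end Pool.Agent.CRS
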