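import Pool.Agent.CRS.StB

/-! Module Sgn of the campaign CRS: signs of orderings of lists. -/

set_option autoImplicit false

namespace Pool.Agent.CRS

private theorem Sgn_one (l1 l2 : List ℕ) (i j : ℕ) (hij : i ≠ j) :
    sg (l1 ++ i :: j :: l2) = -sg (l1 ++ j :: i :: l2) := by
  induction l1 with
  | nil =>
    simp only [List.nil_append, sg]
    rcases lt_or_gt_of_ne hij with h | h
    · have h1 : ¬ j < i := by omega
      rw [List.filter_cons_of_neg (by simpa using h1), List.filter_cons_of_pos (by simpa using h),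
        List.length_cons, pow_succ]
      ring
    · have h1 : ¬ i < j := by omega
      rw [List.filter_cons_of_pos (by simpa using h), List.filter_cons_of_neg (by simpa using h1),
        List.length_cons, pow_succ]
      ring
  | cons k l ih =>
    simp only [List.cons_append, sg]
    have hp : ((l ++ i :: j :: l2).filter (· < k)).length
        = ((l ++ j :: i :: l2).filter (· < k)).length := by
      apply List.Perm.length_eq
      apply List.Perm.filter
      exact List.Perm.append_left l (List.Perm.swap j i l2)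
    rw [hp, ih]
    ring

private theorem Sgn_move (l1 l2 l3 : List ℕ) (a : ℕ) (ha : a ∉ l2) :
    sg (l1 ++ a :: (l2 ++ l3)) = (-1) ^ l2.length * sg (l1 ++ (l2 ++ a :: l3)) := by
  induction l2 generalizing l1 with
  | nil => simp
  | cons b l ih =>
    have hab : a ≠ b := fun h => ha (by rw [h]; exact List.mem_cons_self)
    have hal : a ∉ l := fun h => ha (List.mem_cons_of_mem _ h)
    rw [List.cons_append, Sgn_one l1 (l ++ l3) a b hab]
    have h2 := ih (l1 ++ [b]) hal
    simp only [List.append_assoc, List.singleton_append] at h2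
    rw [h2, List.length_cons, pow_succ, List.cons_append]
    ring

private theorem Sgn_swap3 (l1 l2 l3 : List ℕ) (i j : ℕ) (hij : i ≠ j) (hi : i ∉ l2) (hj : j ∉ l2) :
    sg (l1 ++ j :: (l2 ++ i :: l3)) = -sg (l1 ++ i :: (l2 ++ j :: l3)) := by
  have h1 := Sgn_move (l1 ++ [i]) l2 l3 j hj
  have h2 := Sgn_move (l1 ++ [j]) l2 l3 i hi
  simp only [List.append_assoc, List.singleton_append] at h1 h2
  have h3 := Sgn_one l1 (l2 ++ l3) i j hij
  rw [h1, h2] at h3
  have hsq : ((-1 : ℤ) ^ l2.length) * ((-1) ^ l2.length) = 1 := by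
    rw [← mul_pow]; simp
  have h4 : ((-1 : ℤ) ^ l2.length) * ((-1) ^ l2.length * sg (l1 ++ i :: (l2 ++ j :: l3)))
      = ((-1 : ℤ) ^ l2.length) * (-((-1) ^ l2.length * sg (l1 ++ j :: (l2 ++ i :: l3)))) := by
    rw [h3]
  rw [← mul_assoc, hsq, one_mul, mul_neg, ← mul_assoc, hsq, one_mul] at h4
  rw [h4]; ring

private theorem Sgn_mapid (l : List ℕ) (i j : ℕ) (hi : i ∉ l) (hj : j ∉ l) :
    l.map (Equiv.swap i j) = l := by
  conv_rhs => rw [← List.map_id l]
  apply List.map_congr_left
  intro a ha
  have h1 : a ≠ i := fun h => hi (h ▸ ha)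
  have h2 : a ≠ j := fun h => hj (h ▸ ha)
  rw [Equiv.swap_apply_of_ne_of_ne h1 h2]
  rfl

private theorem Sgn_two_aux (l1 l2 l3 : List ℕ) (i j : ℕ) (hn : (l1 ++ i :: (l2 ++ j :: l3)).Nodup) :
    sg ((l1 ++ i :: (l2 ++ j :: l3)).map (Equiv.swap i j)) = -sg (l1 ++ i :: (l2 ++ j :: l3)) := by
  rw [List.nodup_append] at hn
  obtain ⟨hn1, hn2, hd⟩ := hn
  rw [List.nodup_cons] at hn2
  obtain ⟨hi, hn3⟩ := hn2
  rw [List.nodup_append] at hn3
  obtain ⟨hn4, hn5, hd2⟩ := hn3
  rw [List.nodup_cons] at hn5
  obtain ⟨hj3, hn6⟩ := hn5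
  have hi2 : i ∉ l2 := fun h => hi (List.mem_append_left _ h)
  have hi3 : i ∉ l3 := fun h => hi (List.mem_append_right _ (List.mem_cons_of_mem _ h))
  have hij : i ≠ j := fun h => hi (List.mem_append_right _ (by rw [h]; exact List.mem_cons_self))
  have hj2 : j ∉ l2 := fun h => hd2 j h j List.mem_cons_self rfl
  have hi1 : i ∉ l1 := fun h => hd i h i List.mem_cons_self rfl
  have hj1 : j ∉ l1 := fun h => hd j h j
    (List.mem_cons_of_mem _ (List.mem_append_right _ List.mem_cons_self)) rfl
  rw [List.map_append, List.map_cons, List.map_append, List.map_cons, Sgn_mapid l1 i j hi1 hj1,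
    Sgn_mapid l2 i j hi2 hj2, Sgn_mapid l3 i j hi3 hj3, Equiv.swap_apply_left,
    Equiv.swap_apply_right]
  exact Sgn_swap3 l1 l2 l3 i j hij hi2 hj2

theorem thm_Sgn : St_Sgn := by
  refine ⟨Sgn_one, ?_, ?_, ?_⟩
  · intro L i j hn hij hi hj
    obtain ⟨l1, r, rfl⟩ := List.append_of_mem hi
    rcases List.mem_append.1 hj with h | h
    · obtain ⟨a, b, rfl⟩ := List.append_of_mem h
      have h1 := Sgn_two_aux a b r j i (by simpa [List.append_assoc] using hn)
      rw [Equiv.swap_comm j i] at h1
      simpa [List.append_assoc] using h1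
    · rcases List.mem_cons.1 h with h | h
      · exact absurd h.symm hij
      · obtain ⟨a, b, rfl⟩ := List.append_of_mem h
        exact Sgn_two_aux l1 a b i j hn
  · intro Y Z Z' hp
    induction Y with
    | nil => simp only [List.nil_append]; ring
    | cons y Y ih =>
      simp only [List.cons_append, sg]
      have hl : ((Y ++ Z).filter (· < y)).length = ((Y ++ Z').filter (· < y)).length := by
        apply List.Perm.length_eq
        apply List.Perm.filter
        exact List.Perm.append_left Y hp
      rw [hl, mul_assoc, ih, mul_assoc]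
  · intro L
    induction L with
    | nil => left; rfl
    | cons a l ih =>
      simp only [sg]
      rcases neg_one_pow_eq_or ℤ (l.filter (· < a)).length with h | h <;> rcases ih with h' | h' <;>
        rw [h, h'] <;> simp

end Pool.Agent.CRS
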