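import Pool.Agent.CRS.StY

/-!
# CRS.Spo: the odd and the even part are spanned by standard functions (MP_1bb14d_al)
-/

set_option autoImplicit false

namespace Pool.Agent.CRS

open Pool.Agent.CRR Pool.Agent.CRN Pool.Agent.CRK Pool.Agent.CRL Pool.Agent.CRM Pool.Agent.CRP
open Pool.Agent.CRQ

section

variable {U : Type} [Ring U] {N : NonUnitalSubring U}

private theorem Spo_br1 {S : List ℕ} (h : S.length = 1) : (br S : (ℕ → N) → U) = 0 := by
  obtain ⟨s, rfl⟩ := List.length_eq_one_iff.1 h
  funext x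
  rfl

/-- The step for permutations with an initial part. -/
private theorem Spo_perm (V : AddSubgroup ((ℕ → N) → U)) (d S : List ℕ)
    (h3 : ∀ (l1 l2 : List ℕ) (i j : ℕ), (l1 ++ i :: j :: l2 ++ S).Perm d →
      (mo (l1 ++ i :: j :: l2) * br S - mo (l1 ++ j :: i :: l2) * br S -
        mo (l1 ++ l2) * br (i :: j :: S) : (ℕ → N) → U) ∈ V)
    (h4 : ∀ (l : List ℕ) (i j : ℕ), (l ++ i :: j :: S).Perm d →
      (mo l * br (i :: j :: S) : (ℕ → N) → U) ∈ V) {l l' : List ℕ} (h : l.Perm l') :
    ∀ l0 : List ℕ, (l0 ++ l ++ S).Perm d →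
    (mo (l0 ++ l) * br S - mo (l0 ++ l') * br S : (ℕ → N) → U) ∈ V := by
  induction h with
  | nil =>
    intro l0 _
    rw [sub_self]
    exact V.zero_mem
  | cons a h ih =>
    intro l0 h0
    have := ih (l0 ++ [a]) (by simpa using h0)
    simpa using this
  | swap a b l =>
    intro l0 h0
    have h5 := h3 l0 l b a h0
    have h6 := h4 (l0 ++ l) b a (by
      refine List.Perm.trans ?_ h0
      rw [List.perm_iff_count]
      intro c
      simp only [List.count_append, List.count_cons]
      omega)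
    have h7 := V.add_mem h5 h6
    rwa [sub_add_cancel] at h7
  | trans h1 h2 ih1 ih2 =>
    intro l0 h0
    have h5 := ih2 l0 (((List.Perm.append_left l0 h1).append_right S).symm.trans h0)
    have h6 := V.add_mem (ih1 l0 h0) h5
    rwa [sub_add_sub_cancel] at h6

private theorem Spo_core (hJ : St_Jpr) (hD : St_Dwp) (hN : Nr N) (a b c p : ℕ)
    (V : AddSubgroup ((ℕ → N) → U))
    (h3 : ∀ (l1 l2 S : List ℕ) (i j : ℕ), (l1 ++ i :: j :: l2 ++ S).Perm (dW a b c) → S.length ≠ 1 →
      S.length % 2 = p → (mo (l1 ++ i :: j :: l2) * br S - mo (l1 ++ j :: i :: l2) * br S -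
        mo (l1 ++ l2) * br (i :: j :: S) : (ℕ → N) → U) ∈ V)
    (hv : ∀ S : List ℕ, S.Nodup → (∀ k ∈ S, k < a + b + c) → (∀ k, k < a → k ∈ S) →
      S.length % 2 = p → vf N (dW a b c) S ∈ V) :
    ∀ (n : ℕ) (l S : List ℕ), (l ++ S).Perm (dW a b c) → S.length % 2 = p →
      a + b + c + 1 ≤ S.length + n → (mo l * br S : (ℕ → N) → U) ∈ V := by
  obtain ⟨⟨_, _, _, _, _, _, hd7, _, hd9⟩, _, hd3, hd4, _, _⟩ := hD a b c
  have hJ7 := (hJ U N hN (dW a b c) 0).2.2.2.2.2.2
  intro n
  induction n with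
  | zero =>
    intro l S h hp hn
    have hnd : ¬ S.Nodup := by
      intro hnd
      have h1 : S.toFinset ⊆ (dW a b c).toFinset := by
        intro k hk
        rw [List.mem_toFinset] at hk ⊢
        exact h.subset (List.mem_append_right l hk)
      have h2 := Finset.card_le_card h1
      rw [hd9, List.toFinset_card_of_nodup hnd] at h2
      omega
    rw [hJ7 S hnd, mul_zero]
    exact V.zero_mem
  | succ n ih =>
    intro l S h hp hn
    by_cases hnd : S.Nodup
    swap
    · rw [hJ7 S hnd, mul_zero]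
      exact V.zero_mem
    by_cases h1 : S.length = 1
    · rw [Spo_br1 h1, mul_zero]
      exact V.zero_mem
    have h4 : ∀ (l : List ℕ) (i j : ℕ), (l ++ i :: j :: S).Perm (dW a b c) →
        (mo l * br (i :: j :: S) : (ℕ → N) → U) ∈ V := by
      intro l i j hl
      refine ih l (i :: j :: S) hl ?_ ?_
      · simp only [List.length_cons]
        omega
      · simp only [List.length_cons]
        omega
    have hP : ∀ l' : List ℕ, l.Perm l' → (mo l * br S - mo l' * br S : (ℕ → N) → U) ∈ V := by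
      intro l' hl
      exact Spo_perm V (dW a b c) S (fun l1 l2 i j hh => h3 l1 l2 S i j hh h1 hp) h4 hl [] h
    have hS : ∀ k ∈ S, k < a + b + c := fun k hk => (hd7 k).1 (h.subset (List.mem_append_right l hk))
    by_cases hA : ∀ k, k < a → k ∈ S
    · have h5 : l.Perm ((dW a b c).diff S) :=
        (List.perm_append_right_iff S).1 (h.trans (hd3 S hnd hS).symm)
      have h6 := V.add_mem (hP _ h5) (hv S hnd hS hA hp)
      unfold vf at h6
      rwa [sub_add_cancel] at h6
    · push Not at hA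
      obtain ⟨i, hi, hiS⟩ := hA
      obtain ⟨l', hl'⟩ := (List.replicate_sublist_iff.2 (hd4 l S h i hi hiS)).exists_perm_append
      have h2 := hP _ hl'
      have h5 : (mo (List.replicate 3 i ++ l') : (ℕ → N) → U) = 0 := by
        funext x
        have h4 := hN.cube (x i : U) (x i).2
        have e : (mo (List.replicate 3 i ++ l') x : U) = (x i : U) * (x i : U) * (x i : U) * mo l' x := by
          simp [mo, List.replicate, mul_assoc]
        rw [e, h4, zero_mul]
        rfl
      rwa [h5, zero_mul, sub_zero] at h2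

end

theorem thm_Spo (hP : St_Ple) (hJ : St_Jpr) (hD : St_Dwp) : St_Spo := by
  intro U _ N hN a b c
  have h1 : Jo N (dW a b c) ≤ AddSubgroup.closure {F : (ℕ → N) → U | ∃ S : List ℕ, S.Nodup ∧
      (∀ k ∈ S, k < a + b + c) ∧
      (∀ k, k < a → k ∈ S) ∧ S.length % 2 = 1 ∧ F = vf N (dW a b c) S} := by
    unfold Jo
    rw [AddSubgroup.closure_le]
    rintro F ⟨l, S, hl, hS, rfl⟩
    refine Spo_core hJ hD hN a b c 1 _ ?_ ?_ (a + b + c + 1) l S hl hS (by omega)
    · intro l1 l2 S i j h hne hp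
      rw [((hP U N hN (dW a b c) l1 [] l2 S i j).2.2 h hne).1 hp]
      have e : (mo (l1 ++ j :: i :: l2) * br S + mo (l1 ++ l2) * br (i :: j :: S) -
        mo (l1 ++ j :: i :: l2) * br S - mo (l1 ++ l2) * br (i :: j :: S) : (ℕ → N) → U) = 0 := by abel
      rw [e]
      exact AddSubgroup.zero_mem _
    · intro S hn hk hA hp
      exact AddSubgroup.subset_closure ⟨S, hn, hk, hA, hp, rfl⟩
  refine ⟨h1, ?_⟩
  intro l S hl
  rcases Nat.mod_two_eq_zero_or_one S.length with hS | hS
  · refine Spo_core hJ hD hN a b c 0 _ ?_ ?_ (a + b + c + 1) l S hl hS (by omega)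
    · intro l1 l2 S i j h hne hp
      exact AddSubgroup.mem_sup_right (((hP U N hN (dW a b c) l1 [] l2 S i j).2.2 h hne).2 hp)
    · intro S hn hk hA hp
      exact AddSubgroup.mem_sup_left (AddSubgroup.subset_closure ⟨S, hn, hk, hA, hp, rfl⟩)
  · refine AddSubgroup.mem_sup_right (AddSubgroup.subset_closure ?_)
    exact ⟨l, S, hl, hS, rfl⟩

end Pool.Agent.CRS
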