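import Pool.Agent.CRS.StB

/-!
# CRS.Swp: letters commute modulo the next step (MP_1bb14d_al)
-/

set_option autoImplicit false

namespace Pool.Agent.CRS

open Pool.Agent.CRR Pool.Agent.CRN Pool.Agent.CRK Pool.Agent.CRL Pool.Agent.CRM Pool.Agent.CRP
open Pool.Agent.CRQ

section

variable {U : Type} [Ring U] {N : NonUnitalSubring U}

/-- The commutator of two letters. -/
private def Swp_c (N : NonUnitalSubring U) (i j : ℕ) : (ℕ → N) → U := fun x => cm (x i : U) (x j : U)

private theorem Swp_mono (d : List ℕ) {k k' : ℕ} (h : k ≤ k') : Jf N d k' ≤ Jf N d k := by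
  unfold Jf
  refine AddSubgroup.closure_mono ?_
  rintro F ⟨l, S, h1, h2, h3⟩
  exact ⟨l, S, h1, h.trans h2, h3⟩

private theorem Swp_gen {d l S : List ℕ} {k : ℕ} (h : (l ++ S).Perm d) (hk : k ≤ S.length) :
    (mo l * br S : (ℕ → N) → U) ∈ Jf N d k :=
  AddSubgroup.subset_closure ⟨l, S, h, hk, rfl⟩

private theorem Swp_mo (l l' : List ℕ) : (mo (l ++ l') : (ℕ → N) → U) = mo l * mo l' := by
  funext x
  simp [mo]

private theorem Swp_brv (x y : U) (l : List U) (h : l.length ≠ 1) :
    brv (x :: y :: l) = cm x y * brv l := by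
  match l, h with
  | [], _ => rfl
  | [z], h => exact absurd rfl h
  | z :: w :: l, _ => rfl

private theorem Swp_a (hB : St_Bra) (hN : Nr N) (d S : List ℕ) (i j : ℕ) : ∀ l2 l1 : List ℕ,
    (l1 ++ l2 ++ [i, j] ++ S).Perm d →
    (mo l1 * Swp_c N i j * mo l2 * br S : (ℕ → N) → U) ∈ Jf N d (S.length + 2)
  | [], l1, h => by
    have e0 : (mo l1 * Swp_c N i j * mo [] * br S : (ℕ → N) → U) = mo l1 * (Swp_c N i j * br S) := by
      have : (mo [] : (ℕ → N) → U) = 1 := by funext x; simp [mo]
      rw [this, mul_one, mul_assoc]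
    rw [e0]
    by_cases hS : S.length = 1
    · obtain ⟨s, rfl⟩ := List.length_eq_one_iff.1 hS
      have : (br [s] : (ℕ → N) → U) = 0 := by funext x; rfl
      rw [this, mul_zero, mul_zero]
      exact (Jf N d _).zero_mem
    · have e1 : (Swp_c N i j * br S : (ℕ → N) → U) = br (i :: j :: S) := by
        funext x
        show cm (x i : U) (x j : U) * brv (S.map fun i => (x i : U)) = brv ((i :: j :: S).map fun i => (x i : U))
        rw [List.map_cons, List.map_cons, Swp_brv]
        rwa [List.length_map]
      rw [e1]
      refine Swp_gen ?_ (by simp)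
      simpa using h
  | k :: l, l1, h => by
    have e1 : (mo l1 * Swp_c N i j * mo (k :: l) * br S : (ℕ → N) → U) =
        mo (l1 ++ [k]) * Swp_c N i j * mo l * br S +
          mo (l1 ++ l) * (fun x => cm (cm (x i : U) (x j : U)) (x k : U) * br S x) := by
      funext x
      have h3 := (hB U N hN).2.2.1 (l.map fun i => (x i : U)) (by
        intro y hy
        obtain ⟨t, _, rfl⟩ := List.mem_map.1 hy
        exact (x t).2) (x i : U) (x i).2 (x j : U) (x j).2 (x k : U) (x k).2
      have e2 : (mo (k :: l) x : U) = (x k : U) * mo l x := by simp [mo]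
      have e3 : (mo (l1 ++ [k]) x : U) = mo l1 x * (x k : U) := by simp [mo]
      have e4 : (mo (l1 ++ l) x : U) = mo l1 x * mo l x := by simp [mo]
      show mo l1 x * cm (x i : U) (x j : U) * mo (k :: l) x * br S x =
        mo (l1 ++ [k]) x * cm (x i : U) (x j : U) * mo l x * br S x +
          mo (l1 ++ l) x * (cm (cm (x i : U) (x j : U)) (x k : U) * br S x)
      rw [e2, e3, e4]
      have h4 : mo l x * cm (cm (x i : U) (x j : U)) (x k : U) =
        cm (cm (x i : U) (x j : U)) (x k : U) * mo l x := h3
      have h5 : mo l1 x * mo l x * (cm (cm (x i : U) (x j : U)) (x k : U) * br S x) =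
          mo l1 x * (mo l x * cm (cm (x i : U) (x j : U)) (x k : U)) * br S x := by
        simp only [mul_assoc]
      rw [h5, h4]
      generalize cm (x i : U) (x j : U) = c
      unfold cm
      noncomm_ring
    rw [e1]
    refine (Jf N d _).add_mem ?_ ?_
    · refine Swp_a hB hN d S i j l (l1 ++ [k]) ?_
      refine List.Perm.trans (List.Perm.of_eq ?_) h
      simp
    · rcases Nat.mod_two_eq_zero_or_one S.length with hS | hS
      · have e5 : (fun x : ℕ → N => cm (cm (x i : U) (x j : U)) (x k : U) * br S x) =
            br (S ++ [i, j, k]) := by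
          funext x
          have h4 := ((hB U N hN).2.2.2.1 (S.map fun i => (x i : U)) (by
            intro y hy
            obtain ⟨t, _, rfl⟩ := List.mem_map.1 hy
            exact (x t).2) (x i : U) (x i).2 (x j : U) (x j).2 (x k : U) (x k).2).1
            (by rw [List.length_map]; exact hS)
          show cm (cm (x i : U) (x j : U)) (x k : U) * brv (S.map fun i => (x i : U)) =
            brv ((S ++ [i, j, k]).map fun i => (x i : U))
          rw [h4]
          simp
        rw [e5]
        refine Swp_gen ?_ (by simp)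
        refine List.Perm.trans ?_ h
        rw [List.perm_iff_count]
        intro a
        simp only [List.count_append, List.count_cons, List.count_nil]
        omega
      · have e5 : (fun x : ℕ → N => cm (cm (x i : U) (x j : U)) (x k : U) * br S x) = 0 := by
          funext x
          exact ((hB U N hN).2.2.2.1 (S.map fun i => (x i : U)) (by
            intro y hy
            obtain ⟨t, _, rfl⟩ := List.mem_map.1 hy
            exact (x t).2) (x i : U) (x i).2 (x j : U) (x j).2 (x k : U) (x k).2).2
            (by rw [List.length_map]; exact hS)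
        rw [e5, mul_zero]
        exact (Jf N d _).zero_mem

private theorem Swp_p (hB : St_Bra) (hN : Nr N) (d S : List ℕ) {l l' : List ℕ} (h : l.Perm l') :
    ∀ l0 : List ℕ, (l0 ++ l ++ S).Perm d →
    (mo (l0 ++ l) * br S - mo (l0 ++ l') * br S : (ℕ → N) → U) ∈ Jf N d (S.length + 1) := by
  induction h with
  | nil =>
    intro l0 _
    rw [sub_self]
    exact (Jf N d _).zero_mem
  | cons a h ih =>
    intro l0 h0
    have := ih (l0 ++ [a]) (by simpa using h0)
    simpa using this
  | swap a b l =>
    intro l0 h0
    have h1 := Swp_a hB hN d S b a l l0 (by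
      refine List.Perm.trans ?_ h0
      rw [List.perm_iff_count]
      intro c
      simp only [List.count_append, List.count_cons, List.count_nil]
      omega)
    refine Swp_mono d (k := S.length + 1) (k' := S.length + 2) (by omega) ?_
    have e1 : (mo (l0 ++ b :: a :: l) * br S - mo (l0 ++ a :: b :: l) * br S : (ℕ → N) → U) =
        mo l0 * Swp_c N b a * mo l * br S := by
      funext x
      have e2 : ∀ s t : ℕ, (mo (l0 ++ s :: t :: l) x : U) = mo l0 x * ((x s : U) * ((x t : U) * mo l x)) := by
        intro s t
        simp [mo]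
      show mo (l0 ++ b :: a :: l) x * br S x - mo (l0 ++ a :: b :: l) x * br S x =
        mo l0 x * cm (x b : U) (x a : U) * mo l x * br S x
      rw [e2, e2]
      unfold cm
      noncomm_ring
    rw [e1]
    exact h1
  | trans h1 h2 ih1 ih2 =>
    intro l0 h0
    have h3 := ih2 l0 (((List.Perm.append_left l0 h1).append_right S).symm.trans h0)
    have h4 := (Jf N d _).add_mem (ih1 l0 h0) h3
    rwa [sub_add_sub_cancel] at h4

end

theorem thm_Swp (hB : St_Bra) : St_Swp := by
  intro U _ N hN d l S h
  have h1 : ∀ l' : List ℕ, l.Perm l' →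
      (mo l * br S - mo l' * br S : (ℕ → N) → U) ∈ Jf N d (S.length + 1) := by
    intro l' hl
    exact Swp_p hB hN d S hl [] h
  refine ⟨h1, ?_⟩
  intro i hi
  obtain ⟨l', hl'⟩ := (List.replicate_sublist_iff.2 hi).exists_perm_append
  have h2 := h1 _ hl'
  have h3 : (mo (List.replicate 3 i ++ l') : (ℕ → N) → U) = 0 := by
    funext x
    have h4 := hN.cube (x i : U) (x i).2
    have e : (mo (List.replicate 3 i ++ l') x : U) = (x i : U) * (x i : U) * (x i : U) * mo l' x := by
      simp [mo, List.replicate, mul_assoc]
    rw [e, h4, zero_mul]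
    rfl
  rwa [h3, zero_mul, sub_zero] at h2

end Pool.Agent.CRS
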