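import Pool.Agent.CRS.StB

/-!
# CRS, Tfx: symmetrisation is the identity on symmetric elements
-/

set_option autoImplicit false

namespace Pool.Agent.CRS

private theorem Tfx_sum {M : Type} [AddCommGroup M] (s : ℕ → ℕ → AddMonoid.End M) (i : ℕ) (m : M)
    (l : List ℕ) (h : ∀ j ∈ l, s i j m = m) : ((l.map (s i)).sum) m = (l.length : ℤ) • m := by
  induction l with
  | nil =>
    rw [List.map_nil, List.sum_nil, List.length_nil]
    have h1 : (0 : AddMonoid.End M) m = 0 := rfl
    rw [h1, Nat.cast_zero, zero_smul]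
  | cons j l ih =>
    rw [List.map_cons, List.sum_cons, List.length_cons]
    have h1 : (s i j + (l.map (s i)).sum) m = s i j m + (l.map (s i)).sum m := rfl
    rw [h1, h j (by simp), ih (fun k hk => h k (by simp [hk]))]
    push_cast
    rw [add_smul, one_smul, add_comm]

private theorem Tfx_mod {M : Type} [AddCommGroup M] (m : M) (h3 : (3 : ℤ) • m = 0) (n : ℕ) :
    (n : ℤ) • m = ((n % 3 : ℕ) : ℤ) • m := by
  have h1 : (n : ℤ) = ((n / 3 : ℕ) : ℤ) * 3 + ((n % 3 : ℕ) : ℤ) := by
    have h2 := Nat.div_add_mod n 3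
    push_cast
    omega
  rw [h1, add_smul, mul_smul, h3, smul_zero, zero_add]

private theorem Tfx_two {M : Type} [AddCommGroup M] (m : M) (h3 : (3 : ℤ) • m = 0) :
    -(m + m) = m := by
  have h1 : (3 : ℤ) • m = m + m + m := by
    have e : (3 : ℤ) = 1 + 1 + 1 := by norm_num
    rw [e, add_smul, add_smul, one_smul]
  rw [h1] at h3
  exact neg_eq_of_add_eq_zero_right h3

private theorem Tfx_step {M : Type} [AddCommGroup M] (s : ℕ → ℕ → AddMonoid.End M) (i : ℕ)
    (l : List ℕ) (m : M) (h3 : (3 : ℤ) • m = 0) (h : ∀ j ∈ l, s i j m = m) : Xo s i l m = m := by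
  have hs := Tfx_sum s i m l h
  rw [Tfx_mod m h3] at hs
  unfold Xo
  split_ifs with h1 h2
  · rfl
  · rw [h2, Nat.cast_one, one_smul] at hs
    show -(m + (l.map (s i)).sum m) = m
    rw [hs, Tfx_two m h3]
  · have h4 : l.length % 3 = 0 := by
      have := Nat.mod_lt l.length (show 0 < 3 by norm_num)
      by_contra h5
      exact h1 (Or.inl (by omega))
    rw [h4, Nat.cast_zero, zero_smul] at hs
    have h5 : s i (l.headD 0) m = m := by
      rcases l with _ | ⟨j, l⟩
      · exact absurd (Or.inr rfl) h1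
      · exact h j (by simp)
    show -(m + s i (l.headD 0) m) + ((l.map (s i)).sum (-(m + s i (l.headD 0) m)) +
      s i (l.headD 0) ((l.map (s i)).sum (-(m + s i (l.headD 0) m)))) = m
    rw [h5, Tfx_two m h3, hs, map_zero, add_zero, add_zero]

theorem thm_Tfx : St_Tfx := by
  intro M _ s B m hn h3 h
  induction B with
  | nil => rfl
  | cons i l ih =>
    rw [List.nodup_cons] at hn
    show Xo s i l (To s l m) = m
    rw [ih hn.2 (fun a ha b hb => h a (by simp [ha]) b (by simp [hb]))]
    refine Tfx_step s i l m h3 fun j hj => h i (by simp) j (by simp [hj]) ?_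
    rintro rfl
    exact hn.1 hj

end Pool.Agent.CRS
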