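import Pool.Agent.CRS.DefsB

/-!
Campaign CRS, p = 3: the explicit list (problem MP_1bb14d_al, stage 7).  Statements of the modules.

Plan.  (1) In a ring with `x^3 = 0` and `3 x = 0` the commutators satisfy `[[x,y],y] = 0`, triple commutators are central, and
the brackets `br S` (products of commutators, a triple commutator at the end if the length is odd) are alternating in all
letters.  (2) `Jf d k` is the group of functions generated by the functions `mo l * br S` with `l ++ S` a rearrangement of `d`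
and `|S| ≥ k`.  Modulo `Jf d (k + 1)` the letters of `l` commute and a letter which occurs three times in `l` gives zero.
(3) Symmetrisation `To s B` is a product of sums of transpositions which is the identity on symmetric functions, and which maps an
alternating family of functions into the span of few functions (`St_Alx`, `St_Alc`).  (4) So `P = To .. B * To .. C` maps `Jf d k`
into the span of the `wW` of level `k` and `Jf d (k + 1)`; hence `P^(g+1)` maps every word into the span of the table.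
(5) A ring with `x^3 = 0` in which products of 6 elements are killed by 3 is replaced by a ring with `x^3 = 0`, `3 x = 0` without losing
words of length `≥ 6` (`St_Res`).

Every `St_X` is a statement with its proof in the docstring.  A module proves `thm_X : St_Y → ... → St_X` with the hypotheses
which are named in the docstring (drop unused ones).
-/

set_option autoImplicit false

namespace Pool.Agent.CRS

open Pool.Agent.CRR Pool.Agent.CRN Pool.Agent.CRK Pool.Agent.CRL Pool.Agent.CRM Pool.Agent.CRP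
open Pool.Agent.CRQ

/-! ### 1. Identities in rings with `x^3 = 0`, `3 x = 0` -/

/-- The elements `x` of `N` satisfy `x^3 = 0` and `3 x = 0`. -/
structure Nr {U : Type} [Ring U] (N : NonUnitalSubring U) : Prop where
  cube : ∀ x ∈ N, x * x * x = 0
  tor : ∀ x ∈ N, (3 : ℤ) • x = 0

/-- The commutator. -/
def cm {U : Type} [Ring U] (x y : U) : U := x * y - y * x

/-- `[x_1,x_2][x_3,x_4]...`, with a triple commutator at the end if the length is odd. -/
def brv {U : Type} [Ring U] : List U → U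
  | [] => 1
  | [_] => 0
  | [x, y, z] => cm (cm x y) z
  | x :: y :: l => cm x y * brv l

/-- [Fid] Mathlib only. PROOF. `(x+y)^3 - x^3 - y^3 = 0` and the same for `-y` give (2 is invertible, as `4 x = x`) `x y y + y x y + y y x = 0`; so
`[[x,y],y] = x y y - 2 y x y + y y x = -3 y x y = 0` (1). Linearised in `y`: (2) `[[x,y],z] = -[[x,z],y]`; with `[x,y] = -[y,x]` the triple commutator `[[x,y],z]` is alternating in all arguments
(of `N`). (3) `[[[x,y],z],w] = 0`: put `c = [x,y]`; by (2) `[[c,z],w]` is antisymmetric in `z, w`, so `D = [[[x,y],z],w]` is antisymmetric under the exchange of any two neighbours of `x, y, z, w`, and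
`[[x,y],[z,w]] = D(x,y,z,w) - D(x,y,w,z) = 2 D` (Jacobi), also `[[x,y],[z,w]] = -[[z,w],[x,y]] = -2 D(z,w,x,y) = -2 D(x,y,z,w)` (an even permutation), so `4 D = 0`, `D = 0`. (4) `[x,y][w,y] = 0`: `0 = [[x w,y],y] =
[x [w,y] + [x,y] w, y] = x [[w,y],y] + 2 [x,y][w,y] + [[x,y],y] w = 2 [x,y][w,y]`. (5) `[x,y] u [w,y] = 0`: `0 = [x,y][u w,y] = [x,y] u [w,y] + [x,y][u,y] w`. (6) `[[x,y],z] [[u,v],w] = 0`: with `c = [x,y]`,
`c' = [u,v]` it is `[c,z][c',w]`, by (4) linearised (and `[z,c] = -[c,z]`) `= -[c,c'][z,w]` and `[c,c'] = 0` as a sum of quadruple commutators (see (3)). -/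
def St_Fid : Prop := ∀ (U : Type) [Ring U] (N : NonUnitalSubring U), Nr N →
  (∀ x ∈ N, ∀ y ∈ N, cm (cm x y) y = 0) ∧
  (∀ x ∈ N, ∀ y ∈ N, ∀ z ∈ N, cm (cm x y) z = -cm (cm x z) y ∧ cm (cm x y) z = -cm (cm y x) z) ∧
  (∀ x ∈ N, ∀ y ∈ N, ∀ z ∈ N, ∀ w ∈ N, cm (cm (cm x y) z) w = 0) ∧
  (∀ x ∈ N, ∀ y ∈ N, ∀ z ∈ N, ∀ w ∈ N, cm x y * cm z w = -(cm x z * cm y w)) ∧
  (∀ x ∈ N, ∀ y ∈ N, ∀ z ∈ N, ∀ u ∈ N, ∀ v ∈ N, ∀ w ∈ N, cm (cm x y) z * cm (cm u v) w = 0)

/-- [Bra] Uses Fid. PROOF. (1) Strong induction on `l1`, with the equations of `brv` (`brv (x :: y :: l) = cm x y * brv l` if `l.length ≠ 1`). `l1 = []`: `cm a b = -cm b a` (the three cases of the length). `l1 = [x]`: for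
`l2 = []` this is the second identity of Fid; for `l2 = [c]` the fourth; for `l2 = [c, e]` the fourth with the element `cm b c` of `N`: `cm x a * cm (cm b c) e`, where `cm (cm b c) e = cm (cm c e) b = - cm b (cm c e)` (Fid, 2), so
it is `- cm x a * cm b (cm c e) = cm x b * cm a (cm c e) = ...`; for `l2.length ≥ 3` the fourth again (`brv` of the list is `cm x a * (cm b c * brv rest)`). `l1 = x :: y :: l1'`: `cm x y *` the induction hypothesis (the rest has at least two elements, so its length is not 1).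
(2) By (1) it can be moved to the front, there `cm a a = 0`. (3) central: for `z` in `N` by the third identity of Fid; for a product of elements of `N` and `1` too. (4) induction on `S` by two elements: `S = []` clear, `S = [x]` excluded
in the even case and 0 in the odd case; `S = [x,y,z]`: the last identity of Fid; `S = x :: y :: l`: `cm x y * (brv l * c)`. (5) `brv S` is 0, 1, or in `N`. -/
def St_Bra : Prop := ∀ (U : Type) [Ring U] (N : NonUnitalSubring U), Nr N →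
  (∀ (l1 l2 : List U) (a b : U), (∀ x ∈ l1 ++ a :: b :: l2, x ∈ N) →
    brv (l1 ++ a :: b :: l2) = -brv (l1 ++ b :: a :: l2)) ∧
  (∀ (l1 l2 l3 : List U) (a : U), (∀ x ∈ l1 ++ a :: l2 ++ a :: l3, x ∈ N) → brv (l1 ++ a :: l2 ++ a :: l3) = 0) ∧
  (∀ (l : List U), (∀ x ∈ l, x ∈ N) → ∀ x ∈ N, ∀ y ∈ N, ∀ z ∈ N,
    l.prod * cm (cm x y) z = cm (cm x y) z * l.prod) ∧
  (∀ (S : List U), (∀ x ∈ S, x ∈ N) → ∀ x ∈ N, ∀ y ∈ N, ∀ z ∈ N,
    (S.length % 2 = 0 → cm (cm x y) z * brv S = brv (S ++ [x, y, z])) ∧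
    (S.length % 2 = 1 → cm (cm x y) z * brv S = 0)) ∧
  (∀ S : List U, (∀ x ∈ S, x ∈ N) → S ≠ [] → brv S ∈ N)

/-! ### 2. Functions -/

section functions

variable {U : Type} [Ring U] {N : NonUnitalSubring U}

/-- The monomial of `l`. -/
def mo (l : List ℕ) (x : ℕ → N) : U := (l.map fun i => (x i : U)).prod

/-- The bracket of `S`. -/
def br (S : List ℕ) (x : ℕ → N) : U := brv (S.map fun i => (x i : U))

variable (N) in
/-- The group generated by the functions `mo l * br S`, `l ++ S` a rearrangement of `d`, `|S| ≥ k`. -/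
def Jf (d : List ℕ) (k : ℕ) : AddSubgroup ((ℕ → N) → U) :=
  AddSubgroup.closure {F | ∃ l S : List ℕ, (l ++ S).Perm d ∧ k ≤ S.length ∧ F = mo l * br S}

/-- Exchange of `i` and `j` in the arguments, with the sign `ε`, if `i` and `j` are in `B` (and 0 otherwise). -/
def sf {X G : Type} [AddCommGroup G] (ε : ℤ) (B : List ℕ) (i j : ℕ) : AddMonoid.End ((ℕ → X) → G) where
  toFun F := if i ∈ B ∧ j ∈ B then fun x => ε • F (fun k => x (Equiv.swap i j k)) else 0
  map_zero' := by split_ifs <;> ext <;> simp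
  map_add' F G := by split_ifs <;> ext <;> simp

variable (N) in
/-- `x_i` for the letters of `d` not in `S`, followed by the bracket of `S`. -/
def vf (d S : List ℕ) : (ℕ → N) → U := mo (d.diff S) * br S

end functions

/-- [Jpr] (small facts on `Jf`) Uses Bra. PROOF. (1) clear. (2) `br [] = 1`, so `mo w = mo w * br []`. (3) A generator is a product of at least one element of `N` (`br S` is 1 if `S = []`, and in `N` otherwise, Bra 5), and `3 x = 0` in `N`. (4) For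
`F = mo l * br S` the function `F (x ∘ swap)` is `mo (l.map swap) * br (S.map swap)`, and `(l ++ S).map swap` is a rearrangement of `d.map swap`, so of `d`. (5) If `S` is nodup then `S ⊆ d` gives `|S| ≤ d.toFinset.card < k`; so for the generators
`S` is not nodup and `br S = 0` by (7). (6) From Bra 1 by induction on the permutation, with a prefix: for all `S0`, `br (S0 ++ S) = ± br (S0 ++ S')`. (7) Bra 2: `S = l1 ++ i :: l2 ++ i :: l3`. -/
def St_Jpr : Prop := ∀ (U : Type) [Ring U] (N : NonUnitalSubring U), Nr N → ∀ (d : List ℕ) (k : ℕ),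
  (Jf N d (k + 1) ≤ Jf N d k) ∧
  (∀ w : List ℕ, w.Perm d → mo w ∈ Jf N d 0) ∧
  (d ≠ [] → ∀ F ∈ Jf N d k, (3 : ℤ) • F = 0) ∧
  (∀ i j : ℕ, (d.map (Equiv.swap i j)).Perm d → ∀ F ∈ Jf N d k,
    (fun x : ℕ → N => F (fun t => x (Equiv.swap i j t))) ∈ Jf N d k) ∧
  (d.toFinset.card < k → Jf N d k = ⊥) ∧
  (∀ S S' : List ℕ, S.Perm S' → (br S : (ℕ → N) → U) = br S' ∨ (br S : (ℕ → N) → U) = -br S') ∧
  (∀ S : List ℕ, ¬ S.Nodup → (br S : (ℕ → N) → U) = 0)

/-- [Swp] Uses Bra. PROOF. First claim: if `(l1 ++ l2 ++ [i, j] ++ S).Perm d` then `mo l1 * cm x_i x_j * mo l2 * br S` is in `Jf d (|S| + 2)`; induction on `l2` for all `l1`. `l2 = []`: `cm x_i x_j * br S = br (i :: j :: S)` if `|S| ≠ 1`, and `br S = 0` if `|S| = 1`. `l2 = k :: l`: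
`cm x_i x_j * x_k = x_k * cm x_i x_j + cm (cm x_i x_j) x_k`; the first term is the claim for `l1 ++ [k]`, `l`; in the second one the triple commutator is central (Bra 3), it is moved to the right, and `cm (cm x_i x_j) x_k * br S` is
`br (S ++ [i, j, k])` or 0 (Bra 4); the length `|S| + 3` is `≥ |S| + 2`. Then (1) by induction on `l ~ l'` for all prefixes: for `(l0 ++ l ++ S).Perm d` the difference `mo (l0 ++ l) * br S - mo (l0 ++ l') * br S` is in `Jf d (|S| + 1)` (for the exchange of two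
neighbours by the first claim; transitivity: add). (2) `l ~ i :: i :: i :: l'` (count), `mo (i :: i :: i :: l') = 0` by `x_i^3 = 0`; use (1). -/
def St_Swp : Prop := ∀ (U : Type) [Ring U] (N : NonUnitalSubring U), Nr N → ∀ (d l S : List ℕ), (l ++ S).Perm d →
  (∀ l' : List ℕ, l.Perm l' → (mo l * br S - mo l' * br S : (ℕ → N) → U) ∈ Jf N d (S.length + 1)) ∧
  (∀ i : ℕ, 3 ≤ l.count i → (mo l * br S : (ℕ → N) → U) ∈ Jf N d (S.length + 1))

/-! ### 3. Symmetrisation of alternating families -/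

section ops

variable {M : Type} [AddCommGroup M]

/-- One step. -/
def Xo (s : ℕ → ℕ → AddMonoid.End M) (i : ℕ) (l : List ℕ) : AddMonoid.End M :=
  if l.length % 3 = 2 ∨ l = [] then 1
  else if l.length % 3 = 1 then -(1 + (l.map (s i)).sum)
  else (1 + (1 + s i (l.headD 0)) * (l.map (s i)).sum) * (-(1 + s i (l.headD 0)))

/-- The symmetrisation. -/
def To (s : ℕ → ℕ → AddMonoid.End M) : List ℕ → AddMonoid.End M
  | [] => 1
  | i :: l => Xo s i l * To s l

/-- The span of the sums of the types. -/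
def Spn (φ : List ℕ → M) (B : List ℕ) : AddSubgroup M :=
  AddSubgroup.closure {m | ∃ t ∈ yt B, m = (t.2.map φ).sum}

/-- The family `φ` is alternating and killed by 3, and the `s i j` act on it by exchanging letters, for the letters in `B`. -/
structure Fam3 (s : ℕ → ℕ → AddMonoid.End M) (B : List ℕ) (φ : List ℕ → M) : Prop where
  alt : ∀ l1 l2 : List ℕ, ∀ i ∈ B, ∀ j ∈ B, (∀ k ∈ l1 ++ l2, k ∈ B) → φ (l1 ++ i :: j :: l2) = -φ (l1 ++ j :: i :: l2)
  tor : ∀ l : List ℕ, (∀ k ∈ l, k ∈ B) → (3 : ℤ) • φ l = 0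
  act : ∀ i ∈ B, ∀ j ∈ B, i ≠ j → ∀ l : List ℕ, (∀ k ∈ l, k ∈ B) → s i j (φ l) = φ (l.map (Equiv.swap i j))

end ops

/-- [Tfx] Mathlib only. PROOF. Induction on `B` (the property holds for the tail). One step: `n - 1 = l.length`; if it is `2` modulo 3 or `0` nothing happens; if it is 1 modulo 3: `-(m + (n-1) m) = -(2 m) = m`; if it is 0 modulo 3 and `l ≠ []`:
`v = -(2 m) = m`, `(n - 1) v = 0`, the result is `m`. -/
def St_Tfx : Prop := ∀ (M : Type) [AddCommGroup M] (s : ℕ → ℕ → AddMonoid.End M) (B : List ℕ) (m : M),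
  B.Nodup → (3 : ℤ) • m = 0 → (∀ i ∈ B, ∀ j ∈ B, i ≠ j → s i j m = m) → To s B m = m

/-- [Aly] One step, on the family without `i`. Mathlib only. PROOF. `n = |l| + 1`, `m = |l|`, `l = j0 :: l'` if `l ≠ []`, `a = (l.map (s i)).sum`, `e = φ []`, `σ = ∑_{j ∈ l} φ [j]`, `κ = ∑_{j ∈ l'} φ [j, j0]` (the generators of `Spn φ l`: `e`, `σ` (if `l ≠ []`), and `φ [j0]`, `κ` if `3 | m`).
One has (with `3 φ = 0`): `a e = m e`; `a φ[i] = σ`; `a σ = (m - 1) σ + m φ[i]` (as `s_ij σ = σ - φ[j] + φ[i]`); `a φ[j0] = (m - 1) φ[j0] + φ[i]`.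
Case `m % 3 = 2` or `l = []`: `Xo = 1`; `e` and `σ + φ[i]`, `φ[i]` are generators of `Spn φ (i :: l)` (if `l = []`: `e`).
Case `m % 3 = 1`: `Xo = -(1 + a)`: `e -> -2 e = e`, `σ -> -(m σ + m φ[i]) = -(σ + φ[i])`.
Case `m % 3 = 0`, `l ≠ []`, `s = s_(i j0)`, `Xo = (1 + (1 + s) a) S`, `S = -(1 + s)`: `e -> e` (`S e = -2 e = e`, `a e = 0`). `φ[j0]`: `S φ[j0] = -ρ`, `ρ = φ[i] + φ[j0]`, `a ρ = σ - φ[j0] + φ[i]`, `(1 + s) a ρ = 2 σ - φ[j0] + φ[i]`
(as `s σ = σ - φ[j0] + φ[i]`, and `(1 + s)(φ[i] - φ[j0]) = 0`), so the result is `-(ρ + 2 σ - φ[j0] + φ[i]) = -2 (φ[i] + σ) = φ[i] + σ`. `σ`: `S σ = -(2 σ - φ[j0] + φ[i]) = σ + φ[j0] - φ[i] =: u`, `a u = -σ - φ[j0] + φ[i] - σ = σ - φ[j0] + φ[i]`,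
`(1 + s) a u = 2 σ - φ[j0] + φ[i] = - u`, the result is 0. `κ`: put `κ_i = ∑_{k ∈ l'} φ[k,i]`, `κ_0 = κ = ∑_{k ∈ l'} φ[k,j0]`, `κ_2 = κ_i + κ_0`; `s κ_0 = κ_i`, so `S κ = -κ_2`. `a κ_i = κ_0 - κ_i` (`s κ_i = κ_0`; for `j ∈ l'`: `s_ij φ[k,i] = φ[k,j]` for
`k ≠ j` and `φ[i,j]` for `k = j`; `∑_{j ≠ k} φ[k,j] = 0` as `φ[k,j] = -φ[j,k]`; `∑_j φ[i,j] = -κ_i`), `a κ_0 = κ_i + (m - 2) κ_0 + (m - 1) φ[i,j0] = κ_i + κ_0 - φ[i,j0]`, so `a κ_2 = 2 κ_0 - φ[i,j0] = -κ_0 - φ[i,j0]`, `(1 + s) a κ_2 = -κ_2`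
(`s φ[i,j0] = φ[j0,i] = -φ[i,j0]`), so `(1 + (1 + s) a) κ_2 = 0`. -/
def St_Aly : Prop := ∀ (M : Type) [AddCommGroup M] (s : ℕ → ℕ → AddMonoid.End M) (i : ℕ) (l : List ℕ) (φ : List ℕ → M),
  (i :: l).Nodup → Fam3 s (i :: l) φ → ∀ m ∈ Spn φ l, Xo s i l m ∈ Spn φ (i :: l)

/-- [Alz] One step, on the family with `i`. Mathlib only. PROOF. Notation as in Aly. The generators of `Spn (fun X => φ (i :: X)) l` are `φ[i]`, `τ = ∑_{j ∈ l} φ[i,j]` (if `l ≠ []`), and `φ[i,j0]`, `χ = ∑_{j ∈ l'} φ[i,j,j0]` if `3 | m`, `l ≠ []`.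
Case `l = []`: `Xo = 1`, `φ[i]` is the generator of `Spn φ [i]` of the type `(1, [[i]])`. Case `m % 3 = 2`: `Xo = 1`; `φ[i]` is a generator, `τ = -∑_{j ∈ l} φ[j,i]` too. Case `m % 3 = 1`: `Xo = -(1 + a)`: `φ[i] -> -(φ[i] + σ)`; `a τ = -τ` (`s_ij φ[i,k] = φ[j,k]` for
`k ≠ j` and `φ[j,i]` for `k = j`; `∑_{j ≠ k} φ[j,k] = 0`), so `τ -> 0`. Case `m % 3 = 0`: `φ[i]`: `S φ[i] = -ρ` as in Aly, the result is `φ[i] + σ`. `φ[i,j0]`: `s φ[i,j0] = φ[j0,i] = -φ[i,j0]`, `S` of it is 0. `τ`: `τ = φ[i,j0] + ∑_{j ∈ l'} φ[i,j]`,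
`(1 + s) τ = ∑_{l'} (φ[i,j] + φ[j0,j]) = -κ_2`, so `S τ = κ_2`, and `(1 + (1 + s) a) κ_2 = 0` as in Aly. `χ`: `s φ[i,j,j0] = φ[j0,j,i] = -φ[i,j,j0]` (three exchanges of neighbours), so `S χ = 0`. -/
def St_Alz : Prop := ∀ (M : Type) [AddCommGroup M] (s : ℕ → ℕ → AddMonoid.End M) (i : ℕ) (l : List ℕ) (φ : List ℕ → M),
  (i :: l).Nodup → Fam3 s (i :: l) φ → ∀ m ∈ Spn (fun X => φ (i :: X)) l, Xo s i l m ∈ Spn φ (i :: l)

/-- [Alx] Uses Aly, Alz. PROOF. Induction on `B` for all `φ` (and `s` fixed). `B = []`: `X = []`. `B = i :: l`: the families `φ` and `φ' X = φ (i :: X)` satisfy `Fam3 s l` (the exchange of `j, k ∈ l` fixes `i`). If `i ∉ X` then `To s l (φ X)` is in `Spn φ l` by induction, use Aly. If `i ∈ X`: `X` is a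
rearrangement of `i :: X'` with `X' = X.erase i`, so `φ X = ± φ (i :: X')` (induction on the permutation, with prefixes, from `alt`); if `i ∈ X'` this is 0 (move it next to `i`: `φ (i :: i :: Y) = -φ (i :: i :: Y)` and `3 φ = 0`), otherwise use the induction hypothesis for `φ'` and Alz. -/
def St_Alx : Prop := ∀ (M : Type) [AddCommGroup M] (s : ℕ → ℕ → AddMonoid.End M) (B : List ℕ) (φ : List ℕ → M),
  B.Nodup → Fam3 s B φ → ∀ X : List ℕ, (∀ k ∈ X, k ∈ B) → To s B (φ X) ∈ Spn φ B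

/-- The family of the complements. -/
def cpl {M : Type} [AddCommGroup M] (C : List ℕ) (φ : List ℕ → M) (Y : List ℕ) : M :=
  if Y.Nodup then sg (Y ++ C.diff Y) • φ (C.diff Y) else 0

/-- [Sgn] Mathlib only. PROOF. (1) directly from the definition (induction on `l1`; the counts of smaller elements behind an element of `l1` do not change; for `i < j` and `l1 = []` the exponent changes by 1). (2) Induction on the number of inversions or: both sides as functions of `L` change sign under exchange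
of neighbours; more directly: `sg (L.map (swap i j)) = -sg L`: write `L = l1 ++ i :: l2 ++ j :: l3` (or with `i, j` exchanged), the new list is `l1 ++ j :: l2 ++ i :: l3`; moving `j` over `l2`, exchanging `i, j`, moving `i` back over `l2` are `2 |l2| + 1` exchanges of different neighbours. (3) `sg (Y ++ Z) = sg Y * sg Z *
(-1)^(number of pairs y > z)`, and the last number depends only on the elements of `Z`: from the definition by induction on `Y`. (4) clear. -/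
def St_Sgn : Prop :=
  (∀ (l1 l2 : List ℕ) (i j : ℕ), i ≠ j → sg (l1 ++ i :: j :: l2) = -sg (l1 ++ j :: i :: l2)) ∧
  (∀ (L : List ℕ) (i j : ℕ), L.Nodup → i ≠ j → i ∈ L → j ∈ L → sg (L.map (Equiv.swap i j)) = -sg L) ∧
  (∀ Y Z Z' : List ℕ, Z.Perm Z' → sg (Y ++ Z) * sg Z' = sg (Y ++ Z') * sg Z) ∧
  (∀ L : List ℕ, sg L = 1 ∨ sg L = -1)

/-- [Cpf] Uses Sgn. PROOF. `alt`: if `Y` is nodup and `i ≠ j`, `C.diff` does not change under permutation of `Y` (`List.Perm.diff_left`), the sign changes (Sgn 1); if it is not nodup, both sides are 0. `act`: let `π = swap i j`, `Y ⊆ C` nodup, `Z = C.diff Y` (nodup, `Y ++ Z` is a rearrangement of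
`C`), `Y' = Y.map π`, `Z' = C.diff Y'`, a rearrangement of `Z.map π` (both consist of the elements of `C` not in `Y'`). `s i j (φ Z) = -φ (Z.map π)`, and `φ (Z.map π) * sg Z' = φ Z' * sg (Z.map π)` in the sense `sg Z' • φ (Z.map π) = sg (Z.map π) • φ Z'` (both change sign under exchange of different
neighbours; induction on the permutation with prefixes). So `s i j (cpl Y) = - sg (Y ++ Z) sg (Z.map π) sg Z' • φ Z'`, and `sg (Y ++ Z) = -sg ((Y ++ Z).map π) = -sg (Y' ++ Z.map π)` (Sgn 2), `sg (Y' ++ Z.map π) * sg Z' = sg (Y' ++ Z') * sg (Z.map π)` (Sgn 3), and squares of signs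
are 1. So it is `sg (Y' ++ Z') • φ Z' = cpl Y'`. -/
def St_Cpf : Prop := ∀ (M : Type) [AddCommGroup M] (s : ℕ → ℕ → AddMonoid.End M) (C : List ℕ) (φ : List ℕ → M),
  C.Nodup →
  (∀ l1 l2 : List ℕ, ∀ i ∈ C, ∀ j ∈ C, (∀ k ∈ l1 ++ l2, k ∈ C) → φ (l1 ++ i :: j :: l2) = -φ (l1 ++ j :: i :: l2)) →
  (∀ l : List ℕ, (∀ k ∈ l, k ∈ C) → (3 : ℤ) • φ l = 0) →
  (∀ i ∈ C, ∀ j ∈ C, i ≠ j → ∀ l : List ℕ, (∀ k ∈ l, k ∈ C) → s i j (φ l) = -φ (l.map (Equiv.swap i j))) →
  Fam3 s C (cpl C φ)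

/-- [Alq] Uses Alx. PROOF. Let `Q = M ⧸ J`; for `i, j ∈ B` the operator `s i j` induces one on `Q` (`QuotientAddGroup.map`), for the other pairs take 0; by induction on `B` (sublists: state it for all `B' ⊆ B`) `To s' B (mk m) = mk (To s B m)`. The family `mk ∘ φ` satisfies `Fam3`. By Alx `mk (To s B (φ X))` is in
`Spn (mk ∘ φ) B = (Spn φ B).map mk`, so `To s B (φ X)` is in `Spn φ B ⊔ J`. -/
def St_Alq : Prop := ∀ (M : Type) [AddCommGroup M] (J : AddSubgroup M) (s : ℕ → ℕ → AddMonoid.End M) (B : List ℕ)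
  (φ : List ℕ → M), B.Nodup →
  (∀ i ∈ B, ∀ j ∈ B, ∀ m ∈ J, s i j m ∈ J) →
  (∀ l1 l2 : List ℕ, ∀ i ∈ B, ∀ j ∈ B, (∀ k ∈ l1 ++ l2, k ∈ B) → φ (l1 ++ i :: j :: l2) + φ (l1 ++ j :: i :: l2) ∈ J) →
  (∀ l : List ℕ, (∀ k ∈ l, k ∈ B) → (3 : ℤ) • φ l ∈ J) →
  (∀ i ∈ B, ∀ j ∈ B, i ≠ j → ∀ l : List ℕ, (∀ k ∈ l, k ∈ B) → s i j (φ l) - φ (l.map (Equiv.swap i j)) ∈ J) →
  ∀ X : List ℕ, (∀ k ∈ X, k ∈ B) → To s B (φ X) ∈ Spn φ B ⊔ J

/-- [Alc] Uses Alx, Cpf, Sgn. The same for the letters of degree 1. PROOF. In `Q = M ⧸ J` with the induced operators (as in Alq) Cpf gives `Fam3` for `cpl C (mk ∘ φ) = mk ∘ cpl C φ`. If `Z` is nodup, then `Z` is a rearrangement of `C.diff Y` for `Y = C.diff Z` (nodup), so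
`mk (φ Z) = ± mk (cpl C φ Y)`, and Alx gives the claim; if `Z` is not nodup then `φ Z ∈ J` (`2 φ Z` and `3 φ Z` are in `J`) and `To s C` maps `J` into `J`. -/
def St_Alc : Prop := ∀ (M : Type) [AddCommGroup M] (J : AddSubgroup M) (s : ℕ → ℕ → AddMonoid.End M) (C : List ℕ)
  (φ : List ℕ → M), C.Nodup →
  (∀ i ∈ C, ∀ j ∈ C, ∀ m ∈ J, s i j m ∈ J) →
  (∀ l1 l2 : List ℕ, ∀ i ∈ C, ∀ j ∈ C, (∀ k ∈ l1 ++ l2, k ∈ C) → φ (l1 ++ i :: j :: l2) + φ (l1 ++ j :: i :: l2) ∈ J) →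
  (∀ l : List ℕ, (∀ k ∈ l, k ∈ C) → (3 : ℤ) • φ l ∈ J) →
  (∀ i ∈ C, ∀ j ∈ C, i ≠ j → ∀ l : List ℕ, (∀ k ∈ l, k ∈ C) → s i j (φ l) + φ (l.map (Equiv.swap i j)) ∈ J) →
  ∀ Z : List ℕ, (∀ k ∈ Z, k ∈ C) → To s C (φ Z) ∈ Spn (cpl C φ) C ⊔ J

/-! ### 4. The symmetrisation of words in rings with `x^3 = 0`, `3 x = 0` -/

section functions2

variable {U : Type} [Ring U] (N : NonUnitalSubring U)

/-- The function of the types `t` and `u`. -/
def wf (a b c : ℕ) (t u : ℕ × List (List ℕ)) : (ℕ → N) → U :=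
  (t.2.map fun X => (u.2.map fun Y =>
    sg (Y ++ (lC a b c).diff Y) • vf N (dW a b c) (lA a ++ X ++ (lC a b c).diff Y)).sum).sum

/-- The symmetrisation of functions. -/
def Pf (X G : Type) [AddCommGroup G] (a b c : ℕ) : AddMonoid.End ((ℕ → X) → G) :=
  To (sf 1 (lB a b)) (lB a b) * To (sf (-1) (lC a b c)) (lC a b c)

end functions2

/-- [Dwp] (lists) Mathlib only. PROOF. (1) clear (`List.range`, `List.range'`). (2) `dW` is mapped to a rearrangement: `swap i j` maps the list `lB` (or `lC`) to a rearrangement of itself and fixes the elements of the other lists.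
(3) `List.subperm_append_diff_self_of_count_le` or: a nodup list `S ⊆ d` is `<+~ d`, and `S ++ d.diff S` is a rearrangement of `d`. (4) `i < a` occurs three times in `dW`; if `i ∉ S` it occurs three times in `l`. (5) `S` consists of the elements of `lA a`, of `X = S.filter (∈ lB)` and
of `Z = S.filter (∈ lC)`. (6) by the definition of `yt`: `t.1 = 0, 1` or `2`, and `t.1 = 1` only if `B ≠ []`, `t.1 = 2` only if `3 | |B|`, `B ≠ []`. -/
def St_Dwp : Prop := ∀ a b c : ℕ,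
  ((lA a).Nodup ∧ (lB a b).Nodup ∧ (lC a b c).Nodup ∧ (∀ i, i ∈ lA a ↔ i < a) ∧
    (∀ i, i ∈ lB a b ↔ a ≤ i ∧ i < a + b) ∧ (∀ i, i ∈ lC a b c ↔ a + b ≤ i ∧ i < a + b + c) ∧
    (∀ i, i ∈ dW a b c ↔ i < a + b + c) ∧ a + b + c ≤ (dW a b c).length ∧ (dW a b c).toFinset.card = a + b + c) ∧
  (∀ i j, (i ∈ lB a b ∧ j ∈ lB a b) ∨ (i ∈ lC a b c ∧ j ∈ lC a b c) →
    ((dW a b c).map (Equiv.swap i j)).Perm (dW a b c)) ∧
  (∀ S : List ℕ, S.Nodup → (∀ i ∈ S, i < a + b + c) → ((dW a b c).diff S ++ S).Perm (dW a b c)) ∧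
  (∀ l S : List ℕ, (l ++ S).Perm (dW a b c) → ∀ i, i < a → i ∉ S → 3 ≤ l.count i) ∧
  (∀ S : List ℕ, S.Nodup → (∀ i ∈ S, i < a + b + c) → (∀ i, i < a → i ∈ S) → ∃ X Z : List ℕ,
    X.Nodup ∧ Z.Nodup ∧ (∀ i ∈ X, i ∈ lB a b) ∧ (∀ i ∈ Z, i ∈ lC a b c) ∧ S.Perm (lA a ++ X ++ Z)) ∧
  (∀ B : List ℕ, B.Nodup → ∀ t ∈ yt B, t.1 ≤ B.length ∧ ∀ X ∈ t.2, X.length = t.1 ∧ X.Nodup ∧ ∀ i ∈ X, i ∈ B)

/-- [Vfp] Uses Jpr, Swp, Bra, Dwp. PROOF. `d = dW a b c`. (1) `l` is a rearrangement of `d.diff S` (both followed by `S` are rearrangements of `d`), Swp. (2) Jpr 7. (3) `d.diff` does not change under permutation of `S` (`List.Perm.diff_left`), Bra 1. (4) If `S` is not nodup both are 0. Otherwise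
the first function is `mo ((d.diff S).map swap) * br (S.map swap)`, and `(d.diff S).map swap ++ S.map swap` is a rearrangement of `d` (Dwp 2, 3); use (1). (5) Dwp 4 and Swp 2. (6) Jpr 3, or 0. -/
def St_Vfp : Prop := ∀ (U : Type) [Ring U] (N : NonUnitalSubring U), Nr N → ∀ (a b c : ℕ),
  (∀ l S : List ℕ, (l ++ S).Perm (dW a b c) → S.Nodup →
    (mo l * br S - vf N (dW a b c) S : (ℕ → N) → U) ∈ Jf N (dW a b c) (S.length + 1)) ∧
  (∀ S : List ℕ, ¬ S.Nodup → vf N (dW a b c) S = 0) ∧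
  (∀ (S1 S2 : List ℕ) (i j : ℕ),
    vf N (dW a b c) (S1 ++ i :: j :: S2) = -vf N (dW a b c) (S1 ++ j :: i :: S2)) ∧
  (∀ (S : List ℕ) (i j : ℕ), (∀ k ∈ S, k < a + b + c) →
    (i ∈ lB a b ∧ j ∈ lB a b) ∨ (i ∈ lC a b c ∧ j ∈ lC a b c) →
    (fun x : ℕ → N => vf N (dW a b c) S (fun t => x (Equiv.swap i j t))) -
      vf N (dW a b c) (S.map (Equiv.swap i j)) ∈ Jf N (dW a b c) (S.length + 1)) ∧
  (∀ (S : List ℕ), S.Nodup → (∀ k ∈ S, k < a + b + c) → (∃ i, i < a ∧ i ∉ S) →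
    vf N (dW a b c) S ∈ Jf N (dW a b c) (S.length + 1)) ∧
  (∀ (S : List ℕ), 1 ≤ a + b + c → (∀ k ∈ S, k < a + b + c) → (3 : ℤ) • vf N (dW a b c) S = 0)

/-- [Grc] The letters of degree 1. Uses Vfp, Jpr, Dwp, Alc. PROOF. `J = Jf N d (k + 1)`, `s = sf (-1) C`, `φ Z = vf N d (lA a ++ X ++ Z)` if `a + |X| + |Z| = k` and 0 otherwise. The hypotheses of Alc: `J` is stable (Jpr 4, and the sign; `sf` is 0 outside `C`); alternation exactly (Vfp 3; the two lists have the same length);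
Vfp 6; Vfp 4 with `swap i j` fixing the letters in `lA a`, `X` (the lengths are equal). The generators of `Spn (cpl C φ) C`: all `Y` in `u.2` are nodup and `|C.diff Y| = c - u.1` (Dwp 6), so the sum is the one in the statement if `a + |X| + (c - u.1) = k`, and 0 otherwise. -/
def St_Grc : Prop := ∀ (U : Type) [Ring U] (N : NonUnitalSubring U), Nr N → ∀ (a b c k : ℕ) (X Z : List ℕ),
  1 ≤ a + b + c → (∀ i ∈ X, i ∈ lB a b) → (∀ i ∈ Z, i ∈ lC a b c) → a + X.length + Z.length = k →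
  To (sf (-1) (lC a b c)) (lC a b c) (vf N (dW a b c) (lA a ++ X ++ Z)) ∈
    AddSubgroup.closure {F | ∃ u ∈ yt (lC a b c), a + X.length + (c - u.1) = k ∧
      F = (u.2.map fun Y => sg (Y ++ (lC a b c).diff Y) •
        vf N (dW a b c) (lA a ++ X ++ (lC a b c).diff Y)).sum} ⊔ Jf N (dW a b c) (k + 1)

/-- [Grb] The letters of degree 2. Uses Vfp, Jpr, Dwp, Alq. PROOF. As Grc, with `s = sf 1 B` and `φ X = (u.2.map fun Y => sg (..) • vf N d (lA a ++ X ++ C.diff Y)).sum` if `a + |X| + (c - u.1) = k` and 0 otherwise: sums of families with the properties Vfp 3, 4, 6. The generators of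
`Spn φ B` are the `wf a b c t u` with `a + t.1 + (c - u.1) = k`, or 0. -/
def St_Grb : Prop := ∀ (U : Type) [Ring U] (N : NonUnitalSubring U), Nr N → ∀ (a b c k : ℕ) (X : List ℕ),
  1 ≤ a + b + c → (∀ i ∈ X, i ∈ lB a b) → ∀ u ∈ yt (lC a b c), a + X.length + (c - u.1) = k →
  To (sf 1 (lB a b)) (lB a b) ((u.2.map fun Y => sg (Y ++ (lC a b c).diff Y) •
      vf N (dW a b c) (lA a ++ X ++ (lC a b c).diff Y)).sum) ∈
    AddSubgroup.closure {F | ∃ t ∈ yt (lB a b), a + t.1 + (c - u.1) = k ∧ F = wf N a b c t u} ⊔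
      Jf N (dW a b c) (k + 1)

/-- [Grd] Uses Grb, Grc, Vfp, Jpr, Dwp. PROOF. `To ..` maps `J = Jf N d (k + 1)` into itself (Jpr 4, induction on the list, see Alq). For a generator `F = mo l * br S` of `Jf N d k`: if `|S| > k` it is in `J`. If `|S| = k`: if `S` is not nodup then `F = 0`; otherwise `F - vf N d S ∈ J` (Vfp 1);
if some `i < a` is not in `S` then `F ∈ J` (Vfp 5). Otherwise `S` is a rearrangement of `lA a ++ X ++ Z` (Dwp 5), `vf N d S = ± vf N d (lA a ++ X ++ Z)` (Jpr 6, `List.Perm.diff_left`). Apply Grc, then Grb (`closure_induction`). -/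
def St_Grd : Prop := ∀ (U : Type) [Ring U] (N : NonUnitalSubring U), Nr N → ∀ (a b c k : ℕ), 1 ≤ a + b + c →
  ∀ F ∈ Jf N (dW a b c) k, Pf N U a b c F ∈
    AddSubgroup.closure {F | ∃ t ∈ yt (lB a b), ∃ u ∈ yt (lC a b c), a + t.1 + (c - u.1) = k ∧ F = wf N a b c t u} ⊔
      Jf N (dW a b c) (k + 1)

/-- [Npt] Uses Grd, Jpr, Dwp. PROOF. By induction on `m = a + b + c + 1 - k`: for `F ∈ Jf N d k` the function `(Pf ..)^m F` is in the group. `m = 0`: `Jf N d (a+b+c+1) = ⊥` (Jpr 5). Step: `Pf F = F1 + F2`, `F1` in the group generated by the `wf a b c t u` of level `k`, `F2 ∈ Jf N d (k + 1)` (Grd);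
`(Pf)^(m-1)` of `wf a b c t u` is a generator, because `m - 1 = a + b + c - k = b - t.1 + u.1` (`k = a + t.1 + (c - u.1)`, `t.1 ≤ b`, `u.1 ≤ c`, Dwp 6), and the induction hypothesis applies to `F2`. For `F = mo w` use Jpr 2 and `k = 0`. -/
def St_Npt : Prop := ∀ (U : Type) [Ring U] (N : NonUnitalSubring U), Nr N → ∀ (a b c : ℕ), 1 ≤ a + b + c →
  ∀ w : List ℕ, w.Perm (dW a b c) → ((Pf N U a b c) ^ (a + b + c + 1)) (mo w) ∈
    AddSubgroup.closure {F | ∃ t ∈ yt (lB a b), ∃ u ∈ yt (lC a b c),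
      F = ((Pf N U a b c) ^ (b - t.1 + u.1)) (wf N a b c t u)}

/-- The value of a combination of words. -/
def Ewd {M : Type} [AddCommGroup M] (e : List ℕ → M) (L : List (ℤ × List ℕ)) : M := (L.map fun q => q.1 • e q.2).sum

/-- [Evt] Mathlib only. PROOF. `Ewd e (L ++ L') = Ewd e L + Ewd e L'`, `Ewd e (scW m L) = m • Ewd e L`, `Ewd e (swW ε i j L) = s i j (Ewd e L)` for `i, j ∈ B`, `Ewd e (stW ε i l L) = ((l.map (s i)).sum) (Ewd e L)` for `i ∈ B`, `l ⊆ B`; so `Ewd e (Xw ε i l L) = Xo s i l (Ewd e L)`; induction on sublists of `B`. -/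
def St_Evt : Prop := ∀ (M : Type) [AddCommGroup M] (s : ℕ → ℕ → AddMonoid.End M) (ε : ℤ) (B : List ℕ) (e : List ℕ → M),
  (∀ i ∈ B, ∀ j ∈ B, ∀ w : List ℕ, s i j (e w) = ε • e (w.map (Equiv.swap i j))) →
  (∀ L : List (ℤ × List ℕ), Ewd e (Tw ε B L) = To s B (Ewd e L)) ∧
  (∀ (m : ℤ) (L : List (ℤ × List ℕ)), Ewd e (scW m L) = m • Ewd e L) ∧
  (∀ L L' : List (ℤ × List ℕ), Ewd e (L ++ L') = Ewd e L + Ewd e L')

/-- [Evw] Mathlib only. PROOF. (1) `Ewd mo` of `brW S` is `br S` (induction as in the definitions; `mo (i :: j :: w) = x_i x_j mo w`), with the prefix `d.diff S` in front: `mo (u ++ w) = mo u * mo w`. (2) sums over `flatMap`, with (1). -/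
def St_Evw : Prop := ∀ (U : Type) [Ring U] (N : NonUnitalSubring U),
  (∀ d S : List ℕ, Ewd (mo : List ℕ → (ℕ → N) → U) (vW d S) = vf N d S) ∧
  (∀ (a b c : ℕ) (t u : ℕ × List (List ℕ)), Ewd (mo : List ℕ → (ℕ → N) → U) (wW a b c t u) = wf N a b c t u)

/-- [Nwd] Uses Npt, Evt, Evw. PROOF. `sf ε B i j (mo w) = ε • mo (w.map (swap i j))` for `i, j ∈ B`, so `Ewd mo (Pw a b c L) = Pf (Ewd mo L)` (Evt twice) and the same for the iterates. By Evw the generators in Npt are the `Ewd mo B`, `B ∈ TB3 a b c`. -/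
def St_Nwd : Prop := ∀ (U : Type) [Ring U] (N : NonUnitalSubring U), Nr N → ∀ (a b c : ℕ), 1 ≤ a + b + c →
  ∀ w : List ℕ, w.Perm (dW a b c) →
    Ewd (mo : List ℕ → (ℕ → N) → U) ((Pw a b c)^[a + b + c + 1] [(1, w)]) ∈
    AddSubgroup.closure {F | ∃ B ∈ TB3 a b c, F = Ewd (mo : List ℕ → (ℕ → N) → U) B}

/-! ### 5. Back to the ring `A` -/

/-- [Res] Mathlib only. PROOF. `V = Unitization ℤ A`, `S` = the set of the polynomials `C (wp l) X^|l|` (`l ≠ []`) in `Polynomial V`, `B` = the subgroup generated by `S`; `B` is closed under products (`wp l * wp l' = wp (l ++ l')` for `l, l' ≠ []`), a `NonUnitalSubring`. (1) `y^3 = 0` for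
`y ∈ B`: for `x, y` in `A`: `x x y + x y x + y x x = 0` (from `(x+y)^3`, `(x-y)^3`, twice it is 0 and 2 is invertible as `3^r x = 0`), and the sum of the six products of `x, y, z` is 0. So the same holds for elements of `S` (the degrees add up). The set of all `(x, y, z)` with zero sum of the six products is additive in each
argument, so it contains `B × B × B`; then `x x y + x y x + y x x = 0` for `x, y` in `B` (additive in `y`; in `x` up to sums of six products), and `x^3 = 0` (`(x + y)^3 = x^3 + y^3 + ...`). (2) The coefficient of degree `n ≥ 6` of `3 y`, `y ∈ B`, is 0: it is `3` times an element of the group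
generated by the `wp l`, `|l| = n`. (3) `I = 3 B` is a two-sided ideal of the ring `B`; `N0 = B / I` (`RingCon` or `TwoSidedIdeal`), `U = Unitization ℤ N0`, `N` the image of `N0` (`inr`), `θ x = ` the class of `C x X` (additive). (4) `Nr N` is clear. A combination `∑ m_i θ y_i1 ... θ y_in` is the image of the class of
`C (∑ m_i wp y_i) X^n`; if it is 0 then `C (∑ ..) X^n = 3 y` with `y ∈ B`, and its coefficient of degree `n ≥ 6` is 0 by (2). -/
def St_Res : Prop := ∀ (A : Type) [NonUnitalRing A], (∀ x : A, x * x * x = 0) → (∃ r : ℕ, ∀ x : A, (3 ^ r) • x = 0) →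
  (∀ l : List A, 6 ≤ l.length → (3 : ℤ) • wp l = 0) →
  ∃ (U : Type) (_ : Ring U) (N : NonUnitalSubring U) (θ : A →+ N), Nr N ∧
    ∀ n : ℕ, 6 ≤ n → ∀ L : List (ℤ × List A), (∀ q ∈ L, q.2.length = n) →
      (L.map fun q => q.1 • (q.2.map fun y => (θ y : U)).prod).sum = 0 → (L.map fun q => q.1 • wp q.2).sum = 0

/-- [Wpm] Uses Dwp. PROOF. (1) The words in `brW S` are rearrangements of `S`, those in `vW d S` of `d.diff S ++ S` (for `S` nodup with letters in `d`: of `d`, Dwp 3); `lA a ++ X ++ C.diff Y` is nodup for the `X`, `Y` in the types (Dwp 6); `swW 1 i j` for `i, j ∈ lB a b` and `swW (-1) i j` for `i, j ∈ lC a b c` preserve the property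
(Dwp 2), so `Pw` too. (2) is (1) for the words `[(1, w)]`. -/
def St_Wpm : Prop := ∀ a b c : ℕ,
  (∀ B ∈ TB3 a b c, ∀ q ∈ B, q.2.Perm (dW a b c)) ∧
  (∀ L : List (ℤ × List ℕ), (∀ q ∈ L, q.2.Perm (dW a b c)) → ∀ q ∈ Pw a b c L, q.2.Perm (dW a b c))

/-- The value of a word at elements of `A`. -/
def eA {A : Type} [NonUnitalRing A] (w : List ℕ) (x : ℕ → A) : A := wp (w.map x)

/-- [Zwd] Uses Nwd, Res, Wpm, Dwp. PROOF. Take `U`, `N`, `θ` from Res. By Nwd there are integers `m_B` with `Ewd mo (P^(g+1) w) = ∑ m_B • Ewd mo B` (an element of the group generated by the elements of a finite list is a combination of them: a list of coefficients of the length of the list).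
Let `x : ℕ → A`; the list `L` of the words of `P^(g+1) w` and of `- m_B` times the words of the `B`, with `x_i` for the letter `i`, has words of length `n = (dW a b c).length ≥ 6` only (Wpm); its value in `U` at the `θ x_i` is 0, so by Res its value in `A` is 0. -/
def St_Zwd : Prop := ∀ (A : Type) [NonUnitalRing A], (∀ x : A, x * x * x = 0) → (∃ r : ℕ, ∀ x : A, (3 ^ r) • x = 0) →
  (∀ l : List A, 6 ≤ l.length → (3 : ℤ) • wp l = 0) → ∀ a b c : ℕ, 6 ≤ (dW a b c).length →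
  ∀ w : List ℕ, w.Perm (dW a b c) →
    Ewd (eA : List ℕ → (ℕ → A) → A) ((Pw a b c)^[a + b + c + 1] [(1, w)]) ∈
    AddSubgroup.closure {F | ∃ B ∈ TB3 a b c, F = Ewd (eA : List ℕ → (ℕ → A) → A) B}

/-- [Tkb] THE RESULT OF THIS PART. Uses Zwd, Tfx, Evt, Dwp. PROOF. `F x = (L.map fun q => q.1 • wp (q.2.map x)).sum` for `x : ℕ → A`; `3 F = 0` (words of length `≥ 6`). `sf 1 B i j F = F` for `i, j ∈ lB a b`, and `sf (-1) C i j F = F` for `i ≠ j` in `lC a b c`; so `Pf A A a b c F = F` (Tfx twice) and `(Pf)^(g+1) F = F`.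
The operators `To ..` commute with the multiplication by elements of `K`, so `F = ∑ q.1 • (Pf)^(g+1) (eA q.2)`, and `(Pf)^(g+1) (eA w) = Ewd eA ((Pw)^[g+1] [(1, w)])` (Evt) is an integral combination of the `Ewd eA B`, `B ∈ TB3 a b c` (Zwd). So `F` is a `K`-combination of the functions `Ewd eA B`, that is `Kc c (TB3 a b c)`
for a list `c` (the set of such functions is closed under addition and multiplication by elements of `K`; the value of `Vg B x` is `Ewd eA B (xs x)`). -/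
def St_Tkb : Prop := ∀ (K : Type) [CommRing K] (A : Type) [NonUnitalRing A] [Module K A],
  (∀ x : A, x * x * x = 0) → (∃ r : ℕ, ∀ x : A, (3 ^ r) • x = 0) → (∀ l : List A, 6 ≤ l.length → (3 : ℤ) • wp l = 0) →
  ∀ a b c : ℕ, 6 ≤ (dW a b c).length → ∀ L : List (K × List ℕ), (∀ q ∈ L, q.2.Perm (dW a b c)) →
  (∀ i ∈ lB a b, ∀ j ∈ lB a b, ∀ x : ℕ → A, (L.map fun q => q.1 • wp (q.2.map fun k => x (Equiv.swap i j k))).sum =
    (L.map fun q => q.1 • wp (q.2.map x)).sum) →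
  (∀ i ∈ lC a b c, ∀ j ∈ lC a b c, i ≠ j → ∀ x : ℕ → A,
    (L.map fun q => q.1 • wp (q.2.map fun k => x (Equiv.swap i j k))).sum =
    -(L.map fun q => q.1 • wp (q.2.map x)).sum) →
  ∃ k : List K, k.length = (TB3 a b c).length ∧ ∀ x : Fin (a + b + c) → A,
    (L.map fun q => q.1 • wp (q.2.map (xs x))).sum = Kc k (TB3 a b c) x

/-- [Tw3] (for helper39) Uses Wpm, Dwp. PROOF. clear. -/
def St_Tw3 : Prop := ∀ (g : ℕ) (B : List (List (ℤ × List ℕ))), Tb3 g B →
  ∀ L ∈ B, ∀ q ∈ L, ∀ i, i ∈ q.2 ↔ i < g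

end Pool.Agent.CRS
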