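import Pool.Agent.CRS.DefsD
import Pool.Agent.CRS.StB

/-!
Campaign CRS, p = 3: the simpler form `TD3` of the explicit list (problem MP_1bb14d_al, stage 8).  Statements of the modules.

Plan.  (A) If `b ≤ 1` then the functions `wf a b c t u` are antisymmetric in the letters of degree 1 which are symmetrised, so `Pf` fixes
them.  (B) If `c ≤ 1` then only two steps of the filtration are needed, the odd and the even one: `Jo d` is the group generated by the
functions `mo l * br S` with `|S|` odd.  If `|S|` is odd the `vf N d S` are exchanged exactly by exchanging letters (`St_Pal`), if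
`|S|` is even modulo `Jo d`; here one needs that the letters of degree 2 are arranged as a palindrome in `dW`.  So `Pf` maps
`Jo d` into the span of the `wf` of odd level, which it fixes, and everything into the span of the `wf` of even level and `Jo d`.

Every `St_X` is a statement with its proof in the docstring.  A module proves `thm_X : St_Y → ... → St_X` with the hypotheses
which are named in the docstring (drop unused ones).
-/

set_option autoImplicit false

namespace Pool.Agent.CRS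

open Pool.Agent.CRR Pool.Agent.CRN Pool.Agent.CRK Pool.Agent.CRL Pool.Agent.CRM Pool.Agent.CRP
open Pool.Agent.CRQ

/-! ### (0) Lists -/

/-- [Dwl] Mathlib only. PROOF. General lemma: if `L1` and `S` are nodup then `(L1 ++ L2).diff S = L1.filter (· ∉ S) ++ L2.diff (S.filter (· ∉ L1))` (induction on `S`: `(L1 ++ L2).erase s` is `L1.erase s ++ L2` if `s ∈ L1`, and `L1.erase s = L1.filter (· ≠ s)` for `L1` nodup, and `L1 ++ L2.erase s` otherwise). Apply it to
`lA ++ (lA ++ (lA ++ (lB ++ (lC ++ lB.reverse))))`: all `i < a` are in `S`, so the first block becomes empty; the rest `S1` of `S` contains no letter of `lA`, so the next two blocks stay; then `lB.filter (· ∉ S)`, `lC.filter (· ∉ S)`, and nothing of `S` is left for `lB.reverse`. -/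
def St_Dwl : Prop := ∀ (a b c : ℕ) (S : List ℕ), S.Nodup → (∀ i ∈ S, i < a + b + c) → (∀ i, i < a → i ∈ S) →
  (dW a b c).diff S = lA a ++ (lA a ++ ((lB a b).filter (· ∉ S) ++ ((lC a b c).filter (· ∉ S) ++ (lB a b).reverse)))

/-! ### (A) `b ≤ 1` -/

/-- [Cfw] Uses Cpf, Sgn, Bra, Dwp, Dwl. PROOF. `d = dW a b c`, `C = lC a b c`. Let `φ Z = br (lA a ++ X ++ Z)` if this list is not empty, and 0 otherwise; with `s = sf (-1) C` the hypotheses of Cpf hold exactly (Bra 1; `3 φ = 0` because `br` of a nonempty list is in `N`; `s i j` exchanges the letters in `Z` with the sign `-1`, the letters in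
`lA a`, `X` are fixed). So `ψ Y = cpl C φ Y = sg (Y ++ C.diff Y) • br (lA a ++ X ++ C.diff Y)` satisfies `s i j (ψ Y) = ψ (Y.map (swap i j))`, for `Y ⊆ C`. Now `vf N d (lA a ++ X ++ C.diff Y) = mo (d.diff ..) * br (..)`, and by Dwl the monomial is `mo (lA ++ lA ++ (lB without X) ++ (C.filter (∈ Y)) ++ lB.reverse)` (if the letters of `X` and of
`C.diff Y` are removed, the letters of `C` which remain are those in `Y`). For `Y = []`, `Y = [l]`, and `Y = [l, i0]` with `i0` the first letter of `C` the list `C.filter (∈ Y)` is `[]`, `[l]`, `[i0, l]`, so it is mapped by `swap i j` to the list for `Y.map (swap i j)`, if `i, j ≠ i0` in the last case and in the case `Y = [i0]`. Hence the functions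
`F_Y = sg (Y ++ C.diff Y) • vf N d (lA a ++ X ++ C.diff Y)` satisfy `-F_Y ∘ swap i j = F_(Y.map (swap i j))` for these `Y` (for `Y` with `C.diff Y` and `lA a ++ X` empty both sides of the claim must be checked separately, this does not happen for `c ≥ 2` in (1) and `c ≥ 3` in (2)). So the sum over the type is fixed by `s i j`: (1) for all `i ≠ j` in `C` for the types
`(0, [[]])` and `(1, all [l])`; (2) for `i ≠ j` in the tail of `C` for the types `(1, [[i0]])`, `(2, all [l, i0])`. -/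
def St_Cfw : Prop := ∀ (U : Type) [Ring U] (N : NonUnitalSubring U), Nr N → ∀ (a b c : ℕ) (X : List ℕ),
  b ≤ 1 → 2 ≤ c → X.Nodup → (∀ i ∈ X, i ∈ lB a b) → ∀ u ∈ yt (lC a b c),
  ((u = (0, [[]]) ∨ u = (1, (lC a b c).map fun j => [j])) ∧ ∀ i ∈ lC a b c, ∀ j ∈ lC a b c, i ≠ j →
    sf (-1) (lC a b c) i j ((u.2.map fun Y => sg (Y ++ (lC a b c).diff Y) •
      vf N (dW a b c) (lA a ++ X ++ (lC a b c).diff Y)).sum) =
      (u.2.map fun Y => sg (Y ++ (lC a b c).diff Y) •
      vf N (dW a b c) (lA a ++ X ++ (lC a b c).diff Y)).sum) ∨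
  (c % 3 = 0 ∧ ∀ i ∈ (lC a b c).tail, ∀ j ∈ (lC a b c).tail, i ≠ j →
    sf (-1) (lC a b c) i j ((u.2.map fun Y => sg (Y ++ (lC a b c).diff Y) •
      vf N (dW a b c) (lA a ++ X ++ (lC a b c).diff Y)).sum) =
      (u.2.map fun Y => sg (Y ++ (lC a b c).diff Y) •
      vf N (dW a b c) (lA a ++ X ++ (lC a b c).diff Y)).sum)

/-- [Cfy] Uses Cfw, Tfx, Vfp, Dwp. PROOF. If `c ≤ 1` then `To .. C = 1` (`Xo s i [] = 1`), and `To .. B = 1` because `b ≤ 1`. If `c ≥ 2`: `wf a b c t u` is the sum over `X` in `t` of the functions in Cfw (exchange nothing: `wf` is the sum over `X` of the sums over `Y`). By Cfw and Tfx (for `C`, or for the tail of `C` if `c % 3 = 0`, where `To s C = To s C.tail`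
because `Xo = 1` for the first letter) `To (sf (-1) C) C` fixes it; `3 • .. = 0` by Vfp 6; `To (sf 1 B) B = 1`. -/
def St_Cfy : Prop := ∀ (U : Type) [Ring U] (N : NonUnitalSubring U), Nr N → ∀ (a b c : ℕ), b ≤ 1 → 1 ≤ a + b + c →
  ∀ t ∈ yt (lB a b), ∀ u ∈ yt (lC a b c), Pf N U a b c (wf N a b c t u) = wf N a b c t u

/-! ### (B) `c ≤ 1` -/

/-- [Bzx] Uses Fid, Bra. PROOF. (0) `cm x y * u * cm x z = 0` and `cm y x * u * cm z x = 0` etc. for `u = 1` or `u ∈ N`: the fourth identity of Fid with equal arguments gives `cm x y * cm x z = 0` (up to signs), and `0 = cm (x) y * cm (x) (u z)`, that is `0 = cm x y * cm (u * z) x = cm x y * u * cm z x + cm x y * cm u x * z`. (1) `S` is a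
rearrangement of `x :: S'` and `brv S = ± brv (x :: S')` (Bra 1). `S' = []`: 0. `brv (x :: z :: S'') = cm x z * brv S''` if `|S''| ≠ 1`: use (0). `S'' = [w]`: `brv [x, z, w] = cm (cm x z) w = cm (cm z w) x` (Fid 2 twice), use (0) with `cm z w ∈ N`. (2) Let `e = cm x y`, `e x = x e`, `e y = y e` (Fid 1), and `x y = y x + e`:
`x y m y x - y x m x y = e m y x - y x m e` (the terms `y x m y x` cancel), and `= cm e m * (y x) + m e y x - y x m e = cm e m * (y x) + (m y x - y x m) e`, where `(m y x - y x m) e = (cm m y * x + y * cm m x) * e = 0` by (0) (`cm m y * x * cm x y`, `cm m x * cm x y`). For `m = 1` all commutators with `m` are 0. -/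
def St_Bzx : Prop := ∀ (U : Type) [Ring U] (N : NonUnitalSubring U), Nr N →
  (∀ S : List U, (∀ z ∈ S, z ∈ N) → ∀ x ∈ S, ∀ y ∈ N, ∀ u : U, u = 1 ∨ u ∈ N →
    cm x y * u * brv S = 0 ∧ cm y x * u * brv S = 0) ∧
  (∀ x ∈ N, ∀ y ∈ N, ∀ m : U, m = 1 ∨ m ∈ N →
    x * y * m * y * x - y * x * m * x * y = cm (cm x y) m * (y * x))

section functions

variable {U : Type} [Ring U] (N : NonUnitalSubring U)

/-- The group generated by the `mo l * br S` with `|S|` odd. -/
def Jo (d : List ℕ) : AddSubgroup ((ℕ → N) → U) :=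
  AddSubgroup.closure {F | ∃ l S : List ℕ, (l ++ S).Perm d ∧ S.length % 2 = 1 ∧ F = mo l * br S}

end functions

/-- [Ple] Uses Bzx, Bra. PROOF. (1) The difference is `mo l1 * cm x_i x_j * mo l2 * br S`, which is 0 by Bzx 1 (`mo l2` is 1 or in `N`). (2) First claim: for all lists with `(l1 ++ m ++ l2 ++ [i, j] ++ S).Perm d` the function `mo l1 * cm (cm x_i x_j) (mo m) * mo l2 * br S` is 0 if `|S|` is odd, and in `Jo d` if `|S|` is even: induction on `m`
(for all `l1`): `cm e 1 = 0`; `cm e (x_k * m') = cm e x_k * m' + x_k * cm e m'`; `cm e x_k` is central (Bra 3), it is moved to `br S`: `cm (cm x_i x_j) x_k * br S = br (S ++ [i, j, k])` or 0 (Bra 4). The difference in the statement is by Bzx 2 `mo l1 * cm (cm x_i x_j) (mo m) * (x_j * x_i) * mo l2 * br S`: the claim with `j :: i :: l2`.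
(3) If `(l1 ++ [i, j] ++ l2 ++ S).Perm d` and `|S| ≠ 1`: `mo (l1 ++ i :: j :: l2) * br S - mo (l1 ++ j :: i :: l2) * br S = mo l1 * cm x_i x_j * mo l2 * br S`, and `cm x_i x_j` is moved over the letters `k` of `l2`, with the terms `cm (cm x_i x_j) x_k` as in (2); it remains `mo (l1 ++ l2) * (cm x_i x_j * br S) = mo (l1 ++ l2) * br (i :: j :: S)`. -/
def St_Ple : Prop := ∀ (U : Type) [Ring U] (N : NonUnitalSubring U), Nr N → ∀ (d l1 m l2 S : List ℕ) (i j : ℕ),
  (i ∈ S ∨ j ∈ S → (mo (l1 ++ i :: j :: l2) * br S : (ℕ → N) → U) = mo (l1 ++ j :: i :: l2) * br S) ∧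
  ((l1 ++ i :: j :: (m ++ j :: i :: l2) ++ S).Perm d →
    (S.length % 2 = 1 → (mo (l1 ++ i :: j :: (m ++ j :: i :: l2)) * br S : (ℕ → N) → U) =
      mo (l1 ++ j :: i :: (m ++ i :: j :: l2)) * br S) ∧
    (S.length % 2 = 0 → (mo (l1 ++ i :: j :: (m ++ j :: i :: l2)) * br S -
      mo (l1 ++ j :: i :: (m ++ i :: j :: l2)) * br S : (ℕ → N) → U) ∈ Jo N d)) ∧
  ((l1 ++ i :: j :: l2 ++ S).Perm d → S.length ≠ 1 →
    (S.length % 2 = 1 → (mo (l1 ++ i :: j :: l2) * br S : (ℕ → N) → U) =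
      mo (l1 ++ j :: i :: l2) * br S + mo (l1 ++ l2) * br (i :: j :: S)) ∧
    (S.length % 2 = 0 → (mo (l1 ++ i :: j :: l2) * br S - mo (l1 ++ j :: i :: l2) * br S -
      mo (l1 ++ l2) * br (i :: j :: S) : (ℕ → N) → U) ∈ Jo N d))

/-- [Pal] Uses Ple, Dwl, Dwp, Vfp. PROOF. `d = dW a b c`, `π = swap i j`, `S' = S.map π`. For a rearrangement `W` of `lB a b` put `λ W = lA ++ (lA ++ (W.filter (· ∉ S') ++ (lC.filter (· ∉ S') ++ W.reverse)))` and `G W = mo (λ W) * br S'`. By Dwl `vf N d S' = G (lB a b)`, and `vf N d S ∘ π = mo ((d.diff S).map π) * br S' = G ((lB a b).map π)`, because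
`(lB.filter (· ∉ S)).map π = (lB.map π).filter (· ∉ S')`, `π` fixes the letters in `lA`, `lC`. `(lB a b).map π` is a rearrangement of `lB a b`. Claim: for nodup rearrangements `W`, `W'` of `lB a b` one has `G W = G W'` if `|S|` is odd, and `G W - G W' ∈ Jo N d` if it is even; it is enough to treat `W = w0 ++ x :: y :: w1`, `W' = w0 ++ y :: x :: w1`
(induction on the permutation, with prefixes). If `x` and `y` are not in `S'`: `λ W = l1 ++ x :: y :: (m ++ y :: x :: l2)` with `m = w1.filter .. ++ (lC.filter .. ++ w1.reverse)`, and `λ W'` is the list with `x`, `y` exchanged at both places: Ple 2 (`λ W ++ S'` is a rearrangement of `d`). If `x ∈ S'` or `y ∈ S'` the filter part does not change, and in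
`W.reverse` the neighbours `y :: x` are exchanged: Ple 1. If `S` is not nodup both functions are 0 (Vfp 2). If some `i < a` is not in `S` the statement is not claimed. -/
def St_Pal : Prop := ∀ (U : Type) [Ring U] (N : NonUnitalSubring U), Nr N → ∀ (a b c : ℕ) (S : List ℕ) (i j : ℕ),
  (∀ k ∈ S, k < a + b + c) → (∀ k, k < a → k ∈ S) → i ∈ lB a b → j ∈ lB a b →
  (S.length % 2 = 1 → (fun x : ℕ → N => vf N (dW a b c) S (fun t => x (Equiv.swap i j t))) =
    vf N (dW a b c) (S.map (Equiv.swap i j))) ∧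
  (S.length % 2 = 0 → (fun x : ℕ → N => vf N (dW a b c) S (fun t => x (Equiv.swap i j t))) -
    vf N (dW a b c) (S.map (Equiv.swap i j)) ∈ Jo N (dW a b c))

/-- [Spo] Uses Ple, Jpr, Dwp, Bra. PROOF. (1) By induction on `m = a + b + c + 1 - |S|` for odd `|S|`: if `S` is not nodup, `br S = 0` (Jpr 7); this includes `|S| > a + b + c`; if `|S| = 1` also `br S = 0`. Otherwise by Ple 3 (odd case) for `l ~ l'` the difference `mo l * br S - mo l' * br S` is a sum of functions `± mo l'' * br (i :: j :: S)`, which are in the group `V` on the right by the induction hypothesis (with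
prefixes: induction on the permutation). If some `i < a` is not in `S` then it occurs three times in `l` (Dwp 4), take `l' = i :: i :: i :: l''`, `mo l' = 0`. Otherwise take `l' = d.diff S` (Dwp 3): `mo l' * br S = vf N d S` is a generator. So `Jo N d ≤ V`. (2) The same for `|S|` even, with the second case of Ple 3, and (1). -/
def St_Spo : Prop := ∀ (U : Type) [Ring U] (N : NonUnitalSubring U), Nr N → ∀ (a b c : ℕ),
  (Jo N (dW a b c) ≤ AddSubgroup.closure {F | ∃ S : List ℕ, S.Nodup ∧ (∀ k ∈ S, k < a + b + c) ∧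
    (∀ k, k < a → k ∈ S) ∧ S.length % 2 = 1 ∧ F = vf N (dW a b c) S}) ∧
  (∀ l S : List ℕ, (l ++ S).Perm (dW a b c) → (mo l * br S : (ℕ → N) → U) ∈
    AddSubgroup.closure {F | ∃ S : List ℕ, S.Nodup ∧ (∀ k ∈ S, k < a + b + c) ∧
    (∀ k, k < a → k ∈ S) ∧ S.length % 2 = 0 ∧ F = vf N (dW a b c) S} ⊔ Jo N (dW a b c))

/-- [Pgo] Uses Pal, Spo, Vfp, Dwp, Alx, Alq. `c ≤ 1`. PROOF. `To (sf (-1) C) C = 1` (`C` has at most one element, `Xo s i [] = 1`), so `Pf = To (sf 1 B) B`. `Jo N d` is stable under `sf 1 B i j` (`(l ++ S).map (swap i j)` is a rearrangement of `d`, Dwp 2). A generator of the group in Spo is `± vf N d (lA a ++ X ++ Z)` (Dwp 5, Vfp 3 on the permutation), `Z ⊆ C` nodup, so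
`Z = []` or `Z = C`; so `Z = C.diff Y` with `sg (Y ++ C.diff Y) = 1` for the only `Y` of one of the types `u` of `C` (for `C = []`: `(0, [[]])`, for `C = [z]`: `(0, [[]])` and `(1, [[z]])`), and `wf a b c t u = (t.2.map fun X => vf N d (lA a ++ X ++ Z)).sum`. (1) `|S|` odd: the family `φ X = vf N d (lA a ++ X ++ Z)` if `a + |X| + |Z| = |S|` and 0 otherwise satisfies
`Fam3 (sf 1 B) B` (Vfp 3, 6, Pal exactly), so Alx: `Pf (vf N d S)` is in the group generated by the `wf a b c t u` of level `|S|`. (2) `|S|` even: Alq with `J = Jo N d` and Pal; `mo w` is in the group of Spo 2 (`S = []`), and `Pf` maps `Jo N d` into itself because the `sf 1 B i j` do. -/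
def St_Pgo : Prop := ∀ (U : Type) [Ring U] (N : NonUnitalSubring U), Nr N → ∀ (a b c : ℕ), c ≤ 1 → 1 ≤ a + b + c →
  (∀ F ∈ Jo N (dW a b c), Pf N U a b c F ∈ AddSubgroup.closure {F | ∃ t ∈ yt (lB a b), ∃ u ∈ yt (lC a b c),
    (a + t.1 + (c - u.1)) % 2 = 1 ∧ F = wf N a b c t u}) ∧
  (∀ w : List ℕ, w.Perm (dW a b c) → Pf N U a b c (mo w) ∈
    AddSubgroup.closure {F | ∃ t ∈ yt (lB a b), ∃ u ∈ yt (lC a b c),
    (a + t.1 + (c - u.1)) % 2 = 0 ∧ F = wf N a b c t u} ⊔ Jo N (dW a b c))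

/-- [Nd3] Uses Npt, Cfy, Pgo, Evt, Evw, Dwp. PROOF. `Pw` corresponds to `Pf` (`sf ε B i j (mo w) = ε • mo (w.map (swap i j))` for `i, j ∈ B`, Evt twice), so `Ewd mo ((Pw a b c)^[n] L) = (Pf)^n (Ewd mo L)`. (1) `b ≤ 1`, `n = a + b + c + 1`: by Npt and Cfy `Pf^n (mo w)` is in the group generated by the `wf a b c t u`, which are `Ewd mo` of the elements of `TD3 a b c` (Evw 2).
(2) `b ≥ 2`, so `c ≤ 1`, `n = 2`: `Pf (mo w) = F0 + F1`, `F0` in the group generated by the `wf` of even level and `F1 ∈ Jo` (Pgo 2); `Pf F1` is in the group generated by the `wf` of odd level (Pgo 1), `Pf` of a `wf` of even level is `Ewd mo (Tw 1 (lB a b) (wW a b c t u))` (as `To .. C = 1`). -/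
def St_Nd3 : Prop := ∀ (a b c : ℕ), (b ≤ 1 ∨ c ≤ 1) → 1 ≤ a + b + c →
  ∃ n : ℕ, ∀ (U : Type) [Ring U] (N : NonUnitalSubring U), Nr N → ∀ w : List ℕ, w.Perm (dW a b c) →
    Ewd (mo : List ℕ → (ℕ → N) → U) ((Pw a b c)^[n] [(1, w)]) ∈
    AddSubgroup.closure {F | ∃ B ∈ TD3 a b c, F = Ewd (mo : List ℕ → (ℕ → N) → U) B}

/-- [Wd3] Uses Dwp (and perhaps Wpm). PROOF. As Wpm: the words in `wW a b c t u` are rearrangements of `dW a b c`, and `Tw 1 (lB a b)` preserves this. (The lemmas in `CRS/Wpm.lean` may be private: copy them.) -/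
def St_Wd3 : Prop := ∀ a b c : ℕ, ∀ B ∈ TD3 a b c, ∀ q ∈ B, q.2.Perm (dW a b c)

/-- [Zwg] Uses Res, Wpm, Dwp. The general form of Zwd, for any table `T` and any number `n`. PROOF. As Zwd (see `CRS/Zwd.lean`): take `U`, `N`, `θ` from Res; by hypothesis there are integers `m_B` with `Ewd mo (P^n w) = ∑ m_B • Ewd mo B`. Let `x : ℕ → A`; the list `L` of the words of `P^n w` and of `- m_B` times the words of the `B`, with `x_i` for the letter
`i`, has words of length `(dW a b c).length ≥ 6` only; its value in `U` at the `θ x_i` is 0, so by Res its value in `A` is 0. -/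
def St_Zwg : Prop := ∀ (A : Type) [NonUnitalRing A], (∀ x : A, x * x * x = 0) → (∃ r : ℕ, ∀ x : A, (3 ^ r) • x = 0) →
  (∀ l : List A, 6 ≤ l.length → (3 : ℤ) • wp l = 0) → ∀ a b c : ℕ, 6 ≤ (dW a b c).length →
  ∀ (n : ℕ) (T : List (List (ℤ × List ℕ))), (∀ B ∈ T, ∀ q ∈ B, q.2.Perm (dW a b c)) →
  (∀ (U : Type) [Ring U] (N : NonUnitalSubring U), Nr N → ∀ w : List ℕ, w.Perm (dW a b c) →
    Ewd (mo : List ℕ → (ℕ → N) → U) ((Pw a b c)^[n] [(1, w)]) ∈
    AddSubgroup.closure {F | ∃ B ∈ T, F = Ewd (mo : List ℕ → (ℕ → N) → U) B}) →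
  ∀ w : List ℕ, w.Perm (dW a b c) →
    Ewd (eA : List ℕ → (ℕ → A) → A) ((Pw a b c)^[n] [(1, w)]) ∈
    AddSubgroup.closure {F | ∃ B ∈ T, F = Ewd (eA : List ℕ → (ℕ → A) → A) B}

/-- [Tk3] THE RESULT. Uses Nd3, Wd3, Zwg, Tfx, Evt, Dwp. PROOF. As Tkb (see `CRS/Tkb.lean`), with `n` from Nd3 in place of `a + b + c + 1` and the table `TD3 a b c`: `F = Pf^n F = ∑ q.1 • Ewd eA ((Pw)^[n] [(1, q.2)])`, and these are integral combinations of the `Ewd eA B`, `B ∈ TD3 a b c` (Zwg, Nd3, Wd3). -/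
def St_Tk3 : Prop := ∀ (K : Type) [CommRing K] (A : Type) [NonUnitalRing A] [Module K A],
  (∀ x : A, x * x * x = 0) → (∃ r : ℕ, ∀ x : A, (3 ^ r) • x = 0) → (∀ l : List A, 6 ≤ l.length → (3 : ℤ) • wp l = 0) →
  ∀ a b c : ℕ, (b ≤ 1 ∨ c ≤ 1) → 6 ≤ (dW a b c).length → ∀ L : List (K × List ℕ), (∀ q ∈ L, q.2.Perm (dW a b c)) →
  (∀ i ∈ lB a b, ∀ j ∈ lB a b, ∀ x : ℕ → A, (L.map fun q => q.1 • wp (q.2.map fun k => x (Equiv.swap i j k))).sum =
    (L.map fun q => q.1 • wp (q.2.map x)).sum) →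
  (∀ i ∈ lC a b c, ∀ j ∈ lC a b c, i ≠ j → ∀ x : ℕ → A,
    (L.map fun q => q.1 • wp (q.2.map fun k => x (Equiv.swap i j k))).sum =
    -(L.map fun q => q.1 • wp (q.2.map x)).sum) →
  ∃ k : List K, k.length = (TD3 a b c).length ∧ ∀ x : Fin (a + b + c) → A,
    (L.map fun q => q.1 • wp (q.2.map (xs x))).sum = Kc k (TD3 a b c) x

end Pool.Agent.CRS
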