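import Pool.Agent.CRS.Thr
import Pool.Agent.CRS.StY

/-!
Campaign CRS (problem MP_1bb14d_al, stage 8), module Thd: the main theorem for `p = 3` with the simpler tables.
-/

set_option autoImplicit false

namespace Pool.Agent.CRS

/-- The tables for `p = 3` and the combinations of short words. -/
def Tg3d (g : ℕ) (B : List (List (ℤ × List ℕ))) : Prop := Wsh 5 g B ∨ Td3 g B

theorem thm_Thd (hH : St_Hom) (hT : St_Tk3) (hX : St_Exf) (hJ : Jk0) : KTg 3 Tg3d :=
  Thr_main TD3 hH hT hX hJ

end Pool.Agent.CRS
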