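import Pool.Agent.CRS.StB

set_option autoImplicit false

/-!
# Campaign CRS, module Vfp: standard functions
-/

namespace Pool.Agent.CRS

theorem Vfp_diff (d l S : List ℕ) (h : (l ++ S).Perm d) : l.Perm (d.diff S) := by
  have h1 : ((l : Multiset ℕ) + (S : Multiset ℕ)) = (d : Multiset ℕ) := by
    rw [Multiset.coe_add]
    exact Multiset.coe_eq_coe.2 h
  have h2 : (d : Multiset ℕ) - (S : Multiset ℕ) = (l : Multiset ℕ) := by
    rw [← h1]
    exact add_tsub_cancel_right _ _
  rw [Multiset.coe_sub] at h2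
  exact (Multiset.coe_eq_coe.1 h2).symm

theorem Vfp_gen {U : Type} [Ring U] {N : NonUnitalSubring U} (d S : List ℕ)
    (h : (d.diff S ++ S).Perm d) : vf N d S ∈ Jf N d S.length :=
  AddSubgroup.subset_closure ⟨d.diff S, S, h, le_refl _, rfl⟩

theorem Vfp_sw {U : Type} [Ring U] {N : NonUnitalSubring U} (d S : List ℕ) (i j : ℕ) :
    (fun x : ℕ → N => vf N d S (fun t => x (Equiv.swap i j t))) =
      mo ((d.diff S).map (Equiv.swap i j)) * br (S.map (Equiv.swap i j)) := by
  funext x
  show ((d.diff S).map fun k => (x (Equiv.swap i j k) : U)).prod *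
    brv (S.map fun k => (x (Equiv.swap i j k) : U)) =
    (((d.diff S).map (Equiv.swap i j)).map fun k => (x k : U)).prod *
      brv ((S.map (Equiv.swap i j)).map fun k => (x k : U))
  rw [List.map_map, List.map_map]
  rfl

theorem thm_Vfp (hJpr : St_Jpr) (hSwp : St_Swp) (hBra : St_Bra) (hDwp : St_Dwp) : St_Vfp := by
  intro U _ N hN a b c
  obtain ⟨D1, D2, D3, D4, -, -⟩ := hDwp a b c
  have h1 : ∀ l S : List ℕ, (l ++ S).Perm (dW a b c) → S.Nodup →
      (mo l * br S - vf N (dW a b c) S : (ℕ → N) → U) ∈ Jf N (dW a b c) (S.length + 1) :=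
    fun l S h _ => (hSwp U N hN (dW a b c) l S h).1 _ (Vfp_diff _ _ _ h)
  have h2 : ∀ S : List ℕ, ¬ S.Nodup → vf N (dW a b c) S = 0 := by
    intro S hS
    unfold vf
    rw [(hJpr U N hN (dW a b c) 0).2.2.2.2.2.2 S hS, mul_zero]
  refine ⟨h1, h2, fun S1 S2 i j => ?_, fun S i j hS hij => ?_, fun S hS hk hi => ?_,
    fun S h0 hk => ?_⟩
  · have hp : (S1 ++ i :: j :: S2).Perm (S1 ++ j :: i :: S2) :=
      List.Perm.append_left S1 (List.Perm.swap j i S2)
    have e1 : (br (S1 ++ i :: j :: S2) : (ℕ → N) → U) = -br (S1 ++ j :: i :: S2) := by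
      funext x
      show brv ((S1 ++ i :: j :: S2).map fun k => (x k : U)) =
        -brv ((S1 ++ j :: i :: S2).map fun k => (x k : U))
      rw [List.map_append, List.map_cons, List.map_cons, List.map_append, List.map_cons,
        List.map_cons]
      refine (hBra U N hN).1 _ _ _ _ fun y hy => ?_
      rw [List.mem_append, List.mem_cons, List.mem_cons, List.mem_map, List.mem_map] at hy
      rcases hy with ⟨t, _, rfl⟩ | rfl | rfl | ⟨t, _, rfl⟩
      · exact (x t).2
      · exact (x i).2
      · exact (x j).2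
      · exact (x t).2
    unfold vf
    rw [List.Perm.diff_left _ hp, e1, mul_neg]
  · by_cases hn : S.Nodup
    · have hn' : (S.map (Equiv.swap i j)).Nodup := hn.map (Equiv.swap i j).injective
      have hp := D3 S hn hS
      have hq : (((dW a b c).diff S).map (Equiv.swap i j) ++ S.map (Equiv.swap i j)).Perm
          (dW a b c) := by
        rw [← List.map_append]
        exact (hp.map _).trans (D2 i j hij)
      have h3 := h1 _ _ hq hn'
      rw [List.length_map] at h3
      rw [Vfp_sw]
      exact h3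
    · have hn' : ¬ (S.map (Equiv.swap i j)).Nodup := fun h => hn (List.Nodup.of_map _ h)
      rw [h2 _ hn', h2 _ hn, sub_zero]
      exact zero_mem _
  · have hp := D3 S hS hk
    obtain ⟨i, hi1, hi2⟩ := hi
    exact (hSwp U N hN (dW a b c) _ S hp).2 i (D4 _ S hp i hi1 hi2)
  · by_cases hn : S.Nodup
    · have hd : dW a b c ≠ [] := by
        intro h
        have h3 := D1.2.2.2.2.2.2.2.1
        rw [h] at h3
        simp at h3
        omega
      exact (hJpr U N hN (dW a b c) S.length).2.2.1 hd _ (Vfp_gen _ _ (D3 S hn hk))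
    · rw [h2 S hn, smul_zero]

end Pool.Agent.CRS
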