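import Pool.Agent.CRS.StX

/-!
Campaign CRS, module Vma: products and brackets are additive in every place.
-/

set_option autoImplicit false

namespace Pool.Agent.CRS

section

variable {U : Type} [Ring U]

private theorem Vma_eq (x y : U) (l : List U) (h : l.length ≠ 1) :
    brv (x :: y :: l) = cm x y * brv l := by
  match l, h with
  | [], _ => rfl
  | [z], h => exact absurd rfl h
  | z :: w :: l, _ => rfl

private theorem Vma_left (x x' y : U) : cm (x + x') y = cm x y + cm x' y := by
  unfold cm
  noncomm_ring

private theorem Vma_right (x y y' : U) : cm x (y + y') = cm x y + cm x y' := by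
  unfold cm
  noncomm_ring

private theorem Vma_prod (l1 l2 : List U) (a b : U) :
    (l1 ++ (a + b) :: l2).prod = (l1 ++ a :: l2).prod + (l1 ++ b :: l2).prod := by
  induction l1 with
  | nil => simp only [List.nil_append, List.prod_cons]; rw [add_mul]
  | cons x l ih =>
    simp only [List.cons_append, List.prod_cons]
    rw [ih, mul_add]

private theorem Vma_nil (l2 : List U) (a b : U) :
    brv ((a + b) :: l2) = brv (a :: l2) + brv (b :: l2) := by
  match l2 with
  | [] => exact (add_zero _).symm
  | [y, z] =>
    show cm (cm (a + b) y) z = cm (cm a y) z + cm (cm b y) z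
    rw [Vma_left, Vma_left]
  | [y] =>
    rw [Vma_eq _ _ _ (by simp), Vma_eq _ _ _ (by simp), Vma_eq _ _ _ (by simp), Vma_left, add_mul]
  | y :: z :: w :: l =>
    have h : (z :: w :: l).length ≠ 1 := by simp
    rw [Vma_eq (a + b) y _ h, Vma_eq a y _ h, Vma_eq b y _ h, Vma_left, add_mul]

private theorem Vma_one (l2 : List U) (x a b : U) :
    brv (x :: (a + b) :: l2) = brv (x :: a :: l2) + brv (x :: b :: l2) := by
  match l2 with
  | [z] =>
    show cm (cm x (a + b)) z = cm (cm x a) z + cm (cm x b) z
    rw [Vma_right, Vma_left]
  | [] =>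
    rw [Vma_eq _ _ _ (by simp), Vma_eq _ _ _ (by simp), Vma_eq _ _ _ (by simp), Vma_right, add_mul]
  | z :: w :: l =>
    have h : (z :: w :: l).length ≠ 1 := by simp
    rw [Vma_eq x (a + b) _ h, Vma_eq x a _ h, Vma_eq x b _ h, Vma_right, add_mul]

private theorem Vma_brv (n : ℕ) : ∀ (l1 l2 : List U) (a b : U), l1.length ≤ n →
    brv (l1 ++ (a + b) :: l2) = brv (l1 ++ a :: l2) + brv (l1 ++ b :: l2) := by
  induction n with
  | zero =>
    intro l1 l2 a b h
    have h1 : l1 = [] := List.length_eq_zero_iff.1 (by omega)
    subst h1
    exact Vma_nil l2 a b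
  | succ n ih =>
    intro l1 l2 a b h
    match l1, h with
    | [], _ => exact Vma_nil l2 a b
    | [x], _ => exact Vma_one l2 x a b
    | x :: y :: l, h =>
      by_cases h1 : (l ++ (a + b) :: l2).length = 1
      · have hl : l = [] := by
          have : l.length + (l2.length + 1) = 1 := by simpa using h1
          exact List.length_eq_zero_iff.1 (by omega)
        have hl2 : l2 = [] := by
          have : l.length + (l2.length + 1) = 1 := by simpa using h1
          exact List.length_eq_zero_iff.1 (by omega)
        subst hl hl2
        show cm (cm x y) (a + b) = cm (cm x y) a + cm (cm x y) b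
        exact Vma_right _ _ _
      · have h2 : ∀ c : U, (l ++ c :: l2).length ≠ 1 := by
          intro c hc
          apply h1
          rw [List.length_append, List.length_cons] at hc ⊢
          exact hc
        rw [List.cons_append, List.cons_append, Vma_eq _ _ _ (h2 _),
          List.cons_append, List.cons_append, Vma_eq _ _ _ (h2 _),
          List.cons_append, List.cons_append, Vma_eq _ _ _ (h2 _),
          ih l l2 a b (by simp only [List.length_cons] at h; omega), mul_add]

end

theorem thm_Vma : St_Vma := fun _ _ l1 l2 a b =>
  ⟨Vma_prod l1 l2 a b, Vma_brv l1.length l1 l2 a b le_rfl⟩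

end Pool.Agent.CRS
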