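import Pool.Agent.CRS.StB

/-!
Campaign CRS, p = 3, module Wpm: the words of the table are rearrangements of `dW a b c`.
-/

set_option autoImplicit false

namespace Pool.Agent.CRS

/-- All words of the combination are rearrangements of `d`. -/
private def Wpm_P (d : List ℕ) (L : List (ℤ × List ℕ)) : Prop := ∀ q ∈ L, q.2.Perm d

private theorem Wpm_brW : ∀ S : List ℕ, Wpm_P S (brW S) := by
  intro S
  induction S using brW.induct with
  | case1 =>
    intro q hq
    simp only [brW, List.mem_singleton] at hq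
    subst hq
    exact List.Perm.refl _
  | case2 x =>
    intro q hq
    simp [brW] at hq
  | case3 i j k =>
    intro q hq
    simp only [brW, List.mem_cons, List.not_mem_nil, or_false] at hq
    rcases hq with h | h | h | h <;> subst h <;> dsimp only
    · exact List.Perm.refl _
    · exact List.Perm.swap i j [k]
    · refine (List.Perm.swap i k [j]).trans ?_
      exact (List.Perm.swap j k []).cons i
    · refine ((List.Perm.swap i j []).cons k).trans ?_
      refine (List.Perm.swap i k [j]).trans ?_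
      exact (List.Perm.swap j k []).cons i
  | case4 i j l hl ih =>
    intro q hq
    rw [brW] at hq
    · rw [List.mem_flatMap] at hq
      obtain ⟨r, hr, hq⟩ := hq
      have hr' := ih r hr
      simp only [List.mem_cons, List.not_mem_nil, or_false] at hq
      rcases hq with h | h <;> subst h <;> dsimp only
      · exact (hr'.cons j).cons i
      · exact (List.Perm.swap i j r.2).trans ((hr'.cons j).cons i)
    · exact hl

private theorem Wpm_vW (d S : List ℕ) : Wpm_P (d.diff S ++ S) (vW d S) := by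
  intro q hq
  rw [vW, List.mem_map] at hq
  obtain ⟨r, hr, rfl⟩ := hq
  exact (Wpm_brW S r hr).append_left _

private theorem Wpm_scW {d : List ℕ} {L : List (ℤ × List ℕ)} (m : ℤ) (h : Wpm_P d L) : Wpm_P d (scW m L) := by
  intro q hq
  rw [scW, List.mem_map] at hq
  obtain ⟨r, hr, rfl⟩ := hq
  exact h r hr

private theorem Wpm_append {d : List ℕ} {L L' : List (ℤ × List ℕ)} (h : Wpm_P d L) (h' : Wpm_P d L') :
    Wpm_P d (L ++ L') := by
  intro q hq
  rcases List.mem_append.mp hq with hq | hq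
  · exact h q hq
  · exact h' q hq

private theorem Wpm_swW {d : List ℕ} {L : List (ℤ × List ℕ)} (ε : ℤ) (i j : ℕ)
    (hd : (d.map (Equiv.swap i j)).Perm d) (h : Wpm_P d L) : Wpm_P d (swW ε i j L) := by
  intro q hq
  rw [swW, List.mem_map] at hq
  obtain ⟨r, hr, rfl⟩ := hq
  exact ((h r hr).map _).trans hd

private theorem Wpm_stW {d : List ℕ} {L : List (ℤ × List ℕ)} (ε : ℤ) (i : ℕ) (l : List ℕ)
    (hd : ∀ j ∈ l, (d.map (Equiv.swap i j)).Perm d) (h : Wpm_P d L) : Wpm_P d (stW ε i l L) := by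
  intro q hq
  rw [stW, List.mem_flatMap] at hq
  obtain ⟨j, hj, hq⟩ := hq
  exact Wpm_swW ε i j (hd j hj) h q hq

private theorem Wpm_Xw {d : List ℕ} {L : List (ℤ × List ℕ)} (ε : ℤ) (i : ℕ) (l : List ℕ)
    (hd : ∀ j ∈ l, (d.map (Equiv.swap i j)).Perm d) (h : Wpm_P d L) : Wpm_P d (Xw ε i l L) := by
  unfold Xw
  split_ifs with h1 h2
  · exact h
  · exact Wpm_scW _ (Wpm_append h (Wpm_stW ε i l hd h))
  · have hl : l ≠ [] := fun hl => h1 (Or.inr hl)
    have hh : l.headD 0 ∈ l := by
      cases l with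
      | nil => exact absurd rfl hl
      | cons x l => simp
    have hv := Wpm_scW (-1) (Wpm_append h (Wpm_swW ε i (l.headD 0) (hd _ hh) h))
    have hw := Wpm_stW ε i l hd hv
    exact Wpm_append (Wpm_append hv hw) (Wpm_swW ε i _ (hd _ hh) hw)

private theorem Wpm_Tw {d : List ℕ} (ε : ℤ) : ∀ (B : List ℕ)
    (_ : ∀ i ∈ B, ∀ j ∈ B, (d.map (Equiv.swap i j)).Perm d) (L : List (ℤ × List ℕ)), Wpm_P d L →
    Wpm_P d (Tw ε B L) := by
  intro B
  induction B with
  | nil => intro _ L h; exact h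
  | cons i l ih =>
    intro hd L h
    rw [Tw]
    refine Wpm_Xw ε i l (fun j hj => hd i (List.mem_cons_self ..) j (List.mem_cons_of_mem _ hj)) ?_
    exact ih (fun i' hi' j' hj' => hd i' (List.mem_cons_of_mem _ hi') j' (List.mem_cons_of_mem _ hj')) L h

theorem thm_Wpm : St_Dwp → St_Wpm := by
  intro hD a b c
  obtain ⟨⟨hA, hB, hC, mA, mB, mC, mW, _, _⟩, h2, h3, _, _, _⟩ := hD a b c
  have h6 : ∀ B : List ℕ, B.Nodup → ∀ t ∈ yt B, t.1 ≤ B.length ∧ ∀ X ∈ t.2, X.length = t.1 ∧ X.Nodup ∧
      ∀ i ∈ X, i ∈ B := (hD a b c).2.2.2.2.2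
  have hP : ∀ L : List (ℤ × List ℕ), Wpm_P (dW a b c) L → Wpm_P (dW a b c) (Pw a b c L) := by
    intro L hL
    rw [Pw]
    refine Wpm_Tw 1 _ (fun i hi j hj => h2 i j (Or.inl ⟨hi, hj⟩)) _ ?_
    exact Wpm_Tw (-1) _ (fun i hi j hj => h2 i j (Or.inr ⟨hi, hj⟩)) _ hL
  have hI : ∀ (n : ℕ) (L : List (ℤ × List ℕ)), Wpm_P (dW a b c) L → Wpm_P (dW a b c) ((Pw a b c)^[n] L) := by
    intro n
    induction n with
    | zero => intro L hL; exact hL
    | succ n ih => intro L hL; rw [Function.iterate_succ_apply]; exact ih _ (hP L hL)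
  refine ⟨?_, hP⟩
  intro B hBm
  rw [TB3, List.mem_flatMap] at hBm
  obtain ⟨t, ht, hBm⟩ := hBm
  rw [List.mem_map] at hBm
  obtain ⟨u, hu, rfl⟩ := hBm
  refine hI _ _ ?_
  intro q hq
  rw [wW, List.mem_flatMap] at hq
  obtain ⟨X, hX, hq⟩ := hq
  rw [List.mem_flatMap] at hq
  obtain ⟨Y, hY, hq⟩ := hq
  refine Wpm_scW _ ?_ q hq
  have hXp := (h6 _ hB t ht).2 X hX
  have hS : (lA a ++ X ++ (lC a b c).diff Y).Nodup := by
    rw [List.nodup_append]
    refine ⟨?_, hC.diff, ?_⟩
    · rw [List.nodup_append]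
      refine ⟨hA, hXp.2.1, ?_⟩
      intro x hx y hy hxy
      subst hxy
      have h1 := (mA x).mp hx
      have h2' := (mB x).mp (hXp.2.2 x hy)
      omega
    · intro x hx y hy hxy
      subst hxy
      have hy' := (mC x).mp (List.diff_subset _ _ hy)
      rcases List.mem_append.mp hx with hx | hx
      · have := (mA x).mp hx
        omega
      · have := (mB x).mp (hXp.2.2 x hx)
        omega
  have hlt : ∀ i ∈ lA a ++ X ++ (lC a b c).diff Y, i < a + b + c := by
    intro i hi
    rcases List.mem_append.mp hi with hi | hi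
    · rcases List.mem_append.mp hi with hi | hi
      · have := (mA i).mp hi
        omega
      · have := (mB i).mp (hXp.2.2 i hi)
        omega
    · have := (mC i).mp (List.diff_subset _ _ hi)
      omega
  intro r hr
  exact (Wpm_vW _ _ r hr).trans (h3 _ hS hlt)

end Pool.Agent.CRS
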