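import Pool.Agent.CRS.StY

/-!
CRS, p = 3: transfer of the symmetrisation of words to the ring, for any table.
-/

set_option autoImplicit false

namespace Pool.Agent.CRS

open Pool.Agent.CRR Pool.Agent.CRN Pool.Agent.CRK Pool.Agent.CRL Pool.Agent.CRM Pool.Agent.CRP
open Pool.Agent.CRQ

private theorem Zwg_neg {M ι : Type} [AddCommGroup M] (φ : ι → M) (L : List (ℤ × ι)) :
    -(L.map fun q => q.1 • φ q.2).sum =
      ((L.map fun q => (-q.1, q.2)).map fun q => q.1 • φ q.2).sum := by
  induction L with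
  | nil => simp
  | cons q L ih =>
    simp only [List.map_cons, List.sum_cons, neg_add, neg_smul] at ih ⊢
    rw [ih]

private theorem Zwg_closure {M ι : Type} [AddCommGroup M] (φ : ι → M) (T : List ι) {m : M}
    (h : m ∈ AddSubgroup.closure {F | ∃ B ∈ T, F = φ B}) :
    ∃ L : List (ℤ × ι), (∀ q ∈ L, q.2 ∈ T) ∧ m = (L.map fun q => q.1 • φ q.2).sum := by
  induction h using AddSubgroup.closure_induction with
  | mem x hx =>
    obtain ⟨B, hB, rfl⟩ := hx
    exact ⟨[(1, B)], by simpa using hB, by simp⟩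
  | zero => exact ⟨[], by simp, by simp⟩
  | add x y _ _ hx hy =>
    obtain ⟨L, hL, rfl⟩ := hx
    obtain ⟨L', hL', rfl⟩ := hy
    refine ⟨L ++ L', ?_, ?_⟩
    · intro q hq
      rcases List.mem_append.mp hq with h | h
      · exact hL q h
      · exact hL' q h
    · rw [List.map_append, List.sum_append]
  | neg x _ hx =>
    obtain ⟨L, hL, rfl⟩ := hx
    refine ⟨L.map fun q => (-q.1, q.2), ?_, Zwg_neg φ L⟩
    intro q hq
    obtain ⟨q', hq', rfl⟩ := List.mem_map.mp hq
    exact hL q' hq'

private theorem Zwg_append {M : Type} [AddCommGroup M] (e : List ℕ → M)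
    (L L' : List (ℤ × List ℕ)) : Ewd e (L ++ L') = Ewd e L + Ewd e L' := by
  unfold Ewd
  rw [List.map_append, List.sum_append]

private theorem Zwg_scW {M : Type} [AddCommGroup M] (e : List ℕ → M) (m : ℤ)
    (L : List (ℤ × List ℕ)) : Ewd e (scW m L) = m • Ewd e L := by
  unfold Ewd scW
  induction L with
  | nil => simp
  | cons q L ih =>
    simp only [List.map_cons, List.sum_cons, smul_add, mul_smul] at ih ⊢
    rw [ih]

/-- the negative combination as a list of words -/
private def Zwg_fl (L : List (ℤ × List (ℤ × List ℕ))) : List (ℤ × List ℕ) :=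
  L.flatMap fun q => scW (-q.1) q.2

private theorem Zwg_fl_eq {M : Type} [AddCommGroup M] (e : List ℕ → M)
    (L : List (ℤ × List (ℤ × List ℕ))) :
    Ewd e (Zwg_fl L) = -(L.map fun q => q.1 • Ewd e q.2).sum := by
  unfold Zwg_fl
  induction L with
  | nil => simp [Ewd]
  | cons q L ih =>
    rw [List.flatMap_cons, Zwg_append, ih, Zwg_scW, List.map_cons, List.sum_cons, neg_smul,
      neg_add]

private theorem Zwg_apply {X G : Type} [AddCommGroup G] (e : List ℕ → X → G)
    (L : List (ℤ × List ℕ)) (x : X) : Ewd e L x = (L.map fun q => q.1 • e q.2 x).sum := by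
  unfold Ewd
  induction L with
  | nil => simp
  | cons q L ih =>
    rw [List.map_cons, List.sum_cons, List.map_cons, List.sum_cons, Pi.add_apply, ih,
      Pi.smul_apply]

private theorem Zwg_iter (hWpm : St_Wpm) (a b c k : ℕ) (w : List ℕ) (hw : w.Perm (dW a b c)) :
    ∀ q ∈ (Pw a b c)^[k] [(1, w)], q.2.Perm (dW a b c) := by
  induction k with
  | zero =>
    intro q hq
    simp only [Function.iterate_zero, id_eq, List.mem_singleton] at hq
    rw [hq]
    exact hw
  | succ k ih =>
    rw [Function.iterate_succ_apply']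
    exact (hWpm a b c).2 _ ih

theorem thm_Zwg (hRes : St_Res) (hWpm : St_Wpm) : St_Zwg := by
  intro A _ hcube htor h6 a b c hlen n T hT hNd w hw
  obtain ⟨U, _, N, θ, hN, hθ⟩ := hRes A hcube htor h6
  obtain ⟨L, hL, hE⟩ := Zwg_closure _ _ (hNd U N hN w hw)
  set P := (Pw a b c)^[n] [(1, w)] with hP
  let W : List (ℤ × List ℕ) := P ++ Zwg_fl L
  have hWperm : ∀ q ∈ W, q.2.Perm (dW a b c) := by
    intro q hq
    rcases List.mem_append.mp hq with h | h
    · exact Zwg_iter hWpm a b c _ w hw q h
    · unfold Zwg_fl at h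
      obtain ⟨r, hr, hqr⟩ := List.mem_flatMap.mp h
      unfold scW at hqr
      obtain ⟨s, hs, rfl⟩ := List.mem_map.mp hqr
      exact hT r.2 (hL r hr) s hs
  have hW0 : Ewd (mo : List ℕ → (ℕ → N) → U) W = 0 := by
    rw [Zwg_append, Zwg_fl_eq, hE, add_neg_cancel]
  have hWA : Ewd (eA : List ℕ → (ℕ → A) → A) W = 0 := by
    funext x
    have h1 := hθ (dW a b c).length hlen (W.map fun q => (q.1, q.2.map x)) (by
      intro q hq
      obtain ⟨r, hr, rfl⟩ := List.mem_map.mp hq
      rw [List.length_map]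
      exact (hWperm r hr).length_eq) (by
      have h2 := congrFun hW0 (fun i => θ (x i))
      rw [Zwg_apply, Pi.zero_apply] at h2
      rw [List.map_map, ← h2]
      congr 1
      apply List.map_congr_left
      intro q _
      simp only [Function.comp_apply, mo, List.map_map]
      rfl)
    rw [List.map_map] at h1
    rw [Zwg_apply, Pi.zero_apply, ← h1]
    congr 1
  rw [Zwg_append, Zwg_fl_eq, ← sub_eq_add_neg, sub_eq_zero] at hWA
  rw [hWA]
  apply AddSubgroup.list_sum_mem
  intro F hF
  obtain ⟨q, hq, rfl⟩ := List.mem_map.mp hF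
  apply AddSubgroup.zsmul_mem
  exact AddSubgroup.subset_closure ⟨q.2, hL q hq, rfl⟩

end Pool.Agent.CRS
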