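import Pool.Agent.CRS.AllH
import Pool.Agent.CRS.Thd
import Pool.Agent.CRS.Fid
import Pool.Agent.CRS.Bra
import Pool.Agent.CRS.Jpr
import Pool.Agent.CRS.Swp
import Pool.Agent.CRS.Tfx
import Pool.Agent.CRS.Aly
import Pool.Agent.CRS.Alz
import Pool.Agent.CRS.Alx
import Pool.Agent.CRS.Sgn
import Pool.Agent.CRS.Cpf
import Pool.Agent.CRS.Alq
import Pool.Agent.CRS.Dwp
import Pool.Agent.CRS.Vfp
import Pool.Agent.CRS.Alc
import Pool.Agent.CRS.Grb
import Pool.Agent.CRS.Grc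
import Pool.Agent.CRS.Grd
import Pool.Agent.CRS.Npt
import Pool.Agent.CRS.Evt
import Pool.Agent.CRS.Evw
import Pool.Agent.CRS.Res
import Pool.Agent.CRS.Wpm
import Pool.Agent.CRS.Vma
import Pool.Agent.CRS.Dde
import Pool.Agent.CRS.Ddj
import Pool.Agent.CRS.Ddv
import Pool.Agent.CRS.Exa
import Pool.Agent.CRS.Rlc
import Pool.Agent.CRS.Exg
import Pool.Agent.CRS.Exf
import Pool.Agent.CRS.Dwl
import Pool.Agent.CRS.Cfw
import Pool.Agent.CRS.Cfy
import Pool.Agent.CRS.Bzx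
import Pool.Agent.CRS.Ple
import Pool.Agent.CRS.Pal
import Pool.Agent.CRS.Spo
import Pool.Agent.CRS.Pgo
import Pool.Agent.CRS.Nd3
import Pool.Agent.CRS.Wd3
import Pool.Agent.CRS.Zwg
import Pool.Agent.CRS.Tk3

/-!
Campaign CRS (problem MP_1bb14d_al, stage 8): all statements of the files StB, StX, StY used for the tables TD3,
and the main theorem for `p = 3`.
-/

set_option autoImplicit false

namespace Pool.Agent.CRS

theorem bra : St_Bra := thm_Bra thm_Fid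
theorem dwp : St_Dwp := thm_Dwp
theorem jpr : St_Jpr := thm_Jpr bra
theorem swp : St_Swp := thm_Swp bra
theorem vfp : St_Vfp := thm_Vfp jpr swp bra dwp
theorem tfx : St_Tfx := thm_Tfx
theorem alx : St_Alx := thm_Alx thm_Aly thm_Alz
theorem alq : St_Alq := thm_Alq alx
theorem cpf : St_Cpf := thm_Cpf thm_Sgn
theorem alc : St_Alc := thm_Alc alx cpf thm_Sgn
theorem grb : St_Grb := thm_Grb vfp jpr dwp alq
theorem grc : St_Grc := thm_Grc vfp jpr dwp alc
theorem grd : St_Grd := thm_Grd grb grc vfp jpr dwp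
theorem npt : St_Npt := thm_Npt grd jpr dwp
theorem res : St_Res := thm_Res
theorem wpm : St_Wpm := thm_Wpm dwp
theorem dde : St_Dde := thm_Dde thm_Vma bra
theorem ddj : St_Ddj := thm_Ddj dde
theorem ddv : St_Ddv := thm_Ddv ddj dde vfp jpr bra dwp
theorem exg : St_Exg := thm_Exg thm_Exa ddv ddj vfp jpr dwp
theorem exf : St_Exf := thm_Exf exg thm_Rlc res jpr dwp
theorem cfw : St_Cfw := thm_Cfw cpf bra dwp thm_Dwl
theorem cfy : St_Cfy := thm_Cfy cfw tfx vfp dwp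
theorem bzx : St_Bzx := thm_Bzx thm_Fid
theorem ple : St_Ple := thm_Ple bzx bra
theorem pal : St_Pal := thm_Pal ple thm_Dwl dwp vfp
theorem spo : St_Spo := thm_Spo ple jpr dwp
theorem pgo : St_Pgo := thm_Pgo pal spo vfp dwp alx alq
theorem nd3 : St_Nd3 := thm_Nd3 npt cfy pgo thm_Evt thm_Evw
theorem wd3 : St_Wd3 := thm_Wd3 dwp
theorem zwg : St_Zwg := thm_Zwg res wpm
theorem tk3 : St_Tk3 := thm_Tk3 nd3 wd3 zwg tfx thm_Evt dwp

/-- The main theorem for `p = 3`. -/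
theorem thd : KTg 3 (fun g B => Wsh 5 g B ∨ Td3 g B) := thm_Thd hom tk3 exf jk0

/-- The letters of the words of the tables. -/
theorem let3 : ∀ g B, Td3 g B → ∀ b ∈ B, ∀ q ∈ b, ∀ i, i ∈ q.2 ↔ i < g := by
  rintro g B ⟨a, b, c, hg, -, rfl⟩ b' hb' q hq i
  have h := wd3 a b c b' hb' q hq
  rw [h.mem_iff, ((dwp a b c).1).2.2.2.2.2.2.1 i, hg]

end Pool.Agent.CRS
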