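import Pool.Agent.CRS.Ala
import Pool.Agent.CRS.AllB

/-!
Campaign CRS: the final theorem without hypotheses (problem MP_1bb14d_al).
-/

set_option autoImplicit false

namespace Pool.Agent.CRS

open Pool.Agent.CRR Pool.Agent.CRN Pool.Agent.CRK Pool.Agent.CRL Pool.Agent.CRM Pool.Agent.CRP
open Pool.Agent.CRQ

/-- All critical rings with `x^3 = x^n`. -/
theorem all : ∀ n : ℕ, 4 ≤ n → ∀ (R : Type) [NonUnitalRing R] [Finite R], InM n R →
    (Critical R ↔ MatType R 2 ∨ MatType R 3 ∨ TriType R ∨ TriType Rᵐᵒᵖ ∨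
      (¬ Twn R ∧ (PthType R n ∨ PthType Rᵐᵒᵖ n ∨ Twl R n ∨
        ((Nat.card R).Coprime 6 ∧ (CenT R n ∨ NilT R)) ∨ CenE R n ∨ NilE R))) :=
  Ala_fin thd let3

end Pool.Agent.CRS
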