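import Pool.Agent.CRS.StE
import Mathlib.Tactic

set_option autoImplicit false

namespace Pool.Agent.CRS

open Pool.Agent.CRR Pool.Agent.CRN Pool.Agent.CRK Pool.Agent.CRL Pool.Agent.CRM Pool.Agent.CRP
open Pool.Agent.CRQ

theorem thm_Blk : St_Blk := by
  intro ι M _ k φ hs U W b hb hk U' A B C W' hA hB hC hperm
  have hne : ∀ l : List (Fin 5), l ≠ [] → (l.map b).flatten ≠ [] := by
    intro l hl
    cases l with
    | nil => exact absurd rfl hl
    | cons i l =>
      simp only [List.map_cons, List.flatten_cons]
      intro h
      exact hb i (List.append_eq_nil_iff.1 h).1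
  have hlen : ((U ++ (U'.map b).flatten) ++ (A.map b).flatten ++ (B.map b).flatten ++ (C.map b).flatten ++
      ((W'.map b).flatten ++ W)).length = k := by
    have h1 := ((hperm.map b).map List.length).sum_eq
    simp only [List.map_append, List.sum_append, List.map_cons, List.map_nil, List.sum_cons, List.sum_nil] at h1
    simp only [List.length_append] at hk
    simp only [List.length_append, List.length_flatten]
    omega
  have h := hs (U ++ (U'.map b).flatten) (A.map b).flatten (B.map b).flatten (C.map b).flatten
    ((W'.map b).flatten ++ W) (hne A hA) (hne B hB) (hne C hC) hlen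
  simp only [List.map_append, List.flatten_append, List.append_assoc] at h ⊢
  exact h

end Pool.Agent.CRS
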