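import Pool.Agent.CRS.StY

/-!
# CRS.Bzx: brackets which contain `x` kill commutators with `x`; palindromes (MP_1bb14d_al)
-/

set_option autoImplicit false

namespace Pool.Agent.CRS

open Pool.Agent.CRR Pool.Agent.CRN Pool.Agent.CRK Pool.Agent.CRL Pool.Agent.CRM Pool.Agent.CRP
open Pool.Agent.CRQ

section bzx

variable {U : Type} [Ring U]

private theorem Bzx_eq (x y : U) (l : List U) (h : l.length ≠ 1) : brv (x :: y :: l) = cm x y * brv l := by
  match l, h with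
  | [], _ => rfl
  | [_], h => exact absurd rfl h
  | _ :: _ :: _, _ => rfl

private theorem Bzx_anti (x y : U) : cm x y = -cm y x := by
  unfold cm
  abel

private theorem Bzx_self (x : U) : cm x x = 0 := by
  unfold cm
  abel

private theorem Bzx_cmN {N : NonUnitalSubring U} {x y : U} (hx : x ∈ N) (hy : y ∈ N) : cm x y ∈ N :=
  N.sub_mem (N.mul_mem hx hy) (N.mul_mem hy hx)

private theorem Bzx_a {N : NonUnitalSubring U}
    (F4 : ∀ x ∈ N, ∀ y ∈ N, ∀ z ∈ N, ∀ w ∈ N, cm x y * cm z w = -(cm x z * cm y w))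
    {x y z : U} (hx : x ∈ N) (hy : y ∈ N) (hz : z ∈ N) : cm x y * cm x z = 0 := by
  rw [F4 x hx y hy x hx z hz, Bzx_self, zero_mul, neg_zero]

private theorem Bzx_b {N : NonUnitalSubring U}
    (F4 : ∀ x ∈ N, ∀ y ∈ N, ∀ z ∈ N, ∀ w ∈ N, cm x y * cm z w = -(cm x z * cm y w))
    {x y z u : U} (hx : x ∈ N) (hy : y ∈ N) (hz : z ∈ N) (hu : u = 1 ∨ u ∈ N) : cm x y * u * cm x z = 0 := by
  rcases hu with rfl | hu
  · rw [mul_one, Bzx_a F4 hx hy hz]
  · have h1 := Bzx_a F4 hx hy (N.mul_mem hu hz)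
    have h2 := Bzx_a F4 hx hy hu
    have h3 : cm x y * cm x (u * z) = cm x y * cm x u * z + cm x y * u * cm x z := by
      simp only [cm]
      noncomm_ring
    rw [h1, h2, zero_mul, zero_add] at h3
    exact h3.symm

private theorem Bzx_t {N : NonUnitalSubring U}
    (F2 : ∀ x ∈ N, ∀ y ∈ N, ∀ z ∈ N, cm (cm x y) z = -cm (cm x z) y ∧ cm (cm x y) z = -cm (cm y x) z)
    (F4 : ∀ x ∈ N, ∀ y ∈ N, ∀ z ∈ N, ∀ w ∈ N, cm x y * cm z w = -(cm x z * cm y w))
    {x y z w u : U} (hx : x ∈ N) (hy : y ∈ N) (hz : z ∈ N) (hw : w ∈ N) (hu : u = 1 ∨ u ∈ N) :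
    cm x y * u * cm (cm x z) w = 0 := by
  rw [(F2 x hx z hz w hw).2, (F2 z hz x hx w hw).1, neg_neg, Bzx_anti (cm z w) x, mul_neg,
    Bzx_b F4 hx hy (Bzx_cmN hz hw) hu, neg_zero]

private theorem Bzx_1 {N : NonUnitalSubring U}
    (F2 : ∀ x ∈ N, ∀ y ∈ N, ∀ z ∈ N, cm (cm x y) z = -cm (cm x z) y ∧ cm (cm x y) z = -cm (cm y x) z)
    (F4 : ∀ x ∈ N, ∀ y ∈ N, ∀ z ∈ N, ∀ w ∈ N, cm x y * cm z w = -(cm x z * cm y w)) :
    ∀ (S : List U), (∀ z ∈ S, z ∈ N) → ∀ x ∈ S, ∀ y ∈ N, ∀ u : U, u = 1 ∨ u ∈ N → cm x y * u * brv S = 0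
  | [], _, x, hx, _, _, _, _ => by simp at hx
  | [_], _, _, _, _, _, _, _ => by
    rw [show ∀ a : U, brv [a] = 0 from fun _ => rfl, mul_zero]
  | [a, b, c], h, x, hx, y, hy, u, hu => by
    have ha : a ∈ N := h a (by simp)
    have hb : b ∈ N := h b (by simp)
    have hc : c ∈ N := h c (by simp)
    rw [show brv [a, b, c] = cm (cm a b) c from rfl]
    simp only [List.mem_cons, List.not_mem_nil, or_false] at hx
    rcases hx with rfl | rfl | rfl
    · exact Bzx_t F2 F4 ha hy hb hc hu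
    · rw [(F2 a ha x hb c hc).2, mul_neg, Bzx_t F2 F4 hb hy ha hc hu, neg_zero]
    · rw [Bzx_anti (cm a b) x, mul_neg, Bzx_b F4 hc hy (Bzx_cmN ha hb) hu, neg_zero]
  | a :: b :: [], h, x, hx, y, hy, u, hu => by
    have ha : a ∈ N := h a (by simp)
    have hb : b ∈ N := h b (by simp)
    rw [Bzx_eq a b [] (by simp), ← mul_assoc]
    simp only [List.mem_cons, List.not_mem_nil, or_false] at hx
    rcases hx with rfl | rfl
    · rw [Bzx_b F4 ha hy hb hu, zero_mul]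
    · rw [Bzx_anti a x, mul_neg, Bzx_b F4 hb hy ha hu, neg_zero, zero_mul]
  | a :: b :: c :: d :: l, h, x, hx, y, hy, u, hu => by
    have ha : a ∈ N := h a (by simp)
    have hb : b ∈ N := h b (by simp)
    have hl : ∀ z ∈ c :: d :: l, z ∈ N := fun z hz => h z (List.mem_cons_of_mem _ (List.mem_cons_of_mem _ hz))
    rw [Bzx_eq a b (c :: d :: l) (by simp), ← mul_assoc]
    rw [List.mem_cons, List.mem_cons] at hx
    rcases hx with rfl | rfl | hx
    · rw [Bzx_b F4 ha hy hb hu, zero_mul]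
    · rw [Bzx_anti a x, mul_neg, Bzx_b F4 hb hy ha hu, neg_zero, zero_mul]
    · have hab := Bzx_cmN ha hb
      have hu' : u * cm a b = 1 ∨ u * cm a b ∈ N := by
        right
        rcases hu with rfl | hu
        · rw [one_mul]
          exact hab
        · exact N.mul_mem hu hab
      rw [mul_assoc (cm x y) u (cm a b)]
      exact Bzx_1 F2 F4 (c :: d :: l) hl x hx y hy _ hu'

private theorem Bzx_2 {N : NonUnitalSubring U}
    (F1 : ∀ x ∈ N, ∀ y ∈ N, cm (cm x y) y = 0)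
    (F4 : ∀ x ∈ N, ∀ y ∈ N, ∀ z ∈ N, ∀ w ∈ N, cm x y * cm z w = -(cm x z * cm y w))
    {x y m : U} (hx : x ∈ N) (hy : y ∈ N) (hm : m = 1 ∨ m ∈ N) :
    x * y * m * y * x - y * x * m * x * y = cm (cm x y) m * (y * x) := by
  have e1 : cm (cm x y) y = 0 := F1 x hx y hy
  have e2 : cm (cm y x) x = 0 := F1 y hy x hx
  have e3 : cm m (y * x) * cm x y = 0 := by
    rcases hm with rfl | hm
    · have : cm (1 : U) (y * x) = 0 := by
        unfold cm
        rw [one_mul, mul_one, sub_self]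
      rw [this, zero_mul]
    · have f1 : cm m (y * x) * cm x y = (cm m y * x) * cm x y + y * (cm m x * cm x y) := by
        simp only [cm]
        noncomm_ring
      have f2 : cm y m * x * cm y x = 0 := Bzx_b F4 hy hm hx (Or.inr hx)
      have f3 : cm x m * cm x y = 0 := Bzx_a F4 hx hm hy
      rw [f1, Bzx_anti m y, Bzx_anti m x, neg_mul (cm x m), f3, neg_zero, mul_zero, add_zero, Bzx_anti x y,
        neg_mul (cm y m), neg_mul_neg, f2]
  have e4 : x * y * m * y * x - y * x * m * x * y = cm (cm x y) m * (y * x) + cm m (y * x) * cm x y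
      + m * (cm (cm x y) y * x) - m * (y * cm (cm y x) x) := by
    simp only [cm]
    noncomm_ring
  rw [e4, e3, e1, e2]
  simp

end bzx

/-- **Bzx** -/
theorem thm_Bzx : St_Fid → St_Bzx := by
  intro hF U _ N hN
  obtain ⟨F1, F2, _, F4, _⟩ := hF U N hN
  refine ⟨?_, ?_⟩
  · intro S hS x hx y hy u hu
    have h1 := Bzx_1 F2 F4 S hS x hx y hy u hu
    refine ⟨h1, ?_⟩
    rw [Bzx_anti y x, neg_mul, neg_mul, h1, neg_zero]
  · intro x hx y hy m hm
    exact Bzx_2 F1 F4 hx hy hm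

end Pool.Agent.CRS
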