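import Pool.Agent.CRS.StG

/-!
Campaign CRS: module `Cta`, third case, preparation.
-/

set_option autoImplicit false

namespace Pool.Agent.CRS

open Pool.Agent.CRR Pool.Agent.CRN Pool.Agent.CRK Pool.Agent.CRL Pool.Agent.CRM Pool.Agent.CRP
open Pool.Agent.CRQ

private theorem cta_sym (hR : St_Rct) (g : ℕ) (V : Type) [AddCommGroup V] (hg : 6 ≤ g)
    (h2 : ∀ v : V, v + v = 0) (κ : Fin g → Fin g → V)
    (h : ∀ p q i j : Fin g, [p, q, i, j].Nodup →
      κ p i + κ q i + κ p j + κ q j = κ i p + κ i q + κ j p + κ j q) :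
    ∃ (γ : Fin g → V) (τ : V), ∀ i j, i ≠ j → κ i j + κ j i = γ i + γ j + τ := by
  refine (hR g V (by omega) h2 (fun i j => κ i j + κ j i) ?_).2 (fun i j _ => add_comm _ _)
  intro p q i j hn
  have e1 : κ p i + κ i p + (κ q i + κ i q) + (κ p j + κ j p) + (κ q j + κ j q) =
      (κ p i + κ q i + κ p j + κ q j) + (κ i p + κ i q + κ j p + κ j q) := by abel
  show κ p i + κ i p + (κ q i + κ i q) + (κ p j + κ j p) + (κ q j + κ j q) = 0
  rw [e1, h p q i j hn]
  exact h2 _

theorem thm_Cta (hR : St_Rct) : St_Cta := by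
  intro F V X _ _ _ g e κ act C a hD _ ha hκ
  have hF : ∀ c : F, c + c = 0 := fun c => by rw [← two_mul, hD.ft, zero_mul]
  have hV : ∀ v : V, v + v = 0 := fun v => by rw [← two_smul F v, hD.ft, zero_smul]
  obtain ⟨u, k, hu⟩ := cta_sym hR g F hD.six hF a (fun p q i j hn => by
    rw [ha p q i j hn]; ring)
  refine ⟨u, k, fun i j => if i = j then 0 else a i j + u j + (if i < j then k else 0),
    fun i => if_pos rfl, ?_, ?_, fun x => cta_sym hR g V hD.six hV (κ x) (hκ x)⟩
  · intro i j
    by_cases hij : i = j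
    · rw [hij]
    · show (if i = j then 0 else a i j + u j + (if i < j then k else 0)) =
        (if j = i then 0 else a j i + u i + (if j < i then k else 0))
      rw [if_neg hij, if_neg (Ne.symm hij)]
      have h1 := hu i j hij
      rcases lt_or_gt_of_ne hij with h2 | h2
      · rw [if_pos h2, if_neg (not_lt.mpr h2.le)]
        linear_combination h1 + hF (u j) + hF k - hF (a j i)
      · rw [if_neg (not_lt.mpr h2.le), if_pos h2]
        linear_combination h1 + hF (u j) - hF (a j i)
  · intro i j hij
    show a i j = (if i = j then 0 else a i j + u j + (if i < j then k else 0)) + u j +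
      (if i < j then k else 0)
    rw [if_neg hij]
    by_cases h2 : i < j
    · rw [if_pos h2]
      linear_combination - hF (u j) - hF k
    · rw [if_neg h2]
      linear_combination - hF (u j)

end Pool.Agent.CRS
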