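import Pool.Agent.CRS.StE
import Mathlib.Tactic

/-!
CRS: the differences depend only on the neighbours.
-/

set_option autoImplicit false

namespace Pool.Agent.CRS

open Pool.Agent.CRR Pool.Agent.CRN Pool.Agent.CRK Pool.Agent.CRL Pool.Agent.CRM Pool.Agent.CRP
open Pool.Agent.CRQ

section daw

variable {ι M : Type} [AddCommGroup M]

private theorem daw_eq (h2 : ∀ m : M, m + m = 0) {x y : M} (h : x + y = 0) : x = y := by
  have h3 := h2 y
  have : x + y = y + y := by rw [h, h3]
  exact add_right_cancel this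

private theorem daw_blk (hB : St_Blk) {k : ℕ} {φ : List ι → M} (hs : Hs k φ)
    (U W b0 b1 b2 b3 b4 : List ι) (h0 : b0 ≠ []) (h1 : b1 ≠ []) (h2 : b2 ≠ []) (h3 : b3 ≠ [])
    (h4 : b4 ≠ []) (hk : (U ++ b0 ++ b1 ++ b2 ++ b3 ++ b4 ++ W).length = k) :
    H5 (fun l => φ (U ++ (l.map (![b0, b1, b2, b3, b4] : Fin 5 → List ι)).flatten ++ W)) := by
  apply hB ι M k φ hs
  · intro i
    fin_cases i
    · exact h0
    · exact h1
    · exact h2
    · exact h3
    · exact h4
  · exact hk

private theorem daw_one (hI : St_Idn) (hB : St_Blk) (two : ∀ m : M, m + m = 0) {k : ℕ}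
    {φ : List ι → M} (hs : Hs k φ)
    (U W b0 b1 b2 b3 b4 : List ι) (h0 : b0 ≠ []) (h1 : b1 ≠ []) (h2 : b2 ≠ []) (h3 : b3 ≠ [])
    (h4 : b4 ≠ []) (hk : (U ++ b0 ++ b1 ++ b2 ++ b3 ++ b4 ++ W).length = k) :
    φ (U ++ (b0 ++ (b1 ++ (b2 ++ (b3 ++ (b4 ++ W)))))) +
    φ (U ++ (b0 ++ (b1 ++ (b3 ++ (b2 ++ (b4 ++ W)))))) +
    φ (U ++ (b1 ++ (b2 ++ (b3 ++ (b4 ++ (b0 ++ W)))))) +
    φ (U ++ (b1 ++ (b3 ++ (b2 ++ (b4 ++ (b0 ++ W)))))) = 0 := by
  have h := (hI M two _ (daw_blk hB hs U W b0 b1 b2 b3 b4 h0 h1 h2 h3 h4 hk)).1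
  simp only [List.map_cons, List.map_nil, List.flatten_cons, List.flatten_nil, List.append_nil,
    List.append_assoc] at h
  exact h

private theorem daw_two (hI : St_Idn) (hB : St_Blk) (two : ∀ m : M, m + m = 0) {k : ℕ}
    {φ : List ι → M} (hs : Hs k φ)
    (U W b0 b1 b2 b3 b4 : List ι) (h0 : b0 ≠ []) (h1 : b1 ≠ []) (h2 : b2 ≠ []) (h3 : b3 ≠ [])
    (h4 : b4 ≠ []) (hk : (U ++ b0 ++ b1 ++ b2 ++ b3 ++ b4 ++ W).length = k) :
    φ (U ++ (b0 ++ (b1 ++ (b2 ++ (b3 ++ (b4 ++ W)))))) +
    φ (U ++ (b0 ++ (b1 ++ (b2 ++ (b4 ++ (b3 ++ W)))))) +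
    φ (U ++ (b1 ++ (b0 ++ (b2 ++ (b3 ++ (b4 ++ W)))))) +
    φ (U ++ (b1 ++ (b0 ++ (b2 ++ (b4 ++ (b3 ++ W)))))) = 0 := by
  have h := (hI M two _ (daw_blk hB hs U W b0 b1 b2 b3 b4 h0 h1 h2 h3 h4 hk)).2.1
  simp only [List.map_cons, List.map_nil, List.flatten_cons, List.flatten_nil, List.append_nil,
    List.append_assoc] at h
  exact h

/-- The right part may be permuted. -/
private theorem daw_right (hI : St_Idn) (hB : St_Blk) (hP : St_Pin) (two : ∀ m : M, m + m = 0)
    {k : ℕ} {φ : List ι → M} (hs : Hs k φ) (U : List ι) (a b q : ι) {m m' : List ι}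
    (hk : (U ++ a :: b :: q :: m).length = k) (hm : m'.Perm m) :
    φ (U ++ a :: b :: q :: m) + φ (U ++ b :: a :: q :: m) =
      φ (U ++ a :: b :: q :: m') + φ (U ++ b :: a :: q :: m') := by
  refine hP ι M (fun w => φ (U ++ a :: b :: q :: w) + φ (U ++ b :: a :: q :: w)) m ?_ m m'
    (List.Perm.refl m) hm
  intro V n c d hp
  have hl := hp.length_eq
  have h := daw_two hI hB two hs U n [a] [b] (q :: V) [c] [d] (by simp) (by simp) (by simp)
    (by simp) (by simp) (by
      simp only [List.length_append, List.length_cons, List.length_nil] at hk hl ⊢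
      omega)
  simp only [List.cons_append, List.nil_append] at h
  apply daw_eq two
  rw [← h]
  abel

/-- The left part may be permuted. -/
private theorem daw_left (hI : St_Idn) (hB : St_Blk) (hP : St_Pin) (two : ∀ m : M, m + m = 0)
    {k : ℕ} {φ : List ι → M} (hs : Hs k φ) (p a b : ι) {m m' : List ι}
    (hk : (m ++ [p, a, b]).length = k) (hm : m'.Perm m) :
    φ (m ++ [p, a, b]) + φ (m ++ [p, b, a]) =
      φ (m' ++ [p, a, b]) + φ (m' ++ [p, b, a]) := by
  refine hP ι M (fun w => φ (w ++ [p, a, b]) + φ (w ++ [p, b, a])) m ?_ m m'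
    (List.Perm.refl m) hm
  intro V n c d hp
  have hl := hp.length_eq
  have h := daw_two hI hB two hs V [] [c] [d] (n ++ [p]) [a] [b] (by simp) (by simp) (by simp)
    (by simp) (by simp) (by
      simp only [List.length_append, List.length_cons, List.length_nil] at hk hl ⊢
      omega)
  simp only [List.cons_append, List.nil_append, List.append_assoc, List.append_nil] at h
  simp only [List.append_assoc, List.cons_append]
  apply daw_eq two
  rw [← h]
  abel

private theorem daw_rs [DecidableEq ι] {l S m : List ι} (hl : l.Nodup) (h : (S ++ m).Perm l) :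
    (rs l S).Perm m := by
  have h1 : (rs l S).Perm (rs (S ++ m) S) := h.symm.filter _
  have hnd : (S ++ m).Nodup := h.nodup_iff.mpr hl
  have h2 : rs (S ++ m) S = m := by
    unfold rs
    rw [List.filter_append]
    have e1 : S.filter (fun i => decide (i ∉ S)) = [] := by
      rw [List.filter_eq_nil_iff]
      intro i hi
      simpa using hi
    have e2 : m.filter (fun i => decide (i ∉ S)) = m := by
      rw [List.filter_eq_self]
      intro i hi
      have := (List.nodup_append.mp hnd).2.2
      simp only [decide_eq_true_eq]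
      intro hS
      exact this i hS i hi rfl
    rw [e1, e2, List.nil_append]
  rwa [h2] at h1

end daw

theorem thm_Daw (hI : St_Idn) (hB : St_Blk) (hP : St_Pin) : St_Daw := by
  intro ι M _ _ φ l h
  refine ⟨?_, ?_, ?_⟩
  · intro U W p a b q hp
    have hp2 : ([p, a, b, q] ++ (W ++ U)).Perm l := by
      refine List.Perm.trans ?_ hp
      have : ([p, a, b, q] ++ (W ++ U)) = (p :: a :: b :: q :: W) ++ U := by simp
      rw [this]
      exact List.perm_append_comm
    have hrs := daw_rs h.nd hp2
    have hlen := hp2.length_eq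
    have h1 := daw_right hI hB hP h.two h.hs [p] a b q (m := W ++ U) (m' := rs l [p, a, b, q])
      (by
        simp only [List.length_append, List.length_cons, List.length_nil] at hlen ⊢
        omega) hrs
    have h2 : φ (U ++ p :: a :: b :: q :: W) + φ (U ++ p :: b :: a :: q :: W) =
        φ ([p] ++ a :: b :: q :: (W ++ U)) + φ ([p] ++ b :: a :: q :: (W ++ U)) := by
      by_cases hU : U = []
      · subst hU
        simp
      · have h3 := daw_one hI hB h.two h.hs [] [] U [p] [a] [b] (q :: W) hU (by simp) (by simp)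
          (by simp) (by simp) (by
            simp only [List.length_append, List.length_cons, List.length_nil] at hlen ⊢
            omega)
        simp only [List.cons_append, List.nil_append, List.append_nil] at h3
        simp only [List.cons_append, List.nil_append]
        apply daw_eq h.two
        rw [← h3]
        abel
    rw [h2, h1]
    rfl
  · intro W a b q hp
    have hp2 : ([a, b, q] ++ W).Perm l := hp
    have hrs := daw_rs h.nd hp2
    have h1 := daw_right hI hB hP h.two h.hs [] a b q (m := W) (m' := rs l [a, b, q])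
      (by simpa using hp.length_eq) hrs
    exact h1
  · intro U p a b hp
    have hp2 : ([p, a, b] ++ U).Perm l := List.perm_append_comm.trans hp
    have hrs := daw_rs h.nd hp2
    exact daw_left hI hB hP h.two h.hs p a b (m := U) (m' := rs l [p, a, b]) hp.length_eq hrs

end Pool.Agent.CRS
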