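import Pool.Agent.CRQ.Defs2

/-!
Campaign CRS: explicit lists for the primes 2 and 3 (problem MP_1bb14d_al, stage 7).  Definitions.
-/

set_option autoImplicit false

namespace Pool.Agent.CRS

open Pool.Agent.CRR Pool.Agent.CRN Pool.Agent.CRK Pool.Agent.CRL Pool.Agent.CRM Pool.Agent.CRP
open Pool.Agent.CRQ

section kdefs

variable (K : Type) [CommRing K] {A : Type} [NonUnitalRing A] [Module K A]

/-- `c` acts invertibly modulo `p`. -/
def Ku (A : Type) [NonUnitalRing A] [Module K A] (p : ℕ) (c : K) : Prop :=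
  ∃ d : K, ∀ x : A, ∃ y : A, d • c • x - x = p • y

/-- The setting.  `K` acts on `A`, modulo `p` through a field, `x^3 = 0` in `A`, `M` is a `K`-submodule which contains `A^2` and
`p A`, `H` is the annihilator of `A` and `p` in `A`.  (Nilpotent rings: `K = ℤ`, `A = R`, `M = R^2 + p R`; central local rings:
`A` the functions from a class of conjugate frames `t` to the radical `J`, `K = ℤ[X]`, `(C • x)(t) = C(t) x(t)`, `M` the functions
with values in `J^2 + p R`, `H` the functions with values in the least nonzero ideal.  So do not use bases of `A` modulo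
`M` or that `H` is simple: argue with functions.) -/
structure Kst (p : ℕ) (M H : AddSubgroup A) : Prop where
  pp : p = 2 ∨ p = 3
  cube : ∀ x : A, x * x * x = 0
  pr : ∃ r : ℕ, ∀ x : A, (p ^ r) • x = 0
  fld : ∀ c : K, (∀ x : A, ∃ y : A, c • x = p • y) ∨ Ku K A p c
  mK : ∀ c : K, ∀ x ∈ M, c • x ∈ M
  mp : ∀ x : A, p • x ∈ M
  mm : ∀ x y : A, x * y ∈ M
  hK : ∀ c : K, ∀ x ∈ H, c • x ∈ H
  h0 : ∀ x ∈ H, p • x = 0 ∧ ∀ y : A, x * y = 0 ∧ y * x = 0
  h1 : ∀ x : A, p • x = 0 → (∀ y : A, x * y = 0 ∧ y * x = 0) → x ∈ H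

/-- `f` is a combination of words which contain exactly the letters `0, ..., g - 1`, with coefficients in `K`. -/
def Wf (g : ℕ) (f : (Fin g → A) → A) : Prop :=
  ∃ L : List (K × List ℕ), (∀ q ∈ L, q.2 ≠ [] ∧ ∀ i, i ∈ q.2 ↔ i < g) ∧
    ∀ x, f x = (L.map fun q => q.1 • wp (q.2.map (xs x))).sum

/-- `f` is good: its values are in `H`, it depends only on the arguments modulo `M`, it is zero if the arguments are
dependent modulo `M`, and it is not zero. -/
structure Good (p : ℕ) (M H : AddSubgroup A) (g : ℕ) (f : (Fin g → A) → A) : Prop where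
  val : ∀ x, f x ∈ H
  inv : ∀ x y : Fin g → A, (∀ i, x i - y i ∈ M) → f x = f y
  dep : ∀ (x : Fin g → A) (c : Fin g → K) (j : Fin g), Ku K A p (c j) → ∑ i, c i • x i ∈ M → f x = 0
  ne : ∃ x, f x ≠ 0

/-- A word function of more than `g` arguments which is zero if its arguments are dependent modulo `M` is zero. -/
def Dm (p : ℕ) (M : AddSubgroup A) (g : ℕ) : Prop :=
  ∀ n : ℕ, g < n → ∀ F : (Fin n → A) → A, Wf K n F →
    (∀ (x : Fin n → A) (c : Fin n → K) (j : Fin n), Ku K A p (c j) →
      ∑ i, c i • x i ∈ M → F x = 0) → ∀ x, F x = 0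

/-- There are `g` elements such that every word function which depends only on the arguments modulo `M` and is not
zero is not zero at some `K`-combinations of them. -/
def Gn (M : AddSubgroup A) (g : ℕ) : Prop := ∃ z : Fin g → A, ∀ (r : ℕ) (F : (Fin r → A) → A),
  Wf K r F → (∀ x y : Fin r → A, (∀ i, x i - y i ∈ M) → F x = F y) → (∃ x, F x ≠ 0) →
  ∃ c : Fin r → Fin g → K, F (fun i => ∑ k, c i k • z k) ≠ 0

/-- A product of at least seven elements, one of them in `M`, is zero if all longer products are zero. -/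
def Mt (M : AddSubgroup A) : Prop := ∀ m ∈ M, ∀ l₁ l₂ : List A, 6 ≤ l₁.length + l₂.length →
  (∀ l : List A, l₁.length + l₂.length + 2 ≤ l.length → wp l = 0) → wp (l₁ ++ m :: l₂) = 0

variable {K} in
/-- `∑ c_i B_i`, `B_i` integral combinations of words. -/
def Kc (c : List K) (B : List (List (ℤ × List ℕ))) {g : ℕ} (x : Fin g → A) : A :=
  ((c.zip B).map fun q => q.1 • Vg q.2 x).sum

/-- Products of `Tn p g` elements are zero. -/
def Tn (p g : ℕ) : ℕ := if p = 2 then g + 3 else 3 * g + 1

/-- The form of the two main theorems. -/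
def KTh (p : ℕ) (Tb : ℕ → List (List (ℤ × List ℕ)) → Prop) : Prop :=
  ∀ (K : Type) [CommRing K] (A : Type) [NonUnitalRing A] [Module K A] [IsScalarTower K A A]
    [SMulCommClass K A A] (M H : AddSubgroup A) (g : ℕ) (f : (Fin g → A) → A),
    Kst K p M H → 6 ≤ g → (∀ l : List A, Tn p g ≤ l.length → wp l = 0) → Dm K p M g →
    Gn K M g → Mt M → Wf K g f → Good K p M H g f →
    ∃ (B : List (List (ℤ × List ℕ))) (c : List K), Tb g B ∧ c.length = B.length ∧
      Good K p M H g (Kc c B)

end kdefs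

end Pool.Agent.CRS
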