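import Pool.Agent.CRS.Defs

/-!
Campaign CRS, p = 3: the explicit list (problem MP_1bb14d_al, stage 7).  Definitions.

Combinations of words are lists of pairs (coefficient, word).  For a given number `a` of letters of degree 3, `b` of degree 2
and `c` of degree 1 the list `TB3 a b c` consists of at most 16 combinations of words.
-/

set_option autoImplicit false

namespace Pool.Agent.CRS

/-- The combination `[i,j][k,l]...` of words, with `[[i,j],k]` at the end if the number of letters is odd. -/
def brW : List ℕ → List (ℤ × List ℕ)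
  | [] => [(1, [])]
  | [_] => []
  | [i, j, k] => [(1, [i, j, k]), (-1, [j, i, k]), (-1, [k, i, j]), (1, [k, j, i])]
  | i :: j :: l => (brW l).flatMap fun q => [(q.1, i :: j :: q.2), (-q.1, j :: i :: q.2)]

/-- `m` times the combination `L`. -/
def scW (m : ℤ) (L : List (ℤ × List ℕ)) : List (ℤ × List ℕ) := L.map fun q => (m * q.1, q.2)

/-- The letters of `d` which are not used in `S`, in the order of `d`, followed by the bracket of `S`. -/
def vW (d S : List ℕ) : List (ℤ × List ℕ) := (brW S).map fun q => (q.1, d.diff S ++ q.2)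

/-- Exchange the letters `i` and `j`, with the sign `ε`. -/
def swW (ε : ℤ) (i j : ℕ) (L : List (ℤ × List ℕ)) : List (ℤ × List ℕ) :=
  L.map fun q => (ε * q.1, q.2.map (Equiv.swap i j))

/-- The sum of the `swW ε i j L` for `j` in `l`. -/
def stW (ε : ℤ) (i : ℕ) (l : List ℕ) (L : List (ℤ × List ℕ)) : List (ℤ × List ℕ) :=
  l.flatMap fun j => swW ε i j L

/-- One step of the symmetrisation (modulo 3). -/
def Xw (ε : ℤ) (i : ℕ) (l : List ℕ) (L : List (ℤ × List ℕ)) : List (ℤ × List ℕ) :=
  if l.length % 3 = 2 ∨ l = [] then L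
  else if l.length % 3 = 1 then scW (-1) (L ++ stW ε i l L)
  else
    let v := scW (-1) (L ++ swW ε i (l.headD 0) L)
    let w := stW ε i l v
    v ++ w ++ swW ε i (l.headD 0) w

/-- The symmetrisation (`ε = 1`) or antisymmetrisation (`ε = -1`), modulo 3, with respect to a list of letters. -/
def Tw (ε : ℤ) : List ℕ → List (ℤ × List ℕ) → List (ℤ × List ℕ)
  | [], L => L
  | i :: l, L => Xw ε i l (Tw ε l L)

/-- The letters of degree 3, 2 and 1. -/
def lA (a : ℕ) : List ℕ := List.range a
@[inherit_doc lA] def lB (a b : ℕ) : List ℕ := List.range' a b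
@[inherit_doc lA] def lC (a b c : ℕ) : List ℕ := List.range' (a + b) c

/-- All the letters with their multiplicities. -/
def dW (a b c : ℕ) : List ℕ := lA a ++ lA a ++ lA a ++ lB a b ++ lC a b c ++ (lB a b).reverse

/-- Symmetrisation in the letters of degree 2 and antisymmetrisation in the letters of degree 1. -/
def Pw (a b c : ℕ) (L : List (ℤ × List ℕ)) : List (ℤ × List ℕ) :=
  Tw 1 (lB a b) (Tw (-1) (lC a b c) L)

/-- The sign of an ordering. -/
def sg : List ℕ → ℤ
  | [] => 1
  | i :: l => (-1) ^ (l.filter (· < i)).length * sg l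

/-- The types of a set of letters: a number `r` and lists of length `r`. -/
def yt : List ℕ → List (ℕ × List (List ℕ))
  | [] => [(0, [[]])]
  | i :: l => [(0, [[]]), (1, (i :: l).map fun j => [j])] ++
      if l.length % 3 = 2 then [(1, [[i]]), (2, l.map fun j => [j, i])] else []

/-- The combination of words of the types `t` and `u`: the letters of degree 3, those in `X` and the letters of degree 1 which
are not in `Y` are in the bracket, and one takes the sum over `X` in `t` and `Y` in `u`. -/
def wW (a b c : ℕ) (t u : ℕ × List (List ℕ)) : List (ℤ × List ℕ) :=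
  t.2.flatMap fun X => u.2.flatMap fun Y =>
    scW (sg (Y ++ (lC a b c).diff Y)) (vW (dW a b c) (lA a ++ X ++ (lC a b c).diff Y))

/-- The list for `a` letters of degree 3, `b` of degree 2 and `c` of degree 1. -/
def TB3 (a b c : ℕ) : List (List (ℤ × List ℕ)) :=
  (yt (lB a b)).flatMap fun t => (yt (lC a b c)).map fun u => (Pw a b c)^[b - t.1 + u.1] (wW a b c t u)

/-- The lists for `g` letters. -/
def Tb3 (g : ℕ) (B : List (List (ℤ × List ℕ))) : Prop :=
  ∃ a b c : ℕ, a + b + c = g ∧ (b ≤ 1 ∨ c ≤ 1) ∧ B = TB3 a b c

end Pool.Agent.CRS
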