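import Pool.Agent.CRS.DefsB

/-!
Campaign CRS, p = 3: a simpler form of the explicit list (problem MP_1bb14d_al, stage 8).  Definitions.
-/

set_option autoImplicit false

namespace Pool.Agent.CRS

/-- The list for `a` letters of degree 3, `b` of degree 2 and `c` of degree 1, `b ≤ 1` or `c ≤ 1`: at most 8 combinations of
words.  If `b ≤ 1`, or if the number of letters in the brackets is odd, then they are the `wW a b c t u` as they are; otherwise
(`c ≤ 1`) the symmetrisation with respect to the letters of degree 2 is applied once. -/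
def TD3 (a b c : ℕ) : List (List (ℤ × List ℕ)) :=
  (yt (lB a b)).flatMap fun t => (yt (lC a b c)).map fun u =>
    if b ≤ 1 ∨ (a + t.1 + (c - u.1)) % 2 = 1 then wW a b c t u else Tw 1 (lB a b) (wW a b c t u)

/-- The lists for `g` letters. -/
def Td3 (g : ℕ) (B : List (List (ℤ × List ℕ))) : Prop :=
  ∃ a b c : ℕ, a + b + c = g ∧ (b ≤ 1 ∨ c ≤ 1) ∧ B = TD3 a b c

end Pool.Agent.CRS
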