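import Pool.Agent.CRS.StE
import Mathlib.Tactic

/-!
# CRS.Drl: relations between the differences, first part (MP_1bb14d_al)
-/

set_option autoImplicit false

namespace Pool.Agent.CRS

open Pool.Agent.CRR Pool.Agent.CRN Pool.Agent.CRK Pool.Agent.CRL Pool.Agent.CRM Pool.Agent.CRP
open Pool.Agent.CRQ

private theorem drl_perm {ι M : Type} [DecidableEq ι] [AddCommGroup M] {φ : List ι → M} {l : List ι} (K : Ks φ l)
    (S : List ι) (hS : S.Nodup) : (S ++ rs l S).Perm l := by
  have h1 : (S ++ rs l S).Nodup := by
    rw [List.nodup_append]
    refine ⟨hS, K.nd.filter _, ?_⟩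
    intro a ha b hb hab
    subst hab
    unfold rs at hb
    rw [List.mem_filter] at hb
    exact (of_decide_eq_true hb.2) ha
  rw [List.perm_ext_iff_of_nodup h1 K.nd]
  intro i
  refine ⟨fun _ => K.all i, fun hi => ?_⟩
  by_cases h : i ∈ S
  · exact List.mem_append_left _ h
  · refine List.mem_append_right _ ?_
    unfold rs
    exact List.mem_filter.2 ⟨hi, by simpa using h⟩

private theorem drl_eq {M : Type} [AddCommGroup M] (h2 : ∀ m : M, m + m = 0) {x y : M} (h : x + y = 0) : x = y := by
  have h3 := h2 y
  calc x = x + (y + y) := by rw [h3, add_zero]
    _ = x + y + y := by rw [add_assoc]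
    _ = y := by rw [h, zero_add]

theorem thm_Drl (hI : St_Idn) (hB : St_Blk) (hD : St_Daw) : St_Drl := by
  intro ι M _ _ φ l K
  obtain ⟨D1, D2, D3⟩ := hD ι M φ l K
  have h2 := K.two
  refine ⟨?_, ?_, ?_, ?_⟩
  · intro p a b q hnd
    have hp := drl_perm K [p, a, b, q] hnd
    simp only [List.cons_append, List.nil_append] at hp
    have hp' : (p :: b :: a :: q :: rs l [p, a, b, q]).Perm l :=
      List.Perm.trans (List.Perm.cons _ (List.Perm.swap _ _ _)) hp
    have hnd3 : [a, b, q].Nodup := (List.nodup_cons.1 hnd).2
    have hp2 := drl_perm K [a, b, q] hnd3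
    simp only [List.cons_append, List.nil_append] at hp2
    have hp2' : (b :: a :: q :: rs l [a, b, q]).Perm l := List.Perm.trans (List.Perm.swap _ _ _) hp2
    have hnd4 : [p, a, b].Nodup := by
      have : [p, a, b].Sublist [p, a, b, q] := by simp
      exact hnd.sublist this
    have hp3 := drl_perm K [p, a, b] hnd4
    have hp3' : (rs l [p, a, b] ++ [p, b, a]).Perm l := by
      refine List.Perm.trans ?_ hp3
      refine List.Perm.trans List.perm_append_comm ?_
      simp only [List.cons_append, List.nil_append]
      exact List.Perm.cons _ (List.Perm.swap _ _ _)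
    refine ⟨?_, ?_, ?_⟩
    · have e1 := D1 [] (rs l [p, a, b, q]) p b a q (by simpa using hp')
      rw [← e1]
      unfold Da
      simp only [List.nil_append]
      rw [add_comm]
    · have e1 := D2 (rs l [a, b, q]) b a q hp2'
      rw [← e1]
      unfold Db
      rw [add_comm]
    · have e1 := D3 (rs l [p, a, b]) p b a hp3'
      rw [← e1]
      unfold Dc
      rw [add_comm]
  · intro p a b q q' hnd
    set m := rs l [p, a, b, q, q'] with hm
    have hp : (p :: a :: b :: q :: q' :: m).Perm l := by
      have := drl_perm K [p, a, b, q, q'] hnd
      simpa only [List.cons_append, List.nil_append] using this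
    have H := hB ι M l.length φ K.hs [] m ![[p], [a], [b], [q], [q']]
      (by intro i; fin_cases i <;> simp) (by
        have := hp.length_eq
        simpa using this)
    have I := (hI M h2 _ H).2.2.1
    simp at I
    have e1 := D1 [] (q' :: m) p a b q (by simpa using hp)
    have e2 := D1 [] (q :: m) p a b q' (by
      simp only [List.nil_append]
      refine List.Perm.trans ?_ hp
      exact List.Perm.cons _ (List.Perm.cons _ (List.Perm.cons _ (List.Perm.swap _ _ _))))
    have e3 := D2 (q' :: p :: m) a b q (by
      refine List.Perm.trans ?_ hp
      have : (a :: b :: q :: q' :: p :: m).Perm (p :: a :: b :: q :: q' :: m) := by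
        have := @List.perm_middle _ p [a, b, q, q'] m
        simpa using this
      exact this)
    have e4 := D2 (q :: p :: m) a b q' (by
      refine List.Perm.trans ?_ hp
      have h5 : (a :: b :: q' :: q :: p :: m).Perm (p :: a :: b :: q' :: q :: m) := by
        have := @List.perm_middle _ p [a, b, q', q] m
        simpa using this
      refine h5.trans ?_
      exact List.Perm.cons _ (List.Perm.cons _ (List.Perm.cons _ (List.Perm.swap _ _ _))))
    simp only [List.nil_append] at e1 e2
    rw [← e1, ← e2, ← e3, ← e4]
    refine drl_eq h2 ?_
    rw [← I]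
    abel
  · intro p p' a b q hnd
    have hnd' : [q, p', p, a, b].Nodup := by
      have : [q, p', p, a, b].Perm [p, p', a, b, q] := by
        have h1 : [q, p', p, a, b].Perm [p', p, a, b, q] := by
          have := @List.perm_middle _ q [p', p, a, b] []
          simpa using this.symm
        exact h1.trans (List.Perm.swap _ _ _)
      exact this.nodup_iff.2 hnd
    set m := rs l [q, p', p, a, b] with hm
    have hp0 : (q :: p' :: p :: a :: b :: m).Perm l := by
      have := drl_perm K [q, p', p, a, b] hnd'
      simpa only [List.cons_append, List.nil_append] using this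
    have hp : (m ++ [q, p', p, a, b]).Perm l := by
      refine List.Perm.trans List.perm_append_comm ?_
      simpa using hp0
    have H := hB ι M l.length φ K.hs m [] ![[q], [p'], [p], [a], [b]]
      (by intro i; fin_cases i <;> simp) (by
        have := hp.length_eq
        simpa using this)
    have I := (hI M h2 _ H).2.2.1
    simp at I
    have e1 := D3 (m ++ [q, p']) p a b (by simpa using hp)
    have e2 := D3 (m ++ [q, p]) p' a b (by
      refine List.Perm.trans ?_ hp
      simp only [List.append_assoc, List.cons_append, List.nil_append]
      exact List.Perm.append_left _ (List.Perm.cons _ (List.Perm.swap _ _ _)))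
    have h6 : [p', p, a, b, q].Perm [q, p', p, a, b] := by
      have := @List.perm_middle _ q [p', p, a, b] []
      simpa using this
    have e3 := D1 (m ++ [p']) [] p a b q (by
      refine List.Perm.trans ?_ hp
      simp only [List.append_assoc, List.cons_append, List.nil_append]
      exact List.Perm.append_left _ h6)
    have e4 := D1 (m ++ [p]) [] p' a b q (by
      refine List.Perm.trans ?_ hp
      simp only [List.append_assoc, List.cons_append, List.nil_append]
      exact List.Perm.append_left _ ((List.Perm.swap _ _ _).trans h6))
    simp only [List.append_assoc, List.cons_append, List.nil_append] at e1 e2 e3 e4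
    rw [← e1, ← e2, ← e3, ← e4]
    refine drl_eq h2 ?_
    rw [← I]
    abel
  · intro a b c hnd
    set m := rs l [a, b, c] with hm
    have hp : (a :: b :: c :: m).Perm l := by
      have := drl_perm K [a, b, c] hnd
      simpa only [List.cons_append, List.nil_append] using this
    have H := K.hs [] [a] [b] [c] m (by simp) (by simp) (by simp) (by
      have := hp.length_eq
      simpa using this)
    simp only [List.nil_append, List.cons_append] at H
    have e1 := D2 m a b c hp
    have e2 := D2 m b c a (by
      refine List.Perm.trans ?_ hp
      have := @List.perm_middle _ a [b, c] m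
      simpa using this)
    have e3 := D2 m a c b (by
      refine List.Perm.trans ?_ hp
      exact List.Perm.cons _ (List.Perm.swap _ _ _))
    rw [← e1, ← e2, ← e3, ← H]
    abel

end Pool.Agent.CRS
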