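import Pool.Agent.CRS.StE
import Mathlib.Tactic

/-!
Campaign CRS, module Drm: relations (second part).
-/

set_option autoImplicit false

namespace Pool.Agent.CRS

open Pool.Agent.CRR Pool.Agent.CRN Pool.Agent.CRK Pool.Agent.CRL Pool.Agent.CRM Pool.Agent.CRP
open Pool.Agent.CRQ

private theorem drm_base {ι M : Type} [DecidableEq ι] [AddCommGroup M] {φ : List ι → M}
    {l : List ι} (ks : Ks φ l) (S : List ι) (hS : S.Nodup) : (S ++ rs l S).Perm l := by
  have h1 : (S ++ rs l S).Nodup := by
    refine List.Nodup.append hS (ks.nd.filter _) ?_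
    intro x hx hx2
    have h2 := (List.mem_filter.1 hx2).2
    simp only [decide_not, Bool.not_eq_true', decide_eq_false_iff_not] at h2
    exact h2 hx
  refine (List.perm_ext_iff_of_nodup h1 ks.nd).2 fun x => ?_
  refine ⟨fun _ => ks.all x, fun hx => ?_⟩
  by_cases hxS : x ∈ S
  · exact List.mem_append.2 (Or.inl hxS)
  · refine List.mem_append.2 (Or.inr (List.mem_filter.2 ⟨hx, ?_⟩))
    simp only [decide_not, Bool.not_eq_true', decide_eq_false_iff_not]
    exact hxS

private theorem drm_h5 {ι M : Type} [DecidableEq ι] [AddCommGroup M] {φ : List ι → M}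
    {l : List ι} (ks : Ks φ l) (hB : St_Blk) (W b0 b1 b2 b3 b4 : List ι)
    (h0 : b0 ≠ []) (h1 : b1 ≠ []) (h2 : b2 ≠ []) (h3 : b3 ≠ []) (h4 : b4 ≠ [])
    (hp : (b0 ++ b1 ++ b2 ++ b3 ++ b4 ++ W).Perm l) :
    H5 (fun w : List (Fin 5) => φ ([] ++ (w.map ![b0, b1, b2, b3, b4]).flatten ++ W)) := by
  refine hB ι M l.length φ ks.hs [] W ![b0, b1, b2, b3, b4] ?_ ?_
  · intro i
    fin_cases i
    · exact h0
    · exact h1
    · exact h2
    · exact h3
    · exact h4
  · have h5 := hp.length_eq
    simpa using h5

theorem thm_Drm (hI : St_Idn) (hB : St_Blk) (hD : St_Daw) : St_Drm := by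
  intro ι M _ _ φ l ks
  obtain ⟨hDa, hDb, hDc⟩ := hD ι M φ l ks
  have five : ∀ p a b c q : ι, [p, a, b, c, q].Nodup →
      ∃ m : List ι, ∀ w : List ι, (∀ x, w.count x = (p :: a :: b :: c :: q :: m).count x) →
        w.Perm l := by
    intro p a b c q h
    refine ⟨rs l [p, a, b, c, q], fun w hw => ?_⟩
    have h1 := drm_base ks _ h
    exact (List.perm_iff_count.2 hw).trans h1
  have key : ∀ p a b c q : ι, [p, a, b, c, q].Nodup →
      (Da φ l p a b q + Da φ l p b c q + Da φ l p a c q + Db φ l a b q + Db φ l b c q +
        Db φ l a c q = 0) ∧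
      (Da φ l p a b q + Da φ l p b c q + Da φ l p a c q + Dc φ l p a b + Dc φ l p b c +
        Dc φ l p a c = 0) ∧
      (Da φ l p a b q + Db φ l a b q + Dc φ l p a b + Da φ l p a c q + Db φ l a c q +
        Dc φ l p a c + Da φ l a b c q + Db φ l b c q + Da φ l p b c a + Dc φ l p b c = 0) := by
    intro p a b c q h
    obtain ⟨m, hm⟩ := five p a b c q h
    have h5 := drm_h5 ks hB [] [p] [a] [b] [c] (q :: m) (by simp) (by simp) (by simp) (by simp)
      (by simp) (hm _ fun x => by simp)
    have hI' := hI M ks.two _ h5
    have e1 : φ (p :: a :: b :: q :: (m ++ [c])) + φ (p :: b :: a :: q :: (m ++ [c])) =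
        Da φ l p a b q := by
      simpa using hDa [] (m ++ [c]) p a b q (hm _ fun x => by
        simp only [List.nil_append, List.count_cons, List.count_append, List.count_nil]
        ring)
    have e2 : φ (p :: b :: c :: q :: (m ++ [a])) + φ (p :: c :: b :: q :: (m ++ [a])) =
        Da φ l p b c q := by
      simpa using hDa [] (m ++ [a]) p b c q (hm _ fun x => by
        simp only [List.nil_append, List.count_cons, List.count_append, List.count_nil]
        ring)
    have e3 : φ (p :: a :: c :: q :: (m ++ [b])) + φ (p :: c :: a :: q :: (m ++ [b])) =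
        Da φ l p a c q := by
      simpa using hDa [] (m ++ [b]) p a c q (hm _ fun x => by
        simp only [List.nil_append, List.count_cons, List.count_append, List.count_nil]
        ring)
    have e4 : φ (a :: b :: q :: (m ++ [p, c])) + φ (b :: a :: q :: (m ++ [p, c])) =
        Db φ l a b q := hDb (m ++ [p, c]) a b q (hm _ fun x => by
        simp only [List.count_cons, List.count_append, List.count_nil]
        ring)
    have e5 : φ (b :: c :: q :: (m ++ [p, a])) + φ (c :: b :: q :: (m ++ [p, a])) =
        Db φ l b c q := hDb (m ++ [p, a]) b c q (hm _ fun x => by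
        simp only [List.count_cons, List.count_append, List.count_nil]
        ring)
    have e6 : φ (a :: c :: q :: (m ++ [p, b])) + φ (c :: a :: q :: (m ++ [p, b])) =
        Db φ l a c q := hDb (m ++ [p, b]) a c q (hm _ fun x => by
        simp only [List.count_cons, List.count_append, List.count_nil]
        ring)
    have e7 : φ (q :: (m ++ [c, p, a, b])) + φ (q :: (m ++ [c, p, b, a])) = Dc φ l p a b := by
      simpa using hDc (q :: (m ++ [c])) p a b (hm _ fun x => by
        simp only [List.count_cons, List.count_append, List.count_nil]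
        ring)
    have e8 : φ (q :: (m ++ [a, p, b, c])) + φ (q :: (m ++ [a, p, c, b])) = Dc φ l p b c := by
      simpa using hDc (q :: (m ++ [a])) p b c (hm _ fun x => by
        simp only [List.count_cons, List.count_append, List.count_nil]
        ring)
    have e9 : φ (q :: (m ++ [b, p, a, c])) + φ (q :: (m ++ [b, p, c, a])) = Dc φ l p a c := by
      simpa using hDc (q :: (m ++ [b])) p a c (hm _ fun x => by
        simp only [List.count_cons, List.count_append, List.count_nil]
        ring)
    have e10 : φ (a :: b :: c :: q :: (m ++ [p])) + φ (a :: c :: b :: q :: (m ++ [p])) =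
        Da φ l a b c q := by
      simpa using hDa [] (m ++ [p]) a b c q (hm _ fun x => by
        simp only [List.nil_append, List.count_cons, List.count_append, List.count_nil]
        ring)
    have e11 : φ (p :: b :: c :: a :: q :: m) + φ (p :: c :: b :: a :: q :: m) =
        Da φ l p b c a := by
      simpa using hDa [] (q :: m) p b c a (hm _ fun x => by
        simp only [List.nil_append, List.count_cons]
        ring)
    refine ⟨?_, ?_, ?_⟩
    · have h6 := hI'.2.2.2.1
      simp at h6
      rw [← e1, ← e2, ← e3, ← e4, ← e5, ← e6, ← h6]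
      abel
    · have h6 := hI'.2.2.2.2.1
      simp at h6
      rw [← e1, ← e2, ← e3, ← e7, ← e8, ← e9, ← h6]
      abel
    · have h6 := hI'.2.2.2.2.2.2
      simp at h6
      rw [← e1, ← e4, ← e7, ← e3, ← e6, ← e9, ← e10, ← e5, ← e11, ← e8, ← h6]
      abel
  refine ⟨fun p a b c q h => (key p a b c q h).1, fun p a b c q h => (key p a b c q h).2.1, ?_,
    fun p a b c q h => (key p a b c q h).2.2⟩
  intro p p' a b x h
  obtain ⟨m, hm⟩ := five p p' a b x h
  have h5 := drm_h5 ks hB m [p] [p'] [a] [b] [x] (by simp) (by simp) (by simp) (by simp)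
    (by simp) (hm _ fun y => by simp)
  have h6 := (hI M ks.two _ h5).2.2.2.2.2.1
  have e1 : φ (p :: a :: b :: x :: p' :: m) + φ (p :: b :: a :: x :: p' :: m) =
      Da φ l p a b x := by
    simpa using hDa [] (p' :: m) p a b x (hm _ fun y => by
      simp only [List.nil_append, List.count_cons]
      ring)
  have e2 : φ (p' :: a :: b :: x :: p :: m) + φ (p' :: b :: a :: x :: p :: m) =
      Da φ l p' a b x := by
    simpa using hDa [] (p :: m) p' a b x (hm _ fun y => by
      simp only [List.nil_append, List.count_cons]
      ring)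
  have e3 : φ (x :: p :: p' :: a :: b :: m) + φ (x :: p' :: p :: a :: b :: m) =
      Da φ l x p p' a := by
    simpa using hDa [] (b :: m) x p p' a (hm _ fun y => by
      simp only [List.nil_append, List.count_cons]
      ring)
  have e4 : φ (x :: p :: p' :: b :: a :: m) + φ (x :: p' :: p :: b :: a :: m) =
      Da φ l x p p' b := by
    simpa using hDa [] (a :: m) x p p' b (hm _ fun y => by
      simp only [List.nil_append, List.count_cons]
      ring)
  simp at h6
  rw [← e1, ← e2, ← e3, ← e4, ← h6]
  abel

end Pool.Agent.CRS
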