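import Pool.Agent.CRS.StH

/-!
# CRS, Dwx: replacing a letter, the commutation rule (helper30)
-/

set_option autoImplicit false

namespace Pool.Agent.CRS

open Pool.Agent.CRR Pool.Agent.CRN Pool.Agent.CRK Pool.Agent.CRL Pool.Agent.CRM Pool.Agent.CRP
open Pool.Agent.CRQ

section

variable {ι : Type} [DecidableEq ι] {B : Type} [AddCommMonoid B]

theorem Dwx_cons (j i : ι) (φ : List ι → B) (a : ι) (w : List ι) :
    Dd j i φ (a :: w) = (if a = j then φ (i :: w) else 0) + Dd j i (fun v => φ (a :: v)) w := by
  unfold Dd
  rw [dw, List.map_append, List.sum_append, List.map_map]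
  congr 1
  split_ifs
  · simp
  · simp

theorem Dwx_nil (j i : ι) (φ : List ι → B) : Dd j i φ [] = 0 := rfl

theorem Dwx_add (j i : ι) (φ ψ : List ι → B) (w : List ι) :
    Dd j i (fun v => φ v + ψ v) w = Dd j i φ w + Dd j i ψ w := by
  unfold Dd
  rw [List.sum_map_add]

theorem Dwx_zero (j i : ι) (w : List ι) : Dd j i (fun _ => (0 : B)) w = 0 := by
  unfold Dd
  simp

theorem Dwx_ite (j i : ι) (p : Prop) [Decidable p] (ψ : List ι → B) (w : List ι) :
    Dd j i (fun v => if p then ψ v else 0) w = if p then Dd j i ψ w else 0 := by
  by_cases h : p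
  · simp only [if_pos h]
  · simp only [if_neg h]
    exact Dwx_zero j i w

theorem Dwx_comm (i j : ι) (hij : i ≠ j) (w : List ι) : ∀ φ : List ι → B,
    Dd j i (Dd i j φ) w + w.count i • φ w = Dd i j (Dd j i φ) w + w.count j • φ w := by
  induction w with
  | nil =>
    intro φ
    simp [Dwx_nil]
  | cons a w ih =>
    intro φ
    have key := ih (fun v => φ (a :: v))
    have hji : j ≠ i := hij.symm
    rw [Dwx_cons j i (Dd i j φ), Dwx_cons i j (Dd j i φ)]
    have e1 : (fun v => Dd i j φ (a :: v)) =
        fun v => (if a = i then φ (j :: v) else 0) + Dd i j (fun v => φ (a :: v)) v := by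
      funext v
      rw [Dwx_cons]
    have e2 : (fun v => Dd j i φ (a :: v)) =
        fun v => (if a = j then φ (i :: v) else 0) + Dd j i (fun v => φ (a :: v)) v := by
      funext v
      rw [Dwx_cons]
    rw [e1, e2, Dwx_add, Dwx_add, Dwx_ite j i (a = i) (fun v => φ (j :: v)) w,
      Dwx_ite i j (a = j) (fun v => φ (i :: v)) w, Dwx_cons i j φ i w, Dwx_cons j i φ j w,
      if_pos rfl, if_pos rfl]
    by_cases haj : a = j
    · subst haj
      rw [List.count_cons_self, List.count_cons_of_ne hji, if_pos rfl, if_neg hji, if_neg hji,
        if_pos rfl]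
      set X := Dd i a (fun v => φ (i :: v)) w
      set A := Dd a i (Dd i a fun v => φ (a :: v)) w
      set D := Dd i a (Dd a i fun v => φ (a :: v)) w
      set p := φ (a :: w)
      calc p + X + (0 + A) + List.count i w • p = p + X + (A + List.count i w • p) := by
            rw [zero_add, add_assoc]
        _ = p + X + (D + List.count a w • p) := by rw [key]
        _ = 0 + (X + D) + (List.count a w + 1) • p := by
            rw [succ_nsmul]
            abel
    · by_cases hai : a = i
      · subst hai
        rw [List.count_cons_self, List.count_cons_of_ne hij, if_pos rfl, if_neg hij, if_neg hij,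
          if_pos rfl]
        set X := Dd j a (fun v => φ (j :: v)) w
        set A := Dd j a (Dd a j fun v => φ (a :: v)) w
        set D := Dd a j (Dd j a fun v => φ (a :: v)) w
        set p := φ (a :: w)
        symm
        calc p + X + (0 + D) + List.count j w • p = p + X + (D + List.count j w • p) := by
              rw [zero_add, add_assoc]
          _ = p + X + (A + List.count a w • p) := by rw [← key]
          _ = 0 + (X + A) + (List.count a w + 1) • p := by
              rw [succ_nsmul]
              abel
      · rw [if_neg haj, if_neg haj, if_neg hai, if_neg hai,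
          List.count_cons_of_ne (fun h => hai h), List.count_cons_of_ne (fun h => haj h), zero_add,
          zero_add, zero_add, zero_add]
        exact key

theorem Dwx_mem (i j : ι) (hij : i ≠ j) (w : List ι) :
    ∀ v ∈ dw j i w, v.length = w.length ∧ v.count j + 1 = w.count j ∧ v.count i = w.count i + 1 ∧
      ∀ l, l ≠ i → l ≠ j → v.count l = w.count l := by
  induction w with
  | nil =>
    intro v hv
    simp [dw] at hv
  | cons a w ih =>
    intro v hv
    rw [dw, List.mem_append] at hv
    rcases hv with hv | hv
    · split_ifs at hv with haj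
      · rw [List.mem_singleton] at hv
        subst hv
        subst haj
        refine ⟨by simp, ?_, ?_, ?_⟩
        · rw [List.count_cons_of_ne hij, List.count_cons_self]
        · rw [List.count_cons_self, List.count_cons_of_ne hij.symm]
        · intro l hl hl'
          rw [List.count_cons_of_ne (fun h => hl h.symm), List.count_cons_of_ne (fun h => hl' h.symm)]
      · simp at hv
    · rw [List.mem_map] at hv
      obtain ⟨u, hu, rfl⟩ := hv
      obtain ⟨h1, h2, h3, h4⟩ := ih u hu
      refine ⟨by simp [h1], ?_, ?_, ?_⟩
      · rw [List.count_cons, List.count_cons]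
        omega
      · rw [List.count_cons, List.count_cons]
        omega
      · intro l hl hl'
        rw [List.count_cons, List.count_cons, h4 l hl hl']

end

/-- **DWX.** -/
theorem thm_Dwx : St_Dwx := by
  intro ι _ i j hij w
  exact ⟨Dwx_mem i j hij w, fun B _ φ => Dwx_comm i j hij w φ⟩

end Pool.Agent.CRS
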