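import Pool.Agent.CRS.StI

/-!
# CRS.F0A: the identity of the ordering part (MP_1bb14d_al)
-/

set_option autoImplicit false

namespace Pool.Agent.CRS

open Pool.Agent.CRR Pool.Agent.CRN Pool.Agent.CRK Pool.Agent.CRL Pool.Agent.CRM Pool.Agent.CRP
open Pool.Agent.CRQ

private theorem F0A_wc {A : Type} [NonUnitalRing A] (a : A) {l : List A} (h : l ≠ []) :
    wp (a :: l) = a * wp l := by
  cases l with
  | nil => exact absurd rfl h
  | cons b l => rfl

private theorem F0A_wm {A : Type} [NonUnitalRing A] (a b : A) (t : List A) : ∀ u : List A,
    wp (u ++ (a * b) :: t) = wp (u ++ a :: b :: t)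
  | [] => by
    cases t with
    | nil => rfl
    | cons c t => exact mul_assoc a b _
  | c :: u => by
    rw [List.cons_append, List.cons_append, F0A_wc c (by simp), F0A_wc c (by simp),
      F0A_wm a b t u]

private theorem F0A_ac {ι A : Type} [AddCommMonoid A] (κ : ι → ι → A) (a b : ι) (l : List ι) :
    adj κ (a :: b :: l) = κ a b + adj κ (b :: l) := rfl

private theorem F0A_cg {ι A : Type} [AddCommMonoid A] (κ κ' : ι → ι → A) : ∀ w : List ι,
    (∀ a ∈ w.dropLast, ∀ b, κ a b = κ' a b) → adj κ w = adj κ' w
  | [] => fun _ => rfl
  | [_] => fun _ => rfl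
  | a :: b :: l => fun h => by
    rw [F0A_ac, F0A_ac, h a (by simp) b, F0A_cg κ κ' (b :: l)]
    intro c hc d
    refine h c ?_ d
    rw [List.dropLast_cons_cons]
    exact List.mem_cons_of_mem a hc

private theorem F0A_hd (hW : St_WG) {ι A : Type} [Fintype ι] [DecidableEq ι] [AddCommMonoid A]
    (κ : Option ι → Option ι → A) (w : List ι) (h : w ≠ []) :
    adj κ (none :: w.map some) = (∑ j, if w.head? = some j then κ none (some j) else 0) +
      adj (fun i j => κ (some i) (some j)) w := by
  cases w with
  | nil => exact absurd rfl h
  | cons a l =>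
    rw [List.map_cons, F0A_ac, ← List.map_cons, hW.2.1 (Option ι) ι A κ some (a :: l)]
    simp

private theorem F0A_rep (hW : St_WG) {ι A : Type} [DecidableEq ι] [AddCommMonoid A]
    (κ : Option ι → Option ι → A) (p : ι) (u t : List ι) (hu : p ∉ u) (ht : p ∉ t) :
    adj κ (u.map some ++ some p :: none :: t.map some) = κ (some p) none +
      adj (fun i j => if i = p then κ none (some j) else κ (some i) (some j)) (u ++ p :: t) := by
  rw [hW.2.2.1 _ _ κ (some p) (u.map some) (none :: t.map some),
    hW.2.2.1 _ _ _ p u t]
  have h1 : adj κ (u.map some ++ [some p]) =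
      adj (fun i j => if i = p then κ none (some j) else κ (some i) (some j)) (u ++ [p]) := by
    have h3 : u.map some ++ [some p] = (u ++ [p]).map some := by simp
    rw [h3, hW.2.1]
    refine F0A_cg _ _ _ fun a ha b => ?_
    rw [List.dropLast_concat] at ha
    have : a ≠ p := fun h => hu (h ▸ ha)
    simp [this]
  have h2 : adj κ (none :: t.map some) =
      adj (fun i j => if i = p then κ none (some j) else κ (some i) (some j)) (p :: t) := by
    cases t with
    | nil => rfl
    | cons b t =>
      rw [List.map_cons, F0A_ac, F0A_ac, ← List.map_cons, hW.2.1]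
      rw [F0A_cg (fun i j => κ (some i) (some j))
        (fun i j => if i = p then κ none (some j) else κ (some i) (some j)) (b :: t)]
      · simp
      · intro a ha c
        have : a ≠ p := fun h => ht (h ▸ List.mem_of_mem_dropLast ha)
        simp [this]
  rw [F0A_ac, h1, h2]
  abel

private theorem F0A_ad {K ι A : Type} [CommRing K] [AddCommGroup A] [Module K A] [Fintype ι]
    [DecidableEq ι] (κ : ι → ι → A) : ∀ w : List ι,
    adj κ w = ∑ i, ∑ j, adj (fun a b => if a = i ∧ b = j then (1 : K) else 0) w • κ i j
  | [] => by simp [adj]
  | [_] => by simp [adj]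
  | a :: b :: l => by
    rw [F0A_ac, F0A_ad (K := K) κ (b :: l)]
    simp only [F0A_ac, add_smul, Finset.sum_add_distrib]
    congr 1
    rw [Finset.sum_eq_single a, Finset.sum_eq_single b]
    · simp
    · intro j _ hj
      simp [hj.symm]
    · simp
    · intro i _ hi
      simp [hi.symm]
    · simp

private theorem F0A_sum {K ι A : Type} [CommRing K] [AddCommGroup A] [Module K A] [Fintype ι]
    [DecidableEq ι] (e : A) (v : ι → A) (κ : ι → ι → A) : ∀ L : List (K × List ι),
    (L.map fun q => q.1 • (e + (∑ j, if q.2.head? = some j then v j else 0) + adj κ q.2)).sum =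
      tf L • e + ∑ j, hf L j • v j + ∑ i, ∑ j, cf L i j • κ i j
  | [] => by simp [tf, hf, cf]
  | q :: L => by
    have ih := F0A_sum e v κ L
    have h1 : tf (q :: L) = q.1 + tf L := by simp [tf]
    have h2 : ∀ j, hf (q :: L) j = (if q.2.head? = some j then q.1 else 0) + hf L j := by
      intro j; simp [hf]
    have h3 : ∀ i j, cf (q :: L) i j =
        q.1 * adj (fun a b => if a = i ∧ b = j then (1 : K) else 0) q.2 + cf L i j := by
      intro i j; simp [cf]
    rw [List.map_cons, List.sum_cons, ih, h1]
    simp only [h2, h3, add_smul, Finset.sum_add_distrib, smul_add]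
    have h4 : (∑ j, (if q.2.head? = some j then q.1 else 0) • v j) =
        q.1 • ∑ j, (if q.2.head? = some j then v j else 0) := by
      rw [Finset.smul_sum]
      refine Finset.sum_congr rfl fun j _ => ?_
      split_ifs <;> simp
    have h5 : (∑ i, ∑ j, (q.1 * adj (fun a b => if a = i ∧ b = j then (1 : K) else 0) q.2) • κ i j) =
        q.1 • adj κ q.2 := by
      rw [F0A_ad (K := K) κ q.2, Finset.smul_sum]
      refine Finset.sum_congr rfl fun i _ => ?_
      rw [Finset.smul_sum]
      refine Finset.sum_congr rfl fun j _ => ?_
      rw [mul_smul]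
    rw [h4, h5]
    abel

private theorem F0A_mul {K A ι : Type} [CommRing K] [NonUnitalRing A] [Module K A]
    [SMulCommClass K A A] (x : ι → A) (y : A) : ∀ L : List (K × List ι),
    y * Ew L x = (L.map fun q => q.1 • (y * wp (q.2.map x))).sum
  | [] => by simp [Ew]
  | q :: L => by
    have ih := F0A_mul x y L
    have h1 : Ew (q :: L) x = q.1 • wp (q.2.map x) + Ew L x := by simp [Ew]
    rw [h1, mul_add, mul_smul_comm, ih]
    simp

/-- A word with one letter `p`. -/
private theorem F0A_split {ι : Type} [DecidableEq ι] (w : List ι) (p : ι) (h : w.count p = 1) :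
    ∃ u t : List ι, w = u ++ p :: t ∧ p ∉ u ∧ p ∉ t := by
  have hp : p ∈ w := List.count_pos_iff.1 (by omega)
  obtain ⟨u, t, rfl⟩ := List.append_of_mem hp
  refine ⟨u, t, rfl, ?_, ?_⟩
  · rw [List.count_append, List.count_cons_self] at h
    exact List.count_eq_zero.1 (by omega)
  · rw [List.count_append, List.count_cons_self] at h
    exact List.count_eq_zero.1 (by omega)

private theorem F0A_cs {ι : Type} [DecidableEq ι] (l : List ι) (i : ι) :
    (l.map some).count (some i) = l.count i :=
  List.count_map_of_injective l some (Option.some_injective ι) i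

private theorem F0A_cn {ι : Type} [DecidableEq ι] (l : List ι) :
    (l.map (some : ι → Option ι)).count none = 0 := by
  rw [List.count_eq_zero]
  simp

theorem thm_F0A (hE : St_EVL) (hW : St_WG) : St_F0A := by
  intro K _ A _ _ _ _ M H g hK hg L hL h1 h2 p X e κ he hκ hX
  have hN : N2 A := ⟨hK.cube, hK.pr⟩
  have hz : ∀ y ∈ Wg X, y + y = 0 := hW.1 A hN _ X
  have hne : ∀ q ∈ L, q.2 ≠ [] := by
    intro q hq h
    have := hL q hq ⟨0, by omega⟩
    rw [h] at this
    simp at this
  -- the first identity
  have e1 : tf L • e + ∑ j, hf L j • κ none (some j) +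
      ∑ i, ∑ j, cf L i j • κ (some i) (some j) = 0 := by
    refine Eq.trans ?_ (h1 (fun i => X (some i)) (X none))
    rw [← F0A_sum, F0A_mul]
    congr 1
    refine List.map_congr_left fun q hq => ?_
    have h3 : X none * wp (q.2.map fun i => X (some i)) =
        wp ((none :: q.2.map some).map X) := by
      rw [List.map_cons, F0A_wc]
      · rw [List.map_map]; rfl
      · simpa using hne q hq
    rw [h3, hX, F0A_hd hW κ q.2 (hne q hq), add_assoc]
    intro i
    cases i with
    | none => rw [List.count_cons_self, F0A_cn]
    | some i =>
      rw [List.count_cons_of_ne (by simp), F0A_cs, hL q hq i]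
  -- the second identity
  have e2 : tf L • (e + κ (some p) none) + ∑ i, ∑ j, cf L i j •
      (if i = p then κ none (some j) else κ (some i) (some j)) = 0 := by
    have h4 := F0A_sum (K := K) (e + κ (some p) none) (fun _ : Fin g => (0 : A))
      (fun i j => if i = p then κ none (some j) else κ (some i) (some j)) L
    have h5 : (∑ j : Fin g, hf L j • (0 : A)) = 0 := by simp
    rw [h5, add_zero] at h4
    refine Eq.trans ?_ (h2 p (fun i => X (some i)) (X none))
    rw [← h4]
    unfold Ew
    congr 1
    refine List.map_congr_left fun q hq => ?_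
    congr 1
    obtain ⟨u, t, hw, hu, ht⟩ := F0A_split q.2 p (hL q hq p)
    have h6 : q.2.map (Function.update (fun i => X (some i)) p (X (some p) * X none)) =
        u.map (fun i => X (some i)) ++ (X (some p) * X none) :: t.map (fun i => X (some i)) := by
      rw [hw, List.map_append, List.map_cons, Function.update_self]
      congr 1
      · refine List.map_congr_left fun a ha => ?_
        rw [Function.update_of_ne]
        rintro rfl; exact hu ha
      · congr 1
        refine List.map_congr_left fun a ha => ?_
        rw [Function.update_of_ne]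
        rintro rfl; exact ht ha
    rw [h6, F0A_wm]
    have h7 : u.map (fun i => X (some i)) ++ X (some p) :: X none :: t.map (fun i => X (some i)) =
        (u.map some ++ some p :: none :: t.map some).map X := by
      simp [Function.comp_def]
    rw [h7, hX, F0A_rep hW κ p u t hu ht, ← hw]
    · simp only [ite_self, Finset.sum_const_zero, add_zero, add_assoc]
    · intro i
      have h8 := hL q hq
      rw [hw] at h8
      rw [List.count_append]
      cases i with
      | none =>
        rw [List.count_cons_of_ne (by simp), List.count_cons_self, F0A_cn, F0A_cn]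
      | some i =>
        have h9 := h8 i
        rw [List.count_append] at h9
        rw [F0A_cs]
        by_cases hip : p = i
        · subst hip
          rw [List.count_cons_self, List.count_cons_of_ne (by simp), F0A_cs]
          rw [List.count_cons_self] at h9
          omega
        · rw [List.count_cons_of_ne (by simpa using hip), List.count_cons_of_ne (by simp), F0A_cs]
          rw [List.count_cons_of_ne hip] at h9
          omega
  -- sum of the two
  have hpp : cf L p p = 0 := (hE K A (Fin g) L hL).2.1 p
  have e3 : ∀ i j : Fin g, cf L i j • κ (some i) (some j) +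
      cf L i j • (if i = p then κ none (some j) else κ (some i) (some j)) =
      if i = p then cf L i j • κ (some i) (some j) + cf L i j • κ none (some j) else 0 := by
    intro i j
    split_ifs with h
    · rfl
    · rw [← smul_add, hz _ (hκ _ _), smul_zero]
  have e4 : tf L • κ (some p) none + ∑ j, hf L j • κ none (some j) +
      ∑ j, (cf L p j • κ (some p) (some j) + cf L p j • κ none (some j)) = 0 := by
    have h10 := congrArg₂ (· + ·) e1 e2
    simp only [add_zero] at h10
    rw [← h10]
    have h11 : (∑ i, ∑ j, cf L i j • κ (some i) (some j)) + ∑ i, ∑ j, cf L i j •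
        (if i = p then κ none (some j) else κ (some i) (some j)) =
        ∑ j, (cf L p j • κ (some p) (some j) + cf L p j • κ none (some j)) := by
      simp only [← Finset.sum_add_distrib]
      simp only [e3]
      rw [Finset.sum_eq_single p]
      · simp
      · intro i _ hi
        simp [hi]
      · simp
    have h12 : tf L • e + tf L • e = 0 := by
      rw [← smul_add, hz e he, smul_zero]
    rw [smul_add, ← h11]
    calc _ = (tf L • e + tf L • e) + (tf L • κ (some p) none + ∑ j, hf L j • κ none (some j) +
        ((∑ i, ∑ j, cf L i j • κ (some i) (some j)) + ∑ i, ∑ j, cf L i j •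
        (if i = p then κ none (some j) else κ (some i) (some j)))) := by rw [h12, zero_add]
      _ = _ := by abel
  refine Eq.trans ?_ e4
  simp only [Fintype.sum_option, mF]
  simp only [reduceCtorEq, if_true, if_false, zero_add, Option.some.injEq]
  have e5 : (∑ i : Fin g, ((if i = p then tf L else 0) • κ (some i) none +
      ∑ j : Fin g, if i = j then 0 else (if i = p then cf L i j else 0) • κ (some i) (some j))) =
      tf L • κ (some p) none + ∑ j, cf L p j • κ (some p) (some j) := by
    rw [Finset.sum_eq_single p]
    · simp only [if_true]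
      congr 1
      refine Finset.sum_congr rfl fun j _ => ?_
      split_ifs with h
      · subst h; rw [hpp, zero_smul]
      · rfl
    · intro i _ hi
      simp [hi]
    · simp
  rw [e5]
  simp only [add_smul, Finset.sum_add_distrib]
  abel

end Pool.Agent.CRS
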