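import Pool.Agent.CRS.StB

/-!
Campaign CRS, module Grc: the letters of degree 1.
-/

set_option autoImplicit false

namespace Pool.Agent.CRS

open Pool.Agent.CRR Pool.Agent.CRN Pool.Agent.CRK Pool.Agent.CRL Pool.Agent.CRM Pool.Agent.CRP
open Pool.Agent.CRQ

private lemma Grc_len {C Y : List ℕ} (hY : Y.Nodup) (hYC : ∀ i ∈ Y, i ∈ C) :
    (C.diff Y).length = C.length - Y.length := by
  have h : (Y ++ C.diff Y).Perm C := by
    apply List.subperm_append_diff_self_of_count_le
    intro x hx
    have h1 : Y.count x ≤ 1 := List.nodup_iff_count_le_one.mp hY x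
    have h2 : 0 < C.count x := List.count_pos_iff.mpr (hYC x hx)
    omega
  have := h.length_eq
  rw [List.length_append] at this
  omega

private lemma Grc_sf {U : Type} [Ring U] (N : NonUnitalSubring U) (C : List ℕ) (i j : ℕ)
    (hi : i ∈ C) (hj : j ∈ C) (F : (ℕ → N) → U) :
    sf (-1) C i j F = -(fun x : ℕ → N => F (fun k => x (Equiv.swap i j k))) := by
  show (if i ∈ C ∧ j ∈ C then fun x : ℕ → N => (-1 : ℤ) • F (fun k => x (Equiv.swap i j k)) else 0) = _
  rw [if_pos ⟨hi, hj⟩]
  funext x
  simp

theorem thm_Grc : St_Vfp → St_Jpr → St_Dwp → St_Alc → St_Grc := by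
  intro hVfp hJpr hDwp hAlc U _ N hN a b c k X Z h1 hX hZ hk
  obtain ⟨⟨hAn, hBn, hCn, hAm, hBm, hCm, hdm, -, -⟩, hsw, -, -, -, hyt⟩ := hDwp a b c
  obtain ⟨-, -, hV3, hV4, -, hV6⟩ := hVfp U N hN a b c
  obtain ⟨-, -, -, hJ4, -, -, -⟩ := hJpr U N hN (dW a b c) (k + 1)
  set φ : List ℕ → ((ℕ → N) → U) := fun Z' =>
    if a + X.length + Z'.length = k then vf N (dW a b c) (lA a ++ X ++ Z') else 0 with hφ
  have hmem : ∀ l : List ℕ, (∀ i ∈ l, i ∈ lC a b c) → ∀ i ∈ lA a ++ X ++ l, i < a + b + c := by
    intro l hl i hi
    rcases List.mem_append.mp hi with hi | hi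
    · rcases List.mem_append.mp hi with hi | hi
      · have := (hAm i).mp hi; omega
      · have := (hBm i).mp (hX i hi); omega
    · have := (hCm i).mp (hl i hi); omega
  have key := hAlc ((ℕ → N) → U) (Jf N (dW a b c) (k + 1)) (sf (-1) (lC a b c)) (lC a b c) φ hCn
    (by
      intro i hi j hj m hm
      rw [Grc_sf N _ i j hi hj m]
      exact neg_mem (hJ4 i j (hsw i j (Or.inr ⟨hi, hj⟩)) m hm))
    (by
      intro l1 l2 i hi j hj hl
      have hz : φ (l1 ++ i :: j :: l2) + φ (l1 ++ j :: i :: l2) = 0 := by
        simp only [hφ]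
        have hlen : (l1 ++ i :: j :: l2).length = (l1 ++ j :: i :: l2).length := by simp
        rw [hlen]
        split_ifs with h
        · have e1 : lA a ++ X ++ (l1 ++ i :: j :: l2) = (lA a ++ X ++ l1) ++ i :: j :: l2 := by simp
          have e2 : lA a ++ X ++ (l1 ++ j :: i :: l2) = (lA a ++ X ++ l1) ++ j :: i :: l2 := by simp
          rw [e1, e2, hV3]
          exact neg_add_cancel _
        · exact add_zero 0
      rw [hz]
      exact zero_mem _)
    (by
      intro l hl
      have hz : (3 : ℤ) • φ l = 0 := by
        simp only [hφ]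
        split_ifs with h
        · exact hV6 _ h1 (hmem l hl)
        · exact smul_zero _
      rw [hz]
      exact zero_mem _)
    (by
      intro i hi j hj hij l hl
      rw [Grc_sf N _ i j hi hj]
      simp only [hφ, List.length_map]
      by_cases h : a + X.length + l.length = k
      · rw [if_pos h, if_pos h]
        have hS := hV4 (lA a ++ X ++ l) i j (hmem l hl) (Or.inr ⟨hi, hj⟩)
        have hlen : (lA a ++ X ++ l).length = k := by
          rw [List.length_append, List.length_append]
          have : (lA a).length = a := by simp [lA]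
          omega
        rw [hlen] at hS
        have hmap : (lA a ++ X ++ l).map (Equiv.swap i j) = lA a ++ X ++ l.map (Equiv.swap i j) := by
          rw [List.map_append, List.map_append]
          have hi' := (hCm i).mp hi
          have hj' := (hCm j).mp hj
          have e1 : (lA a).map (Equiv.swap i j) = lA a := by
            conv_rhs => rw [← List.map_id (lA a)]
            apply List.map_congr_left
            intro t ht
            have := (hAm t).mp ht
            exact Equiv.swap_apply_of_ne_of_ne (by omega) (by omega)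
          have e2 : X.map (Equiv.swap i j) = X := by
            conv_rhs => rw [← List.map_id X]
            apply List.map_congr_left
            intro t ht
            have := (hBm t).mp (hX t ht)
            exact Equiv.swap_apply_of_ne_of_ne (by omega) (by omega)
          rw [e1, e2]
        rw [hmap] at hS
        have := neg_mem hS
        rw [neg_sub] at this
        have e : (-(fun x : ℕ → N => vf N (dW a b c) (lA a ++ X ++ l) (fun t => x (Equiv.swap i j t))) +
            vf N (dW a b c) (lA a ++ X ++ l.map (Equiv.swap i j)) : (ℕ → N) → U) =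
            vf N (dW a b c) (lA a ++ X ++ l.map (Equiv.swap i j)) -
            (fun x : ℕ → N => vf N (dW a b c) (lA a ++ X ++ l) (fun t => x (Equiv.swap i j t))) := by
          rw [sub_eq_add_neg, add_comm]
        rw [e]
        exact this
      · rw [if_neg h, if_neg h]
        have e : (-(fun x : ℕ → N => (0 : (ℕ → N) → U) (fun k => x (Equiv.swap i j k))) +
            (0 : (ℕ → N) → U)) = 0 := by
          funext x
          simp
        rw [e]
        exact zero_mem _)
    Z hZ
  have hφZ : φ Z = vf N (dW a b c) (lA a ++ X ++ Z) := by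
    simp only [hφ]
    rw [if_pos hk]
  rw [hφZ] at key
  refine (sup_le_sup_right ?_ (Jf N (dW a b c) (k + 1))) key
  rw [Spn, AddSubgroup.closure_le]
  rintro m ⟨t, ht, rfl⟩
  have hCl : (lC a b c).length = c := by simp [lC]
  have hval : ∀ Y ∈ t.2, cpl (lC a b c) φ Y =
      sg (Y ++ (lC a b c).diff Y) • φ ((lC a b c).diff Y) ∧ ((lC a b c).diff Y).length = c - t.1 := by
    intro Y hY
    obtain ⟨hYl, hYn, hYC⟩ := (hyt (lC a b c) hCn t ht).2 Y hY
    refine ⟨?_, ?_⟩
    · rw [cpl, if_pos hYn]
    · rw [Grc_len hYn hYC, hCl, hYl]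
  by_cases h : a + X.length + (c - t.1) = k
  · apply AddSubgroup.subset_closure
    refine ⟨t, ht, h, ?_⟩
    congr 1
    apply List.map_congr_left
    intro Y hY
    obtain ⟨e1, e2⟩ := hval Y hY
    rw [e1]
    simp only [hφ]
    rw [e2, if_pos h]
  · have hz : (t.2.map (cpl (lC a b c) φ)).sum = 0 := by
      apply List.sum_eq_zero
      intro m hm
      obtain ⟨Y, hY, rfl⟩ := List.mem_map.mp hm
      obtain ⟨e1, e2⟩ := hval Y hY
      rw [e1]
      simp only [hφ]
      rw [e2, if_neg h, smul_zero]
    rw [hz]
    exact zero_mem _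

end Pool.Agent.CRS
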