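import Pool.Agent.CRS.Types

/-!
Campaign CRS, module Gsh: short words, and the case `p = 2` in general.
-/

set_option autoImplicit false

namespace Pool.Agent.CRS

open Pool.Agent.CRR Pool.Agent.CRN Pool.Agent.CRK Pool.Agent.CRL Pool.Agent.CRM Pool.Agent.CRP
open Pool.Agent.CRQ

section

variable {K : Type} [CommRing K] {A : Type} [NonUnitalRing A] [Module K A]

theorem Gsh_kc {g : ℕ} (L : List (K × List ℕ)) (x : Fin g → A) :
    Kc (L.map Prod.fst) (L.map fun q => [((1 : ℤ), q.2)]) x =
      (L.map fun q => q.1 • wp (q.2.map (xs x))).sum := by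
  unfold Kc
  induction L with
  | nil => rfl
  | cons q L ih =>
    rw [List.map_cons, List.map_cons, List.zip_cons_cons, List.map_cons, List.map_cons,
      List.sum_cons, List.sum_cons, ih]
    congr 2
    unfold Vg ev
    rw [List.map_cons, List.map_nil, List.sum_cons, List.sum_nil, add_zero, one_smul]

/-- If the long words are zero then `f` is a combination of short words. -/
theorem Gsh_short {g : ℕ} (m : ℕ) {f : (Fin g → A) → A} (hW : Wf K g f)
    (h0 : ∀ w : List ℕ, (∀ i, i ∈ w ↔ i < g) → m < w.length → ∀ x : Fin g → A,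
      wp (w.map (xs x)) = 0) :
    ∃ (B : List (List (ℤ × List ℕ))) (c : List K), Wsh m g B ∧ c.length = B.length ∧
      ∀ x, f x = Kc c B x := by
  classical
  obtain ⟨L, hL, hf⟩ := hW
  refine ⟨(L.filter fun q => q.2.length ≤ m).map fun q => [((1 : ℤ), q.2)],
    (L.filter fun q => q.2.length ≤ m).map Prod.fst, ?_, ?_, ?_⟩
  · intro b hb q hq
    obtain ⟨r, hr, rfl⟩ := List.mem_map.1 hb
    rw [List.mem_singleton.1 hq]
    have h1 := List.mem_filter.1 hr
    exact ⟨(hL r h1.1).2, by simpa using h1.2⟩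
  · rw [List.length_map, List.length_map]
  · intro x
    rw [Gsh_kc, hf]
    clear hf
    induction L with
    | nil => rfl
    | cons q L ih =>
      have ih' := ih fun r hr => hL r (List.mem_cons_of_mem _ hr)
      by_cases hq : q.2.length ≤ m
      · rw [List.filter_cons_of_pos (by simpa using hq), List.map_cons, List.map_cons,
          List.sum_cons, List.sum_cons, ih']
      · rw [List.filter_cons_of_neg (by simpa using hq), List.map_cons, List.sum_cons, ih',
          h0 q.2 (hL q List.mem_cons_self).2 (by omega) x, smul_zero, zero_add]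

end

/-- The case `g = 5`, `p = 2`, not all products of seven elements are zero. -/
def St_TwF (Ta : ℕ → List (List (ℤ × List ℕ)) → Prop) : Prop :=
  ∀ (K : Type) [CommRing K] (A : Type) [NonUnitalRing A] [Module K A] [IsScalarTower K A A]
    [SMulCommClass K A A] (M H : AddSubgroup A) (f : (Fin 5 → A) → A),
    Kst K 2 M H → (∀ l : List A, 8 ≤ l.length → wp l = 0) →
    (¬ ∀ l : List A, 7 ≤ l.length → wp l = 0) →
    Dm K 2 M 5 → Gn K M 5 → Mt M → Wf K 5 f → Good K 2 M H 5 f →
    ∃ (B : List (List (ℤ × List ℕ))) (c : List K), Ta 5 B ∧ c.length = B.length ∧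
      Good K 2 M H 5 (Kc c B)

/-- The general form from the form for `6 ≤ g`, `p = 2`. -/
theorem Gsh_two (hZ : St_KZ) (Tb : ℕ → List (List (ℤ × List ℕ)) → Prop)
    (Ta : ℕ → List (List (ℤ × List ℕ)) → Prop) (hA : St_TwF Ta) (hT : KTh 2 Tb) :
    KTg 2 (fun g B => Wsh 6 g B ∨ (g = 5 ∧ Ta g B) ∨ (6 ≤ g ∧ Tb g B)) := by
  intro K _ A _ _ _ _ M H g f hK hg htop hDm hGn hMt hMu hW hG
  -- short words
  have short : (∀ w : List ℕ, (∀ i, i ∈ w ↔ i < g) → 6 < w.length → ∀ x : Fin g → A,
      wp (w.map (xs x)) = 0) → ∃ (B : List (List (ℤ × List ℕ))) (c : List K),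
      (Wsh 6 g B ∨ (g = 5 ∧ Ta g B) ∨ (6 ≤ g ∧ Tb g B)) ∧ c.length = B.length ∧
        Good K 2 M H g (Kc c B) := by
    intro h0
    obtain ⟨B, c, hB, hl, hf⟩ := Gsh_short (K := K) 6 hW h0
    have h1 : f = Kc c B := funext hf
    exact ⟨B, c, Or.inl hB, hl, h1 ▸ hG⟩
  rcases Nat.lt_or_ge g 5 with h4 | h5
  · refine short fun w hw hlen x => ?_
    refine hZ A ⟨hK.cube, hK.pr⟩ ℕ (xs x) w (by omega) ?_
    have h1 : w.toFinset = Finset.range g := by
      ext i
      rw [List.mem_toFinset, Finset.mem_range, hw]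
    rw [h1, Finset.card_range]
    omega
  · rcases Nat.eq_or_lt_of_le h5 with h5 | h6
    · subst h5
      by_cases h7 : ∀ l : List A, 7 ≤ l.length → wp l = 0
      · exact short fun w _ hlen x => h7 _ (by rw [List.length_map]; omega)
      · obtain ⟨B, c, hB, hl, hf⟩ := hA K A M H f hK (htop (by decide)) h7 hDm hGn hMt hW hG
        exact ⟨B, c, Or.inr (Or.inl ⟨rfl, hB⟩), hl, hf⟩
    · have h7 : 7 ≤ Tn 2 g := by
        unfold Tn
        rw [if_pos rfl]
        omega
      obtain ⟨B, c, hB, hl, hf⟩ := hT K A M H g f hK h6 (htop h7) hDm hGn hMt hW hG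
      exact ⟨B, c, Or.inr (Or.inr ⟨h6, hB⟩), hl, hf⟩

end Pool.Agent.CRS
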