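import Pool.Agent.CRS.StE
import Mathlib.Tactic

/-!
Campaign CRS (problem MP_1bb14d_al): module Idn, identities in five block letters.
-/

set_option autoImplicit false

namespace Pool.Agent.CRS

variable {M : Type} [AddCommGroup M]

private theorem idn1 (h2 : ∀ m : M, m + m = 0) (ψ : List (Fin 5) → M) (h : H5 ψ) :
    ψ [0, 1, 2, 3, 4] + ψ [0, 1, 3, 2, 4] + ψ [1, 2, 3, 4, 0] + ψ [1, 3, 2, 4, 0] = 0 := by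
  have e0 := h [] [0, 1] [2] [3] [4] (by simp) (by simp) (by simp) (by decide)
  have e1 := h [0] [1] [2] [3] [4] (by simp) (by simp) (by simp) (by decide)
  have e2 := h [0, 1] [2] [3] [4] [] (by simp) (by simp) (by simp) (by decide)
  have e3 := h [] [0] [1, 2, 4] [3] [] (by simp) (by simp) (by simp) (by decide)
  have e4 := h [] [0] [1, 3, 4] [2] [] (by simp) (by simp) (by simp) (by decide)
  have e5 := h [] [0] [1, 4] [2, 3] [] (by simp) (by simp) (by simp) (by decide)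
  have e6 := h [] [0] [1, 4] [3, 2] [] (by simp) (by simp) (by simp) (by decide)
  have e7 := h [] [1] [2] [3] [4, 0] (by simp) (by simp) (by simp) (by decide)
  have e8 := h [1] [2] [3] [4] [0] (by simp) (by simp) (by simp) (by decide)
  have e9 := h [1] [2] [3] [4, 0] [] (by simp) (by simp) (by simp) (by decide)
  simp only [List.nil_append, List.cons_append, List.append_nil] at e0 e1 e2 e3 e4 e5 e6 e7 e8 e9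
  linear_combination (norm := abel) e0 + e1 + e2 + e3 + e4 + e5 + e6 + e7 + e8 + e9 - h2 (ψ [0, 1, 2, 3, 4]) - h2 (ψ [0, 1, 2, 4, 3]) - h2 (ψ [0, 1, 3, 2, 4]) - h2 (ψ [0, 1, 3, 4, 2]) - h2 (ψ [0, 1, 4, 2, 3]) - h2 (ψ [0, 1, 4, 3, 2]) - h2 (ψ [0, 2, 1, 3, 4]) - h2 (ψ [0, 2, 3, 1, 4]) - h2 (ψ [0, 3, 1, 2, 4]) - h2 (ψ [0, 3, 2, 1, 4]) - h2 (ψ [1, 2, 3, 4, 0]) - h2 (ψ [1, 2, 4, 0, 3]) - h2 (ψ [1, 2, 4, 3, 0]) - h2 (ψ [1, 3, 2, 4, 0]) - h2 (ψ [1, 3, 4, 0, 2]) - h2 (ψ [1, 3, 4, 2, 0]) - h2 (ψ [1, 4, 0, 2, 3]) - h2 (ψ [1, 4, 0, 3, 2]) - h2 (ψ [1, 4, 2, 3, 0]) - h2 (ψ [1, 4, 3, 2, 0]) - h2 (ψ [2, 0, 1, 3, 4]) - h2 (ψ [2, 1, 3, 4, 0]) - h2 (ψ [2, 3, 0, 1, 4]) - h2 (ψ [2, 3, 1, 4, 0]) - h2 (ψ [3, 0, 1, 2, 4]) - h2 (ψ [3, 1, 2, 4, 0]) - h2 (ψ [3, 2, 0, 1, 4]) - h2 (ψ [3, 2, 1, 4, 0])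

private theorem idn2 (h2 : ∀ m : M, m + m = 0) (ψ : List (Fin 5) → M) (h : H5 ψ) :
    ψ [0, 1, 2, 3, 4] + ψ [0, 1, 2, 4, 3] + ψ [1, 0, 2, 3, 4] + ψ [1, 0, 2, 4, 3] = 0 := by
  have e0 := h [] [0] [1] [2] [3, 4] (by simp) (by simp) (by simp) (by decide)
  have e1 := h [] [0] [1] [2, 3] [4] (by simp) (by simp) (by simp) (by decide)
  have e2 := h [] [0] [1] [2, 3, 4] [] (by simp) (by simp) (by simp) (by decide)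
  have e3 := h [] [0] [1] [2] [4, 3] (by simp) (by simp) (by simp) (by decide)
  have e4 := h [] [0] [1] [2, 4] [3] (by simp) (by simp) (by simp) (by decide)
  have e5 := h [] [0] [1] [2, 4, 3] [] (by simp) (by simp) (by simp) (by decide)
  have e6 := h [0, 2] [1] [3] [4] [] (by simp) (by simp) (by simp) (by decide)
  have e7 := h [1, 2] [0] [3] [4] [] (by simp) (by simp) (by simp) (by decide)
  have e8 := h [2] [0, 1] [3] [4] [] (by simp) (by simp) (by simp) (by decide)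
  have e9 := h [2] [1, 0] [3] [4] [] (by simp) (by simp) (by simp) (by decide)
  simp only [List.nil_append, List.cons_append, List.append_nil] at e0 e1 e2 e3 e4 e5 e6 e7 e8 e9
  linear_combination (norm := abel) e0 + e1 + e2 + e3 + e4 + e5 + e6 + e7 + e8 + e9 - h2 (ψ [0, 1, 2, 3, 4]) - h2 (ψ [0, 1, 2, 4, 3]) - h2 (ψ [0, 2, 1, 3, 4]) - h2 (ψ [0, 2, 1, 4, 3]) - h2 (ψ [0, 2, 3, 1, 4]) - h2 (ψ [0, 2, 3, 4, 1]) - h2 (ψ [0, 2, 4, 1, 3]) - h2 (ψ [0, 2, 4, 3, 1]) - h2 (ψ [1, 0, 2, 3, 4]) - h2 (ψ [1, 0, 2, 4, 3]) - h2 (ψ [1, 2, 0, 3, 4]) - h2 (ψ [1, 2, 0, 4, 3]) - h2 (ψ [1, 2, 3, 0, 4]) - h2 (ψ [1, 2, 3, 4, 0]) - h2 (ψ [1, 2, 4, 0, 3]) - h2 (ψ [1, 2, 4, 3, 0]) - h2 (ψ [2, 0, 1, 3, 4]) - h2 (ψ [2, 0, 1, 4, 3]) - h2 (ψ [2, 1, 0, 3, 4]) - h2 (ψ [2, 1, 0, 4, 3]) - h2 (ψ [2, 3, 0, 1, 4]) - h2 (ψ [2, 3, 1, 0,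 4]) - h2 (ψ [2, 3, 4, 0, 1]) - h2 (ψ [2, 3, 4, 1, 0]) - h2 (ψ [2, 4, 0, 1, 3]) - h2 (ψ [2, 4, 1, 0, 3]) - h2 (ψ [2, 4, 3, 0, 1]) - h2 (ψ [2, 4, 3, 1, 0])

private theorem idn3 (h2 : ∀ m : M, m + m = 0) (ψ : List (Fin 5) → M) (h : H5 ψ) :
    ψ [0, 1, 2, 3, 4] + ψ [0, 1, 2, 4, 3] + ψ [0, 2, 1, 3, 4] + ψ [0, 2, 1, 4, 3] + ψ [1, 2, 3, 4, 0] + ψ [1, 2, 4, 3, 0] + ψ [2, 1, 3, 4, 0] + ψ [2, 1, 4, 3, 0] = 0 := by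
  have e0 := h [] [0] [1] [2] [3, 4] (by simp) (by simp) (by simp) (by decide)
  have e1 := h [] [0] [1] [2] [4, 3] (by simp) (by simp) (by simp) (by decide)
  have e2 := h [] [0] [1] [3] [4, 2] (by simp) (by simp) (by simp) (by decide)
  have e3 := h [] [0] [1, 3, 4] [2] [] (by simp) (by simp) (by simp) (by decide)
  have e4 := h [] [0] [1, 4] [3] [2] (by simp) (by simp) (by simp) (by decide)
  have e5 := h [] [0] [1, 4, 3] [2] [] (by simp) (by simp) (by simp) (by decide)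
  have e6 := h [] [0, 2] [1] [3] [4] (by simp) (by simp) (by simp) (by decide)
  have e7 := h [] [0, 2] [1, 4] [3] [] (by simp) (by simp) (by simp) (by decide)
  have e8 := h [] [1, 0] [2] [3] [4] (by simp) (by simp) (by simp) (by decide)
  have e9 := h [1, 0] [2] [3] [4] [] (by simp) (by simp) (by simp) (by decide)
  have e10 := h [] [1, 0, 4] [2] [3] [] (by simp) (by simp) (by simp) (by decide)
  have e11 := h [1] [2, 0] [3] [4] [] (by simp) (by simp) (by simp) (by decide)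
  have e12 := h [1] [2] [3] [4] [0] (by simp) (by simp) (by simp) (by decide)
  have e13 := h [1, 3] [0] [2] [4] [] (by simp) (by simp) (by simp) (by decide)
  have e14 := h [1, 4] [0] [2] [3] [] (by simp) (by simp) (by simp) (by decide)
  simp only [List.nil_append, List.cons_append, List.append_nil] at e0 e1 e2 e3 e4 e5 e6 e7 e8 e9 e10 e11 e12 e13 e14
  linear_combination (norm := abel) e0 + e1 + e2 + e3 + e4 + e5 + e6 + e7 + e8 + e9 + e10 + e11 + e12 + e13 + e14 - h2 (ψ [0, 1, 3, 4, 2]) - h2 (ψ [0, 1, 4, 3, 2]) - h2 (ψ [0, 2, 1, 3, 4]) - h2 (ψ [0, 2, 1, 4, 3]) - h2 (ψ [0, 2, 3, 1, 4]) - h2 (ψ [0, 3, 1, 4, 2]) - h2 (ψ [1, 0, 2, 3, 4]) - h2 (ψ [1, 0, 2, 3, 4]) - h2 (ψ [1, 0, 2, 4, 3]) - h2 (ψ [1, 0, 3, 2, 4]) - h2 (ψ [1, 0, 3, 4, 2]) - h2 (ψ [1, 0, 4, 2, 3]) - h2 (ψ [1, 0, 4, 3, 2]) - h2 (ψ [1,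 2, 0, 3, 4]) - h2 (ψ [1, 2, 0, 4, 3]) - h2 (ψ [1, 3, 0, 2, 4]) - h2 (ψ [1, 3, 0, 4, 2]) - h2 (ψ [1, 3, 2, 0, 4]) - h2 (ψ [1, 3, 2, 4, 0]) - h2 (ψ [1, 3, 4, 0, 2]) - h2 (ψ [1, 3, 4, 2, 0]) - h2 (ψ [1, 3, 4, 2, 0]) - h2 (ψ [1, 4, 0, 2, 3]) - h2 (ψ [1, 4, 0, 3, 2]) - h2 (ψ [1, 4, 2, 0, 3]) - h2 (ψ [1, 4, 2, 3, 0]) - h2 (ψ [1, 4, 3, 0, 2]) - h2 (ψ [1, 4, 3, 0, 2]) - h2 (ψ [1, 4, 3, 2, 0]) - h2 (ψ [1, 4, 3, 2, 0]) - h2 (ψ [2, 0, 1, 3, 4]) - h2 (ψ [2, 0, 1, 4, 3]) - h2 (ψ [2, 1, 0, 3, 4]) - h2 (ψ [2, 1, 0, 4, 3]) - h2 (ψ [2, 3, 1, 0, 4]) - h2 (ψ [3, 0, 1, 4, 2]) - h2 (ψ [3, 0, 2, 1, 4]) - h2 (ψ [3, 1, 0, 2, 4]) - h2 (ψ [3, 1, 0, 4, 2]) - h2 (ψ [3, 1, 4, 0, 2]) - h2 (ψ [3, 2, 1, 0, 4])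

private theorem idn4 (h2 : ∀ m : M, m + m = 0) (ψ : List (Fin 5) → M) (h : H5 ψ) :
    ψ [0, 1, 2, 4, 3] + ψ [0, 2, 1, 4, 3] + ψ [0, 2, 3, 4, 1] + ψ [0, 3, 2, 4, 1] + ψ [0, 1, 3, 4, 2] + ψ [0, 3, 1, 4, 2] + ψ [1, 2, 4, 0, 3] + ψ [2, 1, 4, 0, 3] + ψ [2, 3, 4, 0, 1] + ψ [3, 2, 4, 0, 1] + ψ [1, 3, 4, 0, 2] + ψ [3, 1, 4, 0, 2] = 0 := by
  have e0 := h [] [0] [1] [2, 3, 4] [] (by simp) (by simp) (by simp) (by decide)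
  have e1 := h [0, 1] [2] [3] [4] [] (by simp) (by simp) (by simp) (by decide)
  have e2 := h [] [0] [1] [3, 2, 4] [] (by simp) (by simp) (by simp) (by decide)
  have e3 := h [0] [1, 4] [2] [3] [] (by simp) (by simp) (by simp) (by decide)
  have e4 := h [] [0] [2, 1, 4] [3] [] (by simp) (by simp) (by simp) (by decide)
  have e5 := h [] [0, 2] [1, 4] [3] [] (by simp) (by simp) (by simp) (by decide)
  have e6 := h [1] [0, 2] [3] [4] [] (by simp) (by simp) (by simp) (by decide)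
  have e7 := h [1] [0] [2, 4] [3] [] (by simp) (by simp) (by simp) (by decide)
  have e8 := h [] [1] [2] [3] [4, 0] (by simp) (by simp) (by simp) (by decide)
  have e9 := h [] [1] [2, 4] [3] [0] (by simp) (by simp) (by simp) (by decide)
  have e10 := h [2] [1] [3] [4] [0] (by simp) (by simp) (by simp) (by decide)
  simp only [List.nil_append, List.cons_append, List.append_nil] at e0 e1 e2 e3 e4 e5 e6 e7 e8 e9 e10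
  linear_combination (norm := abel) e0 + e1 + e2 + e3 + e4 + e5 + e6 + e7 + e8 + e9 + e10 - h2 (ψ [0, 1, 2, 3, 4]) - h2 (ψ [0, 1, 3, 2, 4]) - h2 (ψ [0, 1, 4, 2, 3]) - h2 (ψ [0, 1, 4, 3, 2]) - h2 (ψ [0, 2, 1, 4, 3]) - h2 (ψ [0, 2, 3, 1, 4]) - h2 (ψ [0, 3, 2, 1, 4]) - h2 (ψ [1, 0, 2, 3, 4]) - h2 (ψ [1, 0, 2, 4, 3]) - h2 (ψ [1, 0, 3, 2, 4]) - h2 (ψ [1, 2, 3, 4, 0]) - h2 (ψ [1, 2, 4, 3, 0]) - h2 (ψ [1, 3, 0, 2, 4]) - h2 (ψ [1, 3, 2, 4, 0]) - h2 (ψ [1, 3, 2, 4, 0]) - h2 (ψ [1, 4, 0, 2, 3]) - h2 (ψ [1, 4, 3, 0, 2]) - h2 (ψ [2, 1, 3, 4, 0]) - h2 (ψ [2, 1, 4, 3, 0]) - h2 (ψ [2, 3, 1, 4, 0]) - h2 (ψ [2, 3, 4, 1, 0]) - h2 (ψ [2, 4, 1, 3, 0]) - h2 (ψ [2, 4, 3, 1, 0]) - h2 (ψ [3, 0, 2, 1, 4]) - h2 (ψ [3, 1, 2, 4, 0]) - h2 (ψ [3, 2, 1, 4, 0]) - h2 (ψ [3, 2, 4, 1, 0])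

private theorem idn5 (h2 : ∀ m : M, m + m = 0) (ψ : List (Fin 5) → M) (h : H5 ψ) :
    ψ [0, 1, 2, 4, 3] + ψ [0, 2, 1, 4, 3] + ψ [0, 2, 3, 4, 1] + ψ [0, 3, 2, 4, 1] + ψ [0, 1, 3, 4, 2] + ψ [0, 3, 1, 4, 2] + ψ [4, 3, 0, 1, 2] + ψ [4, 3, 0, 2, 1] + ψ [4, 1, 0, 2, 3] + ψ [4, 1, 0, 3, 2] + ψ [4, 2, 0, 1, 3] + ψ [4, 2, 0, 3, 1] = 0 := by
  have e0 := h [] [0] [1] [2] [3, 4] (by simp) (by simp) (by simp) (by decide)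
  have e1 := h [0] [1] [2] [3] [4] (by simp) (by simp) (by simp) (by decide)
  have e2 := h [] [0, 1] [2] [4] [3] (by simp) (by simp) (by simp) (by decide)
  have e3 := h [] [0, 1, 3] [2] [4] [] (by simp) (by simp) (by simp) (by decide)
  have e4 := h [] [0] [1, 4] [2] [3] (by simp) (by simp) (by simp) (by decide)
  have e5 := h [] [0, 2, 3] [1] [4] [] (by simp) (by simp) (by simp) (by decide)
  have e6 := h [] [0, 3] [1] [2] [4] (by simp) (by simp) (by simp) (by decide)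
  have e7 := h [] [0, 3] [1, 4] [2] [] (by simp) (by simp) (by simp) (by decide)
  have e8 := h [] [0, 3, 2] [1] [4] [] (by simp) (by simp) (by simp) (by decide)
  have e9 := h [4] [0, 1] [2] [3] [] (by simp) (by simp) (by simp) (by decide)
  have e10 := h [4] [0] [2] [3] [1] (by simp) (by simp) (by simp) (by decide)
  simp only [List.nil_append, List.cons_append, List.append_nil] at e0 e1 e2 e3 e4 e5 e6 e7 e8 e9 e10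
  linear_combination (norm := abel) e0 + e1 + e2 + e3 + e4 + e5 + e6 + e7 + e8 + e9 + e10 - h2 (ψ [0, 1, 2, 3, 4]) - h2 (ψ [0, 1, 3, 2, 4]) - h2 (ψ [0, 1, 4, 2, 3]) - h2 (ψ [0, 2, 1, 3, 4]) - h2 (ψ [0, 2, 3, 1, 4]) - h2 (ψ [0, 3, 1, 2, 4]) - h2 (ψ [0, 3, 2, 1, 4]) - h2 (ψ [0, 3, 2, 1, 4]) - h2 (ψ [1, 0, 2, 3, 4]) - h2 (ψ [1, 0, 3, 2, 4]) - h2 (ψ [1, 2, 0, 3, 4]) - h2 (ψ [1, 4, 0, 2, 3]) - h2 (ψ [1, 4, 0, 3, 2]) - h2 (ψ [1, 4, 2, 0, 3]) - h2 (ψ [2, 0, 1, 3, 4]) - h2 (ψ [2, 0, 1, 4, 3]) - h2 (ψ [2, 0, 3, 1, 4]) - h2 (ψ [2, 1, 0, 3, 4]) - h2 (ψ [2, 1, 4, 0, 3]) - h2 (ψ [2, 4, 0, 1, 3]) - h2 (ψ [4, 0, 1, 2, 3]) - h2 (ψ [4, 0, 1, 3, 2]) - h2 (ψ [4, 0, 2, 3, 1]) - h2 (ψ [4, 0, 3, 2, 1]) - h2 (ψ [4, 2, 0, 1, 3]) - h2 (ψ [4, 2, 3, 0, 1]) - h2 (ψ [4, 3, 2, 0, 1])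

private theorem idn6 (h2 : ∀ m : M, m + m = 0) (ψ : List (Fin 5) → M) (h : H5 ψ) :
    ψ [0, 2, 3, 4, 1] + ψ [0, 3, 2, 4, 1] + ψ [1, 2, 3, 4, 0] + ψ [1, 3, 2, 4, 0] + ψ [4, 0, 1, 2, 3] + ψ [4, 1, 0, 2, 3] + ψ [4, 0, 1, 3, 2] + ψ [4, 1, 0, 3, 2] = 0 := by
  have e0 := h [] [0] [2, 3] [4, 1] [] (by simp) (by simp) (by simp) (by decide)
  have e1 := h [] [0] [2] [4, 3] [1] (by simp) (by simp) (by simp) (by decide)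
  have e2 := h [] [0] [2] [4, 3, 1] [] (by simp) (by simp) (by simp) (by decide)
  have e3 := h [] [0] [3, 2] [4] [1] (by simp) (by simp) (by simp) (by decide)
  have e4 := h [] [0] [3] [4] [1, 2] (by simp) (by simp) (by simp) (by decide)
  have e5 := h [] [0] [3] [4, 1, 2] [] (by simp) (by simp) (by simp) (by decide)
  have e6 := h [] [1, 2] [3] [4, 0] [] (by simp) (by simp) (by simp) (by decide)
  have e7 := h [] [1] [2, 4, 0] [3] [] (by simp) (by simp) (by simp) (by decide)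
  have e8 := h [] [2, 0] [3] [4, 1] [] (by simp) (by simp) (by simp) (by decide)
  have e9 := h [2] [0] [3] [4, 1] [] (by simp) (by simp) (by simp) (by decide)
  have e10 := h [2, 4] [0] [1] [3] [] (by simp) (by simp) (by simp) (by decide)
  have e11 := h [4] [0] [1] [3, 2] [] (by simp) (by simp) (by simp) (by decide)
  have e12 := h [4, 3] [0] [1] [2] [] (by simp) (by simp) (by simp) (by decide)
  simp only [List.nil_append, List.cons_append, List.append_nil] at e0 e1 e2 e3 e4 e5 e6 e7 e8 e9 e10 e11 e12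
  linear_combination (norm := abel) e0 + e1 + e2 + e3 + e4 + e5 + e6 + e7 + e8 + e9 + e10 + e11 + e12 - h2 (ψ [0, 2, 4, 3, 1]) - h2 (ψ [0, 3, 4, 1, 2]) - h2 (ψ [0, 4, 1, 2, 3]) - h2 (ψ [0, 4, 3, 1, 2]) - h2 (ψ [0, 4, 3, 2, 1]) - h2 (ψ [1, 2, 4, 0, 3]) - h2 (ψ [2, 0, 3, 4, 1]) - h2 (ψ [2, 0, 4, 1, 3]) - h2 (ψ [2, 0, 4, 3, 1]) - h2 (ψ [2, 3, 0, 4, 1]) - h2 (ψ [2, 3, 4, 1, 0]) - h2 (ψ [2, 4, 0, 1, 3]) - h2 (ψ [2, 4, 0, 3, 1]) - h2 (ψ [2, 4, 1, 0, 3]) - h2 (ψ [2, 4, 1, 3, 0]) - h2 (ψ [2, 4, 3, 0, 1]) - h2 (ψ [2, 4, 3, 1, 0]) - h2 (ψ [3, 0, 4, 1, 2]) - h2 (ψ [3, 1, 2, 4, 0]) - h2 (ψ [3, 2, 0, 4, 1]) - h2 (ψ [3, 2, 4, 0, 1]) - h2 (ψ [3, 4, 0, 1, 2]) - h2 (ψ [3, 4, 1, 2, 0]) - h2 (ψ [4, 0, 3, 1, 2]) - h2 (ψ [4, 0, 3, 2, 1]) - h2 (ψ [4, 1, 2, 0, 3]) - h2 (ψ [4, 1, 2, 3, 0]) - h2 (ψ [4, 1, 3, 2, 0]) - h2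 (ψ [4, 3, 0, 1, 2]) - h2 (ψ [4, 3, 0, 2, 1]) - h2 (ψ [4, 3, 1, 0, 2]) - h2 (ψ [4, 3, 1, 2, 0]) - h2 (ψ [4, 3, 2, 0, 1]) - h2 (ψ [4, 3, 2, 0, 1]) - h2 (ψ [4, 3, 2, 1, 0])

private theorem idn7 (h2 : ∀ m : M, m + m = 0) (ψ : List (Fin 5) → M) (h : H5 ψ) :
    ψ [0, 1, 2, 4, 3] + ψ [0, 2, 1, 4, 3] + ψ [1, 2, 4, 0, 3] + ψ [2, 1, 4, 0, 3] + ψ [4, 3, 0, 1, 2] + ψ [4, 3, 0, 2, 1] + ψ [0, 1, 3, 4, 2] + ψ [0, 3, 1, 4, 2] + ψ [1, 3, 4, 0, 2] + ψ [3, 1, 4, 0, 2] + ψ [4, 2, 0, 1, 3] + ψ [4, 2, 0, 3, 1] + ψ [1, 2, 3, 4, 0] + ψ [1, 3, 2, 4, 0] + ψ [2, 3, 4, 0, 1] + ψ [3, 2, 4, 0, 1] + ψ [0, 2, 3, 1, 4] + ψ [0, 3, 2, 1, 4] + ψ [4, 1, 0, 2, 3] + ψ [4, 1, 0, 3, 2] = 0 := by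
  have e0 := h [] [0] [1, 2] [3, 4] [] (by simp) (by simp) (by simp) (by decide)
  have e1 := h [] [0, 1, 2] [3] [4] [] (by simp) (by simp) (by simp) (by decide)
  have e2 := h [] [0] [1] [3, 4] [2] (by simp) (by simp) (by simp) (by decide)
  have e3 := h [] [0] [1, 4] [3] [2] (by simp) (by simp) (by simp) (by decide)
  have e4 := h [] [0] [1, 4] [3, 2] [] (by simp) (by simp) (by simp) (by decide)
  have e5 := h [] [0, 2] [1] [4, 3] [] (by simp) (by simp) (by simp) (by decide)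
  have e6 := h [] [0, 2] [3, 1] [4] [] (by simp) (by simp) (by simp) (by decide)
  have e7 := h [] [1, 0] [2, 4] [3] [] (by simp) (by simp) (by simp) (by decide)
  have e8 := h [1] [0, 3] [2] [4] [] (by simp) (by simp) (by simp) (by decide)
  have e9 := h [] [1] [2, 3] [4] [0] (by simp) (by simp) (by simp) (by decide)
  have e10 := h [] [1] [2, 3] [4, 0] [] (by simp) (by simp) (by simp) (by decide)
  have e11 := h [] [1, 2] [3] [4] [0] (by simp) (by simp) (by simp) (by decide)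
  have e12 := h [1] [2] [3] [4] [0] (by simp) (by simp) (by simp) (by decide)
  have e13 := h [] [1] [3] [4, 2, 0] [] (by simp) (by simp) (by simp) (by decide)
  have e14 := h [] [1, 4, 0] [2] [3] [] (by simp) (by simp) (by simp) (by decide)
  have e15 := h [] [2] [3, 1] [4] [0] (by simp) (by simp) (by simp) (by decide)
  have e16 := h [] [2] [3] [4, 1, 0] [] (by simp) (by simp) (by simp) (by decide)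
  have e17 := h [3] [0, 1] [2] [4] [] (by simp) (by simp) (by simp) (by decide)
  simp only [List.nil_append, List.cons_append, List.append_nil] at e0 e1 e2 e3 e4 e5 e6 e7 e8 e9 e10 e11 e12 e13 e14 e15 e16 e17
  linear_combination (norm := abel) e0 + e1 + e2 + e3 + e4 + e5 + e6 + e7 + e8 + e9 + e10 + e11 + e12 + e13 + e14 + e15 + e16 + e17 - h2 (ψ [0, 1, 2, 3, 4]) - h2 (ψ [0, 1, 4, 3, 2]) - h2 (ψ [0, 2, 4, 3, 1]) - h2 (ψ [0, 3, 4, 1, 2]) - h2 (ψ [1, 0, 2, 4, 3]) - h2 (ψ [1, 0, 3, 2, 4]) - h2 (ψ [1, 0, 3, 4, 2]) - h2 (ψ [1, 2, 0, 3, 4]) - h2 (ψ [1, 2, 3, 4, 0]) - h2 (ψ [1, 2, 3, 4, 0]) - h2 (ψ [1, 2, 4, 3, 0]) - h2 (ψ [1, 3, 4, 2, 0]) - h2 (ψ [1, 4, 0, 2, 3]) - h2 (ψ [1, 4, 0, 3, 2]) - h2 (ψ [1, 4, 0, 3, 2]) - h2 (ψ [1, 4, 2, 0, 3]) - h2 (ψ [1, 4, 2, 3, 0]) - h2 (ψ [1, 4, 3, 0, 2]) - h2 (ψ [1, 4,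 3, 2, 0]) - h2 (ψ [2, 3, 1, 4, 0]) - h2 (ψ [2, 3, 1, 4, 0]) - h2 (ψ [2, 3, 4, 1, 0]) - h2 (ψ [2, 4, 1, 0, 3]) - h2 (ψ [2, 4, 3, 1, 0]) - h2 (ψ [3, 0, 1, 2, 4]) - h2 (ψ [3, 0, 1, 4, 2]) - h2 (ψ [3, 1, 0, 2, 4]) - h2 (ψ [3, 1, 2, 4, 0]) - h2 (ψ [3, 1, 4, 0, 2]) - h2 (ψ [3, 1, 4, 2, 0]) - h2 (ψ [3, 2, 0, 1, 4]) - h2 (ψ [3, 2, 1, 4, 0]) - h2 (ψ [3, 2, 4, 1, 0]) - h2 (ψ [3, 4, 0, 1, 2]) - h2 (ψ [3, 4, 0, 1, 2]) - h2 (ψ [3, 4, 1, 0, 2]) - h2 (ψ [3, 4, 1, 2, 0]) - h2 (ψ [3, 4, 2, 0, 1]) - h2 (ψ [4, 0, 1, 2, 3]) - h2 (ψ [4, 0, 2, 3, 1]) - h2 (ψ [4, 1, 2, 3, 0]) - h2 (ψ [4, 2, 3, 1, 0]) - h2 (ψ [4, 3, 1, 0, 2]) - h2 (ψ [4, 3, 1, 2, 0])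

theorem thm_Idn : St_Idn := by
  intro M _ h2 ψ h
  exact ⟨idn1 h2 ψ h, idn2 h2 ψ h, idn3 h2 ψ h, idn4 h2 ψ h, idn5 h2 ψ h, idn6 h2 ψ h, idn7 h2 ψ h⟩

end Pool.Agent.CRS
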