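import Pool.Agent.CRS.StA
import Pool.Agent.CRS.StC

/-!
Campaign CRS, module Jzf: the form of `St_KZ` which is used in part C.
-/

set_option autoImplicit false

namespace Pool.Agent.CRS

open Pool.Agent.CRR Pool.Agent.CRN Pool.Agent.CRK Pool.Agent.CRL Pool.Agent.CRM Pool.Agent.CRP
open Pool.Agent.CRQ

theorem thm_Jzf (h : St_KZ) : Jkz := by
  intro A _ h3 hr k v w hw h6 hk
  refine h A ⟨h3, hr⟩ ℕ v w h6 ?_
  have h1 : w.toFinset ⊆ Finset.range k := by
    intro i hi
    exact Finset.mem_range.2 (hw i (List.mem_toFinset.1 hi))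
  have h2 := Finset.card_le_card h1
  rw [Finset.card_range] at h2
  omega

end Pool.Agent.CRS
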