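import Pool.Agent.CRS.StE
import Mathlib.Tactic

/-!
# CRS, module Kex: a matrix with given differences (helper68)

Statement and proof: `St_Kex` in `CRS/StE.lean`.
-/

set_option autoImplicit false

namespace Pool.Agent.CRS

open Pool.Agent.CRR Pool.Agent.CRN Pool.Agent.CRK Pool.Agent.CRL Pool.Agent.CRM Pool.Agent.CRP
open Pool.Agent.CRQ

private theorem kex_ex (ι : Type) [DecidableEq ι] [Fintype ι] (h5 : 5 ≤ Fintype.card ι)
    (a b c d : ι) : ∃ x, x ≠ a ∧ x ≠ b ∧ x ≠ c ∧ x ≠ d := by
  by_contra hcon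
  push Not at hcon
  have h1 : (Finset.univ : Finset ι) ⊆ {a, b, c, d} := by
    intro x _
    simp only [Finset.mem_insert, Finset.mem_singleton]
    by_cases h1 : x = a
    · exact Or.inl h1
    · by_cases h2 : x = b
      · exact Or.inr (Or.inl h2)
      · by_cases h3 : x = c
        · exact Or.inr (Or.inr (Or.inl h3))
        · exact Or.inr (Or.inr (Or.inr (hcon x h1 h2 h3)))
  have h2 := Finset.card_le_card h1
  have h3 : ({a, b, c, d} : Finset ι).card ≤ 4 := Finset.card_le_four
  rw [Finset.card_univ] at h2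
  omega

/-- in a group of exponent 2 -/
private theorem kex_eq {M : Type} [AddCommGroup M] (h2 : ∀ m : M, m + m = 0) {x y : M}
    (h : x + y = 0) : x = y := by
  have h3 := h2 y
  exact add_right_cancel (h.trans h3.symm)

/-- the module Kex -/
theorem thm_Kex : St_Kex := by
  intro ι M _ _ _ h2 h5 ξ η ζ hsx hsη hsζ hcx hcη hr hz hx
  -- the hypotheses with inequalities
  have sx : ∀ p a b : ι, p ≠ a → p ≠ b → a ≠ b → ξ p a b = ξ p b a := fun p a b h1 h2 h3 =>
    hsx p a b (by simp [h1, h2, h3])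
  have sη : ∀ a b q : ι, a ≠ b → a ≠ q → b ≠ q → η a b q = η b a q := fun a b q h1 h2 h3 =>
    hsη a b q (by simp [h1, h2, h3])
  have cx : ∀ p a b c : ι, p ≠ a → p ≠ b → p ≠ c → a ≠ b → a ≠ c → b ≠ c →
      ξ p a b + ξ p b c = ξ p a c := fun p a b c h1 h2 h3 h4 h5 h6 =>
    hcx p a b c (by simp [h1, h2, h3, h4, h5, h6])
  have cη : ∀ a b c q : ι, a ≠ b → a ≠ c → a ≠ q → b ≠ c → b ≠ q → c ≠ q →
      η a b q + η b c q = η a c q := fun a b c q h1 h2 h3 h4 h5 h6 =>
    hcη a b c q (by simp [h1, h2, h3, h4, h5, h6])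
  have rr : ∀ p p' a b : ι, p ≠ p' → p ≠ a → p ≠ b → p' ≠ a → p' ≠ b → a ≠ b →
      ξ p a b + ξ p' a b = η p p' a + η p p' b := fun p p' a b h1 h2 h3 h4 h5 h6 =>
    hr p p' a b (by simp [h1, h2, h3, h4, h5, h6])
  have zz : ∀ a b c : ι, a ≠ b → a ≠ c → b ≠ c → ζ a b + ζ a c = ξ a b c + η b c a :=
    fun a b c h1 h2 h3 => hz a b c (by simp [h1, h2, h3])
  have xx : ∀ a b c : ι, a ≠ b → a ≠ c → b ≠ c →
      ζ a b + η a b c + (ζ b c + η b c a) + (ζ a c + η a c b) = 0 :=
    fun a b c h1 h2 h3 => hx a b c (by simp [h1, h2, h3])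
  -- two letters
  have hne : Nonempty ι := Fintype.card_pos_iff.1 (by omega)
  obtain ⟨o⟩ := hne
  obtain ⟨u, huo, _, _, _⟩ := kex_ex ι h5 o o o o
  have hj0 : ∀ i : ι, ∃ j, j ≠ i ∧ j ≠ o := fun i => by
    obtain ⟨j, h1, h3, _, _⟩ := kex_ex ι h5 i o o o
    exact ⟨j, h1, h3⟩
  choose j0 hj0i hj0o using hj0
  -- the matrix
  let KO : ι → M := fun j => if j = u then 0 else ξ o u j
  let K1 : ι → ι → M := fun i j => KO j + η o i j
  let K : ι → ι → M := fun i j =>
    if i = o then KO j else if j = o then K1 i (j0 i) + ξ i (j0 i) o else K1 i j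
  have A0 : ∀ a b : ι, a ≠ o → b ≠ o → a ≠ b → KO a + KO b = ξ o a b := by
    intro a b ha hb hab
    by_cases hau : a = u
    · have hbu : b ≠ u := fun h => hab (hau.trans h.symm)
      show (if a = u then 0 else ξ o u a) + (if b = u then 0 else ξ o u b) = ξ o a b
      rw [if_pos hau, if_neg hbu, zero_add, hau]
    · by_cases hbu : b = u
      · show (if a = u then 0 else ξ o u a) + (if b = u then 0 else ξ o u b) = ξ o a b
        rw [if_neg hau, if_pos hbu, add_zero, hbu]
        exact sx o u a huo.symm (Ne.symm ha) (Ne.symm hau)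
      · show (if a = u then 0 else ξ o u a) + (if b = u then 0 else ξ o u b) = ξ o a b
        rw [if_neg hau, if_neg hbu,
          ← cx o u a b huo.symm (Ne.symm ha) (Ne.symm hb) (Ne.symm hau) (Ne.symm hbu) hab,
          ← add_assoc, h2, zero_add]
  have A1 : ∀ p a b : ι, p ≠ o → a ≠ o → b ≠ o → p ≠ a → p ≠ b → a ≠ b →
      K1 p a + K1 p b = ξ p a b := by
    intro p a b hp ha hb hpa hpb hab
    have e1 := A0 a b ha hb hab
    have e2 := rr o p a b (Ne.symm hp) (Ne.symm ha) (Ne.symm hb) hpa hpb hab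
    show KO a + η o p a + (KO b + η o p b) = ξ p a b
    have e3 : KO a + η o p a + (KO b + η o p b) = (KO a + KO b) + (η o p a + η o p b) := by abel
    rw [e3, e1, ← e2, ← add_assoc, h2, zero_add]
  have A2 : ∀ i j : ι, i ≠ o → j ≠ i → j ≠ o →
      K1 i (j0 i) + ξ i (j0 i) o = K1 i j + ξ i j o := by
    intro i j hi hji hjo
    by_cases hjj : j = j0 i
    · rw [hjj]
    · have e1 := A1 i (j0 i) j hi (hj0o i) hjo (Ne.symm (hj0i i)) (Ne.symm hji) (Ne.symm hjj)
      have e2 := cx i (j0 i) j o (Ne.symm (hj0i i)) (Ne.symm hji) hi (Ne.symm hjj) (hj0o i) hjo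
      rw [← e2, ← e1]
      have e3 : K1 i (j0 i) + (K1 i (j0 i) + K1 i j + ξ i j o)
          = (K1 i (j0 i) + K1 i (j0 i)) + (K1 i j + ξ i j o) := by abel
      rw [e3, h2, zero_add]
  have Ko : ∀ j, K o j = KO j := fun j => if_pos rfl
  have Kio : ∀ i j : ι, i ≠ o → j ≠ i → j ≠ o → K i o = K1 i j + ξ i j o := by
    intro i j hi hji hjo
    rw [← A2 i j hi hji hjo]
    show (if i = o then KO o else if o = o then K1 i (j0 i) + ξ i (j0 i) o else K1 i o) = _
    rw [if_neg hi, if_pos rfl]
  have Kij : ∀ i j : ι, i ≠ o → j ≠ o → K i j = K1 i j := by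
    intro i j hi hj
    show (if i = o then KO j else if j = o then K1 i (j0 i) + ξ i (j0 i) o else K1 i j) = _
    rw [if_neg hi, if_neg hj]
  -- (a)
  have Ha : ∀ p a b : ι, p ≠ a → p ≠ b → a ≠ b → K p a + K p b = ξ p a b := by
    intro p a b hpa hpb hab
    by_cases hp : p = o
    · subst hp
      rw [Ko, Ko]
      exact A0 a b (Ne.symm hpa) (Ne.symm hpb) hab
    · by_cases ha : a = o
      · subst ha
        have hb : b ≠ a := Ne.symm hab
        rw [Kio p b hp (Ne.symm hpb) hb, Kij p b hp hb]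
        have e3 : K1 p b + ξ p b a + K1 p b = (K1 p b + K1 p b) + ξ p b a := by abel
        rw [e3, h2, zero_add]
        exact sx p b a hpb hpa hb
      · by_cases hb : b = o
        · subst hb
          rw [Kio p a hp (Ne.symm hpa) ha, Kij p a hp ha]
          rw [← add_assoc, h2, zero_add]
        · rw [Kij p a hp ha, Kij p b hp hb]
          exact A1 p a b hp ha hb hpa hpb hab
  -- (b)
  have Hb1 : ∀ a b q : ι, q ≠ o → a ≠ b → a ≠ q → b ≠ q → K a q + K b q = η a b q := by
    intro a b q hq hab haq hbq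
    by_cases ha : a = o
    · subst ha
      rw [Ko, Kij b q (Ne.symm hab) hq]
      show KO q + (KO q + η a b q) = η a b q
      rw [← add_assoc, h2, zero_add]
    · by_cases hb : b = o
      · subst hb
        rw [Ko, Kij a q ha hq]
        show KO q + η b a q + KO q = η a b q
        have e3 : KO q + η b a q + KO q = (KO q + KO q) + η b a q := by abel
        rw [e3, h2, zero_add]
        exact sη b a q (Ne.symm hab) hbq haq
      · rw [Kij a q ha hq, Kij b q hb hq]
        have e := cη o a b q (Ne.symm ha) (Ne.symm hb) (Ne.symm hq) hab haq hbq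
        show KO q + η o a q + (KO q + η o b q) = η a b q
        rw [← e]
        have e3 : KO q + η o a q + (KO q + (η o a q + η a b q))
            = (KO q + KO q) + (η o a q + η o a q) + η a b q := by abel
        rw [e3, h2, h2, zero_add, zero_add]
  have Hb : ∀ a b q : ι, a ≠ b → a ≠ q → b ≠ q → K a q + K b q = η a b q := by
    intro a b q hab haq hbq
    by_cases hq : q = o
    · subst hq
      obtain ⟨j, hja, hjb, hjq, _⟩ := kex_ex ι h5 a b q q
      rw [Kio a j haq hja hjq, Kio b j hbq hjb hjq]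
      have e1 := Hb1 a b j hjq hab (Ne.symm hja) (Ne.symm hjb)
      rw [Kij a j haq hjq, Kij b j hbq hjq] at e1
      have e2 := rr a b j q hab (Ne.symm hja) haq (Ne.symm hjb) hbq hjq
      have e3 : K1 a j + ξ a j q + (K1 b j + ξ b j q)
          = (K1 a j + K1 b j) + (ξ a j q + ξ b j q) := by abel
      rw [e3, e1, e2, ← add_assoc, h2, zero_add]
    · exact Hb1 a b q hq hab haq hbq
  refine ⟨K, ?_, ?_, ?_⟩
  · intro p a b h
    simp only [List.nodup_cons, List.mem_cons, List.not_mem_nil, or_false, not_or] at h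
    exact Ha p a b h.1.1 h.1.2 h.2.1
  · intro a b q h
    simp only [List.nodup_cons, List.mem_cons, List.not_mem_nil, or_false, not_or] at h
    exact Hb a b q h.1.1 h.1.2 h.2.1
  · intro a b hab
    obtain ⟨c, hca, hcb, _, _⟩ := kex_ex ι h5 a b a a
    have hac : a ≠ c := Ne.symm hca
    have hbc : b ≠ c := Ne.symm hcb
    -- the sums
    have w1 : (K a b + K b a + ζ a b) + (K a c + K c a + ζ a c) = 0 := by
      have e1 := Ha a b c hab hac hbc
      have e2 := Hb b c a hbc (Ne.symm hab) hca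
      have e3 := zz a b c hab hac hbc
      have e4 : (K a b + K b a + ζ a b) + (K a c + K c a + ζ a c)
          = (K a b + K a c) + (K b a + K c a) + (ζ a b + ζ a c) := by abel
      rw [e4, e1, e2, e3, h2]
    have w2 : (K b a + K a b + ζ b a) + (K b c + K c b + ζ b c) = 0 := by
      have e1 := Ha b a c (Ne.symm hab) hbc hac
      have e2 := Hb a c b hac hab hcb
      have e3 := zz b a c (Ne.symm hab) hbc hac
      have e4 : (K b a + K a b + ζ b a) + (K b c + K c b + ζ b c)
          = (K b a + K b c) + (K a b + K c b) + (ζ b a + ζ b c) := by abel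
      rw [e4, e1, e2, e3, h2]
    have w3 : (K a b + K b a + ζ a b) + (K b c + K c b + ζ b c) + (K a c + K c a + ζ a c) = 0 := by
      have e0 := xx a b c hab hac hbc
      rw [← Hb a b c hab hac hbc, ← Hb b c a hbc (Ne.symm hab) hca, ← Hb a c b hac hab hcb] at e0
      rw [← e0]
      abel
    have sζ := hsζ a b hab
    have e1 := kex_eq h2 w1
    have e2 := kex_eq h2 w2
    have e3 : K b a + K a b + ζ b a = K a b + K b a + ζ a b := by
      rw [sζ, add_comm (K b a) (K a b)]
    rw [← e2, ← e1, e3, h2, zero_add] at w3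
    exact kex_eq h2 w3

end Pool.Agent.CRS
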