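import Pool.Agent.CRS.StE
import Mathlib.Tactic

/-!
Campaign CRS (problem MP_1bb14d_al): module Kfi, the adjacency formula for functions of words.
-/

set_option autoImplicit false

namespace Pool.Agent.CRS

open Pool.Agent.CRR Pool.Agent.CRN Pool.Agent.CRK Pool.Agent.CRL Pool.Agent.CRM Pool.Agent.CRP
open Pool.Agent.CRQ

/-- `adj` of a word with a marked letter -/
private theorem kfi_adj {ι M : Type} [AddCommGroup M] (K : ι → ι → M) (p : ι) (V : List ι) :
    ∀ U : List ι, adj K (U ++ p :: V) = adj K (U ++ [p]) + adj K (p :: V)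
  | [] => by simp [adj]
  | [c] => by simp [adj]
  | c :: d :: U => by
    have h := kfi_adj K p V (d :: U)
    simp only [List.cons_append] at h ⊢
    rw [adj, h, adj, add_assoc]

private theorem kfi_main {ι M : Type} [DecidableEq ι] [AddCommGroup M] (φ : List ι → M) (l : List ι) (hDaw : St_Daw)
    (hPin : St_Pin) (H : Ks φ l) (K : ι → ι → M)
    (ha : ∀ p a b q : ι, [p, a, b, q].Nodup → Da φ l p a b q = (K p a + K p b) + (K a q + K b q) + (K a b + K b a))
    (hb : ∀ a b q : ι, [a, b, q].Nodup → Db φ l a b q = (K a q + K b q) + (K a b + K b a))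
    (hc : ∀ p a b : ι, [p, a, b].Nodup → Dc φ l p a b = (K p a + K p b) + (K a b + K b a)) :
    ∃ e : M, ∀ w : List ι, w.Perm l → φ w = e + adj K w := by
  obtain ⟨d1, d2, d3⟩ := hDaw ι M φ l H
  have two := H.two
  have key : ∀ (U V : List ι) (a b : ι), (U ++ a :: b :: V).Perm l →
      φ (U ++ a :: b :: V) + adj K (U ++ a :: b :: V) = φ (U ++ b :: a :: V) + adj K (U ++ b :: a :: V) := by
    intro U V a b hp
    have hnd : (U ++ a :: b :: V).Nodup := hp.nodup_iff.2 H.nd
    rcases List.eq_nil_or_concat' U with rfl | ⟨U', p, rfl⟩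
    · rcases V with _ | ⟨q, V'⟩
      · exfalso
        have h1 := hp.length_eq
        have h2 := H.six
        simp at h1
        omega
      · have e1 := d2 V' a b q hp
        have hn : [a, b, q].Nodup := by
          have : [a, b, q].Sublist ([] ++ a :: b :: q :: V') := by simp
          exact this.nodup hnd
        rw [hb a b q hn] at e1
        simp only [List.nil_append] at e1 ⊢
        have e2 : adj K (a :: b :: q :: V') = K a b + (K b q + adj K (q :: V')) := by rw [adj, adj]
        have e3 : adj K (b :: a :: q :: V') = K b a + (K a q + adj K (q :: V')) := by rw [adj, adj]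
        rw [e2, e3]
        linear_combination (norm := abel) e1 - two (φ (b :: a :: q :: V')) + two (K a b) + two (K b q)
    · rcases V with _ | ⟨q, V'⟩
      · have hp' : (U' ++ [p, a, b]).Perm l := by simpa using hp
        have e1 := d3 U' p a b hp'
        have hn : [p, a, b].Nodup := by
          have : [p, a, b].Sublist (U' ++ [p] ++ a :: b :: []) := by simp
          exact this.nodup hnd
        rw [hc p a b hn] at e1
        have e2 : U' ++ [p] ++ [a, b] = U' ++ p :: [a, b] := by simp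
        have e3 : U' ++ [p] ++ [b, a] = U' ++ p :: [b, a] := by simp
        rw [e2, e3, kfi_adj K p [a, b], kfi_adj K p [b, a]]
        have e4 : adj K (p :: [a, b]) = K p a + (K a b + 0) := rfl
        have e5 : adj K (p :: [b, a]) = K p b + (K b a + 0) := rfl
        rw [e4, e5]
        linear_combination (norm := abel) e1 - two (φ (U' ++ [p, b, a])) + two (K p a) + two (K a b)
      · have hp' : (U' ++ p :: a :: b :: q :: V').Perm l := by simpa using hp
        have e1 := d1 U' V' p a b q hp'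
        have hn : [p, a, b, q].Nodup := by
          have : [p, a, b, q].Sublist (U' ++ [p] ++ a :: b :: q :: V') := by simp
          exact this.nodup hnd
        rw [ha p a b q hn] at e1
        have e2 : U' ++ [p] ++ a :: b :: q :: V' = U' ++ p :: a :: b :: q :: V' := by simp
        have e3 : U' ++ [p] ++ b :: a :: q :: V' = U' ++ p :: b :: a :: q :: V' := by simp
        rw [e2, e3, kfi_adj K p (a :: b :: q :: V'), kfi_adj K p (b :: a :: q :: V')]
        have e4 : adj K (p :: a :: b :: q :: V') = K p a + (K a b + (K b q + adj K (q :: V'))) := by rw [adj, adj, adj]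
        have e5 : adj K (p :: b :: a :: q :: V') = K p b + (K b a + (K a q + adj K (q :: V'))) := by rw [adj, adj, adj]
        rw [e4, e5]
        linear_combination (norm := abel) e1 - two (φ (U' ++ p :: b :: a :: q :: V')) + two (K p a) + two (K a b) + two (K b q)
  refine ⟨φ l + adj K l, fun w hw => ?_⟩
  have h := hPin ι M (fun w => φ w + adj K w) l key w l hw (List.Perm.refl l)
  have h' : φ w + adj K w = φ l + adj K l := h
  rw [← h', add_assoc, two, add_zero]

theorem thm_Kfi (hDaw : St_Daw) (hDrl : St_Drl) (hDrm : St_Drm) (hKex : St_Kex) (hPin : St_Pin) : St_Kfi := by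
  intro ι M _ _ φ l H
  obtain ⟨r0, r1, r2, r3⟩ := hDrl ι M φ l H
  obtain ⟨m1, m2, m3, m4⟩ := hDrm ι M φ l H
  have two := H.two
  let _ : Fintype ι := ⟨l.toFinset, fun i => List.mem_toFinset.2 (H.all i)⟩
  have hcard : Fintype.card ι = l.length := List.toFinset_card_of_nodup H.nd
  have hne : Nonempty ι := by
    have : 0 < Fintype.card ι := by have := H.six; omega
    exact Fintype.card_pos_iff.1 this
  have ex : ∀ S : List ι, S.length ≤ 5 → ∃ q, q ∉ S := by
    intro S hS
    by_contra h
    push Not at h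
    have h1 : (Finset.univ : Finset ι) ⊆ S.toFinset := fun i _ => List.mem_toFinset.2 (h i)
    have h2 := Finset.card_le_card h1
    have h3 := S.toFinset_card_le
    have h4 : (Finset.univ : Finset ι).card = l.length := hcard
    have h5 := H.six
    omega
  obtain ⟨q0, hq0⟩ : ∃ q0 : List ι → ι, ∀ S : List ι, S.length ≤ 5 → q0 S ∉ S := by
    refine ⟨fun S => Classical.epsilon fun q => q ∉ S, fun S hS => ?_⟩
    exact Classical.epsilon_spec (ex S hS)
  obtain ⟨ξ, hξ⟩ : ∃ ξ : ι → ι → ι → M, ∀ p a b q : ι, [p, a, b, q].Nodup → ξ p a b = Da φ l p a b q + Db φ l a b q := by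
    refine ⟨fun p a b => Da φ l p a b (q0 [p, a, b]) + Db φ l a b (q0 [p, a, b]), fun p a b q hn => ?_⟩
    by_cases h : q0 [p, a, b] = q
    · simp only [h]
    · have h1 := hq0 [p, a, b] (by simp)
      refine r1 p a b _ q ?_
      simp only [List.nodup_cons, List.mem_cons, List.not_mem_nil, or_false, not_or, not_false_eq_true, List.nodup_nil,
        and_true] at hn h1 ⊢
      refine ⟨⟨hn.1.1, hn.1.2.1, fun h' => h1.1 h'.symm, hn.1.2.2⟩, ⟨hn.2.1.1, fun h' => h1.2.1 h'.symm, hn.2.1.2⟩,
        ⟨fun h' => h1.2.2 h'.symm, hn.2.2⟩, h⟩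
  obtain ⟨η, hη⟩ : ∃ η : ι → ι → ι → M, ∀ p a b q : ι, [p, a, b, q].Nodup → η a b q = Da φ l p a b q + Dc φ l p a b := by
    refine ⟨fun a b q => Da φ l (q0 [a, b, q]) a b q + Dc φ l (q0 [a, b, q]) a b, fun p a b q hn => ?_⟩
    by_cases h : q0 [a, b, q] = p
    · simp only [h]
    · have h1 := hq0 [a, b, q] (by simp)
      refine r2 _ p a b q ?_
      simp only [List.nodup_cons, List.mem_cons, List.not_mem_nil, or_false, not_or, not_false_eq_true, List.nodup_nil,
        and_true] at hn h1 ⊢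
      exact ⟨⟨h, h1⟩, hn⟩
  obtain ⟨ζ, hζ⟩ : ∃ ζ : ι → ι → M, ∀ p a b q : ι, [p, a, b, q].Nodup →
      ζ a b = Da φ l p a b q + Db φ l a b q + Dc φ l p a b := by
    refine ⟨fun a b => Da φ l (q0 [a, b]) a b (q0 [q0 [a, b], a, b]) + Db φ l a b (q0 [q0 [a, b], a, b]) +
      Dc φ l (q0 [a, b]) a b, fun p a b q hn => ?_⟩
    have h1 := hq0 [a, b] (by simp)
    have h2 := hq0 [q0 [a, b], a, b] (by simp)
    -- changing the last letter, changing the first letter
    have c1 : ∀ p a b q q', [p, a, b, q].Nodup → [p, a, b, q'].Nodup →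
        Da φ l p a b q + Db φ l a b q + Dc φ l p a b = Da φ l p a b q' + Db φ l a b q' + Dc φ l p a b := by
      intro p a b q q' h h'
      rw [← hξ p a b q h, ← hξ p a b q' h']
    have c2 : ∀ p p' a b q, [p, a, b, q].Nodup → [p', a, b, q].Nodup →
        Da φ l p a b q + Db φ l a b q + Dc φ l p a b = Da φ l p' a b q + Db φ l a b q + Dc φ l p' a b := by
      intro p p' a b q h h'
      rw [add_right_comm, ← hη p a b q h, add_right_comm, ← hη p' a b q h']
    dsimp only
    generalize q0 [q0 [a, b], a, b] = q' at h2 ⊢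
    generalize q0 [a, b] = p' at h1 h2 ⊢
    obtain ⟨r, hr⟩ := ex [p, a, b, p', q'] (by simp)
    simp only [List.nodup_cons, List.mem_cons, List.not_mem_nil, or_false, not_or, not_false_eq_true, List.nodup_nil,
        and_true] at hn h1 h2 hr
    have n1 : [p', a, b, q'].Nodup := by
      simp only [List.nodup_cons, List.mem_cons, List.not_mem_nil, or_false, not_or, not_false_eq_true, List.nodup_nil,
        and_true]
      exact ⟨⟨h1.1, h1.2, fun h => h2.1 h.symm⟩, ⟨hn.2.1.1, fun h => h2.2.1 h.symm⟩, fun h => h2.2.2 h.symm⟩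
    have n2 : [p', a, b, r].Nodup := by
      simp only [List.nodup_cons, List.mem_cons, List.not_mem_nil, or_false, not_or, not_false_eq_true, List.nodup_nil,
        and_true]
      exact ⟨⟨h1.1, h1.2, fun h => hr.2.2.2.1 h.symm⟩, ⟨hn.2.1.1, fun h => hr.2.1 h.symm⟩, fun h => hr.2.2.1 h.symm⟩
    have n3 : [p, a, b, r].Nodup := by
      simp only [List.nodup_cons, List.mem_cons, List.not_mem_nil, or_false, not_or, not_false_eq_true, List.nodup_nil,
        and_true]
      exact ⟨⟨hn.1.1, hn.1.2.1, fun h => hr.1 h.symm⟩, ⟨hn.2.1.1, fun h => hr.2.1 h.symm⟩, fun h => hr.2.2.1 h.symm⟩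
    have n4 : [p, a, b, q].Nodup := by
      simp only [List.nodup_cons, List.mem_cons, List.not_mem_nil, or_false, not_or, not_false_eq_true, List.nodup_nil,
        and_true]
      exact hn
    rw [c1 p' a b q' r n1 n2, c2 p' p a b r n2 n3, c1 p a b r q n3 n4]
  -- nodup of lists with one more letter
  have nd3 : ∀ a b c : ι, [a, b, c].Nodup ↔ a ≠ b ∧ a ≠ c ∧ b ≠ c := by
    intro a b c
    simp only [List.nodup_cons, List.mem_cons, List.not_mem_nil, or_false, not_or, not_false_eq_true, List.nodup_nil,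
        and_true, ne_eq]
    tauto
  have nd4 : ∀ a b c d : ι, [a, b, c, d].Nodup ↔ a ≠ b ∧ a ≠ c ∧ a ≠ d ∧ b ≠ c ∧ b ≠ d ∧ c ≠ d := by
    intro a b c d
    simp only [List.nodup_cons, List.mem_cons, List.not_mem_nil, or_false, not_or, not_false_eq_true, List.nodup_nil,
        and_true, ne_eq]
    tauto
  have nd5 : ∀ a b c d e : ι, [a, b, c, d, e].Nodup ↔
      a ≠ b ∧ a ≠ c ∧ a ≠ d ∧ a ≠ e ∧ b ≠ c ∧ b ≠ d ∧ b ≠ e ∧ c ≠ d ∧ c ≠ e ∧ d ≠ e := by
    intro a b c d e
    simp only [List.nodup_cons, List.mem_cons, List.not_mem_nil, or_false, not_or, not_false_eq_true, List.nodup_nil,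
        and_true, ne_eq]
    tauto
  have nm : ∀ (q : ι) (S : List ι), q ∉ S ↔ ∀ s ∈ S, q ≠ s := by
    intro q S
    exact ⟨fun h s hs h' => h (h' ▸ hs), fun h h' => h q h' rfl⟩
  have s1 : ∀ p a b : ι, [p, a, b].Nodup → ξ p a b = ξ p b a := by
    intro p a b hn
    obtain ⟨q, hq⟩ := ex [p, a, b] (by simp)
    simp only [List.mem_cons, List.not_mem_nil, or_false, not_or] at hq
    rw [nd3] at hn
    have g := r0 p a b q ((nd4 _ _ _ _).2 (by tauto))
    rw [hξ p a b q ((nd4 _ _ _ _).2 (by tauto)), hξ p b a q ((nd4 _ _ _ _).2 (by tauto)), g.1, g.2.1]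
  have s2 : ∀ a b q : ι, [a, b, q].Nodup → η a b q = η b a q := by
    intro a b q hn
    obtain ⟨p, hp⟩ := ex [a, b, q] (by simp)
    simp only [List.mem_cons, List.not_mem_nil, or_false, not_or] at hp
    rw [nd3] at hn
    have g := r0 p a b q ((nd4 _ _ _ _).2 (by tauto))
    rw [hη p a b q ((nd4 _ _ _ _).2 (by tauto)), hη p b a q ((nd4 _ _ _ _).2 (by tauto)), g.1, g.2.2]
  have s3 : ∀ a b : ι, a ≠ b → ζ a b = ζ b a := by
    intro a b hn
    obtain ⟨p, hp⟩ := ex [a, b] (by simp)
    obtain ⟨q, hq⟩ := ex [p, a, b] (by simp)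
    simp only [List.mem_cons, List.not_mem_nil, or_false, not_or] at hp hq
    have g := r0 p a b q ((nd4 _ _ _ _).2 (by tauto))
    rw [hζ p a b q ((nd4 _ _ _ _).2 (by tauto)), hζ p b a q ((nd4 _ _ _ _).2 (by tauto)), g.1, g.2.1, g.2.2]
  have s4 : ∀ p a b c : ι, [p, a, b, c].Nodup → ξ p a b + ξ p b c = ξ p a c := by
    intro p a b c hn
    obtain ⟨q, hq⟩ := ex [p, a, b, c] (by simp)
    simp only [List.mem_cons, List.not_mem_nil, or_false, not_or] at hq
    rw [nd4] at hn
    have g := m1 p a b c q ((nd5 _ _ _ _ _).2 (by tauto))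
    rw [hξ p a b q ((nd4 _ _ _ _).2 (by tauto)), hξ p b c q ((nd4 _ _ _ _).2 (by tauto)),
      hξ p a c q ((nd4 _ _ _ _).2 (by tauto))]
    linear_combination (norm := abel) g - two (Da φ l p a c q) - two (Db φ l a c q)
  have s5 : ∀ a b c q : ι, [a, b, c, q].Nodup → η a b q + η b c q = η a c q := by
    intro a b c q hn
    obtain ⟨p, hp⟩ := ex [a, b, c, q] (by simp)
    simp only [List.mem_cons, List.not_mem_nil, or_false, not_or] at hp
    rw [nd4] at hn
    have g := m2 p a b c q ((nd5 _ _ _ _ _).2 (by tauto))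
    rw [hη p a b q ((nd4 _ _ _ _).2 (by tauto)), hη p b c q ((nd4 _ _ _ _).2 (by tauto)),
      hη p a c q ((nd4 _ _ _ _).2 (by tauto))]
    linear_combination (norm := abel) g - two (Da φ l p a c q) - two (Dc φ l p a c)
  have s6 : ∀ p p' a b : ι, [p, p', a, b].Nodup → ξ p a b + ξ p' a b = η p p' a + η p p' b := by
    intro p p' a b hn
    obtain ⟨x, hx⟩ := ex [p, p', a, b] (by simp)
    simp only [List.mem_cons, List.not_mem_nil, or_false, not_or] at hx
    rw [nd4] at hn
    have g := m3 p p' a b x ((nd5 _ _ _ _ _).2 (by tauto))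
    rw [hξ p a b x ((nd4 _ _ _ _).2 (by tauto)), hξ p' a b x ((nd4 _ _ _ _).2 (by tauto)),
      hη x p p' a ((nd4 _ _ _ _).2 (by tauto)), hη x p p' b ((nd4 _ _ _ _).2 (by tauto))]
    linear_combination (norm := abel) g + two (Db φ l a b x) - two (Da φ l x p p' a) - two (Da φ l x p p' b) -
      two (Dc φ l x p p')
  have s7 : ∀ a b c : ι, [a, b, c].Nodup → ζ a b + ζ a c = ξ a b c + η b c a := by
    intro a b c hn
    obtain ⟨p, hp⟩ := ex [a, b, c] (by simp)
    obtain ⟨q, hq⟩ := ex [p, a, b, c] (by simp)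
    simp only [List.mem_cons, List.not_mem_nil, or_false, not_or] at hp hq
    rw [nd3] at hn
    have g := m4 p a b c q ((nd5 _ _ _ _ _).2 (by tauto))
    rw [hζ p a b q ((nd4 _ _ _ _).2 (by tauto)), hζ p a c q ((nd4 _ _ _ _).2 (by tauto)),
      hξ a b c q ((nd4 _ _ _ _).2 (by tauto)), hη p b c a ((nd4 _ _ _ _).2 (by tauto))]
    linear_combination (norm := abel) g - two (Da φ l a b c q) - two (Db φ l b c q) - two (Da φ l p b c a) -
      two (Dc φ l p b c)
  have s8 : ∀ a b c : ι, [a, b, c].Nodup → ζ a b + η a b c = Db φ l a b c := by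
    intro a b c hn
    obtain ⟨p, hp⟩ := ex [a, b, c] (by simp)
    simp only [List.mem_cons, List.not_mem_nil, or_false, not_or] at hp
    rw [nd3] at hn
    rw [hζ p a b c ((nd4 _ _ _ _).2 (by tauto)), hη p a b c ((nd4 _ _ _ _).2 (by tauto))]
    linear_combination (norm := abel) two (Da φ l p a b c) + two (Dc φ l p a b)
  have s9 : ∀ a b c : ι, [a, b, c].Nodup → ζ a b + η a b c + (ζ b c + η b c a) + (ζ a c + η a c b) = 0 := by
    intro a b c hn
    have hn' := (nd3 _ _ _).1 hn
    rw [s8 a b c hn, s8 b c a ((nd3 _ _ _).2 (by tauto)), s8 a c b ((nd3 _ _ _).2 (by tauto))]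
    exact r3 a b c hn
  obtain ⟨K, k1, k2, k3⟩ := hKex ι M two (by have := H.six; omega) ξ η ζ s1 s2 s3 s4 s5 s6 s7 s9
  obtain ⟨e, he⟩ := kfi_main φ l hDaw hPin H K (by
    intro p a b q hn
    have hn' := (nd4 _ _ _ _).1 hn
    rw [k1 p a b ((nd3 _ _ _).2 (by tauto)), k2 a b q ((nd3 _ _ _).2 (by tauto)), k3 a b (by tauto), hξ p a b q hn,
      hη p a b q hn, hζ p a b q hn]
    linear_combination (norm := abel) -two (Da φ l p a b q) - two (Db φ l a b q) - two (Dc φ l p a b)) (by
    intro a b q hn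
    have hn' := (nd3 _ _ _).1 hn
    rw [k2 a b q hn, k3 a b (by tauto), add_comm, s8 a b q hn]) (by
    intro p a b hn
    obtain ⟨q, hq⟩ := ex [p, a, b] (by simp)
    simp only [List.mem_cons, List.not_mem_nil, or_false, not_or] at hq
    have hn' := (nd3 _ _ _).1 hn
    rw [k1 p a b hn, k3 a b (by tauto), hξ p a b q ((nd4 _ _ _ _).2 (by tauto)), hζ p a b q ((nd4 _ _ _ _).2 (by tauto))]
    linear_combination (norm := abel) -two (Da φ l p a b q) - two (Db φ l a b q))
  exact ⟨e, K, he⟩

end Pool.Agent.CRS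

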