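import Pool.Agent.CRS.StE
import Mathlib.Tactic

/-!
Campaign CRS, p = 2: the formula for products (module Kon).
-/

set_option autoImplicit false

namespace Pool.Agent.CRS

open Pool.Agent.CRR Pool.Agent.CRN Pool.Agent.CRK Pool.Agent.CRL Pool.Agent.CRM Pool.Agent.CRP
open Pool.Agent.CRQ

open Classical in
/-- the function of words with values in `Wg x` -/
private noncomputable def kon_phi {ι A : Type} [NonUnitalRing A] (x : ι → A) (w : List ι) : Wg x :=
  if h : 6 ≤ w.length then ⟨wp (w.map x), AddSubgroup.subset_closure ⟨w, h, rfl⟩⟩ else 0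

private lemma kon_phi_val {ι A : Type} [NonUnitalRing A] (x : ι → A) (w : List ι)
    (h : 6 ≤ w.length) : (kon_phi x w : A) = wp (w.map x) := by
  unfold kon_phi
  rw [dif_pos h]

private lemma kon_adj {ι A : Type} [NonUnitalRing A] (x : ι → A) (K : ι → ι → Wg x) :
    ∀ w : List ι, ((adj K w : Wg x) : A) = adj (fun i j => (K i j : A)) w
  | [] => rfl
  | [_] => rfl
  | a :: b :: l => by
    show ((K a b + adj K (b :: l) : Wg x) : A) = (K a b : A) + adj (fun i j => (K i j : A)) (b :: l)
    rw [AddSubgroup.coe_add, kon_adj x K (b :: l)]

theorem thm_K1 (hK : St_Kfi) (hW : St_Wsr) (hG : St_WG) : St_K1 := by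
  intro A _ hA ι _ _ h6 x
  have hlen : (Finset.univ.toList : List ι).length = Fintype.card ι := by
    rw [Finset.length_toList]
    rfl
  have hnd : (Finset.univ.toList : List ι).Nodup := Finset.nodup_toList _
  have hmem : ∀ i : ι, i ∈ (Finset.univ.toList : List ι) := fun i => by simp
  have hks : Ks (kon_phi x) (Finset.univ.toList : List ι) := by
    refine ⟨?_, ?_, hnd, hmem, by rw [hlen]; exact h6⟩
    · intro m
      apply Subtype.ext
      exact hG.1 A hA ι x m.1 m.2
    · intro U B C D W hB hC hD hl
      rw [hlen] at hl
      have hl' : U.length + B.length + C.length + D.length + W.length = Fintype.card ι := by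
        simpa [List.length_append, add_assoc] using hl
      apply Subtype.ext
      simp only [AddSubgroup.coe_add, AddSubgroup.coe_zero]
      have key : ∀ P Q R : List ι, P.length + Q.length + R.length = B.length + C.length + D.length →
          (kon_phi x (U ++ P ++ Q ++ R ++ W) : A) =
            wp (U.map x ++ P.map x ++ Q.map x ++ R.map x ++ W.map x) := by
        intro P Q R hPQR
        rw [kon_phi_val x _ (by simp only [List.length_append]; omega)]
        simp only [List.map_append]
      rw [key B C D (by ring), key B D C (by ring), key C B D (by ring), key C D B (by ring),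
        key D B C (by ring), key D C B (by ring)]
      exact hW A hA.cube (U.map x) (B.map x) (C.map x) (D.map x) (W.map x)
        (by simpa using hB) (by simpa using hC) (by simpa using hD)
  obtain ⟨e, K, hKe⟩ := hK ι (Wg x) (kon_phi x) (Finset.univ.toList : List ι) hks
  refine ⟨e, fun i j => (K i j : A), e.2, fun i j => (K i j).2, ?_⟩
  intro w hw
  have hp : w.Perm (Finset.univ.toList : List ι) := by
    rw [List.perm_iff_count]
    intro a
    rw [hw a, List.count_eq_one_of_mem hnd (hmem a)]
  have hl : 6 ≤ w.length := by
    rw [hp.length_eq, hlen]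
    exact h6
  have h1 := congrArg (Subtype.val : Wg x → A) (hKe w hp)
  rw [kon_phi_val x w hl] at h1
  rw [h1, AddSubgroup.coe_add, kon_adj]

end Pool.Agent.CRS
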