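import Pool.Agent.CRS.StE


/-!
Campaign CRS, module Pin: invariance under neighbour exchanges gives invariance under permutations.
-/

set_option autoImplicit false

namespace Pool.Agent.CRS

open Pool.Agent.CRR Pool.Agent.CRN Pool.Agent.CRK Pool.Agent.CRL Pool.Agent.CRM Pool.Agent.CRP
open Pool.Agent.CRQ

private theorem pin_aux {ι M : Type} (F : List ι → M) (l₀ : List ι)
    (h : ∀ (U V : List ι) (a b : ι), (U ++ a :: b :: V).Perm l₀ →
      F (U ++ a :: b :: V) = F (U ++ b :: a :: V)) {l l' : List ι} (hp : l.Perm l') :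
    ∀ u : List ι, (u ++ l).Perm l₀ → F (u ++ l) = F (u ++ l') := by
  induction hp with
  | nil => exact fun u _ => rfl
  | cons a _ ih =>
    intro u hu
    have h1 := ih (u ++ [a]) (by simpa [List.append_assoc] using hu)
    simpa [List.append_assoc] using h1
  | swap a b V => exact fun u hu => h u V b a hu
  | trans h1 _ ih1 ih2 =>
    intro u hu
    rw [ih1 u hu]
    exact ih2 u (((h1.append_left u).symm).trans hu)

/-- **PIN.** -/
theorem thm_Pin : St_Pin := by
  intro ι M F l₀ h l l' hl hl'
  have h1 := pin_aux F l₀ h (hl.trans hl'.symm) [] (by simpa using hl)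
  simpa using h1

end Pool.Agent.CRS
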