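import Pool.Agent.CRS.StA

/-!
# CRS.WG: small facts about `adj` and `Wg` (MP_1bb14d_al)
-/

set_option autoImplicit false

namespace Pool.Agent.CRS

open Pool.Agent.CRR Pool.Agent.CRN Pool.Agent.CRK Pool.Agent.CRL Pool.Agent.CRM Pool.Agent.CRP
open Pool.Agent.CRQ

private theorem WG_two {A : Type} [NonUnitalRing A] (h0 : St_K0) (hA : N2 A) {ι : Type} (x : ι → A) :
    ∀ y ∈ Wg x, y + y = 0 := by
  intro y hy
  unfold Wg at hy
  induction hy using AddSubgroup.closure_induction with
  | mem y hy =>
    obtain ⟨w, hw, rfl⟩ := hy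
    exact h0 A hA (w.map x) (by simpa using hw)
  | zero => simp
  | add a b _ _ ha hb =>
    have : a + b + (a + b) = (a + a) + (b + b) := by abel
    rw [this, ha, hb, add_zero]
  | neg a _ ha =>
    have : -a + -a = -(a + a) := by abel
    rw [this, ha, neg_zero]

private theorem WG_cons {ι A : Type} [AddCommMonoid A] (κ : ι → ι → A) (a b : ι) (l : List ι) :
    adj κ (a :: b :: l) = κ a b + adj κ (b :: l) := rfl

private theorem WG_map {ι ι' A : Type} [AddCommMonoid A] (κ : ι → ι → A) (π : ι' → ι) (w : List ι') :
    adj κ (w.map π) = adj (fun i j => κ (π i) (π j)) w := by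
  induction w with
  | nil => rfl
  | cons a l ih =>
    cases l with
    | nil => rfl
    | cons b l =>
      simp only [List.map_cons] at ih ⊢
      rw [WG_cons, WG_cons, ih]

private theorem WG_split {ι A : Type} [AddCommMonoid A] (κ : ι → ι → A) (i : ι) (u v : List ι) :
    adj κ (u ++ i :: v) = adj κ (u ++ [i]) + adj κ (i :: v) := by
  induction u with
  | nil =>
    have : adj κ ([i] : List ι) = 0 := rfl
    simp [this]
  | cons a l ih =>
    cases l with
    | nil =>
      simp only [List.nil_append, List.cons_append]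
      rw [WG_cons, WG_cons]
      have : adj κ ([i] : List ι) = 0 := rfl
      rw [this, add_zero]
    | cons b l =>
      simp only [List.cons_append] at ih ⊢
      rw [WG_cons, WG_cons, ih, add_assoc]

private theorem WG_add {ι A : Type} [AddCommMonoid A] (κ κ' : ι → ι → A) (w : List ι) :
    adj (fun i j => κ i j + κ' i j) w = adj κ w + adj κ' w := by
  induction w with
  | nil => exact (add_zero (0 : A)).symm
  | cons a l ih =>
    cases l with
    | nil => exact (add_zero (0 : A)).symm
    | cons b l =>
      rw [WG_cons, WG_cons, WG_cons, ih]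
      abel

private theorem WG_const {ι A : Type} [AddCommMonoid A] (κ : ι → ι → A) (z : A) (w : List ι) (hw : w ≠ [])
    (hn : w.Nodup) (h : ∀ i j, i ≠ j → κ i j = z) : adj κ w = (w.length - 1) • z := by
  induction w with
  | nil => exact absurd rfl hw
  | cons a l ih =>
    cases l with
    | nil => simp [adj]
    | cons b l =>
      rw [WG_cons, ih (by simp) (List.Nodup.of_cons hn), h a b ?_]
      · simp only [List.length_cons, Nat.add_sub_cancel]
        rw [add_comm, succ_nsmul]
      · rintro rfl
        exact (List.nodup_cons.1 hn).1 (by simp)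

theorem thm_WG : St_K0 → St_WG := by
  intro h0
  refine ⟨?_, ?_, ?_, ?_, ?_, ?_⟩
  · intro A _ hA ι x
    exact WG_two h0 hA x
  · intro ι ι' A _ κ π w
    exact WG_map κ π w
  · intro ι A _ κ i u v
    exact WG_split κ i u v
  · intro ι A _ κ κ' w
    exact WG_add κ κ' w
  · intro ι A _ κ z w hw hn h
    exact WG_const κ z w hw hn h
  · intro A _ ι ι' x π y hy
    unfold Wg at hy ⊢
    refine AddSubgroup.closure_mono ?_ hy
    rintro _ ⟨w, hw, rfl⟩
    exact ⟨w.map π, by simpa using hw, by simp [List.map_map, Function.comp_def]⟩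

end Pool.Agent.CRS
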