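import Pool.Agent.CRS.StE

/-!
Campaign CRS: module `Wsr`, the block relation for products.
-/

set_option autoImplicit false

namespace Pool.Agent.CRS

open Pool.Agent.CRR Pool.Agent.CRN Pool.Agent.CRK Pool.Agent.CRL Pool.Agent.CRM Pool.Agent.CRP
open Pool.Agent.CRQ

private theorem wsr_wp_append {R : Type} [NonUnitalRing R] (w w' : List R) (h : w ≠ [])
    (h' : w' ≠ []) : wp (w ++ w') = wp w * wp w' := by
  induction w with
  | nil => exact absurd rfl h
  | cons x l ih =>
    cases l with
    | nil =>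
      cases w' with
      | nil => exact absurd rfl h'
      | cons y l' => rfl
    | cons y l =>
      have h1 := ih (by simp)
      show x * wp (y :: l ++ w') = (x * wp (y :: l)) * wp w'
      rw [h1, mul_assoc]

private theorem wsr_lin {A : Type} [NonUnitalRing A] (hc : ∀ x : A, x * x * x = 0) (u v w : A) :
    u * v * w + u * w * v + v * u * w + v * w * u + w * u * v + w * v * u = 0 := by
  have key : u * v * w + u * w * v + v * u * w + v * w * u + w * u * v + w * v * u =
      (u + v + w) * (u + v + w) * (u + v + w) - (u + v) * (u + v) * (u + v) -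
        (u + w) * (u + w) * (u + w) - (v + w) * (v + w) * (v + w) + u * u * u + v * v * v +
        w * w * w := by
    simp only [mul_add, add_mul]
    abel
  rw [key]
  simp only [hc]
  abel

private theorem wsr_mid {A : Type} [NonUnitalRing A] (hc : ∀ x : A, x * x * x = 0)
    (B C D : List A) (hB : B ≠ []) (hC : C ≠ []) (hD : D ≠ []) :
    wp (B ++ C ++ D) + wp (B ++ D ++ C) + wp (C ++ B ++ D) +
    wp (C ++ D ++ B) + wp (D ++ B ++ C) + wp (D ++ C ++ B) = 0 := by
  have h3 : ∀ X Y Z : List A, X ≠ [] → Y ≠ [] → Z ≠ [] →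
      wp (X ++ Y ++ Z) = wp X * wp Y * wp Z := by
    intro X Y Z hX hY hZ
    rw [wsr_wp_append _ _ (by simp [hX]) hZ, wsr_wp_append _ _ hX hY]
  rw [h3 B C D hB hC hD, h3 B D C hB hD hC, h3 C B D hC hB hD, h3 C D B hC hD hB,
    h3 D B C hD hB hC, h3 D C B hD hC hB]
  exact wsr_lin hc _ _ _

private theorem wsr_left {A : Type} [NonUnitalRing A] (hc : ∀ x : A, x * x * x = 0)
    (U B C D : List A) (hB : B ≠ []) (hC : C ≠ []) (hD : D ≠ []) :
    wp (U ++ B ++ C ++ D) + wp (U ++ B ++ D ++ C) + wp (U ++ C ++ B ++ D) +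
    wp (U ++ C ++ D ++ B) + wp (U ++ D ++ B ++ C) + wp (U ++ D ++ C ++ B) = 0 := by
  by_cases hU : U = []
  · subst hU
    simpa only [List.nil_append] using wsr_mid hc B C D hB hC hD
  · have h4 : ∀ X Y Z : List A, X ≠ [] →
        wp (U ++ X ++ Y ++ Z) = wp U * wp (X ++ Y ++ Z) := by
      intro X Y Z hX
      rw [← wsr_wp_append U (X ++ Y ++ Z) hU (by simp [hX])]
      simp only [List.append_assoc]
    rw [h4 B C D hB, h4 B D C hB, h4 C B D hC, h4 C D B hC, h4 D B C hD, h4 D C B hD]
    rw [← mul_add, ← mul_add, ← mul_add, ← mul_add, ← mul_add, wsr_mid hc B C D hB hC hD, mul_zero]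

theorem thm_Wsr : St_Wsr := by
  intro A _ hc U B C D W hB hC hD
  by_cases hW : W = []
  · subst hW
    simpa only [List.append_nil] using wsr_left hc U B C D hB hC hD
  · have h5 : ∀ X Y Z : List A, Z ≠ [] →
        wp (U ++ X ++ Y ++ Z ++ W) = wp (U ++ X ++ Y ++ Z) * wp W := by
      intro X Y Z hZ
      exact wsr_wp_append _ _ (by simp [hZ]) hW
    rw [h5 B C D hD, h5 B D C hC, h5 C B D hD, h5 C D B hB, h5 D B C hC, h5 D C B hB]
    rw [← add_mul, ← add_mul, ← add_mul, ← add_mul, ← add_mul, wsr_left hc U B C D hB hC hD,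
      zero_mul]

end Pool.Agent.CRS
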