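import Pool.Agent.CRS.Idn
import Pool.Agent.CRS.Blk
import Pool.Agent.CRS.Pin
import Pool.Agent.CRS.Daw
import Pool.Agent.CRS.Drl
import Pool.Agent.CRS.Drm
import Pool.Agent.CRS.Kex
import Pool.Agent.CRS.Kfi
import Pool.Agent.CRS.Wsr
import Pool.Agent.CRS.Kon
import Pool.Agent.CRS.WG

/-!
Campaign CRS, p = 2: the adjacency formula, assembled (problem MP_1bb14d_al, stage 7).
-/

set_option autoImplicit false

namespace Pool.Agent.CRS

/-- The adjacency formula for products (from `St_K0`). -/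
theorem fin_K1 (h0 : St_K0) : St_K1 :=
  thm_K1 (thm_Kfi (thm_Daw thm_Idn thm_Blk thm_Pin) (thm_Drl thm_Idn thm_Blk (thm_Daw thm_Idn thm_Blk thm_Pin))
    (thm_Drm thm_Idn thm_Blk (thm_Daw thm_Idn thm_Blk thm_Pin)) thm_Kex thm_Pin) thm_Wsr (thm_WG h0)

end Pool.Agent.CRS
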