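import Pool.Agent.CRS.StH

/-!
Campaign CRS (problem MP_1bb14d_al, stage 7), module Kza: `6 F` is alternating, `36 F = 0` for products `F` of six
elements.
-/

set_option autoImplicit false

namespace Pool.Agent.CRS

section alt

variable {A B : Type} [AddCommGroup B]

/-- Alternating functions of six arguments. -/
structure Kza_Alt (G : A → A → A → A → A → A → B) : Prop where
  s1 : ∀ a b c d e f, G b a c d e f = -G a b c d e f
  s2 : ∀ a b c d e f, G a c b d e f = -G a b c d e f
  s3 : ∀ a b c d e f, G a b d c e f = -G a b c d e f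
  s4 : ∀ a b c d e f, G a b c e d f = -G a b c d e f
  s5 : ∀ a b c d e f, G a b c d f e = -G a b c d e f

variable {G : A → A → A → A → A → A → B}

theorem Kza_Alt.b1 (h : Kza_Alt G) (a b c d e f : A) : G c d a b e f = G a b c d e f := by
  rw [h.s2 c a d b e f, h.s1 a c d b e f, h.s3 a c b d e f, h.s2 a b c d e f]; simp

theorem Kza_Alt.b2 (h : Kza_Alt G) (a b c d e f : A) : G a b e f c d = G a b c d e f := by
  rw [h.s4 a b e c f d, h.s3 a b c e f d, h.s5 a b c e d f, h.s4 a b c d e f]; simp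

/-- The sum over the permutations of the three blocks. -/
theorem Kza_Alt.six (h : Kza_Alt G) (a b c d e f : A) :
    G a b c d e f + G a b e f c d + G c d a b e f + G c d e f a b + G e f a b c d +
      G e f c d a b = 6 • G a b c d e f := by
  rw [h.b1 c d e f a b, h.b2 c d a b e f, h.b1 a b e f c d, h.b1 a b c d e f, h.b2 a b c d e f]
  abel

end alt

variable {A : Type} [NonUnitalRing A]

/-- The sum of the six products. -/
def Kza_S (x y z : A) : A :=
  x * y * z + x * z * y + y * x * z + y * z * x + z * x * y + z * y * x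

theorem Kza_S0 (h3 : ∀ x : A, x * x * x = 0) (x y z : A) : Kza_S x y z = 0 := by
  have h : Kza_S x y z = (x + y + z) * (x + y + z) * (x + y + z) - (x + y) * (x + y) * (x + y) -
      (x + z) * (x + z) * (x + z) - (y + z) * (y + z) * (y + z) + x * x * x + y * y * y +
      z * z * z := by
    simp only [Kza_S, mul_add, add_mul, mul_assoc]; abel
  rw [h, h3, h3, h3, h3, h3, h3, h3]; simp

/-- `3 (x ∘ u) z (y ∘ v) = 0`. -/
theorem Kza_3 (h3 : ∀ x : A, x * x * x = 0) (x u z y v : A) :
    3 • ((x * u + u * x) * z * (y * v + v * y)) = 0 := by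
  have h : 3 • ((x * u + u * x) * z * (y * v + v * y)) =
      Kza_S x u z * (y * v + v * y) + Kza_S x u (z * y) * v + Kza_S x u (z * v) * y +
      Kza_S x u (z * (y * v + v * y)) - x * z * Kza_S u y v - u * z * Kza_S x y v -
      z * Kza_S (x * u + u * x) y v := by
    simp only [Kza_S, mul_add, add_mul, mul_assoc]; abel
  rw [h]; simp [Kza_S0 h3]

theorem Kza_12 (h3 : ∀ x : A, x * x * x = 0) (x u z a b c : A) :
    6 • ((x * u + u * x) * z * a * b * c) = 0 := by
  have h : 6 • ((x * u + u * x) * z * a * b * c) =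
      3 • ((x * u + u * x) * z * (a * b * c + c * (a * b))) -
      3 • ((x * u + u * x) * z * (a * c + c * a)) * b +
      3 • ((x * u + u * x) * (z * a) * (b * c + c * b)) := by
    simp only [mul_add, add_mul, mul_assoc, smul_mul_assoc]; abel
  rw [h, Kza_3 h3, Kza_3 h3, Kza_3 h3]; simp

theorem Kza_56 (h3 : ∀ x : A, x * x * x = 0) (x u z a b c : A) :
    6 • (a * b * c * z * (x * u + u * x)) = 0 := by
  have h : 6 • (a * b * c * z * (x * u + u * x)) =
      3 • ((a * b * c + c * (a * b)) * z * (x * u + u * x)) -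
      3 • ((a * c + c * a) * (b * z) * (x * u + u * x)) +
      a * 3 • ((b * c + c * b) * z * (x * u + u * x)) := by
    simp only [mul_add, add_mul, mul_assoc, mul_smul_comm]; abel
  rw [h, Kza_3 h3, Kza_3 h3, Kza_3 h3]; simp

theorem Kza_23 (h3 : ∀ x : A, x * x * x = 0) (a x u d e f : A) :
    6 • (a * (x * u + u * x) * d * e * f) = 0 := by
  have h : 6 • (a * (x * u + u * x) * d * e * f) =
      6 • (a * Kza_S x u (d * e * f)) - 6 • (a * d * e * f * (x * u + u * x)) -
      6 • ((a * x + x * a) * d * e * f * u) - 6 • ((a * u + u * a) * d * e * f * x) +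
      6 • Kza_S x u (a * d * e * f) - 6 • ((x * u + u * x) * a * d * e * f) -
      6 • (a * d * e * f * (x * u + u * x)) := by
    simp only [Kza_S, mul_add, add_mul, mul_assoc]; abel
  rw [h, Kza_S0 h3, Kza_S0 h3, Kza_56 h3, Kza_12 h3, Kza_12 h3, Kza_12 h3]; simp

theorem Kza_45 (h3 : ∀ x : A, x * x * x = 0) (a x u d e f : A) :
    6 • (f * e * d * (x * u + u * x) * a) = 0 := by
  have h : 6 • (f * e * d * (x * u + u * x) * a) =
      6 • (Kza_S x u (f * e * d) * a) - 6 • ((x * u + u * x) * f * e * d * a) -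
      6 • (u * f * e * d * (a * x + x * a)) - 6 • (x * f * e * d * (a * u + u * a)) +
      6 • Kza_S x u (f * e * d * a) - 6 • (f * e * d * a * (x * u + u * x)) -
      6 • ((x * u + u * x) * f * e * d * a) := by
    simp only [Kza_S, mul_add, add_mul, mul_assoc]; abel
  rw [h, Kza_S0 h3, Kza_S0 h3, Kza_56 h3, Kza_56 h3, Kza_56 h3, Kza_12 h3]; simp

theorem Kza_34 (h3 : ∀ x : A, x * x * x = 0) (a b x u e f : A) :
    6 • (a * b * (x * u + u * x) * e * f) = 0 := by
  have h : 6 • (a * b * (x * u + u * x) * e * f) =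
      6 • (a * b * Kza_S x u (e * f)) - 6 • (a * b * e * f * (x * u + u * x)) -
      (6 • (a * (b * x + x * b) * e * f * u) - 6 • ((a * x + x * a) * b * e * f * u)) -
      (6 • (a * (b * u + u * b) * e * f * x) - 6 • ((a * u + u * a) * b * e * f * x)) -
      6 • Kza_S x u (a * b * e * f) + 6 • ((x * u + u * x) * a * b * e * f) +
      6 • (a * b * e * f * (x * u + u * x)) := by
    simp only [Kza_S, mul_add, add_mul, mul_assoc]; abel
  rw [h, Kza_S0 h3, Kza_S0 h3, Kza_56 h3, Kza_23 h3, Kza_23 h3, Kza_12 h3, Kza_12 h3, Kza_12 h3]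
  simp

/-- `6 F` is alternating. -/
theorem Kza_alt (h3 : ∀ x : A, x * x * x = 0) :
    Kza_Alt (fun a b c d e f : A => 6 • (a * b * c * d * e * f)) where
  s1 a b c d e f := by
    rw [eq_neg_iff_add_eq_zero, ← Kza_12 h3 a b c d e f]
    simp only [mul_add, add_mul, mul_assoc]; abel
  s2 a b c d e f := by
    rw [eq_neg_iff_add_eq_zero, ← Kza_23 h3 a b c d e f]
    simp only [mul_add, add_mul, mul_assoc]; abel
  s3 a b c d e f := by
    rw [eq_neg_iff_add_eq_zero, ← Kza_34 h3 a b c d e f]
    simp only [mul_add, add_mul, mul_assoc]; abel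
  s4 a b c d e f := by
    rw [eq_neg_iff_add_eq_zero, ← Kza_45 h3 f d e c b a]
    simp only [mul_add, add_mul, mul_assoc]; abel
  s5 a b c d e f := by
    rw [eq_neg_iff_add_eq_zero, ← Kza_56 h3 e f d a b c]
    simp only [mul_add, add_mul, mul_assoc]; abel

theorem Kza_36 (h3 : ∀ x : A, x * x * x = 0) (a b c d e f : A) :
    36 • (a * b * c * d * e * f) = 0 := by
  have h := (Kza_alt h3).six a b c d e f
  have h' : 6 • Kza_S (a * b) (c * d) (e * f) = 6 • 6 • (a * b * c * d * e * f) := by
    rw [← h]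
    simp only [Kza_S, mul_assoc, smul_add]
  rw [Kza_S0 h3, smul_zero, smul_smul] at h'
  exact h'.symm

theorem thm_Kza : St_Kza := by
  intro A _ h3 a b c d e f
  have h := Kza_alt h3
  refine ⟨?_, ?_, ?_, ?_, ?_, Kza_36 h3 a b c d e f⟩
  · exact add_eq_zero_iff_neg_eq.2 (h.s1 a b c d e f).symm
  · exact add_eq_zero_iff_neg_eq.2 (h.s2 a b c d e f).symm
  · exact add_eq_zero_iff_neg_eq.2 (h.s3 a b c d e f).symm
  · exact add_eq_zero_iff_neg_eq.2 (h.s4 a b c d e f).symm
  · exact add_eq_zero_iff_neg_eq.2 (h.s5 a b c d e f).symm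

end Pool.Agent.CRS
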