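import Pool.Agent.CRS.Kza

/-!
Campaign CRS (problem MP_1bb14d_al, stage 7), module Kzb: `3 F = 0` for products `F` of six elements if the order of the
elements is a power of 3.
-/

set_option autoImplicit false

namespace Pool.Agent.CRS

variable {A : Type} [NonUnitalRing A]

theorem Kzb_cop {B : Type} [AddCommGroup B] {m n : ℕ} (hc : Nat.Coprime m n) {y : B}
    (hm : m • y = 0) (hn : n • y = 0) : y = 0 := by
  have h1 := addOrderOf_dvd_of_nsmul_eq_zero hm
  have h2 := addOrderOf_dvd_of_nsmul_eq_zero hn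
  have h3 := Nat.dvd_gcd h1 h2
  rw [hc.gcd_eq_one, Nat.dvd_one] at h3
  exact AddMonoid.addOrderOf_eq_one_iff.1 h3

/-- `2 [[a, b], [c, d]] = 3 W`. -/
def Kzb_W (a b c d : A) : A :=
  a * c * d * b + 2 • (d * c * a * b) - 2 • (b * a * c * d) - b * d * c * a -
    2 • (b * c * a * d) + 2 • (d * a * c * b) - c * a * b * d + d * b * a * c - c * b * a * d +
    d * a * b * c + a * d * c * b - b * c * d * a

theorem Kzb_K (h3 : ∀ x : A, x * x * x = 0) (a b c d : A) :
    2 • ((a * b - b * a) * (c * d - d * c) - (c * d - d * c) * (a * b - b * a)) =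
      3 • Kzb_W a b c d := by
  have h : 2 • ((a * b - b * a) * (c * d - d * c) - (c * d - d * c) * (a * b - b * a)) =
      3 • Kzb_W a b c d + 2 • Kza_S (c * a - a * c) b d +
      2 • (Kza_S a b c * d - d * Kza_S a b c) - 2 • (Kza_S c d a * b - b * Kza_S c d a) -
      Kza_S (a * b - b * a) c d + Kza_S (c * d - d * c) a b := by
    simp only [Kza_S, Kzb_W, mul_add, add_mul, mul_sub, sub_mul, mul_assoc]; abel
  rw [h]; simp [Kza_S0 h3]

/-- The sums of products of four elements. -/
def Kzb_P (A : Type) [NonUnitalRing A] : AddSubgroup A :=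
  AddSubgroup.closure {y | ∃ a b c d : A, y = a * b * c * d}

theorem Kzb_m (a b c d : A) : a * b * c * d ∈ Kzb_P A :=
  AddSubgroup.subset_closure ⟨a, b, c, d, rfl⟩

theorem Kzb_WP (a b c d : A) : Kzb_W a b c d ∈ Kzb_P A := by
  unfold Kzb_W
  refine sub_mem (add_mem (add_mem (sub_mem (add_mem (sub_mem (add_mem (sub_mem (sub_mem (sub_mem
    (add_mem ?_ ?_) ?_) ?_) ?_) ?_) ?_) ?_) ?_) ?_) ?_) ?_ <;>
  first
    | exact Kzb_m _ _ _ _
    | exact AddSubgroup.nsmul_mem _ (Kzb_m _ _ _ _) _

variable (G : A → A → A → A → A → A → A)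

theorem Kzb_9 (h9 : ∀ a b c d e f : A, 9 • (a * b * c * d * e * f) = 0) {w : A}
    (hw : w ∈ Kzb_P A) (a b : A) : 9 • (w * (a * b)) = 0 ∧ 9 • (a * b * w) = 0 := by
  induction hw using AddSubgroup.closure_induction with
  | mem y hy =>
    obtain ⟨c, d, e, f, rfl⟩ := hy
    constructor
    · rw [← h9 c d e f a b]; simp only [mul_assoc]
    · rw [← h9 a b c d e f]; simp only [mul_assoc]
  | zero => simp
  | add x y _ _ hx hy => 
    constructor
    · rw [add_mul, smul_add, hx.1, hy.1, add_zero]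
    · rw [mul_add, smul_add, hx.2, hy.2, add_zero]
  | neg x _ hx =>
    constructor
    · rw [neg_mul, smul_neg, hx.1, neg_zero]
    · rw [mul_neg, smul_neg, hx.2, neg_zero]

theorem Kzb_3 (hG : Kza_Alt (fun a b c d e f : A => 3 • (a * b * c * d * e * f))) {w : A}
    (hw : w ∈ Kzb_P A) (a b : A) : 3 • (a * b * w) = 3 • (w * (a * b)) := by
  induction hw using AddSubgroup.closure_induction with
  | mem y hy =>
    obtain ⟨c, d, e, f, rfl⟩ := hy
    have h1 := hG.b1 c d a b e f
    have h2 := hG.b2 c d e f a b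
    beta_reduce at h1 h2
    have h := h1.trans h2
    simpa only [mul_assoc] using h
  | zero => simp
  | add x y _ _ hx hy => rw [mul_add, add_mul, smul_add, smul_add, hx, hy]
  | neg x _ hx => rw [mul_neg, neg_mul, smul_neg, smul_neg, hx]

theorem thm_Kzb (hA : St_Kza) : St_Kzb := by
  intro A _ h3 ⟨r, hr⟩ a b c d e f
  have two : ∀ y : A, 2 • y = 0 → y = 0 := fun y h =>
    Kzb_cop (Nat.Coprime.pow_left r (by norm_num : Nat.Coprime 3 2)) (hr y) h
  have hneg : ∀ y z : A, 6 • y + 6 • z = 0 → (3 : ℕ) • z = -((3 : ℕ) • y : A) := by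
    intro y z h
    have h1 : 2 • ((3 : ℕ) • z - -((3 : ℕ) • y : A)) = 0 := by
      rw [← h]; simp only [smul_sub, smul_neg, smul_smul]; abel
    exact sub_eq_zero.1 (two _ h1)
  have hG : Kza_Alt (fun a b c d e f : A => 3 • (a * b * c * d * e * f)) :=
    ⟨fun a b c d e f => hneg _ _ (hA A h3 a b c d e f).1,
      fun a b c d e f => hneg _ _ (hA A h3 a b c d e f).2.1,
      fun a b c d e f => hneg _ _ (hA A h3 a b c d e f).2.2.1,
      fun a b c d e f => hneg _ _ (hA A h3 a b c d e f).2.2.2.1,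
      fun a b c d e f => hneg _ _ (hA A h3 a b c d e f).2.2.2.2.1⟩
  have h9 : ∀ a b c d e f : A, 9 • (a * b * c * d * e * f) = 0 := by
    intro a b c d e f
    apply two; apply two
    rw [smul_smul, smul_smul]
    exact (hA A h3 a b c d e f).2.2.2.2.2
  have hS := Kza_S0 h3 (a * b - b * a) (c * d - d * c) (e * f - f * e)
  have h12 := Kzb_K h3 a b c d
  have h23 := Kzb_K h3 c d e f
  have h13 := Kzb_K h3 a b e f
  have key : 12 • ((a * b - b * a) * (c * d - d * c) * (e * f - f * e)) =
      2 • Kza_S (a * b - b * a) (c * d - d * c) (e * f - f * e) +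
      3 • (2 • ((a * b - b * a) * (c * d - d * c) - (c * d - d * c) * (a * b - b * a)) *
          (e * f - f * e) +
        (a * b - b * a) * 2 • ((c * d - d * c) * (e * f - f * e) -
          (e * f - f * e) * (c * d - d * c)) +
        (c * d - d * c) * 2 • ((a * b - b * a) * (e * f - f * e) -
          (e * f - f * e) * (a * b - b * a))) -
      ((a * b - b * a) * 2 • ((c * d - d * c) * (e * f - f * e) -
          (e * f - f * e) * (c * d - d * c)) -
        2 • ((c * d - d * c) * (e * f - f * e) -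
          (e * f - f * e) * (c * d - d * c)) * (a * b - b * a)) -
      ((c * d - d * c) * 2 • ((a * b - b * a) * (e * f - f * e) -
          (e * f - f * e) * (a * b - b * a)) -
        2 • ((a * b - b * a) * (e * f - f * e) -
          (e * f - f * e) * (a * b - b * a)) * (c * d - d * c)) := by
    generalize a * b - b * a = x
    generalize c * d - d * c = y
    generalize e * f - f * e = z
    simp only [Kza_S, mul_add, add_mul, mul_sub, sub_mul, mul_assoc, mul_smul_comm,
      smul_mul_assoc, smul_sub, smul_add]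
    abel
  have h9' : ∀ w ∈ Kzb_P A, ∀ x y : A, 3 • (3 • w * (x * y - y * x)) = 0 ∧
      3 • ((x * y - y * x) * 3 • w) = 0 := by
    intro w hw x y
    constructor
    · rw [smul_mul_assoc, smul_smul, show 3 * 3 = 9 from rfl, mul_sub, smul_sub, (Kzb_9 h9 hw x y).1, (Kzb_9 h9 hw y x).1,
        sub_zero]
    · rw [mul_smul_comm, smul_smul, show 3 * 3 = 9 from rfl, sub_mul, smul_sub, (Kzb_9 h9 hw x y).2, (Kzb_9 h9 hw y x).2,
        sub_zero]
  have h3' : ∀ w ∈ Kzb_P A, ∀ x y : A, (x * y - y * x) * 3 • w - 3 • w * (x * y - y * x) = 0 := by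
    intro w hw x y
    rw [mul_smul_comm, smul_mul_assoc, sub_mul, mul_sub, smul_sub, smul_sub, Kzb_3 hG hw x y,
      Kzb_3 hG hw y x, sub_self]
  rw [hS, h12, h23, h13, smul_add, smul_add, (h9' _ (Kzb_WP _ _ _ _) e f).1,
    (h9' _ (Kzb_WP _ _ _ _) a b).2, (h9' _ (Kzb_WP _ _ _ _) c d).2,
    h3' _ (Kzb_WP _ _ _ _) a b, h3' _ (Kzb_WP _ _ _ _) c d] at key
  have h8 : 12 • ((a * b - b * a) * (c * d - d * c) * (e * f - f * e)) =
      32 • 3 • (a * b * c * d * e * f) := by
    have e1 : ∀ c d e f : A,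
        (3 : ℕ) • (b * a * c * d * e * f) = -((3 : ℕ) • (a * b * c * d * e * f) : A) :=
      fun c d e f => hG.s1 a b c d e f
    have e2 : ∀ a b e f : A,
        (3 : ℕ) • (a * b * d * c * e * f) = -((3 : ℕ) • (a * b * c * d * e * f) : A) :=
      fun a b e f => hG.s3 a b c d e f
    have e3 : ∀ a b c d : A,
        (3 : ℕ) • (a * b * c * d * f * e) = -((3 : ℕ) • (a * b * c * d * e * f) : A) :=
      fun a b c d => hG.s5 a b c d e f
    have h : 12 • ((a * b - b * a) * (c * d - d * c) * (e * f - f * e)) =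
        4 • (3 • (a * b * c * d * e * f) - 3 • (b * a * c * d * e * f) -
          3 • (a * b * d * c * e * f) + 3 • (b * a * d * c * e * f) -
          3 • (a * b * c * d * f * e) + 3 • (b * a * c * d * f * e) +
          3 • (a * b * d * c * f * e) - 3 • (b * a * d * c * f * e)) := by
      simp only [mul_sub, sub_mul, mul_assoc, smul_sub, smul_add, smul_smul]; abel
    rw [h, e3 b a d c, e3 a b d c, e3 b a c d, e3 a b c d, e2 b a e f, e2 a b e f, e1 c d e f]
    abel
  rw [h8] at key
  have h32 : 32 • 3 • (a * b * c * d * e * f) = 0 := by rw [key]; simp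
  exact Kzb_cop (Nat.Coprime.pow_left r (by norm_num : Nat.Coprime 3 32)) (hr _) h32

end Pool.Agent.CRS
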