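import Pool.Agent.CRS.Lbq

/-!
Campaign CRS, module Lbk: central local rings, the way back from the ring of functions; special case of Lbq.
-/

set_option autoImplicit false

namespace Pool.Agent.CRS

open Pool.Agent.CRR Pool.Agent.CRN Pool.Agent.CRK Pool.Agent.CRL Pool.Agent.CRM Pool.Agent.CRP
open Pool.Agent.CRQ

/-- **LBK** (from `St_Lkb`, `St_Lcx`). -/
theorem thm_Lbk (hLkb : St_Lkb) (hLcx : St_Lcx) : St_Lbk := by
  intro n p N R _ _ e t₀ H S hS g B c hp hC _ hSN _ hz _ hlen hG
  exact thm_Lbq hLkb hLcx n p N R e t₀ H S hS g B c hp hC hSN hz hlen hG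

end Pool.Agent.CRS
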