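import Pool.Agent.CRS.StC
import Pool.Agent.CRQ.Lcb
import Pool.Agent.CRM.Tyn
import Pool.Agent.CRM.Bkl

/-!
Campaign CRS, module Lxb (helper32): the rings of the central local type for powers of 2 and 3 are critical.
-/

set_option autoImplicit false

namespace Pool.Agent.CRS

open Pool.Agent.CRR Pool.Agent.CRN Pool.Agent.CRK Pool.Agent.CRL Pool.Agent.CRM Pool.Agent.CRP
open Pool.Agent.CRQ

section tm

variable {R : Type} [NonUnitalRing R]

theorem Lxb_wp : ∀ F : List ((ℕ → R) → R), (∀ φ ∈ F, TmF φ) →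
    TmF (fun v => wp (F.map fun φ => φ v))
  | [], _ => TmF.zero
  | [φ], h => h φ (by simp)
  | φ :: ψ :: F, h => (h φ (by simp)).mul (Lxb_wp (ψ :: F) fun χ hχ => h χ (by
      rw [List.mem_cons]
      exact Or.inr hχ))

theorem Lxb_sum {α : Type} (F : α → (ℕ → R) → R) : ∀ L : List α, (∀ q ∈ L, TmF (F q)) →
    TmF (fun v => (L.map fun q => F q v).sum)
  | [], _ => TmF.zero
  | q :: L, h => by
    have h1 := (h q (by simp)).add (Lxb_sum F L fun r hr => h r (by
      rw [List.mem_cons]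
      exact Or.inr hr))
    simpa only [List.map_cons, List.sum_cons] using h1

theorem Lxb_xs (g k : ℕ) : TmF (R := R) (fun v => xs (fun i : Fin g => v (1 + i)) k) := by
  by_cases h : k < g
  · have e : (fun v : ℕ → R => xs (fun i : Fin g => v (1 + i)) k) = fun v => v (1 + k) := by
      funext v
      simp only [xs, dif_pos h]
    rw [e]
    exact TmF.var _
  · have e : (fun v : ℕ → R => xs (fun i : Fin g => v (1 + i)) k) = fun _ => 0 := by
      funext v
      simp only [xs, dif_neg h]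
    rw [e]
    exact TmF.zero

theorem Lxb_word (g d : ℕ) (w : List ℕ) : TmF (R := R) (fun v =>
    wp (List.replicate d (v 0) ++ w.map (xs fun i : Fin g => v (1 + i)))) := by
  have h := Lxb_wp (R := R) (List.replicate d (fun v => v 0) ++
    w.map fun k v => xs (fun i : Fin g => v (1 + i)) k) (by
      intro φ hφ
      rcases List.mem_append.1 hφ with h1 | h1
      · rw [List.eq_of_mem_replicate h1]
        exact TmF.var 0
      · obtain ⟨k, -, rfl⟩ := List.mem_map.1 h1
        exact Lxb_xs g k)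
  simpa only [List.map_append, List.map_replicate, List.map_map, Function.comp_def] using h

theorem Lxb_Vg (g : ℕ) (b : List (ℤ × List ℕ)) :
    TmF (R := R) (fun v => Vg b fun i : Fin g => v (1 + i)) := by
  unfold Vg ev
  refine Lxb_sum (fun (q : ℤ × List ℕ) (v : ℕ → R) =>
    q.1 • wp (q.2.map (xs fun i : Fin g => v (1 + i)))) b fun q _ => Cvn_TmF_zsmul ?_ _
  have h := Lxb_word (R := R) g 0 q.2
  simpa only [List.replicate_zero, List.nil_append] using h

/-- The functions of the list are term functions, the identity is replaced by a power of `t`. -/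
theorem Lxb_tm {Tb : ℕ → ℕ → List (List (ℤ × List ℕ)) → Prop} {n p : ℕ} {e : R} {g : ℕ}
    {f : R → (Fin g → R) → R} (hf : Cll Tb n p e g f) (N : ℕ) :
    ∃ G : R → (Fin g → R) → R, TmF (fun v => G (v 0) (fun i : Fin g => v (1 + i))) ∧
      ∀ t x, pw t N = e → G t x = f t x := by
  rcases hf with ⟨-, L, -, h⟩ | ⟨-, B, c, -, -, h⟩
  · refine ⟨fun t x => Vl L t x, ?_, fun t x _ => (h t x).symm⟩
    exact Lxb_sum (fun (q : ℤ × ℕ × List ℕ) (v : ℕ → R) => q.1 • wp (List.replicate q.2.1 (v 0) ++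
      q.2.2.map (xs fun i : Fin g => v (1 + i)))) L fun q _ => Cvn_TmF_zsmul (Lxb_word g _ _) _
  · refine ⟨fun t x => ((c.zip B).map fun q => Cv q.1 (pw t N) t * Vg q.2 x).sum, ?_, ?_⟩
    · exact Lxb_sum (fun (q : List (ℤ × ℕ) × List (ℤ × List ℕ)) (v : ℕ → R) =>
        Cv q.1 (pw (v 0) N) (v 0) * Vg q.2 fun i : Fin g => v (1 + i)) (c.zip B)
        fun q _ => (Lcb_tm_Cv N q.1).mul (Lxb_Vg g q.2)
    · intro t x ht
      rw [h t x]
      simp only [ht]

end tm

theorem thm_Lxb : St_Lxb := by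
  intro Tb _ n R _ _ hn hM hnt hR
  obtain ⟨p, e, t₀, H, -, hL, -, g, f, hf, -, hval, t₁, x₁, ht₁, hx₁, hne⟩ := hR
  have hC : Cy R n p := ⟨hn, hM, hnt, hL.pp, hL.pr⟩
  have he := hL.one
  obtain ⟨N, hN1, -, hNp, -, hall⟩ := thm_Tyn n p R hC e hL.prm he
  obtain ⟨G, hG1, hG2⟩ := Lxb_tm hf (N - 1)
  have hGf : ∀ v : ℕ → R, Vec n 1 g v →
      G (v 0) (fun i : Fin g => v (1 + i)) = f (v 0) (fun i : Fin g => v (1 + i)) :=
    fun v hv => hG2 _ _ (hall (v 0) (Lcb_frame hv.1)).2.1
  refine thm_Bkl n p R hC e hL.prm he H hL.lst g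
    (fun v => G (v 0) (fun i : Fin g => v (1 + i))) ⟨hG1, ?_, ?_, ?_, ?_⟩
  · intro v v' hv
    rw [hv 0 (by omega)]
    congr 1
    funext i
    exact hv _ (by have := i.2; omega)
  · intro v hv
    rw [hGf v hv]
    exact (hval _ _ (Lcb_frame hv.1) fun i => hv.2 i i.2).1
  · intro v hv S hS hvS
    rw [hGf v hv]
    refine (hval _ _ (Lcb_frame hv.1) fun i => hv.2 i i.2).2.2 fun htop => hS ?_
    rw [eq_top_iff, ← htop, NonUnitalSubring.closure_le]
    rintro x (hx | ⟨i, rfl⟩)
    · rw [Set.mem_singleton_iff.1 hx]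
      exact hvS 0 (by omega)
    · exact hvS _ (by have := i.2; omega)
  · obtain ⟨v, hv0, hv1⟩ : ∃ v : ℕ → R, v 0 = t₁ ∧ ∀ i : Fin g, v (1 + i) = x₁ i := by
      refine ⟨fun i => if h : 1 ≤ i ∧ i - 1 < g then x₁ ⟨i - 1, h.2⟩ else t₁, ?_, fun i => ?_⟩
      · simp
      · have h1 : 1 ≤ 1 + (i : ℕ) ∧ 1 + (i : ℕ) - 1 < g := by
          have := i.2
          omega
        dsimp only
        rw [dif_pos h1]
        congr 1
        exact Fin.ext (by simp)
    have hVec : Vec n 1 g v := by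
      refine ⟨?_, fun k hk => ?_⟩
      · have e1 : (fun i : Fin 1 => v i) = fun _ => t₁ := by
          funext i
          rw [Fin.fin_one_eq_zero i]
          exact hv0
        rw [e1]
        exact ht₁
      · have := hv1 ⟨k, hk⟩
        rw [this]
        exact hx₁ _
    refine ⟨v, hVec, ?_⟩
    rw [hGf v hVec, hv0]
    have e2 : (fun i : Fin g => v (1 + i)) = x₁ := funext hv1
    rw [e2]
    exact hne

end Pool.Agent.CRS
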