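import Pool.Agent.CRS.StQ
import Pool.Agent.CRS.Cfx
import Pool.Agent.CRM.Ngb
import Pool.Agent.CRQ.Lcb

/-!
Campaign CRS, module Lyb: rings of the central local type for the primes 2 and 3 are critical.
-/

set_option autoImplicit false

namespace Pool.Agent.CRS

open Pool.Agent.CRR Pool.Agent.CRN Pool.Agent.CRK Pool.Agent.CRL Pool.Agent.CRM Pool.Agent.CRP
open Pool.Agent.CRQ

section tm

variable {R : Type} [NonUnitalRing R]

theorem Lyb_tm_ev (L : List (ℤ × List ℕ)) : TmF (R := R) (fun v => ev L (fun k => v (1 + k))) := by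
  unfold ev
  induction L with
  | nil => exact TmF.zero
  | cons q L ih =>
    have h1 := Cvn_TmF_wp (R := R) (q.2.map fun k => 1 + k)
    have h2 := (Cvn_TmF_zsmul h1 q.1).add ih
    simpa only [List.map_cons, List.sum_cons, List.map_map, Function.comp_def] using h2

theorem Lyb_tm (N : ℕ) (Q : List (List (ℤ × ℕ) × List (ℤ × List ℕ))) :
    TmF (R := R) (fun v => (Q.map fun q => Cv q.1 (pw (v 0) N) (v 0) *
      ev q.2 (fun k => v (1 + k))).sum) := by
  induction Q with
  | nil => exact TmF.zero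
  | cons q Q ih =>
    have h2 := ((Lcb_tm_Cv (R := R) N q.1).mul (Lyb_tm_ev (R := R) q.2)).add ih
    simpa only [List.map_cons, List.sum_cons] using h2

/-- The function of the table is a term function. -/
theorem Lyb_val {g : ℕ} {B : List (List (ℤ × List ℕ))}
    (hB : ∀ b ∈ B, ∀ q ∈ b, ∀ i, i ∈ q.2 ↔ i < g) (c : List (List (ℤ × ℕ))) (e : R) (v : ℕ → R) :
    Lc e c B (v 0) (fun i : Fin g => v (1 + i)) =
      ((c.zip B).map fun q => Cv q.1 e (v 0) * ev q.2 (fun k => v (1 + k))).sum := by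
  unfold Lc
  refine congrArg List.sum (List.map_congr_left fun q hq => ?_)
  have h1 := Ngb_vg (R := R) q.2 (fun r hr => hB q.2 (List.of_mem_zip hq).2 r hr)
    (fun k => v (1 + k))
  exact congrArg (fun y => Cv q.1 e (v 0) * y) h1

end tm

/-- **LYB.** -/
theorem thm_Lyb : St_Lyb := by
  intro Tb hT n R _ _ hn hM hnt hR
  obtain ⟨p, e, t₀, H, -, hL, hcen, hcase⟩ := hR
  have hC : Cy R n p := ⟨hn, hM, hnt, hL.pp, hL.pr⟩
  have he := hL.one
  obtain ⟨N, hN1, -, hNp, -, hall⟩ := thm_Tyn n p R hC e hL.prm he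
  have hfr : ∀ t : R, Frame R n 1 (fun _ => t) → Lfr n p N e t := fun t ht =>
    ⟨hC, hL.prm, he, ht, hN1, hNp, (hall t ht).2.1, (hall t ht).2.2⟩
  have hcn : Cnx n p N e t₀ := ⟨hfr t₀ hL.fr, hcen⟩
  have hcfr := thm_Cfx n p N R e t₀ hcn
  rcases hcase with hgen | ⟨g, B, c, hB, -, -, hval, t₁, x₁, ht₁, hx₁, hne⟩
  · refine Lcb_one (hfr t₀ hL.fr) hL.lst hgen fun t ht => ?_
    have h1 := (hcfr t ht).2.2.2.2 ∅
    simpa using h1
  · have hGf : ∀ v : ℕ → R, Vec n 1 g v →
        ((c.zip B).map fun q => Cv q.1 (pw (v 0) (N - 1)) (v 0) *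
          ev q.2 (fun k => v (1 + k))).sum = Lc e c B (v 0) (fun i : Fin g => v (1 + i)) := by
      intro v hv
      rw [(hfr (v 0) (Lcb_frame hv.1)).pn]
      exact (Lyb_val (hT p g B hB) c e v).symm
    refine thm_Bkl n p R hC e hL.prm he H hL.lst g
      (fun v => ((c.zip B).map fun q => Cv q.1 (pw (v 0) (N - 1)) (v 0) *
          ev q.2 (fun k => v (1 + k))).sum) ⟨Lyb_tm (N - 1) (c.zip B), ?_, ?_, ?_, ?_⟩
    · intro v v' hv
      have e0 : v 0 = v' 0 := hv 0 (by omega)
      refine congrArg List.sum (List.map_congr_left fun q hq => ?_)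
      have e1 : ev q.2 (fun k => v (1 + k)) = ev q.2 (fun k => v' (1 + k)) := by
        unfold ev
        refine congrArg List.sum (List.map_congr_left fun r hr => ?_)
        have e2 : r.2.map (fun k => v (1 + k)) = r.2.map (fun k => v' (1 + k)) := by
          refine List.map_congr_left fun k hk => hv _ ?_
          have := (hT p g B hB q.2 (List.of_mem_zip hq).2 r hr k).1 hk
          omega
        rw [e2]
      rw [e0, e1]
    · intro v hv
      rw [hGf v hv]
      exact (hval _ _ (Lcb_frame hv.1) fun i => hv.2 i i.2).1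
    · intro v hv S hS hvS
      rw [hGf v hv]
      refine (hval _ _ (Lcb_frame hv.1) fun i => hv.2 i i.2).2.2 fun htop => hS ?_
      rw [eq_top_iff, ← htop, NonUnitalSubring.closure_le]
      rintro x (hx | ⟨i, rfl⟩)
      · rw [Set.mem_singleton_iff.1 hx]
        exact hvS 0 (by omega)
      · exact hvS _ (by have := i.2; omega)
    · obtain ⟨v, hv0, hv1⟩ : ∃ v : ℕ → R, v 0 = t₁ ∧ ∀ i : Fin g, v (1 + i) = x₁ i := by
        refine ⟨fun i => if h : 1 ≤ i ∧ i - 1 < g then x₁ ⟨i - 1, h.2⟩ else t₁, ?_, fun i => ?_⟩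
        · simp
        · have h1 : 1 ≤ 1 + (i : ℕ) ∧ 1 + (i : ℕ) - 1 < g := by
            have := i.2
            omega
          dsimp only
          rw [dif_pos h1]
          congr 1
          exact Fin.ext (by simp)
      have hVec : Vec n 1 g v := by
        refine ⟨?_, fun k hk => ?_⟩
        · have e1 : (fun i : Fin 1 => v i) = fun _ => t₁ := by
            funext i
            rw [Fin.fin_one_eq_zero i]
            exact hv0
          rw [e1]
          exact ht₁
        · have := hv1 ⟨k, hk⟩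
          rw [this]
          exact hx₁ _
      refine ⟨v, hVec, ?_⟩
      rw [hGf v hVec, hv0]
      have e2 : (fun i : Fin g => v (1 + i)) = x₁ := funext hv1
      rw [e2]
      exact hne

end Pool.Agent.CRS
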