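import Pool.Agent.CRS.StB

/-!
Campaign CRS, p = 3: the module Nwd (words).
-/

set_option autoImplicit false

namespace Pool.Agent.CRS

open Pool.Agent.CRR Pool.Agent.CRN Pool.Agent.CRK Pool.Agent.CRL Pool.Agent.CRM Pool.Agent.CRP
open Pool.Agent.CRQ

private theorem Nwd_sf {U : Type} [Ring U] {N : NonUnitalSubring U} (ε : ℤ) (B : List ℕ) (i : ℕ) (hi : i ∈ B)
    (j : ℕ) (hj : j ∈ B) (w : List ℕ) :
    sf ε B i j (mo w : (ℕ → N) → U) = ε • (mo (w.map (Equiv.swap i j)) : (ℕ → N) → U) := by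
  funext x
  have h : (sf ε B i j (mo w : (ℕ → N) → U)) =
      fun x : ℕ → N => ε • (mo w : (ℕ → N) → U) (fun k => x (Equiv.swap i j k)) := by
    show (if i ∈ B ∧ j ∈ B then _ else _) = _
    rw [if_pos ⟨hi, hj⟩]
  rw [h]
  simp only [Pi.smul_apply, mo, List.map_map, Function.comp_def]

private theorem Nwd_Pw (hE : St_Evt) {U : Type} [Ring U] (N : NonUnitalSubring U) (a b c : ℕ)
    (L : List (ℤ × List ℕ)) :
    Ewd (mo : List ℕ → (ℕ → N) → U) (Pw a b c L) = Pf N U a b c (Ewd (mo : List ℕ → (ℕ → N) → U) L) := by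
  have h1 := (hE ((ℕ → N) → U) (sf 1 (lB a b)) 1 (lB a b) mo
    (fun i hi j hj w => Nwd_sf 1 (lB a b) i hi j hj w)).1
  have h2 := (hE ((ℕ → N) → U) (sf (-1) (lC a b c)) (-1) (lC a b c) mo
    (fun i hi j hj w => Nwd_sf (-1) (lC a b c) i hi j hj w)).1
  show Ewd (mo : List ℕ → (ℕ → N) → U) (Tw 1 (lB a b) (Tw (-1) (lC a b c) L)) = _
  rw [h1, h2]
  rfl

private theorem Nwd_it (hE : St_Evt) {U : Type} [Ring U] (N : NonUnitalSubring U) (a b c : ℕ) (n : ℕ)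
    (L : List (ℤ × List ℕ)) :
    Ewd (mo : List ℕ → (ℕ → N) → U) ((Pw a b c)^[n] L) =
      ((Pf N U a b c) ^ n) (Ewd (mo : List ℕ → (ℕ → N) → U) L) := by
  induction n with
  | zero => simp
  | succ n ih =>
    rw [Function.iterate_succ_apply', Nwd_Pw hE, ih, pow_succ']
    rfl

/-- Nwd. -/
theorem thm_Nwd (hN : St_Npt) (hE : St_Evt) (hW : St_Evw) : St_Nwd := by
  intro U _ N hNr a b c habc w hw
  have h1 : Ewd (mo : List ℕ → (ℕ → N) → U) [(1, w)] = mo w := by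
    simp [Ewd]
  rw [Nwd_it hE, h1]
  refine AddSubgroup.closure_mono ?_ (hN U N hNr a b c habc w hw)
  rintro F ⟨t, ht, u, hu, rfl⟩
  refine ⟨(Pw a b c)^[b - t.1 + u.1] (wW a b c t u), ?_, ?_⟩
  · unfold TB3
    rw [List.mem_flatMap]
    exact ⟨t, ht, List.mem_map.2 ⟨u, hu, rfl⟩⟩
  · rw [Nwd_it hE, (hW U N).2]

end Pool.Agent.CRS
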