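import Pool.Agent.CRS.StC
import Pool.Agent.CRQ.Fin

/-!
Campaign CRS, module Nxf: nilpotent critical rings, the primes 2 and 3.
-/

set_option autoImplicit false

namespace Pool.Agent.CRS

open Pool.Agent.CRR Pool.Agent.CRN Pool.Agent.CRK Pool.Agent.CRL Pool.Agent.CRM Pool.Agent.CRP
open Pool.Agent.CRQ

theorem thm_Nxf (hNmt : St_Nmt) (hNkb : St_Nkb) (hNka : St_Nka) (hNtp : St_Ntp) : St_Nxf := by
  intro Tb h2 h3 R _ _ h6 hN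
  obtain ⟨hcube, p, H, hp, ⟨r, hr⟩, hH, g, L, ⟨z, hz⟩, hL, hval, hne⟩ := hN
  have hpp : p = 2 ∨ p = 3 := by
    by_contra h
    exact h6 ((Fin_six hp hr hH).2 h)
  obtain ⟨hK, hW, hG⟩ := hNka R p H g L hpp hcube ⟨r, hr⟩ hH
    (fun q hq => ⟨(hL q hq).1, (hL q hq).2.1⟩) hval hne
  obtain ⟨hd1, hd2, hd3⟩ := hNkb R p g hp hcube ⟨r, hr⟩ z hz
  have hku : Ku ℤ R p 1 := ⟨1, fun x => ⟨0, by simp⟩⟩
  have fin : ∀ f : (Fin g → R) → R, Good ℤ p (KJ R p) H g f → Cln Tb p g f → NilX Tb R := by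
    intro f hf hc
    refine ⟨hcube, p, H, hpp, ⟨r, hr⟩, hH, g, f, hc, ⟨z, hz⟩,
      fun x => ⟨hf.val x, fun y hy => hf.inv x y hy, fun hx => ?_⟩, hf.ne⟩
    obtain ⟨c, j, hj, hs⟩ := hd1 x hx
    exact hf.dep x c j (hj ▸ hku) hs
  by_cases h5 : g ≤ 5
  · exact fin _ hG (Or.inl ⟨h5, L, fun q hq => ⟨(hL q hq).1, (hL q hq).2.1, (hL q hq).2.2.1⟩,
      fun _ => rfl⟩)
  · have h6g : 6 ≤ g := by omega
    have htop := hNtp R p g hpp hcube ⟨r, hr⟩ h6g ⟨z, hz⟩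
    have hDm : Dm ℤ p (KJ R p) g := by
      intro m hm F _ hF x
      obtain ⟨c, j, hj, hs⟩ := hd2 m hm x
      exact hF x c j (hj ▸ hku) hs
    have hGn : Gn ℤ (KJ R p) g := by
      refine ⟨z, fun m F _ hF ⟨x, hx⟩ => ?_⟩
      choose c hc using fun i => hd3 (x i)
      refine ⟨c, ?_⟩
      rw [← hF x _ hc]
      exact hx
    have hMt := hNmt R p hpp hcube ⟨r, hr⟩
    rcases hpp with rfl | rfl
    · obtain ⟨B, c, hB, hl, hf⟩ := h2 ℤ R (KJ R 2) H g _ hK h6g htop hDm hGn hMt hW hG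
      exact fin _ hf (Or.inr ⟨h6g, B, c, hB, hl, fun _ => rfl⟩)
    · obtain ⟨B, c, hB, hl, hf⟩ := h3 ℤ R (KJ R 3) H g _ hK h6g htop hDm hGn hMt hW hG
      exact fin _ hf (Or.inr ⟨h6g, B, c, hB, hl, fun _ => rfl⟩)

end Pool.Agent.CRS
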