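import Pool.Agent.CRS.Defs

/-!
Campaign CRS, p = 2: long words (problem MP_1bb14d_al, stage 7).  Statements of the modules (words with repeated letters).

`A` is a ring with `x^3 = 0` whose additive group is a 2-group.  All words have length at least 6 and are killed by 2 (`St_K0`), so
signs do not matter and sums of words are taken modulo 2.  `adj κ w` is the sum of `κ` over the adjacent pairs of `w`.
The result: the value of a word with all letters once is `e + adj κ w` (`St_K1`); with one letter twice it is `adj κ w` where only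
pairs with this letter count (`St_K2`); with two letters `a, b` twice only the pairs `a b`, `b a` count (`St_K22`); with one letter
`a` three times only the pairs `a a` count (`St_K3`); with still more repetitions it is zero (`St_KZ`).

Every `St_X` is a statement with its proof in the docstring.  A module proves `thm_X : St_Y → ... → St_X` with the hypotheses
which are named in the docstring (drop unused ones).
-/

set_option autoImplicit false

namespace Pool.Agent.CRS

open Pool.Agent.CRR Pool.Agent.CRN Pool.Agent.CRK Pool.Agent.CRL Pool.Agent.CRM Pool.Agent.CRP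
open Pool.Agent.CRQ

/-- The sum over the adjacent pairs. -/
def adj {ι A : Type} [AddCommMonoid A] (κ : ι → ι → A) : List ι → A
  | a :: b :: l => κ a b + adj κ (b :: l)
  | _ => 0

/-- `x^3 = 0` and the order of every element is a power of 2. -/
structure N2 (A : Type) [NonUnitalRing A] : Prop where
  cube : ∀ x : A, x * x * x = 0
  pr : ∃ r : ℕ, ∀ x : A, (2 ^ r) • x = 0

/-- The group generated by the words of length at least 6 in `x`. -/
def Wg {ι A : Type} [NonUnitalRing A] (x : ι → A) : AddSubgroup A :=
  AddSubgroup.closure {y | ∃ w : List ι, 6 ≤ w.length ∧ y = wp (w.map x)}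

/-- [K0] PROOF: helper12, in the file for `p = 3` (both primes). -/
def St_K0 : Prop := ∀ (A : Type) [NonUnitalRing A], N2 A → ∀ l : List A, 6 ≤ l.length → wp l + wp l = 0

/-- [K1] PROOF: helper92 (file StE). -/
def St_K1 : Prop := ∀ (A : Type) [NonUnitalRing A], N2 A → ∀ (ι : Type) [Fintype ι] [DecidableEq ι],
  6 ≤ Fintype.card ι → ∀ x : ι → A, ∃ (e : A) (κ : ι → ι → A), e ∈ Wg x ∧ (∀ i j, κ i j ∈ Wg x) ∧
    ∀ w : List ι, (∀ i, w.count i = 1) → wp (w.map x) = e + adj κ w

/-- [WG] (small facts) PROOF. (1) `closure_induction` and K0. (2) `adj` of a map. (3) the first list ends and the second one begins with `i`. (4), (5) induction on the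
list. (6) a word in `x ∘ π` is a word in `x`. -/
def St_WG : Prop :=
  (∀ (A : Type) [NonUnitalRing A], N2 A → ∀ (ι : Type) (x : ι → A), ∀ y ∈ Wg x, y + y = 0) ∧
  (∀ (ι ι' A : Type) [AddCommMonoid A] (κ : ι → ι → A) (π : ι' → ι) (w : List ι'),
    adj κ (w.map π) = adj (fun i j => κ (π i) (π j)) w) ∧
  (∀ (ι A : Type) [AddCommMonoid A] (κ : ι → ι → A) (i : ι) (u v : List ι),
    adj κ (u ++ i :: v) = adj κ (u ++ [i]) + adj κ (i :: v)) ∧
  (∀ (ι A : Type) [AddCommMonoid A] (κ κ' : ι → ι → A) (w : List ι),
    adj (fun i j => κ i j + κ' i j) w = adj κ w + adj κ' w) ∧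
  (∀ (ι A : Type) [AddCommMonoid A] (κ : ι → ι → A) (z : A) (w : List ι), w ≠ [] → w.Nodup →
    (∀ i j, i ≠ j → κ i j = z) → adj κ w = (w.length - 1) • z) ∧
  (∀ (A : Type) [NonUnitalRing A] (ι ι' : Type) (x : ι → A) (π : ι' → ι), ∀ y ∈ Wg (fun i => x (π i)), y ∈ Wg x)

/-- [TZ] Uses K0. PROOF. Put `b = wp p`, `c = wp q`, and write `S(u,v,w)` for the sum of the six products of `u, v, w` (it is 0, from the cubes of the sums)
and `T(u,v) = u u v + u v u + v u u`; `T(u,v) + T(v,u) = 0` from `(u + v)^3`, `T` is additive in both arguments (`S = 0`), `T(u,u) = 3 u^3 = 0`. Every word below contains `x`, `b`, `c` and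
a fourth factor, so it has at least 6 letters and is killed by 2 (K0): signs and even multiples may be ignored. We have
(1) `T(u,v) w = T(u,v w)`, from `T(u,v) w = T(u,v w) + S(u,v u,w) + S(u,v,w) u`, and the mirror image `w T(u,v) = T(u,w v)`.
Let `F(u,v,w) = T(u,v) w = T(u,v w) = v T(u,w)`. (2) `F` is symmetric: `F(u,v,w) = F(v,u,w)`, and `v T(u,w) = v T(w,u) = T(w,v u) = T(w,v) u = F(w,v,u)`. (3) `F(u,u,w) = 0`, so `F = 0` if two arguments are equal, and the same
for `F(u,v,w) w' = F(u,v,w w')`. Now `F(x,b,c) = T(x,b c) = T(b c,x) = bcbcx + bcxbc + xbcbc`. By (3) `bcb = bbc + cbb + T(b,c)`, `T(b,c) c = 0`: `bcbc = bbcc + cbbc`; `bcxb = T(b,cx) + bbcx + cxbb`, `T(b,cx) c = 0`. With `w = b b` and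
`cwc = ccw + wcc + T(c,w)`, `T(c,w) = T(c,b) b = 0`, `T(c,xw) = 0`, `ww.. = T(c,x) = ccx + cxc + xcc`, `w T(c,x) = 0` this becomes `wxcc + wccx + xwcc + xccw + ccwx + ccxw = S(w,x,cc) = 0`.
(Alternatively the following 18 relations add up to `T(a,b) c` modulo 2, `B(u,v) = T(u,v) + T(v,u)`: `b B(a,c) b`, `a B(b,c) b`, `S(a,ba,c)`, `S(a,b,bc) c`, `b S(a,ba,c)`, `a S(b,bb,c)`, `S(ac,b,c) b`, `S(acb,b,c)`, `bc B(a,b)`,
`S(ac,b,bc)`, `b S(ab,b,c)`, `B(a,bc)`, `S(a,b,bcc)`, `b B(b,c) a`, `b S(a,ac,b)`, `ac bbb`, `S(a,b,c) a`, `b S(a,b,bc)`.) -/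
def St_TZ : Prop := ∀ (A : Type) [NonUnitalRing A], N2 A → ∀ (x : A) (p q : List A), p ≠ [] → q ≠ [] →
  4 ≤ p.length + q.length → x * x * wp p * wp q + x * wp p * x * wp q + wp p * x * x * wp q = 0

/-- [K2] One letter twice. Uses K1, TZ, WG. PROOF. Let `X : Option ι → A`, `X none = x a`, `X (some i) = x i`; `card (Option ι) ≥ 6`, so K1 gives `e`, `κ` for `X`. Write
`n = none`, `s = some a`, `j` for `some j`, `O = {j | j ≠ a}` (at least 4 letters), `τ j = κ n j + κ s j`, `σ j = κ j n + κ j s`. Everything modulo 2 (WG (1)).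
(1) If `n` and `s` are exchanged in a word its value does not change. For `n j R k s` (`R` all the other letters): `τ j = σ k` (`j ≠ k` in `O`); for
`n j R k s l`: `τ j + σ k + τ l = 0`; so all `τ l = 0`, all `σ k = 0`; for `n s r R`: `κ n s = κ s n`. (2) For every order `u = c v` of `O`, TZ (`x a`, `p = [x c]`, `q` the word `v`) gives
`0 = value(n s c v) + value(n c s v) + value(c n s v) = e + τ c + σ c + adj κ u`, so `adj κ u = e`. (3) Compare `a' b' q R` and `b' a' q R`; `p a' b' q R` and `p b' a' q R`: `κ p a' = κ p b'` for different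
`p, a', b'` in `O`; compare `R q a' b'` and `R q b' a'`: `κ a' b' = κ b' a'`. So `κ i j = z` for all `i ≠ j` in `O`, and `e = (card O - 1) z`. (4) Put `κ'' a a = κ n s + z`, `κ'' a j = κ s j + z`, `κ'' j a = κ j s + z` (`j ≠ a`), `κ'' i j = 0` otherwise.
For a word `w` as in the statement replace the first `a` by `n`, the second one by `s` and get `W`; by (1), (3) `κ i j + κ'' (π i) (π j) = z` for all `i ≠ j` in `Option ι`, so
`value(w) + adj κ'' w = e + (card ι) z = (2 card ι - 2) z = 0`. -/
def St_K2 : Prop := ∀ (A : Type) [NonUnitalRing A], N2 A → ∀ (ι : Type) [Fintype ι] [DecidableEq ι],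
  5 ≤ Fintype.card ι → ∀ (a : ι) (x : ι → A), ∃ κ : ι → ι → A, (∀ i j, κ i j ∈ Wg x) ∧
    (∀ i j, i ≠ a → j ≠ a → κ i j = 0) ∧
    ∀ w : List ι, w.count a = 2 → (∀ i, i ≠ a → w.count i = 1) → wp (w.map x) = adj κ w

/-- [K22] Two letters twice. Uses K2, WG. PROOF. `X : Option ι → A`, `X none = x b`: K2 for the letter `some a` gives `κ`; every word `w` as in the statement gives two words `W` (one of the two `b` is replaced by `none`) with
`value(w) = adj κ W`. The same with `a`, `b` exchanged gives `κ'`. Write `P j = κ a j`, `Q j = κ j a`, `E = κ a a`. Let `c ≠ d` be two other letters, `R` a list of the remaining ones.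
(1) The words `b b R c` followed by `a a d`, `a d a`, `d a a` have the same value (their pairs with `b` are the same, use `κ'`). So `Q c + E + P d = Q c + P d + Q d = Q d + E`, hence `E = Q d`,
`Q c + P d = Q d`, and with `c`, `d` exchanged `E = Q c`, so `P d = 0` and `P c = 0`. The words `d a a`, `a d a` followed by `c R b b`: `Q d + E + P c = P d + Q d + P c`, so `E = P d = 0` and `Q c = Q d = 0`. As `c`, `d` are arbitrary,
`P j = Q j = 0` for all `j ≠ a, b, none`, and `E = 0`. (2) The two words `W` for `a b c b d a R` give `P b = P none`, those for `b a c b d a R` give `Q b = Q none`. So the value is `adj` with `P b` for `a b` and `Q b` for `b a`. -/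
def St_K22 : Prop := ∀ (A : Type) [NonUnitalRing A], N2 A → ∀ (ι : Type) [Fintype ι] [DecidableEq ι],
  4 ≤ Fintype.card ι → ∀ (a b : ι) (x : ι → A), a ≠ b → ∃ κ : ι → ι → A, (∀ i j, κ i j ∈ Wg x) ∧
    (∀ i j, ¬ (i = a ∧ j = b) → ¬ (i = b ∧ j = a) → κ i j = 0) ∧
    ∀ w : List ι, w.count a = 2 → w.count b = 2 → (∀ i, i ≠ a → i ≠ b → w.count i = 1) → wp (w.map x) = adj κ w

/-- [K3] One letter three times. Uses K2, WG. PROOF. `X : Option ι → A`, `X none = x a`: K2 for the letter `some a` gives `κ`; every word `w` as in the statement gives three words `W` (one `a` is replaced by `n = none`). Write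
`P j = κ a j`, `Q j = κ j a`, `E = κ a a`; let `c, d, f` be three other letters and `R` a list of the remaining ones. The words for `a c a d a f R`: `Q c + P d + Q d + P f = P c + Q d + P f = P c + Q c + P d`; for `R c a d a f a`:
`Q d + P f + Q f = Q c + P d + Q f = Q c + P d + Q d + P f`. So `P c = Q c + P d = Q d + P f = Q f`; as the letters are arbitrary all `P j`, `Q j` (`j ≠ a, none`) are equal, and `P c = Q c + P d` says that they are zero. The words for
`a a c a d f R`: `Q n = P n = E`. So the value is `adj` with `E` for `a a`. -/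
def St_K3 : Prop := ∀ (A : Type) [NonUnitalRing A], N2 A → ∀ (ι : Type) [Fintype ι] [DecidableEq ι],
  4 ≤ Fintype.card ι → ∀ (a : ι) (x : ι → A), ∃ κ : ι → ι → A, (∀ i j, κ i j ∈ Wg x) ∧
    (∀ i j, ¬ (i = a ∧ j = a) → κ i j = 0) ∧
    ∀ w : List ι, w.count a = 3 → (∀ i, i ≠ a → w.count i = 1) → wp (w.map x) = adj κ w

/-- [KZA] Uses K22, K3, WG. PROOF. `R` is a list of the remaining letters. (1) `X : Option ι → A`, `X none = x a`: by K3 for `some a` the value is `E` times the number of pairs `a a` of `W` (one `a` of `w` is replaced by `none`). For `a a c a d a R` (`c`, `d` other letters)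
replace the first `a`: 0, replace the third `a`: `E`. So `E = 0`. (2) `X none = x b` and K3 for `some a`: the value is `E` times the number of pairs `a a`. `X none = x a` and K22 for `some a`, `some b`: for `a a c b b a R`, the last `a` replaced by `none`, there are no pairs
`a b`, `b a`. So `E = 0`. (3) For different `x', y, z` in `{a, b, c}` let `P x' z` be the coefficient of the pair `x' z` in K22 for `some x'`, `some z` (`X none = x y`). The word `x' y y x' z z R` has the value `P x' z`; with `X none = x x'` and the letters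
`some y`, `some z` its value is 0 (there are no pairs `y z`, `z y`). So all coefficients are 0. -/
def St_KZA : Prop := ∀ (A : Type) [NonUnitalRing A], N2 A → ∀ (ι : Type) [Fintype ι] [DecidableEq ι] (x : ι → A) (w : List ι),
  3 ≤ Fintype.card ι →
  (∀ a : ι, w.count a = 4 → (∀ i, i ≠ a → w.count i = 1) → wp (w.map x) = 0) ∧
  (∀ a b : ι, a ≠ b → w.count a = 3 → w.count b = 2 → (∀ i, i ≠ a → i ≠ b → w.count i = 1) → wp (w.map x) = 0) ∧
  (∀ a b c : ι, a ≠ b → a ≠ c → b ≠ c → w.count a = 2 → w.count b = 2 → w.count c = 2 →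
    (∀ i, i ≠ a → i ≠ b → i ≠ c → w.count i = 1) → wp (w.map x) = 0)

/-- [KZ] Uses KZA. PROOF. `k = w.length ≥ 6`. The number of repetitions is `≥ 3`, so there is a letter which occurs `≥ 4` times, or one which occurs `≥ 3` times and another one `≥ 2` times, or three letters `≥ 2` times. Choose sets of places: `P` with 4 places with the same letter, or `P`, `Q` with
3 and 2 places, or `P`, `Q`, `R` with 2, 2, 2 places. Let `ι'` be the quotient of the places `Fin k` in which the places of `P` (of `Q`, of `R`) are identified, `w'` the list of the classes of the places `0, 1, ..., k - 1`, `x'` the function `ι' → A` given by the letters. Then `w'.map x' = w.map x`,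
`card ι' = k - 3 ≥ 3`, and KZA applies to `w'`. (For `ι'` one may take `Option (places outside of P)`, or `Fin k` with the relation: `i ~ j` if `i = j` or both in `P`, ....) -/
def St_KZ : Prop := ∀ (A : Type) [NonUnitalRing A], N2 A → ∀ (ι : Type) [DecidableEq ι] (x : ι → A) (w : List ι),
  6 ≤ w.length → w.toFinset.card + 3 ≤ w.length → wp (w.map x) = 0

end Pool.Agent.CRS
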