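import Pool.Agent.CRS.StA

/-!
Campaign CRS, p = 2: the adjacency formula `St_K1` (problem MP_1bb14d_al, stage 7).  Statements of the modules.

Words are lists of letters, `φ` is a function of words with values in an abelian group of exponent 2, and the only thing which is used is that the sum
over the six orders of three consecutive nonempty blocks of a word is zero (`Hs`).  The result: if `φ` has this property on the words of length
`k ≥ 6`, then on the orderings of `k` different letters `φ w = e + adj K w`.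

Every `St_X` is a statement with its proof in the docstring.  A module proves `thm_X : St_Y → ... → St_X` with the hypotheses
which are named in the docstring (drop unused ones).
-/

set_option autoImplicit false

namespace Pool.Agent.CRS

open Pool.Agent.CRR Pool.Agent.CRN Pool.Agent.CRK Pool.Agent.CRL Pool.Agent.CRM Pool.Agent.CRP
open Pool.Agent.CRQ

section words

variable {ι M : Type} [AddCommGroup M]

/-- For words of length `k`: the sum over the six orders of three consecutive nonempty blocks is zero. -/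
def Hs (k : ℕ) (φ : List ι → M) : Prop :=
  ∀ U A B C W : List ι, A ≠ [] → B ≠ [] → C ≠ [] → (U ++ A ++ B ++ C ++ W).length = k →
    φ (U ++ A ++ B ++ C ++ W) + φ (U ++ A ++ C ++ B ++ W) + φ (U ++ B ++ A ++ C ++ W) +
    φ (U ++ B ++ C ++ A ++ W) + φ (U ++ C ++ A ++ B ++ W) + φ (U ++ C ++ B ++ A ++ W) = 0

/-- The same for the words in which each of five letters occurs once. -/
def H5 (ψ : List (Fin 5) → M) : Prop :=
  ∀ U A B C W : List (Fin 5), A ≠ [] → B ≠ [] → C ≠ [] →
    (U ++ A ++ B ++ C ++ W).Perm [0, 1, 2, 3, 4] →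
    ψ (U ++ A ++ B ++ C ++ W) + ψ (U ++ A ++ C ++ B ++ W) + ψ (U ++ B ++ A ++ C ++ W) +
    ψ (U ++ B ++ C ++ A ++ W) + ψ (U ++ C ++ A ++ B ++ W) + ψ (U ++ C ++ B ++ A ++ W) = 0

variable [DecidableEq ι]

/-- The letters of `l` which are not in `S`. -/
def rs (l S : List ι) : List ι := l.filter (fun i => decide (i ∉ S))

/-- `p [a, b] q ...` -/
def Da (φ : List ι → M) (l : List ι) (p a b q : ι) : M :=
  φ (p :: a :: b :: q :: rs l [p, a, b, q]) + φ (p :: b :: a :: q :: rs l [p, a, b, q])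

/-- `[a, b] q ...` -/
def Db (φ : List ι → M) (l : List ι) (a b q : ι) : M :=
  φ (a :: b :: q :: rs l [a, b, q]) + φ (b :: a :: q :: rs l [a, b, q])

/-- `... p [a, b]` -/
def Dc (φ : List ι → M) (l : List ι) (p a b : ι) : M :=
  φ (rs l [p, a, b] ++ [p, a, b]) + φ (rs l [p, a, b] ++ [p, b, a])

/-- The setting: exponent 2, the block relation, `l` is an ordering of all letters, at least 6 of them. -/
structure Ks (φ : List ι → M) (l : List ι) : Prop where
  two : ∀ m : M, m + m = 0
  hs : Hs l.length φ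
  nd : l.Nodup
  all : ∀ i, i ∈ l
  six : 6 ≤ l.length

end words

/-- [Idn] The identities in five block letters (`[a,b]` stands for the sum of the words with `a b` and with `b a`): PROOF: helper92 (sums of 10 to 18 block relations). -/
def St_Idn : Prop := ∀ (M : Type) [AddCommGroup M], (∀ m : M, m + m = 0) → ∀ ψ : List (Fin 5) → M, H5 ψ →
  (ψ [0, 1, 2, 3, 4] + ψ [0, 1, 3, 2, 4] + ψ [1, 2, 3, 4, 0] + ψ [1, 3, 2, 4, 0] = 0) ∧
  (ψ [0, 1, 2, 3, 4] + ψ [0, 1, 2, 4, 3] + ψ [1, 0, 2, 3, 4] + ψ [1, 0, 2, 4, 3] = 0) ∧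
  (ψ [0, 1, 2, 3, 4] + ψ [0, 1, 2, 4, 3] + ψ [0, 2, 1, 3, 4] + ψ [0, 2, 1, 4, 3] +
    ψ [1, 2, 3, 4, 0] + ψ [1, 2, 4, 3, 0] + ψ [2, 1, 3, 4, 0] + ψ [2, 1, 4, 3, 0] = 0) ∧
  (ψ [0, 1, 2, 4, 3] + ψ [0, 2, 1, 4, 3] + ψ [0, 2, 3, 4, 1] + ψ [0, 3, 2, 4, 1] + ψ [0, 1, 3, 4, 2] + ψ [0, 3, 1, 4, 2] +
    ψ [1, 2, 4, 0, 3] + ψ [2, 1, 4, 0, 3] + ψ [2, 3, 4, 0, 1] + ψ [3, 2, 4, 0, 1] + ψ [1, 3, 4, 0, 2] + ψ [3, 1, 4, 0, 2] = 0) ∧
  (ψ [0, 1, 2, 4, 3] + ψ [0, 2, 1, 4, 3] + ψ [0, 2, 3, 4, 1] + ψ [0, 3, 2, 4, 1] + ψ [0, 1, 3, 4, 2] + ψ [0, 3, 1, 4, 2] +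
    ψ [4, 3, 0, 1, 2] + ψ [4, 3, 0, 2, 1] + ψ [4, 1, 0, 2, 3] + ψ [4, 1, 0, 3, 2] + ψ [4, 2, 0, 1, 3] + ψ [4, 2, 0, 3, 1] = 0) ∧
  (ψ [0, 2, 3, 4, 1] + ψ [0, 3, 2, 4, 1] + ψ [1, 2, 3, 4, 0] + ψ [1, 3, 2, 4, 0] +
    ψ [4, 0, 1, 2, 3] + ψ [4, 1, 0, 2, 3] + ψ [4, 0, 1, 3, 2] + ψ [4, 1, 0, 3, 2] = 0) ∧
  (ψ [0, 1, 2, 4, 3] + ψ [0, 2, 1, 4, 3] + ψ [1, 2, 4, 0, 3] + ψ [2, 1, 4, 0, 3] + ψ [4, 3, 0, 1, 2] + ψ [4, 3, 0, 2, 1] +
    ψ [0, 1, 3, 4, 2] + ψ [0, 3, 1, 4, 2] + ψ [1, 3, 4, 0, 2] + ψ [3, 1, 4, 0, 2] + ψ [4, 2, 0, 1, 3] + ψ [4, 2, 0, 3, 1] +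
    ψ [1, 2, 3, 4, 0] + ψ [1, 3, 2, 4, 0] + ψ [2, 3, 4, 0, 1] + ψ [3, 2, 4, 0, 1] +
    ψ [0, 2, 3, 1, 4] + ψ [0, 3, 2, 1, 4] + ψ [4, 1, 0, 2, 3] + ψ [4, 1, 0, 3, 2] = 0)

/-- [Blk] Blocks. PROOF. `ψ l = φ (U₀ ++ (l.map b).flatten ++ W₀)`; for `U, A, B, C, W` over `Fin 5` apply `hs` to `U₀ ++ (U.map b).flatten`, `(A.map b).flatten`, ..., `(W.map b).flatten ++ W₀`
(`List.map_append`, `List.flatten_append`, associativity); the flattened blocks are not empty, and the length of the flattened list is the same for permutations of `[0, 1, 2, 3, 4]`. -/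
def St_Blk : Prop := ∀ (ι M : Type) [AddCommGroup M] (k : ℕ) (φ : List ι → M), Hs k φ →
  ∀ (U W : List ι) (b : Fin 5 → List ι), (∀ i, b i ≠ []) →
    (U ++ b 0 ++ b 1 ++ b 2 ++ b 3 ++ b 4 ++ W).length = k →
    H5 (fun l => φ (U ++ (l.map b).flatten ++ W))

/-- [Pin] PROOF. Induction on the permutation `l ~ l'`, with an initial part: show for all `u` with `(u ++ l) ~ l₀` that `F (u ++ l) = F (u ++ l')` (`List.Perm.rec`: `cons a`: use the initial part `u ++ [a]`; `swap`: the hypothesis with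
`V` the rest; `trans`). -/
def St_Pin : Prop := ∀ (ι M : Type) (F : List ι → M) (l₀ : List ι),
  (∀ (U V : List ι) (a b : ι), (U ++ a :: b :: V).Perm l₀ → F (U ++ a :: b :: V) = F (U ++ b :: a :: V)) →
  ∀ l l' : List ι, l.Perm l₀ → l'.Perm l₀ → F l = F l'

/-- [Daw] The differences depend only on the neighbours. Uses Idn, Blk, Pin. PROOF. Write `[a,b]` for the sum of the two words. (0) If `q :: m ++ c :: d :: n` has all letters of the word `a b q m c d n`, then `[a,b] (q m) [c,d] n = 0` (the sum of the four words), with any initial part `U`: this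
is the second identity of Idn with the blocks `[a], [b], q :: m, [c], [d]` and the context `U`, `n`. So in `U [a,b] q m` the letters of `m` may be permuted (Pin for the function `m ↦ φ (U ++ a :: b :: q :: m) + φ (U ++ b :: a :: q :: m)`, `l₀` the list `m` at the beginning), and in the same way in
`m p [a,b]` the letters of `m` (blocks `[c], [d], n ++ [p], [a], [b]`, context `m'`, `[]`). This gives (2) and (3): `W` is a permutation of `rs l [a, b, q]` (both have exactly the letters different from `a, b, q`, and `l` is Nodup: `List.perm_of_nodup_nodup_toFinset_eq` or `List.perm_ext_iff_of_nodup`). (1) If `U = []` the same argument with the initial part `[p]`. If `U ≠ []`: the first identity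
of Idn with the blocks `U, [p], [a], [b], q :: W` (empty context): `U p [a,b] q W = p [a,b] q W U`, and then permute `W ++ U`. (`m + m = 0` is used to pass from sums equal to zero to equalities.) -/
def St_Daw : Prop := ∀ (ι M : Type) [DecidableEq ι] [AddCommGroup M] (φ : List ι → M) (l : List ι), Ks φ l →
  (∀ (U W : List ι) (p a b q : ι), (U ++ p :: a :: b :: q :: W).Perm l →
    φ (U ++ p :: a :: b :: q :: W) + φ (U ++ p :: b :: a :: q :: W) = Da φ l p a b q) ∧
  (∀ (W : List ι) (a b q : ι), (a :: b :: q :: W).Perm l →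
    φ (a :: b :: q :: W) + φ (b :: a :: q :: W) = Db φ l a b q) ∧
  (∀ (U : List ι) (p a b : ι), (U ++ [p, a, b]).Perm l →
    φ (U ++ [p, a, b]) + φ (U ++ [p, b, a]) = Dc φ l p a b)

/-- [Drl] Relations (first part). Uses Idn, Blk, Daw. PROOF. In each case apply an identity of Idn, and then Daw for each pair of words (every pair `... a b ...`, `... b a ...` in the identity is one `Da`, `Db` or `Dc`); `m = rs l [...]` is
the list of the other letters. (0) Daw for the words `p b a q m`, `b a q m`, `m p b a`. (1) third identity, blocks `[p], [a], [b], [q], [q']`, context `[]`, `m`: `p [a,b] [q,q'] m = [a,b] [q,q'] p m`; the words `p a b q q' m`, `p b a q q' m` give `Da p a b q`, `p a b q' q m`, `p b a q' q m` give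
`Da p a b q'`, and `a b q q' p m`, ... give `Db a b q`, `Db a b q'`. (2) third identity, blocks `[q], [p'], [p], [a], [b]`, context `m`, `[]`: `m q [p',p] [a,b] = m [p',p] [a,b] q`; `m q p' p a b`, `m q p' p b a`: `Dc p a b`; `m q p p' a b`, ...: `Dc p' a b`; `m p' p a b q`, ...: `Da p a b q`;
`m p p' a b q`, ...: `Da p' a b q`. (3) `Hs` with the blocks `[a], [b], [c]` and the context `[]`, `m`: `a b c m + b a c m = Db a b c`, `b c a m + c b a m = Db b c a`, `a c b m + c a b m = Db a c b`. -/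
def St_Drl : Prop := ∀ (ι M : Type) [DecidableEq ι] [AddCommGroup M] (φ : List ι → M) (l : List ι), Ks φ l →
  (∀ p a b q : ι, [p, a, b, q].Nodup → Da φ l p a b q = Da φ l p b a q ∧ Db φ l a b q = Db φ l b a q ∧
    Dc φ l p a b = Dc φ l p b a) ∧
  (∀ p a b q q' : ι, [p, a, b, q, q'].Nodup →
    Da φ l p a b q + Db φ l a b q = Da φ l p a b q' + Db φ l a b q') ∧
  (∀ p p' a b q : ι, [p, p', a, b, q].Nodup →
    Da φ l p a b q + Dc φ l p a b = Da φ l p' a b q + Dc φ l p' a b) ∧
  (∀ a b c : ι, [a, b, c].Nodup → Db φ l a b c + Db φ l b c a + Db φ l a c b = 0)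

/-- [Drm] Relations (second part). Uses Idn, Blk, Daw. PROOF. As in Drl; here take the empty context and the blocks `[0], [1], [2], [3], q :: m`, where `q` is the letter number 4 and `m = rs l [...]` the list of the other letters (the length is at least 6, but this is not
needed). (1) fourth identity, `0, 1, 2, 3, 4 = p, a, b, c, q`: `p a b (q m) c` and `p b a (q m) c` give `Da p a b q`, `a b (q m) p c` and `b a (q m) p c` give `Db a b q`, and so on. (2) fifth identity, same letters: `(q m) c p a b` and `(q m) c p b a` give `Dc p a b`. (3) Sixth identity with the context `[]`, `m` and the blocks `[p], [p'], [a], [b], [x]`: `p [a,b] x p' m` : `Da p a b x`; `p' [a,b] x p m` : `Da p' a b x`; `x [p,p'] a b m` : `Da x p p' a`; `x [p,p'] b a m` : `Da x p p' b`. (4) seventh identity, `0, 1, 2, 3, 4 = p, a, b, c, q`, empty context, block `q :: m`: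
`p [a,b] (q m) c`, `[a,b] (q m) p c`, `(q m) c p [a,b]`, `p [a,c] (q m) b`, `[a,c] (q m) p b`, `(q m) b p [a,c]`, `a [b,c] (q m) p`, `[b,c] (q m) p a`, `p [b,c] a (q m)`, `(q m) a p [b,c]`. (The context `[]`, `m` is also fine for (1), and `m`, `[]` for (2).) -/
def St_Drm : Prop := ∀ (ι M : Type) [DecidableEq ι] [AddCommGroup M] (φ : List ι → M) (l : List ι), Ks φ l →
  (∀ p a b c q : ι, [p, a, b, c, q].Nodup →
    Da φ l p a b q + Da φ l p b c q + Da φ l p a c q + Db φ l a b q + Db φ l b c q + Db φ l a c q = 0) ∧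
  (∀ p a b c q : ι, [p, a, b, c, q].Nodup →
    Da φ l p a b q + Da φ l p b c q + Da φ l p a c q + Dc φ l p a b + Dc φ l p b c + Dc φ l p a c = 0) ∧
  (∀ p p' a b x : ι, [p, p', a, b, x].Nodup →
    Da φ l p a b x + Da φ l p' a b x + Da φ l x p p' a + Da φ l x p p' b = 0) ∧
  (∀ p a b c q : ι, [p, a, b, c, q].Nodup →
    Da φ l p a b q + Db φ l a b q + Dc φ l p a b + Da φ l p a c q + Db φ l a c q + Dc φ l p a c +
    Da φ l a b c q + Db φ l b c q + Da φ l p b c a + Dc φ l p b c = 0)

/-- [Kex] A matrix with given differences. Only Mathlib. PROOF. All letters below are different. Choose two letters `o ≠ u`. Put `K o u = 0`, `K o j = ξ o u j` for `j ≠ o, u`, `K i j = K o j + η o i j` for `i, j ≠ o`, `i ≠ j`, and `K i o = K i j + ξ i j o` for `i ≠ o` with any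
chosen `j ≠ i, o` (say `j = j₀ i`); we first show that this does not depend on `j`: (a) `K p a + K p b = ξ p a b` for `a, b ≠ o`: for `p = o` it is the cocycle relation for `u, a, b` (or the definition if `a` or `b` is `u`); for `p ≠ o` the left side is
`K o a + K o b + η o p a + η o p b = ξ o a b + (ξ o a b + ξ p a b)` by hr. So `K p j + ξ p j o` is the same for `j` and `j'` (`ξ p j o + ξ p j' o = ξ p j j'`), and then (a) holds also for `a = o` or `b = o`. (b) `K a q + K b q = η a b q`: `q ≠ o` and `a, b ≠ o`: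
`η o a q + η o b q = η a b q`; `q ≠ o`, `a = o`: definition; `q = o`: take `j ≠ a, b, o`: `K a j + K b j + ξ a j o + ξ b j o = η a b j + (η a b j + η a b o)` by hr. (c) `ω a b = K a b + K b a + ζ a b` is symmetric, and `ω a b + ω a c = ξ a b c + η b c a + ζ a b + ζ a c = 0`
by (a), (b), hz. So `ω` is the same for all pairs, and for three letters `a, b, c`: `3 ω = (ζ a b + η a b c) + (ζ b c + η b c a) + (ζ a c + η a c b)` (because `η a b c = K a c + K b c` and so on, every ordered pair of `a, b, c` occurs once) `= 0` by hx. So `ω = 0`. -/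
def St_Kex : Prop := ∀ (ι M : Type) [DecidableEq ι] [Fintype ι] [AddCommGroup M], (∀ m : M, m + m = 0) →
  5 ≤ Fintype.card ι → ∀ (ξ η : ι → ι → ι → M) (ζ : ι → ι → M),
  (∀ p a b : ι, [p, a, b].Nodup → ξ p a b = ξ p b a) → (∀ a b q : ι, [a, b, q].Nodup → η a b q = η b a q) →
  (∀ a b : ι, a ≠ b → ζ a b = ζ b a) →
  (∀ p a b c : ι, [p, a, b, c].Nodup → ξ p a b + ξ p b c = ξ p a c) →
  (∀ a b c q : ι, [a, b, c, q].Nodup → η a b q + η b c q = η a c q) →
  (∀ p p' a b : ι, [p, p', a, b].Nodup → ξ p a b + ξ p' a b = η p p' a + η p p' b) →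
  (∀ a b c : ι, [a, b, c].Nodup → ζ a b + ζ a c = ξ a b c + η b c a) →
  (∀ a b c : ι, [a, b, c].Nodup → ζ a b + η a b c + (ζ b c + η b c a) + (ζ a c + η a c b) = 0) →
  ∃ K : ι → ι → M, (∀ p a b : ι, [p, a, b].Nodup → K p a + K p b = ξ p a b) ∧
    (∀ a b q : ι, [a, b, q].Nodup → K a q + K b q = η a b q) ∧ ∀ a b : ι, a ≠ b → K a b + K b a = ζ a b

/-- [Kfi] The adjacency formula for functions of words. Uses Daw, Drl, Drm, Kex, Pin. PROOF. `ι` is finite with at least 6 elements (`l` contains all letters and is Nodup). For different `p, a, b` choose `q` and put `ξ p a b = Da p a b q + Db a b q`, by Drl (2) independent of `q`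
(`q ≠ p, a, b`); `η a b q = Da p a b q + Dc p a b`, independent of `p` by Drl (3); `ζ a b = Da p a b q + Db a b q + Dc p a b`, independent of `p` and `q`. The hypotheses of Kex: symmetry: Drl (1); cocycles: Drm (1), (2) with one common `q` (`p`); hr: `ξ p a b + ξ p' a b = Da p a b x + Da p' a b x`,
`η p p' a + η p p' b = Da x p p' a + Da x p p' b`, Drm (3); hz: Drm (4) (`ζ a b`, `ζ a c` with `p, q`; `ξ a b c = Da a b c q + Db b c q`, `η b c a = Da p b c a + Dc p b c`); hx: `ζ a b + η a b c = Db a b c` (use the same `p` and `q = c`: `Da + Db + Dc + Da + Dc`), Drl (4). So there is `K`. Then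
`Da p a b q = ξ p a b + η a b q + ζ a b = K p a + K p b + K a q + K b q + K a b + K b a`, `Db a b q = η + ζ`, `Dc p a b = ξ + ζ`. The function `F w = φ w + adj K w` does not change if two neighbours `a, b` are exchanged, in a word which is a permutation of `l`: four cases, `U` is empty or ends with `p`, `V` is empty
or begins with `q` (not both empty, the length is at least 6), with Daw. Pin: `F w = F l` for all `w ~ l`; put `e = F l`. -/
def St_Kfi : Prop := ∀ (ι M : Type) [DecidableEq ι] [AddCommGroup M] (φ : List ι → M) (l : List ι), Ks φ l →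
  ∃ (e : M) (K : ι → ι → M), ∀ w : List ι, w.Perm l → φ w = e + adj K w

/-- [Wsr] The block relation for products. PROOF. Linearise: `(u + v + w)^3 = 0` and the cubes of `u, v, w, u + v, u + w, v + w` are zero, so `u v w + u w v + v u w + v w u + w u v + w v u = 0`. For `u = wp A`, `v = wp B`, `w = wp C` multiply from the left by `wp U` (if `U ≠ []`) and from the
right by `wp W` (if `W ≠ []`), using `wp (s ++ t) = wp s * wp t` for nonempty `s, t` (by induction on `s`). -/
def St_Wsr : Prop := ∀ (A : Type) [NonUnitalRing A], (∀ x : A, x * x * x = 0) →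
  ∀ U B C D W : List A, B ≠ [] → C ≠ [] → D ≠ [] →
    wp (U ++ B ++ C ++ D ++ W) + wp (U ++ B ++ D ++ C ++ W) + wp (U ++ C ++ B ++ D ++ W) +
    wp (U ++ C ++ D ++ B ++ W) + wp (U ++ D ++ B ++ C ++ W) + wp (U ++ D ++ C ++ B ++ W) = 0

/-- [Kon] The formula for products. Uses Kfi, Wsr, WG (part (1)). PROOF. `l = Finset.univ.toList` (length `card ι = k ≥ 6`), `M` the group `Wg x`, in which `m + m = 0` by WG (1); `φ w = ⟨wp (w.map x), _⟩` if `w.length ≥ 6`, and `0` otherwise. `Hs k φ`: all six words have length `k`; Wsr for the lists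
`U.map x`, .... So Kfi gives `e` and `K` in `Wg x`; a word with `w.count i = 1` for all `i` is a permutation of `l`; `adj` of the coerced `K` is the coerced `adj`. -/
def St_Kon : Prop := St_K1

end Pool.Agent.CRS
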