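import Pool.Agent.CRS.StA

/-!
Campaign CRS, p = 2: the table `Tb2`, realisation of arc sets by lists of orderings (problem MP_1bb14d_al, stage 7).
Statements of the modules.

A sum of orderings of the letters `0, ..., g - 1` is determined, up to identities (`St_K1`), by the parity of the number of
orderings and by the arcs: `i → j` is an arc if `j` stands immediately after `i` in an odd number of the orderings.
-/

set_option autoImplicit false

namespace Pool.Agent.CRS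

open Pool.Agent.CRR Pool.Agent.CRN Pool.Agent.CRK Pool.Agent.CRL Pool.Agent.CRM Pool.Agent.CRP
open Pool.Agent.CRQ

/-- How often `j` stands immediately after `i` in the words of `L`. -/
def cnt (L : List (ℤ × List ℕ)) (i j : ℕ) : ℕ :=
  (L.map fun q => adj (fun a b => if a = i ∧ b = j then 1 else 0) q.2).sum

/-- `L` is a list of orderings of `0, ..., g - 1` (coefficients 1), their number has the parity of `c`, and `j` stands immediately
after `i` an odd number of times exactly for the arcs `E i j`. -/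
structure Orr (g : ℕ) (E : ℕ → ℕ → Prop) (c : ℕ) (L : List (ℤ × List ℕ)) : Prop where
  one : ∀ q ∈ L, q.1 = 1
  ord : ∀ q ∈ L, q.2.Perm (List.range g)
  num : L.length % 2 = c % 2
  arc : ∀ i j, i < g → j < g → (cnt L i j % 2 = 1 ↔ E i j)

/-- All arcs. -/
def eJ (i j : ℕ) : Prop := i ≠ j
/-- The arcs which start at 0. -/
def eR (i j : ℕ) : Prop := i = 0 ∧ j ≠ 0
/-- The arcs which end at 0. -/
def eC (i j : ℕ) : Prop := i ≠ 0 ∧ j = 0
/-- The arcs between 0, 1, 2. -/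
def eD (i j : ℕ) : Prop := i ≠ j ∧ i ≤ 2 ∧ j ≤ 2
/-- A tournament: `i → j` for `0 < i < j`, `0 → i` for even `i > 0`, `i → 0` for odd `i`. -/
def eT (i j : ℕ) : Prop := (0 < i ∧ i < j) ∨ (i = 0 ∧ 0 < j ∧ j % 2 = 0) ∨ (j = 0 ∧ i % 2 = 1)
/-- `0 → j` for `j ≥ 2`, `2 → 0`, `2 → 1`. -/
def eZ (i j : ℕ) : Prop := (i = 0 ∧ 2 ≤ j) ∨ (i = 2 ∧ j ≤ 1)
/-- `0 → 1`, `2 → 0`, `2 → 1`. -/
def eY (i j : ℕ) : Prop := (i = 0 ∧ j = 1) ∨ (i = 2 ∧ j ≤ 1)
/-- No arcs. -/
def eN (_ _ : ℕ) : Prop := False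

/-- The letter `i` twice, only the pair `i i`: `a i i m + i m a i`, `a m` the other letters in their order. -/
def Xl (g i : ℕ) : List (ℤ × List ℕ) :=
  [(1, ((List.range g).erase i).headI :: i :: i :: ((List.range g).erase i).tail),
   (1, i :: (((List.range g).erase i).tail ++ [((List.range g).erase i).headI, i]))]

/-- The letter `i` twice, only the pair `i j`: `i j i m + i m j i`, `m` the other letters. -/
def Pm (g i j : ℕ) : List (ℤ × List ℕ) :=
  [(1, i :: j :: i :: ((List.range g).erase i).erase j), (1, i :: (((List.range g).erase i).erase j ++ [j, i]))]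

/-- The letter `i` twice, only the pair `j i`: `m i j i + i j m i`, `m` the other letters. -/
def Qm (g i j : ℕ) : List (ℤ × List ℕ) :=
  [(1, ((List.range g).erase i).erase j ++ [i, j, i]), (1, i :: j :: (((List.range g).erase i).erase j ++ [i]))]

/-- The letter `0` twice, only the pair `0 j`: `0 j 0 m + 0 m j 0`, `m` the other letters. -/
def Pl (g j : ℕ) : List (ℤ × List ℕ) := Pm g 0 j

/-- The letter `0` twice, only the pair `j 0`: `m 0 j 0 + 0 j m 0`, `m` the other letters. -/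
def Ql (g j : ℕ) : List (ℤ × List ℕ) := Qm g 0 j

/-- The sum of `Xl g i`, `i < g`. -/
def SX (g : ℕ) : List (ℤ × List ℕ) := (List.range g).flatMap (Xl g)

/-- The sum of `Pl g j`, `0 < j < g`. -/
def SP (g : ℕ) : List (ℤ × List ℕ) := ((List.range g).erase 0).flatMap (Pl g)

/-- The sum of `Ql g j`, `0 < j < g`. -/
def SQ (g : ℕ) : List (ℤ × List ℕ) := ((List.range g).erase 0).flatMap (Ql g)

/-- `x_0 x_0 x_1 x_0 x_2 x_3 ... x_(g-1)`. -/
def A1 (g : ℕ) : List (ℤ × List ℕ) := [(1, 0 :: 0 :: 1 :: 0 :: ((List.range g).erase 0).erase 1)]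

/-- `x_0 x_0 x_1 x_1 x_2 x_3 ... x_(g-1)`. -/
def A2 (g : ℕ) : List (ℤ × List ℕ) := [(1, 0 :: 0 :: 1 :: 1 :: ((List.range g).erase 0).erase 1)]

/-- The table for `p = 2`. -/
def Tb2 (g : ℕ) (B : List (List (ℤ × List ℕ))) : Prop :=
  (g % 2 = 0 ∧ ∃ J R C D T Z Y : List (ℤ × List ℕ), Orr g eJ 0 J ∧ Orr g eR 1 R ∧ Orr g eC 1 C ∧ Orr g eD 0 D ∧
    Orr g eT (g / 2) T ∧ Orr g eZ 0 Z ∧ Orr g eY 1 Y ∧ B = [J, R, C, D, T, Z, Y]) ∨
  (g % 2 = 1 ∧ ∃ N J R C D T : List (ℤ × List ℕ), Orr g eN 1 N ∧ Orr g eJ 0 J ∧ Orr g eR 0 R ∧ Orr g eC 0 C ∧ Orr g eD 0 D ∧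
    (g % 4 = 1 ∧ Orr g eT 0 T ∨ g % 4 = 3 ∧ T = []) ∧ B = [N, J, R, C, D, T]) ∨
  B = [Xl g 0, SP g, SQ g, Pl g 1, Ql g 1] ∨
  (∃ J : List (ℤ × List ℕ), Orr g eJ 0 J ∧ B = [SX g, J]) ∨
  B = [A1 g] ∨ B = [A2 g]

/-- [RLA] Two arcs. PROOF. For different `z, x, y < g` let `m` be a list of the other letters. The words `x y m z`, `y m z x` (if `m` is empty: `x y z`, `y z x`) have the arcs `x → y`, `z → x` an odd number of times and no others: this is `St` for `(z → x) + (x → y)`.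
Lists may be appended (the counts add). Every arc `a → b` together with `0 → 1`: if `b ≠ 0` choose `c` different from `a, b, 0, 1` and append the lists for `(a → b) + (b → c)`, `(b → c) + (c → 0)`,
`(c → 0) + (0 → 1)`; if `b = 0`, `a ≠ 1`: `(a → 0) + (0 → 1)`; if `(a, b) = (1, 0)`: `(1 → 0) + (0 → 2)`, `(0 → 2) + (2 → 3)`, `(2 → 3) + (3 → 0)`, `(3 → 0) + (0 → 1)`; if `(a, b) = (0, 1)` the empty list. -/
def St_RLA : Prop := ∀ g a b : ℕ, 6 ≤ g → a < g → b < g → a ≠ b → ∃ L : List (ℤ × List ℕ),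
  (∀ q ∈ L, q.1 = 1 ∧ q.2.Perm (List.range g)) ∧ L.length % 2 = 0 ∧
  ∀ i j, i < g → j < g → cnt L i j % 2 = ((if i = a ∧ j = b then 1 else 0) + (if i = 0 ∧ j = 1 then 1 else 0)) % 2

open Classical in
/-- [RLB] Realisation. Uses RLA. PROOF. `c` even: append the lists of RLA for all arcs `(a, b)` of `E` (`a, b < g`): the arcs are those of `E` and `n` times `0 → 1`, `n` the number of arcs, which is even. `c` odd: the ordering
`0, 1, ..., g - 1` has the arcs `i → i + 1`; apply the first case to the symmetric difference of `E` and these arcs (an even number) and add this ordering. -/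
def St_RLB : Prop := ∀ (g c : ℕ) (E : ℕ → ℕ → Prop), 6 ≤ g → (∀ i, ¬ E i i) →
  (((Finset.range g) ×ˢ (Finset.range g)).filter fun q : ℕ × ℕ => E q.1 q.2).card % 2 = ((g - 1) * c) % 2 →
  ∃ L : List (ℤ × List ℕ), Orr g E c L

/-- [TBX] The table is not empty. Uses RLB. PROOF. The numbers of arcs: `J`: `g (g - 1)`; `R`, `C`: `g - 1`; `D`: 6; `T`: `g (g - 1) / 2` (for `i ≠ j` exactly one of `i → j`, `j → i`); `Z`: `g`; `Y`: 3; `N`: 0. For even `g` this is `≡ c` in all cases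
(`g (g - 1) / 2 ≡ g / 2` modulo 2), for odd `g` it is even (`T`: for `g ≡ 1` modulo 4). -/
def St_TBX : Prop := ∀ g : ℕ, 6 ≤ g →
  (∃ J, Orr g eJ 0 J) ∧ (∃ D, Orr g eD 0 D) ∧
  (g % 2 = 0 → (∃ R, Orr g eR 1 R) ∧ (∃ C, Orr g eC 1 C) ∧ (∃ T, Orr g eT (g / 2) T) ∧ (∃ Z, Orr g eZ 0 Z) ∧
    ∃ Y, Orr g eY 1 Y) ∧
  (g % 2 = 1 → (∃ N, Orr g eN 1 N) ∧ (∃ R, Orr g eR 0 R) ∧ (∃ C, Orr g eC 0 C)) ∧
  (g % 4 = 1 → ∃ T, Orr g eT 0 T)

open Classical in
/-- [TBE] The values. Uses WG. PROOF. Every word `q.2` is the list of the numbers of a list `w` of elements of `Fin g` with `count = 1`, and `q.2.map (xs x) = w.map x`, so its value is `e + adj κ w`, `adj κ w = ∑ i, ∑ j, (number of pairs i j in w) • κ i j`.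
Add up; `e`, `κ i j` are killed by 2. -/
def St_TBE : Prop := ∀ (A : Type) [NonUnitalRing A], N2 A → ∀ (g c : ℕ) (E : ℕ → ℕ → Prop) (L : List (ℤ × List ℕ)) (x : Fin g → A)
  (e : A) (κ : Fin g → Fin g → A), 6 ≤ g → Orr g E c L → e ∈ Wg x → (∀ i j, κ i j ∈ Wg x) →
  (∀ w : List (Fin g), (∀ i, w.count i = 1) → wp (w.map x) = e + adj κ w) →
  Vg L x = c • e + ∑ i : Fin g, ∑ j : Fin g, if E i.val j.val then κ i j else 0

/-- [TBK] The values with a letter twice. Uses WG. PROOF. As TBE: the values of the words are `adj κ w`. (1) `a i i m`: `κ a i + κ i i + κ i (head of m)`; `i m a i`: `κ i (head of m) + κ a i` (pairs without `i` have `κ = 0`).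
(2) `i j i m`: `κ i j + κ j i + κ i (head)`; `i m j i`: `κ i (head) + κ j i`. (3) `m i j i`: `κ (last) i + κ i j + κ j i`; `i j m i`: `κ i j + κ (last) i`. -/
def St_TBK : Prop := ∀ (A : Type) [NonUnitalRing A], N2 A → ∀ (g : ℕ) (x : Fin g → A) (i : Fin g) (κ : Fin g → Fin g → A),
  6 ≤ g → (∀ j k, κ j k ∈ Wg x) → (∀ j k, j ≠ i → k ≠ i → κ j k = 0) →
  (∀ w : List (Fin g), w.count i = 2 → (∀ j, j ≠ i → w.count j = 1) → wp (w.map x) = adj κ w) →
  Vg (Xl g i.val) x = κ i i ∧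
  ∀ j : Fin g, j ≠ i → Vg (Pm g i.val j.val) x = κ i j ∧ Vg (Qm g i.val j.val) x = κ j i

/-- [TBL] The letters. PROOF. Orderings and words which contain all of `0, ..., g - 1` (`headI :: tail` of `(range g).erase i`, which is not empty). -/
def St_TBL : Prop := ∀ (g : ℕ) (B : List (List (ℤ × List ℕ))), 6 ≤ g → Tb2 g B →
  ∀ b ∈ B, ∀ q ∈ b, q.2 ≠ [] ∧ ∀ i, i ∈ q.2 ↔ i < g

end Pool.Agent.CRS
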