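import Pool.Agent.CRS.StF

/-!
Campaign CRS, p = 2: the case in which all products of `g + 1` elements are zero (problem MP_1bb14d_al, stage 7).  Statements of the modules.

Then a good function `f` is a combination of orderings of the letters `0, ..., g - 1`, and it is symmetric.  By `St_K1` its value at `x` is `C e(x) + ∑ a i j κ(x) i j`, where `C` and `a i j` count
the orderings and the adjacent pairs.  The proof works over a field `F` of characteristic 2, with functions of `x` with values in a vector space `V`; the letters are the elements of `Fin g`.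

Every `St_X` is a statement with its proof in the docstring.  A module proves `thm_X : St_Y → ... → St_X` with the hypotheses
which are named in the docstring (drop unused ones).
-/

set_option autoImplicit false

namespace Pool.Agent.CRS

open Pool.Agent.CRR Pool.Agent.CRN Pool.Agent.CRK Pool.Agent.CRL Pool.Agent.CRM Pool.Agent.CRP
open Pool.Agent.CRQ

section dg

variable {F V X : Type} [Field F] [AddCommGroup V] [Module F V] {g : ℕ}

/-- `C e + ∑ a i j κ i j`. -/
def evd (e : X → V) (κ : X → Fin g → Fin g → V) (C : F) (a : Fin g → Fin g → F) (x : X) : V :=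
  C • e x + ∑ i, ∑ j, a i j • κ x i j

/-- The relation between the number of orderings and the number of adjacent pairs. -/
def Pdg (C : F) (a : Fin g → Fin g → F) : Prop :=
  (∀ i, a i i = 0) ∧ ∑ i, ∑ j, a i j = ((g - 1 : ℕ) : F) * C

/-- The setting: characteristic 2, no pairs `i i`, and the permutations of the letters act on the arguments `x`. -/
structure Dgs (F : Type) [Field F] [Module F V] (e : X → V) (κ : X → Fin g → Fin g → V)
    (act : Equiv.Perm (Fin g) → X → X) : Prop where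
  six : 6 ≤ g
  ft : (2 : F) = 0
  kd : ∀ x i, κ x i i = 0
  eqv : ∀ (C : F) (a : Fin g → Fin g → F), Pdg C a → ∀ (σ : Equiv.Perm (Fin g)) (x : X),
    evd e κ C a (act σ x) = evd e κ C (fun i j => a (σ i) (σ j)) x

/-- `(C, a)` gives a symmetric function. -/
def Sdg (e : X → V) (κ : X → Fin g → Fin g → V) (act : Equiv.Perm (Fin g) → X → X) (C : F)
    (a : Fin g → Fin g → F) : Prop :=
  Pdg C a ∧ ∀ (σ : Equiv.Perm (Fin g)) (x : X), evd e κ C a (act σ x) = evd e κ C a x

open Classical in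
/-- The value of the entry of the table with the arcs `E`. -/
noncomputable def tv (e : X → V) (κ : X → Fin g → Fin g → V) (E : ℕ → ℕ → Prop) (c : ℕ) (x : X) : V :=
  c • e x + ∑ i : Fin g, ∑ j : Fin g, if E i.val j.val then κ x i j else 0

/-- The conclusion: a combination of the table entries. -/
def Ccl (e : X → V) (κ : X → Fin g → Fin g → V) (C : F) (a : Fin g → Fin g → F) : Prop :=
  (g % 2 = 0 → ∃ c : Fin 7 → F, ∀ x, evd e κ C a x = c 0 • tv e κ eJ 0 x + c 1 • tv e κ eR 1 x +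
    c 2 • tv e κ eC 1 x + c 3 • tv e κ eD 0 x + c 4 • tv e κ eT (g / 2) x + c 5 • tv e κ eZ 0 x +
    c 6 • tv e κ eY 1 x) ∧
  (g % 2 = 1 → ∃ c : Fin 6 → F, (g % 4 = 3 → c 5 = 0) ∧ ∀ x, evd e κ C a x = c 0 • tv e κ eN 1 x +
    c 1 • tv e κ eJ 0 x + c 2 • tv e κ eR 0 x + c 3 • tv e κ eC 0 x + c 4 • tv e κ eD 0 x +
    c 5 • tv e κ eT 0 x)

end dg

/-- [Rct] Only Mathlib. PROOF. All indices below are different. Write `0` for a fixed index. Put `α 0 = 0`, `β j = κ 0 j` for `j ≠ 0`, `α i = κ i j + κ 0 j` for `i ≠ 0`, where `j ≠ 0, i` is arbitrary (the hypothesis for `p, q, i, j := i, 0, j, j'` says that two choices `j, j'` give the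
same), `β 0 = κ i 0 + α i` for `i ≠ 0`, where `i` is arbitrary: for `i, i'` choose `j ≠ 0, i, i'`; `κ i 0 + α i + κ i' 0 + α i' = κ i 0 + κ i' 0 + κ i j + κ i' j = 0`. Then `κ i j = α i + β j` for all `i ≠ j`. (2) If `κ` is symmetric, `α i + β j = α j + β i`, so
`α i + β i` is the same for all `i`, say `τ`, and `κ i j = α i + α j + τ`. -/
def St_Rct : Prop := ∀ (g : ℕ) (V : Type) [AddCommGroup V], 5 ≤ g → (∀ v : V, v + v = 0) → ∀ κ : Fin g → Fin g → V,
  (∀ p q i j : Fin g, [p, q, i, j].Nodup → κ p i + κ q i + κ p j + κ q j = 0) →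
  (∃ α β : Fin g → V, ∀ i j, i ≠ j → κ i j = α i + β j) ∧
  ((∀ i j, i ≠ j → κ i j = κ j i) → ∃ (γ : Fin g → V) (τ : V), ∀ i j, i ≠ j → κ i j = γ i + γ j + τ)

/-- [Tri] Three cases. PROOF. In `V` we have `v + v = (2 : F) • v = 0`. For different `p, q, i, j` put `r = a p i + a q i + a p j + a q j`, `l = a i p + a j p + a i q + a j q`, `Q x = κ x p i + κ x q i + κ x p j + κ x q j`, `Q' x = κ x i p + κ x i q + κ x j p + κ x j q`.
(1) `r Q x + l Q' x = 0` for all `x`: for `σ = 1, (p q), (i j), (p q)(i j)` we have `evd (a ∘ σ) x = evd a (act σ x) = evd a x`; the sum of the four is zero, and it is `∑ b u v • κ x u v` with `b = ∑ a ∘ σ`: `b u v = r` if `u ∈ {p, q}`, `v ∈ {i, j}`, `b u v = l` if `u ∈ {i, j}`,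
`v ∈ {p, q}`, and `0` otherwise (if `u, v ∉ {p, q}` or `u, v ∉ {i, j}` the four terms cancel in pairs). (2) `Q x = evd 0 m x` with `m u v = 1` for `u ∈ {p, q}`, `v ∈ {i, j}` and `0` otherwise, and `Pdg 0 m` (`4 = 0`). So by `eqv` for different `p', q', i', j'` and `σ` with
`σ p' = p`, ..., `σ j' = j` (extend to a permutation of `Fin g`, e.g. by a product of transpositions or `Equiv.extendSubtype` / `Equiv.Perm.extendDomain`): `Q (act σ x)` is the `Q` of `p', q', i', j'` at `x`; the same for `Q'`. (3) With `σ` exchanging `p` with `i` and `q` with `j`: `r Q' x + l Q x = 0`, so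
`(r + l)^2 Q x = 0`. If `r ≠ l` for some `p, q, i, j`, then `Q = 0`, and by (2) for all `p, q, i, j`: the second case. Otherwise `r = l` always; if all are 0: the first case; if `r = l ≠ 0` for some `p, q, i, j` then `Q + Q' = 0`, by (2) for all: the third case. -/
def St_Tri : Prop := ∀ (F V X : Type) [Field F] [AddCommGroup V] [Module F V] (g : ℕ) (e : X → V) (κ : X → Fin g → Fin g → V)
  (act : Equiv.Perm (Fin g) → X → X) (C : F) (a : Fin g → Fin g → F), Dgs F e κ act → Sdg e κ act C a →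
  (∀ p q i j : Fin g, [p, q, i, j].Nodup → a p i + a q i + a p j + a q j = 0) ∨
  (∀ x, ∀ p q i j : Fin g, [p, q, i, j].Nodup → κ x p i + κ x q i + κ x p j + κ x q j = 0) ∨
  ((∀ p q i j : Fin g, [p, q, i, j].Nodup →
      a p i + a q i + a p j + a q j = a i p + a j p + a i q + a j q) ∧
    ∀ x, ∀ p q i j : Fin g, [p, q, i, j].Nodup →
      κ x p i + κ x q i + κ x p j + κ x q j = κ x i p + κ x i q + κ x j p + κ x j q)

/-- [Czr] First case. Uses Rct (for `V = F`). PROOF. `a i j = s i + t j` for `i ≠ j`. Write `0` for the first letter, `|s| = ∑ s i`, and for a fixed `x`: `O i = ∑ j, κ i j`, `I j = ∑ i, κ i j` (`κ i i = 0`), `J = ∑ O i = ∑ I j`. Then `evd a x = C e + ∑ s i O i + ∑ t j I j`. For `σ = (0 i)`, `i ≠ 0`: `evd (a ∘ σ) x = evd a x` gives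
`(s i + s 0)(O i + O 0) + (t i + t 0)(I i + I 0) = 0`, i.e. `s i (O i + O 0) + t i (I i + I 0) = s 0 (O i + O 0) + t 0 (I i + I 0)` (also for `i = 0`). Sum over `i`: `∑ s i O i + ∑ t i I i = |s| O 0 + |t| I 0 + s 0 (J + g O 0) + t 0 (J + g I 0)`. So
`evd a x = C e + (|s| + g s 0) O 0 + (|t| + g t 0) I 0 + (s 0 + t 0) J`. Here `J = tv eJ 0 x`, `O 0`, `I 0` are the sums over the arcs of `eR`, `eC`. `Pdg`: `(g - 1)(|s| + |t|) = (g - 1) C`. `g` even: `C = |s| + |t|`, `g = 0` in `F`: the coefficients are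
`c = (s 0 + t 0, |s|, |t|, 0, 0, 0, 0)`. `g` odd (`g = 1` in `F`): `c = (C, s 0 + t 0, |s| + s 0, |t| + t 0, 0, 0)`. -/
def St_Czr : Prop := ∀ (F V X : Type) [Field F] [AddCommGroup V] [Module F V] (g : ℕ) (e : X → V) (κ : X → Fin g → Fin g → V)
  (act : Equiv.Perm (Fin g) → X → X) (C : F) (a : Fin g → Fin g → F), Dgs F e κ act → Sdg e κ act C a →
  (∀ p q i j : Fin g, [p, q, i, j].Nodup → a p i + a q i + a p j + a q j = 0) → Ccl e κ C a

/-- [Cor] Second case. Uses Rct (for `κ x`, every `x`). PROOF. For a fixed `x`: `κ i j = α i + β j` for `i ≠ j`. Put `o i = ∑ j, a i j`, `n j = ∑ i, a i j`; `evd a x = C e + ∑ o i α i + ∑ n j β j`, and `∑ o i = ∑ n j = (g - 1) C`. For `σ = (0 i)`: `(o i + o 0)(α i + α 0) + (n i + n 0)(β i + β 0) = 0`, so as in Czr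
`evd a x = C e + (g - 1) C α 0 + (g - 1) C β 0 + o 0 (∑ α i + g α 0) + n 0 (∑ β i + g β 0)`. `g` even: `tv eY 1 x = e + (α 0 + β 1) + (α 2 + β 0) + (α 2 + β 1) = e + α 0 + β 0`; `tv eZ 0 x = ∑_(j ≥ 2) (α 0 + β j) + (α 2 + β 0) + (α 2 + β 1) = ∑ β j` (`g - 2` is even);
`tv eJ 0 x = (g - 1)(∑ α i + ∑ β j) = ∑ α i + ∑ β j`. So `c = (o 0, 0, 0, 0, 0, o 0 + n 0, C)`. `g` odd: `tv eC 0 x = ∑_(i ≠ 0) (α i + β 0) = ∑ α i + α 0`, `tv eR 0 x = ∑ β j + β 0`, `tv eN 1 x = e`: `c = (C, 0, n 0, o 0, 0, 0)`. -/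
def St_Cor : Prop := ∀ (F V X : Type) [Field F] [AddCommGroup V] [Module F V] (g : ℕ) (e : X → V) (κ : X → Fin g → Fin g → V)
  (act : Equiv.Perm (Fin g) → X → X) (C : F) (a : Fin g → Fin g → F), Dgs F e κ act → Sdg e κ act C a →
  (∀ x, ∀ p q i j : Fin g, [p, q, i, j].Nodup → κ x p i + κ x q i + κ x p j + κ x q j = 0) → Ccl e κ C a

/-- [Cta] Third case, preparation. Uses Rct (2) for `h i j = a i j + a j i` over `F`, and for `κ x i j + κ x j i`. PROOF. The hypotheses say that `h` and (for every `x`) `s i j = κ x i j + κ x j i` satisfy the four term relation; they are symmetric. So `h i j = u i + u j + k` for `i ≠ j`, and `s i j = γ i + γ j + τ`.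
Put `S i j = a i j + u j + (k if i < j)` for `i ≠ j`, `S i i = 0`. If `i < j`: `S i j + S j i = h i j + u i + u j + k = 0`. So `S` is symmetric. -/
def St_Cta : Prop := ∀ (F V X : Type) [Field F] [AddCommGroup V] [Module F V] (g : ℕ) (e : X → V) (κ : X → Fin g → Fin g → V)
  (act : Equiv.Perm (Fin g) → X → X) (C : F) (a : Fin g → Fin g → F), Dgs F e κ act → Sdg e κ act C a →
  (∀ p q i j : Fin g, [p, q, i, j].Nodup → a p i + a q i + a p j + a q j = a i p + a j p + a i q + a j q) →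
  (∀ x, ∀ p q i j : Fin g, [p, q, i, j].Nodup →
      κ x p i + κ x q i + κ x p j + κ x q j = κ x i p + κ x i q + κ x j p + κ x j q) →
  ∃ (u : Fin g → F) (k : F) (S : Fin g → Fin g → F), (∀ i, S i i = 0) ∧ (∀ i j, S i j = S j i) ∧
    (∀ i j, i ≠ j → a i j = S i j + u j + (if i < j then k else 0)) ∧
    ∀ x, ∃ (γ : Fin g → V) (τ : V), ∀ i j, i ≠ j → κ x i j + κ x j i = γ i + γ j + τ

/-- [Ctb] Third case, sums. Only Mathlib (`v + v = 0`). PROOF. (1) `∑_(i,j) S i j κ i j = ∑_(i<j) S i j (κ i j + κ j i) = ∑_(i<j) S i j (γ i + γ j + τ) = ∑_i (∑_j S i j) γ i + (∑_(i<j) S i j) τ`. (2) The coefficient `m i j = [σ i < σ j] + [i < j]` is symmetric (`i ≠ j`), and for `σ = (0 t)` it is 1 exactly for the pairs `{0, t}`, `{0, m}`, `{m, t}` with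
`0 < m < t`; so the sum is `(γ 0 + γ t + τ) + ∑_(0<m<t) ((γ 0 + γ m + τ) + (γ m + γ t + τ)) = t (γ 0 + γ t) + τ`. (`k` is a factor in both sums.) -/
def St_Ctb : Prop := ∀ (F V : Type) [Field F] [AddCommGroup V] [Module F V] (g : ℕ) (κ : Fin g → Fin g → V) (γ : Fin g → V) (τ : V),
  6 ≤ g → (2 : F) = 0 → (∀ i, κ i i = 0) → (∀ i j, i ≠ j → κ i j + κ j i = γ i + γ j + τ) →
  (∀ S : Fin g → Fin g → F, (∀ i, S i i = 0) → (∀ i j, S i j = S j i) →
    ∑ i, ∑ j, S i j • κ i j = (∑ i, (∑ j, S i j) • γ i) + (∑ i, ∑ j, if i < j then S i j else 0) • τ) ∧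
  ∀ z t : Fin g, z.val = 0 → t ≠ z →
    (∑ i, ∑ j, if Equiv.swap z t i < Equiv.swap z t j then κ i j else 0) + (∑ i, ∑ j, if i < j then κ i j else 0) =
      t.val • (γ z + γ t) + τ

/-- [Ctc] Third case. Uses Cta, Ctb. PROOF. Fix `x`; `O i`, `I j`, `J` as in Czr, `T = ∑_(i<j) κ i j`, `d i = ∑ j, S i j`, `E = ∑_(i<j) S i j` (so `∑ d i = 2 E = 0`). By Ctb (1) `evd a x = C e + ∑ d i γ i + E τ + ∑ u j I j + k T` (if `i = j` the terms are zero because `κ i i = 0`).
For `σ = (0 t)`, `t ≠ 0`, the data of `a ∘ σ` are `S ∘ σ` (sums `d ∘ σ`, the same `E`), `u ∘ σ` and `k [σ i < σ j]`; so `evd (a ∘ σ) x + evd a x = 0` and Ctb (2) give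
`(d t + d 0)(γ t + γ 0) + (u t + u 0)(I t + I 0) + k (t (γ 0 + γ t) + τ) = 0`. With `d' i = d i + k i` (`i` as an element of `F`): `d' t (γ t + γ 0) + u t (I t + I 0) = d' 0 (γ t + γ 0) + u 0 (I t + I 0) + k τ` for `t ≠ 0`. Sum over `t`, with `Γ = ∑ γ i`:
`∑ d' i γ i + ∑ u i I i = (∑ d' i) γ 0 + (∑ u i) I 0 + d' 0 (Γ + g γ 0) + u 0 (J + g I 0) + (g - 1) k τ`, and `∑ d' i = k (0 + 1 + ... + (g - 1))`. Hence
(*) `evd a x = C e + d 0 (Γ + g γ 0) + k (T + ∑ i γ i + (∑ i) γ 0) + (∑ u i + g u 0) I 0 + u 0 J + (E + (g - 1) k) τ`.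
The table: the sum over the arcs of `eR` and `eC` is `∑_(j≠0) (γ 0 + γ j + τ) = Γ + g γ 0 + (g - 1) τ`, and it is `O 0 + I 0`; `tv eD 0 x = 3 τ = τ`; the sum over the arcs of `eT` is `T + ∑_(i odd) (γ 0 + γ i + τ) = T + ∑ i γ i + (g/2) γ 0 + (g/2) τ`, where `g/2 = g / 2` is the number of odd `i < g`, and
`∑ i = g (g - 1) / 2` has the same parity as `g / 2`. So `evd a x = C e + d 0 (O 0 + I 0) + k (sum over eT) + (∑ u i + g u 0) I 0 + u 0 J + w τ` with `w = E + (g - 1) k + (g - 1) d 0 + (g/2) k`.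
`Pdg`: `∑ a i j = 0 + (g - 1) ∑ u i + k g (g - 1) / 2 = (g - 1) C`. `g` even: `C = ∑ u i + (g/2) k`: `c = (u 0, d 0, d 0 + ∑ u i, w, k, 0, 0)` (`e` occurs with the coefficient `2 d 0 + ∑ u i + (g/2) k`). `g` odd: `0 = k g (g - 1) / 2`, so `k = 0` if `g % 4 = 3`:
`c = (C, u 0, d 0, d 0 + ∑ u i + u 0, w, k)`. -/
def St_Ctc : Prop := ∀ (F V X : Type) [Field F] [AddCommGroup V] [Module F V] (g : ℕ) (e : X → V) (κ : X → Fin g → Fin g → V)
  (act : Equiv.Perm (Fin g) → X → X) (C : F) (a : Fin g → Fin g → F), Dgs F e κ act → Sdg e κ act C a →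
  (∀ p q i j : Fin g, [p, q, i, j].Nodup → a p i + a q i + a p j + a q j = a i p + a j p + a i q + a j q) →
  (∀ x, ∀ p q i j : Fin g, [p, q, i, j].Nodup →
      κ x p i + κ x q i + κ x p j + κ x q j = κ x i p + κ x i q + κ x j p + κ x j q) → Ccl e κ C a

/-- [Unq] Uniqueness of the adjacency formula. PROOF. All letters are different; `R` is a list of the remaining ones (in each case at least one). Compare `a b q R` and `b a q R`: `κ a b + κ b q = κ b a + κ a q` (1). Compare `p a b q R` and `p b a q R`: `κ p a + κ a b + κ b q = κ p b + κ b a + κ a q`, with (1):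
`κ p a = κ p b`. Compare `R p a b` and `R p b a`: `κ p a + κ a b = κ p b + κ b a`, so `κ a b = κ b a`. So `κ i j` is the same for all `i ≠ j` (`κ p a = κ p b`, and `κ a p = κ p a = κ p b = κ b p`), say `z`, and any word gives `δ = (g - 1) z` (`δ + (g - 1) z = 0` and `v + v = 0`). -/
def St_Unq : Prop := ∀ (g : ℕ) (V : Type) [AddCommGroup V], 6 ≤ g → (∀ v : V, v + v = 0) → ∀ (δ : V) (κ : Fin g → Fin g → V),
  (∀ w : List (Fin g), (∀ i, w.count i = 1) → δ + adj κ w = 0) →
  ∃ z : V, (∀ i j, i ≠ j → κ i j = z) ∧ δ = (g - 1) • z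

/-- [Eqv] Equivariance. Uses Unq, WG (part (2), (4)). PROOF. Let `y = x ∘ σ.symm`. For a word `w`: `w.map y = (w.map σ.symm).map x`, so `e y + adj (κ y) w = e x + adj (fun i j => κ x (σ.symm i) (σ.symm j)) w`. By Unq for `δ = e y + e x`, `κ y i j + κ x (σ.symm i) (σ.symm j)` (everything in `V`, `v + v = 0`; `ι` injective) there is `z` with `e y = e x + (g - 1) z`,
`κ y i j = κ x (σ.symm i) (σ.symm j) + z` for `i ≠ j`. So `evd C a y = C e x + ∑ a i j κ x (σ.symm i) (σ.symm j) + ((g - 1) C + ∑ a i j) z`, and the last bracket is `2 (g - 1) C = 0`; put `i = σ i'`, `j = σ j'`. -/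
def St_Eqv : Prop := ∀ (F V A : Type) [Field F] [AddCommGroup V] [Module F V] [NonUnitalRing A] (j : V →+ A) (g : ℕ)
  (e : (Fin g → A) → V) (κ : (Fin g → A) → Fin g → Fin g → V), Function.Injective j → 6 ≤ g → (2 : F) = 0 →
  (∀ x i, κ x i i = 0) →
  (∀ (x : Fin g → A) (w : List (Fin g)), (∀ i, w.count i = 1) → wp (w.map x) = j (e x) + adj (fun p q => j (κ x p q)) w) →
  Dgs F e κ (fun σ x => x ∘ σ.symm)

/-- [Brg] The field. Uses K0. PROOF. `I = {c : K | ∀ x : A, ∃ y, c • x = 2 • y}` is an ideal. `F = K ⧸ I` with the quotient map: by `fld` every `c ∉ I` has `d` with `d • c • x - x = 2 • y`, so `d c - 1 ∈ I`; and `1 ∉ I` (otherwise `A = 2 A = 4 A = ... = 0`): `F` is a field (`IsField.toField`), `2 = 0` in `F`. `V` is the `K`-submodule of `A` which is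
spanned by the products `wp l` of at least 6 elements, `j` the inclusion. `I` acts by zero on `V`: `c • (x * wp l) = (c • x) * wp l = 2 • (y * wp l) = 0` (`l` has at least 5 elements; K0). So `V` is a module over `K ⧸ I` (`Module.IsTorsionBySet.module`). -/
def St_Brg : Prop := St_K0 → ∀ (K : Type) [CommRing K] (A : Type) [NonUnitalRing A] [Module K A] [IsScalarTower K A A]
  [SMulCommClass K A A] (M H : AddSubgroup A), Kst K 2 M H → (∃ x : A, x ≠ 0) →
  ∃ (F : Type) (_ : Field F) (V : Type) (_ : AddCommGroup V) (_ : Module F V) (π : K →+* F) (j : V →+ A),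
    Function.Surjective π ∧ Function.Injective j ∧ (2 : F) = 0 ∧ (∀ (c : K) (v : V), j (π c • v) = c • j v) ∧
    ∀ l : List A, 6 ≤ l.length → ∃ v, j v = wp l

/-- [Mlf] The function of a list of words. PROOF. Words with exactly the letters `0, ..., g - 1` have length at least `g`; those of length `> g` have the value 0, those of length `g` are permutations of `List.range g`, i.e. (as words over `Fin g`) words `w` with `w.count i = 1` for all `i`, and `wp (q.2.map (xs x)) = wp (w.map x) = j (e x) + adj (j ∘ κ x) w`.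
Put `C = ∑ π q.1` and `a p q = ∑ π q.1 * (how often the pair p q occurs in w)`, the sums over the words of length `g` in the list. Every such word has no pairs `i i` and `g - 1` adjacent pairs: `Pdg`. (`adj κ w = ∑ p, ∑ q, (number of pairs p q in w) • κ p q`.) -/
def St_Mlf : Prop := ∀ (K : Type) [CommRing K] (A : Type) [NonUnitalRing A] [Module K A] (F V : Type) [Field F] [AddCommGroup V]
  [Module F V] (π : K →+* F) (j : V →+ A) (g : ℕ) (e : (Fin g → A) → V) (κ : (Fin g → A) → Fin g → Fin g → V)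
  (f : (Fin g → A) → A), 6 ≤ g → (∀ (c : K) (v : V), j (π c • v) = c • j v) →
  (∀ (x : Fin g → A) (w : List (Fin g)), (∀ i, w.count i = 1) → wp (w.map x) = j (e x) + adj (fun p q => j (κ x p q)) w) →
  (∀ l : List A, g + 1 ≤ l.length → wp l = 0) → Wf K g f →
  ∃ (C : F) (a : Fin g → Fin g → F), Pdg C a ∧ ∀ x, f x = j (evd e κ C a x)

/-- [Sym] Good multilinear functions are symmetric. PROOF. (a) `f` is additive in every argument (all words of length `> g` are zero, the others contain every letter once): enough for `f (x + single i u + single j u)`. (b) `f x = 0` if `x p = x q`, `p ≠ q` (`dep` with the coefficients `1, -1` at `p, q`; `1` acts invertibly: `Ku` with `d = 1`, `y = 0`).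
(c) `f` of the argument with `x p + x q` at both places `p, q` is zero; expand: `f x + f (x ∘ swap p q) = 0`; the values are killed by 2 (`val`, `h0`), so `f (x ∘ swap p q) = f x`; permutations are products of transpositions (`Equiv.Perm.swap_induction_on`). -/
def St_Sym : Prop := ∀ (K : Type) [CommRing K] (A : Type) [NonUnitalRing A] [Module K A] [IsScalarTower K A A]
  [SMulCommClass K A A] (M H : AddSubgroup A) (g : ℕ) (f : (Fin g → A) → A), 6 ≤ g → Kst K 2 M H →
  (∀ l : List A, g + 1 ≤ l.length → wp l = 0) → Wf K g f → Good K 2 M H g f →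
  ∀ (σ : Equiv.Perm (Fin g)) (x : Fin g → A), f (x ∘ σ) = f x

/-- [TwC] The case `A^(g+1) = 0`. Uses K0, K1, WG, TBX, TBE, Tri, Czr, Cor, Ctc, Eqv, Brg, Mlf, Sym. PROOF. `A ≠ 0` by `ne`. Brg gives `F, V, π, j`. For every `x : Fin g → A` K1 (`N2 A` from `Kst`) gives `e x`, `κ x` in `Wg x`, and `Wg x` is contained in the image of `j`; replace `κ x i i` by 0 (no
pairs `i i` in words with `count = 1`). Eqv: `Dgs`. Mlf: `f x = j (evd e κ C a x)`; Sym: `Sdg` (`j` injective; `x ∘ σ.symm`). Tri, Czr, Cor, Ctc: `Ccl`. Let `g` be even, `c` the coefficients; choose `c'` in `K` with `π c' = c`, and `J, R, C, D, T, Z, Y` from TBX. By TBE `Vg J x = j (tv e κ eJ 0 x)`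
and so on (`tv` is the same sum in `V`), so `f x = Kc [c' 0, ..., c' 6] [J, R, C, D, T, Z, Y] x` for all `x`, i.e. `f = Kc ...`, which is good. `g` odd: the same with `[N, J, R, C, D, T]`; if `g % 4 = 3` put `T = []` (`Vg [] x = 0`, and `c 5 = 0`). -/
def St_TwC : Prop := ∀ (K : Type) [CommRing K] (A : Type) [NonUnitalRing A] [Module K A] [IsScalarTower K A A]
  [SMulCommClass K A A] (M H : AddSubgroup A) (g : ℕ) (f : (Fin g → A) → A), Kst K 2 M H → 6 ≤ g →
  (∀ l : List A, g + 1 ≤ l.length → wp l = 0) → Wf K g f → Good K 2 M H g f →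
  ∃ (B : List (List (ℤ × List ℕ))) (c : List K), Tb2 g B ∧ c.length = B.length ∧ Good K 2 M H g (Kc c B)

end Pool.Agent.CRS
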