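import Pool.Agent.CRS.StC

/-!
Campaign CRS, p = 3: homogeneous functions (problem MP_1bb14d_al, stage 7), and products of six elements (K0, `Jk0`).
Frozen statements of the modules.

Every module `Pool/Agent/CRS/<X>.lean` for a statement of this file imports this file (and what it needs from the older
campaigns, `import Pool.Agent.CRQ.All` gives everything, e.g. `CRM.fle`) and proves `theorem thm_<X> : St_<X>`, or
`theorem thm_<X> (hY : St_Y) ... : St_<X>` if the docstring says (from `St_Y`); the names of all other declarations of the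
module start with `<X>_`.

The main statement is `St_Hom`: if `p = 3` there is a good function which is a combination of words in which every letter occurs
a fixed number of times (`a` letters three times, `b` letters twice, `c` letters once) and which is symmetric in the letters
which occur twice and antisymmetric in those which occur once.
-/

set_option autoImplicit false

namespace Pool.Agent.CRS

open Pool.Agent.CRR Pool.Agent.CRN Pool.Agent.CRK Pool.Agent.CRL Pool.Agent.CRM Pool.Agent.CRP
open Pool.Agent.CRQ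

section hdefs

/-- The value of a combination of words. -/
def Lv {K : Type} [CommRing K] {A : Type} [NonUnitalRing A] [Module K A] {ι : Type}
    (L : List (K × List ι)) (x : ι → A) : A := (L.map fun q => q.1 • wp (q.2.map x)).sum

/-- The words which one gets from `w` if one letter `j` is replaced by `i`. -/
def dw {ι : Type} [DecidableEq ι] (j i : ι) : List ι → List (List ι)
  | [] => []
  | a :: w => (if a = j then [i :: w] else []) ++ (dw j i w).map (fun v => a :: v)

/-- The sum of the `φ v` for these words `v`. -/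
def Dd {ι : Type} [DecidableEq ι] {B : Type} [AddCommMonoid B] (j i : ι) (φ : List ι → B)
    (w : List ι) : B := ((dw j i w).map φ).sum

/-- `Good` without its last condition (so `Good` is `Gd` and `∃ x, f x ≠ 0`). -/
structure Gd (K : Type) [CommRing K] {A : Type} [NonUnitalRing A] [Module K A] (p : ℕ)
    (M H : AddSubgroup A) (g : ℕ) (f : (Fin g → A) → A) : Prop where
  val : ∀ x, f x ∈ H
  inv : ∀ x y : Fin g → A, (∀ i, x i - y i ∈ M) → f x = f y
  dep : ∀ (x : Fin g → A) (c : Fin g → K) (j : Fin g), Ku K A p (c j) → ∑ i, c i • x i ∈ M → f x = 0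

/-- The multiplicities `(3^a, 2^b, 1^c)`. -/
def Dg (a b c i : ℕ) : ℕ := if i < a then 3 else if i < a + b then 2 else if i < a + b + c then 1 else 0

/-- For `g ≥ 2` the products of `3 g + 1` elements are zero, and those of `3 g` elements, three of them in `M` (for `KTg`: `Mu M`). -/
structure Tp3 {A : Type} [NonUnitalRing A] (M : AddSubgroup A) (g : ℕ) : Prop where
  top : 2 ≤ g → ∀ l : List A, 3 * g + 1 ≤ l.length → wp l = 0
  mu : 2 ≤ g → ∀ m₁ ∈ M, ∀ m₂ ∈ M, ∀ m₃ ∈ M, ∀ l₁ l₂ l₃ l₄ : List A,
    l₁.length + l₂.length + l₃.length + l₄.length + 3 = 3 * g →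
    wp (l₁ ++ m₁ :: (l₂ ++ m₂ :: (l₃ ++ m₃ :: l₄))) = 0

/-- `f = Lv L` is good and every letter `i` occurs `D i` times in every word of `L`, `1 ≤ D i ≤ 3`. -/
structure HomG (K : Type) [CommRing K] {A : Type} [NonUnitalRing A] [Module K A] (M H : AddSubgroup A)
    (g : ℕ) (L : List (K × List (Fin g))) (D : Fin g → ℕ) : Prop where
  cnt : ∀ q ∈ L, ∀ i, q.2.count i = D i
  D3 : ∀ i, D i = 1 ∨ D i = 2 ∨ D i = 3
  good : Good K 3 M H g (Lv L : (Fin g → A) → A)

end hdefs

/-! ### Words -/

/-- **DWX.**  PROOF.  (1) induction on `w`.  (2) `Dd j i φ (a :: w) = (if a = j then φ (i :: w) else 0) + Dd j i (fun v => φ (a :: v)) w` and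
`Dd` is additive in `φ`.  Induction on `w`, for all `φ`; with `φ_a v = φ (a :: v)`:
`Dd j i (Dd i j φ) (a :: w) = [a = j] (φ (j :: w) + Dd i j φ_i w) + [a = i] Dd j i φ_j w + Dd j i (Dd i j φ_a) w` and
`Dd i j (Dd j i φ) (a :: w) = [a = i] (φ (i :: w) + Dd j i φ_j w) + [a = j] Dd i j φ_i w + Dd i j (Dd j i φ_a) w`. -/
def St_Dwx : Prop := ∀ (ι : Type) [DecidableEq ι] (i j : ι), i ≠ j → ∀ w : List ι,
  (∀ v ∈ dw j i w, v.length = w.length ∧ v.count j + 1 = w.count j ∧ v.count i = w.count i + 1 ∧
    ∀ l, l ≠ i → l ≠ j → v.count l = w.count l) ∧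
  ∀ (B : Type) [AddCommMonoid B] (φ : List ι → B),
    Dd j i (Dd i j φ) w + w.count i • φ w = Dd i j (Dd j i φ) w + w.count j • φ w

/-- **EXL.**  PROOF.  (1), (2), (3): induction on `w` (`wp (a :: l) = a * wp l` for `l ≠ []`: `CRK.Gdc_wp_cons`, `CRM.Dop_wp_cons`).  (4), (5), (6): for `w ≠ []` `wp (w.map x)` is
the product of the list `w.map x` in the ring `B = Unitization ℤ A`, `x' = x` with values in `B`.  Define `e_0 w = (w.map x').prod`, `e_(k+1) [] = 0`,
`e_(k+1) (a :: w) = (if a = j then x'_i * e_k w else 0) + x'_a * e_(k+1) w`.  Induction on `w`: `e_k w = 0` for `k > w.count j`; `e_k w` is the product of `w.map (update x j (x i))` for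
`k = w.count j`; `e_1 w` is `Dd j i (fun v => (v.map x').prod) w`; the product of `w.map (update x j (x j + c • x i))`, `c : ℤ`, is `∑_(k < n) c^k • e_k w` for every `n > w.count j`.  Take
`c = 1`, `c = -1` and `n = 4`. -/
def St_Exl : Prop := ∀ (K : Type) [CommRing K] (A : Type) [NonUnitalRing A] [Module K A]
  [IsScalarTower K A A] [SMulCommClass K A A] (ι : Type) [DecidableEq ι] (x : ι → A) (w : List ι) (j : ι),
  (∀ c : K, wp (w.map (Function.update x j (c • x j))) = c ^ w.count j • wp (w.map x)) ∧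
  (∀ y, w.count j = 0 → wp (w.map (Function.update x j y)) = wp (w.map x)) ∧
  (∀ y z, w.count j = 1 → wp (w.map (Function.update x j (y + z))) =
    wp (w.map (Function.update x j y)) + wp (w.map (Function.update x j z))) ∧
  ∀ i, i ≠ j →
    (w.count j = 1 → Dd j i (fun v => wp (v.map x)) w = wp (w.map (Function.update x j (x i)))) ∧
    (w.count j ≤ 3 → wp (w.map (Function.update x j (x j + x i))) -
        wp (w.map (Function.update x j (x j - x i))) = 2 • Dd j i (fun v => wp (v.map x)) w +
        if w.count j = 3 then 2 • wp (w.map (Function.update x j (x i))) else 0) ∧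
    (w.count j = 2 → wp (w.map (Function.update x j (x j + x i))) = wp (w.map x) +
      Dd j i (fun v => wp (v.map x)) w + wp (w.map (Function.update x j (x i))))

/-- **QFO.**  PROOF.  (1) `w.map x = (w.map Fin.val).map (xs x)`; `CRM.fle` (1).  (2) `w.map (update x j (x i)) = (w.map τ).map x`, `τ j = i`, `τ l = l` otherwise, and (1).
(3) `2 (u u v + u v u + v u u) = 0` for all `u, v`: `(u + v)^3 = 0` and `(u - v)^3 = 0`; so
`u u v + u v u + v u u = 0` as the order of the elements is odd.  Let `A'` be the ring of the upper triangular `2 × 2`-matrices `(a, b)` over `A` with equal diagonal entries `a` (a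
`NonUnitalSubring` of `Matrix (Fin 2) (Fin 2) A`, or define it directly: pairs with `(a, b) (c, d) = (a c, a d + b c)`).  `(a, b)^3 = (a^3, a a b + a b a + b a a) = 0`.  Apply (1) for `A'`
to the elements `X l = (x l, 0)` for `l ≠ j` and `X j = (x j, x i)`: the product of `w.map X`, `w ≠ []`, is `(wp (w.map x), Dd j i (fun v => wp (v.map x)) w)` (induction on `w`). -/
def St_Qfo : Prop := ∀ (A : Type) [NonUnitalRing A], (∀ x : A, x * x * x = 0) →
  ∀ (g : ℕ) (x : Fin g → A) (w : List (Fin g)) (j : Fin g),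
  (4 ≤ w.count j → wp (w.map x) = 0) ∧
  ∀ i, i ≠ j → (4 ≤ w.count i + w.count j → wp (w.map (Function.update x j (x i))) = 0) ∧
    ((∃ r : ℕ, ∀ y : A, (3 ^ r) • y = 0) → 4 ≤ w.count j → Dd j i (fun v => wp (v.map x)) w = 0)

/-! ### Functions with the properties of good functions -/

/-- **GDC.**  PROOF.  (3) `inv`: `M` is closed under `K`.  `dep`: let `∑ c_l x_l ∈ M`, `c_s` invertible modulo 3 (`Ku`), `z = update x j (x j + c • x i)`.  Put `c'_i = c_i - c c_j`, `c'_l = c_l` for
`l ≠ i`.  Then `∑ c'_l z_l = ∑ c_l x_l ∈ M`.  If `s ≠ i` then `c'_s = c_s`.  If `s = i` and `Ku c_j` then `c'_j = c_j` is `Ku`; otherwise `c_j • x ∈ 3 A` for all `x` (`Kst.fld`), so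
`d • c'_i • x - x = (d • c_i • x - x) - d • c • c_j • x ∈ 3 A`: `Ku c'_i`.  (4) the same with `c'_j = - c_j`.  (5) `∑ c_l x_l` is permuted.  (6) `3^s A = 0`, `u 2^k ≡ 1` modulo `3^s`:
`f x = u • (2^k • f x)`; `H` is a subgroup. -/
def St_Gdc : Prop := ∀ (K : Type) [CommRing K] (A : Type) [NonUnitalRing A] [Module K A]
  [IsScalarTower K A A] [SMulCommClass K A A] (M H : AddSubgroup A), Kst K 3 M H → ∀ g : ℕ,
  Gd K 3 M H g (fun _ => 0) ∧
  (∀ f f' : (Fin g → A) → A, Gd K 3 M H g f → Gd K 3 M H g f' →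
    Gd K 3 M H g (fun x => f x + f' x) ∧ Gd K 3 M H g (fun x => f x - f' x)) ∧
  ∀ f : (Fin g → A) → A, Gd K 3 M H g f →
    (∀ c : K, Gd K 3 M H g (fun x => c • f x)) ∧
    (∀ (i j : Fin g) (c : K), i ≠ j → Gd K 3 M H g (fun x => f (Function.update x j (x j + c • x i)))) ∧
    (∀ j : Fin g, Gd K 3 M H g (fun x => f (Function.update x j (-(x j))))) ∧
    (∀ σ : Equiv.Perm (Fin g), Gd K 3 M H g (fun x => f (fun i => x (σ i)))) ∧
    ∀ (k : ℕ) (h : (Fin g → A) → A), (∀ x, f x = (2 ^ k) • h x) → Gd K 3 M H g h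

/-- **PAR** (from `St_Gdc`, `St_Exl`).  PROOF.  (1) induction on `L`.  (2) By (1) `f = e + o`, `e` the even part; by `St_Exl` (1) with `c = -1` `f (update x j (-(x j))) = e x - o x`.  So
`f x - f (update x j (-(x j))) = 2 • o x`; `St_Gdc`. -/
def St_Par : Prop := ∀ (K : Type) [CommRing K] (A : Type) [NonUnitalRing A] [Module K A]
  [IsScalarTower K A A] [SMulCommClass K A A] (M H : AddSubgroup A), Kst K 3 M H → ∀ (g : ℕ)
  (L : List (K × List (Fin g))),
  (∀ (P : K × List (Fin g) → Bool) (x : Fin g → A),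
    Lv L x = Lv (L.filter P) x + Lv (L.filter fun q => !P q) x) ∧
  (Gd K 3 M H g (Lv L) → ∀ j : Fin g,
    Gd K 3 M H g (Lv (L.filter fun q => decide (Odd (q.2.count j)))))

/-- **SEP** (from `St_Gdc`, `St_Exl`, `St_Qfo`, `St_Dwx`, `St_Par`).  The separation of the letters with one and with three occurrences.  PROOF.  For a function `h` put
`G h x = h (update x j (x j + x i)) - h (update x j (x j - x i))`, `G' h x = h (update x i (x i + x j)) - h (update x i (x i - x j))`; `Gd` is kept (`St_Gdc`).  Let `f = Lv L`,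
`L₁`, `L₃` the words of `L` with `count j = 1`, `= 3`.  Let `x[i] = update x j (x i)`.  (a) `Lv L x[i] = 0`: `dep` with the coefficients `1` at `j`, `-1` at `i`.  `Lv L₃ x[i] = 0`: `St_Qfo` (2).  So `Lv L₁ x[i] = 0`.
(b) `G (Lv L₁) = 0`: `St_Exl` (5), (4) give `2 Lv L₁ x[i]`.  (c) `G (Lv L₃) x` is the sum of the `2 q.1 • Dd j i V q.2`, `q ∈ L₃`, `V v = wp (v.map x)` (`St_Exl` (5), `St_Qfo` (2)).
For `count i q.2 = 3` this is zero (`St_Dwx` (1), `St_Qfo` (1)).  (d) If `w.count j = 3`, `w.count i = n ≤ 2` then for `v` in `dw j i w` `v.count i = n + 1 ≤ 3`, `v.count j = 2`,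
so `G'` of the function `x ↦ V v` is `2 Dd i j V v + 2 V` of a word in which `j` occurs 5 times (0) or the same without the last summand.  So `G' G (x ↦ V w) = 4 Dd j i (Dd i j V) w =
4 (3 - n) V w + 4 Dd i j (Dd j i V) w` (`St_Dwx` (2)) and the last summand is zero: for `v` in `dw i j w` `v.count j = 4`, `St_Qfo` (3) (if `n = 0`: not needed).
(e) So `G' G f = 8 Lv (words with count j = 3, count i = 1) + 4 Lv (words with count j = 3, count i = 2)`; in case (1) the first, in case (2) the second summand is missing; `St_Gdc` (last part). -/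
def St_Sep : Prop := ∀ (K : Type) [CommRing K] (A : Type) [NonUnitalRing A] [Module K A]
  [IsScalarTower K A A] [SMulCommClass K A A] (M H : AddSubgroup A), Kst K 3 M H → ∀ (g : ℕ)
  (L : List (K × List (Fin g))) (i j : Fin g), i ≠ j → Gd K 3 M H g (Lv L) →
  (∀ q ∈ L, q.2.count j = 1 ∨ q.2.count j = 3) →
  ((∀ q ∈ L, q.2.count i = 2) → Gd K 3 M H g (Lv (L.filter fun q => decide (q.2.count j = 3)))) ∧
  ((∀ q ∈ L, q.2.count i = 1 ∨ q.2.count i = 3) →
    Gd K 3 M H g (Lv (L.filter fun q => decide (q.2.count j = 3 ∧ q.2.count i = 1))))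

/-- **TOP** (from `St_Qfo`, `St_Exl`, `Jk0`).  PROOF.  Let `f = Lv L`, `f_1`, `f_3` the parts with the words in which all letters occur once, three times; `f = f_1 + f_3` (the filter gives `f_3`).
`val`: `Kst.h1`: `3 • wp (..) = 0` by `Jk0` (length `3 g ≥ 6`), products with one more factor are zero (`Tp3.top`); multiples with `K`.  `inv`: it is enough to show
`f_3 (update x j (x j + m)) = f_3 x` for `m ∈ M` (change the arguments one by one).  Since `f` is invariant and `f_1` additive in the argument `j` (`St_Exl` (3)),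
`f_1 (update x j m) + f_3 (update x j (x j + m)) - f_3 x = 0` for all `x`.  For `x j = 0` this is `f_1 (update x j m) + f_3 (update x j m) = 0` (`f_3 (update x j 0) = 0`), and `f_3 (update x j m) = 0` by
`Tp3.mu` (`w = u₁ ++ j :: (u₂ ++ j :: (u₃ ++ j :: u₄))` for every word of `f_3`); so `f_1 (update x j m) = 0`.
`dep`: `∑ c_l x_l ∈ M`, `Ku c_j` with `d`: `x_j - y ∈ M` for `y = - ∑_(l ≠ j) (d c_l) x_l` (`3 A ⊆ M`).  By `inv` `x_j = y` may be assumed, so `x_j` is a combination of the `x_l`, `l ≠ j`.  Claim: if `p`, `s` are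
words, `j` does not occur in `p`, every `l ≠ j` occurs at least 3 times in `p ++ s` and (`j` occurs in `s` or some `l ≠ j` occurs at least 4 times in `p ++ s`) then
`wp ((p ++ s).map x) = 0`.  Induction on `s` (for all `p`): `s = []`: `St_Qfo` (1).  `s = a :: s'`, `a ≠ j`: `p ++ [a]`, `s'`.  `a = j`: by linearity it is a combination of the same with
`p ++ [l]`, `s'`, `l ≠ j`, and now `l` occurs at least 4 times. -/
def St_Top : Prop := ∀ (K : Type) [CommRing K] (A : Type) [NonUnitalRing A] [Module K A]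
  [IsScalarTower K A A] [SMulCommClass K A A] (M H : AddSubgroup A), Kst K 3 M H → ∀ g : ℕ, 2 ≤ g →
  Tp3 M g → ∀ L : List (K × List (Fin g)), Gd K 3 M H g (Lv L) →
  (∀ q ∈ L, (∀ i, q.2.count i = 1) ∨ ∀ i, q.2.count i = 3) →
  Gd K 3 M H g (Lv (L.filter fun q => decide (∀ i, q.2.count i = 3)))

/-! ### Homogeneous good functions -/

/-- **HMN** (from `St_Qfo`, `St_Gdc`, `St_Par`, `St_Sep`, `St_Top`).  PROOF.  Call a list `L` of words in `Fin g` admissible if all letters occur once, twice or three times in all words of `L`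
and `Good (Lv L)`.  There is an admissible list: take the words of `f` (`Wf`) in which all letters occur at most three times (the other ones have the value 0: `St_Qfo` (1) or `CRM.fle`), as
words in `Fin g` (`g ≠ 0`: otherwise there are no words and `f = 0`).  Let `L` be an admissible list of minimal length.  Call `P : K × List (Fin g) → Bool` separating if `Gd (Lv (L.filter P))`.  Then also
`Gd (Lv (L.filter (!P)))` (`St_Par` (1), `St_Gdc`), and one of the two functions is not zero; so one of the two lists is admissible, and by minimality it is `L`: `P` is constant on `L`.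
(a) The parity of `count j` is constant for every `j` (`St_Par` (2)).  (b) If `count j` is odd and `count i = 2` (for all words of `L`) then `count j` is constant (`St_Sep` (1)).  (c) If `count i`, `count j` are odd, `i ≠ j`,
then `count j = 3 ∧ count i = 1` is constant (`St_Sep` (2)).  If there is a letter with `count = 2`: all counts are constant by (a), (b).  Otherwise all counts are odd.  If some word has `count j = 3`,
`count i = 1` for some `i`, `j`, then all words do, and for every `k ≠ i` `count k = 3 ∧ count i = 1` is constant, so `count k` is constant.  Otherwise in every word all letters occur once or all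
letters occur three times.  The property that all letters occur three times is separating: `St_Top` for `g ≥ 2`; for `g = 1` the only such word is `[0, 0, 0]` with the value `x x x = 0`, so
`Lv (L.filter P) = 0`.  So it is constant.  In all cases let `D i = w.count i` for the first word `w` of `L` (`L ≠ []` as `Lv L ≠ 0`). -/
def St_Hmn : Prop := ∀ (K : Type) [CommRing K] (A : Type) [NonUnitalRing A] [Module K A]
  [IsScalarTower K A A] [SMulCommClass K A A] (M H : AddSubgroup A) (g : ℕ) (f : (Fin g → A) → A),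
  Kst K 3 M H → Tp3 M g → Wf K g f → Good K 3 M H g f →
  ∃ (L : List (K × List (Fin g))) (D : Fin g → ℕ), HomG K (A := A) M H g L D

/-- **HMX** (from `St_Qfo`, `St_Dwx`, `St_Exl`, `St_Gdc`).  PROOF.  Take `L`, `D` with `HomG` and the maximal number `a ≤ g` of letters with `D i = 3`.  Let `D i = D j = 2`, `i ≠ j`,
`h x = Lv L (update x j (x j + x i)) - Lv L x`.  `Gd h` (`St_Gdc`, `c = 1`).  By `St_Exl` (6) and `St_Qfo` (2) `h = Lv L'`, `L' = L.flatMap fun q => (dw j i q.2).map fun v => (q.1, v)`; in the words of `L'` the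
letter `i` occurs three times, `j` once, the other ones `l` `D l` times (`St_Dwx` (1)).  So if `h x ≠ 0` for some `x` then `HomG L' D'` with more letters with `D' i = 3`, a contradiction. -/
def St_Hmx : Prop := ∀ (K : Type) [CommRing K] (A : Type) [NonUnitalRing A] [Module K A]
  [IsScalarTower K A A] [SMulCommClass K A A] (M H : AddSubgroup A) (g : ℕ), Kst K 3 M H →
  (∃ (L : List (K × List (Fin g))) (D : Fin g → ℕ), HomG K (A := A) M H g L D) →
  ∃ (L : List (K × List (Fin g))) (D : Fin g → ℕ), HomG K (A := A) M H g L D ∧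
    ∀ i j, i ≠ j → D i = 2 → D j = 2 → ∀ x : Fin g → A,
      Lv L (Function.update x j (x j + x i)) = Lv L x

/-- **HSW** (from `St_Exl`).  PROOF.  (1) Let `f = Lv L`, write `f(u, v)` for the value with `u` as the argument `i` and `v` as the argument `j`.  `f(u, v + u) = f(u, v)` and `f(u + v, v) = f(u, v)` for all `u, v`; so
`f(u, v) = f(u, u + v) = f(u - (u + v), u + v) = f(-v, u + v) = f(-v, (u + v) - v) = f(-v, u)` (use `f(u', v') = f(u' - v', v')` and `f(u', v') = f(u', v' + u')`), and `f(-v, u) = f(v, u)` (`St_Exl` (1), `c = -1`,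
`count i = 2`).  (2) `f(u, u) = 0` for all `u`: `dep` with the coefficients `1` at `j` and `-1` at `i` (`Ku K A 3 1`).  `f` is additive in both arguments (`St_Exl` (3)):
`0 = f(u + v, u + v) = f(u, v) + f(v, u)`. -/
def St_Hsw : Prop := ∀ (K : Type) [CommRing K] (A : Type) [NonUnitalRing A] [Module K A]
  [IsScalarTower K A A] [SMulCommClass K A A] (M H : AddSubgroup A) (g : ℕ)
  (L : List (K × List (Fin g))) (D : Fin g → ℕ), HomG K (A := A) M H g L D → ∀ i j, i ≠ j →
  (D i = 2 → D j = 2 →
    (∀ x : Fin g → A, Lv L (Function.update x j (x j + x i)) = Lv L x) →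
    (∀ x : Fin g → A, Lv L (Function.update x i (x i + x j)) = Lv L x) →
    ∀ x : Fin g → A, Lv L (fun l => x (Equiv.swap i j l)) = Lv L x) ∧
  (D i = 1 → D j = 1 → ∀ x : Fin g → A, Lv L (fun l => x (Equiv.swap i j l)) = -Lv L x)

/-- **HOM** (from `St_Hmn`, `St_Hmx`, `St_Hsw`, `St_Gdc`).  PROOF.  `L`, `D` from `St_Hmn`, `St_Hmx`, `St_Hsw`.  Let `σ` be a permutation of `Fin g` such that `D ∘ σ` is decreasing (`Tuple.sort`), `a`, `b`, `c` the
numbers of letters with `D i = 3, 2, 1`; so `a + b + c = g` and `D (σ i) = Dg a b c i`.  `L'`: the words `q.2.map (fun i => ((σ.symm i : Fin g) : ℕ))`.  `Lv L' (xs x) = Lv L (fun i => x (σ.symm i))`, `Good` by `St_Gdc`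
(and `ne`: take `x ∘ σ`); `(w.map σ.symm).count i = w.count (σ i)`.  The symmetries: `fun l => x (swap i j (σ.symm l))` is `x ∘ σ.symm ∘ swap (σ i) (σ j)`. -/
def St_Hom : Prop := ∀ (K : Type) [CommRing K] (A : Type) [NonUnitalRing A] [Module K A]
  [IsScalarTower K A A] [SMulCommClass K A A] (M H : AddSubgroup A) (g : ℕ) (f : (Fin g → A) → A),
  Kst K 3 M H → Tp3 M g → Wf K g f → Good K 3 M H g f →
  ∃ (a b c : ℕ) (L : List (K × List ℕ)), a + b + c = g ∧ (∀ q ∈ L, ∀ i, q.2.count i = Dg a b c i) ∧
    Good K 3 M H g (fun x => Lv L (xs x)) ∧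
    (∀ i j : Fin g, i ≠ j → a ≤ i.val → i.val < a + b → a ≤ j.val → j.val < a + b →
      ∀ x : Fin g → A, Lv L (xs (fun l => x (Equiv.swap i j l))) = Lv L (xs x)) ∧
    ∀ i j : Fin g, i ≠ j → a + b ≤ i.val → a + b ≤ j.val →
      ∀ x : Fin g → A, Lv L (xs (fun l => x (Equiv.swap i j l))) = -Lv L (xs x)

/-! ### Part K: products of six elements (helper12 proves these) -/

/-- **KZA.**  `6 F` is alternating and `36 F = 0`, `F(a, b, c, d, e, f) = a b c d e f`.  PROOF.  `S(x, y, z)`, the sum of the six products of `x, y, z`, is 0.  Let `x ∘ y = x y + y x`.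
`3 (x ∘ u) z (y ∘ v) = S(x, u, z) (y ∘ v) + S(x, u, z y) v + S(x, u, z v) y + S(x, u, z (y ∘ v)) - x z S(u, y, v) - u z S(x, y, v) - z S(x ∘ u, y, v) = 0`.
`2 a b c = a b ∘ c - (a ∘ c) b + a (b ∘ c)`, so `6 (x ∘ y) z a b c = 0` and in the same way `6 a b c z (x ∘ y) = 0`.  `6 a (x ∘ u) d e f = 0`: `a S(x, u, d e f) = 0` and the two
exchanges of the first two factors give `6 a (x ∘ u) d e f = - 6 (a x d e f u + a u d e f x) = 6 (x a d e f u + u a d e f x)`, and this is minus the rest of `6 S(x, u, a d e f)`, where the terms `6 (x u + u x) a d e f`, `6 a d e f (x u + u x)` are 0;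
`6 a b c (x ∘ u) d = 0` is the mirror image.  `a b S(x, u, e f) = 0`: `6 a b (x ∘ u) e f = - 6 (a b x e f u + a b u e f x)`; move `x` and `u` to the front.  `36 F = 6 S(a b, c d, e f)`. -/
def St_Kza : Prop := ∀ (A : Type) [NonUnitalRing A], (∀ x : A, x * x * x = 0) → ∀ a b c d e f : A,
  6 • (a * b * c * d * e * f) + 6 • (b * a * c * d * e * f) = 0 ∧
  6 • (a * b * c * d * e * f) + 6 • (a * c * b * d * e * f) = 0 ∧
  6 • (a * b * c * d * e * f) + 6 • (a * b * d * c * e * f) = 0 ∧
  6 • (a * b * c * d * e * f) + 6 • (a * b * c * e * d * f) = 0 ∧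
  6 • (a * b * c * d * e * f) + 6 • (a * b * c * d * f * e) = 0 ∧
  36 • (a * b * c * d * e * f) = 0

/-- **KZB** (from `St_Kza`).  PROOF.  `2` is invertible, so `G = 3 F` is alternating and `3 G = 0`, and `T(x, y) = x x y + x y x + y x x = 0`.  `[x, y, z] = [[x, y], z]`.  `[x, y, z] + [x, z, y] = -3 (y x z + z x y)`, so
`2 [[a, b], [c, d]] = 3 w` with `w` a combination of words of length 4.  For commutators `c_1, c_2, c_3`: `0 = S(c_1, c_2, c_3) = 6 c_1 c_2 c_3 - 3 ([c_1, c_2] c_3 + c_1 [c_2, c_3] + c_2 [c_1, c_3]) + [c_1, [c_2, c_3]] + [c_2, [c_1, c_3]]`;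
twice this is `12 c_1 c_2 c_3` modulo terms `3 G` and terms `3 [c_1, w]`, which are 0 as `G` is alternating (a cyclic permutation of 6 places of two letters is even).  `12 c_1 c_2 c_3 = 4 * 8 G`. -/
def St_Kzb : Prop := ∀ (A : Type) [NonUnitalRing A], (∀ x : A, x * x * x = 0) →
  (∃ r : ℕ, ∀ x : A, (3 ^ r) • x = 0) → ∀ a b c d e f : A, 3 • (a * b * c * d * e * f) = 0

/-- **KZC** (from `St_Kza`).  PROOF.  Linear consequences of the relations `u S(x, y, z) v = 0`; see the module. -/
def St_Kzc : Prop := ∀ (A : Type) [NonUnitalRing A], (∀ x : A, x * x * x = 0) →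
  (∃ r : ℕ, ∀ x : A, (2 ^ r) • x = 0) → ∀ a b c d e f : A, 2 • (a * b * c * d * e * f) = 0

/-- **KZD** (from `St_Kzb`, `St_Kzc`). -/
def St_Kzd : Prop := Jk0

end Pool.Agent.CRS
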