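import Pool.Agent.CRS.StG

/-!
Campaign CRS, p = 2: the cases in which not all products of `g + 1` elements are zero (problem MP_1bb14d_al, stage 7).
Statements of the modules.

Case A: some product of `g + 2` elements is not zero (`St_TwA`).  Case B: all products of `g + 2` elements are zero, but some product of
`g + 1` elements is not zero (`St_TwB`).  In case B a good function `f` is a combination of orderings and of words of length `g + 1` with one letter
twice; for such words the functions `Vg (Xl g i)`, `Vg (Pm g i j)`, `Vg (Qm g i j)` are a system of coefficients (`St_K2`, `St_TBK`).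

Every `St_X` is a statement with its proof in the docstring.  A module proves `thm_X : St_Y → ... → St_X` with the hypotheses
which are named in the docstring (drop unused ones).  In the proofs `X i`, `P i j`, `Q i j` are `Vg (Xl g i) x`, `Vg (Pm g i j) x`, `Vg (Qm g i j) x`.
-/

set_option autoImplicit false

namespace Pool.Agent.CRS

open Pool.Agent.CRR Pool.Agent.CRN Pool.Agent.CRK Pool.Agent.CRL Pool.Agent.CRM Pool.Agent.CRP
open Pool.Agent.CRQ

/-- The group generated by the products of at least 6 elements. -/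
def Sx (A : Type) [NonUnitalRing A] : AddSubgroup A :=
  AddSubgroup.closure {y | ∃ l : List A, 6 ≤ l.length ∧ y = wp l}

section idefs

variable {K A ι : Type} [CommRing K] [NonUnitalRing A] [Module K A]

/-- `c` kills the products of at least 6 elements. -/
def Nl (K A : Type) [CommRing K] [NonUnitalRing A] [Module K A] (c : K) : Prop := ∀ z ∈ Sx A, c • z = 0

/-- The value of a list of words. -/
def Ew (L : List (K × List ι)) (x : ι → A) : A := (L.map fun q => q.1 • wp (q.2.map x)).sum

/-- A combination of the functions with the letter `i` twice. -/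
def Pu (g : ℕ) (i : Fin g) (E : K) (r l : Fin g → K) (x : Fin g → A) : A :=
  E • Vg (Xl g i.val) x +
    ∑ j : Fin g, if j = i then 0 else r j • Vg (Pm g i.val j.val) x + l j • Vg (Qm g i.val j.val) x

/-- The setting of case B: products of at least `g + 2` elements are zero. -/
structure Bs (K : Type) {A : Type} [CommRing K] [NonUnitalRing A] [Module K A] (M H : AddSubgroup A) (g : ℕ) : Prop where
  kst : Kst K 2 M H
  mt : Mt M
  six : 6 ≤ g
  top : ∀ l : List A, g + 2 ≤ l.length → wp l = 0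

/-- A combination of the functions with one letter twice which vanishes if two arguments are equal is zero. -/
def NPu (K A : Type) [CommRing K] [NonUnitalRing A] [Module K A] (g : ℕ) : Prop :=
  ∀ (i : Fin g) (E : K) (r l : Fin g → K),
    (∀ (x : Fin g → A) (a b : Fin g), a ≠ b → x a = x b → Pu g i E r l x = 0) → ∀ x : Fin g → A, Pu g i E r l x = 0

/-- `(p q + q p)(i j + j i) m`. -/
def Sqw (X : ι → A) (p q i j : ι) (m : List ι) : A :=
  wp ((p :: q :: i :: j :: m).map X) + wp ((p :: q :: j :: i :: m).map X) +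
  (wp ((q :: p :: i :: j :: m).map X) + wp ((q :: p :: j :: i :: m).map X))

/-- `(p q + q p)(i j + j i) m = 0`. -/
def SQ1 (A : Type) [NonUnitalRing A] (g : ℕ) : Prop :=
  ∀ (X : Option (Fin g) → A) (p q i j : Option (Fin g)) (m : List (Option (Fin g))),
    (∀ k, (p :: q :: i :: j :: m).count k = 1) → Sqw X p q i j m = 0

/-- `(p q + q p)(i j + j i) m + (i j + j i)(p q + q p) m = 0`. -/
def SQ2 (A : Type) [NonUnitalRing A] (g : ℕ) : Prop :=
  ∀ (X : Option (Fin g) → A) (p q i j : Option (Fin g)) (m : List (Option (Fin g))),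
    (∀ k, (p :: q :: i :: j :: m).count k = 1) → Sqw X p q i j m + Sqw X i j p q m = 0

/-- The identity `∑ a i j κ i j = 0` for `g + 1` letters (`none` is the new letter). -/
def Idm (K A : Type) [CommRing K] [NonUnitalRing A] [Module K A] (g : ℕ) (a : Option (Fin g) → Option (Fin g) → K) : Prop :=
  ∀ (X : Option (Fin g) → A) (e : A) (κ : Option (Fin g) → Option (Fin g) → A), e ∈ Wg X → (∀ i j, κ i j ∈ Wg X) →
    (∀ w : List (Option (Fin g)), (∀ i, w.count i = 1) → wp (w.map X) = e + adj κ w) →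
    ∑ i, ∑ j, (if i = j then 0 else a i j • κ i j) = 0

/-- The coefficient of the pair `i j`. -/
def cf [DecidableEq ι] (L : List (K × List ι)) (i j : ι) : K :=
  (L.map fun q => q.1 * adj (fun a b => if a = i ∧ b = j then (1 : K) else 0) q.2).sum

/-- The coefficient of the first letter `j`. -/
def hf [DecidableEq ι] (L : List (K × List ι)) (j : ι) : K :=
  (L.map fun q => if q.2.head? = some j then q.1 else 0).sum

/-- The sum of the coefficients. -/
def tf (L : List (K × List ι)) : K := (L.map fun q => q.1).sum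

/-- The coefficients of the identity `y f(x) + f(x with x_p replaced by x_p y) = 0`. -/
def mF {g : ℕ} (L : List (K × List (Fin g))) (p : Fin g) : Option (Fin g) → Option (Fin g) → K
  | some i, some j => if i = p then cf L i j else 0
  | some i, none => if i = p then tf L else 0
  | none, some j => hf L j + cf L p j
  | none, none => 0

/-- The coefficients of the polarisation of `Pu g i E r l` in the letter `i`. -/
def mD {g : ℕ} (i : Fin g) (E : K) (r l : Fin g → K) : Option (Fin g) → Option (Fin g) → K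
  | some j, some k => if j = i then r k else if k = i then l j else 0
  | some j, none => if j = i then E else l j
  | none, some k => if k = i then E else r k
  | none, none => 0

end idefs

/-- [BAS] (basic facts) Uses K0. PROOF. (2), (5), (6): on generators (`closure_induction`). For a product `z = wp (a :: l)` of at least 6 elements (`l ≠ []`): `c • z = wp ((c • a) :: l)`; if `c • x = 2 • y` for all `x`, then `c • z = 2 • wp (y :: l) = 0` (K0),
and `2 • y ∈ M` (`mp`). If `d • c • x - x = 2 • y` for all `x`, then `d • c • z - z = wp ((d • c • a - a) :: l) = 0` in the same way, so `d • c • z = z` for all `z` in `Sx A`. -/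
def St_BAS : Prop := ∀ (K : Type) [CommRing K] (A : Type) [NonUnitalRing A] [Module K A] [IsScalarTower K A A]
  [SMulCommClass K A A] (M H : AddSubgroup A), Kst K 2 M H →
  N2 A ∧ (∀ z ∈ Sx A, z + z = 0) ∧ (∀ l : List A, 6 ≤ l.length → wp l ∈ Sx A) ∧
  (∀ (ι : Type) (x : ι → A), ∀ z ∈ Wg x, z ∈ Sx A) ∧ (∀ c : K, ∀ z ∈ Sx A, c • z ∈ Sx A) ∧
  ∀ c : K, (Nl K A c ∧ ∀ x : A, c • x ∈ M) ∨ ((∀ z ∈ Sx A, c • z = 0 → z = 0) ∧ Ku K A 2 c)

/-- [TOP] Products of `n` elements if all longer ones are zero. Uses K0. PROOF. (1) `h1`: the product is killed by 2 (K0), and its products with other elements have `n + 1` factors. (2) `Mt`. (3) Replace the elements one after the other: `wp (l₁ ++ a :: l₂) - wp (l₁ ++ b :: l₂) = wp (l₁ ++ (a - b) :: l₂) = 0` by (2). -/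
def St_TOP : Prop := ∀ (K : Type) [CommRing K] (A : Type) [NonUnitalRing A] [Module K A] [IsScalarTower K A A]
  [SMulCommClass K A A] (M H : AddSubgroup A) (n : ℕ), Kst K 2 M H → Mt M → 7 ≤ n →
  (∀ l : List A, n + 1 ≤ l.length → wp l = 0) →
  (∀ l : List A, l.length = n → wp l ∈ H) ∧ (∀ l : List A, l.length = n → (∃ m ∈ l, m ∈ M) → wp l = 0) ∧
  ∀ (ι : Type) (x y : ι → A) (w : List ι), w.length = n → (∀ i, x i - y i ∈ M) → wp (w.map x) = wp (w.map y)

/-- [SPN] Uses TOP. PROOF. Show by induction on `l₂`, for all lists `w₁`: if `w₁.length + l₂.length = n` and all elements of `l₂` are of this form, then `wp (w₁.map x ++ l₂) = 0`. `l₂ = z :: l`: `z = ∑ c i • x i + m`, and `wp (w₁.map x ++ z :: l) = ∑ c i • wp (w₁.map x ++ x i :: l) + wp (w₁.map x ++ m :: l)`;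
the last term is zero by TOP, the others by induction (`w₁ ++ [i]`). -/
def St_SPN : Prop := ∀ (K : Type) [CommRing K] (A : Type) [NonUnitalRing A] [Module K A] [IsScalarTower K A A]
  [SMulCommClass K A A] (M H : AddSubgroup A) (n : ℕ), Kst K 2 M H → Mt M → 7 ≤ n →
  (∀ l : List A, n + 1 ≤ l.length → wp l = 0) → ∀ (ι : Type) [Fintype ι] (x : ι → A),
  (∀ w : List ι, w.length = n → wp (w.map x) = 0) →
  ∀ l : List A, l.length = n → (∀ z ∈ l, ∃ c : ι → K, z - ∑ i, c i • x i ∈ M) → wp l = 0

/-- [LAD] Uses SPN. PROOF. Let `V k` say: `wp (w.map x) = 0` for all `x : Fin k → A` and `w : List (Fin k)` with `w.length = n`. `V g` is the hypothesis. `V k → V (k + 1)` for `k ≥ g`: let `x : Fin (k + 1) → A` and `w` be given. If a letter `j` does not occur in `w`, then `w = w'.map j.succAbove` and `V k` applies to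
`x ∘ j.succAbove`. If all letters occur, `F x = wp (w.map x)` is `Wf K (k + 1)` (the list `[(1, w.map Fin.val)]`), and by `Dm` it is enough that `F x = 0` if `∑ c i • x i ∈ M`, `c j` with `Ku`: then `x j - ∑ i, c' i • x (j.succAbove i) ∈ M` (`d • c j • x j - x j = 2 • y ∈ M`, `mK`), so SPN applies to
`x ∘ j.succAbove`, `w.map x` (every element is of the form `x i`, and those with `i ≠ j` are clear). For `k` the maximum of `g` and `n` every list `l` of length `n` is `w.map x` with `w = [0, ..., n - 1]`. -/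
def St_LAD : Prop := ∀ (K : Type) [CommRing K] (A : Type) [NonUnitalRing A] [Module K A] [IsScalarTower K A A]
  [SMulCommClass K A A] (M H : AddSubgroup A) (g n : ℕ), Kst K 2 M H → Mt M → 7 ≤ n →
  (∀ l : List A, n + 1 ≤ l.length → wp l = 0) → Dm K 2 M g →
  (∀ (x : Fin g → A) (w : List (Fin g)), w.length = n → wp (w.map x) = 0) →
  ∀ l : List A, l.length = n → wp l = 0

/-- [LIN] PROOF. `q.2 = u ++ k :: v` with `k ∉ u`, `k ∉ v`; `(q.2).map (update x k y) = u.map x ++ y :: v.map x`, and a product is additive and `K`-homogeneous in every factor. -/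
def St_LIN : Prop := ∀ (K : Type) [CommRing K] (A : Type) [NonUnitalRing A] [Module K A] [IsScalarTower K A A]
  [SMulCommClass K A A] (ι : Type) [DecidableEq ι] (k : ι) (L : List (K × List ι)), (∀ q ∈ L, q.2.count k = 1) →
  (∀ (x : ι → A) (y z : A), Ew L (Function.update x k (y + z)) = Ew L (Function.update x k y) + Ew L (Function.update x k z)) ∧
  ∀ (x : ι → A) (c : K) (y : A), Ew L (Function.update x k (c • y)) = c • Ew L (Function.update x k y)

/-- [DEP] PROOF. `d • c k • x k - x k = 2 • y ∈ M` and `d • ∑ c i • x i ∈ M`, so `x k - ∑_(i ≠ k) (- d * c i) • x i ∈ M`. By `inv` and linearity `F x = F (update x k (∑_(i ≠ k) (- d * c i) • x i)) = ∑_(i ≠ k) (- d * c i) • F (update x k (x i)) = 0` (the argument `update x k (x i)` has equal entries at `i` and `k`). -/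
def St_DEP : Prop := ∀ (K : Type) [CommRing K] (A : Type) [NonUnitalRing A] [Module K A] [IsScalarTower K A A]
  [SMulCommClass K A A] (M H : AddSubgroup A), Kst K 2 M H → ∀ (ι : Type) [Fintype ι] [DecidableEq ι] (F : (ι → A) → A) (k : ι),
  (∀ x y : ι → A, (∀ i, x i - y i ∈ M) → F x = F y) →
  (∀ (x : ι → A) (y z : A), F (Function.update x k (y + z)) = F (Function.update x k y) + F (Function.update x k z)) →
  (∀ (x : ι → A) (c : K) (y : A), F (Function.update x k (c • y)) = c • F (Function.update x k y)) →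
  (∀ (x : ι → A) (i : ι), i ≠ k → x k = x i → F x = 0) →
  ∀ (x : ι → A) (c : ι → K), Ku K A 2 (c k) → ∑ i, c i • x i ∈ M → F x = 0

/-- [CAG] A word of length `g + 2`. Uses TOP, SPN, KZ. PROOF. `Kc [1] [[(1, w)]] x = wp (w.map (xs x)) = wp (w'.map x)` with `w' : List (Fin g)`, and TOP applies (`n = g + 2`): `val`, `inv`. `dep`: as in LAD the elements `x i` are combinations of the `x i`, `i ≠ j`, modulo `M`; SPN applies to the `g - 1` letters `i ≠ j`
(`ι = {i // i ≠ j}`): a word of length `g + 2` in these letters is zero by KZ (`card + 3 ≤ g + 2`). -/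
def St_CAG : Prop := ∀ (K : Type) [CommRing K] (A : Type) [NonUnitalRing A] [Module K A] [IsScalarTower K A A]
  [SMulCommClass K A A] (M H : AddSubgroup A) (g : ℕ), Kst K 2 M H → Mt M → 6 ≤ g →
  (∀ l : List A, g + 3 ≤ l.length → wp l = 0) → ∀ w : List ℕ, w.length = g + 2 → (∀ i, i ∈ w ↔ i < g) →
  (∃ x : Fin g → A, Vg [((1 : ℤ), w)] x ≠ 0) → Good K 2 M H g (Kc [(1 : K)] [[((1 : ℤ), w)]])

/-- [CAV] Uses K3, K22, KZ. PROOF. If `w` does not contain all letters use KZ (`w.toFinset.card ≤ g - 1`). Otherwise a letter `a` occurs three times, or two letters `a ≠ b` occur twice, and the others once. First case: K3 gives `κ`, only `κ a a` counts. Let `σ` be a permutation with `σ 0 = a`; the word of `A1 g` in the letters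
`x ∘ σ` is a word in `x` with `a` three times and exactly one pair `a a`, so `0 = Vg (A1 g) (x ∘ σ) = κ a a`. Second case: K22 gives `κ`, only `κ a b` and `κ b a` count. With `σ 0 = a`, `σ 1 = b`: the word `a a b b ...` has one pair `a b` and no pair `b a`, so `0 = Vg (A2 g) (x ∘ σ) = κ a b`, and in the same way `κ b a = 0`
(`σ 0 = b`, `σ 1 = a`). -/
def St_CAV : Prop := ∀ (A : Type) [NonUnitalRing A] (g : ℕ), N2 A → 6 ≤ g → (∀ x : Fin g → A, Vg (A1 g) x = 0) →
  (∀ x : Fin g → A, Vg (A2 g) x = 0) → ∀ (x : Fin g → A) (w : List (Fin g)), w.length = g + 2 → wp (w.map x) = 0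

/-- [TwA] Case A. Uses K0, CAG, CAV, LAD. PROOF. The product has `g + 2` factors. By LAD for `n = g + 2` and CAV (`N2 A` from `Kst`) `Vg (A1 g)` or `Vg (A2 g)` is not zero; `B = [A1 g]` or `[A2 g]`, `c = [1]`, CAG. -/
def St_TwA : Prop := ∀ (K : Type) [CommRing K] (A : Type) [NonUnitalRing A] [Module K A] [IsScalarTower K A A]
  [SMulCommClass K A A] (M H : AddSubgroup A) (g : ℕ), Kst K 2 M H → Mt M → 6 ≤ g →
  (∀ l : List A, g + 3 ≤ l.length → wp l = 0) → Dm K 2 M g → (∃ l : List A, g + 2 ≤ l.length ∧ wp l ≠ 0) →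
  ∃ (B : List (List (ℤ × List ℕ))) (c : List K), Tb2 g B ∧ c.length = B.length ∧ Good K 2 M H g (Kc c B)

/-- [WPU] Uses K2, TBK, WG. PROOF. For one word `w`: by K2 and TBK `wp (w.map x) = adj κ w` with `κ i i = X i`, `κ i j = P i j`, `κ j i = Q i j`, `κ j k = 0` otherwise; so `wp (w.map x) = n(i,i) • X i + ∑_(j ≠ i) (n(i,j) • P i j + n(j,i) • Q i j)`, where `n(a,b)` is the number of adjacent pairs `a b` of `w` (it does not depend on `x`):
`adj κ w = ∑ a, ∑ b, (adj (fun s t => if s = a ∧ t = b then 1 else 0) w) • κ a b`. Add up. -/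
def St_WPU : Prop := ∀ (K : Type) [CommRing K] (A : Type) [NonUnitalRing A] [Module K A] (g : ℕ) (i : Fin g)
  (L : List (K × List (Fin g))), N2 A → 6 ≤ g → (∀ q ∈ L, q.2.count i = 2 ∧ ∀ j, j ≠ i → q.2.count j = 1) →
  ∃ (E : K) (r l : Fin g → K), ∀ x : Fin g → A, Ew L x = Pu g i E r l x

/-- [PUW] PROOF. Take the two words of `Xl g i` with the coefficient `E`, those of `Pm g i j`, `Qm g i j` (`j ≠ i`) with the coefficients `r j`, `l j`, as lists of elements of `Fin g` (as in TBK). -/
def St_PUW : Prop := ∀ (K : Type) [CommRing K] (A : Type) [NonUnitalRing A] [Module K A] (g : ℕ) (i : Fin g)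
  (E : K) (r l : Fin g → K), 6 ≤ g → ∃ L : List (K × List (Fin g)),
  (∀ q ∈ L, q.2.count i = 2 ∧ ∀ j, j ≠ i → q.2.count j = 1) ∧ ∀ x : Fin g → A, Pu g i E r l x = Ew L x

/-- [RPL] PROOF. The words of `f` contain every `i < g`; as lists over `Fin g` they have length at least `g`. Those of length at least `g + 2` have the value 0, those of length `g` contain every letter once, those of length `g + 1` one letter twice and the others once. -/
def St_RPL : Prop := ∀ (K : Type) [CommRing K] (A : Type) [NonUnitalRing A] [Module K A] (g : ℕ) (f : (Fin g → A) → A),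
  (∀ l : List A, g + 2 ≤ l.length → wp l = 0) → Wf K g f → ∃ L₀ L₁ : List (K × List (Fin g)),
  (∀ q ∈ L₀, ∀ i, q.2.count i = 1) ∧ (∀ q ∈ L₁, ∃ i, q.2.count i = 2 ∧ ∀ j, j ≠ i → q.2.count j = 1) ∧
  ∀ x, f x = Ew L₀ x + Ew L₁ x

/-- [EQV] Two equal arguments. Uses K22, K3, TBK, WG. PROOF. Let `ι' = {k : Fin g // k ≠ b}` (`g - 1 ≥ 5` letters), `x' = x` on `ι'`, `π : Fin g → ι'` the map with `π b = a` and `π k = k` otherwise; `w.map x = (w.map π).map x'`. (1) `i ≠ a, b`: if `w` contains `i` twice and the others once, `w.map π` contains `i` and `a` twice and the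
others once, so K22 gives `κ` with `wp (w.map x) = adj κ' w`, `κ' j k = κ (π j) (π k)` (WG (2)); `κ' i a = κ' i b`, `κ' a i = κ' b i`, and all other `κ' j k` are 0. TBK for `κ'` (`κ' j k ∈ Wg x` by WG (6)). (2) `i = a`: `w.map π` contains `a` three times; K3 gives `E = κ a a`, and `wp (w.map x) = adj κ' w` with
`κ' a a = κ' a b = κ' b a = E`, all others 0 (`κ' b b = 0` is allowed, there is no pair `b b`). TBK: `X a = P a b = Q a b = E`, `P a j = Q a j = 0`. With the same `κ` and `κ'' b b = κ'' a b = κ'' b a = E` for words which contain `b` twice: `X b = E`. -/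
def St_EQV : Prop := ∀ (A : Type) [NonUnitalRing A] (g : ℕ), N2 A → 6 ≤ g → ∀ (x : Fin g → A) (a b : Fin g), a ≠ b → x a = x b →
  (∀ i, i ≠ a → i ≠ b → Vg (Xl g i.val) x = 0 ∧ Vg (Pm g i.val a.val) x = Vg (Pm g i.val b.val) x ∧
    Vg (Qm g i.val a.val) x = Vg (Qm g i.val b.val) x ∧
    ∀ j, j ≠ i → j ≠ a → j ≠ b → Vg (Pm g i.val j.val) x = 0 ∧ Vg (Qm g i.val j.val) x = 0) ∧
  Vg (Pm g a.val b.val) x = Vg (Xl g a.val) x ∧ Vg (Qm g a.val b.val) x = Vg (Xl g a.val) x ∧
  Vg (Xl g b.val) x = Vg (Xl g a.val) x ∧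
  ∀ j, j ≠ a → j ≠ b → Vg (Pm g a.val j.val) x = 0 ∧ Vg (Qm g a.val j.val) x = 0

/-- [REL] Relabelling. Uses K2, TBK, WG. PROOF. K2 for `x` and the letter `σ i` gives `κ`; for a word `w` with `i` twice `wp (w.map (x ∘ σ)) = wp ((w.map σ).map x) = adj κ (w.map σ) = adj κ' w`, `κ' j k = κ (σ j) (σ k)` (WG (2)), `κ' j k ∈ Wg (x ∘ σ)` (WG (6) for `x = (x ∘ σ) ∘ σ.symm`). TBK for `κ'`, `x ∘ σ`, `i` and for
`κ`, `x`, `σ i`. -/
def St_REL : Prop := ∀ (A : Type) [NonUnitalRing A] (g : ℕ), N2 A → 6 ≤ g → ∀ (x : Fin g → A) (σ : Equiv.Perm (Fin g)) (i : Fin g),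
  Vg (Xl g i.val) (x ∘ σ) = Vg (Xl g (σ i).val) x ∧
  ∀ j, j ≠ i → Vg (Pm g i.val j.val) (x ∘ σ) = Vg (Pm g (σ i).val (σ j).val) x ∧
    Vg (Qm g i.val j.val) (x ∘ σ) = Vg (Qm g (σ i).val (σ j).val) x

/-- [KPU] PROOF. `Vg` of appended lists is the sum; `Vg (SP g) x = ∑_(j ≠ 0) Vg (Pm g 0 j) x`, the same for `SQ`, and `Pl g 1 = Pm g 0 1`, `Ql g 1 = Qm g 0 1`. -/
def St_KPU : Prop := ∀ (K : Type) [CommRing K] (A : Type) [NonUnitalRing A] [Module K A] (g : ℕ) (z : Fin g) (c₁ c₂ c₃ c₄ c₅ : K),
  2 ≤ g → z.val = 0 → ∀ x : Fin g → A, Kc [c₁, c₂, c₃, c₄, c₅] [Xl g 0, SP g, SQ g, Pl g 1, Ql g 1] x =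
    Pu g z c₁ (fun j => if j.val = 1 then c₂ + c₄ else c₂) (fun j => if j.val = 1 then c₃ + c₅ else c₃) x

/-- [GDX] Uses TOP, DEP, BAS, PUW, LIN. PROOF. By PUW `F = Pu g i E r l` is `Ew L`, `L` with words of length `g + 1` in which every `j ≠ i` occurs once. TOP for `n = g + 1`: `val`, `inv`; for `j ≠ i` `F` is linear in the argument `j` (LIN). `dep` for `c j` with `Ku`: if `j ≠ i` use DEP. If `j = i` and `Ku (c k)` for some `k ≠ i` use DEP for `k`.
Otherwise `c k • x k ∈ M` for all `k ≠ i` (BAS), so `c i • x i ∈ M`, `d • c i • x i ∈ M`, `x i ∈ M`, and `F x = F (update x i 0) = 0` (`inv`; a product with a factor 0). -/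
def St_GDX : Prop := ∀ (K : Type) [CommRing K] (A : Type) [NonUnitalRing A] [Module K A] [IsScalarTower K A A]
  [SMulCommClass K A A] (M H : AddSubgroup A) (g : ℕ), Bs K M H g → ∀ (i : Fin g) (E : K) (r l : Fin g → K),
  (∀ (x : Fin g → A) (a b : Fin g), a ≠ b → x a = x b → Pu g i E r l x = 0) → (∃ x : Fin g → A, Pu g i E r l x ≠ 0) →
  Good K 2 M H g (Pu g i E r l)

/-- [PUR] Uses BAS, PUW, LIN, REL, KPU. PROOF. Let `z` be the letter 0, `u` the letter 1. With `σ = swap z i`: `F x = Pu g i E r l (x ∘ σ)` is again good (permute the arguments and the coefficients in `dep`), and by REL it is `Pu g z E (r ∘ σ) (l ∘ σ) x`; so let `i = z`. For `a, b ≠ z`, `a ≠ b`: `F` is additive in the arguments `a`, `b` (PUW, LIN)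
and `F x = 0` if `x a = x b` (`dep` with the coefficients 1, -1), so `0 = F(x with x a + x b at both places) = F x + F (x ∘ swap a b)`, and `F x + F x = 0` (`val`, `h0`): `F (x ∘ swap a b) = F x`. By REL the left side is `E X z + ∑ r j P z (swap a b j) + l j Q z (swap a b j)`. So `(r a + r b)(P z a + P z b) + (l a + l b)(Q z a + Q z b) = 0`
(values in `Sx A`, `2 = 0`). For `b = u` and all `a ≠ z` (also `a = u`): `(r a + r u) P z a + (l a + l u) Q z a = (r a + r u) P z u + (l a + l u) Q z u`. Sum over `a`: `F x = E X z + r u ∑ P z a + l u ∑ Q z a + (∑_(a ≠ z) (r a + r u)) P z u + (∑_(a ≠ z) (l a + l u)) Q z u`, which is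
`Kc [E, r u, l u, ∑ (r a + r u), ∑ (l a + l u)]` by KPU. -/
def St_PUR : Prop := ∀ (K : Type) [CommRing K] (A : Type) [NonUnitalRing A] [Module K A] [IsScalarTower K A A]
  [SMulCommClass K A A] (M H : AddSubgroup A) (g : ℕ), Bs K M H g → ∀ (i : Fin g) (E : K) (r l : Fin g → K),
  Good K 2 M H g (Pu g i E r l) → ∃ c : List K, c.length = 5 ∧ Good K 2 M H g (Kc c [Xl g 0, SP g, SQ g, Pl g 1, Ql g 1])

/-- [PO1] The polarisation. Uses RPL. PROOF. By RPL it is enough to consider one word `w`. If `w.count i = 1`, `w.map (update x i (x i + y))` gives the sum of the other two products. If `w = u ++ i :: v ++ i :: t` with `i ∉ u, v, t`: the left side is the sum of the products `u i v y t` and `u y v i t`, i.e. of the words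
`u.map some ++ some i :: v.map some ++ none :: t.map some` and `u.map some ++ none :: v.map some ++ some i :: t.map some` in `fun o => o.elim y x`. -/
def St_PO1 : Prop := ∀ (K : Type) [CommRing K] (A : Type) [NonUnitalRing A] [Module K A] (g : ℕ) (f : (Fin g → A) → A),
  (∀ l : List A, g + 2 ≤ l.length → wp l = 0) → Wf K g f → ∀ i : Fin g, ∃ L : List (K × List (Option (Fin g))),
  (∀ q ∈ L, ∀ k, q.2.count k = 1) ∧ ∀ (x : Fin g → A) (y : A),
    f (Function.update x i (x i + y)) - f x - f (Function.update x i y) = Ew L (fun o => o.elim y x)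

/-- [PO2] Uses WPU. PROOF. The words `q.2.map (fun o => o.elim j id)` contain `j` twice and the others once, and `(q.2.map (fun o => o.elim j id)).map x = q.2.map (fun o => o.elim (x j) x)`. -/
def St_PO2 : Prop := ∀ (K : Type) [CommRing K] (A : Type) [NonUnitalRing A] [Module K A] (g : ℕ), N2 A → 6 ≤ g →
  ∀ (L : List (K × List (Option (Fin g)))) (j : Fin g), (∀ q ∈ L, ∀ k, q.2.count k = 1) →
  ∃ (E : K) (r l : Fin g → K), ∀ x : Fin g → A, Ew L (fun o => o.elim (x j) x) = Pu g j E r l x

/-- [DMO] Uses TOP, DEP, LIN. PROOF. Let `τ = (finSuccEquiv g).symm : Option (Fin g) ≃ Fin (g + 1)` and `F z = Ew L (z ∘ τ)` for `z : Fin (g + 1) → A`. It is `Wf K (g + 1)` (words `q.2.map (fun o => (τ o).val)`), by TOP for `n = g + 1` it depends only on the arguments modulo `M`, it is linear in every argument (LIN for the list of the words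
`q.2.map τ`), and zero if two arguments are equal. So DEP and `Dm` (for `n = g + 1`) give `F = 0`; `X = (X ∘ τ.symm) ∘ τ`. -/
def St_DMO : Prop := ∀ (K : Type) [CommRing K] (A : Type) [NonUnitalRing A] [Module K A] [IsScalarTower K A A]
  [SMulCommClass K A A] (M H : AddSubgroup A) (g : ℕ), Bs K M H g → Dm K 2 M g → ∀ L : List (K × List (Option (Fin g))),
  (∀ q ∈ L, ∀ k, q.2.count k = 1) →
  (∀ (X : Option (Fin g) → A) (u v : Option (Fin g)), u ≠ v → X u = X v → Ew L X = 0) →
  ∀ X : Option (Fin g) → A, Ew L X = 0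

/-- [POL] `f` is additive. Uses BAS, PO1, PO2, DMO. PROOF. Fix `i`, write `G x y = f (update x i (x i + y)) - f x - f (update x i y) = Ew L (fun o => o.elim y x)` (PO1). (1) `f x = 0` if `x a = x b`, `a ≠ b` (`dep` with the coefficients 1, -1 at `a, b`; `1` satisfies `Ku`), if `x a = 0` or `x a = 2 • y` (`dep`, one coefficient 1; `mp`), and if
`x a = x b + x c` with different `a, b, c` (`dep`). (2) Let `j ≠ i`. Then `x ↦ G x (x j)` vanishes if `x a = x b`, `a ≠ b`: `f x = 0`, `f (update x i (x j)) = 0` (equal arguments `i, j`), and `f (update x i (x i + x j)) = 0`: if `a, b ≠ i` equal arguments; if `{a, b} = {i, b}`, `b ≠ j`: the argument `i` is `x b + x j`; if `{a, b} = {i, j}`: it is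
`2 • x j`. By PO2 and `NPu` `G x (x j) = 0` for all `x`. (3) The hypothesis of DMO, `X = fun o => o.elim y x`: `X none = X (some i)`: `G x (x i) = f (update x i (2 • x i)) - f x - f x = 0` (`f x + f x = 0`); `none, some j`: (2); `some j, some k`, `j, k ≠ i`: all three terms are 0 by (1); `some i, some j`:
`G x y = G (update x i y) (x i)` (the definition is symmetric), which is `G x' (x' j)` for `x' = update x i y`. So `G = 0` by DMO. -/
def St_POL : Prop := ∀ (K : Type) [CommRing K] (A : Type) [NonUnitalRing A] [Module K A] [IsScalarTower K A A]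
  [SMulCommClass K A A] (M H : AddSubgroup A) (g : ℕ) (f : (Fin g → A) → A), Bs K M H g → Dm K 2 M g → NPu K A g →
  Wf K g f → Good K 2 M H g f → ∀ (i : Fin g) (x : Fin g → A) (y : A),
  f (Function.update x i (x i + y)) = f x + f (Function.update x i y)

/-- [SQA] Uses K2, TBK, WG. PROOF. K2 for `x` and the letter `i` gives `κ`, and by TBK `κ i i = X i`, `κ i j = P i j`, `κ j i = Q i j`. Let `X = fun o => o.elim (x i) x` and let `m` be the list of the letters different from `i, p, j` (at least 3), `m' = m.map some`. The four words of `Sqw X (some p) none (some i) (some j) m'` have the values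
(pairs with `i`): `p i i j m`: `Q i p + X i + P i j`; `p i j i m`: `Q i p + P i j + Q i j + P i h` (`h` the first letter of `m`); `i p i j m`: `P i p + Q i p + P i j`; `i p j i m`: `P i p + Q i j + P i h`. The sum is `Q i p + X i + P i j`. The four words of `Sqw X (some i) (some j) (some p) none m'`:
`i j p i m`: `P i j + Q i p + P i h`; `i j i p m`: `P i j + Q i j + P i p`; `j i p i m`: `Q i j + P i p + Q i p + P i h`; `j i i p m`: `Q i j + X i + P i p`. The sum is `Q i j + P i p + X i`. (All values are killed by 2.) -/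
def St_SQA : Prop := ∀ (A : Type) [NonUnitalRing A] (g : ℕ), N2 A → 6 ≤ g →
  (SQ1 A g → ∀ (x : Fin g → A) (i p j : Fin g), i ≠ p → i ≠ j → p ≠ j →
    Vg (Qm g i.val p.val) x + Vg (Xl g i.val) x + Vg (Pm g i.val j.val) x = 0) ∧
  (SQ2 A g → ∀ (x : Fin g → A) (i p j : Fin g), i ≠ p → i ≠ j → p ≠ j →
    Vg (Pm g i.val p.val) x + Vg (Qm g i.val p.val) x = Vg (Pm g i.val j.val) x + Vg (Qm g i.val j.val) x)

/-- [LFT] PROOF. A letter `s` occurs twice: `w = u ++ s :: v ++ s :: t`. Let `l = (u ++ s :: v ++ t).map x` (length `g`), `x' k = l[k]`, `i = u.length`, `w' = [0, ..., u.length + v.length] ++ [u.length] ++ [u.length + v.length + 1, ..., g - 1]`. -/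
def St_LFT : Prop := ∀ (A : Type) (g : ℕ) (x : Fin g → A) (w : List (Fin g)), w.length = g + 1 →
  ∃ (x' : Fin g → A) (w' : List (Fin g)) (i : Fin g), w'.count i = 2 ∧ (∀ j, j ≠ i → w'.count j = 1) ∧
    w'.map x' = w.map x

/-- [SQB] Uses BAS, SQA, EQV, WPU, LFT, LAD. PROOF. Assume `SQ1 A g`. By SQA (1) for `i, j, j'` different and `p` different from them `P i j = P i j'`, and `Q i j = Q i j'` in the same way (`Q i j = X i + P i k = Q i j'` with `k ≠ i, j, j'`). `Pu g i 0 (Pi.single j 1) 0 x = P i j` vanishes if `x a = x b`, `a ≠ b`: choose `j' ≠ i, a, b`; then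
`P i j = P i j' = 0` by EQV (1) if `i ≠ a, b`, and by the last part of EQV (for `a, b` or `b, a`) if `i ∈ {a, b}`. So `P i j = 0` always by `NPu`, `Q i j = 0` in the same way, `X i = Q i p + P i j = 0`. By WPU all words with one letter twice and the others once are zero, by LFT all words of length `g + 1` in `g` letters, by LAD (`n = g + 1`) all
products of `g + 1` elements; longer ones are zero by `top`: contradiction. -/
def St_SQB : Prop := ∀ (K : Type) [CommRing K] (A : Type) [NonUnitalRing A] [Module K A] [IsScalarTower K A A]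
  [SMulCommClass K A A] (M H : AddSubgroup A) (g : ℕ), Bs K M H g → Dm K 2 M g → NPu K A g →
  (∃ l : List A, g + 1 ≤ l.length ∧ wp l ≠ 0) → ¬ SQ1 A g

/-- [IDM] Uses BAS, K1, WG. PROOF. Let `s = a p i + a p j + a q i + a q j`, `t = a i p + a j p + a i q + a j q`, and for data `X, e, κ` (as in `Idm`) `S(p,q,i,j) = κ p i + κ p j + κ q i + κ q j`. (1) `s • S(p',q',i',j') + t • S(i',j',p',q') = 0` for all data and all different `p', q', i', j'`: if `(e, κ)` are data for `X`, then `(e, κ(τ ., τ .))` are data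
for `X ∘ τ` for every permutation `τ` (WG (2), (6)). Let `σ` be a permutation with `σ p = p'`, ..., `σ j = j'`; add the identities `Idm` for the data of `X ∘ τ`, `τ = σ, σ (p q), σ (i j), σ (p q)(i j)`. It is `∑ b u v • κ (σ u) (σ v)` with `b u v = s` for `u ∈ {p, q}`, `v ∈ {i, j}`, `b u v = t` for `u ∈ {i, j}`, `v ∈ {p, q}`, and
for all other pairs the coefficient is even (if `u, v ∉ {p, q}` or `u, v ∉ {i, j}` the four terms agree in pairs). (2) Exchange `p', q'` with `i', j'`: `s • S' + t • S = 0`, where `S = S(p',q',i',j')`, `S' = S(i',j',p',q')`. So `(s + t) • (S + S') = 0`. If `s + t` is not `Nl` (then it is injective on `Sx A`): `S + S' = 0`, `S' = S`,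
`(s + t) • S = 0`, `S = 0`; for every `X` there are data (K1), and `Sqw X p' q' i' j' m = S` (the pairs `p q`, `q p`, `i j`, `j i` and those with the first letter of `m` cancel; `m` is not empty because its length is `g - 3`), so `SQ1`, a contradiction. If `s` is not `Nl`: `s • (S + S') = (s • S + t • S') + (s + t) • S' = 0` (up to even multiples), so `S + S' = 0`, which
is `SQ2`. -/
def St_IDM : Prop := ∀ (K : Type) [CommRing K] (A : Type) [NonUnitalRing A] [Module K A] [IsScalarTower K A A]
  [SMulCommClass K A A] (M H : AddSubgroup A) (g : ℕ), Kst K 2 M H → 6 ≤ g → ¬ SQ1 A g →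
  ∀ a : Option (Fin g) → Option (Fin g) → K, Idm K A g a → ∀ p q i j : Option (Fin g), [p, q, i, j].Nodup →
  Nl K A (a p i + a p j + a q i + a q j + (a i p + a j p + a i q + a j q)) ∧
  (Nl K A (a p i + a p j + a q i + a q j) ∨ SQ2 A g)

/-- [EVL] PROOF. (1) One word: `adj κ w = ∑ i, ∑ j, (adj (indicator of i j) w) • κ i j`, by induction on `w`; add up. (2) A word which contains `i` once has no pair `i i`. (3) In a word which contains `j` once, `j` is the first letter or there is exactly one pair `i j`. -/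
def St_EVL : Prop := ∀ (K : Type) [CommRing K] (A : Type) [NonUnitalRing A] [Module K A] (ι : Type) [Fintype ι] [DecidableEq ι]
  (L : List (K × List ι)), (∀ q ∈ L, ∀ i, q.2.count i = 1) →
  (∀ (x : ι → A) (e : A) (κ : ι → ι → A), (∀ w : List ι, (∀ i, w.count i = 1) → wp (w.map x) = e + adj κ w) →
    Ew L x = tf L • e + ∑ i, ∑ j, cf L i j • κ i j) ∧
  (∀ i, cf L i i = 0) ∧ ∀ j, hf L j + ∑ i, cf L i j = tf L

/-- [F0A] Uses BAS, EVL, WG. PROOF. `y * Ew L x` is the value of the words `none :: q.2.map some` in `X = fun o => o.elim y x`, which is `C e + ∑ a i j κ (some i) (some j) + ∑ h j κ none (some j)`, `C = tf L`, `a = cf L`, `h = hf L`. If `q.2 = u ++ p :: t`, the product of `q.2.map (update x p (x p * y))` is that of the word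
`u.map some ++ some p :: none :: t.map some`; in the value the pair `p j` is replaced by the pair `none j`, and the pair `p none` is added: `Ew L (update x p (x p * y)) = C e + ∑_(i ≠ p) a i j κ (some i) (some j) + ∑ a p j κ none (some j) + C κ (some p) none`. The sum of the two (both are 0) is
`∑ a p j κ (some p) (some j) + ∑ (h j + a p j) κ none (some j) + C κ (some p) none`, even multiples are 0; `a p p = 0` and every `X` is of the form `fun o => o.elim y x`. -/
def St_F0A : Prop := ∀ (K : Type) [CommRing K] (A : Type) [NonUnitalRing A] [Module K A] [IsScalarTower K A A]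
  [SMulCommClass K A A] (M H : AddSubgroup A) (g : ℕ), Kst K 2 M H → 6 ≤ g → ∀ L : List (K × List (Fin g)),
  (∀ q ∈ L, ∀ i, q.2.count i = 1) → (∀ (x : Fin g → A) (y : A), y * Ew L x = 0) →
  (∀ (p : Fin g) (x : Fin g → A) (y : A), Ew L (Function.update x p (x p * y)) = 0) → ∀ p : Fin g, Idm K A g (mF L p)

/-- [F0B] Uses BAS, IDM, EVL. PROOF. Write `≡` for congruence modulo `Nl` (it is an ideal which contains 2, by BAS). `a = cf L`, `h = hf L`, `C = tf L`; letters are different. (1) IDM for `mF L p` and `some p, some q, some i, some j`: the sum is `a p i + a p j`; so `a p i ≡ a p j` for all `i, j ≠ p`. (2) IDM for `mF L p` and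
`some p, some q, some i, none`: `(a p i + C) + (h p + a p p + h q + a p q) ≡ 0`, so `C ≡ h p + h q` for all `p ≠ q`. So `h q ≡ h q'` for all `q, q'` (use a third letter), and `C ≡ 2 h q ≡ 0`. (3) `C = h j + ∑_(i ≠ j) a i j ≡ h j + ∑_(i ≠ j) ρ i`, where `ρ i` is one of the `a i k`; so `∑_(i ≠ j) ρ i` is the same for all `j`, i.e. all `ρ j` are congruent. -/
def St_F0B : Prop := ∀ (K : Type) [CommRing K] (A : Type) [NonUnitalRing A] [Module K A] [IsScalarTower K A A]
  [SMulCommClass K A A] (M H : AddSubgroup A) (g : ℕ), Kst K 2 M H → 6 ≤ g → ¬ SQ1 A g → ∀ L : List (K × List (Fin g)),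
  (∀ q ∈ L, ∀ i, q.2.count i = 1) → (∀ p : Fin g, Idm K A g (mF L p)) →
  Nl K A (tf L) ∧ ∃ ρ : K, ∀ i j : Fin g, i ≠ j → Nl K A (cf L i j + ρ)

/-- [F0C] Uses BAS, K1, EVL, TBE. PROOF. K1 for `x`: `e`, `κ`. EVL: `Ew L x = C e + ∑ a i j κ i j`; `C e = 0`, `a i j κ i j = ρ κ i j` for `i ≠ j` (`(a i j + ρ) κ i j = 0`, even multiples are 0), `a i i = 0`. TBE: `Vg J x = ∑_(i ≠ j) κ i j`. -/
def St_F0C : Prop := ∀ (K : Type) [CommRing K] (A : Type) [NonUnitalRing A] [Module K A] [IsScalarTower K A A]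
  [SMulCommClass K A A] (M H : AddSubgroup A) (g : ℕ), Kst K 2 M H → 6 ≤ g → ∀ (L : List (K × List (Fin g))) (ρ : K)
  (J : List (ℤ × List ℕ)), (∀ q ∈ L, ∀ i, q.2.count i = 1) → Nl K A (tf L) → (∀ i j : Fin g, i ≠ j → Nl K A (cf L i j + ρ)) →
  Orr g eJ 0 J → ∀ x : Fin g → A, Ew L x = ρ • Vg J x

/-- [FDA] Uses BAS, WG. PROOF. Let `X = fun o => o.elim y x` with data `e`, `κ`; write `y` for `none`. For a word `u i v i t` (two letters `i`) the polarisation `F (update x i (x i + y)) - F x - F (update x i y)` is the sum of the values of `u i v y t` and `u y v i t`. So the polarisation of `X i` (words `h i i t`, `i t h i`; `t` a list) is the sum of the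
values of `h i y t`, `h y i t`, `i t h y`, `y t h i`, i.e. `κ i y + κ y i`; that of `P i j` (words `i j i m`, `i m j i`): `i j y m`, `y j i m`, `i m j y`, `y m j i`: `κ i j + κ y j`; that of `Q i j` (words `m i j i`, `i j m i`): `m i j y`, `m y j i`, `i j m y`, `y j m i`: `κ j y + κ j i`. (All other pairs occur twice.) So the hypothesis says
`E (κ i y + κ y i) + ∑_(j ≠ i) (r j (κ i j + κ y j) + l j (κ j y + κ j i)) = 0`. -/
def St_FDA : Prop := ∀ (K : Type) [CommRing K] (A : Type) [NonUnitalRing A] [Module K A] [IsScalarTower K A A]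
  [SMulCommClass K A A] (M H : AddSubgroup A) (g : ℕ), Kst K 2 M H → 6 ≤ g → ∀ (i : Fin g) (E : K) (r l : Fin g → K),
  (∀ (x : Fin g → A) (y : A),
    Pu g i E r l (Function.update x i (x i + y)) = Pu g i E r l x + Pu g i E r l (Function.update x i y)) →
  Idm K A g (mD i E r l)

/-- [FDB] Uses BAS, IDM, SQA, EQV. PROOF. The values `X i`, `P i j`, `Q i j` are in `Sx A`. (1) `Pu g i 1 (fun _ => 1) 0 x = X i + ∑_(j ≠ i) P i j` vanishes if `x a = x b`, `a ≠ b` (EQV: if `i ≠ a, b` it is `P i a + P i b = 2 P i a = 0`; if `i = a` it is `X a + P a b = 2 X a = 0`, the same for `i = b`), so it is 0 by `NPu`: `∑_(j ≠ i) P i j = X i`.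
In the same way `∑_(j ≠ i) Q i j = X i`. (2) IDM for `mD i E r l` and `some i, some j, some k, some m` (different): `r k + r m + (l k + l m)` is `Nl`, and `r k + r m` is `Nl` or `SQ2 A g`. Let `k` be a fixed letter `≠ i`. (3) If not `SQ2 A g`: `r m + r k` and `l m + l k` are `Nl` for all `m ≠ i`, so
`Pu g i E r l x = E X i + r k ∑ P i m + l k ∑ Q i m = (E + r k + l k) X i`. (4) If `SQ2 A g`: by SQA (2) `P i j + Q i j` is the same for all `j ≠ i`; `Pu g i 0 (Pi.single k 1) (Pi.single k 1) x = P i k + Q i k` vanishes if `x a = x b`, `a ≠ b` (it is `P i j + Q i j` for some `j ≠ i, a, b`, EQV), so it is 0 by `NPu`: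
`Q i j = P i j` for all `j ≠ i`. So `Pu g i E r l x = E X i + ∑ (r j + l j) P i j = E X i + (r k + l k) ∑ P i j = (E + r k + l k) X i`. -/
def St_FDB : Prop := ∀ (K : Type) [CommRing K] (A : Type) [NonUnitalRing A] [Module K A] [IsScalarTower K A A]
  [SMulCommClass K A A] (M H : AddSubgroup A) (g : ℕ), Kst K 2 M H → 6 ≤ g → NPu K A g → ¬ SQ1 A g →
  ∀ (i : Fin g) (E : K) (r l : Fin g → K), Idm K A g (mD i E r l) →
  ∃ ε : K, ∀ x : Fin g → A, Pu g i E r l x = ε • Vg (Xl g i.val) x

/-- [ADD] Uses TOP, PUW, LIN. PROOF. Every `Pu g i ..` is `Ew` of words of length `g + 1` (PUW). (1) `y * f x = 0` (`val`, `h0`), `y * Pu .. x = 0` (`top`). (2) `f (update x p (x p * y)) = f (update x p 0)` (`inv`, `mm`) `= 0` (`dep` with one coefficient 1); `Pu .. (update x p (x p * y)) = 0` (TOP (2), every word contains `p`, `mm`).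
(3) `Ew L₀` and `Pu g k ..`, `k ≠ i`, are additive in the argument `i` (LIN), so `Pu g i ..` is additive in the argument `i` if `f` is (`update x i (x i) = x`). -/
def St_ADD : Prop := ∀ (K : Type) [CommRing K] (A : Type) [NonUnitalRing A] [Module K A] [IsScalarTower K A A]
  [SMulCommClass K A A] (M H : AddSubgroup A) (g : ℕ) (f : (Fin g → A) → A) (L₀ : List (K × List (Fin g)))
  (E : Fin g → K) (r l : Fin g → Fin g → K), Bs K M H g → Good K 2 M H g f → (∀ q ∈ L₀, ∀ i, q.2.count i = 1) →
  (∀ x, f x = Ew L₀ x + ∑ i, Pu g i (E i) (r i) (l i) x) →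
  (∀ (x : Fin g → A) (y : A), y * Ew L₀ x = 0) ∧
  (∀ (p : Fin g) (x : Fin g → A) (y : A), Ew L₀ (Function.update x p (x p * y)) = 0) ∧
  ((∀ (i : Fin g) (x : Fin g → A) (y : A), f (Function.update x i (x i + y)) = f x + f (Function.update x i y)) →
    ∀ (i : Fin g) (x : Fin g → A) (y : A), Pu g i (E i) (r i) (l i) (Function.update x i (x i + y)) =
      Pu g i (E i) (r i) (l i) x + Pu g i (E i) (r i) (l i) (Function.update x i y))

/-- [FIN] Uses BAS, K1, WG, TBE, REL, EQV. PROOF. Let `z` be the letter 0. (1) `f (x ∘ swap a b) = f x`: `f` is additive in every argument, `f x = 0` if `x a = x b` (`dep` with the coefficients 1, -1), so `0 = f(x with x a + x b at both places) = f x + f (x ∘ swap a b)`, and `f x + f x = 0`. (2) `Vg J (x ∘ σ) = Vg J x`: if `e, κ` are the data of K1 for `x`,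
then `e, κ(σ ., σ .)` are data for `x ∘ σ` (WG (2), (6)), and TBE gives `Vg J (x ∘ σ) = ∑_(i ≠ j) κ (σ i) (σ j) = ∑_(i ≠ j) κ i j = Vg J x`. (3) REL: `Vg (Xl g i) (x ∘ σ) = Vg (Xl g (σ i)) x`. So `σ = swap z i` gives `(ε z + ε i)(X z + X i) = 0` for all `x` (values in `Sx A`, even multiples are 0). (4) If `ε z + ε i` is `Nl` for all `i`:
`f x = ρ Vg J x + ε z ∑ X i = Kc [ε z, ρ] [SX g, J] x` (`Vg (SX g) x = ∑ i, Vg (Xl g i) x`). (5) Otherwise there is `i ≠ z` with `X i = X z` for all `x` (BAS). For `j ≠ z` and `σ = swap i j` (it fixes `z`): `X j` at `x` is `X i` at `x ∘ σ`, `= X z` at `x ∘ σ`, `= X z` at `x`. So `X z = Pu g z 1 0 0 x` vanishes if `x a = x b`, `a ≠ b`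
(it is `X j` with `j ≠ a, b`, EQV (1)), so it is 0 by `NPu`, all `X j` are 0, and `f x = ρ Vg J x = Kc [0, ρ] [SX g, J] x`. -/
def St_FIN : Prop := ∀ (K : Type) [CommRing K] (A : Type) [NonUnitalRing A] [Module K A] [IsScalarTower K A A]
  [SMulCommClass K A A] (M H : AddSubgroup A) (g : ℕ) (f : (Fin g → A) → A) (J : List (ℤ × List ℕ)) (ρ : K) (ε : Fin g → K),
  Kst K 2 M H → 6 ≤ g → NPu K A g → Good K 2 M H g f →
  (∀ (i : Fin g) (x : Fin g → A) (y : A), f (Function.update x i (x i + y)) = f x + f (Function.update x i y)) →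
  Orr g eJ 0 J → (∀ x, f x = ρ • Vg J x + ∑ i : Fin g, ε i • Vg (Xl g i.val) x) →
  ∃ c : List K, c.length = 2 ∧ Good K 2 M H g (Kc c [SX g, J])

/-- [TwB] Case B. Uses BAS, TBX, WPU, RPL, GDX, PUR, POL, SQB, F0A, F0B, F0C, FDA, FDB, ADD, FIN. PROOF. If `Kc c [Xl g 0, SP g, SQ g, Pl g 1, Ql g 1]` is good for some `c` of length 5 we are done. Otherwise `NPu K A g` (GDX, PUR). So not `SQ1 A g` (SQB), and `f` is additive (POL). RPL: `f = Ew L₀ + Ew L₁`; split `L₁` according to the letter which occurs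
twice (e.g. `L₁.filter (fun q => q.2.count i = 2)`) and use WPU: `f x = Ew L₀ x + ∑ i, Pu g i (E i) (r i) (l i) x`. ADD; F0A, F0B, F0C (`J` from TBX): `Ew L₀ x = ρ Vg J x`. FDA, FDB: `Pu g i (E i) (r i) (l i) x = ε i Vg (Xl g i) x`. FIN; `B = [SX g, J]`. -/
def St_TwB : Prop := ∀ (K : Type) [CommRing K] (A : Type) [NonUnitalRing A] [Module K A] [IsScalarTower K A A]
  [SMulCommClass K A A] (M H : AddSubgroup A) (g : ℕ) (f : (Fin g → A) → A), Kst K 2 M H → Mt M → 6 ≤ g →
  (∀ l : List A, g + 2 ≤ l.length → wp l = 0) → Dm K 2 M g → Wf K g f → Good K 2 M H g f →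
  (∃ l : List A, g + 1 ≤ l.length ∧ wp l ≠ 0) →
  ∃ (B : List (List (ℤ × List ℕ))) (c : List K), Tb2 g B ∧ c.length = B.length ∧ Good K 2 M H g (Kc c B)

/-- [Two] The theorem for `p = 2`. Uses TwA, TwB, TwC. PROOF. `Tn 2 g = g + 3`. -/
def St_Two : Prop := KTh 2 Tb2

end Pool.Agent.CRS
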