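import Pool.Agent.CRS.StC

/-!
Campaign CRS (problem MP_1bb14d_al, stage 8).  Frozen statements, part Q: the form without the condition `6 ≤ g`: either
all words have length at most 5, or the words are given by the tables.  Rules as in `StC.lean`.
-/

set_option autoImplicit false

namespace Pool.Agent.CRS

open Pool.Agent.CRR Pool.Agent.CRN Pool.Agent.CRK Pool.Agent.CRL Pool.Agent.CRM Pool.Agent.CRP
open Pool.Agent.CRQ

/-- All words have length at most 5 and contain exactly the letters `0, ..., g - 1`. -/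
def Shw (g : ℕ) (B : List (List (ℤ × List ℕ))) : Prop :=
  ∀ b ∈ B, ∀ q ∈ b, (∀ i, i ∈ q.2 ↔ i < g) ∧ q.2.length ≤ 5

/-- A product of at least six elements, three of them in `M`, is zero if all longer products are zero. -/
def Mu {A : Type} [NonUnitalRing A] (M : AddSubgroup A) : Prop :=
  ∀ m₁ ∈ M, ∀ m₂ ∈ M, ∀ m₃ ∈ M, ∀ l₁ l₂ l₃ l₄ : List A,
  3 ≤ l₁.length + l₂.length + l₃.length + l₄.length →
  (∀ l : List A, l₁.length + l₂.length + l₃.length + l₄.length + 4 ≤ l.length → wp l = 0) →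
  wp (l₁ ++ m₁ :: (l₂ ++ m₂ :: (l₃ ++ m₃ :: l₄))) = 0

/-- The form of the two main theorems. -/
def KTg (p : ℕ) (Tb : ℕ → List (List (ℤ × List ℕ)) → Prop) : Prop :=
  ∀ (K : Type) [CommRing K] (A : Type) [NonUnitalRing A] [Module K A] [IsScalarTower K A A]
    [SMulCommClass K A A] (M H : AddSubgroup A) (g : ℕ) (f : (Fin g → A) → A),
    Kst K p M H → 1 ≤ g → (7 ≤ Tn p g → ∀ l : List A, Tn p g ≤ l.length → wp l = 0) →
    Dm K p M g → Gn K M g → Mt M → Mu M → Wf K g f → Good K p M H g f →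
    ∃ (B : List (List (ℤ × List ℕ))) (c : List K), Tb g B ∧ c.length = B.length ∧
      Good K p M H g (Kc c B)

section types

variable (Tb : ℕ → ℕ → List (List (ℤ × List ℕ)) → Prop) (R : Type) [NonUnitalRing R]

/-- The nilpotent type for powers of 2 and 3. -/
def NilG : Prop := (∀ x : R, x * x * x = 0) ∧ ∃ (p : ℕ) (H : AddSubgroup R), (p = 2 ∨ p = 3) ∧
  (∃ r : ℕ, ∀ x : R, (p ^ r) • x = 0) ∧ Lst R H ∧
  ∃ (g : ℕ) (B : List (List (ℤ × List ℕ))) (c : List ℤ), Tb p g B ∧ c.length = B.length ∧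
    (∃ z : Fin g → R, NonUnitalSubring.closure (Set.range z) = ⊤) ∧
    (∀ x : Fin g → R, Kc c B x ∈ H ∧
      (∀ y : Fin g → R, (∀ i, x i - y i ∈ KJ R p) → Kc c B x = Kc c B y) ∧
      (NonUnitalSubring.closure (Set.range x) ≠ ⊤ → Kc c B x = 0)) ∧
    ∃ x : Fin g → R, Kc c B x ≠ 0

variable {R} in
/-- `∑ C_i(t) B_i(x)`. -/
def Lc (e : R) (c : List (List (ℤ × ℕ))) (B : List (List (ℤ × List ℕ))) {g : ℕ} (t : R)
    (x : Fin g → R) : R := ((c.zip B).map fun q => Cv q.1 e t * Vg q.2 x).sum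

/-- The central local type for powers of 2 and 3. -/
def CenG (n : ℕ) : Prop := ∃ (p : ℕ) (e t₀ : R) (H : AddSubgroup R), (p = 2 ∨ p = 3) ∧
  Lcx R n p e t₀ H ∧ (∀ r, t₀ * r = r * t₀) ∧ (NonUnitalSubring.closure ({t₀} : Set R) = ⊤ ∨
    ∃ (g : ℕ) (B : List (List (ℤ × List ℕ))) (c : List (List (ℤ × ℕ))), Tb p g B ∧
    c.length = B.length ∧
    (∃ z : Fin g → R, (∀ i, Nl (z i)) ∧ NonUnitalSubring.closure ({t₀} ∪ Set.range z) = ⊤) ∧
    (∀ (t : R) (x : Fin g → R), Frame R n 1 (fun _ => t) → (∀ i, Nl (x i)) →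
      Lc e c B t x ∈ H ∧
      (∀ y : Fin g → R, (∀ i, Nl (y i) ∧ x i - y i ∈ KJ R p) → Lc e c B t x = Lc e c B t y) ∧
      (NonUnitalSubring.closure ({t} ∪ Set.range x) ≠ ⊤ → Lc e c B t x = 0)) ∧
    ∃ (t : R) (x : Fin g → R), Frame R n 1 (fun _ => t) ∧ (∀ i, Nl (x i)) ∧ Lc e c B t x ≠ 0)

end types

/-- **NTQ** (from `Jk0`, `Jkz`, `St_Exp`).  PROOF.  As `St_Ntp`: only `7 ≤ Tn p g` is used (for `x = p a` the product is `p` times a product of at least 7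
elements; for `p = 2` `Tn p g = g + 3 ≥ 7`). -/
def St_Ntq : Prop := ∀ (R : Type) [NonUnitalRing R] [Finite R] (p g : ℕ), (p = 2 ∨ p = 3) →
  (∀ x : R, x * x * x = 0) → (∃ r : ℕ, ∀ x : R, (p ^ r) • x = 0) → 7 ≤ Tn p g →
  (∃ z : Fin g → R, NonUnitalSubring.closure (Set.range z) = ⊤) →
  ∀ l : List R, Tn p g ≤ l.length → wp l = 0

/-- **LTQ** (from `Jk0`, `Jkz`, `St_Exp`, `St_Lso`).  PROOF.  As `St_Ltp`: only `7 ≤ Tn p g` is used (for `x = p a` the product is `p` times a product of at least 6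
elements of `J`). -/
def St_Ltq : Prop := ∀ (n p N : ℕ) (R : Type) [NonUnitalRing R] [Finite R] (e t₀ : R) (g : ℕ),
  (p = 2 ∨ p = 3) → Cnx n p N e t₀ → 7 ≤ Tn p g →
  (∃ z : Fin g → R, (∀ i, Nl (z i)) ∧ NonUnitalSubring.closure ({t₀} ∪ Set.range z) = ⊤) →
  ∀ l : List R, (∀ x ∈ l, Nl x) → Tn p g ≤ l.length → wp l = 0

/-- **LCX** (from `St_Lch`, `St_Cfx`, `St_Lwa`).  PROOF.  `χ` from `St_Lch`, `p^r R = 0`, `χ' = χ^(p^r)` (a list with this value for all `t`).  `Cv χ e t = e + p a`, `a ∈ W` (`St_Lwa` (2)):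
`(e + p a)^(p^r) = e` (`(e + p^k a)^p = e + p^(k+1) a'`, or the binomial theorem: `p^(r+1)` divides `binom(p^r, j) p^j` for `j ≥ 1`, up to `j! ...`; induction on `k`).
`Cv χ e t = p a`: the power is `p^(p^r) a^(p^r) = 0` (`p^r ≥ r`). -/
def St_Lcx : Prop := ∀ (n p N : ℕ) (R : Type) [NonUnitalRing R] [Finite R] (e t₀ : R),
  Cnx n p N e t₀ → ∃ χ : List (ℤ × ℕ), ∀ t : R, Frame R n 1 (fun _ => t) →
    (Eqf e t t₀ → Cv χ e t = e) ∧ (¬ Eqf e t t₀ → Cv χ e t = 0)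

/-- **LBQ** (from `St_Cfx`, `St_Lkb`, `St_Lcx`).  PROOF.  As `St_Lbk`, with `χ` from `St_Lcx`: `f t x = f₀ t x` if `t` is conjugate to `t₀`, `f t x = 0` otherwise. -/
def St_Lbq : Prop := ∀ (n p N : ℕ) (R : Type) [NonUnitalRing R] [Finite R] (e t₀ : R)
  (H : AddSubgroup R) (S : NonUnitalSubring R)
  (hS : ∀ (s : Ftp n e t₀) (x : R), x ∈ S → s.1 * x ∈ S) (g : ℕ)
  (B : List (List (ℤ × List ℕ))) (c : List (Polynomial ℤ)), (p = 2 ∨ p = 3) →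
  Cnx n p N e t₀ → (∀ x, x ∈ S ↔ Nl x) →
  (∃ z : Fin g → R, (∀ i, Nl (z i)) ∧ NonUnitalSubring.closure ({t₀} ∪ Set.range z) = ⊤) →
  c.length = B.length →
  (letI := Lca_mod (Ftp n e t₀) (fun s => s.1) S hS
   Good (Polynomial ℤ) p (Fsg (Ftp n e t₀) S (KJ R p)) (Fsg (Ftp n e t₀) S H) g
      (fun x : Fin g → Ftp n e t₀ → S => Kc c B x)) →
  ∃ c' : List (List (ℤ × ℕ)), c'.length = B.length ∧
    (∀ (t : R) (x : Fin g → R), Frame R n 1 (fun _ => t) → (∀ i, Nl (x i)) →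
      Lc e c' B t x ∈ H ∧
      (∀ y : Fin g → R, (∀ i, Nl (y i) ∧ x i - y i ∈ KJ R p) → Lc e c' B t x = Lc e c' B t y) ∧
      (NonUnitalSubring.closure ({t} ∪ Set.range x) ≠ ⊤ → Lc e c' B t x = 0)) ∧
    ∃ (t : R) (x : Fin g → R), Frame R n 1 (fun _ => t) ∧ (∀ i, Nl (x i)) ∧ Lc e c' B t x ≠ 0

/-- **NYB.**  As `St_Nxb`. -/
def St_Nyb : Prop := ∀ Tb : ℕ → ℕ → List (List (ℤ × List ℕ)) → Prop, Tbw Tb →
  ∀ (R : Type) [NonUnitalRing R] [Finite R], NilG Tb R → Critical R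

/-- **LYB.**  As `St_Lxb`; if `t₀` generates `R`: `CRQ.Lcb_one` (see `CRQ/Lcb.lean`; the order prime to 6 is not needed there, otherwise copy). -/
def St_Lyb : Prop := ∀ Tb : ℕ → ℕ → List (List (ℤ × List ℕ)) → Prop, Tbw Tb →
  ∀ (n : ℕ) (R : Type) [NonUnitalRing R] [Finite R], 4 ≤ n → InM n R → ¬ Twn R → CenG Tb R n →
  Critical R

/-- **NMU** (from `Jk0`).  PROOF.  `m_i` is a sum of products (then the product has more factors and is `0`) and elements `p a_i`: `p^3` times a product of at least six elements. -/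
def St_Nmu : Prop := ∀ (R : Type) [NonUnitalRing R] (p : ℕ), (p = 2 ∨ p = 3) →
  (∀ x : R, x * x * x = 0) → (∃ r : ℕ, ∀ x : R, (p ^ r) • x = 0) → Mu (KJ R p)

/-- **LMV.**  PROOF.  Pointwise.  `p e` is nil (`KJ R p ⊆ J`), so `p^3 R = 0`; `m_i` at `s` is a sum of products of two nil elements (then the product has more factors) and elements
`p a_i`, `a_i ∈ R`: the product is `p^3` times an element of `R`. -/
def St_Lmv : Prop := ∀ (n p N : ℕ) (R : Type) [NonUnitalRing R] [Finite R] (e t₀ : R)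
  (S : NonUnitalSubring R), Cnx n p N e t₀ → (∀ x, x ∈ S ↔ Nl x) →
  Mu (Fsg (Ftp n e t₀) S (KJ R p))

/-! ### Assembly (helper39) -/

/-- **NYF.** -/
def St_Nyf : Prop := ∀ Tb : ℕ → ℕ → List (List (ℤ × List ℕ)) → Prop, KTg 2 (Tb 2) → KTg 3 (Tb 3) →
  ∀ (R : Type) [NonUnitalRing R] [Finite R], ¬ (Nat.card R).Coprime 6 → NFl R → NilG Tb R

/-- **LYF.** -/
def St_Lyf : Prop := ∀ Tb : ℕ → ℕ → List (List (ℤ × List ℕ)) → Prop, KTg 2 (Tb 2) →
  KTg 3 (Tb 3) → ∀ (n : ℕ) (R : Type) [NonUnitalRing R] [Finite R], 4 ≤ n → InM n R → ¬ Twn R →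
  ¬ (Nat.card R).Coprime 6 → CFl R n → CenG Tb R n

/-- **FIY.**  The theorem. -/
def St_Fiy : Prop := ∀ Tb : ℕ → ℕ → List (List (ℤ × List ℕ)) → Prop, Tbw Tb → KTg 2 (Tb 2) →
  KTg 3 (Tb 3) → ∀ n : ℕ, 4 ≤ n → ∀ (R : Type) [NonUnitalRing R] [Finite R], InM n R →
  (Critical R ↔ MatType R 2 ∨ MatType R 3 ∨ TriType R ∨ TriType Rᵐᵒᵖ ∨
    (¬ Twn R ∧ (PthType R n ∨ PthType Rᵐᵒᵖ n ∨ Twl R n ∨
      ((Nat.card R).Coprime 6 ∧ (CenT R n ∨ NilT R)) ∨ CenG Tb R n ∨ NilG Tb R)))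

end Pool.Agent.CRS
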