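import Pool.Agent.CRS.StB

/-!
Campaign CRS, p = 3: there are not two letters of degree 2 and two letters of degree 1 (problem MP_1bb14d_al, stage 7).
Statements of the modules.

Plan.  For a letter `i` of degree 2 and a letter `j` of degree 1 the operator `Ddo i j` puts `x_j = x_i` in a function `F` and takes
the part which is linear in `x_j` afterwards.  It is 0 on functions which are zero for `x_j = x_i`.  On the functions `vf N d S` it is
computed modulo `Jf N d (|S| + 1)` (`St_Ddv`).  Let `D` be the sum of the four `Ddo i j` for two letters `i, i'` of degree 2 and two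
letters `j, j'` of degree 1 and let `P` be the symmetrisation with respect to `i, i'` and the antisymmetrisation with respect to `j, j'`.
Then `(D - D^2) P = P` modulo `Jf N d (k + 1)` on `Jf N d k` (`St_Exa`, `St_Exg`); hence `P - (D - D^2) P` is nilpotent, but it fixes
a function with the symmetries which is killed by the `Ddo i j`.
-/

set_option autoImplicit false

namespace Pool.Agent.CRS

open Pool.Agent.CRR Pool.Agent.CRN Pool.Agent.CRK Pool.Agent.CRL Pool.Agent.CRM Pool.Agent.CRP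
open Pool.Agent.CRQ

section ops

variable {X G : Type} [AddCommGroup X] [AddCommGroup G]

/-- Composition with `τ`. -/
def pc (τ : (ℕ → X) → (ℕ → X)) : AddMonoid.End ((ℕ → X) → G) where
  toFun F := fun x => F (τ x)
  map_zero' := rfl
  map_add' _ _ := rfl

/-- Put `m x_i + n x_j` for `x_i` and for `x_j`. -/
def sbx (i j : ℕ) (m n : ℤ) (x : ℕ → X) : ℕ → X := fun k => if k = i ∨ k = j then m • x i + n • x j else x k

/-- Exchange of `x_i` and `x_j`. -/
def swx (i j : ℕ) (x : ℕ → X) : ℕ → X := fun k => x (Equiv.swap i j k)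

variable (X G) in
/-- `-(h(x_i + x_j) - h(x_i - x_j)) - h(x_j)` for `h(y) = F(.., y, .., y, ..)`. -/
def Ddo (i j : ℕ) : AddMonoid.End ((ℕ → X) → G) :=
  -(pc (sbx i j 1 1) - pc (sbx i j 1 (-1))) - pc (sbx i j 0 1)

/-- `P - (D - D^2) P`. -/
def Qo {M : Type} [AddCommGroup M] (P D : AddMonoid.End M) : AddMonoid.End M := P - (D - D * D) * P

variable (X G) in
/-- The operator for the letters `i, i', j, j'`. -/
def Qd (i i' j j' : ℕ) : AddMonoid.End ((ℕ → X) → G) :=
  Qo ((1 + pc (swx i i')) * (1 - pc (swx j j'))) (Ddo X G i j + Ddo X G i j' + Ddo X G i' j + Ddo X G i' j')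

end ops

/-- [Vma] Mathlib only. PROOF. (1) induction on `l1`. (2) strong induction on `l1` with the equations of `brv` (the lengths are the same): `cm` is additive in both arguments; for `l1 = []`, `l1 = [x]` the cases of the length of `l2` (0, 1, 2, more); for `l1 = x :: y :: l` it is `cm x y *` the induction
hypothesis. -/
def St_Vma : Prop := ∀ (U : Type) [Ring U] (l1 l2 : List U) (a b : U),
  ((l1 ++ (a + b) :: l2).prod = (l1 ++ a :: l2).prod + (l1 ++ b :: l2).prod) ∧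
  (brv (l1 ++ (a + b) :: l2) = brv (l1 ++ a :: l2) + brv (l1 ++ b :: l2))

/-- The function of a list of letters of which the first `n` are in the monomial and the others in the bracket. -/
def Vnl {U : Type} [Ring U] (N : NonUnitalSubring U) (n : ℕ) (L : List ℕ) : (ℕ → N) → U :=
  mo (L.take n) * br (L.drop n)

/-- [Dde] Uses Vma, Bra. PROOF. For lists of values put `v n L = (L.take n).prod * brv (L.drop n)`; it is additive in every place (Vma). Fix `x`, let `L_k` be the values of `l_k` at `x` (they do not depend on `x_i`, `x_j`), and `G p q r = v n (L_0 ++ p :: L_1 ++ q :: L_2 ++ r :: L_3)`, additive in every argument and `3 G = 0` on `N`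
(a product of at least one element of `N`, Bra 5). With `u = x_i`, `w = x_j` the value of `Ddo i j` of any of the three functions is `-(G (u+w) (u+w) (u+w) - G (u-w) (u-w) (u-w)) - G w w w = -2 (G u u w + G u w u + G w u u) - 3 G w w w = G u u w + G u w u + G w u u`. -/
def St_Dde : Prop := ∀ (U : Type) [Ring U] (N : NonUnitalSubring U), Nr N → ∀ (n i j : ℕ) (l0 l1 l2 l3 : List ℕ), i ≠ j →
  (∀ k ∈ l0 ++ l1 ++ l2 ++ l3, k ≠ i ∧ k ≠ j) →
  ∀ p q r : ℕ, (p = i ∧ q = i ∧ r = j) ∨ (p = i ∧ q = j ∧ r = i) ∨ (p = j ∧ q = i ∧ r = i) →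
  Ddo N U i j (Vnl N n (l0 ++ p :: (l1 ++ q :: (l2 ++ r :: l3)))) =
    Vnl N n (l0 ++ i :: (l1 ++ i :: (l2 ++ j :: l3))) + Vnl N n (l0 ++ i :: (l1 ++ j :: (l2 ++ i :: l3))) +
    Vnl N n (l0 ++ j :: (l1 ++ i :: (l2 ++ i :: l3)))

/-- [Ddj] Uses Dde, Dwp. PROOF. For a generator `mo l * br S`, `L = l ++ S`, `n = |l|` this is `Vnl N n L`; `L` contains `i` twice and `j` once (as `dW a b c` does), so it has the form in Dde, and the three lists there are rearrangements of `L`, so of `dW a b c`; `Vnl N n L'` is a generator of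
`Jf N d k` if `L'` is a rearrangement of `d` of the same length. -/
def St_Ddj : Prop := ∀ (U : Type) [Ring U] (N : NonUnitalSubring U), Nr N → ∀ (a b c k i j : ℕ), i ∈ lB a b → j ∈ lC a b c →
  ∀ F ∈ Jf N (dW a b c) k, Ddo N U i j F ∈ Jf N (dW a b c) k

/-- [Ddv] Uses Ddj, Dde, Vfp, Jpr, Swp, Bra, Dwp. PROOF. `d = dW a b c` contains `i` twice and `j` once. By Vfp 1 and Ddj `vf N d S` can be replaced by `mo l * br S` for any rearrangement `l` of `d.diff S`, and at the end every `mo l' * br S'`, `(l' ++ S').Perm d`, `S'` nodup, `|S'| = |S|`, by `vf N d S'`. Let `E = Ddo i j`.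
(1) `i, j` not in `S`: `l = i :: i :: j :: l'`; the three functions of Dde are `mo` of rearrangements of `l` times `br S`, so all three are `vf N d S` modulo `Jf`, `3 vf = 0`. (2) `i, j` in `S`: `l = i :: l'`, `S = S1 ++ i :: S2 ++ j :: S3` (or with `i, j` exchanged). The function with `j` at the place in `l` is 0
(`br` of a list which contains `i` twice). The two others are `mo l * br S` and `mo l * br S'`, `S' = S.map swap`, and `br S' = -br S` (`S'` arises by `2 |S2| + 1` exchanges of neighbours; or: `br S + br S'` is `br` with equal arguments, linearised). The sum is 0. (3) `i` in `S`, `j` not: `l = i :: j :: l'`, `S = S1 ++ i :: S2`: the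
functions are `mo (i :: j :: l') * br S`, `mo (j :: i :: l') * br S` (together `2 vf N d S = -vf N d S`) and `mo (i :: i :: l') * br (S1 ++ j :: S2)`. (4) `j` in `S`, `i` not: `l = i :: i :: l'`, `S = S1 ++ j :: S2`: `mo (i :: i :: l') * br S` and two functions `mo (i :: j :: l') * br (S1 ++ i :: S2)`. -/
def St_Ddv : Prop := ∀ (U : Type) [Ring U] (N : NonUnitalSubring U), Nr N → ∀ (a b c i j : ℕ), i ∈ lB a b → j ∈ lC a b c →
  ∀ S : List ℕ, S.Nodup → (∀ k ∈ S, k < a + b + c) →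
  (i ∉ S → j ∉ S → Ddo N U i j (vf N (dW a b c) S) ∈ Jf N (dW a b c) (S.length + 1)) ∧
  (i ∈ S → j ∈ S → Ddo N U i j (vf N (dW a b c) S) ∈ Jf N (dW a b c) (S.length + 1)) ∧
  (i ∈ S → j ∉ S → Ddo N U i j (vf N (dW a b c) S) -
    (vf N (dW a b c) (S.map (Equiv.swap i j)) - vf N (dW a b c) S) ∈ Jf N (dW a b c) (S.length + 1)) ∧
  (i ∉ S → j ∈ S → Ddo N U i j (vf N (dW a b c) S) -
    (vf N (dW a b c) S - vf N (dW a b c) (S.map (Equiv.swap i j))) ∈ Jf N (dW a b c) (S.length + 1))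

/-- [Exa] The computation. Mathlib only. PROOF. `S` is a rearrangement of `X ++ Z ++ R`, `X` consisting of `i, i'` only, `Z` of `j, j'` only, `R` without them, so `φ S = ± φ (X ++ Z ++ R)` (alternation). Write `e (x.. | z..)` for `φ` of `X ++ Z ++ R`, `P = (1 + s) (1 - s')`. (1) `P e(ii'|..) = 0` (`e(i'i|..) = -e(ii'|..)`);
`P e(..|) = 0`; `P e(|j) = 2 p1 = -P e(|j')`, `p1 = e(|j) - e(|j')`; `P e(|jj') = 4 p2 = p2`, `p2 = e(|jj')`; `P e(i|j) = P e(i'|j) = -P e(i|j') = -P e(i'|j') = q1`, `q1 = e(i|j) + e(i'|j) - e(i|j') - e(i'|j')`; `P e(i|jj') = P e(i'|jj') = 2 q2`, `q2 = e(i|jj') + e(i'|jj')`. The order in `X`, `Z` changes only the sign.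
(2) Let `E = D i j + D i j' + D i' j + D i' j'`. From the hypotheses (with `3 φ = 0`; the four summands in this order): `E e(|j) = (e(|j) - e(i|)) + 0 + (e(|j) - e(i'|)) + 0`, `E e(|j') = 0 + (e(|j') - e(i|)) + 0 + (e(|j') - e(i'|))`, so `E p1 = 2 p1 = -p1`. (3) `E e(|jj') = (e(|jj') - e(i|j')) + (e(|jj') - φ(j i R)) +
(e(|jj') - e(i'|j')) + (e(|jj') - φ(j i' R)) = 4 p2 - e(i|j') - e(i'|j') + e(i|j) + e(i'|j)`, so `E p2 = p2 + q1` (`φ(j i R) = -e(i|j)`). (4) `E e(i|j) = 0 + (φ(j' j R) - e(i|j)) + (e(i|j) - e(ii'|)) + 0 = -p2 - e(ii'|)`, in the same way `E e(i'|j) = -p2 + e(ii'|)`, `E e(i|j') = (φ(j j' R) - e(i|j')) + (e(i|j') - e(ii'|)) = p2 - e(ii'|)`,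
`E e(i'|j') = p2 + e(ii'|)`, so `E q1 = -4 p2 = -p2`. (5) `E e(i|jj') = 0 + 0 + (e(i|jj') - φ(i i' j' R)) + (e(i|jj') - φ(i j i' R)) = 2 e(i|jj') - e(ii'|j') + e(ii'|j)`, `E e(i'|jj') = 2 e(i'|jj') + e(ii'|j') - e(ii'|j)`, so `E q2 = 2 q2 = -q2`. (6) So `(E - E^2) = 1` on `p1, q2` (`-1 - 1 = 1`), `(E - E^2) p2 =
p2 + q1 - (p2 + q1 - p2) = p2`, `(E - E^2) q1 = -p2 + (p2 + q1) = q1`. -/
def St_Exa : Prop := ∀ (M : Type) [AddCommGroup M] (φ : List ℕ → M) (s s' : AddMonoid.End M)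
  (D : ℕ → ℕ → AddMonoid.End M) (i i' j j' : ℕ), [i, i', j, j'].Nodup →
  (∀ (l1 l2 : List ℕ) (x y : ℕ), φ (l1 ++ x :: y :: l2) = -φ (l1 ++ y :: x :: l2)) →
  (∀ S : List ℕ, (3 : ℤ) • φ S = 0) →
  (∀ S : List ℕ, S.Nodup → s (φ S) = φ (S.map (Equiv.swap i i')) ∧ s' (φ S) = φ (S.map (Equiv.swap j j'))) →
  (∀ S : List ℕ, S.Nodup → ∀ x ∈ [i, i'], ∀ y ∈ [j, j'],
    (x ∉ S → y ∉ S → D x y (φ S) = 0) ∧ (x ∈ S → y ∈ S → D x y (φ S) = 0) ∧
    (x ∈ S → y ∉ S → D x y (φ S) = φ (S.map (Equiv.swap x y)) - φ S) ∧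
    (x ∉ S → y ∈ S → D x y (φ S) = φ S - φ (S.map (Equiv.swap x y)))) →
  ∀ S : List ℕ, S.Nodup →
    Qo ((1 + s) * (1 - s')) (D i j + D i j' + D i' j + D i' j') (φ S) = 0

/-- [Exg] Uses Exa, Ddv, Ddj, Vfp, Jpr, Dwp. PROOF. `J = Jf N d (k + 1)` is stable under `pc (swx i i')`, `pc (swx j j')` (Jpr 4, Dwp 2) and under the `Ddo` (Ddj), so these operators act on `((ℕ → N) → U) ⧸ J` (`QuotientAddGroup.map`). Put `φ S = mk (vf N d S)` if `|S| = k` and all letters of `S` are `< a + b + c`,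
and 0 otherwise. The hypotheses of Exa hold: Vfp 3; Vfp 6; Vfp 4 (`pc (swx i i') F` is `fun x => F (fun t => x (swap i i' t))`); Ddv (the exchange of letters preserves the length and the bound). So `Qd F ∈ J` for `F = vf N d S` (`S` nodup, `|S| = k`). A generator `mo l * br S` of `Jf N d k` is in `J` if `|S| > k`, 0 if `S` is not nodup, and
`vf N d S` modulo `J` otherwise (Vfp 1). -/
def St_Exg : Prop := ∀ (U : Type) [Ring U] (N : NonUnitalSubring U), Nr N → ∀ (a b c k i i' j j' : ℕ),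
  i ∈ lB a b → i' ∈ lB a b → i ≠ i' → j ∈ lC a b c → j' ∈ lC a b c → j ≠ j' →
  ∀ F ∈ Jf N (dW a b c) k, Qd N U i i' j j' F ∈ Jf N (dW a b c) (k + 1)

/-- [Rlc] Mathlib only. PROOF. (1) `L` is the one word: `wp (w.map x)`, `((w.map x).map θ).prod` is `mo w (θ ∘ x)`. (2) `Rlx` is closed under addition (`L ++ L'`), negation and composition with `pc (sbx ..)`, `pc (swx ..)` (for `pc τ` use the list of the argument `τ x`; `θ ∘ τ x = τ (θ ∘ x)` because `θ` is additive), so under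
all operators which are obtained from these by addition, subtraction and composition. -/
def Rlx {A : Type} [NonUnitalRing A] {U : Type} [Ring U] {N : NonUnitalSubring U} (θ : A →+ N) (n : ℕ)
    (F : (ℕ → A) → A) (G : (ℕ → N) → U) : Prop :=
  ∀ x : ℕ → A, ∃ L : List (ℤ × List A), (∀ q ∈ L, q.2.length = n) ∧
    F x = (L.map fun q => q.1 • wp q.2).sum ∧
    G (fun k => θ (x k)) = (L.map fun q => q.1 • (q.2.map fun y => (θ y : U)).prod).sum

@[inherit_doc Rlx] def St_Rlc : Prop := ∀ (A : Type) [NonUnitalRing A] (U : Type) [Ring U] (N : NonUnitalSubring U)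
  (θ : A →+ N) (n : ℕ),
  (∀ w : List ℕ, w ≠ [] → w.length = n → Rlx θ n (eA w) (mo w)) ∧
  (∀ (F : (ℕ → A) → A) (G : (ℕ → N) → U), Rlx θ n F G → ∀ i i' j j' : ℕ,
    Rlx θ n (Qd A A i i' j j' F) (Qd N U i i' j j' G))

/-- [Exf] THE RESULT OF THIS PART. Uses Exg, Rlc, Res, Jpr, Dwp. PROOF. Take `i ≠ i'` in `lB a b`, `j ≠ j'` in `lC a b c`, `m = a + b + c + 1`, `Q = Qd i i' j j'`. (1) For `U`, `N`, `θ` from Res and `w` a rearrangement of `d = dW a b c`: `mo w ∈ Jf N d 0` (Jpr 2), so `Q^m (mo w) ∈ Jf N d m = ⊥` (Exg, Jpr 5, Dwp 1). By Rlc `Rlx θ |d| (Q^m (eA w)) (Q^m (mo w))`,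
so `Q^m (eA w) = 0` by Res (`|d| ≥ 6`). (2) `F x = (L.map fun q => q.1 • wp (q.2.map x)).sum`; `3 F = 0`; `P F = F + F - (-F) - (-F) = 4 F = F` for `P = (1 + pc (swx i i')) (1 - pc (swx j j'))`; all four `Ddo F` are 0, because `sbx i j m n x` has equal entries at `i` and `j`. So `Q F = F` and `Q^m F = F`. (3) `Q` commutes with the multiplication by
elements of `K` (on functions with values in `A`), so `F = Q^m F = ∑ q.1 • Q^m (eA q.2) = 0`. -/
def St_Exf : Prop := ∀ (K : Type) [CommRing K] (A : Type) [NonUnitalRing A] [Module K A],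
  (∀ x : A, x * x * x = 0) → (∃ r : ℕ, ∀ x : A, (3 ^ r) • x = 0) → (∀ l : List A, 6 ≤ l.length → (3 : ℤ) • wp l = 0) →
  ∀ a b c : ℕ, 6 ≤ (dW a b c).length → 2 ≤ b → 2 ≤ c → ∀ L : List (K × List ℕ), (∀ q ∈ L, q.2.Perm (dW a b c)) →
  (∀ i ∈ lB a b, ∀ j ∈ lB a b, ∀ x : ℕ → A, (L.map fun q => q.1 • wp (q.2.map fun k => x (Equiv.swap i j k))).sum =
    (L.map fun q => q.1 • wp (q.2.map x)).sum) →
  (∀ i ∈ lC a b c, ∀ j ∈ lC a b c, i ≠ j → ∀ x : ℕ → A,
    (L.map fun q => q.1 • wp (q.2.map fun k => x (Equiv.swap i j k))).sum =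
    -(L.map fun q => q.1 • wp (q.2.map x)).sum) →
  (∀ i ∈ lB a b, ∀ j ∈ lC a b c, ∀ x : ℕ → A, x j = x i → (L.map fun q => q.1 • wp (q.2.map x)).sum = 0) →
  ∀ x : ℕ → A, (L.map fun q => q.1 • wp (q.2.map x)).sum = 0

end Pool.Agent.CRS
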