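import Pool.Agent.CRS.CA5
import Pool.Agent.CRS.Gsh

/-!
Campaign CRS, p = 2: case A for five letters (proof of helper57 and helper73).
-/

set_option autoImplicit false

namespace Pool.Agent.CRS

open Pool.Agent.CRR Pool.Agent.CRN Pool.Agent.CRK Pool.Agent.CRL Pool.Agent.CRM Pool.Agent.CRP
open Pool.Agent.CRQ

theorem thm_TwF (hCAG : St_CAG5) (hCAV : St_CAV5) (hLAD : St_LAD) : St_TwF Ta5 := by
  intro K _ A _ _ _ _ M H f hK htop hne hDm _ hMt _ _
  have hN2 : N2 A := ⟨hK.cube, hK.pr⟩
  by_cases h1 : ∃ x : Fin 5 → A, Vg (A1 5) x ≠ 0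
  · refine ⟨[A1 5], [1], Or.inl rfl, rfl, ?_⟩
    refine hCAG K A M H 5 hK hMt le_rfl htop _ rfl ?_ h1
    intro i
    have h2 : ((List.range 5).erase 0).erase 1 = [2, 3, 4] := rfl
    rw [h2]
    simp only [List.mem_cons, List.not_mem_nil, or_false]
    omega
  · by_cases h2 : ∃ x : Fin 5 → A, Vg (A2 5) x ≠ 0
    · refine ⟨[A2 5], [1], Or.inr rfl, rfl, ?_⟩
      refine hCAG K A M H 5 hK hMt le_rfl htop _ rfl ?_ h2
      intro i
      have h2 : ((List.range 5).erase 0).erase 1 = [2, 3, 4] := rfl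
      rw [h2]
      simp only [List.mem_cons, List.not_mem_nil, or_false]
      omega
    · exfalso
      push Not at h1 h2
      have h3 := hLAD K A M H 5 7 hK hMt (by omega) htop hDm (hCAV A 5 hN2 le_rfl h1 h2)
      apply hne
      intro l hl
      rcases hl.eq_or_lt with h | h
      · exact h3 l h.symm
      · exact htop l h

/-- The words of the two tables. -/
theorem TwF_let (B : List (List (ℤ × List ℕ))) (hB : Ta5 5 B) :
    ∀ b ∈ B, ∀ q ∈ b, ∀ i, i ∈ q.2 ↔ i < 5 := by
  have h2 : ((List.range 5).erase 0).erase 1 = [2, 3, 4] := rfl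
  rcases hB with rfl | rfl <;> intro b hb q hq i <;>
    · rw [List.mem_singleton.1 hb] at hq
      rw [List.mem_singleton.1 hq, h2]
      simp only [List.mem_cons, List.not_mem_nil, or_false]
      omega

end Pool.Agent.CRS
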