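import Pool.Agent.CRS.AllC
import Pool.Agent.CRS.TwF
import Pool.Agent.CRS.Jzf

/-!
Campaign CRS: the table for `p = 2, 3` and the final theorem from the two main theorems (problem MP_1bb14d_al).
-/

set_option autoImplicit false

namespace Pool.Agent.CRS

open Pool.Agent.CRR Pool.Agent.CRN Pool.Agent.CRK Pool.Agent.CRL Pool.Agent.CRM Pool.Agent.CRP
open Pool.Agent.CRQ

/-- The theorem from the two main theorems. -/
theorem Tbl_fin (hJ : Jk0) (hZ : St_KZ) (h2 : KTh 2 Tb2) (hL2 : St_TBL) (hA : St_TwF Ta5)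
    (h3 : KTg 3 (fun g B => Wsh 5 g B ∨ Td3 g B))
    (hL3 : ∀ g B, Td3 g B → ∀ b ∈ B, ∀ q ∈ b, ∀ i, i ∈ q.2 ↔ i < g) :
    ∀ n : ℕ, 4 ≤ n → ∀ (R : Type) [NonUnitalRing R] [Finite R], InM n R →
    (Critical R ↔ MatType R 2 ∨ MatType R 3 ∨ TriType R ∨ TriType Rᵐᵒᵖ ∨
      (¬ Twn R ∧ (PthType R n ∨ PthType Rᵐᵒᵖ n ∨ Twl R n ∨
        ((Nat.card R).Coprime 6 ∧ (CenT R n ∨ NilT R)) ∨ CenE R n ∨ NilE R))) := by
  refine fiy hJ (thm_Jzf hZ) Tbl ?_ ?_ ?_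
  · rintro p g B (⟨rfl, h | ⟨rfl, h⟩ | ⟨h6, h⟩⟩ | ⟨rfl, h | h⟩) b hb q hq i
    · exact (h b hb q hq).1 i
    · exact TwF_let B h b hb q hq i
    · exact (hL2 g B h6 h b hb q hq).2 i
    · exact (h b hb q hq).1 i
    · exact hL3 g B h b hb q hq i
  · intro K _ A _ _ _ _ M H g f hK hg htop hDm hGn hMt hMu hW hG
    obtain ⟨B, c, hB, hl, hf⟩ := Gsh_two hZ Tb2 Ta5 hA h2 K A M H g f hK hg htop hDm hGn hMt hMu
      hW hG
    exact ⟨B, c, Or.inl ⟨rfl, hB⟩, hl, hf⟩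
  · intro K _ A _ _ _ _ M H g f hK hg htop hDm hGn hMt hMu hW hG
    obtain ⟨B, c, hB, hl, hf⟩ := h3 K A M H g f hK hg htop hDm hGn hMt hMu hW hG
    exact ⟨B, c, Or.inr ⟨rfl, hB⟩, hl, hf⟩

end Pool.Agent.CRS
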