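import Pool.Agent.CRS.StX
import Pool.Agent.CRS.StH
import Pool.Agent.CRS.Gsh

/-!
Campaign CRS (problem MP_1bb14d_al, stage 7), module Thr: the main theorem for `p = 3` from `St_Hom` and `St_Tkb`.
-/

set_option autoImplicit false

namespace Pool.Agent.CRS

open Pool.Agent.CRR Pool.Agent.CRN Pool.Agent.CRK Pool.Agent.CRL Pool.Agent.CRM Pool.Agent.CRP
open Pool.Agent.CRQ

/-- The tables for `p = 3` and the combinations of short words. -/
def Tg3 (g : ℕ) (B : List (List (ℤ × List ℕ))) : Prop := Wsh 5 g B ∨ Tb3 g B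

/-- Functions with the symmetries are combinations of the functions of the table `T a b c`. -/
def Thr_T (T : ℕ → ℕ → ℕ → List (List (ℤ × List ℕ))) : Prop :=
  ∀ (K : Type) [CommRing K] (A : Type) [NonUnitalRing A] [Module K A],
  (∀ x : A, x * x * x = 0) → (∃ r : ℕ, ∀ x : A, (3 ^ r) • x = 0) → (∀ l : List A, 6 ≤ l.length → (3 : ℤ) • wp l = 0) →
  ∀ a b c : ℕ, (b ≤ 1 ∨ c ≤ 1) → 6 ≤ (dW a b c).length → ∀ L : List (K × List ℕ), (∀ q ∈ L, q.2.Perm (dW a b c)) →
  (∀ i ∈ lB a b, ∀ j ∈ lB a b, ∀ x : ℕ → A, (L.map fun q => q.1 • wp (q.2.map fun k => x (Equiv.swap i j k))).sum =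
    (L.map fun q => q.1 • wp (q.2.map x)).sum) →
  (∀ i ∈ lC a b c, ∀ j ∈ lC a b c, i ≠ j → ∀ x : ℕ → A,
    (L.map fun q => q.1 • wp (q.2.map fun k => x (Equiv.swap i j k))).sum =
    -(L.map fun q => q.1 • wp (q.2.map x)).sum) →
  ∃ k : List K, k.length = (T a b c).length ∧ ∀ x : Fin (a + b + c) → A,
    (L.map fun q => q.1 • wp (q.2.map (xs x))).sum = Kc k (T a b c) x

theorem Thr_lA (a i : ℕ) : (lA a).count i = if i < a then 1 else 0 := by
  unfold lA
  by_cases h : i < a
  · rw [if_pos h]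
    exact List.count_eq_one_of_mem List.nodup_range (List.mem_range.2 h)
  · rw [if_neg h]
    exact List.count_eq_zero_of_not_mem (fun h' => h (List.mem_range.1 h'))

theorem Thr_range' (a b i : ℕ) : (List.range' a b).count i = if a ≤ i ∧ i < a + b then 1 else 0 := by
  by_cases h : a ≤ i ∧ i < a + b
  · rw [if_pos h]
    exact List.count_eq_one_of_mem List.nodup_range'
      (List.mem_range'.2 ⟨i - a, by omega, by omega⟩)
  · rw [if_neg h]
    refine List.count_eq_zero_of_not_mem (fun h' => h ?_)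
    obtain ⟨k, hk, rfl⟩ := List.mem_range'.1 h'
    omega

theorem Thr_count (a b c i : ℕ) : (dW a b c).count i = Dg a b c i := by
  unfold dW
  simp only [List.count_append, List.count_reverse, Thr_lA, lB, lC, Thr_range', Dg]
  split_ifs <;> omega

theorem Thr_len (a b c : ℕ) : (dW a b c).length = 3 * a + 2 * b + c := by
  unfold dW lA lB lC
  simp only [List.length_append, List.length_reverse, List.length_range, List.length_range']
  omega

theorem Thr_perm {a b c : ℕ} {w : List ℕ} (h : ∀ i, w.count i = Dg a b c i) : w.Perm (dW a b c) :=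
  List.perm_iff_count.2 fun i => by rw [h i, Thr_count]

theorem Thr_mem {a b c i : ℕ} : 0 < Dg a b c i ↔ i < a + b + c := by
  unfold Dg; split_ifs <;> omega

section one

variable {K : Type} [CommRing K] {A : Type} [NonUnitalRing A] [Module K A]

/-- Words in `Fin g` letters. -/
theorem Thr_xs {g : ℕ} (w : List ℕ) (hw : ∀ i ∈ w, i < g) (x : ℕ → A) :
    w.map x = w.map (xs fun l : Fin g => x l.val) := by
  refine List.map_congr_left fun i hi => ?_
  simp [xs, hw i hi]

theorem Thr_swap {g : ℕ} (w : List ℕ) (hw : ∀ i ∈ w, i < g) (x : ℕ → A) (i j : Fin g) :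
    w.map (fun k => x (Equiv.swap i.val j.val k)) =
      w.map (xs fun l : Fin g => (fun l : Fin g => x l.val) (Equiv.swap i j l)) := by
  refine List.map_congr_left fun k hk => ?_
  have hk' := hw k hk
  simp only [xs, hk', dif_pos]
  congr 1
  rw [Equiv.swap_apply_def, Equiv.swap_apply_def]
  simp only [Fin.ext_iff]
  split_ifs <;> rfl

end one

theorem Thr_ku (K A : Type) [CommRing K] [NonUnitalRing A] [Module K A] (p : ℕ) : Ku K A p (1 : K) :=
  ⟨1, fun x => ⟨0, by simp⟩⟩

theorem Thr_main (T : ℕ → ℕ → ℕ → List (List (ℤ × List ℕ))) (hH : St_Hom) (hT : Thr_T T)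
    (hX : St_Exf) (hJ : Jk0) : KTg 3 (fun g B => Wsh 5 g B ∨
      ∃ a b c : ℕ, a + b + c = g ∧ (b ≤ 1 ∨ c ≤ 1) ∧ B = T a b c) := by
  intro K _ A _ _ _ _ M H g f hk hg htop _ _ _ hMu hW hf
  have hTp : Tp3 M g := by
    have h0 : 2 ≤ g → ∀ l : List A, 3 * g + 1 ≤ l.length → wp l = 0 := by
      intro h2 l hl
      have e : Tn 3 g = 3 * g + 1 := by simp [Tn]
      exact htop (by rw [e]; omega) l (by rw [e]; exact hl)
    refine ⟨h0, fun h2 m₁ h₁ m₂ h₂ m₃ h₃ l₁ l₂ l₃ l₄ hl => hMu m₁ h₁ m₂ h₂ m₃ h₃ l₁ l₂ l₃ l₄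
      (by omega) fun l hl' => h0 h2 l (by omega)⟩
  obtain ⟨a, b, c, L, hg', hc, hGood, hs, ha⟩ := hH K A M H g f hk hTp hW hf
  have hp : ∀ q ∈ L, q.2.Perm (dW a b c) := fun q hq => Thr_perm (hc q hq)
  have hmem : ∀ q ∈ L, ∀ i, i ∈ q.2 ↔ i < g := by
    intro q hq i
    rw [← List.count_pos_iff, hc q hq i, Thr_mem, hg']
  have hlB : ∀ i ∈ lB a b, a ≤ i ∧ i < a + b := by
    intro i hi
    unfold lB at hi; obtain ⟨k, hk, rfl⟩ := List.mem_range'.1 hi; omega
  have hlC : ∀ i ∈ lC a b c, a + b ≤ i ∧ i < a + b + c := by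
    intro i hi
    unfold lC at hi; obtain ⟨k, hk, rfl⟩ := List.mem_range'.1 hi; omega
  have e2 : ∀ x : ℕ → A, (L.map fun q => q.1 • wp (q.2.map x)).sum =
      Lv L (xs fun l : Fin g => x l.val) := by
    intro x
    unfold Lv
    congr 1
    refine List.map_congr_left fun q hq => ?_
    rw [← Thr_xs q.2 (fun i hi => (hmem q hq i).1 hi) x]
  have e1 : ∀ (x : ℕ → A) (i j : Fin g),
      (L.map fun q => q.1 • wp (q.2.map fun k => x (Equiv.swap i.val j.val k))).sum =
      Lv L (xs fun l : Fin g => (fun l : Fin g => x l.val) (Equiv.swap i j l)) := by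
    intro x i j
    unfold Lv
    congr 1
    refine List.map_congr_left fun q hq => ?_
    rw [← Thr_swap q.2 (fun i hi => (hmem q hq i).1 hi) x i j]
  have hB2 : ∀ i ∈ lB a b, ∀ j ∈ lB a b, ∀ x : ℕ → A,
      (L.map fun q => q.1 • wp (q.2.map fun k => x (Equiv.swap i j k))).sum =
      (L.map fun q => q.1 • wp (q.2.map x)).sum := by
    intro i hi j hj x
    have hi' := hlB i hi
    have hj' := hlB j hj
    by_cases hij : i = j
    · subst hij; simp
    · have h := hs ⟨i, by omega⟩ ⟨j, by omega⟩ (fun h => hij (Fin.mk.inj_iff.1 h)) hi'.1 hi'.2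
        hj'.1 hj'.2 (fun l => x l.val)
      rw [e2 x, ← h]
      exact e1 x ⟨i, by omega⟩ ⟨j, by omega⟩
  have hC2 : ∀ i ∈ lC a b c, ∀ j ∈ lC a b c, i ≠ j → ∀ x : ℕ → A,
      (L.map fun q => q.1 • wp (q.2.map fun k => x (Equiv.swap i j k))).sum =
      -(L.map fun q => q.1 • wp (q.2.map x)).sum := by
    intro i hi j hj hij x
    have hi' := hlC i hi
    have hj' := hlC j hj
    have h := ha ⟨i, by omega⟩ ⟨j, by omega⟩ (fun h => hij (Fin.mk.inj_iff.1 h)) hi'.1
      hj'.1 (fun l => x l.val)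
    rw [e2 x, ← h]
    exact e1 x ⟨i, by omega⟩ ⟨j, by omega⟩
  have hJ3 : ∀ l : List A, 6 ≤ l.length → (3 : ℤ) • wp l = 0 := fun l hl => by
    have := hJ A 3 (Or.inr rfl) hk.cube hk.pr l hl
    rw [← this]; exact_mod_cast rfl
  by_cases h6 : 6 ≤ 3 * a + 2 * b + c
  · have hbc : b ≤ 1 ∨ c ≤ 1 := by
      by_contra hcon
      push Not at hcon
      obtain ⟨x, hx⟩ := hGood.ne
      apply hx
      have hdep : ∀ i ∈ lB a b, ∀ j ∈ lC a b c, ∀ x : ℕ → A, x j = x i →
          (L.map fun q => q.1 • wp (q.2.map x)).sum = 0 := by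
        intro i hi j hj x hxy
        have hi' := hlB i hi
        have hj' := hlC j hj
        have hne : (⟨i, by omega⟩ : Fin g) ≠ ⟨j, by omega⟩ := fun h => by
          have := Fin.mk.inj_iff.1 h; omega
        rw [e2]
        refine hGood.dep (fun l : Fin g => x l.val)
          (fun l => if l = ⟨j, by omega⟩ then 1 else if l = ⟨i, by omega⟩ then -1 else 0)
          ⟨j, by omega⟩ (by rw [if_pos rfl]; exact Thr_ku K A 3) ?_
        have e : ∑ l : Fin g, (if l = (⟨j, by omega⟩ : Fin g) then (1 : K) else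
            if l = ⟨i, by omega⟩ then -1 else 0) • x l.val = x j - x i := by
          rw [Finset.sum_eq_add (⟨j, by omega⟩ : Fin g) (⟨i, by omega⟩ : Fin g) hne.symm]
          · rw [if_pos rfl, if_neg hne, if_pos rfl]; simp [sub_eq_add_neg]
          · intro l _ hl
            rw [if_neg hl.1, if_neg hl.2, zero_smul]
          · intro h; exact absurd (Finset.mem_univ _) h
          · intro h; exact absurd (Finset.mem_univ _) h
        rw [e, hxy, sub_self]
        exact M.zero_mem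
      have h0 := hX K A hk.cube hk.pr hJ3 a b c (by rw [Thr_len]; exact h6) hcon.1 hcon.2 L hp
        hB2 hC2 hdep (xs x)
      exact h0
    obtain ⟨k, hk1, hk2⟩ := hT K A hk.cube hk.pr hJ3 a b c hbc (by rw [Thr_len]; exact h6) L hp
      hB2 hC2
    subst hg'
    refine ⟨T a b c, k, Or.inr ⟨a, b, c, rfl, hbc, rfl⟩, hk1, ?_⟩
    have e : (fun x : Fin (a + b + c) → A => Lv L (xs x)) = Kc k (T a b c) := by
      funext x; exact hk2 x
    rw [e] at hGood
    exact hGood
  · refine ⟨L.map fun q => [((1 : ℤ), q.2)], L.map Prod.fst, Or.inl ?_, by simp, ?_⟩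
    · intro B hB q hq
      obtain ⟨q', hq', rfl⟩ := List.mem_map.1 hB
      rw [List.mem_singleton] at hq
      subst hq
      refine ⟨hmem q' hq', ?_⟩
      rw [(hp q' hq').length_eq, Thr_len]
      omega
    · have e : (fun x : Fin g → A => Lv L (xs x)) =
          Kc (L.map Prod.fst) (L.map fun q => [((1 : ℤ), q.2)]) := by
        funext x; exact (Gsh_kc L x).symm
      rw [e] at hGood
      exact hGood

theorem thm_Thr (hH : St_Hom) (hT : St_Tkb) (hX : St_Exf) (hJ : Jk0) : KTg 3 Tg3 :=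
  Thr_main TB3 hH (fun K _ A _ _ h1 h2 h3 a b c _ => hT K A h1 h2 h3 a b c) hX hJ

end Pool.Agent.CRS
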