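import Pool.Agent.CRS.StB

/-!
Campaign CRS, p = 3: module Tkb, the result with coefficients in `K`.
-/

set_option autoImplicit false

namespace Pool.Agent.CRS

open Pool.Agent.CRR Pool.Agent.CRN Pool.Agent.CRK Pool.Agent.CRL Pool.Agent.CRM Pool.Agent.CRP
open Pool.Agent.CRQ

/-- The additive endomorphisms which commute with the multiplication by the elements of `K`. -/
private def Tkb_L (K : Type) [CommRing K] (M : Type) [AddCommGroup M] [Module K M] :
    Subring (AddMonoid.End M) where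
  carrier := {T | ∀ (k : K) (m : M), T (k • m) = k • T m}
  mul_mem' := by
    intro S T hS hT k m
    show S (T (k • m)) = k • S (T m)
    rw [hT, hS]
  one_mem' := fun _ _ => rfl
  add_mem' := by
    intro S T hS hT k m
    show S (k • m) + T (k • m) = k • (S m + T m)
    rw [hT, hS, smul_add]
  zero_mem' := by
    intro k m
    show (0 : M) = k • (0 : M)
    rw [smul_zero]
  neg_mem' := by
    intro S hS k m
    show -(S (k • m)) = k • (-(S m))
    rw [hS, smul_neg]

private theorem Tkb_X {K : Type} [CommRing K] {M : Type} [AddCommGroup M] [Module K M]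
    (s : ℕ → ℕ → AddMonoid.End M) (hs : ∀ i j, s i j ∈ Tkb_L K M) (i : ℕ) (l : List ℕ) :
    Xo s i l ∈ Tkb_L K M := by
  have hsum : (l.map (s i)).sum ∈ Tkb_L K M := by
    refine list_sum_mem ?_
    intro T hT
    obtain ⟨j, -, rfl⟩ := List.mem_map.1 hT
    exact hs i j
  unfold Xo
  split_ifs
  · exact one_mem _
  · exact neg_mem (add_mem (one_mem _) hsum)
  · exact mul_mem (add_mem (one_mem _) (mul_mem (add_mem (one_mem _) (hs _ _)) hsum))
      (neg_mem (add_mem (one_mem _) (hs _ _)))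

private theorem Tkb_T {K : Type} [CommRing K] {M : Type} [AddCommGroup M] [Module K M]
    (s : ℕ → ℕ → AddMonoid.End M) (hs : ∀ i j, s i j ∈ Tkb_L K M) (B : List ℕ) :
    To s B ∈ Tkb_L K M := by
  induction B with
  | nil => exact one_mem _
  | cons i l ih => exact mul_mem (Tkb_X s hs i l) ih

private theorem Tkb_sf {K : Type} [CommRing K] {X G : Type} [AddCommGroup G] [Module K G]
    (ε : ℤ) (B : List ℕ) (i j : ℕ) : (sf ε B i j : AddMonoid.End ((ℕ → X) → G)) ∈
      Tkb_L K ((ℕ → X) → G) := by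
  intro k F
  show (if i ∈ B ∧ j ∈ B then fun x : ℕ → X => ε • ((k • F) (fun t => x (Equiv.swap i j t))) else 0) =
    k • (if i ∈ B ∧ j ∈ B then fun x : ℕ → X => ε • (F (fun t => x (Equiv.swap i j t))) else 0)
  split_ifs
  · funext x
    simp only [Pi.smul_apply]
    exact smul_comm _ _ _
  · rw [smul_zero]

private theorem Tkb_P {K : Type} [CommRing K] {X G : Type} [AddCommGroup G] [Module K G]
    (a b c n : ℕ) : (Pf X G a b c) ^ n ∈ Tkb_L K ((ℕ → X) → G) :=
  pow_mem (mul_mem (Tkb_T _ (fun i j => Tkb_sf 1 _ i j) _) (Tkb_T _ (fun i j => Tkb_sf (-1) _ i j) _)) n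

private theorem Tkb_span {K : Type} [CommRing K] {M T : Type} [AddCommGroup M] [Module K M]
    (φ : T → M) (L : List T) (m : M) (hm : m ∈ Submodule.span K {F | ∃ B ∈ L, F = φ B}) :
    ∃ k : List K, k.length = L.length ∧ m = ((k.zip L).map fun q => q.1 • φ q.2).sum := by
  have hset : {F | ∃ B ∈ L, F = φ B} = Set.range fun i : Fin L.length => φ (L.get i) := by
    ext F
    constructor
    · rintro ⟨B, hB, rfl⟩
      obtain ⟨i, hi⟩ := List.get_of_mem hB
      exact ⟨i, by rw [← hi]⟩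
    · rintro ⟨i, rfl⟩
      exact ⟨L.get i, List.get_mem _ _, rfl⟩
  rw [hset, Submodule.mem_span_range_iff_exists_fun] at hm
  obtain ⟨f, hf⟩ := hm
  refine ⟨List.ofFn f, List.length_ofFn, ?_⟩
  have hz : ((List.ofFn f).zip L).map (fun q => q.1 • φ q.2) =
      List.ofFn fun i : Fin L.length => f i • φ (L.get i) := by
    refine List.ext_getElem (by simp) ?_
    intro n h1 h2
    simp
  rw [hz, List.sum_ofFn, hf]

private theorem Tkb_listsum {M N' : Type} [AddCommGroup M] [AddCommGroup N'] (T : M →+ N') {α : Type}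
    (g : α → M) (L : List α) : T ((L.map g).sum) = (L.map fun q => T (g q)).sum := by
  rw [map_list_sum, List.map_map]
  rfl

private theorem Tkb_funsum {X G α : Type} [AddCommGroup G] (g : α → X → G) (L : List α) (x : X) :
    (L.map g).sum x = (L.map fun q => g q x).sum := by
  induction L with
  | nil => rfl
  | cons q L ih => simp [ih]

theorem thm_Tkb (hZ : St_Zwd) (hT : St_Tfx) (hE : St_Evt) (hD : St_Dwp) : St_Tkb := by
  intro K _ A _ _ hcube hr h3 a b c h6 L hL hB hC
  obtain ⟨⟨-, hBn, hCn, -⟩, -⟩ := hD a b c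
  set F : (ℕ → A) → A := fun x => (L.map fun q => q.1 • wp (q.2.map x)).sum with hFdef
  have hlen : ∀ q ∈ L, ∀ x : ℕ → A, (3 : ℤ) • wp (q.2.map x) = 0 := by
    intro q hq x
    refine h3 _ ?_
    rw [List.length_map, (hL q hq).length_eq]
    exact h6
  have hF3 : (3 : ℤ) • F = 0 := by
    funext x
    show (3 : ℤ) • (L.map fun q => q.1 • wp (q.2.map x)).sum = 0
    have h : (3 : ℤ) • (L.map fun q => q.1 • wp (q.2.map x)).sum =
        (L.map fun q => (3 : ℤ) • (q.1 • wp (q.2.map x))).sum :=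
      Tkb_listsum (zsmulAddGroupHom (3 : ℤ) : A →+ A) _ L
    rw [h]
    refine List.sum_eq_zero ?_
    intro y hy
    obtain ⟨q, hq, rfl⟩ := List.mem_map.1 hy
    rw [smul_comm, hlen q hq x, smul_zero]
  have hfB : ∀ i ∈ lB a b, ∀ j ∈ lB a b, i ≠ j →
      (sf 1 (lB a b) i j : AddMonoid.End ((ℕ → A) → A)) F = F := by
    intro i hi j hj _
    show (if i ∈ lB a b ∧ j ∈ lB a b then
      fun x : ℕ → A => (1 : ℤ) • (F (fun t => x (Equiv.swap i j t))) else 0) = F
    rw [if_pos ⟨hi, hj⟩]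
    funext x
    rw [one_smul]
    have := hB i hi j hj x
    simp only [hFdef]
    exact this
  have hfC : ∀ i ∈ lC a b c, ∀ j ∈ lC a b c, i ≠ j →
      (sf (-1) (lC a b c) i j : AddMonoid.End ((ℕ → A) → A)) F = F := by
    intro i hi j hj hij
    show (if i ∈ lC a b c ∧ j ∈ lC a b c then
      fun x : ℕ → A => (-1 : ℤ) • (F (fun t => x (Equiv.swap i j t))) else 0) = F
    rw [if_pos ⟨hi, hj⟩]
    funext x
    have := hC i hi j hj hij x
    simp only [hFdef]
    rw [neg_one_smul]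
    exact neg_eq_iff_eq_neg.2 this
  have hP1 : Pf A A a b c F = F := by
    show (To (sf 1 (lB a b)) (lB a b)) ((To (sf (-1) (lC a b c)) (lC a b c)) F) = F
    rw [hT _ _ _ F hCn hF3 hfC, hT _ _ _ F hBn hF3 hfB]
  have hPn : ∀ n : ℕ, ((Pf A A a b c) ^ n) F = F := by
    intro n
    induction n with
    | zero => rfl
    | succ n ih =>
      rw [pow_succ]
      show ((Pf A A a b c) ^ n) ((Pf A A a b c) F) = F
      rw [hP1, ih]
  -- the words
  have hsE : ∀ (ε : ℤ) (B : List ℕ), ∀ i ∈ B, ∀ j ∈ B, ∀ w : List ℕ,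
      (sf ε B i j : AddMonoid.End ((ℕ → A) → A)) (eA w) = ε • eA (w.map (Equiv.swap i j)) := by
    intro ε B i hi j hj w
    show (if i ∈ B ∧ j ∈ B then
      fun x : ℕ → A => ε • ((eA w : (ℕ → A) → A) (fun t => x (Equiv.swap i j t))) else 0) = _
    rw [if_pos ⟨hi, hj⟩]
    funext x
    show ε • wp (w.map fun t => x (Equiv.swap i j t)) = ε • wp ((w.map (Equiv.swap i j)).map x)
    rw [List.map_map]
    rfl
  have hstep : ∀ W : List (ℤ × List ℕ), Ewd (eA : List ℕ → (ℕ → A) → A) (Pw a b c W) =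
      Pf A A a b c (Ewd eA W) := by
    intro W
    unfold Pw
    rw [(hE _ _ 1 (lB a b) eA (hsE 1 _)).1, (hE _ _ (-1) (lC a b c) eA (hsE (-1) _)).1]
    rfl
  have hiter : ∀ (n : ℕ) (W : List (ℤ × List ℕ)),
      Ewd (eA : List ℕ → (ℕ → A) → A) ((Pw a b c)^[n] W) = ((Pf A A a b c) ^ n) (Ewd eA W) := by
    intro n
    induction n with
    | zero => intro W; rfl
    | succ n ih =>
      intro W
      rw [Function.iterate_succ_apply, ih, hstep, pow_succ]
      rfl
  have hone : ∀ w : List ℕ, Ewd (eA : List ℕ → (ℕ → A) → A) [(1, w)] = eA w := by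
    intro w
    simp [Ewd]
  -- membership
  have hmem : F ∈ Submodule.span K {G | ∃ B ∈ TB3 a b c, G = Ewd (eA : List ℕ → (ℕ → A) → A) B} := by
    have hFs : F = (L.map fun q => q.1 • (eA q.2 : (ℕ → A) → A)).sum := by
      funext x
      rw [Tkb_funsum]
      rfl
    have hPs : ((Pf A A a b c) ^ (a + b + c + 1)) ((L.map fun q => q.1 • (eA q.2 : (ℕ → A) → A)).sum) =
        (L.map fun q => ((Pf A A a b c) ^ (a + b + c + 1)) (q.1 • (eA q.2 : (ℕ → A) → A))).sum :=
      Tkb_listsum ((Pf A A a b c) ^ (a + b + c + 1) : AddMonoid.End ((ℕ → A) → A)) _ L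
    rw [← hPn (a + b + c + 1), hFs, hPs]
    refine list_sum_mem ?_
    intro G hG
    obtain ⟨q, hq, rfl⟩ := List.mem_map.1 hG
    show ((Pf A A a b c) ^ (a + b + c + 1)) (q.1 • (eA q.2 : (ℕ → A) → A)) ∈ _
    rw [Tkb_P (K := K) a b c (a + b + c + 1) q.1 (eA q.2)]
    refine Submodule.smul_mem _ _ ?_
    rw [← hone q.2, ← hiter]
    have h := hZ A hcube hr h3 a b c h6 q.2 (hL q hq)
    refine AddSubgroup.closure_induction (fun G hG => Submodule.subset_span hG)
      (Submodule.zero_mem _) (fun _ _ _ _ h1 h2 => Submodule.add_mem _ h1 h2)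
      (fun _ _ h1 => Submodule.neg_mem _ h1) h
  obtain ⟨k, hk, hkF⟩ := Tkb_span _ _ _ hmem
  refine ⟨k, hk, fun x => ?_⟩
  have hx : F (xs x) = (((k.zip (TB3 a b c)).map
      fun q => q.1 • Ewd (eA : List ℕ → (ℕ → A) → A) q.2).sum) (xs x) := by rw [← hkF]
  rw [Tkb_funsum] at hx
  have hv : ∀ B : List (ℤ × List ℕ), Ewd (eA : List ℕ → (ℕ → A) → A) B (xs x) = Vg B x := by
    intro B
    unfold Ewd
    rw [Tkb_funsum]
    rfl
  refine hx.trans ?_
  unfold Kc
  congr 1
  refine List.map_congr_left ?_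
  intro q _
  show q.1 • Ewd (eA : List ℕ → (ℕ → A) → A) q.2 (xs x) = q.1 • Vg q.2 x
  rw [hv]

end Pool.Agent.CRS
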