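import Pool.Agent.CRS.StB

/-!
Campaign CRS, p = 3, module Tw3: letters of the words of the table.
-/

set_option autoImplicit false

namespace Pool.Agent.CRS

theorem thm_Tw3 (hW : St_Wpm) (hD : St_Dwp) : St_Tw3 := by
  intro g B hB L hL q hq i
  obtain ⟨a, b, c, rfl, -, rfl⟩ := hB
  rw [((hW a b c).1 L hL q hq).mem_iff]
  exact (hD a b c).1.2.2.2.2.2.2.1 i

end Pool.Agent.CRS
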