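import Pool.Agent.CRS.K1
import Pool.Agent.CRS.TBX
import Pool.Agent.CRS.TBE
import Pool.Agent.CRS.RLB
import Pool.Agent.CRS.Rct
import Pool.Agent.CRS.Tri
import Pool.Agent.CRS.Czr
import Pool.Agent.CRS.Cor
import Pool.Agent.CRS.Cta
import Pool.Agent.CRS.Ctb
import Pool.Agent.CRS.Ctc
import Pool.Agent.CRS.Unq
import Pool.Agent.CRS.Eqv
import Pool.Agent.CRS.Brg
import Pool.Agent.CRS.Mlf
import Pool.Agent.CRS.Sym
import Pool.Agent.CRS.TwC

/-!
Campaign CRS, p = 2: case (C), assembled (problem MP_1bb14d_al, stage 7).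
-/

set_option autoImplicit false

namespace Pool.Agent.CRS

/-- Case (C) (from `St_K0`, `St_RLA`). -/
theorem fin_TwC (h0 : St_K0) (hr : St_RLA) : St_TwC :=
  thm_TwC h0 (fin_K1 h0) (thm_TBX (thm_RLB hr)) (thm_TBE (thm_WG h0)) thm_Tri (thm_Czr thm_Rct) (thm_Cor thm_Rct)
    (thm_Ctc (thm_Cta thm_Rct) thm_Ctb) (thm_Eqv thm_Unq (thm_WG h0)) thm_Brg thm_Mlf thm_Sym

end Pool.Agent.CRS
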