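import Pool.Agent.CRS.StF
import Pool.Agent.CRS.StQ
import Pool.Agent.CRS.DefsD

/-!
Campaign CRS: the final types for `p = 2, 3` (problem MP_1bb14d_al).
-/

set_option autoImplicit false

namespace Pool.Agent.CRS

open Pool.Agent.CRR Pool.Agent.CRN Pool.Agent.CRK Pool.Agent.CRL Pool.Agent.CRM Pool.Agent.CRP
open Pool.Agent.CRQ

/-- All words of `B` have length at most `m` and contain exactly the letters `0, ..., g - 1`. -/
def Wsh (m g : ℕ) (B : List (List (ℤ × List ℕ))) : Prop :=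
  ∀ b ∈ B, ∀ q ∈ b, (∀ i, i ∈ q.2 ↔ i < g) ∧ q.2.length ≤ m

/-- The two long words. -/
def Ta5 (g : ℕ) (B : List (List (ℤ × List ℕ))) : Prop := B = [A1 g] ∨ B = [A2 g]

/-- The lists `B` of combinations of words in the letters `0, ..., g - 1` for `p = 2, 3`: all words have length at most
6 (`p = 2`) or 5 (`p = 3`), or `p = 2`, `g = 5` and `B` is one of the words `x_0 x_0 x_1 x_0 x_2 x_3 x_4`,
`x_0 x_0 x_1 x_1 x_2 x_3 x_4`, or `p = 2`, `g ≥ 6` and `B` is in the table `Tb2`, or `p = 3` and `B` is in the table `Td3`. -/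
def Tbl (p g : ℕ) (B : List (List (ℤ × List ℕ))) : Prop :=
  (p = 2 ∧ (Wsh 6 g B ∨ (g = 5 ∧ Ta5 g B) ∨ (6 ≤ g ∧ Tb2 g B))) ∨
  (p = 3 ∧ (Wsh 5 g B ∨ Td3 g B))

variable (R : Type) [NonUnitalRing R]

/-- The nilpotent type for powers of 2 and 3: `x^3 = 0`, the order of `R` is a power of `p = 2` or `p = 3`, `R` has a least
nonzero ideal `H`, it is generated by some `g` elements, and there are integers `c_i` and combinations `B_i` of words, given
by the list `Tbl p g`, such that the function `f = ∑ c_i B_i` (`Kc c B`) of `g` arguments has values in `H`, depends only on the arguments modulo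
`R^2 + p R`, is zero if the arguments do not generate `R`, and is not always zero. -/
def NilE : Prop := (∀ x : R, x * x * x = 0) ∧ ∃ (p : ℕ) (H : AddSubgroup R), (p = 2 ∨ p = 3) ∧
  (∃ r : ℕ, ∀ x : R, (p ^ r) • x = 0) ∧ Lst R H ∧
  ∃ (g : ℕ) (B : List (List (ℤ × List ℕ))) (c : List ℤ), Tbl p g B ∧ c.length = B.length ∧
    (∃ z : Fin g → R, NonUnitalSubring.closure (Set.range z) = ⊤) ∧
    (∀ x : Fin g → R, Kc c B x ∈ H ∧
      (∀ y : Fin g → R, (∀ i, x i - y i ∈ KJ R p) → Kc c B x = Kc c B y) ∧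
      (NonUnitalSubring.closure (Set.range x) ≠ ⊤ → Kc c B x = 0)) ∧
    ∃ x : Fin g → R, Kc c B x ≠ 0

/-- The central local type for powers of 2 and 3: `R` is a local ring with identity `e`, its order is a power of `p = 2` or
`p = 3`, `H` is its least nonzero ideal, `t₀` is a central frame, and `R` is generated by `t₀`, or by `t₀` and `g` nil elements,
and there are combinations `c_i` of powers of `t` and combinations `B_i` of words, given by the list `Tbl p g`, such that for
every frame `t` and all nil `x_i` the value `f(t, x) = ∑ c_i(t) B_i(x)` (`Lc e c B t x`) is in `H`, depends only on the `x_i` modulo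
`J^2 + p R`, is zero if `t` and the `x_i` do not generate `R`, and is not always zero. -/
def CenE (n : ℕ) : Prop := ∃ (p : ℕ) (e t₀ : R) (H : AddSubgroup R), (p = 2 ∨ p = 3) ∧
  Lcx R n p e t₀ H ∧ (∀ r, t₀ * r = r * t₀) ∧ (NonUnitalSubring.closure ({t₀} : Set R) = ⊤ ∨
    ∃ (g : ℕ) (B : List (List (ℤ × List ℕ))) (c : List (List (ℤ × ℕ))), Tbl p g B ∧
    c.length = B.length ∧
    (∃ z : Fin g → R, (∀ i, Nl (z i)) ∧ NonUnitalSubring.closure ({t₀} ∪ Set.range z) = ⊤) ∧
    (∀ (t : R) (x : Fin g → R), Frame R n 1 (fun _ => t) → (∀ i, Nl (x i)) →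
      Lc e c B t x ∈ H ∧
      (∀ y : Fin g → R, (∀ i, Nl (y i) ∧ x i - y i ∈ KJ R p) → Lc e c B t x = Lc e c B t y) ∧
      (NonUnitalSubring.closure ({t} ∪ Set.range x) ≠ ⊤ → Lc e c B t x = 0)) ∧
    ∃ (t : R) (x : Fin g → R), Frame R n 1 (fun _ => t) ∧ (∀ i, Nl (x i)) ∧ Lc e c B t x ≠ 0)

variable {R}

theorem Types_nil : NilE R ↔ NilG Tbl R := Iff.rfl

theorem Types_cen {n : ℕ} : CenE R n ↔ CenG Tbl R n := Iff.rfl

end Pool.Agent.CRS
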